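import Pool.Agent.Helper265_EW.GDefs

set_option linter.unusedSectionVars false

/-! Alternating quantification over tuples. -/

namespace Pool.Agent.Helper265_EW

open Finset Classical

/-- tuples with one component per level -/
def Tup (J : ℕ → Type) : ℕ → Type
  | 0 => Unit
  | n + 1 => Tup J n × J n

noncomputable instance instFtTup (J : ℕ → Type) [∀ i, Fintype (J i)] : (n : ℕ) → Fintype (Tup J n)
  | 0 => inferInstanceAs (Fintype Unit)
  | n + 1 => by
      haveI := instFtTup J n
      exact inferInstanceAs (Fintype (Tup J n × J n))

noncomputable instance instDecTup (J : ℕ → Type) (n : ℕ) : DecidableEq (Tup J n) :=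
  Classical.decEq _

/-- alternating quantification, level `0` outermost and universal -/
def alt (J : ℕ → Type) : (n : ℕ) → (Tup J n → Prop) → Prop
  | 0, g => g ()
  | n + 1, g => alt J n (fun v => lev n (fun x => g (v, x)))

lemma card_Tup_succ (J : ℕ → Type) [∀ i, Fintype (J i)] (n : ℕ) :
    Fintype.card (Tup J (n + 1)) = Fintype.card (Tup J n) * Fintype.card (J n) := by
  have : Fintype.card (Tup J (n + 1)) = Fintype.card (Tup J n × J n) :=
    Fintype.card_congr (Equiv.refl _)
  rw [this, Fintype.card_prod]

lemma card_Tup_zero (J : ℕ → Type) [∀ i, Fintype (J i)] : Fintype.card (Tup J 0) = 1 := by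
  have : Fintype.card (Tup J 0) = Fintype.card Unit := Fintype.card_congr (Equiv.refl _)
  rw [this]; rfl

lemma card_Tup_const (X : Type) [Fintype X] (n : ℕ) :
    Fintype.card (Tup (fun _ => X) n) = Fintype.card X ^ n := by
  induction n with
  | zero => rw [card_Tup_zero, pow_zero]
  | succ n ih => rw [card_Tup_succ, ih, pow_succ]

lemma lev_even {i : ℕ} (h : i % 2 = 0) {α : Type} (F : α → Prop) : lev i F ↔ ∀ a, F a := by
  unfold lev; rw [if_pos h]

lemma lev_odd {i : ℕ} (h : i % 2 = 1) {α : Type} (F : α → Prop) : lev i F ↔ ∃ a, F a := by
  unfold lev; rw [if_neg (by omega)]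

lemma lev_congr (i : ℕ) {α : Type} {F F' : α → Prop} (h : ∀ a, F a ↔ F' a) :
    lev i F ↔ lev i F' := by
  have : F = F' := funext fun a => propext (h a)
  rw [this]

lemma lev_mono (i : ℕ) {α : Type} {F F' : α → Prop} (h : ∀ a, F a → F' a) (hF : lev i F) :
    lev i F' := by
  rcases Nat.mod_two_eq_zero_or_one i with hi | hi
  · rw [lev_even hi] at hF ⊢
    exact fun a => h a (hF a)
  · rw [lev_odd hi] at hF ⊢
    obtain ⟨a, ha⟩ := hF
    exact ⟨a, h a ha⟩

lemma lev_const (i : ℕ) {α : Type} [Nonempty α] (p : Prop) : lev i (fun _ : α => p) ↔ p := by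
  rcases Nat.mod_two_eq_zero_or_one i with hi | hi
  · rw [lev_even hi]; simp
  · rw [lev_odd hi]; simp

lemma lev_surj (i : ℕ) {α β : Type} (f : α → β) (hf : Function.Surjective f) (F : β → Prop) :
    lev i (fun a => F (f a)) ↔ lev i F := by
  rcases Nat.mod_two_eq_zero_or_one i with hi | hi
  · rw [lev_even hi, lev_even hi]
    constructor
    · intro h b
      obtain ⟨a, rfl⟩ := hf b
      exact h a
    · intro h a; exact h _
  · rw [lev_odd hi, lev_odd hi]
    constructor
    · rintro ⟨a, h⟩; exact ⟨_, h⟩
    · rintro ⟨b, h⟩
      obtain ⟨a, rfl⟩ := hf b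
      exact ⟨a, h⟩

lemma lev_prod (i : ℕ) {α β : Type} (F : α → β → Prop) :
    lev i (fun a => lev i (fun b => F a b)) ↔ lev i (fun x : α × β => F x.1 x.2) := by
  rcases Nat.mod_two_eq_zero_or_one i with hi | hi
  · simp only [lev_even hi, Prod.forall]
  · simp only [lev_odd hi, Prod.exists]

lemma alt_congr (J : ℕ → Type) {n : ℕ} {g g' : Tup J n → Prop} (h : ∀ v, g v ↔ g' v) :
    alt J n g ↔ alt J n g' := by
  have : g = g' := funext fun a => propext (h a)
  rw [this]

lemma alt_mono (J : ℕ → Type) (n : ℕ) :
    ∀ {g g' : Tup J n → Prop}, (∀ v, g v → g' v) → alt J n g → alt J n g' := by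
  induction n with
  | zero => intro g g' h hg; exact h _ hg
  | succ n ih =>
    intro g g' h hg
    exact ih (fun v => lev_mono n (fun x => h (v, x))) hg

/-- the value of a tuple of partially valid components: a valid tuple, or the neutral value of the
first invalid level -/
def stt {A X : ℕ → Type} (π : ∀ i, A i → Option (X i)) : (n : ℕ) → Tup A n → Tup X n ⊕ Bool
  | 0, _ => Sum.inl ()
  | n + 1, v => match stt π n v.1 with
    | Sum.inr b => Sum.inr b
    | Sum.inl x => match π n v.2 with
      | some y => Sum.inl (x, y)
      | none => Sum.inr (decide (n % 2 = 0))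

/-- relativization of alternating quantifiers -/
lemma alt_rel {A X : ℕ → Type} (π : ∀ i, A i → Option (X i))
    (hπ : ∀ i x, ∃ a, π i a = some x) (n : ℕ) :
    ∀ (F : Tup A n → Prop) (F' : Tup X n → Prop),
      (∀ i, i < n → (∃ (j : ℕ) (a : A j), j < n ∧ π j a = none) → Nonempty (A i)) →
      (∀ v x, stt π n v = Sum.inl x → (F v ↔ F' x)) →
      (∀ v b, stt π n v = Sum.inr b → (F v ↔ b = true)) →
      (alt A n F ↔ alt X n F') := by
  induction n with
  | zero =>
    intro F F' _ h1 _
    exact h1 () () rfl
  | succ n ih =>
    intro F F' hne h1 h2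
    refine ih _ _ ?_ ?_ ?_
    · rintro i hi ⟨j, a, hj, ha⟩
      exact hne i (by omega) ⟨j, a, by omega, ha⟩
    · intro v x hv
      -- restrict to the valid components
      have key : ∀ a, (F (v, a) ↔ match π n a with
        | some y => F' (x, y)
        | none => (n % 2 = 0)) := by
        intro a
        cases hπa : π n a with
        | none =>
          have : stt π (n + 1) (v, a) = Sum.inr (decide (n % 2 = 0)) := by
            simp only [stt, hv, hπa]
          simpa using h2 _ _ this
        | some y =>
          have : stt π (n + 1) (v, a) = Sum.inl (x, y) := by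
            simp only [stt, hv, hπa]
            rfl
          exact h1 _ _ this
      rw [lev_congr n key]
      rcases Nat.mod_two_eq_zero_or_one n with hi | hi
      · rw [lev_even hi, lev_even hi]
        constructor
        · intro h y
          obtain ⟨a, ha⟩ := hπ n y
          have := h a
          rw [ha] at this
          exact this
        · intro h a
          cases π n a with
          | none => exact hi
          | some y => exact h y
      · rw [lev_odd hi, lev_odd hi]
        constructor
        · rintro ⟨a, ha⟩
          cases hπa : π n a with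
          | none => rw [hπa] at ha; exact absurd ha (by simp [hi])
          | some y => rw [hπa] at ha; exact ⟨y, ha⟩
        · rintro ⟨y, hy⟩
          obtain ⟨a, ha⟩ := hπ n y
          refine ⟨a, ?_⟩
          rw [ha]; exact hy
    · intro v b hv
      have hinv : ∃ (j : ℕ) (a : A j), j < n + 1 ∧ π j a = none := by
        -- an invalid component occurs in `v`
        clear h1 h2 hne ih F F'
        induction n with
        | zero => exact absurd hv (by simp [stt])
        | succ n ihn =>
          simp only [stt] at hv
          cases h3 : stt π n v.1 with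
          | inr b' =>
            obtain ⟨j, a, hj, ha⟩ := ihn v.1 (by
              rw [h3] at hv
              simp only [Sum.inr.injEq] at hv
              rw [h3, hv])
            exact ⟨j, a, by omega, ha⟩
          | inl x =>
            rw [h3] at hv
            simp only at hv
            cases h4 : π n v.2 with
            | none => exact ⟨n, v.2, by omega, h4⟩
            | some y => rw [h4] at hv; exact absurd hv (by simp)
      have : Nonempty (A n) := hne n (by omega) hinv
      have key : ∀ a, (F (v, a) ↔ b = true) := by
        intro a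
        have : stt π (n + 1) (v, a) = Sum.inr b := by simp only [stt, hv]
        exact h2 _ _ this
      rw [lev_congr n key, lev_const]

end Pool.Agent.Helper265_EW
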