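import Mathlib

/-! Finite structures, quantifier-free formulas with a relation variable, and transformations of
structures computed by constant-depth formulas of size `2 ^ O(k) * n ^ O(1)` whose new parameter
is `O (k + log n)`. -/

namespace Pool.Agent.Helper265_EW

/-- A finite relational vocabulary: relation symbols `0, …, num - 1`, the arity of `R` is
`ar R`. -/
structure Voc where
  num : ℕ
  ar : Fin num → ℕ

/-- A structure over the vocabulary `τ` with universe `U`. -/
def Str (τ : Voc) (U : Type) : Type := ∀ R : Fin τ.num, (Fin (τ.ar R) → U) → Bool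

/-- Quantifier-free formulas over `τ` with first-order variables in `V` and one relation
variable `X` of arity `s`; `mem v` is the atom `X(v)`. -/
inductive QF (τ : Voc) (s : ℕ) (V : Type) : Type
  | rel (R : Fin τ.num) (v : Fin (τ.ar R) → V) : QF τ s V
  | eq (u v : V) : QF τ s V
  | mem (v : Fin s → V) : QF τ s V
  | not (φ : QF τ s V) : QF τ s V
  | and (φ ψ : QF τ s V) : QF τ s V

namespace QF

variable {τ : Voc} {s : ℕ} {V : Type}

/-- The number of occurrences of `X`. -/
def occ : QF τ s V → ℕ
  | rel _ _ => 0
  | eq _ _ => 0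
  | mem _ => 1
  | not φ => φ.occ
  | and φ ψ => φ.occ + ψ.occ

/-- Truth in the structure `A` when `X` is interpreted by `S` and the variables by `a`. -/
def Holds {U : Type} (A : Str τ U) (S : Finset (Fin s → U)) (a : V → U) : QF τ s V → Prop
  | rel R v => A R (fun i => a (v i)) = true
  | eq u v => a u = a v
  | mem v => (fun i => a (v i)) ∈ S
  | not φ => ¬ φ.Holds A S a
  | and φ ψ => φ.Holds A S a ∧ ψ.Holds A S a

end QF

/-- Boolean formulas in input bits indexed by `J`, with AND and OR gates of arbitrary finite
fan-in and negations at the leaves: `lit j b` says that bit `j` has the value `b`. -/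
inductive Fm (J : Type) : Type
  | lit (j : J) (b : Bool) : Fm J
  | and (m : ℕ) (f : Fin m → Fm J) : Fm J
  | or (m : ℕ) (f : Fin m → Fm J) : Fm J

namespace Fm

variable {J : Type}

/-- Truth of a formula under an input. -/
def Holds (x : J → Bool) : Fm J → Prop
  | lit j b => x j = b
  | and _ f => ∀ i, (f i).Holds x
  | or _ f => ∃ i, (f i).Holds x

/-- Depth: maximal number of nested gates. -/
def depth : Fm J → ℕ
  | lit _ _ => 0
  | and _ f => (Finset.univ.sup fun i => (f i).depth) + 1
  | or _ f => (Finset.univ.sup fun i => (f i).depth) + 1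

/-- Size: number of gates and leaves. -/
def size : Fm J → ℕ
  | lit _ _ => 1
  | and _ f => (∑ i, (f i).size) + 1
  | or _ f => (∑ i, (f i).size) + 1

end Fm

/-- The positions of the tables of a `τ`-structure with universe `{0, …, n - 1}`. -/
abbrev Bit (τ : Voc) (n : ℕ) : Type := Σ R : Fin τ.num, (Fin (τ.ar R) → Fin n)

/-- The 0-1 tables of a structure. -/
def bits {τ : Voc} {n : ℕ} (A : Str τ (Fin n)) : Bit τ n → Bool := fun j => A j.1 j.2

/-- A transformation from `τ`-structures with universe `{0, …, n - 1}` to pairs of a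
`τ'`-structure and a number, computed bit by bit by Boolean formulas in the tables of the
input structure. The universe of the output is a subset of `{0, …, M - 1}`: the formula `dom a`
says whether `a` belongs to it. The formula `rel R v` says whether the relation `R` holds for
the tuple `v`, and the formula `par j` says whether the new parameter is `j`. -/
structure Tr (τ τ' : Voc) (n : ℕ) where
  M : ℕ
  K : ℕ
  dom : Fin M → Fm (Bit τ n)
  rel : ∀ R : Fin τ'.num, (Fin (τ'.ar R) → Fin M) → Fm (Bit τ n)
  par : Fin (K + 1) → Fm (Bit τ n)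

namespace Tr

variable {τ τ' : Voc} {n : ℕ}

/-- The universe of the output structure. -/
def Univ (T : Tr τ τ' n) (A : Str τ (Fin n)) : Type :=
  {a : Fin T.M // (T.dom a).Holds (bits A)}

open Classical in
/-- The output structure. -/
noncomputable def out (T : Tr τ τ' n) (A : Str τ (Fin n)) : Str τ' (T.Univ A) :=
  fun R v => decide ((T.rel R (fun i => (v i).1)).Holds (bits A))

/-- The resource bounds: with `Z = 2 ^ k * (n + 2)`, at most `Z ^ c` candidate elements, new
parameter at most `c * (k + log₂ (n + 1) + 1)`, and all formulas have depth at most `c` and size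
at most `Z ^ c`. -/
def Bounded (T : Tr τ τ' n) (k c : ℕ) : Prop :=
  T.M ≤ (2 ^ k * (n + 2)) ^ c ∧
  T.K ≤ c * (k + Nat.log 2 (n + 1) + 1) ∧
  (∀ a, (T.dom a).depth ≤ c ∧ (T.dom a).size ≤ (2 ^ k * (n + 2)) ^ c) ∧
  (∀ R v, (T.rel R v).depth ≤ c ∧ (T.rel R v).size ≤ (2 ^ k * (n + 2)) ^ c) ∧
  (∀ j, (T.par j).depth ≤ c ∧ (T.par j).size ≤ (2 ^ k * (n + 2)) ^ c)

end Tr

end Pool.Agent.Helper265_EW
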