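import Pool.Agent.Helper265_EW.CFm

set_option linter.unusedSectionVars false

/-! Quantifier-free interpretations whose domain does not depend on the relations, followed by
constant-depth transformations. -/

namespace Pool.Agent.Helper265_EW.C

open Finset Classical Pool.Agent.Helper265_EW.G Pool.Agent.Helper265_EW.P

noncomputable section

/-- the domain does not depend on the relations -/
def Indep {τ τ' : Voc} (I : QInt τ τ') : Prop :=
  ∀ (n k : ℕ) (A A' : Str τ (Fin n)) (tg : I.Tag) (w : I.Ix → Base n k),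
    I.dom tg (atp A w) = I.dom tg (atp A' w)

instance instFI {τ τ' : Voc} (I : QInt τ τ') : Fintype I.Ix := @Fintype.ofFinite _ I.finIx

/-- the structure with empty relations -/
def nul (τ : Voc) (n : ℕ) : Str τ (Fin n) := fun _ _ => false

section Comp

variable {τ τ' τ'' : Voc} (I : QInt τ τ') {n k n' : ℕ}

/-- the family of objects behind a tuple of elements -/
def fam (e₀ : I.Univ (nul τ n) k ≃ Fin n') (j : Bit τ' n') :
    Fin (τ'.ar j.1) × I.Ix → Base n k := fun p => (e₀.symm (j.2 p.1)).1.2 p.2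

/-- the function giving a bit -/
def fnc (e₀ : I.Univ (nul τ n) k ≃ Fin n') (j : Bit τ' n') :
    (∀ R : Fin τ.num, (Fin (τ.ar R) → Fin (τ'.ar j.1) × I.Ix) → Bool) → Bool := fun ρ =>
  I.rel j.1 (fun i => (e₀.symm (j.2 i)).1.1) { atp (nul τ n) (fam I e₀ j) with rel := ρ }

/-- the formula for a bit -/
def gF (e₀ : I.Univ (nul τ n) k ≃ Fin n') (j : Bit τ' n') (b : Bool) : Fm (Bit τ n) :=
  bitF (fnc I e₀ j) (fam I e₀ j) b

/-- the output with universe `Fin n'` -/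
def outF (hI : Indep I) (e₀ : I.Univ (nul τ n) k ≃ Fin n') (A : Str τ (Fin n)) :
    Str τ' (Fin n') :=
  fun R w => (I.out A k) R (fun i => ⟨(e₀.symm (w i)).1, by
    have h := (e₀.symm (w i)).2
    rw [hI n k A (nul τ n)]
    exact h⟩)

lemma holds_gF (hI : Indep I) (e₀ : I.Univ (nul τ n) k ≃ Fin n') (A : Str τ (Fin n))
    (j : Bit τ' n') (b : Bool) :
    (gF I e₀ j b).Holds (bits A) ↔ bits (outF I hI e₀ A) j = b := by
  unfold gF
  rw [holds_bitF]
  exact Iff.rfl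

/-- the equivalence of the universes -/
def eqvU (hI : Indep I) (e₀ : I.Univ (nul τ n) k ≃ Fin n') (A : Str τ (Fin n)) :
    I.Univ A k ≃ Fin n' :=
  (Equiv.subtypeEquivRight (fun x => by rw [hI n k A (nul τ n)])).trans e₀

lemma outF_WD (hI : Indep I) (e₀ : I.Univ (nul τ n) k ≃ Fin n') (A : Str τ (Fin n))
    {s t : ℕ} (φ : PiF τ' s t) (K : ℕ) : WDF φ (outF I hI e₀ A) K ↔ WDF φ (I.out A k) K := by
  rw [← WDF_equiv (eqvU I hI e₀ A) φ (I.out A k) K]
  exact Iff.rfl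

/-- the composition -/
def comT (e₀ : I.Univ (nul τ n) k ≃ Fin n') (T : Tr τ' τ'' n') : Tr τ τ'' n where
  M := T.M
  K := T.K
  dom a := subst (gF I e₀) (T.dom a)
  rel R v := subst (gF I e₀) (T.rel R v)
  par j := subst (gF I e₀) (T.par j)

lemma comT_dom (hI : Indep I) (e₀ : I.Univ (nul τ n) k ≃ Fin n') (T : Tr τ' τ'' n')
    (A : Str τ (Fin n)) (a : Fin T.M) :
    ((comT I e₀ T).dom a).Holds (bits A) ↔ (T.dom a).Holds (bits (outF I hI e₀ A)) :=
  holds_subst _ _ _ (holds_gF I hI e₀ A) _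

lemma comT_rel (hI : Indep I) (e₀ : I.Univ (nul τ n) k ≃ Fin n') (T : Tr τ' τ'' n')
    (A : Str τ (Fin n)) (R : Fin τ''.num) (v : Fin (τ''.ar R) → Fin T.M) :
    ((comT I e₀ T).rel R v).Holds (bits A) ↔ (T.rel R v).Holds (bits (outF I hI e₀ A)) :=
  holds_subst _ _ _ (holds_gF I hI e₀ A) _

lemma comT_par (hI : Indep I) (e₀ : I.Univ (nul τ n) k ≃ Fin n') (T : Tr τ' τ'' n')
    (A : Str τ (Fin n)) (j : Fin (T.K + 1)) :
    ((comT I e₀ T).par j).Holds (bits A) ↔ (T.par j).Holds (bits (outF I hI e₀ A)) :=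
  holds_subst _ _ _ (holds_gF I hI e₀ A) _

/-- the equivalence of the universes of the two outputs -/
def eqvT (hI : Indep I) (e₀ : I.Univ (nul τ n) k ≃ Fin n') (T : Tr τ' τ'' n')
    (A : Str τ (Fin n)) : (comT I e₀ T).Univ A ≃ T.Univ (outF I hI e₀ A) :=
  Equiv.subtypeEquivRight (fun a => comT_dom I hI e₀ T A a)

lemma comT_WD (hI : Indep I) (e₀ : I.Univ (nul τ n) k ≃ Fin n') (T : Tr τ' τ'' n')
    (A : Str τ (Fin n)) {s t : ℕ} (φ : PiF τ'' s t) (K : ℕ) :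
    WDF φ ((comT I e₀ T).out A) K ↔ WDF φ (T.out (outF I hI e₀ A)) K := by
  rw [← WDF_equiv (eqvT I hI e₀ T A) φ ((comT I e₀ T).out A) K]
  have h : (fun R w => (comT I e₀ T).out A R (fun i => (eqvT I hI e₀ T A).symm (w i)) :
      Str τ'' (T.Univ (outF I hI e₀ A))) = T.out (outF I hI e₀ A) := by
    funext R w
    unfold Tr.out
    exact decide_eq_decide.mpr (comT_rel I hI e₀ T A R (fun i => (w i).1))
  rw [h]

end Comp

section Bounds

variable {τ τ' : Voc} (I : QInt τ τ')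

/-- the bound on the sizes of the bit formulas -/
def szI : ℕ :=
  1 + ∑ R : Fin τ'.num, szB τ (Fin (τ'.ar R) × I.Ix)

lemma szI_pos : 1 ≤ szI I := by
  unfold szI
  omega

lemma size_gF {n k n' : ℕ} (e₀ : I.Univ (nul τ n) k ≃ Fin n') (j : Bit τ' n') (b : Bool) :
    (gF I e₀ j b).size ≤ szI I := by
  unfold gF szI
  refine (size_bitF _ _ _).trans ?_
  have h := Finset.single_le_sum (f := fun R : Fin τ'.num => szB τ (Fin (τ'.ar R) × I.Ix))
    (fun _ _ => Nat.zero_le _) (Finset.mem_univ j.1)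
  omega

lemma depth_gF {n k n' : ℕ} (e₀ : I.Univ (nul τ n) k ≃ Fin n') (j : Bit τ' n') (b : Bool) :
    (gF I e₀ j b).depth ≤ 3 := by
  unfold gF
  exact depth_bitF _ _ _

/-- the size of the universe -/
lemma univ_bd : ∃ a b : ℕ, ∀ n k : ℕ, ∀ A : Str τ (Fin n),
    Nat.card (I.Univ A k) ≤ a * (n + k + 1) ^ b := by
  have h1 := I.finTag
  have h2 := I.finIx
  refine ⟨Nat.card I.Tag, Nat.card I.Ix, fun n k A => ?_⟩
  have h4 : Nat.card (I.Univ A k) ≤ Nat.card (I.Tag × (I.Ix → Base n k)) :=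
    Nat.card_le_card_of_injective (fun x => x.1) Subtype.val_injective
  refine h4.trans ?_
  rw [Nat.card_prod, Nat.card_fun]
  have h5 : Nat.card (Base n k) = n + k + 1 := by
    simp [Base]
    ring
  rw [h5]

/-- numerical bounds for the size parameter -/
lemma num_bd (a b : ℕ) {n k n' : ℕ} (hn : 1 ≤ n) (hk : 1 ≤ k) (h : n' ≤ a * (n + k + 1) ^ b) :
    2 ^ (k + 1) * (n' + 2) ≤ (2 ^ k * (n + 2)) ^ (a + b + 3) ∧
    n' ≤ (2 ^ k * (n + 2)) ^ (a + b) ∧
    k + 1 + Nat.log 2 (n' + 1) + 1 ≤ (2 * (a + b + 1) + 2) * (k + Nat.log 2 (n + 1) + 1) := by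
  obtain ⟨Z, hZ⟩ : ∃ Z, Z = 2 ^ k * (n + 2) := ⟨_, rfl⟩
  have e1 : k + 1 ≤ 2 ^ k := Nat.lt_pow_self (by norm_num)
  have hZ1 : n + k + 1 ≤ Z := by
    rw [hZ]
    calc n + k + 1 ≤ (k + 1) * (n + 2) := by nlinarith
      _ ≤ _ := Nat.mul_le_mul_right _ e1
  have hZ2 : 2 ^ k * 2 ≤ Z := by
    rw [hZ]
    exact Nat.mul_le_mul_left _ (by omega)
  have hZ3 : 2 ≤ Z := by omega
  have ha : a ≤ Z ^ a := by
    calc a ≤ 2 ^ a := (Nat.lt_pow_self (by norm_num)).le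
      _ ≤ Z ^ a := Nat.pow_le_pow_left hZ3 _
  have hn' : n' ≤ Z ^ (a + b) := by
    calc n' ≤ a * (n + k + 1) ^ b := h
      _ ≤ Z ^ a * Z ^ b := Nat.mul_le_mul ha (Nat.pow_le_pow_left hZ1 _)
      _ = Z ^ (a + b) := by rw [← pow_add]
  have hp : 1 ≤ Z ^ (a + b) := Nat.one_le_pow _ _ (by omega)
  have hn1 : n' + 1 ≤ Z ^ (a + b + 1) := by
    calc n' + 1 ≤ Z ^ (a + b) + Z ^ (a + b) := Nat.add_le_add hn' hp
      _ = Z ^ (a + b) * 2 := by ring
      _ ≤ Z ^ (a + b) * Z := Nat.mul_le_mul_left _ hZ3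
      _ = Z ^ (a + b + 1) := by rw [pow_succ]
  have hn2 : n' + 2 ≤ Z ^ (a + b + 2) := by
    have hp1 : 1 ≤ Z ^ (a + b + 1) := Nat.one_le_pow _ _ (by omega)
    calc n' + 2 ≤ Z ^ (a + b + 1) + Z ^ (a + b + 1) := by omega
      _ = Z ^ (a + b + 1) * 2 := by ring
      _ ≤ Z ^ (a + b + 1) * Z := Nat.mul_le_mul_left _ hZ3
      _ = Z ^ (a + b + 2) := by rw [← pow_succ]
  rw [← hZ]
  refine ⟨?_, hn', ?_⟩
  · calc 2 ^ (k + 1) * (n' + 2) ≤ Z * Z ^ (a + b + 2) := by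
          apply Nat.mul_le_mul _ hn2
          rw [pow_succ]
          exact hZ2
      _ = Z ^ (a + b + 3) := by rw [← pow_succ']
  · obtain ⟨L, hL⟩ : ∃ L, L = Nat.log 2 (n + 1) := ⟨_, rfl⟩
    have e2 : n + 2 ≤ 2 ^ (L + 2) := by
      have : n + 1 < 2 ^ (L + 1) := by
        rw [hL]
        exact Nat.lt_pow_succ_log_self (by norm_num) _
      have e3 : 2 ^ (L + 2) = 2 ^ (L + 1) * 2 := by rw [pow_succ 2 (L + 1)]
      omega
    have e4 : Z ≤ 2 ^ (k + L + 2) := by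
      rw [hZ]
      calc 2 ^ k * (n + 2) ≤ 2 ^ k * 2 ^ (L + 2) := Nat.mul_le_mul_left _ e2
        _ = 2 ^ (k + L + 2) := by rw [← pow_add]; congr 1
    have e5 : Nat.log 2 (n' + 1) ≤ (k + L + 2) * (a + b + 1) := by
      calc Nat.log 2 (n' + 1) ≤ Nat.log 2 (2 ^ ((k + L + 2) * (a + b + 1))) := by
            apply Nat.log_mono_right
            refine hn1.trans ?_
            rw [pow_mul]
            exact Nat.pow_le_pow_left e4 _
        _ = _ := Nat.log_pow (by norm_num) _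
    rw [← hL]
    have e6 : k + L + 2 ≤ 2 * (k + L + 1) := by omega
    have e7 : (k + L + 2) * (a + b + 1) ≤ 2 * (k + L + 1) * (a + b + 1) :=
      Nat.mul_le_mul_right _ e6
    have e8 : (2 * (a + b + 1) + 2) * (k + L + 1) =
        2 * (k + L + 1) * (a + b + 1) + 2 * (k + L + 1) := by ring
    omega

end Bounds

/-- Composition of a quantifier-free interpretation with new parameter `k + 1` and a
constant-depth reduction. -/
theorem comp_AC0 {τ τ' τ'' : Voc} {s t s' t' s'' t'' : ℕ} {φ : PiF τ s t} {φ' : PiF τ' s' t'}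
    {φ'' : PiF τ'' s'' t''} (I : QInt τ τ') (hI : Indep I)
    (hne : ∀ n k, 1 ≤ n → Nonempty (I.Univ (nul τ n) k))
    (hcor : ∀ n k : ℕ, 1 ≤ n → ∀ A : Str τ (Fin n), (WDF φ A k ↔ WDF φ' (I.out A k) (k + 1)))
    {p q : ℕ} (h : AC0Red p q φ' φ'') : AC0Red p q φ φ'' := by
  obtain ⟨c, hc⟩ := h
  obtain ⟨a, b, hab⟩ := univ_bd I
  have hfT := I.finTag
  have hfI := I.finIx
  obtain ⟨C, hC⟩ : ∃ C, C = (a + b + 3) * c + szI I + c * (2 * (a + b + 1) + 2) ^ p + c + 3 :=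
    ⟨_, rfl⟩
  refine ⟨C, fun n k hn hk => ?_⟩
  obtain ⟨n', hn'⟩ : ∃ n', n' = Nat.card (I.Univ (nul τ n) k) := ⟨_, rfl⟩
  have hfin : Finite (I.Univ (nul τ n) k) := by
    unfold QInt.Univ
    infer_instance
  have e₀ : I.Univ (nul τ n) k ≃ Fin n' := by
    rw [hn']
    exact Finite.equivFin _
  have hn1 : 1 ≤ n' := by
    rw [hn']
    have := hne n k hn
    exact Nat.card_pos
  obtain ⟨hb1, hb2, hb3⟩ := num_bd (n' := n') a b hn hk (by rw [hn']; exact hab n k (nul τ n))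
  obtain ⟨T, ⟨hM, hK, hdom, hrel, hpar⟩, hT⟩ := hc n' (k + 1) hn1 (by omega)
  obtain ⟨Z, hZ⟩ : ∃ Z, Z = 2 ^ k * (n + 2) := ⟨_, rfl⟩
  have hZ2 : 2 ≤ Z := by
    rw [hZ]
    calc 2 = 1 * 2 := rfl
      _ ≤ 2 ^ k * (n + 2) := Nat.mul_le_mul Nat.one_le_two_pow (by omega)
  rw [← hZ] at hb1
  have hZc : (2 ^ (k + 1) * (n' + 2)) ^ c ≤ Z ^ ((a + b + 3) * c) := by
    rw [pow_mul]
    exact Nat.pow_le_pow_left hb1 _
  have hsz : ∀ x : ℕ, x ≤ (2 ^ (k + 1) * (n' + 2)) ^ c → x * szI I ≤ Z ^ C := by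
    intro x hx
    calc x * szI I ≤ Z ^ ((a + b + 3) * c) * Z ^ szI I := by
          apply Nat.mul_le_mul (hx.trans hZc)
          calc szI I ≤ 2 ^ szI I := (Nat.lt_pow_self (by norm_num)).le
            _ ≤ Z ^ szI I := Nat.pow_le_pow_left hZ2 _
      _ = Z ^ ((a + b + 3) * c + szI I) := by rw [← pow_add]
      _ ≤ Z ^ C := Nat.pow_le_pow_right (by omega) (by rw [hC]; omega)
  have hfm : ∀ f : Fm (Bit τ' n'), f.depth ≤ c ∧ f.size ≤ (2 ^ (k + 1) * (n' + 2)) ^ c →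
      (subst (gF I e₀) f).depth ≤ C ∧ (subst (gF I e₀) f).size ≤ Z ^ C := by
    intro f hf
    constructor
    · refine (depth_subst _ 3 (depth_gF I e₀) f).trans ?_
      have := hf.1
      rw [hC]
      omega
    · refine (size_subst _ (szI I) (szI_pos I) (size_gF I e₀) f).trans ?_
      exact hsz _ hf.2
  refine ⟨comT I e₀ T, ⟨?_, ?_, ?_, ?_, ?_⟩, ?_⟩
  · rw [← hZ]
    refine le_trans ?_ (hsz T.M hM)
    exact Nat.le_mul_of_pos_right _ (szI_pos I)
  · refine hK.trans ?_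
    calc c * (k + 1 + Nat.log 2 (n' + 1) + 1) ^ p ≤
        c * ((2 * (a + b + 1) + 2) * (k + Nat.log 2 (n + 1) + 1)) ^ p :=
          Nat.mul_le_mul_left _ (Nat.pow_le_pow_left hb3 _)
      _ = c * (2 * (a + b + 1) + 2) ^ p * (k + Nat.log 2 (n + 1) + 1) ^ p := by
          rw [mul_pow]; ring
      _ ≤ C * (k + Nat.log 2 (n + 1) + 1) ^ p := by
          apply Nat.mul_le_mul_right
          rw [hC]
          omega
  · intro x
    rw [← hZ]
    exact hfm _ (hdom x)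
  · intro R v
    rw [← hZ]
    exact hfm _ (hrel R v)
  · intro j
    rw [← hZ]
    exact hfm _ (hpar j)
  · intro A
    obtain ⟨j, hj1, hj2⟩ := hT (outF I hI e₀ A)
    refine ⟨j, fun j' => ?_, ?_⟩
    · exact (comT_par I hI e₀ T A j').trans (hj1 j')
    · rw [hcor n k hn A, ← outF_WD I hI e₀ A, hj2]
      exact (comT_WD I hI e₀ T A φ'' _).symm

/-- the identical transformation -/
def idT (τ : Voc) (n K : ℕ) : Tr τ τ n where
  M := n
  K := K
  dom _ := cst true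
  rel R v := Fm.lit ⟨R, v⟩ true
  par j := cst (decide (j.val = K))

/-- the universe of the output of the identical transformation -/
def idE {τ : Voc} {n : ℕ} (K : ℕ) (B : Str τ (Fin n)) : Fin n ≃ (idT τ n K).Univ B where
  toFun x := ⟨x, (holds_cst true (bits B)).mpr rfl⟩
  invFun x := x.1
  left_inv _ := rfl
  right_inv _ := rfl

lemma idT_WD {τ : Voc} {n s t : ℕ} (K : ℕ) (B : Str τ (Fin n)) (φ : PiF τ s t) (j : ℕ) :
    WDF φ ((idT τ n K).out B) j ↔ WDF φ B j := by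
  rw [← WDF_equiv (idE K B) φ B j]
  have h1 : (fun R w => B R (fun i => (idE K B).symm (w i)) : Str τ _) = (idT τ n K).out B := by
    funext R w
    unfold Tr.out
    symm
    rw [Bool.eq_iff_iff, decide_eq_true_eq]
    exact Iff.rfl
  rw [h1]

/-- A quantifier-free interpretation as a constant-depth reduction. -/
theorem qint_AC0 {τ τ' : Voc} {s t s' t' : ℕ} {φ : PiF τ s t} {φ' : PiF τ' s' t'}
    (I : QInt τ τ') (hI : Indep I) (e : ℕ)
    (hcor : ∀ n k : ℕ, 1 ≤ n → ∀ A : Str τ (Fin n),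
      (WDF φ A k ↔ WDF φ' (I.out A k) ((k + 1) ^ e))) : AC0Red e 1 φ φ' := by
  obtain ⟨a, b, hab⟩ := univ_bd I
  have hfT := I.finTag
  have hfI := I.finIx
  obtain ⟨C, hC⟩ : ∃ C, C = a + b + szI I + 4 := ⟨_, rfl⟩
  refine ⟨C, fun n k hn hk => ?_⟩
  obtain ⟨n', hn'⟩ : ∃ n', n' = Nat.card (I.Univ (nul τ n) k) := ⟨_, rfl⟩
  have hfin : Finite (I.Univ (nul τ n) k) := by
    unfold QInt.Univ
    infer_instance
  have e₀ : I.Univ (nul τ n) k ≃ Fin n' := by
    rw [hn']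
    exact Finite.equivFin _
  obtain ⟨hb1, hb2, hb3⟩ := num_bd (n' := n') a b hn hk (by rw [hn']; exact hab n k (nul τ n))
  obtain ⟨Z, hZ⟩ : ∃ Z, Z = 2 ^ k * (n + 2) := ⟨_, rfl⟩
  have hZ2 : 2 ≤ Z := by
    rw [hZ]
    calc 2 = 1 * 2 := rfl
      _ ≤ 2 ^ k * (n + 2) := Nat.mul_le_mul Nat.one_le_two_pow (by omega)
  rw [← hZ] at hb2
  have hfm : ∀ f : Fm (Bit τ' n'), f.depth ≤ 1 ∧ f.size ≤ 1 →
      (subst (gF I e₀) f).depth ≤ C ∧ (subst (gF I e₀) f).size ≤ Z ^ C := by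
    intro f hf
    constructor
    · refine (depth_subst _ 3 (depth_gF I e₀) f).trans ?_
      have := hf.1
      rw [hC]
      omega
    · refine (size_subst _ (szI I) (szI_pos I) (size_gF I e₀) f).trans ?_
      calc f.size * szI I ≤ 1 * szI I := Nat.mul_le_mul_right _ hf.2
        _ = szI I := one_mul _
        _ ≤ 2 ^ szI I := (Nat.lt_pow_self (by norm_num)).le
        _ ≤ Z ^ szI I := Nat.pow_le_pow_left hZ2 _
        _ ≤ Z ^ C := Nat.pow_le_pow_right (by omega) (by rw [hC]; omega)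
  refine ⟨comT I e₀ (idT τ' n' ((k + 1) ^ e)), ⟨?_, ?_, ?_, ?_, ?_⟩, ?_⟩
  · rw [← hZ]
    exact hb2.trans (Nat.pow_le_pow_right (by omega) (by rw [hC]; omega))
  · change ((k + 1) ^ e) ^ 1 ≤ _
    rw [pow_one]
    calc (k + 1) ^ e ≤ (k + Nat.log 2 (n + 1) + 1) ^ e := Nat.pow_le_pow_left (by omega) _
      _ ≤ _ := Nat.le_mul_of_pos_left _ (by rw [hC]; omega)
  · intro x
    rw [← hZ]
    apply hfm
    exact ⟨depth_cst true, size_cst true⟩
  · intro R v
    rw [← hZ]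
    apply hfm
    simp [idT, Fm.depth, Fm.size]
  · intro j
    rw [← hZ]
    apply hfm
    exact ⟨depth_cst (decide (j.val = _)), size_cst (decide (j.val = _))⟩
  · intro A
    refine ⟨Fin.last _, fun j' => ?_, ?_⟩
    · refine (comT_par I hI e₀ _ A j').trans ?_
      unfold idT
      rw [holds_cst, decide_eq_true_eq]
      exact ⟨fun h => Fin.ext h, fun h => by rw [h]; rfl⟩
    · rw [hcor n k hn A, ← outF_WD I hI e₀ A, comT_WD I hI e₀ _ A φ', idT_WD]
      exact Iff.rfl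

end

end Pool.Agent.Helper265_EW.C
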