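import Pool.Agent.Helper265_EW.PFinal

set_option linter.unusedSectionVars false

/-! Inner width and numbers of occurrences; formulas with fewer blocks. -/

namespace Pool.Agent.Helper265_EW.P

open Finset Classical Pool.Agent.Helper265_EW.G

noncomputable section

/-- the atoms with property `P` -/
def ats {τ : Voc} {s : ℕ} {V : Type} (P : (Fin s → V) → Prop) : QF τ s V → Finset (Fin s → V)
  | QF.rel _ _ => ∅
  | QF.eq _ _ => ∅
  | QF.mem v => if P v then {v} else ∅
  | QF.not φ => ats P φ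
  | QF.and φ ψ => ats P φ ∪ ats P ψ

lemma ats_card {τ : Voc} {s : ℕ} {V : Type} (P : (Fin s → V) → Prop) (ψ : QF τ s V) :
    (ats P ψ).card ≤ ψ.occP P := by
  induction ψ with
  | rel R v => simp [ats, QF.occP]
  | eq u v => simp [ats, QF.occP]
  | mem v =>
    simp only [ats, QF.occP]
    split_ifs <;> simp
  | not ψ ih => exact ih
  | and ψ χ ih1 ih2 =>
    simp only [ats, QF.occP]
    exact le_trans (Finset.card_union_le _ _) (add_le_add ih1 ih2)

lemma ats_prop {τ : Voc} {s : ℕ} {V : Type} (P : (Fin s → V) → Prop) (ψ : QF τ s V) :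
    ∀ v ∈ ats P ψ, P v := by
  induction ψ with
  | rel R v => intro w hw; simp [ats] at hw
  | eq u v => intro w hw; simp [ats] at hw
  | mem v =>
    intro w hw
    simp only [ats] at hw
    split_ifs at hw with h
    · rw [Finset.mem_singleton] at hw
      rw [hw]; exact h
    · simp at hw
  | not ψ ih => exact ih
  | and ψ χ ih1 ih2 =>
    intro w hw
    simp only [ats, Finset.mem_union] at hw
    rcases hw with hw | hw
    · exact ih1 w hw
    · exact ih2 w hw

lemma eval_ats {τ : Voc} {s : ℕ} {V : Type} (P : (Fin s → V) → Prop)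
    (ρ : ∀ R : Fin τ.num, (Fin (τ.ar R) → V) → Bool) (η : V → V → Bool)
    (ξ ξ' : (Fin s → V) → Bool) (ψ : QF τ s V)
    (h : ∀ v, (¬ P v ∨ v ∈ ats P ψ) → ξ' v = ξ v) : ψ.eval ρ η ξ' = ψ.eval ρ η ξ := by
  induction ψ with
  | rel R v => rfl
  | eq u v => rfl
  | mem v =>
    simp only [QF.eval]
    apply h
    by_cases hP : P v
    · right
      simp [ats, hP]
    · exact Or.inl hP
  | not ψ ih =>
    simp only [QF.eval]
    rw [ih h]
  | and ψ χ ih1 ih2 =>
    simp only [QF.eval]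
    rw [ih1 (fun v hv => h v (by
        rcases hv with hv | hv
        · exact Or.inl hv
        · exact Or.inr (by simp only [ats, Finset.mem_union]; exact Or.inl hv))),
      ih2 (fun v hv => h v (by
        rcases hv with hv | hv
        · exact Or.inl hv
        · exact Or.inr (by simp only [ats, Finset.mem_union]; exact Or.inr hv)))]

lemma cert_of_occ {τ : Voc} {s : ℕ} {V : Type} (P : (Fin s → V) → Prop) (b : Bool) (w : ℕ)
    (ψ : QF τ s V) (h : ψ.occP P ≤ w) : ψ.Cert P b w := by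
  intro ρ η ξ hξ
  refine ⟨ats P ψ, le_trans (ats_card P ψ) h, ats_prop P ψ, fun ξ' h' => ?_⟩
  rw [eval_ats P ρ η ξ ξ' ψ h']
  exact hξ

/-- renaming of variables -/
def ren {τ : Voc} {s : ℕ} {V V' : Type} (f : V → V') : QF τ s V → QF τ s V'
  | QF.rel R v => QF.rel R (fun i => f (v i))
  | QF.eq u v => QF.eq (f u) (f v)
  | QF.mem v => QF.mem (fun i => f (v i))
  | QF.not φ => QF.not (ren f φ)
  | QF.and φ ψ => QF.and (ren f φ) (ren f ψ)

lemma holds_ren {τ : Voc} {s : ℕ} {V V' U : Type} (f : V → V') (A : Str τ U)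
    (S : Finset (Fin s → U)) (a : V' → U) (ψ : QF τ s V) :
    (ren f ψ).Holds A S a ↔ ψ.Holds A S (fun v => a (f v)) := by
  induction ψ with
  | rel R v => exact Iff.rfl
  | eq u v => exact Iff.rfl
  | mem v => exact Iff.rfl
  | not ψ ih => simp only [ren, QF.Holds, ih]
  | and ψ χ ih1 ih2 => simp only [ren, QF.Holds, ih1, ih2]

/-- adding an empty innermost block -/
def ext {τ : Voc} {s t : ℕ} (φ : PiF τ s t) : PiF τ s (t + 1) where
  len := φ.len
  ψ := ren (V' := Vars φ.len t ⊕ Fin (φ.len t)) Sum.inl φ.ψ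

lemma ext_WD {τ : Voc} {s t : ℕ} {U : Type} [Nonempty U] (φ : PiF τ s t) (A : Str τ U) (k : ℕ) :
    WDF (ext φ) A k ↔ WDF φ A k := by
  apply exists_congr
  intro S
  apply and_congr Iff.rfl
  unfold PiF.Holds
  change quant φ.len t (fun a => lev t (fun b : Fin (φ.len t) → U =>
    (ext φ).ψ.Holds A S (Sum.elim a b))) ↔ _
  apply quant_congr
  intro a
  have h : ∀ b : Fin (φ.len t) → U, (ext φ).ψ.Holds A S (Sum.elim a b) ↔ φ.ψ.Holds A S a := by
    intro b
    exact holds_ren (V' := Vars φ.len t ⊕ Fin (φ.len t)) Sum.inl A S (Sum.elim a b) φ.ψ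
  rw [lev_congr t h, lev_const]

lemma occP_ren {τ : Voc} {s : ℕ} {V V' : Type} (f : V → V') (P : (Fin s → V') → Prop)
    (hP : ∀ v : Fin s → V, ¬ P (fun i => f (v i))) (ψ : QF τ s V) : (ren f ψ).occP P = 0 := by
  induction ψ with
  | rel R v => rfl
  | eq u v => rfl
  | mem v => simp [ren, QF.occP, hP v]
  | not ψ ih => exact ih
  | and ψ χ ih1 ih2 => simp only [ren, QF.occP, ih1, ih2]

lemma ext_inner {τ : Voc} {s t : ℕ} (φ : PiF τ s t) : (ext φ).innerOcc = 0 := by
  apply occP_ren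
  rintro v ⟨i, hi⟩
  exact hi

/-- the normal form theorem -/
theorem normal_form (m d' e' : ℕ) {τ : Voc} {s : ℕ} (φ : PiF τ s (m + 2))
    (hw : φ.InnerWidth ((d' + 1) * (e' + 1))) :
    ∀ n k : ℕ, 1 ≤ n → ∀ A : Str τ (Fin n),
      (WDF φ A k ↔ WDF (normF (decide (m % 2 = 0)) m (d' + 1)) ((intP φ d' e').out A k)
        ((k + 1) ^ (e' + 1))) := by
  intro n k hn A
  unfold PiF.InnerWidth at hw
  rcases Nat.mod_two_eq_zero_or_one m with hm | hm
  · have h1 : decide ((m + 2) % 2 = 0) = true := by simp; omega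
    have h2 : decide (m % 2 = 0) = true := by simp; omega
    rw [h1] at hw
    rw [h2]
    exact even_main hn hm hw
  · have h1 : decide ((m + 2) % 2 = 0) = false := by simp; omega
    have h2 : decide (m % 2 = 0) = false := by simp; omega
    rw [h1] at hw
    rw [h2]
    obtain ⟨m', rfl⟩ : ∃ m', m = m' + 1 := ⟨m - 1, by omega⟩
    exact odd_main hn (by omega) hw

lemma qfred_ext {τ τ' : Voc} {s s' t t' : ℕ} {f : ℕ → ℕ} {φ : PiF τ s t} {φ' : PiF τ' s' t'}
    (h : QFRed f (ext φ) φ') : QFRed f φ φ' := by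
  obtain ⟨I, hI⟩ := h
  refine ⟨I, fun n k hn A => ?_⟩
  have : Nonempty (Fin n) := ⟨⟨0, hn⟩⟩
  rw [← ext_WD φ A k]
  exact hI n k hn A

/-- the normal form theorem as a statement on reductions -/
theorem qfred_norm (m d : ℕ) (hd : 1 ≤ d) (e : ℕ) (he : 1 ≤ e) (t' : ℕ) (τ : Voc) (s : ℕ)
    (φ : PiF τ s t')
    (h : t' < m + 2 ∨ (t' = m + 2 ∧ (φ.innerOcc ≤ d * e ∨ φ.InnerWidth (d * e)))) :
    QFRed (fun k => (k + 1) ^ e) φ (normF (decide (m % 2 = 0)) m d) := by
  obtain ⟨d', rfl⟩ : ∃ d', d = d' + 1 := ⟨d - 1, by omega⟩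
  obtain ⟨e', rfl⟩ : ∃ e', e = e' + 1 := ⟨e - 1, by omega⟩
  have h1 : ∀ φ : PiF τ s (m + 2),
      (φ.innerOcc ≤ (d' + 1) * (e' + 1) ∨ φ.InnerWidth ((d' + 1) * (e' + 1))) →
      QFRed (fun k => (k + 1) ^ (e' + 1)) φ (normF (decide (m % 2 = 0)) m (d' + 1)) := by
    intro φ h
    have hw : φ.InnerWidth ((d' + 1) * (e' + 1)) := by
      rcases h with h | h
      · exact cert_of_occ _ _ _ _ h
      · exact h
    exact ⟨intP φ d' e', normal_form m d' e' φ hw⟩
  have h2 : ∀ j t' : ℕ, t' + j + 1 = m + 2 → ∀ (φ : PiF τ s t'),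
      QFRed (fun k => (k + 1) ^ (e' + 1)) φ (normF (decide (m % 2 = 0)) m (d' + 1)) := by
    intro j
    induction j with
    | zero =>
      intro t' ht φ
      obtain rfl : t' = m + 1 := by omega
      apply qfred_ext
      exact h1 (ext φ) (Or.inl (by rw [ext_inner]; exact Nat.zero_le _))
    | succ j ih =>
      intro t' ht φ
      apply qfred_ext
      exact ih (t' + 1) (by omega) (ext φ)
  rcases h with h | ⟨h, h'⟩
  · exact h2 (m + 1 - t') t' (by omega) φ
  · subst h
    exact h1 φ h'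

end

end Pool.Agent.Helper265_EW.P
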