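import Pool.Agent.Helper265_EW.LDefs
import Pool.Agent.Helper265_EW.PRes

set_option linter.unusedSectionVars false

/-! Substitution in constant-depth formulas, and constant-size formulas for the bits of a
quantifier-free interpretation. -/

namespace Pool.Agent.Helper265_EW.C

open Finset Classical Pool.Agent.Helper265_EW.G Pool.Agent.Helper265_EW.P

noncomputable section

section Fms

variable {J J' : Type}

/-- AND over a finite type -/
def andF {ι : Type} [Fintype ι] (f : ι → Fm J) : Fm J :=
  Fm.and (Fintype.card ι) (fun i => f ((Fintype.equivFin ι).symm i))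

/-- OR over a finite type -/
def orF {ι : Type} [Fintype ι] (f : ι → Fm J) : Fm J :=
  Fm.or (Fintype.card ι) (fun i => f ((Fintype.equivFin ι).symm i))

lemma holds_andF {ι : Type} [Fintype ι] (f : ι → Fm J) (x : J → Bool) :
    (andF f).Holds x ↔ ∀ i, (f i).Holds x := by
  unfold andF
  simp only [Fm.Holds]
  constructor
  · intro h i
    have := h (Fintype.equivFin ι i)
    rwa [Equiv.symm_apply_apply] at this
  · intro h i
    exact h _

lemma holds_orF {ι : Type} [Fintype ι] (f : ι → Fm J) (x : J → Bool) :
    (orF f).Holds x ↔ ∃ i, (f i).Holds x := by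
  unfold orF
  simp only [Fm.Holds]
  constructor
  · rintro ⟨i, h⟩
    exact ⟨_, h⟩
  · rintro ⟨i, h⟩
    exact ⟨Fintype.equivFin ι i, by rwa [Equiv.symm_apply_apply]⟩

lemma depth_andF {ι : Type} [Fintype ι] (f : ι → Fm J) (D : ℕ) (h : ∀ i, (f i).depth ≤ D) :
    (andF f).depth ≤ D + 1 := by
  unfold andF
  simp only [Fm.depth]
  apply Nat.add_le_add_right
  exact Finset.sup_le fun i _ => h _

lemma depth_orF {ι : Type} [Fintype ι] (f : ι → Fm J) (D : ℕ) (h : ∀ i, (f i).depth ≤ D) :
    (orF f).depth ≤ D + 1 := by
  unfold orF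
  simp only [Fm.depth]
  apply Nat.add_le_add_right
  exact Finset.sup_le fun i _ => h _

lemma size_andF {ι : Type} [Fintype ι] (f : ι → Fm J) (D : ℕ) (h : ∀ i, (f i).size ≤ D) :
    (andF f).size ≤ Fintype.card ι * D + 1 := by
  unfold andF
  simp only [Fm.size]
  apply Nat.add_le_add_right
  refine (Finset.sum_le_card_nsmul _ _ D fun i _ => h _).trans ?_
  simp

lemma size_orF {ι : Type} [Fintype ι] (f : ι → Fm J) (D : ℕ) (h : ∀ i, (f i).size ≤ D) :
    (orF f).size ≤ Fintype.card ι * D + 1 := by
  unfold orF
  simp only [Fm.size]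
  apply Nat.add_le_add_right
  refine (Finset.sum_le_card_nsmul _ _ D fun i _ => h _).trans ?_
  simp

/-- a constant -/
def cst (b : Bool) : Fm J := if b then Fm.and 0 (fun i => i.elim0) else Fm.or 0 (fun i => i.elim0)

lemma holds_cst (b : Bool) (x : J → Bool) : (cst b : Fm J).Holds x ↔ b = true := by
  cases b
  · simp only [cst, Bool.false_eq_true, if_false, Fm.Holds, iff_false]
    rintro ⟨i, -⟩
    exact i.elim0
  · simp only [cst, if_true, Fm.Holds, iff_true]
    intro i
    exact i.elim0

lemma depth_cst (b : Bool) : (cst b : Fm J).depth ≤ 1 := by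
  cases b <;> simp [cst, Fm.depth]

lemma size_cst (b : Bool) : (cst b : Fm J).size ≤ 1 := by
  cases b <;> simp [cst, Fm.size]

/-- substitution for literals -/
def subst (g : J' → Bool → Fm J) : Fm J' → Fm J
  | Fm.lit j b => g j b
  | Fm.and m f => Fm.and m (fun i => subst g (f i))
  | Fm.or m f => Fm.or m (fun i => subst g (f i))

lemma holds_subst (g : J' → Bool → Fm J) (x : J → Bool) (x' : J' → Bool)
    (h : ∀ j b, (g j b).Holds x ↔ x' j = b) (f : Fm J') :
    (subst g f).Holds x ↔ f.Holds x' := by
  induction f with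
  | lit j b => exact h j b
  | and m f ih => simp only [subst, Fm.Holds, ih]
  | or m f ih => simp only [subst, Fm.Holds, ih]

lemma depth_subst (g : J' → Bool → Fm J) (D : ℕ) (h : ∀ j b, (g j b).depth ≤ D) (f : Fm J') :
    (subst g f).depth ≤ f.depth + D := by
  induction f with
  | lit j b => exact (h j b).trans (Nat.le_add_left _ _)
  | and m f ih =>
    simp only [subst, Fm.depth]
    have : (Finset.univ.sup fun i => (subst g (f i)).depth) ≤
        (Finset.univ.sup fun i => (f i).depth) + D := by
      apply Finset.sup_le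
      intro i _
      refine (ih i).trans (Nat.add_le_add_right ?_ _)
      exact Finset.le_sup (f := fun i => (f i).depth) (Finset.mem_univ i)
    omega
  | or m f ih =>
    simp only [subst, Fm.depth]
    have : (Finset.univ.sup fun i => (subst g (f i)).depth) ≤
        (Finset.univ.sup fun i => (f i).depth) + D := by
      apply Finset.sup_le
      intro i _
      refine (ih i).trans (Nat.add_le_add_right ?_ _)
      exact Finset.le_sup (f := fun i => (f i).depth) (Finset.mem_univ i)
    omega

lemma size_subst (g : J' → Bool → Fm J) (D : ℕ) (hD : 1 ≤ D) (h : ∀ j b, (g j b).size ≤ D)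
    (f : Fm J') : (subst g f).size ≤ f.size * D := by
  induction f with
  | lit j b =>
    simp only [subst, Fm.size, one_mul]
    exact h j b
  | and m f ih =>
    simp only [subst, Fm.size]
    have : (∑ i, (subst g (f i)).size) ≤ (∑ i, (f i).size) * D := by
      rw [Finset.sum_mul]
      exact Finset.sum_le_sum fun i _ => ih i
    rw [add_mul, one_mul]
    omega
  | or m f ih =>
    simp only [subst, Fm.size]
    have : (∑ i, (subst g (f i)).size) ≤ (∑ i, (f i).size) * D := by
      rw [Finset.sum_mul]
      exact Finset.sum_le_sum fun i _ => ih i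
    rw [add_mul, one_mul]
    omega

end Fms

section BitF

variable {τ : Voc} {n k : ℕ} {V : Type} [Fintype V]

/-- the value of one atomic statement about a family of elements and numbers -/
def atR (A : Str τ (Fin n)) (w : V → Base n k) (R : Fin τ.num) (v : Fin (τ.ar R) → V) : Bool :=
  decide (∃ a : Fin (τ.ar R) → Fin n, (∀ i, w (v i) = Sum.inl (a i)) ∧ A R a = true)

/-- a formula saying that an atomic statement has the value `b` -/
def litF (w : V → Base n k) (R : Fin τ.num) (v : Fin (τ.ar R) → V) (b : Bool) : Fm (Bit τ n) :=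
  if h : ∃ a : Fin (τ.ar R) → Fin n, ∀ i, w (v i) = Sum.inl (a i) then
    Fm.lit ⟨R, h.choose⟩ b else cst (!b)

lemma holds_litF (A : Str τ (Fin n)) (w : V → Base n k) (R : Fin τ.num) (v : Fin (τ.ar R) → V)
    (b : Bool) : (litF w R v b).Holds (bits A) ↔ atR A w R v = b := by
  unfold litF
  by_cases h : ∃ a : Fin (τ.ar R) → Fin n, ∀ i, w (v i) = Sum.inl (a i)
  · rw [dif_pos h]
    have h1 : atR A w R v = A R h.choose := by
      unfold atR
      by_cases h2 : A R h.choose = true
      · rw [h2]
        exact decide_eq_true ⟨_, h.choose_spec, h2⟩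
      · have h3 : A R h.choose = false := by simpa using h2
        rw [h3]
        apply decide_eq_false
        rintro ⟨a, ha, ha2⟩
        have h4 : a = h.choose := by
          funext i
          have := (ha i).symm.trans (h.choose_spec i)
          exact Sum.inl_injective this
        rw [h4] at ha2
        exact h2 ha2
    rw [h1]
    exact Iff.rfl
  · rw [dif_neg h, holds_cst]
    have h1 : atR A w R v = false := by
      apply decide_eq_false
      rintro ⟨a, ha, -⟩
      exact h ⟨a, ha⟩
    rw [h1]
    cases b <;> simp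

lemma depth_litF (w : V → Base n k) (R : Fin τ.num) (v : Fin (τ.ar R) → V) (b : Bool) :
    (litF w R v b).depth ≤ 1 := by
  unfold litF
  split_ifs
  · simp [Fm.depth]
  · exact depth_cst _

lemma size_litF (w : V → Base n k) (R : Fin τ.num) (v : Fin (τ.ar R) → V) (b : Bool) :
    (litF w R v b).size ≤ 1 := by
  unfold litF
  split_ifs
  · simp [Fm.size]
  · exact size_cst _

/-- a formula saying that a function of the atomic statements has the value `b` -/
def bitF (G : (∀ R : Fin τ.num, (Fin (τ.ar R) → V) → Bool) → Bool) (w : V → Base n k) (b : Bool) :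
    Fm (Bit τ n) :=
  orF (ι := {ρ : ∀ R : Fin τ.num, (Fin (τ.ar R) → V) → Bool // G ρ = b}) fun ρ =>
    andF (ι := Σ R : Fin τ.num, (Fin (τ.ar R) → V)) fun x => litF w x.1 x.2 (ρ.1 x.1 x.2)

lemma holds_bitF (G : (∀ R : Fin τ.num, (Fin (τ.ar R) → V) → Bool) → Bool)
    (A : Str τ (Fin n)) (w : V → Base n k) (b : Bool) :
    (bitF G w b).Holds (bits A) ↔ G (atR A w) = b := by
  unfold bitF
  rw [holds_orF]
  constructor
  · rintro ⟨⟨ρ, hρ⟩, h⟩
    rw [holds_andF] at h
    have h1 : atR A w = ρ := by
      funext R v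
      exact (holds_litF A w R v _).mp (h ⟨R, v⟩)
    rw [h1]
    exact hρ
  · intro h
    refine ⟨⟨atR A w, h⟩, ?_⟩
    rw [holds_andF]
    intro x
    exact (holds_litF A w x.1 x.2 _).mpr rfl

lemma depth_bitF (G : (∀ R : Fin τ.num, (Fin (τ.ar R) → V) → Bool) → Bool) (w : V → Base n k)
    (b : Bool) : (bitF G w b).depth ≤ 3 := by
  unfold bitF
  apply depth_orF
  intro ρ
  apply depth_andF
  intro x
  exact depth_litF _ _ _ _

/-- the bound on the size -/
def szB (τ : Voc) (V : Type) [Fintype V] : ℕ :=
  Fintype.card (∀ R : Fin τ.num, (Fin (τ.ar R) → V) → Bool) *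
    (Fintype.card (Σ R : Fin τ.num, (Fin (τ.ar R) → V)) * 1 + 1) + 1

lemma size_bitF (G : (∀ R : Fin τ.num, (Fin (τ.ar R) → V) → Bool) → Bool) (w : V → Base n k)
    (b : Bool) : (bitF G w b).size ≤ szB τ V := by
  unfold bitF
  refine (size_orF _ (Fintype.card (Σ R : Fin τ.num, (Fin (τ.ar R) → V)) * 1 + 1) ?_).trans ?_
  · intro ρ
    apply size_andF
    intro x
    exact size_litF _ _ _ _
  · unfold szB
    apply Nat.add_le_add_right
    apply Nat.mul_le_mul_right
    exact Fintype.card_subtype_le _

end BitF

end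

end Pool.Agent.Helper265_EW.C
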