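import Pool.Agent.Helper265_EW.GDefs

/-! The inner width of a `Π_t` formula. -/

namespace Pool.Agent.Helper265_EW

namespace QF

variable {τ : Voc} {s : ℕ} {V : Type}

/-- Propositional evaluation, given truth values of all atoms. -/
def eval (ρ : ∀ R : Fin τ.num, (Fin (τ.ar R) → V) → Bool) (η : V → V → Bool)
    (ξ : (Fin s → V) → Bool) : QF τ s V → Bool
  | rel R v => ρ R v
  | eq u v => η u v
  | mem v => ξ v
  | not φ => !(φ.eval ρ η ξ)
  | and φ ψ => φ.eval ρ η ξ && ψ.eval ρ η ξ

open Classical in
/-- The number of occurrences of atoms `X(v)` with `P v`. -/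
noncomputable def occP (P : (Fin s → V) → Prop) : QF τ s V → ℕ
  | rel _ _ => 0
  | eq _ _ => 0
  | mem v => if P v then 1 else 0
  | not φ => φ.occP P
  | and φ ψ => φ.occP P + ψ.occP P

/-- Whenever the formula has the value `b`, this value is enforced by the truth values of the
other atoms and of some `w` of the atoms `X(v)` with `P v`. -/
def Cert (P : (Fin s → V) → Prop) (b : Bool) (w : ℕ) (ψ : QF τ s V) : Prop :=
  ∀ (ρ : ∀ R : Fin τ.num, (Fin (τ.ar R) → V) → Bool) (η : V → V → Bool)
    (ξ : (Fin s → V) → Bool), ψ.eval ρ η ξ = b →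
    ∃ C : Finset (Fin s → V), C.card ≤ w ∧ (∀ v ∈ C, P v) ∧
      ∀ ξ' : (Fin s → V) → Bool, (∀ v, (¬ P v ∨ v ∈ C) → ξ' v = ξ v) → ψ.eval ρ η ξ' = b

end QF

/-- Being a variable of the last (innermost) block. -/
def lastVar (len : ℕ → ℕ) : (t : ℕ) → Vars len t → Prop
  | 0, _ => False
  | _ + 1, Sum.inl _ => False
  | _ + 1, Sum.inr _ => True

namespace PiF

variable {τ : Voc} {s t : ℕ}

/-- The number of occurrences of `X` with some argument from the innermost block. -/
noncomputable def innerOcc (φ : PiF τ s t) : ℕ :=
  φ.ψ.occP (fun v => ∃ i, lastVar φ.len t (v i))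

/-- Inner width at most `w`: if the innermost block is existential, then whenever the matrix is
true this is enforced by at most `w` of the atoms `X(v)` with some argument from the innermost
block, together with all other atoms; if the innermost block is universal, the same holds
whenever the matrix is false. -/
def InnerWidth (φ : PiF τ s t) (w : ℕ) : Prop :=
  φ.ψ.Cert (fun v => ∃ i, lastVar φ.len t (v i)) (decide (t % 2 = 0)) w

end PiF

end Pool.Agent.Helper265_EW
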