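import Pool.Agent.Helper265_EW.GTgt
import Pool.Agent.Helper265_EW.IDefs

set_option linter.unusedSectionVars false

/-! The target side: only the occurrences of `X` with a variable of the innermost block count. -/

namespace Pool.Agent.Helper265_EW.G

open Finset Classical

noncomputable section

/-- having an argument from the innermost block -/
def innA {s q : ℕ} {V0 : Type} (w : Fin s → V0 ⊕ Fin q) : Prop := ∃ i j, w i = Sum.inr j

lemma card_inner {τ : Voc} {s : ℕ} {V : Type} (P : (Fin s → V) → Prop)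
    (ψ : QF τ s V) : (ψ.atoms.filter P).card ≤ ψ.occP P := by
  induction ψ with
  | rel R v => simp [QF.atoms, QF.occP]
  | eq u v => simp [QF.atoms, QF.occP]
  | mem v =>
    simp only [QF.atoms, QF.occP]
    rw [Finset.filter_singleton]
    split_ifs <;> simp
  | not φ ih => simpa [QF.atoms, QF.occP] using ih
  | and φ ψ ih1 ih2 =>
    simp only [QF.atoms, QF.occP]
    rw [Finset.filter_union]
    exact le_trans (Finset.card_union_le _ _) (add_le_add ih1 ih2)

section fam

variable {τ τ' : Voc} {s n : ℕ} (T : Tr τ τ' n) {V0 : Type} [Fintype V0] [DecidableEq V0] {q : ℕ}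
  (ψ : QF τ' s (V0 ⊕ Fin q))

/-- the code of an outer atom -/
def oc (x : V0 → Fin T.M) (w : Fin s → V0 ⊕ Fin q) : ℕ :=
  if h : Nonempty (Fin q → Fin T.M) then code (fun i => Sum.elim x h.some (w i)) else 0

lemma oc_eq (x : V0 → Fin T.M) (y : Fin q → Fin T.M) (w : Fin s → V0 ⊕ Fin q) (hw : ¬ innA w) :
    code (fun i => Sum.elim x y (w i)) = oc T x w := by
  unfold oc
  rw [dif_pos ⟨y⟩]
  congr 1
  funext i
  rcases h : w i with a | j
  · rfl
  · exact absurd ⟨i, j, h⟩ hw

/-- a cell containing a code -/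
def cel (σ : Guess (s := s) T) (c : ℕ) : Cell (T.M ^ s) :=
  if h : ∃ e ∈ cells (T.M ^ s) (gcodes T σ), e.1.val ≤ c ∧ c < e.2.1.val then h.choose else
    ((0 : Fin (T.M ^ s + 1)), (0 : Fin (T.M ^ s + 1)), false)

lemma cel_spec (σ : Guess (s := s) T) {c : ℕ} (hc : c < T.M ^ s) :
    cel T σ c ∈ cells (T.M ^ s) (gcodes T σ) ∧ (cel T σ c).1.val ≤ c ∧
      c < (cel T σ c).2.1.val := by
  have h := cells_cover (gcodes_lt T σ) hc
  unfold cel
  rw [dif_pos h]
  exact h.choose_spec

/-- choices of cells for the inner atoms -/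
def cfamX (σ : Guess (s := s) T) (x : V0 → Fin T.M) :
    Finset ((Fin s → V0 ⊕ Fin q) → Cell (T.M ^ s)) :=
  Fintype.piFinset (fun w => if w ∈ ψ.atoms then
    (if innA w then cells (T.M ^ s) (gcodes T σ) else {cel T σ (oc T x w)}) else
    {((0 : Fin (T.M ^ s + 1)), (0 : Fin (T.M ^ s + 1)), false)})

lemma card_cfamX (σ : Guess (s := s) T) (x : V0 → Fin T.M) {d : ℕ} (hd : ψ.occP innA ≤ d) :
    (cfamX T ψ σ x).card ≤ (2 * T.K + 1) ^ d := by
  unfold cfamX
  rw [Fintype.card_piFinset]
  have h1 : ∀ w, (if w ∈ ψ.atoms then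
      (if innA w then cells (T.M ^ s) (gcodes T σ) else {cel T σ (oc T x w)}) else
      {((0 : Fin (T.M ^ s + 1)), (0 : Fin (T.M ^ s + 1)), false)}).card ≤
      (if w ∈ ψ.atoms.filter innA then 2 * T.K + 1 else 1) := by
    intro w
    by_cases hw : w ∈ ψ.atoms
    · by_cases hi : innA w
      · rw [if_pos hw, if_pos hi, if_pos (Finset.mem_filter.mpr ⟨hw, hi⟩)]
        refine (card_cells _ _).trans ?_
        have h2 : (gcodes T σ).card ≤ T.K := Finset.card_image_le.trans (card_gset T σ)
        omega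
      · rw [if_pos hw, if_neg hi, if_neg (fun h => hi (Finset.mem_filter.mp h).2)]
        simp
    · rw [if_neg hw, if_neg (fun h => hw (Finset.mem_filter.mp h).1)]
      simp
  refine (Finset.prod_le_prod' fun w _ => h1 w).trans ?_
  rw [Finset.prod_ite, Finset.prod_const, Finset.prod_const_one, mul_one]
  have h3 : (Finset.univ.filter (fun w => w ∈ ψ.atoms.filter innA)) = ψ.atoms.filter innA := by
    ext w; simp
  rw [h3]
  exact Nat.pow_le_pow_right (by omega) ((card_inner innA ψ).trans hd)

/-- matrix truth through cells -/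
lemma bigBX_iff (A : Str τ (Fin n)) (σ : Guess (s := s) T) (x : V0 → Fin T.M) :
    (∃ cell ∈ cfamX T ψ σ x, (bigBG T ψ x cell).Holds (bits A)) ↔
      ∃ y : Fin q → Fin T.M, (∀ i, (T.dom (y i)).Holds (bits A)) ∧
        ψ.Holds (outM T A) (gset T σ) (Sum.elim x y) := by
  constructor
  · rintro ⟨cell, hcell, hB⟩
    simp only [bigBG, Fm.holds_orF, Fm.holds_and2, Fm.holds_andF, Fm.holds_bc] at hB
    obtain ⟨y, hy, hin, hconv⟩ := hB
    refine ⟨y, hy, ?_⟩
    have hin' := of_decide_eq_true hin
    rw [conv_holds T _ _ A (gset T σ)] at hconv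
    · exact hconv
    · intro w hw
      have hc := Fintype.mem_piFinset.mp hcell w
      rw [if_pos hw] at hc
      have hc2 : cell w ∈ cells (T.M ^ s) (gcodes T σ) := by
        by_cases hi : innA w
        · rwa [if_pos hi] at hc
        · rw [if_neg hi, Finset.mem_singleton] at hc
          rw [hc]
          have h4 := cel_spec T σ (c := oc T x w)
            (by rw [← oc_eq T x y w hi]; exact code_lt _)
          exact h4.1
      have := cells_flag (gcodes_lt T σ) hc2 (hin' w hw).1 (hin' w hw).2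
      rw [this, mem_gcodes]
  · rintro ⟨y, hy, hψ⟩
    have hcov : ∀ w : Fin s → V0 ⊕ Fin q, ∃ e ∈ cells (T.M ^ s) (gcodes T σ),
        (e.1.val ≤ code (fun i => Sum.elim x y (w i)) ∧
        code (fun i => Sum.elim x y (w i)) < e.2.1.val) ∧
        (¬ innA w → e = cel T σ (oc T x w)) := by
      intro w
      by_cases hi : innA w
      · obtain ⟨e, he, he2⟩ := cells_cover (gcodes_lt T σ) (code_lt (fun i => Sum.elim x y (w i)))
        exact ⟨e, he, he2, fun h => absurd hi h⟩
      · have h4 := cel_spec T σ (c := oc T x w)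
            (by rw [← oc_eq T x y w hi]; exact code_lt _)
        refine ⟨_, h4.1, ?_, fun _ => rfl⟩
        rw [oc_eq T x y w hi]
        exact h4.2
    choose ce hce1 hce2 hce3 using hcov
    let cell : (Fin s → V0 ⊕ Fin q) → Cell (T.M ^ s) := fun w =>
      if w ∈ ψ.atoms then ce w else ((0 : Fin (T.M ^ s + 1)), (0 : Fin (T.M ^ s + 1)), false)
    refine ⟨cell, ?_, ?_⟩
    · rw [cfamX, Fintype.mem_piFinset]
      intro w
      by_cases hw : w ∈ ψ.atoms
      · by_cases hi : innA w
        · simp only [cell, if_pos hw, if_pos hi]; exact hce1 w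
        · simp only [cell, if_pos hw, if_neg hi, Finset.mem_singleton]; exact hce3 w hi
      · simp only [cell, if_neg hw, Finset.mem_singleton]
    · simp only [bigBG, Fm.holds_orF, Fm.holds_and2, Fm.holds_andF, Fm.holds_bc]
      refine ⟨y, hy, ?_, ?_⟩
      · apply decide_eq_true
        intro w hw
        simp only [cell, if_pos hw]
        exact hce2 w
      · rw [conv_holds T _ _ A (gset T σ)]
        · exact hψ
        · intro w hw
          simp only [cell, if_pos hw]
          have := cells_flag (gcodes_lt T σ) (hce1 w) (hce2 w).1 (hce2 w).2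
          rw [this, mem_gcodes]

/-- both families of cells express the same -/
lemma cfam_iff (b : Bit τ n → Bool) (σ : Guess (s := s) T) (x : V0 → Fin T.M) :
    (∃ cell ∈ cfamG T ψ σ, (bigBG T ψ x cell).Holds b) ↔
      ∃ cell ∈ cfamX T ψ σ x, (bigBG T ψ x cell).Holds b := by
  have hb : b = bits (fun R v => b ⟨R, v⟩ : Str τ (Fin n)) := rfl
  rw [hb, bigBG_iff, bigBX_iff]

end fam

section target

variable {τ τ' : Voc} {s n m : ℕ} (T : Tr τ τ' n) (φ : PiF τ' s (m + 2))

lemma matT_inner : (matT φ).occP innA = φ.innerOcc := by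
  have h1 : (innA : (Fin s → Vars φ.len (m + 1) ⊕ Fin (φ.len (m + 1))) → Prop) =
      fun v => ∃ i, lastVar φ.len (m + 2) (v i) := by
    funext v
    apply propext
    unfold innA
    apply exists_congr
    intro i
    rcases h : v i with a | j
    · simp [lastVar]
    · simp [lastVar]
  have h2 : φ.innerOcc = (φ.ψ : QF τ' s (Vars φ.len (m + 1) ⊕ Fin (φ.len (m + 1)))).occP innA := by
    rw [h1]
    rfl
  rw [h2]
  unfold matT
  split_ifs <;> rfl

lemma GT_depI {d : ℕ} (hd : φ.innerOcc ≤ d) (σ : Guess (s := s) T)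
    (v : Tup (JT T φ) (m + 1)) :
    ∃ Q : Finset (IdxG (s := s) T (Vars φ.len (m + 1)) (φ.len (m + 1))),
      Q.card ≤ Fintype.card (Vars φ.len (m + 1)) + (2 * T.K + 1) ^ d ∧
      ∀ b b' : Bit τ n → Bool,
        (∀ e ∈ Q, ((famG T (matT φ) e).Holds b ↔ (famG T (matT φ) e).Holds b')) →
        (GT T φ σ v b ↔ GT T φ σ v b') := by
  refine ⟨(Finset.univ : Finset (Vars φ.len (m + 1))).image
      (fun a => Sum.inl (asg φ.len (m + 1) v a)) ∪
    (cfamX T (matT φ) σ (asg φ.len (m + 1) v)).image
      (fun cell => Sum.inr (Sum.inr (asg φ.len (m + 1) v, cell))),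
    ?_, ?_⟩
  · refine (Finset.card_union_le _ _).trans (Nat.add_le_add ?_ ?_)
    · exact Finset.card_image_le
    · exact Finset.card_image_le.trans (card_cfamX T (matT φ) σ _ (by rw [matT_inner]; exact hd))
  · intro b b' h
    have h1 : scan (okT T φ b) (m + 1) v = scan (okT T φ b') (m + 1) v := by
      apply scan_congr
      intro a
      exact h (Sum.inl _) (Finset.mem_union_left _ (Finset.mem_image.mpr ⟨a, Finset.mem_univ _, rfl⟩))
    have h2 : (∃ cell ∈ cfamG T (matT φ) σ,
        (bigBG T (matT φ) (asg φ.len (m + 1) v) cell).Holds b) ↔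
        (∃ cell ∈ cfamG T (matT φ) σ,
          (bigBG T (matT φ) (asg φ.len (m + 1) v) cell).Holds b') := by
      rw [cfam_iff, cfam_iff]
      have h3 : ∀ cell ∈ cfamX T (matT φ) σ (asg φ.len (m + 1) v),
          ((bigBG T (matT φ) (asg φ.len (m + 1) v) cell).Holds b ↔
            (bigBG T (matT φ) (asg φ.len (m + 1) v) cell).Holds b') := fun cell hc =>
        h (Sum.inr (Sum.inr (asg φ.len (m + 1) v, cell)))
          (Finset.mem_union_right _ (Finset.mem_image.mpr ⟨cell, hc, rfl⟩))
      constructor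
      · rintro ⟨cell, hc, hb⟩; exact ⟨cell, hc, (h3 cell hc).mp hb⟩
      · rintro ⟨cell, hc, hb⟩; exact ⟨cell, hc, (h3 cell hc).mpr hb⟩
    unfold GT
    rw [h1, h2]

end target

end

end Pool.Agent.Helper265_EW.G
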