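import Pool.Agent.Helper265_EW.GDefs

/-! Constant-depth reductions between weighted Fagin-definable problems with a prescribed growth
of the parameter. -/

namespace Pool.Agent.Helper265_EW

/-- The resource bounds: with `Z = 2 ^ k * (n + 2)`, at most `Z ^ c` candidate elements, all
formulas have depth at most `c` and size at most `Z ^ c`, and the new parameter is at most `K`
with `K ^ q ≤ c * (k + log₂ (n + 1) + 1) ^ p`, that is `K = O ((k + log n) ^ (p / q))`. -/
def Tr.BoundedPow {τ τ' : Voc} {n : ℕ} (T : Tr τ τ' n) (p q k c : ℕ) : Prop :=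
  T.M ≤ (2 ^ k * (n + 2)) ^ c ∧
  T.K ^ q ≤ c * (k + Nat.log 2 (n + 1) + 1) ^ p ∧
  (∀ a, (T.dom a).depth ≤ c ∧ (T.dom a).size ≤ (2 ^ k * (n + 2)) ^ c) ∧
  (∀ R v, (T.rel R v).depth ≤ c ∧ (T.rel R v).size ≤ (2 ^ k * (n + 2)) ^ c) ∧
  (∀ j, (T.par j).depth ≤ c ∧ (T.par j).size ≤ (2 ^ k * (n + 2)) ^ c)

/-- The weighted Fagin-definable problem of `φ` reduces to that of `φ'` by a reduction computed
by (nonuniform) constant-depth formulas of size `2 ^ O(k) * n ^ O(1)` whose new parameter is
`O ((k + log n) ^ (p / q))`: for a constant `c` and all `n ≥ 1` and `k ≥ 1` there is a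
transformation within the bounds `Tr.BoundedPow` which, applied to any structure `A` with
universe `{0, …, n - 1}`, names exactly one new parameter `j` and maps yes-instances `(A, k)` to
yes-instances and no-instances to no-instances. For `p = q = 1` these are the constant-depth
ept-reductions. -/
def AC0Red (p q : ℕ) {τ τ' : Voc} {s s' t t' : ℕ} (φ : PiF τ s t) (φ' : PiF τ' s' t') : Prop :=
  ∃ c : ℕ, ∀ n k : ℕ, 1 ≤ n → 1 ≤ k → ∃ T : Tr τ τ' n, T.BoundedPow p q k c ∧
    ∀ A : Str τ (Fin n), ∃ j : Fin (T.K + 1),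
      (∀ j', (T.par j').Holds (bits A) ↔ j' = j) ∧ (WDF φ A k ↔ WDF φ' (T.out A) j)

end Pool.Agent.Helper265_EW
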