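import Pool.Agent.Helper265_EW.GMain
import Pool.Agent.Helper265_EW.LDefs
import Pool.Agent.Helper265_EW.GTgtI

set_option linter.unusedSectionVars false

/-! The lower bound for reductions with superlinear growth of the parameter. -/

namespace Pool.Agent.Helper265_EW.G

open Finset Classical Pool.Agent.H592R2

noncomputable section

/-- the combinatorial heart: no reduction at one good parameter value -/
theorem heartL {d d' k B D S b m : ℕ} [NeZero b] [NeZero B] [NeZero k] {τ' : Voc}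
    {s n cPP cLL sw : ℕ} [NeZero cPP] [NeZero cLL]
    (φ : PiF τ' s (m + 2)) (hocc : φ.innerOcc ≤ d') (T : Tr (srcVt m d) τ' n)
    (eU : Un k (Tup (fun _ => Fin cPP × Fin cLL) m) (Fin cPP × Fin cLL) B ≃ Fin n)
    (hcorr : ∀ A : Str (srcVt m d) (Fin n), ∃ j : Fin (T.K + 1),
      (∀ j', (T.par j').Holds (bits A) ↔ j' = j) ∧
        (WDF (srcFt (decide (m % 2 = 0)) m d) A k ↔ WDF φ (T.out A) j))
    (hdepth : ∀ i, (famG T (matT φ) i).depth ≤ D) (sz : ℕ)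
    (hsz : ∀ i, (famG T (matT φ) i).size ≤ sz)
    (hd : 1 ≤ d) (hb : 2 ≤ b) (hS : d + 2 < S) (hBb : B ≤ b ^ k)
    (hnum : failG d k B D S b (Fintype.card (Tup (fun _ => Fin cPP × Fin cLL) m))
      (Fintype.card (Fin cPP × Fin cLL))
      (Fintype.card (IdxG (s := s) T (Vars φ.len (m + 1)) (φ.len (m + 1)))) sz < 1)
    (hsw : 1 ≤ sw) (hwH : S ^ (d + 2) ≤ sw)
    (hok : Ok (Fintype.card (Guess (s := s) T)) (fun i => Fintype.card (Tup (JT T φ) i)) cPP cLL sw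
      m (k ^ (d + 1))
      ((Fintype.card (Vars φ.len (m + 1)) + (2 * T.K + 1) ^ d' + 1) * S ^ (d + 2))) : False := by
  obtain ⟨zq, hsrc, hfam⟩ := src_claim eU (famG T (matT φ)) hdepth sz hsz hd hb hS hBb hnum
  choose Qf hQf1 hQf2 using hfam
  have hSp : 1 ≤ S ^ (d + 2) := Nat.one_le_pow _ _ (by omega)
  have hcP : Fintype.card (Fin (d + 1) → Fin k) = k ^ (d + 1) := by
    rw [Fintype.card_fun, Fintype.card_fin, Fintype.card_fin]
  refine chain (PP := Fin cPP) (LL := Fin cLL) (Sg := Guess (s := s) T)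
    (Ex := Unit ⊕ ((Fin s → Fin T.M) × Fin s)) (JT T φ) sw (S ^ (d + 2)) hsw hwH m
    (P := Fin (d + 1) → Fin k) (Y := JT T φ m)
    ((Fintype.card (Vars φ.len (m + 1)) + (2 * T.K + 1) ^ d' + 1) * S ^ (d + 2))
    (Nat.mul_pos (by omega) hSp) (Nat.le_mul_of_pos_left _ (by omega))
    (fun σ v y q => GT T φ σ (v, y) (bits (strS (decide (m % 2 = 0)) eU (zq q))))
    (fun σ e q => HT T σ (bits (strS (decide (m % 2 = 0)) eU (zq q))) e) ?_ ?_ ?_ ?_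
  · intro σ v y
    obtain ⟨Q, hQ, hQd⟩ := GT_depI T φ hocc σ (v, y)
    refine ⟨Q.biUnion Qf, ?_, ?_⟩
    · calc (Q.biUnion Qf).card ≤ ∑ e ∈ Q, (Qf e).card := Finset.card_biUnion_le
        _ ≤ ∑ _e ∈ Q, S ^ (d + 2) := Finset.sum_le_sum fun e _ => hQf1 e
        _ = Q.card * S ^ (d + 2) := by rw [Finset.sum_const, smul_eq_mul]
        _ ≤ _ := Nat.mul_le_mul_right _ (by omega)
    · intro q q' hqq'
      apply hQd
      intro e he
      apply hQf2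
      intro e' he'
      exact hqq' e' (Finset.mem_biUnion.mpr ⟨e, he, he'⟩)
  · intro σ e
    obtain ⟨Q, hQ, hQd⟩ := HT_dep T φ σ e
    refine ⟨Q.biUnion Qf, ?_, ?_⟩
    · calc (Q.biUnion Qf).card ≤ ∑ e ∈ Q, (Qf e).card := Finset.card_biUnion_le
        _ ≤ ∑ _e ∈ Q, S ^ (d + 2) := Finset.sum_le_sum fun e _ => hQf1 e
        _ = Q.card * S ^ (d + 2) := by rw [Finset.sum_const, smul_eq_mul]
        _ ≤ 1 * S ^ (d + 2) := Nat.mul_le_mul_right _ hQ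
        _ = S ^ (d + 2) := one_mul _
    · intro q q' hqq'
      apply hQd
      intro e he
      apply hQf2
      intro e' he'
      exact hqq' e' (Finset.mem_biUnion.mpr ⟨e, he, he'⟩)
  · rw [Fintype.card_fin, Fintype.card_fin, hcP]
    exact hok
  · intro q
    obtain ⟨j, hj1, hj2⟩ := hcorr (strS (decide (m % 2 = 0)) eU (zq q))
    rw [← hsrc q, hj2, target_G T φ _ j hj1]
    exact Iff.rfl


/-- the polynomial bound on number times size -/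
lemma PB_totalL (c p0 p q s qs : ℕ) : PB (fun Z => (Z ^ c + (c * Z ^ p0 + 1) + (Z ^ c) ^ p *
      (((Z ^ c) ^ s + 1) * (((Z ^ c) ^ s + 1) * 2)) ^ ((p + q) ^ s)) *
      ((Z ^ c + 1) ^ q * ((q + qs + 4) * Z ^ c) + Z ^ c)) := by
  have hv : PB (fun Z => Z ^ c) := PB.var.pow c
  have h1 := PB.const 1
  have h2 := PB.const 2
  refine PB.mul ((hv.add (((PB.const c).mul (PB.var.pow p0)).add h1)).add
    ((hv.pow p).mul (PB.pow (((hv.pow s).add h1).mul (((hv.pow s).add h1).mul h2)) _))) ?_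
  exact (((hv.add h1).pow q).mul ((PB.const _).mul hv)).add hv

/-- bound on the number of guesses -/
lemma guess_leL {k b M s K Z c α C2 p : ℕ} (hb : b = 2 ^ k)
    (hZ2 : 2 ≤ Z) (hZb : Z ≤ b ^ (α + 5)) (hM : M ≤ Z ^ c) (hK2 : K ≤ C2 * k ^ p) :
    (M ^ s + 1) ^ K ≤ 2 ^ ((α + 5) * (c * s + 1) * C2 * k ^ (p + 1)) := by
  have hb1 : 1 ≤ b := by rw [hb]; exact Nat.one_le_two_pow
  have e1 : M ^ s + 1 ≤ Z ^ (c * s + 1) := by
    have e2 : 1 ≤ Z ^ (c * s) := Nat.one_le_pow _ _ (by omega)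
    calc M ^ s + 1 ≤ (Z ^ c) ^ s + 1 := Nat.add_le_add_right (Nat.pow_le_pow_left hM s) 1
      _ = Z ^ (c * s) + 1 := by rw [← pow_mul]
      _ ≤ Z ^ (c * s) + Z ^ (c * s) := Nat.add_le_add_left e2 _
      _ = Z ^ (c * s) * 2 := by ring
      _ ≤ Z ^ (c * s) * Z := Nat.mul_le_mul_left _ hZ2
      _ = Z ^ (c * s + 1) := by rw [pow_succ]
  calc (M ^ s + 1) ^ K ≤ (Z ^ (c * s + 1)) ^ K := Nat.pow_le_pow_left e1 _
    _ ≤ ((b ^ (α + 5)) ^ (c * s + 1)) ^ K :=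
        Nat.pow_le_pow_left (Nat.pow_le_pow_left hZb _) _
    _ ≤ ((b ^ (α + 5)) ^ (c * s + 1)) ^ (C2 * k ^ p) :=
        Nat.pow_le_pow_right (Nat.one_le_pow _ _ (Nat.one_le_pow _ _ hb1)) hK2
    _ = 2 ^ ((α + 5) * (c * s + 1) * C2 * k ^ (p + 1)) := by
        rw [hb, ← pow_mul, ← pow_mul, ← pow_mul]
        congr 1
        ring

/-- the width bound -/
lemma width_bound {k κ d d' L K S Cw C2 p q w : ℕ} (hk1 : 1 ≤ k)
    (hw : w = (L + (2 * K + 1) ^ d' + 1) * S ^ (d + 2))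
    (hCw : Cw = (L + 1 + 2 ^ d') * S ^ (d + 2))
    (hK : K ^ q ≤ C2 * k ^ p) (hpq : p * d' < q * (d + 1)) (hq : 1 ≤ q)
    (hk : (2 * Cw) ^ q * (2 ^ q * (C2 + 1)) ^ d' * κ ^ q ≤ k) :
    2 * w * κ ≤ k ^ (d + 1) := by
  have hK1 : 1 ≤ (K + 1) ^ d' := Nat.one_le_pow _ _ (by omega)
  have h1 : w ≤ Cw * (K + 1) ^ d' := by
    have e1 : (2 * K + 1) ^ d' ≤ 2 ^ d' * (K + 1) ^ d' := by
      rw [← mul_pow]
      exact Nat.pow_le_pow_left (by omega) _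
    calc w = (L + 1 + (2 * K + 1) ^ d') * S ^ (d + 2) := by rw [hw]; ring
      _ ≤ ((L + 1) * (K + 1) ^ d' + 2 ^ d' * (K + 1) ^ d') * S ^ (d + 2) := by
          apply Nat.mul_le_mul_right
          exact Nat.add_le_add (Nat.le_mul_of_pos_right _ hK1) e1
      _ = Cw * (K + 1) ^ d' := by rw [hCw]; ring
  have h2 : (K + 1) ^ q ≤ 2 ^ q * (C2 + 1) * k ^ p := by
    have hkp : 1 ≤ k ^ p := Nat.one_le_pow _ _ hk1
    rcases Nat.eq_zero_or_pos K with hK0 | hK0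
    · rw [hK0, zero_add, one_pow]
      exact Nat.mul_pos (Nat.mul_pos (by positivity) (by omega)) hkp
    · calc (K + 1) ^ q ≤ (2 * K) ^ q := Nat.pow_le_pow_left (by omega) _
        _ = 2 ^ q * K ^ q := by rw [mul_pow]
        _ ≤ 2 ^ q * (C2 * k ^ p) := Nat.mul_le_mul_left _ hK
        _ ≤ 2 ^ q * ((C2 + 1) * k ^ p) :=
            Nat.mul_le_mul_left _ (Nat.mul_le_mul_right _ (by omega))
        _ = _ := by ring
  have h3 : (2 * w * κ) ^ q ≤ (k ^ (d + 1)) ^ q := by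
    calc (2 * w * κ) ^ q ≤ (2 * (Cw * (K + 1) ^ d') * κ) ^ q :=
          Nat.pow_le_pow_left (Nat.mul_le_mul_right _ (Nat.mul_le_mul_left _ h1)) _
      _ = (2 * Cw) ^ q * ((K + 1) ^ q) ^ d' * κ ^ q := by
          rw [← pow_mul, mul_comm q d', pow_mul, ← mul_pow, ← mul_pow]
          congr 1
          ring
      _ ≤ (2 * Cw) ^ q * (2 ^ q * (C2 + 1) * k ^ p) ^ d' * κ ^ q :=
          Nat.mul_le_mul_right _ (Nat.mul_le_mul_left _ (Nat.pow_le_pow_left h2 _))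
      _ = ((2 * Cw) ^ q * (2 ^ q * (C2 + 1)) ^ d' * κ ^ q) * k ^ (p * d') := by
          rw [mul_pow (2 ^ q * (C2 + 1)) (k ^ p) d', ← pow_mul k p d']
          ring
      _ ≤ k * k ^ (p * d') := Nat.mul_le_mul_right _ hk
      _ = k ^ (p * d' + 1) := by ring
      _ ≤ k ^ (q * (d + 1)) := Nat.pow_le_pow_right hk1 hpq
      _ = (k ^ (d + 1)) ^ q := by rw [mul_comm, pow_mul]
  exact (Nat.pow_le_pow_iff_left (by omega)).mp h3

/-- the numerical conditions of the chain -/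
lemma ok_finalL {k κ d m cS L M C1 C3 C4 p w : ℕ} {cJ : ℕ → ℕ} (hκ1 : 1 ≤ κ) (hκk : κ ≤ k)
    (hw1 : 1 ≤ w) (h2w : 2 * w * κ ≤ k ^ (d + 1))
    (hN : 8 * (k ^ (p + 3) * (32 * k ^ (p + d + 4))) ^ (m + 1) ≤ 2 ^ κ)
    (hC1 : C1 ≤ k) (hC3 : 2 * C3 ≤ k) (hC31 : 1 ≤ C3) (hC4 : C1 + C4 + 3 ≤ C3)
    (hcS : cS ≤ 2 ^ (C1 * k ^ (p + 1))) (hcJ : ∀ i, i ≤ m → cJ i ≤ (M + 1) ^ L)
    (hout : (M + 1) ^ L ≤ 2 ^ (C4 * k)) :
    Ok cS cJ (k ^ (p + 3)) (32 * k ^ (p + d + 4)) (C3 * k ^ (p + 1)) m (k ^ (d + 1)) w := by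
  have hk1 : 1 ≤ k := by omega
  have h32w : 32 * w * κ ≤ 32 * k ^ (p + d + 4) := by
    calc 32 * w * κ = 16 * (2 * w * κ) := by ring
      _ ≤ 16 * k ^ (d + 1) := Nat.mul_le_mul_left _ h2w
      _ ≤ 32 * k ^ (p + d + 4) := Nat.mul_le_mul (by omega)
          (Nat.pow_le_pow_right hk1 (by omega))
  have hC3k : 1 ≤ C3 * k ^ (p + 1) := Nat.mul_pos hC31 (Nat.pow_pos hk1)
  have hPP : 2 * (C3 * k ^ (p + 1)) * κ ≤ k ^ (p + 3) := by
    calc 2 * (C3 * k ^ (p + 1)) * κ = (2 * C3) * k ^ (p + 1) * κ := by ring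
      _ ≤ k * k ^ (p + 1) * k := Nat.mul_le_mul (Nat.mul_le_mul_right _ hC3) hκk
      _ = k ^ (p + 3) := by ring
  have hLL : 32 * (C3 * k ^ (p + 1)) * κ ≤ 32 * k ^ (p + d + 4) := by
    calc 32 * (C3 * k ^ (p + 1)) * κ = 16 * (2 * (C3 * k ^ (p + 1)) * κ) := by ring
      _ ≤ 16 * k ^ (p + 3) := Nat.mul_le_mul_left _ hPP
      _ ≤ 32 * k ^ (p + d + 4) := Nat.mul_le_mul (by omega)
          (Nat.pow_le_pow_right hk1 (by omega))
  have hSJ : 8 * (cS * (M + 1) ^ L) ≤ 2 ^ (C3 * k ^ (p + 1)) := by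
    calc 8 * (cS * (M + 1) ^ L) ≤ 2 ^ 3 * (2 ^ (C1 * k ^ (p + 1)) * 2 ^ (C4 * k)) :=
          Nat.mul_le_mul (by norm_num) (Nat.mul_le_mul hcS hout)
      _ = 2 ^ (3 + (C1 * k ^ (p + 1) + C4 * k)) := by
          rw [pow_add 2 3, pow_add 2 (C1 * k ^ (p + 1))]
      _ ≤ 2 ^ (C3 * k ^ (p + 1)) := by
          apply Nat.pow_le_pow_right (by norm_num)
          have e1 : k ≤ k ^ (p + 1) := Nat.le_self_pow (by omega) k
          calc 3 + (C1 * k ^ (p + 1) + C4 * k)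
              ≤ 3 * k ^ (p + 1) + (C1 * k ^ (p + 1) + C4 * k ^ (p + 1)) := by
                apply Nat.add_le_add _ (Nat.add_le_add_left (Nat.mul_le_mul_left _ e1) _)
                have : 1 ≤ k ^ (p + 1) := Nat.pow_pos hk1
                omega
            _ = (C1 + C4 + 3) * k ^ (p + 1) := by ring
            _ ≤ C3 * k ^ (p + 1) := Nat.mul_le_mul_right _ hC4
  have hSlt : cS < 2 ^ (k ^ (p + 3) * (32 * k ^ (p + d + 4))) := by
    refine lt_of_le_of_lt hcS (Nat.pow_lt_pow_right (by norm_num) ?_)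
    have e1 : 1 ≤ k ^ (p + d + 4) := Nat.one_le_pow _ _ hk1
    have e2 : k ^ (p + 2) ≤ k ^ (p + 3) := Nat.pow_le_pow_right hk1 (by omega)
    have e3 : 1 ≤ k ^ (p + 3) := Nat.one_le_pow _ _ hk1
    calc C1 * k ^ (p + 1) ≤ k * k ^ (p + 1) := Nat.mul_le_mul_right _ hC1
      _ = k ^ (p + 2) := by ring
      _ ≤ k ^ (p + 3) := e2
      _ < k ^ (p + 3) * 32 := by omega
      _ ≤ k ^ (p + 3) * (32 * k ^ (p + d + 4)) :=
          Nat.mul_le_mul_left _ (Nat.le_mul_of_pos_right _ e1)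
  exact ok_all hκ1 hC3k hPP hLL hN hcJ hSJ hSlt m le_rfl _ w hw1 h2w h32w

/-- No reduction with small growth of the parameter. -/
theorem no_red_L (m d d' p q : ℕ) (hd : 1 ≤ d) (hq : 1 ≤ q) (hpq : p * d' < q * (d + 1))
    {τ' : Voc} {s : ℕ} (φ : PiF τ' s (m + 2)) (hocc : φ.innerOcc ≤ d') :
    ¬ AC0Red p q (srcFt (decide (m % 2 = 0)) m d) φ := by
  rintro ⟨c, hred⟩
  -- constants
  obtain ⟨L, hL⟩ : ∃ L, L = Fintype.card (Vars φ.len (m + 1)) := ⟨_, rfl⟩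
  obtain ⟨D, hD⟩ : ∃ D, D = c + φ.ψ.qs + 4 := ⟨_, rfl⟩
  obtain ⟨E, hE⟩ := PB_totalL c p L (φ.len (m + 1)) s φ.ψ.qs
  obtain ⟨S, hS⟩ : ∃ S, S = (2 * D + 5) * E + d + 3 := ⟨_, rfl⟩
  have hSd : d + 2 < S := by omega
  obtain ⟨sg, hsg⟩ : ∃ sg, sg = sgr (d + 2) S := ⟨_, rfl⟩
  have hsg1 : 1 ≤ sg := by rw [hsg]; exact sgr_pos hSd
  obtain ⟨α, hα⟩ : ∃ α, α = 2 * sg * D := ⟨_, rfl⟩
  obtain ⟨C2, hC2⟩ : ∃ C2, C2 = c * (α + 6) ^ p := ⟨_, rfl⟩
  obtain ⟨C1, hC1⟩ : ∃ C1, C1 = (α + 5) * (c * s + 1) * C2 := ⟨_, rfl⟩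
  obtain ⟨C4, hC4⟩ : ∃ C4, C4 = (α + 5) * (c + 1) * L := ⟨_, rfl⟩
  obtain ⟨Cw, hCw⟩ : ∃ Cw, Cw = (L + 1 + 2 ^ d') * S ^ (d + 2) := ⟨_, rfl⟩
  obtain ⟨C3, hC3⟩ : ∃ C3, C3 = C1 + C4 + 3 + S ^ (d + 2) := ⟨_, rfl⟩
  obtain ⟨Cκ, hCκ⟩ : ∃ Cκ, Cκ = (2 * Cw) ^ q * (2 ^ q * (C2 + 1)) ^ d' := ⟨_, rfl⟩
  have hSp : 1 ≤ S ^ (d + 2) := Nat.one_le_pow _ _ (by omega)
  have hCw1 : 1 ≤ Cw := by rw [hCw]; exact Nat.mul_pos (by positivity) hSp
  have hCκ1 : 1 ≤ Cκ := by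
    rw [hCκ]
    exact Nat.mul_pos (Nat.pow_pos (by omega)) (Nat.pow_pos (Nat.mul_pos (by positivity) (by omega)))
  obtain ⟨k1, hk1⟩ := ev_pow 4 (2 * (d + 1))
  obtain ⟨k2, hk2⟩ := ev_pow (8 * (32 * Cκ ^ (2 * p + d + 7)) ^ (m + 1))
    (q * (2 * p + d + 7) * (m + 1))
  obtain ⟨κ, hκ⟩ : ∃ κ, κ = k1 + k2 + (2 * α + 8) + (sg * S + 3) + C1 + 2 * C3 := ⟨_, rfl⟩
  obtain ⟨k, hk⟩ : ∃ k, k = Cκ * κ ^ q := ⟨_, rfl⟩
  have hκk : κ ≤ k := by
    rw [hk]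
    calc κ ≤ κ ^ q := Nat.le_self_pow (by omega) κ
      _ ≤ Cκ * κ ^ q := Nat.le_mul_of_pos_left _ hCκ1
  have h4 := hk1 k (by omega)
  have h5 := hk2 κ (by omega)
  have hkα : 2 * α + 8 ≤ k := by omega
  have hkS : sg * S + 3 ≤ k := by omega
  have hkC1 : C1 ≤ k := by omega
  have hkC3 : 2 * C3 ≤ k := by omega
  have hκ1 : 1 ≤ κ := by omega
  clear hκ hk1 hk2
  have hk8 : 8 ≤ k := by omega
  have hN : 8 * (k ^ (p + 3) * (32 * k ^ (p + d + 4))) ^ (m + 1) ≤ 2 ^ κ := by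
    have e1 : 8 * (k ^ (p + 3) * (32 * k ^ (p + d + 4))) ^ (m + 1) =
        (8 * (32 * Cκ ^ (2 * p + d + 7)) ^ (m + 1)) * κ ^ (q * (2 * p + d + 7) * (m + 1)) := by
      have e2 : k ^ (p + 3) * (32 * k ^ (p + d + 4)) = 32 * k ^ (2 * p + d + 7) := by ring
      rw [e2, hk, mul_pow Cκ (κ ^ q), ← pow_mul κ q, pow_mul κ (q * (2 * p + d + 7)),
        ← mul_assoc 32, mul_pow, ← mul_assoc]
    rw [e1]
    exact h5
  have hk2b : k + 2 ≤ 2 ^ k := by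
    obtain ⟨k', hk'⟩ : ∃ k', k = k' + 1 := ⟨k - 1, by omega⟩
    rw [hk']
    have : k' < 2 ^ k' := Nat.lt_pow_self (by norm_num)
    rw [pow_succ]
    omega
  obtain ⟨b, hb⟩ : ∃ b, b = 2 ^ k := ⟨_, rfl⟩
  rw [← hb] at hk2b
  have hb256 : 256 ≤ b := by
    calc 256 = 2 ^ 8 := by norm_num
      _ ≤ 2 ^ k := Nat.pow_le_pow_right (by norm_num) hk8
      _ = b := hb.symm
  have : NeZero b := ⟨by omega⟩
  have : NeZero k := ⟨by omega⟩
  obtain ⟨B, hB⟩ : ∃ B, B = b ^ (α + 1) := ⟨_, rfl⟩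
  have hB0 : 1 ≤ B := by rw [hB]; exact Nat.one_le_pow _ _ (by omega)
  have : NeZero B := ⟨by omega⟩
  obtain ⟨cPP, hcPP⟩ : ∃ cPP, cPP = k ^ (p + 3) := ⟨_, rfl⟩
  obtain ⟨cLL, hcLL⟩ : ∃ cLL, cLL = 32 * k ^ (p + d + 4) := ⟨_, rfl⟩
  have hcPP1 : 1 ≤ cPP := by rw [hcPP]; exact Nat.one_le_pow _ _ (by omega)
  have hcLL1 : 1 ≤ cLL := by rw [hcLL]; exact Nat.mul_pos (by norm_num) (Nat.pow_pos (by omega))
  have : NeZero cPP := ⟨by omega⟩
  have : NeZero cLL := ⟨by omega⟩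
  have hN' := hN
  rw [← hcPP, ← hcLL] at hN'
  have hNb : (cPP * cLL) ^ (m + 1) ≤ b := by
    rw [hb]
    calc (cPP * cLL) ^ (m + 1) ≤ 8 * (cPP * cLL) ^ (m + 1) := by omega
      _ ≤ 2 ^ κ := hN'
      _ ≤ 2 ^ k := Nat.pow_le_pow_right (by norm_num) hκk
  have hN1 : 1 ≤ cPP * cLL := Nat.mul_pos hcPP1 hcLL1
  have hNb1 : cPP * cLL ≤ b := by
    calc cPP * cLL = (cPP * cLL) ^ 1 := (pow_one _).symm
      _ ≤ (cPP * cLL) ^ (m + 1) := Nat.pow_le_pow_right hN1 (by omega)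
      _ ≤ b := hNb
  -- the universe
  obtain ⟨n, hn⟩ : ∃ n, n = k * ((cPP * cLL) ^ (m + 1) * B) + k * B + k + cPP * cLL := ⟨_, rfl⟩
  have hn2 : n + 2 ≤ b ^ (α + 4) := n_boundG hk2b (by omega) hB hNb hNb1 hn
  have hcX : Fintype.card (Fin cPP × Fin cLL) = cPP * cLL := by
    rw [Fintype.card_prod, Fintype.card_fin, Fintype.card_fin]
  have hcT : Fintype.card (Tup (fun _ : ℕ => Fin cPP × Fin cLL) m) = (cPP * cLL) ^ m := by
    rw [card_Tup_const, hcX]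
  have hcard : Fintype.card (Un k (Tup (fun _ : ℕ => Fin cPP × Fin cLL) m)
      (Fin cPP × Fin cLL) B) = n := by
    rw [hn]
    simp only [Fintype.card_sum, Fintype.card_prod, hcT, Fintype.card_fin]
    ring
  have eU : Un k (Tup (fun _ : ℕ => Fin cPP × Fin cLL) m) (Fin cPP × Fin cLL) B ≃ Fin n :=
    Fintype.equivFinOfCardEq hcard
  obtain ⟨T, ⟨hM, hK, hdom, hrel, hpar⟩, hcorr⟩ := hred n k (by rw [hn]; omega) (by omega)
  rw [← hb] at hM hdom hrel hpar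
  obtain ⟨Z, hZ⟩ : ∃ Z, Z = b * (n + 2) := ⟨_, rfl⟩
  rw [← hZ] at hM hdom hrel hpar
  have hZ2 : 2 ≤ Z := by
    rw [hZ]
    calc 2 = 1 * 2 := rfl
      _ ≤ b * (n + 2) := Nat.mul_le_mul (by omega) (by omega)
  have hZb : Z ≤ b ^ (α + 5) := by
    rw [hZ]
    calc b * (n + 2) ≤ b * b ^ (α + 4) := Nat.mul_le_mul_left _ hn2
      _ = b ^ (α + 5) := by ring
  have hZc : 1 ≤ Z ^ c := Nat.one_le_pow _ _ (by omega)
  -- bound on the new parameter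
  have hlog : Nat.log 2 (n + 1) ≤ k * (α + 4) := by
    have e1 : n + 1 ≤ 2 ^ (k * (α + 4)) := by
      rw [pow_mul, ← hb]
      exact le_trans (by omega) hn2
    calc Nat.log 2 (n + 1) ≤ Nat.log 2 (2 ^ (k * (α + 4))) := Nat.log_mono_right e1
      _ = k * (α + 4) := Nat.log_pow (by norm_num) _
  have hKq : T.K ≤ T.K ^ q := Nat.le_self_pow (by omega) _
  have hK1 : T.K ≤ c * Z ^ p := by
    refine hKq.trans (hK.trans (Nat.mul_le_mul_left _ (Nat.pow_le_pow_left ?_ _)))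
    have e1 : Nat.log 2 (n + 1) ≤ n + 1 := Nat.log_le_self _ _
    rw [hZ]
    calc k + Nat.log 2 (n + 1) + 1 ≤ b * 1 + 1 * (n + 1) := by omega
      _ ≤ b * 1 + b * (n + 1) := Nat.add_le_add_left (Nat.mul_le_mul_right _ (by omega)) _
      _ = b * (n + 2) := by ring
  have hKq2 : T.K ^ q ≤ C2 * k ^ p := by
    refine hK.trans ?_
    rw [hC2, mul_assoc, ← mul_pow]
    apply Nat.mul_le_mul_left
    apply Nat.pow_le_pow_left
    calc k + Nat.log 2 (n + 1) + 1 ≤ k + k * (α + 4) + k := by omega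
      _ = (α + 6) * k := by ring
  have hK2 : T.K ≤ C2 * k ^ p := hKq.trans hKq2
  -- the family
  have hdepth : ∀ i, (famG T (matT φ) i).depth ≤ D := by
    intro i
    rw [hD, ← matT_qs φ]
    exact famG_depth T (matT φ) (fun a => (hdom a).1) (fun R v => (hrel R v).1)
      (fun j => (hpar j).1) i
  obtain ⟨sz, hsz⟩ : ∃ sz, sz = (Z ^ c + 1) ^ φ.len (m + 1) *
      ((φ.len (m + 1) + φ.ψ.qs + 4) * Z ^ c) + Z ^ c := ⟨_, rfl⟩
  have hsize : ∀ i, (famG T (matT φ) i).size ≤ sz := by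
    intro i
    rw [hsz, ← matT_qs φ]
    refine (famG_size T (matT φ) hZc (fun a => (hdom a).2) (fun R v => (hrel R v).2)
      (fun j => (hpar j).2) i).trans ?_
    exact Nat.add_le_add_right (Nat.mul_le_mul_right _
      (Nat.pow_le_pow_left (Nat.add_le_add_right hM 1) _)) _
  have hcardIdx := card_IdxG (s := s) T (Vars φ.len (m + 1)) (φ.len (m + 1)) hM hK1
  rw [← hL] at hcardIdx
  have htotal : Fintype.card (IdxG (s := s) T (Vars φ.len (m + 1)) (φ.len (m + 1))) * sz ≤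
      ((2 ^ k) ^ (2 * sgr (d + 2) S * D + 5)) ^ E := by
    rw [← hsg, ← hα, ← hb]
    calc Fintype.card (IdxG (s := s) T (Vars φ.len (m + 1)) (φ.len (m + 1))) * sz ≤ _ :=
          Nat.mul_le_mul_right _ hcardIdx
      _ ≤ Z ^ E := by rw [hsz]; exact hE Z hZ2
      _ ≤ _ := Nat.pow_le_pow_left hZb E
  have hexp : (2 * sgr (d + 2) S * D + 5) * E + 1 ≤ sgr (d + 2) S * S := by
    rw [← hsg]
    have e1 : 5 ≤ 5 * sg := by omega
    calc (2 * sg * D + 5) * E + 1 ≤ (2 * sg * D + 5 * sg) * E + sg :=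
          Nat.add_le_add (Nat.mul_le_mul_right _ (Nat.add_le_add_left e1 _)) hsg1
      _ = sg * ((2 * D + 5) * E + 1) := by ring
      _ ≤ sg * S := Nat.mul_le_mul_left _ (by omega)
  have hcX2 : 2 * ((2 * sgr (d + 2) S * D + 1) * k + 3) ≤ cPP * cLL := by
    rw [← hsg, ← hα, hcPP, hcLL]
    have e1 : 1 ≤ k ^ (p + d + 4) := Nat.one_le_pow _ _ (by omega)
    have e2 : k ^ 2 ≤ k ^ (p + 3) := Nat.pow_le_pow_right (by omega) (by omega)
    calc 2 * ((α + 1) * k + 3) ≤ 32 * (k * k) := by nlinarith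
      _ = k ^ 2 * 32 := by ring
      _ ≤ k ^ (p + 3) * (32 * k ^ (p + d + 4)) :=
          Nat.mul_le_mul e2 (Nat.le_mul_of_pos_right _ e1)
  have hnum := failG_lt_one (d := d) (k := k) (D := D) (S := S) (E := E)
    (cG0 := (cPP * cLL) ^ m) (cX := cPP * cLL)
    (m := Fintype.card (IdxG (s := s) T (Vars φ.len (m + 1)) (φ.len (m + 1)))) (sz := sz) hd hk8
    (by rw [← hsg, ← hα]; omega) (by rw [← hsg]; exact hkS)
    (by rw [← pow_mul, mul_comm (d + 1) 2]; exact h4) hcX2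
    (by rw [← pow_succ, ← hb]; exact hNb) hexp htotal
  rw [← hsg, ← hα, ← hb, ← hB, ← hcT, ← hcX] at hnum
  have hBb : B ≤ b ^ k := by
    rw [hB]
    exact Nat.pow_le_pow_right (by omega) (by omega)
  have hcG : Fintype.card (Guess (s := s) T) = (T.M ^ s + 1) ^ T.K := by
    rw [Fintype.card_fun, Fintype.card_option, Fintype.card_fun, Fintype.card_fin,
      Fintype.card_fin, Fintype.card_fin]
  have h2w := width_bound (κ := κ) (w := (L + (2 * T.K + 1) ^ d' + 1) * S ^ (d + 2))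
    (show 1 ≤ k by omega) rfl hCw hKq2 hpq hq (by rw [← hCκ, hk])
  refine heartL (sw := C3 * k ^ (p + 1)) φ hocc T eU hcorr hdepth sz hsize hd (by omega) hSd hBb
    hnum (Nat.mul_pos (by omega) (Nat.pow_pos (by omega))) ?_ ?_
  · calc S ^ (d + 2) ≤ C3 := by omega
      _ ≤ C3 * k ^ (p + 1) := Nat.le_mul_of_pos_right _ (Nat.pow_pos (by omega))
  · rw [hcG, hcPP, hcLL, ← hL]
    refine ok_finalL (C1 := C1) (C3 := C3) (C4 := C4) (M := T.M) (L := L) hκ1 hκk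
      (Nat.mul_pos (by omega) hSp) h2w hN hkC1 hkC3 (by omega) (by omega) ?_ ?_ ?_
    · rw [hC1]
      exact guess_leL hb hZ2 hZb hM hK2
    · intro i hi
      have h6 := card_TupJ T φ i
      simp only [h6]
      calc T.M ^ Fintype.card (Vars φ.len i) ≤ (T.M + 1) ^ Fintype.card (Vars φ.len i) :=
            Nat.pow_le_pow_left (by omega) _
        _ ≤ (T.M + 1) ^ L := by
            apply Nat.pow_le_pow_right (by omega)
            rw [hL]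
            exact card_Vars_mono φ.len (by omega)
    · rw [hC4]
      exact outer_le hb hZ2 hZb hM

end

end Pool.Agent.Helper265_EW.G
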