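import Pool.Agent.Helper265_EW.CComp
import Pool.Agent.Helper265_EW.LMain

set_option linter.unusedSectionVars false

/-! The normal form problems under constant-depth reductions. -/

namespace Pool.Agent.Helper265_EW.C

open Finset Classical Pool.Agent.Helper265_EW.G Pool.Agent.Helper265_EW.P

noncomputable section

/-- reductions by interpretations whose domain is nonempty and independent of the relations -/
def QG {τ τ' : Voc} {s s' t t' : ℕ} (f : ℕ → ℕ) (φ : PiF τ s t) (φ' : PiF τ' s' t') : Prop :=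
  ∃ I : QInt τ τ', Indep I ∧ (∀ n k, 1 ≤ n → Nonempty (I.Univ (nul τ n) k)) ∧
    ∀ n k : ℕ, 1 ≤ n → ∀ A : Str τ (Fin n), (WDF φ A k ↔ WDF φ' (I.out A k) (f k))

lemma indep_intP {τ : Voc} {s m : ℕ} (φ : PiF τ s (m + 2)) (d' e' : ℕ) :
    Indep (intP φ d' e') := by
  intro n k A A' tg w
  cases tg with
  | some y => rfl
  | none =>
    change decide _ = decide _
    rw [decide_eq_decide]
    apply and_congr
    · apply forall_congr'
      intro l
      exact (vgA_iff (A := A) (w := w) (fun y => Sum.inr (false, l, y))).trans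
        (vgA_iff (A := A') (w := w) (fun y => Sum.inr (false, l, y))).symm
    · simp only [atp_zero]

lemma ne_intP {τ : Voc} {s m : ℕ} (φ : PiF τ s (m + 2)) (d' e' n k : ℕ) (hn : 1 ≤ n) :
    Nonempty ((intP φ d' e').Univ (nul τ n) k) := by
  refine ⟨elW (φ := φ) (d' := d') (e' := e') (k := k) (nul τ n)
    (pwG (fun _ => toLex (fun _ => ⟨0, hn⟩)) (fun _ => 0))⟩

lemma qg_ext {τ τ' : Voc} {s s' t t' : ℕ} {f : ℕ → ℕ} {φ : PiF τ s t} {φ' : PiF τ' s' t'}
    (h : QG f (P.ext φ) φ') : QG f φ φ' := by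
  obtain ⟨I, h1, h2, hI⟩ := h
  refine ⟨I, h1, h2, fun n k hn A => ?_⟩
  have : Nonempty (Fin n) := ⟨⟨0, hn⟩⟩
  rw [← ext_WD φ A k]
  exact hI n k hn A

/-- the normal form theorem, with the additional properties of the interpretation -/
theorem qg_norm (m d : ℕ) (hd : 1 ≤ d) (e : ℕ) (he : 1 ≤ e) (t' : ℕ) (τ : Voc) (s : ℕ)
    (φ : PiF τ s t')
    (h : t' < m + 2 ∨ (t' = m + 2 ∧ (φ.innerOcc ≤ d * e ∨ φ.InnerWidth (d * e)))) :
    QG (fun k => (k + 1) ^ e) φ (normF (decide (m % 2 = 0)) m d) := by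
  obtain ⟨d', rfl⟩ : ∃ d', d = d' + 1 := ⟨d - 1, by omega⟩
  obtain ⟨e', rfl⟩ : ∃ e', e = e' + 1 := ⟨e - 1, by omega⟩
  have h1 : ∀ φ : PiF τ s (m + 2),
      (φ.innerOcc ≤ (d' + 1) * (e' + 1) ∨ φ.InnerWidth ((d' + 1) * (e' + 1))) →
      QG (fun k => (k + 1) ^ (e' + 1)) φ (normF (decide (m % 2 = 0)) m (d' + 1)) := by
    intro φ h
    have hw : φ.InnerWidth ((d' + 1) * (e' + 1)) := by
      rcases h with h | h
      · exact cert_of_occ _ _ _ _ h
      · exact h
    exact ⟨intP φ d' e', indep_intP φ d' e', ne_intP φ d' e', normal_form m d' e' φ hw⟩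
  have h2 : ∀ j t' : ℕ, t' + j + 1 = m + 2 → ∀ (φ : PiF τ s t'),
      QG (fun k => (k + 1) ^ (e' + 1)) φ (normF (decide (m % 2 = 0)) m (d' + 1)) := by
    intro j
    induction j with
    | zero =>
      intro t' ht φ
      obtain rfl : t' = m + 1 := by omega
      apply qg_ext
      exact h1 (P.ext φ) (Or.inl (by rw [ext_inner]; exact Nat.zero_le _))
    | succ j ih =>
      intro t' ht φ
      apply qg_ext
      exact ih (t' + 1) (by omega) (P.ext φ)
  rcases h with h | ⟨h, h'⟩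
  · exact h2 (m + 1 - t') t' (by omega) φ
  · subst h
    exact h1 φ h'

lemma occP_le {τ : Voc} {s : ℕ} {V : Type} (P : (Fin s → V) → Prop) (ψ : QF τ s V) :
    ψ.occP P ≤ ψ.occ := by
  induction ψ with
  | rel R v => exact le_refl _
  | eq u v => exact le_refl _
  | mem v =>
    simp only [QF.occP, QF.occ]
    split_ifs <;> simp
  | not ψ ih => exact ih
  | and ψ χ ih1 ih2 =>
    simp only [QF.occP, QF.occ]
    exact add_le_add ih1 ih2

/-- upper bounds -/
theorem red_norm (m d : ℕ) (hd : 1 ≤ d) (e : ℕ) (he : 1 ≤ e) (t' : ℕ) (τ : Voc) (s : ℕ)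
    (φ : PiF τ s t')
    (h : t' < m + 2 ∨ (t' = m + 2 ∧ (φ.innerOcc ≤ d * e ∨ φ.InnerWidth (d * e)))) :
    AC0Red e 1 φ (normF (decide (m % 2 = 0)) m d) := by
  obtain ⟨I, h1, -, h3⟩ := qg_norm m d hd e he t' τ s φ h
  exact qint_AC0 I h1 e h3

/-- lower bounds -/
theorem no_red_norm (m d : ℕ) (hd : 1 ≤ d) (p q t' : ℕ) (ht' : 2 ≤ t') (hq : 1 ≤ q) (τ : Voc)
    (s : ℕ) (φ : PiF τ s t') (h : t' < m + 2 ∨ (t' = m + 2 ∧ 2 ≤ d ∧ p * φ.innerOcc < q * d)) :
    ¬ AC0Red p q (normF (decide (m % 2 = 0)) m d) φ := by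
  intro hred
  obtain ⟨m', rfl⟩ : ∃ m', t' = m' + 2 := ⟨t' - 2, by omega⟩
  rcases h with h | ⟨h, hd2, h'⟩
  · obtain ⟨I, h1, h2, h3⟩ := qg_norm m d hd 1 le_rfl (m' + 2) _ 1
      (srcFt (decide (m' % 2 = 0)) m' (p * φ.innerOcc + 1)) (Or.inl h)
    have h4 : AC0Red p q (srcFt (decide (m' % 2 = 0)) m' (p * φ.innerOcc + 1)) φ :=
      comp_AC0 I h1 h2 (fun n k hn A => by
        have h5 := h3 n k hn A
        simp only [pow_one] at h5
        exact h5) hred
    refine no_red_L m' (p * φ.innerOcc + 1) φ.innerOcc p q (by omega) hq ?_ φ le_rfl h4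
    calc p * φ.innerOcc < p * φ.innerOcc + 1 + 1 := by omega
      _ ≤ q * (p * φ.innerOcc + 1 + 1) := Nat.le_mul_of_pos_left _ hq
  · obtain rfl : m' = m := by omega
    obtain ⟨e, rfl⟩ : ∃ e, d = e + 1 := ⟨d - 1, by omega⟩
    obtain ⟨I, h1, h2, h3⟩ := qg_norm m' (e + 1) hd 1 le_rfl (m' + 2) _ 1
      (srcFt (decide (m' % 2 = 0)) m' e) (Or.inr ⟨rfl, Or.inl (by
        refine (occP_le _ _).trans ?_
        have := srcFt_occ (decide (m' % 2 = 0)) m' e
        unfold PiF.occ at this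
        rw [this]
        omega)⟩)
    have h4 : AC0Red p q (srcFt (decide (m' % 2 = 0)) m' e) φ :=
      comp_AC0 I h1 h2 (fun n k hn A => by
        have h5 := h3 n k hn A
        simp only [pow_one] at h5
        exact h5) hred
    exact no_red_L m' e φ.innerOcc p q (by omega) hq h' φ le_rfl h4

end

end Pool.Agent.Helper265_EW.C
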