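import Pool.Agent.Helper265_EW.Step

set_option linter.unusedSectionVars false

/-! Iterating the depth reduction. -/

namespace Pool.Agent.Helper265_EW

open Finset Classical Pool.Agent.H592R2

noncomputable section

/-- numerical conditions for the chain of depth reductions -/
def Ok (cS : ℕ) (cJ : ℕ → ℕ) (cPP cLL s : ℕ) : ℕ → ℕ → ℕ → Prop
  | 0, cP, w => cS * w ^ (cPP * cLL) < cP ^ (cPP * cLL)
  | m + 1, cP, w => stepFail (cS * cJ (m + 1)) s ((cPP * cLL) ^ (m + 2)) w cP
      ((cPP * cLL) ^ (m + 1)) cPP cLL < 1 ∧ Ok cS cJ cPP cLL s m cPP s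

theorem chain {PP LL Sg Ex : Type} [Fintype PP] [DecidableEq PP] [Fintype LL] [DecidableEq LL]
    [Fintype Sg] (J : ℕ → Type) [∀ i, Fintype (J i)] (s wH : ℕ) (hs : 1 ≤ s)
    (hsH : wH ≤ s) :
    ∀ (m : ℕ) {P Y : Type} [Fintype P] [DecidableEq P] [Fintype Y] (w : ℕ), 1 ≤ w → wH ≤ w →
      ∀ (G : Sg → Tup J m → Y → (Tup (fun _ => PP × LL) (m + 1) → P → Bool) → Prop)
        (H : Sg → Ex → (Tup (fun _ => PP × LL) (m + 1) → P → Bool) → Prop),
      (∀ σ v y, ∃ Q : Finset (Tup (fun _ => PP × LL) (m + 1) × P), Q.card ≤ w ∧ Dep Q (G σ v y)) →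
      (∀ σ e, ∃ Q : Finset (Tup (fun _ => PP × LL) (m + 1) × P), Q.card ≤ wH ∧ Dep Q (H σ e)) →
      Ok (Fintype.card Sg) (fun n => Fintype.card (Tup J n)) (Fintype.card PP) (Fintype.card LL) s
        m (Fintype.card P) w →
      (∀ q : Tup (fun _ => PP × LL) (m + 1) → P → Bool,
        alt (fun _ => PP × LL) (m + 1) (fun v => lev (m + 1) (fun p => q v p = true)) ↔
        ∃ σ, (∀ e, H σ e q) ∧ alt J m (fun v => lev m (fun y => G σ v y q))) → False := by
  intro m
  induction m with
  | zero =>
    intro P Y _ _ _ w hw hwH G H hG hH hok hmain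
    have hcore := core (X := Tup (fun _ => PP × LL) 1) (P := P) (Sg := Sg) (I := fun _ => Ex ⊕ Y)
      (fun σ i => match i with
        | Sum.inl e => H σ e
        | Sum.inr y => G σ () y) w ?_ ?_
    · have hcX : Fintype.card (Tup (fun _ : ℕ => PP × LL) 1) =
          Fintype.card PP * Fintype.card LL := by
        rw [card_Tup_const, pow_one, Fintype.card_prod]
      rw [hcX] at hcore
      have hok' : Fintype.card Sg * w ^ (Fintype.card PP * Fintype.card LL) <
        Fintype.card P ^ (Fintype.card PP * Fintype.card LL) := hok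
      omega
    · rintro σ (e | y)
      · obtain ⟨Q, hQ, hd⟩ := hH σ e
        exact ⟨Q, hQ.trans hwH, hd⟩
      · exact hG σ () y
    · intro q
      have h1 := hmain q
      have h2 : alt (fun _ => PP × LL) 1 (fun v => lev 1 (fun p => q v p = true)) ↔
          ∀ x : Tup (fun _ => PP × LL) 1, ∃ p, q x p = true := by
        simp only [alt]
        rw [lev_even (by norm_num)]
        constructor
        · rintro h ⟨⟨⟩, x⟩
          have := h x
          rw [lev_odd (by norm_num)] at this
          exact this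
        · intro h x
          rw [lev_odd (by norm_num)]
          exact h ((), x)
      rw [← h2, h1]
      apply exists_congr
      intro σ
      have h3 : alt J 0 (fun v => lev 0 (fun y => G σ v y q)) ↔ ∀ y, G σ () y q := by
        simp only [alt]
        rw [lev_even (by norm_num)]
      rw [h3]
      constructor
      · rintro ⟨h4, h5⟩ (e | y)
        · exact h4 e
        · exact h5 y
      · intro h
        exact ⟨fun e => h (Sum.inl e), fun y => h (Sum.inr y)⟩
  | succ m ih =>
    intro P Y _ _ _ w hw hwH G H hG hH hok hmain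
    obtain ⟨hfail, hok'⟩ := hok
    -- apply the step
    have hcI0 : Fintype.card (Tup (fun _ : ℕ => PP × LL) (m + 1)) =
        (Fintype.card PP * Fintype.card LL) ^ (m + 1) := by
      rw [card_Tup_const, Fintype.card_prod]
    have hcI : Fintype.card (Tup (fun _ : ℕ => PP × LL) (m + 1) × (PP × LL)) =
        (Fintype.card PP * Fintype.card LL) ^ (m + 2) := by
      rw [Fintype.card_prod, hcI0, Fintype.card_prod, ← pow_succ]
    obtain ⟨Z, hZ1, hZ2, hZ3⟩ := step_lev (I0 := Tup (fun _ => PP × LL) (m + 1)) (PP := PP)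
      (LL := LL) (P := P) (Γt := Sg × Tup J (m + 1)) (Y := Y) (m + 1)
      (fun γ y => G γ.1 γ.2 y) w s hw (fun γ y => hG γ.1 γ.2 y) (by
        rw [hcI, hcI0, Fintype.card_prod]
        exact hfail)
    choose cl hcl1 hcl2 using fun γ => cert_expand m s _ (hZ2 γ)
    refine ih (P := PP) (Y := J m × (Finset (Tup (fun _ => PP × LL) (m + 1) × PP) ×
        (Tup (fun _ => PP × LL) (m + 1) → PP → Bool))) s hs hsH
      (fun σ v y => cl (σ, (v, y.1)) y.2) (fun σ e z => H σ e (Z z)) ?_ ?_ hok' ?_
    · intro σ v y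
      exact hcl1 _ _
    · intro σ e
      obtain ⟨Q, hQ, hd⟩ := hH σ e
      obtain ⟨Q', hQ', hd'⟩ := hZ3 _ Q hd
      exact ⟨Q', hQ'.trans hQ, hd'⟩
    · intro z
      have h1 : alt (fun _ => PP × LL) (m + 1) (fun v => lev (m + 1) (fun p => z v p = true)) ↔
          alt (fun _ => PP × LL) (m + 2) (fun v => lev (m + 2) (fun p => Z z v p = true)) := by
        have h2 : alt (fun _ => PP × LL) (m + 2) (fun v => lev (m + 2) (fun p => Z z v p = true)) ↔
            alt (fun _ => PP × LL) (m + 1) (fun v => lev (m + 1) (fun x : PP × LL =>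
              lev (m + 2) (fun p => Z z (v, x) p = true))) := Iff.rfl
        rw [h2]
        apply alt_congr
        intro v
        exact (hZ1 z v).symm
      rw [h1, hmain (Z z)]
      apply exists_congr
      intro σ
      apply and_congr_right
      intro _
      have h3 : alt J (m + 1) (fun v => lev (m + 1) (fun y => G σ v y (Z z))) ↔
          alt J m (fun v => lev m (fun j => lev (m + 1) (fun y => G σ (v, j) y (Z z)))) := Iff.rfl
      rw [h3]
      apply alt_congr
      intro v
      rw [← lev_prod m (fun (j : J m) (c : Finset (Tup (fun _ => PP × LL) (m + 1) × PP) ×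
        (Tup (fun _ => PP × LL) (m + 1) → PP → Bool)) => cl (σ, (v, j)) c z)]
      apply lev_congr
      intro j
      exact hcl2 (σ, (v, j)) z

end

end Pool.Agent.Helper265_EW
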