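import Mathlib

/-! The counting core: an existential guess with local tests cannot find witnesses in a large
matrix of free bits. -/

namespace Pool.Agent.Helper265_EW

open Finset Classical

noncomputable section

variable {X P : Type} [Fintype X] [Fintype P] [DecidableEq X] [DecidableEq P]

/-- `g` depends only on the entries in `Q` -/
def Dep (Q : Finset (X × P)) (g : (X → P → Bool) → Prop) : Prop :=
  ∀ q q' : X → P → Bool, (∀ e ∈ Q, q e.1 e.2 = q' e.1 e.2) → (g q ↔ g q')

/-- the unit matrix of a choice of one position per row -/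
def unitM (p : X → P) : X → P → Bool := fun x y => decide (y = p x)

lemma core_slice {I : Type} (g : I → (X → P → Bool) → Prop) (w : ℕ)
    (hdep : ∀ i, ∃ Q : Finset (X × P), Q.card ≤ w ∧ Dep Q (g i))
    (hno : ∀ q : X → P → Bool, (∀ i, g i q) → ∀ x, ∃ y, q x y = true) :
    ∀ (m : ℕ) (T : Finset X) (p0 : X → P) (A : Finset (X → P)), Tᶜ.card = m →
      (∀ p ∈ A, ∀ i, g i (unitM p)) → (∀ p ∈ A, ∀ x ∈ T, p x = p0 x) → A.card ≤ w ^ m := by
  intro m
  induction m with
  | zero =>
    intro T p0 A hT hg hA
    have hT' : T = Finset.univ := by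
      rw [Finset.card_eq_zero] at hT
      rwa [Finset.compl_eq_empty_iff] at hT
    rw [pow_zero, Finset.card_le_one]
    intro p hp p' hp'
    funext x
    rw [hA p hp x (by simp [hT']), hA p' hp' x (by simp [hT'])]
  | succ m ih =>
    intro T p0 A hT hg hA
    -- the matrix with the rows outside `T` zero
    let q0 : X → P → Bool := fun x y => if x ∈ T then decide (y = p0 x) else false
    have hex : ∃ x, x ∉ T := by
      have : Tᶜ.Nonempty := by
        rw [← Finset.card_pos]; omega
      obtain ⟨x, hx⟩ := this
      exact ⟨x, by simpa using hx⟩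
    have hnot : ¬ ∀ i, g i q0 := by
      intro h
      obtain ⟨x, hx⟩ := hex
      obtain ⟨y, hy⟩ := hno q0 h x
      simp [q0, hx] at hy
    push Not at hnot
    obtain ⟨i, hi⟩ := hnot
    obtain ⟨Q, hQ, hdepQ⟩ := hdep i
    -- every member of `A` meets `Q` outside `T`
    have hhit : ∀ p ∈ A, ∃ e ∈ Q.filter (fun e => e.1 ∉ T), p e.1 = e.2 := by
      intro p hp
      by_contra hcon
      push Not at hcon
      apply hi
      rw [hdepQ q0 (unitM p) ?_]
      · exact hg p hp i
      · intro e he
        simp only [q0, unitM]
        split_ifs with hT1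
        · rw [hA p hp _ hT1]
        · have := hcon e (Finset.mem_filter.mpr ⟨he, hT1⟩)
          symm
          rw [decide_eq_false_iff_not]
          exact fun h => this h.symm
    have hsub : A ⊆ (Q.filter (fun e => e.1 ∉ T)).biUnion
        (fun e => A.filter (fun p => p e.1 = e.2)) := by
      intro p hp
      obtain ⟨e, he, hpe⟩ := hhit p hp
      exact Finset.mem_biUnion.mpr ⟨e, he, Finset.mem_filter.mpr ⟨hp, hpe⟩⟩
    calc A.card ≤ _ := Finset.card_le_card hsub
      _ ≤ ∑ e ∈ Q.filter (fun e => e.1 ∉ T), (A.filter (fun p => p e.1 = e.2)).card :=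
          Finset.card_biUnion_le
      _ ≤ ∑ _e ∈ Q.filter (fun e => e.1 ∉ T), w ^ m := by
          apply Finset.sum_le_sum
          intro e he
          have heT := (Finset.mem_filter.mp he).2
          refine ih (insert e.1 T) (Function.update p0 e.1 e.2) _ ?_ ?_ ?_
          · rw [Finset.compl_insert, Finset.card_erase_of_mem (by simpa using heT), hT]
            rfl
          · intro p hp i
            exact hg p (Finset.mem_filter.mp hp).1 i
          · intro p hp x hx
            obtain ⟨hpA, hpe⟩ := Finset.mem_filter.mp hp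
            by_cases hxe : x = e.1
            · subst hxe; simp [hpe]
            · rw [Function.update_of_ne hxe]
              rcases Finset.mem_insert.mp hx with h | h
              · exact absurd h hxe
              · exact hA p hpA x h
      _ = (Q.filter (fun e => e.1 ∉ T)).card * w ^ m := by rw [Finset.sum_const, smul_eq_mul]
      _ ≤ w * w ^ m := Nat.mul_le_mul_right _ ((Finset.card_filter_le _ _).trans hQ)
      _ = w ^ (m + 1) := by ring

/-- If the rows-have-a-one predicate is an existential guess (over `Sg`) of a conjunction of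
tests each depending on at most `w` entries, then `|P| ^ |X| ≤ |Sg| * w ^ |X|`. -/
theorem core {Sg : Type} [Fintype Sg] {I : Sg → Type}
    (g : ∀ σ, I σ → (X → P → Bool) → Prop) (w : ℕ)
    (hdep : ∀ σ i, ∃ Q : Finset (X × P), Q.card ≤ w ∧ Dep Q (g σ i))
    (hmain : ∀ q : X → P → Bool, (∀ x, ∃ y, q x y = true) ↔ ∃ σ, ∀ i, g σ i q) :
    Fintype.card P ^ Fintype.card X ≤ Fintype.card Sg * w ^ Fintype.card X := by
  have hyes : ∀ p : X → P, ∃ σ, ∀ i, g σ i (unitM p) := by
    intro p
    rw [← hmain]
    intro x
    exact ⟨p x, by simp [unitM]⟩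
  choose σ hσ using hyes
  have h1 : (Finset.univ : Finset (X → P)).card =
      ∑ s ∈ (Finset.univ : Finset Sg), ((Finset.univ : Finset (X → P)).filter
        (fun p => σ p = s)).card :=
    Finset.card_eq_sum_card_fiberwise (fun _ _ => Finset.mem_univ _)
  have h2 : ∀ s : Sg, ((Finset.univ : Finset (X → P)).filter (fun p => σ p = s)).card ≤
      w ^ Fintype.card X := by
    intro s
    by_cases hne : Nonempty (X → P)
    swap
    · have : ((Finset.univ : Finset (X → P)).filter (fun p => σ p = s)) = ∅ := by
        apply Finset.eq_empty_of_forall_notMem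
        intro p
        exact absurd ⟨p⟩ hne
      rw [this]; exact Nat.zero_le _
    obtain ⟨p0⟩ := hne
    refine core_slice (g s) w (hdep s) ?_ (Fintype.card X) ∅ p0 _ ?_ ?_ ?_
    · intro q hq
      exact (hmain q).mpr ⟨s, hq⟩
    · simp
    · intro p hp i
      have := (Finset.mem_filter.mp hp).2
      subst this
      exact hσ p i
    · intro p _ x hx
      exact absurd hx (Finset.notMem_empty _)
  rw [Finset.card_univ, Fintype.card_fun] at h1
  rw [h1]
  calc _ ≤ ∑ _s ∈ (Finset.univ : Finset Sg), w ^ Fintype.card X :=
        Finset.sum_le_sum fun s _ => h2 s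
    _ = _ := by rw [Finset.sum_const, smul_eq_mul, Finset.card_univ]

end

end Pool.Agent.Helper265_EW
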