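import Pool.Agent.Helper265_EW.Base

/-! Weighted Fagin definability for `Π₂` formulas, and reductions computed by constant-depth
formulas of size `2 ^ O(k) * n ^ O(1)` whose new parameter is `O (k + log n)`. -/

namespace Pool.Agent.Helper265_EW

/-- A `Π₂` formula `∀ x₁ … x_p ∃ y₁ … y_q ψ` with quantifier-free `ψ` and one free relation
variable `X` of arity `s`. -/
structure Pi2 (τ : Voc) (s : ℕ) where
  p : ℕ
  q : ℕ
  ψ : QF τ s (Fin p ⊕ Fin q)

namespace Pi2

variable {τ : Voc} {s : ℕ}

/-- The number of occurrences of `X`: the formula lies in `Π_{2/d}` iff this is at most `d`. -/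
def occ (φ : Pi2 τ s) : ℕ := φ.ψ.occ

/-- `A ⊨ φ(S)`. -/
def Holds {U : Type} (φ : Pi2 τ s) (A : Str τ U) (S : Finset (Fin s → U)) : Prop :=
  ∀ x : Fin φ.p → U, ∃ y : Fin φ.q → U, φ.ψ.Holds A S (Sum.elim x y)

end Pi2

/-- `(A, k)` is a yes-instance of the weighted Fagin-definable problem of `φ`: some set `S` of
exactly `k` tuples of elements of `A` satisfies `A ⊨ φ(S)`. -/
def WD {τ : Voc} {s : ℕ} {U : Type} (φ : Pi2 τ s) (A : Str τ U) (k : ℕ) : Prop :=
  ∃ S : Finset (Fin s → U), S.card = k ∧ φ.Holds A S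

/-- The weighted Fagin-definable problem of `φ` reduces to that of `φ'` by an ept-reduction
computed by (nonuniform) constant-depth formulas: for a constant `c` and all `n` and `k` there
is a transformation within the bounds above which, applied to any structure `A` with universe
`{0, …, n - 1}`, names exactly one new parameter `j` and maps yes-instances `(A, k)` to
yes-instances and no-instances to no-instances. -/
def AC0EptRed {τ τ' : Voc} {s s' : ℕ} (φ : Pi2 τ s) (φ' : Pi2 τ' s') : Prop :=
  ∃ c : ℕ, ∀ n k : ℕ, ∃ T : Tr τ τ' n, T.Bounded k c ∧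
    ∀ A : Str τ (Fin n), ∃ j : Fin (T.K + 1),
      (∀ j', (T.par j').Holds (bits A) ↔ j' = j) ∧ (WD φ A k ↔ WD φ' (T.out A) j)

end Pool.Agent.Helper265_EW
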