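import Pool.Agent.Helper265_EW.Src

set_option linter.unusedSectionVars false

/-! The good event has positive probability. -/

namespace Pool.Agent.Helper265_EW

open Finset Classical Pool.Agent.H592R2

noncomputable section

lemma avg_exists_le {Ω ι : Type} [Fintype Ω] [Fintype ι] (p : ι → Ω → Prop) (c : ℝ)
    (h : ∀ i, avg (fun ω => ind (p i ω)) ≤ c) :
    avg (fun ω => ind (∃ i, p i ω)) ≤ Fintype.card ι * c := by
  calc avg (fun ω => ind (∃ i, p i ω)) ≤ avg (fun ω => ∑ i ∈ Finset.univ, ind (p i ω)) := by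
        apply avg_mono
        intro ω
        have := ind_exists_le Finset.univ (fun i => p i ω)
        simpa using this
    _ = ∑ i ∈ Finset.univ, avg (fun ω => ind (p i ω)) := avg_sum _ _
    _ ≤ ∑ _i ∈ (Finset.univ : Finset ι), c := Finset.sum_le_sum fun i _ => h i
    _ = _ := by rw [Finset.sum_const, nsmul_eq_mul, Finset.card_univ]

section
variable {D r : ℕ} {V : Type} [Fintype V] [DecidableEq V] {τ : Type} [Fintype τ] [Nonempty τ]
  [DecidableEq τ]

lemma avg_no_status_le (B : Fin D → Finset τ) (W : Finset V) (a : ℝ) (ha0 : 0 ≤ a)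
    (ha : ∀ i, a ≤ ((B i).card : ℝ) / Fintype.card τ) :
    avg (fun ω : Cd D r V → τ => ind (∀ v ∈ W, ¬ ∀ i : Fin D, ω (Sum.inl (i, v)) ∈ B i)) ≤
      (1 - a ^ D) ^ W.card := by
  rw [avg_no_status]
  have h1 : a ^ D ≤ ∏ i : Fin D, (((B i).card : ℝ) / Fintype.card τ) := by
    calc a ^ D = ∏ _i : Fin D, a := by simp
      _ ≤ _ := Finset.prod_le_prod (fun _ _ => ha0) (fun i _ => ha i)
  have h2 : ∏ i : Fin D, (((B i).card : ℝ) / Fintype.card τ) ≤ 1 := by
    apply Finset.prod_le_one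
    · intro i _; positivity
    · intro i _
      rw [div_le_one (by exact_mod_cast Fintype.card_pos)]
      exact_mod_cast Finset.card_le_univ (B i)
  exact pow_le_pow_left₀ (by linarith) (by linarith) _

end

variable {d k Γ B D S b : ℕ} [NeZero b] [NeZero B]

/-- the failure bound -/
def fail (d k Γ B D S b : ℕ) (m sz : ℕ) : ℝ :=
  ((k : ℝ) + 2 * k * Γ) * (1 - (1 / (b : ℝ) ^ (2 * sgr (d + 2) S)) ^ D) ^ B +
    (k * Γ * B : ℝ) * (1 / (b : ℝ)) ^ k +
    ((B : ℝ) ^ k * k * ((k : ℝ) ^ (d + 1)) ^ Γ) * (1 / (b : ℝ)) ^ Γ +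
    m * (sz * ((2 / (b : ℝ)) ^ sgr (d + 2) S) ^ S)

theorem good_exists {J Ix : Type} [Fintype Ix] (F : Ix → Fm J)
    (enc : Tb (d + 2) (Vt k Γ B) → J → Bool)
    (henc : ∀ l, ∃ K : Finset (Vt k Γ B), K.card ≤ d + 2 ∧ Loc K (fun z => enc z l = true))
    (hdepth : ∀ i, (F i).depth ≤ D) (sz : ℕ) (hsz : ∀ i, (F i).size ≤ sz)
    (hd : 1 ≤ d) (hb : 2 ≤ b) (hS : d + 2 < S)
    (hnum : fail d k Γ B D S b (Fintype.card Ix) sz < 1) :
    ∃ ω : Cd D (d + 2) (Vt k Γ B) → Ta b (d + 2) S,
      Good (As b (d + 2) S) (Ms b (d + 2) S) ω ∧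
      ∀ i, LocAt (As b (d + 2) S) S D ω
        (fun z => (F i).Holds (enc (rho (As b (d + 2) S) (Ms b (d + 2) S) mj D ω z))) := by
  set A := As b (d + 2) S with hA
  set Mi := Ms b (d + 2) S with hMi
  set a : ℝ := 1 / (b : ℝ) ^ (2 * sgr (d + 2) S) with ha
  have hb0 : (0 : ℝ) < b := by exact_mod_cast (by omega : 0 < b)
  have hb1 : (2 : ℝ) ≤ b := by exact_mod_cast hb
  have ha0 : 0 ≤ a := by positivity
  have hAp : (A.card : ℝ) / Fintype.card (Ta b (d + 2) S) = a := As_prob
  have hMp : (Mi.card : ℝ) / Fintype.card (Ta b (d + 2) S) = 1 / b := Ms_prob hb hS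
  have hahalf : a ≤ 1 / 2 := by
    apply one_div_le_one_div_of_le (by norm_num)
    calc (2 : ℝ) ≤ b := hb1
      _ = (b : ℝ) ^ 1 := (pow_one _).symm
      _ ≤ (b : ℝ) ^ (2 * sgr (d + 2) S) :=
        pow_le_pow_right₀ (by linarith) (by have := sgr_pos hS; omega)
  have hlast : ∀ i : Fin D, a ≤ ((lastB A i).card : ℝ) / Fintype.card (Ta b (d + 2) S) := by
    intro i
    unfold lastB
    split_ifs
    · rw [compl_prob, hAp]; linarith
    · exact hAp.ge
  -- the events
  have e1 : avg (fun ω : Cd D (d + 2) (Vt k Γ B) → Ta b (d + 2) S =>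
      ind (∃ i : Fin k, ¬ ∃ c, AlS A (sts ω) (Sum.inr (i, c)))) ≤ k * (1 - a ^ D) ^ B := by
    have := avg_exists_le (Ω := Cd D (d + 2) (Vt k Γ B) → Ta b (d + 2) S)
      (fun (i : Fin k) ω => ¬ ∃ c, AlS A (sts ω) (Sum.inr (i, c))) ((1 - a ^ D) ^ B) ?_
    · rwa [Fintype.card_fin] at this
    · intro i
      have h1 := avg_no_status_le (D := D) (r := d + 2) (fun _ : Fin D => A)
        ((Finset.univ : Finset (Fin B)).image (fun c => (Sum.inr (i, c) : Vt k Γ B))) a ha0
        (fun _ => hAp.ge)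
      rw [Finset.card_image_of_injective _ (fun c c' h => by simpa using h), Finset.card_univ,
        Fintype.card_fin] at h1
      refine le_trans (avg_mono ?_) h1
      intro ω
      apply ind_mono
      intro h v hv hal
      obtain ⟨c, -, rfl⟩ := Finset.mem_image.mp hv
      exact h ⟨c, hal⟩
  have e2 : avg (fun ω : Cd D (d + 2) (Vt k Γ B) → Ta b (d + 2) S =>
      ind (∃ x : Fin k × Fin Γ, ¬ ∃ c, AlS A (sts ω) (Sum.inl (x.1, x.2, c)))) ≤
        (k * Γ) * (1 - a ^ D) ^ B := by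
    have := avg_exists_le (Ω := Cd D (d + 2) (Vt k Γ B) → Ta b (d + 2) S)
      (fun (x : Fin k × Fin Γ) ω => ¬ ∃ c, AlS A (sts ω) (Sum.inl (x.1, x.2, c)))
        ((1 - a ^ D) ^ B) ?_
    · rw [Fintype.card_prod, Fintype.card_fin, Fintype.card_fin] at this
      exact_mod_cast this
    · intro x
      have h1 := avg_no_status_le (D := D) (r := d + 2) (fun _ : Fin D => A)
        ((Finset.univ : Finset (Fin B)).image (fun c => (Sum.inl (x.1, x.2, c) : Vt k Γ B))) a ha0
        (fun _ => hAp.ge)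
      rw [Finset.card_image_of_injective _ (fun c c' h => by simpa using h), Finset.card_univ,
        Fintype.card_fin] at h1
      refine le_trans (avg_mono ?_) h1
      intro ω
      apply ind_mono
      intro h v hv hal
      obtain ⟨c, -, rfl⟩ := Finset.mem_image.mp hv
      exact h ⟨c, hal⟩
  have e5 : avg (fun ω : Cd D (d + 2) (Vt k Γ B) → Ta b (d + 2) S =>
      ind (∃ x : Fin k × Fin Γ, ¬ ∃ c, ∀ j : Fin D,
        sts ω (j, Sum.inl (x.1, x.2, c)) ∈ lastB A j)) ≤ (k * Γ) * (1 - a ^ D) ^ B := by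
    have := avg_exists_le (Ω := Cd D (d + 2) (Vt k Γ B) → Ta b (d + 2) S)
      (fun (x : Fin k × Fin Γ) ω => ¬ ∃ c, ∀ j : Fin D,
        sts ω (j, Sum.inl (x.1, x.2, c)) ∈ lastB A j) ((1 - a ^ D) ^ B) ?_
    · rw [Fintype.card_prod, Fintype.card_fin, Fintype.card_fin] at this
      exact_mod_cast this
    · intro x
      have h1 := avg_no_status_le (D := D) (r := d + 2) (fun j : Fin D => lastB A j)
        ((Finset.univ : Finset (Fin B)).image (fun c => (Sum.inl (x.1, x.2, c) : Vt k Γ B))) a ha0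
        hlast
      rw [Finset.card_image_of_injective _ (fun c c' h => by simpa using h), Finset.card_univ,
        Fintype.card_fin] at h1
      refine le_trans (avg_mono ?_) h1
      intro ω
      apply ind_mono
      intro h v hv hal
      obtain ⟨c, -, rfl⟩ := Finset.mem_image.mp hv
      exact h ⟨c, hal⟩
  have e3 : avg (fun ω : Cd D (d + 2) (Vt k Γ B) → Ta b (d + 2) S =>
      ind (∃ x : Fin k × Fin Γ × Fin B, ∀ j : Fin k,
        ω (Sum.inr (tup3 (pv A (sts ω)) x j)) ∈ Mi)) ≤ (k * Γ * B) * (1 / (b : ℝ)) ^ k := by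
    have := avg_exists_le (Ω := Cd D (d + 2) (Vt k Γ B) → Ta b (d + 2) S)
      (fun (x : Fin k × Fin Γ × Fin B) ω => ∀ j : Fin k,
        ω (Sum.inr (tup3 (pv A (sts ω)) x j)) ∈ Mi) ((1 / (b : ℝ)) ^ k) ?_
    · rw [Fintype.card_prod, Fintype.card_prod, Fintype.card_fin, Fintype.card_fin,
        Fintype.card_fin] at this
      push_cast at this
      rw [← mul_assoc (k : ℝ)] at this
      exact this
    · intro x
      have h1 := avg_coins (D := D) (r := d + 2) (V := Vt k Γ B) Mi
        (fun st => (Finset.univ : Finset (Fin k)).image (fun j => tup3 (pv A st) x j)) k ?_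
      · rw [hMp] at h1
        refine le_trans (avg_mono ?_) h1
        intro ω
        apply ind_mono
        intro h t ht
        obtain ⟨j, -, rfl⟩ := Finset.mem_image.mp ht
        exact h j
      · intro st
        rw [Finset.card_image_of_injective, Finset.card_univ, Fintype.card_fin]
        intro j j' h
        have h2 := congrFun h (Fin.succ ⟨1, by omega⟩)
        simp only [tup3, Fin.cons_succ] at h2
        have hne : (⟨1, by omega⟩ : Fin (d + 1)) ≠ 0 := by
          intro h3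
          have := congrArg Fin.val h3
          simp at this
        rw [if_neg hne, if_neg hne] at h2
        simp only [Sum.inr.injEq, Prod.mk.injEq] at h2
        exact h2.1
  have e4 : avg (fun ω : Cd D (d + 2) (Vt k Γ B) → Ta b (d + 2) S =>
      ind (∃ y : (Fin k → Fin B) × Fin k × (Fin Γ → (Fin (d + 1) → Fin k)),
        ∀ g : Fin Γ, ω (Sum.inr (tup4 y.1 (y.2.1, g, lr A (sts ω) y.2.1 g) (y.2.2 g))) ∈ Mi)) ≤
      ((B : ℝ) ^ k * k * ((k : ℝ) ^ (d + 1)) ^ Γ) * (1 / (b : ℝ)) ^ Γ := by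
    have := avg_exists_le (Ω := Cd D (d + 2) (Vt k Γ B) → Ta b (d + 2) S)
      (fun (y : (Fin k → Fin B) × Fin k × (Fin Γ → (Fin (d + 1) → Fin k))) ω =>
        ∀ g : Fin Γ, ω (Sum.inr (tup4 y.1 (y.2.1, g, lr A (sts ω) y.2.1 g) (y.2.2 g))) ∈ Mi)
      ((1 / (b : ℝ)) ^ Γ) ?_
    · rw [Fintype.card_prod, Fintype.card_prod, Fintype.card_fun, Fintype.card_fun,
        Fintype.card_fun, Fintype.card_fin, Fintype.card_fin,
        Fintype.card_fin, Fintype.card_fin] at this
      push_cast at this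
      rw [← mul_assoc ((B : ℝ) ^ k)] at this
      exact this
    · intro y
      have h1 := avg_coins (D := D) (r := d + 2) (V := Vt k Γ B) Mi
        (fun st => (Finset.univ : Finset (Fin Γ)).image
          (fun g => tup4 y.1 (y.2.1, g, lr A st y.2.1 g) (y.2.2 g))) Γ ?_
      · rw [hMp] at h1
        refine le_trans (avg_mono ?_) h1
        intro ω
        apply ind_mono
        intro h t ht
        obtain ⟨j, -, rfl⟩ := Finset.mem_image.mp ht
        exact h j
      · intro st
        rw [Finset.card_image_of_injective, Finset.card_univ, Fintype.card_fin]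
        intro g g' h
        have h2 := congrFun h 0
        simp only [tup4, Fin.cons_zero, Sum.inl.injEq, Prod.mk.injEq] at h2
        exact h2.2.1
  have e6 : avg (fun ω : Cd D (d + 2) (Vt k Γ B) → Ta b (d + 2) S =>
      ind (∃ i : Ix, ¬ LocAt A S D ω (fun z => (F i).Holds (enc (rho A Mi mj D ω z))))) ≤
      Fintype.card Ix * (sz * ((2 / (b : ℝ)) ^ sgr (d + 2) S) ^ S) := by
    apply avg_exists_le
    intro i
    have hP := P1r_inst (b := b) (r := d + 2) (S := S) hb (by omega) hS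
    have h1 := fml_local (D := D) (V := Vt k Γ B) hP mj enc (fun l => by
      obtain ⟨K, hK, hl⟩ := henc l
      exact ⟨K, by omega, hl⟩) (F i) D le_rfl (hdepth i)
    refine h1.trans ?_
    apply mul_le_mul_of_nonneg_right
    · exact_mod_cast hsz i
    · positivity
  -- combine
  have hall : avg (fun ω : Cd D (d + 2) (Vt k Γ B) → Ta b (d + 2) S =>
      ind (¬ (Good A Mi ω ∧ ∀ i, LocAt A S D ω
        (fun z => (F i).Holds (enc (rho A Mi mj D ω z)))))) < 1 := by
    refine lt_of_le_of_lt ?_ hnum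
    have hpt : ∀ ω : Cd D (d + 2) (Vt k Γ B) → Ta b (d + 2) S,
        ind (¬ (Good A Mi ω ∧ ∀ i, LocAt A S D ω
          (fun z => (F i).Holds (enc (rho A Mi mj D ω z))))) ≤
        ((((ind (∃ i : Fin k, ¬ ∃ c, AlS A (sts ω) (Sum.inr (i, c))) +
          ind (∃ x : Fin k × Fin Γ, ¬ ∃ c, AlS A (sts ω) (Sum.inl (x.1, x.2, c)))) +
          ind (∃ x : Fin k × Fin Γ, ¬ ∃ c, ∀ j : Fin D,
            sts ω (j, Sum.inl (x.1, x.2, c)) ∈ lastB A j)) +
          ind (∃ x : Fin k × Fin Γ × Fin B, ∀ j : Fin k,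
            ω (Sum.inr (tup3 (pv A (sts ω)) x j)) ∈ Mi)) +
          ind (∃ y : (Fin k → Fin B) × Fin k × (Fin Γ → (Fin (d + 1) → Fin k)),
            ∀ g : Fin Γ, ω (Sum.inr (tup4 y.1 (y.2.1, g, lr A (sts ω) y.2.1 g) (y.2.2 g)))
              ∈ Mi)) +
          ind (∃ i : Ix, ¬ LocAt A S D ω (fun z => (F i).Holds (enc (rho A Mi mj D ω z)))) := by
      intro ω
      refine le_trans (ind_mono ?_) ((ind_or_le _ _).trans (add_le_add_left
        ((ind_or_le _ _).trans (add_le_add_left ((ind_or_le _ _).trans (add_le_add_left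
          ((ind_or_le _ _).trans (add_le_add_left (ind_or_le _ _) _)) _)) _)) _))
      intro hbad
      by_contra hno
      push Not at hno
      obtain ⟨⟨⟨⟨⟨h1, h2⟩, h5⟩, h3⟩, h4⟩, h6⟩ := hno
      apply hbad
      refine ⟨⟨h1, fun i g => h2 (i, g), fun i g => h5 (i, g), ?_, ?_⟩, h6⟩
      · intro x
        obtain ⟨j, hj⟩ := h3 x
        exact ⟨j, hj⟩
      · intro u i
        by_contra hcon
        push Not at hcon
        choose f hf using hcon
        obtain ⟨g, hg⟩ := h4 (u, i, f)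
        exact hg (hf g)
    refine (avg_mono hpt).trans ?_
    rw [avg_add, avg_add, avg_add, avg_add, avg_add]
    unfold fail
    have := e1
    have := e2
    have := e5
    have := e3
    have := e4
    have := e6
    linarith
  obtain ⟨ω, hω⟩ := exists_not_of_avg_lt hall
  rw [not_not] at hω
  exact ⟨ω, hω⟩

end

end Pool.Agent.Helper265_EW
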