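import Pool.Agent.Helper265_EW.Src

set_option linter.unusedSectionVars false

/-! The source formula `∀ x ∃ y₁ … y_{d+1} (E(x, y₁, …, y_{d+1}) ∧ X(y₁) ∧ … ∧ X(y_{d+1}))`. -/

namespace Pool.Agent.Helper265_EW

open Finset Classical Pool.Agent.H592R2

noncomputable section

/-- one relation symbol of arity `d + 2` -/
def srcV (d : ℕ) : Voc := ⟨1, fun _ => d + 2⟩

/-- conjunction of a formula with finitely many others -/
def conjs {τ : Voc} {s : ℕ} {V : Type} (base : QF τ s V) : (m : ℕ) → (Fin m → QF τ s V) → QF τ s V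
  | 0, _ => base
  | m + 1, f => QF.and (conjs base m (fun i => f i.castSucc)) (f (Fin.last m))

lemma occ_conjs {τ : Voc} {s : ℕ} {V : Type} (base : QF τ s V) (m : ℕ) (f : Fin m → QF τ s V) :
    (conjs base m f).occ = base.occ + ∑ i, (f i).occ := by
  induction m with
  | zero => simp [conjs]
  | succ m ih =>
    simp only [conjs, QF.occ, ih, Fin.sum_univ_castSucc]
    ring

lemma holds_conjs {τ : Voc} {s : ℕ} {V U : Type} (base : QF τ s V) (A : Str τ U)
    (S : Finset (Fin s → U)) (a : V → U) (m : ℕ) (f : Fin m → QF τ s V) :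
    (conjs base m f).Holds A S a ↔ base.Holds A S a ∧ ∀ i, (f i).Holds A S a := by
  induction m with
  | zero => simp [conjs]
  | succ m ih =>
    simp only [conjs, QF.Holds, ih, Fin.forall_fin_succ']
    tauto

/-- the source formula -/
def srcF (d : ℕ) : Pi2 (srcV d) 1 where
  p := 1
  q := d + 1
  ψ := conjs (QF.rel (τ := srcV d) (0 : Fin 1)
    (Fin.cons (Sum.inl 0) (fun j => Sum.inr j) : Fin (d + 2) → Fin 1 ⊕ Fin (d + 1)))
    (d + 1) (fun j => QF.mem (fun _ => Sum.inr j))

lemma srcF_occ (d : ℕ) : (srcF d).occ = d + 1 := by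
  simp [Pi2.occ, srcF, occ_conjs, QF.occ]

lemma srcF_holds {d : ℕ} {U : Type} (A : Str (srcV d) U) (S : Finset (Fin 1 → U)) :
    (srcF d).Holds A S ↔ ∀ x : U, ∃ y : Fin (d + 1) → U, (∀ j, (fun _ => y j) ∈ S) ∧
      A (0 : Fin 1) (Fin.cons x y : Fin (d + 2) → U) = true := by
  have key : ∀ (x : Fin 1 → U) (y : Fin (d + 1) → U),
      (srcF d).ψ.Holds A S (Sum.elim x y) ↔ (A (0 : Fin 1) (Fin.cons (x 0) y : Fin (d + 2) → U)
        = true ∧ ∀ j, (fun _ => y j) ∈ S) := by
    intro x y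
    simp only [srcF, holds_conjs, QF.Holds]
    have h1 : (fun i => Sum.elim x y ((Fin.cons (Sum.inl 0) (fun j => Sum.inr j) :
        Fin (d + 2) → Fin 1 ⊕ Fin (d + 1)) i)) = (Fin.cons (x 0) y : Fin (d + 2) → U) := by
      funext i
      refine Fin.cases rfl (fun j => rfl) i
    constructor
    · rintro ⟨h2, h3⟩
      refine ⟨?_, fun j => h3 j⟩
      rw [← h1]; exact h2
    · rintro ⟨h2, h3⟩
      refine ⟨?_, fun j => h3 j⟩
      rw [← h1] at h2; exact h2
  constructor
  · intro h x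
    obtain ⟨y, hy⟩ := h (fun _ => x)
    have := (key (fun _ => x) y).mp hy
    exact ⟨y, this.2, this.1⟩
  · intro h x
    obtain ⟨y, hy1, hy2⟩ := h (x (0 : Fin 1))
    exact ⟨y, (key x y).mpr ⟨hy2, hy1⟩⟩

lemma srcF_WD {d : ℕ} {U : Type} (A : Str (srcV d) U) (k : ℕ) :
    WD (srcF d) A k ↔ SY (fun t : Fin (d + 2) → U => A (0 : Fin 1) t) k := by
  constructor
  · rintro ⟨S, hS, hA⟩
    rw [srcF_holds] at hA
    refine ⟨S.image (fun w => w 0), ?_, ?_⟩
    · rw [Finset.card_image_of_injective, hS]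
      intro w w' h
      funext i
      have : i = 0 := Subsingleton.elim _ _
      rw [this]; exact h
    · intro x
      obtain ⟨y, hy1, hy2⟩ := hA x
      exact ⟨y, fun j => Finset.mem_image.mpr ⟨_, hy1 j, rfl⟩, hy2⟩
  · rintro ⟨S, hS, hA⟩
    refine ⟨S.image (fun u => fun _ => u), ?_, ?_⟩
    · rw [Finset.card_image_of_injective, hS]
      intro u u' h
      exact congrFun h 0
    · rw [srcF_holds]
      intro x
      obtain ⟨y, hy1, hy2⟩ := hA x
      exact ⟨y, fun j => Finset.mem_image.mpr ⟨_, hy1 j, rfl⟩, hy2⟩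

lemma SY_equiv {U U' : Type} {m : ℕ} (e : U ≃ U') (E : (Fin (m + 1) → U) → Bool) (k : ℕ) :
    SY (fun t : Fin (m + 1) → U' => E (fun i => e.symm (t i))) k ↔ SY E k := by
  have hcons : ∀ (x : U') (y : Fin m → U'),
      (fun i => e.symm ((Fin.cons x y : Fin (m + 1) → U') i)) =
        (Fin.cons (e.symm x) (fun j => e.symm (y j)) : Fin (m + 1) → U) := by
    intro x y
    funext i
    refine Fin.cases rfl (fun j => rfl) i
  constructor
  · rintro ⟨S, hS, hA⟩
    refine ⟨S.image e.symm, ?_, ?_⟩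
    · rw [Finset.card_image_of_injective _ e.symm.injective, hS]
    · intro x
      obtain ⟨y, hy1, hy2⟩ := hA (e x)
      have hy3 : E (fun i => e.symm ((Fin.cons (e x) y : Fin (m + 1) → U') i)) = true := hy2
      rw [hcons, e.symm_apply_apply] at hy3
      exact ⟨fun j => e.symm (y j), fun j => Finset.mem_image_of_mem _ (hy1 j), hy3⟩
  · rintro ⟨S, hS, hA⟩
    refine ⟨S.image e, ?_, ?_⟩
    · rw [Finset.card_image_of_injective _ e.injective, hS]
    · intro x
      obtain ⟨y, hy1, hy2⟩ := hA (e.symm x)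
      refine ⟨fun j => e (y j), fun j => Finset.mem_image_of_mem _ (hy1 j), ?_⟩
      change E (fun i => e.symm ((Fin.cons x (fun j => e (y j)) : Fin (m + 1) → U') i)) = true
      rw [hcons]
      simp only [e.symm_apply_apply]
      exact hy2

end

end Pool.Agent.Helper265_EW
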