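import Pool.Agent.Helper265_EW.Defs

set_option linter.unusedSectionVars false

/-! The target side: a weighted Fagin-definable problem with `d` occurrences of `X` applied to an
instance computed by formulas is a guess followed by tests, each of which looks at the values of
`O (K ^ d)` formulas of a small family. -/

namespace Pool.Agent.Helper265_EW

open Finset Classical

noncomputable section

namespace Fm

variable {J : Type}

/-- negation by De Morgan -/
def neg : Fm J → Fm J
  | lit i b => lit i (!b)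
  | and m f => or m fun j => (f j).neg
  | or m f => and m fun j => (f j).neg

lemma holds_neg (x : J → Bool) (φ : Fm J) : φ.neg.Holds x ↔ ¬ φ.Holds x := by
  induction φ with
  | lit i b => cases b <;> simp [neg, Holds]
  | and m f ih => simp [neg, Holds, ih]
  | or m f ih => simp [neg, Holds, ih]

lemma depth_neg (φ : Fm J) : φ.neg.depth = φ.depth := by
  induction φ with
  | lit i b => rfl
  | and m f ih => simp [neg, depth, ih]
  | or m f ih => simp [neg, depth, ih]

lemma size_neg (φ : Fm J) : φ.neg.size = φ.size := by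
  induction φ with
  | lit i b => rfl
  | and m f ih => simp [neg, size, ih]
  | or m f ih => simp [neg, size, ih]

/-- conjunction over a finite type -/
def andF {ι : Type} [Fintype ι] (f : ι → Fm J) : Fm J :=
  and (Fintype.card ι) (fun i => f ((Fintype.equivFin ι).symm i))

/-- disjunction over a finite type -/
def orF {ι : Type} [Fintype ι] (f : ι → Fm J) : Fm J :=
  or (Fintype.card ι) (fun i => f ((Fintype.equivFin ι).symm i))

lemma holds_andF {ι : Type} [Fintype ι] (f : ι → Fm J) (x : J → Bool) :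
    (andF f).Holds x ↔ ∀ i, (f i).Holds x := by
  simp only [andF, Holds]
  constructor
  · intro h i
    have := h (Fintype.equivFin ι i)
    rwa [Equiv.symm_apply_apply] at this
  · intro h i; exact h _

lemma holds_orF {ι : Type} [Fintype ι] (f : ι → Fm J) (x : J → Bool) :
    (orF f).Holds x ↔ ∃ i, (f i).Holds x := by
  simp only [orF, Holds]
  constructor
  · rintro ⟨i, h⟩; exact ⟨_, h⟩
  · rintro ⟨i, h⟩
    refine ⟨Fintype.equivFin ι i, ?_⟩
    rwa [Equiv.symm_apply_apply]

lemma depth_andF {ι : Type} [Fintype ι] (f : ι → Fm J) (c : ℕ) (h : ∀ i, (f i).depth ≤ c) :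
    (andF f).depth ≤ c + 1 := by
  simp only [andF, depth]
  have : (Finset.univ.sup fun i => (f ((Fintype.equivFin ι).symm i)).depth) ≤ c :=
    Finset.sup_le fun i _ => h _
  omega

lemma depth_orF {ι : Type} [Fintype ι] (f : ι → Fm J) (c : ℕ) (h : ∀ i, (f i).depth ≤ c) :
    (orF f).depth ≤ c + 1 := by
  simp only [orF, depth]
  have : (Finset.univ.sup fun i => (f ((Fintype.equivFin ι).symm i)).depth) ≤ c :=
    Finset.sup_le fun i _ => h _
  omega

lemma size_andF {ι : Type} [Fintype ι] (f : ι → Fm J) (c : ℕ) (h : ∀ i, (f i).size ≤ c) :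
    (andF f).size ≤ Fintype.card ι * c + 1 := by
  simp only [andF, size]
  have : ∑ i, (f ((Fintype.equivFin ι).symm i)).size ≤ ∑ _i : Fin (Fintype.card ι), c :=
    Finset.sum_le_sum fun i _ => h _
  rw [Finset.sum_const, smul_eq_mul, Finset.card_univ, Fintype.card_fin] at this
  omega

lemma size_orF {ι : Type} [Fintype ι] (f : ι → Fm J) (c : ℕ) (h : ∀ i, (f i).size ≤ c) :
    (orF f).size ≤ Fintype.card ι * c + 1 := by
  simp only [orF, size]
  have : ∑ i, (f ((Fintype.equivFin ι).symm i)).size ≤ ∑ _i : Fin (Fintype.card ι), c :=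
    Finset.sum_le_sum fun i _ => h _
  rw [Finset.sum_const, smul_eq_mul, Finset.card_univ, Fintype.card_fin] at this
  omega

/-- constants -/
def bc (b : Bool) : Fm J := if b then and 0 (fun i => i.elim0) else or 0 (fun i => i.elim0)

lemma holds_bc (b : Bool) (x : J → Bool) : (bc b).Holds x ↔ b = true := by
  cases b <;> simp [bc, Holds]

lemma depth_bc (b : Bool) : (bc b : Fm J).depth ≤ 1 := by
  cases b <;> simp [bc, depth]

lemma size_bc (b : Bool) : (bc b : Fm J).size ≤ 1 := by
  cases b <;> simp [bc, size]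

/-- binary conjunction -/
def and2 (φ ψ : Fm J) : Fm J := andF (fun b : Bool => if b then φ else ψ)

lemma holds_and2 (φ ψ : Fm J) (x : J → Bool) :
    (and2 φ ψ).Holds x ↔ φ.Holds x ∧ ψ.Holds x := by
  rw [and2, holds_andF]
  simp only [Bool.forall_bool]
  constructor
  · rintro ⟨h1, h2⟩; exact ⟨by simpa using h2, by simpa using h1⟩
  · rintro ⟨h1, h2⟩; exact ⟨by simpa using h2, by simpa using h1⟩

lemma depth_and2 (φ ψ : Fm J) (c : ℕ) (h1 : φ.depth ≤ c) (h2 : ψ.depth ≤ c) :
    (and2 φ ψ).depth ≤ c + 1 := by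
  apply depth_andF
  intro b
  cases b <;> simpa

lemma size_and2 (φ ψ : Fm J) : (and2 φ ψ).size = φ.size + ψ.size + 1 := by
  simp only [and2, andF, size]
  rw [Fintype.sum_equiv (Fintype.equivFin Bool).symm _ (fun b => (if b then φ else ψ).size)
    (fun i => rfl)]
  simp

end Fm

namespace QF

variable {τ : Voc} {s : ℕ} {V : Type}

/-- the argument tuples of the atoms `X(v)` -/
def atoms : QF τ s V → Finset (Fin s → V)
  | rel _ _ => ∅
  | eq _ _ => ∅
  | mem v => {v}
  | not φ => φ.atoms
  | and φ ψ => φ.atoms ∪ ψ.atoms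

lemma card_atoms (φ : QF τ s V) : φ.atoms.card ≤ φ.occ := by
  induction φ with
  | rel R v => simp [atoms, occ]
  | eq u v => simp [atoms, occ]
  | mem v => simp [atoms, occ]
  | not φ ih => simpa [atoms, occ] using ih
  | and φ ψ ih1 ih2 =>
    simp only [atoms, occ]
    exact (Finset.card_union_le _ _).trans (Nat.add_le_add ih1 ih2)

/-- number of nodes -/
def qs : QF τ s V → ℕ
  | rel _ _ => 1
  | eq _ _ => 1
  | mem _ => 1
  | not φ => φ.qs
  | and φ ψ => φ.qs + ψ.qs + 1

lemma one_le_qs (φ : QF τ s V) : 1 ≤ φ.qs := by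
  induction φ with
  | rel R v => simp [qs]
  | eq u v => simp [qs]
  | mem v => simp [qs]
  | not φ ih => simpa [qs] using ih
  | and φ ψ ih1 ih2 => simp only [qs]; omega

end QF

section target

variable {τ τ' : Voc} {s n : ℕ} (T : Tr τ τ' n) {V : Type}

/-- the output relations on all candidate elements -/
def outM (A : Str τ (Fin n)) : Str τ' (Fin T.M) := fun R v => decide ((T.rel R v).Holds (bits A))

/-- the formula for a quantifier-free formula under an assignment, given the values of the
atoms `X(v)` -/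
def conv (fl : (Fin s → V) → Bool) (v : V → Fin T.M) : QF τ' s V → Fm (Bit τ n)
  | QF.rel R w => T.rel R (fun i => v (w i))
  | QF.eq a b => Fm.bc (decide (v a = v b))
  | QF.mem w => Fm.bc (fl w)
  | QF.not φ => (conv fl v φ).neg
  | QF.and φ ψ => Fm.and2 (conv fl v φ) (conv fl v ψ)

lemma conv_holds (fl : (Fin s → V) → Bool) (v : V → Fin T.M) (A : Str τ (Fin n))
    (S : Finset (Fin s → Fin T.M)) (φ : QF τ' s V) :
    (∀ w ∈ φ.atoms, (fl w = true ↔ (fun i => v (w i)) ∈ S)) →
      ((conv T fl v φ).Holds (bits A) ↔ φ.Holds (outM T A) S v) := by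
  induction φ with
  | rel R w => intro _; simp [conv, QF.Holds, outM]
  | eq a b => intro _; simp [conv, QF.Holds, Fm.holds_bc]
  | mem w =>
    intro h
    simp only [conv, QF.Holds, Fm.holds_bc]
    exact h w (by simp [QF.atoms])
  | not φ ih =>
    intro h
    simp only [conv, QF.Holds, Fm.holds_neg]
    rw [ih h]
  | and φ ψ ih1 ih2 =>
    intro h
    simp only [conv, QF.Holds, Fm.holds_and2]
    rw [ih1 (fun w hw => h w (Finset.mem_union_left _ hw)),
      ih2 (fun w hw => h w (Finset.mem_union_right _ hw))]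

lemma conv_depth (fl : (Fin s → V) → Bool) (v : V → Fin T.M) (c : ℕ)
    (hc : ∀ R v, (T.rel R v).depth ≤ c) (φ : QF τ' s V) :
    (conv T fl v φ).depth ≤ c + φ.qs := by
  induction φ with
  | rel R w => simp only [conv, QF.qs]; exact (hc _ _).trans (by omega)
  | eq a b => simp only [conv, QF.qs]; exact (Fm.depth_bc _).trans (by omega)
  | mem w => simp only [conv, QF.qs]; exact (Fm.depth_bc _).trans (by omega)
  | not φ ih => simp only [conv, QF.qs, Fm.depth_neg]; exact ih
  | and φ ψ ih1 ih2 =>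
    simp only [conv, QF.qs]
    refine (Fm.depth_and2 _ _ (c + φ.qs + ψ.qs) (ih1.trans (by omega)) (ih2.trans (by omega))).trans
      (by omega)

lemma conv_size (fl : (Fin s → V) → Bool) (v : V → Fin T.M) (σ0 : ℕ) (hσ : 1 ≤ σ0)
    (hc : ∀ R v, (T.rel R v).size ≤ σ0) (φ : QF τ' s V) :
    (conv T fl v φ).size ≤ φ.qs * σ0 := by
  induction φ with
  | rel R w => simp only [conv, QF.qs, one_mul]; exact hc _ _
  | eq a b => simp only [conv, QF.qs, one_mul]; exact (Fm.size_bc _).trans hσ
  | mem w => simp only [conv, QF.qs, one_mul]; exact (Fm.size_bc _).trans hσ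
  | not φ ih => simp only [conv, QF.qs, Fm.size_neg]; exact ih
  | and φ ψ ih1 ih2 =>
    simp only [conv, QF.qs, Fm.size_and2]
    calc _ ≤ φ.qs * σ0 + ψ.qs * σ0 + σ0 := by omega
      _ = _ := by ring

/-! ### Cells -/

/-- codes of tuples -/
def code {s M : ℕ} (w : Fin s → Fin M) : ℕ := (Fintype.equivFin (Fin s → Fin M) w).val

lemma code_inj {s M : ℕ} : Function.Injective (code : (Fin s → Fin M) → ℕ) := by
  intro w w' h
  exact (Fintype.equivFin (Fin s → Fin M)).injective (Fin.ext h)

lemma code_lt {s M : ℕ} (w : Fin s → Fin M) : code w < M ^ s := by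
  have := (Fintype.equivFin (Fin s → Fin M) w).2
  simpa [code] using this

/-- cells: an interval of codes and a truth value -/
abbrev Cell (N : ℕ) : Type := Fin (N + 1) × Fin (N + 1) × Bool

/-- the next element of `S` from `a` on -/
def nxt (N : ℕ) (S : Finset ℕ) (a : ℕ) : ℕ :=
  if h : (S.filter (fun x => a ≤ x)).Nonempty then (S.filter (fun x => a ≤ x)).min' h else N

lemma nxt_le {N : ℕ} {S : Finset ℕ} {a x : ℕ} (hx : x ∈ S) (hax : a ≤ x) : nxt N S a ≤ x := by
  have h : (S.filter (fun x => a ≤ x)).Nonempty := ⟨x, Finset.mem_filter.mpr ⟨hx, hax⟩⟩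
  simp only [nxt, dif_pos h]
  exact Finset.min'_le _ _ (Finset.mem_filter.mpr ⟨hx, hax⟩)

lemma nxt_spec (N : ℕ) (S : Finset ℕ) (a : ℕ) :
    (nxt N S a ∈ S ∧ a ≤ nxt N S a) ∨ nxt N S a = N := by
  by_cases h : (S.filter (fun x => a ≤ x)).Nonempty
  · left
    simp only [nxt, dif_pos h]
    have := Finset.min'_mem _ h
    exact Finset.mem_filter.mp this
  · right
    simp only [nxt, dif_neg h]

/-- the cells of a set of codes -/
def cells (N : ℕ) (S : Finset ℕ) : Finset (Cell N) :=
  S.image (fun x => (Fin.ofNat (N + 1) x, Fin.ofNat (N + 1) (x + 1), true)) ∪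
  (insert 0 (S.image (fun x => x + 1))).image
    (fun a => (Fin.ofNat (N + 1) a, Fin.ofNat (N + 1) (nxt N S a), false))

lemma card_cells (N : ℕ) (S : Finset ℕ) : (cells N S).card ≤ 2 * S.card + 1 := by
  unfold cells
  refine (Finset.card_union_le _ _).trans ?_
  have h1 : (S.image (fun x => ((Fin.ofNat (N + 1) x, Fin.ofNat (N + 1) (x + 1), true) :
    Cell N))).card ≤ S.card := Finset.card_image_le
  have h2 : ((insert 0 (S.image (fun x => x + 1))).image
    (fun a => ((Fin.ofNat (N + 1) a, Fin.ofNat (N + 1) (nxt N S a), false) : Cell N))).card ≤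
      S.card + 1 := by
    refine Finset.card_image_le.trans ((Finset.card_insert_le _ _).trans ?_)
    have : (S.image (fun x => x + 1)).card ≤ S.card := Finset.card_image_le
    omega
  omega

lemma ofNat_val {N x : ℕ} (h : x ≤ N) : (Fin.ofNat (N + 1) x).val = x := by
  simp only [Fin.ofNat]
  exact Nat.mod_eq_of_lt (by omega)

/-- the flag of a cell is right -/
lemma cells_flag {N : ℕ} {S : Finset ℕ} (hS : ∀ x ∈ S, x < N) {e : Cell N} (he : e ∈ cells N S)
    {x : ℕ} (h1 : e.1.val ≤ x) (h2 : x < e.2.1.val) : (e.2.2 = true ↔ x ∈ S) := by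
  unfold cells at he
  rcases Finset.mem_union.mp he with h | h
  · obtain ⟨y, hy, rfl⟩ := Finset.mem_image.mp h
    have hyN := hS y hy
    simp only at h1 h2 ⊢
    rw [ofNat_val (by omega)] at h1 h2
    have : x = y := by omega
    subst this
    simp [hy]
  · obtain ⟨a, ha, rfl⟩ := Finset.mem_image.mp h
    have haN : a ≤ N := by
      rcases Finset.mem_insert.mp ha with h | h
      · omega
      · obtain ⟨y, hy, rfl⟩ := Finset.mem_image.mp h
        have := hS y hy
        omega
    have hnN : nxt N S a ≤ N := by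
      rcases nxt_spec N S a with h | h
      · exact (hS _ h.1).le
      · exact h.le
    simp only at h1 h2 ⊢
    rw [ofNat_val haN] at h1
    rw [ofNat_val hnN] at h2
    constructor
    · intro h; exact absurd h (by simp)
    · intro hx
      have := nxt_le (N := N) hx h1
      omega

/-- every code lies in a cell -/
lemma cells_cover {N : ℕ} {S : Finset ℕ} (hS : ∀ x ∈ S, x < N) {x : ℕ} (hx : x < N) :
    ∃ e ∈ cells N S, e.1.val ≤ x ∧ x < e.2.1.val := by
  by_cases hxS : x ∈ S
  · refine ⟨(Fin.ofNat (N + 1) x, Fin.ofNat (N + 1) (x + 1), true),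
      Finset.mem_union_left _ (Finset.mem_image_of_mem _ hxS), ?_, ?_⟩
    · simp only; rw [ofNat_val (by omega)]
    · simp only; rw [ofNat_val (by omega)]; omega
  · -- the largest starting point up to `x`
    have hne : ((insert 0 (S.image (fun x => x + 1))).filter (fun a => a ≤ x)).Nonempty :=
      ⟨0, Finset.mem_filter.mpr ⟨Finset.mem_insert_self _ _, Nat.zero_le _⟩⟩
    set a := ((insert 0 (S.image (fun x => x + 1))).filter (fun a => a ≤ x)).max' hne with ha
    have hamem := Finset.max'_mem _ hne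
    rw [← ha] at hamem
    obtain ⟨ha1, hax⟩ := Finset.mem_filter.mp hamem
    have hgap : ∀ y ∈ S, a ≤ y → x < y := by
      intro y hy hay
      by_contra hlt
      push Not at hlt
      have hne' : y ≠ x := by rintro rfl; exact hxS hy
      have h1 : y + 1 ∈ (insert 0 (S.image (fun x => x + 1))).filter (fun a => a ≤ x) :=
        Finset.mem_filter.mpr ⟨Finset.mem_insert_of_mem (Finset.mem_image_of_mem _ hy), by omega⟩
      have h2 := Finset.le_max' _ _ h1
      rw [← ha] at h2
      omega
    refine ⟨(Fin.ofNat (N + 1) a, Fin.ofNat (N + 1) (nxt N S a), false),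
      Finset.mem_union_right _ (Finset.mem_image_of_mem _ ha1), ?_, ?_⟩
    · simp only; rw [ofNat_val (by omega)]; exact hax
    · simp only
      rcases nxt_spec N S a with h | h
      · rw [ofNat_val (hS _ h.1).le]
        exact hgap _ h.1 h.2
      · rw [h, ofNat_val le_rfl]; exact hx

end target

section fam

variable {τ τ' : Voc} {s n : ℕ} (T : Tr τ τ' n) (φ : Pi2 τ' s)

/-- indices of the family of formulas -/
abbrev Idx : Type := Fin T.M ⊕ Fin (T.K + 1) ⊕
  ((Fin φ.p → Fin T.M) × ((Fin s → Fin φ.p ⊕ Fin φ.q) → Cell (T.M ^ s)))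

/-- the cells contain the tuples -/
def inC (cell : (Fin s → Fin φ.p ⊕ Fin φ.q) → Cell (T.M ^ s))
    (v : Fin φ.p ⊕ Fin φ.q → Fin T.M) : Prop :=
  ∀ w ∈ φ.ψ.atoms, (cell w).1.val ≤ code (fun i => v (w i)) ∧
    code (fun i => v (w i)) < (cell w).2.1.val

/-- there is a `y` in the universe with the given cells satisfying the matrix -/
def bigB (x : Fin φ.p → Fin T.M) (cell : (Fin s → Fin φ.p ⊕ Fin φ.q) → Cell (T.M ^ s)) :
    Fm (Bit τ n) :=
  Fm.orF (fun y : Fin φ.q → Fin T.M =>
    Fm.and2 (Fm.andF (fun i : Fin φ.q => T.dom (y i)))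
      (Fm.and2 (Fm.bc (decide (inC T φ cell (Sum.elim x y))))
        (conv T (fun w => (cell w).2.2) (Sum.elim x y) φ.ψ)))

/-- the family -/
def fam : Idx T φ → Fm (Bit τ n)
  | Sum.inl a => T.dom a
  | Sum.inr (Sum.inl j) => T.par j
  | Sum.inr (Sum.inr e) => bigB T φ e.1 e.2

lemma fam_depth {c : ℕ} (h1 : ∀ a, (T.dom a).depth ≤ c) (h2 : ∀ R v, (T.rel R v).depth ≤ c)
    (h3 : ∀ j, (T.par j).depth ≤ c) (i : Idx T φ) : (fam T φ i).depth ≤ c + φ.ψ.qs + 4 := by
  rcases i with a | j | e
  · exact (h1 a).trans (by omega)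
  · exact (h3 j).trans (by omega)
  · simp only [fam, bigB]
    refine (Fm.depth_orF _ (c + φ.ψ.qs + 3) ?_).trans (by omega)
    intro y
    refine (Fm.depth_and2 _ _ (c + φ.ψ.qs + 2) ?_ ?_)
    · exact (Fm.depth_andF _ c (fun i => h1 _)).trans (by omega)
    · refine (Fm.depth_and2 _ _ (c + φ.ψ.qs + 1) ?_ ?_)
      · exact (Fm.depth_bc _).trans (by omega)
      · exact (conv_depth T _ _ c h2 _).trans (by omega)

lemma fam_size {σ0 : ℕ} (hσ : 1 ≤ σ0) (h1 : ∀ a, (T.dom a).size ≤ σ0)
    (h2 : ∀ R v, (T.rel R v).size ≤ σ0) (h3 : ∀ j, (T.par j).size ≤ σ0) (i : Idx T φ) :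
    (fam T φ i).size ≤ (T.M + 1) ^ φ.q * ((φ.q + φ.ψ.qs + 4) * σ0) + σ0 := by
  rcases i with a | j | e
  · exact (h1 a).trans (by omega)
  · exact (h3 j).trans (by omega)
  · simp only [fam, bigB]
    refine (Fm.size_orF _ ((φ.q + φ.ψ.qs + 4) * σ0) ?_).trans ?_
    · intro y
      rw [Fm.size_and2, Fm.size_and2]
      have e1 := Fm.size_andF (fun i : Fin φ.q => T.dom (y i)) σ0 (fun i => h1 _)
      rw [Fintype.card_fin] at e1
      have e2 := conv_size T (fun w => (e.2 w).2.2) (Sum.elim e.1 y) σ0 hσ h2 φ.ψ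
      have e3 : ((Fm.bc (decide (inC T φ e.2 (Sum.elim e.1 y)))) : Fm (Bit τ n)).size ≤ 1 :=
        Fm.size_bc _
      calc _ ≤ φ.q * σ0 + 1 + (1 + φ.ψ.qs * σ0 + 1) + 1 := by omega
        _ ≤ φ.q * σ0 + σ0 + (σ0 + φ.ψ.qs * σ0 + σ0) + σ0 := by omega
        _ = _ := by ring
    · rw [Fintype.card_fun, Fintype.card_fin, Fintype.card_fin]
      have h4 : T.M ^ φ.q ≤ (T.M + 1) ^ φ.q := Nat.pow_le_pow_left (by omega) _
      exact Nat.add_le_add (Nat.mul_le_mul_right _ h4) hσ

/-- guesses -/
abbrev Guess : Type := Fin T.K → Option (Fin s → Fin T.M)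

/-- the set of a guess -/
def gset (σ : Guess (s := s) T) : Finset (Fin s → Fin T.M) :=
  Finset.univ.filter (fun w => ∃ i, σ i = some w)

lemma card_gset (σ : Guess (s := s) T) : (gset T σ).card ≤ T.K := by
  have h1 : (gset T σ).image some ⊆ Finset.univ.image σ := by
    intro x hx
    obtain ⟨w, hw, rfl⟩ := Finset.mem_image.mp hx
    obtain ⟨i, hi⟩ := (Finset.mem_filter.mp hw).2
    exact Finset.mem_image.mpr ⟨i, Finset.mem_univ _, hi⟩
  calc (gset T σ).card = ((gset T σ).image some).card :=
        (Finset.card_image_of_injective _ (Option.some_injective _)).symm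
    _ ≤ _ := Finset.card_le_card h1
    _ ≤ _ := Finset.card_image_le
    _ = T.K := by simp

lemma exists_guess (S : Finset (Fin s → Fin T.M)) (hS : S.card ≤ T.K) :
    ∃ σ : Guess (s := s) T, gset T σ = S := by
  refine ⟨fun i => if h : i.val < S.card then some (S.equivFin.symm ⟨i.val, h⟩).1 else none, ?_⟩
  ext w
  simp only [gset, Finset.mem_filter, Finset.mem_univ, true_and]
  constructor
  · rintro ⟨i, hi⟩
    by_cases h : i.val < S.card
    · rw [dif_pos h] at hi
      have := Option.some_injective _ hi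
      rw [← this]
      exact (S.equivFin.symm ⟨i.val, h⟩).2
    · rw [dif_neg h] at hi
      exact absurd hi (by simp)
  · intro hw
    have hlt := (S.equivFin ⟨w, hw⟩).2
    refine ⟨⟨(S.equivFin ⟨w, hw⟩).val, by omega⟩, ?_⟩
    rw [dif_pos hlt]
    simp

/-- codes of a guess -/
def gcodes (σ : Guess (s := s) T) : Finset ℕ := (gset T σ).image code

lemma gcodes_lt (σ : Guess (s := s) T) : ∀ x ∈ gcodes T σ, x < T.M ^ s := by
  intro x hx
  obtain ⟨w, -, rfl⟩ := Finset.mem_image.mp hx
  exact code_lt w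

lemma mem_gcodes (σ : Guess (s := s) T) (w : Fin s → Fin T.M) :
    code w ∈ gcodes T σ ↔ w ∈ gset T σ := by
  constructor
  · intro h
    obtain ⟨w', hw', he⟩ := Finset.mem_image.mp h
    rwa [← code_inj he]
  · intro h; exact Finset.mem_image_of_mem _ h

/-- choices of cells for the atoms -/
def cfam (σ : Guess (s := s) T) : Finset ((Fin s → Fin φ.p ⊕ Fin φ.q) → Cell (T.M ^ s)) :=
  Fintype.piFinset (fun w => if w ∈ φ.ψ.atoms then cells (T.M ^ s) (gcodes T σ) else
    {((0 : Fin (T.M ^ s + 1)), (0 : Fin (T.M ^ s + 1)), false)})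

lemma card_cfam (σ : Guess (s := s) T) {d : ℕ} (hd : φ.occ ≤ d) :
    (cfam T φ σ).card ≤ (2 * T.K + 1) ^ d := by
  unfold cfam
  rw [Fintype.card_piFinset]
  have h1 : ∀ w, (if w ∈ φ.ψ.atoms then cells (T.M ^ s) (gcodes T σ) else
    {((0 : Fin (T.M ^ s + 1)), (0 : Fin (T.M ^ s + 1)), false)}).card ≤
      (if w ∈ φ.ψ.atoms then 2 * T.K + 1 else 1) := by
    intro w
    split_ifs
    · refine (card_cells _ _).trans ?_
      have h2 : (gcodes T σ).card ≤ T.K := Finset.card_image_le.trans (card_gset T σ)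
      omega
    · simp
  refine (Finset.prod_le_prod' fun w _ => h1 w).trans ?_
  rw [Finset.prod_ite, Finset.prod_const, Finset.prod_const_one, mul_one]
  have h3 : (Finset.univ.filter (fun w => w ∈ φ.ψ.atoms)) = φ.ψ.atoms := by
    ext w; simp
  rw [h3]
  exact Nat.pow_le_pow_right (by omega) ((QF.card_atoms φ.ψ).trans hd)

/-- the tests of a guess -/
def Test (σ : Guess (s := s) T) (b : Bit τ n → Bool) :
    (Unit ⊕ ((Fin s → Fin T.M) × Fin s) ⊕ (Fin φ.p → Fin T.M)) → Prop
  | Sum.inl _ => (T.par ⟨(gset T σ).card, Nat.lt_succ_of_le (card_gset T σ)⟩).Holds b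
  | Sum.inr (Sum.inl e) => e.1 ∈ gset T σ → (T.dom (e.1 e.2)).Holds b
  | Sum.inr (Sum.inr x) => (∀ i, (T.dom (x i)).Holds b) → ∃ cell ∈ cfam T φ σ,
      (bigB T φ x cell).Holds b

/-- each test looks at few formulas of the family -/
lemma test_dep {d : ℕ} (hd : φ.occ ≤ d) (σ : Guess (s := s) T)
    (i : Unit ⊕ ((Fin s → Fin T.M) × Fin s) ⊕ (Fin φ.p → Fin T.M)) :
    ∃ Q : Finset (Idx T φ), Q.card ≤ φ.p + (2 * T.K + 1) ^ d + 1 ∧
      ∀ b b' : Bit τ n → Bool, (∀ e ∈ Q, ((fam T φ e).Holds b ↔ (fam T φ e).Holds b')) →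
        (Test T φ σ b i ↔ Test T φ σ b' i) := by
  rcases i with u | e | x
  · refine ⟨{Sum.inr (Sum.inl ⟨(gset T σ).card, Nat.lt_succ_of_le (card_gset T σ)⟩)}, by simp, ?_⟩
    intro b b' h
    exact h _ (Finset.mem_singleton_self _)
  · refine ⟨{Sum.inl (e.1 e.2)}, by simp, ?_⟩
    intro b b' h
    have h1 := h _ (Finset.mem_singleton_self _)
    simp only [Test]
    simp only [fam] at h1
    rw [h1]
  · refine ⟨(Finset.univ : Finset (Fin φ.p)).image (fun i => Sum.inl (x i)) ∪
      (cfam T φ σ).image (fun cell => Sum.inr (Sum.inr (x, cell))), ?_, ?_⟩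
    · refine (Finset.card_union_le _ _).trans ?_
      have h1 : ((Finset.univ : Finset (Fin φ.p)).image
          (fun i => (Sum.inl (x i) : Idx T φ))).card ≤ φ.p :=
        Finset.card_image_le.trans (by simp)
      have h2 : ((cfam T φ σ).image (fun cell => (Sum.inr (Sum.inr (x, cell)) : Idx T φ))).card ≤
        (2 * T.K + 1) ^ d := Finset.card_image_le.trans (card_cfam T φ σ hd)
      omega
    · intro b b' h
      simp only [Test]
      have h1 : ∀ i, ((T.dom (x i)).Holds b ↔ (T.dom (x i)).Holds b') := fun i =>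
        h (Sum.inl (x i)) (Finset.mem_union_left _ (Finset.mem_image.mpr ⟨i, Finset.mem_univ _, rfl⟩))
      have h2 : ∀ cell ∈ cfam T φ σ, ((bigB T φ x cell).Holds b ↔ (bigB T φ x cell).Holds b') :=
        fun cell hc => h (Sum.inr (Sum.inr (x, cell)))
          (Finset.mem_union_right _ (Finset.mem_image.mpr ⟨cell, hc, rfl⟩))
      simp only [h1]
      apply imp_congr_right
      intro _
      constructor
      · rintro ⟨cell, hc, hb⟩; exact ⟨cell, hc, (h2 cell hc).mp hb⟩
      · rintro ⟨cell, hc, hb⟩; exact ⟨cell, hc, (h2 cell hc).mpr hb⟩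

lemma holds_out (A : Str τ (Fin n)) (S : Finset (Fin s → T.Univ A))
    (S' : Finset (Fin s → Fin T.M)) (hS : ∀ w : Fin s → T.Univ A, (w ∈ S ↔ (fun i => (w i).1) ∈ S'))
    {V : Type} (v : V → T.Univ A) (ψ : QF τ' s V) :
    ψ.Holds (T.out A) S v ↔ ψ.Holds (outM T A) S' (fun a => (v a).1) := by
  induction ψ with
  | rel R w => simp only [QF.Holds, Tr.out, outM]
  | eq a b =>
    simp only [QF.Holds]
    exact ⟨fun h => by rw [h], fun h => Subtype.ext h⟩
  | mem w =>
    simp only [QF.Holds]
    exact hS _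
  | not φ ih => simp only [QF.Holds, ih]
  | and φ ψ ih1 ih2 => simp only [QF.Holds, ih1, ih2]

/-- matrix truth through cells -/
lemma bigB_iff (A : Str τ (Fin n)) (σ : Guess (s := s) T) (x : Fin φ.p → Fin T.M) :
    (∃ cell ∈ cfam T φ σ, (bigB T φ x cell).Holds (bits A)) ↔
      ∃ y : Fin φ.q → Fin T.M, (∀ i, (T.dom (y i)).Holds (bits A)) ∧
        φ.ψ.Holds (outM T A) (gset T σ) (Sum.elim x y) := by
  constructor
  · rintro ⟨cell, hcell, hB⟩
    simp only [bigB, Fm.holds_orF, Fm.holds_and2, Fm.holds_andF, Fm.holds_bc] at hB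
    obtain ⟨y, hy, hin, hconv⟩ := hB
    refine ⟨y, hy, ?_⟩
    have hin' := of_decide_eq_true hin
    rw [conv_holds T _ _ A (gset T σ)] at hconv
    · exact hconv
    · intro w hw
      have hc := Fintype.mem_piFinset.mp hcell w
      rw [if_pos hw] at hc
      have := cells_flag (gcodes_lt T σ) hc (hin' w hw).1 (hin' w hw).2
      rw [this, mem_gcodes]
  · rintro ⟨y, hy, hψ⟩
    have hcov : ∀ w : Fin s → Fin φ.p ⊕ Fin φ.q, ∃ e ∈ cells (T.M ^ s) (gcodes T σ),
        e.1.val ≤ code (fun i => Sum.elim x y (w i)) ∧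
        code (fun i => Sum.elim x y (w i)) < e.2.1.val := fun w =>
      cells_cover (gcodes_lt T σ) (code_lt _)
    choose ce hce1 hce2 using hcov
    let cell : (Fin s → Fin φ.p ⊕ Fin φ.q) → Cell (T.M ^ s) := fun w =>
      if w ∈ φ.ψ.atoms then ce w else ((0 : Fin (T.M ^ s + 1)), (0 : Fin (T.M ^ s + 1)), false)
    refine ⟨cell, ?_, ?_⟩
    · rw [cfam, Fintype.mem_piFinset]
      intro w
      by_cases hw : w ∈ φ.ψ.atoms
      · simp only [cell, if_pos hw]; exact hce1 w
      · simp only [cell, if_neg hw, Finset.mem_singleton]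
    · simp only [bigB, Fm.holds_orF, Fm.holds_and2, Fm.holds_andF, Fm.holds_bc]
      refine ⟨y, hy, ?_, ?_⟩
      · apply decide_eq_true
        intro w hw
        simp only [cell, if_pos hw]
        exact hce2 w
      · rw [conv_holds T _ _ A (gset T σ)]
        · exact hψ
        · intro w hw
          simp only [cell, if_pos hw]
          have := cells_flag (gcodes_lt T σ) (hce1 w) (hce2 w).1 (hce2 w).2
          rw [this, mem_gcodes]

/-- the target question is a guess followed by tests -/
theorem target_equiv (A : Str τ (Fin n)) (j : Fin (T.K + 1))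
    (hj : ∀ j', (T.par j').Holds (bits A) ↔ j' = j) :
    WD φ (T.out A) j ↔ ∃ σ : Guess (s := s) T, ∀ i, Test T φ σ (bits A) i := by
  constructor
  · rintro ⟨S, hcard, hS⟩
    let emb : (Fin s → T.Univ A) → (Fin s → Fin T.M) := fun w i => (w i).1
    have hemb : Function.Injective emb := by
      intro w w' h
      funext i
      exact Subtype.ext (congrFun h i)
    have hcS : (S.image emb).card = j := by
      rw [Finset.card_image_of_injective _ hemb, hcard]
    obtain ⟨σ, hσ⟩ := exists_guess T (S.image emb) (by rw [hcS]; omega)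
    have hmem : ∀ w : Fin s → T.Univ A, (w ∈ S ↔ (fun i => (w i).1) ∈ gset T σ) := by
      intro w
      rw [hσ]
      constructor
      · intro h; exact Finset.mem_image_of_mem emb h
      · intro h
        obtain ⟨w', hw', he⟩ := Finset.mem_image.mp h
        rwa [← hemb he]
    refine ⟨σ, ?_⟩
    rintro (u | e | x)
    · simp only [Test]
      rw [hj]
      apply Fin.ext
      simp only [hσ, hcS]
    · simp only [Test]
      intro he
      rw [hσ] at he
      obtain ⟨w, hw, hwe⟩ := Finset.mem_image.mp he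
      rw [← hwe]
      exact (w e.2).2
    · simp only [Test]
      intro hx
      rw [bigB_iff]
      obtain ⟨y, hy⟩ := hS (fun i => ⟨x i, hx i⟩)
      refine ⟨fun i => (y i).1, fun i => (y i).2, ?_⟩
      rw [holds_out T A S (gset T σ) hmem] at hy
      convert hy using 1
      funext a
      cases a <;> rfl
  · rintro ⟨σ, hσ⟩
    have hpar := hσ (Sum.inl ())
    simp only [Test] at hpar
    rw [hj] at hpar
    have hcard : (gset T σ).card = j := congrArg Fin.val hpar
    have hdom : ∀ w ∈ gset T σ, ∀ i, (T.dom (w i)).Holds (bits A) := fun w hw i =>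
      hσ (Sum.inr (Sum.inl (w, i))) hw
    let lift : {w // w ∈ gset T σ} → (Fin s → T.Univ A) := fun w i => ⟨w.1 i, hdom w.1 w.2 i⟩
    have hlift : Function.Injective lift := by
      intro w w' h
      apply Subtype.ext
      funext i
      have := congrFun h i
      exact congrArg Subtype.val this
    refine ⟨(gset T σ).attach.image lift, ?_, ?_⟩
    · rw [Finset.card_image_of_injective _ hlift, Finset.card_attach, hcard]
    · have hmem : ∀ w : Fin s → T.Univ A, (w ∈ (gset T σ).attach.image lift ↔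
          (fun i => (w i).1) ∈ gset T σ) := by
        intro w
        constructor
        · intro h
          obtain ⟨w', -, he⟩ := Finset.mem_image.mp h
          rw [← he]
          exact w'.2
        · intro h
          refine Finset.mem_image.mpr ⟨⟨fun i => (w i).1, h⟩, Finset.mem_attach _ _, ?_⟩
          rfl
      intro x
      have h1 := hσ (Sum.inr (Sum.inr (fun i => (x i).1))) (fun i => (x i).2)
      rw [bigB_iff] at h1
      obtain ⟨y, hy, hψ⟩ := h1
      refine ⟨fun i => ⟨y i, hy i⟩, ?_⟩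
      rw [holds_out T A _ (gset T σ) hmem]
      convert hψ using 1
      funext a
      cases a <;> rfl

end fam

end

end Pool.Agent.Helper265_EW
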