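import Pool.Agent.Helper265_EW.Num
import Pool.Agent.Helper265_EW.SrcF
import Pool.Agent.Helper265_EW.Tgt
import Pool.Agent.Helper265_EW.Core

set_option linter.unusedSectionVars false

/-! Assembly of the lower bound. -/

namespace Pool.Agent.Helper265_EW

open Finset Classical Pool.Agent.H592R2

noncomputable section

/-- the table encoding -/
def encT {d k Γ B n : ℕ} (eU : Un k Γ B ≃ Fin n) (z : Tb (d + 2) (Vt k Γ B)) :
    Bit (srcV d) n → Bool := fun j => encU z (fun i : Fin (d + 2) => eU.symm (j.2 i))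

/-- the structure of a table -/
def strT {d k Γ B n : ℕ} (eU : Un k Γ B ≃ Fin n) (z : Tb (d + 2) (Vt k Γ B)) :
    Str (srcV d) (Fin n) := fun _ t => encU z (fun i : Fin (d + 2) => eU.symm (t i))

lemma bits_strT {d k Γ B n : ℕ} (eU : Un k Γ B ≃ Fin n) (z : Tb (d + 2) (Vt k Γ B)) :
    bits (strT eU z) = encT eU z := rfl

/-- the combinatorial heart: a reduction at one good parameter value gives an inequality -/
theorem heart {d k Γ B D S b : ℕ} [NeZero b] [NeZero B] [NeZero Γ] {τ' : Voc} {s n : ℕ}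
    (φ : Pi2 τ' s) (hocc : φ.occ ≤ d) (T : Tr (srcV d) τ' n) (eU : Un k Γ B ≃ Fin n)
    (hcorr : ∀ A : Str (srcV d) (Fin n), ∃ j : Fin (T.K + 1),
      (∀ j', (T.par j').Holds (bits A) ↔ j' = j) ∧ (WD (srcF d) A k ↔ WD φ (T.out A) j))
    (hdepth : ∀ i, (fam T φ i).depth ≤ D) (sz : ℕ) (hsz : ∀ i, (fam T φ i).size ≤ sz)
    (hd : 1 ≤ d) (hb : 2 ≤ b) (hS : d + 2 < S)
    (hnum : fail d k Γ B D S b (Fintype.card (Idx T φ)) sz < 1) :
    (k ^ (d + 1)) ^ (k * Γ) ≤ (T.M ^ s + 1) ^ T.K *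
      ((φ.p + (2 * T.K + 1) ^ d + 1) * S ^ (d + 2)) ^ (k * Γ) := by
  obtain ⟨ω, hG, hL⟩ := good_exists (fam T φ) (encT eU)
    (fun j => encU_local (fun i : Fin (d + 2) => eU.symm (j.2 i))) hdepth sz hsz hd hb hS hnum
  set A := As b (d + 2) S
  set Mi := Ms b (d + 2) S
  let zq : ((Fin k × Fin Γ) → (Fin (d + 1) → Fin k) → Bool) → Tb (d + 2) (Vt k Γ B) := fun q =>
    rho A Mi mj D ω (emb (pv A (sts ω)) (pr A (sts ω)) q)
  have hmain : ∀ q : (Fin k × Fin Γ) → (Fin (d + 1) → Fin k) → Bool,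
      (∀ x, ∃ c, q x c = true) ↔ ∃ σ : Guess (s := s) T, ∀ i, Test T φ σ (encT eU (zq q)) i := by
    intro q
    obtain ⟨j, hj1, hj2⟩ := hcorr (strT eU (zq q))
    rw [← bits_strT, ← target_equiv T φ (strT eU (zq q)) j hj1, ← hj2, srcF_WD]
    have h1 := SY_equiv eU (m := d + 1) (encU (zq q)) k
    have h2 := source_equiv A Mi ω hG q
    rw [← h2, ← h1]
    rfl
  have hfam : ∀ e : Idx T φ, ∃ Q : Finset ((Fin k × Fin Γ) × (Fin (d + 1) → Fin k)),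
      Q.card ≤ S ^ (d + 2) ∧ ∀ q q' : (Fin k × Fin Γ) → (Fin (d + 1) → Fin k) → Bool,
        (∀ e ∈ Q, q e.1 e.2 = q' e.1 e.2) →
        ((fam T φ e).Holds (encT eU (zq q)) ↔ (fam T φ e).Holds (encT eU (zq q'))) := by
    intro e
    obtain ⟨K, hK, -, hloc⟩ := hL e
    obtain ⟨Q, hQ, hQd⟩ := dep_of_loc (pv A (sts ω)) (pr A (sts ω)) hloc
    exact ⟨Q, hQ.trans (Nat.pow_le_pow_left hK.le _), hQd⟩
  choose Qf hQf1 hQf2 using hfam
  have hcore := core (X := Fin k × Fin Γ) (P := Fin (d + 1) → Fin k)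
    (fun (σ : Guess (s := s) T) i q => Test T φ σ (encT eU (zq q)) i)
    ((φ.p + (2 * T.K + 1) ^ d + 1) * S ^ (d + 2)) ?_ hmain
  · rw [Fintype.card_fun, Fintype.card_prod, Fintype.card_fun, Fintype.card_option,
      Fintype.card_fun, Fintype.card_fin, Fintype.card_fin, Fintype.card_fin, Fintype.card_fin,
      Fintype.card_fin, Fintype.card_fin] at hcore
    exact hcore
  · intro σ i
    obtain ⟨Q, hQ, hQd⟩ := test_dep T φ hocc σ i
    refine ⟨Q.biUnion Qf, ?_, ?_⟩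
    · calc (Q.biUnion Qf).card ≤ ∑ e ∈ Q, (Qf e).card := Finset.card_biUnion_le
        _ ≤ ∑ _e ∈ Q, S ^ (d + 2) := Finset.sum_le_sum fun e _ => hQf1 e
        _ = Q.card * S ^ (d + 2) := by rw [Finset.sum_const, smul_eq_mul]
        _ ≤ _ := Nat.mul_le_mul_right _ hQ
    · intro q q' hqq'
      apply hQd
      intro e he
      apply hQf2
      intro e' he'
      exact hqq' e' (Finset.mem_biUnion.mpr ⟨e, he, he'⟩)

/-- the final numerical contradiction -/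
lemma final_contra {k b d M s K p S Z c α C2 : ℕ} (hb : b = 2 ^ k) (hk : 1 ≤ k) (hS : 1 ≤ S)
    (hZ2 : 2 ≤ Z) (hZb : Z ≤ b ^ (α + 5)) (hM : M ≤ Z ^ c) (hK2 : K ≤ C2 * k)
    (hw : 2 * ((p + 1 + (2 * C2 + 1) ^ d) * S ^ (d + 2)) ≤ k)
    (h6 : ((α + 5) * (c * s + 1) * C2 + 1) * k ≤ b)
    (hheart : (k ^ (d + 1)) ^ (k * b) ≤ (M ^ s + 1) ^ K *
      ((p + (2 * K + 1) ^ d + 1) * S ^ (d + 2)) ^ (k * b)) : False := by
  obtain ⟨w, hw0⟩ : ∃ w, w = (p + (2 * K + 1) ^ d + 1) * S ^ (d + 2) := ⟨_, rfl⟩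
  obtain ⟨Cw, hCw⟩ : ∃ Cw, Cw = (p + 1 + (2 * C2 + 1) ^ d) * S ^ (d + 2) := ⟨_, rfl⟩
  obtain ⟨C1, hC1⟩ : ∃ C1, C1 = (α + 5) * (c * s + 1) * C2 := ⟨_, rfl⟩
  rw [← hw0] at hheart
  rw [← hCw] at hw
  rw [← hC1] at h6
  have hb1 : 1 ≤ b := by rw [hb]; exact Nat.one_le_two_pow
  have hSp : 1 ≤ S ^ (d + 2) := Nat.one_le_pow _ _ hS
  have hw1 : 1 ≤ w := by
    rw [hw0]
    exact Nat.mul_pos (by omega) hSp
  have hkd : 1 ≤ k ^ d := Nat.one_le_pow _ _ hk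
  have hwle : w ≤ Cw * k ^ d := by
    have e0 : 2 * K + 1 ≤ (2 * C2 + 1) * k := by
      calc 2 * K + 1 ≤ 2 * (C2 * k) + 1 * k := by omega
        _ = (2 * C2 + 1) * k := by ring
    have e1 : (2 * K + 1) ^ d ≤ (2 * C2 + 1) ^ d * k ^ d := by
      rw [← mul_pow]
      exact Nat.pow_le_pow_left e0 d
    calc w = (p + 1 + (2 * K + 1) ^ d) * S ^ (d + 2) := by rw [hw0]; ring
      _ ≤ ((p + 1) * k ^ d + (2 * C2 + 1) ^ d * k ^ d) * S ^ (d + 2) := by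
          apply Nat.mul_le_mul_right
          apply Nat.add_le_add _ e1
          exact Nat.le_mul_of_pos_right _ hkd
      _ = Cw * k ^ d := by rw [hCw]; ring
  have h2w : 2 * w ≤ k ^ (d + 1) := by
    calc 2 * w ≤ 2 * (Cw * k ^ d) := Nat.mul_le_mul_left _ hwle
      _ = (2 * Cw) * k ^ d := by ring
      _ ≤ k * k ^ d := Nat.mul_le_mul_right _ hw
      _ = k ^ (d + 1) := by ring
  have hguess : (M ^ s + 1) ^ K ≤ 2 ^ (C1 * k ^ 2) := by
    have e1 : M ^ s + 1 ≤ Z ^ (c * s + 1) := by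
      have e2 : 1 ≤ Z ^ (c * s) := Nat.one_le_pow _ _ (by omega)
      calc M ^ s + 1 ≤ (Z ^ c) ^ s + 1 := Nat.add_le_add_right (Nat.pow_le_pow_left hM s) 1
        _ = Z ^ (c * s) + 1 := by rw [← pow_mul]
        _ ≤ Z ^ (c * s) + Z ^ (c * s) := Nat.add_le_add_left e2 _
        _ = Z ^ (c * s) * 2 := by ring
        _ ≤ Z ^ (c * s) * Z := Nat.mul_le_mul_left _ hZ2
        _ = Z ^ (c * s + 1) := by rw [pow_succ]
    calc (M ^ s + 1) ^ K ≤ (Z ^ (c * s + 1)) ^ K := Nat.pow_le_pow_left e1 _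
      _ ≤ ((b ^ (α + 5)) ^ (c * s + 1)) ^ K :=
          Nat.pow_le_pow_left (Nat.pow_le_pow_left hZb _) _
      _ ≤ ((b ^ (α + 5)) ^ (c * s + 1)) ^ (C2 * k) :=
          Nat.pow_le_pow_right (Nat.one_le_pow _ _ (Nat.one_le_pow _ _ hb1)) hK2
      _ = 2 ^ (C1 * k ^ 2) := by
          rw [hb, ← pow_mul, ← pow_mul, ← pow_mul, hC1]
          congr 1
          ring
  have hlt : C1 * k ^ 2 < k * b := by
    have e1 : C1 * k < b := by
      calc C1 * k < C1 * k + 1 * k := by omega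
        _ = (C1 + 1) * k := by ring
        _ ≤ b := h6
    calc C1 * k ^ 2 = k * (C1 * k) := by ring
      _ < k * b := Nat.mul_lt_mul_of_pos_left e1 (by omega)
  have hfin : (k ^ (d + 1)) ^ (k * b) < (k ^ (d + 1)) ^ (k * b) := by
    calc (k ^ (d + 1)) ^ (k * b) ≤ (M ^ s + 1) ^ K * w ^ (k * b) := hheart
      _ ≤ 2 ^ (C1 * k ^ 2) * w ^ (k * b) := Nat.mul_le_mul_right _ hguess
      _ < 2 ^ (k * b) * w ^ (k * b) := by
          apply Nat.mul_lt_mul_of_pos_right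
          · exact Nat.pow_lt_pow_right (by norm_num) hlt
          · exact Nat.pow_pos (by omega)
      _ = (2 * w) ^ (k * b) := by rw [mul_pow]
      _ ≤ (k ^ (d + 1)) ^ (k * b) := Nat.pow_le_pow_left h2w _
  exact lt_irrefl _ hfin

lemma n_bound {k b α B n : ℕ} (hkb : k + 2 ≤ b) (hb3 : 3 ≤ b) (hB : B = b ^ (α + 1))
    (hn : n = k * (b * B) + k * B + k) : n + 2 ≤ b ^ (α + 4) := by
  have e1 : 1 ≤ B := by rw [hB]; exact Nat.one_le_pow _ _ (by omega)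
  have e2 : k * (b * B) ≤ b * (b * B) := Nat.mul_le_mul_right _ (by omega)
  have e5 : B ≤ b * B := Nat.le_mul_of_pos_left _ (by omega)
  have e3 : k * B ≤ b * (b * B) := Nat.mul_le_mul (by omega) e5
  have e4 : k + 2 ≤ b * (b * B) := by
    calc k + 2 ≤ b := hkb
      _ ≤ b * (b * B) := Nat.le_mul_of_pos_right _ (by positivity)
  calc n + 2 = k * (b * B) + k * B + (k + 2) := by rw [hn]; ring
    _ ≤ b * (b * B) + b * (b * B) + b * (b * B) := by gcongr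
    _ = 3 * (b * (b * B)) := by ring
    _ ≤ b * (b * (b * B)) := Nat.mul_le_mul_right _ hb3
    _ = b ^ (α + 4) := by rw [hB]; ring

lemma card_Idx {τ τ' : Voc} {s n : ℕ} (T : Tr τ τ' n) (φ : Pi2 τ' s) {m c' : ℕ} (hM : T.M ≤ m)
    (hK : T.K ≤ c') :
    Fintype.card (Idx T φ) ≤ m + (c' + 1) + m ^ φ.p *
      ((m ^ s + 1) * ((m ^ s + 1) * 2)) ^ ((φ.p + φ.q) ^ s) := by
  have h0 : Fintype.card (Idx T φ) = T.M + ((T.K + 1) + T.M ^ φ.p *
      ((T.M ^ s + 1) * ((T.M ^ s + 1) * 2)) ^ ((φ.p + φ.q) ^ s)) := by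
    simp only [Idx, Fintype.card_sum, Fintype.card_prod, Fintype.card_fin, Fintype.card_fun,
      Fintype.card_bool]
  rw [h0]
  have h1 : T.M ^ s + 1 ≤ m ^ s + 1 := Nat.add_le_add_right (Nat.pow_le_pow_left hM s) 1
  have h2 : (T.M ^ s + 1) * ((T.M ^ s + 1) * 2) ≤ (m ^ s + 1) * ((m ^ s + 1) * 2) :=
    Nat.mul_le_mul h1 (Nat.mul_le_mul_right _ h1)
  have h3 : T.M ^ φ.p * ((T.M ^ s + 1) * ((T.M ^ s + 1) * 2)) ^ ((φ.p + φ.q) ^ s) ≤
      m ^ φ.p * ((m ^ s + 1) * ((m ^ s + 1) * 2)) ^ ((φ.p + φ.q) ^ s) :=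
    Nat.mul_le_mul (Nat.pow_le_pow_left hM _) (Nat.pow_le_pow_left h2 _)
  calc _ ≤ m + ((c' + 1) + m ^ φ.p * ((m ^ s + 1) * ((m ^ s + 1) * 2)) ^ ((φ.p + φ.q) ^ s)) :=
        Nat.add_le_add hM (Nat.add_le_add (Nat.add_le_add_right hK 1) h3)
    _ = _ := by ring

/-- the polynomial bound on number times size -/
lemma PB_total (c p q s qs : ℕ) : PB (fun Z => (Z ^ c + (c * Z + 1) + (Z ^ c) ^ p *
      (((Z ^ c) ^ s + 1) * (((Z ^ c) ^ s + 1) * 2)) ^ ((p + q) ^ s)) *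
      ((Z ^ c + 1) ^ q * ((q + qs + 4) * Z ^ c) + Z ^ c)) := by
  have hv : PB (fun Z => Z ^ c) := PB.var.pow c
  have h1 := PB.const 1
  have h2 := PB.const 2
  refine PB.mul ((hv.add (((PB.const c).mul PB.var).add h1)).add
    ((hv.pow p).mul (PB.pow (((hv.pow s).add h1).mul (((hv.pow s).add h1).mul h2)) _))) ?_
  exact (((hv.add h1).pow q).mul ((PB.const _).mul hv)).add hv

/-- No reduction. -/
theorem no_red (d : ℕ) (hd : 1 ≤ d) {τ' : Voc} {s : ℕ} (φ : Pi2 τ' s) (hocc : φ.occ ≤ d) :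
    ¬ AC0EptRed (srcF d) φ := by
  rintro ⟨c, hred⟩
  -- constants
  obtain ⟨D, hD⟩ : ∃ D, D = c + φ.ψ.qs + 4 := ⟨_, rfl⟩
  obtain ⟨E, hE⟩ := PB_total c φ.p φ.q s φ.ψ.qs
  obtain ⟨S, hS⟩ : ∃ S, S = (2 * D + 5) * E + d + 3 := ⟨_, rfl⟩
  have hSd : d + 2 < S := by omega
  obtain ⟨sg, hsg⟩ : ∃ sg, sg = sgr (d + 2) S := ⟨_, rfl⟩
  have hsg1 : 1 ≤ sg := by rw [hsg]; exact sgr_pos hSd
  obtain ⟨α, hα⟩ : ∃ α, α = 2 * sg * D := ⟨_, rfl⟩
  obtain ⟨C2, hC2⟩ : ∃ C2, C2 = c * (α + 6) := ⟨_, rfl⟩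
  obtain ⟨k1, hk1⟩ := ev_pow 4 (d + 1)
  obtain ⟨k2, hk2⟩ := ev_pow (α + 2) 2
  obtain ⟨k3, hk3⟩ := ev_pow ((α + 5) * (c * s + 1) * C2 + 1) 1
  obtain ⟨k, hk⟩ : ∃ k, k = k1 + k2 + k3 + (α + 8) + (sg * S + 3) +
    2 * ((φ.p + 1 + (2 * C2 + 1) ^ d) * S ^ (d + 2)) := ⟨_, rfl⟩
  have h4 := hk1 k (by rw [hk]; omega)
  have h5 := hk2 k (by rw [hk]; omega)
  have h6 := hk3 k (by rw [hk]; omega)
  have hkα : α + 8 ≤ k := by rw [hk]; omega
  have hkS : sg * S + 3 ≤ k := by rw [hk]; omega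
  have hkw : 2 * ((φ.p + 1 + (2 * C2 + 1) ^ d) * S ^ (d + 2)) ≤ k := by rw [hk]; omega
  clear hk hk1 hk2 hk3
  rw [pow_one] at h6
  have hk8 : 8 ≤ k := by omega
  have hk2b : k + 2 ≤ 2 ^ k := by
    obtain ⟨k', rfl⟩ : ∃ k', k = k' + 1 := ⟨k - 1, by omega⟩
    have : k' < 2 ^ k' := Nat.lt_pow_self (by norm_num)
    rw [pow_succ]
    omega
  obtain ⟨b, hb⟩ : ∃ b, b = 2 ^ k := ⟨_, rfl⟩
  rw [← hb] at hk2b
  have hb256 : 256 ≤ b := by
    calc 256 = 2 ^ 8 := by norm_num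
      _ ≤ 2 ^ k := Nat.pow_le_pow_right (by norm_num) hk8
      _ = b := hb.symm
  have : NeZero b := ⟨by omega⟩
  obtain ⟨B, hB⟩ : ∃ B, B = b ^ (α + 1) := ⟨_, rfl⟩
  have hB0 : 1 ≤ B := by rw [hB]; exact Nat.one_le_pow _ _ (by omega)
  have : NeZero B := ⟨by omega⟩
  obtain ⟨n, hn⟩ : ∃ n, n = k * (b * B) + k * B + k := ⟨_, rfl⟩
  have hn2 : n + 2 ≤ b ^ (α + 4) := n_bound hk2b (by omega) hB hn
  have hcard : Fintype.card (Un k b B) = n := by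
    rw [hn]
    simp only [Fintype.card_sum, Fintype.card_prod, Fintype.card_fin]
  have eU : Un k b B ≃ Fin n := Fintype.equivFinOfCardEq hcard
  obtain ⟨T, ⟨hM, hK, hdom, hrel, hpar⟩, hcorr⟩ := hred n k
  rw [← hb] at hM hdom hrel hpar
  obtain ⟨Z, hZ⟩ : ∃ Z, Z = b * (n + 2) := ⟨_, rfl⟩
  rw [← hZ] at hM hdom hrel hpar
  have hZ2 : 2 ≤ Z := by
    rw [hZ]
    calc 2 = 1 * 2 := rfl
      _ ≤ b * (n + 2) := Nat.mul_le_mul (by omega) (by omega)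
  have hZb : Z ≤ b ^ (α + 5) := by
    rw [hZ]
    calc b * (n + 2) ≤ b * b ^ (α + 4) := Nat.mul_le_mul_left _ hn2
      _ = b ^ (α + 5) := by ring
  have hZc : 1 ≤ Z ^ c := Nat.one_le_pow _ _ (by omega)
  -- bound on the new parameter
  have hlog : Nat.log 2 (n + 1) ≤ k * (α + 4) := by
    have e1 : n + 1 ≤ 2 ^ (k * (α + 4)) := by
      rw [pow_mul, ← hb]
      exact le_trans (by omega) hn2
    calc Nat.log 2 (n + 1) ≤ Nat.log 2 (2 ^ (k * (α + 4))) := Nat.log_mono_right e1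
      _ = k * (α + 4) := Nat.log_pow (by norm_num) _
  have hK1 : T.K ≤ c * Z := by
    refine hK.trans (Nat.mul_le_mul_left _ ?_)
    have e1 : Nat.log 2 (n + 1) ≤ n + 1 := Nat.log_le_self _ _
    rw [hZ]
    calc k + Nat.log 2 (n + 1) + 1 ≤ b * 1 + 1 * (n + 1) := by omega
      _ ≤ b * 1 + b * (n + 1) := Nat.add_le_add_left (Nat.mul_le_mul_right _ (by omega)) _
      _ = b * (n + 2) := by ring
  have hK2 : T.K ≤ C2 * k := by
    refine hK.trans ?_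
    rw [hC2, mul_assoc]
    apply Nat.mul_le_mul_left
    calc k + Nat.log 2 (n + 1) + 1 ≤ k + k * (α + 4) + k := by omega
      _ = (α + 6) * k := by ring
  -- apply the heart
  have hdepth : ∀ i, (fam T φ i).depth ≤ D := by
    intro i
    rw [hD]
    exact fam_depth T φ (fun a => (hdom a).1) (fun R v => (hrel R v).1) (fun j => (hpar j).1) i
  obtain ⟨sz, hsz⟩ : ∃ sz, sz = (Z ^ c + 1) ^ φ.q * ((φ.q + φ.ψ.qs + 4) * Z ^ c) + Z ^ c :=
    ⟨_, rfl⟩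
  have hsize : ∀ i, (fam T φ i).size ≤ sz := by
    intro i
    rw [hsz]
    refine (fam_size T φ hZc (fun a => (hdom a).2) (fun R v => (hrel R v).2)
      (fun j => (hpar j).2) i).trans ?_
    exact Nat.add_le_add_right (Nat.mul_le_mul_right _
      (Nat.pow_le_pow_left (Nat.add_le_add_right hM 1) _)) _
  have hcardIdx := card_Idx T φ hM hK1
  have htotal : Fintype.card (Idx T φ) * sz ≤ ((2 ^ k) ^ (2 * sgr (d + 2) S * D + 5)) ^ E := by
    rw [← hsg, ← hα, ← hb]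
    calc Fintype.card (Idx T φ) * sz ≤ _ := Nat.mul_le_mul_right _ hcardIdx
      _ ≤ Z ^ E := by rw [hsz]; exact hE Z hZ2
      _ ≤ _ := Nat.pow_le_pow_left hZb E
  have hexp : (2 * sgr (d + 2) S * D + 5) * E + 1 ≤ sgr (d + 2) S * S := by
    rw [← hsg]
    have e1 : 5 ≤ 5 * sg := by omega
    calc (2 * sg * D + 5) * E + 1 ≤ (2 * sg * D + 5 * sg) * E + sg :=
          Nat.add_le_add (Nat.mul_le_mul_right _ (Nat.add_le_add_left e1 _)) hsg1
      _ = sg * ((2 * D + 5) * E + 1) := by ring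
      _ ≤ sg * S := Nat.mul_le_mul_left _ (by omega)
  have hnum := fail_lt_one (d := d) (k := k) (D := D) (S := S) (E := E)
    (m := Fintype.card (Idx T φ)) (sz := sz) hk8
    (by rw [← hsg, ← hα]; omega) (by rw [← hsg]; exact hkS) h4
    (by rw [← hsg, ← hα]; exact h5) hexp htotal
  rw [← hsg, ← hα, ← hb, ← hB] at hnum
  have hheart := heart φ hocc T eU hcorr hdepth sz hsize hd (by omega) hSd hnum
  exact final_contra hb (by omega) (by omega) hZ2 hZb hM hK2 hkw (by rw [hb]; exact h6) hheart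

end

end Pool.Agent.Helper265_EW
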