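import Pool.Agent.Helper265_EW.Base

/-! Weighted Fagin definability for `Π_t` formulas, all `t`, and constant-depth ept-reductions
between such problems. -/

namespace Pool.Agent.Helper265_EW

/-- The variables of a prefix with blocks `0, …, t - 1`, block `i` having `len i` variables. -/
def Vars (len : ℕ → ℕ) : ℕ → Type
  | 0 => Empty
  | t + 1 => Vars len t ⊕ Fin (len t)

/-- The quantifier of block `i`: universal if `i` is even, existential if `i` is odd. -/
def lev (i : ℕ) {α : Type} (F : α → Prop) : Prop := if i % 2 = 0 then ∀ a, F a else ∃ a, F a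

/-- Truth of `∀ x₀ ∃ x₁ ∀ x₂ … F` with `t` blocks of variables ranging over `U`, where block `i`
has `len i` variables; block `t - 1` is the innermost one. -/
def quant {U : Type} (len : ℕ → ℕ) : (t : ℕ) → ((Vars len t → U) → Prop) → Prop
  | 0, F => F Empty.elim
  | t + 1, F => quant len t (fun a => lev t (fun b : Fin (len t) → U => F (Sum.elim a b)))

/-- A `Π_t` formula in prenex form: `t` alternating blocks of quantifiers, the first one
universal, block `i` having `len i` variables, and a quantifier-free matrix `ψ` with one free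
relation variable `X` of arity `s`. -/
structure PiF (τ : Voc) (s t : ℕ) where
  len : ℕ → ℕ
  ψ : QF τ s (Vars len t)

namespace PiF

variable {τ : Voc} {s t : ℕ}

/-- The number of occurrences of `X`: the formula lies in `Π_{t/d}` iff this is at most `d`. -/
def occ (φ : PiF τ s t) : ℕ := φ.ψ.occ

/-- `A ⊨ φ(S)`. -/
def Holds {U : Type} (φ : PiF τ s t) (A : Str τ U) (S : Finset (Fin s → U)) : Prop :=
  quant φ.len t (fun a => φ.ψ.Holds A S a)

end PiF

/-- `(A, k)` is a yes-instance of the weighted Fagin-definable problem of `φ`: some set `S` of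
exactly `k` tuples of elements of `A` satisfies `A ⊨ φ(S)`. -/
def WDF {τ : Voc} {s t : ℕ} {U : Type} (φ : PiF τ s t) (A : Str τ U) (k : ℕ) : Prop :=
  ∃ S : Finset (Fin s → U), S.card = k ∧ φ.Holds A S

/-- The weighted Fagin-definable problem of `φ` reduces to that of `φ'` by an ept-reduction
computed by (nonuniform) constant-depth formulas: for a constant `c` and all `n ≥ 1` and `k ≥ 1`
there is a transformation within the bounds `Tr.Bounded` which, applied to any structure `A` with
universe `{0, …, n - 1}`, names exactly one new parameter `j` and maps yes-instances `(A, k)` to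
yes-instances and no-instances to no-instances. -/
def AC0EptRedF {τ τ' : Voc} {s s' t t' : ℕ} (φ : PiF τ s t) (φ' : PiF τ' s' t') : Prop :=
  ∃ c : ℕ, ∀ n k : ℕ, 1 ≤ n → 1 ≤ k → ∃ T : Tr τ τ' n, T.Bounded k c ∧
    ∀ A : Str τ (Fin n), ∃ j : Fin (T.K + 1),
      (∀ j', (T.par j').Holds (bits A) ↔ j' = j) ∧ (WDF φ A k ↔ WDF φ' (T.out A) j)

end Pool.Agent.Helper265_EW
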