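import Pool.Agent.Helper265_EW.GSrc
import Pool.Agent.Helper265_EW.Events

set_option linter.unusedSectionVars false

/-! The good events have positive probability. -/

namespace Pool.Agent.Helper265_EW.G

open Finset Classical Pool.Agent.H592R2

noncomputable section

variable {d k B D S b : ℕ} {G0 X : Type} [Fintype G0] [DecidableEq G0] [Fintype X] [DecidableEq X]
  [NeZero b] [NeZero B] [NeZero k]

/-- the failure bound -/
def failG (d k B D S b cG0 cX m sz : ℕ) : ℝ :=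
  ((k : ℝ) + 2 * k * (cG0 * cX)) * (1 - (1 / (b : ℝ) ^ (2 * sgr (d + 2) S)) ^ D) ^ B +
    (2 : ℝ) ^ k * ((k * (cG0 * cX) * B) * (B * (1 / (b : ℝ)) ^ k)) +
    ((B : ℝ) ^ k * (k * (cG0 * ((k : ℝ) ^ (d + 1)) ^ cX))) * (1 / (b : ℝ)) ^ cX +
    ((B : ℝ) ^ k * (k * (cG0 * cX) * B)) * (1 / (b : ℝ)) ^ (k ^ (d + 1)) +
    m * (sz * ((2 / (b : ℝ)) ^ sgr (d + 2) S) ^ S)

section general

variable {V : Type} [Fintype V] [DecidableEq V]

/-- sets of statuses with the required probability -/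
lemma status_bound {Ix : Type} [Fintype Ix]
    (f : Ix → Fin B → V) (hf : ∀ x, Function.Injective (f x))
    (Bs : Fin D → Finset (Ta b (d + 2) S))
    (hBs : ∀ i, 1 / (b : ℝ) ^ (2 * sgr (d + 2) S) ≤
      ((Bs i).card : ℝ) / Fintype.card (Ta b (d + 2) S)) :
    avg (fun ω : Cd D (d + 2) V → Ta b (d + 2) S =>
      ind (∃ x : Ix, ¬ ∃ c, ∀ j : Fin D, sts ω (j, f x c) ∈ Bs j)) ≤
        Fintype.card Ix * (1 - (1 / (b : ℝ) ^ (2 * sgr (d + 2) S)) ^ D) ^ B := by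
  apply avg_exists_le
  intro x
  have h1 := avg_no_status_le (D := D) (r := d + 2) Bs
    ((Finset.univ : Finset (Fin B)).image (f x)) (1 / (b : ℝ) ^ (2 * sgr (d + 2) S))
    (by positivity) hBs
  rw [Finset.card_image_of_injective _ (hf x), Finset.card_univ, Fintype.card_fin] at h1
  refine le_trans (avg_mono ?_) h1
  intro ω
  apply ind_mono
  intro h v hv hal
  obtain ⟨c, -, rfl⟩ := Finset.mem_image.mp hv
  exact h ⟨c, hal⟩

/-- coins for families of tuples -/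
lemma coin_bound {Ix Y : Type} [Fintype Ix] [Fintype Y] (hb : 2 ≤ b) (hS : d + 2 < S)
    (f : Ix → (Fin D × V → Ta b (d + 2) S) → Y → (Fin (d + 2) → V))
    (hf : ∀ x st, Function.Injective (f x st)) :
    avg (fun ω : Cd D (d + 2) V → Ta b (d + 2) S =>
      ind (∃ x : Ix, ∀ y, ω (Sum.inr (f x (sts ω) y)) ∈ Ms b (d + 2) S)) ≤
        Fintype.card Ix * (1 / (b : ℝ)) ^ Fintype.card Y := by
  apply avg_exists_le
  intro x
  have h1 := avg_coins (D := D) (r := d + 2) (V := V) (Ms b (d + 2) S)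
    (fun st => (Finset.univ : Finset Y).image (f x st)) (Fintype.card Y) ?_
  · rw [Ms_prob hb hS] at h1
    refine le_trans (avg_mono ?_) h1
    intro ω
    apply ind_mono
    intro h t ht
    obtain ⟨j, -, rfl⟩ := Finset.mem_image.mp ht
    exact h j
  · intro st
    rw [Finset.card_image_of_injective _ (hf x st), Finset.card_univ]

/-- coins for a sum of families of tuples -/
lemma coin_bound2 {I1 : Type} [Fintype I1] {Ix Y : I1 → Type} [∀ i, Fintype (Ix i)]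
    [∀ i, Fintype (Y i)] (hb : 2 ≤ b) (hS : d + 2 < S)
    (f : ∀ i, Ix i → (Fin D × V → Ta b (d + 2) S) → Y i → (Fin (d + 2) → V))
    (hf : ∀ i x st, Function.Injective (f i x st)) (c : ℝ)
    (hc : ∀ i, (Fintype.card (Ix i) : ℝ) * (1 / (b : ℝ)) ^ Fintype.card (Y i) ≤ c) :
    avg (fun ω : Cd D (d + 2) V → Ta b (d + 2) S =>
      ind (∃ i : I1, ∃ x : Ix i, ∀ y, ω (Sum.inr (f i x (sts ω) y)) ∈ Ms b (d + 2) S)) ≤
        Fintype.card I1 * c := by
  apply avg_exists_le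
  intro i
  exact (coin_bound hb hS (f i) (hf i)).trans (hc i)

lemma loc_bound {J Ix : Type} [Fintype Ix] (mjv : (Fin (d + 2) → V) → (Fin (d + 2) → Bool) → Bool)
    (F : Ix → Fm J) (enc : Tb (d + 2) V → J → Bool)
    (henc : ∀ l, ∃ K : Finset V, K.card ≤ d + 2 ∧ Loc K (fun z => enc z l = true))
    (hdepth : ∀ i, (F i).depth ≤ D) (sz : ℕ) (hsz : ∀ i, (F i).size ≤ sz)
    (hb : 2 ≤ b) (hS : d + 2 < S) :
    avg (fun ω : Cd D (d + 2) V → Ta b (d + 2) S =>
      ind (∃ i : Ix, ¬ LocAt (As b (d + 2) S) S D ω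
        (fun z => (F i).Holds (enc (rho (As b (d + 2) S) (Ms b (d + 2) S) mjv D ω z))))) ≤
      Fintype.card Ix * (sz * ((2 / (b : ℝ)) ^ sgr (d + 2) S) ^ S) := by
  apply avg_exists_le
  intro i
  have hP := P1r_inst (b := b) (r := d + 2) (S := S) hb (by omega) hS
  have h1 := fml_local (D := D) (V := V) hP mjv enc (fun l => by
    obtain ⟨K, hK, hl⟩ := henc l
    exact ⟨K, by omega, hl⟩) (F i) D le_rfl (hdepth i)
  refine h1.trans ?_
  apply mul_le_mul_of_nonneg_right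
  · exact_mod_cast hsz i
  · positivity

end general

lemma combine5 {Ω : Type} {_ : Fintype Ω} (hne : Nonempty Ω) {P1 P2 P3 P4 P5 : Ω → Prop}
    {c1 c2 c3 c4 c5 : ℝ} (h1 : avg (fun ω => ind (P1 ω)) ≤ c1)
    (h2 : avg (fun ω => ind (P2 ω)) ≤ c2) (h3 : avg (fun ω => ind (P3 ω)) ≤ c3)
    (h4 : avg (fun ω => ind (P4 ω)) ≤ c4) (h5 : avg (fun ω => ind (P5 ω)) ≤ c5)
    (hs : c1 + c2 + c3 + c4 + c5 < 1) :
    ∃ ω, ¬ P1 ω ∧ ¬ P2 ω ∧ ¬ P3 ω ∧ ¬ P4 ω ∧ ¬ P5 ω := by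
  have hall : avg (fun ω => ind ((((P1 ω ∨ P2 ω) ∨ P3 ω) ∨ P4 ω) ∨ P5 ω)) < 1 := by
    refine lt_of_le_of_lt ?_ hs
    have hpt : ∀ ω, ind ((((P1 ω ∨ P2 ω) ∨ P3 ω) ∨ P4 ω) ∨ P5 ω) ≤
        (((ind (P1 ω) + ind (P2 ω)) + ind (P3 ω)) + ind (P4 ω)) + ind (P5 ω) := by
      intro ω
      exact ((ind_or_le _ _).trans (add_le_add_left
        ((ind_or_le _ _).trans (add_le_add_left ((ind_or_le _ _).trans (add_le_add_left
          (ind_or_le _ _) _)) _)) _))
    refine (avg_mono hpt).trans ?_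
    rw [avg_add, avg_add, avg_add, avg_add]
    linarith
  obtain ⟨ω, hω⟩ := exists_not_of_avg_lt hall
  push Not at hω
  obtain ⟨⟨⟨⟨a1, a2⟩, a3⟩, a4⟩, a5⟩ := hω
  exact ⟨ω, a1, a2, a3, a4, a5⟩

lemma combine6 {Ω : Type} {_ : Fintype Ω} (hne : Nonempty Ω) {P1 P2 P3 P4 P5 P6 : Ω → Prop}
    {c1 c2 c3 c4 c5 c6 : ℝ} (h1 : avg (fun ω => ind (P1 ω)) ≤ c1)
    (h2 : avg (fun ω => ind (P2 ω)) ≤ c2) (h3 : avg (fun ω => ind (P3 ω)) ≤ c3)
    (h4 : avg (fun ω => ind (P4 ω)) ≤ c4) (h5 : avg (fun ω => ind (P5 ω)) ≤ c5)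
    (h6 : avg (fun ω => ind (P6 ω)) ≤ c6)
    (hs : c1 + c2 + c3 + c4 + c5 + c6 < 1) :
    ∃ ω, ¬ P1 ω ∧ ¬ P2 ω ∧ ¬ P3 ω ∧ ¬ P4 ω ∧ ¬ P5 ω ∧ ¬ P6 ω := by
  have h12 : avg (fun ω => ind (P1 ω ∨ P2 ω)) ≤ c1 + c2 := by
    refine (avg_mono fun ω => ind_or_le _ _).trans ?_
    rw [avg_add]
    exact add_le_add h1 h2
  obtain ⟨ω, a1, a2, a3, a4, a5⟩ := combine5 hne h12 h3 h4 h5 h6 (by linarith)
  push Not at a1
  exact ⟨ω, a1.1, a1.2, a2, a3, a4, a5⟩

lemma tup4_c_inj {G : Type} (u : Fin k → Fin B) (x : Fin k × G × Fin B) :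
    Function.Injective (fun c : Fin (d + 1) → Fin k => (tup4 u x c : Fin (d + 2) → Vt k G B)) := by
  intro c c' h
  funext l
  have h1 : (tup4 u x c : Fin (d + 2) → Vt k G B) l.succ = (tup4 u x c') l.succ := congrFun h l.succ
  simp only [tup4, Fin.cons_succ, Sum.inr.injEq, Prod.mk.injEq] at h1
  exact h1.1

lemma cc_inj (hd : 1 ≤ d) {i i' j j' : Fin k}
    (h : (cc i j : Fin (d + 1) → Fin k) = cc i' j') : i = i' ∧ j = j' := by
  have h0 := congrFun h 0
  have h1 := congrFun h ⟨1, by omega⟩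
  have hne : (⟨1, by omega⟩ : Fin (d + 1)) ≠ 0 := by
    intro h3
    have := congrArg Fin.val h3
    simp at this
  simp only [cc, if_true] at h0
  simp only [cc, if_neg hne] at h1
  exact ⟨h0, h1⟩

lemma As_half (hb : 2 ≤ b) (hS : d + 2 < S) (i : Fin D) :
    1 / (b : ℝ) ^ (2 * sgr (d + 2) S) ≤
      ((lastB (As b (d + 2) S) i).card : ℝ) / Fintype.card (Ta b (d + 2) S) := by
  have hb0 : (0 : ℝ) < b := by exact_mod_cast (by omega : 0 < b)
  have hb1 : (2 : ℝ) ≤ b := by exact_mod_cast hb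
  have hAp : ((As b (d + 2) S).card : ℝ) / Fintype.card (Ta b (d + 2) S) =
    1 / (b : ℝ) ^ (2 * sgr (d + 2) S) := As_prob
  have hahalf : 1 / (b : ℝ) ^ (2 * sgr (d + 2) S) ≤ 1 / 2 := by
    apply one_div_le_one_div_of_le (by norm_num)
    calc (2 : ℝ) ≤ b := hb1
      _ = (b : ℝ) ^ 1 := (pow_one _).symm
      _ ≤ (b : ℝ) ^ (2 * sgr (d + 2) S) :=
        pow_le_pow_right₀ (by linarith) (by have := sgr_pos hS; omega)
  unfold lastB
  split_ifs
  · rw [compl_prob, hAp]; linarith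
  · exact hAp.ge

lemma one_sub_nonneg (hb : 2 ≤ b) :
    0 ≤ 1 - (1 / (b : ℝ) ^ (2 * sgr (d + 2) S)) ^ D := by
  have hb1 : (1 : ℝ) ≤ b := by exact_mod_cast (by omega : 1 ≤ b)
  have : (1 / (b : ℝ) ^ (2 * sgr (d + 2) S)) ^ D ≤ 1 := by
    apply pow_le_one₀ (by positivity)
    rw [div_le_one (by positivity)]
    exact one_le_pow₀ hb1
  linarith

theorem good_E {J Ix : Type} [Fintype Ix] (F : Ix → Fm J)
    (enc : Tb (d + 2) (Vt k (G0 × X) B) → J → Bool)
    (henc : ∀ l, ∃ K : Finset (Vt k (G0 × X) B), K.card ≤ d + 2 ∧ Loc K (fun z => enc z l = true))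
    (hdepth : ∀ i, (F i).depth ≤ D) (sz : ℕ) (hsz : ∀ i, (F i).size ≤ sz)
    (hd : 1 ≤ d) (hb : 2 ≤ b) (hS : d + 2 < S)
    (hnum : failG d k B D S b (Fintype.card G0) (Fintype.card X) (Fintype.card Ix) sz < 1) :
    ∃ ω : Cd D (d + 2) (Vt k (G0 × X) B) → Ta b (d + 2) S,
      GoodE (As b (d + 2) S) (Ms b (d + 2) S) ω ∧
      ∀ i, LocAt (As b (d + 2) S) S D ω
        (fun z => (F i).Holds (enc (rho (As b (d + 2) S) (Ms b (d + 2) S) (mj true) D ω z))) := by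
  have hAp : ((As b (d + 2) S).card : ℝ) / Fintype.card (Ta b (d + 2) S) =
    1 / (b : ℝ) ^ (2 * sgr (d + 2) S) := As_prob
  have hp0 : 0 ≤ (1 - (1 / (b : ℝ) ^ (2 * sgr (d + 2) S)) ^ D) ^ B :=
    pow_nonneg (one_sub_nonneg hb) _
  have hk1 : (1 : ℝ) ≤ k := by exact_mod_cast Nat.one_le_iff_ne_zero.mpr (NeZero.ne k)
  have hB1 : (1 : ℝ) ≤ B := by exact_mod_cast Nat.one_le_iff_ne_zero.mpr (NeZero.ne B)
  -- the events
  have e1 := status_bound (D := D) (b := b) (d := d) (S := S) (B := B) (V := Vt k (G0 × X) B)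
    (fun (i : Fin k) c => (Sum.inr (i, c) : Vt k (G0 × X) B))
    (fun i c c' h => by simpa using h) (fun _ => As b (d + 2) S) (fun _ => hAp.ge)
  have e2 := status_bound (D := D) (b := b) (d := d) (S := S) (B := B) (V := Vt k (G0 × X) B)
    (fun (g : G0 × X) c => (Sum.inl (0, g, c) : Vt k (G0 × X) B))
    (fun i c c' h => by simpa using h) (fun _ => As b (d + 2) S) (fun _ => hAp.ge)
  have e5 := status_bound (D := D) (b := b) (d := d) (S := S) (B := B) (V := Vt k (G0 × X) B)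
    (fun (x : Fin k × (G0 × X)) c => (Sum.inl (x.1, x.2, c) : Vt k (G0 × X) B))
    (fun i c c' h => by simpa using h) (fun j => lastB (As b (d + 2) S) j)
    (fun j => As_half hb hS j)
  have e3 := coin_bound (D := D) (b := b) (d := d) (S := S) (V := Vt k (G0 × X) B)
    hb hS (fun (x : Fin k × (G0 × X) × Fin B) st (j : Fin k) =>
      tup4 (pv (As b (d + 2) S) st) x (cc x.1 j))
    (fun x st j j' h => (cc_inj hd (tup4_c_inj _ _ h)).2)
  have e4 := coin_bound (D := D) (b := b) (d := d) (S := S) (V := Vt k (G0 × X) B)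
    hb hS (fun (y : (Fin k → Fin B) × Fin k × G0 × (X → (Fin (d + 1) → Fin k))) st (x : X) =>
      tup4 y.1 (y.2.1, (y.2.2.1, x), lr (As b (d + 2) S) st y.2.1 (y.2.2.1, x)) (y.2.2.2 x))
    (fun y st x x' h => by
      have h2 := congrFun h 0
      simp only [tup4, Fin.cons_zero, Sum.inl.injEq, Prod.mk.injEq] at h2
      exact h2.2.1.2)
  have e6 := loc_bound (D := D) (b := b) (d := d) (S := S) (V := Vt k (G0 × X) B)
    (mj true) F enc henc hdepth sz hsz hb hS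
  obtain ⟨ω, a1, a2, a3, a4, a5, a6⟩ := combine6 ⟨fun _ => 0⟩ e1 e2 e5 e3 e4 e6 (by
    simp only [Fintype.card_prod, Fintype.card_fun, Fintype.card_fin]
    push_cast
    refine lt_of_le_of_lt ?_ hnum
    unfold failG
    have hG : (0 : ℝ) ≤ (Fintype.card G0 : ℝ) * Fintype.card X := by positivity
    have t1 : (k : ℝ) * (1 - (1 / (b : ℝ) ^ (2 * sgr (d + 2) S)) ^ D) ^ B +
        (Fintype.card G0 * Fintype.card X) *
          (1 - (1 / (b : ℝ) ^ (2 * sgr (d + 2) S)) ^ D) ^ B +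
        (k * (Fintype.card G0 * Fintype.card X)) *
          (1 - (1 / (b : ℝ) ^ (2 * sgr (d + 2) S)) ^ D) ^ B ≤
        ((k : ℝ) + 2 * k * (Fintype.card G0 * Fintype.card X)) *
          (1 - (1 / (b : ℝ) ^ (2 * sgr (d + 2) S)) ^ D) ^ B := by
      rw [← add_mul, ← add_mul]
      apply mul_le_mul_of_nonneg_right _ hp0
      nlinarith
    have t3 : (k * (Fintype.card G0 * Fintype.card X * B)) * (1 / (b : ℝ)) ^ k ≤
        (2 : ℝ) ^ k * ((k * (Fintype.card G0 * Fintype.card X) * B) *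
          (B * (1 / (b : ℝ)) ^ k)) := by
      have h2 : (1 : ℝ) ≤ 2 ^ k := one_le_pow₀ (by norm_num)
      have h3 : (0 : ℝ) ≤ (k * (Fintype.card G0 * Fintype.card X * B)) * (1 / (b : ℝ)) ^ k := by
        positivity
      calc (k * (Fintype.card G0 * Fintype.card X * B)) * (1 / (b : ℝ)) ^ k
          = 1 * (1 * ((k * (Fintype.card G0 * Fintype.card X * B)) * (1 / (b : ℝ)) ^ k)) := by ring
        _ ≤ 2 ^ k * (B * ((k * (Fintype.card G0 * Fintype.card X * B)) * (1 / (b : ℝ)) ^ k)) := by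
            apply mul_le_mul h2 _ (by positivity) (by positivity)
            exact mul_le_mul_of_nonneg_right hB1 h3
        _ = _ := by ring
    have t5 : (0 : ℝ) ≤ ((B : ℝ) ^ k * (k * (Fintype.card G0 * Fintype.card X) * B)) *
        (1 / (b : ℝ)) ^ (k ^ (d + 1)) := by positivity
    linarith)
  push Not at a1 a2 a3 a4 a5 a6
  refine ⟨ω, ⟨a1, a2, fun i g => a3 (i, g), ?_, ?_⟩, a6⟩
  · intro x
    obtain ⟨j, hj⟩ := a4 x
    exact ⟨j, hj⟩
  · intro u i g
    by_contra hcon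
    push Not at hcon
    choose f hf using hcon
    obtain ⟨x, hx⟩ := a5 (u, i, g, f)
    exact hx (hf x)

theorem good_O {J Ix : Type} [Fintype Ix] (F : Ix → Fm J)
    (enc : Tb (d + 2) (Vt k (G0 × X) B) → J → Bool)
    (henc : ∀ l, ∃ K : Finset (Vt k (G0 × X) B), K.card ≤ d + 2 ∧ Loc K (fun z => enc z l = true))
    (hdepth : ∀ i, (F i).depth ≤ D) (sz : ℕ) (hsz : ∀ i, (F i).size ≤ sz)
    (hd : 1 ≤ d) (hb : 2 ≤ b) (hS : d + 2 < S) (hBb : B ≤ b ^ k)
    (hnum : failG d k B D S b (Fintype.card G0) (Fintype.card X) (Fintype.card Ix) sz < 1) :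
    ∃ ω : Cd D (d + 2) (Vt k (G0 × X) B) → Ta b (d + 2) S,
      GoodO (As b (d + 2) S) (Ms b (d + 2) S) ω ∧
      ∀ i, LocAt (As b (d + 2) S) S D ω
        (fun z => (F i).Holds (enc (rho (As b (d + 2) S) (Ms b (d + 2) S) (mj false) D ω z))) := by
  have hAp : ((As b (d + 2) S).card : ℝ) / Fintype.card (Ta b (d + 2) S) =
    1 / (b : ℝ) ^ (2 * sgr (d + 2) S) := As_prob
  have hp0 : 0 ≤ (1 - (1 / (b : ℝ) ^ (2 * sgr (d + 2) S)) ^ D) ^ B :=
    pow_nonneg (one_sub_nonneg hb) _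
  have hb0 : (0 : ℝ) < b := by exact_mod_cast (by omega : 0 < b)
  have hk1 : (1 : ℝ) ≤ k := by exact_mod_cast Nat.one_le_iff_ne_zero.mpr (NeZero.ne k)
  have hB1 : (1 : ℝ) ≤ B := by exact_mod_cast Nat.one_le_iff_ne_zero.mpr (NeZero.ne B)
  -- the events
  have e1 := status_bound (D := D) (b := b) (d := d) (S := S) (B := B) (V := Vt k (G0 × X) B)
    (fun (i : Fin k) c => (Sum.inr (i, c) : Vt k (G0 × X) B))
    (fun i c c' h => by simpa using h) (fun _ => As b (d + 2) S) (fun _ => hAp.ge)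
  have e2 := status_bound (D := D) (b := b) (d := d) (S := S) (B := B) (V := Vt k (G0 × X) B)
    (fun (g : G0 × X) c => (Sum.inl (0, g, c) : Vt k (G0 × X) B))
    (fun i c c' h => by simpa using h) (fun _ => As b (d + 2) S) (fun _ => hAp.ge)
  have e3 := coin_bound (D := D) (b := b) (d := d) (S := S) (V := Vt k (G0 × X) B)
    hb hS (fun (y : (Fin k → Fin B) × (Fin k × (G0 × X) × Fin B)) st
      (c : Fin (d + 1) → Fin k) => tup4 y.1 y.2 c)
    (fun x st j j' h => tup4_c_inj _ _ h)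
  have e4 := coin_bound2 (D := D) (b := b) (d := d) (S := S) (V := Vt k (G0 × X) B)
    (I1 := {Dd : Finset (Fin k) // Dd.Nonempty})
    (Ix := fun Dd => (Dd.1 → Fin B) × (Fin k × (G0 × X) × Fin B)) (Y := fun Dd => Dd.1 × Fin k)
    hb hS (fun Dd y st e =>
      tup4 (mixu Dd.1 (fun i => if h : i ∈ Dd.1 then y.1 ⟨i, h⟩ else 0)
        (pv (As b (d + 2) S) st)) y.2 (cc e.1.1 e.2))
    (fun Dd y st e e' h => by
      have h2 := cc_inj hd (tup4_c_inj _ _ h)
      exact Prod.ext (Subtype.ext h2.1) h2.2)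
    ((k * (Fintype.card G0 * Fintype.card X) * B) * (B * (1 / (b : ℝ)) ^ k)) (fun Dd => by
      have h2 : Fintype.card (Dd.1 → Fin B) = B ^ Dd.1.card := by
        rw [Fintype.card_fun, Fintype.card_fin, Fintype.card_coe]
      have h3 : Fintype.card (Dd.1 × Fin k) = Dd.1.card * k := by
        rw [Fintype.card_prod, Fintype.card_coe, Fintype.card_fin]
      rw [h3, Fintype.card_prod, h2, Fintype.card_prod, Fintype.card_prod, Fintype.card_prod,
        Fintype.card_fin, Fintype.card_fin]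
      push_cast
      have h4 : ((B : ℝ) * (1 / (b : ℝ)) ^ k) ≤ 1 := by
        have : (B : ℝ) ≤ (b : ℝ) ^ k := by exact_mod_cast hBb
        rw [one_div, inv_pow, ← div_eq_mul_inv, div_le_one (by positivity)]
        exact this
      have h5 : ((B : ℝ) * (1 / (b : ℝ)) ^ k) ^ Dd.1.card ≤ (B : ℝ) * (1 / (b : ℝ)) ^ k := by
        apply pow_le_of_le_one (by positivity) h4
        exact (Finset.card_pos.mpr Dd.2).ne'
      calc (B : ℝ) ^ Dd.1.card * (k * (Fintype.card G0 * Fintype.card X * B)) *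
            (1 / (b : ℝ)) ^ (Dd.1.card * k)
          = (k * (Fintype.card G0 * Fintype.card X) * B) *
            ((B : ℝ) * (1 / (b : ℝ)) ^ k) ^ Dd.1.card := by
            rw [mul_pow, ← pow_mul, mul_comm k Dd.1.card]; ring
        _ ≤ _ := mul_le_mul_of_nonneg_left h5 (by positivity))
  have e6 := loc_bound (D := D) (b := b) (d := d) (S := S) (V := Vt k (G0 × X) B)
    (mj false) F enc henc hdepth sz hsz hb hS
  obtain ⟨ω, a1, a2, a3, a4, a5⟩ := combine5 ⟨fun _ => 0⟩ e1 e2 e3 e4 e6 (by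
    simp only [Fintype.card_prod, Fintype.card_fun, Fintype.card_fin]
    push_cast
    refine lt_of_le_of_lt ?_ hnum
    unfold failG
    have hG : (0 : ℝ) ≤ (Fintype.card G0 : ℝ) * Fintype.card X := by positivity
    have t1 : (k : ℝ) * (1 - (1 / (b : ℝ) ^ (2 * sgr (d + 2) S)) ^ D) ^ B +
        (Fintype.card G0 * Fintype.card X) *
          (1 - (1 / (b : ℝ) ^ (2 * sgr (d + 2) S)) ^ D) ^ B ≤
        ((k : ℝ) + 2 * k * (Fintype.card G0 * Fintype.card X)) *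
          (1 - (1 / (b : ℝ) ^ (2 * sgr (d + 2) S)) ^ D) ^ B := by
      rw [← add_mul]
      apply mul_le_mul_of_nonneg_right _ hp0
      nlinarith
    have t3 : (B : ℝ) ^ k * (k * (Fintype.card G0 * Fintype.card X * B)) *
        (1 / (b : ℝ)) ^ (k ^ (d + 1)) ≤
        ((B : ℝ) ^ k * (k * (Fintype.card G0 * Fintype.card X) * B)) *
          (1 / (b : ℝ)) ^ (k ^ (d + 1)) := by
      apply le_of_eq; ring
    have t4 : (Fintype.card {Dd : Finset (Fin k) // Dd.Nonempty} : ℝ) *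
        ((k * (Fintype.card G0 * Fintype.card X) * B) * (B * (1 / (b : ℝ)) ^ k)) ≤
        (2 : ℝ) ^ k * ((k * (Fintype.card G0 * Fintype.card X) * B) *
          (B * (1 / (b : ℝ)) ^ k)) := by
      apply mul_le_mul_of_nonneg_right _ (by positivity)
      have h1 : Fintype.card {Dd : Finset (Fin k) // Dd.Nonempty} ≤ 2 ^ k := by
        calc _ ≤ Fintype.card (Finset (Fin k)) := Fintype.card_subtype_le _
          _ = 2 ^ k := by rw [Fintype.card_finset, Fintype.card_fin]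
      exact_mod_cast h1
    have t5 : (0 : ℝ) ≤ ((B : ℝ) ^ k * (k * (Fintype.card G0 *
        ((k : ℝ) ^ (d + 1)) ^ Fintype.card X))) * (1 / (b : ℝ)) ^ Fintype.card X := by positivity
    linarith)
  push Not at a1 a2 a3 a4 a5
  refine ⟨ω, ⟨a1, a2, ?_, ?_⟩, a5⟩
  · intro u x
    obtain ⟨j, hj⟩ := a3 (u, x)
    exact ⟨j, hj⟩
  · intro Dd u x hDd
    obtain ⟨⟨i, j⟩, hj⟩ := a4 ⟨Dd, hDd⟩ (fun i => u i.1, x)
    refine ⟨i.1, i.2, j, ?_⟩
    have hmix : mixu Dd u (pv (As b (d + 2) S) (sts ω)) = mixu Dd (fun i => if h : i ∈ Dd then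
        (fun i : Dd => u i.1) ⟨i, h⟩ else 0) (pv (As b (d + 2) S) (sts ω)) := by
      funext l
      simp only [mixu]
      split_ifs <;> rfl
    rw [hmix]
    exact hj

end

end Pool.Agent.Helper265_EW.G
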