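import Pool.Agent.Helper265_EW.GSrcF
import Pool.Agent.Helper265_EW.Tgt

set_option linter.unusedSectionVars false

/-! The target side for all numbers of quantifier blocks. -/

namespace Pool.Agent.Helper265_EW.G

open Finset Classical

noncomputable section

noncomputable instance instFtVars (len : ℕ → ℕ) : (n : ℕ) → Fintype (Vars len n)
  | 0 => inferInstanceAs (Fintype Empty)
  | n + 1 => by
      haveI := instFtVars len n
      exact inferInstanceAs (Fintype (Vars len n ⊕ Fin (len n)))

noncomputable instance instDecVars (len : ℕ → ℕ) (n : ℕ) : DecidableEq (Vars len n) :=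
  Classical.decEq _

section fam

variable {τ τ' : Voc} {s n : ℕ} (T : Tr τ τ' n) {V0 : Type} [Fintype V0] [DecidableEq V0] {q : ℕ}
  (ψ : QF τ' s (V0 ⊕ Fin q))

/-- indices of the family of formulas -/
abbrev IdxG (V0 : Type) (q : ℕ) : Type := Fin T.M ⊕ Fin (T.K + 1) ⊕
  ((V0 → Fin T.M) × ((Fin s → V0 ⊕ Fin q) → Cell (T.M ^ s)))

/-- the cells contain the tuples -/
def inCG (cell : (Fin s → V0 ⊕ Fin q) → Cell (T.M ^ s))
    (v : V0 ⊕ Fin q → Fin T.M) : Prop :=
  ∀ w ∈ ψ.atoms, (cell w).1.val ≤ code (fun i => v (w i)) ∧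
    code (fun i => v (w i)) < (cell w).2.1.val

/-- there is a `y` in the universe with the given cells satisfying the matrix -/
def bigBG (x : V0 → Fin T.M) (cell : (Fin s → V0 ⊕ Fin q) → Cell (T.M ^ s)) :
    Fm (Bit τ n) :=
  Fm.orF (fun y : Fin q → Fin T.M =>
    Fm.and2 (Fm.andF (fun i : Fin q => T.dom (y i)))
      (Fm.and2 (Fm.bc (decide (inCG T ψ cell (Sum.elim x y))))
        (conv T (fun w => (cell w).2.2) (Sum.elim x y) ψ)))

/-- the family -/
def famG : IdxG (s := s) T V0 q → Fm (Bit τ n)
  | Sum.inl a => T.dom a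
  | Sum.inr (Sum.inl j) => T.par j
  | Sum.inr (Sum.inr e) => bigBG T ψ e.1 e.2

lemma famG_depth {c : ℕ} (h1 : ∀ a, (T.dom a).depth ≤ c) (h2 : ∀ R v, (T.rel R v).depth ≤ c)
    (h3 : ∀ j, (T.par j).depth ≤ c) (i : IdxG (s := s) T V0 q) :
    (famG T ψ i).depth ≤ c + ψ.qs + 4 := by
  rcases i with a | j | e
  · exact (h1 a).trans (by omega)
  · exact (h3 j).trans (by omega)
  · simp only [famG, bigBG]
    refine (Fm.depth_orF _ (c + ψ.qs + 3) ?_).trans (by omega)
    intro y
    refine (Fm.depth_and2 _ _ (c + ψ.qs + 2) ?_ ?_)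
    · exact (Fm.depth_andF _ c (fun i => h1 _)).trans (by omega)
    · refine (Fm.depth_and2 _ _ (c + ψ.qs + 1) ?_ ?_)
      · exact (Fm.depth_bc _).trans (by omega)
      · exact (conv_depth T _ _ c h2 _).trans (by omega)

lemma famG_size {σ0 : ℕ} (hσ : 1 ≤ σ0) (h1 : ∀ a, (T.dom a).size ≤ σ0)
    (h2 : ∀ R v, (T.rel R v).size ≤ σ0) (h3 : ∀ j, (T.par j).size ≤ σ0)
    (i : IdxG (s := s) T V0 q) :
    (famG T ψ i).size ≤ (T.M + 1) ^ q * ((q + ψ.qs + 4) * σ0) + σ0 := by
  rcases i with a | j | e
  · exact (h1 a).trans (by omega)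
  · exact (h3 j).trans (by omega)
  · simp only [famG, bigBG]
    refine (Fm.size_orF _ ((q + ψ.qs + 4) * σ0) ?_).trans ?_
    · intro y
      rw [Fm.size_and2, Fm.size_and2]
      have e1 := Fm.size_andF (fun i : Fin q => T.dom (y i)) σ0 (fun i => h1 _)
      rw [Fintype.card_fin] at e1
      have e2 := conv_size T (fun w => (e.2 w).2.2) (Sum.elim e.1 y) σ0 hσ h2 ψ
      have e3 : ((Fm.bc (decide (inCG T ψ e.2 (Sum.elim e.1 y)))) : Fm (Bit τ n)).size ≤ 1 :=
        Fm.size_bc _
      calc _ ≤ q * σ0 + 1 + (1 + ψ.qs * σ0 + 1) + 1 := by omega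
        _ ≤ q * σ0 + σ0 + (σ0 + ψ.qs * σ0 + σ0) + σ0 := by omega
        _ = _ := by ring
    · rw [Fintype.card_fun, Fintype.card_fin, Fintype.card_fin]
      have h4 : T.M ^ q ≤ (T.M + 1) ^ q := Nat.pow_le_pow_left (by omega) _
      exact Nat.add_le_add (Nat.mul_le_mul_right _ h4) hσ

/-- choices of cells for the atoms -/
def cfamG (σ : Guess (s := s) T) : Finset ((Fin s → V0 ⊕ Fin q) → Cell (T.M ^ s)) :=
  Fintype.piFinset (fun w => if w ∈ ψ.atoms then cells (T.M ^ s) (gcodes T σ) else
    {((0 : Fin (T.M ^ s + 1)), (0 : Fin (T.M ^ s + 1)), false)})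

lemma card_cfamG (σ : Guess (s := s) T) {d : ℕ} (hd : ψ.occ ≤ d) :
    (cfamG T ψ σ).card ≤ (2 * T.K + 1) ^ d := by
  unfold cfamG
  rw [Fintype.card_piFinset]
  have h1 : ∀ w, (if w ∈ ψ.atoms then cells (T.M ^ s) (gcodes T σ) else
    {((0 : Fin (T.M ^ s + 1)), (0 : Fin (T.M ^ s + 1)), false)}).card ≤
      (if w ∈ ψ.atoms then 2 * T.K + 1 else 1) := by
    intro w
    split_ifs
    · refine (card_cells _ _).trans ?_
      have h2 : (gcodes T σ).card ≤ T.K := Finset.card_image_le.trans (card_gset T σ)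
      omega
    · simp
  refine (Finset.prod_le_prod' fun w _ => h1 w).trans ?_
  rw [Finset.prod_ite, Finset.prod_const, Finset.prod_const_one, mul_one]
  have h3 : (Finset.univ.filter (fun w => w ∈ ψ.atoms)) = ψ.atoms := by
    ext w; simp
  rw [h3]
  exact Nat.pow_le_pow_right (by omega) ((QF.card_atoms ψ).trans hd)

/-- matrix truth through cells -/
lemma bigBG_iff (A : Str τ (Fin n)) (σ : Guess (s := s) T) (x : V0 → Fin T.M) :
    (∃ cell ∈ cfamG T ψ σ, (bigBG T ψ x cell).Holds (bits A)) ↔
      ∃ y : Fin q → Fin T.M, (∀ i, (T.dom (y i)).Holds (bits A)) ∧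
        ψ.Holds (outM T A) (gset T σ) (Sum.elim x y) := by
  constructor
  · rintro ⟨cell, hcell, hB⟩
    simp only [bigBG, Fm.holds_orF, Fm.holds_and2, Fm.holds_andF, Fm.holds_bc] at hB
    obtain ⟨y, hy, hin, hconv⟩ := hB
    refine ⟨y, hy, ?_⟩
    have hin' := of_decide_eq_true hin
    rw [conv_holds T _ _ A (gset T σ)] at hconv
    · exact hconv
    · intro w hw
      have hc := Fintype.mem_piFinset.mp hcell w
      rw [if_pos hw] at hc
      have := cells_flag (gcodes_lt T σ) hc (hin' w hw).1 (hin' w hw).2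
      rw [this, mem_gcodes]
  · rintro ⟨y, hy, hψ⟩
    have hcov : ∀ w : Fin s → V0 ⊕ Fin q, ∃ e ∈ cells (T.M ^ s) (gcodes T σ),
        e.1.val ≤ code (fun i => Sum.elim x y (w i)) ∧
        code (fun i => Sum.elim x y (w i)) < e.2.1.val := fun w =>
      cells_cover (gcodes_lt T σ) (code_lt _)
    choose ce hce1 hce2 using hcov
    let cell : (Fin s → V0 ⊕ Fin q) → Cell (T.M ^ s) := fun w =>
      if w ∈ ψ.atoms then ce w else ((0 : Fin (T.M ^ s + 1)), (0 : Fin (T.M ^ s + 1)), false)
    refine ⟨cell, ?_, ?_⟩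
    · rw [cfamG, Fintype.mem_piFinset]
      intro w
      by_cases hw : w ∈ ψ.atoms
      · simp only [cell, if_pos hw]; exact hce1 w
      · simp only [cell, if_neg hw, Finset.mem_singleton]
    · simp only [bigBG, Fm.holds_orF, Fm.holds_and2, Fm.holds_andF, Fm.holds_bc]
      refine ⟨y, hy, ?_, ?_⟩
      · apply decide_eq_true
        intro w hw
        simp only [cell, if_pos hw]
        exact hce2 w
      · rw [conv_holds T _ _ A (gset T σ)]
        · exact hψ
        · intro w hw
          simp only [cell, if_pos hw]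
          have := cells_flag (gcodes_lt T σ) (hce1 w) (hce2 w).1 (hce2 w).2
          rw [this, mem_gcodes]

end fam

/-- the neutral value of the first invalid component -/
def scan {A : ℕ → Type} (ok : ∀ i, A i → Prop) : (n : ℕ) → Tup A n → Option Bool
  | 0, _ => none
  | n + 1, v => match scan ok n v.1 with
    | some c => some c
    | none => if ok n v.2 then none else some (decide (n % 2 = 0))

lemma scan_stt {A X : ℕ → Type} (π : ∀ i, A i → Option (X i)) (ok : ∀ i, A i → Prop)
    (h : ∀ i a, ok i a ↔ ∃ x, π i a = some x) (n : ℕ) (v : Tup A n) :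
    (∀ x, stt π n v = Sum.inl x → scan ok n v = none) ∧
      (∀ c, stt π n v = Sum.inr c → scan ok n v = some c) := by
  induction n with
  | zero =>
    exact ⟨fun _ _ => rfl, fun c hc => absurd hc (by simp [stt])⟩
  | succ n ih =>
    obtain ⟨ih1, ih2⟩ := ih v.1
    constructor
    · intro x hx
      simp only [stt] at hx
      cases h1 : stt π n v.1 with
      | inr b => rw [h1] at hx; exact absurd hx (by simp)
      | inl y =>
        rw [h1] at hx
        simp only at hx
        cases h2 : π n v.2 with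
        | none => rw [h2] at hx; exact absurd hx (by simp)
        | some z =>
          simp only [scan, ih1 y h1]
          rw [if_pos ((h n v.2).mpr ⟨z, h2⟩)]
    · intro c hc
      simp only [stt] at hc
      cases h1 : stt π n v.1 with
      | inr b =>
        rw [h1] at hc
        simp only [Sum.inr.injEq] at hc
        simp only [scan, ih2 b h1, hc]
      | inl y =>
        rw [h1] at hc
        simp only at hc
        cases h2 : π n v.2 with
        | none =>
          rw [h2] at hc
          simp only [Sum.inr.injEq] at hc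
          simp only [scan, ih1 y h1]
          rw [if_neg]
          · rw [hc]
          · intro h3
            obtain ⟨x, hx⟩ := (h n v.2).mp h3
            rw [h2] at hx
            exact absurd hx (by simp)
        | some z => rw [h2] at hc; exact absurd hc (by simp)

/-- lifting into a subtype -/
def liftS {M : ℕ} {D : Fin M → Prop} {l : ℕ} (a : Fin l → Fin M) :
    Option (Fin l → {x // D x}) :=
  if h : ∀ i, D (a i) then some (fun i => ⟨a i, h i⟩) else none

lemma asg_lift {M : ℕ} {D : Fin M → Prop} (len : ℕ → ℕ) (n : ℕ)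
    (v : Tup (fun i => Fin (len i) → Fin M) n) (x : Tup (fun i => Fin (len i) → {x // D x}) n)
    (h : stt (fun _ a => liftS a) n v = Sum.inl x) :
    ∀ a : Vars len n, (asg len n x a).1 = asg len n v a := by
  induction n with
  | zero => intro a; exact a.elim
  | succ n ih =>
    simp only [stt] at h
    cases h1 : stt (X := fun i => Fin (len i) → {x // D x}) (fun _ a => liftS a) n v.1 with
    | inr b => rw [h1] at h; exact absurd h (by simp)
    | inl y =>
      rw [h1] at h
      simp only at h
      cases h2 : (liftS v.2 : Option (Fin (len n) → {x // D x})) with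
      | none => rw [h2] at h; exact absurd h (by simp)
      | some z =>
        rw [h2] at h
        simp only [Sum.inl.injEq] at h
        have h3 : ∀ i, (z i).1 = v.2 i := by
          intro i
          unfold liftS at h2
          split_ifs at h2 with h4
          have := Option.some_injective _ h2
          rw [← this]
        intro a
        rw [← h]
        rcases a with a | i
        · exact ih v.1 y h1 a
        · exact h3 i

lemma liftS_surj {M : ℕ} {D : Fin M → Prop} {l : ℕ} (x : Fin l → {x // D x}) :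
    (liftS (fun i => (x i).1) : Option (Fin l → {x // D x})) = some x := by
  unfold liftS
  rw [dif_pos (fun i => (x i).2)]

lemma liftS_ok {M : ℕ} {D : Fin M → Prop} {l : ℕ} (a : Fin l → Fin M) :
    (∀ i, D (a i)) ↔ ∃ x, (liftS a : Option (Fin l → {x // D x})) = some x := by
  unfold liftS
  by_cases h : ∀ i, D (a i)
  · rw [dif_pos h]
    exact ⟨fun _ => ⟨_, rfl⟩, fun _ => h⟩
  · rw [dif_neg h]
    exact ⟨fun h' => absurd h' h, fun ⟨x, hx⟩ => absurd hx (by simp)⟩

section target

variable {τ τ' : Voc} {s n m : ℕ} (T : Tr τ τ' n) (φ : PiF τ' s (m + 2))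

/-- the components of the guesses for the quantifiers -/
abbrev JT (i : ℕ) : Type := Fin (φ.len i) → Fin T.M

/-- all elements belong to the universe -/
def okT (b : Bit τ n → Bool) (i : ℕ) (a : JT T φ i) : Prop := ∀ l, (T.dom (a l)).Holds b

/-- the matrix, negated if the innermost block is universal -/
def matT : QF τ' s (Vars φ.len (m + 1) ⊕ Fin (φ.len (m + 1))) :=
  if (m + 1) % 2 = 0 then QF.not φ.ψ else φ.ψ

lemma matT_occ : (matT φ).occ = φ.occ := by
  unfold matT
  split_ifs <;> rfl

lemma matT_qs : (matT φ).qs = φ.ψ.qs := by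
  unfold matT
  split_ifs <;> rfl

/-- the main test -/
def GT (σ : Guess (s := s) T) (v : Tup (JT T φ) (m + 1)) (b : Bit τ n → Bool) : Prop :=
  match scan (okT T φ b) (m + 1) v with
  | some c => c = true
  | none => if (m + 1) % 2 = 0 then
      ¬ ∃ cell ∈ cfamG T (matT φ) σ, (bigBG T (matT φ) (asg φ.len (m + 1) v) cell).Holds b
    else ∃ cell ∈ cfamG T (matT φ) σ, (bigBG T (matT φ) (asg φ.len (m + 1) v) cell).Holds b

/-- the other tests -/
def HT (σ : Guess (s := s) T) (b : Bit τ n → Bool) :
    (Unit ⊕ ((Fin s → Fin T.M) × Fin s)) → Prop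
  | Sum.inl _ => (T.par ⟨(gset T σ).card, Nat.lt_succ_of_le (card_gset T σ)⟩).Holds b
  | Sum.inr e => e.1 ∈ gset T σ → (T.dom (e.1 e.2)).Holds b

lemma HT_dep (σ : Guess (s := s) T) (i : Unit ⊕ ((Fin s → Fin T.M) × Fin s)) :
    ∃ Q : Finset (IdxG (s := s) T (Vars φ.len (m + 1)) (φ.len (m + 1))), Q.card ≤ 1 ∧
      ∀ b b' : Bit τ n → Bool,
        (∀ e ∈ Q, ((famG T (matT φ) e).Holds b ↔ (famG T (matT φ) e).Holds b')) →
        (HT T σ b i ↔ HT T σ b' i) := by
  rcases i with u | e
  · refine ⟨{Sum.inr (Sum.inl ⟨(gset T σ).card, Nat.lt_succ_of_le (card_gset T σ)⟩)}, by simp, ?_⟩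
    intro b b' h
    exact h _ (Finset.mem_singleton_self _)
  · refine ⟨{Sum.inl (e.1 e.2)}, by simp, ?_⟩
    intro b b' h
    have h1 := h _ (Finset.mem_singleton_self _)
    simp only [HT]
    simp only [famG] at h1
    rw [h1]

lemma scan_congr (b b' : Bit τ n → Bool) (k : ℕ) (v : Tup (JT T φ) k)
    (h : ∀ a : Vars φ.len k, ((T.dom (asg φ.len k v a)).Holds b ↔
      (T.dom (asg φ.len k v a)).Holds b')) :
    scan (okT T φ b) k v = scan (okT T φ b') k v := by
  induction k with
  | zero => rfl
  | succ k ih =>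
    have h1 := ih v.1 (fun a => h (Sum.inl a))
    have h2 : okT T φ b k v.2 ↔ okT T φ b' k v.2 := by
      unfold okT
      apply forall_congr'
      intro l
      exact h (Sum.inr l)
    simp only [scan, h1, h2]

lemma GT_dep {d : ℕ} (hd : φ.occ ≤ d) (σ : Guess (s := s) T) (v : Tup (JT T φ) (m + 1)) :
    ∃ Q : Finset (IdxG (s := s) T (Vars φ.len (m + 1)) (φ.len (m + 1))),
      Q.card ≤ Fintype.card (Vars φ.len (m + 1)) + (2 * T.K + 1) ^ d ∧
      ∀ b b' : Bit τ n → Bool,
        (∀ e ∈ Q, ((famG T (matT φ) e).Holds b ↔ (famG T (matT φ) e).Holds b')) →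
        (GT T φ σ v b ↔ GT T φ σ v b') := by
  refine ⟨(Finset.univ : Finset (Vars φ.len (m + 1))).image
      (fun a => Sum.inl (asg φ.len (m + 1) v a)) ∪
    (cfamG T (matT φ) σ).image (fun cell => Sum.inr (Sum.inr (asg φ.len (m + 1) v, cell))),
    ?_, ?_⟩
  · refine (Finset.card_union_le _ _).trans (Nat.add_le_add ?_ ?_)
    · exact Finset.card_image_le
    · exact Finset.card_image_le.trans (card_cfamG T (matT φ) σ (by rw [matT_occ]; exact hd))
  · intro b b' h
    have h1 : scan (okT T φ b) (m + 1) v = scan (okT T φ b') (m + 1) v := by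
      apply scan_congr
      intro a
      exact h (Sum.inl _) (Finset.mem_union_left _ (Finset.mem_image.mpr ⟨a, Finset.mem_univ _, rfl⟩))
    have h2 : (∃ cell ∈ cfamG T (matT φ) σ,
        (bigBG T (matT φ) (asg φ.len (m + 1) v) cell).Holds b) ↔
        (∃ cell ∈ cfamG T (matT φ) σ,
          (bigBG T (matT φ) (asg φ.len (m + 1) v) cell).Holds b') := by
      have h3 : ∀ cell ∈ cfamG T (matT φ) σ,
          ((bigBG T (matT φ) (asg φ.len (m + 1) v) cell).Holds b ↔
            (bigBG T (matT φ) (asg φ.len (m + 1) v) cell).Holds b') := fun cell hc =>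
        h (Sum.inr (Sum.inr (asg φ.len (m + 1) v, cell)))
          (Finset.mem_union_right _ (Finset.mem_image.mpr ⟨cell, hc, rfl⟩))
      constructor
      · rintro ⟨cell, hc, hb⟩; exact ⟨cell, hc, (h3 cell hc).mp hb⟩
      · rintro ⟨cell, hc, hb⟩; exact ⟨cell, hc, (h3 cell hc).mpr hb⟩
    unfold GT
    rw [h1, h2]

/-- the formula for a given set -/
lemma holds_G (A : Str τ (Fin n)) (σ : Guess (s := s) T) (S : Finset (Fin s → T.Univ A))
    (hS : ∀ w : Fin s → T.Univ A, (w ∈ S ↔ (fun i => (w i).1) ∈ gset T σ)) :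
    φ.Holds (T.out A) S ↔ alt (JT T φ) (m + 1) (fun v => GT T φ σ v (bits A)) := by
  unfold PiF.Holds
  rw [quant_alt]
  have h4 : alt (fun i => Fin (φ.len i) → T.Univ A) (m + 2) (fun v => φ.ψ.Holds (T.out A) S
      (asg φ.len (m + 2) v)) ↔
      alt (fun i => Fin (φ.len i) → T.Univ A) (m + 1) (fun x =>
        lev (m + 1) (fun y : Fin (φ.len (m + 1)) → T.Univ A =>
        φ.ψ.Holds (T.out A) S (Sum.elim (asg φ.len (m + 1) x) y))) := Iff.rfl
  refine Iff.trans h4 (Iff.symm ?_)
  apply alt_rel (A := JT T φ) (X := fun i => Fin (φ.len i) → T.Univ A) (fun _ a => liftS a)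
  · intro i x
    exact ⟨fun l => (x l).1, liftS_surj x⟩
  · rintro i - ⟨j, a, -, ha⟩
    have : ¬ ∀ l, (T.dom (a l)).Holds (bits A) := by
      intro h
      obtain ⟨x, hx⟩ := (liftS_ok (D := fun a => (T.dom a).Holds (bits A)) a).mp h
      rw [ha] at hx
      exact absurd hx (by simp)
    push Not at this
    obtain ⟨l, -⟩ := this
    exact ⟨fun _ => a l⟩
  · intro v x hv
    have h1 := (scan_stt (X := fun i => Fin (φ.len i) → T.Univ A) (fun _ a => liftS a)
      (okT T φ (bits A)) (fun i a => liftS_ok (D := fun a => (T.dom a).Holds (bits A)) a) (m + 1) v).1 x hv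
    have h2 := asg_lift φ.len (m + 1) v x hv
    have key : ∀ ψ' : QF τ' s (Vars φ.len (m + 1) ⊕ Fin (φ.len (m + 1))),
        (∃ y : Fin (φ.len (m + 1)) → Fin T.M, (∀ i, (T.dom (y i)).Holds (bits A)) ∧
          ψ'.Holds (outM T A) (gset T σ) (Sum.elim (asg φ.len (m + 1) v) y)) ↔
        ∃ y : Fin (φ.len (m + 1)) → T.Univ A,
          ψ'.Holds (T.out A) S (Sum.elim (asg φ.len (m + 1) x) y) := by
      intro ψ'
      have h3 : ∀ y : Fin (φ.len (m + 1)) → T.Univ A,
          (ψ'.Holds (T.out A) S (Sum.elim (asg φ.len (m + 1) x) y) ↔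
          ψ'.Holds (outM T A) (gset T σ) (Sum.elim (asg φ.len (m + 1) v) (fun i => (y i).1))) := by
        intro y
        rw [holds_out T A S (gset T σ) hS]
        have h5 : (fun a => ((Sum.elim (asg φ.len (m + 1) x) y :
            Vars φ.len (m + 1) ⊕ Fin (φ.len (m + 1)) → T.Univ A) a).1) =
            Sum.elim (asg φ.len (m + 1) v) (fun i => (y i).1) := by
          funext a
          rcases a with a | i
          · exact h2 a
          · rfl
        rw [h5]
      constructor
      · rintro ⟨y, hy, hψ⟩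
        exact ⟨fun i => ⟨y i, hy i⟩, (h3 _).mpr hψ⟩
      · rintro ⟨y, hψ⟩
        exact ⟨fun i => (y i).1, fun i => (y i).2, (h3 _).mp hψ⟩
    unfold GT
    rw [h1]
    simp only
    rcases Nat.mod_two_eq_zero_or_one (m + 1) with hm | hm
    · rw [if_pos hm, lev_even hm, bigBG_iff, key]
      have h6 : matT φ = QF.not φ.ψ := by
        unfold matT
        rw [if_pos hm]
        rfl
      rw [h6]
      push Not
      constructor
      · intro h y
        by_contra h7
        exact h y h7
      · intro h y h7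
        exact h7 (h y)
    · rw [if_neg (by omega), lev_odd hm, bigBG_iff, key]
      have h6 : matT φ = φ.ψ := by
        unfold matT
        rw [if_neg (by omega)]
      rw [h6]
  · intro v b hv
    have h1 := (scan_stt (X := fun i => Fin (φ.len i) → T.Univ A) (fun _ a => liftS a)
      (okT T φ (bits A)) (fun i a => liftS_ok (D := fun a => (T.dom a).Holds (bits A)) a) (m + 1) v).2 b hv
    unfold GT
    rw [h1]

/-- the target question is a guess followed by tests -/
theorem target_G (A : Str τ (Fin n)) (j : Fin (T.K + 1))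
    (hj : ∀ j', (T.par j').Holds (bits A) ↔ j' = j) :
    WDF φ (T.out A) j ↔ ∃ σ : Guess (s := s) T, (∀ i, HT T σ (bits A) i) ∧
      alt (JT T φ) (m + 1) (fun v => GT T φ σ v (bits A)) := by
  constructor
  · rintro ⟨S, hcard, hS⟩
    let emb : (Fin s → T.Univ A) → (Fin s → Fin T.M) := fun w i => (w i).1
    have hemb : Function.Injective emb := by
      intro w w' h
      funext i
      exact Subtype.ext (congrFun h i)
    have hcS : (S.image emb).card = j := by
      rw [Finset.card_image_of_injective _ hemb, hcard]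
    obtain ⟨σ, hσ⟩ := exists_guess T (S.image emb) (by rw [hcS]; omega)
    have hmem : ∀ w : Fin s → T.Univ A, (w ∈ S ↔ (fun i => (w i).1) ∈ gset T σ) := by
      intro w
      rw [hσ]
      constructor
      · intro h; exact Finset.mem_image_of_mem emb h
      · intro h
        obtain ⟨w', hw', he⟩ := Finset.mem_image.mp h
        rwa [← hemb he]
    refine ⟨σ, ?_, (holds_G T φ A σ S hmem).mp hS⟩
    rintro (u | e)
    · simp only [HT]
      rw [hj]
      apply Fin.ext
      simp only [hσ, hcS]
    · simp only [HT]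
      intro he
      rw [hσ] at he
      obtain ⟨w, hw, hwe⟩ := Finset.mem_image.mp he
      rw [← hwe]
      exact (w e.2).2
  · rintro ⟨σ, hσ, hA⟩
    have hpar := hσ (Sum.inl ())
    simp only [HT] at hpar
    rw [hj] at hpar
    have hcard : (gset T σ).card = j := congrArg Fin.val hpar
    have hdom : ∀ w ∈ gset T σ, ∀ i, (T.dom (w i)).Holds (bits A) := fun w hw i =>
      hσ (Sum.inr (w, i)) hw
    let lift : {w // w ∈ gset T σ} → (Fin s → T.Univ A) := fun w i => ⟨w.1 i, hdom w.1 w.2 i⟩
    have hlift : Function.Injective lift := by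
      intro w w' h
      apply Subtype.ext
      funext i
      have := congrFun h i
      exact congrArg Subtype.val this
    refine ⟨(gset T σ).attach.image lift, ?_, ?_⟩
    · rw [Finset.card_image_of_injective _ hlift, Finset.card_attach, hcard]
    · have hmem : ∀ w : Fin s → T.Univ A, (w ∈ (gset T σ).attach.image lift ↔
          (fun i => (w i).1) ∈ gset T σ) := by
        intro w
        constructor
        · intro h
          obtain ⟨w', -, he⟩ := Finset.mem_image.mp h
          rw [← he]
          exact w'.2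
        · intro h
          refine Finset.mem_image.mpr ⟨⟨fun i => (w i).1, h⟩, Finset.mem_attach _ _, ?_⟩
          rfl
      exact (holds_G T φ A σ _ hmem).mpr hA

end target

end

end Pool.Agent.Helper265_EW.G
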