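import Pool.Agent.Helper265_EW.GNum
import Pool.Agent.Helper265_EW.GTgt
import Pool.Agent.Helper265_EW.Final

set_option linter.unusedSectionVars false

/-! Assembly of the lower bound for all numbers of quantifier blocks. -/

namespace Pool.Agent.Helper265_EW.G

open Finset Classical Pool.Agent.H592R2

noncomputable section

/-- the structure of a table on a numbered universe -/
def strS {d k B m n : ℕ} {X : Type} (ev : Bool) (eU : Un k (Tup (fun _ => X) m) X B ≃ Fin n)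
    (z : Tb (d + 2) (Vt k (Tup (fun _ => X) m × X) B)) : Str (srcVt m d) (Fin n) :=
  fun R w => strU ev z R (fun i => eU.symm (w i))

lemma encS_local {d k B m n : ℕ} {X : Type} [Fintype X] (ev : Bool)
    (eU : Un k (Tup (fun _ => X) m) X B ≃ Fin n) (l : Bit (srcVt m d) n) :
    ∃ K : Finset (Vt k (Tup (fun _ => X) m × X) B), K.card ≤ d + 2 ∧
      Loc K (fun z => bits (strS (d := d) ev eU z) l = true) := by
  obtain ⟨R, w⟩ := l
  cases h : stt (A := fun _ => Un k (Tup (fun _ => X) m) X B) (X := fun _ => X) (fun _ => pix) m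
      (toT m (fun i => eU.symm (w (Fin.castAdd (d + 2) i)))) with
  | inl lab =>
    obtain ⟨K, hK, hl⟩ := encB_local (d := d) ev lab (fun l => eU.symm (w (Fin.natAdd m l)))
    refine ⟨K, hK, ?_⟩
    have h1 : ∀ z : Tb (d + 2) (Vt k (Tup (fun _ => X) m × X) B),
        bits (strS (d := d) ev eU z) ⟨R, w⟩ =
        encB ev lab z (fun l => eU.symm (w (Fin.natAdd m l))) := by
      intro z
      simp only [bits, strS, strU]
      rw [h]
    intro z z' hzz' hz
    simp only [h1] at hz ⊢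
    exact hl z z' hzz' hz
  | inr c =>
    refine ⟨∅, by simp, ?_⟩
    have h1 : ∀ z : Tb (d + 2) (Vt k (Tup (fun _ => X) m × X) B),
        bits (strS (d := d) ev eU z) ⟨R, w⟩ = c := by
      intro z
      simp only [bits, strS, strU]
      rw [h]
    intro z z' _ hz
    simp only [h1] at hz ⊢
    exact hz

lemma nonempty_Tup {J : ℕ → Type} (h : ∀ i, Nonempty (J i)) : ∀ n, Nonempty (Tup J n)
  | 0 => ⟨()⟩
  | n + 1 => by
      obtain ⟨v⟩ := nonempty_Tup h n
      obtain ⟨x⟩ := h n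
      exact ⟨(v, x)⟩

/-- the planted inputs -/
lemma src_claim {d k B D S b m n : ℕ} [NeZero b] [NeZero B] [NeZero k] {X : Type} [Fintype X]
    [DecidableEq X] [Nonempty X] {Ix : Type} [Fintype Ix]
    (eU : Un k (Tup (fun _ => X) m) X B ≃ Fin n) (F : Ix → Fm (Bit (srcVt m d) n))
    (hdepth : ∀ i, (F i).depth ≤ D) (sz : ℕ) (hsz : ∀ i, (F i).size ≤ sz)
    (hd : 1 ≤ d) (hb : 2 ≤ b) (hS : d + 2 < S) (hBb : B ≤ b ^ k)
    (hnum : failG d k B D S b (Fintype.card (Tup (fun _ => X) m)) (Fintype.card X)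
      (Fintype.card Ix) sz < 1) :
    ∃ zq : (Tup (fun _ => X) (m + 1) → (Fin (d + 1) → Fin k) → Bool) →
        Tb (d + 2) (Vt k (Tup (fun _ => X) m × X) B),
      (∀ q, WDF (srcFt (decide (m % 2 = 0)) m d) (strS (decide (m % 2 = 0)) eU (zq q)) k ↔
        alt (fun _ => X) (m + 1) (fun v => lev (m + 1) (fun c => q v c = true))) ∧
      ∀ i, ∃ Q : Finset (Tup (fun _ => X) (m + 1) × (Fin (d + 1) → Fin k)),
        Q.card ≤ S ^ (d + 2) ∧ ∀ q q' : Tup (fun _ => X) (m + 1) → (Fin (d + 1) → Fin k) → Bool,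
          (∀ e ∈ Q, q e.1 e.2 = q' e.1 e.2) →
          ((F i).Holds (bits (strS (decide (m % 2 = 0)) eU (zq q))) ↔
            (F i).Holds (bits (strS (decide (m % 2 = 0)) eU (zq q')))) := by
  have hne : Nonempty (Tup (fun _ => X) m) := nonempty_Tup (fun _ => inferInstance) m
  rcases Nat.mod_two_eq_zero_or_one m with hm | hm
  · obtain ⟨ω, hG, hL⟩ := good_E (G0 := Tup (fun _ => X) m) (X := X) F
      (fun z => bits (strS (decide (m % 2 = 0)) eU z)) (encS_local (decide (m % 2 = 0)) eU) hdepth sz hsz hd hb hS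
      hnum
    have hdec : decide (m % 2 = 0) = true := decide_eq_true hm
    rw [hdec] at hL ⊢
    refine ⟨fun q => rho (As b (d + 2) S) (Ms b (d + 2) S) (mj true) D ω
      (emb true (pv (As b (d + 2) S) (sts ω)) (pr (As b (d + 2) S) (sts ω)) q), ?_, ?_⟩
    · intro q
      rw [← src_even hm (As b (d + 2) S) (Ms b (d + 2) S) ω hG q]
      exact WDF_equiv eU (srcFt true m d) (strU true (rho (As b (d + 2) S) (Ms b (d + 2) S)
        (mj true) D ω (emb true (pv (As b (d + 2) S) (sts ω)) (pr (As b (d + 2) S) (sts ω)) q))) k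
    · intro i
      obtain ⟨K, hK, -, hloc⟩ := hL i
      obtain ⟨Q, hQ, hQd⟩ := dep_of_loc true (pv (As b (d + 2) S) (sts ω))
        (pr (As b (d + 2) S) (sts ω)) hloc
      exact ⟨Q, hQ.trans (Nat.pow_le_pow_left hK.le _), hQd⟩
  · obtain ⟨ω, hG, hL⟩ := good_O (G0 := Tup (fun _ => X) m) (X := X) F
      (fun z => bits (strS (decide (m % 2 = 0)) eU z)) (encS_local (decide (m % 2 = 0)) eU) hdepth sz hsz hd hb hS
      hBb hnum
    have hdec : decide (m % 2 = 0) = false := decide_eq_false (by omega)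
    rw [hdec] at hL ⊢
    refine ⟨fun q => rho (As b (d + 2) S) (Ms b (d + 2) S) (mj false) D ω
      (emb false (pv (As b (d + 2) S) (sts ω)) (pr (As b (d + 2) S) (sts ω)) q), ?_, ?_⟩
    · intro q
      rw [← src_odd hd hm (As b (d + 2) S) (Ms b (d + 2) S) ω hG q]
      exact WDF_equiv eU (srcFt false m d) (strU false (rho (As b (d + 2) S) (Ms b (d + 2) S)
        (mj false) D ω (emb false (pv (As b (d + 2) S) (sts ω)) (pr (As b (d + 2) S) (sts ω)) q)))
        k
    · intro i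
      obtain ⟨K, hK, -, hloc⟩ := hL i
      obtain ⟨Q, hQ, hQd⟩ := dep_of_loc false (pv (As b (d + 2) S) (sts ω))
        (pr (As b (d + 2) S) (sts ω)) hloc
      exact ⟨Q, hQ.trans (Nat.pow_le_pow_left hK.le _), hQd⟩

/-- the combinatorial heart: no reduction at one good parameter value -/
theorem heartG {d k B D S b m : ℕ} [NeZero b] [NeZero B] [NeZero k] {τ' : Voc}
    {s n cPP cLL sw : ℕ} [NeZero cPP] [NeZero cLL]
    (φ : PiF τ' s (m + 2)) (hocc : φ.occ ≤ d) (T : Tr (srcVt m d) τ' n)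
    (eU : Un k (Tup (fun _ => Fin cPP × Fin cLL) m) (Fin cPP × Fin cLL) B ≃ Fin n)
    (hcorr : ∀ A : Str (srcVt m d) (Fin n), ∃ j : Fin (T.K + 1),
      (∀ j', (T.par j').Holds (bits A) ↔ j' = j) ∧
        (WDF (srcFt (decide (m % 2 = 0)) m d) A k ↔ WDF φ (T.out A) j))
    (hdepth : ∀ i, (famG T (matT φ) i).depth ≤ D) (sz : ℕ)
    (hsz : ∀ i, (famG T (matT φ) i).size ≤ sz)
    (hd : 1 ≤ d) (hb : 2 ≤ b) (hS : d + 2 < S) (hBb : B ≤ b ^ k)
    (hnum : failG d k B D S b (Fintype.card (Tup (fun _ => Fin cPP × Fin cLL) m))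
      (Fintype.card (Fin cPP × Fin cLL))
      (Fintype.card (IdxG (s := s) T (Vars φ.len (m + 1)) (φ.len (m + 1)))) sz < 1)
    (hsw : 1 ≤ sw) (hwH : S ^ (d + 2) ≤ sw)
    (hok : Ok (Fintype.card (Guess (s := s) T)) (fun i => Fintype.card (Tup (JT T φ) i)) cPP cLL sw
      m (k ^ (d + 1))
      ((Fintype.card (Vars φ.len (m + 1)) + (2 * T.K + 1) ^ d + 1) * S ^ (d + 2))) : False := by
  obtain ⟨zq, hsrc, hfam⟩ := src_claim eU (famG T (matT φ)) hdepth sz hsz hd hb hS hBb hnum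
  choose Qf hQf1 hQf2 using hfam
  have hSp : 1 ≤ S ^ (d + 2) := Nat.one_le_pow _ _ (by omega)
  have hcP : Fintype.card (Fin (d + 1) → Fin k) = k ^ (d + 1) := by
    rw [Fintype.card_fun, Fintype.card_fin, Fintype.card_fin]
  refine chain (PP := Fin cPP) (LL := Fin cLL) (Sg := Guess (s := s) T)
    (Ex := Unit ⊕ ((Fin s → Fin T.M) × Fin s)) (JT T φ) sw (S ^ (d + 2)) hsw hwH m
    (P := Fin (d + 1) → Fin k) (Y := JT T φ m)
    ((Fintype.card (Vars φ.len (m + 1)) + (2 * T.K + 1) ^ d + 1) * S ^ (d + 2))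
    (Nat.mul_pos (by omega) hSp) (Nat.le_mul_of_pos_left _ (by omega))
    (fun σ v y q => GT T φ σ (v, y) (bits (strS (decide (m % 2 = 0)) eU (zq q))))
    (fun σ e q => HT T σ (bits (strS (decide (m % 2 = 0)) eU (zq q))) e) ?_ ?_ ?_ ?_
  · intro σ v y
    obtain ⟨Q, hQ, hQd⟩ := GT_dep T φ hocc σ (v, y)
    refine ⟨Q.biUnion Qf, ?_, ?_⟩
    · calc (Q.biUnion Qf).card ≤ ∑ e ∈ Q, (Qf e).card := Finset.card_biUnion_le
        _ ≤ ∑ _e ∈ Q, S ^ (d + 2) := Finset.sum_le_sum fun e _ => hQf1 e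
        _ = Q.card * S ^ (d + 2) := by rw [Finset.sum_const, smul_eq_mul]
        _ ≤ _ := Nat.mul_le_mul_right _ (by omega)
    · intro q q' hqq'
      apply hQd
      intro e he
      apply hQf2
      intro e' he'
      exact hqq' e' (Finset.mem_biUnion.mpr ⟨e, he, he'⟩)
  · intro σ e
    obtain ⟨Q, hQ, hQd⟩ := HT_dep T φ σ e
    refine ⟨Q.biUnion Qf, ?_, ?_⟩
    · calc (Q.biUnion Qf).card ≤ ∑ e ∈ Q, (Qf e).card := Finset.card_biUnion_le
        _ ≤ ∑ _e ∈ Q, S ^ (d + 2) := Finset.sum_le_sum fun e _ => hQf1 e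
        _ = Q.card * S ^ (d + 2) := by rw [Finset.sum_const, smul_eq_mul]
        _ ≤ 1 * S ^ (d + 2) := Nat.mul_le_mul_right _ hQ
        _ = S ^ (d + 2) := one_mul _
    · intro q q' hqq'
      apply hQd
      intro e he
      apply hQf2
      intro e' he'
      exact hqq' e' (Finset.mem_biUnion.mpr ⟨e, he, he'⟩)
  · rw [Fintype.card_fin, Fintype.card_fin, hcP]
    exact hok
  · intro q
    obtain ⟨j, hj1, hj2⟩ := hcorr (strS (decide (m % 2 = 0)) eU (zq q))
    rw [← hsrc q, hj2, target_G T φ _ j hj1]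
    exact Iff.rfl

end

end Pool.Agent.Helper265_EW.G
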