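import Pool.Agent.Helper265_EW.GFinal

set_option linter.unusedSectionVars false

/-! The lower bound for all numbers of quantifier blocks. -/

namespace Pool.Agent.Helper265_EW.G

open Finset Classical Pool.Agent.H592R2

noncomputable section

lemma card_IdxG {τ τ' : Voc} {s n : ℕ} (T : Tr τ τ' n) (V0 : Type) [Fintype V0] [DecidableEq V0]
    (q : ℕ) {m c' : ℕ} (hM : T.M ≤ m) (hK : T.K ≤ c') :
    Fintype.card (IdxG (s := s) T V0 q) ≤ m + (c' + 1) + m ^ Fintype.card V0 *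
      ((m ^ s + 1) * ((m ^ s + 1) * 2)) ^ ((Fintype.card V0 + q) ^ s) := by
  have h0 : Fintype.card (IdxG (s := s) T V0 q) = T.M + ((T.K + 1) + T.M ^ Fintype.card V0 *
      ((T.M ^ s + 1) * ((T.M ^ s + 1) * 2)) ^ ((Fintype.card V0 + q) ^ s)) := by
    simp only [IdxG, Fintype.card_sum, Fintype.card_prod, Fintype.card_fin, Fintype.card_fun,
      Fintype.card_bool]
  rw [h0]
  have h1 : T.M ^ s + 1 ≤ m ^ s + 1 := Nat.add_le_add_right (Nat.pow_le_pow_left hM s) 1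
  have h2 : (T.M ^ s + 1) * ((T.M ^ s + 1) * 2) ≤ (m ^ s + 1) * ((m ^ s + 1) * 2) :=
    Nat.mul_le_mul h1 (Nat.mul_le_mul_right _ h1)
  have h3 : T.M ^ Fintype.card V0 *
      ((T.M ^ s + 1) * ((T.M ^ s + 1) * 2)) ^ ((Fintype.card V0 + q) ^ s) ≤
      m ^ Fintype.card V0 * ((m ^ s + 1) * ((m ^ s + 1) * 2)) ^ ((Fintype.card V0 + q) ^ s) :=
    Nat.mul_le_mul (Nat.pow_le_pow_left hM _) (Nat.pow_le_pow_left h2 _)
  calc _ ≤ m + ((c' + 1) + m ^ Fintype.card V0 *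
        ((m ^ s + 1) * ((m ^ s + 1) * 2)) ^ ((Fintype.card V0 + q) ^ s)) :=
        Nat.add_le_add hM (Nat.add_le_add (Nat.add_le_add_right hK 1) h3)
    _ = _ := by ring

lemma card_Vars_succ (len : ℕ → ℕ) (n : ℕ) :
    Fintype.card (Vars len (n + 1)) = Fintype.card (Vars len n) + len n := by
  have : Fintype.card (Vars len (n + 1)) = Fintype.card (Vars len n ⊕ Fin (len n)) :=
    Fintype.card_congr (Equiv.refl _)
  rw [this, Fintype.card_sum, Fintype.card_fin]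

lemma card_Vars_mono (len : ℕ → ℕ) {i n : ℕ} (h : i ≤ n) :
    Fintype.card (Vars len i) ≤ Fintype.card (Vars len n) := by
  induction n with
  | zero =>
    have : i = 0 := by omega
    rw [this]
  | succ n ih =>
    rcases Nat.lt_or_ge n i with h1 | h1
    · have : i = n + 1 := by omega
      rw [this]
    · rw [card_Vars_succ]
      exact (ih h1).trans (Nat.le_add_right _ _)

lemma card_TupJ {τ τ' : Voc} {s n m : ℕ} (T : Tr τ τ' n) (φ : PiF τ' s (m + 2)) (i : ℕ) :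
    Fintype.card (Tup (JT T φ) i) = T.M ^ Fintype.card (Vars φ.len i) := by
  induction i with
  | zero =>
    have : Fintype.card (Vars φ.len 0) = 0 := by
      have h : Fintype.card (Vars φ.len 0) = Fintype.card Empty := Fintype.card_congr (Equiv.refl _)
      rw [h]; rfl
    rw [card_Tup_zero, this, pow_zero]
  | succ i ih =>
    rw [card_Tup_succ, ih, card_Vars_succ, pow_add, Fintype.card_fun, Fintype.card_fin,
      Fintype.card_fin]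

lemma n_boundG {k b α B G N n : ℕ} (hkb : k + 2 ≤ b) (hb4 : 4 ≤ b) (hB : B = b ^ (α + 1))
    (hG : G ≤ b) (hN : N ≤ b)
    (hn : n = k * (G * B) + k * B + k + N) : n + 2 ≤ b ^ (α + 4) := by
  have e1 : 1 ≤ B := by rw [hB]; exact Nat.one_le_pow _ _ (by omega)
  have e2 : k * (G * B) ≤ b * (b * B) :=
    Nat.mul_le_mul (by omega) (Nat.mul_le_mul_right _ hG)
  have e5 : B ≤ b * B := Nat.le_mul_of_pos_left _ (by omega)
  have e3 : k * B ≤ b * (b * B) := Nat.mul_le_mul (by omega) e5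
  have e6 : b ≤ b * (b * B) := Nat.le_mul_of_pos_right _ (by positivity)
  calc n + 2 = k * (G * B) + k * B + (k + 2) + N := by rw [hn]; ring
    _ ≤ b * (b * B) + b * (b * B) + b * (b * B) + b * (b * B) := by
        apply Nat.add_le_add (Nat.add_le_add (Nat.add_le_add e2 e3) (hkb.trans e6)) (hN.trans e6)
    _ = 4 * (b * (b * B)) := by ring
    _ ≤ b * (b * (b * B)) := Nat.mul_le_mul_right _ hb4
    _ = b ^ (α + 4) := by rw [hB]; ring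

/-- bound on the number of guesses -/
lemma guess_le {k b M s K Z c α C2 : ℕ} (hb : b = 2 ^ k)
    (hZ2 : 2 ≤ Z) (hZb : Z ≤ b ^ (α + 5)) (hM : M ≤ Z ^ c) (hK2 : K ≤ C2 * k) :
    (M ^ s + 1) ^ K ≤ 2 ^ ((α + 5) * (c * s + 1) * C2 * k ^ 2) := by
  have hb1 : 1 ≤ b := by rw [hb]; exact Nat.one_le_two_pow
  have e1 : M ^ s + 1 ≤ Z ^ (c * s + 1) := by
    have e2 : 1 ≤ Z ^ (c * s) := Nat.one_le_pow _ _ (by omega)
    calc M ^ s + 1 ≤ (Z ^ c) ^ s + 1 := Nat.add_le_add_right (Nat.pow_le_pow_left hM s) 1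
      _ = Z ^ (c * s) + 1 := by rw [← pow_mul]
      _ ≤ Z ^ (c * s) + Z ^ (c * s) := Nat.add_le_add_left e2 _
      _ = Z ^ (c * s) * 2 := by ring
      _ ≤ Z ^ (c * s) * Z := Nat.mul_le_mul_left _ hZ2
      _ = Z ^ (c * s + 1) := by rw [pow_succ]
  calc (M ^ s + 1) ^ K ≤ (Z ^ (c * s + 1)) ^ K := Nat.pow_le_pow_left e1 _
    _ ≤ ((b ^ (α + 5)) ^ (c * s + 1)) ^ K :=
        Nat.pow_le_pow_left (Nat.pow_le_pow_left hZb _) _
    _ ≤ ((b ^ (α + 5)) ^ (c * s + 1)) ^ (C2 * k) :=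
        Nat.pow_le_pow_right (Nat.one_le_pow _ _ (Nat.one_le_pow _ _ hb1)) hK2
    _ = 2 ^ ((α + 5) * (c * s + 1) * C2 * k ^ 2) := by
        rw [hb, ← pow_mul, ← pow_mul, ← pow_mul]
        congr 1
        ring

/-- bound on the number of outer assignments -/
lemma outer_le {k b M Z c α L : ℕ} (hb : b = 2 ^ k) (hZ2 : 2 ≤ Z) (hZb : Z ≤ b ^ (α + 5))
    (hM : M ≤ Z ^ c) : (M + 1) ^ L ≤ 2 ^ ((α + 5) * (c + 1) * L * k) := by
  have e1 : M + 1 ≤ Z ^ (c + 1) := by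
    have e2 : 1 ≤ Z ^ c := Nat.one_le_pow _ _ (by omega)
    calc M + 1 ≤ Z ^ c + Z ^ c := Nat.add_le_add hM e2
      _ = Z ^ c * 2 := by ring
      _ ≤ Z ^ c * Z := Nat.mul_le_mul_left _ hZ2
      _ = Z ^ (c + 1) := by rw [pow_succ]
  calc (M + 1) ^ L ≤ (Z ^ (c + 1)) ^ L := Nat.pow_le_pow_left e1 _
    _ ≤ ((b ^ (α + 5)) ^ (c + 1)) ^ L := Nat.pow_le_pow_left (Nat.pow_le_pow_left hZb _) _
    _ = 2 ^ ((α + 5) * (c + 1) * L * k) := by
        rw [hb, ← pow_mul, ← pow_mul, ← pow_mul]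
        congr 1
        ring

/-- the numerical conditions of the chain -/
lemma ok_final {k κ d m cS L M K S Cw C1 C3 C2 C4 : ℕ} {cJ : ℕ → ℕ} (hκ1 : 1 ≤ κ)
    (hkκ : k = 2 * Cw * κ) (hκk : κ ≤ k)
    (hCw : Cw = (L + 1 + (2 * C2 + 1) ^ d) * S ^ (d + 2)) (hS1 : 1 ≤ S) (hK2 : K ≤ C2 * k)
    (hN : 8 * (k ^ 4 * (32 * k ^ (d + 4))) ^ (m + 1) ≤ 2 ^ κ)
    (hC1 : C1 ≤ k) (hC3 : 2 * C3 ≤ k) (hC31 : 1 ≤ C3) (hC4 : C1 + C4 + 3 ≤ C3)
    (hcS : cS ≤ 2 ^ (C1 * k ^ 2)) (hcJ : ∀ i, i ≤ m → cJ i ≤ (M + 1) ^ L)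
    (hout : (M + 1) ^ L ≤ 2 ^ (C4 * k)) :
    Ok cS cJ (k ^ 4) (32 * k ^ (d + 4)) (C3 * k ^ 2) m (k ^ (d + 1))
      ((L + (2 * K + 1) ^ d + 1) * S ^ (d + 2)) := by
  have hk1 : 1 ≤ k := by omega
  have hSp : 1 ≤ S ^ (d + 2) := Nat.one_le_pow _ _ hS1
  have hkd : 1 ≤ k ^ d := Nat.one_le_pow _ _ hk1
  obtain ⟨w, hw⟩ : ∃ w, w = (L + (2 * K + 1) ^ d + 1) * S ^ (d + 2) := ⟨_, rfl⟩
  rw [← hw]
  have hw1 : 1 ≤ w := by rw [hw]; exact Nat.mul_pos (by omega) hSp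
  have hwle : w ≤ Cw * k ^ d := by
    have e0 : 2 * K + 1 ≤ (2 * C2 + 1) * k := by
      calc 2 * K + 1 ≤ 2 * (C2 * k) + 1 * k := by omega
        _ = (2 * C2 + 1) * k := by ring
    have e1 : (2 * K + 1) ^ d ≤ (2 * C2 + 1) ^ d * k ^ d := by
      rw [← mul_pow]
      exact Nat.pow_le_pow_left e0 d
    calc w = (L + 1 + (2 * K + 1) ^ d) * S ^ (d + 2) := by rw [hw]; ring
      _ ≤ ((L + 1) * k ^ d + (2 * C2 + 1) ^ d * k ^ d) * S ^ (d + 2) := by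
          apply Nat.mul_le_mul_right
          apply Nat.add_le_add _ e1
          exact Nat.le_mul_of_pos_right _ hkd
      _ = Cw * k ^ d := by rw [hCw]; ring
  have h2w : 2 * w * κ ≤ k ^ (d + 1) := by
    calc 2 * w * κ ≤ 2 * (Cw * k ^ d) * κ :=
          Nat.mul_le_mul_right _ (Nat.mul_le_mul_left _ hwle)
      _ = (2 * Cw * κ) * k ^ d := by ring
      _ = k * k ^ d := by rw [← hkκ]
      _ = k ^ (d + 1) := by ring
  have h32w : 32 * w * κ ≤ 32 * k ^ (d + 4) := by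
    calc 32 * w * κ = 16 * (2 * w * κ) := by ring
      _ ≤ 16 * k ^ (d + 1) := Nat.mul_le_mul_left _ h2w
      _ ≤ 32 * k ^ (d + 4) := Nat.mul_le_mul (by omega)
          (Nat.pow_le_pow_right hk1 (by omega))
  have hC3k : 1 ≤ C3 * k ^ 2 := Nat.mul_pos hC31 (Nat.pow_pos hk1)
  have hPP : 2 * (C3 * k ^ 2) * κ ≤ k ^ 4 := by
    calc 2 * (C3 * k ^ 2) * κ = (2 * C3) * k ^ 2 * κ := by ring
      _ ≤ k * k ^ 2 * k := Nat.mul_le_mul (Nat.mul_le_mul_right _ hC3) hκk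
      _ = k ^ 4 := by ring
  have hLL : 32 * (C3 * k ^ 2) * κ ≤ 32 * k ^ (d + 4) := by
    calc 32 * (C3 * k ^ 2) * κ = 16 * (2 * (C3 * k ^ 2) * κ) := by ring
      _ ≤ 16 * k ^ 4 := Nat.mul_le_mul_left _ hPP
      _ ≤ 32 * k ^ (d + 4) := Nat.mul_le_mul (by omega)
          (Nat.pow_le_pow_right hk1 (by omega))
  have hSJ : 8 * (cS * (M + 1) ^ L) ≤ 2 ^ (C3 * k ^ 2) := by
    calc 8 * (cS * (M + 1) ^ L) ≤ 2 ^ 3 * (2 ^ (C1 * k ^ 2) * 2 ^ (C4 * k)) :=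
          Nat.mul_le_mul (by norm_num) (Nat.mul_le_mul hcS hout)
      _ = 2 ^ (3 + (C1 * k ^ 2 + C4 * k)) := by rw [pow_add, pow_add]
      _ ≤ 2 ^ (C3 * k ^ 2) := by
          apply Nat.pow_le_pow_right (by norm_num)
          have e1 : k ≤ k ^ 2 := Nat.le_self_pow (by norm_num) k
          calc 3 + (C1 * k ^ 2 + C4 * k) ≤ 3 * k ^ 2 + (C1 * k ^ 2 + C4 * k ^ 2) := by
                apply Nat.add_le_add _ (Nat.add_le_add_left (Nat.mul_le_mul_left _ e1) _)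
                have : 1 ≤ k ^ 2 := Nat.pow_pos hk1
                omega
            _ = (C1 + C4 + 3) * k ^ 2 := by ring
            _ ≤ C3 * k ^ 2 := Nat.mul_le_mul_right _ hC4
  have hSlt : cS < 2 ^ (k ^ 4 * (32 * k ^ (d + 4))) := by
    refine lt_of_le_of_lt hcS (Nat.pow_lt_pow_right (by norm_num) ?_)
    have e1 : 1 ≤ k ^ (d + 4) := Nat.one_le_pow _ _ hk1
    have e2 : k ^ 3 ≤ k ^ 4 := Nat.pow_le_pow_right hk1 (by norm_num)
    have e3 : 1 ≤ k ^ 4 := Nat.one_le_pow _ _ hk1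
    calc C1 * k ^ 2 ≤ k * k ^ 2 := Nat.mul_le_mul_right _ hC1
      _ = k ^ 3 := by ring
      _ ≤ k ^ 4 := e2
      _ < k ^ 4 * 32 := by omega
      _ ≤ k ^ 4 * (32 * k ^ (d + 4)) := Nat.mul_le_mul_left _ (Nat.le_mul_of_pos_right _ e1)
  exact ok_all hκ1 hC3k hPP hLL hN hcJ hSJ hSlt m le_rfl _ w hw1 h2w h32w

/-- No reduction. -/
theorem no_red_G (m d : ℕ) (hd : 1 ≤ d) {τ' : Voc} {s : ℕ} (φ : PiF τ' s (m + 2))
    (hocc : φ.occ ≤ d) : ¬ AC0EptRedF (srcFt (decide (m % 2 = 0)) m d) φ := by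
  rintro ⟨c, hred⟩
  -- constants
  obtain ⟨L, hL⟩ : ∃ L, L = Fintype.card (Vars φ.len (m + 1)) := ⟨_, rfl⟩
  obtain ⟨D, hD⟩ : ∃ D, D = c + φ.ψ.qs + 4 := ⟨_, rfl⟩
  obtain ⟨E, hE⟩ := PB_total c L (φ.len (m + 1)) s φ.ψ.qs
  obtain ⟨S, hS⟩ : ∃ S, S = (2 * D + 5) * E + d + 3 := ⟨_, rfl⟩
  have hSd : d + 2 < S := by omega
  obtain ⟨sg, hsg⟩ : ∃ sg, sg = sgr (d + 2) S := ⟨_, rfl⟩
  have hsg1 : 1 ≤ sg := by rw [hsg]; exact sgr_pos hSd
  obtain ⟨α, hα⟩ : ∃ α, α = 2 * sg * D := ⟨_, rfl⟩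
  obtain ⟨C2, hC2⟩ : ∃ C2, C2 = c * (α + 6) := ⟨_, rfl⟩
  obtain ⟨C1, hC1⟩ : ∃ C1, C1 = (α + 5) * (c * s + 1) * C2 := ⟨_, rfl⟩
  obtain ⟨C4, hC4⟩ : ∃ C4, C4 = (α + 5) * (c + 1) * L := ⟨_, rfl⟩
  obtain ⟨Cw, hCw⟩ : ∃ Cw, Cw = (L + 1 + (2 * C2 + 1) ^ d) * S ^ (d + 2) := ⟨_, rfl⟩
  obtain ⟨C3, hC3⟩ : ∃ C3, C3 = C1 + C4 + 3 + S ^ (d + 2) := ⟨_, rfl⟩
  have hSp : 1 ≤ S ^ (d + 2) := Nat.one_le_pow _ _ (by omega)
  have hCw1 : 1 ≤ Cw := by rw [hCw]; exact Nat.mul_pos (by omega) hSp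
  obtain ⟨k1, hk1⟩ := ev_pow 4 (2 * (d + 1))
  obtain ⟨k2, hk2⟩ := ev_pow (8 * (32 * (2 * Cw) ^ (d + 8)) ^ (m + 1)) ((d + 8) * (m + 1))
  obtain ⟨κ, hκ⟩ : ∃ κ, κ = k1 + k2 + (2 * α + 8) + (sg * S + 3) + C1 + 2 * C3 := ⟨_, rfl⟩
  obtain ⟨k, hk⟩ : ∃ k, k = 2 * Cw * κ := ⟨_, rfl⟩
  have hκk : κ ≤ k := by
    rw [hk]
    exact Nat.le_mul_of_pos_left _ (by omega)
  have h4 := hk1 k (by omega)
  have h5 := hk2 κ (by omega)
  have hkα : 2 * α + 8 ≤ k := by omega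
  have hkS : sg * S + 3 ≤ k := by omega
  have hkC1 : C1 ≤ k := by omega
  have hkC3 : 2 * C3 ≤ k := by omega
  have hκ1 : 1 ≤ κ := by omega
  clear hκ hk1 hk2
  have hk8 : 8 ≤ k := by omega
  have hN : 8 * (k ^ 4 * (32 * k ^ (d + 4))) ^ (m + 1) ≤ 2 ^ κ := by
    have e1 : 8 * (k ^ 4 * (32 * k ^ (d + 4))) ^ (m + 1) =
        (8 * (32 * (2 * Cw) ^ (d + 8)) ^ (m + 1)) * κ ^ ((d + 8) * (m + 1)) := by
      have e2 : k ^ 4 * (32 * k ^ (d + 4)) = 32 * k ^ (d + 8) := by ring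
      rw [e2, hk, mul_pow (2 * Cw) κ, pow_mul, ← mul_assoc 32, mul_pow, ← mul_assoc]
    rw [e1]
    exact h5
  have hk2b : k + 2 ≤ 2 ^ k := by
    obtain ⟨k', hk'⟩ : ∃ k', k = k' + 1 := ⟨k - 1, by omega⟩
    rw [hk']
    have : k' < 2 ^ k' := Nat.lt_pow_self (by norm_num)
    rw [pow_succ]
    omega
  obtain ⟨b, hb⟩ : ∃ b, b = 2 ^ k := ⟨_, rfl⟩
  rw [← hb] at hk2b
  have hb256 : 256 ≤ b := by
    calc 256 = 2 ^ 8 := by norm_num
      _ ≤ 2 ^ k := Nat.pow_le_pow_right (by norm_num) hk8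
      _ = b := hb.symm
  have : NeZero b := ⟨by omega⟩
  have : NeZero k := ⟨by omega⟩
  obtain ⟨B, hB⟩ : ∃ B, B = b ^ (α + 1) := ⟨_, rfl⟩
  have hB0 : 1 ≤ B := by rw [hB]; exact Nat.one_le_pow _ _ (by omega)
  have : NeZero B := ⟨by omega⟩
  obtain ⟨cPP, hcPP⟩ : ∃ cPP, cPP = k ^ 4 := ⟨_, rfl⟩
  obtain ⟨cLL, hcLL⟩ : ∃ cLL, cLL = 32 * k ^ (d + 4) := ⟨_, rfl⟩
  have hcPP1 : 1 ≤ cPP := by rw [hcPP]; exact Nat.one_le_pow _ _ (by omega)
  have hcLL1 : 1 ≤ cLL := by rw [hcLL]; exact Nat.mul_pos (by norm_num) (Nat.pow_pos (by omega))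
  have : NeZero cPP := ⟨by omega⟩
  have : NeZero cLL := ⟨by omega⟩
  have hN' := hN
  rw [← hcPP, ← hcLL] at hN'
  have hNb : (cPP * cLL) ^ (m + 1) ≤ b := by
    rw [hb]
    calc (cPP * cLL) ^ (m + 1) ≤ 8 * (cPP * cLL) ^ (m + 1) := by omega
      _ ≤ 2 ^ κ := hN'
      _ ≤ 2 ^ k := Nat.pow_le_pow_right (by norm_num) hκk
  have hN1 : 1 ≤ cPP * cLL := Nat.mul_pos hcPP1 hcLL1
  have hNb1 : cPP * cLL ≤ b := by
    calc cPP * cLL = (cPP * cLL) ^ 1 := (pow_one _).symm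
      _ ≤ (cPP * cLL) ^ (m + 1) := Nat.pow_le_pow_right hN1 (by omega)
      _ ≤ b := hNb
  -- the universe
  obtain ⟨n, hn⟩ : ∃ n, n = k * ((cPP * cLL) ^ (m + 1) * B) + k * B + k + cPP * cLL := ⟨_, rfl⟩
  have hn2 : n + 2 ≤ b ^ (α + 4) := n_boundG hk2b (by omega) hB hNb hNb1 hn
  have hcX : Fintype.card (Fin cPP × Fin cLL) = cPP * cLL := by
    rw [Fintype.card_prod, Fintype.card_fin, Fintype.card_fin]
  have hcT : Fintype.card (Tup (fun _ : ℕ => Fin cPP × Fin cLL) m) = (cPP * cLL) ^ m := by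
    rw [card_Tup_const, hcX]
  have hcard : Fintype.card (Un k (Tup (fun _ : ℕ => Fin cPP × Fin cLL) m)
      (Fin cPP × Fin cLL) B) = n := by
    rw [hn]
    simp only [Fintype.card_sum, Fintype.card_prod, hcT, Fintype.card_fin]
    ring
  have eU : Un k (Tup (fun _ : ℕ => Fin cPP × Fin cLL) m) (Fin cPP × Fin cLL) B ≃ Fin n :=
    Fintype.equivFinOfCardEq hcard
  obtain ⟨T, ⟨hM, hK, hdom, hrel, hpar⟩, hcorr⟩ := hred n k (by rw [hn]; omega) (by omega)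
  rw [← hb] at hM hdom hrel hpar
  obtain ⟨Z, hZ⟩ : ∃ Z, Z = b * (n + 2) := ⟨_, rfl⟩
  rw [← hZ] at hM hdom hrel hpar
  have hZ2 : 2 ≤ Z := by
    rw [hZ]
    calc 2 = 1 * 2 := rfl
      _ ≤ b * (n + 2) := Nat.mul_le_mul (by omega) (by omega)
  have hZb : Z ≤ b ^ (α + 5) := by
    rw [hZ]
    calc b * (n + 2) ≤ b * b ^ (α + 4) := Nat.mul_le_mul_left _ hn2
      _ = b ^ (α + 5) := by ring
  have hZc : 1 ≤ Z ^ c := Nat.one_le_pow _ _ (by omega)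
  -- bound on the new parameter
  have hlog : Nat.log 2 (n + 1) ≤ k * (α + 4) := by
    have e1 : n + 1 ≤ 2 ^ (k * (α + 4)) := by
      rw [pow_mul, ← hb]
      exact le_trans (by omega) hn2
    calc Nat.log 2 (n + 1) ≤ Nat.log 2 (2 ^ (k * (α + 4))) := Nat.log_mono_right e1
      _ = k * (α + 4) := Nat.log_pow (by norm_num) _
  have hK1 : T.K ≤ c * Z := by
    refine hK.trans (Nat.mul_le_mul_left _ ?_)
    have e1 : Nat.log 2 (n + 1) ≤ n + 1 := Nat.log_le_self _ _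
    rw [hZ]
    calc k + Nat.log 2 (n + 1) + 1 ≤ b * 1 + 1 * (n + 1) := by omega
      _ ≤ b * 1 + b * (n + 1) := Nat.add_le_add_left (Nat.mul_le_mul_right _ (by omega)) _
      _ = b * (n + 2) := by ring
  have hK2 : T.K ≤ C2 * k := by
    refine hK.trans ?_
    rw [hC2, mul_assoc]
    apply Nat.mul_le_mul_left
    calc k + Nat.log 2 (n + 1) + 1 ≤ k + k * (α + 4) + k := by omega
      _ = (α + 6) * k := by ring
  -- the family
  have hdepth : ∀ i, (famG T (matT φ) i).depth ≤ D := by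
    intro i
    rw [hD, ← matT_qs φ]
    exact famG_depth T (matT φ) (fun a => (hdom a).1) (fun R v => (hrel R v).1)
      (fun j => (hpar j).1) i
  obtain ⟨sz, hsz⟩ : ∃ sz, sz = (Z ^ c + 1) ^ φ.len (m + 1) *
      ((φ.len (m + 1) + φ.ψ.qs + 4) * Z ^ c) + Z ^ c := ⟨_, rfl⟩
  have hsize : ∀ i, (famG T (matT φ) i).size ≤ sz := by
    intro i
    rw [hsz, ← matT_qs φ]
    refine (famG_size T (matT φ) hZc (fun a => (hdom a).2) (fun R v => (hrel R v).2)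
      (fun j => (hpar j).2) i).trans ?_
    exact Nat.add_le_add_right (Nat.mul_le_mul_right _
      (Nat.pow_le_pow_left (Nat.add_le_add_right hM 1) _)) _
  have hcardIdx := card_IdxG (s := s) T (Vars φ.len (m + 1)) (φ.len (m + 1)) hM hK1
  rw [← hL] at hcardIdx
  have htotal : Fintype.card (IdxG (s := s) T (Vars φ.len (m + 1)) (φ.len (m + 1))) * sz ≤
      ((2 ^ k) ^ (2 * sgr (d + 2) S * D + 5)) ^ E := by
    rw [← hsg, ← hα, ← hb]
    calc Fintype.card (IdxG (s := s) T (Vars φ.len (m + 1)) (φ.len (m + 1))) * sz ≤ _ :=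
          Nat.mul_le_mul_right _ hcardIdx
      _ ≤ Z ^ E := by rw [hsz]; exact hE Z hZ2
      _ ≤ _ := Nat.pow_le_pow_left hZb E
  have hexp : (2 * sgr (d + 2) S * D + 5) * E + 1 ≤ sgr (d + 2) S * S := by
    rw [← hsg]
    have e1 : 5 ≤ 5 * sg := by omega
    calc (2 * sg * D + 5) * E + 1 ≤ (2 * sg * D + 5 * sg) * E + sg :=
          Nat.add_le_add (Nat.mul_le_mul_right _ (Nat.add_le_add_left e1 _)) hsg1
      _ = sg * ((2 * D + 5) * E + 1) := by ring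
      _ ≤ sg * S := Nat.mul_le_mul_left _ (by omega)
  have hcX2 : 2 * ((2 * sgr (d + 2) S * D + 1) * k + 3) ≤ cPP * cLL := by
    rw [← hsg, ← hα, hcPP, hcLL]
    have e1 : 1 ≤ k ^ (d + 4) := Nat.one_le_pow _ _ (by omega)
    have e2 : k ^ 2 ≤ k ^ 4 := Nat.pow_le_pow_right (by omega) (by norm_num)
    calc 2 * ((α + 1) * k + 3) ≤ 32 * (k * k) := by nlinarith
      _ = k ^ 2 * 32 := by ring
      _ ≤ k ^ 4 * (32 * k ^ (d + 4)) := Nat.mul_le_mul e2 (Nat.le_mul_of_pos_right _ e1)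
  have hnum := failG_lt_one (d := d) (k := k) (D := D) (S := S) (E := E)
    (cG0 := (cPP * cLL) ^ m) (cX := cPP * cLL)
    (m := Fintype.card (IdxG (s := s) T (Vars φ.len (m + 1)) (φ.len (m + 1)))) (sz := sz) hd hk8
    (by rw [← hsg, ← hα]; omega) (by rw [← hsg]; exact hkS)
    (by rw [← pow_mul, mul_comm (d + 1) 2]; exact h4) hcX2
    (by rw [← pow_succ, ← hb]; exact hNb) hexp htotal
  rw [← hsg, ← hα, ← hb, ← hB, ← hcT, ← hcX] at hnum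
  have hBb : B ≤ b ^ k := by
    rw [hB]
    exact Nat.pow_le_pow_right (by omega) (by omega)
  have hcG : Fintype.card (Guess (s := s) T) = (T.M ^ s + 1) ^ T.K := by
    rw [Fintype.card_fun, Fintype.card_option, Fintype.card_fun, Fintype.card_fin,
      Fintype.card_fin, Fintype.card_fin]
  refine heartG (sw := C3 * k ^ 2) φ hocc T eU hcorr hdepth sz hsize hd (by omega) hSd hBb hnum
    (Nat.mul_pos (by omega) (Nat.pow_pos (by omega))) ?_ ?_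
  · calc S ^ (d + 2) ≤ C3 := by omega
      _ ≤ C3 * k ^ 2 := Nat.le_mul_of_pos_right _ (Nat.pow_pos (by omega))
  · rw [hcG, hcPP, hcLL, ← hL]
    refine ok_final (C1 := C1) (C3 := C3) (C2 := C2) (C4 := C4) (Cw := Cw) (M := T.M) hκ1 hk hκk
      hCw (by omega) hK2 hN hkC1 hkC3 (by omega) (by omega) ?_ ?_ ?_
    · rw [hC1]
      exact guess_le hb hZ2 hZb hM hK2
    · intro i hi
      have h6 := card_TupJ T φ i
      simp only [h6]
      calc T.M ^ Fintype.card (Vars φ.len i) ≤ (T.M + 1) ^ Fintype.card (Vars φ.len i) :=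
            Nat.pow_le_pow_left (by omega) _
        _ ≤ (T.M + 1) ^ L := by
            apply Nat.pow_le_pow_right (by omega)
            rw [hL]
            exact card_Vars_mono φ.len (by omega)
    · rw [hC4]
      exact outer_le hb hZ2 hZb hM

end

end Pool.Agent.Helper265_EW.G
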