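import Pool.Agent.Helper265_EW.Events

set_option linter.unusedSectionVars false

/-! Numerical estimates. -/

namespace Pool.Agent.Helper265_EW

open Finset Classical Pool.Agent.H592R2

noncomputable section

/-- polynomially bounded -/
def PB (f : ℕ → ℕ) : Prop := ∃ E, ∀ Z, 2 ≤ Z → f Z ≤ Z ^ E

lemma PB.const (a : ℕ) : PB (fun _ => a) := by
  refine ⟨a, fun Z hZ => ?_⟩
  calc a ≤ 2 ^ a := (Nat.lt_pow_self (by norm_num)).le
    _ ≤ Z ^ a := Nat.pow_le_pow_left hZ a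

lemma PB.var : PB (fun Z => Z) := ⟨1, fun Z _ => by simp⟩

lemma PB.mul {f g : ℕ → ℕ} (hf : PB f) (hg : PB g) : PB (fun Z => f Z * g Z) := by
  obtain ⟨E1, h1⟩ := hf
  obtain ⟨E2, h2⟩ := hg
  refine ⟨E1 + E2, fun Z hZ => ?_⟩
  rw [pow_add]
  exact Nat.mul_le_mul (h1 Z hZ) (h2 Z hZ)

lemma PB.add {f g : ℕ → ℕ} (hf : PB f) (hg : PB g) : PB (fun Z => f Z + g Z) := by
  obtain ⟨E1, h1⟩ := hf
  obtain ⟨E2, h2⟩ := hg
  refine ⟨E1 + E2 + 1, fun Z hZ => ?_⟩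
  have a1 : Z ^ E1 ≤ Z ^ (E1 + E2) := Nat.pow_le_pow_right (by omega) (by omega)
  have a2 : Z ^ E2 ≤ Z ^ (E1 + E2) := Nat.pow_le_pow_right (by omega) (by omega)
  calc f Z + g Z ≤ Z ^ (E1 + E2) + Z ^ (E1 + E2) := Nat.add_le_add ((h1 Z hZ).trans a1)
        ((h2 Z hZ).trans a2)
    _ = Z ^ (E1 + E2) * 2 := by ring
    _ ≤ Z ^ (E1 + E2) * Z := Nat.mul_le_mul_left _ hZ
    _ = _ := by rw [pow_succ]

lemma PB.pow {f : ℕ → ℕ} (hf : PB f) (m : ℕ) : PB (fun Z => f Z ^ m) := by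
  obtain ⟨E, h⟩ := hf
  refine ⟨E * m, fun Z hZ => ?_⟩
  rw [pow_mul]
  exact Nat.pow_le_pow_left (h Z hZ) m

lemma ev_pow (C m : ℕ) : ∃ k0, ∀ k, k0 ≤ k → C * k ^ m ≤ 2 ^ k := by
  have h := tendsto_pow_const_div_const_pow_of_one_lt m (one_lt_two (α := ℝ))
  have h1 : ∀ᶠ n : ℕ in Filter.atTop, (n : ℝ) ^ m / 2 ^ n < 1 / (C + 1) :=
    h.eventually (gt_mem_nhds (by positivity))
  obtain ⟨k0, hk0⟩ := Filter.eventually_atTop.mp h1
  refine ⟨k0, fun k hk => ?_⟩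
  have h2 := hk0 k hk
  have h3 : (0 : ℝ) < 2 ^ k := by positivity
  rw [div_lt_div_iff₀ h3 (by positivity)] at h2
  have h4 : (C : ℝ) * k ^ m ≤ 2 ^ k := by
    have h5 : (0 : ℝ) ≤ (k : ℝ) ^ m := by positivity
    nlinarith
  exact_mod_cast h4

/-- the failure probability is small -/
lemma fail_lt_one {d k D S E m sz : ℕ} (hk8 : 8 ≤ k)
    (hkα : 2 * sgr (d + 2) S * D + 4 ≤ k) (hkS : sgr (d + 2) S * S + 3 ≤ k)
    (h4 : 4 * k ^ (d + 1) ≤ 2 ^ k) (hα : (2 * sgr (d + 2) S * D + 2) * k ^ 2 ≤ 2 ^ k)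
    (hSE : (2 * sgr (d + 2) S * D + 5) * E + 1 ≤ sgr (d + 2) S * S)
    (hm : m * sz ≤ ((2 ^ k) ^ (2 * sgr (d + 2) S * D + 5)) ^ E) :
    fail d k (2 ^ k) ((2 ^ k) ^ (2 * sgr (d + 2) S * D + 1)) D S (2 ^ k) m sz < 1 := by
  set sg := sgr (d + 2) S with hsg
  set α := 2 * sg * D with hαdef
  set b : ℝ := (2 : ℝ) ^ k with hb
  have hb256 : (256 : ℝ) ≤ b := by
    calc (256 : ℝ) = 2 ^ 8 := by norm_num
      _ ≤ 2 ^ k := pow_le_pow_right₀ (by norm_num) hk8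
  have hb0 : 0 < b := by linarith
  have hkb : (k : ℝ) ≤ b := by
    have : k ≤ 2 ^ k := (Nat.lt_pow_self (by norm_num)).le
    rw [hb]; exact_mod_cast this
  have hk0 : (0 : ℝ) ≤ k := Nat.cast_nonneg k
  unfold fail
  rw [← hsg]
  push_cast
  rw [← hb]
  -- term 1
  have t1 : ((k : ℝ) + 2 * k * b) * (1 - (1 / b ^ (2 * sg)) ^ D) ^ ((2 ^ k) ^ (α + 1)) ≤ 1 / 8 := by
    have hbpos : 0 < b ^ α := by positivity
    have e0 : (1 / b ^ (2 * sg)) ^ D = 1 / b ^ α := by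
      rw [div_pow, one_pow, ← pow_mul]
    rw [e0]
    have h01 : 1 / b ^ α ≤ 1 := by
      rw [div_le_one hbpos]
      exact one_le_pow₀ (by linarith)
    have e1 : (1 - 1 / b ^ α) ^ ((2 ^ k) ^ (α + 1)) ≤ Real.exp (-b) := by
      have h1 : 1 - 1 / b ^ α ≤ Real.exp (-(1 / b ^ α)) := Real.one_sub_le_exp_neg _
      calc (1 - 1 / b ^ α) ^ ((2 ^ k) ^ (α + 1)) ≤
          (Real.exp (-(1 / b ^ α))) ^ ((2 ^ k) ^ (α + 1)) :=
            pow_le_pow_left₀ (by linarith) h1 _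
        _ = Real.exp (((2 ^ k) ^ (α + 1) : ℕ) * (-(1 / b ^ α))) := by
            rw [← Real.exp_nat_mul]
        _ = Real.exp (-b) := by
            congr 1
            push_cast
            rw [← hb, pow_succ]
            field_simp
    have e2 : Real.exp (-b) ≤ 6 / b ^ 3 := by
      have h1 := Real.pow_div_factorial_le_exp b hb0.le 3
      have h2 : (Nat.factorial 3 : ℝ) = 6 := by norm_num [Nat.factorial]
      rw [h2] at h1
      rw [Real.exp_neg, inv_eq_one_div, div_le_div_iff₀ (Real.exp_pos b) (by positivity)]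
      rw [div_le_iff₀ (by norm_num)] at h1
      linarith
    have e3 : (k : ℝ) + 2 * k * b ≤ 3 * b ^ 2 := by nlinarith
    calc _ ≤ (3 * b ^ 2) * (6 / b ^ 3) := by
          apply mul_le_mul e3 (e1.trans e2) _ (by positivity)
          exact pow_nonneg (by linarith) _
      _ = 18 / b := by field_simp; norm_num
      _ ≤ 1 / 8 := by rw [div_le_div_iff₀ hb0 (by norm_num)]; linarith
  -- term 2
  have t2 : (k * b * b ^ (α + 1)) * (1 / b) ^ k ≤ 1 / 8 := by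
    have h1 : b ^ (α + 4) ≤ b ^ k := pow_le_pow_right₀ (by linarith) hkα
    have h2 : (k : ℝ) * b * b ^ (α + 1) ≤ b ^ (α + 3) := by
      calc (k : ℝ) * b * b ^ (α + 1) ≤ b * b * b ^ (α + 1) := by gcongr
        _ = b ^ (α + 3) := by ring
    rw [one_div, inv_pow, ← div_eq_mul_inv, div_le_div_iff₀ (by positivity) (by norm_num)]
    have h3 : b ^ (α + 4) = b ^ (α + 3) * b := by ring
    have h4 : 0 < b ^ (α + 3) := by positivity
    nlinarith
  -- term 3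
  have t3 : ((b ^ (α + 1)) ^ k * k * (((k : ℝ)) ^ (d + 1)) ^ (2 ^ k)) * (1 / b) ^ (2 ^ k) ≤
      1 / 8 := by
    have h1 : (k : ℝ) ^ (d + 1) / b ≤ 1 / 4 := by
      rw [div_le_div_iff₀ hb0 (by norm_num)]
      have : ((4 * k ^ (d + 1) : ℕ) : ℝ) ≤ ((2 ^ k : ℕ) : ℝ) := by exact_mod_cast h4
      push_cast at this
      rw [← hb] at this
      linarith
    have h2 : (b ^ (α + 1)) ^ k * k ≤ 2 ^ (2 ^ k) := by
      have h3 : (k : ℝ) ≤ 2 ^ k := hkb
      calc (b ^ (α + 1)) ^ k * k ≤ (b ^ (α + 1)) ^ k * 2 ^ k := by gcongr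
        _ = (2 : ℝ) ^ (k * (α + 1) * k + k) := by
            rw [hb, ← pow_mul, ← pow_mul, ← pow_add, mul_assoc]
        _ ≤ 2 ^ (2 ^ k) := by
            apply pow_le_pow_right₀ (by norm_num)
            have : k ≤ k ^ 2 := by nlinarith
            calc k * (α + 1) * k + k ≤ k * (α + 1) * k + k ^ 2 := by omega
              _ = (α + 2) * k ^ 2 := by ring
              _ ≤ 2 ^ k := hα
    calc _ = ((b ^ (α + 1)) ^ k * k) * ((k : ℝ) ^ (d + 1) / b) ^ (2 ^ k) := by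
          rw [div_eq_mul_one_div ((k : ℝ) ^ (d + 1)) b, mul_pow]
          ring
      _ ≤ 2 ^ (2 ^ k) * (1 / 4) ^ (2 ^ k) := by
          apply mul_le_mul h2 _ (by positivity) (by positivity)
          exact pow_le_pow_left₀ (by positivity) h1 _
      _ = (1 / 2) ^ (2 ^ k) := by rw [← mul_pow]; norm_num
      _ ≤ (1 / 2) ^ 3 := by
          apply pow_le_pow_of_le_one (by norm_num) (by norm_num)
          calc 3 ≤ 2 ^ 8 := by norm_num
            _ ≤ 2 ^ k := Nat.pow_le_pow_right (by norm_num) hk8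
      _ = 1 / 8 := by norm_num
  -- term 4
  have t4 : (m : ℝ) * (sz * ((2 / b) ^ sg) ^ S) ≤ 1 / 8 := by
    have h1 : (m : ℝ) * sz ≤ (b ^ (α + 5)) ^ E := by
      have : ((m * sz : ℕ) : ℝ) ≤ (((2 ^ k) ^ (α + 5)) ^ E : ℕ) := by exact_mod_cast hm
      push_cast at this
      rwa [← hb] at this
    have h2 : b * (b ^ (α + 5)) ^ E ≤ b ^ (sg * S) := by
      rw [← pow_mul, ← pow_succ']
      exact pow_le_pow_right₀ (by linarith) hSE
    have h3 : (2 : ℝ) ^ (sg * S) * 8 ≤ b := by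
      calc (2 : ℝ) ^ (sg * S) * 8 = 2 ^ (sg * S + 3) := by rw [pow_add]; norm_num
        _ ≤ 2 ^ k := pow_le_pow_right₀ (by norm_num) hkS
    have h5 : 0 < b ^ (sg * S) := by positivity
    calc (m : ℝ) * (sz * ((2 / b) ^ sg) ^ S) = (m * sz) * (2 ^ (sg * S) / b ^ (sg * S)) := by
          rw [← pow_mul, div_pow]; ring
      _ ≤ (b ^ (α + 5)) ^ E * (2 ^ (sg * S) / b ^ (sg * S)) := by gcongr
      _ = ((b ^ (α + 5)) ^ E * 2 ^ (sg * S)) / b ^ (sg * S) := by ring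
      _ ≤ 1 / 8 := by
          rw [div_le_div_iff₀ h5 (by norm_num)]
          have h6 : 0 < (b ^ (α + 5)) ^ E := by positivity
          calc (b ^ (α + 5)) ^ E * 2 ^ (sg * S) * 8 = (b ^ (α + 5)) ^ E * (2 ^ (sg * S) * 8) := by
                ring
            _ ≤ (b ^ (α + 5)) ^ E * b := by gcongr
            _ = b * (b ^ (α + 5)) ^ E := by ring
            _ ≤ b ^ (sg * S) := h2
            _ = 1 * b ^ (sg * S) := by ring
  linarith

end

end Pool.Agent.Helper265_EW
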