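import Pool.Agent.Helper265_EW.GEvents
import Pool.Agent.Helper265_EW.Num
import Pool.Agent.Helper265_EW.Chain

set_option linter.unusedSectionVars false

/-! Numerical estimates for all numbers of blocks. -/

namespace Pool.Agent.Helper265_EW.G

open Finset Classical Pool.Agent.H592R2

noncomputable section

/-- the failure probability is small -/
lemma failG_lt_one {d k D S E cG0 cX m sz : ℕ} (hd : 1 ≤ d) (hk8 : 8 ≤ k)
    (hkα : 2 * (2 * sgr (d + 2) S * D) + 6 ≤ k) (hkS : sgr (d + 2) S * S + 3 ≤ k)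
    (h4 : 4 * (k ^ (d + 1)) ^ 2 ≤ 2 ^ k) (hX : 2 * ((2 * sgr (d + 2) S * D + 1) * k + 3) ≤ cX)
    (hG : cG0 * cX ≤ 2 ^ k)
    (hSE : (2 * sgr (d + 2) S * D + 5) * E + 1 ≤ sgr (d + 2) S * S)
    (hm : m * sz ≤ ((2 ^ k) ^ (2 * sgr (d + 2) S * D + 5)) ^ E) :
    failG d k ((2 ^ k) ^ (2 * sgr (d + 2) S * D + 1)) D S (2 ^ k) cG0 cX m sz < 1 := by
  set sg := sgr (d + 2) S with hsg
  set α := 2 * sg * D with hαdef
  set b : ℝ := (2 : ℝ) ^ k with hb
  have hb256 : (256 : ℝ) ≤ b := by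
    calc (256 : ℝ) = 2 ^ 8 := by norm_num
      _ ≤ 2 ^ k := pow_le_pow_right₀ (by norm_num) hk8
  have hb0 : 0 < b := by linarith
  have hb1 : 1 ≤ b := by linarith
  have hkb : (k : ℝ) ≤ b := by
    have : k ≤ 2 ^ k := (Nat.lt_pow_self (by norm_num)).le
    rw [hb]; exact_mod_cast this
  have hk0 : (0 : ℝ) ≤ k := Nat.cast_nonneg k
  have hGb : (cG0 : ℝ) * cX ≤ b := by
    have : ((cG0 * cX : ℕ) : ℝ) ≤ ((2 ^ k : ℕ) : ℝ) := by exact_mod_cast hG
    push_cast at this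
    exact this
  have hG0 : (0 : ℝ) ≤ (cG0 : ℝ) * cX := by positivity
  have hcX1 : 1 ≤ cX := by omega
  have hcG0 : (cG0 : ℝ) ≤ b := by
    have h1 : cG0 ≤ cG0 * cX := Nat.le_mul_of_pos_right _ hcX1
    have h2 : ((cG0 : ℕ) : ℝ) ≤ ((cG0 * cX : ℕ) : ℝ) := by exact_mod_cast h1
    push_cast at h2
    linarith
  unfold failG
  rw [← hsg]
  push_cast
  rw [← hb]
  -- term 1
  have t1 : ((k : ℝ) + 2 * k * (cG0 * cX)) *
      (1 - (1 / b ^ (2 * sg)) ^ D) ^ ((2 ^ k) ^ (α + 1)) ≤ 1 / 8 := by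
    have hbpos : 0 < b ^ α := by positivity
    have e0 : (1 / b ^ (2 * sg)) ^ D = 1 / b ^ α := by
      rw [div_pow, one_pow, ← pow_mul]
    rw [e0]
    have h01 : 1 / b ^ α ≤ 1 := by
      rw [div_le_one hbpos]
      exact one_le_pow₀ (by linarith)
    have e1 : (1 - 1 / b ^ α) ^ ((2 ^ k) ^ (α + 1)) ≤ Real.exp (-b) := by
      have h1 : 1 - 1 / b ^ α ≤ Real.exp (-(1 / b ^ α)) := Real.one_sub_le_exp_neg _
      calc (1 - 1 / b ^ α) ^ ((2 ^ k) ^ (α + 1)) ≤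
          (Real.exp (-(1 / b ^ α))) ^ ((2 ^ k) ^ (α + 1)) :=
            pow_le_pow_left₀ (by linarith) h1 _
        _ = Real.exp (((2 ^ k) ^ (α + 1) : ℕ) * (-(1 / b ^ α))) := by
            rw [← Real.exp_nat_mul]
        _ = Real.exp (-b) := by
            congr 1
            push_cast
            rw [← hb, pow_succ]
            field_simp
    have e2 : Real.exp (-b) ≤ 6 / b ^ 3 := by
      have h1 := Real.pow_div_factorial_le_exp b hb0.le 3
      have h2 : (Nat.factorial 3 : ℝ) = 6 := by norm_num [Nat.factorial]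
      rw [h2] at h1
      rw [Real.exp_neg, inv_eq_one_div, div_le_div_iff₀ (Real.exp_pos b) (by positivity)]
      rw [div_le_iff₀ (by norm_num)] at h1
      linarith
    have e3 : (k : ℝ) + 2 * k * (cG0 * cX) ≤ 3 * b ^ 2 := by
      have h5 : 2 * (k : ℝ) * (cG0 * cX) ≤ 2 * b * b := by
        apply mul_le_mul _ hGb hG0 (by positivity)
        linarith
      nlinarith
    calc _ ≤ (3 * b ^ 2) * (6 / b ^ 3) := by
          apply mul_le_mul e3 (e1.trans e2) _ (by positivity)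
          exact pow_nonneg (by linarith) _
      _ = 18 / b := by field_simp; norm_num
      _ ≤ 1 / 8 := by rw [div_le_div_iff₀ hb0 (by norm_num)]; linarith
  -- term 2
  have t2 : b * ((k * (cG0 * cX) * b ^ (α + 1)) * (b ^ (α + 1) * (1 / b) ^ k)) ≤ 1 / 8 := by
    have h1 : b ^ (2 * α + 6) ≤ b ^ k := pow_le_pow_right₀ hb1 hkα
    have h2 : b * ((k * (cG0 * cX) * b ^ (α + 1)) * b ^ (α + 1)) ≤ b ^ (2 * α + 5) := by
      calc b * ((k * (cG0 * cX) * b ^ (α + 1)) * b ^ (α + 1))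
          ≤ b * ((b * b * b ^ (α + 1)) * b ^ (α + 1)) := by gcongr
        _ = b ^ (2 * α + 5) := by ring
    calc b * ((k * (cG0 * cX) * b ^ (α + 1)) * (b ^ (α + 1) * (1 / b) ^ k))
        = (b * ((k * (cG0 * cX) * b ^ (α + 1)) * b ^ (α + 1))) / b ^ k := by
          rw [one_div, inv_pow]; ring
      _ ≤ b ^ (2 * α + 5) / b ^ k := by gcongr
      _ ≤ 1 / 8 := by
          rw [div_le_div_iff₀ (by positivity) (by norm_num)]
          have h3 : b ^ (2 * α + 6) = b ^ (2 * α + 5) * b := by ring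
          have h4 : 0 < b ^ (2 * α + 5) := by positivity
          nlinarith
  -- term 3
  have t3 : ((b ^ (α + 1)) ^ k * (k * (cG0 * ((k : ℝ) ^ (d + 1)) ^ cX))) * (1 / b) ^ cX ≤
      1 / 8 := by
    have h1 : ((k : ℝ) ^ (d + 1) / b) ^ 2 ≤ 1 / b := by
      rw [div_pow, div_le_div_iff₀ (by positivity) hb0]
      have : ((4 * (k ^ (d + 1)) ^ 2 : ℕ) : ℝ) ≤ ((2 ^ k : ℕ) : ℝ) := by exact_mod_cast h4
      push_cast at this
      rw [← hb] at this
      have h5 : (0 : ℝ) ≤ ((k : ℝ) ^ (d + 1)) ^ 2 := by positivity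
      nlinarith
    have h2 : (k : ℝ) ^ (d + 1) / b ≤ 1 := by
      have h5 : ((k : ℝ) ^ (d + 1) / b) ^ 2 ≤ 1 := h1.trans (by
        rw [div_le_one hb0]; exact hb1)
      by_contra h6
      push Not at h6
      nlinarith
    have h3 : ((k : ℝ) ^ (d + 1) / b) ^ cX ≤ (1 / b) ^ ((α + 1) * k + 3) := by
      calc ((k : ℝ) ^ (d + 1) / b) ^ cX ≤ ((k : ℝ) ^ (d + 1) / b) ^ (2 * ((α + 1) * k + 3)) :=
            pow_le_pow_of_le_one (by positivity) h2 hX
        _ = (((k : ℝ) ^ (d + 1) / b) ^ 2) ^ ((α + 1) * k + 3) := by rw [pow_mul]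
        _ ≤ _ := pow_le_pow_left₀ (by positivity) h1 _
    calc _ = ((b ^ (α + 1)) ^ k * (k * cG0)) * ((k : ℝ) ^ (d + 1) / b) ^ cX := by
          rw [div_eq_mul_one_div ((k : ℝ) ^ (d + 1)) b, mul_pow]
          ring
      _ ≤ ((b ^ (α + 1)) ^ k * (b * b)) * (1 / b) ^ ((α + 1) * k + 3) := by gcongr
      _ = 1 / b := by
          rw [← pow_mul, one_div, inv_pow]
          field_simp
          rw [← pow_add]
      _ ≤ 1 / 8 := one_div_le_one_div_of_le (by norm_num) (by linarith)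
  -- term 4
  have t4 : ((b ^ (α + 1)) ^ k * (k * (cG0 * cX) * b ^ (α + 1))) * (1 / b) ^ (k ^ (d + 1)) ≤
      1 / 8 := by
    have h1 : (α + 1) * k + (α + 4) ≤ k ^ (d + 1) := by
      calc (α + 1) * k + (α + 4) ≤ (α + 1) * k + (α + 5) * k := by
            apply Nat.add_le_add_left
            nlinarith
        _ = (2 * α + 6) * k := by ring
        _ ≤ k * k := Nat.mul_le_mul_right _ hkα
        _ = k ^ 2 := by ring
        _ ≤ k ^ (d + 1) := Nat.pow_le_pow_right (by omega) (by omega)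
    have h2 : b ^ ((α + 1) * k + (α + 4)) ≤ b ^ (k ^ (d + 1)) := pow_le_pow_right₀ hb1 h1
    calc ((b ^ (α + 1)) ^ k * (k * (cG0 * cX) * b ^ (α + 1))) * (1 / b) ^ (k ^ (d + 1))
        ≤ ((b ^ (α + 1)) ^ k * (b * b * b ^ (α + 1))) * (1 / b) ^ (k ^ (d + 1)) := by
          gcongr
      _ = b ^ ((α + 1) * k + (α + 3)) / b ^ (k ^ (d + 1)) := by
          rw [← pow_mul, one_div, inv_pow]; ring
      _ ≤ 1 / 8 := by
          rw [div_le_div_iff₀ (by positivity) (by norm_num)]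
          have h3 : b ^ ((α + 1) * k + (α + 4)) = b ^ ((α + 1) * k + (α + 3)) * b := by ring
          have h4 : 0 < b ^ ((α + 1) * k + (α + 3)) := by positivity
          nlinarith
  -- term 5
  have t5 : (m : ℝ) * (sz * ((2 / b) ^ sg) ^ S) ≤ 1 / 8 := by
    have h1 : (m : ℝ) * sz ≤ (b ^ (α + 5)) ^ E := by
      have : ((m * sz : ℕ) : ℝ) ≤ (((2 ^ k) ^ (α + 5)) ^ E : ℕ) := by exact_mod_cast hm
      push_cast at this
      rwa [← hb] at this
    have h2 : b * (b ^ (α + 5)) ^ E ≤ b ^ (sg * S) := by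
      rw [← pow_mul, ← pow_succ']
      exact pow_le_pow_right₀ (by linarith) hSE
    have h3 : (2 : ℝ) ^ (sg * S) * 8 ≤ b := by
      calc (2 : ℝ) ^ (sg * S) * 8 = 2 ^ (sg * S + 3) := by rw [pow_add]; norm_num
        _ ≤ 2 ^ k := pow_le_pow_right₀ (by norm_num) hkS
    have h5 : 0 < b ^ (sg * S) := by positivity
    calc (m : ℝ) * (sz * ((2 / b) ^ sg) ^ S) = (m * sz) * (2 ^ (sg * S) / b ^ (sg * S)) := by
          rw [← pow_mul, div_pow]; ring
      _ ≤ (b ^ (α + 5)) ^ E * (2 ^ (sg * S) / b ^ (sg * S)) := by gcongr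
      _ = ((b ^ (α + 5)) ^ E * 2 ^ (sg * S)) / b ^ (sg * S) := by ring
      _ ≤ 1 / 8 := by
          rw [div_le_div_iff₀ h5 (by norm_num)]
          have h6 : 0 < (b ^ (α + 5)) ^ E := by positivity
          calc (b ^ (α + 5)) ^ E * 2 ^ (sg * S) * 8 = (b ^ (α + 5)) ^ E * (2 ^ (sg * S) * 8) := by
                ring
            _ ≤ (b ^ (α + 5)) ^ E * b := by gcongr
            _ = b * (b ^ (α + 5)) ^ E := by ring
            _ ≤ b ^ (sg * S) := h2
            _ = 1 * b ^ (sg * S) := by ring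
  linarith

/-- small survival probability -/
lemma surv_le {c w e M : ℕ} (hc : 1 ≤ c) (hw : 1 ≤ w) (hM : c * w * e ≤ M) :
    (1 - 1 / ((c : ℝ) * w)) ^ M ≤ (1 / 2 : ℝ) ^ e := by
  have hcw : (1 : ℝ) ≤ (c : ℝ) * w := by
    have : 1 ≤ c * w := Nat.mul_pos hc hw
    exact_mod_cast this
  have h0 : (0 : ℝ) < (c : ℝ) * w := by linarith
  have h1 : 1 / ((c : ℝ) * w) ≤ 1 := by rw [div_le_one h0]; exact hcw
  have h2 : (1 - 1 / ((c : ℝ) * w)) ^ (c * w) ≤ 1 / 2 := by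
    have h3 : 1 - 1 / ((c : ℝ) * w) ≤ Real.exp (-(1 / ((c : ℝ) * w))) := Real.one_sub_le_exp_neg _
    calc (1 - 1 / ((c : ℝ) * w)) ^ (c * w) ≤ (Real.exp (-(1 / ((c : ℝ) * w)))) ^ (c * w) :=
          pow_le_pow_left₀ (by linarith) h3 _
      _ = Real.exp ((c * w : ℕ) * (-(1 / ((c : ℝ) * w)))) := by rw [← Real.exp_nat_mul]
      _ = Real.exp (-1) := by
          congr 1
          push_cast
          field_simp
      _ ≤ 1 / 2 := by
          rw [Real.exp_neg, one_div]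
          apply inv_anti₀ (by norm_num)
          have := Real.add_one_le_exp (1 : ℝ)
          linarith
  calc (1 - 1 / ((c : ℝ) * w)) ^ M ≤ (1 - 1 / ((c : ℝ) * w)) ^ (c * w * e) :=
        pow_le_pow_of_le_one (by linarith) (by
          have : 0 ≤ 1 / ((c : ℝ) * w) := by positivity
          linarith) hM
    _ = ((1 - 1 / ((c : ℝ) * w)) ^ (c * w)) ^ e := by rw [pow_mul]
    _ ≤ (1 / 2) ^ e := pow_le_pow_left₀ (pow_nonneg (by linarith) _) h2 _

/-- one step of the chain is numerically fine -/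
lemma stepFail_lt_one {cG s cI w cP cI0 cPP cLL e : ℕ} (hw : 1 ≤ w) (hcG : 8 * cG ≤ 2 ^ s)
    (hcP : 2 * w * e ≤ cP) (hcLL : 32 * w * e ≤ cLL) (hI : 8 * cI ≤ 2 ^ e)
    (hI0 : 8 * (cI0 * cPP) ≤ 2 ^ e) : stepFail cG s cI w cP cI0 cPP cLL < 1 := by
  unfold stepFail
  have h1 : (cG : ℝ) * (1 / 2) ^ s ≤ 1 / 8 := by
    have : ((8 * cG : ℕ) : ℝ) ≤ ((2 ^ s : ℕ) : ℝ) := by exact_mod_cast hcG
    push_cast at this
    rw [one_div, inv_pow, ← div_eq_mul_inv, div_le_div_iff₀ (by positivity) (by norm_num)]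
    linarith
  have h2 : (cI : ℝ) * (1 - 1 / (2 * (w : ℝ))) ^ cP ≤ 1 / 8 := by
    have h3 := surv_le (c := 2) (by norm_num) hw hcP
    push_cast at h3
    have : ((8 * cI : ℕ) : ℝ) ≤ ((2 ^ e : ℕ) : ℝ) := by exact_mod_cast hI
    push_cast at this
    calc (cI : ℝ) * (1 - 1 / (2 * (w : ℝ))) ^ cP ≤ cI * (1 / 2) ^ e :=
          mul_le_mul_of_nonneg_left h3 (by positivity)
      _ ≤ 1 / 8 := by
          rw [one_div, inv_pow, ← div_eq_mul_inv, div_le_div_iff₀ (by positivity) (by norm_num)]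
          linarith
  have h3 : ((cI0 : ℝ) * cPP) * (1 - 1 / (32 * (w : ℝ))) ^ cLL ≤ 1 / 8 := by
    have h3 := surv_le (c := 32) (by norm_num) hw hcLL
    push_cast at h3
    have : ((8 * (cI0 * cPP) : ℕ) : ℝ) ≤ ((2 ^ e : ℕ) : ℝ) := by exact_mod_cast hI0
    push_cast at this
    calc ((cI0 : ℝ) * cPP) * (1 - 1 / (32 * (w : ℝ))) ^ cLL ≤ (cI0 * cPP) * (1 / 2) ^ e :=
          mul_le_mul_of_nonneg_left h3 (by positivity)
      _ ≤ 1 / 8 := by
          rw [one_div, inv_pow, ← div_eq_mul_inv, div_le_div_iff₀ (by positivity) (by norm_num)]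
          linarith
  linarith

/-- all steps of the chain are numerically fine -/
lemma ok_all {cS : ℕ} {cJ : ℕ → ℕ} {cPP cLL s e t J0 : ℕ} (he : 1 ≤ e) (hs : 1 ≤ s)
    (hPP : 2 * s * e ≤ cPP) (hLL : 32 * s * e ≤ cLL)
    (hN : 8 * (cPP * cLL) ^ (t + 1) ≤ 2 ^ e)
    (hJ : ∀ i, i ≤ t → cJ i ≤ J0) (hSJ : 8 * (cS * J0) ≤ 2 ^ s) (hS : cS < 2 ^ (cPP * cLL)) :
    ∀ (m : ℕ), m ≤ t → ∀ (cP w : ℕ), 1 ≤ w → 2 * w * e ≤ cP → 32 * w * e ≤ cLL →
      Ok cS cJ cPP cLL s m cP w := by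
  have hcPP1 : 1 ≤ cPP := by
    have : 1 ≤ 2 * s * e := Nat.mul_pos (by omega) he
    omega
  have hcLL1 : 1 ≤ cLL := by
    have : 1 ≤ 32 * s * e := Nat.mul_pos (by omega) he
    omega
  have hN1 : 1 ≤ cPP * cLL := Nat.mul_pos hcPP1 hcLL1
  intro m
  induction m with
  | zero =>
    intro _ cP w hw hcP hcLL
    show cS * w ^ (cPP * cLL) < cP ^ (cPP * cLL)
    have h1 : 2 * w ≤ cP := by
      calc 2 * w = 2 * w * 1 := by ring
        _ ≤ 2 * w * e := Nat.mul_le_mul_left _ he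
        _ ≤ cP := hcP
    calc cS * w ^ (cPP * cLL) < 2 ^ (cPP * cLL) * w ^ (cPP * cLL) :=
          Nat.mul_lt_mul_of_pos_right hS (Nat.pow_pos hw)
      _ = (2 * w) ^ (cPP * cLL) := by rw [mul_pow]
      _ ≤ cP ^ (cPP * cLL) := Nat.pow_le_pow_left h1 _
  | succ m ih =>
    intro hmt cP w hw hcP hcLL
    refine ⟨?_, ih (by omega) cPP s hs hPP hLL⟩
    apply stepFail_lt_one (e := e) hw _ hcP hcLL
    · refine le_trans (Nat.mul_le_mul_left _ (Nat.pow_le_pow_right hN1 ?_)) hN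
      omega
    · refine le_trans (Nat.mul_le_mul_left _ ?_) hN
      calc (cPP * cLL) ^ (m + 1) * cPP ≤ (cPP * cLL) ^ (m + 1) * (cPP * cLL) :=
            Nat.mul_le_mul_left _ (Nat.le_mul_of_pos_right _ hcLL1)
        _ = (cPP * cLL) ^ (m + 2) := by ring
        _ ≤ (cPP * cLL) ^ (t + 1) := Nat.pow_le_pow_right hN1 (by omega)
    · refine le_trans (Nat.mul_le_mul_left _ (Nat.mul_le_mul_left _ (hJ _ (by omega)))) hSJ

end

end Pool.Agent.Helper265_EW.G
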