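import Pool.Agent.Helper265_EW.Params
import Pool.Agent.Helper265_EW.Alt

set_option linter.unusedSectionVars false

/-! The source instance for all numbers of quantifier blocks: planted sets in random tables. The
flag `ev` is true for an even number of blocks. -/

namespace Pool.Agent.Helper265_EW.G

open Finset Classical Pool.Agent.H592R2

noncomputable section

/-- truth value of a proposition -/
def bdec (p : Prop) : Bool := @decide p (Classical.propDecidable p)

lemma bdec_iff {p : Prop} : bdec p = true ↔ p := by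
  unfold bdec; exact @decide_eq_true_iff p (Classical.propDecidable p)

lemma bdec_false {p : Prop} : bdec p = false ↔ ¬ p := by
  unfold bdec; exact @decide_eq_false_iff_not p (Classical.propDecidable p)

lemma bdec_congr {p q : Prop} (h : p ↔ q) : bdec p = bdec q := by
  have : p = q := propext h
  rw [this]

/-- rows (type, group, index) and vertices (part, index) -/
abbrev Vt (k : ℕ) (G : Type) (B : ℕ) : Type := (Fin k × G × Fin B) ⊕ (Fin k × Fin B)

/-- majority value -/
def mj {d k B : ℕ} {G : Type} (ev : Bool) (t : Fin (d + 2) → Vt k G B) (s : Fin (d + 2) → Bool) :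
    Bool :=
  ev && bdec ((∃ i g b b', t 0 = Sum.inl (i, g, b) ∧ t 1 = Sum.inr (i, b')) ∧ s 0 = false ∧
    ∀ j : Fin (d + 1), s j.succ = true)

/-- the universe of the source structure -/
abbrev Un (k : ℕ) (G0 X : Type) (B : ℕ) : Type := (Vt k (G0 × X) B ⊕ Fin k) ⊕ X

/-- the relation of the source structure for a valid label -/
def encB {d k B : ℕ} {G0 X : Type} (ev : Bool) (lab : G0)
    (z : Tb (d + 2) (Vt k (G0 × X) B)) (t : Fin (d + 2) → Un k G0 X B) : Bool :=
  match t 0 with
  | Sum.inl (Sum.inl (Sum.inl x)) => bdec ((x.2.1.1 = lab ∧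
      ∃ w : Fin (d + 1) → Fin k × Fin B,
        (∀ j : Fin (d + 1), t j.succ = Sum.inl (Sum.inl (Sum.inr (w j)))) ∧
        (ev = true ∨ ∀ l l', (w l).1 = (w l').1 → w l = w l') ∧
        z (Fin.cons (Sum.inl x) (fun j => Sum.inr (w j))) = true) ∨
      (x.2.1.1 ≠ lab ∧ ev = true))
  | Sum.inl (Sum.inl (Sum.inr _)) => ev
  | Sum.inl (Sum.inr i) => ev && bdec (∃ b, t 1 = Sum.inl (Sum.inl (Sum.inr (i, b))))
  | Sum.inr _ => ev

variable {D d k B : ℕ} {G0 X : Type} [Fintype G0] [DecidableEq G0] [Fintype X] [DecidableEq X]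
  {τ : Type} [Fintype τ] [Nonempty τ] [DecidableEq τ]

/-- status sets of elements that die exactly in the last round -/
def lastB (A : Finset τ) (i : Fin D) : Finset τ := if i.val + 1 = D then Finset.univ \ A else A

/-- alive, in terms of the statuses -/
def AlS {V : Type} (A : Finset τ) (st : Fin D × V → τ) (v : V) : Prop := ∀ i : Fin D, st (i, v) ∈ A

lemma AlS_iff {V : Type} {r : ℕ} (A : Finset τ) (ω : Cd D r V → τ) (v : V) :
    AlS A (sts ω) v ↔ Al A D ω v :=
  ⟨fun h i _ => h i, fun h i => h i i.2⟩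

section picks
variable [NeZero B] [NeZero k] {G : Type}

/-- picked vertices -/
def pv (A : Finset τ) (st : Fin D × Vt k G B → τ) (i : Fin k) : Fin B :=
  Classical.epsilon (fun b => AlS A st (Sum.inr (i, b)))

/-- picked rows -/
def pr (A : Finset τ) (st : Fin D × Vt k G B → τ) (g : G) : Fin B :=
  Classical.epsilon (fun b => AlS A st (Sum.inl (0, g, b)))

/-- picked rows dying last -/
def lr (A : Finset τ) (st : Fin D × Vt k G B → τ) (i : Fin k) (g : G) : Fin B :=
  Classical.epsilon (fun b => ∀ j : Fin D, st (j, Sum.inl (i, g, b)) ∈ lastB A j)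

/-- tuples at a row for a choice of vertices -/
def tup4 (u : Fin k → Fin B) (x : Fin k × G × Fin B) (c : Fin (d + 1) → Fin k) :
    Fin (d + 2) → Vt k G B :=
  Fin.cons (Sum.inl x) (fun l : Fin (d + 1) => Sum.inr (c l, u (c l)))

/-- two-valued choices of parts -/
def cc (i j : Fin k) : Fin (d + 1) → Fin k := fun l => if l = 0 then i else j

/-- mixed choice of vertices -/
def mixu (Dd : Finset (Fin k)) (u s : Fin k → Fin B) : Fin k → Fin B :=
  fun i => if i ∈ Dd then u i else s i

/-- the good event, even case -/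
structure GoodE (A Mi : Finset τ) (ω : Cd D (d + 2) (Vt k (G0 × X) B) → τ) : Prop where
  g1 : ∀ i, ∃ b, AlS A (sts ω) (Sum.inr (i, b))
  g2 : ∀ g, ∃ b, AlS A (sts ω) (Sum.inl (0, g, b))
  g5 : ∀ i g, ∃ b, ∀ j : Fin D, sts ω (j, Sum.inl (i, g, b)) ∈ lastB A j
  g3 : ∀ x : Fin k × (G0 × X) × Fin B, ∃ j : Fin k,
    ω (Sum.inr (tup4 (pv A (sts ω)) x (cc x.1 j))) ∉ Mi
  g4 : ∀ (u : Fin k → Fin B) (i : Fin k) (g : G0), ∃ y : X, ∀ c : Fin (d + 1) → Fin k,
    ω (Sum.inr (tup4 u (i, (g, y), lr A (sts ω) i (g, y)) c)) ∉ Mi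

/-- the good event, odd case -/
structure GoodO (A Mi : Finset τ) (ω : Cd D (d + 2) (Vt k (G0 × X) B) → τ) : Prop where
  g1 : ∀ i, ∃ b, AlS A (sts ω) (Sum.inr (i, b))
  g2 : ∀ g, ∃ b, AlS A (sts ω) (Sum.inl (0, g, b))
  o1 : ∀ (u : Fin k → Fin B) (x : Fin k × (G0 × X) × Fin B), ∃ c : Fin (d + 1) → Fin k,
    ω (Sum.inr (tup4 u x c)) ∉ Mi
  o2 : ∀ (Dd : Finset (Fin k)) (u : Fin k → Fin B) (x : Fin k × (G0 × X) × Fin B),
    Dd.Nonempty → ∃ i ∈ Dd, ∃ j,
      ω (Sum.inr (tup4 (mixu Dd u (pv A (sts ω))) x (cc i j))) ∉ Mi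

/-- the planted table -/
def emb (ev : Bool) (s : Fin k → Fin B) (p : G → Fin B)
    (q : G → (Fin (d + 1) → Fin k) → Bool) : Tb (d + 2) (Vt k G B) :=
  fun t => match t 0 with
  | Sum.inl (i, g, b) => bdec (((i = 0 ∧ b = p g) ∧
      ∃ c : Fin (d + 1) → Fin k, (∀ j : Fin (d + 1), t j.succ = Sum.inr (c j, s (c j))) ∧
        q g c = true) ∨ (¬ (i = 0 ∧ b = p g) ∧ ev = true))
  | Sum.inr _ => ev

/-- value of the relation at a row -/
lemma encB_row_gen (ev : Bool) (lab : G0) (z : Tb (d + 2) (Vt k (G0 × X) B))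
    (x : Fin k × (G0 × X) × Fin B) (y : Fin (d + 1) → Un k G0 X B) :
    encB ev lab z (Fin.cons (Sum.inl (Sum.inl (Sum.inl x))) y) = true ↔
      (x.2.1.1 = lab ∧ ∃ w : Fin (d + 1) → Fin k × Fin B,
        (∀ j : Fin (d + 1), y j = Sum.inl (Sum.inl (Sum.inr (w j)))) ∧
        (ev = true ∨ ∀ l l', (w l).1 = (w l').1 → w l = w l') ∧
        z (Fin.cons (Sum.inl x) (fun j => Sum.inr (w j))) = true) ∨
      (x.2.1.1 ≠ lab ∧ ev = true) := bdec_iff

/-- value of the relation at a row with matching label -/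
lemma encB_row (ev : Bool) (z : Tb (d + 2) (Vt k (G0 × X) B)) (x : Fin k × (G0 × X) × Fin B)
    (w : Fin (d + 1) → Fin k × Fin B) :
    encB ev x.2.1.1 z (Fin.cons (Sum.inl (Sum.inl (Sum.inl x)))
      (fun j => Sum.inl (Sum.inl (Sum.inr (w j))))) = true ↔
      (ev = true ∨ ∀ l l', (w l).1 = (w l').1 → w l = w l') ∧
      z (Fin.cons (Sum.inl x) (fun j => Sum.inr (w j))) = true := by
  rw [encB_row_gen]
  constructor
  · rintro (⟨-, w', hw', h1, h2⟩ | ⟨h, -⟩)
    · have : w' = w := by
        funext j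
        have := hw' j
        simp only [Sum.inl.injEq, Sum.inr.injEq] at this
        exact this.symm
      rw [this] at h1 h2
      exact ⟨h1, h2⟩
    · exact absurd rfl h
  · rintro ⟨h1, h2⟩
    exact Or.inl ⟨rfl, w, fun _ => rfl, h1, h2⟩

lemma tup4_cons (u : Fin k → Fin B) (x : Fin k × G × Fin B) (c : Fin (d + 1) → Fin k) :
    (Fin.cons (Sum.inl x) (fun j => Sum.inr (c j, u (c j))) : Fin (d + 2) → Vt k G B) =
      tup4 u x c := rfl

/-- the row value of the planted table -/
lemma emb_row (ev : Bool) (s u : Fin k → Fin B) (p : G → Fin B)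
    (q : G → (Fin (d + 1) → Fin k) → Bool) (i : Fin k) (g : G) (b : Fin B)
    (c : Fin (d + 1) → Fin k) :
    emb ev s p q (tup4 u (i, g, b) c) = true ↔
      ((i = 0 ∧ b = p g) ∧ (∀ j : Fin (d + 1), u (c j) = s (c j)) ∧ q g c = true) ∨
      (¬ (i = 0 ∧ b = p g) ∧ ev = true) := by
  have h0 : emb ev s p q (tup4 u (i, g, b) c) = true ↔ ((i = 0 ∧ b = p g) ∧
      (∃ c' : Fin (d + 1) → Fin k,
        (∀ j : Fin (d + 1), (Sum.inr (c j, u (c j)) : Vt k G B) = Sum.inr (c' j, s (c' j))) ∧
        q g c' = true)) ∨ (¬ (i = 0 ∧ b = p g) ∧ ev = true) := bdec_iff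
  rw [h0]
  apply or_congr_left
  apply and_congr_right
  intro _
  constructor
  · rintro ⟨c', hc', hq⟩
    have : c' = c := by
      funext j
      have := hc' j
      simp only [Sum.inr.injEq, Prod.mk.injEq] at this
      exact this.1.symm
    subst this
    refine ⟨fun j => ?_, hq⟩
    have := hc' j
    simp only [Sum.inr.injEq, Prod.mk.injEq, true_and] at this
    exact this
  · rintro ⟨h1, h2⟩
    exact ⟨c, fun j => by rw [h1 j], h2⟩

/-- the planted set -/
def S0 (G0 X : Type) [Fintype G0] [DecidableEq G0] [Fintype X] [DecidableEq X]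
    (s : Fin k → Fin B) : Finset (Un k G0 X B) :=
  (Finset.univ : Finset (Fin k)).image (fun i => Sum.inl (Sum.inl (Sum.inr (i, s i))))

lemma S0_inj (s : Fin k → Fin B) : Function.Injective
    (fun i : Fin k => (Sum.inl (Sum.inl (Sum.inr (i, s i))) : Un k G0 X B)) := by
  intro i i' h
  simp only [Sum.inl.injEq, Sum.inr.injEq, Prod.mk.injEq] at h
  exact h.1

lemma S0_card (s : Fin k → Fin B) : (S0 G0 X s).card = k := by
  rw [S0, Finset.card_image_of_injective _ (S0_inj s), Finset.card_univ, Fintype.card_fin]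

lemma S0_mem (s : Fin k → Fin B) (i : Fin k) :
    (Sum.inl (Sum.inl (Sum.inr (i, s i))) : Un k G0 X B) ∈ S0 G0 X s :=
  Finset.mem_image_of_mem _ (Finset.mem_univ i)

/-- a set of size `k` with a vertex in every part is a transversal -/
lemma eq_S0 (S : Finset (Un k G0 X B)) (hS : S.card = k) (u : Fin k → Fin B)
    (hu : ∀ i, (Sum.inl (Sum.inl (Sum.inr (i, u i))) : Un k G0 X B) ∈ S) : S0 G0 X u = S := by
  apply Finset.eq_of_subset_of_card_le
  · intro x hx
    obtain ⟨i, -, rfl⟩ := Finset.mem_image.mp hx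
    exact hu i
  · rw [S0_card, hS]

lemma mem_S0_iff {u : Fin k → Fin B} {y : Un k G0 X B} :
    y ∈ S0 G0 X u ↔ ∃ i, y = Sum.inl (Sum.inl (Sum.inr (i, u i))) := by
  constructor
  · intro h
    obtain ⟨i, -, hi⟩ := Finset.mem_image.mp h
    exact ⟨i, hi.symm⟩
  · rintro ⟨i, rfl⟩; exact S0_mem u i

/-- values at dead tuples of a row -/
lemma dead_val [Fintype G] [DecidableEq G] (ev : Bool) (A Mi : Finset τ) (ω : Cd D (d + 2) (Vt k G B) → τ)
    (z : Tb (d + 2) (Vt k G B)) (u : Fin k → Fin B) (x : Fin k × G × Fin B)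
    (c : Fin (d + 1) → Fin k) (hcoin : ω (Sum.inr (tup4 u x c)) ∉ Mi)
    (hdead : ¬ ∀ j, Al A D ω ((tup4 u x c : Fin (d + 2) → Vt k G B) j)) :
    ∃ i' : Fin D, (∀ j, Al A i'.val ω ((tup4 u x c : Fin (d + 2) → Vt k G B) j)) ∧
      (¬ ∀ j, ω (Sum.inl (i', (tup4 u x c : Fin (d + 2) → Vt k G B) j)) ∈ A) ∧
      rho A Mi (mj ev) D ω z (tup4 u x c) =
        mj ev (tup4 u x c : Fin (d + 2) → Vt k G B) (pat A i' ω (tup4 u x c)) := by
  obtain ⟨i', -, hbef, hnot, hval⟩ := rho_dead_val A Mi (mj ev) D le_rfl ω z (tup4 u x c) hdead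
  refine ⟨i', hbef, hnot, ?_⟩
  rw [hval]
  simp only [rv, hcoin, decide_false, Bool.xor_false]

theorem even_a (A Mi : Finset τ) (ω : Cd D (d + 2) (Vt k (G0 × X) B) → τ) (hG : GoodE A Mi ω)
    (q : (G0 × X) → (Fin (d + 1) → Fin k) → Bool) (S : Finset (Un k G0 X B)) (hcard : S.card = k)
    (lab : G0)
    (hS : ∀ r : Un k G0 X B, ∃ y : Fin (d + 1) → Un k G0 X B, (∀ j, y j ∈ S) ∧
      encB true lab (rho A Mi (mj true) D ω (emb true (pv A (sts ω)) (pr A (sts ω)) q))
        (Fin.cons r y) = true) :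
    ∀ y : X, ∃ c, q (lab, y) c = true := by
  set s := pv A (sts ω) with hs
  set p := pr A (sts ω) with hp
  have hpal : ∀ g, Al A D ω (Sum.inl (0, g, p g)) := by
    intro g
    rw [← AlS_iff]
    exact Classical.epsilon_spec (hG.g2 g)
  have hlr : ∀ i g, ∀ j : Fin D, ω (Sum.inl (j, Sum.inl (i, g, lr A (sts ω) i g))) ∈ lastB A j := by
    intro i g
    exact Classical.epsilon_spec (hG.g5 i g)
  intro y0
  -- one vertex in every part
  have hpart : ∀ i : Fin k, ∃ b, (Sum.inl (Sum.inl (Sum.inr (i, b))) : Un k G0 X B) ∈ S := by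
    intro i
    obtain ⟨y, hy, hE⟩ := hS (Sum.inl (Sum.inr i))
    have h1 : (true && bdec (∃ b, y 0 = Sum.inl (Sum.inl (Sum.inr (i, b))))) = true := hE
    rw [Bool.true_and] at h1
    obtain ⟨b, hb⟩ := bdec_iff.mp h1
    exact ⟨b, hb ▸ hy 0⟩
  choose u hu using hpart
  have hSeq := eq_S0 S hcard u hu
  have hrow : ∀ x : Fin k × (G0 × X) × Fin B, x.2.1.1 = lab → ∃ c : Fin (d + 1) → Fin k,
      rho A Mi (mj true) D ω (emb true s p q) (tup4 u x c) = true := by
    intro x hx
    obtain ⟨y, hy, hE⟩ := hS (Sum.inl (Sum.inl (Sum.inl x)))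
    have h1 : ∀ j, ∃ i, y j = Sum.inl (Sum.inl (Sum.inr (i, u i))) := by
      intro j
      have := hy j
      rw [← hSeq] at this
      exact mem_S0_iff.mp this
    choose c hc using h1
    refine ⟨c, ?_⟩
    have h2 : y = fun j => Sum.inl (Sum.inl (Sum.inr (c j, u (c j)))) := by
      funext j; exact hc j
    rw [h2, ← hx] at hE
    exact ((encB_row true _ x _).mp hE).2
  by_cases hdead : ∃ i, ¬ Al A D ω (Sum.inr (i, u i))
  · exfalso
    obtain ⟨i, hi⟩ := hdead
    obtain ⟨y1, hg⟩ := hG.g4 u i lab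
    obtain ⟨c, hc⟩ := hrow (i, (lab, y1), lr A (sts ω) i (lab, y1)) rfl
    set t : Fin (d + 2) → Vt k (G0 × X) B := tup4 u (i, (lab, y1), lr A (sts ω) i (lab, y1)) c
      with ht
    have ht0 : t 0 = Sum.inl (i, (lab, y1), lr A (sts ω) i (lab, y1)) := rfl
    have hts : ∀ j : Fin (d + 1), t j.succ = Sum.inr (c j, u (c j)) := fun j => rfl
    have hl := hlr i (lab, y1)
    have hnal : ¬ ∀ j, Al A D ω (t j) := by
      intro hall
      apply hi
      by_cases hD : 0 < D
      · have h0 := hall 0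
        rw [ht0] at h0
        have h1 := hl ⟨D - 1, by omega⟩
        have h2 := h0 ⟨D - 1, by omega⟩ (by simp; omega)
        simp only [lastB] at h1
        rw [if_pos (by omega)] at h1
        exact absurd h2 (Finset.mem_sdiff.mp h1).2
      · intro j hj
        exact absurd j.2 (by omega)
    obtain ⟨i', hbef, hnot, hval⟩ := dead_val true A Mi ω (emb true s p q) u _ c (hg c) hnal
    rw [hval] at hc
    simp only [mj, Bool.true_and] at hc
    obtain ⟨⟨i1, g1, b1, b1', h01, h11⟩, hs0, hsj⟩ := bdec_iff.mp hc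
    have h01' : t 0 = Sum.inl (i1, g1, b1) := h01
    rw [ht0] at h01'
    simp only [Sum.inl.injEq, Prod.mk.injEq] at h01'
    have h11' : t (Fin.succ 0) = Sum.inr (i1, b1') := h11
    rw [hts 0] at h11'
    simp only [Sum.inr.injEq, Prod.mk.injEq] at h11'
    -- the row died in the last round
    have hlast : i'.val + 1 = D := by
      by_contra hne
      have h1 := hl i'
      simp only [lastB, if_neg hne] at h1
      have hs0' : pat A i' ω t 0 = false := hs0
      simp only [pat] at hs0'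
      rw [ht0] at hs0'
      exact absurd h1 (of_decide_eq_false hs0')
    apply hi
    have h3 : (Sum.inr (i, u i) : Vt k (G0 × X) B) = t (Fin.succ 0) := by
      rw [hts 0]
      rw [show c 0 = i from h11'.1.trans h01'.1.symm]
    rw [h3]
    intro j hj
    rcases Nat.lt_or_ge j.val i'.val with h | h
    · exact hbef (Fin.succ 0) j h
    · have hj' : j = i' := by
        apply Fin.ext; omega
      rw [hj']
      exact of_decide_eq_true (hsj 0)
  · push Not at hdead
    obtain ⟨c, hc⟩ := hrow (0, (lab, y0), p (lab, y0)) rfl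
    have hal : ∀ j, Al A D ω
        ((tup4 u (0, (lab, y0), p (lab, y0)) c : Fin (d + 2) → Vt k (G0 × X) B) j) := by
      intro j
      refine Fin.cases ?_ ?_ j
      · exact hpal (lab, y0)
      · intro l
        exact hdead (c l)
    rw [rho_alive _ _ _ _ _ _ _ hal, emb_row] at hc
    rcases hc with hc | hc
    · exact ⟨c, hc.2.2⟩
    · exact absurd ⟨rfl, rfl⟩ hc.1

theorem even_b (A Mi : Finset τ) (ω : Cd D (d + 2) (Vt k (G0 × X) B) → τ) (hG : GoodE A Mi ω)
    (q : (G0 × X) → (Fin (d + 1) → Fin k) → Bool)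
    (lab : G0) (hq : ∀ y : X, ∃ c, q (lab, y) c = true) (r : Un k G0 X B) :
    ∃ y : Fin (d + 1) → Un k G0 X B, (∀ j, y j ∈ S0 G0 X (pv A (sts ω))) ∧
      encB true lab (rho A Mi (mj true) D ω (emb true (pv A (sts ω)) (pr A (sts ω)) q))
        (Fin.cons r y) = true := by
  set s := pv A (sts ω) with hs
  set p := pr A (sts ω) with hp
  have hsal : ∀ i, Al A D ω (Sum.inr (i, s i)) := by
    intro i
    rw [← AlS_iff]
    exact Classical.epsilon_spec (hG.g1 i)
  rcases r with ((x | v) | i) | a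
  · obtain ⟨i, g, b⟩ := x
    by_cases hlab : g.1 = lab
    swap
    · refine ⟨fun _ => Sum.inl (Sum.inl (Sum.inr (i, s i))), fun _ => S0_mem s i, ?_⟩
      exact (encB_row_gen true lab _ (i, g, b) _).mpr (Or.inr ⟨hlab, rfl⟩)
    subst hlab
    by_cases hrow : Al A D ω (Sum.inl (i, g, b))
    · -- alive row
      by_cases hb : i = 0 ∧ b = p g
      · obtain ⟨c, hc⟩ := hq g.2
        refine ⟨fun j => Sum.inl (Sum.inl (Sum.inr (c j, s (c j)))), fun j => S0_mem s (c j), ?_⟩
        refine (encB_row true _ (i, g, b) (fun j => (c j, s (c j)))).mpr ⟨Or.inl rfl, ?_⟩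
        have hal : ∀ j, Al A D ω
            ((tup4 s (i, g, b) c : Fin (d + 2) → Vt k (G0 × X) B) j) := by
          intro j
          refine Fin.cases ?_ ?_ j
          · exact hrow
          · intro l
            exact hsal (c l)
        rw [tup4_cons, rho_alive _ _ _ _ _ _ _ hal, emb_row]
        exact Or.inl ⟨hb, fun _ => rfl, hc⟩
      · refine ⟨fun _ => Sum.inl (Sum.inl (Sum.inr (i, s i))), fun _ => S0_mem s i, ?_⟩
        refine (encB_row true _ (i, g, b) (fun _ => (i, s i))).mpr ⟨Or.inl rfl, ?_⟩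
        have hal : ∀ j, Al A D ω
            ((tup4 s (i, g, b) (fun _ => i) : Fin (d + 2) → Vt k (G0 × X) B) j) := by
          intro j
          refine Fin.cases ?_ ?_ j
          · exact hrow
          · intro l
            exact hsal i
        have h1 := rho_alive A Mi (mj true) D ω (emb true s p q) _ hal
        have h2 : (Fin.cons (Sum.inl (i, g, b)) (fun _ => Sum.inr (i, s i)) :
          Fin (d + 2) → Vt k (G0 × X) B) = tup4 s (i, g, b) (fun _ => i) := rfl
        rw [h2, h1, emb_row]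
        exact Or.inr ⟨hb, rfl⟩
    · -- dead row
      obtain ⟨j, hj⟩ := hG.g3 (i, g, b)
      refine ⟨fun l => Sum.inl (Sum.inl (Sum.inr (cc i j l, s (cc i j l)))),
        fun l => S0_mem s _, ?_⟩
      refine (encB_row true _ (i, g, b) (fun l => (cc i j l, s (cc i j l)))).mpr ⟨Or.inl rfl, ?_⟩
      rw [tup4_cons]
      set t : Fin (d + 2) → Vt k (G0 × X) B := tup4 s (i, g, b) (cc i j) with ht
      have ht0 : t 0 = Sum.inl (i, g, b) := rfl
      have hts : ∀ l : Fin (d + 1), t l.succ = Sum.inr (cc i j l, s (cc i j l)) := fun l => rfl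
      have hnal : ¬ ∀ j, Al A D ω (t j) := fun h => hrow (ht0 ▸ h 0)
      obtain ⟨i', hbef, hnot, hval⟩ := dead_val true A Mi ω (emb true s p q) s (i, g, b) (cc i j)
        hj hnal
      rw [hval]
      have hvs : ∀ l : Fin (d + 1), ω (Sum.inl (i', t l.succ)) ∈ A := by
        intro l
        rw [hts l]
        exact hsal (cc i j l) i' i'.2
      simp only [mj, Bool.true_and]
      apply bdec_iff.mpr
      refine ⟨⟨i, g, b, s i, rfl, ?_⟩, ?_, ?_⟩
      · have : t (Fin.succ 0) = Sum.inr (i, s i) := by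
          rw [hts 0]
          simp only [cc, if_true]
        exact this
      · apply decide_eq_false
        intro h0
        apply hnot
        intro l
        refine Fin.cases h0 hvs l
      · intro l
        exact decide_eq_true (hvs l)
  · exact ⟨fun _ => Sum.inl (Sum.inl (Sum.inr (0, s 0))), fun _ => S0_mem s 0, rfl⟩
  · refine ⟨fun _ => Sum.inl (Sum.inl (Sum.inr (i, s i))), fun _ => S0_mem s i, ?_⟩
    have h0 : encB true lab (rho A Mi (mj true) D ω (emb true s p q))
        (Fin.cons (Sum.inl (Sum.inr i))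
          (fun _ => Sum.inl (Sum.inl (Sum.inr (i, s i))))) = (true &&
        bdec (∃ b, (Sum.inl (Sum.inl (Sum.inr (i, s i))) : Un k G0 X B) =
          Sum.inl (Sum.inl (Sum.inr (i, b))))) := rfl
    rw [h0, Bool.true_and]
    exact bdec_iff.mpr ⟨s i, rfl⟩
  · exact ⟨fun _ => Sum.inl (Sum.inl (Sum.inr (0, s 0))), fun _ => S0_mem s 0, rfl⟩

theorem odd_a (hd : 1 ≤ d) (A Mi : Finset τ) (ω : Cd D (d + 2) (Vt k (G0 × X) B) → τ)
    (hG : GoodO A Mi ω)
    (q : (G0 × X) → (Fin (d + 1) → Fin k) → Bool) (S : Finset (Un k G0 X B)) (hcard : S.card = k)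
    (lab : G0)
    (hS : ∃ r : Un k G0 X B, ∀ y : Fin (d + 1) → Un k G0 X B, (∀ j, y j ∈ S) →
      encB false lab (rho A Mi (mj false) D ω (emb false (pv A (sts ω)) (pr A (sts ω)) q))
        (Fin.cons r y) = true) :
    ∃ y : X, ∀ c, q (lab, y) c = true := by
  set s := pv A (sts ω) with hs
  set p := pr A (sts ω) with hp
  have hk : 0 < k := Nat.pos_of_ne_zero (NeZero.ne k)
  obtain ⟨r, hr⟩ := hS
  have hSne : S.Nonempty := by
    rw [← Finset.card_pos, hcard]; exact hk
  obtain ⟨y00, hy00⟩ := hSne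
  rcases r with ((x | v) | i) | a
  swap
  · have := hr (fun _ => y00) (fun _ => hy00)
    exact absurd this (by simp [encB])
  swap
  · have := hr (fun _ => y00) (fun _ => hy00)
    exact absurd this (by simp [encB])
  swap
  · have := hr (fun _ => y00) (fun _ => hy00)
    exact absurd this (by simp [encB])
  obtain ⟨i, g, b⟩ := x
  by_cases hlab : g.1 = lab
  swap
  · have := (encB_row_gen false lab _ (i, g, b) _).mp (hr (fun _ => y00) (fun _ => hy00))
    rcases this with h | h
    · exact absurd h.1 hlab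
    · exact absurd h.2 (by simp)
  subst hlab
  -- all elements are vertices, in different parts
  have hval : ∀ y : Fin (d + 1) → Un k G0 X B, (∀ j, y j ∈ S) →
      ∃ w : Fin (d + 1) → Fin k × Fin B, (∀ j, y j = Sum.inl (Sum.inl (Sum.inr (w j)))) ∧
        (∀ l l', (w l).1 = (w l').1 → w l = w l') ∧
        rho A Mi (mj false) D ω (emb false s p q)
          (Fin.cons (Sum.inl (i, g, b)) (fun j => Sum.inr (w j))) = true := by
    intro y hy
    have h1 := (encB_row_gen false g.1 _ (i, g, b) y).mp (hr y hy)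
    rcases h1 with ⟨-, w, hw1, hw2, hw3⟩ | h1
    · refine ⟨w, hw1, ?_, hw3⟩
      rcases hw2 with h | h
      · exact absurd h (by simp)
      · exact h
    · exact absurd rfl h1.1
  have hvert : ∀ e ∈ S, ∃ w : Fin k × Fin B, e = Sum.inl (Sum.inl (Sum.inr w)) := by
    intro e he
    obtain ⟨w, hw, -⟩ := hval (fun _ => e) (fun _ => he)
    exact ⟨w 0, hw 0⟩
  have hdiff : ∀ w w' : Fin k × Fin B, (Sum.inl (Sum.inl (Sum.inr w)) : Un k G0 X B) ∈ S →
      (Sum.inl (Sum.inl (Sum.inr w')) : Un k G0 X B) ∈ S → w.1 = w'.1 → w = w' := by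
    intro w w' hw hw' h1
    have hne : (⟨1, by omega⟩ : Fin (d + 1)) ≠ 0 := by
      intro h3
      have := congrArg Fin.val h3
      simp at this
    obtain ⟨v, hv1, hv2, -⟩ := hval (fun l => if l = 0 then Sum.inl (Sum.inl (Sum.inr w)) else
      Sum.inl (Sum.inl (Sum.inr w'))) (fun j => by split_ifs <;> assumption)
    have e0 := hv1 0
    have e1 := hv1 ⟨1, by omega⟩
    simp only [if_true, Sum.inl.injEq, Sum.inr.injEq] at e0
    simp only [if_neg hne, Sum.inl.injEq, Sum.inr.injEq] at e1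
    have := hv2 0 ⟨1, by omega⟩ (by rw [← e0, ← e1]; exact h1)
    rw [← e0, ← e1] at this
    exact this
  -- a transversal
  have hpart : ∀ i : Fin k, ∃ b, (Sum.inl (Sum.inl (Sum.inr (i, b))) : Un k G0 X B) ∈ S := by
    -- the map to parts is injective on `S`, hence onto
    let f : Un k G0 X B → Fin k := fun e => match e with
      | Sum.inl (Sum.inl (Sum.inr w)) => w.1
      | _ => 0
    have hinj : Set.InjOn f S := by
      intro e he e' he' hee'
      obtain ⟨w, rfl⟩ := hvert e he
      obtain ⟨w', rfl⟩ := hvert e' he'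
      have : w.1 = w'.1 := hee'
      rw [hdiff w w' he he' this]
    have himg : S.image f = Finset.univ := by
      apply Finset.eq_univ_of_card
      rw [Finset.card_image_of_injOn hinj, hcard, Fintype.card_fin]
    intro i1
    have : i1 ∈ S.image f := by rw [himg]; exact Finset.mem_univ _
    obtain ⟨e, he, hfe⟩ := Finset.mem_image.mp this
    obtain ⟨w, rfl⟩ := hvert e he
    have h2 : w.1 = i1 := hfe
    refine ⟨w.2, ?_⟩
    rw [← h2]
    exact he
  choose u hu using hpart
  have hrow : ∀ c : Fin (d + 1) → Fin k,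
      rho A Mi (mj false) D ω (emb false s p q) (tup4 u (i, g, b) c) = true := by
    intro c
    obtain ⟨w, hw1, -, hw3⟩ := hval (fun j => Sum.inl (Sum.inl (Sum.inr (c j, u (c j)))))
      (fun j => hu (c j))
    have : w = fun j => (c j, u (c j)) := by
      funext j
      have := hw1 j
      simp only [Sum.inl.injEq, Sum.inr.injEq] at this
      exact this.symm
    rw [this] at hw3
    exact hw3
  -- a dead tuple with coin not in `Mi` is false
  have hfalse : ∀ c : Fin (d + 1) → Fin k,
      ω (Sum.inr (tup4 u (i, g, b) c)) ∉ Mi →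
      (¬ ∀ j, Al A D ω ((tup4 u (i, g, b) c : Fin (d + 2) → Vt k (G0 × X) B) j)) → False := by
    intro c hcoin hdead
    obtain ⟨i', -, -, hv⟩ := dead_val false A Mi ω (emb false s p q) u (i, g, b) c hcoin hdead
    rw [hrow c] at hv
    simp [mj] at hv
  by_cases hralive : Al A D ω (Sum.inl (i, g, b))
  swap
  · exfalso
    obtain ⟨c, hc⟩ := hG.o1 u (i, g, b)
    exact hfalse c hc (fun h => hralive (h 0))
  -- the row is the picked one
  have hsal : ∀ i, Al A D ω (Sum.inr (i, s i)) := by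
    intro i
    rw [← AlS_iff]
    exact Classical.epsilon_spec (hG.g1 i)
  -- alive vertices are picked
  have hpick : ∀ i1, Al A D ω (Sum.inr (i1, u i1)) → (i = 0 ∧ b = p g) ∧ u i1 = s i1 := by
    intro i1 h1
    have hal : ∀ j, Al A D ω
        ((tup4 u (i, g, b) (fun _ => i1) : Fin (d + 2) → Vt k (G0 × X) B) j) := by
      intro j
      refine Fin.cases ?_ ?_ j
      · exact hralive
      · intro l; exact h1
    have h2 := hrow (fun _ => i1)
    rw [rho_alive _ _ _ _ _ _ _ hal, emb_row] at h2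
    rcases h2 with h2 | h2
    · exact ⟨h2.1, h2.2.1 0⟩
    · exact absurd h2.2 (by simp)
  let Dd : Finset (Fin k) := Finset.univ.filter (fun i1 => ¬ Al A D ω (Sum.inr (i1, u i1)))
  by_cases hDd : Dd.Nonempty
  · exfalso
    obtain ⟨i1, hi1, j1, hc⟩ := hG.o2 Dd u (i, g, b) hDd
    have hmix : mixu Dd u s = u := by
      funext i2
      simp only [mixu]
      split_ifs with h
      · rfl
      · have h3 : Al A D ω (Sum.inr (i2, u i2)) := by
          by_contra h4
          exact h (Finset.mem_filter.mpr ⟨Finset.mem_univ _, h4⟩)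
        exact ((hpick i2 h3).2).symm
    rw [hmix] at hc
    apply hfalse _ hc
    intro hall
    have h1 := hall (Fin.succ 0)
    have h2 : (tup4 u (i, g, b) (cc i1 j1) : Fin (d + 2) → Vt k (G0 × X) B) (Fin.succ 0) =
        Sum.inr (cc i1 j1 0, u (cc i1 j1 0)) := rfl
    rw [h2] at h1
    simp only [cc, if_true] at h1
    exact (Finset.mem_filter.mp hi1).2 h1
  · have hallal : ∀ i1, Al A D ω (Sum.inr (i1, u i1)) := by
      intro i1
      by_contra h
      exact hDd ⟨i1, Finset.mem_filter.mpr ⟨Finset.mem_univ _, h⟩⟩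
    have hi0 := (hpick 0 (hallal 0)).1
    refine ⟨g.2, fun c => ?_⟩
    have hal : ∀ j, Al A D ω
        ((tup4 u (i, g, b) c : Fin (d + 2) → Vt k (G0 × X) B) j) := by
      intro j
      refine Fin.cases ?_ ?_ j
      · exact hralive
      · intro l; exact hallal (c l)
    have h2 := hrow c
    rw [rho_alive _ _ _ _ _ _ _ hal, emb_row] at h2
    rcases h2 with h2 | h2
    · exact h2.2.2
    · exact absurd h2.2 (by simp)

theorem odd_b (A Mi : Finset τ) (ω : Cd D (d + 2) (Vt k (G0 × X) B) → τ) (hG : GoodO A Mi ω)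
    (q : (G0 × X) → (Fin (d + 1) → Fin k) → Bool)
    (lab : G0) (hq : ∃ y : X, ∀ c, q (lab, y) c = true) :
    ∃ r : Un k G0 X B, ∀ y : Fin (d + 1) → Un k G0 X B, (∀ j, y j ∈ S0 G0 X (pv A (sts ω))) →
      encB false lab (rho A Mi (mj false) D ω (emb false (pv A (sts ω)) (pr A (sts ω)) q))
        (Fin.cons r y) = true := by
  set s := pv A (sts ω) with hs
  set p := pr A (sts ω) with hp
  have hsal : ∀ i, Al A D ω (Sum.inr (i, s i)) := by
    intro i
    rw [← AlS_iff]
    exact Classical.epsilon_spec (hG.g1 i)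
  have hpal : ∀ g, Al A D ω (Sum.inl (0, g, p g)) := by
    intro g
    rw [← AlS_iff]
    exact Classical.epsilon_spec (hG.g2 g)
  obtain ⟨y0, hy0⟩ := hq
  refine ⟨Sum.inl (Sum.inl (Sum.inl (0, (lab, y0), p (lab, y0)))), fun y hy => ?_⟩
  have h1 : ∀ j, ∃ i, y j = Sum.inl (Sum.inl (Sum.inr (i, s i))) := fun j => mem_S0_iff.mp (hy j)
  choose c hc using h1
  have h2 : y = fun j => Sum.inl (Sum.inl (Sum.inr (c j, s (c j)))) := by
    funext j; exact hc j
  rw [h2]
  refine (encB_row false _ (0, (lab, y0), p (lab, y0)) (fun j => (c j, s (c j)))).mpr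
    ⟨Or.inr ?_, ?_⟩
  · intro l l' hll'
    have : c l = c l' := hll'
    simp only [this]
  · rw [tup4_cons]
    have hal : ∀ j, Al A D ω
        ((tup4 s (0, (lab, y0), p (lab, y0)) c : Fin (d + 2) → Vt k (G0 × X) B) j) := by
      intro j
      refine Fin.cases ?_ ?_ j
      · exact hpal _
      · intro l; exact hsal (c l)
    rw [rho_alive _ _ _ _ _ _ _ hal, emb_row]
    exact Or.inl ⟨⟨rfl, rfl⟩, fun _ => rfl, hy0 c⟩

/-- the entry of the free matrix on which a tuple depends -/
def ent [Nonempty G] (t : Fin (d + 2) → Vt k G B) : G × (Fin (d + 1) → Fin k) :=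
  ((match t 0 with
    | Sum.inl x => x.2.1
    | Sum.inr _ => Classical.arbitrary G),
   fun j => match t j.succ with
    | Sum.inl x => x.1
    | Sum.inr x => x.1)

lemma emb_dep [Nonempty G] (ev : Bool) (s : Fin k → Fin B) (p : G → Fin B)
    (q q' : G → (Fin (d + 1) → Fin k) → Bool) (t : Fin (d + 2) → Vt k G B)
    (h : q (ent t).1 (ent t).2 = q' (ent t).1 (ent t).2) : emb ev s p q t = emb ev s p q' t := by
  simp only [emb]
  rcases h0 : t 0 with ⟨i, g, b⟩ | v
  · simp only
    apply bdec_congr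
    apply or_congr_left
    apply and_congr_right
    intro _
    apply exists_congr
    intro c
    apply and_congr_right
    intro hc
    have e1 : (ent t).1 = g := by
      simp only [ent, h0]
    have e2 : (ent t).2 = c := by
      funext j
      simp only [ent, hc j]
    rw [e1, e2] at h
    rw [h]
  · rfl

/-- locality becomes dependence on few entries -/
lemma dep_of_loc [Nonempty G] [Fintype G] [DecidableEq G] (ev : Bool) (s : Fin k → Fin B)
    (p : G → Fin B)
    {K : Finset (Vt k G B)} {F : Tb (d + 2) (Vt k G B) → Prop} (hF : Loc K F) :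
    ∃ Q : Finset (G × (Fin (d + 1) → Fin k)), Q.card ≤ K.card ^ (d + 2) ∧
      ∀ q q' : G → (Fin (d + 1) → Fin k) → Bool,
        (∀ e ∈ Q, q e.1 e.2 = q' e.1 e.2) → (F (emb ev s p q) ↔ F (emb ev s p q')) := by
  refine ⟨(Fintype.piFinset (fun _ : Fin (d + 2) => K)).image ent, ?_, ?_⟩
  · refine Finset.card_image_le.trans ?_
    rw [Fintype.card_piFinset]
    simp only [Finset.prod_const, Finset.card_univ, Fintype.card_fin]
    exact le_rfl
  · intro q q' h
    have h1 : ∀ t : Fin (d + 2) → Vt k G B, (∀ j, t j ∈ K) → emb ev s p q t = emb ev s p q' t := by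
      intro t ht
      apply emb_dep
      exact h _ (Finset.mem_image_of_mem _ (Fintype.mem_piFinset.mpr ht))
    exact ⟨fun hg => hF _ _ h1 hg, fun hg => hF _ _ (fun t ht => (h1 t ht).symm) hg⟩

end picks

/-- the relation is local -/
lemma encB_local (ev : Bool) (lab : G0) (t : Fin (d + 2) → Un k G0 X B) :
    ∃ K : Finset (Vt k (G0 × X) B), K.card ≤ d + 2 ∧ Loc K (fun z => encB ev lab z t = true) := by
  refine ⟨Finset.univ.filter (fun v => ∃ l, t l = Sum.inl (Sum.inl v)), ?_, ?_⟩
  · have hinj : Function.Injective (fun v : Vt k (G0 × X) B =>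
        (Sum.inl (Sum.inl v) : Un k G0 X B)) :=
      fun v v' h => Sum.inl_injective (Sum.inl_injective h)
    have h1 : (Finset.univ.filter (fun v : Vt k (G0 × X) B =>
        ∃ l, t l = Sum.inl (Sum.inl v))).image
        (fun v : Vt k (G0 × X) B => (Sum.inl (Sum.inl v) : Un k G0 X B)) ⊆ Finset.univ.image t := by
      intro x hx
      obtain ⟨v, hv, rfl⟩ := Finset.mem_image.mp hx
      obtain ⟨l, hl⟩ := (Finset.mem_filter.mp hv).2
      exact Finset.mem_image.mpr ⟨l, Finset.mem_univ _, hl⟩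
    calc _ = ((Finset.univ.filter (fun v : Vt k (G0 × X) B =>
        ∃ l, t l = Sum.inl (Sum.inl v))).image
        (fun v : Vt k (G0 × X) B => (Sum.inl (Sum.inl v) : Un k G0 X B))).card :=
          (Finset.card_image_of_injective _ hinj).symm
      _ ≤ (Finset.univ.image t).card := Finset.card_le_card h1
      _ ≤ (Finset.univ : Finset (Fin (d + 2))).card := Finset.card_image_le
      _ = d + 2 := by simp
  · intro z z' hzz' h
    simp only [encB] at h ⊢
    rcases h0 : t 0 with ((x | v) | i) | a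
    · rw [h0] at h
      simp only at h ⊢
      rw [bdec_iff] at h ⊢
      rcases h with ⟨hx, w, hw, hv, hz⟩ | h
      · refine Or.inl ⟨hx, w, hw, hv, ?_⟩
        rw [← hzz', hz]
        intro j
        refine Fin.cases ?_ ?_ j
        · exact Finset.mem_filter.mpr ⟨Finset.mem_univ _, 0, h0⟩
        · intro l
          exact Finset.mem_filter.mpr ⟨Finset.mem_univ _, l.succ, hw l⟩
      · exact Or.inr h
    · rw [h0] at h; exact h
    · rw [h0] at h; exact h
    · rw [h0] at h; exact h

end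

end Pool.Agent.Helper265_EW.G
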