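import Pool.Agent.Helper265_EW.GSrc
import Pool.Agent.Helper265_EW.SrcF

set_option linter.unusedSectionVars false

/-! The source formulas for all numbers of quantifier blocks. -/

namespace Pool.Agent.Helper265_EW.G

open Finset Classical Pool.Agent.H592R2

noncomputable section

/-- assignments of tuples of blocks -/
def asg {U : Type} (len : ℕ → ℕ) : (n : ℕ) → Tup (fun i => Fin (len i) → U) n → (Vars len n → U)
  | 0, _ => Empty.elim
  | n + 1, v => Sum.elim (asg len n v.1) v.2

lemma quant_alt {U : Type} (len : ℕ → ℕ) (n : ℕ) :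
    ∀ F : (Vars len n → U) → Prop,
      quant len n F ↔ alt (fun i => Fin (len i) → U) n (fun v => F (asg len n v)) := by
  induction n with
  | zero => intro F; exact Iff.rfl
  | succ n ih =>
    intro F
    exact ih (fun a => lev n (fun b : Fin (len n) → U => F (Sum.elim a b)))

lemma quant_congr {U : Type} (len : ℕ → ℕ) (n : ℕ) {F F' : (Vars len n → U) → Prop}
    (h : ∀ a, F a ↔ F' a) : quant len n F ↔ quant len n F' := by
  have : F = F' := funext fun a => propext (h a)
  rw [this]

lemma quant_equiv {U U' : Type} (len : ℕ → ℕ) (e : U ≃ U') (n : ℕ) :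
    ∀ F : (Vars len n → U) → Prop,
      quant len n (fun a' : Vars len n → U' => F (fun x => e.symm (a' x))) ↔ quant len n F := by
  induction n with
  | zero =>
    intro F
    have : (fun x => e.symm ((Empty.elim : Empty → U') x)) = (Empty.elim : Empty → U) := by
      funext x; exact x.elim
    simp only [quant]
    exact iff_of_eq (congrArg F this)
  | succ n ih =>
    intro F
    refine Iff.trans ?_ (ih (fun a : Vars len n → U =>
      lev n (fun b : Fin (len n) → U => F (Sum.elim a b))))
    change quant len n (fun a' : Vars len n → U' => lev n (fun b' : Fin (len n) → U' =>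
      F (fun x => e.symm ((Sum.elim a' b' : Vars len n ⊕ Fin (len n) → U') x)))) ↔ _
    apply quant_congr
    intro a'
    rw [← lev_surj n (fun (b' : Fin (len n) → U') => fun i => e.symm (b' i))]
    · apply lev_congr
      intro b'
      have : (fun x => e.symm ((Sum.elim a' b' : Vars len n ⊕ Fin (len n) → U') x)) =
          (Sum.elim (fun x => e.symm (a' x)) (fun i => e.symm (b' i)) :
            Vars len n ⊕ Fin (len n) → U) := by
        funext x
        cases x <;> rfl
      exact iff_of_eq (congrArg F this)
    · intro b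
      exact ⟨fun i => e (b i), by funext i; simp⟩

/-- truth is preserved by embeddings of the universe that respect everything -/
lemma holds_hom {τ : Voc} {s : ℕ} {U U' V : Type} (f : U → U') (hf : Function.Injective f)
    (A : Str τ U) (A' : Str τ U') (hA : ∀ R w, A R w = A' R (fun i => f (w i)))
    (S : Finset (Fin s → U)) (S' : Finset (Fin s → U'))
    (hS : ∀ w : Fin s → U, (w ∈ S ↔ (fun i => f (w i)) ∈ S')) (v : V → U) (ψ : QF τ s V) :
    ψ.Holds A S v ↔ ψ.Holds A' S' (fun a => f (v a)) := by
  induction ψ with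
  | rel R w => simp only [QF.Holds, hA]
  | eq a b =>
    simp only [QF.Holds]
    exact ⟨fun h => by rw [h], fun h => hf h⟩
  | mem w =>
    simp only [QF.Holds]
    exact hS _
  | not φ ih => simp only [QF.Holds, ih]
  | and φ ψ ih1 ih2 => simp only [QF.Holds, ih1, ih2]

lemma WDF_equiv {τ : Voc} {s t : ℕ} {U U' : Type} (e : U ≃ U') (φ : PiF τ s t) (A : Str τ U)
    (k : ℕ) : WDF φ (fun R w => A R (fun i => e.symm (w i)) : Str τ U') k ↔ WDF φ A k := by
  let g : (Fin s → U) → (Fin s → U') := fun w i => e (w i)
  let g' : (Fin s → U') → (Fin s → U) := fun w i => e.symm (w i)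
  have hgg : ∀ w, g (g' w) = w := fun w => by funext i; simp [g, g']
  have hgg' : ∀ w, g' (g w) = w := fun w => by funext i; simp [g, g']
  have hginj : Function.Injective g := fun w w' h => by
    rw [← hgg' w, h, hgg']
  have hginj' : Function.Injective g' := fun w w' h => by
    rw [← hgg w, h, hgg]
  have key : ∀ (S : Finset (Fin s → U')) (S2 : Finset (Fin s → U)),
      (∀ w, w ∈ S ↔ g' w ∈ S2) →
      (φ.Holds (fun R w => A R (fun i => e.symm (w i)) : Str τ U') S ↔ φ.Holds A S2) := by
    intro S S2 hS
    unfold PiF.Holds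
    rw [← quant_equiv φ.len e t (fun a => φ.ψ.Holds A S2 a)]
    apply quant_congr
    intro a'
    exact holds_hom e.symm e.symm.injective _ A (fun R w => rfl) S S2 hS a' φ.ψ
  constructor
  · rintro ⟨S, hS, hA⟩
    refine ⟨S.image g', by rw [Finset.card_image_of_injective _ hginj', hS], ?_⟩
    rw [← key S (S.image g')]
    · exact hA
    · intro w
      constructor
      · intro h; exact Finset.mem_image_of_mem _ h
      · intro h
        obtain ⟨w', hw', he⟩ := Finset.mem_image.mp h
        rwa [← hginj' he]
  · rintro ⟨S, hS, hA⟩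
    refine ⟨S.image g, by rw [Finset.card_image_of_injective _ hginj, hS], ?_⟩
    rw [key (S.image g) S]
    · exact hA
    · intro w
      constructor
      · intro h
        obtain ⟨w', hw', he⟩ := Finset.mem_image.mp h
        rw [← he, hgg']; exact hw'
      · intro h
        exact Finset.mem_image.mpr ⟨_, h, hgg w⟩

/-- one relation symbol of arity `m + (d + 2)` -/
def srcVt (m d : ℕ) : Voc := ⟨1, fun _ => m + (d + 2)⟩

/-- the first variable of each block -/
def vv (d : ℕ) : (n : ℕ) → Fin n → Vars (fun _ => d + 1) n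
  | 0, i => i.elim0
  | n + 1, i => if h : i.val < n then Sum.inl (vv d n ⟨i.val, h⟩) else Sum.inr (0 : Fin (d + 1))

/-- the arguments of the relation -/
def args (m d : ℕ) : Fin (m + (d + 2)) → (Vars (fun _ => d + 1) m ⊕ Fin (d + 1)) ⊕ Fin (d + 1) :=
  Fin.append (fun i : Fin m => Sum.inl (Sum.inl (vv d m i)))
    (Fin.cons (Sum.inl (Sum.inr 0)) (fun j : Fin (d + 1) => Sum.inr j))

/-- the relational atom -/
def eAt (m d : ℕ) : QF (srcVt m d) 1 (Vars (fun _ => d + 1) (m + 2)) :=
  QF.rel (τ := srcVt m d) (0 : Fin 1) (args m d)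

/-- the atoms `X(y_j)` -/
def xAt (m d : ℕ) (j : Fin (d + 1)) : QF (srcVt m d) 1 (Vars (fun _ => d + 1) (m + 2)) :=
  QF.mem (fun _ => (Sum.inr j : (Vars (fun _ => d + 1) m ⊕ Fin (d + 1)) ⊕ Fin (d + 1)))

/-- the source formulas -/
def srcFt (ev : Bool) (m d : ℕ) : PiF (srcVt m d) 1 (m + 2) where
  len := fun _ => d + 1
  ψ := if ev then conjs (eAt m d) (d + 1) (xAt m d) else
    QF.not (conjs (QF.not (eAt m d)) (d + 1) (xAt m d))

lemma srcFt_occ (ev : Bool) (m d : ℕ) : (srcFt ev m d).occ = d + 1 := by
  cases ev <;> simp [PiF.occ, srcFt, occ_conjs, QF.occ, eAt, xAt]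

/-- the matrix of the source formula -/
def mat {U : Type} (ev : Bool) (d : ℕ) (S : Finset U) (E : (Fin (d + 2) → U) → Bool) (r : U)
    (y : Fin (d + 1) → U) : Prop :=
  if ev = true then (∀ j, y j ∈ S) ∧ E (Fin.cons r y) = true else
    ((∀ j, y j ∈ S) → E (Fin.cons r y) = true)

lemma srcFt_matrix {U : Type} (ev : Bool) (m d : ℕ) (A : Str (srcVt m d) U)
    (S : Finset (Fin 1 → U)) (S' : Finset U) (hS : ∀ u : U, u ∈ S' ↔ (fun _ => u) ∈ S)
    (a : Vars (fun _ => d + 1) m → U) (r y : Fin (d + 1) → U) :
    (srcFt ev m d).ψ.Holds A S (Sum.elim (Sum.elim a r) y) ↔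
      mat ev d S' (fun t : Fin (d + 2) → U => A (0 : Fin 1)
        (Fin.append (fun i : Fin m => a (vv d m i)) t)) (r 0) y := by
  have hE : (eAt m d).Holds A S (Sum.elim (Sum.elim a r) y) ↔
      A (0 : Fin 1) (Fin.append (fun i : Fin m => a (vv d m i))
        (Fin.cons (r 0) y : Fin (d + 2) → U)) = true := by
    simp only [eAt, QF.Holds]
    have h1 : (fun i => (Sum.elim (Sum.elim a r) y :
        (Vars (fun _ => d + 1) m ⊕ Fin (d + 1)) ⊕ Fin (d + 1) → U) (args m d i)) =
        Fin.append (fun i : Fin m => a (vv d m i)) (Fin.cons (r 0) y : Fin (d + 2) → U) := by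
      funext i
      refine Fin.addCases (fun i => ?_) (fun i => ?_) i
      · simp only [args, Fin.append_left, Sum.elim_inl]
      · simp only [args, Fin.append_right]
        refine Fin.cases ?_ (fun j => ?_) i
        · simp only [Fin.cons_zero, Sum.elim_inl, Sum.elim_inr]
        · simp only [Fin.cons_succ, Sum.elim_inr]
    exact iff_of_eq (congrArg (fun w => A (0 : Fin 1) w = true) h1)
  have hX : ∀ j, (xAt m d j).Holds A S (Sum.elim (Sum.elim a r) y) ↔ y j ∈ S' := by
    intro j
    rw [hS]
    exact Iff.rfl
  cases ev with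
  | true =>
    have h2 := holds_conjs (eAt m d) A S
      (Sum.elim (Sum.elim a r) y : Vars (fun _ => d + 1) (m + 2) → U) (d + 1) (xAt m d)
    refine Iff.trans h2 ?_
    simp only [mat, if_true]
    constructor
    · rintro ⟨h3, h4⟩
      exact ⟨fun j => (hX j).mp (h4 j), hE.mp h3⟩
    · rintro ⟨h3, h4⟩
      exact ⟨hE.mpr h4, fun j => (hX j).mpr (h3 j)⟩
  | false =>
    have h2 := holds_conjs (QF.not (eAt m d)) A S
      (Sum.elim (Sum.elim a r) y : Vars (fun _ => d + 1) (m + 2) → U) (d + 1) (xAt m d)
    refine Iff.trans (not_congr h2) ?_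
    simp only [mat, Bool.false_eq_true, if_false]
    constructor
    · intro h3 h4
      by_contra h5
      exact h3 ⟨fun h6 => h5 (hE.mp h6), fun j => (hX j).mpr (h4 j)⟩
    · rintro h3 ⟨h4, h5⟩
      exact h4 (hE.mpr (h3 fun j => (hX j).mp (h5 j)))

/-- tuples as iterated pairs -/
def toT {U : Type} : (n : ℕ) → (Fin n → U) → Tup (fun _ => U) n
  | 0, _ => ()
  | n + 1, x => (toT n (fun i => x i.castSucc), x (Fin.last n))

/-- the first components -/
def proj0 {U : Type} (d : ℕ) : (n : ℕ) → Tup (fun _ => Fin (d + 1) → U) n → Tup (fun _ => U) n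
  | 0, _ => ()
  | n + 1, v => (proj0 d n v.1, v.2 0)

lemma toT_asg {U : Type} (d : ℕ) (n : ℕ) (v : Tup (fun _ => Fin (d + 1) → U) n) :
    toT n (fun i => asg (fun _ => d + 1) n v (vv d n i)) = proj0 d n v := by
  induction n with
  | zero => rfl
  | succ n ih =>
    have h1 : ∀ i : Fin n, asg (fun _ => d + 1) (n + 1) v (vv d (n + 1) i.castSucc) =
        asg (fun _ => d + 1) n v.1 (vv d n i) := by
      intro i
      have hi : (i.castSucc).val < n := i.2
      have : vv d (n + 1) i.castSucc = Sum.inl (vv d n i) := by
        simp only [vv]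
        rw [dif_pos hi]
        rfl
      rw [this]
      rfl
    have h2 : asg (fun _ => d + 1) (n + 1) v (vv d (n + 1) (Fin.last n)) = v.2 0 := by
      have : vv d (n + 1) (Fin.last n) = Sum.inr (0 : Fin (d + 1)) := by
        simp only [vv]
        rw [dif_neg (by simp)]
      rw [this]
      rfl
    simp only [toT, proj0, h1, h2, ih]

/-- index elements -/
def pix {k B : ℕ} {G0 X : Type} : Un k G0 X B → Option X
  | Sum.inl _ => none
  | Sum.inr a => some a

lemma stt_proj {U X : Type} (π : U → Option X) (d n : ℕ)
    (v : Tup (fun _ => Fin (d + 1) → U) n) :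
    stt (A := fun _ => U) (X := fun _ => X) (fun _ => π) n (proj0 d n v) =
      stt (A := fun _ => Fin (d + 1) → U) (X := fun _ => X) (fun _ b => π (b 0)) n v := by
  induction n with
  | zero => rfl
  | succ n ih =>
    simp only [stt, proj0, ih]

/-- the source structure -/
def strU {d k B m : ℕ} {X : Type} (ev : Bool)
    (z : Tb (d + 2) (Vt k (Tup (fun _ => X) m × X) B)) :
    Str (srcVt m d) (Un k (Tup (fun _ => X) m) X B) :=
  fun _ (t : Fin (m + (d + 2)) → Un k (Tup (fun _ => X) m) X B) =>
    match stt (A := fun _ => Un k (Tup (fun _ => X) m) X B) (X := fun _ => X) (fun _ => pix) m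
      (toT m (fun i => t (Fin.castAdd (d + 2) i))) with
    | Sum.inl lab => encB ev lab z (fun l => t (Fin.natAdd m l))
    | Sum.inr b => b

/-- the source question, relativized -/
theorem src_WD {d k B m : ℕ} {X : Type} [Fintype X] (hk : 0 < k)
    (ev : Bool) (hev : ev = true ↔ m % 2 = 0)
    (z : Tb (d + 2) (Vt k (Tup (fun _ => X) m × X) B)) :
    WDF (srcFt ev m d) (strU ev z) k ↔
      ∃ S : Finset (Un k (Tup (fun _ => X) m) X B), S.card = k ∧
        alt (fun _ => X) m (fun lab => lev m (fun r : Un k (Tup (fun _ => X) m) X B =>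
          lev (m + 1) (fun y : Fin (d + 1) → Un k (Tup (fun _ => X) m) X B =>
            mat ev d S (encB ev lab z) r y))) := by
  set U := Un k (Tup (fun _ => X) m) X B with hU
  -- the formula for a given set
  have key : ∀ (S : Finset (Fin 1 → U)) (S' : Finset U), (∀ u : U, u ∈ S' ↔ (fun _ => u) ∈ S) →
      S'.card = k →
      ((srcFt ev m d).Holds (strU ev z) S ↔
        alt (fun _ => X) m (fun lab => lev m (fun r : U =>
          lev (m + 1) (fun y : Fin (d + 1) → U => mat ev d S' (encB ev lab z) r y)))) := by
    intro S S' hSS hcard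
    have hne : S'.Nonempty := by rw [← Finset.card_pos, hcard]; exact hk
    obtain ⟨u0, hu0⟩ := hne
    have : Nonempty U := ⟨u0⟩
    unfold PiF.Holds
    rw [quant_alt]
    -- matrix
    have h1 : ∀ v : Tup (fun _ => Fin (d + 1) → U) m,
        (lev m (fun r : Fin (d + 1) → U => lev (m + 1) (fun y : Fin (d + 1) → U =>
          (srcFt ev m d).ψ.Holds (strU ev z) S
            (Sum.elim (Sum.elim (asg (fun _ => d + 1) m v) r) y))) ↔
        lev m (fun r : U => lev (m + 1) (fun y : Fin (d + 1) → U =>
          mat ev d S' (fun t : Fin (d + 2) → U =>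
            match stt (A := fun _ => Fin (d + 1) → U) (X := fun _ => X)
              (fun _ b => pix (b 0)) m v with
            | Sum.inl lab => encB ev lab z t
            | Sum.inr b => b) r y))) := by
      intro v
      rw [← lev_surj m (fun r : Fin (d + 1) → U => r 0) (fun u => ⟨fun _ => u, rfl⟩)]
      apply lev_congr
      intro r
      apply lev_congr
      intro y
      rw [srcFt_matrix ev m d (strU ev z) S S' hSS]
      have h2 : ∀ t : Fin (d + 2) → U, strU ev z (0 : Fin 1)
          (Fin.append (fun i : Fin m => asg (fun _ => d + 1) m v (vv d m i)) t) =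
          (match stt (A := fun _ => Fin (d + 1) → U) (X := fun _ => X)
              (fun _ b => pix (b 0)) m v with
            | Sum.inl lab => encB ev lab z t
            | Sum.inr b => b) := by
        intro t
        unfold strU
        simp only [Fin.append_left, Fin.append_right]
        rw [toT_asg, stt_proj]
      have h3 : (fun t : Fin (d + 2) → U => strU ev z (0 : Fin 1)
          (Fin.append (fun i : Fin m => asg (fun _ => d + 1) m v (vv d m i)) t)) =
          fun t => (match stt (A := fun _ => Fin (d + 1) → U) (X := fun _ => X)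
              (fun _ b => pix (b 0)) m v with
            | Sum.inl lab => encB ev lab z t
            | Sum.inr b => b) := funext h2
      rw [h3]
    have h4 : alt (fun _ => Fin (d + 1) → U) (m + 2) (fun v => (srcFt ev m d).ψ.Holds (strU ev z) S
        (asg (fun _ => d + 1) (m + 2) v)) ↔
        alt (fun _ => Fin (d + 1) → U) m (fun v =>
          lev m (fun r : Fin (d + 1) → U => lev (m + 1) (fun y : Fin (d + 1) → U =>
          (srcFt ev m d).ψ.Holds (strU ev z) S
            (Sum.elim (Sum.elim (asg (fun _ => d + 1) m v) r) y)))) := Iff.rfl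
    refine Iff.trans h4 ?_
    rw [alt_congr _ h1]
    apply alt_rel (A := fun _ => Fin (d + 1) → U) (X := fun _ => X) (fun _ b => pix (b 0))
    · intro _ x
      exact ⟨fun _ => Sum.inr x, rfl⟩
    · intro i _ _
      exact ⟨fun _ => u0⟩
    · intro v lab hv
      simp only [hv]
    · intro v b hv
      simp only [hv]
      have h5 : ∀ r : U, (lev (m + 1) (fun y : Fin (d + 1) → U =>
          mat ev d S' (fun _ => b) r y) ↔ b = true) := by
        intro r
        cases hevc : ev with
        | true =>
          have hm : m % 2 = 0 := hev.mp hevc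
          rw [lev_odd (by omega)]
          simp only [mat, if_true]
          constructor
          · rintro ⟨y, -, h⟩; exact h
          · intro h; exact ⟨fun _ => u0, fun _ => hu0, h⟩
        | false =>
          have hm : ¬ m % 2 = 0 := fun h => by
            have := hev.mpr h
            rw [hevc] at this
            exact Bool.false_ne_true this
          rw [lev_even (by omega)]
          simp only [mat, Bool.false_eq_true, if_false]
          constructor
          · intro h; exact h (fun _ => u0) (fun _ => hu0)
          · intro h _ _; exact h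
      rw [lev_congr m h5, lev_const]
  constructor
  · rintro ⟨S, hS, hA⟩
    have hinj : Function.Injective (fun w : Fin 1 → U => w 0) := by
      intro w w' h
      funext i
      have : i = 0 := Subsingleton.elim _ _
      rw [this]; exact h
    have hcard : (S.image (fun w => w 0)).card = k := by
      rw [Finset.card_image_of_injective _ hinj, hS]
    refine ⟨S.image (fun w => w 0), hcard, ?_⟩
    rw [← key S (S.image (fun w => w 0)) ?_ hcard]
    · exact hA
    · intro u
      constructor
      · intro h
        obtain ⟨w, hw, he⟩ := Finset.mem_image.mp h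
        have : w = fun _ => u := by
          funext i
          have : i = 0 := Subsingleton.elim _ _
          rw [this]; exact he
        rw [← this]; exact hw
      · intro h
        exact Finset.mem_image.mpr ⟨_, h, rfl⟩
  · rintro ⟨S, hS, hA⟩
    refine ⟨S.image (fun u => fun _ => u), ?_, ?_⟩
    · rw [Finset.card_image_of_injective, hS]
      intro u u' h
      exact congrFun h 0
    · rw [key (S.image (fun u => fun _ => u)) S ?_ hS]
      · exact hA
      · intro u
        constructor
        · intro h; exact Finset.mem_image_of_mem _ h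
        · intro h
          obtain ⟨u', hu', he⟩ := Finset.mem_image.mp h
          have : u' = u := congrFun he 0
          rw [← this]; exact hu'

/-- the source function -/
theorem src_even {d k B m D : ℕ} [NeZero k] [NeZero B] {X τ : Type} [Fintype X] [Fintype τ]
    [Nonempty τ] [DecidableEq τ] [DecidableEq X] (hm : m % 2 = 0) (A Mi : Finset τ)
    (ω : Cd D (d + 2) (Vt k (Tup (fun _ => X) m × X) B) → τ) (hG : GoodE A Mi ω)
    (q : (Tup (fun _ => X) m × X) → (Fin (d + 1) → Fin k) → Bool) :
    WDF (srcFt true m d) (strU true (rho A Mi (mj true) D ω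
      (emb true (pv A (sts ω)) (pr A (sts ω)) q))) k ↔
      alt (fun _ => X) (m + 1) (fun v => lev (m + 1) (fun c => q v c = true)) := by
  rw [src_WD (Nat.pos_of_ne_zero (NeZero.ne k)) true (by simp [hm])]
  have h0 : alt (fun _ => X) (m + 1) (fun v => lev (m + 1) (fun c => q v c = true)) ↔
      alt (fun _ => X) m (fun lab => lev m (fun y => lev (m + 1) (fun c => q (lab, y) c = true))) :=
    Iff.rfl
  rw [h0]
  constructor
  · rintro ⟨S, hcard, hS⟩
    refine alt_mono _ m ?_ hS
    intro lab h
    rw [lev_even hm] at h ⊢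
    intro y
    rw [lev_odd (by omega)]
    refine even_a A Mi ω hG q S hcard lab ?_ y
    intro r
    have := h r
    rw [lev_odd (by omega)] at this
    obtain ⟨y, hy⟩ := this
    simp only [mat, if_true] at hy
    exact ⟨y, hy⟩
  · intro h
    refine ⟨S0 (Tup (fun _ => X) m) X (pv A (sts ω)), S0_card _, alt_mono _ m ?_ h⟩
    intro lab h
    rw [lev_even hm] at h ⊢
    intro r
    rw [lev_odd (by omega)]
    have hq : ∀ y : X, ∃ c, q (lab, y) c = true := by
      intro y
      have := h y
      rwa [lev_odd (by omega)] at this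
    obtain ⟨y, hy⟩ := even_b A Mi ω hG q lab hq r
    refine ⟨y, ?_⟩
    simp only [mat, if_true]
    exact hy

theorem src_odd {d k B m D : ℕ} [NeZero k] [NeZero B] {X τ : Type} [Fintype X] [Fintype τ]
    [Nonempty τ] [DecidableEq τ] [DecidableEq X] (hd : 1 ≤ d) (hm : m % 2 = 1) (A Mi : Finset τ)
    (ω : Cd D (d + 2) (Vt k (Tup (fun _ => X) m × X) B) → τ) (hG : GoodO A Mi ω)
    (q : (Tup (fun _ => X) m × X) → (Fin (d + 1) → Fin k) → Bool) :
    WDF (srcFt false m d) (strU false (rho A Mi (mj false) D ω
      (emb false (pv A (sts ω)) (pr A (sts ω)) q))) k ↔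
      alt (fun _ => X) (m + 1) (fun v => lev (m + 1) (fun c => q v c = true)) := by
  rw [src_WD (Nat.pos_of_ne_zero (NeZero.ne k)) false (by simp [hm])]
  have h0 : alt (fun _ => X) (m + 1) (fun v => lev (m + 1) (fun c => q v c = true)) ↔
      alt (fun _ => X) m (fun lab => lev m (fun y => lev (m + 1) (fun c => q (lab, y) c = true))) :=
    Iff.rfl
  rw [h0]
  constructor
  · rintro ⟨S, hcard, hS⟩
    refine alt_mono _ m ?_ hS
    intro lab h
    rw [lev_odd hm] at h ⊢
    obtain ⟨r, hr⟩ := h
    rw [lev_even (by omega)] at hr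
    obtain ⟨y, hy⟩ := odd_a hd A Mi ω hG q S hcard lab ⟨r, fun y hy => by
      have := hr y
      simp only [mat, Bool.false_eq_true, if_false] at this
      exact this hy⟩
    refine ⟨y, ?_⟩
    rw [lev_even (by omega)]
    exact hy
  · intro h
    refine ⟨S0 (Tup (fun _ => X) m) X (pv A (sts ω)), S0_card _, alt_mono _ m ?_ h⟩
    intro lab h
    rw [lev_odd hm] at h ⊢
    obtain ⟨y, hy⟩ := h
    rw [lev_even (by omega)] at hy
    obtain ⟨r, hr⟩ := odd_b A Mi ω hG q lab ⟨y, hy⟩
    refine ⟨r, ?_⟩
    rw [lev_even (by omega)]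
    intro y
    simp only [mat, Bool.false_eq_true, if_false]
    exact hr y

end

end Pool.Agent.Helper265_EW.G
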