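import Pool.Agent.Helper265_EW.NIter

set_option linter.unusedSectionVars false
set_option linter.unusedVariables false

/-! Atomic types over the extended structure are definable. -/

namespace Pool.Agent.Helper265_EW.N

open Finset Classical Pool.Agent.Helper265_EW.G Pool.Agent.Helper265_EW.P

noncomputable section

section Ob

variable {n k a : ℕ}

def isWd (u : Wo n k a) : Prop := ∃ f, u = Wo.wd f

def isNb (u : Wo n k a) : Prop := ¬ isEl u ∧ ¬ isWd u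

/-- the order of the elements and words -/
def ltK (u v : Wo n k a) : Prop :=
  (isEl u ∧ isEl v ∧ ltO u v) ∨ (isEl u ∧ isWd v) ∨
  ∃ i, (∃ c c' : Fin a, c < c' ∧ letterO c u i ∧ letterO c' v i) ∧
    ∀ j, (ltO j i ∧ ¬ isEl j) → ∀ c : Fin a, (letterO c u j → letterO c v j)

def sucK (u v : Wo n k a) : Prop := (isNb u ∧ isNb v) ∧ ltO u v ∧ ¬ ∃ x, ltO u x ∧ ltO x v

def zeroK (u : Wo n k a) : Prop := isNb u ∧ ¬ ∃ x, ltO x u

def topK (u : Wo n k a) : Prop := isNb u ∧ ¬ ∃ x, ltO u x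

def fac : Fin 6 → Wo n k a → Wo n k a → Prop
  | 0, u, v => u = v
  | 1, u, v => ltK u v
  | 2, u, _ => isNb u
  | 3, u, v => sucK u v
  | 4, u, _ => zeroK u
  | 5, u, _ => topK u

lemma isEl_el (x : Fin n) : isEl (Wo.el x : Wo n k a) := ⟨x, rfl⟩
lemma isWd_wd (f : Fin k → Fin a) : isWd (Wo.wd f : Wo n k a) := ⟨f, rfl⟩
lemma not_isEl_nb (i : Fin (k + 1)) : ¬ isEl (Wo.nb i : Wo n k a) := by
  rintro ⟨x, hx⟩; cases hx
lemma not_isEl_wd (f : Fin k → Fin a) : ¬ isEl (Wo.wd f : Wo n k a) := by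
  rintro ⟨x, hx⟩; cases hx
lemma not_isWd_el (x : Fin n) : ¬ isWd (Wo.el x : Wo n k a) := by
  rintro ⟨f, hf⟩; cases hf
lemma not_isWd_nb (i : Fin (k + 1)) : ¬ isWd (Wo.nb i : Wo n k a) := by
  rintro ⟨f, hf⟩; cases hf
lemma isNb_nb (i : Fin (k + 1)) : isNb (Wo.nb i : Wo n k a) := ⟨not_isEl_nb i, not_isWd_nb i⟩
lemma not_isNb_el (x : Fin n) : ¬ isNb (Wo.el x : Wo n k a) := fun h => h.1 (isEl_el x)
lemma not_isNb_wd (f : Fin k → Fin a) : ¬ isNb (Wo.wd f : Wo n k a) := fun h => h.2 (isWd_wd f)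

lemma isNb_iff (u : Wo n k a) : isNb u ↔ ∃ i, u = Wo.nb i := by
  constructor
  · intro h
    cases u with
    | el x => exact absurd h (not_isNb_el x)
    | nb i => exact ⟨i, rfl⟩
    | wd f => exact absurd h (not_isNb_wd f)
  · rintro ⟨i, rfl⟩
    exact isNb_nb i

lemma ltO_nb' (u : Wo n k a) (j : Fin (k + 1)) :
    ltO (Wo.nb j) u ↔ ∃ i, u = Wo.nb i ∧ j < i := by
  constructor
  · rintro (⟨x', y', h1, h2, h3⟩ | ⟨i, j', h1, h2, h3⟩)
    · cases h1
    · injection h1 with h1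
      rw [h1]
      exact ⟨j', h2, h3⟩
  · rintro ⟨i, h1, h2⟩
    exact Or.inr ⟨j, i, rfl, h1, h2⟩

lemma letterO_wd (f : Fin k → Fin a) (c : Fin a) (j : Wo n k a) :
    letterO c (Wo.wd f) j ↔ ∃ i : Fin (k + 1), j = Wo.nb i ∧ ∃ h : i.val < k, f ⟨i.val, h⟩ = c := by
  unfold letterO
  constructor
  · rintro ⟨f', i, h1, h2, h3⟩
    injection h1 with h1
    subst h1
    exact ⟨i, h2, h3⟩
  · rintro ⟨i, h2, h3⟩
    exact ⟨f, i, rfl, h2, h3⟩

lemma letterO_el (x : Fin n) (c : Fin a) (j : Wo n k a) : ¬ letterO c (Wo.el x) j := by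
  rintro ⟨f', i, h1, -⟩
  cases h1

lemma letterO_nb (x : Fin (k + 1)) (c : Fin a) (j : Wo n k a) : ¬ letterO c (Wo.nb x) j := by
  rintro ⟨f', i, h1, -⟩
  cases h1

lemma ltK_wd (f g : Fin k → Fin a) :
    ltK (Wo.wd f : Wo n k a) (Wo.wd g) ↔ toLex f < toLex g := by
  unfold ltK
  constructor
  · rintro (⟨h, -⟩ | ⟨h, -⟩ | ⟨i, ⟨c, c', h1, h2, h3⟩, h4⟩)
    · exact absurd h (not_isEl_wd f)
    · exact absurd h (not_isEl_wd f)
    · rw [letterO_wd] at h2 h3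
      obtain ⟨i', rfl, h5, h6⟩ := h2
      obtain ⟨i'', h7, h8, h9⟩ := h3
      injection h7 with h7
      subst h7
      refine ⟨⟨i'.val, h5⟩, fun j hj => ?_, ?_⟩
      · have hj' : j.val < i'.val := hj
        have h10 := h4 (Wo.nb ⟨j.val, by omega⟩) ⟨(ltO_nb _ _).mpr ⟨_, rfl, hj'⟩, not_isEl_nb _⟩
          (f j) ((letterO_wd f (f j) _).mpr ⟨_, rfl, j.2, rfl⟩)
        rw [letterO_wd] at h10
        obtain ⟨j', h11, h12, h13⟩ := h10
        injection h11 with h11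
        subst h11
        exact h13.symm
      · change f ⟨i'.val, h5⟩ < g ⟨i'.val, h5⟩
        rw [h6, h9]
        exact h1
  · rintro ⟨i, h1, h2⟩
    refine Or.inr (Or.inr ⟨Wo.nb ⟨i.val, by omega⟩, ⟨f i, g i, h2, ?_, ?_⟩, ?_⟩)
    · exact (letterO_wd f _ _).mpr ⟨_, rfl, i.2, rfl⟩
    · exact (letterO_wd g _ _).mpr ⟨_, rfl, i.2, rfl⟩
    · rintro j ⟨hj, -⟩ c hc
      obtain ⟨j₀, rfl, hj0⟩ := (ltO_nb _ _).mp hj
      rw [letterO_wd] at hc ⊢
      obtain ⟨j', h3, h4, h5⟩ := hc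
      injection h3 with h3
      subst h3
      refine ⟨j₀, rfl, h4, ?_⟩
      rw [← h5]
      have hlt : (⟨j₀.val, h4⟩ : Fin k) < i := hj0
      exact (h1 _ hlt).symm

lemma ltK_el (x y : Fin n) : ltK (Wo.el x : Wo n k a) (Wo.el y) ↔ x < y := by
  unfold ltK
  constructor
  · rintro (⟨-, -, h⟩ | ⟨-, h⟩ | ⟨i, ⟨c, c', -, h2, -⟩, -⟩)
    · exact (ltO_el x y).mp h
    · exact absurd h (not_isWd_el y)
    · exact absurd h2 (letterO_el x c i)
  · intro h
    exact Or.inl ⟨isEl_el x, isEl_el y, (ltO_el x y).mpr h⟩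

lemma ltK_el_wd (x : Fin n) (f : Fin k → Fin a) : ltK (Wo.el x : Wo n k a) (Wo.wd f) :=
  Or.inr (Or.inl ⟨isEl_el x, isWd_wd f⟩)

lemma not_ltK_wd_el (x : Fin n) (f : Fin k → Fin a) :
    ¬ ltK (Wo.wd f : Wo n k a) (Wo.el x) := by
  rintro (⟨h, -⟩ | ⟨h, -⟩ | ⟨i, ⟨c, c', -, -, h2⟩, -⟩)
  · exact absurd h (not_isEl_wd f)
  · exact absurd h (not_isEl_wd f)
  · exact absurd h2 (letterO_el x c' i)

lemma not_ltK_nb_left (i : Fin (k + 1)) (u : Wo n k a) : ¬ ltK (Wo.nb i) u := by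
  rintro (⟨h, -⟩ | ⟨h, -⟩ | ⟨i', ⟨c, c', -, h2, -⟩, -⟩)
  · exact absurd h (not_isEl_nb i)
  · exact absurd h (not_isEl_nb i)
  · exact absurd h2 (letterO_nb i c i')

lemma not_ltK_nb_right (i : Fin (k + 1)) (u : Wo n k a) : ¬ ltK u (Wo.nb i) := by
  rintro (⟨-, h, -⟩ | ⟨-, h⟩ | ⟨i', ⟨c, c', -, -, h2⟩, -⟩)
  · exact absurd h (not_isEl_nb i)
  · exact absurd h (not_isWd_nb i)
  · exact absurd h2 (letterO_nb i c' i')

lemma sucK_iff (u v : Wo n k a) :
    sucK u v ↔ ∃ i j : Fin (k + 1), u = Wo.nb i ∧ v = Wo.nb j ∧ j.val = i.val + 1 := by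
  unfold sucK
  rw [isNb_iff, isNb_iff]
  constructor
  · rintro ⟨⟨⟨i, rfl⟩, ⟨j, rfl⟩⟩, h1, h2⟩
    refine ⟨i, j, rfl, rfl, ?_⟩
    obtain ⟨i', h3, h4⟩ := (ltO_nb _ _).mp h1
    injection h3 with h3
    subst h3
    have h5 : i.val < j.val := h4
    by_contra h6
    apply h2
    refine ⟨Wo.nb ⟨i.val + 1, by omega⟩, (ltO_nb _ _).mpr ⟨i, rfl, ?_⟩, (ltO_nb _ _).mpr ⟨_, rfl, ?_⟩⟩
    · exact Fin.lt_def.mpr (Nat.lt_succ_self _)
    · exact Fin.lt_def.mpr (show i.val + 1 < j.val by omega)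
  · rintro ⟨i, j, rfl, rfl, h⟩
    refine ⟨⟨⟨i, rfl⟩, ⟨j, rfl⟩⟩, (ltO_nb _ _).mpr ⟨i, rfl, Fin.lt_def.mpr (by omega)⟩, ?_⟩
    rintro ⟨x, h1, h2⟩
    obtain ⟨j', rfl, h3⟩ := (ltO_nb _ _).mp h2
    obtain ⟨i', h4, h5⟩ := (ltO_nb _ _).mp h1
    injection h4 with h4
    subst h4
    have h6 : j'.val < j.val := h3
    have h7 : i.val < j'.val := h5
    omega

lemma zeroK_iff (u : Wo n k a) : zeroK u ↔ ∃ i : Fin (k + 1), u = Wo.nb i ∧ i.val = 0 := by
  unfold zeroK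
  rw [isNb_iff]
  constructor
  · rintro ⟨⟨i, rfl⟩, h⟩
    refine ⟨i, rfl, ?_⟩
    by_contra h1
    exact h ⟨Wo.nb ⟨0, by omega⟩, (ltO_nb _ _).mpr ⟨_, rfl,
      Fin.lt_def.mpr (show 0 < i.val by omega)⟩⟩
  · rintro ⟨i, rfl, h⟩
    refine ⟨⟨i, rfl⟩, ?_⟩
    rintro ⟨x, hx⟩
    obtain ⟨j', rfl, h3⟩ := (ltO_nb _ _).mp hx
    have h4 : j'.val < i.val := h3
    omega

lemma topK_iff (u : Wo n k a) : topK u ↔ ∃ i : Fin (k + 1), u = Wo.nb i ∧ i.val = k := by
  unfold topK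
  rw [isNb_iff]
  constructor
  · rintro ⟨⟨i, rfl⟩, h⟩
    refine ⟨i, rfl, ?_⟩
    by_contra h1
    exact h ⟨Wo.nb ⟨k, by omega⟩, (ltO_nb _ _).mpr ⟨_, rfl,
      Fin.lt_def.mpr (show i.val < k by omega)⟩⟩
  · rintro ⟨i, rfl, h⟩
    refine ⟨⟨i, rfl⟩, ?_⟩
    rintro ⟨x, hx⟩
    obtain ⟨j', rfl, h3⟩ := (ltO_nb' _ _).mp hx
    have h4 : i.val < j'.val := h3
    omega

end Ob

section Basic

variable {τ σ : Voc} {a : ℕ} {V : Type}

lemma dfn_isWd (u : V) : Dfn (fun n k A S w => isWd (w u) : Qy τ σ a V) :=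
  ⟨Fo.word u, fun n k A S w => Iff.rfl⟩

lemma dfn_isNb (u : V) : Dfn (fun n k A S w => isNb (w u) : Qy τ σ a V) :=
  (dfn_isEl u).not.and (dfn_isWd u).not

lemma dfn_ltK (u v : V) : Dfn (fun n k A S w => ltK (w u) (w v) : Qy τ σ a V) := by
  unfold ltK
  refine ((dfn_isEl u).and ((dfn_isEl v).and (dfn_ltO u v))).or
    (((dfn_isEl u).and (dfn_isWd v)).or ?_)
  have h1 : Dfn (fun n k A S w => (∃ c c' : Fin a, c < c' ∧ letterO c (w (some u)) (w none) ∧
      letterO c' (w (some v)) (w none)) ∧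
      ∀ j, (ltO j (w none) ∧ ¬ isEl j) → ∀ c : Fin a,
        (letterO c (w (some u)) j → letterO c (w (some v)) j) : Qy τ σ a (Option V)) := by
    refine (Dfn.fex fun c => Dfn.fex fun c' => (Dfn.const _).and
      ((dfn_letterO _ _ _).and (dfn_letterO _ _ _))).and ?_
    have h2 : Dfn (fun n k A S w => (ltO (w none) (w (some none)) ∧ ¬ isEl (w none)) →
        ∀ c : Fin a, (letterO c (w (some (some u))) (w none) →
          letterO c (w (some (some v))) (w none)) : Qy τ σ a (Option (Option V))) :=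
      ((dfn_ltO _ _).and (dfn_isEl _).not).imp
        (Dfn.fall fun c => (dfn_letterO _ _ _).imp (dfn_letterO _ _ _))
    exact h2.all
  exact h1.ex

lemma dfn_sucK (u v : V) : Dfn (fun n k A S w => sucK (w u) (w v) : Qy τ σ a V) := by
  unfold sucK
  refine ((dfn_isNb u).and (dfn_isNb v)).and ((dfn_ltO u v).and (Dfn.not ?_))
  have h1 : Dfn (fun n k A S w => ltO (w (some u)) (w none) ∧ ltO (w none) (w (some v)) :
      Qy τ σ a (Option V)) := (dfn_ltO _ _).and (dfn_ltO _ _)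
  exact h1.ex

lemma dfn_zeroK (u : V) : Dfn (fun n k A S w => zeroK (w u) : Qy τ σ a V) := by
  unfold zeroK
  refine (dfn_isNb u).and (Dfn.not ?_)
  have h1 : Dfn (fun n k A S w => ltO (w none) (w (some u)) : Qy τ σ a (Option V)) := dfn_ltO _ _
  exact h1.ex

lemma dfn_topK (u : V) : Dfn (fun n k A S w => topK (w u) : Qy τ σ a V) := by
  unfold topK
  refine (dfn_isNb u).and (Dfn.not ?_)
  have h1 : Dfn (fun n k A S w => ltO (w (some u)) (w none) : Qy τ σ a (Option V)) := dfn_ltO _ _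
  exact h1.ex

lemma dfn_fac (i : Fin 6) (u v : V) : Dfn (fun n k A S w => fac i (w u) (w v) : Qy τ σ a V) := by
  fin_cases i
  · exact dfn_eq u v
  · exact dfn_ltK u v
  · exact dfn_isNb u
  · exact dfn_sucK u v
  · exact dfn_zeroK u
  · exact dfn_topK u

end Basic

section

variable {τ : Voc} {s m : ℕ} (φ : PiF τ s (m + 2)) (bb : Bool) {n k : ℕ}

/-- the new relations, for objects -/
def famK (A : Str τ (Fin n)) (S : Str (sgN φ) (OB φ n k)) :
    (R : RI φ) → (Fin (arI φ R) → OB φ n k) → Prop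
  | Sum.inl R, v => ∃ x : Fin (τ.ar R) → Fin n, (∀ i, v i = Wo.el (x i)) ∧ A R x = true
  | Sum.inr (Sum.inl _), v => isEl (v (0 : Fin 1))
  | Sum.inr (Sum.inr ph), v => ((∀ y, isEl (v (eC φ (Sum.inl y)))) ∧
      isWd (v (eC φ (Sum.inr (Sum.inl ()))))) ∧
      ((ph.2 = true ∧ HK φ bb A S ph.1 (fun y => v (eC φ (Sum.inl y)))
        (v (eC φ (Sum.inr (Sum.inl ()))))) ∨
      (ph.2 = false ∧ (∀ i, isEl (v (eC φ (Sum.inr (Sum.inr i))))) ∧
        CK φ S ph.1 (fun y => v (eC φ (Sum.inl y))) (v (eC φ (Sum.inr (Sum.inl ()))))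
          (fun i => v (eC φ (Sum.inr (Sum.inr i))))))

/-- elements of the extended structure as objects -/
def toO : Fin n ⊕ (Fin k → Fin (nL φ)) → OB φ n k
  | Sum.inl x => Wo.el x
  | Sum.inr f => Wo.wd f

lemma toO_el {u : Fin n ⊕ (Fin k → Fin (nL φ))} {x : Fin n} (h : toO φ u = Wo.el x) :
    u = Sum.inl x := by
  rcases u with y | f
  · have h1 : (Wo.el y : OB φ n k) = Wo.el x := h
    injection h1 with h1
    rw [h1]
  · cases h

lemma toO_wd {u : Fin n ⊕ (Fin k → Fin (nL φ))} {f : Fin k → Fin (nL φ)}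
    (h : toO φ u = Wo.wd f) : u = Sum.inr f := by
  rcases u with y | f'
  · cases h
  · have h1 : (Wo.wd f' : OB φ n k) = Wo.wd f := h
    injection h1 with h1
    rw [h1]

lemma famK_iff (A : Str τ (Fin n)) (R : RI φ) (u : Fin (arI φ R) → Fin n ⊕ (Fin k → Fin (nL φ))) :
    famK φ bb A (stI φ bb A k k) R (fun i => toO φ (u i)) ↔ famN φ bb A k R u := by
  rcases R with R | (R | ph)
  · constructor
    · rintro ⟨x, h1, h2⟩
      exact ⟨x, fun i => toO_el φ (h1 i), h2⟩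
    · rintro ⟨x, h1, h2⟩
      exact ⟨x, fun i => congrArg (toO φ) (h1 i), h2⟩
  · constructor
    · rintro ⟨x, h1⟩
      exact ⟨x, toO_el φ h1⟩
    · rintro ⟨x, h1⟩
      refine ⟨x, ?_⟩
      simp only
      rw [h1]
      rfl
  · simp only [famK, famN]
    constructor
    · rintro ⟨⟨h1, f, h2⟩, h3⟩
      choose x hx using h1
      have e1 : (fun y => toO φ (u (eC φ (Sum.inl y)))) = fun y => (Wo.el (x y) : OB φ n k) :=
        funext hx
      refine ⟨x, f, fun y => toO_el φ (hx y), toO_wd φ h2, ?_⟩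
      rcases h3 with ⟨h4, h5⟩ | ⟨h4, h5, h6⟩
      · rw [if_pos h4]
        rw [e1, h2] at h5
        exact (HK_iff φ bb A ph.1 x f).mp h5
      · rw [if_neg (by rw [h4]; simp)]
        choose z hz using h5
        refine ⟨z, fun i => toO_el φ (hz i), ?_⟩
        have e2 : (fun i => toO φ (u (eC φ (Sum.inr (Sum.inr i))))) =
            fun i => (Wo.el (z i) : OB φ n k) := funext hz
        rw [e1, h2, e2] at h6
        exact (CK_iff φ bb A ph.1 x f z).mp h6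
    · rintro ⟨x, f, h1, h2, h3⟩
      have e1 : (fun y => toO φ (u (eC φ (Sum.inl y)))) = fun y => (Wo.el (x y) : OB φ n k) := by
        funext y
        rw [h1 y]
        rfl
      have e2 : toO φ (u (eC φ (Sum.inr (Sum.inl ())))) = Wo.wd f := by rw [h2]; rfl
      refine ⟨⟨fun y => ⟨x y, congrFun e1 y⟩, f, e2⟩, ?_⟩
      rw [e1, e2]
      by_cases h4 : ph.2 = true
      · rw [if_pos h4] at h3
        exact Or.inl ⟨h4, (HK_iff φ bb A ph.1 x f).mpr h3⟩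
      · rw [if_neg h4] at h3
        obtain ⟨z, hz1, hz2⟩ := h3
        have e3 : (fun i => toO φ (u (eC φ (Sum.inr (Sum.inr i))))) =
            fun i => (Wo.el (z i) : OB φ n k) := by
          funext i
          rw [hz1 i]
          rfl
        refine Or.inr ⟨by simpa using h4, fun i => ⟨z i, congrFun e3 i⟩, ?_⟩
        rw [e3]
        exact (CK_iff φ bb A ph.1 x f z).mpr hz2

lemma dfn_famK {V : Type} (R : RI φ) (v : Fin (arI φ R) → V) :
    Dfn (fun n k A S w => famK φ bb A S R (fun i => w (v i)) : Qy τ (sgN φ) (nL φ) V) := by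
  rcases R with R | (R | ph)
  · exact dfn_rel R v
  · exact dfn_isEl (v (0 : Fin 1))
  · refine ((Dfn.fall fun y => dfn_isEl _).and (dfn_isWd _)).and (((Dfn.const _).and
      (dfn_HK φ bb ph.1 (fun y => v (eC φ (Sum.inl y))) _)).or ((Dfn.const _).and
        ((Dfn.fall fun i => dfn_isEl _).and ?_)))
    have h1 := (dfn_CK φ ph.1 (fun y => v (eC φ (Sum.inl y)))
      (v (eC φ (Sum.inr (Sum.inl ()))))).rename (V' := V)
      (Sum.elim id (fun i => v (eC φ (Sum.inr (Sum.inr i)))))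
    exact h1

/-- atomic types over the extended structure, in terms of the auxiliary relations -/
def atK {V : Type} (A : Str τ (Fin n)) (S : Str (sgN φ) (OB φ n k)) (w : V → OB φ n k) :
    AType (vocN φ) V where
  rel R v := bdec ((∀ i, ¬ isNb (w (v i))) ∧ famK φ bb A S ((eR φ).symm R) (fun i => w (v i)))
  eq u v := bdec (fac 0 (w u) (w v))
  lt u v := bdec (fac 1 (w u) (w v))
  num u := bdec (fac 2 (w u) (w u))
  suc u v := bdec (fac 3 (w u) (w v))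
  zero u := bdec (fac 4 (w u) (w u))
  top u := bdec (fac 5 (w u) (w u))

lemma dfn_atK {V : Type} [Finite V] (F : AType (vocN φ) V → Prop) :
    Dfn (fun n k A S w => F (atK φ bb A S w) : Qy τ (sgN φ) (nL φ) V) := by
  let Q : ((Σ R : Fin (vocN φ).num, Fin ((vocN φ).ar R) → V) ⊕ (Fin 6 × (V × V))) →
      Qy τ (sgN φ) (nL φ) V := fun i => match i with
    | Sum.inl q => fun n k A S w => (∀ i, ¬ isNb (w (q.2 i))) ∧
        famK φ bb A S ((eR φ).symm q.1) (fun i => w (q.2 i))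
    | Sum.inr q => fun n k A S w => fac q.1 (w q.2.1) (w q.2.2)
  have hQ : ∀ i, Dfn (Q i) := by
    intro i
    rcases i with q | q
    · exact (Dfn.fall fun i => (dfn_isNb _).not).and (dfn_famK φ bb _ q.2)
    · exact dfn_fac q.1 q.2.1 q.2.2
  exact Dfn.bool (fun x => F ⟨fun R v => x (Sum.inl ⟨R, v⟩), fun u v => x (Sum.inr (0, (u, v))),
    fun u v => x (Sum.inr (1, (u, v))), fun u => x (Sum.inr (2, (u, u))),
    fun u v => x (Sum.inr (3, (u, v))), fun u => x (Sum.inr (4, (u, u))),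
    fun u => x (Sum.inr (5, (u, u)))⟩) hQ

end

end

end Pool.Agent.Helper265_EW.N
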