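import Pool.Agent.Helper265_EW.IDefs

/-! Uniform ept-reductions between weighted Fagin-definable problems: first-order interpretations
over the structure, the numbers `0, …, k`, the words of length `k` over a fixed alphabet, and
auxiliary relations defined by iterating first-order formulas `k` times. -/

namespace Pool.Agent.Helper265_EW

/-- Objects over a structure with universe `{0, …, n - 1}`: its elements, the numbers `0, …, k`,
and the words of length `k` over the alphabet `{0, …, a - 1}`. -/
inductive Wo (n k a : ℕ) : Type
  | el (x : Fin n) : Wo n k a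
  | nb (i : Fin (k + 1)) : Wo n k a
  | wd (f : Fin k → Fin a) : Wo n k a

/-- First-order formulas, with free variables in `V`, about objects: the relations of a
`τ`-structure, auxiliary relations over the vocabulary `σ`, equality, being an element, being a
word, the order of the elements and of the numbers, and the letters of words. -/
inductive Fo (τ σ : Voc) (a : ℕ) : Type → Type 1
  | rel {V : Type} (R : Fin τ.num) (v : Fin (τ.ar R) → V) : Fo τ σ a V
  | aux {V : Type} (P : Fin σ.num) (v : Fin (σ.ar P) → V) : Fo τ σ a V
  | eq {V : Type} (u v : V) : Fo τ σ a V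
  | elem {V : Type} (u : V) : Fo τ σ a V
  | word {V : Type} (u : V) : Fo τ σ a V
  | lt {V : Type} (u v : V) : Fo τ σ a V
  | letter {V : Type} (c : Fin a) (u v : V) : Fo τ σ a V
  | not {V : Type} (φ : Fo τ σ a V) : Fo τ σ a V
  | and {V : Type} (φ ψ : Fo τ σ a V) : Fo τ σ a V
  | all {V : Type} (φ : Fo τ σ a (Option V)) : Fo τ σ a V

/-- Truth of a formula over the structure `A`, with auxiliary relations `S` and values `w` of the
free variables. The relations of `A` hold for elements only; `lt u v` says that `u` and `v` are
elements, or numbers, with `u < v`; `letter c u v` says that `u` is a word, `v` a number less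
than `k`, and `c` the letter of `u` at position `v`. -/
def Fo.Holds {τ σ : Voc} {a n k : ℕ} (A : Str τ (Fin n)) (S : Str σ (Wo n k a)) {V : Type} :
    Fo τ σ a V → (V → Wo n k a) → Prop
  | rel R v, w => ∃ x : Fin (τ.ar R) → Fin n, (∀ i, w (v i) = Wo.el (x i)) ∧ A R x = true
  | aux P v, w => S P (fun i => w (v i)) = true
  | eq u v, w => w u = w v
  | elem u, w => ∃ x, w u = Wo.el x
  | word u, w => ∃ f, w u = Wo.wd f
  | lt u v, w => (∃ x y, w u = Wo.el x ∧ w v = Wo.el y ∧ x < y) ∨
      ∃ i j, w u = Wo.nb i ∧ w v = Wo.nb j ∧ i < j
  | letter c u v, w => ∃ f i, w u = Wo.wd f ∧ w v = Wo.nb i ∧ ∃ h : i.val < k, f ⟨i.val, h⟩ = c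
  | not φ, w => ¬ φ.Holds A S w
  | and φ ψ, w => φ.Holds A S w ∧ ψ.Holds A S w
  | all φ, w => ∀ x : Wo n k a, φ.Holds A S (fun o => o.elim x w)

/-- An ept-interpretation: an auxiliary vocabulary and, for each of its symbols, a formula by
which the auxiliary relations are updated, an alphabet size, and a first-order interpretation: the
new elements are the pairs of a tag, from a finite set, and a family of objects, indexed by a
finite set, that satisfy the formula `dom` of the tag; a new relation holds for a tuple of new
elements if their families satisfy the formula given by `rel` for their tags. -/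
structure EInt (τ τ' : Voc) where
  σ : Voc
  a : ℕ
  step : ∀ P : Fin σ.num, Fo τ σ a (Fin (σ.ar P))
  Tag : Type
  finTag : Finite Tag
  Ix : Type
  finIx : Finite Ix
  dom : Tag → Fo τ σ a Ix
  rel : ∀ R : Fin τ'.num, (Fin (τ'.ar R) → Tag) → Fo τ σ a (Fin (τ'.ar R) × Ix)

namespace EInt

variable {τ τ' : Voc}

open Classical in
/-- The auxiliary relations after `i` simultaneous updates, starting from empty relations. -/
noncomputable def iter (I : EInt τ τ') {n : ℕ} (A : Str τ (Fin n)) (k : ℕ) :
    ℕ → Str I.σ (Wo n k I.a)
  | 0 => fun _ _ => false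
  | i + 1 => fun P v => decide ((I.step P).Holds A (I.iter A k i) v)

/-- The universe of the new structure; the auxiliary relations are updated `k` times. -/
def Univ (I : EInt τ τ') {n : ℕ} (A : Str τ (Fin n)) (k : ℕ) : Type :=
  {x : I.Tag × (I.Ix → Wo n k I.a) // (I.dom x.1).Holds A (I.iter A k k) x.2}

open Classical in
/-- The new structure. -/
noncomputable def out (I : EInt τ τ') {n : ℕ} (A : Str τ (Fin n)) (k : ℕ) :
    Str τ' (I.Univ A k) :=
  fun R v => decide ((I.rel R (fun i => (v i).1.1)).Holds A (I.iter A k k)
    (fun p => (v p.1).1.2 p.2))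

end EInt

/-- The weighted Fagin-definable problem of `φ` reduces to that of `φ'` by one ept-interpretation
with new parameter `f k`, the new structure having at most `(2 ^ k * (n + 2)) ^ c` elements for a
constant `c`. -/
def EptRed {τ τ' : Voc} {s s' t t' : ℕ} (f : ℕ → ℕ) (φ : PiF τ s t) (φ' : PiF τ' s' t') : Prop :=
  ∃ (I : EInt τ τ') (c : ℕ), ∀ n k : ℕ, 1 ≤ n → ∀ A : Str τ (Fin n),
    Nat.card (I.Univ A k) ≤ (2 ^ k * (n + 2)) ^ c ∧ (WDF φ A k ↔ WDF φ' (I.out A k) (f k))

/-- Whenever the formula has the value `b`, this value is enforced by the truth values of the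
atoms `X(v)` without `P v` and of some atoms `X(v)` with `P v` that are either at most `w` many
or all false. -/
def QF.CertN {τ : Voc} {s : ℕ} {V : Type} (P : (Fin s → V) → Prop) (b : Bool) (w : ℕ)
    (ψ : QF τ s V) : Prop :=
  ∀ (ρ : ∀ R : Fin τ.num, (Fin (τ.ar R) → V) → Bool) (η : V → V → Bool)
    (ξ : (Fin s → V) → Bool), ψ.eval ρ η ξ = b →
    ∃ C : Finset (Fin s → V), (C.card ≤ w ∨ ∀ v ∈ C, ξ v = false) ∧ (∀ v ∈ C, P v) ∧
      ∀ ξ' : (Fin s → V) → Bool, (∀ v, (¬ P v ∨ v ∈ C) → ξ' v = ξ v) → ψ.eval ρ η ξ' = b

/-- Inner width at most `w` up to false atoms: if the innermost block is existential, then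
whenever the matrix is true this is enforced by some of the atoms `X(v)` with some argument from
the innermost block, either at most `w` of them or only false ones, together with all other
atoms; if the innermost block is universal, the same holds whenever the matrix is false. -/
def PiF.NegWidth {τ : Voc} {s t : ℕ} (φ : PiF τ s t) (w : ℕ) : Prop :=
  φ.ψ.CertN (fun v => ∃ i, lastVar φ.len t (v i)) (decide (t % 2 = 0)) w

/-- For `b = true`: every occurrence of an atom `X(v)` with `P v` is negative, that is, within an
odd number of negations; for `b = false`: every such occurrence is positive. -/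
def QF.Sgn {τ : Voc} {s : ℕ} {V : Type} (P : (Fin s → V) → Prop) : Bool → QF τ s V → Prop
  | _, QF.rel _ _ => True
  | _, QF.eq _ _ => True
  | b, QF.mem v => P v → b = false
  | b, QF.not φ => φ.Sgn P (!b)
  | b, QF.and φ ψ => φ.Sgn P b ∧ ψ.Sgn P b

/-- All occurrences of `X` with some argument from the innermost block are negative, if this
block is existential, and positive, if it is universal. -/
def PiF.InnerNeg {τ : Voc} {s t : ℕ} (φ : PiF τ s t) : Prop :=
  φ.ψ.Sgn (fun v => ∃ i, lastVar φ.len t (v i)) (decide (t % 2 = 0))

end Pool.Agent.Helper265_EW
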