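import Pool.Agent.Helper265_EW.NDefs

set_option linter.unusedSectionVars false

/-! Closure properties of uniformly first-order definable relations on objects. -/

namespace Pool.Agent.Helper265_EW.N

open Finset Classical

noncomputable section

variable {τ σ : Voc} {a : ℕ}

/-- families of relations on objects -/
abbrev Qy (τ σ : Voc) (a : ℕ) (V : Type) : Type :=
  ∀ n k : ℕ, Str τ (Fin n) → Str σ (Wo n k a) → (V → Wo n k a) → Prop

/-- definable families -/
def Dfn {V : Type} (Q : Qy τ σ a V) : Prop :=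
  ∃ φ : Fo τ σ a V, ∀ n k A S w, φ.Holds A S w ↔ Q n k A S w

variable {V V' : Type}

lemma Dfn.congr {Q Q' : Qy τ σ a V} (h : Dfn Q)
    (hh : ∀ n k A S w, Q n k A S w ↔ Q' n k A S w) : Dfn Q' := by
  obtain ⟨φ, hφ⟩ := h
  exact ⟨φ, fun n k A S w => (hφ n k A S w).trans (hh n k A S w)⟩

/-- renaming of variables -/
def ren {τ σ : Voc} {a : ℕ} : {V : Type} → Fo τ σ a V → {V' : Type} → (V → V') → Fo τ σ a V'
  | _, Fo.rel R v, _, f => Fo.rel R (fun i => f (v i))
  | _, Fo.aux P v, _, f => Fo.aux P (fun i => f (v i))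
  | _, Fo.eq u v, _, f => Fo.eq (f u) (f v)
  | _, Fo.elem u, _, f => Fo.elem (f u)
  | _, Fo.word u, _, f => Fo.word (f u)
  | _, Fo.lt u v, _, f => Fo.lt (f u) (f v)
  | _, Fo.letter c u v, _, f => Fo.letter c (f u) (f v)
  | _, Fo.not φ, _, f => Fo.not (ren φ f)
  | _, Fo.and φ ψ, _, f => Fo.and (ren φ f) (ren ψ f)
  | _, Fo.all φ, _, f => Fo.all (ren φ (Option.map f))

lemma holds_ren {n k : ℕ} (A : Str τ (Fin n)) (S : Str σ (Wo n k a)) {V : Type}
    (φ : Fo τ σ a V) : ∀ {V' : Type} (f : V → V') (w : V' → Wo n k a),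
      (ren φ f).Holds A S w ↔ φ.Holds A S (fun v => w (f v)) := by
  induction φ with
  | rel R v => intro V' f w; exact Iff.rfl
  | aux P v => intro V' f w; exact Iff.rfl
  | eq u v => intro V' f w; exact Iff.rfl
  | elem u => intro V' f w; exact Iff.rfl
  | word u => intro V' f w; exact Iff.rfl
  | lt u v => intro V' f w; exact Iff.rfl
  | letter c u v => intro V' f w; exact Iff.rfl
  | not φ ih => intro V' f w; exact not_congr (ih f w)
  | and φ ψ ih1 ih2 => intro V' f w; exact and_congr (ih1 f w) (ih2 f w)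
  | all φ ih =>
    intro V' f w
    apply forall_congr'
    intro x
    refine (ih (Option.map f) (fun o => o.elim x w)).trans ?_
    have h : (fun v => (Option.map f v).elim x w) = fun o => o.elim x (fun v => w (f v)) := by
      funext o
      cases o <;> rfl
    rw [h]

lemma Dfn.rename {Q : Qy τ σ a V} (h : Dfn Q) (f : V → V') :
    Dfn (fun n k A S (w : V' → Wo n k a) => Q n k A S (fun v => w (f v))) := by
  obtain ⟨φ, hφ⟩ := h
  exact ⟨ren φ f, fun n k A S w => (holds_ren A S φ f w).trans (hφ n k A S _)⟩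

lemma Dfn.not {Q : Qy τ σ a V} (h : Dfn Q) : Dfn (fun n k A S w => ¬ Q n k A S w) := by
  obtain ⟨φ, hφ⟩ := h
  exact ⟨Fo.not φ, fun n k A S w => not_congr (hφ n k A S w)⟩

lemma Dfn.and {Q Q' : Qy τ σ a V} (h : Dfn Q) (h' : Dfn Q') :
    Dfn (fun n k A S w => Q n k A S w ∧ Q' n k A S w) := by
  obtain ⟨φ, hφ⟩ := h
  obtain ⟨φ', hφ'⟩ := h'
  exact ⟨Fo.and φ φ', fun n k A S w => and_congr (hφ n k A S w) (hφ' n k A S w)⟩

lemma Dfn.or {Q Q' : Qy τ σ a V} (h : Dfn Q) (h' : Dfn Q') :
    Dfn (fun n k A S w => Q n k A S w ∨ Q' n k A S w) :=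
  ((h.not.and h'.not).not).congr fun n k A S w => by tauto

lemma Dfn.imp {Q Q' : Qy τ σ a V} (h : Dfn Q) (h' : Dfn Q') :
    Dfn (fun n k A S w => Q n k A S w → Q' n k A S w) :=
  ((h.and h'.not).not).congr fun n k A S w => by tauto

lemma Dfn.all {Q : Qy τ σ a (Option V)} (h : Dfn Q) :
    Dfn (fun n k A S (w : V → Wo n k a) => ∀ x, Q n k A S (fun o => o.elim x w)) := by
  obtain ⟨φ, hφ⟩ := h
  exact ⟨Fo.all φ, fun n k A S w => forall_congr' fun x => hφ n k A S _⟩

lemma Dfn.ex {Q : Qy τ σ a (Option V)} (h : Dfn Q) :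
    Dfn (fun n k A S (w : V → Wo n k a) => ∃ x, Q n k A S (fun o => o.elim x w)) :=
  (h.not.all.not).congr fun n k A S w => by push Not; rfl

lemma Dfn.tt : Dfn (fun _ _ _ _ _ => True : Qy τ σ a V) := by
  refine ⟨Fo.all (Fo.eq none none), fun n k A S w => ?_⟩
  simp [Fo.Holds]

lemma Dfn.const (c : Prop) : Dfn (fun _ _ _ _ _ => c : Qy τ σ a V) := by
  by_cases hc : c
  · exact Dfn.tt.congr fun n k A S w => by simp [hc]
  · exact Dfn.tt.not.congr fun n k A S w => by simp [hc]

lemma Dfn.fall {ι : Type} [Finite ι] {Q : ι → Qy τ σ a V} (h : ∀ i, Dfn (Q i)) :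
    Dfn (fun n k A S w => ∀ i, Q i n k A S w) := by
  have := Fintype.ofFinite ι
  have h1 : ∀ s : Finset ι, Dfn (fun n k A S w => ∀ i ∈ s, Q i n k A S w) := by
    intro s
    induction s using Finset.induction_on with
    | empty => exact Dfn.tt.congr fun n k A S w => by simp
    | insert i s _ ih => exact ((h i).and ih).congr fun n k A S w => by simp
  exact (h1 Finset.univ).congr fun n k A S w => by simp

lemma Dfn.fex {ι : Type} [Finite ι] {Q : ι → Qy τ σ a V} (h : ∀ i, Dfn (Q i)) :
    Dfn (fun n k A S w => ∃ i, Q i n k A S w) :=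
  ((Dfn.fall fun i => (h i).not).not).congr fun n k A S w => by push Not; rfl

/-- arbitrary functions of finitely many definable facts -/
lemma Dfn.bool {ι : Type} [Finite ι] (F : (ι → Bool) → Prop) {Q : ι → Qy τ σ a V}
    (h : ∀ i, Dfn (Q i)) : Dfn (fun n k A S w => F (fun i => decide (Q i n k A S w))) := by
  have h1 : Dfn (fun n k A S w => ∃ x : ι → Bool, F x ∧ ∀ i,
      ((x i = true → Q i n k A S w) ∧ (x i = false → ¬ Q i n k A S w))) :=
    Dfn.fex fun x => (Dfn.const (F x)).and (Dfn.fall fun i =>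
      ((Dfn.const (x i = true)).imp (h i)).and ((Dfn.const (x i = false)).imp (h i).not))
  refine h1.congr fun n k A S w => ?_
  constructor
  · rintro ⟨x, hx, hx2⟩
    have : (fun i => decide (Q i n k A S w)) = x := by
      funext i
      by_cases hi : x i = true
      · rw [hi]; exact decide_eq_true ((hx2 i).1 hi)
      · have hi' : x i = false := by simpa using hi
        rw [hi']; exact decide_eq_false ((hx2 i).2 hi')
    rw [this]
    exact hx
  · intro hF
    exact ⟨_, hF, fun i => ⟨fun hi => of_decide_eq_true hi, fun hi => of_decide_eq_false hi⟩⟩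

/-- quantification over finite families of objects -/
lemma Dfn.allF (l : ℕ) : ∀ {V : Type} {Q : Qy τ σ a (V ⊕ Fin l)}, Dfn Q →
    Dfn (fun n k A S (w : V → Wo n k a) => ∀ b : Fin l → Wo n k a,
      Q n k A S (Sum.elim w b)) := by
  induction l with
  | zero =>
    intro V Q h
    refine (h.rename (V' := V) (Sum.elim id (fun i => i.elim0))).congr fun n k A S w => ?_
    constructor
    · intro h1 b
      have : (fun v => w ((Sum.elim id (fun i : Fin 0 => i.elim0) : V ⊕ Fin 0 → V) v)) =
          Sum.elim w b := by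
        funext v
        rcases v with v | i
        · rfl
        · exact i.elim0
      rwa [this] at h1
    · intro h1
      have := h1 (fun i => i.elim0)
      have h2 : (fun v => w ((Sum.elim id (fun i : Fin 0 => i.elim0) : V ⊕ Fin 0 → V) v)) =
          Sum.elim w (fun i => i.elim0) := by
        funext v
        rcases v with v | i
        · rfl
        · exact i.elim0
      rwa [h2]
  | succ l ih =>
    intro V Q h
    let f : V ⊕ Fin (l + 1) → Option V ⊕ Fin l :=
      Sum.elim (fun v => Sum.inl (some v)) (Fin.cases (Sum.inl none) (fun j => Sum.inr j))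
    have h1 := (ih (h.rename f)).all
    refine h1.congr fun n k A S w => ?_
    have key : ∀ (x : Wo n k a) (b : Fin l → Wo n k a),
        (fun v => (Sum.elim (fun o : Option V => o.elim x w) b : Option V ⊕ Fin l → Wo n k a)
          (f v)) = Sum.elim w (Fin.cons x b) := by
      intro x b
      funext v
      rcases v with v | i
      · rfl
      · refine Fin.cases ?_ (fun j => ?_) i
        · rfl
        · rfl
    constructor
    · intro h2 b
      have h3 := h2 (b 0) (fun j => b j.succ)
      rw [key] at h3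
      have h4 : (Fin.cons (b 0) (fun j => b j.succ) : Fin (l + 1) → Wo n k a) = b :=
        Fin.cons_self_tail b
      rwa [h4] at h3
    · intro h2 x b
      have h3 := h2 (Fin.cons x b)
      rwa [← key] at h3

lemma Dfn.exF (l : ℕ) {V : Type} {Q : Qy τ σ a (V ⊕ Fin l)} (h : Dfn Q) :
    Dfn (fun n k A S (w : V → Wo n k a) => ∃ b : Fin l → Wo n k a,
      Q n k A S (Sum.elim w b)) :=
  ((Dfn.allF l h.not).not).congr fun n k A S w => by push Not; rfl

end

end Pool.Agent.Helper265_EW.N
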