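import Pool.Agent.Helper265_EW.NHyp

set_option linter.unusedSectionVars false

/-! The structure extended by words and the sets named by them, and the formula over it. -/

namespace Pool.Agent.Helper265_EW.N

open Finset Classical Pool.Agent.Helper265_EW.G Pool.Agent.Helper265_EW.P

noncomputable section

section

variable {τ : Voc} {s m : ℕ} (φ : PiF τ s (m + 2)) (bb : Bool) (w0 : ℕ) {n k : ℕ}

/-- indices of the new relations -/
abbrev RI : Type := Fin τ.num ⊕ (Unit ⊕ ((At φ → Bool) × Bool))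

/-- coordinates of the relations for the named sets -/
abbrev CI : Type := Vars φ.len (m + 1) ⊕ (Unit ⊕ Fin s)

def arI : RI φ → ℕ
  | Sum.inl R => τ.ar R
  | Sum.inr (Sum.inl _) => 1
  | Sum.inr (Sum.inr _) => Fintype.card (CI φ)

def eR : RI φ ≃ Fin (Fintype.card (RI φ)) := Fintype.equivFin _

def eC : CI φ ≃ Fin (Fintype.card (CI φ)) := Fintype.equivFin _

/-- the new vocabulary -/
def vocN : Voc := ⟨Fintype.card (RI φ), fun i => arI φ ((eR φ).symm i)⟩

/-- the new relations -/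
def famN (A : Str τ (Fin n)) (k : ℕ) :
    (R : RI φ) → (Fin (arI φ R) → Fin n ⊕ (Fin k → Fin (nL φ))) → Prop
  | Sum.inl R, v => ∃ x : Fin (τ.ar R) → Fin n, (∀ i, v i = Sum.inl (x i)) ∧ A R x = true
  | Sum.inr (Sum.inl _), v => ∃ x : Fin n, v (0 : Fin 1) = Sum.inl x
  | Sum.inr (Sum.inr ph), v => ∃ (x : Vars φ.len (m + 1) → Fin n) (f : Fin k → Fin (nL φ)),
      (∀ y, v (eC φ (Sum.inl y)) = Sum.inl (x y)) ∧ v (eC φ (Sum.inr (Sum.inl ()))) = Sum.inr f ∧
      (if ph.2 = true then HH φ bb A ph.1 x f else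
        ∃ z : Fin s → Fin n, (∀ i, v (eC φ (Sum.inr (Sum.inr i))) = Sum.inl (z i)) ∧
          z ∈ CH φ bb A ph.1 x f)

/-- the extended structure -/
def strN (A : Str τ (Fin n)) (k : ℕ) : Str (vocN φ) (Fin n ⊕ (Fin k → Fin (nL φ))) :=
  fun i v => decide (famN φ bb A k ((eR φ).symm i) v)

/-- access to the truth values by indices -/
def get {V : Type} (ρ : ∀ i : Fin (vocN φ).num, (Fin ((vocN φ).ar i) → V) → Bool) (R : RI φ)
    (u : Fin (arI φ R) → V) : Bool :=
  ρ (eR φ R) (fun j => u (Fin.cast (congrArg (arI φ) ((eR φ).symm_apply_apply R)) j))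

lemma get_str {V : Type} (A : Str τ (Fin n)) (k : ℕ)
    (w : V → Fin n ⊕ (Fin k → Fin (nL φ))) (R : RI φ) (u : Fin (arI φ R) → V) :
    get φ (fun i v => strN φ bb A k i (fun j => w (v j))) R u =
      decide (famN φ bb A k R (fun j => w (u j))) := by
  have h : ∀ (R' : RI φ) (h : R' = R),
      decide (famN φ bb A k R' (fun j => w (u (Fin.cast (congrArg (arI φ) h) j)))) =
        decide (famN φ bb A k R (fun j => w (u j))) := by
    rintro R' rfl
    rfl
  exact h _ ((eR φ).symm_apply_apply R)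

/-- block lengths -/
def lenN : ℕ → ℕ := fun i => φ.len i + (s + 1)

/-- the original variables -/
def io : (t : ℕ) → Vars φ.len t → Vars (lenN φ) t
  | 0, v => v.elim
  | t + 1, Sum.inl v => Sum.inl (io t v)
  | t + 1, Sum.inr j => Sum.inr (Fin.castAdd (s + 1) j)

/-- the additional variables of block `0` -/
def z0v : (t : ℕ) → Fin (s + 1) → Vars (lenN φ) (t + 1)
  | 0, j => (Sum.inr (Fin.natAdd (φ.len 0) j) : Vars (lenN φ) 0 ⊕ Fin (lenN φ 0))
  | t + 1, j => (Sum.inl (z0v t j) : Vars (lenN φ) (t + 1) ⊕ Fin (lenN φ (t + 1)))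

/-- the variable for the word -/
def wv : Vars (lenN φ) (m + 2) :=
  (Sum.inl (Sum.inr (Fin.natAdd (φ.len m) (Fin.last s)) : Vars (lenN φ) m ⊕ Fin (lenN φ m)) :
    Vars (lenN φ) (m + 1) ⊕ Fin (lenN φ (m + 1)))

/-- the variables for the element of the named set -/
def zv (i : Fin s) : Vars (lenN φ) (m + 2) :=
  (Sum.inr (Fin.natAdd (φ.len (m + 1)) i.castSucc) :
    Vars (lenN φ) (m + 1) ⊕ Fin (lenN φ (m + 1)))

/-- the tuple of variables for the relations of the named sets -/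
def tup (j : Fin (Fintype.card (CI φ))) : Vars (lenN φ) (m + 2) :=
  match (eC φ).symm j with
  | Sum.inl y => io φ (m + 2) (Sum.inl y)
  | Sum.inr (Sum.inl _) => wv φ
  | Sum.inr (Sum.inr i) => zv φ i

/-- being an element -/
def isE {V : Type} (ρ : ∀ i : Fin (vocN φ).num, (Fin ((vocN φ).ar i) → V) → Bool) (u : V) : Prop :=
  get φ ρ (Sum.inr (Sum.inl ())) (fun _ => u) = true

/-- the pattern of the outer atoms -/
def ptN (ξ : (Fin s → Vars (lenN φ) (m + 2)) → Bool) : At φ → Bool :=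
  fun v => if P.inn φ v then false else ξ (fun i => io φ (m + 2) (v i))

/-- the critical event -/
def evtN (ρ : ∀ i : Fin (vocN φ).num, (Fin ((vocN φ).ar i) → Vars (lenN φ) (m + 2)) → Bool)
    (η : Vars (lenN φ) (m + 2) → Vars (lenN φ) (m + 2) → Bool)
    (ξ : (Fin s → Vars (lenN φ) (m + 2)) → Bool) : Prop :=
  get φ ρ (Sum.inr (Sum.inr (ptN φ ξ, true))) (tup φ) = false ∨
  ((∀ u : Vars φ.len (m + 2), P.lv φ.len (m + 2) u = m + 1 → isE φ ρ (io φ (m + 2) u)) ∧
    SC φ bb w0 (fun R v => get φ ρ (Sum.inl R) (fun i => io φ (m + 2) (v i)))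
      (fun u v => η (io φ (m + 2) u) (io φ (m + 2) v)) (fun v => ξ (fun i => io φ (m + 2) (v i)))) ∨
  ((∀ i, isE φ ρ (zv φ i)) ∧ get φ ρ (Sum.inr (Sum.inr (ptN φ ξ, false))) (tup φ) = true ∧
    ξ (zv φ) = false)

/-- the matrix of the formula -/
def PN (ρ : ∀ i : Fin (vocN φ).num, (Fin ((vocN φ).ar i) → Vars (lenN φ) (m + 2)) → Bool)
    (η : Vars (lenN φ) (m + 2) → Vars (lenN φ) (m + 2) → Bool)
    (ξ : (Fin s → Vars (lenN φ) (m + 2)) → Bool) : Prop :=
  (ξ (fun i => z0v φ (m + 1) i.castSucc) = true →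
    ∀ i : Fin s, isE φ ρ (z0v φ (m + 1) i.castSucc)) ∧
  match P.scn (fun i => ∀ u : Vars φ.len (m + 2), P.lv φ.len (m + 2) u = i →
      isE φ ρ (io φ (m + 2) u)) m with
  | some c => c = true
  | none => if bb = true then
      (((∀ u : Vars φ.len (m + 2), P.lv φ.len (m + 2) u = m → isE φ ρ (io φ (m + 2) u)) ∧
        ¬ isE φ ρ (wv φ)) → evtN φ bb w0 ρ η ξ)
    else (((∀ u : Vars φ.len (m + 2), P.lv φ.len (m + 2) u = m → isE φ ρ (io φ (m + 2) u)) ∧
        ¬ isE φ ρ (wv φ)) ∧ ¬ evtN φ bb w0 ρ η ξ)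

/-- the formula -/
def forN : PiF (vocN φ) s (m + 2) where
  len := lenN φ
  ψ := qfOf (z0v φ (m + 1) (Fin.last s)) (PN φ bb w0)

/-- having an argument in the innermost block -/
def innN (v : Fin s → Vars (lenN φ) (m + 2)) : Prop := ∃ i, lastVar (lenN φ) (m + 2) (v i)

lemma lastVar_io (u : Vars φ.len (m + 2)) :
    lastVar (lenN φ) (m + 2) (io φ (m + 2) u) ↔ lastVar φ.len (m + 2) u := by
  rcases u with u | j
  · exact Iff.rfl
  · exact Iff.rfl

lemma innN_io (v : At φ) : innN φ (fun i => io φ (m + 2) (v i)) ↔ P.inn φ v := by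
  unfold innN P.inn
  simp only [lastVar_io]

lemma not_innN_z0 : ¬ innN φ (fun i => z0v φ (m + 1) i.castSucc) := by
  rintro ⟨i, hi⟩
  exact hi

lemma ptN_congr (ξ ξ' : (Fin s → Vars (lenN φ) (m + 2)) → Bool)
    (h : ∀ v, ¬ innN φ v → ξ' v = ξ v) : ptN φ ξ' = ptN φ ξ := by
  funext v
  unfold ptN
  by_cases hv : P.inn φ v
  · rw [if_pos hv, if_pos hv]
  · rw [if_neg hv, if_neg hv]
    apply h
    rw [innN_io]
    exact hv

lemma evt_cert (hw0 : 1 ≤ w0)
    (ρ : ∀ i : Fin (vocN φ).num, (Fin ((vocN φ).ar i) → Vars (lenN φ) (m + 2)) → Bool)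
    (η : Vars (lenN φ) (m + 2) → Vars (lenN φ) (m + 2) → Bool)
    (ξ : (Fin s → Vars (lenN φ) (m + 2)) → Bool) (h : evtN φ bb w0 ρ η ξ) :
    ∃ C : Finset (Fin s → Vars (lenN φ) (m + 2)), C.card ≤ w0 ∧ (∀ v ∈ C, innN φ v) ∧
      ∀ ξ' : (Fin s → Vars (lenN φ) (m + 2)) → Bool,
        (∀ v, (¬ innN φ v ∨ v ∈ C) → ξ' v = ξ v) → evtN φ bb w0 ρ η ξ' := by
  rcases h with h | ⟨h1, C, hC1, hC2, hC3⟩ | ⟨h1, h2, h3⟩
  · refine ⟨∅, by simp, by simp, fun ξ' hξ' => ?_⟩
    left
    rw [ptN_congr φ ξ ξ' (fun v hv => hξ' v (Or.inl hv))]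
    exact h
  · refine ⟨C.image (fun v i => io φ (m + 2) (v i)), Finset.card_image_le.trans hC1, ?_,
      fun ξ' hξ' => ?_⟩
    · intro v hv
      obtain ⟨u, hu, rfl⟩ := Finset.mem_image.mp hv
      exact (innN_io φ u).mpr (hC2 u hu)
    · right
      left
      refine ⟨h1, C, hC1, hC2, fun ξ'' hξ'' => ?_⟩
      apply hC3
      intro v hv
      rw [hξ'' v hv]
      apply hξ'
      rcases hv with hv | hv
      · left
        rw [innN_io]
        exact hv
      · right
        exact Finset.mem_image_of_mem _ hv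
  · refine ⟨({zv φ} : Finset (Fin s → Vars (lenN φ) (m + 2))).filter (innN φ), ?_, ?_,
      fun ξ' hξ' => ?_⟩
    · refine (Finset.card_filter_le _ _).trans ?_
      rw [Finset.card_singleton]
      exact hw0
    · intro v hv
      exact (Finset.mem_filter.mp hv).2
    · right
      right
      refine ⟨h1, ?_, ?_⟩
      · rw [ptN_congr φ ξ ξ' (fun v hv => hξ' v (Or.inl hv))]
        exact h2
      · rw [hξ' (zv φ) ?_]
        · exact h3
        · by_cases hz : innN φ (zv φ)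
          · right
            exact Finset.mem_filter.mpr ⟨Finset.mem_singleton_self _, hz⟩
          · exact Or.inl hz

lemma width_aux (hw0 : 1 ≤ w0) :
    (qfOf (z0v φ (m + 1) (Fin.last s)) (PN φ bb w0)).Cert (innN φ) bb w0 := by
  intro ρ η ξ hξ
  -- it suffices to treat the truth of the condition
  have hP : ∀ ξ : (Fin s → Vars (lenN φ) (m + 2)) → Bool,
      (qfOf (z0v φ (m + 1) (Fin.last s)) (PN φ bb w0)).eval ρ η ξ = bb ↔
      (PN φ bb w0 ρ η ξ ↔ bb = true) := by
    intro ξ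
    have h1 := eval_qfOf (z0v φ (m + 1) (Fin.last s)) (PN φ bb w0) ρ η ξ
    cases bb with
    | true =>
      rw [h1]
      simp
    | false =>
      rw [← h1]
      simp
  simp only [hP] at hξ ⊢
  by_cases he : evtN φ bb w0 ρ η ξ
  · obtain ⟨C, hC1, hC2, hC3⟩ := evt_cert φ bb w0 hw0 ρ η ξ he
    refine ⟨C, hC1, hC2, fun ξ' hξ' => ?_⟩
    have he' := hC3 ξ' hξ'
    rw [← hξ]
    unfold PN
    rw [hξ' _ (Or.inl (not_innN_z0 φ))]
    simp only [he, he']
  · refine ⟨∅, by simp, by simp, fun ξ' hξ' => ?_⟩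
    unfold PN at hξ ⊢
    rw [hξ' _ (Or.inl (not_innN_z0 φ))]
    cases hb : bb with
    | true =>
      subst hb
      simp only [if_true, iff_true] at hξ ⊢
      refine ⟨hξ.1, ?_⟩
      have h2 := hξ.2
      split at h2
      · exact h2
      · intro h3
        exact absurd (h2 h3) he
    | false =>
      subst hb
      simp only [Bool.false_eq_true, if_false, iff_false] at hξ ⊢
      intro h3
      apply hξ
      refine ⟨h3.1, ?_⟩
      have h2 := h3.2
      split at h2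
      · exact h2
      · exact ⟨h2.1, he⟩

/-- the inner width of the formula -/
theorem forN_width (hw0 : 1 ≤ w0) (hbb : bb = decide (m % 2 = 0)) :
    (forN φ bb w0).InnerWidth w0 := by
  have hcrit : decide ((m + 2) % 2 = 0) = bb := by
    rw [hbb]
    congr 1
    apply propext
    omega
  unfold PiF.InnerWidth
  rw [hcrit]
  exact width_aux φ bb w0 hw0

end

end

end Pool.Agent.Helper265_EW.N
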