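import Pool.Agent.Helper265_EW.NDefs
import Pool.Agent.Helper265_EW.PRes

set_option linter.unusedSectionVars false

/-! Every function of the truth values of the atoms is expressed by a quantifier-free formula. -/

namespace Pool.Agent.Helper265_EW.N

open Finset Classical

noncomputable section

variable {τ : Voc} {s : ℕ} {V : Type}

/-- expressible conditions on the truth values of the atoms -/
def Exq (P : (∀ R : Fin τ.num, (Fin (τ.ar R) → V) → Bool) → (V → V → Bool) →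
    ((Fin s → V) → Bool) → Prop) : Prop :=
  ∃ ψ : QF τ s V, ∀ ρ η ξ, ψ.eval ρ η ξ = true ↔ P ρ η ξ

lemma Exq.congr {P P' : (∀ R : Fin τ.num, (Fin (τ.ar R) → V) → Bool) → (V → V → Bool) →
    ((Fin s → V) → Bool) → Prop} (h : Exq P) (hh : ∀ ρ η ξ, P ρ η ξ ↔ P' ρ η ξ) : Exq P' := by
  obtain ⟨ψ, hψ⟩ := h
  exact ⟨ψ, fun ρ η ξ => (hψ ρ η ξ).trans (hh ρ η ξ)⟩

lemma Exq.not {P : (∀ R : Fin τ.num, (Fin (τ.ar R) → V) → Bool) → (V → V → Bool) →
    ((Fin s → V) → Bool) → Prop} (h : Exq P) : Exq (fun ρ η ξ => ¬ P ρ η ξ) := by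
  obtain ⟨ψ, hψ⟩ := h
  refine ⟨QF.not ψ, fun ρ η ξ => ?_⟩
  simp only [QF.eval]
  rw [← hψ]
  simp

lemma Exq.and {P P' : (∀ R : Fin τ.num, (Fin (τ.ar R) → V) → Bool) → (V → V → Bool) →
    ((Fin s → V) → Bool) → Prop} (h : Exq P) (h' : Exq P') :
    Exq (fun ρ η ξ => P ρ η ξ ∧ P' ρ η ξ) := by
  obtain ⟨ψ, hψ⟩ := h
  obtain ⟨ψ', hψ'⟩ := h'
  refine ⟨QF.and ψ ψ', fun ρ η ξ => ?_⟩
  simp only [QF.eval]
  rw [← hψ, ← hψ', Bool.and_eq_true]

lemma Exq.tt (u : V) : Exq (fun (_ : ∀ R : Fin τ.num, (Fin (τ.ar R) → V) → Bool)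
    (_ : V → V → Bool) (_ : (Fin s → V) → Bool) => True) := by
  have h : Exq (fun (_ : ∀ R : Fin τ.num, (Fin (τ.ar R) → V) → Bool)
    (η : V → V → Bool) (_ : (Fin s → V) → Bool) => η u u = true) :=
    ⟨QF.eq u u, fun ρ η ξ => Iff.rfl⟩
  exact ((h.and h.not).not).congr fun ρ η ξ => by simp

lemma Exq.fall (u : V) {ι : Type} [Finite ι]
    {P : ι → (∀ R : Fin τ.num, (Fin (τ.ar R) → V) → Bool) → (V → V → Bool) →
    ((Fin s → V) → Bool) → Prop} (h : ∀ i, Exq (P i)) : Exq (fun ρ η ξ => ∀ i, P i ρ η ξ) := by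
  have := Fintype.ofFinite ι
  have h1 : ∀ t : Finset ι, Exq (fun ρ η ξ => ∀ i ∈ t, P i ρ η ξ) := by
    intro t
    induction t using Finset.induction_on with
    | empty => exact (Exq.tt u).congr fun ρ η ξ => by simp
    | insert i t _ ih => exact ((h i).and ih).congr fun ρ η ξ => by simp
  exact (h1 Finset.univ).congr fun ρ η ξ => by simp

lemma Exq.fex (u : V) {ι : Type} [Finite ι]
    {P : ι → (∀ R : Fin τ.num, (Fin (τ.ar R) → V) → Bool) → (V → V → Bool) →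
    ((Fin s → V) → Bool) → Prop} (h : ∀ i, Exq (P i)) : Exq (fun ρ η ξ => ∃ i, P i ρ η ξ) :=
  ((Exq.fall u fun i => (h i).not).not).congr fun ρ η ξ => by push Not; rfl

lemma Exq.atom_rel (R : Fin τ.num) (v : Fin (τ.ar R) → V) (b : Bool) :
    Exq (fun (ρ : ∀ R : Fin τ.num, (Fin (τ.ar R) → V) → Bool) (_ : V → V → Bool)
      (_ : (Fin s → V) → Bool) => ρ R v = b) := by
  cases b
  · refine ⟨QF.not (QF.rel R v), fun ρ η ξ => ?_⟩
    simp [QF.eval]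
  · exact ⟨QF.rel R v, fun ρ η ξ => Iff.rfl⟩

lemma Exq.atom_eq (u v : V) (b : Bool) :
    Exq (fun (_ : ∀ R : Fin τ.num, (Fin (τ.ar R) → V) → Bool) (η : V → V → Bool)
      (_ : (Fin s → V) → Bool) => η u v = b) := by
  cases b
  · refine ⟨QF.not (QF.eq u v), fun ρ η ξ => ?_⟩
    simp [QF.eval]
  · exact ⟨QF.eq u v, fun ρ η ξ => Iff.rfl⟩

lemma Exq.atom_mem (v : Fin s → V) (b : Bool) :
    Exq (fun (_ : ∀ R : Fin τ.num, (Fin (τ.ar R) → V) → Bool) (_ : V → V → Bool)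
      (ξ : (Fin s → V) → Bool) => ξ v = b) := by
  cases b
  · refine ⟨QF.not (QF.mem v), fun ρ η ξ => ?_⟩
    simp [QF.eval]
  · exact ⟨QF.mem v, fun ρ η ξ => Iff.rfl⟩

/-- functional completeness -/
theorem Exq.all (u : V) [Finite V] (P : (∀ R : Fin τ.num, (Fin (τ.ar R) → V) → Bool) →
    (V → V → Bool) → ((Fin s → V) → Bool) → Prop) : Exq P := by
  have h1 : Exq (fun ρ η ξ => ∃ x : {x : (∀ R : Fin τ.num, (Fin (τ.ar R) → V) → Bool) ×
      (V → V → Bool) × ((Fin s → V) → Bool) // P x.1 x.2.1 x.2.2},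
      (∀ y : Σ R : Fin τ.num, (Fin (τ.ar R) → V), ρ y.1 y.2 = x.1.1 y.1 y.2) ∧
      (∀ y : V × V, η y.1 y.2 = x.1.2.1 y.1 y.2) ∧ (∀ y, ξ y = x.1.2.2 y)) :=
    Exq.fex u fun x => ((Exq.fall u
        fun y : (Σ R : Fin τ.num, (Fin (τ.ar R) → V)) => Exq.atom_rel y.1 y.2 _).and
      ((Exq.fall u fun y : V × V => Exq.atom_eq y.1 y.2 _).and
        (Exq.fall u fun y => Exq.atom_mem y _)))
  refine h1.congr fun ρ η ξ => ?_
  constructor
  · rintro ⟨⟨⟨ρ', η', ξ'⟩, hP⟩, h2, h3, h4⟩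
    have e1 : ρ = ρ' := by funext R v; exact h2 ⟨R, v⟩
    have e2 : η = η' := by funext u v; exact h3 (u, v)
    have e3 : ξ = ξ' := by funext v; exact h4 v
    rw [e1, e2, e3]
    exact hP
  · intro hP
    exact ⟨⟨(ρ, η, ξ), hP⟩, fun _ => rfl, fun _ => rfl, fun _ => rfl⟩

/-- a formula with a given truth function -/
def qfOf (u : V) [Finite V] (P : (∀ R : Fin τ.num, (Fin (τ.ar R) → V) → Bool) →
    (V → V → Bool) → ((Fin s → V) → Bool) → Prop) : QF τ s V := (Exq.all u P).choose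

lemma eval_qfOf (u : V) [Finite V] (P : (∀ R : Fin τ.num, (Fin (τ.ar R) → V) → Bool) →
    (V → V → Bool) → ((Fin s → V) → Bool) → Prop) (ρ : ∀ R : Fin τ.num, (Fin (τ.ar R) → V) → Bool)
    (η : V → V → Bool) (ξ : (Fin s → V) → Bool) :
    (qfOf u P).eval ρ η ξ = true ↔ P ρ η ξ := (Exq.all u P).choose_spec ρ η ξ

end

end Pool.Agent.Helper265_EW.N
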