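import Mathlib

set_option linter.unusedSectionVars false

/-! Small hitting sets named by words: the bounded search tree. -/

namespace Pool.Agent.Helper265_EW.N

open Finset Classical

noncomputable section

variable {B T : Type} [Fintype B] [LinearOrder B] [Fintype T] {a : ℕ}

/-- the least bad index -/
def lb (bad : B → Finset T → Prop) (C : Finset T) (b : B) : Prop :=
  bad b C ∧ ∀ b', b' < b → ¬ bad b' C

/-- the vertex added for a letter -/
def nw (bad : B → Finset T → Prop) (vx : B → Fin a → Option T) (C : Finset T) (c : Fin a) :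
    Finset T := Finset.univ.filter (fun z => ∃ b, lb bad C b ∧ vx b c = some z)

/-- the set after `j` steps -/
def gD (bad : B → Finset T → Prop) (vx : B → Fin a → Option T) (w : ℕ → Fin a) : ℕ → Finset T
  | 0 => ∅
  | j + 1 => gD bad vx w j ∪ nw bad vx (gD bad vx w j) (w j)

/-- extension of a word -/
def ext0 (c0 : Fin a) {k : ℕ} (f : Fin k → Fin a) : ℕ → Fin a :=
  fun i => if h : i < k then f ⟨i, h⟩ else c0

lemma gD_congr (bad : B → Finset T → Prop) (vx : B → Fin a → Option T) (w w' : ℕ → Fin a)
    (j : ℕ) (h : ∀ i, i < j → w i = w' i) : gD bad vx w j = gD bad vx w' j := by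
  induction j with
  | zero => rfl
  | succ j ih =>
    simp only [gD]
    rw [ih (fun i hi => h i (by omega)), h j (by omega)]

lemma lb_unique {bad : B → Finset T → Prop} {C : Finset T} {b b' : B} (h : lb bad C b)
    (h' : lb bad C b') : b = b' := by
  rcases lt_trichotomy b b' with h1 | h1 | h1
  · exact absurd h.1 (h'.2 b h1)
  · exact h1
  · exact absurd h'.1 (h.2 b' h1)

lemma exists_lb {bad : B → Finset T → Prop} {C : Finset T} (h : ∃ b, bad b C) :
    ∃ b, lb bad C b := by
  obtain ⟨b, hb⟩ := h
  have hne : (Finset.univ.filter (fun b => bad b C)).Nonempty :=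
    ⟨b, Finset.mem_filter.mpr ⟨Finset.mem_univ _, hb⟩⟩
  refine ⟨(Finset.univ.filter (fun b => bad b C)).min' hne, ?_, ?_⟩
  · exact (Finset.mem_filter.mp (Finset.min'_mem _ hne)).2
  · intro b' hb' hbad
    have h1 : b' ∈ Finset.univ.filter (fun b => bad b C) :=
      Finset.mem_filter.mpr ⟨Finset.mem_univ _, hbad⟩
    have := Finset.min'_le _ b' h1
    exact absurd hb' (not_lt.mpr this)

theorem greedy_aux (bad : B → Finset T → Prop) (vx : B → Fin a → Option T) (c0 : Fin a)
    (X : Finset T) (hX : ∀ b, ¬ bad b X)
    (wit : ∀ b C, bad b C → ¬ bad b X → ∃ c z, vx b c = some z ∧ z ∈ X ∧ z ∉ C) (j : ℕ) :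
    ∃ w : ℕ → Fin a, gD bad vx w j ⊆ X ∧
      (j ≤ (gD bad vx w j).card ∨ ∀ b, ¬ bad b (gD bad vx w j)) := by
  induction j with
  | zero => exact ⟨fun _ => c0, Finset.empty_subset _, Or.inl (Nat.zero_le _)⟩
  | succ j ih =>
    obtain ⟨w, hw1, hw2⟩ := ih
    by_cases hb : ∃ b, bad b (gD bad vx w j)
    · obtain ⟨b, hlb⟩ := exists_lb hb
      obtain ⟨c, z, hz1, hz2, hz3⟩ := wit b _ hlb.1 (hX b)
      have hcong : gD bad vx (Function.update w j c) j = gD bad vx w j :=
        gD_congr _ _ _ _ _ (fun i hi => Function.update_of_ne (by omega) _ _)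
      have hnw : nw bad vx (gD bad vx w j) c = {z} := by
        ext z'
        simp only [nw, Finset.mem_filter, Finset.mem_univ, true_and, Finset.mem_singleton]
        constructor
        · rintro ⟨b', hb', hv⟩
          rw [lb_unique hb' hlb, hz1] at hv
          exact (Option.some_injective _ hv).symm
        · rintro rfl
          exact ⟨b, hlb, hz1⟩
      have hD : gD bad vx (Function.update w j c) (j + 1) = gD bad vx w j ∪ {z} := by
        simp only [gD]
        rw [hcong, Function.update_self, hnw]
      refine ⟨Function.update w j c, ?_, Or.inl ?_⟩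
      · rw [hD]
        exact Finset.union_subset hw1 (Finset.singleton_subset_iff.mpr hz2)
      · rw [hD]
        have h1 : j ≤ (gD bad vx w j).card := by
          rcases hw2 with h | h
          · exact h
          · obtain ⟨b', hb'⟩ := hb
            exact absurd hb' (h b')
        rw [Finset.card_union_of_disjoint (Finset.disjoint_singleton_right.mpr hz3),
          Finset.card_singleton]
        omega
    · push Not at hb
      have hnw : nw bad vx (gD bad vx w j) (w j) = ∅ := by
        apply Finset.eq_empty_of_forall_notMem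
        intro z' hz'
        simp only [nw, Finset.mem_filter, Finset.mem_univ, true_and] at hz'
        obtain ⟨b', hb', -⟩ := hz'
        exact hb b' hb'.1
      have hD : gD bad vx w (j + 1) = gD bad vx w j := by
        simp only [gD]
        rw [hnw, Finset.union_empty]
      refine ⟨w, ?_, Or.inr ?_⟩
      · rw [hD]; exact hw1
      · rw [hD]; exact hb

/-- A set of size at most `k` leaves no bad index if and only if it contains one of the sets named
by words of length `k` that leave no bad index. -/
theorem greedy (bad : B → Finset T → Prop) (vx : B → Fin a → Option T) (c0 : Fin a) {k : ℕ}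
    (X : Finset T) (hk : X.card ≤ k) (anti : ∀ b C, C ⊆ X → bad b X → bad b C)
    (wit : ∀ b C, bad b C → ¬ bad b X → ∃ c z, vx b c = some z ∧ z ∈ X ∧ z ∉ C) :
    (∀ b, ¬ bad b X) ↔ ∃ f : Fin k → Fin a, gD bad vx (ext0 c0 f) k ⊆ X ∧
      ∀ b, ¬ bad b (gD bad vx (ext0 c0 f) k) := by
  constructor
  · intro hX
    obtain ⟨w, hw1, hw2⟩ := greedy_aux bad vx c0 X hX wit k
    have hcong : gD bad vx (ext0 c0 (fun i : Fin k => w i)) k = gD bad vx w k := by
      apply gD_congr
      intro i hi
      unfold ext0
      rw [dif_pos hi]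
    refine ⟨fun i => w i, ?_, ?_⟩
    · rw [hcong]; exact hw1
    · rw [hcong]
      rcases hw2 with h | h
      · have : gD bad vx w k = X := Finset.eq_of_subset_of_card_le hw1 (hk.trans h)
        rw [this]
        exact hX
      · exact h
  · rintro ⟨f, hf1, hf2⟩ b hb
    exact hf2 b (anti b _ hf1 hb)

end

end Pool.Agent.Helper265_EW.N
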