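import Pool.Agent.Helper265_EW.NGreedy
import Pool.Agent.Helper265_EW.NFun

set_option linter.unusedSectionVars false

/-! The hypergraph of negative certificates of a formula, and its small hitting sets. -/

namespace Pool.Agent.Helper265_EW.N

open Finset Classical Pool.Agent.Helper265_EW.P

noncomputable section

instance instFV (len : ℕ → ℕ) (t : ℕ) : Fintype (Vars len t) := Fintype.ofFinite _

section

variable {τ : Voc} {s m : ℕ} (φ : PiF τ s (m + 2)) (bb : Bool) (w0 : ℕ) {n k : ℕ}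

/-- joining an assignment of the outer variables and of the innermost block -/
def jn {U : Type} (x : Vars φ.len (m + 1) → U) (b : Fin (φ.len (m + 1)) → U) :
    Vars φ.len (m + 2) → U :=
  (Sum.elim x b : Vars φ.len (m + 1) ⊕ Fin (φ.len (m + 1)) → U)

/-- atoms -/
abbrev At : Type := Fin s → Vars φ.len (m + 2)

/-- truth values of the relations -/
def rf {n : ℕ} (A : Str τ (Fin n)) (u : Vars φ.len (m + 2) → Fin n) :
    ∀ R : Fin τ.num, (Fin (τ.ar R) → Vars φ.len (m + 2)) → Bool := fun R v => A R (fun i => u (v i))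

/-- truth values of the equalities -/
def ef {n : ℕ} (u : Vars φ.len (m + 2) → Fin n) :
    Vars φ.len (m + 2) → Vars φ.len (m + 2) → Bool := fun v v' => decide (u v = u v')

/-- negative certificates -/
def NC (N : Finset (At φ)) (ρ : ∀ R : Fin τ.num, (Fin (τ.ar R) → Vars φ.len (m + 2)) → Bool)
    (η : Vars φ.len (m + 2) → Vars φ.len (m + 2) → Bool) (p : At φ → Bool) : Prop :=
  (∀ v ∈ N, P.inn φ v) ∧ ∀ ξ : At φ → Bool, (∀ v, ¬ P.inn φ v → ξ v = p v) →
    (∀ v ∈ N, ξ v = false) → φ.ψ.eval ρ η ξ = bb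

/-- small certificates -/
def SC (ρ : ∀ R : Fin τ.num, (Fin (τ.ar R) → Vars φ.len (m + 2)) → Bool)
    (η : Vars φ.len (m + 2) → Vars φ.len (m + 2) → Bool) (ξ : At φ → Bool) : Prop :=
  ∃ C : Finset (At φ), C.card ≤ w0 ∧ (∀ v ∈ C, P.inn φ v) ∧
    ∀ ξ' : At φ → Bool, (∀ v, (¬ P.inn φ v ∨ v ∈ C) → ξ' v = ξ v) → φ.ψ.eval ρ η ξ' = bb

/-- there is a negative certificate not hit by `C` -/
def badH (A : Str τ (Fin n)) (p : At φ → Bool) (x : Vars φ.len (m + 1) → Fin n)
    (b : Lex (Fin (φ.len (m + 1)) → Fin n)) (C : Finset (Fin s → Fin n)) : Prop :=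
  ∃ N : Finset (At φ), NC φ bb N (rf φ A (jn φ x (ofLex b))) (ef φ (jn φ x (ofLex b))) p ∧
    ∀ v ∈ N, (fun i => jn φ x (ofLex b) (v i)) ∉ C

/-- the alphabet -/
def nL : ℕ := Fintype.card (Option (At φ))

/-- letters are atoms, or nothing -/
def eL : Fin (nL φ) ≃ Option (At φ) := (Fintype.equivFin (Option (At φ))).symm

def c0 : Fin (nL φ) := (eL φ).symm none

/-- the tuple named by a letter -/
def vxH (x : Vars φ.len (m + 1) → Fin n) (b : Lex (Fin (φ.len (m + 1)) → Fin n))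
    (c : Fin (nL φ)) : Option (Fin s → Fin n) :=
  match eL φ c with
  | some v => if P.inn φ v then some (fun i => jn φ x (ofLex b) (v i)) else none
  | none => none

/-- the set named by a word -/
def CH (A : Str τ (Fin n)) (p : At φ → Bool) (x : Vars φ.len (m + 1) → Fin n)
    (f : Fin k → Fin (nL φ)) : Finset (Fin s → Fin n) :=
  gD (badH φ bb A p x) (vxH φ x) (ext0 (c0 φ) f) k

/-- the set named by a word hits all negative certificates -/
def HH (A : Str τ (Fin n)) (p : At φ → Bool) (x : Vars φ.len (m + 1) → Fin n)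
    (f : Fin k → Fin (nL φ)) : Prop := ∀ b, ¬ badH φ bb A p x b (CH φ bb A p x f)

/-- the truth values of the outer atoms -/
def pS (hn : 0 < n) (S : Finset (Fin s → Fin n)) (x : Vars φ.len (m + 1) → Fin n) : At φ → Bool :=
  fun v => if P.inn φ v then false else decide ((fun i => jn φ x (fun _ => ⟨0, hn⟩) (v i)) ∈ S)

lemma jn_outer {U : Type} (x : Vars φ.len (m + 1) → U) (b b' : Fin (φ.len (m + 1)) → U)
    {v : At φ} (hv : ¬ P.inn φ v) : (fun i => jn φ x b (v i)) = fun i => jn φ x b' (v i) := by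
  funext i
  rcases h : v i with y | j
  · rfl
  · exfalso
    apply hv
    refine ⟨i, ?_⟩
    rw [h]
    trivial

theorem key_neg (hw : φ.ψ.CertN (P.inn φ) bb w0) (hn : 0 < n) (A : Str τ (Fin n))
    (x : Vars φ.len (m + 1) → Fin n) (S : Finset (Fin s → Fin n)) (hS : S.card = k) :
    (∃ b : Fin (φ.len (m + 1)) → Fin n, φ.ψ.eval (rf φ A (jn φ x b)) (ef φ (jn φ x b))
      (fun v => decide ((fun i => jn φ x b (v i)) ∈ S)) = bb) ↔
    ((∃ b : Fin (φ.len (m + 1)) → Fin n, SC φ bb w0 (rf φ A (jn φ x b)) (ef φ (jn φ x b))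
      (fun v => decide ((fun i => jn φ x b (v i)) ∈ S))) ∨
      ∀ f : Fin k → Fin (nL φ), HH φ bb A (pS φ hn S x) x f →
        ∃ z ∈ CH φ bb A (pS φ hn S x) x f, z ∉ S) := by
  have hp : ∀ (b : Fin (φ.len (m + 1)) → Fin n) (v : At φ), ¬ P.inn φ v →
      decide ((fun i => jn φ x b (v i)) ∈ S) = pS φ hn S x v := by
    intro b v hv
    unfold pS
    rw [if_neg hv, jn_outer φ x b (fun _ => ⟨0, hn⟩) hv]
  -- some negative certificate is missed by `S` if and only if the words fail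
  have hgr := greedy (badH φ bb A (pS φ hn S x) x) (vxH φ x) (c0 φ) (k := k) S hS.le
    (by
      rintro b C hC ⟨N, hN1, hN2⟩
      exact ⟨N, hN1, fun v hv h => hN2 v hv (hC h)⟩)
    (by
      rintro b C ⟨N, hN1, hN2⟩ hX
      have h1 : ∃ v ∈ N, (fun i => jn φ x (ofLex b) (v i)) ∈ S := by
        by_contra hcon
        push Not at hcon
        exact hX ⟨N, hN1, hcon⟩
      obtain ⟨v, hvN, hvS⟩ := h1
      refine ⟨(eL φ).symm (some v), _, ?_, hvS, hN2 v hvN⟩
      unfold vxH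
      rw [Equiv.apply_symm_apply]
      simp only
      rw [if_pos (hN1.1 v hvN)])
  have hgr2 : (∃ b, badH φ bb A (pS φ hn S x) x b S) ↔
      ∀ f : Fin k → Fin (nL φ), HH φ bb A (pS φ hn S x) x f →
        ∃ z ∈ CH φ bb A (pS φ hn S x) x f, z ∉ S := by
    rw [← not_iff_not]
    push Not
    rw [hgr]
    apply exists_congr
    intro f
    rw [and_comm]
    exact Iff.rfl
  rw [← hgr2]
  constructor
  · rintro ⟨b, hb⟩
    obtain ⟨C, hC1, hC2, hC3⟩ := hw _ _ _ hb
    rcases hC1 with hC1 | hC1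
    · exact Or.inl ⟨b, C, hC1, hC2, hC3⟩
    · right
      refine ⟨toLex b, C, ⟨hC2, fun ξ h1 h2 => ?_⟩, fun v hv => ?_⟩
      · apply hC3
        rintro v (hv | hv)
        · rw [h1 v hv, hp b v hv]
        · rw [h2 v hv, hC1 v hv]
      · exact of_decide_eq_false (hC1 v hv)
  · rintro (⟨b, C, -, -, hC3⟩ | ⟨b, N, hN1, hN2⟩)
    · exact ⟨b, hC3 _ (fun _ _ => rfl)⟩
    · refine ⟨ofLex b, hN1.2 _ (fun v hv => hp _ v hv) (fun v hv => ?_)⟩
      exact decide_eq_false (hN2 v hv)

end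

end

end Pool.Agent.Helper265_EW.N
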