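import Pool.Agent.Helper265_EW.NStep

set_option linter.unusedSectionVars false
set_option linter.unusedVariables false

/-! Correctness of the iterated definition. -/

namespace Pool.Agent.Helper265_EW.N

open Finset Classical Pool.Agent.Helper265_EW.G Pool.Agent.Helper265_EW.P

noncomputable section

section

variable {τ : Voc} {s m : ℕ} (φ : PiF τ s (m + 2)) (bb : Bool) {n k : ℕ}

/-- the auxiliary relations after `i` steps -/
def stI (A : Str τ (Fin n)) (k : ℕ) : ℕ → Str (sgN φ) (OB φ n k)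
  | 0 => fun _ _ => false
  | i + 1 => fun P v => bdec (stepW φ bb A (stI A k i) ((ePt φ).symm P) (fun y => v (eVP φ y)))

lemma auxP_zero (A : Str τ (Fin n)) (p : At φ → Bool) (x : VP φ → OB φ n k) :
    ¬ auxP φ (stI φ bb A k 0) p x := by
  intro h
  exact Bool.noConfusion h

lemma auxP_succ (A : Str τ (Fin n)) (i : ℕ) (p : At φ → Bool) (x : VP φ → OB φ n k) :
    auxP φ (stI φ bb A k (i + 1)) p x ↔ stepW φ bb A (stI φ bb A k i) p x := by
  unfold auxP
  simp only [stI]
  rw [bdec_iff, Equiv.symm_apply_apply]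
  simp only [Equiv.symm_apply_apply]

lemma mem_gD {B T : Type} [Fintype B] [LinearOrder B] [Fintype T] {a : ℕ}
    (bad : B → Finset T → Prop) (vx : B → Fin a → Option T) (w : ℕ → Fin a) (j : ℕ) (z : T) :
    z ∈ gD bad vx w j ↔ ∃ j₀, j₀ < j ∧ z ∈ nw bad vx (gD bad vx w j₀) (w j₀) := by
  induction j with
  | zero => simp [gD]
  | succ j ih =>
    simp only [gD, Finset.mem_union, ih]
    constructor
    · rintro (⟨j₀, h1, h2⟩ | h)
      · exact ⟨j₀, by omega, h2⟩
      · exact ⟨j, by omega, h⟩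
    · rintro ⟨j₀, h1, h2⟩
      rcases Nat.lt_succ_iff_lt_or_eq.mp h1 with h | rfl
      · exact Or.inl ⟨j₀, h, h2⟩
      · exact Or.inr h2

lemma badW_iff (A : Str τ (Fin n)) (p : At φ → Bool) (x : Vars φ.len (m + 1) → Fin n)
    (b : Fin (φ.len (m + 1)) → Fin n) (C : (Fin s → OB φ n k) → Prop)
    (C' : Finset (Fin s → Fin n)) (hC : ∀ z : Fin s → Fin n, C (fun i => Wo.el (z i)) ↔ z ∈ C') :
    badW φ bb A p (jn φ (fun y => (Wo.el (x y) : OB φ n k)) (fun i => Wo.el (b i))) C ↔
      badH φ bb A p x (toLex b) C' := by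
  have hj : jn φ (fun y => (Wo.el (x y) : OB φ n k)) (fun i => Wo.el (b i)) =
      fun y => Wo.el (jn φ x b y) := (comp_jn φ (fun u : Fin n => (Wo.el u : OB φ n k)) x b).symm
  rw [hj]
  unfold badW badH
  apply exists_congr
  intro N
  apply and_congr
  · have h1 : (fun (R : Fin τ.num) (v : Fin (τ.ar R) → Vars φ.len (m + 2)) =>
        bdec (∃ x' : Fin (τ.ar R) → Fin n, (∀ i, (Wo.el (jn φ x b (v i)) : OB φ n k) =
          Wo.el (x' i)) ∧ A R x' = true)) = rf φ A (jn φ x b) := by
      funext R v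
      unfold rf
      rw [Bool.eq_iff_iff, bdec_iff]
      constructor
      · rintro ⟨x', h2, h3⟩
        have h4 : x' = fun i => jn φ x b (v i) := by
          funext i
          have h5 := h2 i
          injection h5 with h5
          exact h5.symm
        rw [h4] at h3
        exact h3
      · intro h2
        exact ⟨fun i => jn φ x b (v i), fun i => rfl, h2⟩
    have h2 : (fun u v : Vars φ.len (m + 2) => bdec ((Wo.el (jn φ x b u) : OB φ n k) =
        Wo.el (jn φ x b v))) = ef φ (jn φ x b) := by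
      funext u v
      unfold ef
      rw [Bool.eq_iff_iff, bdec_iff, decide_eq_true_eq]
      constructor
      · intro h
        injection h
      · intro h
        rw [h]
    rw [h1, h2]
    exact Iff.rfl
  · apply forall_congr'
    intro v
    apply imp_congr_right
    intro _
    apply not_congr
    exact hC (fun i => jn φ x b (v i))

lemma letterO_iff (f : Fin k → Fin (nL φ)) (j : Fin (k + 1)) (c : Fin (nL φ)) :
    letterO c (Wo.wd f : OB φ n k) (Wo.nb j) ↔ j.val < k ∧ ext0 (c0 φ) f j.val = c := by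
  unfold letterO ext0
  constructor
  · rintro ⟨f', i, h1, h2, h3, h4⟩
    injection h1 with h1
    injection h2 with h2
    subst h1
    subst h2
    refine ⟨h3, ?_⟩
    rw [dif_pos h3]
    exact h4
  · rintro ⟨h1, h2⟩
    rw [dif_pos h1] at h2
    exact ⟨f, j, rfl, rfl, h1, h2⟩

/-- the auxiliary relations are correct for the stages that have been computed -/
theorem iter_correct (A : Str τ (Fin n)) (i : ℕ) : ∀ (p : At φ → Bool)
    (x : Vars φ.len (m + 1) → Fin n) (f : Fin k → Fin (nL φ)) (j : Fin (k + 1))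
    (z : Fin s → Fin n), j.val < i → j.val < k →
    (auxP φ (stI φ bb A k i) p (mkP φ (fun y => Wo.el (x y)) (Wo.wd f) (Wo.nb j)
      (fun i => Wo.el (z i))) ↔
      z ∈ nw (badH φ bb A p x) (vxH φ x) (gD (badH φ bb A p x) (vxH φ x) (ext0 (c0 φ) f) j.val)
        (ext0 (c0 φ) f j.val)) := by
  induction i with
  | zero =>
    intro p x f j z hj _
    omega
  | succ i ih =>
    intro p x f j z hji hjk
    rw [auxP_succ]
    -- the set of the previous stages
    have hC : ∀ z' : Fin s → Fin n, CW φ (stI φ bb A k i) p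
        (mkP φ (fun y => (Wo.el (x y) : OB φ n k)) (Wo.wd f) (Wo.nb j) (fun i => Wo.el (z i)))
        (fun i => Wo.el (z' i)) ↔
        z' ∈ gD (badH φ bb A p x) (vxH φ x) (ext0 (c0 φ) f) j.val := by
      intro z'
      rw [mem_gD]
      unfold CW
      constructor
      · rintro ⟨j', h1, h2⟩
        obtain ⟨j₀, rfl, h3⟩ := (ltO_nb j' j).mp h1
        have h4 : j₀.val < j.val := h3
        refine ⟨j₀.val, h4, ?_⟩
        exact (ih p x f j₀ z' (by omega) (by omega)).mp h2
      · rintro ⟨j₀, h1, h2⟩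
        have hj0 : j₀ < k + 1 := by omega
        refine ⟨Wo.nb ⟨j₀, hj0⟩, (ltO_nb _ j).mpr ⟨_, rfl, h1⟩, ?_⟩
        exact (ih p x f ⟨j₀, hj0⟩ z' (show j₀ < i by omega) (show j₀ < k by omega)).mpr h2
    have hb : ∀ b : Fin (φ.len (m + 1)) → Fin n,
        (badW φ bb A p (jn φ (fun y => (Wo.el (x y) : OB φ n k)) (fun i => Wo.el (b i)))
          (CW φ (stI φ bb A k i) p (mkP φ (fun y => (Wo.el (x y) : OB φ n k)) (Wo.wd f)
            (Wo.nb j) (fun i => Wo.el (z i)))) ↔
        badH φ bb A p x (toLex b) (gD (badH φ bb A p x) (vxH φ x) (ext0 (c0 φ) f) j.val)) :=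
      fun b => badW_iff φ bb A p x b _ _ hC
    simp only [nw, Finset.mem_filter, Finset.mem_univ, true_and]
    unfold stepW
    constructor
    · rintro ⟨-, b, ⟨hb1, hb2⟩, hb3, v, hv1, hv2, hv3⟩
      obtain ⟨b', rfl⟩ := all_el hb1
      have h1 := (hb b').mp hb2
      refine ⟨toLex b', ⟨h1, fun b'' hb'' hbad => ?_⟩, ?_⟩
      · apply hb3 (fun i => Wo.el (ofLex b'' i)) ⟨fun i => ⟨_, rfl⟩, (lexO_el _ _).mpr hb''⟩
        exact (hb (ofLex b'')).mpr hbad
      · have h2 := ((letterO_iff φ f j _).mp hv2).2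
        rw [h2]
        unfold vxH
        rw [Equiv.apply_symm_apply]
        simp only
        rw [if_pos hv1]
        congr 1
        funext i'
        have h4 : (Wo.el (z i') : OB φ n k) = Wo.el (jn φ x b' (v i')) := (hv3 i').trans
          (congrFun (comp_jn φ (fun u : Fin n => (Wo.el u : OB φ n k)) x b') (v i')).symm
        injection h4 with h4
        exact h4.symm
    · rintro ⟨b, ⟨hb1, hb2⟩, hb3⟩
      refine ⟨fun y => ⟨_, rfl⟩, fun i => Wo.el (ofLex b i), ⟨fun i => ⟨_, rfl⟩, (hb _).mpr hb1⟩,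
        ?_, ?_⟩
      · rintro b' ⟨h1, h2⟩ h3
        obtain ⟨b'', rfl⟩ := all_el h1
        have h4 := (lexO_el (a := nL φ) (k := k) b'' (ofLex b)).mp h2
        exact hb2 (toLex b'') h4 ((hb b'').mp h3)
      · unfold vxH at hb3
        cases hc : eL φ (ext0 (c0 φ) f j.val) with
        | none =>
          rw [hc] at hb3
          simp at hb3
        | some v =>
          rw [hc] at hb3
          simp only at hb3
          by_cases hv : P.inn φ v
          · rw [if_pos hv] at hb3
            refine ⟨v, hv, (letterO_iff φ f j _).mpr ⟨hjk, ?_⟩, fun i' => ?_⟩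
            · rw [← hc, Equiv.symm_apply_apply]
            · have h4 := congrFun (Option.some_injective _ hb3) i'
              refine Eq.trans ?_
                (congrFun (comp_jn φ (fun u : Fin n => (Wo.el u : OB φ n k)) x (ofLex b)) (v i'))
              change (Wo.el (z i') : OB φ n k) = Wo.el (jn φ x (ofLex b) (v i'))
              rw [← h4]
          · rw [if_neg hv] at hb3
            exact absurd hb3 (by simp)

/-- the set named by a word, in terms of the auxiliary relations -/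
def CK (S : Str (sgN φ) (OB φ n k)) (p : At φ → Bool) (x : Vars φ.len (m + 1) → OB φ n k)
    (f : OB φ n k) (z : Fin s → OB φ n k) : Prop :=
  ∃ j', ((∃ j'', ltO j' j'') ∧ ¬ isEl j') ∧ auxP φ S p (mkP φ x f j' z)

/-- hitting all negative certificates, in terms of the auxiliary relations -/
def HK (A : Str τ (Fin n)) (S : Str (sgN φ) (OB φ n k)) (p : At φ → Bool)
    (x : Vars φ.len (m + 1) → OB φ n k) (f : OB φ n k) : Prop :=
  ∀ b : Fin (φ.len (m + 1)) → OB φ n k, (∀ i, isEl (b i)) →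
    ¬ badW φ bb A p (jn φ x b) (CK φ S p x f)

lemma CK_iff (A : Str τ (Fin n)) (p : At φ → Bool) (x : Vars φ.len (m + 1) → Fin n)
    (f : Fin k → Fin (nL φ)) (z : Fin s → Fin n) :
    CK φ (stI φ bb A k k) p (fun y => (Wo.el (x y) : OB φ n k)) (Wo.wd f)
      (fun i => Wo.el (z i)) ↔ z ∈ CH φ bb A p x f := by
  unfold CH
  rw [mem_gD]
  unfold CK
  constructor
  · rintro ⟨j', ⟨⟨j'', h1⟩, h2⟩, h3⟩
    rcases h1 with ⟨x', y', h4, -, -⟩ | ⟨i, i', rfl, rfl, h4⟩
    · exact absurd ⟨x', h4⟩ h2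
    · have h5 : i.val < i'.val := h4
      have h6 : i.val < k := by omega
      exact ⟨i.val, h6, (iter_correct φ bb A k p x f i z h6 h6).mp h3⟩
  · rintro ⟨j₀, h1, h2⟩
    refine ⟨Wo.nb ⟨j₀, by omega⟩, ⟨⟨Wo.nb ⟨k, by omega⟩, Or.inr ⟨_, _, rfl, rfl, h1⟩⟩, ?_⟩, ?_⟩
    · rintro ⟨y, hy⟩
      cases hy
    · exact (iter_correct φ bb A k p x f ⟨j₀, by omega⟩ z h1 h1).mpr h2

lemma HK_iff (A : Str τ (Fin n)) (p : At φ → Bool) (x : Vars φ.len (m + 1) → Fin n)
    (f : Fin k → Fin (nL φ)) :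
    HK φ bb A (stI φ bb A k k) p (fun y => (Wo.el (x y) : OB φ n k)) (Wo.wd f) ↔
      HH φ bb A p x f := by
  unfold HK HH
  constructor
  · intro h b hb
    exact h (fun i => Wo.el (ofLex b i)) (fun i => ⟨_, rfl⟩)
      ((badW_iff φ bb A p x (ofLex b) _ _ (fun z => CK_iff φ bb A p x f z)).mpr hb)
  · intro h b hb hbad
    obtain ⟨b', rfl⟩ := all_el hb
    exact h (toLex b') ((badW_iff φ bb A p x b' _ _ (fun z => CK_iff φ bb A p x f z)).mp hbad)

lemma dfn_CK {V : Type} (p : At φ → Bool) (x : Vars φ.len (m + 1) → V) (f : V) :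
    Dfn (fun n k A S w => CK φ S p (fun y => w (Sum.inl (x y))) (w (Sum.inl f))
      (fun i => w (Sum.inr i)) : Qy τ (sgN φ) (nL φ) (V ⊕ Fin s)) := by
  have h1 : Dfn (fun n k A S w => ((∃ j'', ltO (w none) j'') ∧ ¬ isEl (w none)) ∧
      auxP φ S p (fun y => w (mkP φ (fun y => some (Sum.inl (x y)))
        (some (Sum.inl f)) none (fun i => some (Sum.inr i)) y)) :
      Qy τ (sgN φ) (nL φ) (Option (V ⊕ Fin s))) := by
    refine Dfn.and (Dfn.and ?_ (dfn_isEl _).not) (dfn_auxP φ p _)
    exact (dfn_ltO (some none) none).ex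
  refine h1.ex.congr fun n k A S w => ?_
  apply exists_congr
  intro j'
  refine and_congr Iff.rfl ?_
  exact iff_of_eq (congrArg (auxP φ S p)
    (comp_mkP φ (fun o : Option (V ⊕ Fin s) => o.elim j' w) _ _ _ _))

lemma dfn_HK {V : Type} (p : At φ → Bool) (x : Vars φ.len (m + 1) → V) (f : V) :
    Dfn (fun n k A S w => HK φ bb A S p (fun y => w (x y)) (w f) :
      Qy τ (sgN φ) (nL φ) V) := by
  have h2 : Dfn (fun n k A S w => (∀ i, isEl (w (Sum.inr i))) →
    ¬ badW φ bb A p (fun u => w (jn φ (fun y => Sum.inl (x y)) (fun i => Sum.inr i) u))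
      (fun z => CK φ S p (fun y => w (Sum.inl (x y))) (w (Sum.inl f)) z) :
      Qy τ (sgN φ) (nL φ) (V ⊕ Fin (φ.len (m + 1)))) := by
    refine Dfn.imp (Dfn.fall fun i => dfn_isEl _) (Dfn.not ?_)
    exact dfn_badW φ bb p _ (dfn_CK φ p (fun y => Sum.inl (x y)) (Sum.inl f))
  refine (Dfn.allF _ h2).congr fun n k A S w => ?_
  unfold HK
  apply forall_congr'
  intro b'
  rw [comp_jn]
  exact Iff.rfl

end

end

end Pool.Agent.Helper265_EW.N
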