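import Pool.Agent.Helper265_EW.NAt
import Pool.Agent.Helper265_EW.CLev

set_option linter.unusedSectionVars false
set_option linter.unusedVariables false

/-! The uniform reduction. -/

namespace Pool.Agent.Helper265_EW.N

open Finset Classical Pool.Agent.Helper265_EW.G Pool.Agent.Helper265_EW.P

noncomputable section

section

variable {τ : Voc} {s m : ℕ} (φ : PiF τ s (m + 2)) (bb : Bool) {n k : ℕ}

/-- the ordered extended universe -/
abbrev UL (n k : ℕ) : Type := Lex (Fin n ⊕ Lex (Fin k → Fin (nL φ)))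

def N1 (n k : ℕ) : ℕ := Fintype.card (UL φ n k)

def eo (n k : ℕ) : Fin (N1 φ n k) ≃o UL φ n k := Fintype.orderIsoFinOfCardEq _ rfl

/-- forgetting the order -/
def fo (n k : ℕ) : UL φ n k ≃ Fin n ⊕ (Fin k → Fin (nL φ)) :=
  ofLex.trans (Equiv.sumCongr (Equiv.refl _) ofLex)

def eU (n k : ℕ) : Fin (N1 φ n k) ≃ Fin n ⊕ (Fin k → Fin (nL φ)) :=
  (eo φ n k).toEquiv.trans (fo φ n k)

/-- the extended structure with universe `{0, …, n₁ - 1}` -/
def A1 (A : Str τ (Fin n)) (k : ℕ) : Str (vocN φ) (Fin (N1 φ n k)) :=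
  fun R v => strN φ bb A k R (fun i => eU φ n k (v i))

lemma A1_WDF {s' t' : ℕ} (A : Str τ (Fin n)) (χ : PiF (vocN φ) s' t') (K : ℕ) :
    WDF χ (A1 φ bb A k) K ↔ WDF χ (strN φ bb A k) K :=
  WDF_equiv (eU φ n k).symm χ (strN φ bb A k) K

lemma N1_pos (hn : 0 < n) : 1 ≤ N1 φ n k := by
  unfold N1
  have : Nonempty (UL φ n k) := ⟨toLex (Sum.inl ⟨0, hn⟩)⟩
  exact Fintype.card_pos

/-- objects and elements or numbers -/
def cz (n k : ℕ) : OB φ n k ≃ Base (N1 φ n k) k where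
  toFun u := match u with
    | Wo.el x => Sum.inl ((eU φ n k).symm (Sum.inl x))
    | Wo.wd f => Sum.inl ((eU φ n k).symm (Sum.inr f))
    | Wo.nb i => Sum.inr i
  invFun y := match y with
    | Sum.inl y => toO φ (eU φ n k y)
    | Sum.inr i => Wo.nb i
  left_inv u := by
    cases u with
    | el x => simp [toO]
    | nb i => rfl
    | wd f => simp [toO]
  right_inv y := by
    rcases y with y | i
    · simp only
      cases h : eU φ n k y with
      | inl x =>
        simp only [toO]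
        rw [← h, Equiv.symm_apply_apply]
      | inr f =>
        simp only [toO]
        rw [← h, Equiv.symm_apply_apply]
    · rfl

lemma cz_inl (u : OB φ n k) (y : Fin (N1 φ n k)) :
    cz φ n k u = Sum.inl y ↔ u = toO φ (eU φ n k y) := by
  exact (cz φ n k).apply_eq_iff_eq_symm_apply

lemma cz_inr (u : OB φ n k) (i : Fin (k + 1)) : cz φ n k u = Sum.inr i ↔ u = Wo.nb i :=
  (cz φ n k).apply_eq_iff_eq_symm_apply

lemma not_isNb_iff (u : OB φ n k) : ¬ isNb u ↔ ∃ y, cz φ n k u = Sum.inl y := by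
  rw [isNb_iff]
  constructor
  · intro h
    rcases h1 : cz φ n k u with y | i
    · exact ⟨y, rfl⟩
    · exact absurd ⟨i, (cz_inr φ u i).mp h1⟩ h
  · rintro ⟨y, hy⟩ ⟨i, hi⟩
    rw [(cz_inr φ u i).mpr hi] at hy
    exact absurd hy (by simp)

lemma lt_iff (y y' : Fin (N1 φ n k)) :
    ltK (toO φ (eU φ n k y)) (toO φ (eU φ n k y')) ↔ y < y' := by
  rw [← (eo φ n k).lt_iff_lt]
  have h1 : eU φ n k y = fo φ n k (eo φ n k y) := rfl
  have h2 : eU φ n k y' = fo φ n k (eo φ n k y') := rfl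
  rw [h1, h2]
  generalize eo φ n k y = u
  generalize eo φ n k y' = u'
  rcases u with x | f
  · rcases u' with x' | f'
    · exact (ltK_el x x').trans (Sum.Lex.inl_lt_inl_iff (a := x) (b := x')).symm
    · exact iff_of_true (ltK_el_wd x _) (Sum.Lex.inl_lt_inr x f')
  · rcases u' with x' | f'
    · exact iff_of_false (not_ltK_wd_el x' _) (Sum.Lex.not_inr_lt_inl)
    · exact (ltK_wd (ofLex f) (ofLex f')).trans
        (Sum.Lex.inr_lt_inr_iff (a := f) (b := f')).symm

/-- the atomic types agree -/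
lemma atK_eq {V : Type} (A : Str τ (Fin n)) (w : V → OB φ n k) :
    atK φ bb A (stI φ bb A k k) w = atp (A1 φ bb A k) (fun v => cz φ n k (w v)) := by
  unfold atK atp
  congr 1
  · funext R v
    rw [Bool.eq_iff_iff, bdec_iff, decide_eq_true_eq]
    constructor
    · rintro ⟨h1, h2⟩
      choose y hy using fun i => (not_isNb_iff φ (w (v i))).mp (h1 i)
      refine ⟨y, hy, ?_⟩
      unfold A1 strN
      rw [decide_eq_true_eq]
      rw [← famK_iff]
      have h3 : (fun i => toO φ (eU φ n k (y i))) = fun i => w (v i) := by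
        funext i
        exact ((cz_inl φ _ _).mp (hy i)).symm
      exact h3 ▸ h2
    · rintro ⟨y, hy, h2⟩
      refine ⟨fun i => (not_isNb_iff φ (w (v i))).mpr ⟨y i, hy i⟩, ?_⟩
      unfold A1 strN at h2
      rw [decide_eq_true_eq, ← famK_iff] at h2
      have h3 : (fun i => toO φ (eU φ n k (y i))) = fun i => w (v i) := by
        funext i
        exact ((cz_inl φ _ _).mp (hy i)).symm
      exact h3 ▸ h2
  · funext u v
    rw [Bool.eq_iff_iff, bdec_iff, decide_eq_true_eq]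
    exact ((cz φ n k).apply_eq_iff_eq).symm
  · funext u v
    rw [Bool.eq_iff_iff, bdec_iff, decide_eq_true_eq]
    change ltK (w u) (w v) ↔ _
    constructor
    · intro h
      have h1 : ¬ isNb (w u) := by
        rw [isNb_iff]
        rintro ⟨i, hi⟩
        rw [hi] at h
        exact not_ltK_nb_left i _ h
      have h2 : ¬ isNb (w v) := by
        rw [isNb_iff]
        rintro ⟨i, hi⟩
        rw [hi] at h
        exact not_ltK_nb_right i _ h
      obtain ⟨y, hy⟩ := (not_isNb_iff φ _).mp h1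
      obtain ⟨y', hy'⟩ := (not_isNb_iff φ _).mp h2
      refine ⟨y, y', hy, hy', ?_⟩
      rw [(cz_inl φ _ _).mp hy, (cz_inl φ _ _).mp hy'] at h
      exact (lt_iff φ y y').mp h
    · rintro ⟨y, y', hy, hy', h⟩
      rw [(cz_inl φ _ _).mp hy, (cz_inl φ _ _).mp hy']
      exact (lt_iff φ y y').mpr h
  · funext u
    rw [Bool.eq_iff_iff, bdec_iff, decide_eq_true_eq]
    change isNb (w u) ↔ _
    rw [isNb_iff]
    exact exists_congr fun i => (cz_inr φ _ _).symm
  · funext u v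
    rw [Bool.eq_iff_iff, bdec_iff, decide_eq_true_eq]
    change sucK (w u) (w v) ↔ _
    rw [sucK_iff]
    simp only [cz_inr]
  · funext u
    rw [Bool.eq_iff_iff, bdec_iff, decide_eq_true_eq]
    change zeroK (w u) ↔ _
    rw [zeroK_iff]
    simp only [cz_inr]
  · funext u
    rw [Bool.eq_iff_iff, bdec_iff, decide_eq_true_eq]
    change topK (w u) ↔ _
    rw [topK_iff]
    simp only [cz_inr]

/-- the interpretation -/
def eintN {τ' : Voc} (I : QInt (vocN φ) τ') : EInt τ τ' where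
  σ := sgN φ
  a := nL φ
  step := fun P => ren (dfn_stepW φ bb ((ePt φ).symm P)).choose (eVP φ)
  Tag := I.Tag
  finTag := I.finTag
  Ix := I.Ix
  finIx := I.finIx
  dom := fun tg =>
    (@dfn_atK τ s m φ bb I.Ix I.finIx (fun T => I.dom tg T = true)).choose
  rel := fun R tgs =>
    (@dfn_atK τ s m φ bb (Fin (τ'.ar R) × I.Ix) (by have := I.finIx; infer_instance)
      (fun T => I.rel R tgs T = true)).choose

lemma iter_eq {τ' : Voc} (I : QInt (vocN φ) τ') (A : Str τ (Fin n)) (i : ℕ) :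
    (eintN φ bb I).iter A k i = stI φ bb A k i := by
  induction i with
  | zero => rfl
  | succ i ih =>
    funext P v
    simp only [EInt.iter, stI]
    rw [Bool.eq_iff_iff, bdec_iff, decide_eq_true_eq, ih]
    refine (holds_ren A (stI φ bb A k i) _ (eVP φ) v).trans ?_
    exact (dfn_stepW φ bb ((ePt φ).symm P)).choose_spec n k A (stI φ bb A k i) _

lemma dom_iff {τ' : Voc} (I : QInt (vocN φ) τ') (A : Str τ (Fin n)) (tg : I.Tag)
    (w : I.Ix → OB φ n k) :
    ((eintN φ bb I).dom tg).Holds A ((eintN φ bb I).iter A k k) w ↔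
      I.dom tg (atp (A1 φ bb A k) (fun x => cz φ n k (w x))) = true := by
  rw [iter_eq]
  refine ((@dfn_atK τ s m φ bb I.Ix I.finIx (fun T => I.dom tg T = true)).choose_spec n k A
    (stI φ bb A k k) w).trans ?_
  change I.dom tg (atK φ bb A (stI φ bb A k k) w) = true ↔ _
  rw [atK_eq]

lemma rel_iff {τ' : Voc} (I : QInt (vocN φ) τ') (A : Str τ (Fin n)) (R : Fin τ'.num)
    (tgs : Fin (τ'.ar R) → I.Tag) (w : Fin (τ'.ar R) × I.Ix → OB φ n k) :
    ((eintN φ bb I).rel R tgs).Holds A ((eintN φ bb I).iter A k k) w ↔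
      I.rel R tgs (atp (A1 φ bb A k) (fun x => cz φ n k (w x))) = true := by
  rw [iter_eq]
  refine ((@dfn_atK τ s m φ bb (Fin (τ'.ar R) × I.Ix) (by have := I.finIx; infer_instance)
      (fun T => I.rel R tgs T = true)).choose_spec n k A (stI φ bb A k k) w).trans ?_
  change I.rel R tgs (atK φ bb A (stI φ bb A k k) w) = true ↔ _
  rw [atK_eq]

/-- the universes correspond -/
def eUn {τ' : Voc} (I : QInt (vocN φ) τ') (A : Str τ (Fin n)) (k : ℕ) :
    (eintN φ bb I).Univ A k ≃ I.Univ (A1 φ bb A k) k :=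
  Equiv.subtypeEquiv (Equiv.prodCongr (Equiv.refl _) (Equiv.piCongrRight fun _ => cz φ n k))
    (fun x => dom_iff φ bb I A x.1 x.2)

lemma out_WDF {τ' : Voc} (I : QInt (vocN φ) τ') (A : Str τ (Fin n)) (k : ℕ) {s' t' : ℕ}
    (χ : PiF τ' s' t') (K : ℕ) :
    WDF χ ((eintN φ bb I).out A k) K ↔ WDF χ (I.out (A1 φ bb A k) k) K := by
  rw [← WDF_equiv (eUn φ bb I A k).symm χ (I.out (A1 φ bb A k) k) K]
  have h : (eintN φ bb I).out A k = fun R w =>
      I.out (A1 φ bb A k) k R (fun i => (eUn φ bb I A k).symm.symm (w i)) := by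
    funext R w
    unfold EInt.out
    rw [Bool.eq_iff_iff, decide_eq_true_eq]
    exact rel_iff φ bb I A R _ _
  rw [h]

/-! The size of the new structure. -/

/-- objects as a sum -/
def wsum (n k a : ℕ) : Wo n k a ≃ (Fin n ⊕ Fin (k + 1)) ⊕ (Fin k → Fin a) where
  toFun u := match u with
    | Wo.el x => Sum.inl (Sum.inl x)
    | Wo.nb i => Sum.inl (Sum.inr i)
    | Wo.wd f => Sum.inr f
  invFun u := match u with
    | Sum.inl (Sum.inl x) => Wo.el x
    | Sum.inl (Sum.inr i) => Wo.nb i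
    | Sum.inr f => Wo.wd f
  left_inv u := by cases u <;> rfl
  right_inv u := by rcases u with (u | u) | u <;> rfl

lemma card_Wo (n k a : ℕ) : Nat.card (Wo n k a) = n + (k + 1) + a ^ k := by
  rw [Nat.card_congr (wsum n k a)]
  simp

instance (n k a : ℕ) : Finite (Wo n k a) := Finite.of_equiv _ (wsum n k a).symm

lemma card_Wo_le {n k a : ℕ} : Nat.card (Wo n k a) ≤ (2 ^ k * (n + 2)) ^ (a + 3) := by
  rw [card_Wo]
  obtain ⟨B, hB⟩ : ∃ B, B = 2 ^ k * (n + 2) := ⟨_, rfl⟩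
  rw [← hB]
  have h2k : 1 ≤ 2 ^ k := Nat.one_le_two_pow
  have hB2 : 2 ≤ B := by
    rw [hB]
    calc 2 = 1 * 2 := rfl
      _ ≤ 2 ^ k * (n + 2) := Nat.mul_le_mul h2k (by omega)
  have h1 : n ≤ B := by
    rw [hB]
    calc n ≤ n + 2 := by omega
      _ ≤ 2 ^ k * (n + 2) := Nat.le_mul_of_pos_left _ h2k
  have h2B : 2 ^ k ≤ B := by
    rw [hB]
    exact Nat.le_mul_of_pos_right _ (by omega)
  have h2 : k + 1 ≤ B := by
    have h3 : k < 2 ^ k := Nat.lt_two_pow_self
    omega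
  have h3 : a ^ k ≤ B ^ a := by
    have h4 : a < 2 ^ a := Nat.lt_two_pow_self
    calc a ^ k ≤ (2 ^ a) ^ k := Nat.pow_le_pow_left h4.le k
      _ = (2 ^ k) ^ a := by rw [← pow_mul, ← pow_mul, mul_comm]
      _ ≤ B ^ a := Nat.pow_le_pow_left h2B a
  have h5 : B ≤ B ^ (a + 1) := Nat.le_self_pow (by omega) B
  have h6 : B ^ a ≤ B ^ (a + 1) := Nat.pow_le_pow_right (by omega) (by omega)
  have h7 : 4 * B ^ (a + 1) ≤ B ^ (a + 3) := by
    calc 4 * B ^ (a + 1) = B ^ (a + 1) * (2 * 2) := by ring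
      _ ≤ B ^ (a + 1) * (B * B) := Nat.mul_le_mul_left _ (Nat.mul_le_mul hB2 hB2)
      _ = B ^ (a + 3) := by ring
  omega

lemma card_eint {τ' : Voc} (I : EInt τ τ') :
    ∃ c : ℕ, ∀ n k : ℕ, ∀ A : Str τ (Fin n), Nat.card (I.Univ A k) ≤ (2 ^ k * (n + 2)) ^ c := by
  have := I.finTag
  have := I.finIx
  refine ⟨Nat.card I.Tag + (I.a + 3) * Nat.card I.Ix, fun n k A => ?_⟩
  have h1 : Nat.card (I.Univ A k) ≤ Nat.card (I.Tag × (I.Ix → Wo n k I.a)) :=
    Nat.card_le_card_of_injective (fun x => x.1) Subtype.val_injective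
  refine h1.trans ?_
  rw [Nat.card_prod, Nat.card_fun, pow_add, pow_mul]
  have h2 : 2 ≤ 2 ^ k * (n + 2) := by
    calc 2 = 1 * 2 := rfl
      _ ≤ 2 ^ k * (n + 2) := Nat.mul_le_mul Nat.one_le_two_pow (by omega)
  apply Nat.mul_le_mul
  · exact (Nat.lt_two_pow_self).le.trans (Nat.pow_le_pow_left h2 _)
  · exact Nat.pow_le_pow_left card_Wo_le _

/-- the reduction theorem -/
theorem neg_width (m d e : ℕ) (hd : 1 ≤ d) (he : 1 ≤ e) {τ : Voc} {s : ℕ} (φ : PiF τ s (m + 2))
    (hw : φ.NegWidth (d * e)) :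
    EptRed (fun k => (k + 1) ^ e) φ (normF (decide (m % 2 = 0)) m d) := by
  obtain ⟨bb, hbb⟩ : ∃ bb, bb = decide (m % 2 = 0) := ⟨_, rfl⟩
  have hbb2 : decide ((m + 2) % 2 = 0) = bb := by rw [hbb]; simp
  unfold PiF.NegWidth at hw
  rw [hbb2] at hw
  have hde : 1 ≤ d * e := Nat.mul_pos hd he
  have h1 : (forN φ bb (d * e)).InnerWidth (d * e) := forN_width φ bb (d * e) hde hbb
  obtain ⟨I, -, -, hI⟩ := C.qg_norm m d hd e he (m + 2) _ s (forN φ bb (d * e))
    (Or.inr ⟨rfl, Or.inr h1⟩)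
  obtain ⟨c, hc⟩ := card_eint (eintN φ bb I)
  refine ⟨eintN φ bb I, c, fun n k hn A => ⟨hc n k A, ?_⟩⟩
  rw [out_WDF, ← hI (N1 φ n k) k (N1_pos φ hn) (A1 φ bb A k), A1_WDF]
  exact (ext_WDF φ bb (d * e) A hw hbb hn).symm

end

end

end Pool.Agent.Helper265_EW.N
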