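import Pool.Agent.Helper265_EW.NMain

set_option linter.unusedSectionVars false
set_option linter.unusedVariables false

/-! Formulas with inner occurrences of one sign only. -/

namespace Pool.Agent.Helper265_EW.N

open Finset Classical Pool.Agent.Helper265_EW.G Pool.Agent.Helper265_EW.P

noncomputable section

variable {τ : Voc} {s : ℕ} {V : Type}

lemma sgn_mono (Pr : (Fin s → V) → Prop) (ψ : QF τ s V) :
    ∀ (b : Bool) (ρ : ∀ R : Fin τ.num, (Fin (τ.ar R) → V) → Bool) (η : V → V → Bool)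
      (ξ ξ' : (Fin s → V) → Bool), ψ.Sgn Pr b → (∀ v, ¬ Pr v → ξ' v = ξ v) →
      (∀ v ∈ P.ats Pr ψ, ξ v = false → ξ' v = false) → ψ.eval ρ η ξ = b → ψ.eval ρ η ξ' = b := by
  induction ψ with
  | rel R v => intro b ρ η ξ ξ' _ _ _ h; exact h
  | eq u v => intro b ρ η ξ ξ' _ _ _ h; exact h
  | mem v =>
    intro b ρ η ξ ξ' hs h1 h2 h
    change ξ' v = b
    have h' : ξ v = b := h
    by_cases hP : Pr v
    · have hb : b = false := hs hP
      rw [hb] at h' ⊢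
      apply h2 v _ h'
      simp [P.ats, hP]
    · rw [h1 v hP, h']
  | not ψ ih =>
    intro b ρ η ξ ξ' hs h1 h2 h
    have h3 : ψ.eval ρ η ξ = !b := by
      have h4 : (!(ψ.eval ρ η ξ)) = b := h
      rw [← h4, Bool.not_not]
    have h5 := ih (!b) ρ η ξ ξ' hs h1 h2 h3
    change (!(ψ.eval ρ η ξ')) = b
    rw [h5, Bool.not_not]
  | and ψ χ ih1 ih2 =>
    intro b ρ η ξ ξ' hs h1 h2 h
    have h3 : (ψ.eval ρ η ξ && χ.eval ρ η ξ) = b := h
    have m1 : ∀ v ∈ P.ats Pr ψ, ξ v = false → ξ' v = false := fun v hv =>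
      h2 v (by simp only [P.ats, Finset.mem_union]; exact Or.inl hv)
    have m2 : ∀ v ∈ P.ats Pr χ, ξ v = false → ξ' v = false := fun v hv =>
      h2 v (by simp only [P.ats, Finset.mem_union]; exact Or.inr hv)
    change (ψ.eval ρ η ξ' && χ.eval ρ η ξ') = b
    cases b with
    | true =>
      rw [Bool.and_eq_true] at h3
      rw [ih1 true ρ η ξ ξ' hs.1 h1 m1 h3.1, ih2 true ρ η ξ ξ' hs.2 h1 m2 h3.2]
      rfl
    | false =>
      rw [Bool.and_eq_false_iff] at h3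
      rw [Bool.and_eq_false_iff]
      rcases h3 with h3 | h3
      · exact Or.inl (ih1 false ρ η ξ ξ' hs.1 h1 m1 h3)
      · exact Or.inr (ih2 false ρ η ξ ξ' hs.2 h1 m2 h3)

lemma sgn_cert (Pr : (Fin s → V) → Prop) (b : Bool) (w : ℕ) (ψ : QF τ s V) (h : ψ.Sgn Pr b) :
    ψ.CertN Pr b w := by
  intro ρ η ξ hξ
  refine ⟨(P.ats Pr ψ).filter (fun v => ξ v = false), Or.inr ?_, ?_, ?_⟩
  · intro v hv
    exact (Finset.mem_filter.mp hv).2
  · intro v hv
    exact P.ats_prop Pr ψ v (Finset.mem_filter.mp hv).1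
  · intro ξ' hξ'
    apply sgn_mono Pr ψ b ρ η ξ ξ' h (fun v hv => hξ' v (Or.inl hv)) _ hξ
    intro v hv hf
    rw [hξ' v (Or.inr (Finset.mem_filter.mpr ⟨hv, hf⟩)), hf]

lemma cert_certN (Pr : (Fin s → V) → Prop) (b : Bool) (w : ℕ) (ψ : QF τ s V)
    (h : ψ.Cert Pr b w) : ψ.CertN Pr b w := by
  intro ρ η ξ hξ
  obtain ⟨C, h1, h2, h3⟩ := h ρ η ξ hξ
  exact ⟨C, Or.inl h1, h2, h3⟩

end

end Pool.Agent.Helper265_EW.N
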