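import Pool.Agent.Helper265_EW.NForm

set_option linter.unusedSectionVars false

/-! The formula over the extended structure is equivalent to the original one. -/

namespace Pool.Agent.Helper265_EW.N

open Finset Classical Pool.Agent.Helper265_EW.G Pool.Agent.Helper265_EW.P

noncomputable section

/-- the first component -/
def fstc {X : ℕ → Type} : (n : ℕ) → Tup X (n + 1) → X 0
  | 0, v => v.2
  | n + 1, v => fstc n v.1

lemma alt_first {X : ℕ → Type} (g : X 0 → Prop) (n : ℕ) :
    (∀ i, i ≤ n → Nonempty (X i)) → ∀ G : Tup X (n + 1) → Prop,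
      (alt X (n + 1) (fun v => g (fstc n v) ∧ G v) ↔ (∀ x, g x) ∧ alt X (n + 1) G) := by
  induction n with
  | zero =>
    intro _ G
    change lev 0 (fun x => g x ∧ G ((), x)) ↔ (∀ x, g x) ∧ lev 0 (fun x => G ((), x))
    rw [lev_even rfl, lev_even rfl]
    exact ⟨fun h => ⟨fun x => (h x).1, fun x => (h x).2⟩, fun h x => ⟨h.1 x, h.2 x⟩⟩
  | succ n ih =>
    intro hne G
    have h1 := ih (fun i hi => hne i (by omega)) (fun v => lev (n + 1) (fun x => G (v, x)))
    refine Iff.trans ?_ h1
    change alt X (n + 1) (fun v => lev (n + 1) (fun x => g (fstc n v) ∧ G (v, x))) ↔ _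
    apply alt_congr
    intro v
    obtain ⟨x0⟩ := hne (n + 1) le_rfl
    rcases Nat.mod_two_eq_zero_or_one (n + 1) with hn | hn
    · rw [lev_even hn, lev_even hn]
      exact ⟨fun h => ⟨(h x0).1, fun x => (h x).2⟩, fun h x => ⟨h.1, h.2 x⟩⟩
    · rw [lev_odd hn, lev_odd hn]
      exact ⟨fun ⟨x, h⟩ => ⟨h.1, x, h.2⟩, fun ⟨h1, x, h2⟩ => ⟨x, h1, h2⟩⟩

section

variable {τ : Voc} {s m : ℕ} (φ : PiF τ s (m + 2)) (bb : Bool) (w0 : ℕ) {n k : ℕ}

/-- blocks over the extended universe -/
abbrev XB (n k i : ℕ) : Type := Fin (lenN φ i) → Fin n ⊕ (Fin k → Fin (nL φ))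

/-- extraction of the original block -/
def piN (n k i : ℕ) (y : XB φ n k i) : Option (Fin (φ.len i) → Fin n) :=
  if h : ∀ j : Fin (φ.len i), ∃ x, y (Fin.castAdd (s + 1) j) = Sum.inl x then
    some (fun j => (h j).choose) else none

lemma piN_some (i : ℕ) (y : XB φ n k i) (x : Fin (φ.len i) → Fin n) :
    piN φ n k i y = some x ↔ ∀ j, y (Fin.castAdd (s + 1) j) = Sum.inl (x j) := by
  unfold piN
  split_ifs with h
  · constructor
    · intro h1 j
      have h2 := Option.some_injective _ h1
      rw [← h2]
      exact (h j).choose_spec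
    · intro h1
      congr 1
      funext j
      exact Sum.inl_injective ((h j).choose_spec.symm.trans (h1 j))
  · constructor
    · intro h1
      exact absurd h1 (by simp)
    · intro h1
      exact absurd (fun j => ⟨x j, h1 j⟩) h

/-- the original variables of level `i` denote elements -/
def okv (t : ℕ) (v : Tup (XB φ n k) t) (i : ℕ) : Prop :=
  ∀ u : Vars φ.len t, P.lv φ.len t u = i → ∃ x, asg (lenN φ) t v (io φ t u) = Sum.inl x

lemma okv_lt (t : ℕ) (v : Tup (XB φ n k) (t + 1)) (i : ℕ) (hi : i < t) :
    okv φ (t + 1) v i ↔ okv φ t v.1 i := by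
  constructor
  · intro h u hu
    exact h (Sum.inl u) hu
  · intro h u hu
    rcases u with u | j
    · exact h u hu
    · have : t = i := hu
      omega

lemma okv_eq (t : ℕ) (v : Tup (XB φ n k) (t + 1)) :
    okv φ (t + 1) v t ↔ ∀ j : Fin (φ.len t), ∃ x, v.2 (Fin.castAdd (s + 1) j) = Sum.inl x := by
  constructor
  · intro h j
    exact h (Sum.inr j) rfl
  · intro h u hu
    rcases u with u | j
    · have h1 := P.lv_lt φ.len t u
      have : P.lv φ.len t u = t := hu
      omega
    · exact h j

lemma scn_okv (t : ℕ) (v : Tup (XB φ n k) t) :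
    P.scn (okv φ t v) t = match stt (piN φ n k) t v with
      | Sum.inl _ => none
      | Sum.inr c => some c := by
  induction t with
  | zero => rfl
  | succ t ih =>
    have h1 : P.scn (okv φ (t + 1) v) t = P.scn (okv φ t v.1) t :=
      P.scn_congr t (fun i hi => okv_lt φ t v i hi)
    simp only [P.scn, stt]
    rw [h1, ih v.1]
    cases h2 : stt (piN φ n k) t v.1 with
    | inr c => rfl
    | inl x =>
      simp only
      cases h3 : piN φ n k t v.2 with
      | some y =>
        simp only
        rw [if_pos]
        rw [okv_eq]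
        intro j
        exact ⟨y j, (piN_some φ t v.2 y).mp h3 j⟩
      | none =>
        simp only
        rw [if_neg]
        rw [okv_eq]
        intro h4
        have : piN φ n k t v.2 ≠ none := by
          unfold piN
          rw [dif_pos h4]
          simp
        exact this h3

lemma asg_io (t : ℕ) (v : Tup (XB φ n k) t) (x : Tup (fun i => Fin (φ.len i) → Fin n) t)
    (h : stt (piN φ n k) t v = Sum.inl x) (u : Vars φ.len t) :
    asg (lenN φ) t v (io φ t u) = Sum.inl (asg φ.len t x u) := by
  induction t with
  | zero => exact u.elim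
  | succ t ih =>
    simp only [stt] at h
    cases h2 : stt (piN φ n k) t v.1 with
    | inr c => rw [h2] at h; exact absurd h (by simp)
    | inl x' =>
      rw [h2] at h
      simp only at h
      cases h3 : piN φ n k t v.2 with
      | none => rw [h3] at h; exact absurd h (by simp)
      | some y =>
        rw [h3] at h
        simp only [Sum.inl.injEq] at h
        rw [← h]
        rcases u with u | j
        · exact ih v.1 x' h2 u
        · exact (piN_some φ t v.2 y).mp h3 j

lemma asg_z0 (t : ℕ) (v : Tup (XB φ n k) (t + 1)) (j : Fin (s + 1)) :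
    asg (lenN φ) (t + 1) v (z0v φ t j) = fstc t v (Fin.natAdd (φ.len 0) j) := by
  induction t with
  | zero => rfl
  | succ t ih => exact ih v.1

end

end

end Pool.Agent.Helper265_EW.N
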