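import Pool.Agent.Helper265_EW.NSem

set_option linter.unusedSectionVars false

/-! Meaning of the critical event over the extended structure. -/

namespace Pool.Agent.Helper265_EW.N

open Finset Classical Pool.Agent.Helper265_EW.G Pool.Agent.Helper265_EW.P

noncomputable section

section

variable {τ : Voc} {s m : ℕ} (φ : PiF τ s (m + 2)) (bb : Bool) (w0 : ℕ) {n k : ℕ}

/-- the extended universe -/
abbrev UN (n k : ℕ) : Type := Fin n ⊕ (Fin k → Fin (nL φ))

/-- the set over the extended universe -/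
def S1 (k : ℕ) (S : Finset (Fin s → Fin n)) : Finset (Fin s → UN φ n k) :=
  S.image (fun w i => Sum.inl (w i))

lemma mem_S1 (S : Finset (Fin s → Fin n)) (w : Fin s → Fin n) :
    (fun i => Sum.inl (w i)) ∈ S1 φ k S ↔ w ∈ S := by
  unfold S1
  constructor
  · intro h
    obtain ⟨w', hw', he⟩ := Finset.mem_image.mp h
    have : w' = w := by
      funext i
      exact Sum.inl_injective (congrFun he i)
    rwa [← this]
  · intro h
    exact Finset.mem_image.mpr ⟨w, h, rfl⟩

lemma S1_card (S : Finset (Fin s → Fin n)) : (S1 φ k S).card = S.card := by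
  unfold S1
  apply Finset.card_image_of_injective
  intro w w' h
  funext i
  exact Sum.inl_injective (congrFun h i)

lemma S1_elem (S : Finset (Fin s → Fin n)) :
    ∀ w ∈ S1 φ k S, ∀ i, ∃ x, w i = Sum.inl x := by
  intro w hw i
  obtain ⟨w', -, rfl⟩ := Finset.mem_image.mp hw
  exact ⟨w' i, rfl⟩

lemma ex_S1 (T : Finset (Fin s → UN φ n k)) (hT : ∀ w ∈ T, ∀ i, ∃ x, w i = Sum.inl x) :
    ∃ S : Finset (Fin s → Fin n), T = S1 φ k S := by
  refine ⟨Finset.univ.filter (fun w => (fun i => Sum.inl (w i)) ∈ T), ?_⟩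
  ext w
  unfold S1
  constructor
  · intro hw
    choose x hx using hT w hw
    refine Finset.mem_image.mpr ⟨x, ?_, ?_⟩
    · rw [Finset.mem_filter]
      refine ⟨Finset.mem_univ _, ?_⟩
      have : (fun i => Sum.inl (x i)) = w := by
        funext i
        exact (hx i).symm
      rwa [this]
    · funext i
      exact (hx i).symm
  · intro hw
    obtain ⟨w', hw', rfl⟩ := Finset.mem_image.mp hw
    exact (Finset.mem_filter.mp hw').2

variable (A : Str τ (Fin n))

/-- truth values of the relations under an assignment -/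
def rA (a : Vars (lenN φ) (m + 2) → UN φ n k) :
    ∀ i : Fin (vocN φ).num, (Fin ((vocN φ).ar i) → Vars (lenN φ) (m + 2)) → Bool :=
  fun i v => strN φ bb A k i (fun j => a (v j))

/-- truth values of the equalities under an assignment -/
def eA (a : Vars (lenN φ) (m + 2) → UN φ n k) :
    Vars (lenN φ) (m + 2) → Vars (lenN φ) (m + 2) → Bool := fun u v => decide (a u = a v)

/-- truth values of the atoms under an assignment -/
def xA (T : Finset (Fin s → UN φ n k)) (a : Vars (lenN φ) (m + 2) → UN φ n k) :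
    (Fin s → Vars (lenN φ) (m + 2)) → Bool := fun v => decide ((fun j => a (v j)) ∈ T)

lemma isE_a (a : Vars (lenN φ) (m + 2) → UN φ n k) (u : Vars (lenN φ) (m + 2)) :
    isE φ (rA φ bb A a) u ↔ ∃ x, a u = Sum.inl x := by
  unfold isE rA
  rw [get_str, decide_eq_true_eq]
  exact Iff.rfl

/-- the meaning of the critical event -/
def EV (hn : 0 < n) (S : Finset (Fin s → Fin n)) (x : Vars φ.len (m + 1) → Fin n)
    (f : Fin k → Fin (nL φ)) (y : XB φ n k (m + 1)) : Prop :=
  ¬ HH φ bb A (pS φ hn S x) x f ∨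
  (∃ b : Fin (φ.len (m + 1)) → Fin n, (∀ j, y (Fin.castAdd (s + 1) j) = Sum.inl (b j)) ∧
    SC φ bb w0 (rf φ A (jn φ x b)) (ef φ (jn φ x b))
      (fun v => decide ((fun i => jn φ x b (v i)) ∈ S))) ∨
  ∃ z : Fin s → Fin n, (∀ i : Fin s, y (Fin.natAdd (φ.len (m + 1)) i.castSucc) = Sum.inl (z i)) ∧
    z ∈ CH φ bb A (pS φ hn S x) x f ∧ z ∉ S

lemma tup_sem (a : Vars (lenN φ) (m + 2) → UN φ n k) (p : At φ → Bool) (h : Bool)
    (x : Vars φ.len (m + 1) → Fin n) (f : Fin k → Fin (nL φ))
    (h1 : ∀ u : Vars φ.len (m + 1), a (io φ (m + 2) (Sum.inl u)) = Sum.inl (x u))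
    (h2 : a (wv φ) = Sum.inr f) :
    get φ (rA φ bb A a) (Sum.inr (Sum.inr (p, h))) (tup φ) = true ↔
      if h = true then HH φ bb A p x f else
        ∃ z : Fin s → Fin n, (∀ i, a (zv φ i) = Sum.inl (z i)) ∧ z ∈ CH φ bb A p x f := by
  unfold rA
  rw [get_str, decide_eq_true_eq]
  have e1 : ∀ y, a (tup φ (eC φ (Sum.inl y))) = Sum.inl (x y) := by
    intro y
    unfold tup
    rw [Equiv.symm_apply_apply]
    exact h1 y
  have e2 : a (tup φ (eC φ (Sum.inr (Sum.inl ())))) = Sum.inr f := by
    unfold tup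
    rw [Equiv.symm_apply_apply]
    exact h2
  have e3 : ∀ i, a (tup φ (eC φ (Sum.inr (Sum.inr i)))) = a (zv φ i) := by
    intro i
    unfold tup
    rw [Equiv.symm_apply_apply]
  constructor
  · rintro ⟨x', f', hx', hf', hh⟩
    have ex : x' = x := by
      funext y
      exact Sum.inl_injective ((hx' y).symm.trans (e1 y))
    have ef : f' = f := Sum.inr_injective (hf'.symm.trans e2)
    subst ex
    subst ef
    cases h with
    | true => exact hh
    | false =>
      obtain ⟨z, hz1, hz2⟩ := hh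
      exact ⟨z, fun i => (e3 i).symm.trans (hz1 i), hz2⟩
  · intro hh
    refine ⟨x, f, e1, e2, ?_⟩
    cases h with
    | true => exact hh
    | false =>
      obtain ⟨z, hz1, hz2⟩ := hh
      exact ⟨z, fun i => (e3 i).trans (hz1 i), hz2⟩

theorem evt_sem (hn : 0 < n) (S : Finset (Fin s → Fin n))
    (a : Vars (lenN φ) (m + 2) → UN φ n k) (x : Vars φ.len (m + 1) → Fin n)
    (f : Fin k → Fin (nL φ)) (y : XB φ n k (m + 1))
    (h1 : ∀ u : Vars φ.len (m + 1), a (io φ (m + 2) (Sum.inl u)) = Sum.inl (x u))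
    (h2 : a (wv φ) = Sum.inr f)
    (h3 : ∀ j : Fin (lenN φ (m + 1)), a (Sum.inr j) = y j) :
    evtN φ bb w0 (rA φ bb A a) (eA φ a) (xA φ (S1 φ k S) a) ↔ EV φ bb w0 A hn S x f y := by
  have hpt : ptN φ (xA φ (S1 φ k S) a) = pS φ hn S x := by
    funext v
    unfold ptN pS
    by_cases hv : P.inn φ v
    · rw [if_pos hv, if_pos hv]
    · rw [if_neg hv, if_neg hv]
      unfold xA
      have e1 : (fun j => a (io φ (m + 2) (v j))) =
          fun j => Sum.inl (jn φ x (fun _ => ⟨0, hn⟩) (v j)) := by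
        funext j
        rcases h : v j with u | i
        · exact h1 u
        · exfalso
          apply hv
          refine ⟨j, ?_⟩
          rw [h]
          trivial
      rw [e1, decide_eq_decide]
      exact mem_S1 φ S _
  have hy : ∀ b : Fin (φ.len (m + 1)) → Fin n, (∀ j, y (Fin.castAdd (s + 1) j) = Sum.inl (b j)) →
      ∀ u : Vars φ.len (m + 2), a (io φ (m + 2) u) = Sum.inl (jn φ x b u) := by
    intro b hb u
    rcases u with u | j
    · exact h1 u
    · exact (h3 _).trans (hb j)
  unfold evtN EV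
  rw [hpt]
  apply or_congr
  · have h4 := tup_sem φ bb A a (pS φ hn S x) true x f h1 h2
    rw [if_pos rfl] at h4
    rw [← h4]
    simp
  apply or_congr
  · have e1 : (∀ u : Vars φ.len (m + 2), P.lv φ.len (m + 2) u = m + 1 →
        isE φ (rA φ bb A a) (io φ (m + 2) u)) ↔
        ∃ b : Fin (φ.len (m + 1)) → Fin n, ∀ j, y (Fin.castAdd (s + 1) j) = Sum.inl (b j) := by
      constructor
      · intro h
        have h5 : ∀ j : Fin (φ.len (m + 1)), ∃ b, y (Fin.castAdd (s + 1) j) = Sum.inl b := by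
          intro j
          have h6 := h (Sum.inr j) rfl
          rw [isE_a] at h6
          obtain ⟨b, hb⟩ := h6
          exact ⟨b, (h3 _).symm.trans hb⟩
        choose b hb using h5
        exact ⟨b, hb⟩
      · rintro ⟨b, hb⟩ u -
        rw [isE_a]
        exact ⟨_, hy b hb u⟩
    rw [e1]
    have e2 : ∀ b : Fin (φ.len (m + 1)) → Fin n,
        (∀ j, y (Fin.castAdd (s + 1) j) = Sum.inl (b j)) →
        (SC φ bb w0 (fun R v => get φ (rA φ bb A a) (Sum.inl R) (fun i => io φ (m + 2) (v i)))
          (fun u v => eA φ a (io φ (m + 2) u) (io φ (m + 2) v))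
          (fun v => xA φ (S1 φ k S) a (fun i => io φ (m + 2) (v i))) ↔
        SC φ bb w0 (rf φ A (jn φ x b)) (ef φ (jn φ x b))
          (fun v => decide ((fun i => jn φ x b (v i)) ∈ S))) := by
      intro b hb
      have f1 : (fun (R : Fin τ.num) (v : Fin (τ.ar R) → Vars φ.len (m + 2)) =>
          get φ (rA φ bb A a) (Sum.inl R) (fun i => io φ (m + 2) (v i))) =
          rf φ A (jn φ x b) := by
        funext R v
        unfold rA rf
        rw [get_str]
        rw [Bool.eq_iff_iff, decide_eq_true_eq]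
        constructor
        · rintro ⟨z, hz1, hz2⟩
          have : z = fun i => jn φ x b (v i) := by
            funext i
            have h6 : a (io φ (m + 2) (v i)) = Sum.inl (z i) := hz1 i
            rw [hy b hb] at h6
            exact (Sum.inl_injective h6).symm
          rw [this] at hz2
          exact hz2
        · intro hz
          exact ⟨fun i => jn φ x b (v i), fun i => hy b hb (v i), hz⟩
      have f2 : (fun u v => eA φ a (io φ (m + 2) u) (io φ (m + 2) v)) = ef φ (jn φ x b) := by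
        funext u v
        unfold eA ef
        rw [hy b hb, hy b hb, decide_eq_decide]
        exact ⟨fun h => Sum.inl_injective h, fun h => by rw [h]⟩
      have f3 : (fun v : At φ => xA φ (S1 φ k S) a (fun i => io φ (m + 2) (v i))) =
          fun v => decide ((fun i => jn φ x b (v i)) ∈ S) := by
        funext v
        unfold xA
        have : (fun j => a (io φ (m + 2) (v j))) = fun j => Sum.inl (jn φ x b (v j)) := by
          funext j
          exact hy b hb _
        rw [this, decide_eq_decide]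
        exact mem_S1 φ S _
      rw [f1, f2, f3]
    constructor
    · rintro ⟨⟨b, hb⟩, h⟩
      exact ⟨b, hb, (e2 b hb).mp h⟩
    · rintro ⟨b, hb, h⟩
      exact ⟨⟨b, hb⟩, (e2 b hb).mpr h⟩
  · have h4 := tup_sem φ bb A a (pS φ hn S x) false x f h1 h2
    rw [if_neg (by simp)] at h4
    rw [h4]
    have hz : ∀ i, a (zv φ i) = y (Fin.natAdd (φ.len (m + 1)) i.castSucc) := fun i => h3 _
    constructor
    · rintro ⟨-, ⟨z, hz1, hz2⟩, h5⟩
      refine ⟨z, fun i => (hz i).symm.trans (hz1 i), hz2, ?_⟩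
      have h6 := of_decide_eq_false h5
      have : (fun j => a (zv φ j)) = fun j => Sum.inl (z j) := funext hz1
      rw [this, mem_S1] at h6
      exact h6
    · rintro ⟨z, hz1, hz2, h5⟩
      have hz3 : ∀ i, a (zv φ i) = Sum.inl (z i) := fun i => (hz i).trans (hz1 i)
      refine ⟨fun i => ?_, ⟨z, hz3, hz2⟩, ?_⟩
      · rw [isE_a]
        exact ⟨z i, hz3 i⟩
      · apply decide_eq_false
        have : (fun j => a (zv φ j)) = fun j => Sum.inl (z j) := funext hz3
        rw [this, mem_S1]
        exact h5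

/-- all words together decide the matter -/
theorem EV_all (hw : φ.ψ.CertN (P.inn φ) bb w0) (hn : 0 < n) (S : Finset (Fin s → Fin n))
    (hS : S.card = k) (x : Vars φ.len (m + 1) → Fin n) :
    (∀ f : Fin k → Fin (nL φ), ∃ y : XB φ n k (m + 1), EV φ bb w0 A hn S x f y) ↔
    ∃ b : Fin (φ.len (m + 1)) → Fin n, φ.ψ.eval (rf φ A (jn φ x b)) (ef φ (jn φ x b))
      (fun v => decide ((fun i => jn φ x b (v i)) ∈ S)) = bb := by
  rw [key_neg φ bb w0 hw hn A x S hS]
  constructor
  · intro h
    by_cases h1 : ∃ b : Fin (φ.len (m + 1)) → Fin n, SC φ bb w0 (rf φ A (jn φ x b))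
        (ef φ (jn φ x b)) (fun v => decide ((fun i => jn φ x b (v i)) ∈ S))
    · exact Or.inl h1
    · right
      intro f hf
      obtain ⟨y, hy | ⟨b, -, hb⟩ | ⟨z, -, hz1, hz2⟩⟩ := h f
      · exact absurd hf hy
      · exact absurd ⟨b, hb⟩ h1
      · exact ⟨z, hz1, hz2⟩
  · rintro (⟨b, hb⟩ | h) f
    · refine ⟨Fin.append (fun j => Sum.inl (b j)) (fun _ => Sum.inl ⟨0, hn⟩), Or.inr (Or.inl
        ⟨b, fun j => ?_, hb⟩)⟩
      exact Fin.append_left _ _ _
    · by_cases hf : HH φ bb A (pS φ hn S x) x f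
      · obtain ⟨z, hz1, hz2⟩ := h f hf
        refine ⟨Fin.append (fun _ => Sum.inl ⟨0, hn⟩) (fun j => if h : j.val < s then
          Sum.inl (z ⟨j.val, h⟩) else Sum.inl ⟨0, hn⟩), Or.inr (Or.inr ⟨z, fun i => ?_, hz1, hz2⟩)⟩
        refine (Fin.append_right _ _ _).trans ?_
        rw [dif_pos (by simp)]
        rfl
      · exact ⟨fun _ => Sum.inl ⟨0, hn⟩, Or.inl hf⟩

end

end

end Pool.Agent.Helper265_EW.N
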