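import Pool.Agent.Helper265_EW.NSem2

set_option linter.unusedSectionVars false

/-! The two problems are equivalent. -/

namespace Pool.Agent.Helper265_EW.N

open Finset Classical Pool.Agent.Helper265_EW.G Pool.Agent.Helper265_EW.P

noncomputable section

section

variable {τ : Voc} {s m : ℕ} (φ : PiF τ s (m + 2)) (bb : Bool) (w0 : ℕ) {n k : ℕ}

variable (A : Str τ (Fin n))

/-- the guard -/
def gd (T : Finset (Fin s → UN φ n k)) (x0 : XB φ n k 0) : Prop :=
  (fun i : Fin s => x0 (Fin.natAdd (φ.len 0) i.castSucc)) ∈ T →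
    ∀ i : Fin s, ∃ x, x0 (Fin.natAdd (φ.len 0) i.castSucc) = Sum.inl x

/-- the rest of the matrix -/
def restN (T : Finset (Fin s → UN φ n k)) (v : Tup (XB φ n k) (m + 2)) : Prop :=
  match stt (piN φ n k) m v.1.1 with
  | Sum.inr c => c = true
  | Sum.inl _ => if bb = true then
      (((∃ x, piN φ n k m v.1.2 = some x) ∧
        ∃ f, v.1.2 (Fin.natAdd (φ.len m) (Fin.last s)) = Sum.inr f) →
        evtN φ bb w0 (rA φ bb A (asg (lenN φ) (m + 2) v)) (eA φ (asg (lenN φ) (m + 2) v))
          (xA φ T (asg (lenN φ) (m + 2) v)))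
    else (((∃ x, piN φ n k m v.1.2 = some x) ∧
        ∃ f, v.1.2 (Fin.natAdd (φ.len m) (Fin.last s)) = Sum.inr f) ∧
        ¬ evtN φ bb w0 (rA φ bb A (asg (lenN φ) (m + 2) v)) (eA φ (asg (lenN φ) (m + 2) v))
          (xA φ T (asg (lenN φ) (m + 2) v)))

lemma PN_sem (T : Finset (Fin s → UN φ n k)) (v : Tup (XB φ n k) (m + 2)) :
    PN φ bb w0 (rA φ bb A (asg (lenN φ) (m + 2) v)) (eA φ (asg (lenN φ) (m + 2) v))
      (xA φ T (asg (lenN φ) (m + 2) v)) ↔ gd φ T (fstc (m + 1) v) ∧ restN φ bb w0 A T v := by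
  unfold PN
  apply and_congr
  · unfold gd xA
    rw [decide_eq_true_eq]
    simp only [asg_z0, isE_a]
  · have h1 : P.scn (fun i => ∀ u : Vars φ.len (m + 2), P.lv φ.len (m + 2) u = i →
        isE φ (rA φ bb A (asg (lenN φ) (m + 2) v)) (io φ (m + 2) u)) m =
        match stt (piN φ n k) m v.1.1 with
        | Sum.inl _ => none
        | Sum.inr c => some c := by
      have h0 := scn_okv φ m v.1.1
      refine Eq.trans (P.scn_congr (ok' := okv φ m v.1.1) m ?_)
        (by cases h9 : stt (piN φ n k) m v.1.1 with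
          | inl x => rw [h9] at h0; exact h0
          | inr c => rw [h9] at h0; exact h0)
      intro i hi
      rw [← okv_lt φ m v.1 i hi, ← okv_lt φ (m + 1) v i (by omega)]
      simp only [isE_a]
      exact Iff.rfl
    rw [h1]
    unfold restN
    cases h2 : stt (piN φ n k) m v.1.1 with
    | inr c => exact Iff.rfl
    | inl x =>
      simp only
      have h3 : ((∀ u : Vars φ.len (m + 2), P.lv φ.len (m + 2) u = m →
          isE φ (rA φ bb A (asg (lenN φ) (m + 2) v)) (io φ (m + 2) u)) ∧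
          ¬ isE φ (rA φ bb A (asg (lenN φ) (m + 2) v)) (wv φ)) ↔
          ((∃ x, piN φ n k m v.1.2 = some x) ∧
          ∃ f, v.1.2 (Fin.natAdd (φ.len m) (Fin.last s)) = Sum.inr f) := by
        apply and_congr
        · simp only [isE_a]
          have h4 : (∀ u : Vars φ.len (m + 2), P.lv φ.len (m + 2) u = m →
              ∃ x, asg (lenN φ) (m + 2) v (io φ (m + 2) u) = Sum.inl x) ↔
              okv φ (m + 2) v m := Iff.rfl
          rw [h4, okv_lt φ (m + 1) v m (by omega), okv_eq]
          constructor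
          · intro h
            choose x hx using h
            exact ⟨x, (piN_some φ m _ x).mpr hx⟩
          · rintro ⟨x, hx⟩ j
            exact ⟨x j, (piN_some φ m _ x).mp hx j⟩
        · rw [isE_a]
          have h5 : asg (lenN φ) (m + 2) v (wv φ) =
              v.1.2 (Fin.natAdd (φ.len m) (Fin.last s)) := rfl
          rw [h5]
          cases v.1.2 (Fin.natAdd (φ.len m) (Fin.last s)) with
          | inl x => simp
          | inr f => simp
      rw [h3]

lemma holds_alt (T : Finset (Fin s → UN φ n k)) :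
    (forN φ bb w0).Holds (strN φ bb A k) T ↔
      alt (XB φ n k) (m + 2) (fun v => gd φ T (fstc (m + 1) v) ∧ restN φ bb w0 A T v) := by
  unfold PiF.Holds
  rw [quant_alt]
  apply alt_congr
  intro v
  rw [← PN_sem]
  have h1 := P.eval_holds (strN φ bb A k) T (asg (lenN φ) (m + 2) v)
    (rA φ bb A (asg (lenN φ) (m + 2) v)) (eA φ (asg (lenN φ) (m + 2) v))
    (xA φ T (asg (lenN φ) (m + 2) v)) (fun R w => Iff.rfl) (fun u w => decide_eq_true_iff)
    (fun w => decide_eq_true_iff) (qfOf (z0v φ (m + 1) (Fin.last s)) (PN φ bb w0))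
  exact h1.symm.trans (eval_qfOf _ _ _ _ _)

lemma gd_all (T : Finset (Fin s → UN φ n k)) (hn : 0 < n) :
    (∀ x0, gd φ T x0) ↔ ∀ w ∈ T, ∀ i, ∃ x, w i = Sum.inl x := by
  unfold gd
  constructor
  · intro h w hw
    have h1 := h (Fin.append (fun _ => Sum.inl ⟨0, hn⟩) (fun j => if h : j.val < s then
          w ⟨j.val, h⟩ else Sum.inl ⟨0, hn⟩))
    have h2 : ∀ i : Fin s, (Fin.append (fun _ : Fin (φ.len 0) => (Sum.inl ⟨0, hn⟩ : UN φ n k))
        (fun j : Fin (s + 1) => if h : j.val < s then w ⟨j.val, h⟩ else Sum.inl ⟨0, hn⟩))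
          (Fin.natAdd (φ.len 0) i.castSucc) = w i := by
      intro i
      refine (Fin.append_right _ _ _).trans ?_
      rw [dif_pos (by simp)]
      rfl
    have h3 : (fun i : Fin s => (Fin.append (fun _ : Fin (φ.len 0) =>
        (Sum.inl ⟨0, hn⟩ : UN φ n k)) (fun j : Fin (s + 1) => if h : j.val < s then
          w ⟨j.val, h⟩ else Sum.inl ⟨0, hn⟩)) (Fin.natAdd (φ.len 0) i.castSucc)) = w :=
      funext h2
    have h4 := h1 (by
      have : (fun i : Fin s => (Fin.append (fun _ : Fin (φ.len 0) =>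
        (Sum.inl ⟨0, hn⟩ : UN φ n k)) (fun j : Fin (s + 1) => if h : j.val < s then
          w ⟨j.val, h⟩ else Sum.inl ⟨0, hn⟩)) (Fin.natAdd (φ.len 0) i.castSucc)) ∈ T := by
        rw [h3]; exact hw
      exact this)
    intro i
    obtain ⟨x, hx⟩ := h4 i
    exact ⟨x, (h2 i).symm.trans hx⟩
  · intro h x0 hx0 i
    exact h _ hx0 i

/-- the matrix of the original formula -/
def MTN (S : Finset (Fin s → Fin n)) (x : Vars φ.len m → Fin n) (r : Fin (φ.len m) → Fin n)
    (b : Fin (φ.len (m + 1)) → Fin n) : Prop :=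
  φ.ψ.Holds A S (Sum.elim (Sum.elim x r : Vars φ.len m ⊕ Fin (φ.len m) → Fin n) b :
    (Vars φ.len m ⊕ Fin (φ.len m)) ⊕ Fin (φ.len (m + 1)) → Fin n)

lemma holds_orig (S : Finset (Fin s → Fin n)) : φ.Holds A S ↔
    alt (fun i => Fin (φ.len i) → Fin n) m (fun v => lev m (fun r => lev (m + 1) (fun b =>
      MTN φ A S (asg φ.len m v) r b))) := by
  unfold PiF.Holds
  rw [quant_alt]
  exact Iff.rfl

lemma eval_orig (S : Finset (Fin s → Fin n)) (x : Vars φ.len m → Fin n)
    (r : Fin (φ.len m) → Fin n) (b : Fin (φ.len (m + 1)) → Fin n) :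
    φ.ψ.eval (rf φ A (jn φ (Sum.elim x r : Vars φ.len m ⊕ Fin (φ.len m) → Fin n) b))
      (ef φ (jn φ (Sum.elim x r : Vars φ.len m ⊕ Fin (φ.len m) → Fin n) b))
      (fun v => decide ((fun i => jn φ (Sum.elim x r : Vars φ.len m ⊕ Fin (φ.len m) → Fin n) b
        (v i)) ∈ S)) = true ↔ MTN φ A S x r b :=
  P.eval_holds A S _ _ _ _ (fun R w => Iff.rfl) (fun u w => decide_eq_true_iff)
    (fun w => decide_eq_true_iff) _

theorem rest_iff (hw : φ.ψ.CertN (P.inn φ) bb w0) (hbb : bb = decide (m % 2 = 0)) (hn : 0 < n)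
    (S : Finset (Fin s → Fin n)) (hS : S.card = k) :
    alt (XB φ n k) (m + 2) (restN φ bb w0 A (S1 φ k S)) ↔ φ.Holds A S := by
  have hneU : Nonempty (UN φ n k) := ⟨Sum.inl ⟨0, hn⟩⟩
  rw [holds_orig]
  change alt (XB φ n k) m (fun v => lev m (fun r => lev (m + 1) (fun y =>
    restN φ bb w0 A (S1 φ k S) ((v, r), y)))) ↔ _
  apply alt_rel (piN φ n k)
  · intro i x
    refine ⟨Fin.append (fun j => Sum.inl (x j)) (fun _ => Sum.inl ⟨0, hn⟩), ?_⟩
    rw [piN_some]
    intro j
    exact Fin.append_left _ _ _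
  · intro i hi _
    exact ⟨fun _ => Sum.inl ⟨0, hn⟩⟩
  · intro v x hv
    -- the critical event for valid blocks
    have hev : ∀ (r : XB φ n k m) (r' : Fin (φ.len m) → Fin n) (f : Fin k → Fin (nL φ))
        (y : XB φ n k (m + 1)), piN φ n k m r = some r' →
        r (Fin.natAdd (φ.len m) (Fin.last s)) = Sum.inr f →
        (evtN φ bb w0 (rA φ bb A (asg (lenN φ) (m + 2) ((v, r), y)))
          (eA φ (asg (lenN φ) (m + 2) ((v, r), y)))
          (xA φ (S1 φ k S) (asg (lenN φ) (m + 2) ((v, r), y))) ↔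
        EV φ bb w0 A hn S (Sum.elim (asg φ.len m x) r' : Vars φ.len m ⊕ Fin (φ.len m) → Fin n)
          f y) := by
      intro r r' f y hr hf
      apply evt_sem φ bb w0 A hn S
      · intro u
        rcases u with u | j
        · exact asg_io φ m v x hv u
        · exact (piN_some φ m r r').mp hr j
      · exact hf
      · intro j
        rfl
    have hrest : ∀ (r : XB φ n k m) (y : XB φ n k (m + 1)),
        (restN φ bb w0 A (S1 φ k S) ((v, r), y) ↔ if bb = true then
        (((∃ x, piN φ n k m r = some x) ∧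
          ∃ f, r (Fin.natAdd (φ.len m) (Fin.last s)) = Sum.inr f) →
          evtN φ bb w0 (rA φ bb A (asg (lenN φ) (m + 2) ((v, r), y)))
            (eA φ (asg (lenN φ) (m + 2) ((v, r), y)))
            (xA φ (S1 φ k S) (asg (lenN φ) (m + 2) ((v, r), y))))
      else (((∃ x, piN φ n k m r = some x) ∧
          ∃ f, r (Fin.natAdd (φ.len m) (Fin.last s)) = Sum.inr f) ∧
          ¬ evtN φ bb w0 (rA φ bb A (asg (lenN φ) (m + 2) ((v, r), y)))
            (eA φ (asg (lenN φ) (m + 2) ((v, r), y)))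
            (xA φ (S1 φ k S) (asg (lenN φ) (m + 2) ((v, r), y))))) := by
      intro r y
      unfold restN
      have : stt (piN φ n k) m ((v, r), y).1.1 = Sum.inl x := hv
      rw [this]
    have hmk : ∀ (r' : Fin (φ.len m) → Fin n) (f : Fin k → Fin (nL φ)), ∃ r : XB φ n k m,
        piN φ n k m r = some r' ∧ r (Fin.natAdd (φ.len m) (Fin.last s)) = Sum.inr f := by
      intro r' f
      refine ⟨Fin.append (fun j => Sum.inl (r' j)) (fun _ => Sum.inr f), ?_, ?_⟩
      · rw [piN_some]
        intro j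
        exact Fin.append_left _ _ _
      · exact Fin.append_right _ _ _
    have hall := fun r' : Fin (φ.len m) → Fin n => EV_all φ bb w0 A hw hn S hS
      (Sum.elim (asg φ.len m x) r' : Vars φ.len m ⊕ Fin (φ.len m) → Fin n)
    rcases Nat.mod_two_eq_zero_or_one m with hm | hm
    · have hb : bb = true := by rw [hbb]; simp [hm]
      rw [lev_even hm, lev_even hm]
      have e1 : ∀ r : XB φ n k m, (lev (m + 1) (fun y =>
          restN φ bb w0 A (S1 φ k S) ((v, r), y)) ↔
          ∀ r' f, piN φ n k m r = some r' → r (Fin.natAdd (φ.len m) (Fin.last s)) = Sum.inr f →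
            ∃ y, EV φ bb w0 A hn S
              (Sum.elim (asg φ.len m x) r' : Vars φ.len m ⊕ Fin (φ.len m) → Fin n) f y) := by
        intro r
        rw [lev_odd (by omega)]
        constructor
        · rintro ⟨y, hy⟩ r' f hr hf
          rw [hrest, if_pos hb] at hy
          exact ⟨y, (hev r r' f y hr hf).mp (hy ⟨⟨r', hr⟩, ⟨f, hf⟩⟩)⟩
        · intro h
          by_cases h1 : (∃ x, piN φ n k m r = some x) ∧
              ∃ f, r (Fin.natAdd (φ.len m) (Fin.last s)) = Sum.inr f
          · obtain ⟨⟨r', hr⟩, ⟨f, hf⟩⟩ := h1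
            obtain ⟨y, hy⟩ := h r' f hr hf
            refine ⟨y, ?_⟩
            rw [hrest, if_pos hb]
            intro _
            exact (hev r r' f y hr hf).mpr hy
          · refine ⟨fun _ => Sum.inl ⟨0, hn⟩, ?_⟩
            rw [hrest, if_pos hb]
            intro h2
            exact absurd h2 h1
      have e2 : ∀ r' : Fin (φ.len m) → Fin n, (lev (m + 1) (fun b =>
          MTN φ A S (asg φ.len m x) r' b) ↔ ∀ f : Fin k → Fin (nL φ), ∃ y : XB φ n k (m + 1),
            EV φ bb w0 A hn S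
              (Sum.elim (asg φ.len m x) r' : Vars φ.len m ⊕ Fin (φ.len m) → Fin n) f y) := by
        intro r'
        rw [lev_odd (by omega), hall r', hb]
        apply exists_congr
        intro b
        exact (eval_orig φ A S (asg φ.len m x) r' b).symm
      simp only [e1, e2]
      constructor
      · intro h r' f
        obtain ⟨r, hr, hf⟩ := hmk r' f
        exact h r r' f hr hf
      · intro h r r' f _ _
        exact h r' f
    · have hb : bb = false := by rw [hbb]; simp [hm]
      rw [lev_odd hm, lev_odd hm]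
      have e1 : ∀ r : XB φ n k m, (lev (m + 1) (fun y =>
          restN φ bb w0 A (S1 φ k S) ((v, r), y)) ↔
          ∃ r' f, piN φ n k m r = some r' ∧ r (Fin.natAdd (φ.len m) (Fin.last s)) = Sum.inr f ∧
            ¬ ∃ y, EV φ bb w0 A hn S
              (Sum.elim (asg φ.len m x) r' : Vars φ.len m ⊕ Fin (φ.len m) → Fin n) f y) := by
        intro r
        rw [lev_even (by omega)]
        constructor
        · intro h
          have h1 := h (fun _ => Sum.inl ⟨0, hn⟩)
          rw [hrest, if_neg (by rw [hb]; simp)] at h1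
          obtain ⟨⟨⟨r', hr⟩, ⟨f, hf⟩⟩, -⟩ := h1
          refine ⟨r', f, hr, hf, ?_⟩
          rintro ⟨y, hy⟩
          have h2 := h y
          rw [hrest, if_neg (by rw [hb]; simp)] at h2
          exact h2.2 ((hev r r' f y hr hf).mpr hy)
        · rintro ⟨r', f, hr, hf, h⟩ y
          rw [hrest, if_neg (by rw [hb]; simp)]
          refine ⟨⟨⟨r', hr⟩, ⟨f, hf⟩⟩, fun h2 => h ⟨y, (hev r r' f y hr hf).mp h2⟩⟩
      have e2 : ∀ r' : Fin (φ.len m) → Fin n, (lev (m + 1) (fun b =>
          MTN φ A S (asg φ.len m x) r' b) ↔ ¬ ∀ f : Fin k → Fin (nL φ), ∃ y : XB φ n k (m + 1),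
            EV φ bb w0 A hn S
              (Sum.elim (asg φ.len m x) r' : Vars φ.len m ⊕ Fin (φ.len m) → Fin n) f y) := by
        intro r'
        rw [lev_even (by omega), hall r', hb]
        push Not
        apply forall_congr'
        intro b
        rw [← eval_orig φ A S (asg φ.len m x) r' b]
        simp
      simp only [e1, e2]
      constructor
      · rintro ⟨r, r', f, -, -, h⟩
        exact ⟨r', fun h2 => h (h2 f)⟩
      · rintro ⟨r', h⟩
        push Not at h
        obtain ⟨f, hf⟩ := h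
        obtain ⟨r, hr, hf2⟩ := hmk r' f
        exact ⟨r, r', f, hr, hf2, fun ⟨y, hy⟩ => hf y hy⟩
  · intro v c hv
    have hrest : ∀ (r : XB φ n k m) (y : XB φ n k (m + 1)),
        (restN φ bb w0 A (S1 φ k S) ((v, r), y) ↔ c = true) := by
      intro r y
      unfold restN
      have : stt (piN φ n k) m ((v, r), y).1.1 = Sum.inr c := hv
      rw [this]
    simp only [hrest]
    rw [lev_congr m (fun r => lev_const (m + 1) (c = true)), lev_const]

/-- the formula over the extended structure -/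
theorem ext_WDF (hw : φ.ψ.CertN (P.inn φ) bb w0) (hbb : bb = decide (m % 2 = 0)) (hn : 0 < n) :
    WDF (forN φ bb w0) (strN φ bb A k) k ↔ WDF φ A k := by
  have hne : ∀ i, i ≤ m + 1 → Nonempty (XB φ n k i) := fun i _ => ⟨fun _ => Sum.inl ⟨0, hn⟩⟩
  constructor
  · rintro ⟨T, hT, hH⟩
    rw [holds_alt, alt_first (gd φ T) (m + 1) hne, gd_all φ T hn] at hH
    obtain ⟨S, rfl⟩ := ex_S1 φ T hH.1
    rw [S1_card] at hT
    exact ⟨S, hT, (rest_iff φ bb w0 A hw hbb hn S hT).mp hH.2⟩
  · rintro ⟨S, hS, hH⟩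
    refine ⟨S1 φ k S, by rw [S1_card, hS], ?_⟩
    rw [holds_alt, alt_first (gd φ (S1 φ k S)) (m + 1) hne, gd_all φ _ hn]
    exact ⟨S1_elem φ S, (rest_iff φ bb w0 A hw hbb hn S hS).mpr hH⟩

end

end

end Pool.Agent.Helper265_EW.N
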