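import Pool.Agent.Helper265_EW.NSem3
import Pool.Agent.Helper265_EW.NDfn

set_option linter.unusedSectionVars false
set_option linter.unusedVariables false

/-! The sets named by words are defined by iterating a first-order formula. -/

namespace Pool.Agent.Helper265_EW.N

open Finset Classical Pool.Agent.Helper265_EW.G Pool.Agent.Helper265_EW.P

noncomputable section

/-! Relations on objects. -/

section Ob

variable {n k a : ℕ}

def isEl (u : Wo n k a) : Prop := ∃ x, u = Wo.el x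

def ltO (u v : Wo n k a) : Prop := (∃ x y, u = Wo.el x ∧ v = Wo.el y ∧ x < y) ∨
  ∃ i j, u = Wo.nb i ∧ v = Wo.nb j ∧ i < j

def letterO (c : Fin a) (u v : Wo n k a) : Prop :=
  ∃ f i, u = Wo.wd f ∧ v = Wo.nb i ∧ ∃ h : i.val < k, f ⟨i.val, h⟩ = c

/-- the lexicographic order -/
def lexO {l : ℕ} (b b' : Fin l → Wo n k a) : Prop := ∃ i, (∀ j, j < i → b j = b' j) ∧
  ltO (b i) (b' i)

lemma ltO_el (x y : Fin n) : ltO (Wo.el x : Wo n k a) (Wo.el y) ↔ x < y := by
  constructor
  · rintro (⟨x', y', h1, h2, h3⟩ | ⟨i, j, h1, h2, h3⟩)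
    · injection h1 with h1
      injection h2 with h2
      rw [h1, h2]
      exact h3
    · cases h1
  · intro h
    exact Or.inl ⟨x, y, rfl, rfl, h⟩

lemma ltO_nb (u : Wo n k a) (j : Fin (k + 1)) :
    ltO u (Wo.nb j) ↔ ∃ i, u = Wo.nb i ∧ i < j := by
  constructor
  · rintro (⟨x', y', h1, h2, h3⟩ | ⟨i, j', h1, h2, h3⟩)
    · cases h2
    · injection h2 with h2
      rw [h2]
      exact ⟨i, h1, h3⟩
  · rintro ⟨i, h1, h2⟩
    exact Or.inr ⟨i, j, h1, rfl, h2⟩

lemma lexO_el {l : ℕ} (b b' : Fin l → Fin n) :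
    lexO (fun i => (Wo.el (b i) : Wo n k a)) (fun i => Wo.el (b' i)) ↔ toLex b < toLex b' := by
  unfold lexO
  constructor
  · rintro ⟨i, h1, h2⟩
    refine ⟨i, fun j hj => ?_, ?_⟩
    · have h3 := h1 j hj
      injection h3
    · exact (ltO_el _ _).mp h2
  · rintro ⟨i, h1, h2⟩
    refine ⟨i, fun j hj => ?_, ?_⟩
    · exact congrArg Wo.el (h1 j hj)
    · exact (ltO_el _ _).mpr h2

lemma all_el {l : ℕ} {b : Fin l → Wo n k a} (h : ∀ i, isEl (b i)) :
    ∃ b' : Fin l → Fin n, b = fun i => Wo.el (b' i) := by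
  choose b' hb' using h
  exact ⟨b', funext hb'⟩

end Ob

/-! Basic definable relations. -/

section Basic

variable {τ σ : Voc} {a : ℕ} {V : Type}

lemma dfn_isEl (u : V) : Dfn (fun n k A S w => isEl (w u) : Qy τ σ a V) :=
  ⟨Fo.elem u, fun n k A S w => Iff.rfl⟩

lemma dfn_ltO (u v : V) : Dfn (fun n k A S w => ltO (w u) (w v) : Qy τ σ a V) :=
  ⟨Fo.lt u v, fun n k A S w => Iff.rfl⟩

lemma dfn_eq (u v : V) : Dfn (fun n k A S w => w u = w v : Qy τ σ a V) :=
  ⟨Fo.eq u v, fun n k A S w => Iff.rfl⟩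

lemma dfn_letterO (c : Fin a) (u v : V) :
    Dfn (fun n k A S w => letterO c (w u) (w v) : Qy τ σ a V) :=
  ⟨Fo.letter c u v, fun n k A S w => Iff.rfl⟩

lemma dfn_rel (R : Fin τ.num) (v : Fin (τ.ar R) → V) :
    Dfn (fun n k A S w => ∃ x : Fin (τ.ar R) → Fin n, (∀ i, w (v i) = Wo.el (x i)) ∧
      A R x = true : Qy τ σ a V) :=
  ⟨Fo.rel R v, fun n k A S w => Iff.rfl⟩

lemma dfn_lexO {l : ℕ} (u v : Fin l → V) :
    Dfn (fun n k A S w => lexO (fun i => w (u i)) (fun i => w (v i)) : Qy τ σ a V) := by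
  unfold lexO
  exact Dfn.fex fun i => (Dfn.fall fun j => (Dfn.const (j < i)).imp (dfn_eq (u j) (v j))).and
    (dfn_ltO (u i) (v i))

end Basic

section

variable {τ : Voc} {s m : ℕ} (φ : PiF τ s (m + 2)) (bb : Bool) {n k : ℕ}

/-- coordinates of the auxiliary relations: the outer variables, the word, the number, the
tuple -/
abbrev VP : Type := Vars φ.len (m + 1) ⊕ (Bool ⊕ Fin s)

def eVP : VP φ ≃ Fin (Fintype.card (VP φ)) := Fintype.equivFin _

def ePt : (At φ → Bool) ≃ Fin (Fintype.card (At φ → Bool)) := Fintype.equivFin _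

/-- the auxiliary vocabulary -/
def sgN : Voc := ⟨Fintype.card (At φ → Bool), fun _ => Fintype.card (VP φ)⟩

/-- objects -/
abbrev OB (n k : ℕ) : Type := Wo n k (nL φ)

/-- the auxiliary relations -/
def auxP (S : Str (sgN φ) (OB φ n k)) (p : At φ → Bool) (x : VP φ → OB φ n k) : Prop :=
  S (ePt φ p) (fun i => x ((eVP φ).symm i)) = true

def mkP {U : Type} (x : Vars φ.len (m + 1) → U) (f j : U) (z : Fin s → U) : VP φ → U :=
  Sum.elim x (Sum.elim (fun b => if b = true then j else f) z)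

lemma comp_mkP {U U' : Type} (w : U → U') (x : Vars φ.len (m + 1) → U) (f j : U)
    (z : Fin s → U) : (fun y => w (mkP φ x f j z y)) =
      mkP φ (fun y => w (x y)) (w f) (w j) (fun i => w (z i)) := by
  funext y
  rcases y with y | (b | i)
  · rfl
  · cases b <;> rfl
  · rfl

lemma comp_jn {U U' : Type} (w : U → U') (x : Vars φ.len (m + 1) → U)
    (b : Fin (φ.len (m + 1)) → U) : (fun y => w (jn φ x b y)) =
      jn φ (fun y => w (x y)) (fun i => w (b i)) := by
  funext y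
  rcases y with y | i
  · rfl
  · rfl

/-- bad indices, for relations on objects -/
def badW (A : Str τ (Fin n)) (p : At φ → Bool) (y : Vars φ.len (m + 2) → OB φ n k)
    (C : (Fin s → OB φ n k) → Prop) : Prop :=
  ∃ N : Finset (At φ), NC φ bb N
    (fun R v => bdec (∃ x : Fin (τ.ar R) → Fin n, (∀ i, y (v i) = Wo.el (x i)) ∧
      A R x = true)) (fun u v => bdec (y u = y v)) p ∧ ∀ v ∈ N, ¬ C (fun i => y (v i))

/-- the set named by the first letters of a word -/
def CW (S : Str (sgN φ) (OB φ n k)) (p : At φ → Bool) (x : VP φ → OB φ n k)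
    (z : Fin s → OB φ n k) : Prop :=
  ∃ j', ltO j' (x (Sum.inr (Sum.inl true))) ∧
    auxP φ S p (mkP φ (fun y => x (Sum.inl y)) (x (Sum.inr (Sum.inl false))) j' z)

/-- one step -/
def stepW (A : Str τ (Fin n)) (S : Str (sgN φ) (OB φ n k)) (p : At φ → Bool)
    (x : VP φ → OB φ n k) : Prop :=
  (∀ y, isEl (x (Sum.inl y))) ∧ ∃ b : Fin (φ.len (m + 1)) → OB φ n k, ((∀ i, isEl (b i)) ∧
    badW φ bb A p (jn φ (fun y => x (Sum.inl y)) b) (CW φ S p x)) ∧
    (∀ b' : Fin (φ.len (m + 1)) → OB φ n k, ((∀ i, isEl (b' i)) ∧ lexO b' b) →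
      ¬ badW φ bb A p (jn φ (fun y => x (Sum.inl y)) b') (CW φ S p x)) ∧
    ∃ v : At φ, P.inn φ v ∧ letterO ((eL φ).symm (some v)) (x (Sum.inr (Sum.inl false)))
        (x (Sum.inr (Sum.inl true))) ∧
      ∀ i, x (Sum.inr (Sum.inr i)) = jn φ (fun y => x (Sum.inl y)) b (v i)

/-! Definability. -/

lemma dfn_auxP {V : Type} (p : At φ → Bool) (x : VP φ → V) :
    Dfn (fun n k A S w => auxP φ S p (fun y => w (x y)) : Qy τ (sgN φ) (nL φ) V) :=
  ⟨Fo.aux (σ := sgN φ) (ePt φ p) (fun i => x ((eVP φ).symm i)), fun n k A S w => Iff.rfl⟩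

lemma dfn_CW {V : Type} (p : At φ → Bool) (x : VP φ → V) :
    Dfn (fun n k A S w => CW φ S p (fun y => w (Sum.inl (x y))) (fun i => w (Sum.inr i)) :
      Qy τ (sgN φ) (nL φ) (V ⊕ Fin s)) := by
  have h1 : Dfn (fun n k A S w => ltO (w none) (w (some (Sum.inl (x (Sum.inr (Sum.inl true)))))) ∧
      auxP φ S p (fun y => w (mkP φ (fun y => some (Sum.inl (x (Sum.inl y))))
        (some (Sum.inl (x (Sum.inr (Sum.inl false))))) none (fun i => some (Sum.inr i)) y)) :
      Qy τ (sgN φ) (nL φ) (Option (V ⊕ Fin s))) := (dfn_ltO _ _).and (dfn_auxP φ p _)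
  refine h1.ex.congr fun n k A S w => ?_
  apply exists_congr
  intro j'
  refine and_congr Iff.rfl ?_
  exact iff_of_eq (congrArg (auxP φ S p)
    (comp_mkP φ (fun o : Option (V ⊕ Fin s) => o.elim j' w) _ _ _ _))

lemma dfn_badW {V : Type} (p : At φ → Bool) (y : Vars φ.len (m + 2) → V)
    {QC : Qy τ (sgN φ) (nL φ) (V ⊕ Fin s)} (hC : Dfn QC) :
    Dfn (fun n k A S w => badW φ bb A p (fun u => w (y u))
      (fun z => QC n k A S (Sum.elim w z)) : Qy τ (sgN φ) (nL φ) V) := by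
  unfold badW
  refine Dfn.fex fun N => Dfn.and ?_ ?_
  · let Q : ((Σ R : Fin τ.num, Fin (τ.ar R) → Vars φ.len (m + 2)) ⊕
        (Vars φ.len (m + 2) × Vars φ.len (m + 2))) → Qy τ (sgN φ) (nL φ) V := fun i => match i with
      | Sum.inl q => fun n k A S w => ∃ x : Fin (τ.ar q.1) → Fin n,
          (∀ i, w (y (q.2 i)) = Wo.el (x i)) ∧ A q.1 x = true
      | Sum.inr q => fun n k A S w => w (y q.1) = w (y q.2)
    have hQ : ∀ i, Dfn (Q i) := by
      intro i
      rcases i with q | q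
      · exact dfn_rel q.1 (fun i => y (q.2 i))
      · exact dfn_eq _ _
    exact Dfn.bool (fun x => NC φ bb N (fun R v => x (Sum.inl ⟨R, v⟩))
      (fun u v => x (Sum.inr (u, v))) p) hQ
  · refine (Dfn.fall fun v : At φ => (Dfn.const (v ∈ N)).imp
      ((hC.rename (Sum.elim id (fun i => y (v i)))).not)).congr fun n k A S w => ?_
    apply forall_congr'
    intro v
    apply imp_congr_right
    intro _
    apply not_congr
    have h1 : (fun v' => w ((Sum.elim id (fun i => y (v i)) : V ⊕ Fin s → V) v')) =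
        Sum.elim w (fun i => w (y (v i))) := by
      funext v'
      rcases v' with v' | i <;> rfl
    rw [h1]

lemma dfn_stepW (p : At φ → Bool) :
    Dfn (fun n k A S w => stepW φ bb A S p w : Qy τ (sgN φ) (nL φ) (VP φ)) := by
  unfold stepW
  refine Dfn.and (Dfn.fall fun y => dfn_isEl _) ?_
  have h1 : Dfn (fun n k A S w => ((∀ i, isEl (w (Sum.inr i))) ∧
      badW φ bb A p (fun u => w (jn φ (fun y => Sum.inl (Sum.inl y)) (fun i => Sum.inr i) u))
        (fun z => CW φ S p (fun y => w (Sum.inl y)) z)) ∧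
    (∀ b' : Fin (φ.len (m + 1)) → OB φ n k, ((∀ i, isEl (b' i)) ∧
        lexO b' (fun i => w (Sum.inr i))) →
      ¬ badW φ bb A p (jn φ (fun y => w (Sum.inl (Sum.inl y))) b')
        (CW φ S p (fun y => w (Sum.inl y)))) ∧
    ∃ v : At φ, P.inn φ v ∧ letterO ((eL φ).symm (some v))
        (w (Sum.inl (Sum.inr (Sum.inl false)))) (w (Sum.inl (Sum.inr (Sum.inl true)))) ∧
      ∀ i, w (Sum.inl (Sum.inr (Sum.inr i))) =
        w (jn φ (fun y => Sum.inl (Sum.inl y)) (fun i => Sum.inr i) (v i)) :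
      Qy τ (sgN φ) (nL φ) (VP φ ⊕ Fin (φ.len (m + 1)))) := by
    refine Dfn.and (Dfn.and (Dfn.fall fun i => dfn_isEl _) ?_) (Dfn.and ?_ ?_)
    · exact dfn_badW φ bb p _ (dfn_CW φ p (fun y => Sum.inl y))
    · have h2 : Dfn (fun n k A S w => ((∀ i, isEl (w (Sum.inr i))) ∧
          lexO (fun i => w (Sum.inr i)) (fun i => w (Sum.inl (Sum.inr i)))) →
        ¬ badW φ bb A p (fun u => w (jn φ (fun y => Sum.inl (Sum.inl (Sum.inl y)))
            (fun i => Sum.inr i) u))
          (fun z => CW φ S p (fun y => w (Sum.inl (Sum.inl y))) z) :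
          Qy τ (sgN φ) (nL φ) ((VP φ ⊕ Fin (φ.len (m + 1))) ⊕ Fin (φ.len (m + 1)))) := by
        refine Dfn.imp (Dfn.and (Dfn.fall fun i => dfn_isEl _) (dfn_lexO _ _)) (Dfn.not ?_)
        exact dfn_badW φ bb p _ (dfn_CW φ p (fun y => Sum.inl (Sum.inl y)))
      refine (Dfn.allF _ h2).congr fun n k A S w => ?_
      apply forall_congr'
      intro b'
      rw [comp_jn]
      exact Iff.rfl
    · exact Dfn.fex fun v => (Dfn.const _).and ((dfn_letterO _ _ _).and
        (Dfn.fall fun i => dfn_eq _ _))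
  refine (Dfn.exF _ h1).congr fun n k A S w => ?_
  apply exists_congr
  intro b
  have h3 : ∀ v : At φ, (fun i => (Sum.elim w b : VP φ ⊕ Fin (φ.len (m + 1)) → OB φ n k)
      (jn φ (fun y => Sum.inl (Sum.inl y)) (fun i => Sum.inr i) (v i))) =
      fun i => jn φ (fun y => w (Sum.inl y)) b (v i) := by
    intro v
    funext i
    exact congrFun (comp_jn φ (Sum.elim w b) (fun y => Sum.inl (Sum.inl y))
      (fun i => Sum.inr i)) (v i)
  rw [comp_jn]
  apply and_congr Iff.rfl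
  apply and_congr Iff.rfl
  apply exists_congr
  intro v
  apply and_congr Iff.rfl
  apply and_congr Iff.rfl
  apply forall_congr'
  intro i
  have h4 := congrFun (h3 v) i
  exact iff_of_eq (congrArg (fun u => w (Sum.inr (Sum.inr i)) = u) h4)

end

end

end Pool.Agent.Helper265_EW.N
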