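import Pool.Agent.Helper265_EW.IDefs

/-! Quantifier-free reductions between weighted Fagin-definable problems. -/

namespace Pool.Agent.Helper265_EW

/-- The elements `0, …, n - 1` of a structure together with the numbers `0, …, k`. -/
abbrev Base (n k : ℕ) : Type := Fin n ⊕ Fin (k + 1)

/-- An atomic type: truth values for all atomic statements about a family, indexed by `V`, of
elements of a `τ`-structure and numbers: the relations of the structure, equality, the order of
the elements, being a number, being consecutive numbers, being the least number, being the
greatest number. -/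
structure AType (τ : Voc) (V : Type) where
  rel : ∀ R : Fin τ.num, (Fin (τ.ar R) → V) → Bool
  eq : V → V → Bool
  lt : V → V → Bool
  num : V → Bool
  suc : V → V → Bool
  zero : V → Bool
  top : V → Bool

open Classical in
/-- The atomic type of a family `w` of elements of the structure `A` with universe
`{0, …, n - 1}` and numbers `0, …, k`. -/
noncomputable def atp {τ : Voc} {n k : ℕ} {V : Type} (A : Str τ (Fin n)) (w : V → Base n k) :
    AType τ V where
  rel R v := decide (∃ a : Fin (τ.ar R) → Fin n, (∀ i, w (v i) = Sum.inl (a i)) ∧ A R a = true)
  eq u v := decide (w u = w v)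
  lt u v := decide (∃ a b : Fin n, w u = Sum.inl a ∧ w v = Sum.inl b ∧ a < b)
  num u := decide (∃ i : Fin (k + 1), w u = Sum.inr i)
  suc u v := decide (∃ i j : Fin (k + 1), w u = Sum.inr i ∧ w v = Sum.inr j ∧ j.val = i.val + 1)
  zero u := decide (∃ i : Fin (k + 1), w u = Sum.inr i ∧ i.val = 0)
  top u := decide (∃ i : Fin (k + 1), w u = Sum.inr i ∧ i.val = k)

/-- A quantifier-free interpretation: the new elements are the pairs of a tag, from a finite set,
and a family of elements and numbers, indexed by a finite set, that satisfy a condition on the tag
and the atomic type of the family; whether a new relation holds for a tuple of new elements is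
given by a function of their tags and of the atomic type of their families. -/
structure QInt (τ τ' : Voc) where
  Tag : Type
  finTag : Finite Tag
  Ix : Type
  finIx : Finite Ix
  dom : Tag → AType τ Ix → Bool
  rel : ∀ R : Fin τ'.num, (Fin (τ'.ar R) → Tag) → AType τ (Fin (τ'.ar R) × Ix) → Bool

namespace QInt

variable {τ τ' : Voc}

/-- The universe of the new structure. -/
def Univ (I : QInt τ τ') {n : ℕ} (A : Str τ (Fin n)) (k : ℕ) : Type :=
  {x : I.Tag × (I.Ix → Base n k) // I.dom x.1 (atp A x.2) = true}

/-- The new structure. -/
noncomputable def out (I : QInt τ τ') {n : ℕ} (A : Str τ (Fin n)) (k : ℕ) :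
    Str τ' (I.Univ A k) :=
  fun R v => I.rel R (fun i => (v i).1.1) (atp A (fun p => (v p.1).1.2 p.2))

end QInt

/-- The weighted Fagin-definable problem of `φ` reduces to that of `φ'` by a quantifier-free
interpretation with new parameter `f k`. The interpretation is fixed, so that the new structure
has at most `c * (n + k + 1) ^ c` elements for a constant `c` and each bit of it is a fixed
function of boundedly many bits of the given one. -/
def QFRed {τ τ' : Voc} {s s' t t' : ℕ} (f : ℕ → ℕ) (φ : PiF τ s t) (φ' : PiF τ' s' t') : Prop :=
  ∃ I : QInt τ τ', ∀ n k : ℕ, 1 ≤ n → ∀ A : Str τ (Fin n),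
    (WDF φ A k ↔ WDF φ' (I.out A k) (f k))

end Pool.Agent.Helper265_EW
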