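import Pool.Agent.Helper265_EW.PMain

set_option linter.unusedSectionVars false

/-! The reduction to the normal form. -/

namespace Pool.Agent.Helper265_EW.P

open Finset Classical Pool.Agent.Helper265_EW.G

noncomputable section

lemma alt_const {J : ℕ → Type} (n : ℕ) (hJ : ∀ i, i < n → Nonempty (J i)) (P : Prop) :
    alt J n (fun _ => P) ↔ P := by
  induction n with
  | zero => exact Iff.rfl
  | succ n ih =>
    have h1 : alt J (n + 1) (fun _ => P) ↔ alt J n (fun _ => P) := by
      change alt J n (fun _ => lev n (fun _ : J n => P)) ↔ _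
      apply alt_congr
      intro _
      obtain ⟨x0⟩ := hJ n (by omega)
      have : Nonempty (J n) := ⟨x0⟩
      exact lev_const n P
    rw [h1]
    exact ih (fun i hi => hJ i (by omega))

section Asm

variable {τ : Voc} {s m : ℕ} {φ : PiF τ s (m + 2)} {d' e' : ℕ}
variable {n k : ℕ} {A : Str τ (Fin n)}

lemma relS_good (x : Tup (XX φ d' e' k A) (m + 1)) (y : Fin (d' + 1 + 1) → WW φ d' e' k A) :
    relS A (tt x y) = if m % 2 = 0 then decide (evS A (tt x y)) else
      decide (¬ odS A (tt x y)) := by
  have h : ∀ N, N ≤ m + 1 → scn (fun i => okS (tt x y (po m d' i)) i) N = none := by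
    intro N
    induction N with
    | zero => intro _; rfl
    | succ N ih =>
      intro hN
      simp only [scn]
      rw [ih (by omega)]
      simp only
      have h1 : okS (tt x y (po m d' N)) N := by
        unfold tt
        rw [asm_po _ _ N (by omega)]
        exact frT_ok (m + 1) x ⟨N, by omega⟩
      rw [if_pos h1]
  unfold relS
  rw [h (m + 1) le_rfl]

/-- the value of the innermost part of the normal form -/
def FF (ev : Bool) (A : Str τ (Fin n)) (S : Finset (WW φ d' e' k A))
    (x : Tup (fun _ => WW φ d' e' k A) (m + 1)) : Prop :=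
  lev (m + 1) (fun y : Fin (d' + 1 + 1) → WW φ d' e' k A =>
    matN ev (d' + 1) S (fun t : Fin (d' + 1 + 2) → WW φ d' e' k A =>
      (intP φ d' e').out A k (0 : Fin 1) (Fin.append (frT m x.1) t)) x.2 y)

lemma FF_bad (ev : Bool) (hev : ev = decide (m % 2 = 0)) (S : Finset (WW φ d' e' k A))
    (hS : S.Nonempty) (x : Tup (fun _ => WW φ d' e' k A) (m + 1)) (b : Bool)
    (h : stt (A := fun _ => WW φ d' e' k A) (X := fun i => {x : WW φ d' e' k A // okS x.1 i})
      (fun i x => if h : okS x.1 i then some ⟨x, h⟩ else none) (m + 1) x = Sum.inr b) :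
    FF ev A S x ↔ b = true := by
  have h1 : ∀ y : Fin (d' + 1 + 1) → WW φ d' e' k A,
      (intP φ d' e').out A k (0 : Fin 1) (Fin.append (frT m x.1)
        (Fin.cons x.2 y : Fin (d' + 1 + 2) → WW φ d' e' k A)) = b := by
    intro y
    exact (out_eq A _).trans (relS_bad A x y b h)
  obtain ⟨z, hz⟩ := hS
  unfold FF matN
  rcases Nat.mod_two_eq_zero_or_one m with hm | hm
  · have he : ev = true := by rw [hev]; simp [hm]
    rw [lev_odd (by omega)]
    simp only [he, if_true]
    constructor
    · rintro ⟨y, _, h2⟩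
      rw [← h1 y]
      exact h2
    · intro h2
      exact ⟨fun _ => z, fun _ => hz, by rw [← h2]; exact h1 _⟩
  · have he : ev = false := by rw [hev]; simp [hm]
    rw [lev_even (by omega)]
    simp only [he, Bool.false_eq_true, if_false]
    constructor
    · intro h2
      rw [← h1 (fun _ => z)]
      exact h2 _ (fun _ => hz)
    · intro h2 y _
      rw [← h2]
      exact h1 y

lemma FF_even (hm : m % 2 = 0) (S : Finset (WW φ d' e' k A)) (x : Tup (XX φ d' e' k A) (m + 1)) :
    FF true A S (fg A x) ↔ HE A S x := by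
  unfold FF matN HE
  rw [lev_odd (by omega)]
  simp only [if_true]
  apply exists_congr
  intro y
  apply and_congr Iff.rfl
  have h1 : (intP φ d' e').out A k (0 : Fin 1) (Fin.append (frT m (fg A x).1)
        (Fin.cons (fg A x).2 y : Fin (d' + 1 + 2) → WW φ d' e' k A)) = relS A (tt x y) :=
    out_eq A _
  have h2 := relS_good x y
  rw [if_pos hm] at h2
  constructor
  · intro h3
    have h4 : relS A (tt x y) = true := h1.symm.trans h3
    rw [h2, decide_eq_true_iff] at h4
    exact h4
  · intro h3
    refine h1.trans ?_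
    rw [h2, decide_eq_true_iff]
    exact h3

lemma FF_odd (hm : m % 2 = 1) (S : Finset (WW φ d' e' k A)) (x : Tup (XX φ d' e' k A) (m + 1)) :
    FF false A S (fg A x) ↔ HO A S x := by
  unfold FF matN HO
  rw [lev_even (by omega)]
  simp only [Bool.false_eq_true, if_false]
  apply forall_congr'
  intro y
  apply imp_congr Iff.rfl
  have h1 : (intP φ d' e').out A k (0 : Fin 1) (Fin.append (frT m (fg A x).1)
        (Fin.cons (fg A x).2 y : Fin (d' + 1 + 2) → WW φ d' e' k A)) = relS A (tt x y) :=
    out_eq A _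
  have h2 := relS_good x y
  rw [if_neg (by omega)] at h2
  constructor
  · intro h3
    have h4 : relS A (tt x y) = true := h1.symm.trans h3
    rw [h2, decide_eq_true_iff] at h4
    exact h4
  · intro h3
    refine h1.trans ?_
    rw [h2, decide_eq_true_iff]
    exact h3

/-- scanning -/
lemma FF_scan (ev : Bool) (hev : ev = decide (m % 2 = 0))
    (S : Finset (WW φ d' e' k A)) (hS : S.Nonempty) :
    alt (fun _ => WW φ d' e' k A) (m + 1) (FF ev A S) ↔
      alt (XX φ d' e' k A) (m + 1) (fun x => FF ev A S (fg A x)) := by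
  obtain ⟨z, hz⟩ := hS
  exact alt_scan (W := fun _ => WW φ d' e' k A) (fun i x => okS x.1 i) (m + 1)
    (fun _ _ => ⟨z⟩) (FF ev A S) (fun x => FF ev A S (fg A x)) (fun _ => Iff.rfl)
    (fun v b h => FF_bad ev hev S ⟨z, hz⟩ v b h)

lemma asX_eq (hn : 0 < n) (v : Tup (XX φ d' e' k A) m) :
    asX hn m v = asg φ.len m (mapT (X := XX φ d' e' k A) (J := fun i => Fin (φ.len i) → Fin n)
      (fun i y => blk hn i y.1.1) m v) := rfl

lemma holds_last2 (S : Finset (Fin s → Fin n)) : φ.Holds A S ↔
    alt (fun i => Fin (φ.len i) → Fin n) m (fun v => lev m (fun b => lev (m + 1) (fun b' =>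
      MT A S (asg φ.len m v) b b'))) := by
  unfold PiF.Holds
  rw [quant_alt]
  exact Iff.rfl

theorem even_main (hn : 0 < n) (hm : m % 2 = 0)
    (hw : φ.ψ.Cert (inn φ) true ((d' + 1) * (e' + 1))) :
    WDF φ A k ↔ WDF (normF true m (d' + 1)) ((intP φ d' e').out A k)
      ((k + 1) ^ (e' + 1)) := by
  have hne : Nonempty (WW φ d' e' k A) := by
    obtain ⟨x⟩ := instNeXX (φ := φ) (d' := d') (e' := e') (k := k) (A := A) hn 0
    exact ⟨x.1⟩
  have hXX : ∀ i, i < m → Nonempty (XX φ d' e' k A i) := fun i _ => instNeXX hn i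
  rw [normF_WD]
  have h0 : (∃ S : Finset (WW φ d' e' k A), S.card = (k + 1) ^ (e' + 1) ∧
      alt (fun _ => WW φ d' e' k A) m (fun v => lev m (fun r : WW φ d' e' k A =>
        lev (m + 1) (fun y : Fin (d' + 1 + 1) → WW φ d' e' k A =>
        matN true (d' + 1) S (fun t : Fin (d' + 1 + 2) → WW φ d' e' k A =>
          (intP φ d' e').out A k (0 : Fin 1) (Fin.append (frT m v) t)) r y)))) ↔
      ∃ S : Finset (WW φ d' e' k A), S.card = (k + 1) ^ (e' + 1) ∧
        alt (XX φ d' e' k A) m (fun v => ∀ r : XX φ d' e' k A m,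
          HE A S ((v, r) : Tup (XX φ d' e' k A) (m + 1))) := by
    apply exists_congr
    intro S
    apply and_congr_right
    intro hS
    have hSne : S.Nonempty := by
      rw [← Finset.card_pos, hS]
      positivity
    have h1 := FF_scan (A := A) true (by simp [hm]) S hSne
    have h2 : alt (XX φ d' e' k A) (m + 1) (fun x => FF true A S (fg A x)) ↔
        alt (XX φ d' e' k A) (m + 1) (fun x => HE A S x) :=
      alt_congr _ (fun x => FF_even hm S x)
    refine Iff.trans (Iff.trans h1 h2) ?_
    change alt (XX φ d' e' k A) m (fun v => lev m (fun r => HE A S (v, r))) ↔ _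
    apply alt_congr
    intro v
    rw [lev_even hm]
  refine Iff.trans ?_ h0.symm
  have key : ∀ E : ℕ → Wd n s, Inc k E →
      (alt (XX φ d' e' k A) m (fun v => ∀ r : XX φ d' e' k A m,
          HE A (pwS (elW A) E) ((v, r) : Tup (XX φ d' e' k A) (m + 1))) ↔
        φ.Holds A (S0 k E)) := by
    intro E hE
    rw [holds_last2]
    have h1 := alt_surj (X := XX φ d' e' k A) (J := fun i => Fin (φ.len i) → Fin n)
      (fun i y => blk hn i y.1.1) m (fun i hi => blk_surj hn i (by omega))
      (fun v => lev m (fun b => lev (m + 1) (fun b' => MT A (S0 k E) (asg φ.len m v) b b')))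
    refine Iff.trans ?_ h1
    apply alt_congr
    intro v
    rw [lev_even hm, even_iff hn hw hE v]
    apply forall_congr'
    intro b
    rw [lev_odd (by omega)]
    exact Iff.rfl
  constructor
  · rintro ⟨S, hS, hH⟩
    have : Nonempty (Wd n s) := ⟨toLex (fun _ => ⟨0, hn⟩)⟩
    obtain ⟨E, hE, hES⟩ := exists_inc (L := Wd n s) (S.image toLex)
      (by rw [Finset.card_image_of_injective _ toLex.injective, hS])
    have hS0 : S0 k E = S := by
      unfold S0
      rw [hES, Finset.image_image]
      have : (ofLex : Wd n s → (Fin s → Fin n)) ∘ toLex = id := rfl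
      rw [this, Finset.image_id]
    refine ⟨pwS (elW A) E, pwS_card (elW_inj A) E, ?_⟩
    rw [key E hE, hS0]
    exact hH
  · rintro ⟨S, hS, hH⟩
    have ht : testE (elW A) S := by
      have h1 : alt (XX φ d' e' k A) m (fun _ => testE (elW (φ := φ) (d' := d') A) S) :=
        alt_mono _ m (fun v h => testE_of hn S v h) hH
      rwa [alt_const m hXX] at h1
    obtain ⟨E, hE, hES⟩ := (testE_iff (elW_inj (φ := φ) (d' := d') (e' := e') A) hn
      (Nat.succ_pos e') S).mp ⟨hS, ht⟩
    refine ⟨S0 k E, S0_card hE, ?_⟩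
    rw [← key E hE, ← hES]
    exact hH

end Asm

section AsmO

variable {τ : Voc} {s m : ℕ} {φ : PiF τ s (m + 1 + 2)} {d' e' : ℕ}
variable {n k : ℕ} {A : Str τ (Fin n)}

theorem odd_main (hn : 0 < n) (hm : m % 2 = 0)
    (hw : φ.ψ.Cert (inn φ) false ((d' + 1) * (e' + 1))) :
    WDF φ A k ↔ WDF (normF false (m + 1) (d' + 1)) ((intP φ d' e').out A k)
      ((k + 1) ^ (e' + 1)) := by
  have hne : Nonempty (WW φ d' e' k A) := by
    obtain ⟨x⟩ := instNeXX (φ := φ) (d' := d') (e' := e') (k := k) (A := A) hn 0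
    exact ⟨x.1⟩
  have hXX : ∀ i, i < m → Nonempty (XX φ d' e' k A i) := fun i _ => instNeXX hn i
  rw [normF_WD]
  have h0 : (∃ S : Finset (WW φ d' e' k A), S.card = (k + 1) ^ (e' + 1) ∧
      alt (fun _ => WW φ d' e' k A) (m + 1) (fun v => lev (m + 1) (fun r : WW φ d' e' k A =>
        lev (m + 1 + 1) (fun y : Fin (d' + 1 + 1) → WW φ d' e' k A =>
        matN false (d' + 1) S (fun t : Fin (d' + 1 + 2) → WW φ d' e' k A =>
          (intP φ d' e').out A k (0 : Fin 1) (Fin.append (frT (m + 1) v) t)) r y)))) ↔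
      ∃ S : Finset (WW φ d' e' k A), S.card = (k + 1) ^ (e' + 1) ∧
        alt (XX φ d' e' k A) m (fun v => ∀ q : XX φ d' e' k A m,
          ∃ r : XX φ d' e' k A (m + 1),
          HO A S (((v, q), r) : Tup (XX φ d' e' k A) (m + 1 + 1))) := by
    apply exists_congr
    intro S
    apply and_congr_right
    intro hS
    have hSne : S.Nonempty := by
      rw [← Finset.card_pos, hS]
      positivity
    have h1 := FF_scan (A := A) false (by
      have : ¬ (m + 1) % 2 = 0 := by omega
      simp [this]) S hSne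
    have h2 : alt (XX φ d' e' k A) (m + 1 + 1) (fun x => FF false A S (fg A x)) ↔
        alt (XX φ d' e' k A) (m + 1 + 1) (fun x => HO A S x) :=
      alt_congr _ (fun x => FF_odd (by omega) S x)
    refine Iff.trans (Iff.trans h1 h2) ?_
    change alt (XX φ d' e' k A) m (fun v => lev m (fun q => lev (m + 1) (fun r =>
      HO A S ((v, q), r)))) ↔ _
    apply alt_congr
    intro v
    rw [lev_even hm]
    apply forall_congr'
    intro q
    rw [lev_odd (by omega)]
  refine Iff.trans ?_ h0.symm
  have key : ∀ E : ℕ → Wd n s, Inc k E →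
      (alt (XX φ d' e' k A) m (fun v => ∀ q : XX φ d' e' k A m,
          ∃ r : XX φ d' e' k A (m + 1),
          HO A (pwS (elW A) E) (((v, q), r) : Tup (XX φ d' e' k A) (m + 1 + 1))) ↔
        φ.Holds A (S0 k E)) := by
    intro E hE
    rw [holds_last2]
    have h1 := alt_surj (X := XX φ d' e' k A) (J := fun i => Fin (φ.len i) → Fin n)
      (fun i y => blk hn i y.1.1) m (fun i hi => blk_surj hn i (by omega))
      (fun v => lev m (fun b => lev (m + 1) (fun b' => lev (m + 1 + 1) (fun b'' =>
        MT (m := m + 1) (φ := φ) A (S0 k E)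
          (Sum.elim (asg φ.len m v) b : Vars φ.len m ⊕ Fin (φ.len m) → Fin n) b' b''))))
    refine Iff.trans ?_ h1
    apply alt_congr
    intro v
    rw [lev_even hm, odd_iff hn hw hE v]
    apply forall_congr'
    intro b
    rw [lev_odd (by omega)]
    apply exists_congr
    intro b'
    rw [lev_even (by omega)]
    exact Iff.rfl
  constructor
  · rintro ⟨S, hS, hH⟩
    have : Nonempty (Wd n s) := ⟨toLex (fun _ => ⟨0, hn⟩)⟩
    obtain ⟨E, hE, hES⟩ := exists_inc (L := Wd n s) (S.image toLex)
      (by rw [Finset.card_image_of_injective _ toLex.injective, hS])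
    have hS0 : S0 k E = S := by
      unfold S0
      rw [hES, Finset.image_image]
      have : (ofLex : Wd n s → (Fin s → Fin n)) ∘ toLex = id := rfl
      rw [this, Finset.image_id]
    refine ⟨pwS (elW A) E, pwS_card (elW_inj A) E, ?_⟩
    rw [key E hE, hS0]
    exact hH
  · rintro ⟨S, hS, hH⟩
    have ht : testO (elW A) S := by
      have h1 : alt (XX φ d' e' k A) m (fun _ => testO (elW (φ := φ) (d' := d') A) S) :=
        alt_mono _ m (fun v h => testO_of hn S v h) hH
      rwa [alt_const m hXX] at h1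
    obtain ⟨E, hE, hES⟩ := (testO_iff (elW_inj (φ := φ) (d' := d') (e' := e') A) hn
      (Nat.succ_pos e') S).mp ⟨hS, ht⟩
    refine ⟨S0 k E, S0_card hE, ?_⟩
    rw [← key E hE, ← hES]
    exact hH

end AsmO

end

end Pool.Agent.Helper265_EW.P
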