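import Pool.Agent.Helper265_EW.GSrcF
import Pool.Agent.Helper265_EW.PDefs

set_option linter.unusedSectionVars false

/-! The normal form formulas. -/

namespace Pool.Agent.Helper265_EW.P

open Finset Classical Pool.Agent.Helper265_EW.G

noncomputable section

/-- the atoms `X(y_{j+1})` -/
def xAtP (m d : ℕ) (j : Fin d) : QF (srcVt m d) 1 (Vars (fun _ => d + 1) (m + 2)) :=
  QF.mem (fun _ => (Sum.inr j.succ : (Vars (fun _ => d + 1) m ⊕ Fin (d + 1)) ⊕ Fin (d + 1)))

/-- the normal form formulas -/
def normF (ev : Bool) (m d : ℕ) : PiF (srcVt m d) 1 (m + 2) where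
  len := fun _ => d + 1
  ψ := if ev then conjs (eAt m d) d (xAtP m d) else
    QF.not (conjs (QF.not (eAt m d)) d (xAtP m d))

lemma normF_occ (ev : Bool) (m d : ℕ) : (normF ev m d).occ = d := by
  cases ev <;> simp [PiF.occ, normF, occ_conjs, QF.occ, eAt, xAtP]

/-- the matrix of the normal form -/
def matN {U : Type} (ev : Bool) (d : ℕ) (S : Finset U) (E : (Fin (d + 2) → U) → Bool) (r : U)
    (y : Fin (d + 1) → U) : Prop :=
  if ev = true then (∀ j : Fin d, y j.succ ∈ S) ∧ E (Fin.cons r y) = true else
    ((∀ j : Fin d, y j.succ ∈ S) → E (Fin.cons r y) = true)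

lemma normF_matrix {U : Type} (ev : Bool) (m d : ℕ) (A : Str (srcVt m d) U)
    (S : Finset (Fin 1 → U)) (S' : Finset U) (hS : ∀ u : U, u ∈ S' ↔ (fun _ => u) ∈ S)
    (a : Vars (fun _ => d + 1) m → U) (r y : Fin (d + 1) → U) :
    (normF ev m d).ψ.Holds A S (Sum.elim (Sum.elim a r) y) ↔
      matN ev d S' (fun t : Fin (d + 2) → U => A (0 : Fin 1)
        (Fin.append (fun i : Fin m => a (vv d m i)) t)) (r 0) y := by
  have hE : (eAt m d).Holds A S (Sum.elim (Sum.elim a r) y) ↔
      A (0 : Fin 1) (Fin.append (fun i : Fin m => a (vv d m i))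
        (Fin.cons (r 0) y : Fin (d + 2) → U)) = true := by
    simp only [eAt, QF.Holds]
    have h1 : (fun i => (Sum.elim (Sum.elim a r) y :
        (Vars (fun _ => d + 1) m ⊕ Fin (d + 1)) ⊕ Fin (d + 1) → U) (args m d i)) =
        Fin.append (fun i : Fin m => a (vv d m i)) (Fin.cons (r 0) y : Fin (d + 2) → U) := by
      funext i
      refine Fin.addCases (fun i => ?_) (fun i => ?_) i
      · simp only [args, Fin.append_left, Sum.elim_inl]
      · simp only [args, Fin.append_right]
        refine Fin.cases ?_ (fun j => ?_) i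
        · simp only [Fin.cons_zero, Sum.elim_inl, Sum.elim_inr]
        · simp only [Fin.cons_succ, Sum.elim_inr]
    exact iff_of_eq (congrArg (fun w => A (0 : Fin 1) w = true) h1)
  have hX : ∀ j : Fin d, (xAtP m d j).Holds A S (Sum.elim (Sum.elim a r) y) ↔ y j.succ ∈ S' := by
    intro j
    rw [hS]
    exact Iff.rfl
  cases ev with
  | true =>
    have h2 := holds_conjs (eAt m d) A S
      (Sum.elim (Sum.elim a r) y : Vars (fun _ => d + 1) (m + 2) → U) d (xAtP m d)
    refine Iff.trans h2 ?_
    simp only [matN, if_true]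
    constructor
    · rintro ⟨h3, h4⟩
      exact ⟨fun j => (hX j).mp (h4 j), hE.mp h3⟩
    · rintro ⟨h3, h4⟩
      exact ⟨hE.mpr h4, fun j => (hX j).mpr (h3 j)⟩
  | false =>
    have h2 := holds_conjs (QF.not (eAt m d)) A S
      (Sum.elim (Sum.elim a r) y : Vars (fun _ => d + 1) (m + 2) → U) d (xAtP m d)
    refine Iff.trans (not_congr h2) ?_
    simp only [matN, Bool.false_eq_true, if_false]
    constructor
    · intro h3 h4
      by_contra h5
      exact h3 ⟨fun h6 => h5 (hE.mp h6), fun j => (hX j).mpr (h4 j)⟩
    · rintro h3 ⟨h4, h5⟩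
      exact h4 (hE.mpr (h3 fun j => (hX j).mp (h5 j)))

/-- componentwise maps of tuples -/
def mapT {X J : ℕ → Type} (f : ∀ i, X i → J i) : (n : ℕ) → Tup X n → Tup J n
  | 0, _ => ()
  | n + 1, v => (mapT f n v.1, f n v.2)

lemma alt_surj {X J : ℕ → Type} (f : ∀ i, X i → J i) (n : ℕ)
    (hf : ∀ i, i < n → Function.Surjective (f i)) :
    ∀ G : Tup J n → Prop, alt X n (fun v => G (mapT f n v)) ↔ alt J n G := by
  induction n with
  | zero => intro G; exact Iff.rfl
  | succ n ih =>
    intro G
    have h1 := ih (fun i hi => hf i (by omega)) (fun v => lev n (fun x => G (v, x)))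
    refine Iff.trans ?_ h1
    change alt X n (fun v => lev n (fun x => G (mapT f n v, f n x))) ↔ _
    apply alt_congr
    intro v
    exact lev_surj n (f n) (hf n (by omega)) (fun y => G (mapT f n v, y))

lemma alt_and_const {J : ℕ → Type} (n : ℕ) (hJ : ∀ i, i < n → Nonempty (J i)) (P : Prop) :
    ∀ G : Tup J n → Prop, alt J n (fun v => P ∧ G v) ↔ P ∧ alt J n G := by
  induction n with
  | zero => intro G; exact Iff.rfl
  | succ n ih =>
    intro G
    have h1 := ih (fun i hi => hJ i (by omega)) (fun v => lev n (fun x => G (v, x)))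
    refine Iff.trans ?_ h1
    change alt J n (fun v => lev n (fun x => P ∧ G (v, x))) ↔ _
    apply alt_congr
    intro v
    obtain ⟨x0⟩ := hJ n (by omega)
    rcases Nat.mod_two_eq_zero_or_one n with hn | hn
    · rw [lev_even hn, lev_even hn]
      exact ⟨fun h => ⟨(h x0).1, fun x => (h x).2⟩, fun h x => ⟨h.1, h.2 x⟩⟩
    · rw [lev_odd hn, lev_odd hn]
      exact ⟨fun ⟨x, h⟩ => ⟨h.1, x, h.2⟩, fun ⟨h1, x, h2⟩ => ⟨x, h1, h2⟩⟩

/-- tuples as functions -/
def frT {U : Type} : (n : ℕ) → Tup (fun _ => U) n → (Fin n → U)
  | 0, _ => fun i => i.elim0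
  | n + 1, v => fun i => if h : i.val < n then frT n v.1 ⟨i.val, h⟩ else v.2

lemma frT_toT {U : Type} (n : ℕ) (x : Fin n → U) : frT n (toT n x) = x := by
  induction n with
  | zero => funext i; exact i.elim0
  | succ n ih =>
    funext i
    simp only [frT, toT]
    split_ifs with h
    · rw [ih]
      rfl
    · have : i = Fin.last n := Fin.ext (by simp; omega)
      rw [this]

lemma toT_frT {U : Type} (n : ℕ) (v : Tup (fun _ => U) n) : toT n (frT n v) = v := by
  induction n with
  | zero => rfl
  | succ n ih =>
    have h1 : (fun i : Fin n => frT (n + 1) v i.castSucc) = frT n v.1 := by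
      funext i
      simp only [frT]
      rw [dif_pos (by simp)]
      rfl
    have h2 : frT (n + 1) v (Fin.last n) = v.2 := by
      simp only [frT]
      rw [dif_neg (by simp)]
    simp only [toT]
    rw [h1, h2, ih]
    rfl

lemma proj0_eq {U : Type} (d n : ℕ) (v : Tup (fun _ => Fin (d + 1) → U) n) :
    proj0 d n v = mapT (X := fun _ => Fin (d + 1) → U) (J := fun _ => U) (fun _ u => u 0) n v := by
  induction n with
  | zero => rfl
  | succ n ih => simp only [proj0, mapT, ih]

lemma sset_iff {U : Type} (S : Finset (Fin 1 → U)) (u : U) :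
    u ∈ S.image (fun w => w 0) ↔ (fun _ => u) ∈ S := by
  constructor
  · intro h
    obtain ⟨w, hw, he⟩ := Finset.mem_image.mp h
    have : w = fun _ => u := by
      funext i
      have : i = 0 := Subsingleton.elim _ _
      rw [this]; exact he
    rw [← this]; exact hw
  · intro h
    exact Finset.mem_image.mpr ⟨_, h, rfl⟩

/-- the problem of the normal form -/
theorem normF_WD {W : Type} [Nonempty W] (ev : Bool) (m d : ℕ) (B : Str (srcVt m d) W) (K : ℕ) :
    WDF (normF ev m d) B K ↔ ∃ S : Finset W, S.card = K ∧
      alt (fun _ => W) m (fun v => lev m (fun r : W => lev (m + 1) (fun y : Fin (d + 1) → W =>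
        matN ev d S (fun t : Fin (d + 2) → W => B (0 : Fin 1) (Fin.append (frT m v) t)) r y))) := by
  have key : ∀ (S : Finset (Fin 1 → W)) (S' : Finset W), (∀ u : W, u ∈ S' ↔ (fun _ => u) ∈ S) →
      ((normF ev m d).Holds B S ↔
        alt (fun _ => W) m (fun v => lev m (fun r : W => lev (m + 1) (fun y : Fin (d + 1) → W =>
          matN ev d S' (fun t : Fin (d + 2) → W => B (0 : Fin 1) (Fin.append (frT m v) t))
            r y)))) := by
    intro S S' hSS
    unfold PiF.Holds
    rw [quant_alt]
    have h4 : alt (fun _ => Fin (d + 1) → W) (m + 2) (fun v => (normF ev m d).ψ.Holds B S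
        (asg (fun _ => d + 1) (m + 2) v)) ↔
        alt (fun _ => Fin (d + 1) → W) m (fun v =>
          lev m (fun r : Fin (d + 1) → W => lev (m + 1) (fun y : Fin (d + 1) → W =>
          (normF ev m d).ψ.Holds B S
            (Sum.elim (Sum.elim (asg (fun _ => d + 1) m v) r) y)))) := Iff.rfl
    refine Iff.trans h4 ?_
    have h1 : ∀ v : Tup (fun _ => Fin (d + 1) → W) m,
        (lev m (fun r : Fin (d + 1) → W => lev (m + 1) (fun y : Fin (d + 1) → W =>
          (normF ev m d).ψ.Holds B S
            (Sum.elim (Sum.elim (asg (fun _ => d + 1) m v) r) y))) ↔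
        (fun v' : Tup (fun _ => W) m => lev m (fun r : W =>
          lev (m + 1) (fun y : Fin (d + 1) → W =>
          matN ev d S' (fun t : Fin (d + 2) → W => B (0 : Fin 1) (Fin.append (frT m v') t)) r y)))
          (mapT (X := fun _ => Fin (d + 1) → W) (J := fun _ => W) (fun _ u => u 0) m v)) := by
      intro v
      simp only
      rw [← lev_surj m (fun r : Fin (d + 1) → W => r 0) (fun u => ⟨fun _ => u, rfl⟩)]
      apply lev_congr
      intro r
      apply lev_congr
      intro y
      rw [normF_matrix ev m d B S S' hSS]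
      have h2 : (fun i : Fin m => asg (fun _ => d + 1) m v (vv d m i)) =
          frT m (mapT (X := fun _ => Fin (d + 1) → W) (J := fun _ => W) (fun _ u => u 0) m v) := by
        rw [← proj0_eq, ← toT_asg, frT_toT]
      rw [h2]
    rw [alt_congr _ h1]
    exact alt_surj (X := fun _ => Fin (d + 1) → W) (J := fun _ => W) (fun _ u => u 0) m
      (fun _ _ u => ⟨fun _ => u, rfl⟩)
      (fun v' : Tup (fun _ => W) m => lev m (fun r : W =>
          lev (m + 1) (fun y : Fin (d + 1) → W =>
          matN ev d S' (fun t : Fin (d + 2) → W => B (0 : Fin 1) (Fin.append (frT m v') t)) r y)))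
  constructor
  · rintro ⟨S, hS, hA⟩
    have hinj : Function.Injective (fun w : Fin 1 → W => w 0) := by
      intro w w' h
      funext i
      have : i = 0 := Subsingleton.elim _ _
      rw [this]; exact h
    refine ⟨S.image (fun w => w 0), by rw [Finset.card_image_of_injective _ hinj, hS], ?_⟩
    rw [← key S (S.image (fun w => w 0)) (sset_iff S)]
    exact hA
  · rintro ⟨S, hS, hA⟩
    refine ⟨S.image (fun u => fun _ => u), ?_, ?_⟩
    · rw [Finset.card_image_of_injective, hS]
      intro u u' h
      exact congrFun h 0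
    · rw [key (S.image (fun u => fun _ => u)) S ?_]
      · exact hA
      · intro u
        constructor
        · intro h; exact Finset.mem_image_of_mem _ h
        · intro h
          obtain ⟨u', hu', he⟩ := Finset.mem_image.mp h
          have : u' = u := congrFun he 0
          rw [← this]; exact hu'

/-- scanning for invalid components -/
lemma alt_scan {W : ℕ → Type} (ok : ∀ i, W i → Prop) (n : ℕ) (hne : ∀ i, i < n → Nonempty (W i))
    (F : Tup W n → Prop) (G : Tup (fun i => {x : W i // ok i x}) n → Prop)
    (h1 : ∀ x, F (mapT (X := fun i => {x : W i // ok i x}) (fun _ y => y.1) n x) ↔ G x)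
    (h2 : ∀ v b, stt (X := fun i => {x : W i // ok i x})
      (fun i x => if h : ok i x then some ⟨x, h⟩ else none) n v = Sum.inr b → (F v ↔ b = true)) :
    alt W n F ↔ alt (fun i => {x : W i // ok i x}) n G := by
  apply alt_rel (A := W) (X := fun i => {x : W i // ok i x})
    (fun i x => if h : ok i x then some ⟨x, h⟩ else none)
  · intro i x
    exact ⟨x.1, by rw [dif_pos x.2]⟩
  · intro i hi _
    exact hne i hi
  · intro v x hv
    rw [← h1 x]
    have h3 : ∀ (n : ℕ) (v : Tup W n) (x : Tup (fun i => {x : W i // ok i x}) n),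
        stt (X := fun i => {x : W i // ok i x})
          (fun i x => if h : ok i x then some ⟨x, h⟩ else none) n v = Sum.inl x →
        mapT (X := fun i => {x : W i // ok i x}) (fun _ y => y.1) n x = v := by
      intro n
      induction n with
      | zero => intro v x _; rfl
      | succ n ih =>
        intro v x hv
        simp only [stt] at hv
        cases h3 : stt (X := fun i => {x : W i // ok i x})
          (fun i x => if h : ok i x then some ⟨x, h⟩ else none) n v.1 with
        | inr b => rw [h3] at hv; exact absurd hv (by simp)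
        | inl y =>
          rw [h3] at hv
          simp only at hv
          by_cases h4 : ok n v.2
          · rw [dif_pos h4] at hv
            simp only [Sum.inl.injEq] at hv
            rw [← hv]
            simp only [mapT]
            rw [ih v.1 y h3]
            rfl
          · rw [dif_neg h4] at hv
            exact absurd hv (by simp)
    rw [h3 n v x hv]
  · exact h2

end

end Pool.Agent.Helper265_EW.P
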