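import Pool.Agent.Helper265_EW.PForm

set_option linter.unusedSectionVars false

/-! Gaps of a finite set of words. -/

namespace Pool.Agent.Helper265_EW.P

open Finset Classical

noncomputable section

section Order

variable {L : Type} [LinearOrder L] {k : ℕ} {E : ℕ → L}

/-- increasing enumerations of `k` elements -/
def Inc (k : ℕ) (E : ℕ → L) : Prop := ∀ i j, i < j → j < k → E i < E j

/-- the enumerated set -/
def img (k : ℕ) (E : ℕ → L) : Finset L := (range k).image E

lemma img_card (h : Inc k E) : (img k E).card = k := by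
  unfold img
  rw [Finset.card_image_of_injOn, Finset.card_range]
  intro i hi j hj hij
  simp only [Finset.coe_range, Set.mem_Iio] at hi hj
  rcases lt_trichotomy i j with h1 | h1 | h1
  · exact absurd hij (ne_of_lt (h i j h1 hj))
  · exact h1
  · exact absurd hij.symm (ne_of_lt (h j i h1 hi))

lemma exists_inc [Nonempty L] (S : Finset L) (hS : S.card = k) : ∃ E, Inc k E ∧ img k E = S := by
  let f := S.orderEmbOfFin hS
  refine ⟨fun i => if h : i < k then f ⟨i, h⟩ else Classical.arbitrary L, ?_, ?_⟩
  · intro i j hij hj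
    simp only
    rw [dif_pos (by omega), dif_pos hj]
    exact f.strictMono (by simpa using hij)
  · ext x
    unfold img
    simp only [Finset.mem_image, Finset.mem_range]
    constructor
    · rintro ⟨i, hi, rfl⟩
      rw [dif_pos hi]
      exact Finset.orderEmbOfFin_mem S hS _
    · intro hx
      have : x ∈ Set.range f := by
        rw [Finset.range_orderEmbOfFin]; exact hx
      obtain ⟨i, hi⟩ := this
      refine ⟨i.val, i.isLt, ?_⟩
      rw [dif_pos i.isLt]
      exact hi

lemma mem_img_iff (w : L) : w ∈ img k E ↔ ∃ c : Fin (k + 1), c.val ≠ 0 ∧ E (c.val - 1) = w := by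
  unfold img
  simp only [Finset.mem_image, Finset.mem_range]
  constructor
  · rintro ⟨i, hi, he⟩
    exact ⟨⟨i + 1, by omega⟩, by simp, by simpa using he⟩
  · rintro ⟨c, hc, he⟩
    exact ⟨c.val - 1, by have := c.isLt; omega, he⟩

lemma not_mem_img_iff (h : Inc k E) (w : L) :
    w ∉ img k E ↔ ∃ c : Fin (k + 1), (c.val = 0 ∨ E (c.val - 1) < w) ∧
      (c.val = k ∨ w < E c.val) := by
  constructor
  · intro hw
    have hne : ∀ i, i < k → E i ≠ w := by
      intro i hi he
      exact hw (Finset.mem_image.mpr ⟨i, Finset.mem_range.mpr hi, he⟩)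
    have hex : ∃ c, c = k ∨ w < E c := ⟨k, Or.inl rfl⟩
    have hle : Nat.find hex ≤ k := Nat.find_min' hex (Or.inl rfl)
    refine ⟨⟨Nat.find hex, by omega⟩, ?_, Nat.find_spec hex⟩
    simp only
    rcases Nat.eq_zero_or_pos (Nat.find hex) with h0 | h0
    · exact Or.inl h0
    · right
      have h1 := Nat.find_min hex (m := Nat.find hex - 1) (by omega)
      push Not at h1
      exact lt_of_le_of_ne h1.2 (hne _ (by omega))
  · rintro ⟨c, h1, h2⟩ hw
    unfold img at hw
    obtain ⟨i, hi, he⟩ := Finset.mem_image.mp hw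
    rw [Finset.mem_range] at hi
    subst he
    have hc := c.isLt
    rcases Nat.lt_or_ge i c.val with h3 | h3
    · rcases h1 with h1 | h1
      · omega
      · rcases Nat.lt_or_ge i (c.val - 1) with h4 | h4
        · exact absurd (lt_trans h1 (h _ _ h4 (by omega))) (lt_irrefl _)
        · have : i = c.val - 1 := by omega
          rw [this] at h1
          exact lt_irrefl _ h1
    · rcases h2 with h2 | h2
      · omega
      · rcases Nat.lt_or_ge c.val i with h4 | h4
        · exact absurd (lt_trans h2 (h _ _ h4 hi)) (lt_irrefl _)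
        · have : i = c.val := by omega
          rw [this] at h2
          exact lt_irrefl _ h2

end Order

/-- words, ordered lexicographically -/
abbrev Wd (n s : ℕ) : Type := Lex (Fin s → Fin n)

/-- coordinates of a gap: the number and two words -/
abbrev Gx (s : ℕ) : Type := Unit ⊕ (Bool × Fin s)

/-- raw gaps -/
abbrev RG (n k s : ℕ) : Type := Gx s → Base n k

variable {n k s e : ℕ}

def rIx (g : RG n k s) : Base n k := g (Sum.inl ())
def rA (g : RG n k s) : Fin s → Base n k := fun j => g (Sum.inr (false, j))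
def rB (g : RG n k s) : Fin s → Base n k := fun j => g (Sum.inr (true, j))

def isNum (x : Base n k) : Prop := ∃ i : Fin (k + 1), x = Sum.inr i
def isZero (x : Base n k) : Prop := ∃ i : Fin (k + 1), x = Sum.inr i ∧ i.val = 0
def isTop (x : Base n k) : Prop := ∃ i : Fin (k + 1), x = Sum.inr i ∧ i.val = k
def isSuc (x y : Base n k) : Prop :=
  ∃ i j : Fin (k + 1), x = Sum.inr i ∧ y = Sum.inr j ∧ j.val = i.val + 1
def ltB (x y : Base n k) : Prop := ∃ a b : Fin n, x = Sum.inl a ∧ y = Sum.inl b ∧ a < b
def ltR (x y : Fin s → Base n k) : Prop := ∃ i, ltB (x i) (y i) ∧ ∀ j, j < i → x j = y j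

/-- valid gaps -/
def vgap (g : RG n k s) : Prop :=
  isNum (rIx g) ∧ (∀ j, if isZero (rIx g) then isZero (rA g j) else ¬ isNum (rA g j)) ∧
    (∀ j, if isTop (rIx g) then isZero (rB g j) else ¬ isNum (rB g j))

/-- a gap refuting or confirming that a word belongs to the set -/
def witR (g : RG n k s) (w : Fin s → Base n k) (β : Bool) : Prop :=
  if β = true then ¬ isZero (rIx g) ∧ ∀ j, rA g j = w j
  else (isZero (rIx g) ∨ ltR (rA g) w) ∧ (isTop (rIx g) ∨ ltR w (rB g))

def badR (g : RG n k s) : Prop := ¬ isZero (rIx g) ∧ ¬ isTop (rIx g) ∧ ¬ ltR (rA g) (rB g)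

/-- conflicting gaps -/
def cflR (g g' : RG n k s) : Prop :=
  badR g ∨ (rIx g = rIx g' ∧ ∃ y, g y ≠ g' y) ∨ (isSuc (rIx g) (rIx g') ∧ ∃ j, rB g j ≠ rA g' j)

/-- the gap with number `c` and words `a` and `b` -/
def mkG (c : Fin (k + 1)) (a b : Fin s → Fin n) : RG n k s :=
  Sum.elim (fun _ => Sum.inr c) (fun p => if p.1 = true then
    (if c.val = k then Sum.inr 0 else Sum.inl (b p.2)) else
    (if c.val = 0 then Sum.inr 0 else Sum.inl (a p.2)))

lemma rIx_mk (c : Fin (k + 1)) (a b : Fin s → Fin n) : rIx (mkG c a b) = Sum.inr c := rfl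

lemma rA_mk (c : Fin (k + 1)) (a b : Fin s → Fin n) (j : Fin s) :
    rA (mkG c a b) j = if c.val = 0 then Sum.inr 0 else Sum.inl (a j) := by
  simp [rA, mkG]

lemma rB_mk (c : Fin (k + 1)) (a b : Fin s → Fin n) (j : Fin s) :
    rB (mkG c a b) j = if c.val = k then Sum.inr 0 else Sum.inl (b j) := by
  simp [rB, mkG]

lemma isZero_inr (c : Fin (k + 1)) : isZero (n := n) (Sum.inr c) ↔ c.val = 0 := by
  constructor
  · rintro ⟨i, hi, h⟩
    rw [Sum.inr.inj hi]; exact h
  · intro h; exact ⟨c, rfl, h⟩

lemma isTop_inr (c : Fin (k + 1)) : isTop (n := n) (Sum.inr c) ↔ c.val = k := by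
  constructor
  · rintro ⟨i, hi, h⟩
    rw [Sum.inr.inj hi]; exact h
  · intro h; exact ⟨c, rfl, h⟩

lemma isSuc_inr (c c' : Fin (k + 1)) : isSuc (n := n) (Sum.inr c) (Sum.inr c') ↔
    c'.val = c.val + 1 := by
  constructor
  · rintro ⟨i, j, hi, hj, h⟩
    rw [Sum.inr.inj hi, Sum.inr.inj hj]; exact h
  · intro h; exact ⟨c, c', rfl, rfl, h⟩

lemma isNum_inl (a : Fin n) : ¬ isNum (k := k) (Sum.inl a) := by
  rintro ⟨i, hi⟩
  exact absurd hi (by simp)

lemma not_isNum {x : Base n k} (h : ¬ isNum x) : ∃ a, x = Sum.inl a := by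
  cases x with
  | inl a => exact ⟨a, rfl⟩
  | inr i => exact absurd ⟨i, rfl⟩ h

lemma ltR_inl (a b : Fin s → Fin n) :
    ltR (k := k) (fun j => Sum.inl (a j)) (fun j => Sum.inl (b j)) ↔
      (toLex a : Wd n s) < toLex b := by
  constructor
  · rintro ⟨i, ⟨x, y, hx, hy, hxy⟩, h⟩
    refine ⟨i, fun j hj => Sum.inl.inj (h j hj), ?_⟩
    rw [← Sum.inl.inj hx, ← Sum.inl.inj hy] at hxy
    exact hxy
  · rintro ⟨i, h1, h2⟩
    exact ⟨i, ⟨_, _, rfl, rfl, h2⟩, fun j hj => congrArg Sum.inl (h1 j hj)⟩

lemma vgap_mk (c : Fin (k + 1)) (a b : Fin s → Fin n) : vgap (mkG c a b) := by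
  refine ⟨⟨c, rfl⟩, fun j => ?_, fun j => ?_⟩
  · rw [rIx_mk, rA_mk]
    by_cases h : c.val = 0
    · rw [if_pos ((isZero_inr c).mpr h), if_pos h]
      exact ⟨0, rfl, rfl⟩
    · rw [if_neg (fun h' => h ((isZero_inr c).mp h')), if_neg h]
      exact isNum_inl _
  · rw [rIx_mk, rB_mk]
    by_cases h : c.val = k
    · rw [if_pos ((isTop_inr c).mpr h), if_pos h]
      exact ⟨0, rfl, rfl⟩
    · rw [if_neg (fun h' => h ((isTop_inr c).mp h')), if_neg h]
      exact isNum_inl _

lemma vgap_ex (hn : 0 < n) {g : RG n k s} (h : vgap g) :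
    ∃ (c : Fin (k + 1)) (a b : Fin s → Fin n), g = mkG c a b := by
  obtain ⟨⟨c, hc⟩, h1, h2⟩ := h
  rw [hc] at h1 h2
  simp only [isZero_inr, isTop_inr] at h1 h2
  have ha : ∃ a : Fin s → Fin n, ∀ j, rA g j = if c.val = 0 then Sum.inr 0 else Sum.inl (a j) := by
    by_cases h : c.val = 0
    · refine ⟨fun _ => ⟨0, hn⟩, fun j => ?_⟩
      have := h1 j
      rw [if_pos h] at this ⊢
      obtain ⟨i, hi, hi0⟩ := this
      rw [hi]
      congr 1
      exact Fin.ext (by simpa using hi0)
    · have h3 : ∀ j, ∃ a, rA g j = Sum.inl a := by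
        intro j
        have := h1 j
        rw [if_neg h] at this
        exact not_isNum this
      choose a ha using h3
      exact ⟨a, fun j => by rw [if_neg h]; exact ha j⟩
  have hb : ∃ b : Fin s → Fin n, ∀ j, rB g j = if c.val = k then Sum.inr 0 else Sum.inl (b j) := by
    by_cases h : c.val = k
    · refine ⟨fun _ => ⟨0, hn⟩, fun j => ?_⟩
      have := h2 j
      rw [if_pos h] at this ⊢
      obtain ⟨i, hi, hi0⟩ := this
      rw [hi]
      congr 1
      exact Fin.ext (by simpa using hi0)
    · have h3 : ∀ j, ∃ a, rB g j = Sum.inl a := by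
        intro j
        have := h2 j
        rw [if_neg h] at this
        exact not_isNum this
      choose b hb using h3
      exact ⟨b, fun j => by rw [if_neg h]; exact hb j⟩
  obtain ⟨a, ha⟩ := ha
  obtain ⟨b, hb⟩ := hb
  refine ⟨c, a, b, ?_⟩
  funext y
  rcases y with y | ⟨bb, j⟩
  · exact hc
  · cases bb with
    | true =>
      have := hb j
      rw [← rB_mk c a b] at this
      exact this
    | false =>
      have := ha j
      rw [← rA_mk c a b] at this
      exact this

/-- the `c`-th gap of a chain -/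
def gpR (E : ℕ → Wd n s) (c : Fin (k + 1)) : RG n k s :=
  mkG c (ofLex (E (c.val - 1))) (ofLex (E c.val))

lemma gpR_inj (E : ℕ → Wd n s) {c c' : Fin (k + 1)} (h : gpR E c = gpR E c') : c = c' := by
  have := congrArg rIx h
  exact Sum.inr.inj this

lemma gpR_cfl {E : ℕ → Wd n s} (hE : Inc k E) (c c' : Fin (k + 1)) :
    ¬ cflR (gpR E c) (gpR E c') := by
  rintro (⟨h1, h2, h3⟩ | ⟨h1, y, h2⟩ | ⟨h1, j, h2⟩)
  · unfold gpR at h1 h2 h3
    rw [rIx_mk, isZero_inr] at h1
    rw [rIx_mk, isTop_inr] at h2
    apply h3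
    have ha : rA (mkG c (ofLex (E (c.val - 1))) (ofLex (E c.val)) : RG n k s) =
        fun j => Sum.inl (ofLex (E (c.val - 1)) j) := by
      funext j; rw [rA_mk, if_neg h1]
    have hb : rB (mkG c (ofLex (E (c.val - 1))) (ofLex (E c.val)) : RG n k s) =
        fun j => Sum.inl (ofLex (E c.val) j) := by
      funext j; rw [rB_mk, if_neg h2]
    rw [ha, hb, ltR_inl]
    exact hE _ _ (by omega) (by have := c.isLt; omega)
  · have : c = c' := Sum.inr.inj h1
    subst this
    exact h2 rfl
  · unfold gpR at h1 h2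
    rw [rIx_mk, rIx_mk, isSuc_inr] at h1
    rw [rB_mk, rA_mk] at h2
    rw [if_neg (by have := c'.isLt; omega), if_neg (by omega)] at h2
    apply h2
    have : c'.val - 1 = c.val := by omega
    rw [this]

lemma gpR_wit {E : ℕ → Wd n s} (hE : Inc k E) (w : Fin s → Fin n) (β : Bool) :
    (∃ c : Fin (k + 1), witR (gpR E c) (fun j => Sum.inl (w j)) β) ↔
      decide ((toLex w : Wd n s) ∈ img k E) = β := by
  have hA : ∀ c : Fin (k + 1), c.val ≠ 0 → rA (gpR E c : RG n k s) =
      fun j => Sum.inl (ofLex (E (c.val - 1)) j) := by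
    intro c hc; funext j; unfold gpR; rw [rA_mk, if_neg hc]
  have hB : ∀ c : Fin (k + 1), c.val ≠ k → rB (gpR E c : RG n k s) =
      fun j => Sum.inl (ofLex (E c.val) j) := by
    intro c hc; funext j; unfold gpR; rw [rB_mk, if_neg hc]
  have hI : ∀ c : Fin (k + 1), rIx (gpR E c : RG n k s) = Sum.inr c := fun c => rfl
  cases β with
  | true =>
    rw [decide_eq_true_iff, mem_img_iff]
    apply exists_congr
    intro c
    unfold witR
    rw [if_pos rfl, hI, isZero_inr]
    constructor
    · rintro ⟨h1, h2⟩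
      refine ⟨h1, ?_⟩
      have h3 : ofLex (E (c.val - 1)) = w := by
        funext j
        have := h2 j
        rw [hA c h1] at this
        exact Sum.inl.inj this
      rw [← h3]; rfl
    · rintro ⟨h1, h2⟩
      refine ⟨h1, fun j => ?_⟩
      rw [hA c h1]
      simp only
      rw [h2]; rfl
  | false =>
    rw [decide_eq_false_iff_not, not_mem_img_iff hE]
    apply exists_congr
    intro c
    unfold witR
    rw [if_neg (by simp), hI, isZero_inr, isTop_inr]
    apply and_congr
    · constructor
      · rintro (h | h)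
        · exact Or.inl h
        · by_cases hc : c.val = 0
          · exact Or.inl hc
          · right
            rw [hA c hc, ltR_inl] at h
            exact h
      · rintro (h | h)
        · exact Or.inl h
        · by_cases hc : c.val = 0
          · exact Or.inl hc
          · right
            rw [hA c hc, ltR_inl]
            exact h
    · constructor
      · rintro (h | h)
        · exact Or.inl h
        · by_cases hc : c.val = k
          · exact Or.inl hc
          · right
            rw [hB c hc, ltR_inl] at h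
            exact h
      · rintro (h | h)
        · exact Or.inl h
        · by_cases hc : c.val = k
          · exact Or.inl hc
          · right
            rw [hB c hc, ltR_inl]
            exact h

end

end Pool.Agent.Helper265_EW.P
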