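import Pool.Agent.Helper265_EW.PSem

set_option linter.unusedSectionVars false

/-! The main relation and the truth of the matrix. -/

namespace Pool.Agent.Helper265_EW.P

open Finset Classical Pool.Agent.Helper265_EW.G

noncomputable section

/-- evaluation and truth -/
lemma eval_holds {τ : Voc} {s : ℕ} {V U : Type} (A : Str τ U) (S : Finset (Fin s → U))
    (a : V → U) (ρ : ∀ R : Fin τ.num, (Fin (τ.ar R) → V) → Bool) (η : V → V → Bool)
    (ξ : (Fin s → V) → Bool) (hρ : ∀ R v, ρ R v = true ↔ A R (fun i => a (v i)) = true)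
    (hη : ∀ u v, η u v = true ↔ a u = a v)
    (hξ : ∀ v, ξ v = true ↔ (fun i => a (v i)) ∈ S) (ψ : QF τ s V) :
    ψ.eval ρ η ξ = true ↔ ψ.Holds A S a := by
  induction ψ with
  | rel R v => exact hρ R v
  | eq u v => exact hη u v
  | mem v => exact hξ v
  | not ψ ih =>
    simp only [QF.eval, QF.Holds]
    rw [← ih]
    simp
  | and ψ χ ih1 ih2 =>
    simp only [QF.eval, QF.Holds, Bool.and_eq_true]
    rw [ih1, ih2]

section Hit

variable {τ : Voc} {s m : ℕ} {φ : PiF τ s (m + 2)} {d' e' : ℕ}
variable {n k : ℕ} (A : Str τ (Fin n))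

/-- valid elements of level `i` -/
abbrev XX (φ : PiF τ s (m + 2)) (d' e' : ℕ) (k : ℕ) (A : Str τ (Fin n)) (i : ℕ) : Type :=
  {x : WW φ d' e' k A // okS x.1 i}

/-- forget validity -/
abbrev fg (x : Tup (XX φ d' e' k A) (m + 1)) : Tup (fun _ => WW φ d' e' k A) (m + 1) :=
  mapT (X := XX φ d' e' k A) (J := fun _ => WW φ d' e' k A) (fun _ y => y.1) (m + 1) x

variable {A}

/-- the block coded by an element -/
def blk (hn : 0 < n) (i : ℕ) (x : VE φ d' e' n k) : Fin (φ.len i) → Fin n := fun j =>
  if h : i < m + 2 then (match x.2 (Sum.inl ⟨⟨i, h⟩, j⟩) with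
    | Sum.inl a => a
    | Sum.inr _ => ⟨0, hn⟩) else ⟨0, hn⟩

lemma blk_spec (hn : 0 < n) (i : ℕ) (x : VE φ d' e' n k) (hx : okS x i) (h : i < m + 2)
    (j : Fin (φ.len i)) : x.2 (Sum.inl ⟨⟨i, h⟩, j⟩) = Sum.inl (blk hn i x j) := by
  obtain ⟨a, ha⟩ := not_isNum (hx.2.1 ⟨i, h⟩ j rfl)
  rw [ha]
  unfold blk
  rw [dif_pos h, ha]

/-- the assignment coded by valid elements -/
def asX (hn : 0 < n) (N : ℕ) (x : Tup (XX φ d' e' k A) N) : Vars φ.len N → Fin n :=
  asg φ.len N (mapT (X := XX φ d' e' k A) (J := fun i => Fin (φ.len i) → Fin n)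
    (fun i y => blk hn i y.1.1) N x)

lemma asX_spec (hn : 0 < n) (N : ℕ) (hN : N ≤ m + 2) (x : Tup (XX φ d' e' k A) N)
    (v : Vars φ.len N) :
    (frT N (mapT (X := XX φ d' e' k A) (J := fun _ => WW φ d' e' k A) (fun _ y => y.1) N x)
      ⟨lv φ.len N v, lv_lt _ _ _⟩).1.2
        (Sum.inl ⟨⟨lv φ.len N v, lt_of_lt_of_le (lv_lt _ _ _) hN⟩, ix φ.len N v⟩) =
      Sum.inl (asX hn N x v) := by
  induction N with
  | zero => exact v.elim
  | succ N ih =>
    cases v with
    | inl v =>
      have h := ih (by omega) x.1 v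
      simp only [frT, mapT, lv, ix, asX, asg] at h ⊢
      rw [dif_pos (lv_lt _ _ _)]
      exact h
    | inr j =>
      have h := blk_spec hn N x.2.1.1 x.2.2 (by omega) j
      simp only [frT, mapT, lv, ix, asX, asg]
      rw [dif_neg (lt_irrefl _)]
      exact h

lemma frT_ok (N : ℕ) (x : Tup (XX φ d' e' k A) N) (i : Fin N) :
    okS (frT N (mapT (X := XX φ d' e' k A) (J := fun _ => WW φ d' e' k A) (fun _ y => y.1) N x)
      i).1 i.val := by
  induction N with
  | zero => exact i.elim0
  | succ N ih =>
    simp only [frT, mapT]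
    by_cases h : i.val < N
    · rw [dif_pos h]
      exact ih x.1 ⟨i.val, h⟩
    · rw [dif_neg h]
      have : i.val = N := by have := i.isLt; omega
      rw [this]
      exact x.2.2

/-- the arguments -/
abbrev tt (x : Tup (XX φ d' e' k A) (m + 1)) (y : Fin (d' + 1 + 1) → WW φ d' e' k A) :
    Ps m d' → VE φ d' e' n k := fun p => (asm (fg A x) y p).1

lemma tt_m (x : Tup (XX φ d' e' k A) (m + 1)) (y : Fin (d' + 1 + 1) → WW φ d' e' k A) :
    tt x y (po m d' m) = x.2.1.1 := by
  unfold tt
  rw [asm_po _ _ m (by omega)]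
  simp only [frT, mapT]
  rw [dif_neg (lt_irrefl _)]

lemma tt_last (x : Tup (XX φ d' e' k A) (m + 1)) (y : Fin (d' + 1 + 1) → WW φ d' e' k A) :
    tt x y (po m d' (m + 1)) = (y 0).1 := by
  unfold tt
  rw [asm_last]

lemma tt_zp (x : Tup (XX φ d' e' k A) (m + 1)) (y : Fin (d' + 1 + 1) → WW φ d' e' k A)
    (j : Fin (d' + 1)) : tt x y (zp m d' j) = (y j.succ).1 := by
  unfold tt
  rw [asm_zp]

lemma rwd_inl (hn : 0 < n) (x : Tup (XX φ d' e' k A) (m + 1))
    (y : Fin (d' + 1 + 1) → WW φ d' e' k A) (v : Vars φ.len (m + 1)) :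
    rwd (tt x y) (Sum.inl v) = Sum.inl (asX hn (m + 1) x v) := by
  have h := asX_spec hn (m + 1) (by omega) x v
  unfold rwd tt
  simp only [lv, ix]
  rw [asm_po _ _ _ (lv_lt _ _ _)]
  exact h

lemma rwd_inr (x : Tup (XX φ d' e' k A) (m + 1))
    (y : Fin (d' + 1 + 1) → WW φ d' e' k A) (j : Fin (φ.len (m + 1))) :
    rwd (tt x y) (Sum.inr j) = (y 0).1.2 (Sum.inl ⟨⟨m + 1, by omega⟩, j⟩) := by
  have h := tt_last x y
  unfold rwd
  simp only [lv, ix]
  rw [h]

lemma outer_inl {v : Fin s → Vars φ.len (m + 2)} (hv : ¬ inn φ v) (i : Fin s) :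
    ∃ v' : Vars φ.len (m + 1), v i = Sum.inl v' := by
  unfold inn at hv
  push Not at hv
  have h := hv i
  cases hvi : v i with
  | inl v' => exact ⟨v', rfl⟩
  | inr j =>
    rw [hvi] at h
    exact absurd trivial h

/-- full assignments -/
def full (hn : 0 < n) (x : Tup (XX φ d' e' k A) (m + 1)) (b : Fin (φ.len (m + 1)) → Fin n) :
    Vars φ.len (m + 2) → Fin n := Sum.elim (asX hn (m + 1) x) b

lemma rwd_outer (hn : 0 < n) (x : Tup (XX φ d' e' k A) (m + 1))
    (y : Fin (d' + 1 + 1) → WW φ d' e' k A) (b : Fin (φ.len (m + 1)) → Fin n)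
    {v : Fin s → Vars φ.len (m + 2)} (hv : ¬ inn φ v) :
    (fun i => rwd (tt x y) (v i)) = fun i => Sum.inl (full hn x b (v i)) := by
  funext i
  obtain ⟨v', h⟩ := outer_inl hv i
  rw [h, rwd_inl hn x y v']
  rfl

lemma rwd_full (hn : 0 < n) (x : Tup (XX φ d' e' k A) (m + 1))
    (y : Fin (d' + 1 + 1) → WW φ d' e' k A) (b : Fin (φ.len (m + 1)) → Fin n)
    (hb : ∀ j, (y 0).1.2 (Sum.inl ⟨⟨m + 1, by omega⟩, j⟩) = Sum.inl (b j))
    (v : Vars φ.len (m + 2)) : rwd (tt x y) v = Sum.inl (full hn x b v) := by
  cases v with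
  | inl v => rw [rwd_inl hn x y v]; rfl
  | inr j => rw [rwd_inr, hb]; rfl

/-- the set coded by a chain -/
def S0 (k : ℕ) (E : ℕ → Wd n s) : Finset (Fin s → Fin n) := (img k E).image ofLex

lemma mem_S0 (E : ℕ → Wd n s) (w : Fin s → Fin n) : w ∈ S0 k E ↔ toLex w ∈ img k E := by
  unfold S0
  constructor
  · intro h
    obtain ⟨u, hu, rfl⟩ := Finset.mem_image.mp h
    exact hu
  · intro h
    exact Finset.mem_image.mpr ⟨_, h, rfl⟩

lemma S0_card {E : ℕ → Wd n s} (hE : Inc k E) : (S0 k E).card = k := by
  unfold S0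
  rw [Finset.card_image_of_injective _ ofLex.injective, img_card hE]

lemma wit_S0 {E : ℕ → Wd n s} (hE : Inc k E) (w : Fin s → Fin n) (β : Bool) :
    (∃ c : Fin (k + 1), witR (gpR E c) (fun j => Sum.inl (w j)) β) ↔ decide (w ∈ S0 k E) = β := by
  rw [gpR_wit hE]
  have : decide ((toLex w : Wd n s) ∈ img k E) = decide (w ∈ S0 k E) := by
    rw [decide_eq_decide, mem_S0]
  rw [this]

/-- hitting the main relation -/
def HIT (A : Str τ (Fin n)) (bb : Bool) (S : Finset (WW φ d' e' k A))
    (x : Tup (XX φ d' e' k A) (m + 1)) : Prop :=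
  ∃ y : Fin (d' + 1 + 1) → WW φ d' e' k A, (∀ j : Fin (d' + 1), y j.succ ∈ S) ∧
    mainS A bb (tt x y)

lemma eval_eq (hn : 0 < n) (bb : Bool) (E : ℕ → Wd n s) (x : Tup (XX φ d' e' k A) (m + 1))
    (y : Fin (d' + 1 + 1) → WW φ d' e' k A) (b : Fin (φ.len (m + 1)) → Fin n)
    (hb : ∀ j, (y 0).1.2 (Sum.inl ⟨⟨m + 1, by omega⟩, j⟩) = Sum.inl (b j)) :
    φ.ψ.eval (rhS A (tt x y)) (etS (tt x y))
      (fun v => decide ((fun i => full hn x b (v i)) ∈ S0 k E)) = bb ↔
      (φ.ψ.Holds A (S0 k E) (full hn x b) ↔ bb = true) := by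
  have h3 : φ.ψ.eval (rhS A (tt x y)) (etS (tt x y))
      (fun v => decide ((fun i => full hn x b (v i)) ∈ S0 k E)) = true ↔
      φ.ψ.Holds A (S0 k E) (full hn x b) := by
    apply eval_holds
    · intro R v
      unfold rhS
      rw [decide_eq_true_iff]
      constructor
      · rintro ⟨a, ha, h'⟩
        have : a = fun i => full hn x b (v i) := by
          funext i
          have := ha i
          rw [rwd_full hn x y b hb] at this
          exact (Sum.inl.inj this).symm
        rw [this] at h'
        exact h'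
      · intro h
        exact ⟨_, fun i => rwd_full hn x y b hb _, h⟩
    · intro u v
      unfold etS
      rw [rwd_full hn x y b hb, rwd_full hn x y b hb, decide_eq_true_iff]
      exact ⟨fun h => Sum.inl.inj h, fun h => congrArg Sum.inl h⟩
    · intro v
      exact decide_eq_true_iff
  cases bb with
  | true =>
    rw [h3]
    simp
  | false =>
    rw [← h3]
    simp

/-- wrong guesses of outer atoms -/
def wrong (hn : 0 < n) (E : ℕ → Wd n s) (x : Tup (XX φ d' e' k A) (m + 1)) : Prop :=
  ∃ v : Fin s → Vars φ.len (m + 2), ¬ inn φ v ∧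
    sgm x.2.1.1.1 v ≠ decide ((fun i => full hn x (fun _ => ⟨0, hn⟩) (v i)) ∈ S0 k E)

lemma full_outer (hn : 0 < n) (x : Tup (XX φ d' e' k A) (m + 1))
    (b b' : Fin (φ.len (m + 1)) → Fin n) {v : Fin s → Vars φ.len (m + 2)} (hv : ¬ inn φ v) :
    (fun i => full hn x b (v i)) = fun i => full hn x b' (v i) := by
  funext i
  obtain ⟨v', h⟩ := outer_inl hv i
  rw [h]
  rfl

theorem hit_iff (hn : 0 < n) (bb : Bool)
    (hw : φ.ψ.Cert (inn φ) bb ((d' + 1) * (e' + 1))) {E : ℕ → Wd n s}
    (hE : Inc k E) (x : Tup (XX φ d' e' k A) (m + 1)) :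
    HIT A bb (pwS (elW A) E) x ↔ (wrong hn E x ∨
      ∃ b : Fin (φ.len (m + 1)) → Fin n, (φ.ψ.Holds A (S0 k E) (full hn x b) ↔ bb = true)) := by
  constructor
  · rintro ⟨y, hy, h⟩
    have hz : ∀ j : Fin (d' + 1), ∃ c : Fin (e' + 1) → Fin (k + 1), y j.succ = elW A (pwG E c) :=
      fun j => by
        obtain ⟨c, hc⟩ := mem_pwS.mp (hy j)
        exact ⟨c, hc.symm⟩
    choose c hc using hz
    have hgt : ∀ j l, gt (tt x y (zp m d' j)) false l = gpR E (c j l) := by
      intro j l
      rw [tt_zp, hc, gt_elW]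
      rfl
    rcases h with ⟨v, hv, hwit⟩ | ⟨hu, hγ, hev⟩
    · left
      refine ⟨v, hv, ?_⟩
      rw [hgt, rwd_outer hn x y (fun _ => ⟨0, hn⟩) hv, tt_m] at hwit
      have h1 := (wit_S0 hE _ _).mp ⟨_, hwit⟩
      rw [h1]
      simp
    · by_cases hwr : wrong hn E x
      · exact Or.inl hwr
      · right
        rw [tt_last] at hu
        have hb : ∀ j, (y 0).1.2 (Sum.inl ⟨⟨m + 1, by omega⟩, j⟩) =
            Sum.inl (blk hn (m + 1) (y 0).1 j) :=
          fun j => blk_spec hn (m + 1) (y 0).1 hu (by omega) j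
        refine ⟨blk hn (m + 1) (y 0).1, ?_⟩
        rw [← eval_eq hn bb E x y _ hb]
        apply hev
        · intro v hv
          rw [tt_m]
          unfold wrong at hwr
          push Not at hwr
          rw [hwr v hv, full_outer hn x _ (fun _ => ⟨0, hn⟩) hv]
        · intro j l v β hjl
          obtain ⟨h1, h2⟩ := hγ j l v β hjl
          rw [hgt] at h2
          have h3 : (fun i => rwd (tt x y) (v i)) =
              fun i => Sum.inl (full hn x (blk hn (m + 1) (y 0).1) (v i)) := by
            funext i
            exact rwd_full hn x y _ hb (v i)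
          rw [h3] at h2
          exact (wit_S0 hE _ _).mp ⟨_, h2⟩
  · intro h
    by_cases hwr : wrong hn E x
    · obtain ⟨v, hv, hne⟩ := hwr
      have h1 : decide ((fun i => full hn x (fun _ => ⟨0, hn⟩) (v i)) ∈ S0 k E) =
          !(sgm x.2.1.1.1 v) := by
        cases h2 : sgm x.2.1.1.1 v with
        | true => rw [h2] at hne; simpa using hne
        | false => rw [h2] at hne; simpa using hne
      obtain ⟨c, hc⟩ := (wit_S0 hE _ _).mpr h1
      refine ⟨fun _ => elW A (pwG E (fun _ => c)), fun _ => mem_pwS.mpr ⟨_, rfl⟩, Or.inl ?_⟩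
      refine ⟨v, hv, ?_⟩
      rw [tt_zp, gt_elW, rwd_outer hn x _ (fun _ => ⟨0, hn⟩) hv, tt_m]
      exact hc
    · rcases h with h | ⟨b, hb⟩
      · exact absurd h hwr
      · unfold wrong at hwr
        push Not at hwr
        let ρ : ∀ R : Fin τ.num, (Fin (τ.ar R) → Vars φ.len (m + 2)) → Bool :=
          fun R v => A R (fun i => full hn x b (v i))
        let η : Vars φ.len (m + 2) → Vars φ.len (m + 2) → Bool :=
          fun u v => decide (full hn x b u = full hn x b v)
        let ξ : (Fin s → Vars φ.len (m + 2)) → Bool :=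
          fun v => decide ((fun i => full hn x b (v i)) ∈ S0 k E)
        have h3 : φ.ψ.eval ρ η ξ = bb := by
          have h4 : φ.ψ.eval ρ η ξ = true ↔ φ.ψ.Holds A (S0 k E) (full hn x b) := by
            apply eval_holds
            · intro R v; exact Iff.rfl
            · intro u v; exact decide_eq_true_iff
            · intro v; exact decide_eq_true_iff
          cases bb with
          | true => exact h4.mpr (hb.mpr rfl)
          | false =>
            have : ¬ φ.ψ.eval ρ η ξ = true := by
              intro h5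
              exact absurd (hb.mp (h4.mp h5)) (by simp)
            simpa using this
        obtain ⟨C, hC1, hC2, hC3⟩ := hw ρ η ξ h3
        -- enumerate the certificate
        have hcard : C.card ≤ Fintype.card (Fin (d' + 1) × Fin (e' + 1)) := by
          simpa using hC1
        have hemb : Nonempty (C ↪ Fin (d' + 1) × Fin (e' + 1)) := by
          apply Function.Embedding.nonempty_of_card_le
          simpa using hcard
        obtain ⟨ι⟩ := hemb
        let γ : Fin (d' + 1) × Fin (e' + 1) → Option ((Fin s → Vars φ.len (m + 2)) × Bool) :=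
          fun p => if h : ∃ v : C, ι v = p then some ((Classical.choose h).1,
            ξ (Classical.choose h).1) else none
        have hγ1 : ∀ v : C, γ (ι v) = some (v.1, ξ v.1) := by
          intro v
          have hex : ∃ v' : C, ι v' = ι v := ⟨v, rfl⟩
          have h5 : Classical.choose hex = v := ι.injective (Classical.choose_spec hex)
          simp only [γ]
          rw [dif_pos hex, h5]
        have hγ2 : ∀ p v β, γ p = some (v, β) → v ∈ C ∧ β = ξ v := by
          intro p v β hp
          simp only [γ] at hp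
          split_ifs at hp with hex
          have hp' := Option.some.inj hp
          have h5 := congrArg Prod.fst hp'
          have h6 := congrArg Prod.snd hp'
          simp only at h5 h6
          rw [← h5, ← h6]
          exact ⟨(Classical.choose hex).2, rfl⟩
        have hwit : ∀ p, ∃ c : Fin (k + 1), ∀ v β, γ p = some (v, β) →
            witR (gpR E c) (fun j => Sum.inl (full hn x b (v j))) β := by
          intro p
          cases hp : γ p with
          | none => exact ⟨0, fun v β h => absurd h (by simp)⟩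
          | some q =>
            obtain ⟨v, β⟩ := q
            obtain ⟨h5, h6⟩ := hγ2 p v β hp
            obtain ⟨c, hc⟩ := (wit_S0 hE (fun j => full hn x b (v j)) β).mpr h6.symm
            refine ⟨c, fun v' β' h' => ?_⟩
            have h7 := Option.some.inj h'
            rw [Prod.mk.injEq] at h7
            rw [← h7.1, ← h7.2]
            exact hc
        choose c hc using hwit
        let bF : ∀ i : Fin (m + 2), Fin (φ.len i.val) → Fin n := fun i j =>
          if h : i.val = m + 1 then b (Fin.cast (by rw [h]) j) else ⟨0, hn⟩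
        let u : WW φ d' e' k A := mkW A ((fun _ => false, false, false), γ) bF
          (fun _ _ _ => Sum.inr 0)
        let y : Fin (d' + 1 + 1) → WW φ d' e' k A :=
          Fin.cons u (fun j => elW A (pwG E (fun l => c (j, l))))
        have hy0 : y 0 = u := rfl
        have hyb : ∀ j, (y 0).1.2 (Sum.inl ⟨⟨m + 1, by omega⟩, j⟩) = Sum.inl (b j) := by
          intro j
          rw [hy0]
          change Sum.inl (bF ⟨m + 1, by omega⟩ j) = _
          simp only [bF]
          rw [dif_pos trivial]
          rfl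
        refine ⟨y, fun j => ?_, Or.inr ⟨?_, ?_, ?_⟩⟩
        · simp only [y, Fin.cons_succ]
          exact mem_pwS.mpr ⟨_, rfl⟩
        · rw [tt_last, hy0]
          refine ⟨rfl, fun i' j _ => isNum_inl _, fun h => absurd h (by simp [u, mkW, flg])⟩
        · intro j l v β hjl
          rw [tt_last, hy0] at hjl
          have hjl' : γ (j, l) = some (v, β) := hjl
          refine ⟨hC2 v (hγ2 _ v β hjl').1, ?_⟩
          rw [tt_zp]
          have h5 : (fun i => rwd (tt x y) (v i)) = fun i => Sum.inl (full hn x b (v i)) := by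
            funext i
            exact rwd_full hn x y _ hyb (v i)
          rw [h5]
          simp only [y, Fin.cons_succ]
          rw [gt_elW]
          exact hc (j, l) v β hjl'
        · intro ξ' h5 h6
          have h7 : φ.ψ.eval ρ η ξ' = bb := by
            apply hC3
            intro v hv
            by_cases hv' : v ∈ C
            · have h8 := h6 (ι ⟨v, hv'⟩).1 (ι ⟨v, hv'⟩).2 v (ξ v) (by
                rw [tt_last, hy0]
                exact hγ1 ⟨v, hv'⟩)
              exact h8
            · rcases hv with hv | hv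
              · rw [h5 v hv, tt_m, hwr v hv]
                simp only [ξ]
                rw [full_outer hn x _ b hv]
              · exact absurd hv hv'
          have h1 : rhS A (tt x y) = ρ := by
            funext R v
            unfold rhS
            simp only [rwd_full hn x y b hyb]
            by_cases h : A R (fun i => full hn x b (v i)) = true
            · simp only [ρ]
              rw [h, decide_eq_true_iff]
              exact ⟨_, fun i => rfl, h⟩
            · rw [Bool.not_eq_true] at h
              simp only [ρ]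
              rw [h, decide_eq_false_iff_not]
              rintro ⟨a, ha, h'⟩
              have : a = fun i => full hn x b (v i) := by
                funext i
                exact (Sum.inl.inj (ha i)).symm
              rw [this, h] at h'
              exact absurd h' (by simp)
          have h2 : etS (tt x y) = η := by
            funext u v
            unfold etS
            rw [rwd_full hn x y b hyb, rwd_full hn x y b hyb]
            simp only [η]
            rw [decide_eq_decide]
            exact ⟨fun h => Sum.inl.inj h, fun h => congrArg Sum.inl h⟩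
          rw [h1, h2]
          exact h7

end Hit

end

end Pool.Agent.Helper265_EW.P
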