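import Pool.Agent.Helper265_EW.PValid

set_option linter.unusedSectionVars false

/-! The interpretation. -/

namespace Pool.Agent.Helper265_EW.P

open Finset Classical

noncomputable section

/-- level of a variable -/
def lv (len : ℕ → ℕ) : (t : ℕ) → Vars len t → ℕ
  | 0, v => v.elim
  | t + 1, Sum.inl v => lv len t v
  | t + 1, Sum.inr _ => t

/-- number of a variable within its level -/
def ix (len : ℕ → ℕ) : (t : ℕ) → (v : Vars len t) → Fin (len (lv len t v))
  | 0, v => v.elim
  | t + 1, Sum.inl v => ix len t v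
  | _ + 1, Sum.inr j => j

lemma lv_lt (len : ℕ → ℕ) (t : ℕ) (v : Vars len t) : lv len t v < t := by
  induction t with
  | zero => exact v.elim
  | succ t ih =>
    cases v with
    | inl v => exact lt_trans (ih v) (Nat.lt_succ_self t)
    | inr j => exact Nat.lt_succ_self t

instance instFinVars (len : ℕ → ℕ) : (t : ℕ) → Finite (Vars len t)
  | 0 => inferInstanceAs (Finite Empty)
  | t + 1 => by
      have := instFinVars len t
      exact inferInstanceAs (Finite (Vars len t ⊕ Fin (len t)))

/-! Conditions on atomic types. -/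

section AT

variable {τ : Voc} {V' : Type} {s e : ℕ}

def ltA (T : AType τ V') (x y : Fin s → V') : Prop :=
  ∃ i, T.lt (x i) (y i) = true ∧ ∀ j, j < i → T.eq (x j) (y j) = true

def vgA (T : AType τ V') (g : Gx s → V') : Prop :=
  T.num (g (Sum.inl ())) = true ∧
  (∀ j, if T.zero (g (Sum.inl ())) = true then T.zero (g (Sum.inr (false, j))) = true
    else ¬ T.num (g (Sum.inr (false, j))) = true) ∧
  (∀ j, if T.top (g (Sum.inl ())) = true then T.zero (g (Sum.inr (true, j))) = true
    else ¬ T.num (g (Sum.inr (true, j))) = true)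

def witA (T : AType τ V') (g : Gx s → V') (w : Fin s → V') (β : Bool) : Prop :=
  if β = true then ¬ T.zero (g (Sum.inl ())) = true ∧
    ∀ j, T.eq (g (Sum.inr (false, j))) (w j) = true
  else (T.zero (g (Sum.inl ())) = true ∨ ltA T (fun j => g (Sum.inr (false, j))) w) ∧
    (T.top (g (Sum.inl ())) = true ∨ ltA T w (fun j => g (Sum.inr (true, j))))

def cflA (T : AType τ V') (g g' : Gx s → V') : Prop :=
  (¬ T.zero (g (Sum.inl ())) = true ∧ ¬ T.top (g (Sum.inl ())) = true ∧
    ¬ ltA T (fun j => g (Sum.inr (false, j))) (fun j => g (Sum.inr (true, j)))) ∨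
  (T.eq (g (Sum.inl ())) (g' (Sum.inl ())) = true ∧ ∃ y, ¬ T.eq (g y) (g' y) = true) ∨
  (T.suc (g (Sum.inl ())) (g' (Sum.inl ())) = true ∧
    ∃ j, ¬ T.eq (g (Sum.inr (true, j))) (g' (Sum.inr (false, j))) = true)

def cflGA (T : AType τ V') (G G' : Fin e → Gx s → V') : Prop := ∃ l l', cflA T (G l) (G' l')

def sameA (T : AType τ V') (G G' : Fin e → Gx s → V') : Prop :=
  ∀ l, T.eq (G l (Sum.inl ())) (G' l (Sum.inl ())) = true

def eqGA (T : AType τ V') (G G' : Fin e → Gx s → V') : Prop :=
  ∀ l y, T.eq (G l y) (G' l y) = true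

variable {n k : ℕ} (A : Str τ (Fin n)) (w : V' → Base n k)

lemma atp_lt (u v : V') : (atp A w).lt u v = true ↔ ltB (w u) (w v) := decide_eq_true_iff
lemma atp_eq (u v : V') : (atp A w).eq u v = true ↔ w u = w v := decide_eq_true_iff
lemma atp_num (u : V') : (atp A w).num u = true ↔ isNum (w u) := decide_eq_true_iff
lemma atp_zero (u : V') : (atp A w).zero u = true ↔ isZero (w u) := decide_eq_true_iff
lemma atp_top (u : V') : (atp A w).top u = true ↔ isTop (w u) := decide_eq_true_iff
lemma atp_suc (u v : V') : (atp A w).suc u v = true ↔ isSuc (w u) (w v) := decide_eq_true_iff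

lemma ltA_iff (x y : Fin s → V') :
    ltA (atp A w) x y ↔ ltR (fun j => w (x j)) (fun j => w (y j)) := by
  unfold ltA ltR
  simp only [atp_lt, atp_eq]

lemma vgA_iff (g : Gx s → V') : vgA (atp A w) g ↔ vgap (fun y => w (g y)) := by
  unfold vgA vgap
  simp only [atp_num, atp_zero, atp_top]
  rfl

lemma witA_iff (g : Gx s → V') (x : Fin s → V') (β : Bool) :
    witA (atp A w) g x β ↔ witR (fun y => w (g y)) (fun j => w (x j)) β := by
  unfold witA witR
  simp only [atp_eq, atp_zero, atp_top, ltA_iff]
  rfl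

lemma cflA_iff (g g' : Gx s → V') :
    cflA (atp A w) g g' ↔ cflR (fun y => w (g y)) (fun y => w (g' y)) := by
  unfold cflA cflR badR
  simp only [atp_eq, atp_zero, atp_top, atp_suc, ltA_iff]
  rfl

lemma cflGA_iff (G G' : Fin e → Gx s → V') :
    cflGA (atp A w) G G' ↔ cflG (fun l y => w (G l y)) (fun l y => w (G' l y)) := by
  unfold cflGA cflG
  simp only [cflA_iff]

lemma sameA_iff (G G' : Fin e → Gx s → V') :
    sameA (atp A w) G G' ↔ sameIx (fun l y => w (G l y)) (fun l y => w (G' l y)) := by
  unfold sameA sameIx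
  simp only [atp_eq]
  rfl

lemma eqGA_iff (G G' : Fin e → Gx s → V') :
    eqGA (atp A w) G G' ↔ (fun l y => w (G l y)) = (fun l y => w (G' l y)) := by
  unfold eqGA
  simp only [atp_eq]
  constructor
  · intro h; funext l y; exact h l y
  · intro h l y; exact congrFun (congrFun h l) y

end AT

/-- the first failure below `n` -/
def scn (ok : ℕ → Prop) : ℕ → Option Bool
  | 0 => none
  | n + 1 => match scn ok n with
    | some b => some b
    | none => if ok n then none else some (decide (n % 2 = 0))

/-! The data of the interpretation, for a formula with `m + 2` blocks, number `d' + 1` of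
occurrences in the normal form, and exponent `e' + 1`. -/

section Data

variable {τ : Voc} {s m : ℕ} (φ : PiF τ s (m + 2)) (d' e' : ℕ)

/-- tags of the elements that are not families of gaps -/
abbrev Tg : Type := (((Fin s → Vars φ.len (m + 2)) → Bool) × Bool × Bool) ×
  (Fin (d' + 1) × Fin (e' + 1) → Option ((Fin s → Vars φ.len (m + 2)) × Bool))

/-- coordinates -/
abbrev Ic : Type := (Σ i : Fin (m + 2), Fin (φ.len i.val)) ⊕ (Bool × Fin (e' + 1) × Gx s)

abbrev Ps (m d' : ℕ) : Type := Fin (m + (d' + 1 + 2))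

variable {φ d' e'}

def sgm (x : Option (Tg φ d' e')) : (Fin s → Vars φ.len (m + 2)) → Bool := match x with
  | some y => y.1.1
  | none => fun _ => false

def flg (x : Option (Tg φ d' e')) : Bool := match x with
  | some y => y.1.2.1
  | none => false

def cho (x : Option (Tg φ d' e')) : Bool := match x with
  | some y => y.1.2.2
  | none => false

def gmm (x : Option (Tg φ d' e')) :
    Fin (d' + 1) × Fin (e' + 1) → Option ((Fin s → Vars φ.len (m + 2)) × Bool) := match x with
  | some y => y.2
  | none => fun _ => none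

variable (φ d' e')

def okA {V' : Type} (tg : Option (Tg φ d' e')) (i : ℕ) (T : AType τ V') (f : Ic φ e' → V') :
    Prop :=
  tg.isSome = true ∧ (∀ (i' : Fin (m + 2)) (j : Fin (φ.len i'.val)), i'.val = i →
    ¬ T.num (f (Sum.inl ⟨i', j⟩)) = true) ∧
  (flg tg = true → ∀ c l, vgA T (fun y => f (Sum.inr (c, l, y))))

/-- position of level `i` -/
def po (m d' : ℕ) (i : ℕ) : Ps m d' := ⟨min i (m + 1), by omega⟩

/-- position of the `j`-th element -/
def zp (m d' : ℕ) (j : Fin (d' + 1)) : Ps m d' := ⟨m + 2 + j.val, by omega⟩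

/-- the coordinate of a variable -/
def vt (v : Vars φ.len (m + 2)) : Ps m d' × Ic φ e' :=
  (po m d' (lv φ.len (m + 2) v), Sum.inl ⟨⟨lv φ.len (m + 2) v, lv_lt _ _ _⟩, ix φ.len (m + 2) v⟩)

/-- the coordinates of a family of gaps -/
def gz (p : Ps m d') (c : Bool) : Fin (e' + 1) → Gx s → Ps m d' × Ic φ e' :=
  fun l y => (p, Sum.inr (c, l, y))

/-- being an inner atom -/
def inn (v : Fin s → Vars φ.len (m + 2)) : Prop := ∃ i, lastVar φ.len (m + 2) (v i)

/-- the main relation -/
def mainA (bb : Bool) (tg : Ps m d' → Option (Tg φ d' e')) (T : AType τ (Ps m d' × Ic φ e')) :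
    Prop :=
  (∃ v : Fin s → Vars φ.len (m + 2), ¬ inn φ v ∧
    witA T (gz φ d' e' (zp m d' 0) false 0) (fun i => vt φ d' e' (v i))
      (!(sgm (tg (po m d' m)) v))) ∨
  (okA φ d' e' (tg (po m d' (m + 1))) (m + 1) T (fun x => (po m d' (m + 1), x)) ∧
    (∀ j l v β, gmm (tg (po m d' (m + 1))) (j, l) = some (v, β) →
      inn φ v ∧ witA T (gz φ d' e' (zp m d' j) false l) (fun i => vt φ d' e' (v i)) β) ∧
    (∀ ξ : (Fin s → Vars φ.len (m + 2)) → Bool,
      (∀ v, ¬ inn φ v → ξ v = sgm (tg (po m d' m)) v) →
      (∀ j l v β, gmm (tg (po m d' (m + 1))) (j, l) = some (v, β) → ξ v = β) →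
      φ.ψ.eval (fun R v => T.rel R (fun i => vt φ d' e' (v i)))
        (fun u v => T.eq (vt φ d' e' u) (vt φ d' e' v)) ξ = bb))

/-- the relation if the innermost block is existential -/
def evA (tg : Ps m d' → Option (Tg φ d' e')) (T : AType τ (Ps m d' × Ic φ e')) : Prop :=
  if flg (tg (po m d' m)) = true then
    if cho (tg (po m d' m)) = true then
      cflGA T (gz φ d' e' (po m d' m) false) (gz φ d' e' (po m d' m) true) →
        tg (zp m d' 0) = none ∧
        ((sameA T (gz φ d' e' (zp m d' 0) false) (gz φ d' e' (po m d' m) false) ∧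
          ¬ eqGA T (gz φ d' e' (zp m d' 0) false) (gz φ d' e' (po m d' m) false)) ∨
        (sameA T (gz φ d' e' (zp m d' 0) false) (gz φ d' e' (po m d' m) true) ∧
          ¬ eqGA T (gz φ d' e' (zp m d' 0) false) (gz φ d' e' (po m d' m) true)))
    else
      tg (zp m d' 0) = none ∧
        sameA T (gz φ d' e' (zp m d' 0) false) (gz φ d' e' (po m d' m) false)
  else mainA φ d' e' true tg T

/-- the complement of the relation if the innermost block is universal -/
def odA (tg : Ps m d' → Option (Tg φ d' e')) (T : AType τ (Ps m d' × Ic φ e')) : Prop :=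
  tg (zp m d' 0) ≠ none ∨
  (if flg (tg (po m d' (m - 1))) = true then
    cflGA T (gz φ d' e' (po m d' (m - 1)) false) (gz φ d' e' (po m d' (m - 1)) true) ∧
      eqGA T (gz φ d' e' (zp m d' 0) false)
        (gz φ d' e' (po m d' (m - 1)) (cho (tg (po m d' m))))
  else mainA φ d' e' false tg T)

/-- the relation -/
def relA (tg : Ps m d' → Option (Tg φ d' e')) (T : AType τ (Ps m d' × Ic φ e')) : Bool :=
  match scn (fun i => okA φ d' e' (tg (po m d' i)) i T (fun x => (po m d' i, x))) (m + 1) with
  | some b => b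
  | none => if m % 2 = 0 then decide (evA φ d' e' tg T) else decide (¬ odA φ d' e' tg T)

/-- the condition on elements -/
def domA (tg : Option (Tg φ d' e')) (T : AType τ (Ic φ e')) : Bool := match tg with
  | some _ => true
  | none => decide ((∀ l, vgA T (fun y => Sum.inr (false, l, y))) ∧
      (∀ v, T.zero (Sum.inl v) = true) ∧ (∀ l y, T.zero (Sum.inr (true, l, y)) = true))

/-- the interpretation -/
def intP : QInt τ (G.srcVt m (d' + 1)) where
  Tag := Option (Tg φ d' e')
  finTag := by
    have := instFinVars φ.len (m + 2)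
    infer_instance
  Ix := Ic φ e'
  finIx := inferInstance
  dom := domA φ d' e'
  rel := fun _ tg T => relA φ d' e' tg T

end Data

end

end Pool.Agent.Helper265_EW.P
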