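import Pool.Agent.Helper265_EW.PInt

set_option linter.unusedSectionVars false

/-! The meaning of the interpretation. -/

namespace Pool.Agent.Helper265_EW.P

open Finset Classical

noncomputable section

section Sem

variable {τ : Voc} {s m : ℕ} (φ : PiF τ s (m + 2)) (d' e' : ℕ)
variable {n k : ℕ} (A : Str τ (Fin n))

/-- candidates for elements -/
abbrev VE (n k : ℕ) : Type := Option (Tg φ d' e') × (Ic φ e' → Base n k)

variable {φ d' e'}

def gt (x : VE φ d' e' n k) (c : Bool) : Fin (e' + 1) → RG n k s := fun l y => x.2 (Sum.inr (c, l, y))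

def okS (x : VE φ d' e' n k) (i : ℕ) : Prop :=
  x.1.isSome = true ∧ (∀ (i' : Fin (m + 2)) (j : Fin (φ.len i'.val)), i'.val = i →
    ¬ isNum (x.2 (Sum.inl ⟨i', j⟩))) ∧
  (flg x.1 = true → ∀ c l, vgap (gt x c l))

/-- the values of the variables -/
def rwd (t : Ps m d' → VE φ d' e' n k) (v : Vars φ.len (m + 2)) : Base n k :=
  (t (po m d' (lv φ.len (m + 2) v))).2
    (Sum.inl ⟨⟨lv φ.len (m + 2) v, lv_lt _ _ _⟩, ix φ.len (m + 2) v⟩)

def rhS (t : Ps m d' → VE φ d' e' n k) (R : Fin τ.num) (v : Fin (τ.ar R) → Vars φ.len (m + 2)) :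
    Bool :=
  decide (∃ a : Fin (τ.ar R) → Fin n, (∀ i, rwd t (v i) = Sum.inl (a i)) ∧ A R a = true)

def etS (t : Ps m d' → VE φ d' e' n k) (u v : Vars φ.len (m + 2)) : Bool :=
  decide (rwd t u = rwd t v)

def mainS (bb : Bool) (t : Ps m d' → VE φ d' e' n k) : Prop :=
  (∃ v : Fin s → Vars φ.len (m + 2), ¬ inn φ v ∧
    witR (gt (t (zp m d' 0)) false 0) (fun i => rwd t (v i))
      (!(sgm (t (po m d' m)).1 v))) ∨
  (okS (t (po m d' (m + 1))) (m + 1) ∧
    (∀ j l v β, gmm (t (po m d' (m + 1))).1 (j, l) = some (v, β) →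
      inn φ v ∧ witR (gt (t (zp m d' j)) false l) (fun i => rwd t (v i)) β) ∧
    (∀ ξ : (Fin s → Vars φ.len (m + 2)) → Bool,
      (∀ v, ¬ inn φ v → ξ v = sgm (t (po m d' m)).1 v) →
      (∀ j l v β, gmm (t (po m d' (m + 1))).1 (j, l) = some (v, β) → ξ v = β) →
      φ.ψ.eval (rhS A t) (etS t) ξ = bb))

def evS (t : Ps m d' → VE φ d' e' n k) : Prop :=
  if flg (t (po m d' m)).1 = true then
    if cho (t (po m d' m)).1 = true then
      cflG (gt (t (po m d' m)) false) (gt (t (po m d' m)) true) →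
        (t (zp m d' 0)).1 = none ∧
        ((sameIx (gt (t (zp m d' 0)) false) (gt (t (po m d' m)) false) ∧
          ¬ gt (t (zp m d' 0)) false = gt (t (po m d' m)) false) ∨
        (sameIx (gt (t (zp m d' 0)) false) (gt (t (po m d' m)) true) ∧
          ¬ gt (t (zp m d' 0)) false = gt (t (po m d' m)) true))
    else
      (t (zp m d' 0)).1 = none ∧
        sameIx (gt (t (zp m d' 0)) false) (gt (t (po m d' m)) false)
  else mainS A true t

def odS (t : Ps m d' → VE φ d' e' n k) : Prop :=
  (t (zp m d' 0)).1 ≠ none ∨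
  (if flg (t (po m d' (m - 1))).1 = true then
    cflG (gt (t (po m d' (m - 1))) false) (gt (t (po m d' (m - 1))) true) ∧
      gt (t (zp m d' 0)) false = gt (t (po m d' (m - 1))) (cho (t (po m d' m)).1)
  else mainS A false t)

def relS (t : Ps m d' → VE φ d' e' n k) : Bool :=
  match scn (fun i => okS (t (po m d' i)) i) (m + 1) with
  | some b => b
  | none => if m % 2 = 0 then decide (evS A t) else decide (¬ odS A t)

lemma okA_iff {V' : Type} (w : V' → Base n k) (tg : Option (Tg φ d' e')) (i : ℕ)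
    (f : Ic φ e' → V') :
    okA φ d' e' tg i (atp A w) f ↔
      okS ((tg, fun x => w (f x)) : VE φ d' e' n k) i := by
  unfold okA okS
  simp only [atp_num, vgA_iff]
  rfl

lemma main_iff (bb : Bool) (t : Ps m d' → VE φ d' e' n k) :
    mainA φ d' e' bb (fun p => (t p).1) (atp A (fun q : Ps m d' × Ic φ e' => (t q.1).2 q.2)) ↔
      mainS A bb t := by
  unfold mainA mainS
  simp only [okA_iff, witA_iff]
  rfl

lemma ev_iff (t : Ps m d' → VE φ d' e' n k) :
    evA φ d' e' (fun p => (t p).1) (atp A (fun q : Ps m d' × Ic φ e' => (t q.1).2 q.2)) ↔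
      evS A t := by
  unfold evA evS
  simp only [main_iff, cflGA_iff, sameA_iff, eqGA_iff]
  rfl

lemma od_iff (t : Ps m d' → VE φ d' e' n k) :
    odA φ d' e' (fun p => (t p).1) (atp A (fun q : Ps m d' × Ic φ e' => (t q.1).2 q.2)) ↔
      odS A t := by
  unfold odA odS
  simp only [main_iff, cflGA_iff, eqGA_iff]
  rfl

lemma rel_iff (t : Ps m d' → VE φ d' e' n k) :
    relA φ d' e' (fun p => (t p).1) (atp A (fun q : Ps m d' × Ic φ e' => (t q.1).2 q.2)) =
      relS A t := by
  unfold relA relS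
  simp only [ev_iff, od_iff, okA_iff]
  rfl

variable (φ d' e' k)

/-- the new universe -/
abbrev WW : Type := (intP φ d' e').Univ A k

variable {φ d' e' k}

lemma out_eq (t : Ps m d' → WW φ d' e' k A) :
    (intP φ d' e').out A k (0 : Fin 1) t = relS A (fun p => (t p).1) := by
  exact rel_iff A (fun p => (t p).1)

/-- elements with a tag -/
def mkW (y : Tg φ d' e') (b : ∀ i : Fin (m + 2), Fin (φ.len i.val) → Fin n)
    (G : Bool → Fin (e' + 1) → RG n k s) : WW φ d' e' k A :=
  ⟨(some y, Sum.elim (fun q => Sum.inl (b q.1 q.2)) (fun q => G q.1 q.2.1 q.2.2)), rfl⟩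

/-- elements that are families of gaps -/
def elW (G : Gk n k s (e' + 1)) : WW φ d' e' k A :=
  ⟨(none, Sum.elim (fun _ => Sum.inr 0)
    (fun q => if q.1 = false then G.1 q.2.1 q.2.2 else Sum.inr 0)), by
      change decide _ = true
      rw [decide_eq_true_iff]
      refine ⟨fun l => ?_, fun v => ?_, fun l y => ?_⟩
      · exact (vgA_iff A _ _).mpr (G.2 l)
      · exact (atp_zero A _ _).mpr ⟨0, rfl, rfl⟩
      · exact (atp_zero A _ _).mpr ⟨0, rfl, rfl⟩⟩

lemma gt_elW (G : Gk n k s (e' + 1)) :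
    gt (elW (φ := φ) (d' := d') A G).1 false = G.1 := by
  funext l y
  simp [gt, elW]

lemma elW_inj : Function.Injective (elW (φ := φ) (d' := d') (e' := e') (k := k) A) := by
  intro G G' h
  apply Subtype.ext
  rw [← gt_elW (φ := φ) (d' := d') A G, ← gt_elW (φ := φ) (d' := d') A G', h]

lemma elW_fst (G : Gk n k s (e' + 1)) : (elW (φ := φ) (d' := d') A G).1.1 = none := rfl

lemma ex_elW (x : WW φ d' e' k A) (hx : x.1.1 = none) : ∃ G, x = elW A G := by
  obtain ⟨⟨tg, w⟩, hw⟩ := x
  simp only at hx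
  subst hx
  have h := hw
  change decide _ = true at h
  rw [decide_eq_true_iff] at h
  obtain ⟨h1, h2, h3⟩ := h
  replace h2 := fun v => (atp_zero A w _).mp (h2 v)
  replace h3 := fun l y => (atp_zero A w _).mp (h3 l y)
  refine ⟨⟨fun l y => w (Sum.inr (false, l, y)), fun l => (vgA_iff A w _).mp (h1 l)⟩, ?_⟩
  apply Subtype.ext
  refine Prod.ext rfl ?_
  funext c
  rcases c with c | ⟨c, l, y⟩
  · obtain ⟨i, hi, hi0⟩ := h2 c
    change w (Sum.inl c) = Sum.inr 0
    rw [hi]
    congr 1
    exact Fin.ext (by simpa using hi0)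
  · cases c with
    | false => simp [elW]
    | true =>
      obtain ⟨i, hi, hi0⟩ := h3 l y
      change w (Sum.inr (true, l, y)) = Sum.inr 0
      rw [hi]
      congr 1
      exact Fin.ext (by simpa using hi0)

lemma tag_none_iff (x : WW φ d' e' k A) : x.1.1 = none ↔ ∃ G, x = elW A G :=
  ⟨ex_elW A x, by rintro ⟨G, rfl⟩; rfl⟩

/-- the arguments of the relation -/
def asm {W : Type} (x : Tup (fun _ => W) (m + 1)) (y : Fin (d' + 1 + 1) → W) : Ps m d' → W :=
  Fin.append (frT m x.1) (Fin.cons x.2 y)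

lemma asm_po {W : Type} (x : Tup (fun _ => W) (m + 1)) (y : Fin (d' + 1 + 1) → W) (i : ℕ)
    (hi : i < m + 1) : asm x y (po m d' i) = frT (m + 1) x ⟨i, hi⟩ := by
  unfold asm
  by_cases h : i < m
  · have h1 : po m d' i = Fin.castAdd (d' + 1 + 2) ⟨i, h⟩ := by
      apply Fin.ext
      simp [po]
      omega
    rw [h1, Fin.append_left]
    simp only [frT]
    rw [dif_pos h]
  · have h0 : i = m := by omega
    subst h0
    have h1 : po i d' i = Fin.natAdd i (0 : Fin (d' + 1 + 2)) := by
      apply Fin.ext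
      simp [po]
    rw [h1, Fin.append_right, Fin.cons_zero]
    simp only [frT]
    rw [dif_neg (by simp)]

lemma asm_last {W : Type} (x : Tup (fun _ => W) (m + 1)) (y : Fin (d' + 1 + 1) → W) :
    asm x y (po m d' (m + 1)) = y 0 := by
  unfold asm
  have h1 : po m d' (m + 1) = Fin.natAdd m ((0 : Fin (d' + 1 + 1)).succ) := by
    apply Fin.ext
    simp [po]
  rw [h1, Fin.append_right, Fin.cons_succ]

lemma asm_zp {W : Type} (x : Tup (fun _ => W) (m + 1)) (y : Fin (d' + 1 + 1) → W)
    (j : Fin (d' + 1)) : asm x y (zp m d' j) = y j.succ := by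
  unfold asm
  have h1 : zp m d' j = Fin.natAdd m (j.succ.succ) := by
    apply Fin.ext
    simp [zp]
    omega
  rw [h1, Fin.append_right, Fin.cons_succ]

lemma scn_congr {ok ok' : ℕ → Prop} (n : ℕ) (h : ∀ i, i < n → (ok i ↔ ok' i)) :
    scn ok n = scn ok' n := by
  induction n with
  | zero => rfl
  | succ n ih =>
    simp only [scn]
    rw [ih (fun i hi => h i (by omega))]
    have := h n (by omega)
    simp only [this]

lemma scn_stt {W : Type} (ok : ℕ → W → Prop) (n : ℕ) (v : Tup (fun _ => W) n) (x : W) :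
    scn (fun i => ok i (if h : i < n then frT n v ⟨i, h⟩ else x)) n =
      match stt (X := fun i => {x : W // ok i x})
        (fun i x => if h : ok i x then some ⟨x, h⟩ else none) n v with
      | Sum.inl _ => none
      | Sum.inr b => some b := by
  induction n with
  | zero => rfl
  | succ n ih =>
    simp only [scn, stt]
    have h1 : scn (fun i => ok i (if h : i < n + 1 then frT (n + 1) v ⟨i, h⟩ else x)) n =
        scn (fun i => ok i (if h : i < n then frT n v.1 ⟨i, h⟩ else x)) n := by
      apply scn_congr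
      intro i hi
      rw [dif_pos (by omega : i < n + 1), dif_pos hi]
      simp only [frT]
      rw [dif_pos hi]
    rw [h1, ih v.1]
    cases h2 : stt (X := fun i => {x : W // ok i x})
        (fun i x => if h : ok i x then some ⟨x, h⟩ else none) n v.1 with
    | inr b => rfl
    | inl y =>
      simp only
      have h3 : (if h : n < n + 1 then frT (n + 1) v ⟨n, h⟩ else x) = v.2 := by
        rw [dif_pos (by omega)]
        simp only [frT]
        rw [dif_neg (by simp)]
      have h5 : ok n (if h : n < n + 1 then frT (n + 1) v ⟨n, h⟩ else x) ↔ ok n v.2 :=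
        iff_of_eq (congrArg (ok n) h3)
      by_cases h4 : ok n v.2
      · rw [if_pos (h5.mpr h4), dif_pos h4]
      · rw [if_neg (fun h => h4 (h5.mp h)), dif_neg h4]

lemma relS_bad (x : Tup (fun _ => WW φ d' e' k A) (m + 1))
    (y : Fin (d' + 1 + 1) → WW φ d' e' k A) (b : Bool)
    (h : stt (A := fun _ => WW φ d' e' k A) (X := fun i => {x : WW φ d' e' k A // okS x.1 i})
      (fun i x => if h : okS x.1 i then some ⟨x, h⟩ else none) (m + 1) x = Sum.inr b) :
    relS A (fun p => (asm x y p).1) = b := by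
  have h1 := scn_stt (fun i (x : WW φ d' e' k A) => okS x.1 i) (m + 1) x (y 0)
  rw [h] at h1
  simp only at h1
  unfold relS
  have h2 : scn (fun i => okS (asm x y (po m d' i)).1 i) (m + 1) = some b := by
    rw [← h1]
    apply scn_congr
    intro i hi
    rw [dif_pos hi, asm_po x y i hi]
  simp only [h2]

end Sem

end

end Pool.Agent.Helper265_EW.P
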