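import Pool.Agent.Helper265_EW.PGap

set_option linter.unusedSectionVars false

/-! Families of gaps and the tests for chains. -/

namespace Pool.Agent.Helper265_EW.P

open Finset Classical

noncomputable section

variable {n k s e : ℕ}

/-- conflicting families of gaps -/
def cflG (G G' : Fin e → RG n k s) : Prop := ∃ l l', cflR (G l) (G' l')

/-- valid families of gaps -/
abbrev Gk (n k s e : ℕ) : Type := {G : Fin e → RG n k s // ∀ l, vgap (G l)}

/-- the families of gaps of a chain -/
def pwG (E : ℕ → Wd n s) (c : Fin e → Fin (k + 1)) : Gk n k s e :=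
  ⟨fun l => gpR E (c l), fun _ => vgap_mk _ _ _⟩

/-- the number of a gap -/
def ixO (g : RG n k s) : Fin (k + 1) := match g (Sum.inl ()) with
  | Sum.inr i => i
  | Sum.inl _ => 0

lemma ixO_spec {g : RG n k s} (h : vgap g) : rIx g = Sum.inr (ixO g) := by
  obtain ⟨⟨c, hc⟩, -, -⟩ := h
  unfold ixO
  unfold rIx at hc ⊢
  rw [hc]

lemma ixO_mk (c : Fin (k + 1)) (a b : Fin s → Fin n) : ixO (mkG c a b) = c := rfl

lemma pwG_inj (E : ℕ → Wd n s) : Function.Injective (pwG E : (Fin e → Fin (k + 1)) → Gk n k s e) := by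
  intro c c' h
  funext l
  exact gpR_inj E (congrFun (congrArg Subtype.val h) l)

lemma pwG_cfl {E : ℕ → Wd n s} (hE : Inc k E) (c c' : Fin e → Fin (k + 1)) :
    ¬ cflG (pwG E c).1 (pwG E c').1 := by
  rintro ⟨l, l', h⟩
  exact gpR_cfl hE _ _ h

/-- index families -/
def ixF (G : Gk n k s e) : Fin e → Fin (k + 1) := fun l => ixO (G.1 l)

lemma ixF_pw (E : ℕ → Wd n s) (c : Fin e → Fin (k + 1)) : ixF (pwG E c) = c := rfl

/-- the same numbers -/
def sameIx (G G' : Fin e → RG n k s) : Prop := ∀ l, rIx (G l) = rIx (G' l)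

lemma sameIx_iff (G G' : Gk n k s e) : sameIx G.1 G'.1 ↔ ixF G = ixF G' := by
  unfold sameIx ixF
  constructor
  · intro h
    funext l
    have := h l
    rw [ixO_spec (G.2 l), ixO_spec (G'.2 l)] at this
    exact Sum.inr.inj this
  · intro h l
    rw [ixO_spec (G.2 l), ixO_spec (G'.2 l)]
    exact congrArg Sum.inr (congrFun h l)

theorem chain_of (hn : 0 < n) (he : 0 < e) (T : Finset (Gk n k s e)) (hT : T.card = (k + 1) ^ e)
    (hc : ∀ G ∈ T, ∀ G' ∈ T, ¬ cflG G.1 G'.1) :
    ∃ E : ℕ → Wd n s, Inc k E ∧ T = univ.image (pwG E) := by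
  have hinj : Set.InjOn ixF (T : Set (Gk n k s e)) := by
    intro G hG G' hG' h
    by_contra hne
    have : ∃ l y, G.1 l y ≠ G'.1 l y := by
      by_contra h1
      push Not at h1
      exact hne (Subtype.ext (funext fun l => funext fun y => h1 l y))
    obtain ⟨l, y, hy⟩ := this
    exact hc G hG G' hG' ⟨l, l, Or.inr (Or.inl ⟨(sameIx_iff G G').mpr h l, y, hy⟩)⟩
  have himg : T.image ixF = univ := by
    apply Finset.eq_univ_of_card
    rw [Finset.card_image_of_injOn hinj, hT]
    simp
  have hex : ∀ c : Fin e → Fin (k + 1), ∃ G ∈ T, ixF G = c := by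
    intro c
    have : c ∈ T.image ixF := by rw [himg]; exact Finset.mem_univ _
    exact Finset.mem_image.mp this
  choose Q hQT hQi using hex
  let g : Fin (k + 1) → RG n k s := fun c => (Q (fun _ => c)).1 ⟨0, he⟩
  have hgv : ∀ c, vgap (g c) := fun c => (Q (fun _ => c)).2 _
  have hgi : ∀ c, ixO (g c) = c := fun c => congrFun (hQi (fun _ => c)) ⟨0, he⟩
  have hgc : ∀ c c', ¬ cflR (g c) (g c') := by
    intro c c' h
    exact hc _ (hQT _) _ (hQT _) ⟨_, _, h⟩
  have hmk : ∀ c, ∃ a b : Fin s → Fin n, g c = mkG c a b := by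
    intro c
    obtain ⟨c', a, b, h⟩ := vgap_ex hn (hgv c)
    refine ⟨a, b, ?_⟩
    have h1 : c' = c := by rw [← hgi c, h, ixO_mk]
    rw [h, h1]
  choose a b hab using hmk
  let E : ℕ → Wd n s := fun i => if h : i < k + 1 then toLex (b ⟨i, h⟩) else
    toLex (fun _ => ⟨0, hn⟩)
  have hE : ∀ c : Fin (k + 1), E c.val = toLex (b c) := by
    intro c
    simp only [E]
    rw [dif_pos c.isLt]
  have hE' : ∀ c : Fin (k + 1), c.val ≠ 0 → E (c.val - 1) = toLex (a c) := by
    intro c hc0
    let c' : Fin (k + 1) := ⟨c.val - 1, by have := c.isLt; omega⟩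
    have h1 : E (c.val - 1) = toLex (b c') := hE c'
    rw [h1]
    congr 1
    funext j
    have h2 := hgc c' c
    unfold cflR at h2
    push Not at h2
    have h3 := h2.2.2 (by
      rw [hab c', hab c, rIx_mk, rIx_mk, isSuc_inr]
      simp only [c']
      omega) j
    rw [hab c', hab c, rB_mk, rA_mk, if_neg (by simp only [c']; have := c.isLt; omega),
      if_neg hc0] at h3
    exact Sum.inl.inj h3
  have hgE : ∀ c, g c = gpR E c := by
    intro c
    rw [hab c]
    unfold gpR
    funext y
    rcases y with y | ⟨bb, j⟩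
    · rfl
    · cases bb with
      | true =>
        have h1 := rB_mk c (a c) (b c) j
        have h2 := rB_mk c (ofLex (E (c.val - 1))) (ofLex (E c.val)) j
        rw [hE c] at h2
        have h3 := h1.trans h2.symm
        rw [hE c]
        exact h3
      | false =>
        have h1 := rA_mk c (a c) (b c) j
        have h2 := rA_mk c (ofLex (E (c.val - 1))) (ofLex (E c.val)) j
        by_cases h : c.val = 0
        · rw [if_pos h] at h1 h2
          exact h1.trans h2.symm
        · rw [hE' c h] at h2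
          have h3 := h1.trans h2.symm
          rw [hE' c h]
          exact h3
  have hstep : ∀ i, i + 1 < k → E i < E (i + 1) := by
    intro i hi
    let c : Fin (k + 1) := ⟨i + 1, by omega⟩
    have h2 := hgc c c
    unfold cflR badR at h2
    push Not at h2
    have h3 := h2.1 (by rw [hab c, rIx_mk, isZero_inr]; simp [c])
      (by rw [hab c, rIx_mk, isTop_inr]; simp only [c]; omega)
    have ha : rA (g c) = fun j => Sum.inl (ofLex (E i) j) := by
      funext j
      rw [hgE c]
      unfold gpR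
      rw [rA_mk, if_neg (by simp [c])]
      simp [c]
    have hb : rB (g c) = fun j => Sum.inl (ofLex (E (i + 1)) j) := by
      funext j
      rw [hgE c]
      unfold gpR
      rw [rB_mk, if_neg (by simp only [c]; omega)]
    rw [ha, hb, ltR_inl] at h3
    exact h3
  refine ⟨E, ?_, ?_⟩
  · intro i j hij
    induction j, hij using Nat.le_induction with
    | base => intro hj; exact hstep i (by omega)
    | succ j hj ih => intro hj'; exact lt_trans (ih (by omega)) (hstep j (by omega))
  · have hall : ∀ G ∈ T, G = pwG E (ixF G) := by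
      intro G hG
      apply Subtype.ext
      funext l
      change G.1 l = gpR E (ixO (G.1 l))
      rw [← hgE]
      by_contra hne
      have : ∃ y, G.1 l y ≠ g (ixO (G.1 l)) y := by
        by_contra h1
        push Not at h1
        exact hne (funext fun y => h1 y)
      refine hc G hG (Q (fun _ => ixO (G.1 l))) (hQT _) ⟨l, ⟨0, he⟩, Or.inr (Or.inl ⟨?_, this⟩)⟩
      have h5 : rIx (g (ixO (G.1 l))) = Sum.inr (ixO (g (ixO (G.1 l)))) := ixO_spec (hgv _)
      rw [hgi] at h5
      rw [ixO_spec (G.2 l)]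
      exact h5.symm
    ext G
    simp only [Finset.mem_image, Finset.mem_univ, true_and]
    constructor
    · intro hG
      exact ⟨ixF G, (hall G hG).symm⟩
    · rintro ⟨c, rfl⟩
      have h1 := hall (Q c) (hQT c)
      rw [hQi c] at h1
      rw [← h1]
      exact hQT c

/-- the elements coding families of gaps of a chain -/
def pwS {W : Type} (el : Gk n k s e → W) (E : ℕ → Wd n s) : Finset W :=
  univ.image (fun c : Fin e → Fin (k + 1) => el (pwG E c))

lemma pwS_card {W : Type} {el : Gk n k s e → W} (hel : Function.Injective el) (E : ℕ → Wd n s) :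
    (pwS el E).card = (k + 1) ^ e := by
  unfold pwS
  have h : Function.Injective (fun c : Fin e → Fin (k + 1) => el (pwG E c)) :=
    hel.comp (pwG_inj E)
  rw [Finset.card_image_of_injective _ h]
  simp

/-- the tests if the innermost block is existential -/
def testE {W : Type} (el : Gk n k s e → W) (S : Finset W) : Prop :=
  (∀ G : Gk n k s e, ∃ G' : Gk n k s e, el G' ∈ S ∧ sameIx G'.1 G.1) ∧
  (∀ G1 G2 : Gk n k s e, cflG G1.1 G2.1 → ∃ G' : Gk n k s e, el G' ∈ S ∧
    ((sameIx G'.1 G1.1 ∧ G' ≠ G1) ∨ (sameIx G'.1 G2.1 ∧ G' ≠ G2)))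

/-- the tests if the innermost block is universal -/
def testO {W : Type} (el : Gk n k s e → W) (S : Finset W) : Prop :=
  (∀ x ∈ S, ∃ G, x = el G) ∧
  (∀ G1 G2 : Gk n k s e, cflG G1.1 G2.1 → el G1 ∉ S ∨ el G2 ∉ S)

lemma mem_pwS {W : Type} {el : Gk n k s e → W} {E : ℕ → Wd n s} {x : W} :
    x ∈ pwS el E ↔ ∃ c, el (pwG E c) = x := by
  unfold pwS
  simp

theorem testE_iff {W : Type} {el : Gk n k s e → W} (hel : Function.Injective el) (hn : 0 < n)
    (he : 0 < e) (S : Finset W) :
    (S.card = (k + 1) ^ e ∧ testE el S) ↔ ∃ E : ℕ → Wd n s, Inc k E ∧ S = pwS el E := by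
  constructor
  · rintro ⟨hS, hB, hC⟩
    let T : Finset (Gk n k s e) := S.preimage el hel.injOn
    have hTm : ∀ G, G ∈ T ↔ el G ∈ S := fun G => Finset.mem_preimage
    have hsub : T.image el ⊆ S := by
      intro x hx
      obtain ⟨G, hG, rfl⟩ := Finset.mem_image.mp hx
      exact (hTm G).mp hG
    have hc1 : (T.image el).card = T.card := Finset.card_image_of_injective _ hel
    have hsur : T.image ixF = univ := by
      ext c
      simp only [Finset.mem_univ, iff_true]
      obtain ⟨G', h1, h2⟩ := hB ⟨fun l => mkG (c l) (fun _ => ⟨0, hn⟩) (fun _ => ⟨0, hn⟩),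
        fun l => vgap_mk _ _ _⟩
      refine Finset.mem_image.mpr ⟨G', (hTm G').mpr h1, ?_⟩
      rw [(sameIx_iff _ _).mp h2]
      funext l
      rfl
    have hc2 : (k + 1) ^ e ≤ T.card := by
      have h1 : (T.image ixF).card ≤ T.card := Finset.card_image_le
      rw [hsur] at h1
      simpa using h1
    have himg : T.image el = S := Finset.eq_of_subset_of_card_le hsub (by omega)
    have hTc : T.card = (k + 1) ^ e := by rw [← hc1, himg, hS]
    have hinj : Set.InjOn ixF (T : Set (Gk n k s e)) := by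
      apply Finset.card_image_iff.mp
      rw [hsur, hTc]
      simp
    obtain ⟨E, hE, hTE⟩ := chain_of hn he T hTc (by
      intro G1 hG1 G2 hG2 hcf
      obtain ⟨G', h1, h2⟩ := hC G1 G2 hcf
      have h3 : G' ∈ T := (hTm G').mpr h1
      rcases h2 with ⟨h4, h5⟩ | ⟨h4, h5⟩
      · exact h5 (hinj h3 hG1 ((sameIx_iff _ _).mp h4))
      · exact h5 (hinj h3 hG2 ((sameIx_iff _ _).mp h4)))
    refine ⟨E, hE, ?_⟩
    rw [← himg, hTE]
    unfold pwS
    rw [Finset.image_image]
    rfl
  · rintro ⟨E, hE, rfl⟩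
    refine ⟨pwS_card hel E, fun G => ⟨pwG E (ixF G), mem_pwS.mpr ⟨_, rfl⟩, ?_⟩, ?_⟩
    · rw [sameIx_iff, ixF_pw]
    · intro G1 G2 hcf
      by_cases h1 : el G1 ∈ pwS el E
      · have h2 : el G2 ∉ pwS el E := by
          intro h2
          obtain ⟨c1, h3⟩ := mem_pwS.mp h1
          obtain ⟨c2, h4⟩ := mem_pwS.mp h2
          rw [← hel h3, ← hel h4] at hcf
          exact pwG_cfl hE _ _ hcf
        refine ⟨pwG E (ixF G2), mem_pwS.mpr ⟨_, rfl⟩, Or.inr ⟨?_, ?_⟩⟩
        · rw [sameIx_iff, ixF_pw]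
        · intro h3
          exact h2 (mem_pwS.mpr ⟨_, congrArg el h3⟩)
      · refine ⟨pwG E (ixF G1), mem_pwS.mpr ⟨_, rfl⟩, Or.inl ⟨?_, ?_⟩⟩
        · rw [sameIx_iff, ixF_pw]
        · intro h3
          exact h1 (mem_pwS.mpr ⟨_, congrArg el h3⟩)

theorem testO_iff {W : Type} {el : Gk n k s e → W} (hel : Function.Injective el) (hn : 0 < n)
    (he : 0 < e) (S : Finset W) :
    (S.card = (k + 1) ^ e ∧ testO el S) ↔ ∃ E : ℕ → Wd n s, Inc k E ∧ S = pwS el E := by
  constructor
  · rintro ⟨hS, hB, hC⟩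
    let T : Finset (Gk n k s e) := S.preimage el hel.injOn
    have hTm : ∀ G, G ∈ T ↔ el G ∈ S := fun G => Finset.mem_preimage
    have himg : T.image el = S := by
      ext x
      simp only [Finset.mem_image]
      constructor
      · rintro ⟨G, hG, rfl⟩
        exact (hTm G).mp hG
      · intro hx
        obtain ⟨G, rfl⟩ := hB x hx
        exact ⟨G, (hTm G).mpr hx, rfl⟩
    have hc1 : (T.image el).card = T.card := Finset.card_image_of_injective _ hel
    have hTc : T.card = (k + 1) ^ e := by rw [← hc1, himg, hS]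
    obtain ⟨E, hE, hTE⟩ := chain_of hn he T hTc (by
      intro G1 hG1 G2 hG2 hcf
      rcases hC G1 G2 hcf with h | h
      · exact h ((hTm G1).mp hG1)
      · exact h ((hTm G2).mp hG2))
    refine ⟨E, hE, ?_⟩
    rw [← himg, hTE]
    unfold pwS
    rw [Finset.image_image]
    rfl
  · rintro ⟨E, hE, rfl⟩
    refine ⟨pwS_card hel E, ?_, ?_⟩
    · intro x hx
      obtain ⟨c, hc⟩ := mem_pwS.mp hx
      exact ⟨_, hc.symm⟩
    · intro G1 G2 hcf
      by_contra h
      push Not at h
      obtain ⟨h1, h2⟩ := h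
      obtain ⟨c1, h3⟩ := mem_pwS.mp h1
      obtain ⟨c2, h4⟩ := mem_pwS.mp h2
      rw [← hel h3, ← hel h4] at hcf
      exact pwG_cfl hE _ _ hcf

end

end Pool.Agent.Helper265_EW.P
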