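import Pool.Agent.Helper265_EW.TMulti
import Pool.Agent.H592R2.Params

set_option linter.unusedSectionVars false

/-! Choice of parameters, status events and coin events. -/

namespace Pool.Agent.Helper265_EW

open Finset Classical Pool.Agent.H592R2

noncomputable section

/-- σ = S + S^r -/
def sgr (r S : ℕ) : ℕ := S + S ^ r

/-- the alphabet of the coordinates -/
abbrev Ta (b r S : ℕ) : Type := Fin (b ^ (2 * sgr r S))

instance taNeZero (b r S : ℕ) [NeZero b] : NeZero (b ^ (2 * sgr r S)) :=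
  ⟨pow_ne_zero _ (NeZero.ne b)⟩

/-- outcome alive -/
def As (b r S : ℕ) [NeZero b] : Finset (Ta b r S) := {0}

/-- outcome minority value -/
def Ms (b r S : ℕ) : Finset (Ta b r S) :=
  Finset.univ.filter (fun x => x.val < b ^ (2 * sgr r S - 1))

lemma sgr_pos {r S : ℕ} (h : r < S) : 1 ≤ sgr r S := by unfold sgr; omega

lemma card_Ms (b r S : ℕ) (hb : 1 ≤ b) : (Ms b r S).card = b ^ (2 * sgr r S - 1) := by
  unfold Ms
  have h : b ^ (2 * sgr r S - 1) ≤ b ^ (2 * sgr r S) := Nat.pow_le_pow_right hb (by omega)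
  rw [Fin.card_filter_val_lt]
  exact min_eq_right h

lemma card_Ta (b r S : ℕ) : (Fintype.card (Ta b r S) : ℝ) = (b : ℝ) ^ (2 * sgr r S) := by
  simp [Ta, Fintype.card_fin]

lemma Ms_prob {b r S : ℕ} (hb : 2 ≤ b) (hS : r < S) :
    ((Ms b r S).card : ℝ) / Fintype.card (Ta b r S) = 1 / b := by
  have hb0 : (0 : ℝ) < b := by exact_mod_cast (by omega : 0 < b)
  have hsg := sgr_pos hS
  have hpow : (b : ℝ) ^ (2 * sgr r S) = b ^ (2 * sgr r S - 1) * b := by
    rw [← pow_succ]; congr 1; omega
  rw [card_Ms b r S (by omega), card_Ta, hpow]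
  push_cast
  field_simp

lemma As_prob {b r S : ℕ} [NeZero b] :
    ((As b r S).card : ℝ) / Fintype.card (Ta b r S) = 1 / (b : ℝ) ^ (2 * sgr r S) := by
  rw [card_Ta]
  simp only [As, Finset.card_singleton, Nat.cast_one]

lemma compl_prob {τ : Type} [Fintype τ] [Nonempty τ] [DecidableEq τ] (X : Finset τ) :
    ((Finset.univ \ X : Finset τ).card : ℝ) /
      Fintype.card τ = 1 - (X.card : ℝ) / Fintype.card τ := by
  rw [Finset.card_univ_sdiff]
  have h1 : X.card ≤ Fintype.card τ := Finset.card_le_univ X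
  have h2 : (Fintype.card τ : ℝ) ≠ 0 := by exact_mod_cast Fintype.card_ne_zero
  rw [Nat.cast_sub h1, sub_div, div_self h2]

lemma P1r_inst {b r S : ℕ} [NeZero b] (hb : 2 ≤ b) (hr : 1 ≤ r) (hS : r < S) :
    P1 r (As b r S) (Ms b r S) S (1 / (b : ℝ)) ((2 / (b : ℝ)) ^ sgr r S)
      (1 / ((b : ℝ) ^ sgr r S * 2 ^ sgr r S)) := by
  have hb0 : (0 : ℝ) < b := by exact_mod_cast (by omega : 0 < b)
  have hb2 : (2 : ℝ) ≤ b := by exact_mod_cast hb
  have hsg := sgr_pos hS
  have hinv : (1 : ℝ) / b ≤ 1 / 2 := one_div_le_one_div_of_le (by norm_num) hb2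
  refine ⟨hr, hS, by positivity, by linarith, ?_, (Ms_prob hb hS).ge, ?_, by positivity, ?_,
    by positivity, ?_, ?_, ?_⟩
  · rw [compl_prob, As_prob]
    have : 1 / (b : ℝ) ^ (2 * sgr r S) ≤ 1 / b := by
      apply one_div_le_one_div_of_le hb0
      calc (b : ℝ) = b ^ 1 := (pow_one _).symm
        _ ≤ b ^ (2 * sgr r S) := pow_le_pow_right₀ (by linarith) (by omega)
    linarith
  · rw [compl_prob, Ms_prob hb hS]; linarith
  · apply pow_le_one₀ (by positivity)
    rw [div_le_one hb0]; exact hb2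
  · rw [div_le_one (by positivity)]
    exact one_le_mul_of_one_le_of_one_le (one_le_pow₀ (by linarith)) (one_le_pow₀ (by norm_num))
  · rw [As_prob]
    rw [div_pow, two_mul, pow_add]
    field_simp
  · rw [show sgr r S = S + S ^ r from rfl]
    rw [one_div_pow, pow_add (2 : ℝ) S (S ^ r)]
    have h1 : (0:ℝ) < b ^ (S + S ^ r) := by positivity
    have h2 : (0:ℝ) < 2 ^ S := by positivity
    have h3 : (0:ℝ) < 2 ^ (S ^ r) := by positivity
    apply le_of_eq
    field_simp

variable {D r : ℕ} {V : Type} [Fintype V] [DecidableEq V] {τ : Type} [Fintype τ] [Nonempty τ]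
  [DecidableEq τ]

/-- probability that no element of `W` has its statuses in the sets `B i` -/
lemma avg_no_status (B : Fin D → Finset τ) (W : Finset V) :
    avg (fun ω : Cd D r V → τ => ind (∀ v ∈ W, ¬ ∀ i : Fin D, ω (Sum.inl (i, v)) ∈ B i)) =
      (1 - ∏ i : Fin D, (((B i).card : ℝ) / Fintype.card τ)) ^ W.card := by
  simp only [ind_forall_eq_prod]
  rw [avg_prod_indep (T := fun _ : Cd D r V => τ) W
    (fun v => {c | ∃ i : Fin D, c = Sum.inl (i, v)})
    (fun v ω => ind (¬ ∀ i : Fin D, ω (Sum.inl (i, v)) ∈ B i))]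
  · rw [← Finset.prod_const]
    apply Finset.prod_congr rfl
    intro v hv
    let BB : Cd D r V → Finset τ := fun c => match c with
      | Sum.inl (i, _) => B i
      | Sum.inr _ => Finset.univ
    have h1 : (fun ω : Cd D r V → τ => ind (¬ ∀ i : Fin D, ω (Sum.inl (i, v)) ∈ B i)) =
        fun ω => 1 - ind (∀ c ∈ (Finset.univ : Finset (Fin D)).image
          (fun i => (Sum.inl (i, v) : Cd D r V)), ω c ∈ BB c) := by
      funext ω
      by_cases h : ∀ i : Fin D, ω (Sum.inl (i, v)) ∈ B i
      · rw [ind_false (not_not.mpr h), ind_true, sub_self]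
        intro c hc
        rw [Finset.mem_image] at hc
        obtain ⟨i, -, rfl⟩ := hc
        exact h i
      · rw [ind_true h, ind_false, sub_zero]
        intro h'
        apply h
        intro i
        exact h' _ (Finset.mem_image_of_mem _ (Finset.mem_univ i))
    rw [h1, avg_sub, avg_const, avg_box, Finset.prod_image]
    intro i _ i' _ h
    simpa using h
  · intro v _ v' _ hne
    rw [Set.disjoint_left]
    rintro c ⟨i, rfl⟩ ⟨i', h⟩
    simp only [Sum.inl.injEq, Prod.mk.injEq] at h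
    exact hne h.2
  · intro v _ a a' haa'
    have : (∀ i : Fin D, a (Sum.inl (i, v)) ∈ B i) ↔ (∀ i : Fin D, a' (Sum.inl (i, v)) ∈ B i) := by
      constructor
      · intro h i; rw [← haa' _ ⟨i, rfl⟩]; exact h i
      · intro h i; rw [haa' _ ⟨i, rfl⟩]; exact h i
    rw [this]

/-- the statuses -/
def sts (ω : Cd D r V → τ) : Fin D × V → τ := fun c => ω (Sum.inl c)

/-- coin events for a set of tuples determined by the statuses -/
lemma avg_coins (Mi : Finset τ) (F : (Fin D × V → τ) → Finset (Fin r → V)) (m : ℕ)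
    (hm : ∀ s, m ≤ (F s).card) :
    avg (fun ω : Cd D r V → τ => ind (∀ t ∈ F (sts ω), ω (Sum.inr t) ∈ Mi)) ≤
      ((Mi.card : ℝ) / Fintype.card τ) ^ m := by
  have hq0 : 0 ≤ (Mi.card : ℝ) / Fintype.card τ := by positivity
  have hq1 : (Mi.card : ℝ) / Fintype.card τ ≤ 1 := by
    rw [div_le_one (by exact_mod_cast Fintype.card_pos)]
    exact_mod_cast Finset.card_le_univ Mi
  let R : Set (Cd D r V) := {c | ∃ x, c = Sum.inl x}
  rw [← avg_mix (T := fun _ => τ) R]
  apply avg_le_of_le
  intro a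
  have hs : ∀ b, sts (mix R a b : Cd D r V → τ) = sts a := by
    intro b
    funext x
    exact mix_mem (T := fun _ => τ) (R := R) ⟨x, rfl⟩
  have hcn : ∀ b (t : Fin r → V), (mix R a b : Cd D r V → τ) (Sum.inr t) = b (Sum.inr t) := by
    intro b t
    apply mix_not_mem (T := fun _ => τ) (R := R)
    rintro ⟨x, hx⟩
    exact absurd hx (by simp)
  simp only [hs, hcn]
  have h1 : (fun ω : Cd D r V → τ => ind (∀ t ∈ F (sts a), ω (Sum.inr t) ∈ Mi)) =
      fun ω => ind (∀ c ∈ (F (sts a)).image (fun t => (Sum.inr t : Cd D r V)),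
        ω c ∈ (fun _ : Cd D r V => Mi) c) := by
    funext ω
    congr 1
    simp only [Finset.mem_image, forall_exists_index, and_imp]
    apply propext
    constructor
    · rintro h c q hq rfl; exact h q hq
    · intro h q hq; exact h _ q hq rfl
  rw [h1, avg_box, Finset.prod_const, Finset.card_image_of_injective]
  · exact pow_le_pow_of_le_one hq0 hq1 (hm _)
  · intro q q' h
    simpa using h

end

end Pool.Agent.Helper265_EW
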