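import Pool.Agent.Helper265_EW.LDefs

/-! Constant-depth reductions restricted to instances with a prescribed relation between the
parameter and the size of the universe. -/

namespace Pool.Agent.Helper265_EW

/-- The weighted Fagin-definable problem of `φ`, restricted to the instances `(A, k)` with
`k ^ v = (log₂ (n + 1)) ^ u`, that is `k = (log₂ (n + 1)) ^ (u / v)`, where `n` is the number of
elements of `A` and `log₂` is rounded down, reduces to that of `φ'` by a reduction computed by
(nonuniform) constant-depth formulas of size `2 ^ O(k) * n ^ O(1)` whose new parameter is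
`O ((k + log n) ^ (p / q))`: for a constant `c` and all such `n ≥ 1` and `k ≥ 1` there is a
transformation within the bounds `Tr.BoundedPow` which, applied to any structure `A` with
universe `{0, …, n - 1}`, names exactly one new parameter `j` and maps yes-instances `(A, k)` to
yes-instances and no-instances to no-instances. -/
def AC0RedAt (u v p q : ℕ) {τ τ' : Voc} {s s' t t' : ℕ} (φ : PiF τ s t) (φ' : PiF τ' s' t') :
    Prop :=
  ∃ c : ℕ, ∀ n k : ℕ, 1 ≤ n → 1 ≤ k → k ^ v = Nat.log 2 (n + 1) ^ u →
    ∃ T : Tr τ τ' n, T.BoundedPow p q k c ∧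
    ∀ A : Str τ (Fin n), ∃ j : Fin (T.K + 1),
      (∀ j', (T.par j').Holds (bits A) ↔ j' = j) ∧ (WDF φ A k ↔ WDF φ' (T.out A) j)

end Pool.Agent.Helper265_EW
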