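import Pool.Agent.Helper265_EW.RNum
import Pool.Agent.Helper265_EW.RDefs

set_option linter.unusedSectionVars false

/-! The lower bound for restricted ranges of the parameter. -/

namespace Pool.Agent.Helper265_EW.R

open Finset Classical Pool.Agent.H592R2 Pool.Agent.Helper265_EW.G

noncomputable section

/-- bound on the number of guesses -/
lemma guess_leR {M s K Z c C2 p L : ℕ} (hZ2 : 2 ≤ Z) (hZb : Z ≤ 2 ^ (3 * L)) (hM : M ≤ Z ^ c)
    (hK2 : K ≤ C2 * L ^ p) : (M ^ s + 1) ^ K ≤ 2 ^ (3 * (c * s + 1) * C2 * L ^ (p + 1)) := by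
  have e1 : M ^ s + 1 ≤ Z ^ (c * s + 1) := by
    have e2 : 1 ≤ Z ^ (c * s) := Nat.one_le_pow _ _ (by omega)
    calc M ^ s + 1 ≤ (Z ^ c) ^ s + 1 := Nat.add_le_add_right (Nat.pow_le_pow_left hM s) 1
      _ = Z ^ (c * s) + 1 := by rw [← pow_mul]
      _ ≤ Z ^ (c * s) + Z ^ (c * s) := Nat.add_le_add_left e2 _
      _ = Z ^ (c * s) * 2 := by ring
      _ ≤ Z ^ (c * s) * Z := Nat.mul_le_mul_left _ hZ2
      _ = Z ^ (c * s + 1) := by rw [pow_succ]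
  calc (M ^ s + 1) ^ K ≤ (Z ^ (c * s + 1)) ^ K := Nat.pow_le_pow_left e1 _
    _ ≤ ((2 ^ (3 * L)) ^ (c * s + 1)) ^ K :=
        Nat.pow_le_pow_left (Nat.pow_le_pow_left hZb _) _
    _ ≤ ((2 ^ (3 * L)) ^ (c * s + 1)) ^ (C2 * L ^ p) :=
        Nat.pow_le_pow_right (Nat.pow_pos (Nat.pow_pos (by norm_num))) hK2
    _ = 2 ^ (3 * (c * s + 1) * C2 * L ^ (p + 1)) := by
        rw [← pow_mul, ← pow_mul]
        congr 1
        ring

/-- bound on the number of outer assignments -/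
lemma outer_leR {M Z c Lv L : ℕ} (hZ2 : 2 ≤ Z) (hZb : Z ≤ 2 ^ (3 * L))
    (hM : M ≤ Z ^ c) : (M + 1) ^ Lv ≤ 2 ^ (3 * (c + 1) * Lv * L) := by
  have e1 : M + 1 ≤ Z ^ (c + 1) := by
    have e2 : 1 ≤ Z ^ c := Nat.one_le_pow _ _ (by omega)
    calc M + 1 ≤ Z ^ c + Z ^ c := Nat.add_le_add hM e2
      _ = Z ^ c * 2 := by ring
      _ ≤ Z ^ c * Z := Nat.mul_le_mul_left _ hZ2
      _ = Z ^ (c + 1) := by rw [pow_succ]
  calc (M + 1) ^ Lv ≤ (Z ^ (c + 1)) ^ Lv := Nat.pow_le_pow_left e1 _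
    _ ≤ ((2 ^ (3 * L)) ^ (c + 1)) ^ Lv :=
        Nat.pow_le_pow_left (Nat.pow_le_pow_left hZb _) _
    _ = 2 ^ (3 * (c + 1) * Lv * L) := by
        rw [← pow_mul, ← pow_mul]
        congr 1
        ring

/-- the width bound -/
lemma width_boundR {j k L κ d d' Lv K S Cw C2 p q u v w : ℕ} (hj : 1 ≤ j) (hk : k = j ^ u)
    (hL : L = j ^ v) (hw : w = (Lv + (2 * K + 1) ^ d' + 1) * S ^ (d + 2))
    (hCw : Cw = (Lv + 1 + 2 ^ d') * S ^ (d + 2))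
    (hK : K ^ q ≤ C2 * L ^ p) (hpq : v * p * d' < q * (u * (d + 1))) (hq : 1 ≤ q)
    (hjκ : (2 * Cw) ^ q * (2 ^ q * (C2 + 1)) ^ d' * κ ^ q ≤ j) :
    2 * w * κ ≤ k ^ (d + 1) := by
  have hL1 : 1 ≤ L := by rw [hL]; exact Nat.one_le_pow _ _ hj
  have hK1 : 1 ≤ (K + 1) ^ d' := Nat.one_le_pow _ _ (by omega)
  have h1 : w ≤ Cw * (K + 1) ^ d' := by
    have e1 : (2 * K + 1) ^ d' ≤ 2 ^ d' * (K + 1) ^ d' := by
      rw [← mul_pow]
      exact Nat.pow_le_pow_left (by omega) _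
    calc w = (Lv + 1 + (2 * K + 1) ^ d') * S ^ (d + 2) := by rw [hw]; ring
      _ ≤ ((Lv + 1) * (K + 1) ^ d' + 2 ^ d' * (K + 1) ^ d') * S ^ (d + 2) := by
          apply Nat.mul_le_mul_right
          exact Nat.add_le_add (Nat.le_mul_of_pos_right _ hK1) e1
      _ = Cw * (K + 1) ^ d' := by rw [hCw]; ring
  have h2 : (K + 1) ^ q ≤ 2 ^ q * (C2 + 1) * L ^ p := by
    have hkp : 1 ≤ L ^ p := Nat.one_le_pow _ _ hL1
    rcases Nat.eq_zero_or_pos K with hK0 | hK0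
    · rw [hK0, zero_add, one_pow]
      exact Nat.mul_pos (Nat.mul_pos (by positivity) (by omega)) hkp
    · calc (K + 1) ^ q ≤ (2 * K) ^ q := Nat.pow_le_pow_left (by omega) _
        _ = 2 ^ q * K ^ q := by rw [mul_pow]
        _ ≤ 2 ^ q * (C2 * L ^ p) := Nat.mul_le_mul_left _ hK
        _ ≤ 2 ^ q * ((C2 + 1) * L ^ p) :=
            Nat.mul_le_mul_left _ (Nat.mul_le_mul_right _ (by omega))
        _ = _ := by ring
  have h3 : (2 * w * κ) ^ q ≤ (k ^ (d + 1)) ^ q := by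
    calc (2 * w * κ) ^ q ≤ (2 * (Cw * (K + 1) ^ d') * κ) ^ q :=
          Nat.pow_le_pow_left (Nat.mul_le_mul_right _ (Nat.mul_le_mul_left _ h1)) _
      _ = (2 * Cw) ^ q * ((K + 1) ^ q) ^ d' * κ ^ q := by
          rw [← pow_mul, mul_comm q d', pow_mul, ← mul_pow, ← mul_pow]
          congr 1
          ring
      _ ≤ (2 * Cw) ^ q * (2 ^ q * (C2 + 1) * L ^ p) ^ d' * κ ^ q :=
          Nat.mul_le_mul_right _ (Nat.mul_le_mul_left _ (Nat.pow_le_pow_left h2 _))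
      _ = ((2 * Cw) ^ q * (2 ^ q * (C2 + 1)) ^ d' * κ ^ q) * (L ^ p) ^ d' := by
          rw [mul_pow (2 ^ q * (C2 + 1)) (L ^ p) d']
          ring
      _ ≤ j * (L ^ p) ^ d' := Nat.mul_le_mul_right _ hjκ
      _ = j ^ (v * p * d' + 1) := by
          rw [hL, ← pow_mul, ← pow_mul]; ring
      _ ≤ j ^ (q * (u * (d + 1))) := Nat.pow_le_pow_right hj hpq
      _ = (k ^ (d + 1)) ^ q := by
          rw [hk, ← pow_mul, ← pow_mul]
          congr 1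
          ring
  exact (Nat.pow_le_pow_iff_left (by omega)).mp h3

/-- the choice of the size of the universe -/
lemma size_choice {b k N cX L ℓ a : ℕ} (hb : b = 2 ^ ℓ) (hk1 : 1 ≤ k) (hQ : k * (N + 1) ≤ b)
    (hcX : k + cX + 1 ≤ b) (hℓ : ℓ * a ≤ L) (hℓ2 : L + 1 ≤ ℓ * (a + 2)) (ha : 3 ≤ a)
    (hb8 : 8 ≤ b) :
    ∃ B, b ^ (a - 1) ≤ B ∧ B ≤ b ^ (a + 2) ∧
      Nat.log 2 (k * (N * B) + k * B + k + cX + 1) = L := by
  obtain ⟨Q, hQd⟩ : ∃ Q, Q = k * (N + 1) := ⟨_, rfl⟩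
  have hQ1 : 1 ≤ Q := by rw [hQd]; exact Nat.mul_pos hk1 (Nat.succ_pos _)
  rw [← hQd] at hQ
  have hb1 : 1 ≤ b := by omega
  have hba : b ^ a ≤ 2 ^ L := by
    rw [hb, ← pow_mul]
    exact Nat.pow_le_pow_right (by norm_num) hℓ
  have hb3 : b ^ 3 ≤ 2 ^ L := (Nat.pow_le_pow_right hb1 ha).trans hba
  refine ⟨2 ^ L / Q + 1, ?_, ?_, ?_⟩
  · have h1 : b ^ (a - 1) * Q ≤ 2 ^ L := by
      calc b ^ (a - 1) * Q ≤ b ^ (a - 1) * b := Nat.mul_le_mul_left _ hQ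
        _ = b ^ a := by rw [← pow_succ]; congr 1; omega
        _ ≤ 2 ^ L := hba
    exact ((Nat.le_div_iff_mul_le hQ1).mpr h1).trans (Nat.le_succ _)
  · calc 2 ^ L / Q + 1 ≤ 2 ^ L + 1 := Nat.add_le_add_right (Nat.div_le_self _ _) 1
      _ ≤ 2 ^ L + 2 ^ L := Nat.add_le_add_left Nat.one_le_two_pow _
      _ = 2 ^ (L + 1) := by rw [pow_succ]; ring
      _ ≤ 2 ^ (ℓ * (a + 2)) := Nat.pow_le_pow_right (by norm_num) hℓ2
      _ = b ^ (a + 2) := by rw [hb, ← pow_mul]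
  · have h1 : k * (N * (2 ^ L / Q + 1)) + k * (2 ^ L / Q + 1) + k + cX + 1 =
        Q * (2 ^ L / Q + 1) + (k + cX + 1) := by
      rw [hQd]; ring
    rw [h1]
    have h2 : 2 ^ L < Q * (2 ^ L / Q + 1) := Nat.lt_mul_div_succ _ hQ1
    have h3 : Q * (2 ^ L / Q + 1) ≤ 2 ^ L + Q := by
      have := Nat.mul_div_le (2 ^ L) Q
      calc Q * (2 ^ L / Q + 1) = Q * (2 ^ L / Q) + Q := by ring
        _ ≤ 2 ^ L + Q := Nat.add_le_add_right this _
    have h4 : 2 * b < 2 ^ L := by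
      refine lt_of_lt_of_le ?_ hb3
      have : b ^ 3 = b * b * b := by ring
      rw [this]
      nlinarith
    apply Nat.log_eq_of_pow_le_of_lt_pow
    · omega
    · rw [pow_succ]
      omega

/-- No reduction on instances with `k = (log n) ^ (u / v)`. -/
theorem no_red_R (m d d' p q u v : ℕ) (hd : 1 ≤ d) (hq : 1 ≤ q) (hu : 1 ≤ u) (huv : u ≤ v)
    (hpq : v * p * d' < q * (u * (d + 1)))
    {τ' : Voc} {s : ℕ} (φ : PiF τ' s (m + 2)) (hocc : φ.innerOcc ≤ d') :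
    ¬ AC0RedAt u v p q (srcFt (decide (m % 2 = 0)) m d) φ := by
  rintro ⟨c, hred⟩
  -- constants
  obtain ⟨Lv, hLv⟩ : ∃ Lv, Lv = Fintype.card (Vars φ.len (m + 1)) := ⟨_, rfl⟩
  obtain ⟨D, hD⟩ : ∃ D, D = c + φ.ψ.qs + 4 := ⟨_, rfl⟩
  obtain ⟨E, hE⟩ := PB_totalL c p Lv (φ.len (m + 1)) s φ.ψ.qs
  obtain ⟨S, hS⟩ : ∃ S, S = 3 * (2 * D + 6) * E + d + 3 := ⟨_, rfl⟩
  have hSd : d + 2 < S := by omega
  obtain ⟨sg, hsg⟩ : ∃ sg, sg = sgr (d + 2) S := ⟨_, rfl⟩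
  have hsg1 : 1 ≤ sg := by rw [hsg]; exact sgr_pos hSd
  obtain ⟨α, hα⟩ : ∃ α, α = 2 * sg * D := ⟨_, rfl⟩
  obtain ⟨a, ha⟩ : ∃ a, a = α + 4 := ⟨_, rfl⟩
  obtain ⟨C2, hC2⟩ : ∃ C2, C2 = c * 3 ^ p := ⟨_, rfl⟩
  obtain ⟨C1, hC1⟩ : ∃ C1, C1 = 3 * (c * s + 1) * C2 := ⟨_, rfl⟩
  obtain ⟨C4, hC4⟩ : ∃ C4, C4 = 3 * (c + 1) * Lv := ⟨_, rfl⟩
  obtain ⟨Cw, hCw⟩ : ∃ Cw, Cw = (Lv + 1 + 2 ^ d') * S ^ (d + 2) := ⟨_, rfl⟩
  obtain ⟨C3, hC3⟩ : ∃ C3, C3 = C1 + C4 + 3 + S ^ (d + 2) := ⟨_, rfl⟩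
  obtain ⟨Cκ, hCκ⟩ : ∃ Cκ, Cκ = (2 * Cw) ^ q * (2 ^ q * (C2 + 1)) ^ d' := ⟨_, rfl⟩
  obtain ⟨CJ, hCJ⟩ : ∃ CJ, CJ = Cκ * (4 * a) := ⟨_, rfl⟩
  have hSp : 1 ≤ S ^ (d + 2) := Nat.one_le_pow _ _ (by omega)
  have hCw1 : 1 ≤ Cw := by rw [hCw]; exact Nat.mul_pos (by positivity) hSp
  have hCκ1 : 1 ≤ Cκ := by
    rw [hCκ]
    exact Nat.mul_pos (Nat.pow_pos (by omega))
      (Nat.pow_pos (Nat.mul_pos (by positivity) (by omega)))
  have hCJa : 4 * a ≤ CJ := by rw [hCJ]; exact Nat.le_mul_of_pos_left _ hCκ1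
  have hCJκ : Cκ ≤ CJ := by rw [hCJ]; exact Nat.le_mul_of_pos_right _ (by omega)
  obtain ⟨k2, hk2⟩ := ev_pow (8 * (32 * (CJ ^ v) ^ (2 * p + d + 7)) ^ (m + 1))
    (q * v * (2 * p + d + 7) * (m + 1))
  obtain ⟨κ, hκ⟩ : ∃ κ, κ = k2 + (4 * α + 40) + (sg * S + 3) + C1 + 2 * C3 + a := ⟨_, rfl⟩
  obtain ⟨j, hj⟩ : ∃ j, j = CJ * κ ^ q := ⟨_, rfl⟩
  obtain ⟨k, hk⟩ : ∃ k, k = j ^ u := ⟨_, rfl⟩
  obtain ⟨L, hL⟩ : ∃ L, L = j ^ v := ⟨_, rfl⟩
  have h5 := hk2 κ (by omega)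
  have hκa : a ≤ κ := by omega
  have hκα : 4 * α + 40 ≤ κ := by omega
  have hκS : sg * S + 3 ≤ κ := by omega
  have hκC1 : C1 ≤ κ := by omega
  have hκC3 : 2 * C3 ≤ κ := by omega
  have hκ1 : 1 ≤ κ := by omega
  clear hκ hk2
  have hjκ : 4 * a * κ ≤ j := by
    rw [hj]
    exact Nat.mul_le_mul hCJa (Nat.le_self_pow (by omega) κ)
  have hj1 : 1 ≤ j := by
    have : 1 ≤ 4 * a * κ := Nat.mul_pos (by omega) hκ1
    omega
  have hκj : κ ≤ j := by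
    have : κ ≤ 4 * a * κ := Nat.le_mul_of_pos_left _ (by omega)
    omega
  have hjk : j ≤ k := by rw [hk]; exact Nat.le_self_pow (by omega) j
  have hkL : k ≤ L := by rw [hk, hL]; exact Nat.pow_le_pow_right hj1 huv
  have hκL : κ ≤ L := by omega
  have hN : 8 * (L ^ (p + 3) * (32 * L ^ (p + d + 4))) ^ (m + 1) ≤ 2 ^ κ := by
    have e1 : 8 * (L ^ (p + 3) * (32 * L ^ (p + d + 4))) ^ (m + 1) =
        (8 * (32 * (CJ ^ v) ^ (2 * p + d + 7)) ^ (m + 1)) *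
          κ ^ (q * v * (2 * p + d + 7) * (m + 1)) := by
      have e2 : L ^ (p + 3) * (32 * L ^ (p + d + 4)) = 32 * L ^ (2 * p + d + 7) := by ring
      have e3 : L = CJ ^ v * κ ^ (q * v) := by
        rw [hL, hj, mul_pow, ← pow_mul]
      rw [e2, e3, mul_pow (CJ ^ v) (κ ^ (q * v)), ← pow_mul κ (q * v),
        pow_mul κ (q * v * (2 * p + d + 7)), ← mul_assoc 32, mul_pow, ← mul_assoc]
    rw [e1]
    exact h5
  obtain ⟨cPP, hcPP⟩ : ∃ cPP, cPP = L ^ (p + 3) := ⟨_, rfl⟩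
  obtain ⟨cLL, hcLL⟩ : ∃ cLL, cLL = 32 * L ^ (p + d + 4) := ⟨_, rfl⟩
  have hL1 : 1 ≤ L := by omega
  have hcPP1 : 1 ≤ cPP := by rw [hcPP]; exact Nat.one_le_pow _ _ (by omega)
  have hcLL1 : 1 ≤ cLL := by rw [hcLL]; exact Nat.mul_pos (by norm_num) (Nat.pow_pos (by omega))
  have : NeZero cPP := ⟨by omega⟩
  have : NeZero cLL := ⟨by omega⟩
  have : NeZero k := ⟨by omega⟩
  have hN' := hN
  rw [← hcPP, ← hcLL] at hN'
  obtain ⟨N, hNd⟩ : ∃ N, N = (cPP * cLL) ^ (m + 1) := ⟨_, rfl⟩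
  have hN1 : 1 ≤ cPP * cLL := Nat.mul_pos hcPP1 hcLL1
  have hNle : cPP * cLL ≤ N := by
    rw [hNd]
    exact Nat.le_self_pow (by omega) _
  have hLd : L ^ (d + 1) ≤ cPP * cLL := by
    calc L ^ (d + 1) ≤ L ^ (p + d + 4) := Nat.pow_le_pow_right hL1 (by omega)
      _ ≤ cLL := by rw [hcLL]; omega
      _ ≤ cPP * cLL := Nat.le_mul_of_pos_left _ hcPP1
  have hLN : L ≤ N := ((Nat.le_self_pow (by omega) L).trans hLd).trans hNle
  have hN8 : 8 * N ≤ 2 ^ κ := by rw [hNd]; exact hN'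
  -- the base
  obtain ⟨ℓ, hℓ⟩ : ∃ ℓ, ℓ = L / a := ⟨_, rfl⟩
  have ha0 : 0 < a := by omega
  have hℓκ : 4 * κ ≤ ℓ := by
    rw [hℓ, Nat.le_div_iff_mul_le ha0]
    calc 4 * κ * a = 4 * a * κ := by ring
      _ ≤ L := by omega
  have hℓa : ℓ * a ≤ L := by rw [hℓ]; exact Nat.div_mul_le_self L a
  have hLℓ : L + 1 ≤ ℓ * (a + 2) := by
    have h1 : L < a * (L / a + 1) := Nat.lt_mul_div_succ L ha0
    rw [← hℓ] at h1
    have h2 : a ≤ ℓ := by omega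
    have h3 : a * (ℓ + 1) = ℓ * a + a := by ring
    have h4 : ℓ * (a + 2) = ℓ * a + ℓ + ℓ := by ring
    omega
  obtain ⟨b, hb⟩ : ∃ b, b = 2 ^ ℓ := ⟨_, rfl⟩
  have hκb : 2 ^ (2 * κ) ≤ b := by
    rw [hb]
    exact Nat.pow_le_pow_right (by norm_num) (by omega)
  have hκb2 : 2 ^ κ * 2 ^ κ ≤ b := by
    rw [← pow_add, ← two_mul]
    exact hκb
  have hκ2 : 1 ≤ 2 ^ κ := Nat.one_le_two_pow
  have hκb1 : 2 ^ κ ≤ b := le_trans (Nat.le_mul_of_pos_left _ hκ2) hκb2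
  have hb256 : 256 ≤ b := by
    calc 256 = 2 ^ 8 := by norm_num
      _ ≤ 2 ^ κ := Nat.pow_le_pow_right (by norm_num) (by omega)
      _ ≤ b := hκb1
  have : NeZero b := ⟨by omega⟩
  have hQ : k * (N + 1) ≤ b := by
    refine le_trans (Nat.mul_le_mul (show k ≤ 2 ^ κ by omega) (show N + 1 ≤ 2 ^ κ by omega)) hκb2
  have hkX : k + cPP * cLL + 1 ≤ b := by omega
  obtain ⟨B, hB1, hB2, hlog⟩ := size_choice (N := N) (cX := cPP * cLL) hb (show 1 ≤ k by omega)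
    hQ hkX hℓa hLℓ (by omega) (by omega)
  have hBpos : 1 ≤ B := le_trans (Nat.one_le_pow _ _ (by omega)) hB1
  have : NeZero B := ⟨by omega⟩
  -- the universe
  obtain ⟨n, hn⟩ : ∃ n, n = k * (N * B) + k * B + k + cPP * cLL := ⟨_, rfl⟩
  rw [← hn] at hlog
  have hcX : Fintype.card (Fin cPP × Fin cLL) = cPP * cLL := by
    rw [Fintype.card_prod, Fintype.card_fin, Fintype.card_fin]
  have hcT : Fintype.card (Tup (fun _ : ℕ => Fin cPP × Fin cLL) m) = (cPP * cLL) ^ m := by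
    rw [card_Tup_const, hcX]
  have hcard : Fintype.card (G.Un k (Tup (fun _ : ℕ => Fin cPP × Fin cLL) m)
      (Fin cPP × Fin cLL) B) = n := by
    rw [hn, hNd]
    simp only [Fintype.card_sum, Fintype.card_prod, hcT, Fintype.card_fin]
    ring
  have eU : G.Un k (Tup (fun _ : ℕ => Fin cPP × Fin cLL) m) (Fin cPP × Fin cLL) B ≃ Fin n :=
    Fintype.equivFinOfCardEq hcard
  obtain ⟨T, ⟨hM, hK, hdom, hrel, hpar⟩, hcorr⟩ := hred n k (by rw [hn]; omega) (by omega) (by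
    rw [hlog, hk, hL, ← pow_mul, ← pow_mul, mul_comm])
  rw [hlog] at hK
  obtain ⟨Z, hZ⟩ : ∃ Z, Z = 2 ^ k * (n + 2) := ⟨_, rfl⟩
  rw [← hZ] at hM hdom hrel hpar
  have hn2 : n + 2 ≤ 2 ^ (L + 1) := by
    have := Nat.lt_pow_succ_log_self (b := 2) (by norm_num) (n + 1)
    rw [hlog] at this
    exact this
  have hZ2 : 2 ≤ Z := by
    rw [hZ]
    calc 2 = 1 * 2 := rfl
      _ ≤ 2 ^ k * (n + 2) := Nat.mul_le_mul Nat.one_le_two_pow (by omega)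
  have hZL : Z ≤ 2 ^ (3 * L) := by
    rw [hZ]
    calc 2 ^ k * (n + 2) ≤ 2 ^ L * 2 ^ (L + 1) :=
          Nat.mul_le_mul (Nat.pow_le_pow_right (by norm_num) hkL) hn2
      _ = 2 ^ (L + (L + 1)) := by rw [← pow_add]
      _ ≤ 2 ^ (3 * L) := Nat.pow_le_pow_right (by norm_num) (by omega)
  have hZb : Z ≤ b ^ (3 * (a + 2)) := by
    refine hZL.trans ?_
    rw [hb, ← pow_mul]
    apply Nat.pow_le_pow_right (by norm_num)
    calc 3 * L ≤ 3 * (ℓ * (a + 2)) := by omega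
      _ = ℓ * (3 * (a + 2)) := by ring
  have hZc : 1 ≤ Z ^ c := Nat.one_le_pow _ _ (by omega)
  -- bound on the new parameter
  have hKq : T.K ≤ T.K ^ q := Nat.le_self_pow (by omega) _
  have hK1 : T.K ≤ c * Z ^ p := by
    refine hKq.trans (hK.trans (Nat.mul_le_mul_left _ (Nat.pow_le_pow_left ?_ _)))
    have e1 : L < 2 ^ L := Nat.lt_pow_self (by norm_num)
    have e2 : k < 2 ^ k := Nat.lt_pow_self (by norm_num)
    have e3 : 2 ^ L ≤ n + 1 := by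
      have := Nat.pow_log_le_self 2 (x := n + 1) (by omega)
      rw [hlog] at this
      exact this
    have e4 : 1 ≤ 2 ^ k := Nat.one_le_two_pow
    rw [hZ]
    have e5 : 2 ^ k * (n + 2) = 2 ^ k * n + 2 ^ k * 2 := by ring
    have e6 : n ≤ 2 ^ k * n := Nat.le_mul_of_pos_left _ (by omega)
    omega
  have hKq2 : T.K ^ q ≤ C2 * L ^ p := by
    refine hK.trans ?_
    rw [hC2, mul_assoc, ← mul_pow]
    apply Nat.mul_le_mul_left
    apply Nat.pow_le_pow_left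
    omega
  have hK2 : T.K ≤ C2 * L ^ p := hKq.trans hKq2
  -- the family
  have hdepth : ∀ i, (famG T (matT φ) i).depth ≤ D := by
    intro i
    rw [hD, ← matT_qs φ]
    exact famG_depth T (matT φ) (fun a => (hdom a).1) (fun R v => (hrel R v).1)
      (fun j => (hpar j).1) i
  obtain ⟨sz, hsz⟩ : ∃ sz, sz = (Z ^ c + 1) ^ φ.len (m + 1) *
      ((φ.len (m + 1) + φ.ψ.qs + 4) * Z ^ c) + Z ^ c := ⟨_, rfl⟩
  have hsize : ∀ i, (famG T (matT φ) i).size ≤ sz := by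
    intro i
    rw [hsz, ← matT_qs φ]
    refine (famG_size T (matT φ) hZc (fun a => (hdom a).2) (fun R v => (hrel R v).2)
      (fun j => (hpar j).2) i).trans ?_
    exact Nat.add_le_add_right (Nat.mul_le_mul_right _
      (Nat.pow_le_pow_left (Nat.add_le_add_right hM 1) _)) _
  have hcardIdx := card_IdxG (s := s) T (Vars φ.len (m + 1)) (φ.len (m + 1)) hM hK1
  rw [← hLv] at hcardIdx
  have htotal : Fintype.card (IdxG (s := s) T (Vars φ.len (m + 1)) (φ.len (m + 1))) * sz ≤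
      (b ^ (3 * (a + 2))) ^ E := by
    calc Fintype.card (IdxG (s := s) T (Vars φ.len (m + 1)) (φ.len (m + 1))) * sz ≤ _ :=
          Nat.mul_le_mul_right _ hcardIdx
      _ ≤ Z ^ E := by rw [hsz]; exact hE Z hZ2
      _ ≤ _ := Nat.pow_le_pow_left hZb E
  have hexp : 3 * (a + 2) * E + 1 ≤ sgr (d + 2) S * S := by
    rw [← hsg]
    have e1 : a + 2 ≤ sg * (2 * D + 6) := by
      calc a + 2 = 2 * sg * D + 6 := by rw [ha, hα]
        _ ≤ 2 * sg * D + 6 * sg := by omega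
        _ = sg * (2 * D + 6) := by ring
    calc 3 * (a + 2) * E + 1 ≤ 3 * (sg * (2 * D + 6)) * E + sg :=
          Nat.add_le_add (Nat.mul_le_mul_right _ (Nat.mul_le_mul_left _ e1)) hsg1
      _ = sg * (3 * (2 * D + 6) * E + 1) := by ring
      _ ≤ sg * S := Nat.mul_le_mul_left _ (by omega)
  have hkk : k * k ≤ k ^ (d + 1) := by
    calc k * k = k ^ 2 := by ring
      _ ≤ k ^ (d + 1) := Nat.pow_le_pow_right (by omega) (by omega)
  have hLL2 : L * L ≤ L ^ (p + 3) := by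
    calc L * L = L ^ 2 := by ring
      _ ≤ L ^ (p + 3) := Nat.pow_le_pow_right hL1 (by omega)
  have hnum := failG_lt (d := d) (k := k) (b := b) (B := B) (D := D) (S := S) (E := E)
    (cG0 := (cPP * cLL) ^ m) (cX := cPP * cLL) (β := a + 2) (ζ := 3 * (a + 2))
    (m := Fintype.card (IdxG (s := s) T (Vars φ.len (m + 1)) (φ.len (m + 1)))) (sz := sz)
    (by omega) hb256 (by omega)
    (by
      have e1 : k ^ (d + 1) ≤ 2 ^ κ := by
        calc k ^ (d + 1) ≤ L ^ (d + 1) := Nat.pow_le_pow_left hkL _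
          _ ≤ 2 ^ κ := by omega
      calc (k ^ (d + 1)) ^ 2 = k ^ (d + 1) * k ^ (d + 1) := by ring
        _ ≤ 2 ^ κ * 2 ^ κ := Nat.mul_le_mul e1 e1
        _ ≤ b := hκb2)
    (by
      rw [← hsg, ← hα]
      exact le_trans (Nat.pow_le_pow_right (by omega) (by omega)) hB1)
    hB2 (by omega)
    (by
      have e1 : (a + 2) * k + (a + 2 + 3) ≤ k * k := by
        have e2 : 2 * (a + 2 + 3) ≤ k := by omega
        nlinarith
      exact e1.trans hkk)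
    (by
      have e1 : (a + 2) * k + 3 ≤ L * L + 3 := by
        apply Nat.add_le_add_right
        exact Nat.mul_le_mul (by omega) hkL
      have e2 : L ^ (p + 3) * 32 ≤ cPP * cLL := by
        rw [hcPP, hcLL]
        apply Nat.mul_le_mul_left
        have : 1 ≤ L ^ (p + d + 4) := Nat.one_le_pow _ _ hL1
        omega
      have e3 : 1 ≤ L * L := Nat.mul_pos hL1 hL1
      omega)
    (by rw [← pow_succ, ← hNd]; omega)
    (by
      rw [← hsg]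
      refine le_trans (Nat.pow_le_pow_right (by norm_num) hκS) hκb1)
    hexp htotal
  rw [← hcT, ← hcX] at hnum
  have hBb : B ≤ b ^ k := hB2.trans (Nat.pow_le_pow_right (by omega) (by omega))
  have hcG : Fintype.card (Guess (s := s) T) = (T.M ^ s + 1) ^ T.K := by
    rw [Fintype.card_fun, Fintype.card_option, Fintype.card_fun, Fintype.card_fin,
      Fintype.card_fin, Fintype.card_fin]
  have h2w := width_boundR (κ := κ) (w := (Lv + (2 * T.K + 1) ^ d' + 1) * S ^ (d + 2))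
    hj1 hk hL rfl hCw hKq2 hpq hq (by
      rw [← hCκ, hj]
      exact Nat.mul_le_mul_right _ hCJκ)
  refine heartL (sw := C3 * L ^ (p + 1)) φ hocc T eU hcorr hdepth sz hsize hd (by omega) hSd hBb
    hnum (Nat.mul_pos (by omega) (Nat.pow_pos (by omega))) ?_ ?_
  · calc S ^ (d + 2) ≤ C3 := by omega
      _ ≤ C3 * L ^ (p + 1) := Nat.le_mul_of_pos_right _ (Nat.pow_pos (by omega))
  · rw [hcG, hcPP, hcLL, ← hLv]
    refine ok_finalR (C1 := C1) (C3 := C3) (C4 := C4) (M := T.M) (Lv := Lv) hκ1 hκL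
      (Nat.mul_pos (by omega) hSp) h2w (Nat.pow_le_pow_left hkL _) hN (by omega) (by omega)
      (by omega) (by omega) ?_ ?_ ?_
    · rw [hC1]
      exact guess_leR hZ2 hZL hM hK2
    · intro i hi
      have h6 := card_TupJ T φ i
      simp only [h6]
      calc T.M ^ Fintype.card (Vars φ.len i) ≤ (T.M + 1) ^ Fintype.card (Vars φ.len i) :=
            Nat.pow_le_pow_left (by omega) _
        _ ≤ (T.M + 1) ^ Lv := by
            apply Nat.pow_le_pow_right (by omega)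
            rw [hLv]
            exact card_Vars_mono φ.len (by omega)
    · rw [hC4]
      exact outer_leR hZ2 hZL hM

end

end Pool.Agent.Helper265_EW.R
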