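import Pool.Agent.Helper265_EW.LMain

set_option linter.unusedSectionVars false

/-! Numerical estimates with an independent scale for the size of the universe. -/

namespace Pool.Agent.Helper265_EW.R

open Finset Classical Pool.Agent.H592R2 Pool.Agent.Helper265_EW.G

noncomputable section

/-- the failure probability is small -/
lemma failG_lt {d k b B D S E cG0 cX m sz β ζ : ℕ} (hk1 : 1 ≤ k) (hb : 256 ≤ b) (hkb : k ≤ b)
    (h4 : (k ^ (d + 1)) ^ 2 ≤ b) (hB1 : b ^ (2 * sgr (d + 2) S * D + 1) ≤ B) (hB2 : B ≤ b ^ β)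
    (hkβ : 2 * (2 * β + 4) ≤ k) (hkβ' : β * k + (β + 3) ≤ k ^ (d + 1))
    (hX : 2 * (β * k + 3) ≤ cX) (hG : cG0 * cX ≤ b) (hS2 : 2 ^ (sgr (d + 2) S * S + 3) ≤ b)
    (hSE : ζ * E + 1 ≤ sgr (d + 2) S * S) (hm : m * sz ≤ (b ^ ζ) ^ E) :
    failG d k B D S b cG0 cX m sz < 1 := by
  set sg := sgr (d + 2) S with hsg
  set α := 2 * sg * D with hαdef
  obtain ⟨b', hb'⟩ : ∃ b' : ℝ, b' = (b : ℝ) := ⟨_, rfl⟩
  have hb256 : (256 : ℝ) ≤ b' := by rw [hb']; exact_mod_cast hb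
  have hb0 : 0 < b' := by linarith
  have hb1 : 1 ≤ b' := by linarith
  have hkb' : (k : ℝ) ≤ b' := by rw [hb']; exact_mod_cast hkb
  have hk0 : (0 : ℝ) ≤ k := Nat.cast_nonneg k
  have hGb : (cG0 : ℝ) * cX ≤ b' := by
    rw [hb']
    exact_mod_cast hG
  have hG0 : (0 : ℝ) ≤ (cG0 : ℝ) * cX := by positivity
  have hcX1 : 1 ≤ cX := by omega
  have hcG0 : (cG0 : ℝ) ≤ b' := by
    have h1 : cG0 ≤ cG0 * cX := Nat.le_mul_of_pos_right _ hcX1
    have h2 : ((cG0 : ℕ) : ℝ) ≤ ((cG0 * cX : ℕ) : ℝ) := by exact_mod_cast h1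
    push_cast at h2
    linarith
  have hBr1 : b' ^ (α + 1) ≤ (B : ℝ) := by rw [hb']; exact_mod_cast hB1
  have hBr2 : (B : ℝ) ≤ b' ^ β := by rw [hb']; exact_mod_cast hB2
  have hB0 : (0 : ℝ) ≤ B := Nat.cast_nonneg B
  unfold failG
  rw [← hsg, ← hb']
  -- term 1
  have t1 : ((k : ℝ) + 2 * k * (cG0 * cX)) *
      (1 - (1 / b' ^ (2 * sg)) ^ D) ^ B ≤ 1 / 8 := by
    have hbpos : 0 < b' ^ α := by positivity
    have e0 : (1 / b' ^ (2 * sg)) ^ D = 1 / b' ^ α := by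
      rw [div_pow, one_pow, ← pow_mul]
    rw [e0]
    have h01 : 1 / b' ^ α ≤ 1 := by
      rw [div_le_one hbpos]
      exact one_le_pow₀ (by linarith)
    have e1 : (1 - 1 / b' ^ α) ^ B ≤ Real.exp (-b') := by
      have h1 : 1 - 1 / b' ^ α ≤ Real.exp (-(1 / b' ^ α)) := Real.one_sub_le_exp_neg _
      calc (1 - 1 / b' ^ α) ^ B ≤ (Real.exp (-(1 / b' ^ α))) ^ B :=
            pow_le_pow_left₀ (by linarith) h1 _
        _ = Real.exp (B * (-(1 / b' ^ α))) := by rw [← Real.exp_nat_mul]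
        _ ≤ Real.exp (-b') := by
            apply Real.exp_le_exp.mpr
            have h2 : b' ≤ B * (1 / b' ^ α) := by
              rw [mul_one_div, le_div_iff₀ hbpos]
              calc b' * b' ^ α = b' ^ (α + 1) := by ring
                _ ≤ B := hBr1
            linarith
    have e2 : Real.exp (-b') ≤ 6 / b' ^ 3 := by
      have h1 := Real.pow_div_factorial_le_exp b' hb0.le 3
      have h2 : (Nat.factorial 3 : ℝ) = 6 := by norm_num [Nat.factorial]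
      rw [h2] at h1
      rw [Real.exp_neg, inv_eq_one_div, div_le_div_iff₀ (Real.exp_pos b') (by positivity)]
      rw [div_le_iff₀ (by norm_num)] at h1
      linarith
    have e3 : (k : ℝ) + 2 * k * (cG0 * cX) ≤ 3 * b' ^ 2 := by
      have h5 : 2 * (k : ℝ) * (cG0 * cX) ≤ 2 * b' * b' := by
        apply mul_le_mul _ hGb hG0 (by positivity)
        linarith
      nlinarith
    calc _ ≤ (3 * b' ^ 2) * (6 / b' ^ 3) := by
          apply mul_le_mul e3 (e1.trans e2) _ (by positivity)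
          exact pow_nonneg (by linarith) _
      _ = 18 / b' := by field_simp; norm_num
      _ ≤ 1 / 8 := by rw [div_le_div_iff₀ hb0 (by norm_num)]; linarith
  -- term 2
  have t2 : (2 : ℝ) ^ k * ((k * (cG0 * cX) * B) * (B * (1 / b') ^ k)) ≤ 1 / 8 := by
    have h1 : ((2 : ℝ) / b') ^ 2 ≤ 1 / b' := by
      rw [div_pow, div_le_div_iff₀ (by positivity) hb0]
      nlinarith
    have h20 : (0 : ℝ) ≤ 2 / b' := by positivity
    have h21 : (2 : ℝ) / b' ≤ 1 := by rw [div_le_one hb0]; linarith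
    have h2 : ((2 : ℝ) / b') ^ k ≤ (1 / b') ^ (2 * β + 4) := by
      calc ((2 : ℝ) / b') ^ k ≤ (2 / b') ^ (2 * (2 * β + 4)) :=
            pow_le_pow_of_le_one h20 h21 hkβ
        _ = ((2 / b') ^ 2) ^ (2 * β + 4) := by rw [pow_mul]
        _ ≤ _ := pow_le_pow_left₀ (by positivity) h1 _
    have h3 : (k : ℝ) * (cG0 * cX) * B * B ≤ b' * b' * b' ^ β * b' ^ β := by
      gcongr
    calc (2 : ℝ) ^ k * ((k * (cG0 * cX) * B) * (B * (1 / b') ^ k))
        = (k * (cG0 * cX) * B * B) * (2 / b') ^ k := by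
          rw [div_pow, div_pow, one_pow]; ring
      _ ≤ (b' * b' * b' ^ β * b' ^ β) * (1 / b') ^ (2 * β + 4) := by
          apply mul_le_mul h3 h2 (by positivity) (by positivity)
      _ = 1 / b' ^ 2 := by
          rw [one_div, inv_pow]
          field_simp
          ring
      _ ≤ 1 / 8 := by
          apply one_div_le_one_div_of_le (by norm_num)
          nlinarith
  -- term 3
  have hBk : (B : ℝ) ^ k ≤ (b' ^ β) ^ k := pow_le_pow_left₀ hB0 hBr2 _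
  have t3 : ((B : ℝ) ^ k * (k * (cG0 * ((k : ℝ) ^ (d + 1)) ^ cX))) * (1 / b') ^ cX ≤
      1 / 8 := by
    have h1 : ((k : ℝ) ^ (d + 1) / b') ^ 2 ≤ 1 / b' := by
      rw [div_pow, div_le_div_iff₀ (by positivity) hb0]
      have : (((k : ℝ) ^ (d + 1)) ^ 2) ≤ b' := by rw [hb']; exact_mod_cast h4
      nlinarith
    have h2 : (k : ℝ) ^ (d + 1) / b' ≤ 1 := by
      have h5 : ((k : ℝ) ^ (d + 1) / b') ^ 2 ≤ 1 := h1.trans (by
        rw [div_le_one hb0]; exact hb1)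
      by_contra h6
      push Not at h6
      nlinarith
    have h3 : ((k : ℝ) ^ (d + 1) / b') ^ cX ≤ (1 / b') ^ (β * k + 3) := by
      calc ((k : ℝ) ^ (d + 1) / b') ^ cX ≤ ((k : ℝ) ^ (d + 1) / b') ^ (2 * (β * k + 3)) :=
            pow_le_pow_of_le_one (by positivity) h2 hX
        _ = (((k : ℝ) ^ (d + 1) / b') ^ 2) ^ (β * k + 3) := by rw [pow_mul]
        _ ≤ _ := pow_le_pow_left₀ (by positivity) h1 _
    calc _ = ((B : ℝ) ^ k * (k * cG0)) * ((k : ℝ) ^ (d + 1) / b') ^ cX := by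
          rw [div_eq_mul_one_div ((k : ℝ) ^ (d + 1)) b', mul_pow]
          ring
      _ ≤ ((b' ^ β) ^ k * (b' * b')) * (1 / b') ^ (β * k + 3) := by gcongr
      _ = 1 / b' := by
          rw [← pow_mul, one_div, inv_pow]
          field_simp
          rw [← pow_add]
      _ ≤ 1 / 8 := one_div_le_one_div_of_le (by norm_num) (by linarith)
  -- term 4
  have t4 : ((B : ℝ) ^ k * (k * (cG0 * cX) * B)) * (1 / b') ^ (k ^ (d + 1)) ≤
      1 / 8 := by
    have h2 : b' ^ (β * k + (β + 3)) ≤ b' ^ (k ^ (d + 1)) := pow_le_pow_right₀ hb1 hkβ'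
    calc ((B : ℝ) ^ k * (k * (cG0 * cX) * B)) * (1 / b') ^ (k ^ (d + 1))
        ≤ ((b' ^ β) ^ k * (b' * b' * b' ^ β)) * (1 / b') ^ (k ^ (d + 1)) := by
          gcongr
      _ = b' ^ (β * k + (β + 2)) / b' ^ (k ^ (d + 1)) := by
          rw [← pow_mul, one_div, inv_pow]; ring
      _ ≤ 1 / 8 := by
          rw [div_le_div_iff₀ (by positivity) (by norm_num)]
          have h3 : b' ^ (β * k + (β + 3)) = b' ^ (β * k + (β + 2)) * b' := by ring
          have h4 : 0 < b' ^ (β * k + (β + 2)) := by positivity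
          nlinarith
  -- term 5
  have t5 : (m : ℝ) * (sz * ((2 / b') ^ sg) ^ S) ≤ 1 / 8 := by
    have h1 : (m : ℝ) * sz ≤ (b' ^ ζ) ^ E := by
      rw [hb']
      exact_mod_cast hm
    have h2 : b' * (b' ^ ζ) ^ E ≤ b' ^ (sg * S) := by
      rw [← pow_mul, ← pow_succ']
      exact pow_le_pow_right₀ (by linarith) hSE
    have h3 : (2 : ℝ) ^ (sg * S) * 8 ≤ b' := by
      have h6 : (2 : ℝ) ^ (sg * S + 3) ≤ b' := by rw [hb']; exact_mod_cast hS2
      calc (2 : ℝ) ^ (sg * S) * 8 = 2 ^ (sg * S + 3) := by rw [pow_add]; norm_num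
        _ ≤ b' := h6
    have h5 : 0 < b' ^ (sg * S) := by positivity
    calc (m : ℝ) * (sz * ((2 / b') ^ sg) ^ S) = (m * sz) * (2 ^ (sg * S) / b' ^ (sg * S)) := by
          rw [← pow_mul, div_pow]; ring
      _ ≤ (b' ^ ζ) ^ E * (2 ^ (sg * S) / b' ^ (sg * S)) := by gcongr
      _ = ((b' ^ ζ) ^ E * 2 ^ (sg * S)) / b' ^ (sg * S) := by ring
      _ ≤ 1 / 8 := by
          rw [div_le_div_iff₀ h5 (by norm_num)]
          have h6 : 0 < (b' ^ ζ) ^ E := by positivity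
          calc (b' ^ ζ) ^ E * 2 ^ (sg * S) * 8 = (b' ^ ζ) ^ E * (2 ^ (sg * S) * 8) := by
                ring
            _ ≤ (b' ^ ζ) ^ E * b' := by gcongr
            _ = b' * (b' ^ ζ) ^ E := by ring
            _ ≤ b' ^ (sg * S) := h2
            _ = 1 * b' ^ (sg * S) := by ring
  linarith

/-- the numerical conditions of the chain, scale `L` -/
lemma ok_finalR {L P κ d m cS Lv M C1 C3 C4 p w : ℕ} {cJ : ℕ → ℕ} (hκ1 : 1 ≤ κ) (hκk : κ ≤ L)
    (hw1 : 1 ≤ w) (h2w : 2 * w * κ ≤ P) (hPL : P ≤ L ^ (d + 1))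
    (hN : 8 * (L ^ (p + 3) * (32 * L ^ (p + d + 4))) ^ (m + 1) ≤ 2 ^ κ)
    (hC1 : C1 ≤ L) (hC3 : 2 * C3 ≤ L) (hC31 : 1 ≤ C3) (hC4 : C1 + C4 + 3 ≤ C3)
    (hcS : cS ≤ 2 ^ (C1 * L ^ (p + 1))) (hcJ : ∀ i, i ≤ m → cJ i ≤ (M + 1) ^ Lv)
    (hout : (M + 1) ^ Lv ≤ 2 ^ (C4 * L)) :
    Ok cS cJ (L ^ (p + 3)) (32 * L ^ (p + d + 4)) (C3 * L ^ (p + 1)) m P w := by
  have hk1 : 1 ≤ L := by omega
  have h32w : 32 * w * κ ≤ 32 * L ^ (p + d + 4) := by
    calc 32 * w * κ = 16 * (2 * w * κ) := by ring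
      _ ≤ 16 * L ^ (d + 1) := Nat.mul_le_mul_left _ (h2w.trans hPL)
      _ ≤ 32 * L ^ (p + d + 4) := Nat.mul_le_mul (by omega)
          (Nat.pow_le_pow_right hk1 (by omega))
  have hC3k : 1 ≤ C3 * L ^ (p + 1) := Nat.mul_pos hC31 (Nat.pow_pos hk1)
  have hPP : 2 * (C3 * L ^ (p + 1)) * κ ≤ L ^ (p + 3) := by
    calc 2 * (C3 * L ^ (p + 1)) * κ = (2 * C3) * L ^ (p + 1) * κ := by ring
      _ ≤ L * L ^ (p + 1) * L := Nat.mul_le_mul (Nat.mul_le_mul_right _ hC3) hκk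
      _ = L ^ (p + 3) := by ring
  have hLL : 32 * (C3 * L ^ (p + 1)) * κ ≤ 32 * L ^ (p + d + 4) := by
    calc 32 * (C3 * L ^ (p + 1)) * κ = 16 * (2 * (C3 * L ^ (p + 1)) * κ) := by ring
      _ ≤ 16 * L ^ (p + 3) := Nat.mul_le_mul_left _ hPP
      _ ≤ 32 * L ^ (p + d + 4) := Nat.mul_le_mul (by omega)
          (Nat.pow_le_pow_right hk1 (by omega))
  have hSJ : 8 * (cS * (M + 1) ^ Lv) ≤ 2 ^ (C3 * L ^ (p + 1)) := by
    calc 8 * (cS * (M + 1) ^ Lv) ≤ 2 ^ 3 * (2 ^ (C1 * L ^ (p + 1)) * 2 ^ (C4 * L)) :=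
          Nat.mul_le_mul (by norm_num) (Nat.mul_le_mul hcS hout)
      _ = 2 ^ (3 + (C1 * L ^ (p + 1) + C4 * L)) := by
          rw [pow_add 2 3, pow_add 2 (C1 * L ^ (p + 1))]
      _ ≤ 2 ^ (C3 * L ^ (p + 1)) := by
          apply Nat.pow_le_pow_right (by norm_num)
          have e1 : L ≤ L ^ (p + 1) := Nat.le_self_pow (by omega) L
          calc 3 + (C1 * L ^ (p + 1) + C4 * L)
              ≤ 3 * L ^ (p + 1) + (C1 * L ^ (p + 1) + C4 * L ^ (p + 1)) := by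
                apply Nat.add_le_add _ (Nat.add_le_add_left (Nat.mul_le_mul_left _ e1) _)
                have : 1 ≤ L ^ (p + 1) := Nat.pow_pos hk1
                omega
            _ = (C1 + C4 + 3) * L ^ (p + 1) := by ring
            _ ≤ C3 * L ^ (p + 1) := Nat.mul_le_mul_right _ hC4
  have hSlt : cS < 2 ^ (L ^ (p + 3) * (32 * L ^ (p + d + 4))) := by
    refine lt_of_le_of_lt hcS (Nat.pow_lt_pow_right (by norm_num) ?_)
    have e1 : 1 ≤ L ^ (p + d + 4) := Nat.one_le_pow _ _ hk1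
    have e2 : L ^ (p + 2) ≤ L ^ (p + 3) := Nat.pow_le_pow_right hk1 (by omega)
    have e3 : 1 ≤ L ^ (p + 3) := Nat.one_le_pow _ _ hk1
    calc C1 * L ^ (p + 1) ≤ L * L ^ (p + 1) := Nat.mul_le_mul_right _ hC1
      _ = L ^ (p + 2) := by ring
      _ ≤ L ^ (p + 3) := e2
      _ < L ^ (p + 3) * 32 := by omega
      _ ≤ L ^ (p + 3) * (32 * L ^ (p + d + 4)) :=
          Nat.mul_le_mul_left _ (Nat.le_mul_of_pos_right _ e1)
  exact ok_all hκ1 hC3k hPP hLL hN hcJ hSJ hSlt m le_rfl _ w hw1 h2w h32w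

end

end Pool.Agent.Helper265_EW.R
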