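import Pool.Agent.Helper265_EW.CLev
import Pool.Agent.Helper265_EW.RMain

set_option linter.unusedSectionVars false

/-! Quantifier-free interpretations as constant-depth reductions on restricted instances. -/

namespace Pool.Agent.Helper265_EW.C

open Finset Classical Pool.Agent.Helper265_EW.G Pool.Agent.Helper265_EW.P

noncomputable section

/-- the new parameter on restricted instances -/
lemma par_bd {k L u v e p q : ℕ} (hv : 1 ≤ v) (hk : 1 ≤ k) (hkL : k ^ v = L ^ u)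
    (h : q * (u * e) ≤ v * p) : ((k + 1) ^ e) ^ q ≤ 2 ^ (e * q) * (k + L + 1) ^ p := by
  have h1 : k ^ (e * q) ≤ (k + L + 1) ^ p := by
    rw [← Nat.pow_le_pow_iff_left (show v ≠ 0 by omega)]
    calc (k ^ (e * q)) ^ v = (k ^ v) ^ (e * q) := by rw [← pow_mul, ← pow_mul, mul_comm]
      _ = L ^ (u * (e * q)) := by rw [hkL, ← pow_mul]
      _ ≤ (k + L + 1) ^ (u * (e * q)) := Nat.pow_le_pow_left (by omega) _
      _ ≤ (k + L + 1) ^ (p * v) := by
          apply Nat.pow_le_pow_right (by omega)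
          calc u * (e * q) = q * (u * e) := by ring
            _ ≤ v * p := h
            _ = p * v := mul_comm _ _
      _ = ((k + L + 1) ^ p) ^ v := by rw [pow_mul]
  calc ((k + 1) ^ e) ^ q = (k + 1) ^ (e * q) := by rw [← pow_mul]
    _ ≤ (2 * k) ^ (e * q) := Nat.pow_le_pow_left (by omega) _
    _ = 2 ^ (e * q) * k ^ (e * q) := by rw [mul_pow]
    _ ≤ 2 ^ (e * q) * (k + L + 1) ^ p := Nat.mul_le_mul_left _ h1

/-- A quantifier-free interpretation as a constant-depth reduction on restricted instances. -/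
theorem qint_AC0At {τ τ' : Voc} {s t s' t' : ℕ} {φ : PiF τ s t} {φ' : PiF τ' s' t'}
    (I : QInt τ τ') (hI : Indep I) (e u v p q : ℕ) (hv : 1 ≤ v) (hpq : q * (u * e) ≤ v * p)
    (hcor : ∀ n k : ℕ, 1 ≤ n → ∀ A : Str τ (Fin n),
      (WDF φ A k ↔ WDF φ' (I.out A k) ((k + 1) ^ e))) : AC0RedAt u v p q φ φ' := by
  obtain ⟨a, b, hab⟩ := univ_bd I
  have hfT := I.finTag
  have hfI := I.finIx
  obtain ⟨E2, hE2⟩ : ∃ E2, E2 = 2 ^ (e * q) := ⟨_, rfl⟩
  obtain ⟨C, hC⟩ : ∃ C, C = a + b + szI I + 4 + E2 := ⟨_, rfl⟩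
  refine ⟨C, fun n k hn hk hkL => ?_⟩
  obtain ⟨n', hn'⟩ : ∃ n', n' = Nat.card (I.Univ (nul τ n) k) := ⟨_, rfl⟩
  have hfin : Finite (I.Univ (nul τ n) k) := by
    unfold QInt.Univ
    infer_instance
  have e₀ : I.Univ (nul τ n) k ≃ Fin n' := by
    rw [hn']
    exact Finite.equivFin _
  obtain ⟨hb1, hb2, hb3⟩ := num_bd (n' := n') a b hn hk (by rw [hn']; exact hab n k (nul τ n))
  obtain ⟨Z, hZ⟩ : ∃ Z, Z = 2 ^ k * (n + 2) := ⟨_, rfl⟩
  have hZ2 : 2 ≤ Z := by
    rw [hZ]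
    calc 2 = 1 * 2 := rfl
      _ ≤ 2 ^ k * (n + 2) := Nat.mul_le_mul Nat.one_le_two_pow (by omega)
  rw [← hZ] at hb2
  have hfm : ∀ f : Fm (Bit τ' n'), f.depth ≤ 1 ∧ f.size ≤ 1 →
      (subst (gF I e₀) f).depth ≤ C ∧ (subst (gF I e₀) f).size ≤ Z ^ C := by
    intro f hf
    constructor
    · refine (depth_subst _ 3 (depth_gF I e₀) f).trans ?_
      have := hf.1
      rw [hC]
      omega
    · refine (size_subst _ (szI I) (szI_pos I) (size_gF I e₀) f).trans ?_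
      calc f.size * szI I ≤ 1 * szI I := Nat.mul_le_mul_right _ hf.2
        _ = szI I := one_mul _
        _ ≤ 2 ^ szI I := (Nat.lt_pow_self (by norm_num)).le
        _ ≤ Z ^ szI I := Nat.pow_le_pow_left hZ2 _
        _ ≤ Z ^ C := Nat.pow_le_pow_right (by omega) (by rw [hC]; omega)
  refine ⟨comT I e₀ (idT τ' n' ((k + 1) ^ e)), ⟨?_, ?_, ?_, ?_, ?_⟩, ?_⟩
  · rw [← hZ]
    exact hb2.trans (Nat.pow_le_pow_right (by omega) (by rw [hC]; omega))
  · change ((k + 1) ^ e) ^ q ≤ _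
    exact (par_bd hv hk hkL hpq).trans (Nat.mul_le_mul_right _ (by rw [← hE2, hC]; omega))
  · intro x
    rw [← hZ]
    apply hfm
    exact ⟨depth_cst true, size_cst true⟩
  · intro R v
    rw [← hZ]
    apply hfm
    simp [idT, Fm.depth, Fm.size]
  · intro j
    rw [← hZ]
    apply hfm
    exact ⟨depth_cst (decide (j.val = _)), size_cst (decide (j.val = _))⟩
  · intro A
    refine ⟨Fin.last _, fun j' => ?_, ?_⟩
    · refine (comT_par I hI e₀ _ A j').trans ?_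
      unfold idT
      rw [holds_cst, decide_eq_true_eq]
      exact ⟨fun h => Fin.ext h, fun h => by rw [h]; rfl⟩
    · rw [hcor n k hn A, ← outF_WD I hI e₀ A]
      refine Iff.trans ?_ (comT_WD I hI e₀ _ A φ' _).symm
      exact (idT_WD _ _ φ' _).symm

/-- upper bounds on restricted instances -/
theorem red_norm_at (m d : ℕ) (hd : 1 ≤ d) (e : ℕ) (he : 1 ≤ e) (u v p q : ℕ) (hv : 1 ≤ v)
    (hpq : q * (u * e) ≤ v * p) (τ : Voc) (s : ℕ) (φ : PiF τ s (m + 2))
    (h : φ.innerOcc ≤ d * e) : AC0RedAt u v p q φ (normF (decide (m % 2 = 0)) m d) := by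
  obtain ⟨I, h1, -, h3⟩ := qg_norm m d hd e he (m + 2) τ s φ (Or.inr ⟨rfl, Or.inl h⟩)
  exact qint_AC0At I h1 e u v p q hv hpq h3

end

end Pool.Agent.Helper265_EW.C
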