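import Pool.Agent.Helper265_EW.Params

set_option linter.unusedSectionVars false

/-! The source instance: planted sets in random tables. -/

namespace Pool.Agent.Helper265_EW

open Finset Classical Pool.Agent.H592R2

noncomputable section

/-- rows (type, group, index) and vertices (part, index) -/
abbrev Vt (k Γ B : ℕ) : Type := (Fin k × Fin Γ × Fin B) ⊕ (Fin k × Fin B)

/-- majority value: a tuple is dense iff its row died while all its vertices survived and the type
of the row is the part of the first vertex -/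
def mj {d k Γ B : ℕ} (t : Fin (d + 2) → Vt k Γ B) (s : Fin (d + 2) → Bool) : Bool :=
  decide ((∃ i g b b', t 0 = Sum.inl (i, g, b) ∧ t 1 = Sum.inr (i, b')) ∧ s 0 = false ∧
    ∀ j : Fin (d + 1), s j.succ = true)

/-- the universe of the source structure -/
abbrev Un (k Γ B : ℕ) : Type := Vt k Γ B ⊕ Fin k

/-- the relation of the source structure -/
def encU {d k Γ B : ℕ} (z : Tb (d + 2) (Vt k Γ B)) (t : Fin (d + 2) → Un k Γ B) : Bool :=
  match t 0 with
  | Sum.inl (Sum.inl x) => decide (∃ w : Fin (d + 1) → Fin k × Fin B,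
      (∀ j : Fin (d + 1), t j.succ = Sum.inl (Sum.inr (w j))) ∧
      z (Fin.cons (Sum.inl x) (fun j => Sum.inr (w j))) = true)
  | Sum.inl (Sum.inr _) => true
  | Sum.inr i => decide (∃ b, t 1 = Sum.inl (Sum.inr (i, b)))

/-- the unfolded source question -/
def SY {U : Type} {e : ℕ} (E : (Fin (e + 1) → U) → Bool) (k : ℕ) : Prop :=
  ∃ S : Finset U, S.card = k ∧ ∀ x, ∃ y : Fin e → U, (∀ j, y j ∈ S) ∧ E (Fin.cons x y) = true

variable {D d k Γ B : ℕ} {τ : Type} [Fintype τ] [Nonempty τ] [DecidableEq τ]

/-- status sets of elements that die exactly in the last round -/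
def lastB (A : Finset τ) (i : Fin D) : Finset τ := if i.val + 1 = D then Finset.univ \ A else A

/-- alive, in terms of the statuses -/
def AlS {V : Type} (A : Finset τ) (st : Fin D × V → τ) (v : V) : Prop := ∀ i : Fin D, st (i, v) ∈ A

section picks
variable [NeZero B]

/-- picked vertices -/
def pv (A : Finset τ) (st : Fin D × Vt k Γ B → τ) (i : Fin k) : Fin B :=
  Classical.epsilon (fun b => AlS A st (Sum.inr (i, b)))

/-- picked rows -/
def pr (A : Finset τ) (st : Fin D × Vt k Γ B → τ) (i : Fin k) (g : Fin Γ) : Fin B :=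
  Classical.epsilon (fun b => AlS A st (Sum.inl (i, g, b)))

/-- picked rows dying last -/
def lr (A : Finset τ) (st : Fin D × Vt k Γ B → τ) (i : Fin k) (g : Fin Γ) : Fin B :=
  Classical.epsilon (fun b => ∀ j : Fin D, st (j, Sum.inl (i, g, b)) ∈ lastB A j)

/-- tuples that satisfy a dead row -/
def tup3 (s : Fin k → Fin B) (x : Fin k × Fin Γ × Fin B) (j : Fin k) : Fin (d + 2) → Vt k Γ B :=
  Fin.cons (Sum.inl x) (fun l : Fin (d + 1) =>
    if l = 0 then Sum.inr (x.1, s x.1) else Sum.inr (j, s j))

/-- tuples at a row for a choice of vertices -/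
def tup4 (u : Fin k → Fin B) (x : Fin k × Fin Γ × Fin B) (c : Fin (d + 1) → Fin k) :
    Fin (d + 2) → Vt k Γ B :=
  Fin.cons (Sum.inl x) (fun l : Fin (d + 1) => Sum.inr (c l, u (c l)))

/-- the good event -/
structure Good (A Mi : Finset τ) (ω : Cd D (d + 2) (Vt k Γ B) → τ) : Prop where
  g1 : ∀ i, ∃ b, AlS A (sts ω) (Sum.inr (i, b))
  g2 : ∀ i g, ∃ b, AlS A (sts ω) (Sum.inl (i, g, b))
  g5 : ∀ i g, ∃ b, ∀ j : Fin D, sts ω (j, Sum.inl (i, g, b)) ∈ lastB A j
  g3 : ∀ x, ∃ j : Fin k, ω (Sum.inr (tup3 (pv A (sts ω)) x j)) ∉ Mi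
  g4 : ∀ (u : Fin k → Fin B) (i : Fin k), ∃ g : Fin Γ, ∀ c : Fin (d + 1) → Fin k,
    ω (Sum.inr (tup4 u (i, g, lr A (sts ω) i g) c)) ∉ Mi

/-- the planted table -/
def emb (s : Fin k → Fin B) (p : Fin k → Fin Γ → Fin B)
    (q : (Fin k × Fin Γ) → (Fin (d + 1) → Fin k) → Bool) : Tb (d + 2) (Vt k Γ B) :=
  fun t => match t 0 with
  | Sum.inl (i, g, b) => if b = p i g then
      decide (∃ c : Fin (d + 1) → Fin k, (∀ j : Fin (d + 1), t j.succ = Sum.inr (c j, s (c j))) ∧
        q (i, g) c = true) else true
  | Sum.inr _ => true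

lemma AlS_iff {V : Type} {r : ℕ} (A : Finset τ) (ω : Cd D r V → τ) (v : V) :
    AlS A (sts ω) v ↔ Al A D ω v :=
  ⟨fun h i _ => h i, fun h i => h i i.2⟩

theorem source_equiv (A Mi : Finset τ) (ω : Cd D (d + 2) (Vt k Γ B) → τ) (hG : Good A Mi ω)
    (q : (Fin k × Fin Γ) → (Fin (d + 1) → Fin k) → Bool) :
    SY (encU (rho A Mi mj D ω (emb (pv A (sts ω)) (pr A (sts ω)) q))) k ↔
      ∀ x, ∃ c, q x c = true := by
  set s := pv A (sts ω) with hs
  set p := pr A (sts ω) with hp
  have hsal : ∀ i, Al A D ω (Sum.inr (i, s i)) := by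
    intro i
    rw [← AlS_iff]
    exact Classical.epsilon_spec (hG.g1 i)
  have hpal : ∀ i g, Al A D ω (Sum.inl (i, g, p i g)) := by
    intro i g
    rw [← AlS_iff]
    exact Classical.epsilon_spec (hG.g2 i g)
  have hlr : ∀ i g, ∀ j : Fin D, ω (Sum.inl (j, Sum.inl (i, g, lr A (sts ω) i g))) ∈ lastB A j := by
    intro i g
    exact Classical.epsilon_spec (hG.g5 i g)
  -- value at a row
  have henc : ∀ (z : Tb (d + 2) (Vt k Γ B)) (x : Fin k × Fin Γ × Fin B)
      (w : Fin (d + 1) → Fin k × Fin B),
      encU z (Fin.cons (Sum.inl (Sum.inl x)) (fun j => Sum.inl (Sum.inr (w j)))) =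
        z (Fin.cons (Sum.inl x) (fun j => Sum.inr (w j))) := by
    intro z x w
    have : encU z (Fin.cons (Sum.inl (Sum.inl x)) (fun j => Sum.inl (Sum.inr (w j)))) =
      decide (∃ w' : Fin (d + 1) → Fin k × Fin B,
      (∀ j : Fin (d + 1), (Sum.inl (Sum.inr (w j)) : Un k Γ B) = Sum.inl (Sum.inr (w' j))) ∧
      z (Fin.cons (Sum.inl x) (fun j => Sum.inr (w' j))) = true) := rfl
    rw [this]
    cases hz : z (Fin.cons (Sum.inl x) (fun j => Sum.inr (w j))) with
    | true =>
      exact decide_eq_true ⟨w, fun _ => rfl, hz⟩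
    | false =>
      apply decide_eq_false
      rintro ⟨w', hw', hz'⟩
      have : w' = w := by
        funext j
        have := hw' j
        simp only [Sum.inl.injEq, Sum.inr.injEq] at this
        exact this.symm
      rw [this, hz] at hz'
      exact Bool.false_ne_true hz'
  constructor
  · rintro ⟨S, hcard, hS⟩ ⟨i0, g0⟩
    -- one vertex in every part
    have hpart : ∀ i : Fin k, ∃ b, (Sum.inl (Sum.inr (i, b)) : Un k Γ B) ∈ S := by
      intro i
      obtain ⟨y, hy, hE⟩ := hS (Sum.inr i)
      have h1 : decide (∃ b, y 0 = Sum.inl (Sum.inr (i, b))) = true := hE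
      obtain ⟨b, hb⟩ := of_decide_eq_true h1
      exact ⟨b, hb ▸ hy 0⟩
    choose u hu using hpart
    have hinj : Function.Injective (fun i : Fin k => (Sum.inl (Sum.inr (i, u i)) : Un k Γ B)) := by
      intro i i' h
      simp only [Sum.inl.injEq, Sum.inr.injEq, Prod.mk.injEq] at h
      exact h.1
    have hSeq : (Finset.univ : Finset (Fin k)).image
        (fun i : Fin k => (Sum.inl (Sum.inr (i, u i)) : Un k Γ B)) = S := by
      apply Finset.eq_of_subset_of_card_le
      · intro x hx
        obtain ⟨i, -, rfl⟩ := Finset.mem_image.mp hx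
        exact hu i
      · rw [Finset.card_image_of_injective _ hinj, Finset.card_univ, Fintype.card_fin, hcard]
    have hrow : ∀ x : Fin k × Fin Γ × Fin B, ∃ c : Fin (d + 1) → Fin k,
        rho A Mi mj D ω (emb s p q) (tup4 u x c) = true := by
      intro x
      obtain ⟨y, hy, hE⟩ := hS (Sum.inl (Sum.inl x))
      have h1 : ∀ j, ∃ i, y j = Sum.inl (Sum.inr (i, u i)) := by
        intro j
        have := hy j
        rw [← hSeq, Finset.mem_image] at this
        obtain ⟨i, -, hi⟩ := this
        exact ⟨i, hi.symm⟩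
      choose c hc using h1
      refine ⟨c, ?_⟩
      have h2 : y = fun j => Sum.inl (Sum.inr (c j, u (c j))) := by
        funext j; exact hc j
      rw [h2, henc] at hE
      exact hE
    by_cases hdead : ∃ i, ¬ Al A D ω (Sum.inr (i, u i))
    · exfalso
      obtain ⟨i, hi⟩ := hdead
      obtain ⟨g, hg⟩ := hG.g4 u i
      obtain ⟨c, hc⟩ := hrow (i, g, lr A (sts ω) i g)
      set t : Fin (d + 2) → Vt k Γ B := tup4 u (i, g, lr A (sts ω) i g) c with ht
      have ht0 : t 0 = Sum.inl (i, g, lr A (sts ω) i g) := rfl
      have hts : ∀ j : Fin (d + 1), t j.succ = Sum.inr (c j, u (c j)) := fun j => rfl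
      have hl := hlr i g
      have hnal : ¬ ∀ j, Al A D ω (t j) := by
        intro hall
        apply hi
        -- the round number is positive
        by_cases hD : 0 < D
        · have h0 := hall 0
          rw [ht0] at h0
          have h1 := hl ⟨D - 1, by omega⟩
          have h2 := h0 ⟨D - 1, by omega⟩ (by simp; omega)
          simp only [lastB] at h1
          rw [if_pos (by omega)] at h1
          exact absurd h2 (Finset.mem_sdiff.mp h1).2
        · intro j hj
          exact absurd j.2 (by omega)
      obtain ⟨i', hi'D, hbef, hnot, hval⟩ := rho_dead_val A Mi mj D le_rfl ω (emb s p q) t hnal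
      rw [hval] at hc
      have hcoin : ω (Sum.inr t) ∉ Mi := hg c
      simp only [rv, hcoin, decide_false, Bool.xor_false] at hc
      obtain ⟨⟨i1, g1, b1, b1', h01, h11⟩, hs0, hsj⟩ := of_decide_eq_true hc
      rw [ht0] at h01
      simp only [Sum.inl.injEq, Prod.mk.injEq] at h01
      have h11' : t (Fin.succ 0) = Sum.inr (i1, b1') := h11
      rw [hts 0] at h11'
      simp only [Sum.inr.injEq, Prod.mk.injEq] at h11'
      -- the row died in the last round
      have hlast : i'.val + 1 = D := by
        by_contra hne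
        have h1 := hl i'
        simp only [lastB, if_neg hne] at h1
        simp only [pat] at hs0
        rw [ht0] at hs0
        exact absurd h1 (of_decide_eq_false hs0)
      apply hi
      have h3 : (Sum.inr (i, u i) : Vt k Γ B) = t (Fin.succ 0) := by
        rw [hts 0]
        rw [show c 0 = i from h11'.1.trans h01.1.symm]
      rw [h3]
      intro j hj
      rcases Nat.lt_or_ge j.val i'.val with h | h
      · exact hbef (Fin.succ 0) j h
      · have hj' : j = i' := by
          apply Fin.ext; omega
        rw [hj']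
        exact of_decide_eq_true (hsj 0)
    · push Not at hdead
      obtain ⟨c, hc⟩ := hrow (i0, g0, p i0 g0)
      have hal : ∀ j, Al A D ω ((tup4 u (i0, g0, p i0 g0) c : Fin (d + 2) → Vt k Γ B) j) := by
        intro j
        refine Fin.cases ?_ ?_ j
        · exact hpal i0 g0
        · intro l
          exact hdead (c l)
      rw [rho_alive _ _ _ _ _ _ _ hal] at hc
      have h1 : emb s p q (tup4 u (i0, g0, p i0 g0) c) =
        if p i0 g0 = p i0 g0 then
          decide (∃ c' : Fin (d + 1) → Fin k,
            (∀ j : Fin (d + 1), (Sum.inr (c j, u (c j)) : Vt k Γ B) = Sum.inr (c' j, s (c' j))) ∧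
            q (i0, g0) c' = true) else true := rfl
      rw [h1, if_pos rfl] at hc
      obtain ⟨c', -, hc'⟩ := of_decide_eq_true hc
      exact ⟨c', hc'⟩
  · intro hq
    refine ⟨(Finset.univ : Finset (Fin k)).image
        (fun i : Fin k => (Sum.inl (Sum.inr (i, s i)) : Un k Γ B)), ?_, ?_⟩
    · rw [Finset.card_image_of_injective, Finset.card_univ, Fintype.card_fin]
      intro i i' h
      simp only [Sum.inl.injEq, Sum.inr.injEq, Prod.mk.injEq] at h
      exact h.1
    have hmem : ∀ i : Fin k, (Sum.inl (Sum.inr (i, s i)) : Un k Γ B) ∈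
        (Finset.univ : Finset (Fin k)).image
        (fun i : Fin k => (Sum.inl (Sum.inr (i, s i)) : Un k Γ B)) := fun i =>
      Finset.mem_image_of_mem _ (Finset.mem_univ i)
    intro x
    rcases x with (x | v) | i
    · obtain ⟨i, g, b⟩ := x
      by_cases hrow : Al A D ω (Sum.inl (i, g, b))
      · -- alive row
        by_cases hb : b = p i g
        · obtain ⟨c, hc⟩ := hq (i, g)
          refine ⟨fun j => Sum.inl (Sum.inr (c j, s (c j))), fun j => hmem (c j), ?_⟩
          rw [henc _ _ (fun j => (c j, s (c j)))]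
          have hal : ∀ j, Al A D ω ((Fin.cons (Sum.inl (i, g, b))
              (fun j => Sum.inr (c j, s (c j))) : Fin (d + 2) → Vt k Γ B) j) := by
            intro j
            refine Fin.cases ?_ ?_ j
            · exact hrow
            · intro l
              exact hsal (c l)
          rw [rho_alive _ _ _ _ _ _ _ hal]
          have h1 : emb s p q (Fin.cons (Sum.inl (i, g, b)) (fun j => Sum.inr (c j, s (c j)))) =
            if b = p i g then
              decide (∃ c' : Fin (d + 1) → Fin k,
                (∀ j : Fin (d + 1), (Sum.inr (c j, s (c j)) : Vt k Γ B) =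
                  Sum.inr (c' j, s (c' j))) ∧ q (i, g) c' = true) else true := rfl
          rw [h1, if_pos hb]
          exact decide_eq_true ⟨c, fun _ => rfl, hc⟩
        · refine ⟨fun _ => Sum.inl (Sum.inr (i, s i)), fun _ => hmem i, ?_⟩
          rw [henc _ _ (fun _ => (i, s i))]
          have hal : ∀ j, Al A D ω ((Fin.cons (Sum.inl (i, g, b))
              (fun _ => Sum.inr (i, s i)) : Fin (d + 2) → Vt k Γ B) j) := by
            intro j
            refine Fin.cases ?_ ?_ j
            · exact hrow
            · intro l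
              exact hsal i
          rw [rho_alive _ _ _ _ _ _ _ hal]
          have h1 : emb s p q (Fin.cons (Sum.inl (i, g, b)) (fun _ => Sum.inr (i, s i))) =
            if b = p i g then
              decide (∃ c' : Fin (d + 1) → Fin k,
                (∀ j : Fin (d + 1), (Sum.inr (i, s i) : Vt k Γ B) =
                  Sum.inr (c' j, s (c' j))) ∧ q (i, g) c' = true) else true := rfl
          rw [h1, if_neg hb]
      · -- dead row
        obtain ⟨j, hj⟩ := hG.g3 (i, g, b)
        let w : Fin (d + 1) → Fin k × Fin B := fun l => if l = 0 then (i, s i) else (j, s j)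
        have hw : ∀ l, (Sum.inl (Sum.inr (w l)) : Un k Γ B) ∈
          (Finset.univ : Finset (Fin k)).image
          (fun i : Fin k => (Sum.inl (Sum.inr (i, s i)) : Un k Γ B)) := by
          intro l
          by_cases hl : l = 0
          · simp only [w, if_pos hl]; exact hmem i
          · simp only [w, if_neg hl]; exact hmem j
        refine ⟨fun l => Sum.inl (Sum.inr (w l)), hw, ?_⟩
        rw [henc]
        set t : Fin (d + 2) → Vt k Γ B := Fin.cons (Sum.inl (i, g, b)) (fun l => Sum.inr (w l))
          with ht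
        have ht3 : t = tup3 s (i, g, b) j := by
          rw [ht]
          unfold tup3
          congr 1
          funext l
          by_cases hl : l = 0
          · simp only [w, if_pos hl]
          · simp only [w, if_neg hl]
        have ht0 : t 0 = Sum.inl (i, g, b) := rfl
        have hts : ∀ l : Fin (d + 1), t l.succ = Sum.inr (w l) := fun l => rfl
        have hnal : ¬ ∀ j, Al A D ω (t j) := fun h => hrow (ht0 ▸ h 0)
        obtain ⟨i', hi'D, hbef, hnot, hval⟩ := rho_dead_val A Mi mj D le_rfl ω (emb s p q) t hnal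
        rw [hval]
        have hcoin : ω (Sum.inr t) ∉ Mi := by rw [ht3]; exact hj
        simp only [rv, hcoin, decide_false, Bool.xor_false]
        have hvs : ∀ l : Fin (d + 1), ω (Sum.inl (i', t l.succ)) ∈ A := by
          intro l
          rw [hts l]
          by_cases hl : l = 0
          · simp only [w, if_pos hl]; exact hsal i i' i'.2
          · simp only [w, if_neg hl]; exact hsal j i' i'.2
        apply decide_eq_true
        refine ⟨⟨i, g, b, s i, ht0, ?_⟩, ?_, ?_⟩
        · have : t (Fin.succ 0) = Sum.inr (i, s i) := by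
            rw [hts 0]
            simp only [w, if_true]
          exact this
        · apply decide_eq_false
          intro h0
          apply hnot
          intro l
          refine Fin.cases h0 hvs l
        · intro l
          exact decide_eq_true (hvs l)
    · refine ⟨fun _ => Sum.inl (Sum.inr (v.1, s v.1)), fun _ => hmem v.1, rfl⟩
    · refine ⟨fun _ => Sum.inl (Sum.inr (i, s i)), fun _ => hmem i, ?_⟩
      exact decide_eq_true (p := ∃ b, (Sum.inl (Sum.inr (i, s i)) : Un k Γ B) =
        Sum.inl (Sum.inr (i, b))) ⟨s i, rfl⟩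

end picks

/-- the relation is local -/
lemma encU_local (t : Fin (d + 2) → Un k Γ B) :
    ∃ K : Finset (Vt k Γ B), K.card ≤ d + 2 ∧ Loc K (fun z => encU z t = true) := by
  refine ⟨Finset.univ.filter (fun v => ∃ l, t l = Sum.inl v), ?_, ?_⟩
  · have h1 : (Finset.univ.filter (fun v : Vt k Γ B => ∃ l, t l = Sum.inl v)).image
        (Sum.inl : Vt k Γ B → Un k Γ B) ⊆ Finset.univ.image t := by
      intro x hx
      obtain ⟨v, hv, rfl⟩ := Finset.mem_image.mp hx
      obtain ⟨l, hl⟩ := (Finset.mem_filter.mp hv).2
      exact Finset.mem_image.mpr ⟨l, Finset.mem_univ _, hl⟩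
    calc _ = ((Finset.univ.filter (fun v : Vt k Γ B => ∃ l, t l = Sum.inl v)).image
        (Sum.inl : Vt k Γ B → Un k Γ B)).card :=
          (Finset.card_image_of_injective _ Sum.inl_injective).symm
      _ ≤ (Finset.univ.image t).card := Finset.card_le_card h1
      _ ≤ (Finset.univ : Finset (Fin (d + 2))).card := Finset.card_image_le
      _ = d + 2 := by simp
  · intro z z' hzz' h
    simp only [encU] at h ⊢
    rcases h0 : t 0 with (x | v) | i
    · rw [h0] at h
      simp only at h ⊢
      obtain ⟨w, hw, hz⟩ := of_decide_eq_true h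
      apply decide_eq_true
      refine ⟨w, hw, ?_⟩
      rw [← hzz', hz]
      intro j
      refine Fin.cases ?_ ?_ j
      · exact Finset.mem_filter.mpr ⟨Finset.mem_univ _, 0, h0⟩
      · intro l
        exact Finset.mem_filter.mpr ⟨Finset.mem_univ _, l.succ, hw l⟩
    · rfl
    · rw [h0] at h
      exact h

/-- the entry of the free matrix on which a tuple depends -/
def ent [NeZero Γ] (t : Fin (d + 2) → Vt k Γ B) : (Fin k × Fin Γ) × (Fin (d + 1) → Fin k) :=
  ((match t 0 with
    | Sum.inl x => (x.1, x.2.1)
    | Sum.inr x => (x.1, 0)),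
   fun j => match t j.succ with
    | Sum.inl x => x.1
    | Sum.inr x => x.1)

lemma emb_dep [NeZero Γ] (s : Fin k → Fin B) (p : Fin k → Fin Γ → Fin B)
    (q q' : (Fin k × Fin Γ) → (Fin (d + 1) → Fin k) → Bool) (t : Fin (d + 2) → Vt k Γ B)
    (h : q (ent t).1 (ent t).2 = q' (ent t).1 (ent t).2) : emb s p q t = emb s p q' t := by
  have key : ∀ q q' : (Fin k × Fin Γ) → (Fin (d + 1) → Fin k) → Bool,
      q (ent t).1 (ent t).2 = q' (ent t).1 (ent t).2 → emb s p q t = true →
      emb s p q' t = true := by
    intro q q' h he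
    simp only [emb] at he ⊢
    rcases h0 : t 0 with ⟨i, g, b⟩ | v
    · rw [h0] at he
      simp only at he ⊢
      split_ifs with hb
      · rw [if_pos hb] at he
        obtain ⟨c, hc, hqc⟩ := of_decide_eq_true he
        apply decide_eq_true
        refine ⟨c, hc, ?_⟩
        have e1 : (ent t).1 = (i, g) := by
          simp only [ent, h0]
        have e2 : (ent t).2 = c := by
          funext j
          simp only [ent, hc j]
        rw [e1, e2] at h
        rw [← h, hqc]
      · rfl
    · rfl
  cases h1 : emb s p q t with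
  | true => exact (key q q' h h1).symm
  | false =>
    cases h2 : emb s p q' t with
    | false => rfl
    | true =>
      have := key q' q h.symm h2
      rw [this] at h1
      exact absurd h1 (by simp)

/-- locality becomes dependence on few entries -/
lemma dep_of_loc [NeZero Γ] (s : Fin k → Fin B) (p : Fin k → Fin Γ → Fin B)
    {K : Finset (Vt k Γ B)} {G : Tb (d + 2) (Vt k Γ B) → Prop} (hG : Loc K G) :
    ∃ Q : Finset ((Fin k × Fin Γ) × (Fin (d + 1) → Fin k)), Q.card ≤ K.card ^ (d + 2) ∧
      ∀ q q' : (Fin k × Fin Γ) → (Fin (d + 1) → Fin k) → Bool,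
        (∀ e ∈ Q, q e.1 e.2 = q' e.1 e.2) → (G (emb s p q) ↔ G (emb s p q')) := by
  refine ⟨(Fintype.piFinset (fun _ : Fin (d + 2) => K)).image ent, ?_, ?_⟩
  · refine Finset.card_image_le.trans ?_
    rw [Fintype.card_piFinset]
    simp only [Finset.prod_const, Finset.card_univ, Fintype.card_fin]
    exact le_rfl
  · intro q q' h
    have h1 : ∀ t : Fin (d + 2) → Vt k Γ B, (∀ j, t j ∈ K) → emb s p q t = emb s p q' t := by
      intro t ht
      apply emb_dep
      exact h _ (Finset.mem_image_of_mem _ (Fintype.mem_piFinset.mpr ht))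
    exact ⟨fun hg => hG _ _ h1 hg, fun hg => hG _ _ (fun t ht => (h1 t ht).symm) hg⟩

end

end Pool.Agent.Helper265_EW
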