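import Pool.Agent.Helper265_EW.Sw
import Pool.Agent.Helper265_EW.Events
import Pool.Agent.Helper265_EW.Alt

set_option linter.unusedSectionVars false

/-! One depth reduction step. -/

namespace Pool.Agent.Helper265_EW

open Finset Classical Pool.Agent.H592R2

noncomputable section

/-- every input with value false has a certificate of size less than `s` -/
def CertF {X P : Type} (s : ℕ) (g : (X → P → Bool) → Prop) : Prop :=
  ∀ z, ¬ g z → ∃ K : Finset (X × P), K.card < s ∧
    ∀ z', (∀ e ∈ K, z' e.1 e.2 = z e.1 e.2) → ¬ g z'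

/-- certificates for the value opposite to the one spoiled by a single branch of level `n` -/
def CertL {X P : Type} (n s : ℕ) (g : (X → P → Bool) → Prop) : Prop :=
  if n % 2 = 1 then CertF s g else CertF s (fun z => ¬ g z)

/-- the failure bound of one step -/
def stepFail (cG s cI w cP cI0 cPP cLL : ℕ) : ℝ :=
  (cG : ℝ) * (1 / 2) ^ s + (cI : ℝ) * (1 - 1 / (2 * (w : ℝ))) ^ cP +
    ((cI0 : ℝ) * cPP) * (1 - 1 / (32 * (w : ℝ))) ^ cLL

section
variable {I0 PP LL P Γt Y : Type} [Fintype I0] [DecidableEq I0] [Fintype PP] [DecidableEq PP]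
  [Fintype LL] [DecidableEq LL] [Fintype P] [DecidableEq P] [Fintype Γt] [Fintype Y]

lemma step_or (G : Γt → Y → ((I0 × (PP × LL)) → P → Bool) → Prop) (w s : ℕ) (hw : 1 ≤ w)
    (hG : ∀ γ y, ∃ Q : Finset ((I0 × (PP × LL)) × P), Q.card ≤ w ∧ Dep Q (G γ y))
    (hfail : stepFail (Fintype.card Γt) s (Fintype.card (I0 × (PP × LL))) w (Fintype.card P)
      (Fintype.card I0) (Fintype.card PP) (Fintype.card LL) < 1) :
    ∃ Z : (I0 → PP → Bool) → ((I0 × (PP × LL)) → P → Bool),
      (∀ z i0, (∃ x : PP × LL, ∀ p, Z z (i0, x) p = true) ↔ ∃ p', z i0 p' = true) ∧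
      (∀ γ, CertF s (fun z => ∃ y, G γ y (Z z))) ∧
      (∀ (H : ((I0 × (PP × LL)) → P → Bool) → Prop) (Q : Finset ((I0 × (PP × LL)) × P)),
        Dep Q H → ∃ Q' : Finset (I0 × PP), Q'.card ≤ Q.card ∧ Dep Q' (fun z => H (Z z))) := by
  -- the alphabet
  let n1 : ℕ := 32 * w
  let n2 : ℕ := 2 * w
  have hn1 : 1 ≤ n1 := by simp only [n1]; omega
  have hn2 : 1 ≤ n2 := by simp only [n2]; omega
  have hN : 0 < n1 * n2 := Nat.mul_pos hn1 hn2
  have : NeZero (n1 * n2) := ⟨hN.ne'⟩
  let τ : Type := Fin (n1 * n2)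
  let A : Finset τ := Finset.univ.filter (fun x => x.val < n2)
  let B : Finset τ := Finset.univ.filter (fun x => x.val < n1)
  have hwr : (1 : ℝ) ≤ w := by exact_mod_cast hw
  have hcτ : (Fintype.card τ : ℝ) = n1 * n2 := by
    simp only [τ, Fintype.card_fin]; push_cast; ring
  have hn1r : (0 : ℝ) < n1 := by exact_mod_cast hn1
  have hn2r : (0 : ℝ) < n2 := by exact_mod_cast hn2
  have hAp : (A.card : ℝ) / Fintype.card τ = 1 / (32 * w) := by
    have : A.card = n2 := by
      simp only [A]
      rw [Fin.card_filter_val_lt]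
      exact min_eq_right (Nat.le_mul_of_pos_left _ hn1)
    rw [this, hcτ]
    have e1 : (n1 : ℝ) = 32 * w := by simp only [n1]; push_cast; ring
    rw [← e1]
    field_simp
  have hBp : (B.card : ℝ) / Fintype.card τ = 1 / (2 * w) := by
    have : B.card = n1 := by
      simp only [B]
      rw [Fin.card_filter_val_lt]
      exact min_eq_right (Nat.le_mul_of_pos_right _ hn2)
    rw [this, hcτ]
    have e1 : (n2 : ℝ) = 2 * w := by simp only [n2]; push_cast; ring
    rw [← e1]
    field_simp
  -- the disjunctions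
  choose Qd hQd1 hQd2 using hG
  let I : Type := I0 × (PP × LL)
  let L : Γt → List (Sw.Term I P) := fun γ =>
    ((Finset.univ : Finset (Y × (I → P → Bool))).filter (fun e => G γ e.1 e.2)).toList.map
      (fun e => (Qd γ e.1, e.2))
  have hL1 : ∀ γ, ∀ T ∈ L γ, T.1.card ≤ w := by
    intro γ T hT
    obtain ⟨e, -, rfl⟩ := List.mem_map.mp hT
    exact hQd1 γ e.1
  have hL2 : ∀ γ x, (∃ y, G γ y x) ↔ ∃ T ∈ L γ, Sw.sat T x := by
    intro γ x
    constructor
    · rintro ⟨y, hy⟩
      refine ⟨(Qd γ y, x), List.mem_map.mpr ⟨(y, x), ?_, rfl⟩, fun v _ => rfl⟩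
      rw [Finset.mem_toList, Finset.mem_filter]
      exact ⟨Finset.mem_univ _, hy⟩
    · rintro ⟨T, hT, hsat⟩
      obtain ⟨e, he, rfl⟩ := List.mem_map.mp hT
      rw [Finset.mem_toList, Finset.mem_filter] at he
      exact ⟨e.1, (hQd2 γ e.1 x e.2 (fun v hv => hsat v hv)).mpr he.2⟩
  -- the switching lemma
  have hsw : ∀ γ, avg (fun ω : Sw.Co I P → τ => ind (¬ Sw.Cert A B (L γ) ω ∅ (fun _ => false) s)) ≤
      (1 / 2) ^ s := by
    intro γ
    have hr : (1 + 1 / (2 * (w : ℝ))) ^ w ≤ 2 := by
      have h1 : 1 + 1 / (2 * (w : ℝ)) ≤ Real.exp (1 / (2 * (w : ℝ))) := by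
        have := Real.add_one_le_exp (1 / (2 * (w : ℝ)))
        linarith
      calc (1 + 1 / (2 * (w : ℝ))) ^ w ≤ (Real.exp (1 / (2 * (w : ℝ)))) ^ w :=
            pow_le_pow_left₀ (by positivity) h1 _
        _ = Real.exp (w * (1 / (2 * (w : ℝ)))) := by rw [← Real.exp_nat_mul]
        _ = Real.exp (1 / 2) := by congr 1; field_simp
        _ ≤ 2 := by
            have h2 := Real.exp_one_lt_d9
            have h3 : Real.exp (1 / 2) * Real.exp (1 / 2) = Real.exp 1 := by
              rw [← Real.exp_add]; norm_num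
            have h4 := Real.exp_pos (1 / 2)
            nlinarith
    have hβ : (A.card : ℝ) / Fintype.card τ ≤ (1 / (8 * (w : ℝ))) *
        ((1 - (A.card : ℝ) / Fintype.card τ) * (1 - (B.card : ℝ) / Fintype.card τ) ^ w) := by
      rw [hAp, hBp]
      have h1 : 1 / (32 * (w : ℝ)) ≤ 1 / 2 := by
        rw [div_le_div_iff₀ (by positivity) (by norm_num)]; linarith
      have h2 : (1 : ℝ) / 2 ≤ (1 - 1 / (2 * (w : ℝ))) ^ w := by
        have h3 : (-2 : ℝ) ≤ -(1 / (2 * (w : ℝ))) := by
          have : 1 / (2 * (w : ℝ)) ≤ 1 := by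
            rw [div_le_one (by positivity)]; linarith
          linarith
        have h4 := one_add_mul_le_pow h3 w
        have h5 : (w : ℝ) * -(1 / (2 * (w : ℝ))) = -(1 / 2) := by field_simp
        rw [h5] at h4
        calc (1 : ℝ) / 2 = 1 + -(1 / 2) := by norm_num
          _ ≤ (1 + -(1 / (2 * (w : ℝ)))) ^ w := h4
          _ = _ := by rw [← sub_eq_add_neg]
      calc 1 / (32 * (w : ℝ)) = (1 / (8 * (w : ℝ))) * ((1 / 2) * (1 / 2)) := by
            field_simp; norm_num
        _ ≤ _ := by
            apply mul_le_mul_of_nonneg_left _ (by positivity)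
            exact mul_le_mul (by linarith) h2 (by norm_num) (by linarith)
    have h := Sw.switch (I := I) (P := P) (A := A) (B := B) (w := w) (α := 1 / 2)
      (β := 1 / (8 * (w : ℝ))) (r := 1 / (2 * (w : ℝ))) (by norm_num) (by norm_num)
      (by positivity) (by positivity) (by field_simp; norm_num) hr hβ s (L γ) ∅ (fun _ => false)
      (fun _ => True) (fun _ _ _ _ => trivial) (hL1 γ)
    simp only [true_and] at h
    rw [ind_true trivial, avg_const, mul_one] at h
    exact h
  -- blocks without chosen position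
  have hS2 : avg (fun ω : Sw.Co I P → τ => ind (∃ i : I, ∀ p, ¬ Sw.ch B ω i p)) ≤
      (Fintype.card I : ℝ) * (1 - 1 / (2 * (w : ℝ))) ^ Fintype.card P := by
    apply avg_exists_le
    intro i
    have h1 : (fun ω : Sw.Co I P → τ => ind (∀ p, ¬ Sw.ch B ω i p)) =
        fun ω => ind (∀ c ∈ (Finset.univ : Finset P).image (fun p => (Sum.inr (i, p) : Sw.Co I P)),
          ω c ∈ (fun _ : Sw.Co I P => Finset.univ \ B) c) := by
      funext ω
      congr 1
      simp only [Finset.mem_image, Finset.mem_univ, true_and, forall_exists_index,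
        forall_apply_eq_imp_iff, Finset.mem_sdiff, Sw.ch]
    rw [h1, avg_box, Finset.prod_const, Finset.card_image_of_injective _
      (fun p p' h => by simpa using h), Finset.card_univ (α := P),
      compl_prob, hBp]
  -- groups without star
  have hS3 : avg (fun ω : Sw.Co I P → τ => ind (∃ e : I0 × PP, ∀ l : LL,
      ¬ Sw.star A ω (e.1, (e.2, l)))) ≤
      ((Fintype.card I0 : ℝ) * Fintype.card PP) * (1 - 1 / (32 * (w : ℝ))) ^ Fintype.card LL := by
    have h0 := avg_exists_le (Ω := Sw.Co I P → τ) (fun (e : I0 × PP) ω => ∀ l : LL,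
      ¬ Sw.star A ω (e.1, (e.2, l))) ((1 - 1 / (32 * (w : ℝ))) ^ Fintype.card LL) ?_
    · rw [Fintype.card_prod] at h0
      push_cast at h0
      exact h0
    · intro e
      have h1 : (fun ω : Sw.Co I P → τ => ind (∀ l : LL, ¬ Sw.star A ω (e.1, (e.2, l)))) =
          fun ω => ind (∀ c ∈ (Finset.univ : Finset LL).image
            (fun l => (Sum.inl (e.1, (e.2, l)) : Sw.Co I P)),
            ω c ∈ (fun _ : Sw.Co I P => Finset.univ \ A) c) := by
        funext ω
        congr 1
        simp only [Finset.mem_image, Finset.mem_univ, true_and, forall_exists_index,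
          forall_apply_eq_imp_iff, Finset.mem_sdiff, Sw.star]
      rw [h1, avg_box, Finset.prod_const, Finset.card_image_of_injective _
        (fun p p' h => by
          exact congrArg (fun x : I0 × PP × LL => x.2.2) (Sum.inl_injective h)),
          Finset.card_univ (α := LL),
        compl_prob, hAp]
  have hS1 : avg (fun ω : Sw.Co I P → τ => ind (∃ γ : Γt,
      ¬ Sw.Cert A B (L γ) ω ∅ (fun _ => false) s)) ≤ (Fintype.card Γt : ℝ) * (1 / 2) ^ s :=
    avg_exists_le _ _ hsw
  -- a good restriction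
  have hall : avg (fun ω : Sw.Co I P → τ => ind (
      ((∃ γ : Γt, ¬ Sw.Cert A B (L γ) ω ∅ (fun _ => false) s) ∨
      (∃ i : I, ∀ p, ¬ Sw.ch B ω i p)) ∨
      (∃ e : I0 × PP, ∀ l : LL, ¬ Sw.star A ω (e.1, (e.2, l))))) < 1 := by
    refine lt_of_le_of_lt (avg_mono fun ω => (ind_or_le _ _).trans
      (add_le_add_left (ind_or_le _ _) _)) ?_
    rw [avg_add, avg_add]
    refine lt_of_le_of_lt ?_ hfail
    unfold stepFail
    exact add_le_add (add_le_add hS1 hS2) hS3
  obtain ⟨ω, hω⟩ := exists_not_of_avg_lt hall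
  push Not at hω
  obtain ⟨⟨hc1, hc2⟩, hc3⟩ := hω
  choose lp hlp using hc3
  let zt : (I0 → PP → Bool) → I → Bool := fun z i =>
    if i.2.2 = lp (i.1, i.2.1) then z i.1 i.2.1 else false
  refine ⟨fun z => Sw.xin A B ω (zt z), ?_, ?_, ?_⟩
  · intro z i0
    constructor
    · rintro ⟨⟨p', l⟩, hx⟩
      obtain ⟨p0, hp0⟩ := hc2 (i0, (p', l))
      have h1 := hx p0
      simp only [Sw.xin, hp0, if_true] at h1
      split_ifs at h1 with h2
      simp only [zt] at h1
      split_ifs at h1 with h3
      exact ⟨p', h1⟩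
    · rintro ⟨p', hp'⟩
      refine ⟨(p', lp (i0, p')), fun p => ?_⟩
      have h2 := hlp (i0, p')
      simp only at h2
      simp only [Sw.xin]
      split_ifs
      · simp only [zt, if_true]
        exact hp'
      · rfl
  · intro γ z hz
    have hov : ∀ z' : I → Bool, Sw.ov (∅ : Finset I) (fun _ => false) z' = z' := by
      intro z'; funext i; simp [Sw.ov]
    have hcert := hc1 γ
    have h1 : ¬ Sw.hh A B (L γ) ω ∅ (fun _ => false) (zt z) := by
      unfold Sw.hh
      rw [hov, ← hL2]
      exact hz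
    obtain ⟨K, hK, hKz⟩ := hcert (zt z) h1
    refine ⟨K.image (fun i => (i.1, i.2.1)), Finset.card_image_le.trans_lt hK, ?_⟩
    intro z' hz'
    have h2 := hKz (zt z') ?_
    · unfold Sw.hh at h2
      rw [hov, ← hL2] at h2
      exact h2
    · intro i hi
      have := hz' (i.1, i.2.1) (Finset.mem_image.mpr ⟨i, hi, rfl⟩)
      simp only at this
      simp only [zt]
      rw [this]
  · intro H Q hQ
    refine ⟨Q.image (fun v => (v.1.1, v.1.2.1)), Finset.card_image_le, ?_⟩
    intro z z' hzz'
    apply hQ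
    intro v hv
    have := hzz' (v.1.1, v.1.2.1) (Finset.mem_image.mpr ⟨v, hv, rfl⟩)
    simp only at this
    simp only [Sw.xin, zt]
    rw [this]

/-- the step for both parities -/
lemma step_lev (n : ℕ) (G : Γt → Y → ((I0 × (PP × LL)) → P → Bool) → Prop) (w s : ℕ) (hw : 1 ≤ w)
    (hG : ∀ γ y, ∃ Q : Finset ((I0 × (PP × LL)) × P), Q.card ≤ w ∧ Dep Q (G γ y))
    (hfail : stepFail (Fintype.card Γt) s (Fintype.card (I0 × (PP × LL))) w (Fintype.card P)
      (Fintype.card I0) (Fintype.card PP) (Fintype.card LL) < 1) :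
    ∃ Z : (I0 → PP → Bool) → ((I0 × (PP × LL)) → P → Bool),
      (∀ z i0, lev n (fun x : PP × LL => lev (n + 1) (fun p => Z z (i0, x) p = true)) ↔
        lev n (fun p' => z i0 p' = true)) ∧
      (∀ γ, CertL n s (fun z => lev n (fun y => G γ y (Z z)))) ∧
      (∀ (H : ((I0 × (PP × LL)) → P → Bool) → Prop) (Q : Finset ((I0 × (PP × LL)) × P)),
        Dep Q H → ∃ Q' : Finset (I0 × PP), Q'.card ≤ Q.card ∧ Dep Q' (fun z => H (Z z))) := by
  rcases Nat.mod_two_eq_zero_or_one n with hn | hn
  · -- level `n` universal: dualize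
    have hG' : ∀ γ y, ∃ Q : Finset ((I0 × (PP × LL)) × P), Q.card ≤ w ∧
        Dep Q (fun x => ¬ G γ y (fun i p => !(x i p))) := by
      intro γ y
      obtain ⟨Q, hQ, hd⟩ := hG γ y
      refine ⟨Q, hQ, fun q q' hqq' => ?_⟩
      exact not_congr (hd (fun i p => !(q i p)) (fun i p => !(q' i p))
        (fun e he => by rw [hqq' e he]))
    obtain ⟨Z', h1, h2, h3⟩ := step_or (fun γ y x => ¬ G γ y (fun i p => !(x i p))) w s hw hG' hfail
    refine ⟨fun z i p => !(Z' (fun i0 p' => !(z i0 p')) i p), ?_, ?_, ?_⟩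
    · intro z i0
      rw [lev_even hn, lev_even hn]
      simp only [lev_odd (show (n + 1) % 2 = 1 by omega)]
      have := h1 (fun i0 p' => !(z i0 p')) i0
      constructor
      · intro h p'
        by_contra hne
        have h4 : ∃ p', (fun i0 p' => !(z i0 p')) i0 p' = true := ⟨p', by simpa using hne⟩
        obtain ⟨x, hx⟩ := this.mpr h4
        obtain ⟨p, hp⟩ := h x
        simp [hx p] at hp
      · intro h x
        by_contra hne
        push Not at hne
        have h4 : ∃ x : PP × LL, ∀ p, Z' (fun i0 p' => !(z i0 p')) (i0, x) p = true :=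
          ⟨x, fun p => by
            have := hne p
            revert this
            cases Z' (fun i0 p' => !(z i0 p')) (i0, x) p <;> simp⟩
        obtain ⟨p', hp'⟩ := this.mp h4
        simp [h p'] at hp'
    · intro γ
      have hc := h2 γ
      unfold CertL
      rw [if_neg (by omega)]
      intro z hz
      rw [not_not, lev_even hn] at hz
      have hz' : ¬ ∃ y, ¬ G γ y (fun i p => !(Z' (fun i0 p' => !(z i0 p')) i p)) := by
        push Not
        exact hz
      obtain ⟨K, hK, hKz⟩ := hc (fun i0 p' => !(z i0 p')) hz'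
      refine ⟨K, hK, fun z' hzz' => ?_⟩
      have := hKz (fun i0 p' => !(z' i0 p')) (fun e he => by rw [hzz' e he])
      push Not at this
      exact not_not.mpr ((lev_even hn _).mpr this)
    · intro H Q hQ
      have hQ' : Dep Q (fun x : (I0 × (PP × LL)) → P → Bool => H (fun i p => !(x i p))) := by
        intro q q' hqq'
        exact hQ (fun i p => !(q i p)) (fun i p => !(q' i p)) (fun e he => by rw [hqq' e he])
      obtain ⟨Q', hc, hd⟩ := h3 _ Q hQ'
      refine ⟨Q', hc, fun z z' hzz' => ?_⟩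
      exact hd (fun i0 p' => !(z i0 p')) (fun i0 p' => !(z' i0 p')) (fun e he => by rw [hzz' e he])
  · obtain ⟨Z, h1, h2, h3⟩ := step_or G w s hw hG hfail
    refine ⟨Z, ?_, ?_, h3⟩
    · intro z i0
      rw [lev_odd hn, lev_odd hn]
      simp only [lev_even (show (n + 1) % 2 = 0 by omega)]
      exact h1 z i0
    · intro γ
      unfold CertL
      rw [if_pos hn]
      simp only [lev_odd hn]
      exact h2 γ

end

/-- a function with small certificates is a combination of narrow tests at the previous level -/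
lemma cert_expand {X P : Type} [Fintype X] [DecidableEq X] [Fintype P] [DecidableEq P] (n s : ℕ)
    (g : (X → P → Bool) → Prop) (h : CertL (n + 1) s g) :
    ∃ cl : Finset (X × P) × (X → P → Bool) → (X → P → Bool) → Prop,
      (∀ c, ∃ Q : Finset (X × P), Q.card ≤ s ∧ Dep Q (cl c)) ∧
      ∀ z, g z ↔ lev n (fun c => cl c z) := by
  rcases Nat.mod_two_eq_zero_or_one n with hn | hn
  · -- level `n + 1` existential: certificates for false
    unfold CertL at h
    rw [if_pos (by omega)] at h
    refine ⟨fun c z => (c.1.card < s ∧ ∀ z', (∀ e ∈ c.1, z' e.1 e.2 = c.2 e.1 e.2) → ¬ g z') →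
      ¬ ∀ e ∈ c.1, z e.1 e.2 = c.2 e.1 e.2, ?_, ?_⟩
    · intro c
      by_cases hc : c.1.card < s
      · refine ⟨c.1, hc.le, fun q q' hqq' => ?_⟩
        have : (∀ e ∈ c.1, q e.1 e.2 = c.2 e.1 e.2) ↔ (∀ e ∈ c.1, q' e.1 e.2 = c.2 e.1 e.2) := by
          constructor
          · intro h1 e he; rw [← hqq' e he]; exact h1 e he
          · intro h1 e he; rw [hqq' e he]; exact h1 e he
        simp only [this]
      · refine ⟨∅, by simp, fun q q' _ => ?_⟩
        simp only [hc, false_and, false_imp_iff]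
    · intro z
      rw [lev_even hn]
      constructor
      · intro hg c hc hz
        exact hc.2 z hz hg
      · intro hall
        by_contra hng
        obtain ⟨K, hK, hKz⟩ := h z hng
        exact hall (K, z) ⟨hK, hKz⟩ (fun _ _ => rfl)
  · unfold CertL at h
    rw [if_neg (by omega)] at h
    refine ⟨fun c z => (c.1.card < s ∧ ∀ z', (∀ e ∈ c.1, z' e.1 e.2 = c.2 e.1 e.2) → g z') ∧
      ∀ e ∈ c.1, z e.1 e.2 = c.2 e.1 e.2, ?_, ?_⟩
    · intro c
      by_cases hc : c.1.card < s
      · refine ⟨c.1, hc.le, fun q q' hqq' => ?_⟩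
        have : (∀ e ∈ c.1, q e.1 e.2 = c.2 e.1 e.2) ↔ (∀ e ∈ c.1, q' e.1 e.2 = c.2 e.1 e.2) := by
          constructor
          · intro h1 e he; rw [← hqq' e he]; exact h1 e he
          · intro h1 e he; rw [hqq' e he]; exact h1 e he
        simp only [this]
      · refine ⟨∅, by simp, fun q q' _ => ?_⟩
        simp only [hc, false_and]
    · intro z
      rw [lev_odd hn]
      constructor
      · intro hg
        obtain ⟨K, hK, hKz⟩ := h z (not_not.mpr hg)
        refine ⟨(K, z), ⟨hK, fun z' hz' => ?_⟩, fun _ _ => rfl⟩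
        exact not_not.mp (hKz z' hz')
      · rintro ⟨c, hc, hz⟩
        exact hc.2 z hz

end

end Pool.Agent.Helper265_EW
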