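import Pool.Agent.H592R2.Params
import Pool.Agent.Helper265_EW.Core

set_option linter.unusedSectionVars false

/-! A switching lemma for block restrictions: in a block, chosen positions carry the value of the
block (free for star blocks, `false` otherwise) and all other positions are `true`. A disjunction
of narrow terms then has small certificates for the value `false`. -/

namespace Pool.Agent.Helper265_EW.Sw

open Finset Classical Pool.Agent.H592R2

noncomputable section

variable {I P τ : Type} [Fintype I] [DecidableEq I] [Fintype P] [DecidableEq P]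
  [Fintype τ] [Nonempty τ] [DecidableEq τ]

/-- coordinates: a status per block and one per position -/
abbrev Co (I P : Type) : Type := I ⊕ (I × P)

/-- star blocks -/
def star (A : Finset τ) (ω : Co I P → τ) (i : I) : Prop := ω (Sum.inl i) ∈ A

/-- chosen positions -/
def ch (B : Finset τ) (ω : Co I P → τ) (i : I) (p : P) : Prop := ω (Sum.inr (i, p)) ∈ B

/-- the input determined by the restriction and the values of the star blocks -/
def xin (A B : Finset τ) (ω : Co I P → τ) (z : I → Bool) : I → P → Bool := fun i p =>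
  if ch B ω i p then (if star A ω i then z i else false) else true

/-- assigned blocks -/
def ov (W : Finset I) (a z : I → Bool) : I → Bool := fun i => if i ∈ W then a i else z i

/-- terms: positions and wanted values -/
abbrev Term (I P : Type) : Type := Finset (I × P) × (I → P → Bool)

/-- satisfied terms -/
def sat (T : Term I P) (x : I → P → Bool) : Prop := ∀ v ∈ T.1, x v.1 v.2 = T.2 v.1 v.2

/-- the restricted disjunction -/
def hh (A B : Finset τ) (L : List (Term I P)) (ω : Co I P → τ) (W : Finset I) (a z : I → Bool) :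
    Prop := ∃ T ∈ L, sat T (xin A B ω (ov W a z))

/-- all inputs with value false have a certificate of size less than `s` -/
def Cert (A B : Finset τ) (L : List (Term I P)) (ω : Co I P → τ) (W : Finset I) (a : I → Bool)
    (s : ℕ) : Prop :=
  ∀ z, ¬ hh A B L ω W a z → ∃ K : Finset I, K.card < s ∧
    ∀ z', (∀ i ∈ K, z' i = z i) → ¬ hh A B L ω W a z'

/-- downward modifications outside `W` -/
def Dn (A B : Finset τ) (W : Finset I) (ω ω' : Co I P → τ) : Prop :=
  (∀ i ∈ W, (star A ω i ↔ star A ω' i) ∧ ∀ p, (ch B ω i p ↔ ch B ω' i p)) ∧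
  (∀ i, i ∉ W → ¬ star A ω i → (¬ star A ω' i ∧ ∀ p, (ch B ω i p ↔ ch B ω' i p))) ∧
  (∀ i, i ∉ W → star A ω i → ∀ p, ch B ω' i p → ch B ω i p)

/-- closed events -/
def Closed (A B : Finset τ) (W : Finset I) (Δ : (Co I P → τ) → Prop) : Prop :=
  ∀ ω ω', Dn A B W ω ω' → Δ ω → Δ ω'

lemma Dn.mono {A B : Finset τ} {W W' : Finset I} (h : W ⊆ W') {ω ω' : Co I P → τ}
    (hd : Dn A B W' ω ω') : Dn A B W ω ω' := by
  obtain ⟨h1, h2, h3⟩ := hd
  refine ⟨fun i hi => h1 i (h hi), fun i hi hs => ?_, fun i hi hs p hp => ?_⟩
  · by_cases hW : i ∈ W'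
    · obtain ⟨a1, a2⟩ := h1 i hW
      exact ⟨fun h => hs (a1.mpr h), a2⟩
    · exact h2 i hW hs
  · by_cases hW : i ∈ W'
    · exact ((h1 i hW).2 p).mpr hp
    · exact h3 i hW hs p hp

/-- known positions -/
def kn (A B : Finset τ) (W : Finset I) (ω : Co I P → τ) (i : I) (p : P) : Prop :=
  ¬ (ch B ω i p ∧ star A ω i ∧ i ∉ W)

/-- known values -/
def vl (A B : Finset τ) (W : Finset I) (a : I → Bool) (ω : Co I P → τ) (i : I) (p : P) : Bool :=
  xin A B ω (ov W a (fun _ => false)) i p

lemma vl_eq {A B : Finset τ} {W : Finset I} {a : I → Bool} {ω : Co I P → τ} {i : I} {p : P}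
    (h : kn A B W ω i p) (z : I → Bool) : xin A B ω (ov W a z) i p = vl A B W a ω i p := by
  simp only [vl, xin, ov]
  by_cases hc : ch B ω i p
  · by_cases hs : star A ω i
    · have hW : i ∈ W := by
        by_contra hW; exact h ⟨hc, hs, hW⟩
      simp only [hc, hs, hW, if_true]
    · simp only [hc, hs, if_true, if_false]
  · simp only [hc, if_false]

/-- falsified terms -/
def fals (A B : Finset τ) (W : Finset I) (a : I → Bool) (T : Term I P) (ω : Co I P → τ) : Prop :=
  ∃ v ∈ T.1, kn A B W ω v.1 v.2 ∧ vl A B W a ω v.1 v.2 ≠ T.2 v.1 v.2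

/-- unassigned star blocks touched by a term -/
def UU (A B : Finset τ) (W : Finset I) (T : Term I P) (ω : Co I P → τ) : Finset I :=
  Finset.univ.filter (fun i => i ∉ W ∧ star A ω i ∧ ∃ p, (i, p) ∈ T.1 ∧ ch B ω i p)

/-- satisfied by the restriction -/
def asat (A B : Finset τ) (W : Finset I) (a : I → Bool) (T : Term I P) (ω : Co I P → τ) : Prop :=
  ∀ v ∈ T.1, kn A B W ω v.1 v.2 ∧ vl A B W a ω v.1 v.2 = T.2 v.1 v.2

lemma mem_UU {A B : Finset τ} {W : Finset I} {T : Term I P} {ω : Co I P → τ} {i : I} :
    i ∈ UU A B W T ω ↔ i ∉ W ∧ star A ω i ∧ ∃ p, (i, p) ∈ T.1 ∧ ch B ω i p := by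
  simp [UU]

lemma kn_of_not_UU {A B : Finset τ} {W : Finset I} {T : Term I P} {ω : Co I P → τ} {v : I × P}
    (hv : v ∈ T.1) (h : v.1 ∉ UU A B W T ω) : kn A B W ω v.1 v.2 := by
  rintro ⟨h1, h2, h3⟩
  exact h (mem_UU.mpr ⟨h3, h2, v.2, hv, h1⟩)

lemma kn_vl_dn {A B : Finset τ} {W : Finset I} {a : I → Bool} {ω ω' : Co I P → τ}
    (hd : Dn A B W ω ω') {i : I} {p : P} (h : kn A B W ω i p) :
    kn A B W ω' i p ∧ vl A B W a ω' i p = vl A B W a ω i p := by
  obtain ⟨h1, h2, h3⟩ := hd
  by_cases hW : i ∈ W
  · obtain ⟨e1, e2⟩ := h1 i hW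
    refine ⟨fun h' => h'.2.2 hW, ?_⟩
    simp only [vl, xin, ← e1, ← e2 p]
  · by_cases hs : star A ω i
    · have hc : ¬ ch B ω i p := fun hc => h ⟨hc, hs, hW⟩
      have hc' : ¬ ch B ω' i p := fun hc' => hc (h3 i hW hs p hc')
      refine ⟨fun h' => hc' h'.1, ?_⟩
      simp only [vl, xin, hc, hc', if_false]
    · obtain ⟨e1, e2⟩ := h2 i hW hs
      refine ⟨fun h' => e1 h'.2.1, ?_⟩
      simp only [vl, xin, hs, e1, ← e2 p, if_false]

lemma closed_fals {A B : Finset τ} {W : Finset I} (a : I → Bool) (T : Term I P)
    {Δ : (Co I P → τ) → Prop} (h : Closed A B W Δ) :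
    Closed A B W (fun ω => Δ ω ∧ fals A B W a T ω) := by
  rintro ω ω' hd ⟨h1, v, hv, hk, hne⟩
  refine ⟨h ω ω' hd h1, v, hv, ?_⟩
  obtain ⟨e1, e2⟩ := kn_vl_dn (a := a) hd hk
  exact ⟨e1, by rw [e2]; exact hne⟩

lemma closed_U {A B : Finset τ} {W : Finset I} (a : I → Bool) (T : Term I P) (U0 : Finset I)
    {Δ : (Co I P → τ) → Prop} (h : Closed A B W Δ) :
    Closed A B (W ∪ U0) (fun ω => Δ ω ∧ ¬ fals A B W a T ω ∧ UU A B W T ω = U0) := by
  rintro ω ω' hd ⟨h1, h2, h3⟩
  have hdW : Dn A B W ω ω' := hd.mono Finset.subset_union_left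
  obtain ⟨d1, d2, d3⟩ := hd
  refine ⟨h ω ω' hdW h1, ?_, ?_⟩
  · rintro ⟨v, hv, hk, hne⟩
    by_cases hW : v.1 ∈ W ∪ U0
    · obtain ⟨e1, e2⟩ := d1 v.1 hW
      apply h2
      refine ⟨v, hv, ?_, ?_⟩
      · rintro ⟨k1, k2, k3⟩
        exact hk ⟨(e2 _).mp k1, e1.mp k2, k3⟩
      · have : vl A B W a ω v.1 v.2 = vl A B W a ω' v.1 v.2 := by
          simp only [vl, xin, e1, e2 v.2]
        rw [this]; exact hne
    · have hU : v.1 ∉ UU A B W T ω := by
        rw [h3]; exact fun h => hW (Finset.mem_union_right _ h)
      have hkn := kn_of_not_UU hv hU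
      obtain ⟨-, e2⟩ := kn_vl_dn (a := a) hdW hkn
      apply h2
      refine ⟨v, hv, hkn, ?_⟩
      rw [← e2]; exact hne
  · ext i
    constructor
    · intro hi
      obtain ⟨i1, i2, p, i3, i4⟩ := mem_UU.mp hi
      by_contra hU
      have hW : i ∉ W ∪ U0 := by
        intro h
        rcases Finset.mem_union.mp h with h | h
        · exact i1 h
        · exact hU h
      by_cases hs : star A ω i
      · apply hU
        rw [← h3]
        exact mem_UU.mpr ⟨i1, hs, p, i3, d3 i hW hs p i4⟩
      · exact (d2 i hW hs).1 i2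
    · intro hi
      have hi' := hi
      rw [← h3] at hi'
      obtain ⟨i1, i2, p, i3, i4⟩ := mem_UU.mp hi'
      obtain ⟨e1, e2⟩ := d1 i (Finset.mem_union_right _ hi)
      exact mem_UU.mpr ⟨i1, e1.mp i2, p, i3, (e2 p).mp i4⟩

/-- weight comparison -/
lemma key_ineq {A B : Finset τ} {W : Finset I} (a : I → Bool) (T : Term I P) (U0 : Finset I)
    (hU0 : U0.Nonempty) {Δ : (Co I P → τ) → Prop} (h : Closed A B W Δ) {w : ℕ}
    (hw : T.1.card ≤ w) {β : ℝ} (hβ0 : 0 ≤ β)
    (hβ : (A.card : ℝ) / Fintype.card τ ≤ β * ((1 - (A.card : ℝ) / Fintype.card τ) *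
      (1 - (B.card : ℝ) / Fintype.card τ) ^ w)) :
    avg (fun ω : Co I P → τ => ind (Δ ω ∧ ¬ fals A B W a T ω ∧ UU A B W T ω = U0)) ≤
      β ^ U0.card * avg (fun ω : Co I P → τ => ind (Δ ω ∧ asat A B W a T ω)) := by
  set π : ℝ := (A.card : ℝ) / Fintype.card τ with hπ
  set lam : ℝ := (B.card : ℝ) / Fintype.card τ with hlam
  have hcτ : (0 : ℝ) < Fintype.card τ := by exact_mod_cast Fintype.card_pos
  have hπ0 : 0 ≤ π := by positivity
  have hπ1 : π ≤ 1 := by
    rw [hπ, div_le_one hcτ]; exact_mod_cast Finset.card_le_univ A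
  have hl0 : 0 ≤ lam := by positivity
  have hl1 : lam ≤ 1 := by
    rw [hlam, div_le_one hcτ]; exact_mod_cast Finset.card_le_univ B
  let Pos : Finset (I × P) := T.1.filter (fun v => v.1 ∈ U0 ∧ T.2 v.1 v.2 = true)
  let F1 : Finset (Co I P) := U0.image Sum.inl
  let F2 : Finset (Co I P) := Pos.image Sum.inr
  let R : Set (Co I P) := {c | c ∉ F1 ∪ F2}
  have hin1 : ∀ i, (Sum.inl i : Co I P) ∈ F1 ∪ F2 ↔ i ∈ U0 := by
    intro i
    simp [F1, F2]
  have hin2 : ∀ v : I × P, (Sum.inr v : Co I P) ∈ F1 ∪ F2 ↔ v ∈ Pos := by
    intro v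
    simp [F1, F2]
  rw [← avg_mix (T := fun _ : Co I P => τ) R, ← avg_mix (T := fun _ : Co I P => τ) R
    (fun ω => ind (Δ ω ∧ asat A B W a T ω)), ← avg_const_mul]
  apply avg_mono
  intro b1
  by_cases hex : ∃ b0 : Co I P → τ, Δ (mix R b1 b0) ∧ ¬ fals A B W a T (mix R b1 b0) ∧
      UU A B W T (mix R b1 b0) = U0
  swap
  · have h0 : (fun b : Co I P → τ => ind (Δ (mix R b1 b) ∧ ¬ fals A B W a T (mix R b1 b) ∧
      UU A B W T (mix R b1 b) = U0)) = fun _ => (0 : ℝ) := by
      funext b
      exact ind_false (fun hb => hex ⟨b, hb⟩)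
    rw [h0, avg_const]
    exact mul_nonneg (pow_nonneg hβ0 _) (avg_nonneg fun _ => ind_nonneg _)
  obtain ⟨b0, hΔ, hnf, hU⟩ := hex
  set ω0 : Co I P → τ := mix R b1 b0 with hω0
  have hUW : ∀ i ∈ U0, i ∉ W := by
    intro i hi
    rw [← hU] at hi
    exact (mem_UU.mp hi).1
  have hUs : ∀ i ∈ U0, star A ω0 i := by
    intro i hi
    rw [← hU] at hi
    exact (mem_UU.mp hi).2.1
  -- upper bound
  have hup : avg (fun b : Co I P → τ => ind (Δ (mix R b1 b) ∧ ¬ fals A B W a T (mix R b1 b) ∧
      UU A B W T (mix R b1 b) = U0)) ≤ π ^ U0.card := by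
    calc _ ≤ avg (fun b : Co I P → τ => ind (∀ c ∈ F1, b c ∈ (fun _ : Co I P => A) c)) := by
          apply avg_mono
          intro b
          apply ind_mono
          rintro ⟨-, -, hUb⟩ c hc
          obtain ⟨i, hi, rfl⟩ := Finset.mem_image.mp hc
          have h1 : star A (mix R b1 b) i := by
            have : i ∈ UU A B W T (mix R b1 b) := by rw [hUb]; exact hi
            exact (mem_UU.mp this).2.1
          have h2 : (Sum.inl i : Co I P) ∉ R := by
            simp only [R, Set.mem_ofPred_eq, not_not]
            exact (hin1 i).mpr hi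
          unfold star at h1
          rwa [mix_not_mem (T := fun _ => τ) h2] at h1
      _ = π ^ U0.card := by
          rw [avg_box, Finset.prod_const, Finset.card_image_of_injective _ Sum.inl_injective]
  -- lower bound
  let BB : Co I P → Finset τ := fun c => match c with
    | Sum.inl _ => Finset.univ \ A
    | Sum.inr _ => Finset.univ \ B
  have hlow : (1 - π) ^ U0.card * (1 - lam) ^ Pos.card ≤
      avg (fun b : Co I P → τ => ind (Δ (mix R b1 b) ∧ asat A B W a T (mix R b1 b))) := by
    calc (1 - π) ^ U0.card * (1 - lam) ^ Pos.card =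
        avg (fun b : Co I P → τ => ind (∀ c ∈ F1 ∪ F2, b c ∈ BB c)) := by
          have hdis : Disjoint F1 F2 := by
            rw [Finset.disjoint_left]
            intro c hc1 hc2
            obtain ⟨i, -, rfl⟩ := Finset.mem_image.mp hc1
            obtain ⟨v, -, hv⟩ := Finset.mem_image.mp hc2
            exact absurd hv (by simp)
          rw [avg_box, Finset.prod_union hdis, Finset.prod_image, Finset.prod_image]
          · congr 1
            · rw [← Finset.prod_const]
              apply Finset.prod_congr rfl
              intro i _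
              simp only [BB]
              rw [Finset.card_univ_sdiff, Nat.cast_sub (Finset.card_le_univ A), sub_div,
                div_self hcτ.ne']
            · rw [← Finset.prod_const]
              apply Finset.prod_congr rfl
              intro i _
              simp only [BB]
              rw [Finset.card_univ_sdiff, Nat.cast_sub (Finset.card_le_univ B), sub_div,
                div_self hcτ.ne']
          · intro x _ y _ hxy; simpa using hxy
          · intro x _ y _ hxy; simpa using hxy
      _ ≤ _ := by
          apply avg_mono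
          intro b
          apply ind_mono
          intro hb
          set ω' : Co I P → τ := mix R b1 b with hω'
          -- coordinates outside are the same
          have hsame1 : ∀ i, i ∉ U0 → ω' (Sum.inl i) = ω0 (Sum.inl i) := by
            intro i hi
            have h2 : (Sum.inl i : Co I P) ∈ R := by
              simp only [R, Set.mem_ofPred_eq]
              rw [hin1]; exact hi
            rw [hω', hω0, mix_mem (T := fun _ => τ) h2, mix_mem (T := fun _ => τ) h2]
          have hsame2 : ∀ v, v ∉ Pos → ω' (Sum.inr v) = ω0 (Sum.inr v) := by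
            intro v hv
            have h2 : (Sum.inr v : Co I P) ∈ R := by
              simp only [R, Set.mem_ofPred_eq]
              rw [hin2]; exact hv
            rw [hω', hω0, mix_mem (T := fun _ => τ) h2, mix_mem (T := fun _ => τ) h2]
          have hns : ∀ i ∈ U0, ¬ star A ω' i := by
            intro i hi
            have h2 : (Sum.inl i : Co I P) ∉ R := by
              simp only [R, Set.mem_ofPred_eq, not_not]
              exact (hin1 i).mpr hi
            have h3 := hb (Sum.inl i) ((hin1 i).mpr hi)
            simp only [BB, Finset.mem_sdiff, Finset.mem_univ, true_and] at h3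
            unfold star
            rw [hω', mix_not_mem (T := fun _ => τ) h2]
            exact h3
          have hnc : ∀ v ∈ Pos, ¬ ch B ω' v.1 v.2 := by
            intro v hv
            have h2 : (Sum.inr v : Co I P) ∉ R := by
              simp only [R, Set.mem_ofPred_eq, not_not]
              exact (hin2 v).mpr hv
            have h3 := hb (Sum.inr v) ((hin2 v).mpr hv)
            simp only [BB, Finset.mem_sdiff, Finset.mem_univ, true_and] at h3
            unfold ch
            rw [hω', mix_not_mem (T := fun _ => τ) h2]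
            exact h3
          have hst : ∀ i, i ∉ U0 → (star A ω0 i ↔ star A ω' i) := by
            intro i hi
            unfold star
            rw [hsame1 i hi]
          have hch : ∀ v, v ∉ Pos → (ch B ω0 v.1 v.2 ↔ ch B ω' v.1 v.2) := by
            intro v hv
            unfold ch
            rw [hsame2 v hv]
          have hchU : ∀ i, i ∉ U0 → ∀ p, (ch B ω0 i p ↔ ch B ω' i p) := by
            intro i hi p
            apply hch (i, p)
            intro hv
            exact hi (Finset.mem_filter.mp hv).2.1
          have hdn : Dn A B W ω0 ω' := by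
            refine ⟨fun i hi => ?_, fun i hi hs => ?_, fun i hi hs p hp => ?_⟩
            · have : i ∉ U0 := fun h => hUW i h hi
              exact ⟨hst i this, hchU i this⟩
            · have : i ∉ U0 := fun h => hs (hUs i h)
              exact ⟨fun h => hs ((hst i this).mpr h), hchU i this⟩
            · by_cases hv : (i, p) ∈ Pos
              · exact absurd hp (hnc _ hv)
              · exact (hch (i, p) hv).mpr hp
          refine ⟨h ω0 ω' hdn hΔ, ?_⟩
          intro v hv
          by_cases hi : v.1 ∈ U0
          · refine ⟨fun hk => hns v.1 hi hk.2.1, ?_⟩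
            cases hT : T.2 v.1 v.2 with
            | true =>
              have hvP : v ∈ Pos := Finset.mem_filter.mpr ⟨hv, hi, hT⟩
              simp only [vl, xin, hnc v hvP, if_false]
            | false =>
              have hvP : v ∉ Pos := by
                intro h
                have := (Finset.mem_filter.mp h).2.2
                rw [hT] at this
                exact Bool.false_ne_true this
              have hc0 : ch B ω0 v.1 v.2 := by
                by_contra hc
                apply hnf
                refine ⟨v, hv, fun hk => hc hk.1, ?_⟩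
                rw [hT]
                simp only [vl, xin, hc, if_false]
                simp
              have hc' := (hch v hvP).mp hc0
              simp only [vl, xin, hc', hns v.1 hi, if_true, if_false]
          · have hkn : kn A B W ω0 v.1 v.2 := kn_of_not_UU hv (by rw [hU]; exact hi)
            obtain ⟨e1, e2⟩ := kn_vl_dn (a := a) hdn hkn
            refine ⟨e1, ?_⟩
            rw [e2]
            by_contra hne
            exact hnf ⟨v, hv, hkn, hne⟩
  -- comparison
  have hPos : Pos.card ≤ w * U0.card := by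
    calc Pos.card ≤ T.1.card := Finset.card_filter_le _ _
      _ ≤ w := hw
      _ = w * 1 := (mul_one w).symm
      _ ≤ w * U0.card := Nat.mul_le_mul_left _ (Finset.card_pos.mpr hU0)
  have h1l : 0 ≤ 1 - lam := by linarith
  have h1p : 0 ≤ 1 - π := by linarith
  calc _ ≤ π ^ U0.card := hup
    _ ≤ (β * ((1 - π) * (1 - lam) ^ w)) ^ U0.card := pow_le_pow_left₀ hπ0 hβ _
    _ = β ^ U0.card * ((1 - π) ^ U0.card * (1 - lam) ^ (w * U0.card)) := by
        rw [mul_pow, mul_pow, ← pow_mul]
    _ ≤ β ^ U0.card * ((1 - π) ^ U0.card * (1 - lam) ^ Pos.card) := by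
        apply mul_le_mul_of_nonneg_left _ (pow_nonneg hβ0 _)
        apply mul_le_mul_of_nonneg_left _ (pow_nonneg h1p _)
        exact pow_le_pow_of_le_one h1l (by linarith) hPos
    _ ≤ _ := mul_le_mul_of_nonneg_left hlow (pow_nonneg hβ0 _)

/-- one branching step -/
lemma cert_branch {A B : Finset τ} {L : List (Term I P)} {ω : Co I P → τ} {W : Finset I}
    {a : I → Bool} {s : ℕ} {U0 : Finset I} (hd : ∀ i ∈ U0, i ∉ W) (hs : U0.card < s)
    (h : ∀ t ∈ U0.powerset, Cert A B L ω (W ∪ U0)
      (fun i => if i ∈ U0 then decide (i ∈ t) else a i) (s - U0.card)) : Cert A B L ω W a s := by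
  intro z hz
  let t : Finset I := U0.filter (fun i => z i = true)
  have ht : t ∈ U0.powerset := Finset.mem_powerset.mpr (Finset.filter_subset _ _)
  have hov : ∀ z' : I → Bool, (∀ i ∈ U0, z' i = z i) →
      ov (W ∪ U0) (fun i => if i ∈ U0 then decide (i ∈ t) else a i) z' = ov W a z' := by
    intro z' hz'
    funext i
    simp only [ov]
    by_cases hU : i ∈ U0
    · have h1 : i ∈ W ∪ U0 := Finset.mem_union_right _ hU
      rw [if_pos h1, if_pos hU, if_neg (hd i hU), hz' i hU]
      simp only [t, Finset.mem_filter, hU, true_and]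
      cases z i <;> simp
    · by_cases hW : i ∈ W
      · rw [if_pos (Finset.mem_union_left _ hW), if_neg hU, if_pos hW]
      · rw [if_neg (by
          intro h
          rcases Finset.mem_union.mp h with h | h
          · exact hW h
          · exact hU h), if_neg hW]
  have hz1 : ¬ hh A B L ω (W ∪ U0) (fun i => if i ∈ U0 then decide (i ∈ t) else a i) z := by
    unfold hh at hz ⊢
    rw [hov z (fun _ _ => rfl)]
    exact hz
  obtain ⟨K, hK, hKz⟩ := h t ht z hz1
  refine ⟨K ∪ U0, ?_, ?_⟩
  · have := Finset.card_union_le K U0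
    omega
  · intro z' hz'
    have := hKz z' (fun i hi => hz' i (Finset.mem_union_left _ hi))
    unfold hh at this ⊢
    rw [hov z' (fun i hi => hz' i (Finset.mem_union_right _ hi))] at this
    exact this

/-- The switching lemma. -/
theorem switch {A B : Finset τ} {w : ℕ} {α β r : ℝ} (hα0 : 0 ≤ α) (hα1 : α ≤ 1) (hβ0 : 0 ≤ β)
    (hr0 : 0 ≤ r) (h2 : 2 * β = r * α) (hr : (1 + r) ^ w ≤ 2)
    (hβ : (A.card : ℝ) / Fintype.card τ ≤ β * ((1 - (A.card : ℝ) / Fintype.card τ) *
      (1 - (B.card : ℝ) / Fintype.card τ) ^ w)) :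
    ∀ (s : ℕ) (L : List (Term I P)) (W : Finset I) (a : I → Bool) (Δ : (Co I P → τ) → Prop),
      Closed A B W Δ → (∀ T ∈ L, T.1.card ≤ w) →
      avg (fun ω : Co I P → τ => ind (Δ ω ∧ ¬ Cert A B L ω W a s)) ≤
        α ^ s * avg (fun ω : Co I P → τ => ind (Δ ω)) := by
  intro s
  induction s using Nat.strong_induction_on with
  | _ s ihs =>
  rcases Nat.eq_zero_or_pos s with hs0 | hs
  · subst hs0
    intro L W a Δ _ _
    rw [pow_zero, one_mul]
    exact avg_mono fun ω => ind_mono fun h => h.1
  intro L
  induction L with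
  | nil =>
    intro W a Δ _ _
    have h0 : (fun ω : Co I P → τ => ind (Δ ω ∧ ¬ Cert A B [] ω W a s)) = fun _ => (0 : ℝ) := by
      funext ω
      apply ind_false
      rintro ⟨-, hc⟩
      apply hc
      intro z _
      refine ⟨∅, by simpa using hs, ?_⟩
      rintro z' _ ⟨T, hT, -⟩
      exact absurd hT (by simp)
    rw [h0, avg_const]
    exact mul_nonneg (pow_nonneg hα0 _) (avg_nonneg fun _ => ind_nonneg _)
  | cons T L' ihL =>
    intro W a Δ hΔ hTw
    have hTw0 : T.1.card ≤ w := hTw T (by simp)
    let Bl : Finset I := T.1.image Prod.fst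
    have hBl : Bl.card ≤ w := Finset.card_image_le.trans hTw0
    let DU : Finset I → (Co I P → τ) → Prop := fun U0 ω =>
      Δ ω ∧ ¬ fals A B W a T ω ∧ UU A B W T ω = U0
    -- pointwise bound
    have hpt : ∀ ω : Co I P → τ, ind (Δ ω ∧ ¬ Cert A B (T :: L') ω W a s) ≤
        ind ((Δ ω ∧ fals A B W a T ω) ∧ ¬ Cert A B L' ω W a s) +
        ∑ U0 ∈ Bl.powerset.filter (fun U => U.Nonempty),
          (if U0.card < s then ∑ t ∈ U0.powerset,
            ind (DU U0 ω ∧ ¬ Cert A B (T :: L') ω (W ∪ U0)
              (fun i => if i ∈ U0 then decide (i ∈ t) else a i) (s - U0.card))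
          else ind (DU U0 ω)) := by
      intro ω
      have hterm : ∀ U0 : Finset I, 0 ≤ (if U0.card < s then ∑ t ∈ U0.powerset,
            ind (DU U0 ω ∧ ¬ Cert A B (T :: L') ω (W ∪ U0)
              (fun i => if i ∈ U0 then decide (i ∈ t) else a i) (s - U0.card))
          else ind (DU U0 ω)) := by
        intro U0
        split_ifs
        · exact Finset.sum_nonneg fun _ _ => ind_nonneg _
        · exact ind_nonneg _
      have hsum := Finset.sum_nonneg (s := Bl.powerset.filter (fun U => U.Nonempty))
        (fun U0 _ => hterm U0)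
      by_cases hbad : Δ ω ∧ ¬ Cert A B (T :: L') ω W a s
      swap
      · rw [ind_false hbad]
        exact add_nonneg (ind_nonneg _) hsum
      rw [ind_true hbad]
      obtain ⟨hD, hC⟩ := hbad
      by_cases hf : fals A B W a T ω
      · -- falsified
        have hC' : ¬ Cert A B L' ω W a s := by
          intro hc
          apply hC
          have heq : ∀ z, hh A B (T :: L') ω W a z ↔ hh A B L' ω W a z := by
            intro z
            obtain ⟨v, hv, hk, hne⟩ := hf
            have hns : ¬ sat T (xin A B ω (ov W a z)) := by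
              intro hsat
              apply hne
              rw [← vl_eq hk z]
              exact hsat v hv
            simp only [hh, List.mem_cons, exists_eq_or_imp]
            tauto
          intro z hz
          rw [heq] at hz
          obtain ⟨K, h1, h2⟩ := hc z hz
          exact ⟨K, h1, fun z' hz' => by rw [heq]; exact h2 z' hz'⟩
        rw [ind_true ⟨⟨hD, hf⟩, hC'⟩]
        linarith
      · -- not falsified
        have hUne : (UU A B W T ω).Nonempty := by
          rw [Finset.nonempty_iff_ne_empty]
          intro hU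
          apply hC
          intro z hz
          exfalso
          apply hz
          refine ⟨T, by simp, ?_⟩
          intro v hv
          have hk : kn A B W ω v.1 v.2 := kn_of_not_UU hv (by rw [hU]; simp)
          rw [vl_eq hk z]
          by_contra hne
          exact hf ⟨v, hv, hk, hne⟩
        have hUsub : UU A B W T ω ∈ Bl.powerset.filter (fun U => U.Nonempty) := by
          rw [Finset.mem_filter, Finset.mem_powerset]
          refine ⟨?_, hUne⟩
          intro i hi
          obtain ⟨-, -, p, hp, -⟩ := mem_UU.mp hi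
          exact Finset.mem_image.mpr ⟨(i, p), hp, rfl⟩
        have hsingle := Finset.single_le_sum (fun U0 _ => hterm U0) hUsub
        refine le_trans ?_ (le_add_of_nonneg_left (ind_nonneg _))
        refine le_trans ?_ hsingle
        have hDU : DU (UU A B W T ω) ω := ⟨hD, hf, rfl⟩
        by_cases hlt : (UU A B W T ω).card < s
        · rw [if_pos hlt]
          have hex : ∃ t ∈ (UU A B W T ω).powerset, ¬ Cert A B (T :: L') ω (W ∪ UU A B W T ω)
              (fun i => if i ∈ UU A B W T ω then decide (i ∈ t) else a i)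
              (s - (UU A B W T ω).card) := by
            by_contra hcon
            push Not at hcon
            exact hC (cert_branch (fun i hi => (mem_UU.mp hi).1) hlt hcon)
          obtain ⟨t, ht, hct⟩ := hex
          have h1 := Finset.single_le_sum (f := fun t => ind (DU (UU A B W T ω) ω ∧
            ¬ Cert A B (T :: L') ω (W ∪ UU A B W T ω)
              (fun i => if i ∈ UU A B W T ω then decide (i ∈ t) else a i)
              (s - (UU A B W T ω).card))) (fun _ _ => ind_nonneg _) ht
          rw [ind_true ⟨hDU, hct⟩] at h1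
          exact h1
        · rw [if_neg hlt, ind_true hDU]
    refine (avg_mono hpt).trans ?_
    rw [avg_add, avg_sum]
    set Asat : ℝ := avg (fun ω : Co I P → τ => ind (Δ ω ∧ asat A B W a T ω)) with hAsat
    have hAsat0 : 0 ≤ Asat := avg_nonneg fun _ => ind_nonneg _
    have hA := ihL W a (fun ω => Δ ω ∧ fals A B W a T ω) (closed_fals a T hΔ)
      (fun T' hT' => hTw T' (by simp [hT']))
    have hαs : 0 ≤ α ^ s := pow_nonneg hα0 _
    have hB : ∀ U0 ∈ Bl.powerset.filter (fun U => U.Nonempty),
        avg (fun ω => (if U0.card < s then ∑ t ∈ U0.powerset,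
            ind (DU U0 ω ∧ ¬ Cert A B (T :: L') ω (W ∪ U0)
              (fun i => if i ∈ U0 then decide (i ∈ t) else a i) (s - U0.card))
          else ind (DU U0 ω))) ≤ r ^ U0.card * (α ^ s * Asat) := by
      intro U0 hU0
      obtain ⟨hU1, hU2⟩ := Finset.mem_filter.mp hU0
      have hkey := key_ineq a T U0 hU2 hΔ hTw0 hβ0 hβ
      rw [← hAsat] at hkey
      have hcardpos : 1 ≤ U0.card := Finset.card_pos.mpr hU2
      by_cases hlt : U0.card < s
      · simp only [if_pos hlt]
        rw [avg_sum]
        have h1 : ∀ t ∈ U0.powerset, avg (fun ω => ind (DU U0 ω ∧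
            ¬ Cert A B (T :: L') ω (W ∪ U0)
              (fun i => if i ∈ U0 then decide (i ∈ t) else a i) (s - U0.card))) ≤
            α ^ (s - U0.card) * (β ^ U0.card * Asat) := by
          intro t _
          refine (ihs (s - U0.card) (by omega) (T :: L') (W ∪ U0) _ (DU U0)
            (closed_U a T U0 hΔ) hTw).trans ?_
          exact mul_le_mul_of_nonneg_left hkey (pow_nonneg hα0 _)
        refine (Finset.sum_le_sum h1).trans ?_
        rw [Finset.sum_const, Finset.card_powerset, nsmul_eq_mul]
        push_cast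
        have e1 : (2 : ℝ) ^ U0.card * (α ^ (s - U0.card) * (β ^ U0.card * Asat)) =
            (2 * β) ^ U0.card * α ^ (s - U0.card) * Asat := by
          rw [mul_pow]; ring
        rw [e1, h2, mul_pow]
        have e2 : r ^ U0.card * α ^ U0.card * α ^ (s - U0.card) * Asat =
            r ^ U0.card * (α ^ s * Asat) := by
          have : α ^ s = α ^ U0.card * α ^ (s - U0.card) := by
            rw [← pow_add]; congr 1; omega
          rw [this]; ring
        rw [e2]
      · simp only [if_neg hlt]
        refine hkey.trans ?_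
        calc β ^ U0.card * Asat ≤ (2 * β) ^ U0.card * Asat := by
              apply mul_le_mul_of_nonneg_right _ hAsat0
              exact pow_le_pow_left₀ hβ0 (by linarith) _
          _ = r ^ U0.card * (α ^ U0.card * Asat) := by rw [h2, mul_pow]; ring
          _ ≤ r ^ U0.card * (α ^ s * Asat) := by
              apply mul_le_mul_of_nonneg_left _ (pow_nonneg hr0 _)
              apply mul_le_mul_of_nonneg_right _ hAsat0
              exact pow_le_pow_of_le_one hα0 hα1 (by omega)
    have hBsum := Finset.sum_le_sum hB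
    rw [← Finset.sum_mul] at hBsum
    have hpw : ∑ U0 ∈ Bl.powerset.filter (fun U => U.Nonempty), r ^ U0.card ≤ 1 := by
      have h3 : ∑ U0 ∈ Bl.powerset, r ^ U0.card = (r + 1) ^ Bl.card := by
        rw [← Finset.sum_pow_mul_eq_add_pow]
        simp
      have h4 : ∑ U0 ∈ Bl.powerset, r ^ U0.card =
          ∑ U0 ∈ Bl.powerset.filter (fun U => U.Nonempty), r ^ U0.card + 1 := by
        rw [← Finset.sum_filter_add_sum_filter_not Bl.powerset (fun U => U.Nonempty)]
        congr 1
        have h5 : Bl.powerset.filter (fun U => ¬ U.Nonempty) = {∅} := by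
          ext U
          simp only [Finset.mem_filter, Finset.mem_powerset, Finset.not_nonempty_iff_eq_empty,
            Finset.mem_singleton]
          constructor
          · rintro ⟨-, h⟩; exact h
          · rintro rfl; exact ⟨Finset.empty_subset _, rfl⟩
        rw [h5]; simp
      have h6 : (r + 1) ^ Bl.card ≤ 2 := by
        calc (r + 1) ^ Bl.card ≤ (r + 1) ^ w := pow_le_pow_right₀ (by linarith) hBl
          _ = (1 + r) ^ w := by rw [add_comm]
          _ ≤ 2 := hr
      linarith
    have hsplit : avg (fun ω : Co I P → τ => ind (Δ ω ∧ fals A B W a T ω)) + Asat ≤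
        avg (fun ω : Co I P → τ => ind (Δ ω)) := by
      rw [hAsat, ← avg_add]
      apply avg_mono
      intro ω
      by_cases hD : Δ ω
      · by_cases hf : fals A B W a T ω
        · have hns : ¬ asat A B W a T ω := by
            intro hs
            obtain ⟨v, hv, -, hne⟩ := hf
            exact hne (hs v hv).2
          rw [ind_true ⟨hD, hf⟩, ind_false (fun h => hns h.2), ind_true hD]
          norm_num
        · rw [ind_false (fun h => hf h.2), ind_true hD, zero_add]
          exact ind_le_one _
      · rw [ind_false (fun h => hD h.1), ind_false (fun h => hD h.1), ind_false hD]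
        norm_num
    have hfin : (∑ U0 ∈ Bl.powerset.filter (fun U => U.Nonempty), r ^ U0.card) * (α ^ s * Asat) ≤
        α ^ s * Asat := by
      have : 0 ≤ α ^ s * Asat := mul_nonneg hαs hAsat0
      nlinarith
    have hfin2 := mul_le_mul_of_nonneg_left hsplit hαs
    rw [mul_add] at hfin2
    linarith

end

end Pool.Agent.Helper265_EW.Sw
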