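import Pool.Agent.Helper265_EW.TTr

set_option linter.unusedSectionVars false

/-! Constant-depth reductions to formulas of bounded guard width. -/

namespace Pool.Agent.Helper265_EW.T

open Finset Classical Pool.Agent.Helper265_EW.G Pool.Agent.Helper265_EW.P
open Pool.Agent.Helper265_EW.C
open Pool.Agent.Helper265_EW.N (At)

noncomputable section

section Bits

variable {τ τ' : Voc} {n s : ℕ} (T : Tr τ τ' n) {j X : ℕ}
  (T1 : Fin (j + 1) → Fin X → (Fin s → Fin (T.M + 1)) → Prop)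
  (T2 : Fin X → (Fin s → Fin (T.M + 1)) → Prop)

/-- formulas for the old relations -/
def fB1 (R : Fin τ'.num) (w : Fin (τ'.ar R) → UT (Fin (T.M + 1)) (Fin X) j) : Fm (Bit τ n) :=
  if h : ∃ y : Fin (τ'.ar R) → Fin T.M, ∀ i, w i = Sum.inl (y i).castSucc then
    and2 (T.rel R h.choose) (andF (ι := Fin (τ'.ar R)) (fun i => T.dom (h.choose i)))
    else cst false

/-- formulas for the sorts -/
def fB2 (c : Fin 4) (u : UT (Fin (T.M + 1)) (Fin X) j) : Fm (Bit τ n) :=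
  if c = 0 then
    (if h : ∃ y : Fin T.M, u = Sum.inl y.castSucc then T.dom h.choose else cst false)
    else cst (bdec (srt (Empty.elim : Empty → Fin (T.M + 1)) c u))

/-- formulas for the tables -/
def fB3 (b : Bool) (w : Fin (s + 2) → UT (Fin (T.M + 1)) (Fin X) j) : Fm (Bit τ n) :=
  cst (bdec (∃ (z : Fin s → Fin (T.M + 1)) (x : Fin X) (i : Fin (j + 1)),
    w = tp (fun j => Sum.inl (z j)) (nm x) (nu i) ∧ if b = true then T2 x z else T1 i x z))

/-- formulas for the extended structure -/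
def fB : (R : RI τ') → (Fin (arI τ' s R) → UT (Fin (T.M + 1)) (Fin X) j) → Fm (Bit τ n)
  | Sum.inl R, w => fB1 T R w
  | Sum.inr (Sum.inl c), w => fB2 T c (w (0 : Fin 1))
  | Sum.inr (Sum.inr b), w => fB3 T T1 T2 b w

/-- the elements of the output as points -/
def io1 (A : Str τ (Fin n)) : T.Univ A → Fin (T.M + 1) := fun a => a.1.castSucc

lemma io1_inj (A : Str τ (Fin n)) : Function.Injective (io1 T A) := by
  intro a a' h
  exact Subtype.ext (Fin.castSucc_injective _ h)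

lemma holds_fB1 (A : Str τ (Fin n)) (R : Fin τ'.num)
    (w : Fin (τ'.ar R) → UT (Fin (T.M + 1)) (Fin X) j) :
    (fB1 T R w).Holds (bits A) ↔ ∃ x : Fin (τ'.ar R) → T.Univ A,
      (∀ i, w i = Sum.inl (io1 T A (x i))) ∧ T.out A R x = true := by
  unfold fB1
  split_ifs with h
  · have hy := h.choose_spec
    rw [holds_and2, holds_andF]
    constructor
    · rintro ⟨h1, h2⟩
      refine ⟨fun i => ⟨h.choose i, h2 i⟩, hy, ?_⟩
      unfold Tr.out
      rw [decide_eq_true_eq]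
      exact h1
    · rintro ⟨x, hx, h1⟩
      have h3 : ∀ i, h.choose i = (x i).1 := by
        intro i
        have := Sum.inl_injective ((hy i).symm.trans (hx i))
        exact Fin.castSucc_injective _ this
      unfold Tr.out at h1
      rw [decide_eq_true_eq] at h1
      constructor
      · have h4 : h.choose = fun i => (x i).1 := funext h3
        rw [h4]
        exact h1
      · intro i
        rw [h3 i]
        exact (x i).2
  · rw [holds_cst]
    constructor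
    · intro h1
      exact absurd h1 (by simp)
    · rintro ⟨x, hx, -⟩
      exact absurd ⟨fun i => (x i).1, hx⟩ h

lemma holds_fB2 (A : Str τ (Fin n)) (c : Fin 4) (u : UT (Fin (T.M + 1)) (Fin X) j) :
    (fB2 T c u).Holds (bits A) ↔ srt (io1 T A) c u := by
  unfold fB2
  by_cases hc : c = 0
  · subst hc
    rw [if_pos rfl, srt0]
    split_ifs with h
    · have hy := h.choose_spec
      constructor
      · intro h1
        exact ⟨⟨h.choose, h1⟩, hy⟩
      · rintro ⟨u', hu⟩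
        have := Fin.castSucc_injective _ (Sum.inl_injective (hy.symm.trans hu))
        rw [this]
        exact u'.2
    · rw [holds_cst]
      constructor
      · intro h1
        exact absurd h1 (by simp)
      · rintro ⟨u', hu⟩
        exact absurd ⟨u'.1, hu⟩ h
  · rw [if_neg hc, holds_cst, bdec_iff]
    unfold srt
    simp only [hc, false_and, false_or]

lemma holds_fB (A : Str τ (Fin n)) (R : RI τ')
    (w : Fin (arI τ' s R) → UT (Fin (T.M + 1)) (Fin X) j) :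
    (fB T T1 T2 R w).Holds (bits A) ↔ famT (io1 T A) (T.out A) T1 T2 R w = true := by
  rcases R with R | c | b
  · unfold famT
    rw [decide_eq_true_eq]
    exact holds_fB1 T A R w
  · unfold famT
    rw [decide_eq_true_eq]
    exact holds_fB2 T A c (w (0 : Fin 1))
  · change (fB3 T T1 T2 b w).Holds (bits A) ↔ _
    unfold fB3 famT
    rw [holds_cst, bdec_iff]
    exact (@decide_eq_true_iff _ (Classical.propDecidable _)).symm

/-- a bound for the arities -/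
def mxA (τ' : Voc) : ℕ := ∑ R : Fin τ'.num, τ'.ar R

lemma ar_le (τ' : Voc) (R : Fin τ'.num) : τ'.ar R ≤ mxA τ' :=
  Finset.single_le_sum (f := fun R : Fin τ'.num => τ'.ar R) (fun _ _ => Nat.zero_le _)
    (Finset.mem_univ R)

lemma fB1_bd (D S : ℕ) (hS : 1 ≤ S)
    (hd : ∀ a, (T.dom a).depth ≤ D ∧ (T.dom a).size ≤ S)
    (hr : ∀ R v, (T.rel R v).depth ≤ D ∧ (T.rel R v).size ≤ S) (R : Fin τ'.num)
    (w : Fin (τ'.ar R) → UT (Fin (T.M + 1)) (Fin X) j) :
    (fB1 T R w).depth ≤ D + 2 ∧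
      (fB1 T R w).size ≤ 2 * ((mxA τ' + 1) * S + 1) + 1 := by
  unfold fB1
  split_ifs with h
  · constructor
    · apply depth_and2 (((hr R _).1).trans (by omega))
      apply depth_andF
      intro i
      exact (hd _).1
    · apply size_and2
      · refine (hr R _).2.trans ?_
        have : S ≤ (mxA τ' + 1) * S := Nat.le_mul_of_pos_left _ (by omega)
        omega
      · refine (size_andF _ S (fun i => (hd _).2)).trans ?_
        rw [Fintype.card_fin]
        apply Nat.add_le_add_right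
        apply Nat.mul_le_mul_right
        have := ar_le τ' R
        omega
  · exact ⟨(depth_cst _).trans (by omega), (size_cst _).trans (by omega)⟩

lemma fB2_bd (D S : ℕ) (hS : 1 ≤ S)
    (hd : ∀ a, (T.dom a).depth ≤ D ∧ (T.dom a).size ≤ S) (c : Fin 4)
    (u : UT (Fin (T.M + 1)) (Fin X) j) :
    (fB2 T c u).depth ≤ D + 2 ∧ (fB2 T c u).size ≤ 2 * ((mxA τ' + 1) * S + 1) + 1 := by
  have hbig : S ≤ 2 * ((mxA τ' + 1) * S + 1) + 1 := by
    have : S ≤ (mxA τ' + 1) * S := Nat.le_mul_of_pos_left _ (by omega)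
    omega
  unfold fB2
  split_ifs with h1 h2
  · exact ⟨(hd _).1.trans (by omega), (hd _).2.trans hbig⟩
  · exact ⟨(depth_cst _).trans (by omega), (size_cst _).trans (by omega)⟩
  · exact ⟨(depth_cst _).trans (by omega), (size_cst _).trans (by omega)⟩

lemma fB_bd (D S : ℕ) (hS : 1 ≤ S)
    (hd : ∀ a, (T.dom a).depth ≤ D ∧ (T.dom a).size ≤ S)
    (hr : ∀ R v, (T.rel R v).depth ≤ D ∧ (T.rel R v).size ≤ S) (R : RI τ')
    (w : Fin (arI τ' s R) → UT (Fin (T.M + 1)) (Fin X) j) :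
    (fB T T1 T2 R w).depth ≤ D + 2 ∧
      (fB T T1 T2 R w).size ≤ 2 * ((mxA τ' + 1) * S + 1) + 1 := by
  rcases R with R | c | b
  · exact fB1_bd T D S hS hd hr R w
  · exact fB2_bd T D S hS hd c (w (0 : Fin 1))
  · change (fB3 T T1 T2 b w).depth ≤ _ ∧ (fB3 T T1 T2 b w).size ≤ _
    unfold fB3
    exact ⟨(depth_cst _).trans (by omega), (size_cst _).trans (by omega)⟩

/-- formulas for the bits of the extended structure -/
def gB {N : ℕ} (eq : UT (Fin (T.M + 1)) (Fin X) j ≃ Fin N) (β : Bit (vocT τ' s) N) (b : Bool) :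
    Fm (Bit τ n) :=
  sgF (fB T T1 T2 ((eR τ').symm β.1) (fun i => eq.symm (β.2 i))) b

lemma holds_gB {N : ℕ} (eq : UT (Fin (T.M + 1)) (Fin X) j ≃ Fin N) (A : Str τ (Fin n))
    (β : Bit (vocT τ' s) N) (b : Bool) : (gB T T1 T2 eq β b).Holds (bits A) ↔
      bits (fun R v => strT (io1 T A) (T.out A) T1 T2 R (fun i => eq.symm (v i)) :
        Str (vocT τ' s) (Fin N)) β = b := by
  unfold gB
  have h1 := holds_sgF (fB T T1 T2 ((eR τ').symm β.1) (fun i => eq.symm (β.2 i))) b (bits A)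
    (holds_fB T T1 T2 A ((eR τ').symm β.1) (fun i => eq.symm (β.2 i)))
  rw [h1]
  have h2 : (decide (famT (io1 T A) (T.out A) T1 T2 ((eR τ').symm β.1)
      (fun i => eq.symm (β.2 i)) = true)) = famT (io1 T A) (T.out A) T1 T2 ((eR τ').symm β.1)
      (fun i => eq.symm (β.2 i)) := by
    rw [Bool.eq_iff_iff, decide_eq_true_eq]
  rw [h2]
  exact Iff.rfl

end Bits

/-- The composition of a constant-depth reduction to a formula of bounded guard width with the
reduction of this formula to the normal form. -/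
theorem comp_core (m d e : ℕ) (hd : 1 ≤ d) (he : 1 ≤ e) {τ' : Voc} {s : ℕ}
    (φ : PiF τ' s (m + 2)) (hw : φ.GuardWidth (d * e)) (p q : ℕ) (hq : 1 ≤ q) (hpq : p ≤ q)
    (c : ℕ) : ∃ C, ∀ (τ : Voc) (n k : ℕ), 1 ≤ n → 1 ≤ k → ∀ T : Tr τ τ' n,
      T.BoundedPow p q k c → ∃ T' : Tr τ (srcVt m d) n, T'.BoundedPow (p * e) q k C ∧
        ∀ (A : Str τ (Fin n)) (j : Fin (T.K + 1)), (∀ j', (T.par j').Holds (bits A) ↔ j' = j) →
          ∃ j'' : Fin (T'.K + 1), (∀ j', (T'.par j').Holds (bits A) ↔ j' = j'') ∧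
            (WDF φ (T.out A) j ↔ WDF (normF (decide (m % 2 = 0)) m d) (T'.out A) j'') := by
  obtain ⟨bb, hbb⟩ : ∃ bb, bb = decide (m % 2 = 0) := ⟨_, rfl⟩
  have hbb2 : decide ((m + 2) % 2 = 0) = bb := by rw [hbb]; simp
  unfold PiF.GuardWidth at hw
  rw [hbb2] at hw
  have hde : 1 ≤ d * e := Nat.mul_pos hd he
  obtain ⟨C0, hC0⟩ := tables s (nP φ) (nAt φ)
  obtain ⟨I, hI1, -, hI3⟩ := qg_norm m d hd e he (m + 2) _ (s + 2) (forT φ bb (d * e))
    (Or.inr ⟨rfl, Or.inr (forT_width φ bb (d * e) hde hbb)⟩)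
  obtain ⟨a, b, sz, hQ⟩ := qint_tr I hI1
  -- exponents
  obtain ⟨E0, hE0⟩ : ∃ E0, E0 = (3 * c + 4) * (C0 + 1) := ⟨_, rfl⟩
  obtain ⟨E2, hE2⟩ : ∃ E2, E2 = 2 * mxA τ' + 5 + c := ⟨_, rfl⟩
  obtain ⟨C, hC⟩ : ∃ C, C = (E0 + (a + (E0 + 3) * b)) + (E0 + (sz + E2) + 4) + (c + 8) +
    (4 ^ q * (c + 1)) ^ e := ⟨_, rfl⟩
  refine ⟨C, fun τ n k hn hk T hT => ?_⟩
  obtain ⟨hM, hK, hdom, hrel, hpar⟩ := hT
  obtain ⟨Z, hZ⟩ : ∃ Z, Z = 2 ^ k * (n + 2) := ⟨_, rfl⟩
  obtain ⟨Q, hQd⟩ : ∃ Q, Q = k + Nat.log 2 (n + 1) + 1 := ⟨_, rfl⟩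
  rw [← hZ] at hM hdom hrel hpar
  rw [← hQd] at hK
  have hZ2 : 2 ≤ Z := by
    rw [hZ]
    calc 2 = 1 * 2 := rfl
      _ ≤ 2 ^ k * (n + 2) := Nat.mul_le_mul Nat.one_le_two_pow (by omega)
  have hZ1 : ∀ x, 1 ≤ Z ^ x := fun x => Nat.one_le_pow _ _ (by omega)
  have hZa : ∀ x y : ℕ, x ≤ y → Z ^ x ≤ Z ^ y := fun x y h => Nat.pow_le_pow_right (by omega) h
  have hZs : ∀ x, x ≤ Z ^ x := fun x => (Nat.lt_two_pow_self).le.trans
    (Nat.pow_le_pow_left hZ2 x)
  have hQ1 : 1 ≤ Q := by omega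
  have hK1 : T.K ≤ (c + 1) * Q := by
    rw [← Nat.pow_le_pow_iff_left (show q ≠ 0 by omega)]
    calc T.K ^ q ≤ c * Q ^ p := hK
      _ ≤ (c + 1) ^ q * Q ^ q := by
          apply Nat.mul_le_mul
          · exact (Nat.le_succ c).trans (Nat.le_self_pow (by omega) _)
          · exact Nat.pow_le_pow_right hQ1 hpq
      _ = ((c + 1) * Q) ^ q := by rw [mul_pow]
  have hQZ : 2 ^ Q ≤ Z ^ 2 := by
    have h1 : 2 ^ Nat.log 2 (n + 1) ≤ n + 1 := Nat.pow_log_le_self 2 (by omega)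
    calc 2 ^ Q = 2 ^ k * 2 ^ Nat.log 2 (n + 1) * 2 := by rw [hQd, pow_succ, pow_add]
      _ ≤ 2 ^ k * (n + 1) * 2 := Nat.mul_le_mul_right _ (Nat.mul_le_mul_left _ h1)
      _ ≤ Z * Z := by
          apply Nat.mul_le_mul _ hZ2
          rw [hZ]
          exact Nat.mul_le_mul_left _ (by omega)
      _ = Z ^ 2 := by ring
  have h2K : 2 ^ T.K ≤ Z ^ (2 * (c + 1)) := by
    calc 2 ^ T.K ≤ 2 ^ ((c + 1) * Q) := Nat.pow_le_pow_right (by norm_num) hK1
      _ = (2 ^ Q) ^ (c + 1) := by rw [← pow_mul, mul_comm]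
      _ ≤ (Z ^ 2) ^ (c + 1) := Nat.pow_le_pow_left hQZ _
      _ = Z ^ (2 * (c + 1)) := by rw [← pow_mul]
  have hKZ : T.K + 1 ≤ Z ^ (2 * (c + 1)) := (Nat.lt_two_pow_self).trans_le h2K
  have hKE : T.K + 1 ≤ Z ^ E0 := hKZ.trans (hZa _ _ (by
    rw [hE0]
    calc 2 * (c + 1) ≤ (3 * c + 4) * 1 := by omega
      _ ≤ (3 * c + 4) * (C0 + 1) := Nat.mul_le_mul_left _ (by omega)))
  have hM1 : T.M + 1 ≤ Z ^ (c + 1) := by
    calc T.M + 1 ≤ Z ^ c + Z ^ c := Nat.add_le_add hM (hZ1 c)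
      _ = Z ^ c * 2 := by ring
      _ ≤ Z ^ c * Z := Nat.mul_le_mul_left _ hZ2
      _ = Z ^ (c + 1) := by rw [pow_succ]
  have hM1E : T.M + 1 ≤ Z ^ E0 := hM1.trans (hZa _ _ (by
    rw [hE0]
    calc c + 1 ≤ (3 * c + 4) * 1 := by omega
      _ ≤ (3 * c + 4) * (C0 + 1) := Nat.mul_le_mul_left _ (by omega)))
  have hM3 : T.M + 1 + 2 ≤ Z ^ (c + 2) := by
    have := hZ1 c
    calc T.M + 1 + 2 ≤ Z ^ c * 4 := by omega
      _ ≤ Z ^ c * (Z * Z) := Nat.mul_le_mul_left _ (by nlinarith)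
      _ = Z ^ (c + 2) := by ring
  -- the tables
  choose X T1 T2 hX hcov huni using fun j : Fin (T.K + 1) => hC0 (T.M + 1) j.val
  have hXE : ∀ j, X j ≤ Z ^ E0 := by
    intro j
    have hj : j.val ≤ T.K := by omega
    calc X j ≤ (2 ^ j.val * (T.M + 1 + 2)) ^ C0 := hX j
      _ ≤ (Z ^ (2 * (c + 1)) * Z ^ (c + 2)) ^ C0 := by
          apply Nat.pow_le_pow_left
          apply Nat.mul_le_mul _ hM3
          exact (Nat.pow_le_pow_right (by norm_num) hj).trans h2K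
      _ = Z ^ ((3 * c + 4) * C0) := by
          rw [← pow_add, ← pow_mul]
          congr 1
          ring
      _ ≤ Z ^ E0 := hZa _ _ (by rw [hE0]; exact Nat.mul_le_mul_left _ (by omega))
  obtain ⟨NN, hNN⟩ : ∃ NN : Fin (T.K + 1) → ℕ, NN = fun j =>
    Fintype.card (UT (Fin (T.M + 1)) (Fin (X j)) j.val) := ⟨_, rfl⟩
  have hNNv : ∀ j, NN j = (T.M + 1) + ((j.val + 1) + X j) := by
    intro j
    rw [hNN]
    simp only [Fintype.card_sum, Fintype.card_fin]
  have eqv : ∀ j, UT (Fin (T.M + 1)) (Fin (X j)) j.val ≃ Fin (NN j) := by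
    intro j
    rw [hNN]
    exact Fintype.equivFin _
  choose T3 hT3M hT3K hT3d hT3r hT3p hT3par hT3W using fun j : Fin (T.K + 1) =>
    hQ (NN j) (2 * j.val + 1) ((2 * j.val + 2) ^ e)
  obtain ⟨F, hF⟩ : ∃ F : Fin (T.K + 1) → Tr τ (srcVt m d) n,
    F = fun j => sbT (gB T (T1 j) (T2 j) (eqv j)) (T3 j) := ⟨_, rfl⟩
  obtain ⟨S, hS⟩ : ∃ S, S = Z ^ (sz + E2) := ⟨_, rfl⟩
  have hS1 : 1 ≤ S := by rw [hS]; exact hZ1 _
  -- bounds on the formulas
  have hgB : ∀ j β b, (gB T (T1 j) (T2 j) (eqv j) β b).depth ≤ c + 3 ∧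
      (gB T (T1 j) (T2 j) (eqv j) β b).size ≤ Z ^ E2 := by
    intro j β b'
    unfold gB
    rw [depth_sgF, size_sgF]
    obtain ⟨h1, h2⟩ := fB_bd T (T1 j) (T2 j) (c + 1) (Z ^ c) (hZ1 c)
      (fun x => ⟨(hdom x).1.trans (by omega), (hdom x).2⟩)
      (fun R v => ⟨(hrel R v).1.trans (by omega), (hrel R v).2⟩) ((eR τ').symm β.1)
      (fun i => (eqv j).symm (β.2 i))
    refine ⟨h1.trans (by omega), h2.trans ?_⟩
    have hc1 := hZ1 c
    calc 2 * ((mxA τ' + 1) * Z ^ c + 1) + 1 ≤ (2 * mxA τ' + 5) * Z ^ c := by nlinarith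
      _ ≤ Z ^ (2 * mxA τ' + 5) * Z ^ c := Nat.mul_le_mul_right _ (hZs _)
      _ = Z ^ E2 := by rw [← pow_add, hE2]
  have hsub : ∀ j (f : Fm (Bit (vocT τ' s) (NN j))), f.depth ≤ 4 ∧ f.size ≤ sz →
      (subst (gB T (T1 j) (T2 j) (eqv j)) f).depth ≤ c + 7 ∧
      (subst (gB T (T1 j) (T2 j) (eqv j)) f).size ≤ S := by
    intro j f hf
    constructor
    · refine (depth_subst _ (c + 3) (fun β b => (hgB j β b).1) f).trans ?_
      have := hf.1
      omega
    · refine (size_subst _ (Z ^ E2) (hZ1 _) (fun β b => (hgB j β b).2) f).trans ?_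
      rw [hS, pow_add]
      exact Nat.mul_le_mul_right _ (hf.2.trans (hZs sz))
  have hpr : ∀ j, (T.par j).depth ≤ c + 7 ∧ (T.par j).size ≤ S := by
    intro j
    refine ⟨(hpar j).1.trans (by omega), (hpar j).2.trans ?_⟩
    rw [hS]
    exact hZa _ _ (by rw [hE2]; omega)
  have hbig : (T.K + 1 + 1) * (2 * S + 1) + 1 ≤ Z ^ C := by
    have h1 : T.K + 1 + 1 ≤ Z ^ (E0 + 1) := by
      calc T.K + 1 + 1 ≤ Z ^ E0 + Z ^ E0 := Nat.add_le_add hKE (hZ1 _)
        _ = Z ^ E0 * 2 := by ring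
        _ ≤ Z ^ E0 * Z := Nat.mul_le_mul_left _ hZ2
        _ = Z ^ (E0 + 1) := by rw [pow_succ]
    have h2 : 2 * S + 1 ≤ Z ^ (sz + E2 + 2) := by
      calc 2 * S + 1 ≤ S * 4 := by omega
        _ ≤ S * (Z * Z) := Nat.mul_le_mul_left _ (by nlinarith)
        _ = Z ^ (sz + E2 + 2) := by rw [hS]; ring
    calc (T.K + 1 + 1) * (2 * S + 1) + 1 ≤ Z ^ (E0 + 1) * Z ^ (sz + E2 + 2) + 1 :=
          Nat.add_le_add_right (Nat.mul_le_mul h1 h2) 1
      _ = Z ^ (E0 + (sz + E2) + 3) + 1 := by rw [← pow_add]; congr 2; omega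
      _ ≤ Z ^ (E0 + (sz + E2) + 3) + Z ^ (E0 + (sz + E2) + 3) := Nat.add_le_add_left (hZ1 _) _
      _ = Z ^ (E0 + (sz + E2) + 3) * 2 := by ring
      _ ≤ Z ^ (E0 + (sz + E2) + 3) * Z := Nat.mul_le_mul_left _ hZ2
      _ = Z ^ (E0 + (sz + E2) + 4) := by rw [← pow_succ]
      _ ≤ Z ^ C := hZa _ _ (by rw [hC]; omega)
  refine ⟨unT F T.par ((2 * T.K + 2) ^ e), ⟨?_, ?_, ?_, ?_, ?_⟩, ?_⟩
  · rw [← hZ]
    change (∑ j, (F j).M) ≤ _
    have h1 : ∀ j, (F j).M ≤ Z ^ (a + (E0 + 3) * b) := by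
      intro j
      rw [hF]
      change (T3 j).M ≤ _
      refine (hT3M j).trans ?_
      rw [hNNv]
      have hj : j.val + 1 ≤ Z ^ E0 := by
        have : j.val < T.K + 1 := j.2
        omega
      have hXj := hXE j
      have h2 : T.M + 1 + (j.val + 1 + X j) + (2 * j.val + 1) + 1 ≤ Z ^ (E0 + 3) := by
        calc T.M + 1 + (j.val + 1 + X j) + (2 * j.val + 1) + 1 ≤ Z ^ E0 * 8 := by omega
          _ ≤ Z ^ E0 * (Z * Z * Z) := by
              apply Nat.mul_le_mul_left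
              calc 8 = 2 * 2 * 2 := rfl
                _ ≤ Z * Z * Z := Nat.mul_le_mul (Nat.mul_le_mul hZ2 hZ2) hZ2
          _ = Z ^ (E0 + 3) := by ring
      calc a * (T.M + 1 + (j.val + 1 + X j) + (2 * j.val + 1) + 1) ^ b ≤
          Z ^ a * (Z ^ (E0 + 3)) ^ b := Nat.mul_le_mul (hZs a) (Nat.pow_le_pow_left h2 b)
        _ = Z ^ (a + (E0 + 3) * b) := by rw [← pow_mul, ← pow_add]
    calc (∑ j, (F j).M) ≤ ∑ _j : Fin (T.K + 1), Z ^ (a + (E0 + 3) * b) :=
          Finset.sum_le_sum fun j _ => h1 j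
      _ = (T.K + 1) * Z ^ (a + (E0 + 3) * b) := by
          rw [Finset.sum_const, Finset.card_univ, Fintype.card_fin, smul_eq_mul]
      _ ≤ Z ^ E0 * Z ^ (a + (E0 + 3) * b) := Nat.mul_le_mul_right _ hKE
      _ = Z ^ (E0 + (a + (E0 + 3) * b)) := by rw [← pow_add]
      _ ≤ Z ^ C := hZa _ _ (by rw [hC]; omega)
  · change ((2 * T.K + 2) ^ e) ^ q ≤ _
    rw [← hQd]
    have h1 : (2 * T.K + 2) ^ q ≤ 4 ^ q * (c + 1) * Q ^ p := by
      have hQp : 1 ≤ Q ^ p := Nat.one_le_pow _ _ hQ1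
      rcases Nat.eq_zero_or_pos T.K with h0 | h0
      · rw [h0]
        calc (2 * 0 + 2) ^ q ≤ 4 ^ q := Nat.pow_le_pow_left (by norm_num) q
          _ = 4 ^ q * 1 * 1 := by ring
          _ ≤ 4 ^ q * (c + 1) * Q ^ p :=
              Nat.mul_le_mul (Nat.mul_le_mul_left _ (by omega)) hQp
      · calc (2 * T.K + 2) ^ q ≤ (4 * T.K) ^ q := Nat.pow_le_pow_left (by omega) q
          _ = 4 ^ q * T.K ^ q := by rw [mul_pow]
          _ ≤ 4 ^ q * (c * Q ^ p) := Nat.mul_le_mul_left _ hK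
          _ ≤ 4 ^ q * ((c + 1) * Q ^ p) :=
              Nat.mul_le_mul_left _ (Nat.mul_le_mul_right _ (by omega))
          _ = 4 ^ q * (c + 1) * Q ^ p := by ring
    calc ((2 * T.K + 2) ^ e) ^ q = ((2 * T.K + 2) ^ q) ^ e := by
          rw [← pow_mul, ← pow_mul, mul_comm e q]
      _ ≤ (4 ^ q * (c + 1) * Q ^ p) ^ e := Nat.pow_le_pow_left h1 e
      _ = (4 ^ q * (c + 1)) ^ e * Q ^ (p * e) := by rw [mul_pow, ← pow_mul]
      _ ≤ C * Q ^ (p * e) := Nat.mul_le_mul_right _ (by rw [hC]; omega)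
  · intro x
    rw [← hZ]
    obtain ⟨h1, h2⟩ := unT_dom_bd F T.par ((2 * T.K + 2) ^ e) (c + 7) S (by omega) hS1 hpr
      (fun j x => by
        subst hF
        exact hsub j _ (hT3d j x)) x
    exact ⟨h1.trans (by rw [hC]; omega), h2.trans hbig⟩
  · intro R v
    rw [← hZ]
    obtain ⟨h1, h2⟩ := unT_rel_bd F T.par ((2 * T.K + 2) ^ e) (c + 7) S (by omega) hS1 hpr
      (fun j R v => by
        subst hF
        exact hsub j _ (hT3r j R v)) R v
    exact ⟨h1.trans (by rw [hC]; omega), h2.trans hbig⟩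
  · intro i
    rw [← hZ]
    obtain ⟨h1, h2⟩ := unT_par_bd F T.par ((2 * T.K + 2) ^ e) (c + 7) S (by omega) hS1 hpr
      (fun j x => by
        subst hF
        exact hsub j _ (hT3p j x)) i
    exact ⟨h1.trans (by rw [hC]; omega), h2.trans hbig⟩
  · intro A j hj
    have hjK : j.val ≤ T.K := by omega
    have hlt : (2 * j.val + 2) ^ e < (2 * T.K + 2) ^ e + 1 :=
      Nat.lt_succ_of_le (Nat.pow_le_pow_left (by omega) e)
    refine ⟨⟨(2 * j.val + 2) ^ e, hlt⟩, fun i => ?_, ?_⟩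
    · rw [unT_par F T.par ((2 * T.K + 2) ^ e) A j hj i]
      subst hF
      constructor
      · rintro ⟨h, h1⟩
        have h2 := (sbT_par (gB T (T1 j) (T2 j) (eqv j)) (T3 j) A _
          (holds_gB T (T1 j) (T2 j) (eqv j) A) ⟨i.val, h⟩).mp h1
        rw [hT3par] at h2
        exact Fin.ext h2
      · intro h
        have h1 : i.val = (2 * j.val + 2) ^ e := congrArg Fin.val h
        refine ⟨by
          change i.val < (T3 j).K + 1
          rw [hT3K, h1]
          exact Nat.lt_succ_self _, ?_⟩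
        apply (sbT_par (gB T (T1 j) (T2 j) (eqv j)) (T3 j) A _
          (holds_gB T (T1 j) (T2 j) (eqv j) A) _).mpr
        rw [hT3par]
        exact h1
    · rw [unT_WD F T.par ((2 * T.K + 2) ^ e) A j hj]
      subst hF
      have hfin : Finite (T.Univ A) := by
        unfold Tr.Univ
        infer_instance
      have hfU : Fintype (T.Univ A) := Fintype.ofFinite _
      have h1 := ext_WDF φ bb (d * e) (io1 T A) (T.out A) (T1 j) (T2 j) (io1_inj T A) hw hbb
        (huni j) (hcov j)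
      rw [← h1, ← WDF_equiv (eqv j) (forT φ bb (d * e)) (strT (io1 T A) (T.out A) (T1 j) (T2 j))
        (2 * j.val + 1)]
      have hN1 : 1 ≤ NN j := by rw [hNNv]; omega
      rw [hI3 (NN j) (2 * j.val + 1) hN1, ← hT3W j]
      have h2 := sbT_WD (gB T (T1 j) (T2 j) (eqv j)) (T3 j) A _
        (holds_gB T (T1 j) (T2 j) (eqv j) A) (normF (decide (m % 2 = 0)) m d)
        ((2 * j.val + 2) ^ e)
      exact h2.symm

end

end Pool.Agent.Helper265_EW.T
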