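import Pool.Agent.Helper265_EW.IDefs

/-! The guard width of a `Π_t` formula. -/

namespace Pool.Agent.Helper265_EW

/-- For the variables with `I`, whenever the formula has the value `b`, there are a set `C` of
atoms `X(v)` with some argument in `I` and a set `G` of at most `w` true atoms in `C`, called
guards, such that
* each true atom of `C` has a guard that contains all its arguments in `I`;
* if `C` contains a false atom, then there are less than `w` guards;
* the value `b` is enforced by the truth values of the atoms in `C` and of all atoms other than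
  those `X(v)` with some argument in `I`. -/
def QF.CertG {τ : Voc} {s : ℕ} {V : Type} (I : V → Prop) (b : Bool) (w : ℕ)
    (ψ : QF τ s V) : Prop :=
  ∀ (ρ : ∀ R : Fin τ.num, (Fin (τ.ar R) → V) → Bool) (η : V → V → Bool)
    (ξ : (Fin s → V) → Bool), ψ.eval ρ η ξ = b →
    ∃ C G : Finset (Fin s → V), (∀ v ∈ C, ∃ i, I (v i)) ∧ (∀ v ∈ G, v ∈ C ∧ ξ v = true) ∧
      G.card ≤ w ∧ (∀ v ∈ C, ξ v = true → ∃ g ∈ G, ∀ i, I (v i) → ∃ j, g j = v i) ∧
      ((∃ v ∈ C, ξ v = false) → G.card < w) ∧
      ∀ ξ' : (Fin s → V) → Bool, (∀ v, ((¬ ∃ i, I (v i)) ∨ v ∈ C) → ξ' v = ξ v) →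
        ψ.eval ρ η ξ' = b

/-- Guard width at most `w`: for the variables of the innermost block and the critical value of
the matrix, which is true if this block is existential and false if it is universal. -/
def PiF.GuardWidth {τ : Voc} {s t : ℕ} (φ : PiF τ s t) (w : ℕ) : Prop :=
  φ.ψ.CertG (lastVar φ.len t) (decide (t % 2 = 0)) w

open Classical in
/-- The number of occurrences of atoms `X(v)` with `P v` that are positive, that is, within an even
number of negations, for `b = true`, and negative for `b = false`. -/
noncomputable def QF.occS {τ : Voc} {s : ℕ} {V : Type} (P : (Fin s → V) → Prop) :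
    Bool → QF τ s V → ℕ
  | _, QF.rel _ _ => 0
  | _, QF.eq _ _ => 0
  | b, QF.mem v => if P v ∧ b = true then 1 else 0
  | b, QF.not φ => φ.occS P (!b)
  | b, QF.and φ ψ => φ.occS P b + ψ.occS P b

/-- The number of occurrences of `X` with some argument from the innermost block that are positive,
if this block is existential, and negative, if it is universal. -/
noncomputable def PiF.critOcc {τ : Voc} {s t : ℕ} (φ : PiF τ s t) : ℕ :=
  φ.ψ.occS (fun v => ∃ i, lastVar φ.len t (v i)) (decide (t % 2 = 0))

end Pool.Agent.Helper265_EW
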