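import Pool.Agent.Helper265_EW.TSet

set_option linter.unusedSectionVars false

/-! Meaning of the critical event over the extended structure. -/

namespace Pool.Agent.Helper265_EW.T

open Finset Classical Pool.Agent.Helper265_EW.G Pool.Agent.Helper265_EW.P
open Pool.Agent.Helper265_EW.N (At jn qfOf eval_qfOf fstc alt_first)

noncomputable section

section

variable {τ : Voc} {s m : ℕ} (φ : PiF τ s (m + 2)) (bb : Bool) (w0 : ℕ) {k : ℕ}
  {V U Nm : Type} (ι : U → V) (B : Str τ U) (T1 : Fin (k + 1) → Nm → (Fin s → V) → Prop)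
  (T2 : Nm → (Fin s → V) → Prop)

/-- truth values of the relations -/
def rfU (u : Vars φ.len (m + 2) → U) :
    ∀ R : Fin τ.num, (Fin (τ.ar R) → Vars φ.len (m + 2)) → Bool := fun R v => B R (fun i => u (v i))

/-- truth values of the equalities -/
def efU (u : Vars φ.len (m + 2) → U) :
    Vars φ.len (m + 2) → Vars φ.len (m + 2) → Bool := fun v v' => decide (u v = u v')

/-- the truth values of the outer atoms -/
def pU (S : Finset (Fin s → U)) (x : Vars φ.len (m + 1) → U) : At φ → Bool :=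
  fun v => if P.inn φ v then false else
    decide (∃ z ∈ S, ∀ i y, v i = Sum.inl y → z i = x y)

lemma outer_inl {v : At φ} (hv : ¬ P.inn φ v) (i : Fin s) :
    ∃ y : Vars φ.len (m + 1), v i = Sum.inl y := by
  rcases h : v i with y | j
  · exact ⟨y, rfl⟩
  · exfalso
    apply hv
    refine ⟨i, ?_⟩
    rw [h]
    trivial

lemma pU_eq (S : Finset (Fin s → U)) (x : Vars φ.len (m + 1) → U)
    (b : Fin (φ.len (m + 1)) → U) {v : At φ} (hv : ¬ P.inn φ v) :
    pU φ S x v = decide ((fun i => jn φ x b (v i)) ∈ S) := by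
  unfold pU
  rw [if_neg hv, decide_eq_decide]
  constructor
  · rintro ⟨z, hz, h⟩
    have : (fun i => jn φ x b (v i)) = z := by
      funext i
      obtain ⟨y, hy⟩ := outer_inl φ hv i
      rw [h i y hy]
      change jn φ x b (v i) = x y
      rw [hy]
      rfl
    rwa [this]
  · intro h
    refine ⟨_, h, fun i y hy => ?_⟩
    change jn φ x b (v i) = x y
    rw [hy]
    rfl

/-- the meaning of the critical event -/
def EV (S : Finset (Fin s → U)) (ν : Fin (k + 1) → Nm) (x : Vars φ.len (m + 1) → U) (g : Nm)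
    (y : XT φ V Nm k (m + 1)) : Prop :=
  (∃ z ∈ S, (∀ i : Fin s, tvv φ (m + 1) y (Fin.castAdd 2 i) = Sum.inl (ι (z i))) ∧
    T2 g (fun i => ι (z i))) ∨
  ∃ b : Fin (φ.len (m + 1)) → U, (∀ j, y (Fin.castAdd (nX φ) j) = Sum.inl (ι (b j))) ∧
    ∃ Cp Cn G : Finset (At φ), crt φ bb w0 Cp Cn G (rfU φ B (jn φ x b)) (efU φ (jn φ x b))
      (pU φ S x) ∧ (∀ v ∈ G, (fun i => jn φ x b (v i)) ∈ S) ∧
      (∀ v ∈ Cp, ¬ T2 g (fun i => ι (jn φ x b (v i)))) ∧
      (Cn.Nonempty → ∃ i, sv φ (m + 1) y 2 = nm (ν i) ∧ sv φ (m + 1) y 3 = nu i ∧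
        ∀ v ∈ Cn, T1 i (ν i) (fun j => ι (jn φ x b (v j))))

theorem evt_sem (hι : Function.Injective ι) (S : Finset (Fin s → U)) (ν : Fin (k + 1) → Nm)
    (a : Vars (lenT φ) (m + 2) → UT V Nm k) (x : Vars φ.len (m + 1) → U) (g : Nm)
    (y : XT φ V Nm k (m + 1)) (h0 : a (ov φ) = nu 0)
    (h1 : ∀ u : Vars φ.len (m + 1), a (io φ (m + 2) (Sum.inl u)) = Sum.inl (ι (x u)))
    (h2 : a (sp φ (m + 1) m 2) = nm g)
    (h3 : ∀ j : Fin (lenT φ (m + 1)), a (Sum.inr j) = y j) :
    evtT φ bb w0 (rT φ ι B T1 T2 a) (eT φ a) (xT φ (enc ι S ν) a) ↔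
      EV φ bb w0 ι B T1 T2 S ν x g y := by
  have h4 : ∀ x', a (av φ (m + 1) (m + 1) x') = xv φ (m + 1) y x' := by
    intro x'
    unfold av
    rw [if_pos rfl]
    exact h3 _
  have hy : ∀ b : Fin (φ.len (m + 1)) → U, (∀ j, y (Fin.castAdd (nX φ) j) = Sum.inl (ι (b j))) →
      ∀ u : Vars φ.len (m + 2), a (io φ (m + 2) u) = Sum.inl (ι (jn φ x b u)) := by
    intro b hb u
    rcases u with u | j
    · exact h1 u
    · exact (h3 _).trans (hb j)
  have hpt : ptT φ (xT φ (enc ι S ν) a) = pU φ S x := by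
    funext v
    unfold ptT pU
    by_cases hv : P.inn φ v
    · rw [if_pos hv, if_pos hv]
    · rw [if_neg hv, if_neg hv, Bool.eq_iff_iff]
      unfold sA
      rw [xT_tp, h0, decide_eq_true_eq]
      have e1 : ∀ i y, v i = Sum.inl y → a (io φ (m + 2) (v i)) = Sum.inl (ι (x y)) := by
        intro i y hy
        rw [hy]
        exact h1 y
      choose yy hyy using fun i => outer_inl φ hv i
      have e2 : tp (fun j => a (io φ (m + 2) (v j))) (nu 0) (nu 0) =
          (stp ι (fun i => x (yy i)) : Fin (s + 2) → UT V Nm k) := by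
        unfold stp
        rw [tp_inj]
        exact ⟨funext fun j => e1 j _ (hyy j), rfl, rfl⟩
      rw [e2, mem_enc_s ι hι]
      constructor
      · intro h
        refine ⟨_, h, fun i y hy => ?_⟩
        have := (hyy i).symm.trans hy
        rw [Sum.inl_injective this]
      · rintro ⟨z, hz, h⟩
        have : z = fun i => x (yy i) := funext fun i => h i _ (hyy i)
        rwa [← this]
  unfold evtT EV
  rw [hpt]
  apply or_congr
  · simp only [isS_a, srt0, isTb_a, if_true]
    unfold sA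
    rw [xT_tp, h0, h2]
    have e1 : ∀ i : Fin s, a (tv φ (m + 1) (m + 1) (Fin.castAdd 2 i)) =
        tvv φ (m + 1) y (Fin.castAdd 2 i) := fun i => h4 _
    simp only [e1]
    constructor
    · rintro ⟨h5, h6, ⟨z', x', i, ⟨h7, h8, -⟩, h9⟩⟩
      choose z hz using h5
      have e2 : tp (fun j => tvv φ (m + 1) y (Fin.castAdd 2 j)) (nu 0) (nu 0) =
          (stp ι z : Fin (s + 2) → UT V Nm k) := by
        unfold stp
        rw [tp_inj]
        exact ⟨funext hz, rfl, rfl⟩
      rw [e2, mem_enc_s ι hι] at h6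
      refine ⟨z, h6, hz, ?_⟩
      have e3 : z' = fun i => ι (z i) := by
        funext j
        exact (Sum.inl_injective ((hz j).symm.trans (h7 j))).symm
      have e4 : g = x' := Sum.inr_injective (Sum.inr_injective h8)
      rw [e4, ← e3]
      exact h9
    · rintro ⟨z, hzS, hz, hT⟩
      refine ⟨fun i => ⟨z i, hz i⟩, ?_, fun i => ι (z i), g, 0, ⟨hz, rfl, rfl⟩, hT⟩
      have e2 : tp (fun j => tvv φ (m + 1) y (Fin.castAdd 2 j)) (nu 0) (nu 0) =
          (stp ι z : Fin (s + 2) → UT V Nm k) := by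
        unfold stp
        rw [tp_inj]
        exact ⟨funext hz, rfl, rfl⟩
      rw [e2, mem_enc_s ι hι]
      exact hzS
  · have e1 : (∀ u : Vars φ.len (m + 2), P.lv φ.len (m + 2) u = m + 1 →
        isS φ (rT φ ι B T1 T2 a) 0 (io φ (m + 2) u)) ↔
        ∃ b : Fin (φ.len (m + 1)) → U, ∀ j, y (Fin.castAdd (nX φ) j) = Sum.inl (ι (b j)) := by
      constructor
      · intro h
        have h5 : ∀ j : Fin (φ.len (m + 1)), ∃ b, y (Fin.castAdd (nX φ) j) = Sum.inl (ι b) := by
          intro j
          have h6 := h (Sum.inr j) rfl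
          rw [isS_a, srt0] at h6
          obtain ⟨b, hb⟩ := h6
          exact ⟨b, (h3 _).symm.trans hb⟩
        choose b hb using h5
        exact ⟨b, hb⟩
      · rintro ⟨b, hb⟩ u -
        rw [isS_a, srt0]
        exact ⟨_, hy b hb u⟩
    rw [e1]
    have e2 : ∀ b : Fin (φ.len (m + 1)) → U,
        (∀ j, y (Fin.castAdd (nX φ) j) = Sum.inl (ι (b j))) → ∀ Cp Cn G : Finset (At φ),
        ((crt φ bb w0 Cp Cn G
          (fun R v => gt (rT φ ι B T1 T2 a) (Sum.inl R) (fun i => io φ (m + 2) (v i)))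
          (fun u v => eT φ a (io φ (m + 2) u) (io φ (m + 2) v)) (pU φ S x) ∧
        (∀ v ∈ G, xT φ (enc ι S ν) a (sA φ (fun i => io φ (m + 2) (v i))) = true) ∧
        (∀ v ∈ Cp, ¬ isTb φ (rT φ ι B T1 T2 a) true (fun i => io φ (m + 2) (v i))
          (sp φ (m + 1) m 2) (ov φ)) ∧
        (Cn.Nonempty → isS φ (rT φ ι B T1 T2 a) 2 (sp φ (m + 1) (m + 1) 2) ∧
          xT φ (enc ι S ν) a (nA φ (sp φ (m + 1) (m + 1) 2) (sp φ (m + 1) (m + 1) 3)) = true ∧
          ∀ v ∈ Cn, isTb φ (rT φ ι B T1 T2 a) false (fun i => io φ (m + 2) (v i))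
            (sp φ (m + 1) (m + 1) 2) (sp φ (m + 1) (m + 1) 3))) ↔
        (crt φ bb w0 Cp Cn G (rfU φ B (jn φ x b)) (efU φ (jn φ x b))
          (pU φ S x) ∧ (∀ v ∈ G, (fun i => jn φ x b (v i)) ∈ S) ∧
          (∀ v ∈ Cp, ¬ T2 g (fun i => ι (jn φ x b (v i)))) ∧
          (Cn.Nonempty → ∃ i, sv φ (m + 1) y 2 = nm (ν i) ∧ sv φ (m + 1) y 3 = nu i ∧
            ∀ v ∈ Cn, T1 i (ν i) (fun j => ι (jn φ x b (v j)))))) := by
      intro b hb Cp Cn G
      have f1 : (fun (R : Fin τ.num) (v : Fin (τ.ar R) → Vars φ.len (m + 2)) =>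
          gt (rT φ ι B T1 T2 a) (Sum.inl R) (fun i => io φ (m + 2) (v i))) =
          rfU φ B (jn φ x b) := by
        funext R v
        unfold rfU
        rw [Bool.eq_iff_iff, rel_a]
        constructor
        · rintro ⟨z, hz1, hz2⟩
          have : z = fun i => jn φ x b (v i) := by
            funext i
            have h6 : a (io φ (m + 2) (v i)) = Sum.inl (ι (z i)) := hz1 i
            rw [hy b hb] at h6
            exact (hι (Sum.inl_injective h6)).symm
          rw [this] at hz2
          exact hz2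
        · intro hz
          exact ⟨fun i => jn φ x b (v i), fun i => hy b hb (v i), hz⟩
      have f2 : (fun u v => eT φ a (io φ (m + 2) u) (io φ (m + 2) v)) = efU φ (jn φ x b) := by
        funext u v
        unfold eT efU
        rw [hy b hb, hy b hb, decide_eq_decide]
        exact ⟨fun h => hι (Sum.inl_injective h), fun h => by rw [h]⟩
      have f3 : ∀ v : At φ, tp (fun j => a (io φ (m + 2) (v j))) (nu 0) (nu 0) =
          (stp ι (fun i => jn φ x b (v i)) : Fin (s + 2) → UT V Nm k) := by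
        intro v
        unfold stp
        rw [tp_inj]
        exact ⟨funext fun j => hy b hb _, rfl, rfl⟩
      rw [f1, f2]
      apply and_congr Iff.rfl
      apply and_congr
      · apply forall_congr'
        intro v
        apply forall_congr'
        intro _
        unfold sA
        rw [xT_tp, h0, f3, mem_enc_s ι hι]
      apply and_congr
      · apply forall_congr'
        intro v
        apply forall_congr'
        intro _
        apply not_congr
        rw [isTb_a, h0, h2]
        simp only [if_true, hy b hb]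
        constructor
        · rintro ⟨z', x', i, ⟨h7, h8, -⟩, h9⟩
          have e3 : z' = fun i => ι (jn φ x b (v i)) := by
            funext j
            exact (Sum.inl_injective (h7 j)).symm
          have e4 : g = x' := Sum.inr_injective (Sum.inr_injective h8)
          rw [e4, ← e3]
          exact h9
        · intro h9
          exact ⟨_, g, 0, ⟨fun j => rfl, rfl, rfl⟩, h9⟩
      · apply forall_congr'
        intro hC
        have g2 : a (sp φ (m + 1) (m + 1) 2) = sv φ (m + 1) y 2 := h4 _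
        have g3 : a (sp φ (m + 1) (m + 1) 3) = sv φ (m + 1) y 3 := h4 _
        rw [isS_a, srt2]
        unfold nA
        rw [xT_tp, g2, g3, h0]
        constructor
        · rintro ⟨⟨x', hx'⟩, h6, h7⟩
          rw [hx', mem_enc_n] at h6
          obtain ⟨i, hi1, hi2⟩ := h6
          refine ⟨i, by rw [hx', hi1], hi2, fun v hv => ?_⟩
          have h8 := h7 v hv
          rw [isTb_a, g2, g3] at h8
          simp only [hy b hb] at h8
          obtain ⟨z', x'', i', ⟨h9, h10, h11⟩, h12⟩ := h8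
          have e3 : z' = fun i => ι (jn φ x b (v i)) := by
            funext j
            exact (Sum.inl_injective (h9 j)).symm
          have e4 : ν i = x'' := by
            rw [← hi1]
            exact Sum.inr_injective (Sum.inr_injective (hx'.symm.trans h10))
          have e5 : i = i' := Sum.inl_injective (Sum.inr_injective (hi2.symm.trans h11))
          rw [e3, ← e4, ← e5] at h12
          simpa using h12
        · rintro ⟨i, h5, h6, h7⟩
          refine ⟨⟨ν i, h5⟩, ?_, fun v hv => ?_⟩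
          · rw [h5, h6]
            exact (mem_enc_n ι S ν (ν i) _).mpr ⟨i, rfl, rfl⟩
          · rw [isTb_a, g2, g3]
            simp only [hy b hb]
            refine ⟨_, ν i, i, ⟨fun j => rfl, h5, h6⟩, ?_⟩
            simpa using h7 v hv
    constructor
    · rintro ⟨⟨b, hb⟩, Cp, Cn, G, h⟩
      exact ⟨b, hb, Cp, Cn, G, (e2 b hb Cp Cn G).mp h⟩
    · rintro ⟨b, hb, Cp, Cn, G, h⟩
      exact ⟨⟨b, hb⟩, Cp, Cn, G, (e2 b hb Cp Cn G).mpr h⟩

/-- universal tables -/
def Uni {W : Type} (T2 : Nm → W → Prop) (k c : ℕ) : Prop :=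
  ∀ P N : Finset W, Disjoint P N → P.card ≤ k → N.card ≤ c * k →
    ∃ x, (∀ w ∈ N, T2 x w) ∧ ∀ w ∈ P, ¬ T2 x w

/-- the number of pairs of atoms -/
def nP : ℕ := Fintype.card (At φ × At φ)

/-- the value of a guarded atom -/
def gval (v0 : V) (x : Vars φ.len (m + 1) → U) (p : At φ × At φ) (z : Fin s → U) : Fin s → V :=
  fun i => match p.2 i with
    | Sum.inl y => ι (x y)
    | Sum.inr _ => if h : ∃ j, p.1 j = p.2 i then ι (z h.choose) else v0

lemma gval_eq (v0 : V) (x : Vars φ.len (m + 1) → U) (b : Fin (φ.len (m + 1)) → U) (g v : At φ)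
    (h : ∀ i, lastVar φ.len (m + 2) (v i) → ∃ j, g j = v i) :
    gval φ ι v0 x (g, v) (fun i => jn φ x b (g i)) = fun i => ι (jn φ x b (v i)) := by
  funext i
  have key : ∀ u : Vars φ.len (m + 2), v i = u →
      gval φ ι v0 x (g, v) (fun i => jn φ x b (g i)) i = ι (jn φ x b u) := by
    intro u hu
    rcases u with y | j
    · unfold gval
      simp only [hu]
      rfl
    · have h1 : ∃ j, g j = v i := h i (by rw [hu]; trivial)
      have h2 : gval φ ι v0 x (g, v) (fun i => jn φ x b (g i)) i =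
          if h : ∃ j, g j = v i then ι (jn φ x b (g h.choose)) else v0 := by
        unfold gval
        simp only
        split
        · rename_i y hy
          rw [hu] at hy
          exact absurd hy (by simp)
        · rfl
      rw [h2, dif_pos h1, h1.choose_spec, hu]
  exact key _ rfl

theorem EV_sound (hι : Function.Injective ι) [Nonempty V] (huni : Uni T2 k (nP φ))
    (S : Finset (Fin s → U)) (hS : S.card ≤ k) (ν : Fin (k + 1) → Nm) (hav : Av ι T1 S ν)
    (x : Vars φ.len (m + 1) → U)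
    (h : ∀ g : Nm, ∃ y : XT φ V Nm k (m + 1), EV φ bb w0 ι B T1 T2 S ν x g y) :
    ∃ b : Fin (φ.len (m + 1)) → U, φ.ψ.eval (rfU φ B (jn φ x b)) (efU φ (jn φ x b))
      (fun v => decide ((fun i => jn φ x b (v i)) ∈ S)) = bb := by
  obtain ⟨v0⟩ := ‹Nonempty V›
  obtain ⟨PP, hPP⟩ : ∃ PP : Finset (Fin s → V), PP = S.image (fun z i => ι (z i)) := ⟨_, rfl⟩
  obtain ⟨NN, hNN⟩ : ∃ NN : Finset (Fin s → V), NN = (((Finset.univ : Finset (At φ × At φ)) ×ˢ S).image
    (fun p => gval φ ι v0 x p.1 p.2)).filter (fun w => w ∉ PP) := ⟨_, rfl⟩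
  obtain ⟨g, hg1, hg2⟩ := huni PP NN (by
      rw [Finset.disjoint_left]
      intro w hw hw'
      rw [hNN] at hw'
      exact (Finset.mem_filter.mp hw').2 hw)
    (by rw [hPP]; exact Finset.card_image_le.trans hS)
    (by
      rw [hNN]
      refine (Finset.card_filter_le _ _).trans (Finset.card_image_le.trans ?_)
      rw [Finset.card_product, Finset.card_univ]
      exact Nat.mul_le_mul_left _ hS)
  obtain ⟨y, hy⟩ := h g
  rcases hy with ⟨z, hz, -, hT⟩ | ⟨b, -, Cp, Cn, G, hc, hG, hp, hn⟩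
  · exfalso
    refine hg2 _ ?_ hT
    rw [hPP]
    exact Finset.mem_image.mpr ⟨z, hz, rfl⟩
  · refine ⟨b, ?_⟩
    obtain ⟨c1, c2, c3, c4, c5, c6, c7⟩ := hc
    apply c7
    · intro v hv
      exact (pU_eq φ S x b hv).symm
    · intro v hv
      apply decide_eq_true
      obtain ⟨g', hg', hgd⟩ := c6 v hv
      have e1 := gval_eq φ ι v0 x b g' v hgd
      by_contra hcon
      have e2 : (fun i => ι (jn φ x b (v i))) ∉ PP := by
        rw [hPP]
        intro h'
        obtain ⟨z, hz, hze⟩ := Finset.mem_image.mp h'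
        apply hcon
        have : (fun i => jn φ x b (v i)) = z := by
          funext i
          exact hι (congrFun hze i).symm
        rw [this]
        exact hz
      refine hp v hv (hg1 _ ?_)
      rw [hNN]
      refine Finset.mem_filter.mpr ⟨Finset.mem_image.mpr ⟨((g', v), fun i => jn φ x b (g' i)),
        Finset.mem_product.mpr ⟨Finset.mem_univ _, hG g' hg'⟩, e1⟩, e2⟩
    · intro v hv
      apply decide_eq_false
      intro h'
      obtain ⟨i, -, -, h3⟩ := hn ⟨v, hv⟩
      exact hav i _ h' (h3 v hv)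

theorem EV_compl (S : Finset (Fin s → U)) (ν : Fin (k + 1) → Nm) (hcov : Cov φ ι T1 S ν)
    (hw : φ.ψ.CertG (lastVar φ.len (m + 2)) bb w0) (x : Vars φ.len (m + 1) → U)
    (h : ∃ b : Fin (φ.len (m + 1)) → U, φ.ψ.eval (rfU φ B (jn φ x b)) (efU φ (jn φ x b))
      (fun v => decide ((fun i => jn φ x b (v i)) ∈ S)) = bb) (g : Nm) :
    ∃ y : XT φ V Nm k (m + 1), EV φ bb w0 ι B T1 T2 S ν x g y := by
  obtain ⟨b, hb⟩ := h
  by_cases hT : ∃ z ∈ S, T2 g (fun i => ι (z i))
  · obtain ⟨z, hz, hT⟩ := hT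
    refine ⟨mk φ (m + 1) (fun _ => nu 0) (FX φ (nu 0) (nu 0) (nu 0) (nu 0)
      (stp ι z) (fun _ _ => nu 0)), Or.inl ⟨z, hz, fun i => ?_, hT⟩⟩
    refine (xv_mk φ (m + 1) _ _ _).trans ?_
    simp [FX, stp, tp]
  · push Not at hT
    obtain ⟨C, G, hC, hG, hGc, hgd, hneg, hcert⟩ := hw _ _ _ hb
    have hxi : ∀ v : At φ, decide ((fun i => jn φ x b (v i)) ∈ S) = true ↔
        (fun i => jn φ x b (v i)) ∈ S := fun v => decide_eq_true_iff
    obtain ⟨Cp, hCp⟩ : ∃ Cp : Finset (At φ), Cp = C.filter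
      (fun v => (fun i => jn φ x b (v i)) ∈ S) := ⟨_, rfl⟩
    obtain ⟨Cn, hCn⟩ : ∃ Cn : Finset (At φ), Cn = C.filter
      (fun v => (fun i => jn φ x b (v i)) ∉ S) := ⟨_, rfl⟩
    have hi : ∃ i : Fin (k + 1), Cn.Nonempty → ∀ v ∈ Cn,
        T1 i (ν i) (fun j => ι (jn φ x b (v j))) := by
      by_cases hne : Cn.Nonempty
      · obtain ⟨v1, hv1⟩ := hne
        obtain ⟨i, hi⟩ := hcov (fun v => if v ∈ Cn then (fun i => jn φ x b (v i)) else
          (fun i => jn φ x b (v1 i))) (by
            intro v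
            by_cases hv : v ∈ Cn
            · simp only [if_pos hv]
              rw [hCn] at hv
              exact (Finset.mem_filter.mp hv).2
            · simp only [if_neg hv]
              rw [hCn] at hv1
              exact (Finset.mem_filter.mp hv1).2)
        refine ⟨i, fun _ v hv => ?_⟩
        have := hi v
        simp only [if_pos hv] at this
        exact this
      · exact ⟨0, fun h => absurd h hne⟩
    obtain ⟨i, hi⟩ := hi
    refine ⟨mk φ (m + 1) (fun j => Sum.inl (ι (b j))) (FX φ (nu 0) (nu 0) (nm (ν i)) (nu i)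
      (fun _ => nu 0) (fun _ _ => nu 0)), Or.inr ⟨b, fun j => mk_orig φ _ _ _ _, Cp, Cn, G,
        ⟨?_, ?_, ?_, hGc, ?_, ?_, ?_⟩, ?_, ?_, ?_⟩⟩
    · intro v hv
      rw [hCp] at hv
      exact hC v (Finset.mem_filter.mp hv).1
    · intro v hv
      rw [hCn] at hv
      exact hC v (Finset.mem_filter.mp hv).1
    · intro v hv
      obtain ⟨h1, h2⟩ := hG v hv
      rw [hCp]
      exact Finset.mem_filter.mpr ⟨h1, (hxi v).mp h2⟩
    · rintro ⟨v, hv⟩
      rw [hCn] at hv
      exact hneg ⟨v, (Finset.mem_filter.mp hv).1, decide_eq_false (Finset.mem_filter.mp hv).2⟩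
    · intro v hv
      rw [hCp] at hv
      obtain ⟨h1, h2⟩ := Finset.mem_filter.mp hv
      exact hgd v h1 ((hxi v).mpr h2)
    · intro ζ z1 z2 z3
      apply hcert
      rintro v (hv | hv)
      · rw [z1 v hv]
        exact pU_eq φ S x b hv
      · by_cases hvS : (fun i => jn φ x b (v i)) ∈ S
        · rw [z2 v (by rw [hCp]; exact Finset.mem_filter.mpr ⟨hv, hvS⟩)]
          exact (decide_eq_true hvS).symm
        · rw [z3 v (by rw [hCn]; exact Finset.mem_filter.mpr ⟨hv, hvS⟩)]
          exact (decide_eq_false hvS).symm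
    · intro v hv
      exact (hxi v).mp (hG v hv).2
    · intro v hv
      rw [hCp] at hv
      exact hT _ (Finset.mem_filter.mp hv).2
    · intro hne
      exact ⟨i, xv_mk φ (m + 1) _ _ _, xv_mk φ (m + 1) _ _ _, hi hne⟩

end

end

end Pool.Agent.Helper265_EW.T
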