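import Pool.Agent.Helper265_EW.TEv

set_option linter.unusedSectionVars false

/-! The two problems are equivalent. -/

namespace Pool.Agent.Helper265_EW.T

open Finset Classical Pool.Agent.Helper265_EW.G Pool.Agent.Helper265_EW.P
open Pool.Agent.Helper265_EW.N (At jn qfOf eval_qfOf fstc alt_first)

noncomputable section

/-- covering tables -/
def CovT {Nm W : Type} {k : ℕ} (T1 : Fin (k + 1) → Nm → W → Prop) (L : ℕ) : Prop :=
  ∀ S : Finset W, S.card = k → ∃ ν : Fin (k + 1) → Nm, (∀ i, ∀ w ∈ S, ¬ T1 i (ν i) w) ∧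
    ∀ N : Finset W, Disjoint N S → N.card ≤ L → ∃ i, ∀ w ∈ N, T1 i (ν i) w

section

variable {τ : Voc} {s m : ℕ} (φ : PiF τ s (m + 2)) (bb : Bool) (w0 : ℕ) {k : ℕ}
  {V U Nm : Type} (ι : U → V) (B : Str τ U) (T1 : Fin (k + 1) → Nm → (Fin s → V) → Prop)
  (T2 : Nm → (Fin s → V) → Prop)

/-- the assignment of a tuple -/
abbrev as2 (v : Tup (XT φ V Nm k) (m + 2)) : Vars (lenT φ) (m + 2) → UT V Nm k :=
  asg (lenT φ) (m + 2) v

/-- the critical event under a tuple -/
def evv (T : Finset (Fin (s + 2) → UT V Nm k)) (v : Tup (XT φ V Nm k) (m + 2)) : Prop :=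
  evtT φ bb w0 (rT φ ι B T1 T2 (as2 φ v)) (eT φ (as2 φ v)) (xT φ T (as2 φ v))

/-- the meaning of the main part -/
def restT (T : Finset (Fin (s + 2) → UT V Nm k)) (v : Tup (XT φ V Nm k) (m + 2)) : Prop :=
  match stt (piT φ ι) m v.1.1 with
  | Sum.inr c => c = true
  | Sum.inl _ => if bb = true then
      (((∃ x, piT φ ι m v.1.2 = some x) ∧ ∃ g, sv φ m v.1.2 2 = nm g) →
        evv φ bb w0 ι B T1 T2 T v)
    else (((∃ x, piT φ ι m v.1.2 = some x) ∧ ∃ g, sv φ m v.1.2 2 = nm g) ∧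
        ¬ evv φ bb w0 ι B T1 T2 T v)

lemma as_sp0 (v : Tup (XT φ V Nm k) (m + 2)) (c : Fin 4) :
    as2 φ v (sp φ (m + 1) 0 c) = sv φ 0 (fstc (m + 1) v) c :=
  (asg_av φ (m + 1) 0 v _).trans (axv_zero φ (m + 1) v _)

lemma as_ov (v : Tup (XT φ V Nm k) (m + 2)) :
    as2 φ v (ov φ) = sv φ 0 (fstc (m + 1) v) 0 := as_sp0 φ v 0

lemma as_tv0 (v : Tup (XT φ V Nm k) (m + 2)) (c : Fin (s + 2)) :
    as2 φ v (tv φ (m + 1) 0 c) = tvv φ 0 (fstc (m + 1) v) c :=
  (asg_av φ (m + 1) 0 v _).trans (axv_zero φ (m + 1) v _)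

lemma as_nv0 (v : Tup (XT φ V Nm k) (m + 2)) (u : At φ) (i : Fin s) :
    as2 φ v (nv φ (m + 1) 0 u i) = nvv φ 0 (fstc (m + 1) v) u i :=
  (asg_av φ (m + 1) 0 v _).trans (axv_zero φ (m + 1) v _)

lemma as_sp1 (v : Tup (XT φ V Nm k) (m + 2)) (c : Fin 4) :
    as2 φ v (sp φ (m + 1) 1 c) = sv φ 1 (sndc m v) c :=
  (asg_av φ (m + 1) 1 v _).trans (axv_one φ m v _)

lemma as_spm (v : Tup (XT φ V Nm k) (m + 2)) (c : Fin 4) :
    as2 φ v (sp φ (m + 1) m c) = sv φ m v.1.2 c :=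
  (asg_av φ (m + 1) m v _).trans (axv_pred φ m v _)

lemma cond_sem (T : Finset (Fin (s + 2) → UT V Nm k)) (v : Tup (XT φ V Nm k) (m + 2)) :
    condT φ (rT φ ι B T1 T2 (as2 φ v)) (eT φ (as2 φ v)) (xT φ T (as2 φ v)) ↔
      gdT φ ι T1 T (fstc (m + 1) v) := by
  have e1 : xT φ T (as2 φ v) (cv φ) = true ↔
      (fun i => tvv φ 0 (fstc (m + 1) v) i) ∈ T := by
    unfold xT
    rw [decide_eq_true_eq]
    have : (fun j => as2 φ v (cv φ j)) = fun i => tvv φ 0 (fstc (m + 1) v) i := by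
      funext j
      exact as_tv0 φ v j
    rw [this]
  have e2 : xT φ T (as2 φ v) (nA φ (sp φ (m + 1) 0 2) (sp φ (m + 1) 0 3)) = true ↔
      tp (fun _ => sv φ 0 (fstc (m + 1) v) 0) (sv φ 0 (fstc (m + 1) v) 2)
        (sv φ 0 (fstc (m + 1) v) 3) ∈ T := by
    unfold nA
    rw [xT_tp, as_sp0, as_sp0, as_ov]
  have e3 : ∀ i, as2 φ v (cv φ i) = tvv φ 0 (fstc (m + 1) v) i := fun i => as_tv0 φ v i
  have e4 : ∀ i, as2 φ v (cz φ i) = tvv φ 0 (fstc (m + 1) v) (Fin.castAdd 2 i) :=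
    fun i => as_tv0 φ v _
  unfold condT gdT
  simp only [e1, e2, isS_a, isTb_a, srt0, srt1, srt2, srt3, eT, decide_eq_true_eq, e3, e4,
    as_ov, as_sp0, Bool.false_eq_true, if_false]

lemma mod_sem (v : Tup (XT φ V Nm k) (m + 2)) :
    modT φ (rT φ ι B T1 T2 (as2 φ v)) (eT φ (as2 φ v)) ↔ moT φ (fstc (m + 1) v) := by
  unfold modT moT
  rw [isS_a, srt3, as_ov]
  apply and_congr Iff.rfl
  unfold eT
  rw [decide_eq_false_iff_not, as_sp0, as_ov]

lemma hc_sem (T : Finset (Fin (s + 2) → UT V Nm k)) (v : Tup (XT φ V Nm k) (m + 2)) :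
    (moT φ (fstc (m + 1) v) → (hasN φ (rT φ ι B T1 T2 (as2 φ v)) (xT φ T (as2 φ v)) ∧
      (bb = false → covN φ (rT φ ι B T1 T2 (as2 φ v)) (xT φ T (as2 φ v))))) ↔
      hcT φ bb ι T1 T (fstc (m + 1) v) (sndc m v) := by
  unfold hcT
  apply forall_congr'
  intro _
  apply and_congr
  · unfold hasN nA
    rw [isS_a, srt1, isS_a, srt2, xT_tp, as_sp0, as_sp1, as_ov]
  · apply forall_congr'
    intro _
    unfold covN sA nA
    simp only [isS_a, srt0, srt2, xT_tp, as_nv0, as_sp1, as_ov, isTb_a, Bool.false_eq_true,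
      if_false]
    have e1 : ∀ u : At φ, (xT φ T (as2 φ v) (tp (nv φ (m + 1) 0 u) (ov φ) (ov φ)) = false ↔
        tp (fun i => nvv φ 0 (fstc (m + 1) v) u i) (sv φ 0 (fstc (m + 1) v) 0)
          (sv φ 0 (fstc (m + 1) v) 0) ∉ T) := by
      intro u
      rw [← Bool.not_eq_true, xT_tp, as_ov]
      simp only [as_nv0]
    simp only [e1]

lemma ok_sem (v : Tup (XT φ V Nm k) (m + 2)) (i : ℕ) :
    okT φ (rT φ ι B T1 T2 (as2 φ v)) (eT φ (as2 φ v)) i ↔ okv φ ι (m + 2) v i := by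
  unfold okT okv
  simp only [isS_a, srt0, srt3]
  apply and_congr Iff.rfl
  apply forall_congr'
  intro _
  unfold zcT zcY eT
  rw [decide_eq_true_eq, as_ov, as_sp0]

lemma main_sem (T : Finset (Fin (s + 2) → UT V Nm k)) (v : Tup (XT φ V Nm k) (m + 2)) :
    mainT φ bb w0 (rT φ ι B T1 T2 (as2 φ v)) (eT φ (as2 φ v)) (xT φ T (as2 φ v)) ↔
      restT φ bb w0 ι B T1 T2 T v := by
  have h1 : P.scn (okT φ (rT φ ι B T1 T2 (as2 φ v)) (eT φ (as2 φ v))) m =
      match stt (piT φ ι) m v.1.1 with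
      | Sum.inl _ => none
      | Sum.inr c => some c := by
    have h0 := scn_okv φ ι m v.1.1
    refine Eq.trans (P.scn_congr (ok' := okv φ ι m v.1.1) m ?_)
      (by cases h9 : stt (piT φ ι) m v.1.1 with
        | inl x => rw [h9] at h0; exact h0
        | inr c => rw [h9] at h0; exact h0)
    intro i hi
    rw [ok_sem, okv_lt φ ι (m + 1) v i (by omega), okv_lt φ ι m v.1 i hi]
  unfold mainT restT
  rw [h1]
  cases h2 : stt (piT φ ι) m v.1.1 with
  | inr c => exact Iff.rfl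
  | inl x =>
    simp only
    have h3 : (okT φ (rT φ ι B T1 T2 (as2 φ v)) (eT φ (as2 φ v)) m ∧
        isS φ (rT φ ι B T1 T2 (as2 φ v)) 2 (sp φ (m + 1) m 2)) ↔
        ((∃ x, piT φ ι m v.1.2 = some x) ∧ ∃ g, sv φ m v.1.2 2 = nm g) := by
      rw [ok_sem, okv_lt φ ι (m + 1) v m (by omega), okv_pi, isS_a, srt2, as_spm]
    rw [h3]
    exact Iff.rfl

lemma zc_of (v : Tup (XT φ V Nm k) (m + 2)) (x : Tup (fun i => Fin (φ.len i) → U) m)
    (r : Fin (φ.len m) → U) (h1 : stt (piT φ ι) m v.1.1 = Sum.inl x)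
    (h2 : piT φ ι m v.1.2 = some r) : zcY φ 0 (fstc (m + 1) v) := by
  by_contra h
  have h3 := stt_first φ ι m v.1 h
  rw [stt_succ, h1] at h3
  simp only [h2] at h3
  exact absurd h3 (by simp)

lemma rest_mo (hbb : bb = decide (m % 2 = 0)) (T : Finset (Fin (s + 2) → UT V Nm k))
    (v : Tup (XT φ V Nm k) (m + 2)) (h : moT φ (fstc (m + 1) v)) :
    restT φ bb w0 ι B T1 T2 T v := by
  have hz : ¬ zcY φ 0 (fstc (m + 1) v) := fun h' => h.2 h'.2
  unfold restT
  cases h1 : stt (piT φ ι) m v.1.1 with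
  | inr c =>
    simp only
    rcases Nat.eq_zero_or_pos m with hm | hm
    · subst hm
      exact absurd h1 (by simp [stt])
    · obtain ⟨m', rfl⟩ : ∃ m', m = m' + 1 := ⟨m - 1, by omega⟩
      have h2 := stt_first φ ι m' v.1.1 hz
      rw [h2] at h1
      exact (Sum.inr_injective h1).symm
  | inl x =>
    simp only
    rcases Nat.eq_zero_or_pos m with hm | hm
    · subst hm
      have hb : bb = true := by rw [hbb]; rfl
      rw [if_pos hb]
      rintro ⟨⟨r, hr⟩, -⟩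
      exact absurd (zc_of φ ι v x r h1 hr) hz
    · obtain ⟨m', rfl⟩ : ∃ m', m = m' + 1 := ⟨m - 1, by omega⟩
      have h2 := stt_first φ ι m' v.1.1 hz
      rw [h2] at h1
      exact absurd h1 (by simp)

lemma PT_sem (hbb : bb = decide (m % 2 = 0)) (T : Finset (Fin (s + 2) → UT V Nm k))
    (v : Tup (XT φ V Nm k) (m + 2)) :
    PT φ bb w0 (rT φ ι B T1 T2 (as2 φ v)) (eT φ (as2 φ v)) (xT φ T (as2 φ v)) ↔
      gdT φ ι T1 T (fstc (m + 1) v) ∧ (hcT φ bb ι T1 T (fstc (m + 1) v) (sndc m v) ∧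
        restT φ bb w0 ι B T1 T2 T v) := by
  unfold PT
  rw [cond_sem, ← hc_sem φ bb ι B T1 T2 T v]
  apply and_congr Iff.rfl
  by_cases hm : moT φ (fstc (m + 1) v)
  · rw [if_pos ((mod_sem φ ι B T1 T2 v).mpr hm)]
    constructor
    · intro h
      exact ⟨fun _ => h, rest_mo φ bb w0 ι B T1 T2 hbb T v hm⟩
    · intro h
      exact h.1 hm
  · rw [if_neg (fun h => hm ((mod_sem φ ι B T1 T2 v).mp h)), main_sem]
    constructor
    · intro h
      exact ⟨fun h' => absurd h' hm, h⟩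
    · intro h
      exact h.2

lemma holds_alt (hbb : bb = decide (m % 2 = 0)) (T : Finset (Fin (s + 2) → UT V Nm k)) :
    (forT φ bb w0).Holds (strT ι B T1 T2) T ↔
      alt (XT φ V Nm k) (m + 2) (fun v => gdT φ ι T1 T (fstc (m + 1) v) ∧
        (hcT φ bb ι T1 T (fstc (m + 1) v) (sndc m v) ∧ restT φ bb w0 ι B T1 T2 T v)) := by
  unfold PiF.Holds
  rw [quant_alt]
  apply alt_congr
  intro v
  rw [← PT_sem φ bb w0 ι B T1 T2 hbb]
  have h1 := P.eval_holds (strT ι B T1 T2) T (as2 φ v)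
    (rT φ ι B T1 T2 (as2 φ v)) (eT φ (as2 φ v))
    (xT φ T (as2 φ v)) (fun R w => Iff.rfl) (fun u w => decide_eq_true_iff)
    (fun w => decide_eq_true_iff) (qfOf (ov φ) (PT φ bb w0))
  exact h1.symm.trans (eval_qfOf _ _ _ _ _)

/-- the matrix of the original formula -/
def MT (S : Finset (Fin s → U)) (x : Vars φ.len m → U) (r : Fin (φ.len m) → U)
    (b : Fin (φ.len (m + 1)) → U) : Prop :=
  φ.ψ.Holds B S (Sum.elim (Sum.elim x r : Vars φ.len m ⊕ Fin (φ.len m) → U) b :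
    (Vars φ.len m ⊕ Fin (φ.len m)) ⊕ Fin (φ.len (m + 1)) → U)

/-- joining blocks -/
def jo (x : Vars φ.len m → U) (r : Fin (φ.len m) → U) : Vars φ.len (m + 1) → U :=
  (Sum.elim x r : Vars φ.len m ⊕ Fin (φ.len m) → U)

lemma holds_orig (S : Finset (Fin s → U)) : φ.Holds B S ↔
    alt (fun i => Fin (φ.len i) → U) m (fun v => lev m (fun r => lev (m + 1) (fun b =>
      MT φ B S (asg φ.len m v) r b))) := by
  unfold PiF.Holds
  rw [quant_alt]
  exact Iff.rfl

lemma eval_orig (S : Finset (Fin s → U)) (x : Vars φ.len m → U)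
    (r : Fin (φ.len m) → U) (b : Fin (φ.len (m + 1)) → U) :
    φ.ψ.eval (rfU φ B (jn φ (jo φ x r) b)) (efU φ (jn φ (jo φ x r) b))
      (fun v => decide ((fun i => jn φ (jo φ x r) b (v i)) ∈ S)) = true ↔ MT φ B S x r b :=
  P.eval_holds B S _ _ _ _ (fun R w => Iff.rfl) (fun u w => decide_eq_true_iff)
    (fun w => decide_eq_true_iff) _

/-- the meaning of the last two blocks -/
def ZT (S : Finset (Fin s → U)) (ν : Fin (k + 1) → Nm) (x : Vars φ.len m → U)
    (r : Fin (φ.len m) → U) : Prop :=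
  if bb = true then ∀ g : Nm, ∃ y : XT φ V Nm k (m + 1), EV φ bb w0 ι B T1 T2 S ν (jo φ x r) g y
  else ¬ ∀ g : Nm, ∃ y : XT φ V Nm k (m + 1), EV φ bb w0 ι B T1 T2 S ν (jo φ x r) g y

theorem rest_iff (hι : Function.Injective ι) (hbb : bb = decide (m % 2 = 0))
    (S : Finset (Fin s → U)) (ν : Fin (k + 1) → Nm) :
    alt (XT φ V Nm k) (m + 2) (restT φ bb w0 ι B T1 T2 (enc ι S ν)) ↔
      alt (fun i => Fin (φ.len i) → U) m (fun v => lev m (fun r =>
        ZT φ bb w0 ι B T1 T2 S ν (asg φ.len m v) r)) := by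
  change alt (XT φ V Nm k) m (fun v => lev m (fun r => lev (m + 1) (fun y =>
    restT φ bb w0 ι B T1 T2 (enc ι S ν) ((v, r), y)))) ↔ _
  apply alt_rel (piT φ ι)
  · intro i x
    refine ⟨mk φ i (fun j => Sum.inl (ι (x j))) (FX φ (nu 0) (nu 0) (nu 0) (nu 0)
      (fun _ => nu 0) (fun _ _ => nu 0)), ?_⟩
    rw [piT_some φ ι hι]
    refine ⟨fun j => mk_orig φ _ _ _ _, fun _ => ?_⟩
    unfold zcY
    rw [xv_mk, xv_mk]
    exact ⟨rfl, rfl⟩
  · intro i hi _
    exact ⟨fun _ => nu 0⟩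
  · intro v x hv
    have hev : ∀ (r : XT φ V Nm k m) (r' : Fin (φ.len m) → U) (g : Nm)
        (y : XT φ V Nm k (m + 1)), piT φ ι m r = some r' → sv φ m r 2 = nm g →
        (evv φ bb w0 ι B T1 T2 (enc ι S ν) ((v, r), y) ↔
          EV φ bb w0 ι B T1 T2 S ν (jo φ (asg φ.len m x) r') g y) := by
      intro r r' g y hr hg
      apply evt_sem φ bb w0 ι B T1 T2 hι
      · rw [as_ov]
        exact (zc_of φ ι ((v, r), y) x r' hv hr).1
      · intro u
        rcases u with u | j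
        · exact asg_io φ ι hι m v x hv u
        · exact ((piT_some φ ι hι m r r').mp hr).1 j
      · exact (as_spm φ ((v, r), y) 2).trans hg
      · intro j
        rfl
    have hrest : ∀ (r : XT φ V Nm k m) (y : XT φ V Nm k (m + 1)),
        (restT φ bb w0 ι B T1 T2 (enc ι S ν) ((v, r), y) ↔ if bb = true then
        (((∃ x, piT φ ι m r = some x) ∧ ∃ g, sv φ m r 2 = nm g) →
          evv φ bb w0 ι B T1 T2 (enc ι S ν) ((v, r), y))
      else (((∃ x, piT φ ι m r = some x) ∧ ∃ g, sv φ m r 2 = nm g) ∧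
          ¬ evv φ bb w0 ι B T1 T2 (enc ι S ν) ((v, r), y))) := by
      intro r y
      unfold restT
      have : stt (piT φ ι) m ((v, r), y).1.1 = Sum.inl x := hv
      rw [this]
    have hmk : ∀ (r' : Fin (φ.len m) → U) (g : Nm), ∃ r : XT φ V Nm k m,
        piT φ ι m r = some r' ∧ sv φ m r 2 = nm g := by
      intro r' g
      refine ⟨mk φ m (fun j => Sum.inl (ι (r' j))) (FX φ (nu 0) (nu 0) (nm g) (nu 0)
        (fun _ => nu 0) (fun _ _ => nu 0)), ?_, xv_mk φ m _ _ _⟩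
      rw [piT_some φ ι hι]
      refine ⟨fun j => mk_orig φ _ _ _ _, fun _ => ?_⟩
      unfold zcY
      rw [xv_mk, xv_mk]
      exact ⟨rfl, rfl⟩
    rcases Nat.mod_two_eq_zero_or_one m with hm | hm
    · have hb : bb = true := by rw [hbb]; simp [hm]
      rw [lev_even hm, lev_even hm]
      have e1 : ∀ r : XT φ V Nm k m, (lev (m + 1) (fun y =>
          restT φ bb w0 ι B T1 T2 (enc ι S ν) ((v, r), y)) ↔
          ∀ r' g, piT φ ι m r = some r' → sv φ m r 2 = nm g →
            ∃ y, EV φ bb w0 ι B T1 T2 S ν (jo φ (asg φ.len m x) r') g y) := by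
        intro r
        rw [lev_odd (by omega)]
        constructor
        · rintro ⟨y, hy⟩ r' g hr hg
          rw [hrest, if_pos hb] at hy
          exact ⟨y, (hev r r' g y hr hg).mp (hy ⟨⟨r', hr⟩, ⟨g, hg⟩⟩)⟩
        · intro h
          by_cases h1 : (∃ x, piT φ ι m r = some x) ∧ ∃ g, sv φ m r 2 = nm g
          · obtain ⟨⟨r', hr⟩, ⟨g, hg⟩⟩ := h1
            obtain ⟨y, hy⟩ := h r' g hr hg
            refine ⟨y, ?_⟩
            rw [hrest, if_pos hb]
            intro _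
            exact (hev r r' g y hr hg).mpr hy
          · refine ⟨fun _ => nu 0, ?_⟩
            rw [hrest, if_pos hb]
            intro h2
            exact absurd h2 h1
      have e2 : ∀ r' : Fin (φ.len m) → U,
          (ZT φ bb w0 ι B T1 T2 S ν (asg φ.len m x) r' ↔ ∀ g : Nm, ∃ y : XT φ V Nm k (m + 1),
            EV φ bb w0 ι B T1 T2 S ν (jo φ (asg φ.len m x) r') g y) := by
        intro r'
        unfold ZT
        rw [if_pos hb]
      simp only [e1, e2]
      constructor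
      · intro h r' g
        obtain ⟨r, hr, hg⟩ := hmk r' g
        exact h r r' g hr hg
      · intro h r r' g _ _
        exact h r' g
    · have hb : bb = false := by rw [hbb]; simp [hm]
      have hb' : ¬ bb = true := by rw [hb]; simp
      rw [lev_odd hm, lev_odd hm]
      have e1 : ∀ r : XT φ V Nm k m, (lev (m + 1) (fun y =>
          restT φ bb w0 ι B T1 T2 (enc ι S ν) ((v, r), y)) ↔
          ∃ r' g, piT φ ι m r = some r' ∧ sv φ m r 2 = nm g ∧
            ¬ ∃ y, EV φ bb w0 ι B T1 T2 S ν (jo φ (asg φ.len m x) r') g y) := by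
        intro r
        rw [lev_even (by omega)]
        constructor
        · intro h
          have h1 := h (fun _ => nu 0)
          rw [hrest, if_neg hb'] at h1
          obtain ⟨⟨⟨r', hr⟩, ⟨g, hg⟩⟩, -⟩ := h1
          refine ⟨r', g, hr, hg, ?_⟩
          rintro ⟨y, hy⟩
          have h2 := h y
          rw [hrest, if_neg hb'] at h2
          exact h2.2 ((hev r r' g y hr hg).mpr hy)
        · rintro ⟨r', g, hr, hg, h⟩ y
          rw [hrest, if_neg hb']
          refine ⟨⟨⟨r', hr⟩, ⟨g, hg⟩⟩, fun h2 => h ⟨y, (hev r r' g y hr hg).mp h2⟩⟩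
      have e2 : ∀ r' : Fin (φ.len m) → U,
          (ZT φ bb w0 ι B T1 T2 S ν (asg φ.len m x) r' ↔ ¬ ∀ g : Nm, ∃ y : XT φ V Nm k (m + 1),
            EV φ bb w0 ι B T1 T2 S ν (jo φ (asg φ.len m x) r') g y) := by
        intro r'
        unfold ZT
        rw [if_neg hb']
      simp only [e1, e2]
      constructor
      · rintro ⟨r, r', g, -, -, h⟩
        exact ⟨r', fun h2 => h (h2 g)⟩
      · rintro ⟨r', h⟩
        push Not at h
        obtain ⟨g, hg⟩ := h
        obtain ⟨r, hr, hg2⟩ := hmk r' g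
        exact ⟨r, r', g, hr, hg2, fun ⟨y, hy⟩ => hg y hy⟩
  · intro v c hv
    have hrest : ∀ (r : XT φ V Nm k m) (y : XT φ V Nm k (m + 1)),
        (restT φ bb w0 ι B T1 T2 (enc ι S ν) ((v, r), y) ↔ c = true) := by
      intro r y
      unfold restT
      have : stt (piT φ ι) m ((v, r), y).1.1 = Sum.inr c := hv
      rw [this]
    have hne1 : Nonempty (XT φ V Nm k (m + 1)) := ⟨fun _ => nu 0⟩
    have hne2 : Nonempty (XT φ V Nm k m) := ⟨fun _ => nu 0⟩
    simp only [hrest]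
    rw [lev_congr m (fun r => lev_const (m + 1) (c = true)), lev_const]

lemma Z_sound (hι : Function.Injective ι) [Nonempty V] (huni : Uni T2 k (nP φ))
    (hbb : bb = decide (m % 2 = 0)) (hb : bb = true) (S : Finset (Fin s → U)) (hS : S.card ≤ k)
    (ν : Fin (k + 1) → Nm) (hav : Av ι T1 S ν) (x : Vars φ.len m → U) (r : Fin (φ.len m) → U)
    (h : ZT φ bb w0 ι B T1 T2 S ν x r) : lev (m + 1) (fun b => MT φ B S x r b) := by
  have hm : m % 2 = 0 := by
    rw [hbb] at hb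
    exact of_decide_eq_true hb
  rw [lev_odd (by omega)]
  unfold ZT at h
  rw [if_pos hb] at h
  obtain ⟨b, hb'⟩ := EV_sound φ bb w0 ι B T1 T2 hι huni S hS ν hav (jo φ x r) h
  rw [hb] at hb'
  exact ⟨b, (eval_orig φ B S x r b).mp hb'⟩

lemma Z_iff (hι : Function.Injective ι) [Nonempty V] (huni : Uni T2 k (nP φ))
    (hbb : bb = decide (m % 2 = 0)) (S : Finset (Fin s → U)) (hS : S.card ≤ k)
    (ν : Fin (k + 1) → Nm) (hav : Av ι T1 S ν) (hcov : Cov φ ι T1 S ν)
    (hw : φ.ψ.CertG (lastVar φ.len (m + 2)) bb w0) (x : Vars φ.len m → U)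
    (r : Fin (φ.len m) → U) :
    ZT φ bb w0 ι B T1 T2 S ν x r ↔ lev (m + 1) (fun b => MT φ B S x r b) := by
  have h0 : (∀ g : Nm, ∃ y : XT φ V Nm k (m + 1), EV φ bb w0 ι B T1 T2 S ν (jo φ x r) g y) ↔
      ∃ b : Fin (φ.len (m + 1)) → U, φ.ψ.eval (rfU φ B (jn φ (jo φ x r) b))
        (efU φ (jn φ (jo φ x r) b))
        (fun v => decide ((fun i => jn φ (jo φ x r) b (v i)) ∈ S)) = bb :=
    ⟨EV_sound φ bb w0 ι B T1 T2 hι huni S hS ν hav (jo φ x r),
      fun h g => EV_compl φ bb w0 ι B T1 T2 S ν hcov hw (jo φ x r) h g⟩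
  unfold ZT
  rw [h0]
  rcases Nat.mod_two_eq_zero_or_one m with hm | hm
  · have hb : bb = true := by rw [hbb]; simp [hm]
    rw [lev_odd (by omega), if_pos hb, hb]
    exact exists_congr fun b => eval_orig φ B S x r b
  · have hb : bb = false := by rw [hbb]; simp [hm]
    rw [lev_even (by omega), if_neg (by rw [hb]; simp), hb]
    push Not
    apply forall_congr'
    intro b
    rw [← eval_orig φ B S x r b]
    simp

/-- the number of atoms -/
def nAt : ℕ := Fintype.card (At φ)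

/-- the formula over the extended structure -/
theorem ext_WDF [Fintype U] [Nonempty V] (hι : Function.Injective ι)
    (hw : φ.ψ.CertG (lastVar φ.len (m + 2)) bb w0) (hbb : bb = decide (m % 2 = 0))
    (huni : Uni T2 k (nP φ)) (hcv : CovT T1 (nAt φ)) :
    WDF (forT φ bb w0) (strT ι B T1 T2) (2 * k + 1) ↔ WDF φ B k := by
  have hne : ∀ i, i ≤ m + 1 → Nonempty (XT φ V Nm k i) := fun i _ => ⟨fun _ => nu 0⟩
  have hx : ∀ (T : Finset (Fin (s + 2) → UT V Nm k)) (x0 : XT φ V Nm k 0),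
      (∀ x1, hcT φ bb ι T1 T x0 x1) ∨
        (∀ v : Tup (XT φ V Nm k) (m + 2), fstc (m + 1) v = x0 →
          restT φ bb w0 ι B T1 T2 T v) := by
    intro T x0
    by_cases h : moT φ x0
    · right
      rintro v rfl
      exact rest_mo φ bb w0 ι B T1 T2 hbb T v h
    · left
      intro x1 h'
      exact absurd h' h
  constructor
  · rintro ⟨T, hT, hH⟩
    rw [holds_alt φ bb w0 ι B T1 T2 hbb, alt_first (gdT φ ι T1 T) (m + 1) hne,
      alt_two (hcT φ bb ι T1 T) m hne _ (hx T)] at hH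
    obtain ⟨h1, h2, h3⟩ := hH
    obtain ⟨S, ν, rfl, hav, hcov⟩ := dec φ bb ι T1 T h1 h2
    rw [card_enc ι hι] at hT
    have hS : S.card = k := by omega
    refine ⟨S, hS, ?_⟩
    rw [rest_iff φ bb w0 ι B T1 T2 hι hbb] at h3
    rw [holds_orig]
    cases hb : bb with
    | true =>
      refine alt_mono _ m ?_ h3
      intro v
      apply lev_mono
      intro r
      exact Z_sound φ bb w0 ι B T1 T2 hι huni hbb hb S hS.le ν hav _ r
    | false =>
      refine alt_mono _ m ?_ h3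
      intro v
      apply lev_mono
      intro r
      exact (Z_iff φ bb w0 ι B T1 T2 hι huni hbb S hS.le ν hav (hcov hb) hw _ r).mp
  · rintro ⟨S, hS, hH⟩
    obtain ⟨ν, hν1, hν2⟩ := hcv (S.image (fun z i => ι (z i))) (by
      rw [Finset.card_image_of_injective, hS]
      intro z z' h
      funext i
      exact hι (congrFun h i))
    have hav : Av ι T1 S ν := fun i z hz => hν1 i _ (Finset.mem_image.mpr ⟨z, hz, rfl⟩)
    have hcov : Cov φ ι T1 S ν := by
      intro N hN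
      obtain ⟨i, hi⟩ := hν2 (Finset.univ.image (fun v => (fun j => ι (N v j)))) (by
        rw [Finset.disjoint_left]
        intro w hw hw'
        obtain ⟨v, -, rfl⟩ := Finset.mem_image.mp hw
        obtain ⟨z, hz, hze⟩ := Finset.mem_image.mp hw'
        apply hN v
        have : N v = z := by
          funext j
          exact hι (congrFun hze j).symm
        rw [this]
        exact hz) (Finset.card_image_le.trans (by rw [Finset.card_univ]; exact le_rfl))
      exact ⟨i, fun v => hi _ (Finset.mem_image.mpr ⟨v, Finset.mem_univ _, rfl⟩)⟩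
    refine ⟨enc ι S ν, by rw [card_enc ι hι, hS]; omega, ?_⟩
    rw [holds_alt φ bb w0 ι B T1 T2 hbb, alt_first (gdT φ ι T1 _) (m + 1) hne,
      alt_two (hcT φ bb ι T1 _) m hne _ (hx _)]
    obtain ⟨h1, h2⟩ := cod φ bb ι T1 hι S ν hav (fun _ => hcov)
    refine ⟨h1, h2, ?_⟩
    rw [rest_iff φ bb w0 ι B T1 T2 hι hbb]
    rw [holds_orig] at hH
    refine alt_mono _ m ?_ hH
    intro v
    apply lev_mono
    intro r
    exact (Z_iff φ bb w0 ι B T1 T2 hι huni hbb S hS.le ν hav hcov hw _ r).mpr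

end

end

end Pool.Agent.Helper265_EW.T
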