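import Pool.Agent.Helper265_EW.TDefs
import Pool.Agent.Helper265_EW.NSem

set_option linter.unusedSectionVars false

/-! The formula over a structure extended by numbers, names and tables. -/

namespace Pool.Agent.Helper265_EW.T

open Finset Classical Pool.Agent.Helper265_EW.G Pool.Agent.Helper265_EW.P
open Pool.Agent.Helper265_EW.N (At jn qfOf eval_qfOf)

noncomputable section

/-- tuples with two additional components -/
def tp {α : Type} {s : ℕ} (z : Fin s → α) (a b : α) : Fin (s + 2) → α :=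
  Fin.append z ![a, b]

lemma tp_comp {α β : Type} {s : ℕ} (f : α → β) (z : Fin s → α) (a b : α) :
    (fun j => f (tp z a b j)) = tp (fun j => f (z j)) (f a) (f b) := by
  funext j
  unfold tp
  refine Fin.addCases (fun i => ?_) (fun i => ?_) j
  · rw [Fin.append_left, Fin.append_left]
  · rw [Fin.append_right, Fin.append_right]
    fin_cases i <;> rfl

lemma tp_inj {α : Type} {s : ℕ} {z z' : Fin s → α} {a b a' b' : α} :
    tp z a b = tp z' a' b' ↔ z = z' ∧ a = a' ∧ b = b' := by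
  constructor
  · intro h
    refine ⟨?_, ?_, ?_⟩
    · funext j
      have := congrFun h (Fin.castAdd 2 j)
      simpa [tp] using this
    · have := congrFun h (Fin.natAdd s 0)
      simpa [tp] using this
    · have := congrFun h (Fin.natAdd s 1)
      simpa [tp] using this
  · rintro ⟨rfl, rfl, rfl⟩
    rfl

lemma tp_eta {α : Type} {s : ℕ} (w : Fin (s + 2) → α) :
    tp (fun j => w (Fin.castAdd 2 j)) (w (Fin.natAdd s 0)) (w (Fin.natAdd s 1)) = w := by
  funext j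
  unfold tp
  refine Fin.addCases (fun i => ?_) (fun i => ?_) j
  · rw [Fin.append_left]
  · rw [Fin.append_right]
    fin_cases i <;> rfl

/-- indices of the relations: the old ones, the sorts (element, number, name, the number zero),
and the tables -/
abbrev RI (τ : Voc) : Type := Fin τ.num ⊕ (Fin 4 ⊕ Bool)

def arI (τ : Voc) (s : ℕ) : RI τ → ℕ
  | Sum.inl R => τ.ar R
  | Sum.inr (Sum.inl _) => 1
  | Sum.inr (Sum.inr _) => s + 2

def eR (τ : Voc) : RI τ ≃ Fin (Fintype.card (RI τ)) := Fintype.equivFin _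

/-- the new vocabulary -/
def vocT (τ : Voc) (s : ℕ) : Voc := ⟨Fintype.card (RI τ), fun i => arI τ s ((eR τ).symm i)⟩

/-- access to the truth values by indices -/
def gt {τ : Voc} {s : ℕ} {V : Type}
    (ρ : ∀ i : Fin (vocT τ s).num, (Fin ((vocT τ s).ar i) → V) → Bool) (R : RI τ)
    (u : Fin (arI τ s R) → V) : Bool :=
  ρ (eR τ R) (fun j => u (Fin.cast (congrArg (arI τ s) ((eR τ).symm_apply_apply R)) j))

/-- the structure given by a family of relations -/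
def strF {τ : Voc} {s : ℕ} {W : Type} (f : (R : RI τ) → (Fin (arI τ s R) → W) → Bool) :
    Str (vocT τ s) W := fun i v => f ((eR τ).symm i) v

lemma gt_str {τ : Voc} {s : ℕ} {V W : Type} (f : (R : RI τ) → (Fin (arI τ s R) → W) → Bool)
    (w : V → W) (R : RI τ) (u : Fin (arI τ s R) → V) :
    gt (fun i v => strF f i (fun j => w (v j))) R u = f R (fun j => w (u j)) := by
  have h : ∀ (R' : RI τ) (h : R' = R),
      f R' (fun j => w (u (Fin.cast (congrArg (arI τ s) h) j))) = f R (fun j => w (u j)) := by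
    rintro R' rfl
    rfl
  exact h _ ((eR τ).symm_apply_apply R)

section

variable {τ : Voc} {s m : ℕ} (φ : PiF τ s (m + 2)) (bb : Bool) (w0 : ℕ)

/-- the additional variables of each block -/
abbrev AX : Type := Fin (s + 2) ⊕ ((At φ × Fin s) ⊕ Fin 4)

def nX : ℕ := Fintype.card (AX φ)

def eX : AX φ ≃ Fin (nX φ) := Fintype.equivFin _

/-- block lengths -/
def lenT : ℕ → ℕ := fun i => φ.len i + nX φ

/-- the original variables -/
def io : (t : ℕ) → Vars φ.len t → Vars (lenT φ) t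
  | 0, v => v.elim
  | t + 1, Sum.inl v => Sum.inl (io t v)
  | t + 1, Sum.inr j => Sum.inr (Fin.castAdd (nX φ) j)

/-- the additional variable `x` of block `j` -/
def av : (t : ℕ) → ℕ → AX φ → Vars (lenT φ) (t + 1)
  | 0, _, x => (Sum.inr (Fin.natAdd (φ.len 0) (eX φ x)) : Vars (lenT φ) 0 ⊕ Fin (lenT φ 0))
  | t + 1, j, x => if j = t + 1 then
      (Sum.inr (Fin.natAdd (φ.len (t + 1)) (eX φ x)) :
        Vars (lenT φ) (t + 1) ⊕ Fin (lenT φ (t + 1)))
      else (Sum.inl (av t j x) : Vars (lenT φ) (t + 1) ⊕ Fin (lenT φ (t + 1)))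

/-- special variables -/
def sp (t j : ℕ) (c : Fin 4) : Vars (lenT φ) (t + 1) := av φ t j (Sum.inr (Sum.inr c))

/-- tuple variables -/
def tv (t j : ℕ) (i : Fin (s + 2)) : Vars (lenT φ) (t + 1) := av φ t j (Sum.inl i)

/-- the variables for a tuple per atom -/
def nv (t j : ℕ) (v : At φ) (i : Fin s) : Vars (lenT φ) (t + 1) :=
  av φ t j (Sum.inr (Sum.inl (v, i)))

/-- having an argument in the innermost block -/
def innT {s' : ℕ} (v : Fin s' → Vars (lenT φ) (m + 2)) : Prop :=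
  ∃ i, lastVar (lenT φ) (m + 2) (v i)

lemma lastVar_io (u : Vars φ.len (m + 2)) :
    lastVar (lenT φ) (m + 2) (io φ (m + 2) u) ↔ lastVar φ.len (m + 2) u := by
  rcases u with u | j
  · exact Iff.rfl
  · exact Iff.rfl

lemma not_last_av (j : ℕ) (hj : j ≠ m + 1) (x : AX φ) :
    ¬ lastVar (lenT φ) (m + 2) (av φ (m + 1) j x) := by
  intro h
  unfold av at h
  rw [if_neg hj] at h
  exact h

variable (ρ : ∀ i : Fin (vocT τ s).num, (Fin ((vocT τ s).ar i) → Vars (lenT φ) (m + 2)) → Bool)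
  (η : Vars (lenT φ) (m + 2) → Vars (lenT φ) (m + 2) → Bool)
  (ξ : (Fin (s + 2) → Vars (lenT φ) (m + 2)) → Bool)

/-- sorts -/
def isS (c : Fin 4) (u : Vars (lenT φ) (m + 2)) : Prop :=
  gt ρ (Sum.inr (Sum.inl c)) (fun _ => u) = true

/-- tables -/
def isTb (b : Bool) (z : Fin s → Vars (lenT φ) (m + 2)) (u u' : Vars (lenT φ) (m + 2)) : Prop :=
  gt ρ (Sum.inr (Sum.inr b)) (tp z u u') = true

/-- the variable for zero -/
def ov : Vars (lenT φ) (m + 2) := sp φ (m + 1) 0 0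

/-- the atom for a tuple of the solution -/
def sA (z : Fin s → Vars (lenT φ) (m + 2)) : Fin (s + 2) → Vars (lenT φ) (m + 2) :=
  tp z (ov φ) (ov φ)

/-- the atom for a name and a number -/
def nA (u u' : Vars (lenT φ) (m + 2)) : Fin (s + 2) → Vars (lenT φ) (m + 2) :=
  tp (fun _ => ov φ) u u'

/-- the tuple of variables for the conditions -/
def cv : Fin (s + 2) → Vars (lenT φ) (m + 2) := fun i => tv φ (m + 1) 0 i

/-- its first part -/
def cz : Fin s → Vars (lenT φ) (m + 2) := fun i => cv φ (Fin.castAdd 2 i)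

/-- the conditions on the solution -/
def condT : Prop :=
  isS φ ρ 3 (ov φ) →
  (ξ (cv φ) = true → ((∀ i, isS φ ρ 0 (cz φ i)) ∧ η (cv φ (Fin.natAdd s 0)) (ov φ) = true ∧
      η (cv φ (Fin.natAdd s 1)) (ov φ) = true) ∨
    ((∀ i, η (cz φ i) (ov φ) = true) ∧ isS φ ρ 2 (cv φ (Fin.natAdd s 0)) ∧
      isS φ ρ 1 (cv φ (Fin.natAdd s 1)))) ∧
  (ξ (nA φ (sp φ (m + 1) 0 2) (sp φ (m + 1) 0 3)) = true → isS φ ρ 2 (sp φ (m + 1) 0 2) →
    (ξ (cv φ) = true → isS φ ρ 2 (cv φ (Fin.natAdd s 0)) →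
      η (cv φ (Fin.natAdd s 1)) (sp φ (m + 1) 0 3) = true →
      η (cv φ (Fin.natAdd s 0)) (sp φ (m + 1) 0 2) = true) ∧
    (ξ (cv φ) = true → η (cv φ (Fin.natAdd s 0)) (ov φ) = true →
      ¬ isTb φ ρ false (cz φ) (sp φ (m + 1) 0 2) (sp φ (m + 1) 0 3)))

/-- every number has a name -/
def hasN : Prop := isS φ ρ 1 (sp φ (m + 1) 0 3) →
  isS φ ρ 2 (sp φ (m + 1) 1 1) ∧ ξ (nA φ (sp φ (m + 1) 1 1) (sp φ (m + 1) 0 3)) = true

/-- the names cover -/
def covN : Prop :=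
  (∀ v i, isS φ ρ 0 (nv φ (m + 1) 0 v i)) → (∀ v, ξ (sA φ (nv φ (m + 1) 0 v)) = false) →
  isS φ ρ 2 (sp φ (m + 1) 1 2) ∧
  ξ (nA φ (sp φ (m + 1) 1 2) (sp φ (m + 1) 1 3)) = true ∧
    ∀ v, isTb φ ρ false (nv φ (m + 1) 0 v) (sp φ (m + 1) 1 2) (sp φ (m + 1) 1 3)

/-- the level is valid -/
def okT (i : ℕ) : Prop :=
  (∀ u : Vars φ.len (m + 2), P.lv φ.len (m + 2) u = i → isS φ ρ 0 (io φ (m + 2) u)) ∧
  (i = 0 → isS φ ρ 3 (ov φ) ∧ η (sp φ (m + 1) 0 1) (ov φ) = true)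

/-- certificates -/
def crt (Cp Cn G : Finset (At φ))
    (r : ∀ R : Fin τ.num, (Fin (τ.ar R) → Vars φ.len (m + 2)) → Bool)
    (e : Vars φ.len (m + 2) → Vars φ.len (m + 2) → Bool) (p : At φ → Bool) : Prop :=
  (∀ v ∈ Cp, P.inn φ v) ∧ (∀ v ∈ Cn, P.inn φ v) ∧ G ⊆ Cp ∧ G.card ≤ w0 ∧
  (Cn.Nonempty → G.card < w0) ∧
  (∀ v ∈ Cp, ∃ g ∈ G, ∀ i, lastVar φ.len (m + 2) (v i) → ∃ j, g j = v i) ∧
  ∀ ζ : At φ → Bool, (∀ v, ¬ P.inn φ v → ζ v = p v) → (∀ v ∈ Cp, ζ v = true) →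
    (∀ v ∈ Cn, ζ v = false) → φ.ψ.eval r e ζ = bb

/-- the pattern of the outer atoms -/
def ptT : At φ → Bool :=
  fun v => if P.inn φ v then false else ξ (sA φ (fun i => io φ (m + 2) (v i)))

/-- the critical event -/
def evtT : Prop :=
  ((∀ i : Fin s, isS φ ρ 0 (tv φ (m + 1) (m + 1) (Fin.castAdd 2 i))) ∧
    ξ (sA φ (fun i => tv φ (m + 1) (m + 1) (Fin.castAdd 2 i))) = true ∧
    isTb φ ρ true (fun i => tv φ (m + 1) (m + 1) (Fin.castAdd 2 i)) (sp φ (m + 1) m 2) (ov φ)) ∨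
  ((∀ u : Vars φ.len (m + 2), P.lv φ.len (m + 2) u = m + 1 → isS φ ρ 0 (io φ (m + 2) u)) ∧
    ∃ Cp Cn G : Finset (At φ), crt φ bb w0 Cp Cn G
      (fun R v => gt ρ (Sum.inl R) (fun i => io φ (m + 2) (v i)))
      (fun u v => η (io φ (m + 2) u) (io φ (m + 2) v)) (ptT φ ξ) ∧
      (∀ v ∈ G, ξ (sA φ (fun i => io φ (m + 2) (v i))) = true) ∧
      (∀ v ∈ Cp, ¬ isTb φ ρ true (fun i => io φ (m + 2) (v i)) (sp φ (m + 1) m 2) (ov φ)) ∧
      (Cn.Nonempty → isS φ ρ 2 (sp φ (m + 1) (m + 1) 2) ∧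
        ξ (nA φ (sp φ (m + 1) (m + 1) 2) (sp φ (m + 1) (m + 1) 3)) = true ∧
        ∀ v ∈ Cn, isTb φ ρ false (fun i => io φ (m + 2) (v i)) (sp φ (m + 1) (m + 1) 2)
          (sp φ (m + 1) (m + 1) 3)))

/-- the second mode -/
def modT : Prop := isS φ ρ 3 (ov φ) ∧ η (sp φ (m + 1) 0 1) (ov φ) = false

/-- the main part -/
def mainT : Prop :=
  match P.scn (okT φ ρ η) m with
  | some c => c = true
  | none => if bb = true then
      ((okT φ ρ η m ∧ isS φ ρ 2 (sp φ (m + 1) m 2)) → evtT φ bb w0 ρ η ξ)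
    else ((okT φ ρ η m ∧ isS φ ρ 2 (sp φ (m + 1) m 2)) ∧ ¬ evtT φ bb w0 ρ η ξ)

/-- the matrix of the formula -/
def PT : Prop :=
  condT φ ρ η ξ ∧ if modT φ ρ η then (hasN φ ρ ξ ∧ (bb = false → covN φ ρ ξ)) else
    mainT φ bb w0 ρ η ξ

/-- the formula -/
def forT : PiF (vocT τ s) (s + 2) (m + 2) where
  len := lenT φ
  ψ := qfOf (ov φ) (PT φ bb w0)

end

end

end Pool.Agent.Helper265_EW.T
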