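import Pool.Agent.Helper265_EW.TRound
import Pool.Agent.Helper265_EW.Defs

set_option linter.unusedSectionVars false

/-! All rounds, for constant-depth formulas. -/

namespace Pool.Agent.Helper265_EW

open Finset Classical Pool.Agent.H592R2

noncomputable section

variable {D r : ℕ} {V : Type} [Fintype V] [DecidableEq V] {τ : Type} [Fintype τ] [Nonempty τ]
  [DecidableEq τ]

lemma Loc.not {K : Finset V} {G : Tb r V → Prop} (h : Loc K G) :
    Loc K (fun z => ¬ G z) := by
  intro z z' hzz' hn hG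
  exact hn (h z' z (fun t ht => (hzz' t ht).symm) hG)

lemma LocAt.not {A : Finset τ} {S i : ℕ} {ω : Cd D r V → τ} {G : Tb r V → Prop}
    (h : LocAt A S i ω G) : LocAt A S i ω (fun z => ¬ G z) := by
  obtain ⟨K, h1, h2, h3⟩ := h
  exact ⟨K, h1, h2, h3.not⟩

lemma LocAt.congr {A : Finset τ} {S i : ℕ} {ω : Cd D r V → τ} {G G' : Tb r V → Prop}
    (h : LocAt A S i ω G) (hG : ∀ z, G z ↔ G' z) : LocAt A S i ω G' := by
  have : G = G' := by funext z; exact propext (hG z)
  rwa [← this]

/-- restricting a local function keeps it local -/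
lemma LocAt_of_Loc (A Mi : Finset τ) (mj : (Fin r → V) → (Fin r → Bool) → Bool) {S i : ℕ}
    (hi : i ≤ D) (ω : Cd D r V → τ)
    {K : Finset V} {G : Tb r V → Prop} (hK : K.card < S) (h : Loc K G) :
    LocAt A S i ω (fun z => G (rho A Mi mj i ω z)) := by
  refine ⟨K.filter (Al A i ω), (Finset.card_filter_le _ _).trans_lt hK,
    fun v hv => (Finset.mem_filter.mp hv).2, ?_⟩
  intro z z' hzz'
  apply h
  intro t ht
  by_cases hc : ∀ l, Al A i ω (t l)
  · rw [rho_alive _ _ _ _ _ _ _ hc, rho_alive _ _ _ _ _ _ _ hc]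
    exact hzz' t (fun l => Finset.mem_filter.mpr ⟨ht l, hc l⟩)
  · exact rho_dead _ _ _ _ hi _ _ _ _ hc

/-- parameters -/
structure P1 (r : ℕ) (A Mi : Finset τ) (S : ℕ) (β c u : ℝ) : Prop where
  hr : 1 ≤ r
  hS : r < S
  hβ0 : 0 ≤ β
  hβ1 : β ≤ 1
  hA : β ≤ ((Finset.univ \ A : Finset τ).card : ℝ) / Fintype.card τ
  hM : β ≤ (Mi.card : ℝ) / Fintype.card τ
  hM' : β ≤ ((Finset.univ \ Mi : Finset τ).card : ℝ) / Fintype.card τ
  hc : 0 ≤ c
  hc1 : c ≤ 1
  hu : 0 ≤ u
  hu1 : u ≤ 1
  hp : (A.card : ℝ) / Fintype.card τ = u * c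
  huw : 2 ^ S * u ≤ β ^ (S + S ^ r) / 2 ^ (S ^ r)

/-- one more disjunction -/
lemma or_local {A Mi : Finset τ} {S : ℕ} {β c u : ℝ} (hP : P1 r A Mi S β c u)
    (mj : (Fin r → V) → (Fin r → Bool) → Bool)
    (m : ℕ) (G : Fin m → Tb r V → Prop) (sz : Fin m → ℕ) (i : ℕ) (hi : i < D)
    (hG : ∀ j, avg (fun ω : Cd D r V → τ => ind (¬ LocAt A S i ω
        (fun z => G j (rho A Mi mj i ω z)))) ≤ sz j * c ^ S) :
      avg (fun ω : Cd D r V → τ => ind (¬ LocAt A S (i + 1) ω
        (fun z => ∃ j, G j (rho A Mi mj (i + 1) ω z)))) ≤ ((∑ j, sz j + 1 : ℕ) : ℝ) * c ^ S := by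
  have hrc := round_cond A Mi mj (⟨i, hi⟩ : Fin D) G (List.finRange m)
    (by have := hP.hS; omega)
    hP.hβ0 hP.hβ1 hP.hA hP.hM hP.hM' hP.hc hP.hc1 hP.hu hP.hu1 hP.hp hP.huw
  simp only [List.mem_finRange, true_and, forall_const] at hrc
  have hpt : ∀ ω : Cd D r V → τ, ind (¬ LocAt A S (i + 1) ω
      (fun z => ∃ j, G j (rho A Mi mj (i + 1) ω z))) ≤
      (∑ j : Fin m, ind (¬ LocAt A S i ω (fun z => G j (rho A Mi mj i ω z)))) +
      ind ((∀ l, LocAt A S i ω (G l ∘ rho A Mi mj i ω)) ∧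
        ¬ LocAt A S (i + 1) ω (fun z => ∃ l, G l (rho A Mi mj (i + 1) ω z))) := by
    intro ω
    by_cases hall : ∀ l, LocAt A S i ω (G l ∘ rho A Mi mj i ω)
    · have h0 : 0 ≤ ∑ j : Fin m, ind (¬ LocAt A S i ω (fun z => G j (rho A Mi mj i ω z))) :=
        Finset.sum_nonneg fun _ _ => ind_nonneg _
      have h1 : ind (¬ LocAt A S (i + 1) ω (fun z => ∃ j, G j (rho A Mi mj (i + 1) ω z))) ≤
          ind ((∀ l, LocAt A S i ω (G l ∘ rho A Mi mj i ω)) ∧
        ¬ LocAt A S (i + 1) ω (fun z => ∃ l, G l (rho A Mi mj (i + 1) ω z))) :=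
        ind_mono fun h => ⟨hall, h⟩
      linarith
    · push Not at hall
      obtain ⟨l, hl⟩ := hall
      have h1 : (1:ℝ) ≤ ∑ j : Fin m, ind (¬ LocAt A S i ω (fun z => G j (rho A Mi mj i ω z))) := by
        have := Finset.single_le_sum (f := fun j : Fin m =>
          ind (¬ LocAt A S i ω (fun z => G j (rho A Mi mj i ω z))))
          (fun _ _ => ind_nonneg _) (Finset.mem_univ l)
        exact (ind_true (p := ¬ LocAt A S i ω (fun z => G l (rho A Mi mj i ω z))) hl).symm.le.trans
          this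
      have h2 := ind_le_one (¬ LocAt A S (i + 1) ω
        (fun z => ∃ j, G j (rho A Mi mj (i + 1) ω z)))
      have h3 := ind_nonneg ((∀ l, LocAt A S i ω (G l ∘ rho A Mi mj i ω)) ∧
        ¬ LocAt A S (i + 1) ω (fun z => ∃ l, G l (rho A Mi mj (i + 1) ω z)))
      linarith
  refine (avg_mono hpt).trans ?_
  rw [avg_add, avg_sum]
  have h1 : ∑ j : Fin m, avg (fun ω : Cd D r V → τ => ind (¬ LocAt A S i ω
      (fun z => G j (rho A Mi mj i ω z)))) ≤ ∑ j : Fin m, (sz j : ℝ) * c ^ S :=
    Finset.sum_le_sum fun j _ => hG j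
  rw [← Finset.sum_mul] at h1
  push_cast
  rw [add_mul, one_mul]
  exact add_le_add h1 hrc

/-- the restricted formula is local except with probability `size * c ^ S` -/
theorem fml_local {A Mi : Finset τ} {S : ℕ} {β c u : ℝ} (hP : P1 r A Mi S β c u)
    (mj : (Fin r → V) → (Fin r → Bool) → Bool) {J : Type} (enc : Tb r V → (J → Bool))
    (henc : ∀ l : J, ∃ K : Finset V, K.card < S ∧ Loc K (fun z => enc z l = true)) (φ : Fm J) :
    ∀ i : ℕ, i ≤ D → φ.depth ≤ i →
      avg (fun ω : Cd D r V → τ => ind (¬ LocAt A S i ω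
        (fun z => φ.Holds (enc (rho A Mi mj i ω z))))) ≤ φ.size * c ^ S := by
  induction φ with
  | lit l b =>
    intro i hi hd
    have : (fun ω : Cd D r V → τ => ind (¬ LocAt A S i ω
        (fun z => (Fm.lit l b).Holds (enc (rho A Mi mj i ω z))))) = fun _ => (0 : ℝ) := by
      funext ω
      apply ind_false
      rw [not_not]
      obtain ⟨K, hK, hKl⟩ := henc l
      have h1 := LocAt_of_Loc A Mi mj (i := i) hi ω hK hKl
      cases b
      · exact h1.not.congr (fun z => by simp [Fm.Holds])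
      · exact h1.congr (fun z => by simp [Fm.Holds])
    rw [this, avg_const]
    exact mul_nonneg (Nat.cast_nonneg _) (pow_nonneg hP.hc _)
  | or m f ih =>
    intro i hi hd
    obtain _ | i := i
    · simp [Fm.depth] at hd
    have hd' : ∀ j, (f j).depth ≤ i := by
      intro j
      have h1 : (f j).depth ≤ Finset.univ.sup fun j => (f j).depth :=
        Finset.le_sup (f := fun j => (f j).depth) (Finset.mem_univ j)
      simp only [Fm.depth] at hd
      omega
    have hh : ∀ j, avg (fun ω : Cd D r V → τ => ind (¬ LocAt A S i ω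
        (fun z => (f j).Holds (enc (rho A Mi mj i ω z))))) ≤ ((f j).size : ℝ) * c ^ S :=
      fun j => ih j i (by omega) (hd' j)
    have := or_local (D := D) hP mj m (fun j z => (f j).Holds (enc z)) (fun j => (f j).size) i
      (by omega) hh
    simpa [Fm.size, Fm.Holds] using this
  | and m f ih =>
    intro i hi hd
    obtain _ | i := i
    · simp [Fm.depth] at hd
    have hd' : ∀ j, (f j).depth ≤ i := by
      intro j
      have h1 : (f j).depth ≤ Finset.univ.sup fun j => (f j).depth :=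
        Finset.le_sup (f := fun j => (f j).depth) (Finset.mem_univ j)
      simp only [Fm.depth] at hd
      omega
    have hh : ∀ j, avg (fun ω : Cd D r V → τ => ind (¬ LocAt A S i ω
        (fun z => ¬ (f j).Holds (enc (rho A Mi mj i ω z))))) ≤ ((f j).size : ℝ) * c ^ S := by
      intro j
      refine (avg_mono ?_).trans (ih j i (by omega) (hd' j))
      intro ω
      apply ind_mono
      intro h h'
      exact h h'.not
    have := or_local (D := D) hP mj m (fun j z => ¬ (f j).Holds (enc z)) (fun j => (f j).size) i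
      (by omega) hh
    refine (avg_mono ?_).trans (this.trans_eq ?_)
    · intro ω
      apply ind_mono
      intro h h'
      apply h
      refine h'.not.congr ?_
      intro z
      simp [Fm.Holds]
    · simp [Fm.size]

end

end Pool.Agent.Helper265_EW
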