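import Pool.Agent.Helper265_EW.TTab

set_option linter.unusedSectionVars false

/-! Tables of size `2 ^ O(k) * n ^ O(1)`. -/

namespace Pool.Agent.Helper265_EW.T

open Finset Classical

noncomputable section

lemma ex_beta (N k : ℕ) : ∃ β, 1 ≤ β ∧ N < β ^ (k + 1) ∧ β ^ k ≤ 2 ^ k * (N + 1) := by
  have hex : ∃ β, N < β ^ (k + 1) := ⟨N + 1, by
    calc N < N + 1 := Nat.lt_succ_self N
      _ ≤ (N + 1) ^ (k + 1) := Nat.le_self_pow (by omega) _⟩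
  obtain ⟨β, hβ⟩ : ∃ β, β = Nat.find hex := ⟨_, rfl⟩
  have h1 : N < β ^ (k + 1) := by rw [hβ]; exact Nat.find_spec hex
  have h0 : 1 ≤ β := by
    by_contra h
    have : β = 0 := by omega
    rw [this, zero_pow (by omega)] at h1
    omega
  refine ⟨β, h0, h1, ?_⟩
  rcases Nat.lt_or_ge β 2 with h2 | h2
  · have : β = 1 := by omega
    rw [this, one_pow]
    exact Nat.mul_pos (Nat.pow_pos (by norm_num)) (by omega)
  · have h3 : (β - 1) ^ (k + 1) ≤ N := by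
      have := Nat.find_min hex (m := β - 1) (by omega)
      omega
    calc β ^ k ≤ (2 * (β - 1)) ^ k := Nat.pow_le_pow_left (by omega) _
      _ = 2 ^ k * (β - 1) ^ k := by rw [mul_pow]
      _ ≤ 2 ^ k * (β - 1) ^ (k + 1) :=
          Nat.mul_le_mul_left _ (Nat.pow_le_pow_right (by omega) (by omega))
      _ ≤ 2 ^ k * (N + 1) := Nat.mul_le_mul_left _ (by omega)

theorem tables (s c L : ℕ) : ∃ C, ∀ n k : ℕ, ∃ (X : ℕ)
    (T1 : Fin (k + 1) → Fin X → (Fin s → Fin n) → Prop) (T2 : Fin X → (Fin s → Fin n) → Prop),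
    X ≤ (2 ^ k * (n + 2)) ^ C ∧ CovT T1 L ∧ Uni T2 k c := by
  obtain ⟨L', hL'⟩ : ∃ L', L' = L + 1 := ⟨_, rfl⟩
  obtain ⟨c1, hc1⟩ : ∃ c1, c1 = 1 + 4 * L' + (s * L' + 1) := ⟨_, rfl⟩
  obtain ⟨u, hu⟩ : ∃ u, u = s + c1 := ⟨_, rfl⟩
  obtain ⟨c2, hc2⟩ : ∃ c2, c2 = u + 5 := ⟨_, rfl⟩
  obtain ⟨m2, hm2⟩ : ∃ m2, m2 = (s + 1) * (c + 1) := ⟨_, rfl⟩
  obtain ⟨c3, hc3⟩ : ∃ c3, c3 = m2 + 2 := ⟨_, rfl⟩
  refine ⟨c1 + c2 + (c + 1 + c3) + 1, fun n k => ?_⟩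
  obtain ⟨Z, hZ⟩ : ∃ Z, Z = 2 ^ k * (n + 2) := ⟨_, rfl⟩
  have h2k : 1 ≤ 2 ^ k := Nat.one_le_two_pow
  have hkZ' : 2 ^ k ≤ Z := by
    rw [hZ]
    exact Nat.le_mul_of_pos_right _ (by omega)
  have hZ2 : 2 ≤ Z := by
    rw [hZ]
    calc 2 = 1 * 2 := rfl
      _ ≤ 2 ^ k * (n + 2) := Nat.mul_le_mul h2k (by omega)
  have hkZ : k < Z := lt_of_lt_of_le Nat.lt_two_pow_self hkZ'
  have hnZ : n ≤ Z := by
    rw [hZ]
    calc n ≤ n + 2 := by omega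
      _ ≤ 2 ^ k * (n + 2) := Nat.le_mul_of_pos_left _ h2k
  have hZp : Z ≤ 2 ^ Z := Nat.lt_two_pow_self.le
  have hZa : ∀ a b : ℕ, a ≤ b → Z ^ a ≤ Z ^ b := fun a b h => Nat.pow_le_pow_right (by omega) h
  have hZ1 : ∀ a, 1 ≤ Z ^ a := fun a => Nat.one_le_pow _ _ (by omega)
  have hZs : ∀ a, a ≤ Z ^ a := fun a => (Nat.lt_two_pow_self).le.trans
    (Nat.pow_le_pow_left hZ2 a)
  rw [← hZ]
  have hW : Fintype.card (Fin s → Fin n) = n ^ s := by simp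
  have hN0 : n ^ s ≤ Z ^ s := Nat.pow_le_pow_left hnZ s
  -- the covering table
  obtain ⟨β, hβ1, hβ2, hβ3⟩ := ex_beta ((n ^ s) ^ L') k
  obtain ⟨b, hb⟩ : ∃ b, b = 2 * L' * β := ⟨_, rfl⟩
  have hb0 : b ≠ 0 := by
    rw [hb]
    have : 0 < 2 * L' * β := Nat.mul_pos (by omega) hβ1
    omega
  have : NeZero b := ⟨hb0⟩
  have hD : 2 * b ^ k ≤ Z ^ c1 := by
    have e1 : (n ^ s) ^ L' + 1 ≤ Z ^ (s * L' + 1) := by
      calc (n ^ s) ^ L' + 1 ≤ (Z ^ s) ^ L' + 1 := Nat.add_le_add_right (Nat.pow_le_pow_left hN0 _) 1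
        _ = Z ^ (s * L') + 1 := by rw [← pow_mul]
        _ ≤ Z ^ (s * L') + Z ^ (s * L') := Nat.add_le_add_left (hZ1 _) _
        _ = Z ^ (s * L') * 2 := by ring
        _ ≤ Z ^ (s * L') * Z := Nat.mul_le_mul_left _ hZ2
        _ = Z ^ (s * L' + 1) := by rw [pow_succ]
    have e2 : (2 * L') ^ k * 2 ^ k ≤ Z ^ (4 * L') := by
      calc (2 * L') ^ k * 2 ^ k = (4 * L') ^ k := by rw [← mul_pow]; congr 1; ring
        _ ≤ (2 ^ (4 * L')) ^ k := Nat.pow_le_pow_left Nat.lt_two_pow_self.le k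
        _ = (2 ^ k) ^ (4 * L') := by rw [← pow_mul, ← pow_mul, mul_comm]
        _ ≤ Z ^ (4 * L') := Nat.pow_le_pow_left hkZ' _
    calc 2 * b ^ k = 2 * ((2 * L') ^ k * β ^ k) := by rw [hb, mul_pow]
      _ ≤ 2 * ((2 * L') ^ k * (2 ^ k * ((n ^ s) ^ L' + 1))) :=
          Nat.mul_le_mul_left _ (Nat.mul_le_mul_left _ hβ3)
      _ = 2 * ((2 * L') ^ k * 2 ^ k) * ((n ^ s) ^ L' + 1) := by ring
      _ ≤ Z ^ 1 * Z ^ (4 * L') * Z ^ (s * L' + 1) :=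
          Nat.mul_le_mul (Nat.mul_le_mul (by rw [pow_one]; exact hZ2) e2) e1
      _ = Z ^ c1 := by rw [← pow_add, ← pow_add, hc1]
  obtain ⟨x1, hx1⟩ : ∃ x1, x1 = 2 * b ^ k * Z ^ c2 := ⟨_, rfl⟩
  have hx1p : 1 ≤ x1 := by
    rw [hx1]
    exact Nat.mul_pos (Nat.mul_pos (by norm_num) (Nat.pow_pos (Nat.pos_of_ne_zero hb0)))
      (hZ1 c2)
  have hx1Z : x1 ≤ Z ^ (c1 + c2) := by
    rw [hx1, pow_add]
    exact Nat.mul_le_mul_right _ hD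
  have hE1 : Fintype.card (Fin s → Fin n) ^ k * x1 ^ k < 2 ^ (Z ^ c2) := by
    rw [hW, ← mul_pow]
    calc (n ^ s * x1) ^ k ≤ (Z ^ s * Z ^ (c1 + c2)) ^ k :=
          Nat.pow_le_pow_left (Nat.mul_le_mul hN0 hx1Z) k
      _ = Z ^ ((2 * u + 5) * k) := by
          rw [← pow_add, ← pow_mul, hc2, hu]
          congr 1
          ring
      _ ≤ (2 ^ Z) ^ ((2 * u + 5) * k) := Nat.pow_le_pow_left hZp _
      _ = 2 ^ (Z * (2 * u + 5) * k) := by rw [← pow_mul]; congr 1; ring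
      _ < 2 ^ (Z ^ c2) := by
          apply Nat.pow_lt_pow_right (by norm_num)
          have e1 : 2 * u + 5 ≤ Z ^ (u + 3) := by
            calc 2 * u + 5 ≤ 8 * (u + 1) := by omega
              _ ≤ 8 * 2 ^ u := Nat.mul_le_mul_left _ Nat.lt_two_pow_self
              _ = 2 ^ (u + 3) := by rw [pow_add]; ring
              _ ≤ Z ^ (u + 3) := Nat.pow_le_pow_left hZ2 _
          calc Z * (2 * u + 5) * k < Z * (2 * u + 5) * Z :=
                Nat.mul_lt_mul_of_pos_left hkZ (Nat.mul_pos (by omega) (by omega))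
            _ ≤ Z * Z ^ (u + 3) * Z :=
                Nat.mul_le_mul_right _ (Nat.mul_le_mul_left _ e1)
            _ = Z ^ c2 := by rw [hc2]; ring
  have hbb : (2 * L') ^ (k + 1) * Fintype.card (Fin s → Fin n) ^ L' < b ^ (k + 1) := by
    rw [hW, hb, mul_pow (2 * L') β]
    exact Nat.mul_lt_mul_of_pos_left hβ2 (Nat.pow_pos (by omega))
  obtain ⟨T1, hT1⟩ := cov_exists (b := b) (L := L') k (Z ^ c2) x1 hx1 hx1p (by omega) hE1 hbb
  -- the universal table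
  have hE2 : (Fintype.card (Fin s → Fin n) + 1) ^ ((c + 1) * k) < 2 ^ (Z ^ c3) := by
    rw [hW]
    have e0 : n ^ s + 1 ≤ Z ^ (s + 1) := by
      calc n ^ s + 1 ≤ Z ^ s + Z ^ s := Nat.add_le_add hN0 (hZ1 _)
        _ = Z ^ s * 2 := by ring
        _ ≤ Z ^ s * Z := Nat.mul_le_mul_left _ hZ2
        _ = Z ^ (s + 1) := by rw [pow_succ]
    calc (n ^ s + 1) ^ ((c + 1) * k) ≤ (Z ^ (s + 1)) ^ ((c + 1) * k) :=
          Nat.pow_le_pow_left e0 _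
      _ = Z ^ (m2 * k) := by rw [← pow_mul, hm2]; congr 1; ring
      _ ≤ (2 ^ Z) ^ (m2 * k) := Nat.pow_le_pow_left hZp _
      _ = 2 ^ (Z * m2 * k) := by rw [← pow_mul]; congr 1; ring
      _ < 2 ^ (Z ^ c3) := by
          apply Nat.pow_lt_pow_right (by norm_num)
          have hm2p : 0 < m2 := by rw [hm2]; exact Nat.mul_pos (by omega) (by omega)
          calc Z * m2 * k < Z * m2 * Z :=
                Nat.mul_lt_mul_of_pos_left hkZ (Nat.mul_pos (by omega) hm2p)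
            _ ≤ Z * Z ^ m2 * Z := Nat.mul_le_mul_right _ (Nat.mul_le_mul_left _ (hZs m2))
            _ = Z ^ c3 := by rw [hc3]; ring
  have hx2Z : 2 ^ ((c + 1) * k) * Z ^ c3 ≤ Z ^ (c + 1 + c3) := by
    rw [pow_add Z (c + 1) c3]
    apply Nat.mul_le_mul_right
    calc 2 ^ ((c + 1) * k) = (2 ^ k) ^ (c + 1) := by rw [← pow_mul, mul_comm]
      _ ≤ Z ^ (c + 1) := Nat.pow_le_pow_left hkZ' _
  obtain ⟨T2, hT2⟩ := uni_exists (W := Fin s → Fin n) k c (Z ^ c3) hE2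
  refine ⟨x1 + 2 ^ ((c + 1) * k) * Z ^ c3,
    fun i a w => ∃ a1, finSumFinEquiv.symm a = Sum.inl a1 ∧ T1 i a1 w,
    fun a w => ∃ a2, finSumFinEquiv.symm a = Sum.inr a2 ∧ T2 a2 w, ?_, ?_, ?_⟩
  · calc x1 + 2 ^ ((c + 1) * k) * Z ^ c3 ≤ Z ^ (c1 + c2) + Z ^ (c + 1 + c3) :=
          Nat.add_le_add hx1Z hx2Z
      _ ≤ Z ^ (c1 + c2 + (c + 1 + c3)) + Z ^ (c1 + c2 + (c + 1 + c3)) :=
          Nat.add_le_add (hZa _ _ (by omega)) (hZa _ _ (by omega))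
      _ = Z ^ (c1 + c2 + (c + 1 + c3)) * 2 := by ring
      _ ≤ Z ^ (c1 + c2 + (c + 1 + c3)) * Z := Nat.mul_le_mul_left _ hZ2
      _ = _ := by rw [← pow_succ]
  · intro S hS
    obtain ⟨ν, hν1, hν2⟩ := hT1 S hS
    refine ⟨fun i => finSumFinEquiv (Sum.inl (ν i)), ?_, ?_⟩
    · rintro i w hw ⟨a1, ha, hT⟩
      rw [Equiv.symm_apply_apply] at ha
      rw [← Sum.inl_injective ha] at hT
      exact hν1 i w hw hT
    · intro N hN hNc
      obtain ⟨i, hi⟩ := hν2 N hN (by omega)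
      exact ⟨i, fun w hw => ⟨ν i, Equiv.symm_apply_apply _ _, hi w hw⟩⟩
  · intro P N hPN hP hN
    obtain ⟨a, ha1, ha2⟩ := hT2 P N hPN hP hN
    refine ⟨finSumFinEquiv (Sum.inr a), fun w hw => ⟨a, Equiv.symm_apply_apply _ _, ha1 w hw⟩, ?_⟩
    rintro w hw ⟨a2, ha, hT⟩
    rw [Equiv.symm_apply_apply] at ha
    rw [← Sum.inr_injective ha] at hT
    exact ha2 w hw hT

end

end Pool.Agent.Helper265_EW.T
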