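import Pool.Agent.Helper265_EW.TCmp
import Pool.Agent.Helper265_EW.SMain

set_option linter.unusedSectionVars false

/-! Guard width: examples, upper bounds and lower bounds. -/

namespace Pool.Agent.Helper265_EW.T

open Finset Classical Pool.Agent.Helper265_EW.G Pool.Agent.Helper265_EW.P
open Pool.Agent.Helper265_EW.C

noncomputable section

section Ex

variable {τ : Voc} {s : ℕ} {V : Type} (I : V → Prop)

lemma certG_mono (b : Bool) (w w' : ℕ) (h : w ≤ w') (ψ : QF τ s V) (hψ : ψ.CertG I b w) :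
    ψ.CertG I b w' := by
  intro ρ η ξ hξ
  obtain ⟨C, G, h1, h2, h3, h4, h5, h6⟩ := hψ ρ η ξ hξ
  exact ⟨C, G, h1, h2, h3.trans h, h4, fun h' => (h5 h').trans_le h, h6⟩

lemma certG_of_cert (b : Bool) (w : ℕ) (ψ : QF τ s V)
    (hψ : ψ.Cert (fun v => ∃ i, I (v i)) b w) : ψ.CertG I b w := by
  intro ρ η ξ hξ
  obtain ⟨C, h1, h2, h3⟩ := hψ ρ η ξ hξ
  refine ⟨C, C.filter (fun v => ξ v = true), h2, fun v hv => Finset.mem_filter.mp hv,
    (Finset.card_filter_le _ _).trans h1, fun v hv hv1 =>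
      ⟨v, Finset.mem_filter.mpr ⟨hv, hv1⟩, fun i _ => ⟨i, rfl⟩⟩, ?_, h3⟩
  rintro ⟨v, hv, hv0⟩
  refine lt_of_lt_of_le (Finset.card_lt_card ?_) h1
  rw [Finset.filter_ssubset]
  exact ⟨v, hv, by rw [hv0]; simp⟩

lemma certG_one (u0 : V) (hI : ∀ u, I u → u = u0) (b : Bool) (ψ : QF τ s V) :
    ψ.CertG I b 2 := by
  intro ρ η ξ hξ
  obtain ⟨C, hC⟩ : ∃ C, C = ats (fun v => ∃ i, I (v i)) ψ := ⟨_, rfl⟩
  have h1 : ∀ v ∈ C, ∃ i, I (v i) := by
    rw [hC]
    exact ats_prop _ ψ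
  have h2 : ∀ ξ' : (Fin s → V) → Bool, (∀ v, ((¬ ∃ i, I (v i)) ∨ v ∈ C) → ξ' v = ξ v) →
      ψ.eval ρ η ξ' = b := by
    intro ξ' h'
    rw [hC] at h'
    rw [eval_ats _ ρ η ξ ξ' ψ h']
    exact hξ
  by_cases h3 : ∃ g ∈ C, ξ g = true
  · obtain ⟨g, hg, hg1⟩ := h3
    obtain ⟨j, hj⟩ := h1 g hg
    refine ⟨C, {g}, h1, ?_, by simp, ?_, fun _ => by simp, h2⟩
    · intro v hv
      rw [Finset.mem_singleton] at hv
      rw [hv]
      exact ⟨hg, hg1⟩
    · intro v _ _
      refine ⟨g, Finset.mem_singleton_self _, fun i hi => ⟨j, ?_⟩⟩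
      rw [hI _ hj, hI _ hi]
  · push Not at h3
    refine ⟨C, ∅, h1, by simp, by simp, ?_, fun _ => by simp, h2⟩
    intro v hv hv1
    exact absurd hv1 (h3 v hv)

/-- the atoms occurring with a sign -/
def atsS (P : (Fin s → V) → Prop) : Bool → QF τ s V → Finset (Fin s → V)
  | _, QF.rel _ _ => ∅
  | _, QF.eq _ _ => ∅
  | b, QF.mem v => if P v ∧ b = true then {v} else ∅
  | b, QF.not φ => atsS P (!b) φ
  | b, QF.and φ ψ => atsS P b φ ∪ atsS P b ψ

lemma atsS_card (P : (Fin s → V) → Prop) (ψ : QF τ s V) :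
    ∀ b, (atsS P b ψ).card ≤ ψ.occS P b := by
  induction ψ with
  | rel R v => intro b; simp [atsS, QF.occS]
  | eq u v => intro b; simp [atsS, QF.occS]
  | mem v =>
    intro b
    simp only [atsS, QF.occS]
    split_ifs <;> simp
  | not ψ ih => intro b; exact ih (!b)
  | and ψ χ ih1 ih2 =>
    intro b
    simp only [atsS, QF.occS]
    exact le_trans (Finset.card_union_le _ _) (add_le_add (ih1 b) (ih2 b))

lemma atsS_prop (P : (Fin s → V) → Prop) (ψ : QF τ s V) :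
    ∀ b, ∀ v ∈ atsS P b ψ, P v := by
  induction ψ with
  | rel R v => intro b w hw; simp [atsS] at hw
  | eq u v => intro b w hw; simp [atsS] at hw
  | mem v =>
    intro b w hw
    simp only [atsS] at hw
    split_ifs at hw with h
    · rw [Finset.mem_singleton] at hw
      rw [hw]; exact h.1
    · simp at hw
  | not ψ ih => intro b; exact ih (!b)
  | and ψ χ ih1 ih2 =>
    intro b w hw
    simp only [atsS, Finset.mem_union] at hw
    rcases hw with hw | hw
    · exact ih1 b w hw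
    · exact ih2 b w hw

lemma sgn_mono2 (P : (Fin s → V) → Prop) (ψ : QF τ s V) :
    ∀ (b : Bool) (ρ : ∀ R : Fin τ.num, (Fin (τ.ar R) → V) → Bool) (η : V → V → Bool)
      (ξ ξ' : (Fin s → V) → Bool), (∀ v, ¬ P v → ξ' v = ξ v) →
      (∀ v ∈ atsS P b ψ, ξ v = true → ξ' v = true) →
      (∀ v ∈ atsS P (!b) ψ, ξ v = false → ξ' v = false) →
      ψ.eval ρ η ξ = b → ψ.eval ρ η ξ' = b := by
  induction ψ with
  | rel R v => intro b ρ η ξ ξ' _ _ _ h; exact h
  | eq u v => intro b ρ η ξ ξ' _ _ _ h; exact h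
  | mem v =>
    intro b ρ η ξ ξ' h1 h2 h3 h
    change ξ' v = b
    have h' : ξ v = b := h
    by_cases hP : P v
    · cases b with
      | true => exact h2 v (by simp [atsS, hP]) h'
      | false => exact h3 v (by simp [atsS, hP]) h'
    · rw [h1 v hP, h']
  | not ψ ih =>
    intro b ρ η ξ ξ' h1 h2 h3 h
    have h4 : ψ.eval ρ η ξ = !b := by
      have h5 : (!(ψ.eval ρ η ξ)) = b := h
      rw [← h5, Bool.not_not]
    have h6 := ih (!b) ρ η ξ ξ' h1 h2 (by
      rw [Bool.not_not]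
      have h7 : atsS P (!b) (QF.not ψ) = atsS P b ψ := by
        simp [atsS]
      rw [h7] at h3
      exact h3) h4
    change (!(ψ.eval ρ η ξ')) = b
    rw [h6, Bool.not_not]
  | and ψ χ ih1 ih2 =>
    intro b ρ η ξ ξ' h1 h2 h3 h
    have h4 : (ψ.eval ρ η ξ && χ.eval ρ η ξ) = b := h
    have m1 : ∀ v ∈ atsS P b ψ, ξ v = true → ξ' v = true := fun v hv =>
      h2 v (by simp only [atsS, Finset.mem_union]; exact Or.inl hv)
    have m2 : ∀ v ∈ atsS P b χ, ξ v = true → ξ' v = true := fun v hv =>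
      h2 v (by simp only [atsS, Finset.mem_union]; exact Or.inr hv)
    have m3 : ∀ v ∈ atsS P (!b) ψ, ξ v = false → ξ' v = false := fun v hv =>
      h3 v (by simp only [atsS, Finset.mem_union]; exact Or.inl hv)
    have m4 : ∀ v ∈ atsS P (!b) χ, ξ v = false → ξ' v = false := fun v hv =>
      h3 v (by simp only [atsS, Finset.mem_union]; exact Or.inr hv)
    change (ψ.eval ρ η ξ' && χ.eval ρ η ξ') = b
    cases b with
    | true =>
      rw [Bool.and_eq_true] at h4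
      rw [ih1 true ρ η ξ ξ' h1 m1 m3 h4.1, ih2 true ρ η ξ ξ' h1 m2 m4 h4.2]
      rfl
    | false =>
      rw [Bool.and_eq_false_iff] at h4
      rw [Bool.and_eq_false_iff]
      rcases h4 with h4 | h4
      · exact Or.inl (ih1 false ρ η ξ ξ' h1 m1 m3 h4)
      · exact Or.inr (ih2 false ρ η ξ ξ' h1 m2 m4 h4)

lemma certG_of_crit (b : Bool) (w : ℕ) (ψ : QF τ s V)
    (hψ : ψ.occS (fun v => ∃ i, I (v i)) b < w) : ψ.CertG I b w := by
  intro ρ η ξ hξ
  obtain ⟨Cp, hCp⟩ : ∃ Cp, Cp = (atsS (fun v => ∃ i, I (v i)) b ψ).filter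
    (fun v => ξ v = true) := ⟨_, rfl⟩
  obtain ⟨Cn, hCn⟩ : ∃ Cn, Cn = (atsS (fun v => ∃ i, I (v i)) (!b) ψ).filter
    (fun v => ξ v = false) := ⟨_, rfl⟩
  have hc : Cp.card < w := by
    rw [hCp]
    exact lt_of_le_of_lt ((Finset.card_filter_le _ _).trans (atsS_card _ ψ b)) hψ
  have hp : ∀ v ∈ Cp, ξ v = true := by
    rw [hCp]
    exact fun v hv => (Finset.mem_filter.mp hv).2
  have hn : ∀ v ∈ Cn, ξ v = false := by
    rw [hCn]
    exact fun v hv => (Finset.mem_filter.mp hv).2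
  refine ⟨Cp ∪ Cn, Cp, ?_, fun v hv => ⟨Finset.mem_union_left _ hv, hp v hv⟩, hc.le, ?_,
    fun _ => hc, ?_⟩
  · intro v hv
    rcases Finset.mem_union.mp hv with hv | hv
    · rw [hCp] at hv
      exact atsS_prop _ ψ b v (Finset.mem_filter.mp hv).1
    · rw [hCn] at hv
      exact atsS_prop _ ψ (!b) v (Finset.mem_filter.mp hv).1
  · intro v hv hv1
    rcases Finset.mem_union.mp hv with hv | hv
    · exact ⟨v, hv, fun i _ => ⟨i, rfl⟩⟩
    · rw [hn v hv] at hv1
      exact absurd hv1 (by simp)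
  · intro ξ' h'
    apply sgn_mono2 (fun v => ∃ i, I (v i)) ψ b ρ η ξ ξ' (fun v hv => h' v (Or.inl hv)) ?_ ?_ hξ
    · intro v hv hv1
      rw [h' v (Or.inr (Finset.mem_union_left _ (by
        rw [hCp]; exact Finset.mem_filter.mpr ⟨hv, hv1⟩))), hv1]
    · intro v hv hv0
      rw [h' v (Or.inr (Finset.mem_union_right _ (by
        rw [hCn]; exact Finset.mem_filter.mpr ⟨hv, hv0⟩))), hv0]

end Ex

/-- sufficient conditions for small guard width -/
theorem guard_ex {τ : Voc} {s t w : ℕ} (ht : 1 ≤ t) (φ : PiF τ s t)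
    (h : φ.innerOcc ≤ w ∨ φ.InnerWidth w ∨ φ.critOcc < w ∨ (φ.len (t - 1) ≤ 1 ∧ 2 ≤ w)) :
    φ.GuardWidth w := by
  obtain ⟨m, rfl⟩ : ∃ m, t = m + 1 := ⟨t - 1, by omega⟩
  rcases h with h | h | h | ⟨h, h2⟩
  · exact certG_of_cert _ _ _ _ (cert_of_occ _ _ _ _ h)
  · exact certG_of_cert _ _ _ _ h
  · exact certG_of_crit _ _ _ _ h
  · apply certG_mono _ _ 2 w h2
    by_cases h0 : φ.len m = 0
    · apply certG_mono _ _ 0 2 (by omega)
      intro ρ η ξ hξ
      have hl : ∀ u : Vars φ.len (m + 1), ¬ lastVar φ.len (m + 1) u := by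
        intro u hu
        rcases u with u | j
        · exact hu
        · rw [h0] at j
          exact j.elim0
      refine ⟨∅, ∅, by simp, by simp, by simp, by simp, by simp, fun ξ' h' => ?_⟩
      have : ξ' = ξ := by
        funext v
        apply h'
        left
        rintro ⟨i, hi⟩
        exact hl _ hi
      rw [this]
      exact hξ
    · have h1 : φ.len m = 1 := by
        have : φ.len (m + 1 - 1) ≤ 1 := h
        simp only [Nat.add_sub_cancel] at this
        omega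
      refine certG_one _ (Sum.inr ⟨0, by omega⟩ : Vars φ.len m ⊕ Fin (φ.len m)) ?_ _ _
      intro u hu
      rcases u with u | j
      · exact absurd hu (fun h => h)
      · congr 1
        apply Fin.ext
        simp only
        omega

/-- upper bounds by guard width -/
theorem red_guard (m d : ℕ) (hd : 1 ≤ d) (e : ℕ) (he : 1 ≤ e) {τ : Voc} {s : ℕ}
    (φ : PiF τ s (m + 2)) (h : φ.GuardWidth (d * e)) :
    AC0Red e 1 φ (normF (decide (m % 2 = 0)) m d) := by
  obtain ⟨C, hC⟩ := comp_core m d e hd he φ h 1 1 le_rfl le_rfl 1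
  refine ⟨C, fun n k hn hk => ?_⟩
  obtain ⟨Z, hZ⟩ : ∃ Z, Z = 2 ^ k * (n + 2) := ⟨_, rfl⟩
  have hZ2 : 2 ≤ Z := by
    rw [hZ]
    calc 2 = 1 * 2 := rfl
      _ ≤ 2 ^ k * (n + 2) := Nat.mul_le_mul Nat.one_le_two_pow (by omega)
  have hnZ : n ≤ Z := by
    rw [hZ]
    calc n ≤ n + 2 := by omega
      _ ≤ 2 ^ k * (n + 2) := Nat.le_mul_of_pos_left _ Nat.one_le_two_pow
  obtain ⟨T', hT', hcor⟩ := hC τ n k hn hk (idT τ n k) (by
    refine ⟨?_, ?_, ?_, ?_, ?_⟩
    · rw [← hZ, pow_one]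
      exact hnZ
    · change k ^ 1 ≤ 1 * (k + Nat.log 2 (n + 1) + 1) ^ 1
      rw [pow_one, pow_one, one_mul]
      omega
    · intro x
      rw [← hZ, pow_one]
      exact ⟨depth_cst true, (size_cst true).trans (by omega)⟩
    · intro R v
      rw [← hZ, pow_one]
      constructor
      · simp [idT, Fm.depth]
      · have : ((idT τ n k).rel R v).size = 1 := by simp [idT, Fm.size]
        rw [this]
        omega
    · intro j
      rw [← hZ, pow_one]
      exact ⟨depth_cst (decide (j.val = _)), (size_cst (decide (j.val = _))).trans (by omega)⟩)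
  refine ⟨T', ?_, fun A => ?_⟩
  · rw [one_mul] at hT'
    exact hT'
  · have hlast : ∀ j' : Fin ((idT τ n k).K + 1), ((idT τ n k).par j').Holds (bits A) ↔
        j' = Fin.last k := by
      intro j'
      unfold idT
      simp only
      rw [holds_cst, decide_eq_true_eq]
      exact ⟨fun h => Fin.ext h, fun h => by rw [h]; rfl⟩
    obtain ⟨j'', h1, h2⟩ := hcor A (Fin.last k) hlast
    refine ⟨j'', h1, ?_⟩
    rw [← h2]
    exact (idT_WD k A φ k).symm

/-- lower bounds by guard width -/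
theorem no_red_guard (m d w : ℕ) (hd : 2 ≤ d) (p q : ℕ) (hq : 1 ≤ q) (hpq : p ≤ q)
    (hpw : p * w < q * d) {τ : Voc} {s : ℕ} (φ : PiF τ s (m + 2)) (h : φ.GuardWidth w) :
    ¬ AC0Red p q (normF (decide (m % 2 = 0)) m d) φ := by
  obtain ⟨w', hw', hw1, hpw'⟩ : ∃ w', w ≤ w' ∧ 1 ≤ w' ∧ p * w' < q * d := by
    rcases Nat.eq_zero_or_pos w with h0 | h0
    · refine ⟨1, by omega, le_rfl, ?_⟩
      calc p * 1 ≤ q := by omega
        _ < q * 2 := by omega
        _ ≤ q * d := Nat.mul_le_mul_left _ hd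
    · exact ⟨w, le_rfl, h0, hpw⟩
  rintro ⟨c, hc⟩
  obtain ⟨C, hC⟩ := comp_core m w' 1 hw1 le_rfl φ
    (by rw [mul_one]; exact certG_mono _ _ w w' hw' _ h) p q hq hpq c
  refine no_red_norm m d (by omega) p q (m + 2) (by omega) hq _ 1
    (normF (decide (m % 2 = 0)) m w') (Or.inr ⟨rfl, hd, ?_⟩) ⟨C, fun n k hn hk => ?_⟩
  · refine lt_of_le_of_lt ?_ hpw'
    apply Nat.mul_le_mul_left
    refine (occP_le _ _).trans ?_
    exact (normF_occ _ m w').le
  · obtain ⟨T, hT, hcor⟩ := hc n k hn hk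
    obtain ⟨T', hT', hcor'⟩ := hC _ n k hn hk T hT
    refine ⟨T', by rw [mul_one] at hT'; exact hT', fun A => ?_⟩
    obtain ⟨j, h1, h2⟩ := hcor A
    obtain ⟨j'', h3, h4⟩ := hcor' A j h1
    exact ⟨j'', h3, h2.trans h4⟩

/-- lower bounds by guard width on restricted instances -/
theorem no_red_guard_at (m d' w : ℕ) (hd : 1 ≤ d') (hw : 1 ≤ w) (p q u v : ℕ) (hq : 1 ≤ q)
    (hu : 1 ≤ u) (huv : u ≤ v) (hpq : p ≤ q) (hpw : v * p * w < q * (u * (d' + 1))) {τ : Voc}
    {s : ℕ} (φ : PiF τ s (m + 2)) (h : φ.GuardWidth w) :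
    ¬ AC0RedAt u v p q (srcFt (decide (m % 2 = 0)) m d') φ := by
  rintro ⟨c, hc⟩
  obtain ⟨C, hC⟩ := comp_core m w 1 hw le_rfl φ (by rw [mul_one]; exact h) p q hq hpq c
  refine R.no_red_R m d' w p q u v hd hq hu huv hpw (normF (decide (m % 2 = 0)) m w) ?_
    ⟨C, fun n k hn hk hkk => ?_⟩
  · exact (occP_le _ _).trans (normF_occ _ m w).le
  · obtain ⟨T, hT, hcor⟩ := hc n k hn hk hkk
    obtain ⟨T', hT', hcor'⟩ := hC _ n k hn hk T hT
    refine ⟨T', by rw [mul_one] at hT'; exact hT', fun A => ?_⟩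
    obtain ⟨j, h1, h2⟩ := hcor A
    obtain ⟨j'', h3, h4⟩ := hcor' A j h1
    exact ⟨j'', h3, h2.trans h4⟩

end

end Pool.Agent.Helper265_EW.T
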