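import Pool.Agent.H592R2.Collapse

set_option linter.unusedSectionVars false

/-! Random restrictions of `r`-dimensional tables, one round: dead tuples take a random value whose
majority value may depend on the tuple and on which of its components survive the round in which
the tuple dies. -/

namespace Pool.Agent.Helper265_EW

open Finset Classical Pool.Agent.H592R2

noncomputable section

/-- coordinates of the restriction: statuses for `D` rounds, and one value per tuple -/
abbrev Cd (D r : ℕ) (V : Type) := (Fin D × V) ⊕ (Fin r → V)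

instance instDecCd (D r : ℕ) (V : Type) [DecidableEq V] : DecidableEq (Cd D r V) := inferInstance
instance instFtCd (D r : ℕ) (V : Type) [Fintype V] [DecidableEq V] : Fintype (Cd D r V) :=
  inferInstance

/-- tables -/
abbrev Tb (r : ℕ) (V : Type) := (Fin r → V) → Bool

/-- `G` depends only on the tuples inside `K` -/
def Loc {r : ℕ} {V : Type} (K : Finset V) (G : Tb r V → Prop) : Prop :=
  ∀ z z' : Tb r V, (∀ t : Fin r → V, (∀ j, t j ∈ K) → z t = z' t) → G z → G z'

variable {D r : ℕ} {V : Type} [Fintype V] [DecidableEq V] {τ : Type} [Fintype τ] [Nonempty τ]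
  [DecidableEq τ]

/-- alive after `i` rounds -/
def Al (A : Finset τ) (i : ℕ) (ω : Cd D r V → τ) (v : V) : Prop :=
  ∀ i' : Fin D, i'.val < i → ω (Sum.inl (i', v)) ∈ A

/-- the components surviving round `i` -/
def pat (A : Finset τ) (i : Fin D) (ω : Cd D r V → τ) (t : Fin r → V) : Fin r → Bool :=
  fun j => decide (ω (Sum.inl (i, t j)) ∈ A)

/-- the value of a tuple with pattern `s` -/
def rv (mj : (Fin r → V) → (Fin r → Bool) → Bool) (Mi : Finset τ) (ω : Cd D r V → τ)
    (t : Fin r → V) (s : Fin r → Bool) : Bool :=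
  xor (mj t s) (decide (ω (Sum.inr t) ∈ Mi))

/-- one step: tuples surviving round `i` are free, others get their value -/
def stp (A Mi : Finset τ) (mj : (Fin r → V) → (Fin r → Bool) → Bool) (i : Fin D)
    (ω : Cd D r V → τ) (z : Tb r V) : Tb r V :=
  fun t => if ∀ j, ω (Sum.inl (i, t j)) ∈ A then z t else rv mj Mi ω t (pat A i ω t)

/-- the restriction after `i` rounds -/
def rho (A Mi : Finset τ) (mj : (Fin r → V) → (Fin r → Bool) → Bool) :
    ℕ → (Cd D r V → τ) → Tb r V → Tb r V
  | 0, _, z => z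
  | i + 1, ω, z => fun t => if ∀ j, Al A i ω (t j) then
      (if h : i < D then stp A Mi mj ⟨i, h⟩ ω z t else z t) else rho A Mi mj i ω z t

lemma rho_alive (A Mi : Finset τ) (mj : (Fin r → V) → (Fin r → Bool) → Bool) (i : ℕ)
    (ω : Cd D r V → τ) (z : Tb r V) (t : Fin r → V) (h : ∀ j, Al A i ω (t j)) :
    rho A Mi mj i ω z t = z t := by
  induction i with
  | zero => rfl
  | succ i ih =>
    have h1 : ∀ j, Al A i ω (t j) := fun j i' hi' => h j i' (by omega)
    simp only [rho, if_pos h1]
    split_ifs with hi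
    · have h2 : ∀ j, ω (Sum.inl (⟨i, hi⟩, t j)) ∈ A := fun j => h j ⟨i, hi⟩ (by simp)
      simp only [stp, if_pos h2]
    · rfl

lemma rho_dead (A Mi : Finset τ) (mj : (Fin r → V) → (Fin r → Bool) → Bool) (i : ℕ) (hi : i ≤ D)
    (ω : Cd D r V → τ) (z z' : Tb r V) (t : Fin r → V) (h : ¬ ∀ j, Al A i ω (t j)) :
    rho A Mi mj i ω z t = rho A Mi mj i ω z' t := by
  induction i with
  | zero => exact absurd (fun j i' hi' => absurd hi' (by omega)) h
  | succ i ih =>
    simp only [rho]
    by_cases h1 : ∀ j, Al A i ω (t j)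
    · rw [if_pos h1, if_pos h1, dif_pos (by omega), dif_pos (by omega)]
      have h2 : ¬ ∀ j, ω (Sum.inl (⟨i, by omega⟩, t j)) ∈ A := by
        intro h2
        apply h
        intro j i' hi'
        rcases Nat.lt_succ_iff_lt_or_eq.mp hi' with h3 | h3
        · exact h1 j i' h3
        · have : i' = ⟨i, by omega⟩ := Fin.ext h3
          rw [this]; exact h2 j
      simp only [stp, if_neg h2]
    · rw [if_neg h1, if_neg h1]
      exact ih (by omega) h1

/-- the value of a dead tuple -/
lemma rho_dead_val (A Mi : Finset τ) (mj : (Fin r → V) → (Fin r → Bool) → Bool) (i : ℕ)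
    (hi : i ≤ D) (ω : Cd D r V → τ) (z : Tb r V) (t : Fin r → V) (h : ¬ ∀ j, Al A i ω (t j)) :
    ∃ i' : Fin D, i'.val < i ∧ (∀ j, Al A i'.val ω (t j)) ∧
      (¬ ∀ j, ω (Sum.inl (i', t j)) ∈ A) ∧
      rho A Mi mj i ω z t = rv mj Mi ω t (pat A i' ω t) := by
  induction i with
  | zero => exact absurd (fun j i' hi' => absurd hi' (by omega)) h
  | succ i ih =>
    by_cases h1 : ∀ j, Al A i ω (t j)
    · have h2 : ¬ ∀ j, ω (Sum.inl (⟨i, by omega⟩, t j)) ∈ A := by
        intro h2
        apply h
        intro j i' hi'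
        rcases Nat.lt_succ_iff_lt_or_eq.mp hi' with h3 | h3
        · exact h1 j i' h3
        · have : i' = ⟨i, by omega⟩ := Fin.ext h3
          rw [this]; exact h2 j
      refine ⟨⟨i, by omega⟩, by simp, h1, h2, ?_⟩
      simp only [rho, if_pos h1]
      rw [dif_pos (by omega)]
      simp only [stp, if_neg h2]
    · obtain ⟨i', h3, h4, h5, h6⟩ := ih (by omega) h1
      refine ⟨i', by omega, h4, h5, ?_⟩
      simp only [rho, if_neg h1]
      exact h6

/-- locality of `rho` in the randomness -/
lemma rho_congr (A Mi : Finset τ) (mj : (Fin r → V) → (Fin r → Bool) → Bool) (i : ℕ)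
    (ω ω' : Cd D r V → τ) (z : Tb r V) (t : Fin r → V)
    (h : ∀ i' : Fin D, i'.val < i → ∀ j, ω (Sum.inl (i', t j)) = ω' (Sum.inl (i', t j)))
    (hc : (¬ ∀ j, Al A i ω (t j)) → ω (Sum.inr t) = ω' (Sum.inr t)) :
    rho A Mi mj i ω z t = rho A Mi mj i ω' z t := by
  induction i with
  | zero => rfl
  | succ i ih =>
    have hAl : (∀ j, Al A i ω (t j)) ↔ (∀ j, Al A i ω' (t j)) := by
      unfold Al
      constructor
      · intro h1 j i' hi'
        rw [← h i' (by omega) j]; exact h1 j i' hi'
      · intro h1 j i' hi'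
        rw [h i' (by omega) j]; exact h1 j i' hi'
    simp only [rho]
    by_cases h1 : ∀ j, Al A i ω (t j)
    · rw [if_pos h1, if_pos (hAl.mp h1)]
      split_ifs with hi
      · have h2 : (∀ j, ω (Sum.inl (⟨i, hi⟩, t j)) ∈ A) ↔
            (∀ j, ω' (Sum.inl (⟨i, hi⟩, t j)) ∈ A) := by
          constructor
          · intro h2 j; rw [← h ⟨i, hi⟩ (by simp) j]; exact h2 j
          · intro h2 j; rw [h ⟨i, hi⟩ (by simp) j]; exact h2 j
        simp only [stp]
        by_cases h3 : ∀ j, ω (Sum.inl (⟨i, hi⟩, t j)) ∈ A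
        · rw [if_pos h3, if_pos (h2.mp h3)]
        · rw [if_neg h3, if_neg (fun h4 => h3 (h2.mpr h4))]
          have h5 : ω (Sum.inr t) = ω' (Sum.inr t) := by
            apply hc
            intro h6
            apply h3
            intro j
            exact h6 j ⟨i, hi⟩ (by simp)
          have h6 : pat A ⟨i, hi⟩ ω t = pat A ⟨i, hi⟩ ω' t := by
            funext j
            simp only [pat]
            rw [h ⟨i, hi⟩ (by simp) j]
          simp only [rv, h5, h6]
      · rfl
    · rw [if_neg h1, if_neg (fun h2 => h1 (hAl.mpr h2))]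
      apply ih (fun i' hi' j => h i' (by omega) j)
      intro _
      apply hc
      intro h6
      apply h1
      intro j i' hi'
      exact h6 j i' (by omega)

/-- local with fewer than `S` alive vertices after `i` rounds -/
def LocAt (A : Finset τ) (S i : ℕ) (ω : Cd D r V → τ) (G : Tb r V → Prop) : Prop :=
  ∃ K : Finset V, K.card < S ∧ (∀ v ∈ K, Al A i ω v) ∧ Loc K G

/-- the tuples inside `K` -/
def resK (K : Finset V) (z : Tb r V) : Tb r V :=
  fun t => if ∀ j, t j ∈ K then z t else false

lemma resK_eq_iff {K : Finset V} {z z' : Tb r V} :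
    resK K z = resK K z' ↔ ∀ t : Fin r → V, (∀ j, t j ∈ K) → z t = z' t := by
  constructor
  · intro h t ht
    have := congrFun h t
    simp only [resK, if_pos ht] at this
    exact this
  · intro h
    funext t
    by_cases ht : ∀ j, t j ∈ K
    · simp only [resK, if_pos ht]; exact h t ht
    · simp only [resK, if_neg ht]

lemma card_image_resK (K : Finset V) :
    ((Finset.univ : Finset (Tb r V)).image (resK K)).card ≤ 2 ^ (K.card ^ r) := by
  have h1 : (Finset.univ : Finset (Tb r V)).image (resK K) ⊆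
      (Finset.univ : Finset ((Fin r → K) → Bool)).image
        (fun f t => if h : ∀ j, t j ∈ K then f (fun j => ⟨t j, h j⟩) else false) := by
    intro y hy
    rw [Finset.mem_image] at hy ⊢
    obtain ⟨z, -, rfl⟩ := hy
    refine ⟨fun t => z (fun j => (t j).1), Finset.mem_univ _, ?_⟩
    funext t
    by_cases h : ∀ j, t j ∈ K
    · simp only [resK, dif_pos h, if_pos h]
    · simp only [resK, dif_neg h, if_neg h]
  calc _ ≤ _ := Finset.card_le_card h1
    _ ≤ (Finset.univ : Finset ((Fin r → K) → Bool)).card := Finset.card_image_le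
    _ = 2 ^ (K.card ^ r) := by
        rw [Finset.card_univ, Fintype.card_fun, Fintype.card_fun, Fintype.card_bool,
          Fintype.card_coe, Fintype.card_fin]

/-- the inner table of round `i`, given the past `a` -/
def inn (A Mi : Finset τ) (mj : (Fin r → V) → (Fin r → Bool) → Bool) (i : Fin D)
    (a ω : Cd D r V → τ) (z : Tb r V) : Tb r V :=
  fun t => if ∀ j, Al A i.val a (t j) ∧ ω (Sum.inl (i, t j)) ∈ A then z t
    else rv mj Mi ω t (pat A i ω t)

/-- the system of one round -/
def rsys {ι : Type} (A Mi : Finset τ) (mj : (Fin r → V) → (Fin r → Bool) → Bool) (i : Fin D)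
    (a : Cd D r V → τ) (K : ι → Finset V) (f : ι → Tb r V → Prop) (P : ι → Prop) :
    Sys (Cd D r V) (fun _ => τ) V (Tb r V) ι where
  K := K
  cs := fun j => {c | (∃ v ∈ K j, c = Sum.inl (i, v)) ∨
    ∃ t : Fin r → V, (∀ l, t l ∈ K j) ∧ c = Sum.inr t}
  al := fun ω v => Al A i.val a v ∧ ω (Sum.inl (i, v)) ∈ A
  Φ := fun j ω z => P j ∧ f j (rho A Mi mj i.val a (inn A Mi mj i a ω z))
  res := resK

lemma rsys_good {ι : Type} (A Mi : Finset τ) (mj : (Fin r → V) → (Fin r → Bool) → Bool)
    (i : Fin D) (a : Cd D r V → τ)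
    (K : ι → Finset V) (f : ι → Tb r V → Prop) (P : ι → Prop) {S : ℕ} {β : ℝ}
    (hK : ∀ j, (K j).card ≤ S) (hloc : ∀ j, P j → Loc (K j) (f j ∘ rho A Mi mj i.val a))
    (hβ0 : 0 ≤ β) (hβ1 : β ≤ 1)
    (hA : β ≤ ((Finset.univ \ A : Finset τ).card : ℝ) / Fintype.card τ)
    (hM : β ≤ (Mi.card : ℝ) / Fintype.card τ)
    (hM' : β ≤ ((Finset.univ \ Mi : Finset τ).card : ℝ) / Fintype.card τ) :
    (rsys A Mi mj i a K f P).Good S S (2 ^ (S ^ r)) ((A.card : ℝ) / Fintype.card τ)
      (β ^ (S + S ^ r)) where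
  hloc := by
    intro j ω ω' hag
    have h1 : ∀ v ∈ K j, ω (Sum.inl (i, v)) = ω' (Sum.inl (i, v)) := fun v hv =>
      hag _ (Or.inl ⟨v, hv, rfl⟩)
    have h2 : ∀ t : Fin r → V, (∀ l, t l ∈ K j) → ω (Sum.inr t) = ω' (Sum.inr t) :=
      fun t ht => hag _ (Or.inr ⟨t, ht, rfl⟩)
    refine ⟨fun z => ?_, fun v hv => ?_⟩
    · simp only [rsys]
      apply and_congr_right
      intro hP
      have key : ∀ t : Fin r → V, (∀ l, t l ∈ K j) →
          inn A Mi mj i a ω z t = inn A Mi mj i a ω' z t := by
        intro t ht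
        have h3 : (∀ j, Al A i.val a (t j) ∧ ω (Sum.inl (i, t j)) ∈ A) ↔
            (∀ j, Al A i.val a (t j) ∧ ω' (Sum.inl (i, t j)) ∈ A) := by
          apply forall_congr'
          intro l
          rw [h1 (t l) (ht l)]
        have h4 : pat A i ω t = pat A i ω' t := by
          funext l
          simp only [pat]
          rw [h1 (t l) (ht l)]
        simp only [inn]
        by_cases h5 : ∀ j, Al A i.val a (t j) ∧ ω (Sum.inl (i, t j)) ∈ A
        · rw [if_pos h5, if_pos (h3.mp h5)]
        · rw [if_neg h5, if_neg (fun h => h5 (h3.mpr h)), h4]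
          simp only [rv, h2 t ht]
      constructor
      · intro h; exact hloc j hP _ _ key h
      · intro h; exact hloc j hP _ _ (fun t ht => (key t ht).symm) h
    · simp only [rsys, h1 v hv]
  hres := by
    intro j ω z z' hzz'
    have hzz := resK_eq_iff.1 hzz'
    simp only [rsys]
    rintro ⟨hP, h⟩
    refine ⟨hP, hloc j hP _ _ ?_ h⟩
    intro t ht
    simp only [inn]
    split_ifs with hc
    · apply hzz t
      intro l
      exact Finset.mem_filter.mpr ⟨ht l, hc l⟩
    · rfl
  hmono := by
    intro K1 K2 h12 z z' h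
    rw [show (rsys A Mi mj i a K f P).res = resK from rfl] at h ⊢
    rw [resK_eq_iff] at h ⊢
    exact fun t ht => h t (fun l => h12 (ht l))
  hM := by
    intro K' hK'
    have h1 := card_image_resK (r := r) K'
    have h2 : 2 ^ (K'.card ^ r) ≤ 2 ^ (S ^ r) :=
      Nat.pow_le_pow_right (by norm_num) (Nat.pow_le_pow_left hK'.le r)
    exact_mod_cast h1.trans h2
  hw := hK
  hnew := by
    intro H ω0 j N hN hNH
    have hinj : Function.Injective (fun v : V => (Sum.inl (i, v) : Cd D r V)) := by
      intro v v' h; simpa using h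
    calc avg (fun b => ind (∀ v ∈ N, (rsys A Mi mj i a K f P).al
          (mix ((rsys A Mi mj i a K f P).R H) ω0 b) v))
        ≤ avg (fun b : Cd D r V → τ => ind (∀ c ∈ N.image
            (fun v : V => (Sum.inl (i, v) : Cd D r V)),
            b c ∈ (fun _ : Cd D r V => A) c)) := by
          apply avg_mono
          intro b
          apply ind_mono
          intro h c hc
          rw [Finset.mem_image] at hc
          obtain ⟨v, hv, rfl⟩ := hc
          have h1 := (h v hv).2
          have h2 : (Sum.inl (i, v) : Cd D r V) ∉ (rsys A Mi mj i a K f P).R H := by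
            rintro ⟨j', hj', hc'⟩
            rcases hc' with ⟨v', hv', he⟩ | ⟨t, ht, he⟩
            · simp only [Sum.inl.injEq, Prod.mk.injEq, true_and] at he
              subst he
              exact hNH v hv ⟨j', hj', hv'⟩
            · exact absurd he (by simp)
          rwa [mix_not_mem h2] at h1
      _ = ((A.card : ℝ) / Fintype.card τ) ^ N.card := by
          rw [avg_box, Finset.prod_const, Finset.card_image_of_injective _ hinj]
  hsat := by
    intro H ω1 j z hΦ
    set s := rsys A Mi mj i a K f P with hs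
    obtain ⟨hP, hf⟩ := hΦ
    set x : Tb r V := inn A Mi mj i a ω1 z with hx
    -- the pattern when all new vertices die
    let pt : (Fin r → V) → (Fin r → Bool) := fun t l =>
      decide ((∃ i ∈ H, t l ∈ K i) ∧ ω1 (Sum.inl (i, t l)) ∈ A)
    let F : Finset (Cd D r V) :=
      ((K j).filter (fun v => ¬ ∃ i ∈ H, v ∈ K i)).image (fun v => Sum.inl (i, v)) ∪
      ((Fintype.piFinset (fun _ : Fin r => K j)).filter
        (fun q => (Sum.inr q : Cd D r V) ∉ s.R H)).image (fun q => Sum.inr q)
    let B : Cd D r V → Finset τ := fun c => match c with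
      | Sum.inl _ => Finset.univ \ A
      | Sum.inr q => if x q = mj q (pt q) then Finset.univ \ Mi else Mi
    have hcard : F.card ≤ S + S ^ r := by
      refine (Finset.card_union_le _ _).trans ?_
      apply Nat.add_le_add
      · exact Finset.card_image_le.trans ((Finset.card_filter_le _ _).trans (hK j))
      · refine Finset.card_image_le.trans ((Finset.card_filter_le _ _).trans ?_)
        rw [Fintype.card_piFinset]
        simp only [Finset.prod_const, Finset.card_univ, Fintype.card_fin]
        exact Nat.pow_le_pow_left (hK j) r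
    have hbox : β ^ (S + S ^ r) ≤ avg (fun b : Cd D r V → τ => ind (∀ c ∈ F, b c ∈ B c)) := by
      rw [avg_box]
      calc β ^ (S + S ^ r) ≤ β ^ F.card := pow_le_pow_of_le_one hβ0 hβ1 hcard
        _ = ∏ _c ∈ F, β := by rw [Finset.prod_const]
        _ ≤ _ := by
          apply Finset.prod_le_prod (fun _ _ => hβ0)
          intro c _
          rcases c with c | q
          · exact hA
          · simp only [B]
            split_ifs
            · exact hM'
            · exact hM
    refine hbox.trans (avg_mono ?_)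
    intro b
    apply ind_mono
    intro hb
    have hstat : ∀ v ∈ K j, (¬ ∃ i ∈ H, v ∈ K i) → (Sum.inl (i, v) : Cd D r V) ∉ s.R H := by
      intro v hv hvH
      rintro ⟨j', hj', hc'⟩
      rcases hc' with ⟨v', hv', he⟩ | ⟨t, ht, he⟩
      · simp only [Sum.inl.injEq, Prod.mk.injEq, true_and] at he
        subst he
        exact hvH ⟨j', hj', hv'⟩
      · exact absurd he (by simp)
    have hnewst : ∀ v ∈ K j, (¬ ∃ i ∈ H, v ∈ K i) →
        (mix (s.R H) ω1 b) (Sum.inl (i, v)) ∉ A := by
      intro v hv hvH hal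
      rw [mix_not_mem (hstat v hv hvH)] at hal
      have h2 := hb (Sum.inl (i, v)) (Finset.mem_union_left _ (Finset.mem_image_of_mem _
        (Finset.mem_filter.mpr ⟨hv, hvH⟩)))
      simp only [B, Finset.mem_sdiff, Finset.mem_univ, true_and] at h2
      exact h2 hal
    have hdead : ∀ v ∈ K j, (¬ ∃ i ∈ H, v ∈ K i) → ¬ s.al (mix (s.R H) ω1 b) v :=
      fun v hv hvH hal => hnewst v hv hvH hal.2
    refine ⟨hdead, hP, ?_⟩
    refine hloc j hP _ _ ?_ hf
    intro t ht
    -- statuses of revealed vertices agree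
    have hstat2 : ∀ u, (∃ i ∈ H, u ∈ K i) →
        (mix (s.R H) ω1 b) (Sum.inl (i, u)) = ω1 (Sum.inl (i, u)) := by
      rintro u ⟨j', hj', huj'⟩
      exact mix_mem ⟨j', hj', Or.inl ⟨u, huj', rfl⟩⟩
    have hpat : pat A i (mix (s.R H) ω1 b) t = pt t := by
      funext l
      simp only [pat, pt]
      by_cases hrl : ∃ i ∈ H, t l ∈ K i
      · rw [hstat2 (t l) hrl]
        simp only [hrl, true_and]
      · rw [decide_eq_false (hnewst (t l) (ht l) hrl)]
        simp only [hrl, false_and, decide_false]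
    by_cases hal : ∀ l, Al A i.val a (t l) ∧ (mix (s.R H) ω1 b) (Sum.inl (i, t l)) ∈ A
    · -- all alive, hence revealed
      have hvr : ∀ l, ∃ i ∈ H, t l ∈ K i := by
        intro l
        by_contra h; exact hdead (t l) (ht l) h (hal l)
      have h1 : ∀ l, Al A i.val a (t l) ∧ ω1 (Sum.inl (i, t l)) ∈ A := fun l =>
        ⟨(hal l).1, hstat2 (t l) (hvr l) ▸ (hal l).2⟩
      simp only [inn]
      rw [if_pos hal]
      rw [hx]
      simp only [inn]
      rw [if_pos h1]
    · have hgoal : inn A Mi mj i a (mix (s.R H) ω1 b) z t = rv mj Mi (mix (s.R H) ω1 b) t (pt t) := by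
        simp only [inn]
        rw [if_neg hal, hpat]
      rw [show inn A Mi mj i a (mix (s.R H) ω1 b) z t =
        rv mj Mi (mix (s.R H) ω1 b) t (pt t) from hgoal]
      by_cases hrev : (Sum.inr t : Cd D r V) ∈ s.R H
      · -- the tuple is revealed, so are the statuses
        have hrev' := hrev
        obtain ⟨j', hj', hc'⟩ := hrev'
        rcases hc' with ⟨u, hu, he⟩ | ⟨t', ht', he⟩
        · exact absurd he (by simp)
        · simp only [Sum.inr.injEq] at he
          subst he
          have hall : ∀ l, ∃ i ∈ H, t l ∈ K i := fun l => ⟨j', hj', ht' l⟩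
          have hnal : ¬ ∀ l, Al A i.val a (t l) ∧ ω1 (Sum.inl (i, t l)) ∈ A := by
            intro h
            apply hal
            intro l
            rw [hstat2 (t l) (hall l)]
            exact h l
          have hpt : pat A i ω1 t = pt t := by
            funext l
            simp only [pat, pt, hall l, true_and]
          rw [hx]
          simp only [inn]
          rw [if_neg hnal, hpt]
          simp only [rv]
          rw [mix_mem hrev]
      · have h2 := hb (Sum.inr t) (Finset.mem_union_right _ (Finset.mem_image_of_mem _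
          (Finset.mem_filter.mpr ⟨Fintype.mem_piFinset.mpr ht, hrev⟩)))
        simp only [B] at h2
        simp only [rv]
        rw [mix_not_mem hrev]
        by_cases hm : x t = mj t (pt t)
        · rw [if_pos hm] at h2
          have : b (Sum.inr t) ∉ Mi := (Finset.mem_sdiff.mp h2).2
          simp [this, hm]
        · rw [if_neg hm] at h2
          simp only [h2, decide_true, Bool.xor_true]
          revert hm
          cases x t <;> cases mj t (pt t) <;> simp

/-- coordinates revealed before round `i` -/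
def Rbef (A : Finset τ) (i : Fin D) (a : Cd D r V → τ) : Set (Cd D r V) :=
  {c | (∃ i' v, i' ≠ i ∧ c = Sum.inl (i', v)) ∨
    ∃ t : Fin r → V, (¬ ∀ l, Al A i.val a (t l)) ∧ c = Sum.inr t}

lemma Al_mix (A : Finset τ) (i : Fin D) (a b : Cd D r V → τ) (v : V) :
    Al A i.val (mix (Rbef A i a) a b) v ↔ Al A i.val a v := by
  have : ∀ i' : Fin D, i'.val < i.val →
      mix (Rbef A i a) a b (Sum.inl (i', v)) = a (Sum.inl (i', v)) := by
    intro i' hi'
    apply mix_mem (T := fun _ => τ)
    left
    exact ⟨i', v, by intro h; subst h; exact lt_irrefl _ hi', rfl⟩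
  unfold Al
  constructor
  · intro h i' hi'; rw [← this i' hi']; exact h i' hi'
  · intro h i' hi'; rw [this i' hi']; exact h i' hi'

lemma Rbef_mix (A : Finset τ) (i : Fin D) (a b : Cd D r V → τ) :
    Rbef A i (mix (Rbef A i a) a b) = Rbef A i a := by
  unfold Rbef
  simp only [← Rbef.eq_def, Al_mix]

lemma inl_not_mem_Rbef (A : Finset τ) (i : Fin D) (a : Cd D r V → τ) (v : V) :
    (Sum.inl (i, v) : Cd D r V) ∉ Rbef A i a := by
  rintro (⟨i', v', h, he⟩ | ⟨t, h, he⟩)
  · simp only [Sum.inl.injEq, Prod.mk.injEq] at he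
    exact h he.1.symm
  · exact absurd he (by simp)

lemma inr_mem_Rbef {A : Finset τ} {i : Fin D} {a : Cd D r V → τ} {t : Fin r → V} :
    (Sum.inr t : Cd D r V) ∈ Rbef A i a ↔ ¬ ∀ l, Al A i.val a (t l) := by
  constructor
  · rintro (⟨i', v1, h, he⟩ | ⟨t', h, he⟩)
    · exact absurd he (by simp)
    · simp only [Sum.inr.injEq] at he
      subst he
      exact h
  · intro h; exact Or.inr ⟨t, h, rfl⟩

lemma rho_mix (A Mi : Finset τ) (mj : (Fin r → V) → (Fin r → Bool) → Bool) (i : Fin D)
    (a b : Cd D r V → τ) :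
    rho A Mi mj i.val (mix (Rbef A i a) a b) = rho A Mi mj i.val a := by
  funext z t
  apply rho_congr
  · intro i' hi' j
    apply mix_mem (T := fun _ => τ)
    left
    exact ⟨i', t j, by intro h; subst h; exact lt_irrefl _ hi', rfl⟩
  · intro h
    simp only [Al_mix] at h
    exact mix_mem (T := fun _ => τ) (inr_mem_Rbef.mpr h)

lemma Al_succ (A : Finset τ) (i : Fin D) (ω : Cd D r V → τ) (v : V) :
    Al A (i.val + 1) ω v ↔ Al A i.val ω v ∧ ω (Sum.inl (i, v)) ∈ A := by
  unfold Al
  constructor
  · intro h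
    exact ⟨fun i' hi' => h i' (by omega), h i (by omega)⟩
  · rintro ⟨h1, h2⟩ i' hi'
    rcases Nat.lt_succ_iff_lt_or_eq.mp hi' with h | h
    · exact h1 i' h
    · have : i' = i := Fin.ext h
      subst this; exact h2

lemma rho_step (A Mi : Finset τ) (mj : (Fin r → V) → (Fin r → Bool) → Bool) (i : Fin D)
    (a b : Cd D r V → τ) (z : Tb r V) :
    rho A Mi mj i.val a (inn A Mi mj i a b z) =
    rho A Mi mj (i.val + 1) (mix (Rbef A i a) a b) z := by
  funext t
  by_cases h1 : ∀ l, Al A i.val a (t l)
  · rw [rho_alive A Mi mj i.val a _ t h1]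
    have h1' : ∀ l, Al A i.val (mix (Rbef A i a) a b) (t l) := fun l => (Al_mix A i a b _).mpr (h1 l)
    simp only [rho]
    rw [if_pos h1', dif_pos i.2]
    have hst : ∀ l, (mix (Rbef A i a) a b) (Sum.inl (i, t l)) = b (Sum.inl (i, t l)) := fun l =>
      mix_not_mem (T := fun _ => τ) (inl_not_mem_Rbef A i a _)
    have hco : (mix (Rbef A i a) a b) (Sum.inr t) = b (Sum.inr t) :=
      mix_not_mem (T := fun _ => τ) (by rw [inr_mem_Rbef]; exact not_not.mpr h1)
    simp only [inn, stp, Fin.eta, hst]
    by_cases h2 : ∀ l, b (Sum.inl (i, t l)) ∈ A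
    · rw [if_pos h2, if_pos (fun l => ⟨h1 l, h2 l⟩)]
    · rw [if_neg h2, if_neg (fun h => h2 (fun l => (h l).2))]
      simp only [rv, hco]
      congr 2
      funext l
      simp only [pat, hst]
  · rw [rho_dead A Mi mj i.val i.2.le a _ z t h1]
    have h1' : ¬ ∀ l, Al A i.val (mix (Rbef A i a) a b) (t l) := fun h =>
      h1 (fun l => (Al_mix A i a b _).mp (h l))
    simp only [rho]
    rw [if_neg h1', rho_mix]

/-- Conditional round lemma. -/
theorem round_cond {ι : Type} (A Mi : Finset τ) (mj : (Fin r → V) → (Fin r → Bool) → Bool)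
    (i : Fin D) (f : ι → Tb r V → Prop) (L : List ι) {S : ℕ} {β c u : ℝ} (hS : 1 ≤ S)
    (hβ0 : 0 ≤ β) (hβ1 : β ≤ 1)
    (hA : β ≤ ((Finset.univ \ A : Finset τ).card : ℝ) / Fintype.card τ)
    (hM : β ≤ (Mi.card : ℝ) / Fintype.card τ)
    (hM' : β ≤ ((Finset.univ \ Mi : Finset τ).card : ℝ) / Fintype.card τ)
    (hc : 0 ≤ c) (hc1 : c ≤ 1) (hu : 0 ≤ u) (hu1 : u ≤ 1)
    (hp : (A.card : ℝ) / Fintype.card τ = u * c)
    (huw : 2 ^ S * u ≤ β ^ (S + S ^ r) / 2 ^ (S ^ r)) :
    avg (fun ω : Cd D r V → τ => ind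
      ((∀ l ∈ L, LocAt A S i.val ω (f l ∘ rho A Mi mj i.val ω)) ∧
        ¬ LocAt A S (i.val + 1) ω (fun z => ∃ l ∈ L, f l (rho A Mi mj (i.val + 1) ω z)))) ≤
      c ^ S := by
  rw [← avg_mix_adaptive (T := fun _ => τ) (Rbef A i) (Rbef_mix A i)]
  apply avg_le_of_le
  intro a
  by_cases hE1 : ∀ l ∈ L, LocAt A S i.val a (f l ∘ rho A Mi mj i.val a)
  swap
  · refine (avg_le_of_le (c := 0) ?_).trans (pow_nonneg hc _)
    intro b
    refine le_of_eq (ind_false ?_)
    rintro ⟨h, -⟩
    apply hE1
    intro l hl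
    obtain ⟨K, hK1, hK2, hK3⟩ := h l hl
    refine ⟨K, hK1, fun v hv => (Al_mix A i a b v).1 (hK2 v hv), ?_⟩
    rwa [rho_mix] at hK3
  · choose K hK1 hK2 hK3 using hE1
    let K' : ι → Finset V := fun l => if hl : l ∈ L then K l hl else ∅
    have hg := rsys_good A Mi mj i a K' f (fun l => l ∈ L) (S := S) (β := β)
      (by
        intro j
        by_cases hj : j ∈ L
        · simp only [K', dif_pos hj]; exact (hK1 j hj).le
        · simp [K', dif_neg hj])
      (by
        intro j hj
        simp only [K', dif_pos hj]; exact hK3 j hj)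
      hβ0 hβ1 hA hM hM'
    have hcol := Sys.collapse hg (c := c) (u := u) (by exact_mod_cast Nat.one_le_two_pow) hc hc1 hu
      hu1 hp (by exact_mod_cast huw) hS L
    refine le_trans (avg_mono ?_) hcol
    intro b
    apply ind_mono
    rintro ⟨-, hno⟩ ⟨K2, hc2, hal2, hloc2⟩
    apply hno
    refine ⟨K2, hc2, ?_, ?_⟩
    · intro v hv
      rw [Al_succ, Al_mix, mix_not_mem (T := fun _ => τ) (inl_not_mem_Rbef A i a v)]
      exact (hal2 v hv).1
    · intro z z' hzz'
      rintro ⟨l, hl, hf⟩
      have h1 : ∃ j ∈ L, (rsys A Mi mj i a K' f (fun l => l ∈ L)).Φ j b z := by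
        refine ⟨l, hl, hl, ?_⟩
        rw [rho_step]; exact hf
      obtain ⟨l', hl', -, hf'⟩ := hloc2 z z' (resK_eq_iff.mpr hzz') h1
      rw [rho_step] at hf'
      exact ⟨l', hl', hf'⟩

end

end Pool.Agent.Helper265_EW
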