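import Pool.Agent.Helper265_EW.TWid

set_option linter.unusedSectionVars false

/-! The extended structure, and alternation over its blocks. -/

namespace Pool.Agent.Helper265_EW.T

open Finset Classical Pool.Agent.Helper265_EW.G Pool.Agent.Helper265_EW.P
open Pool.Agent.Helper265_EW.N (At jn qfOf eval_qfOf fstc alt_first)

noncomputable section

/-- the second component -/
def sndc {X : ℕ → Type} : (n : ℕ) → Tup X (n + 2) → X 1
  | 0, v => v.2
  | n + 1, v => sndc n v.1

lemma stt_succ {A X : ℕ → Type} (π : ∀ i, A i → Option (X i)) (n : ℕ) (v : Tup A (n + 1)) :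
    stt π (n + 1) v = match stt π n v.1 with
      | Sum.inr b => Sum.inr b
      | Sum.inl x => match π n v.2 with
        | some y => Sum.inl (x, y)
        | none => Sum.inr (decide (n % 2 = 0)) := rfl

/-- two modes -/
lemma alt_two {X : ℕ → Type} (H : X 0 → X 1 → Prop) (n : ℕ) :
    (∀ i, i ≤ n + 1 → Nonempty (X i)) → ∀ G : Tup X (n + 2) → Prop,
      (∀ x0, (∀ x1, H x0 x1) ∨ (∀ v, fstc (n + 1) v = x0 → G v)) →
      (alt X (n + 2) (fun v => H (fstc (n + 1) v) (sndc n v) ∧ G v) ↔
        (∀ x0, ∃ x1, H x0 x1) ∧ alt X (n + 2) G) := by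
  induction n with
  | zero =>
    intro hne G hx
    obtain ⟨y1⟩ := hne 1 le_rfl
    change lev 0 (fun x => lev 1 (fun y => H x y ∧ G (((), x), y))) ↔
      (∀ x0, ∃ x1, H x0 x1) ∧ lev 0 (fun x => lev 1 (fun y => G (((), x), y)))
    rw [lev_even rfl, lev_even rfl]
    simp only [lev_odd (show 1 % 2 = 1 from rfl)]
    constructor
    · intro h
      exact ⟨fun x => (h x).imp fun y hy => hy.1, fun x => (h x).imp fun y hy => hy.2⟩
    · rintro ⟨h1, h2⟩ x
      rcases hx x with h | h
      · obtain ⟨y, hy⟩ := h2 x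
        exact ⟨y, h y, hy⟩
      · obtain ⟨y, hy⟩ := h1 x
        exact ⟨y, hy, h _ rfl⟩
  | succ n ih =>
    intro hne G hx
    have h1 := ih (fun i hi => hne i (by omega)) (fun v => lev (n + 2) (fun x => G (v, x)))
      (fun x0 => (hx x0).imp id (fun h v hv => by
        obtain ⟨y⟩ := hne (n + 2) le_rfl
        have h2 : ∀ x, G (v, x) := fun x => h (v, x) hv
        rcases Nat.mod_two_eq_zero_or_one (n + 2) with hn | hn
        · rw [lev_even hn]
          exact h2
        · rw [lev_odd hn]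
          exact ⟨y, h2 y⟩))
    refine Iff.trans ?_ h1
    change alt X (n + 2) (fun v => lev (n + 2) (fun x => H (fstc (n + 1) v) (sndc n v) ∧
      G (v, x))) ↔ _
    apply alt_congr
    intro v
    obtain ⟨x0⟩ := hne (n + 2) le_rfl
    rcases Nat.mod_two_eq_zero_or_one (n + 2) with hn | hn
    · rw [lev_even hn, lev_even hn]
      exact ⟨fun h => ⟨(h x0).1, fun x => (h x).2⟩, fun h x => ⟨h.1, h.2 x⟩⟩
    · rw [lev_odd hn, lev_odd hn]
      exact ⟨fun ⟨x, h⟩ => ⟨h.1, x, h.2⟩, fun ⟨h1, x, h2⟩ => ⟨x, h1, h2⟩⟩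

/-- the extended universe -/
abbrev UT (V Nm : Type) (k : ℕ) : Type := V ⊕ (Fin (k + 1) ⊕ Nm)

section Fam

variable {τ : Voc} {s k : ℕ} {V U Nm : Type}

abbrev nu (i : Fin (k + 1)) : UT V Nm k := Sum.inr (Sum.inl i)

abbrev nm (x : Nm) : UT V Nm k := Sum.inr (Sum.inr x)

/-- sorts -/
def srt (ι : U → V) (c : Fin 4) (w : UT V Nm k) : Prop :=
  (c = 0 ∧ ∃ u, w = Sum.inl (ι u)) ∨ (c = 1 ∧ ∃ i, w = nu i) ∨ (c = 2 ∧ ∃ x, w = nm x) ∨
    (c = 3 ∧ w = nu 0)

lemma srt0 (ι : U → V) (w : UT V Nm k) : srt ι 0 w ↔ ∃ u, w = Sum.inl (ι u) := by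
  simp [srt]

lemma srt1 (ι : U → V) (w : UT V Nm k) : srt ι 1 w ↔ ∃ i, w = nu i := by
  simp [srt]

lemma srt2 (ι : U → V) (w : UT V Nm k) : srt ι 2 w ↔ ∃ x, w = nm x := by
  simp [srt]

lemma srt3 (ι : U → V) (w : UT V Nm k) : srt ι 3 w ↔ w = nu 0 := by
  simp [srt]

/-- the relations of the extended structure -/
def famT (ι : U → V) (B : Str τ U) (T1 : Fin (k + 1) → Nm → (Fin s → V) → Prop)
    (T2 : Nm → (Fin s → V) → Prop) : (R : RI τ) → (Fin (arI τ s R) → UT V Nm k) → Bool
  | Sum.inl R, v => decide (∃ x : Fin (τ.ar R) → U, (∀ i, v i = Sum.inl (ι (x i))) ∧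
      B R x = true)
  | Sum.inr (Sum.inl c), v => decide (srt ι c (v (0 : Fin 1)))
  | Sum.inr (Sum.inr b), v => decide (∃ (z : Fin s → V) (x : Nm) (i : Fin (k + 1)),
      v = tp (fun j => Sum.inl (z j)) (nm x) (nu i) ∧ if b = true then T2 x z else T1 i x z)

/-- the extended structure -/
def strT (ι : U → V) (B : Str τ U) (T1 : Fin (k + 1) → Nm → (Fin s → V) → Prop)
    (T2 : Nm → (Fin s → V) → Prop) : Str (vocT τ s) (UT V Nm k) := strF (famT ι B T1 T2)

end Fam

section

variable {τ : Voc} {s m : ℕ} (φ : PiF τ s (m + 2)) (bb : Bool) (w0 : ℕ) {k : ℕ}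
  {V U Nm : Type} (ι : U → V) (B : Str τ U) (T1 : Fin (k + 1) → Nm → (Fin s → V) → Prop)
  (T2 : Nm → (Fin s → V) → Prop)

/-- truth values of the relations under an assignment -/
def rT (a : Vars (lenT φ) (m + 2) → UT V Nm k) :
    ∀ i : Fin (vocT τ s).num, (Fin ((vocT τ s).ar i) → Vars (lenT φ) (m + 2)) → Bool :=
  fun i v => strT ι B T1 T2 i (fun j => a (v j))

/-- truth values of the equalities under an assignment -/
def eT (a : Vars (lenT φ) (m + 2) → UT V Nm k) :
    Vars (lenT φ) (m + 2) → Vars (lenT φ) (m + 2) → Bool := fun u v => decide (a u = a v)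

/-- truth values of the atoms under an assignment -/
def xT (T : Finset (Fin (s + 2) → UT V Nm k)) (a : Vars (lenT φ) (m + 2) → UT V Nm k) :
    (Fin (s + 2) → Vars (lenT φ) (m + 2)) → Bool := fun v => decide ((fun j => a (v j)) ∈ T)

lemma isS_a (a : Vars (lenT φ) (m + 2) → UT V Nm k) (c : Fin 4) (u : Vars (lenT φ) (m + 2)) :
    isS φ (rT φ ι B T1 T2 a) c u ↔ srt ι c (a u) := by
  unfold isS rT strT
  rw [gt_str]
  unfold famT
  rw [decide_eq_true_eq]

lemma isTb_a (a : Vars (lenT φ) (m + 2) → UT V Nm k) (b : Bool)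
    (z : Fin s → Vars (lenT φ) (m + 2)) (u u' : Vars (lenT φ) (m + 2)) :
    isTb φ (rT φ ι B T1 T2 a) b z u u' ↔ ∃ (z' : Fin s → V) (x : Nm) (i : Fin (k + 1)),
      ((∀ j, a (z j) = Sum.inl (z' j)) ∧ a u = nm x ∧ a u' = nu i) ∧
        if b = true then T2 x z' else T1 i x z' := by
  unfold isTb rT strT
  rw [gt_str]
  unfold famT
  rw [decide_eq_true_eq]
  apply exists_congr
  intro z'
  apply exists_congr
  intro x
  apply exists_congr
  intro i
  apply and_congr_left
  intro _
  have h1 : (fun j => a (tp z u u' j)) = tp (fun j => a (z j)) (a u) (a u') := tp_comp a z u u'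
  refine (Eq.congr_left h1).trans ?_
  rw [tp_inj, funext_iff]

lemma rel_a (a : Vars (lenT φ) (m + 2) → UT V Nm k) (R : Fin τ.num)
    (v : Fin (τ.ar R) → Vars (lenT φ) (m + 2)) :
    gt (rT φ ι B T1 T2 a) (Sum.inl R) v = true ↔ ∃ x : Fin (τ.ar R) → U,
      (∀ i, a (v i) = Sum.inl (ι (x i))) ∧ B R x = true := by
  unfold rT strT
  rw [gt_str]
  unfold famT
  rw [decide_eq_true_eq]
  exact Iff.rfl

lemma xT_tp (T : Finset (Fin (s + 2) → UT V Nm k)) (a : Vars (lenT φ) (m + 2) → UT V Nm k)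
    (z : Fin s → Vars (lenT φ) (m + 2)) (u u' : Vars (lenT φ) (m + 2)) :
    xT φ T a (tp z u u') = true ↔ tp (fun j => a (z j)) (a u) (a u') ∈ T := by
  unfold xT
  rw [decide_eq_true_eq, tp_comp a z u u']

/-- blocks over the extended universe -/
abbrev XT (V Nm : Type) (k i : ℕ) : Type := Fin (lenT φ i) → UT V Nm k

/-- the value of an additional variable in its block -/
def xv (i : ℕ) (y : XT φ V Nm k i) (x : AX φ) : UT V Nm k := y (Fin.natAdd (φ.len i) (eX φ x))

/-- the value of the additional variable `x` of block `j` -/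
def axv : (t : ℕ) → ℕ → Tup (XT φ V Nm k) (t + 1) → AX φ → UT V Nm k
  | 0, _, v, x => xv φ 0 v.2 x
  | t + 1, j, v, x => if j = t + 1 then xv φ (t + 1) v.2 x else axv t j v.1 x

lemma asg_av (t j : ℕ) (v : Tup (XT φ V Nm k) (t + 1)) (x : AX φ) :
    asg (lenT φ) (t + 1) v (av φ t j x) = axv φ t j v x := by
  induction t with
  | zero => rfl
  | succ t ih =>
    unfold av axv
    by_cases h : j = t + 1
    · rw [if_pos h, if_pos h]
      rfl
    · rw [if_neg h, if_neg h]
      exact ih v.1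

lemma axv_self (t : ℕ) (v : Tup (XT φ V Nm k) (t + 1)) (x : AX φ) :
    axv φ t t v x = xv φ t v.2 x := by
  cases t with
  | zero => rfl
  | succ t =>
    unfold axv
    rw [if_pos rfl]

lemma axv_pred (t : ℕ) (v : Tup (XT φ V Nm k) (t + 2)) (x : AX φ) :
    axv φ (t + 1) t v x = xv φ t v.1.2 x := by
  unfold axv
  rw [if_neg (by omega)]
  exact axv_self φ t v.1 x

lemma axv_zero (t : ℕ) (v : Tup (XT φ V Nm k) (t + 1)) (x : AX φ) :
    axv φ t 0 v x = xv φ 0 (fstc t v) x := by
  induction t with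
  | zero => rfl
  | succ t ih =>
    unfold axv
    rw [if_neg (by omega)]
    exact ih v.1

lemma axv_one (t : ℕ) (v : Tup (XT φ V Nm k) (t + 2)) (x : AX φ) :
    axv φ (t + 1) 1 v x = xv φ 1 (sndc t v) x := by
  induction t with
  | zero =>
    unfold axv
    rw [if_pos rfl]
    rfl
  | succ t ih =>
    unfold axv
    rw [if_neg (by omega)]
    exact ih v.1

/-- a block with given values -/
def mk (i : ℕ) (y : Fin (φ.len i) → UT V Nm k) (F : AX φ → UT V Nm k) : XT φ V Nm k i :=
  Fin.append y (fun x => F ((eX φ).symm x))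

lemma mk_orig (i : ℕ) (y : Fin (φ.len i) → UT V Nm k) (F : AX φ → UT V Nm k)
    (j : Fin (φ.len i)) : mk φ i y F (Fin.castAdd (nX φ) j) = y j := by
  unfold mk
  exact Fin.append_left _ _ _

lemma xv_mk (i : ℕ) (y : Fin (φ.len i) → UT V Nm k) (F : AX φ → UT V Nm k) (x : AX φ) :
    xv φ i (mk φ i y F) x = F x := by
  unfold xv mk
  rw [Fin.append_right, Equiv.symm_apply_apply]

/-- the condition on block `0` -/
def zcY (i : ℕ) (y : XT φ V Nm k i) : Prop :=
  xv φ i y (Sum.inr (Sum.inr 0)) = nu 0 ∧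
    xv φ i y (Sum.inr (Sum.inr 1)) = xv φ i y (Sum.inr (Sum.inr 0))

/-- extraction of the original block -/
def piT (i : ℕ) (y : XT φ V Nm k i) : Option (Fin (φ.len i) → U) :=
  if h : (∀ j : Fin (φ.len i), ∃ u, y (Fin.castAdd (nX φ) j) = Sum.inl (ι u)) ∧
      (i = 0 → zcY φ i y) then
    some (fun j => (h.1 j).choose) else none

lemma piT_some (hι : Function.Injective ι) (i : ℕ) (y : XT φ V Nm k i)
    (x : Fin (φ.len i) → U) : piT φ ι i y = some x ↔
      (∀ j, y (Fin.castAdd (nX φ) j) = Sum.inl (ι (x j))) ∧ (i = 0 → zcY φ i y) := by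
  unfold piT
  split_ifs with h
  · constructor
    · intro h1
      have h2 := Option.some_injective _ h1
      rw [← h2]
      exact ⟨fun j => (h.1 j).choose_spec, h.2⟩
    · intro h1
      congr 1
      funext j
      exact hι (Sum.inl_injective ((h.1 j).choose_spec.symm.trans (h1.1 j)))
  · constructor
    · intro h1
      exact absurd h1 (by simp)
    · intro h1
      exact absurd ⟨fun j => ⟨x j, h1.1 j⟩, h1.2⟩ h

/-- the condition on block `0` of a tuple -/
def zcT : (t : ℕ) → Tup (XT φ V Nm k) t → Prop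
  | 0, _ => True
  | t + 1, v => zcY φ 0 (fstc t v)

/-- level `i` is valid -/
def okv (t : ℕ) (v : Tup (XT φ V Nm k) t) (i : ℕ) : Prop :=
  (∀ u : Vars φ.len t, P.lv φ.len t u = i → ∃ x, asg (lenT φ) t v (io φ t u) = Sum.inl (ι x)) ∧
    (i = 0 → zcT φ t v)

lemma okv_lt (t : ℕ) (v : Tup (XT φ V Nm k) (t + 1)) (i : ℕ) (hi : i < t) :
    okv φ ι (t + 1) v i ↔ okv φ ι t v.1 i := by
  obtain ⟨t', rfl⟩ : ∃ t', t = t' + 1 := ⟨t - 1, by omega⟩
  unfold okv
  apply and_congr
  · constructor
    · intro h u hu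
      exact h (Sum.inl u) hu
    · intro h u hu
      rcases u with u | j
      · exact h u hu
      · have : t' + 1 = i := hu
        omega
  · exact Iff.rfl

lemma okv_eq (t : ℕ) (v : Tup (XT φ V Nm k) (t + 1)) :
    okv φ ι (t + 1) v t ↔ (∀ j : Fin (φ.len t), ∃ u, v.2 (Fin.castAdd (nX φ) j) =
      Sum.inl (ι u)) ∧ (t = 0 → zcY φ t v.2) := by
  unfold okv
  apply and_congr
  · constructor
    · intro h j
      exact h (Sum.inr j) rfl
    · intro h u hu
      rcases u with u | j
      · have h1 := P.lv_lt φ.len t u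
        have : P.lv φ.len t u = t := hu
        omega
      · exact h j
  · cases t with
    | zero => exact Iff.rfl
    | succ t => simp

lemma okv_pi (t : ℕ) (v : Tup (XT φ V Nm k) (t + 1)) :
    okv φ ι (t + 1) v t ↔ ∃ x, piT φ ι t v.2 = some x := by
  rw [okv_eq]
  unfold piT
  split_ifs with h
  · exact ⟨fun _ => ⟨_, rfl⟩, fun _ => h⟩
  · refine ⟨fun h' => absurd h' h, ?_⟩
    rintro ⟨x, hx⟩
    exact absurd hx (by simp)

lemma scn_okv (t : ℕ) (v : Tup (XT φ V Nm k) t) :
    P.scn (okv φ ι t v) t = match stt (piT φ ι) t v with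
      | Sum.inl _ => none
      | Sum.inr c => some c := by
  induction t with
  | zero => rfl
  | succ t ih =>
    have h1 : P.scn (okv φ ι (t + 1) v) t = P.scn (okv φ ι t v.1) t :=
      P.scn_congr t (fun i hi => okv_lt φ ι t v i hi)
    simp only [P.scn, stt]
    rw [h1, ih v.1]
    cases h2 : stt (piT φ ι) t v.1 with
    | inr c => rfl
    | inl x =>
      simp only
      have h4 := okv_pi φ ι t v
      cases h3 : piT φ ι t v.2 with
      | some y =>
        simp only
        rw [if_pos]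
        rw [h4, h3]
        exact ⟨y, rfl⟩
      | none =>
        simp only
        rw [if_neg]
        rw [h4, h3]
        simp

lemma asg_io (hι : Function.Injective ι) (t : ℕ) (v : Tup (XT φ V Nm k) t)
    (x : Tup (fun i => Fin (φ.len i) → U) t) (h : stt (piT φ ι) t v = Sum.inl x)
    (u : Vars φ.len t) : asg (lenT φ) t v (io φ t u) = Sum.inl (ι (asg φ.len t x u)) := by
  induction t with
  | zero => exact u.elim
  | succ t ih =>
    simp only [stt] at h
    cases h2 : stt (piT φ ι) t v.1 with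
    | inr c => rw [h2] at h; exact absurd h (by simp)
    | inl x' =>
      rw [h2] at h
      simp only at h
      cases h3 : piT φ ι t v.2 with
      | none => rw [h3] at h; exact absurd h (by simp)
      | some y =>
        rw [h3] at h
        simp only [Sum.inl.injEq] at h
        rw [← h]
        rcases u with u | j
        · exact ih v.1 x' h2 u
        · exact ((piT_some φ ι hι t v.2 y).mp h3).1 j

lemma stt_first (t : ℕ) (v : Tup (XT φ V Nm k) (t + 1)) (h : ¬ zcY φ 0 (fstc t v)) :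
    stt (piT φ ι) (t + 1) v = Sum.inr true := by
  induction t with
  | zero =>
    simp only [stt]
    have h1 : piT φ ι 0 v.2 = none := by
      unfold piT
      rw [dif_neg]
      intro h2
      exact h (h2.2 rfl)
    rw [h1]
    rfl
  | succ t ih =>
    rw [stt_succ, ih v.1 h]

end

end

end Pool.Agent.Helper265_EW.T
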