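import Pool.Agent.Helper265_EW.TSem

set_option linter.unusedSectionVars false

/-! Solutions over the extended structure. -/

namespace Pool.Agent.Helper265_EW.T

open Finset Classical Pool.Agent.Helper265_EW.G Pool.Agent.Helper265_EW.P
open Pool.Agent.Helper265_EW.N (At jn qfOf eval_qfOf fstc alt_first)

noncomputable section

section Enc

variable {s k : ℕ} {V U Nm : Type} (ι : U → V)

/-- the tuple for a tuple of the original solution -/
def stp (z : Fin s → U) : Fin (s + 2) → UT V Nm k :=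
  tp (fun j => Sum.inl (ι (z j))) (nu 0) (nu 0)

/-- the tuple for a name and a number -/
def ntp (x : Nm) (i : Fin (k + 1)) : Fin (s + 2) → UT V Nm k := tp (fun _ => nu 0) (nm x) (nu i)

/-- the set over the extended universe -/
def enc (S : Finset (Fin s → U)) (ν : Fin (k + 1) → Nm) : Finset (Fin (s + 2) → UT V Nm k) :=
  S.image (stp ι) ∪ Finset.univ.image (fun i => ntp (ν i) i)

lemma stp_inj (hι : Function.Injective ι) {z z' : Fin s → U}
    (h : (stp ι z : Fin (s + 2) → UT V Nm k) = stp ι z') : z = z' := by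
  unfold stp at h
  rw [tp_inj] at h
  funext j
  exact hι (Sum.inl_injective (congrFun h.1 j))

lemma ntp_inj {x x' : Nm} {i i' : Fin (k + 1)}
    (h : (ntp x i : Fin (s + 2) → UT V Nm k) = ntp x' i') : x = x' ∧ i = i' := by
  unfold ntp at h
  rw [tp_inj] at h
  exact ⟨Sum.inr_injective (Sum.inr_injective h.2.1),
    Sum.inl_injective (Sum.inr_injective h.2.2)⟩

lemma stp_ne {z : Fin s → U} {x : Nm} {i : Fin (k + 1)} :
    (stp ι z : Fin (s + 2) → UT V Nm k) ≠ ntp x i := by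
  intro h
  unfold stp ntp at h
  rw [tp_inj] at h
  have := Sum.inr_injective h.2.1
  exact absurd this (by simp)

lemma mem_enc (S : Finset (Fin s → U)) (ν : Fin (k + 1) → Nm) (w : Fin (s + 2) → UT V Nm k) :
    w ∈ enc ι S ν ↔ (∃ z ∈ S, w = stp ι z) ∨ ∃ i, w = ntp (ν i) i := by
  unfold enc
  rw [Finset.mem_union]
  simp only [Finset.mem_image, Finset.mem_univ, true_and, eq_comm]

lemma mem_enc_s (hι : Function.Injective ι) (S : Finset (Fin s → U)) (ν : Fin (k + 1) → Nm)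
    (z : Fin s → U) : (stp ι z : Fin (s + 2) → UT V Nm k) ∈ enc ι S ν ↔ z ∈ S := by
  rw [mem_enc]
  constructor
  · rintro (⟨z', hz', h⟩ | ⟨i, h⟩)
    · rw [stp_inj ι hι h]
      exact hz'
    · exact absurd h (stp_ne ι)
  · intro h
    exact Or.inl ⟨z, h, rfl⟩

lemma mem_enc_n (S : Finset (Fin s → U)) (ν : Fin (k + 1) → Nm) (x : Nm)
    (w : UT V Nm k) : (tp (fun _ => nu 0) (nm x) w : Fin (s + 2) → UT V Nm k) ∈ enc ι S ν ↔
      ∃ i, x = ν i ∧ w = nu i := by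
  rw [mem_enc]
  constructor
  · rintro (⟨z', hz', h⟩ | ⟨i, h⟩)
    · unfold stp at h
      rw [tp_inj] at h
      exact absurd h.2.1 (by simp)
    · unfold ntp at h
      rw [tp_inj] at h
      exact ⟨i, Sum.inr_injective (Sum.inr_injective h.2.1), h.2.2⟩
  · rintro ⟨i, rfl, rfl⟩
    exact Or.inr ⟨i, rfl⟩

lemma card_enc (hι : Function.Injective ι) (S : Finset (Fin s → U)) (ν : Fin (k + 1) → Nm) :
    (enc ι S ν : Finset (Fin (s + 2) → UT V Nm k)).card = S.card + (k + 1) := by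
  unfold enc
  rw [Finset.card_union_of_disjoint, Finset.card_image_of_injective,
    Finset.card_image_of_injective, Finset.card_univ, Fintype.card_fin]
  · intro i i' h
    exact (ntp_inj h).2
  · intro z z' h
    exact stp_inj ι hι h
  · rw [Finset.disjoint_left]
    rintro w hw hw'
    obtain ⟨z, -, rfl⟩ := Finset.mem_image.mp hw
    obtain ⟨i, -, h⟩ := Finset.mem_image.mp hw'
    exact stp_ne ι h.symm

end Enc

section

variable {τ : Voc} {s m : ℕ} (φ : PiF τ s (m + 2)) (bb : Bool) (w0 : ℕ) {k : ℕ}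
  {V U Nm : Type} (ι : U → V) (B : Str τ U) (T1 : Fin (k + 1) → Nm → (Fin s → V) → Prop)
  (T2 : Nm → (Fin s → V) → Prop)

/-- special values -/
abbrev sv (i : ℕ) (y : XT φ V Nm k i) (c : Fin 4) : UT V Nm k := xv φ i y (Sum.inr (Sum.inr c))

/-- values of the tuple variables -/
abbrev tvv (i : ℕ) (y : XT φ V Nm k i) (c : Fin (s + 2)) : UT V Nm k := xv φ i y (Sum.inl c)

/-- values of the variables for a tuple per atom -/
abbrev nvv (i : ℕ) (y : XT φ V Nm k i) (v : At φ) (j : Fin s) : UT V Nm k :=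
  xv φ i y (Sum.inr (Sum.inl (v, j)))

/-- the meaning of the conditions -/
def gdT (T : Finset (Fin (s + 2) → UT V Nm k)) (x0 : XT φ V Nm k 0) : Prop :=
  sv φ 0 x0 0 = nu 0 →
  ((fun i => tvv φ 0 x0 i) ∈ T →
    ((∀ i, ∃ u, tvv φ 0 x0 (Fin.castAdd 2 i) = Sum.inl (ι u)) ∧
      tvv φ 0 x0 (Fin.natAdd s 0) = sv φ 0 x0 0 ∧ tvv φ 0 x0 (Fin.natAdd s 1) = sv φ 0 x0 0) ∨
    ((∀ i, tvv φ 0 x0 (Fin.castAdd 2 i) = sv φ 0 x0 0) ∧
      (∃ x, tvv φ 0 x0 (Fin.natAdd s 0) = nm x) ∧ ∃ i, tvv φ 0 x0 (Fin.natAdd s 1) = nu i)) ∧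
  (tp (fun _ => sv φ 0 x0 0) (sv φ 0 x0 2) (sv φ 0 x0 3) ∈ T → (∃ x, sv φ 0 x0 2 = nm x) →
    ((fun i => tvv φ 0 x0 i) ∈ T → (∃ x, tvv φ 0 x0 (Fin.natAdd s 0) = nm x) →
      tvv φ 0 x0 (Fin.natAdd s 1) = sv φ 0 x0 3 →
      tvv φ 0 x0 (Fin.natAdd s 0) = sv φ 0 x0 2) ∧
    ((fun i => tvv φ 0 x0 i) ∈ T → tvv φ 0 x0 (Fin.natAdd s 0) = sv φ 0 x0 0 →
      ¬ ∃ (z' : Fin s → V) (x : Nm) (i : Fin (k + 1)),
      ((∀ j, tvv φ 0 x0 (Fin.castAdd 2 j) = Sum.inl (z' j)) ∧ sv φ 0 x0 2 = nm x ∧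
        sv φ 0 x0 3 = nu i) ∧ T1 i x z'))

/-- the meaning of the second mode -/
def moT (x0 : XT φ V Nm k 0) : Prop := sv φ 0 x0 0 = nu 0 ∧ sv φ 0 x0 1 ≠ sv φ 0 x0 0

/-- the meaning of the conditions of the second mode -/
def hcT (T : Finset (Fin (s + 2) → UT V Nm k)) (x0 : XT φ V Nm k 0) (x1 : XT φ V Nm k 1) : Prop :=
  moT φ x0 → ((∃ i, sv φ 0 x0 3 = nu i) →
    (∃ x, sv φ 1 x1 1 = nm x) ∧ tp (fun _ => sv φ 0 x0 0) (sv φ 1 x1 1) (sv φ 0 x0 3) ∈ T) ∧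
  (bb = false → (∀ v i, ∃ u, nvv φ 0 x0 v i = Sum.inl (ι u)) →
    (∀ v, tp (fun i => nvv φ 0 x0 v i) (sv φ 0 x0 0) (sv φ 0 x0 0) ∉ T) →
    (∃ x, sv φ 1 x1 2 = nm x) ∧ tp (fun _ => sv φ 0 x0 0) (sv φ 1 x1 2) (sv φ 1 x1 3) ∈ T ∧
      ∀ v, ∃ (z' : Fin s → V) (x : Nm) (i : Fin (k + 1)),
      ((∀ j, nvv φ 0 x0 v j = Sum.inl (z' j)) ∧ sv φ 1 x1 2 = nm x ∧ sv φ 1 x1 3 = nu i) ∧
        T1 i x z')

/-- the names avoid the solution -/
def Av (S : Finset (Fin s → U)) (ν : Fin (k + 1) → Nm) : Prop :=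
  ∀ i, ∀ z ∈ S, ¬ T1 i (ν i) (fun j => ι (z j))

/-- the names cover the complement of the solution -/
def Cov (S : Finset (Fin s → U)) (ν : Fin (k + 1) → Nm) : Prop :=
  ∀ N : At φ → (Fin s → U), (∀ v, N v ∉ S) → ∃ i, ∀ v, T1 i (ν i) (fun j => ι (N v j))

/-- values of the additional variables -/
def FX (o μ x y : UT V Nm k) (c : Fin (s + 2) → UT V Nm k) (N : At φ → Fin s → UT V Nm k) :
    AX φ → UT V Nm k := Sum.elim c (Sum.elim (fun p => N p.1 p.2) ![o, μ, x, y])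

theorem dec [Fintype U] [Nonempty V] (T : Finset (Fin (s + 2) → UT V Nm k))
    (h0 : ∀ x0, gdT φ ι T1 T x0) (h1 : ∀ x0, ∃ x1, hcT φ bb ι T1 T x0 x1) :
    ∃ (S : Finset (Fin s → U)) (ν : Fin (k + 1) → Nm), T = enc ι S ν ∧ Av ι T1 S ν ∧
      (bb = false → Cov φ ι T1 S ν) := by
  obtain ⟨v0⟩ := ‹Nonempty V›
  -- the special block `0`
  let x0 : UT V Nm k → UT V Nm k → (Fin (s + 2) → UT V Nm k) → (At φ → Fin s → UT V Nm k) →
    XT φ V Nm k 0 := fun x y c N => mk φ 0 (fun _ => nu 0) (FX φ (nu 0) (Sum.inl v0) x y c N)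
  have e0 : ∀ x y c N, sv φ 0 (x0 x y c N) 0 = nu 0 := fun x y c N => xv_mk φ 0 _ _ _
  have e1 : ∀ x y c N, sv φ 0 (x0 x y c N) 1 = Sum.inl v0 := fun x y c N => xv_mk φ 0 _ _ _
  have e2 : ∀ x y c N, sv φ 0 (x0 x y c N) 2 = x := fun x y c N => xv_mk φ 0 _ _ _
  have e3 : ∀ x y c N, sv φ 0 (x0 x y c N) 3 = y := fun x y c N => xv_mk φ 0 _ _ _
  have e4 : ∀ x y c N i, tvv φ 0 (x0 x y c N) i = c i := fun x y c N i => xv_mk φ 0 _ _ _
  have e5 : ∀ x y c N v i, nvv φ 0 (x0 x y c N) v i = N v i := fun x y c N v i => xv_mk φ 0 _ _ _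
  have em : ∀ x y c N, moT φ (x0 x y c N) := by
    intro x y c N
    unfold moT
    rw [e0, e1]
    exact ⟨rfl, by simp⟩
  have Q1 : ∀ w ∈ T, (∃ z : Fin s → U, w = stp ι z) ∨ ∃ x i, w = ntp x i := by
    intro w hw
    have h2 := h0 (x0 (nu 0) (nu 0) w (fun _ _ => nu 0))
    unfold gdT at h2
    simp only [e0, e2, e3, e4] at h2
    rcases (h2 trivial).1 hw with ⟨h3, h4, h5⟩ | ⟨h3, ⟨x, h4⟩, ⟨i, h5⟩⟩
    · left
      choose z hz using h3
      refine ⟨z, ?_⟩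
      rw [← tp_eta w]
      unfold stp
      rw [tp_inj]
      exact ⟨funext hz, h4, h5⟩
    · right
      refine ⟨x, i, ?_⟩
      rw [← tp_eta w]
      unfold ntp
      rw [tp_inj]
      exact ⟨funext h3, h4, h5⟩
  have Q2 : ∀ x x' i, (ntp x i : Fin (s + 2) → UT V Nm k) ∈ T →
      (ntp x' i : Fin (s + 2) → UT V Nm k) ∈ T → x' = x := by
    intro x x' i hx hx'
    have h2 := h0 (x0 (nm x) (nu i) (ntp x' i) (fun _ _ => nu 0))
    unfold gdT at h2
    simp only [e0, e2, e3, e4] at h2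
    have h3 := ((h2 trivial).2 hx ⟨x, rfl⟩).1 hx'
    have h4 : (ntp x' i : Fin (s + 2) → UT V Nm k) (Fin.natAdd s 0) = nm x' := by
      simp [ntp, tp]
    have h5 : (ntp x' i : Fin (s + 2) → UT V Nm k) (Fin.natAdd s 1) = nu i := by
      simp [ntp, tp]
    rw [h4, h5] at h3
    exact Sum.inr_injective (Sum.inr_injective (h3 ⟨x', rfl⟩ rfl))
  have Q3 : ∀ (z : Fin s → U) x i, (stp ι z : Fin (s + 2) → UT V Nm k) ∈ T →
      (ntp x i : Fin (s + 2) → UT V Nm k) ∈ T → ¬ T1 i x (fun j => ι (z j)) := by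
    intro z x i hz hx hT
    have h2 := h0 (x0 (nm x) (nu i) (stp ι z) (fun _ _ => nu 0))
    unfold gdT at h2
    simp only [e0, e2, e3, e4] at h2
    have h3 := ((h2 trivial).2 hx ⟨x, rfl⟩).2 hz
    have h4 : (stp ι z : Fin (s + 2) → UT V Nm k) (Fin.natAdd s 0) = nu 0 := by
      simp [stp, tp]
    rw [h4] at h3
    apply h3 rfl
    refine ⟨fun j => ι (z j), x, i, ⟨fun j => ?_, rfl, rfl⟩, hT⟩
    simp [stp, tp]
  have Q4 : ∀ i : Fin (k + 1), ∃ x, (ntp x i : Fin (s + 2) → UT V Nm k) ∈ T := by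
    intro i
    obtain ⟨x1, hx1⟩ := h1 (x0 (nu 0) (nu i) (fun _ => nu 0) (fun _ _ => nu 0))
    unfold hcT at hx1
    simp only [e0, e3] at hx1
    obtain ⟨⟨x, hx⟩, h2⟩ := (hx1 (em _ _ _ _)).1 ⟨i, rfl⟩
    rw [hx] at h2
    exact ⟨x, h2⟩
  choose ν hν using Q4
  refine ⟨Finset.univ.filter (fun z => stp ι z ∈ T), ν, ?_, ?_, ?_⟩
  · ext w
    rw [mem_enc]
    constructor
    · intro hw
      rcases Q1 w hw with ⟨z, rfl⟩ | ⟨x, i, rfl⟩
      · exact Or.inl ⟨z, Finset.mem_filter.mpr ⟨Finset.mem_univ _, hw⟩, rfl⟩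
      · right
        refine ⟨i, ?_⟩
        rw [Q2 x (ν i) i hw (hν i)]
    · rintro (⟨z, hz, rfl⟩ | ⟨i, rfl⟩)
      · exact (Finset.mem_filter.mp hz).2
      · exact hν i
  · intro i z hz
    exact Q3 z (ν i) i (Finset.mem_filter.mp hz).2 (hν i)
  · intro hb N hN
    obtain ⟨x1, hx1⟩ := h1 (x0 (nu 0) (nu 0) (fun _ => nu 0) (fun v j => Sum.inl (ι (N v j))))
    unfold hcT at hx1
    simp only [e0, e3, e5] at hx1
    obtain ⟨⟨x, hx⟩, h2, h3⟩ := (hx1 (em _ _ _ _)).2 hb (fun v i => ⟨N v i, rfl⟩) (by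
      intro v hv
      exact hN v (Finset.mem_filter.mpr ⟨Finset.mem_univ _, hv⟩))
    rw [hx] at h2 h3
    rcases Q1 _ h2 with ⟨z, hz⟩ | ⟨x', i, hz⟩
    · unfold stp at hz
      rw [tp_inj] at hz
      exact absurd hz.2.1 (by simp)
    · have h4 := hz
      unfold ntp at hz
      rw [tp_inj] at hz
      have h5 : x = x' := Sum.inr_injective (Sum.inr_injective hz.2.1)
      subst h5
      rw [h4] at h2
      have h6 : ν i = x := Q2 x (ν i) i h2 (hν i)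
      refine ⟨i, fun v => ?_⟩
      obtain ⟨z', x', i', ⟨h7, h8, h9⟩, h10⟩ := h3 v
      have h11 : x = x' := Sum.inr_injective (Sum.inr_injective h8)
      have h12 : i = i' := by
        have := hz.2.2.symm.trans h9
        exact Sum.inl_injective (Sum.inr_injective this)
      have h13 : z' = fun j => ι (N v j) := by
        funext j
        exact (Sum.inl_injective (h7 j)).symm
      rw [h6, h11, h12, ← h13]
      exact h10

theorem cod (hι : Function.Injective ι) (S : Finset (Fin s → U)) (ν : Fin (k + 1) → Nm)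
    (hav : Av ι T1 S ν) (hcov : bb = false → Cov φ ι T1 S ν) :
    (∀ x0 : XT φ V Nm k 0, gdT φ ι T1 (enc ι S ν) x0) ∧
      ∀ x0 : XT φ V Nm k 0, ∃ x1, hcT φ bb ι T1 (enc ι S ν) x0 x1 := by
  constructor
  · intro x0 ho
    rw [ho]
    have hc : ∀ w : Fin (s + 2) → UT V Nm k, w = tp (fun j => w (Fin.castAdd 2 j))
        (w (Fin.natAdd s 0)) (w (Fin.natAdd s 1)) := fun w => (tp_eta w).symm
    refine ⟨fun h => ?_, fun h1 h2 => ⟨fun h3 h4 h5 => ?_, fun h3 h4 => ?_⟩⟩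
    · rcases (mem_enc ι S ν _).mp h with ⟨z, -, hz⟩ | ⟨i, hi⟩
      · left
        rw [hc (fun i => tvv φ 0 x0 i)] at hz
        unfold stp at hz
        rw [tp_inj] at hz
        exact ⟨fun j => ⟨z j, congrFun hz.1 j⟩, hz.2.1, hz.2.2⟩
      · right
        rw [hc (fun i => tvv φ 0 x0 i)] at hi
        unfold ntp at hi
        rw [tp_inj] at hi
        exact ⟨fun j => congrFun hi.1 j, ⟨_, hi.2.1⟩, ⟨_, hi.2.2⟩⟩
    · obtain ⟨x, hx⟩ := h2
      rw [hx] at h1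
      obtain ⟨i, hi1, hi2⟩ := (mem_enc_n ι S ν x _).mp h1
      obtain ⟨x', hx'⟩ := h4
      rcases (mem_enc ι S ν _).mp h3 with ⟨z, -, hz⟩ | ⟨i', hi'⟩
      · rw [hc (fun i => tvv φ 0 x0 i)] at hz
        unfold stp at hz
        rw [tp_inj] at hz
        rw [hz.2.1] at hx'
        exact absurd hx' (by simp)
      · rw [hc (fun i => tvv φ 0 x0 i)] at hi'
        unfold ntp at hi'
        rw [tp_inj] at hi'
        have e1 : i' = i := by
          have := (hi'.2.2.symm.trans h5).trans hi2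
          exact Sum.inl_injective (Sum.inr_injective this)
        rw [hx, hi1, ← e1]
        exact hi'.2.1
    · rintro ⟨z', x, i, ⟨h5, h6, h7⟩, h8⟩
      rw [h6, h7] at h1
      obtain ⟨i', hi1, hi2⟩ := (mem_enc_n ι S ν x _).mp h1
      have e1 : i = i' := Sum.inl_injective (Sum.inr_injective hi2)
      subst e1
      rcases (mem_enc ι S ν _).mp h3 with ⟨z, hzS, hz⟩ | ⟨i', hi'⟩
      · rw [hc (fun i => tvv φ 0 x0 i)] at hz
        unfold stp at hz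
        rw [tp_inj] at hz
        have e2 : z' = fun j => ι (z j) := by
          funext j
          exact Sum.inl_injective ((h5 j).symm.trans (congrFun hz.1 j))
        rw [hi1, e2] at h8
        exact hav i z hzS h8
      · rw [hc (fun i => tvv φ 0 x0 i)] at hi'
        unfold ntp at hi'
        rw [tp_inj] at hi'
        have := h4.symm.trans hi'.2.1
        exact absurd this (by simp)
  · intro x0
    by_cases hmo : moT φ x0
    swap
    · exact ⟨fun _ => nu 0, fun h => absurd h hmo⟩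
    have ho := hmo.1
    -- a name for the number
    have h1 : ∃ x : UT V Nm k, (∃ i, sv φ 0 x0 3 = nu i) →
        (∃ x', x = nm x') ∧ tp (fun _ => sv φ 0 x0 0) x (sv φ 0 x0 3) ∈ enc ι S ν := by
      by_cases h : ∃ i, sv φ 0 x0 3 = nu i
      · obtain ⟨i, hi⟩ := h
        refine ⟨nm (ν i), fun _ => ⟨⟨ν i, rfl⟩, ?_⟩⟩
        rw [ho, hi]
        exact (mem_enc_n ι S ν (ν i) _).mpr ⟨i, rfl, rfl⟩
      · exact ⟨nu 0, fun h' => absurd h' h⟩
    obtain ⟨x1, hx1⟩ := h1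
    have h2 : ∃ x y : UT V Nm k, bb = false → (∀ v i, ∃ u, nvv φ 0 x0 v i = Sum.inl (ι u)) →
        (∀ v, tp (fun i => nvv φ 0 x0 v i) (sv φ 0 x0 0) (sv φ 0 x0 0) ∉ enc ι S ν) →
        (∃ x', x = nm x') ∧ tp (fun _ => sv φ 0 x0 0) x y ∈ enc ι S ν ∧
        ∀ v, ∃ (z' : Fin s → V) (x' : Nm) (i : Fin (k + 1)),
        ((∀ j, nvv φ 0 x0 v j = Sum.inl (z' j)) ∧ x = nm x' ∧ y = nu i) ∧ T1 i x' z' := by
      by_cases h : bb = false ∧ (∀ v i, ∃ u, nvv φ 0 x0 v i = Sum.inl (ι u)) ∧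
        (∀ v, tp (fun i => nvv φ 0 x0 v i) (sv φ 0 x0 0) (sv φ 0 x0 0) ∉ enc ι S ν)
      · obtain ⟨h3, h4, h5⟩ := h
        choose N hN using h4
        obtain ⟨i, hi⟩ := hcov h3 N (by
          intro v hv
          apply h5 v
          rw [ho]
          have : tp (fun i => nvv φ 0 x0 v i) (nu 0) (nu 0) =
              (stp ι (N v) : Fin (s + 2) → UT V Nm k) := by
            unfold stp
            rw [tp_inj]
            exact ⟨funext fun j => hN v j, rfl, rfl⟩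
          rw [this]
          exact (mem_enc_s ι hι S ν (N v)).mpr hv)
        refine ⟨nm (ν i), nu i, fun _ _ _ => ⟨⟨ν i, rfl⟩, ?_, fun v => ?_⟩⟩
        · rw [ho]
          exact (mem_enc_n ι S ν (ν i) _).mpr ⟨i, rfl, rfl⟩
        · exact ⟨_, ν i, i, ⟨fun j => hN v j, rfl, rfl⟩, hi v⟩
      · exact ⟨nu 0, nu 0, fun a b c => absurd ⟨a, b, c⟩ h⟩
    obtain ⟨x2, y2, hxy⟩ := h2
    refine ⟨mk φ 1 (fun _ => nu 0) (FX φ (nu 0) x1 x2 y2 (fun _ => nu 0) (fun _ _ => nu 0)),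
      fun _ => ?_⟩
    have e1 : sv φ 1 (mk φ 1 (fun _ => nu 0)
        (FX φ (nu 0) x1 x2 y2 (fun _ => nu 0) (fun _ _ => nu 0)) : XT φ V Nm k 1) 1 = x1 :=
      xv_mk φ 1 _ _ _
    have e2 : sv φ 1 (mk φ 1 (fun _ => nu 0)
        (FX φ (nu 0) x1 x2 y2 (fun _ => nu 0) (fun _ _ => nu 0)) : XT φ V Nm k 1) 2 = x2 :=
      xv_mk φ 1 _ _ _
    have e3 : sv φ 1 (mk φ 1 (fun _ => nu 0)
        (FX φ (nu 0) x1 x2 y2 (fun _ => nu 0) (fun _ _ => nu 0)) : XT φ V Nm k 1) 3 = y2 :=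
      xv_mk φ 1 _ _ _
    rw [e1, e2, e3]
    exact ⟨hx1, hxy⟩

end

end

end Pool.Agent.Helper265_EW.T
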