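import Pool.Agent.Helper265_EW.TFin
import Pool.Agent.H592R2.Prob

set_option linter.unusedSectionVars false

/-! Existence of small tables. -/

namespace Pool.Agent.Helper265_EW.T

open Finset Classical Pool.Agent.H592R2

noncomputable section

lemma pow_bern (a n : ℕ) : a ^ (n + 1) + (n + 1) * a ^ n ≤ (a + 1) ^ (n + 1) := by
  induction n with
  | zero => simp
  | succ n ih =>
    calc a ^ (n + 1 + 1) + (n + 1 + 1) * a ^ (n + 1) ≤ (a + 1) * (a ^ (n + 1) + (n + 1) * a ^ n) := by
          have : (a + 1) * (a ^ (n + 1) + (n + 1) * a ^ n) =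
              a ^ (n + 1 + 1) + (n + 1 + 1) * a ^ (n + 1) + (n + 1) * a ^ n := by ring
          omega
      _ ≤ (a + 1) * (a + 1) ^ (n + 1) := Nat.mul_le_mul_left _ ih
      _ = _ := by ring

lemma two_pow_le (D0 : ℕ) (hD : 1 ≤ D0) : 2 * (D0 - 1) ^ D0 ≤ D0 ^ D0 := by
  obtain ⟨a, rfl⟩ : ∃ a, D0 = a + 1 := ⟨D0 - 1, by omega⟩
  have h := pow_bern a a
  simp only [Nat.add_sub_cancel]
  calc 2 * a ^ (a + 1) = a ^ (a + 1) + a ^ (a + 1) := by ring
    _ ≤ a ^ (a + 1) + (a + 1) * a ^ a := by
        apply Nat.add_le_add_left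
        calc a ^ (a + 1) = a * a ^ a := by ring
          _ ≤ (a + 1) * a ^ a := Nat.mul_le_mul_right _ (by omega)
    _ ≤ _ := h

/-- a table avoiding all bad events -/
theorem exists_table {B E : Type} [Fintype B] [Nonempty B] [Fintype E] (bad : E → Finset B)
    (D0 y x : ℕ) (hx : x = D0 * y) (hD : 1 ≤ D0)
    (hbad : ∀ e, (bad e).card * D0 ≤ (D0 - 1) * Fintype.card B)
    (hE : Fintype.card E < 2 ^ y) :
    ∃ T : Fin x → B, ∀ e, ∃ x, T x ∉ bad e := by
  by_contra hcon
  push Not at hcon
  have hsub : (Finset.univ : Finset (Fin x → B)) ⊆ (Finset.univ : Finset E).biUnion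
      (fun e => Fintype.piFinset (fun _ : Fin x => bad e)) := by
    intro T _
    obtain ⟨e, he⟩ := hcon T
    exact Finset.mem_biUnion.mpr ⟨e, Finset.mem_univ _, Fintype.mem_piFinset.mpr he⟩
  have hc : Fintype.card B ^ x ≤ ∑ e : E, (bad e).card ^ x := by
    calc Fintype.card B ^ x = (Finset.univ : Finset (Fin x → B)).card := by
          rw [Finset.card_univ, Fintype.card_fun, Fintype.card_fin]
      _ ≤ _ := Finset.card_le_card hsub
      _ ≤ ∑ e : E, (Fintype.piFinset (fun _ : Fin x => bad e)).card := Finset.card_biUnion_le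
      _ = _ := by
          apply Finset.sum_congr rfl
          intro e _
          rw [Fintype.card_piFinset, Finset.prod_const, Finset.card_univ, Fintype.card_fin]
  have hc2 : D0 ^ x * Fintype.card B ^ x ≤
      (Fintype.card E * (D0 - 1) ^ x) * Fintype.card B ^ x := by
    calc D0 ^ x * Fintype.card B ^ x = Fintype.card B ^ x * D0 ^ x := mul_comm _ _
      _ ≤ (∑ e : E, (bad e).card ^ x) * D0 ^ x := Nat.mul_le_mul_right _ hc
      _ = ∑ e : E, ((bad e).card * D0) ^ x := by rw [Finset.sum_mul]; simp only [mul_pow]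
      _ ≤ ∑ _e : E, ((D0 - 1) * Fintype.card B) ^ x :=
          Finset.sum_le_sum fun e _ => Nat.pow_le_pow_left (hbad e) x
      _ = Fintype.card E * ((D0 - 1) * Fintype.card B) ^ x := by
          rw [Finset.sum_const, Finset.card_univ, smul_eq_mul]
      _ = _ := by rw [mul_pow]; ring
  have hB : 0 < Fintype.card B ^ x := Nat.pow_pos Fintype.card_pos
  have hc3 : D0 ^ x ≤ Fintype.card E * (D0 - 1) ^ x := Nat.le_of_mul_le_mul_right hc2 hB
  have hD2 : 2 ^ y * (D0 - 1) ^ x ≤ D0 ^ x := by
    rw [hx, pow_mul, pow_mul, ← mul_pow]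
    exact Nat.pow_le_pow_left (two_pow_le D0 hD) y
  rcases Nat.eq_zero_or_pos ((D0 - 1) ^ x) with h0 | h0
  · rw [h0, mul_zero] at hc3
    have : 0 < D0 ^ x := Nat.pow_pos hD
    omega
  · have := Nat.mul_lt_mul_of_pos_right hE h0
    omega

lemma avg_ind {Ω : Type} [Fintype Ω] (p : Ω → Prop) :
    avg (fun ω => ind (p ω)) = ((Finset.univ.filter p).card : ℝ) / Fintype.card Ω := by
  unfold avg ind
  rw [Finset.sum_boole]

lemma bad_of_avg {Ω : Type} [Fintype Ω] [Nonempty Ω] (p : Ω → Prop) (D0 : ℕ) (hD : 1 ≤ D0)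
    (h : 1 / (D0 : ℝ) ≤ avg (fun ω => ind (p ω))) :
    (Finset.univ.filter (fun ω => ¬ p ω)).card * D0 ≤ (D0 - 1) * Fintype.card Ω := by
  rw [avg_ind] at h
  have hD' : (0 : ℝ) < D0 := by exact_mod_cast hD
  have hO : (0 : ℝ) < Fintype.card Ω := by exact_mod_cast Fintype.card_pos
  rw [div_le_div_iff₀ hD' hO] at h
  have h1 : Fintype.card Ω ≤ (Finset.univ.filter p).card * D0 := by
    have : (1 : ℝ) * (Fintype.card Ω : ℝ) ≤ ((Finset.univ.filter p).card : ℝ) * (D0 : ℝ) := h
    rw [one_mul] at this
    exact_mod_cast this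
  have h2 : (Finset.univ.filter p).card + (Finset.univ.filter (fun ω => ¬ p ω)).card =
      Fintype.card Ω := by
    rw [Finset.card_filter_add_card_filter_not, Finset.card_univ]
  obtain ⟨a, rfl⟩ : ∃ a, D0 = a + 1 := ⟨D0 - 1, by omega⟩
  simp only [Nat.add_sub_cancel]
  nlinarith

section Un

variable {W : Type} [Fintype W]

/-- the set listed by a function -/
def im {k : ℕ} (p : Fin k → Option W) : Finset W :=
  (Finset.univ : Finset (Fin k)).biUnion (fun i => (p i).toFinset)

lemma im_card {k : ℕ} (p : Fin k → Option W) : (im p).card ≤ k := by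
  unfold im
  refine Finset.card_biUnion_le.trans ?_
  refine (Finset.sum_le_card_nsmul _ _ 1 fun i _ => ?_).trans ?_
  · cases p i <;> simp
  · simp

lemma ex_im {k : ℕ} (P : Finset W) (hP : P.card ≤ k) : ∃ p : Fin k → Option W, im p = P := by
  refine ⟨fun i => if h : i.val < P.card then some (P.equivFin.symm ⟨i.val, h⟩).1 else none, ?_⟩
  ext w
  unfold im
  simp only [Finset.mem_biUnion, Finset.mem_univ, true_and, Option.mem_toFinset, Option.mem_def]
  constructor
  · rintro ⟨i, hi⟩
    split_ifs at hi with h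
    rw [← Option.some_injective _ hi]
    exact (P.equivFin.symm ⟨i.val, h⟩).2
  · intro hw
    refine ⟨⟨(P.equivFin ⟨w, hw⟩).val, lt_of_lt_of_le (P.equivFin ⟨w, hw⟩).2 hP⟩, ?_⟩
    rw [dif_pos (P.equivFin ⟨w, hw⟩).2]
    simp

lemma half_box (F : Finset W) (a : W → Bool) :
    avg (fun f : W → Bool => ind (∀ w ∈ F, f w ∈ ({a w} : Finset Bool))) =
      (1 / 2 : ℝ) ^ F.card := by
  rw [avg_box (T := fun _ : W => Bool) F (fun w => {a w})]
  simp [Finset.prod_const]

theorem uni_exists (k c y : ℕ) (hy : (Fintype.card W + 1) ^ ((c + 1) * k) < 2 ^ y) :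
    ∃ T2 : Fin (2 ^ ((c + 1) * k) * y) → W → Prop, Uni T2 k c := by
  obtain ⟨D0, hD0⟩ : ∃ D0, D0 = 2 ^ ((c + 1) * k) := ⟨_, rfl⟩
  have hD : 1 ≤ D0 := by rw [hD0]; exact Nat.one_le_two_pow
  rw [← hD0]
  obtain ⟨T, hT⟩ := exists_table (B := W → Bool)
    (E := (Fin k → Option W) × (Fin (c * k) → Option W))
    (fun e => if Disjoint (im e.1) (im e.2) then Finset.univ.filter
      (fun f : W → Bool => ¬ ((∀ w ∈ im e.2, f w = true) ∧ ∀ w ∈ im e.1, f w = false))
      else ∅) D0 y (D0 * y) rfl hD
    (by
      rintro ⟨p, q⟩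
      simp only
      split_ifs with hd
      swap
      · simp
      have key := bad_of_avg (fun f : W → Bool => (∀ w ∈ im q, f w = true) ∧
        ∀ w ∈ im p, f w = false) D0 hD
      refine le_trans (le_of_eq ?_) (key ?_)
      · congr 2
        ext f
        simp only [Finset.mem_filter]
      have h1 : (fun f : W → Bool => ind ((∀ w ∈ im q, f w = true) ∧ ∀ w ∈ im p, f w = false)) =
          fun f : W → Bool => ind (∀ w ∈ im p ∪ im q, f w ∈ ({decide (w ∈ im q)} :
            Finset Bool)) := by
        funext f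
        congr 1
        apply propext
        simp only [Finset.mem_singleton, Finset.mem_union]
        constructor
        · rintro ⟨h2, h3⟩ w hw
          by_cases hwq : w ∈ im q
          · rw [h2 w hwq]
            exact (decide_eq_true hwq).symm
          · rw [h3 w (hw.resolve_right hwq)]
            exact (decide_eq_false hwq).symm
        · intro h2
          refine ⟨fun w hw => ?_, fun w hw => ?_⟩
          · rw [h2 w (Or.inr hw)]
            exact decide_eq_true hw
          · rw [h2 w (Or.inl hw)]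
            exact decide_eq_false (fun h => Finset.disjoint_left.mp hd hw h)
      rw [h1, half_box]
      have h2 : (im p ∪ im q).card ≤ (c + 1) * k := by
        refine (Finset.card_union_le _ _).trans ?_
        have := im_card p
        have := im_card q
        calc _ ≤ k + c * k := Nat.add_le_add (im_card p) (im_card q)
          _ = (c + 1) * k := by ring
      rw [hD0]
      push_cast
      rw [← one_div_pow]
      exact pow_le_pow_of_le_one (by norm_num) (by norm_num) h2)
    (by
      rw [Fintype.card_prod, Fintype.card_fun, Fintype.card_fun, Fintype.card_fin,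
        Fintype.card_fin, Fintype.card_option, ← pow_add]
      have : k + c * k = (c + 1) * k := by ring
      rw [this]
      exact hy)
  refine ⟨fun x w => T x w = true, fun P N hPN hP hN => ?_⟩
  obtain ⟨p, rfl⟩ := ex_im P hP
  obtain ⟨q, rfl⟩ := ex_im N hN
  obtain ⟨x, hx⟩ := hT (p, q)
  simp only at hx
  rw [if_pos hPN, Finset.mem_filter] at hx
  push Not at hx
  obtain ⟨h1, h2⟩ := hx (Finset.mem_univ _)
  refine ⟨x, h1, fun w hw => ?_⟩
  change ¬ T x w = true
  rw [h2 w hw]
  simp

end Un

section Cv

variable {W : Type} [Fintype W] {b L : ℕ} [NeZero b]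

/-- the tuples missed -/
def miss (R : Finset (Fin L → W)) (f : W → Fin b) : Finset (Fin L → W) :=
  R.filter (fun N => ∃ l, f (N l) = 0)

lemma zero_box (F : Finset W) :
    avg (fun f : W → Fin b => ind (∀ w ∈ F, f w = 0)) = (1 / b : ℝ) ^ F.card := by
  have h1 : (fun f : W → Fin b => ind (∀ w ∈ F, f w = 0)) =
      fun f : W → Fin b => ind (∀ w ∈ F, f w ∈ ({0} : Finset (Fin b))) := by
    funext f
    simp only [Finset.mem_singleton]
  rw [h1, avg_box (T := fun _ : W => Fin b) F (fun _ => {0})]
  simp [Finset.prod_const]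

lemma cov_step {k : ℕ} (S : Finset W) (hS : S.card ≤ k) (R : Finset (Fin L → W))
    (hR : ∀ N ∈ R, ∀ l, N l ∉ S) :
    1 / ((2 * b ^ k : ℕ) : ℝ) ≤ avg (fun f : W → Fin b => ind ((∀ w ∈ S, f w = 0) ∧
      (miss R f).card * b ≤ 2 * L * R.card)) := by
  have hb : (0 : ℝ) < b := by exact_mod_cast Nat.pos_of_ne_zero (NeZero.ne b)
  have hb1 : (1 : ℝ) ≤ b := by exact_mod_cast Nat.one_le_iff_ne_zero.mpr (NeZero.ne b)
  obtain ⟨β, hβ⟩ : ∃ β : ℝ, β = (1 / b : ℝ) ^ S.card := ⟨_, rfl⟩
  have hβ0 : 0 < β := by rw [hβ]; positivity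
  have hβk : 1 / ((2 * b ^ k : ℕ) : ℝ) ≤ β / 2 := by
    push_cast
    have h1 : (1 / b : ℝ) ^ k ≤ β := by
      rw [hβ]
      apply pow_le_pow_of_le_one (by positivity) _ hS
      rw [div_le_one hb]
      exact hb1
    have h2 : 1 / (2 * (b : ℝ) ^ k) = (1 / b : ℝ) ^ k / 2 := by
      rw [one_div_pow]
      field_simp
    rw [h2]
    linarith
  refine hβk.trans ?_
  have hG : avg (fun f : W → Fin b => ind (∀ w ∈ S, f w = 0)) = β := by
    rw [zero_box, hβ]
  by_cases hRL : L * R.card = 0
  · have hm : ∀ f : W → Fin b, (miss R f).card * b ≤ 2 * L * R.card := by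
      intro f
      have : miss R f = ∅ := by
        rcases Nat.mul_eq_zero.mp hRL with h | h
        · subst h
          unfold miss
          apply Finset.filter_eq_empty_iff.mpr
          rintro N - ⟨l, -⟩
          exact l.elim0
        · rw [Finset.card_eq_zero] at h
          rw [h]
          rfl
      rw [this]
      simp
    have h1 : (fun f : W → Fin b => ind ((∀ w ∈ S, f w = 0) ∧
        (miss R f).card * b ≤ 2 * L * R.card)) =
        fun f : W → Fin b => ind (∀ w ∈ S, f w = 0) := by
      funext f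
      congr 1
      apply propext
      exact ⟨fun h => h.1, fun h => ⟨h, hm f⟩⟩
    rw [h1, hG]
    linarith
  · have hpos : (0 : ℝ) < L * R.card := by
      have : 0 < L * R.card := Nat.pos_of_ne_zero hRL
      exact_mod_cast this
    -- the expected number of missed tuples
    have hM : avg (fun f : W → Fin b => ind (∀ w ∈ S, f w = 0) * ((miss R f).card : ℝ)) ≤
        L * R.card * (β / b) := by
      have h1 : ∀ f : W → Fin b, ind (∀ w ∈ S, f w = 0) * ((miss R f).card : ℝ) ≤
          ∑ N ∈ R, ∑ l : Fin L, ind (∀ w ∈ insert (N l) S, f w = 0) := by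
        intro f
        have e1 : ((miss R f).card : ℝ) = ∑ N ∈ R, ind (∃ l, f (N l) = 0) := by
          unfold miss ind
          rw [Finset.card_filter]
          push_cast
          apply Finset.sum_congr rfl
          intro N _
          split_ifs <;> rfl
        rw [e1, Finset.mul_sum]
        apply Finset.sum_le_sum
        intro N _
        by_cases h2 : (∀ w ∈ S, f w = 0) ∧ ∃ l, f (N l) = 0
        · obtain ⟨h3, l, hl⟩ := h2
          have h4 : ind (∀ w ∈ insert (N l) S, f w = 0) = 1 := by
            apply ind_true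
            intro w hw
            rcases Finset.mem_insert.mp hw with rfl | hw
            · exact hl
            · exact h3 w hw
          have h5 : ind (∀ w ∈ S, f w = 0) * ind (∃ l, f (N l) = 0) ≤ 1 := by
            have a1 := ind_le_one (∀ w ∈ S, f w = 0)
            have a2 := ind_le_one (∃ l, f (N l) = 0)
            have a3 := ind_nonneg (∀ w ∈ S, f w = 0)
            have a4 := ind_nonneg (∃ l, f (N l) = 0)
            nlinarith
          refine h5.trans ?_
          rw [← h4]
          exact Finset.single_le_sum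
            (f := fun l : Fin L => ind (∀ w ∈ insert (N l) S, f w = 0))
            (fun l _ => ind_nonneg _) (Finset.mem_univ l)
        · have h3 : ind (∀ w ∈ S, f w = 0) * ind (∃ l, f (N l) = 0) = 0 := by
            rcases not_and_or.mp h2 with h | h
            · rw [ind_false h, zero_mul]
            · rw [ind_false h, mul_zero]
          rw [h3]
          exact Finset.sum_nonneg fun l _ => ind_nonneg _
      refine (avg_mono h1).trans ?_
      rw [avg_sum]
      have h2 : ∀ N ∈ R, avg (fun f : W → Fin b =>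
          ∑ l : Fin L, ind (∀ w ∈ insert (N l) S, f w = 0)) = L * (β / b) := by
        intro N hN
        rw [avg_sum]
        have h3 : ∀ l ∈ (Finset.univ : Finset (Fin L)),
            avg (fun f : W → Fin b => ind (∀ w ∈ insert (N l) S, f w = 0)) = β / b := by
          intro l _
          rw [zero_box, Finset.card_insert_of_notMem (hR N hN l), pow_succ, hβ]
          ring
        rw [Finset.sum_congr rfl h3]
        simp
      rw [Finset.sum_congr rfl h2]
      simp only [Finset.sum_const, nsmul_eq_mul]
      apply le_of_eq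
      ring
    have h1 : ∀ f : W → Fin b, ind (∀ w ∈ S, f w = 0) ≤ ind ((∀ w ∈ S, f w = 0) ∧
        (miss R f).card * b ≤ 2 * L * R.card) +
        ind (∀ w ∈ S, f w = 0) * ((miss R f).card : ℝ) * (b / (2 * (L * R.card))) := by
      intro f
      by_cases h2 : ∀ w ∈ S, f w = 0
      · by_cases h3 : (miss R f).card * b ≤ 2 * L * R.card
        · rw [ind_true h2, ind_true ⟨h2, h3⟩]
          have : (0 : ℝ) ≤ 1 * ((miss R f).card : ℝ) * (b / (2 * (L * R.card))) := by positivity
          linarith
        · rw [ind_true h2, ind_false (fun h => h3 h.2)]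
          push Not at h3
          have h4 : (2 * L * R.card : ℝ) < (miss R f).card * b := by exact_mod_cast h3
          have h5 : (1 : ℝ) ≤ ((miss R f).card : ℝ) * (b / (2 * (L * R.card))) := by
            rw [mul_div_assoc', le_div_iff₀ (by positivity)]
            linarith
          linarith
      · rw [ind_false h2]
        have := ind_nonneg ((∀ w ∈ S, f w = 0) ∧ (miss R f).card * b ≤ 2 * L * R.card)
        linarith
    have h2 := avg_mono h1
    rw [hG, avg_add, avg_mul_const] at h2
    have h3 : avg (fun f : W → Fin b => ind (∀ w ∈ S, f w = 0) * ((miss R f).card : ℝ)) *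
        (b / (2 * (L * R.card))) ≤ β / 2 := by
      calc _ ≤ (L * R.card * (β / b)) * (b / (2 * (L * R.card))) :=
            mul_le_mul_of_nonneg_right hM (by positivity)
        _ = β / 2 := by
          field_simp
          try exact div_self hpos.ne'
    linarith

lemma ex_fn {k : ℕ} (S : Finset W) (hS : S.card = k) :
    ∃ p : Fin k → W, Finset.univ.image p = S := by
  have e := (S.equivFinOfCardEq hS).symm
  refine ⟨fun i => (e i).1, ?_⟩
  ext w
  simp only [Finset.mem_image, Finset.mem_univ, true_and]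
  constructor
  · rintro ⟨i, rfl⟩
    exact (e i).2
  · intro hw
    exact ⟨e.symm ⟨w, hw⟩, by rw [Equiv.apply_symm_apply]⟩

/-- the tuples missed by all names -/
def rem {x : ℕ} (f : ℕ → Fin x → W → Fin b) {j : ℕ} (ν : Fin j → Fin x) (S : Finset W) :
    Finset (Fin L → W) :=
  Finset.univ.filter (fun N => (∀ l, N l ∉ S) ∧ ∀ i : Fin j, ∃ l, f i (ν i) (N l) = 0)

theorem cov_ind (k y x : ℕ) (hx : x = 2 * b ^ k * y) (hx1 : 1 ≤ x)
    (hE : Fintype.card W ^ k * x ^ k < 2 ^ y) (j : ℕ) (hj : j ≤ k + 1) :
    ∃ f : ℕ → Fin x → W → Fin b, ∀ S : Finset W, S.card = k → ∃ ν : Fin j → Fin x,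
      (∀ i : Fin j, ∀ w ∈ S, f i (ν i) w = 0) ∧
      (rem (L := L) f ν S).card * b ^ j ≤ (2 * L) ^ j * Fintype.card W ^ L := by
  have hD : 1 ≤ 2 * b ^ k := Nat.mul_pos (by norm_num) (Nat.pow_pos (Nat.pos_of_ne_zero (NeZero.ne b)))
  induction j with
  | zero =>
    refine ⟨fun _ _ _ => 0, fun S _ => ⟨fun i => i.elim0, fun i => i.elim0, ?_⟩⟩
    rw [pow_zero, pow_zero, mul_one, one_mul]
    refine (Finset.card_filter_le _ _).trans ?_
    rw [Finset.card_univ, Fintype.card_fun, Fintype.card_fin]
  | succ j ih =>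
    obtain ⟨f, hf⟩ := ih (by omega)
    have hy : ∃ T : Fin x → (W → Fin b), ∀ e : (Fin k → W) × (Fin j → Fin x), ∃ a,
        T a ∉ (Finset.univ.filter (fun h : W → Fin b =>
          ¬ ((∀ w ∈ Finset.univ.image e.1, h w = 0) ∧
            (miss (rem (L := L) f e.2 (Finset.univ.image e.1)) h).card * b ≤
              2 * L * (rem (L := L) f e.2 (Finset.univ.image e.1)).card)) :
                Finset (W → Fin b)) := by
      exact exists_table _ (2 * b ^ k) y x hx hD (fun e => by
        have h1 := cov_step (b := b) (L := L) (k := k) (Finset.univ.image e.1)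
          (Finset.card_image_le.trans (by simp))
          (rem (L := L) f e.2 (Finset.univ.image e.1)) (fun N hN l => by
            unfold rem at hN
            exact (Finset.mem_filter.mp hN).2.1 l)
        refine le_trans (le_of_eq ?_) (bad_of_avg _ _ hD h1)
        congr 2
        ext f
        simp only [Finset.mem_filter]) (by
        rw [Fintype.card_prod, Fintype.card_fun, Fintype.card_fun, Fintype.card_fin,
          Fintype.card_fin, Fintype.card_fin]
        refine lt_of_le_of_lt ?_ hE
        apply Nat.mul_le_mul_left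
        exact Nat.pow_le_pow_right (by omega) (by omega))
    obtain ⟨T, hT⟩ := hy
    refine ⟨Function.update f j T, fun S hS => ?_⟩
    obtain ⟨ν, hν1, hν2⟩ := hf S hS
    obtain ⟨p, hp⟩ := ex_fn S hS
    obtain ⟨a, ha⟩ := hT (p, ν)
    simp only at ha
    rw [hp, Finset.mem_filter] at ha
    have ha' : (∀ w ∈ S, T a w = 0) ∧ (miss (rem (L := L) f ν S) (T a)).card * b ≤
        2 * L * (rem (L := L) f ν S).card := by
      by_contra hcon
      exact ha ⟨Finset.mem_univ _, hcon⟩
    obtain ⟨ha1, ha2⟩ := ha'
    have hup : ∀ i : Fin (j + 1), ∀ h : i.val < j, Function.update f j T i = f i := by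
      intro i h
      exact Function.update_of_ne (by omega) _ _
    refine ⟨fun i => if h : i.val < j then ν ⟨i.val, h⟩ else a, fun i w hw => ?_, ?_⟩
    · by_cases h : i.val < j
      · simp only [dif_pos h]
        rw [hup i h]
        exact hν1 ⟨i.val, h⟩ w hw
      · simp only [dif_neg h]
        have : i.val = j := by omega
        rw [this, Function.update_self]
        exact ha1 w hw
    · have hsub : (rem (L := L) (Function.update f j T)
          (fun i : Fin (j + 1) => if h : i.val < j then ν ⟨i.val, h⟩ else a) S) ⊆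
          miss (rem (L := L) f ν S) (T a) := by
        intro N hN
        unfold rem at hN
        obtain ⟨-, h1, h2⟩ := Finset.mem_filter.mp hN
        unfold miss rem
        refine Finset.mem_filter.mpr ⟨Finset.mem_filter.mpr ⟨Finset.mem_univ _, h1,
          fun i => ?_⟩, ?_⟩
        · have h3 := h2 i.castSucc
          have h4 : (i.castSucc : Fin (j + 1)).val < j := i.2
          simp only [dif_pos h4] at h3
          rw [hup _ h4] at h3
          exact h3
        · have h3 := h2 (Fin.last j)
          have h4 : ¬ (Fin.last j).val < j := by simp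
          simp only [dif_neg h4] at h3
          rw [Fin.val_last, Function.update_self] at h3
          exact h3
      calc _ ≤ (miss (rem (L := L) f ν S) (T a)).card * b ^ (j + 1) :=
            Nat.mul_le_mul_right _ (Finset.card_le_card hsub)
        _ = ((miss (rem (L := L) f ν S) (T a)).card * b) * b ^ j := by ring
        _ ≤ (2 * L * (rem (L := L) f ν S).card) * b ^ j := Nat.mul_le_mul_right _ ha2
        _ = (2 * L) * ((rem (L := L) f ν S).card * b ^ j) := by ring
        _ ≤ (2 * L) * ((2 * L) ^ j * Fintype.card W ^ L) := Nat.mul_le_mul_left _ hν2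
        _ = _ := by ring

theorem cov_exists (k y x : ℕ) (hx : x = 2 * b ^ k * y) (hx1 : 1 ≤ x) (hL : 1 ≤ L)
    (hE : Fintype.card W ^ k * x ^ k < 2 ^ y)
    (hb : (2 * L) ^ (k + 1) * Fintype.card W ^ L < b ^ (k + 1)) :
    ∃ T1 : Fin (k + 1) → Fin x → W → Prop, CovT T1 L := by
  obtain ⟨f, hf⟩ := cov_ind (b := b) (L := L) (W := W) k y x hx hx1 hE (k + 1) le_rfl
  refine ⟨fun i a w => f i a w ≠ 0, fun S hS => ?_⟩
  obtain ⟨ν, hν1, hν2⟩ := hf S hS
  refine ⟨ν, fun i w hw h => h (hν1 i w hw), fun N hN hNc => ?_⟩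
  have hemp : rem (L := L) f ν S = ∅ := by
    rw [← Finset.card_eq_zero]
    by_contra hne
    have : 1 ≤ (rem (L := L) f ν S).card := Nat.one_le_iff_ne_zero.mpr hne
    have h1 : b ^ (k + 1) ≤ (rem (L := L) f ν S).card * b ^ (k + 1) :=
      Nat.le_mul_of_pos_left _ this
    omega
  rcases Finset.eq_empty_or_nonempty N with hN0 | ⟨w1, hw1⟩
  · exact ⟨0, fun w hw => by rw [hN0] at hw; exact absurd hw (Finset.notMem_empty _)⟩
  · obtain ⟨q, hq⟩ := ex_im N hNc
    have hN' : (fun l => (q l).getD w1) ∉ rem (L := L) f ν S := by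
      rw [hemp]
      exact Finset.notMem_empty _
    unfold rem at hN'
    rw [Finset.mem_filter] at hN'
    have hqN : ∀ l, (q l).getD w1 ∈ N := by
      intro l
      cases h : q l with
      | none => simpa using hw1
      | some w =>
        rw [← hq]
        unfold im
        simp only [Option.getD_some, Finset.mem_biUnion, Finset.mem_univ, true_and,
          Option.mem_toFinset, Option.mem_def]
        exact ⟨l, h⟩
    have h1 : ¬ ∀ i : Fin (k + 1), ∃ l, f i (ν i) ((q l).getD w1) = 0 := by
      intro h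
      exact hN' ⟨Finset.mem_univ _, fun l hl => Finset.disjoint_left.mp hN (hqN l) hl, h⟩
    push Not at h1
    obtain ⟨i, hi⟩ := h1
    refine ⟨i, fun w hw => ?_⟩
    rw [← hq] at hw
    unfold im at hw
    simp only [Finset.mem_biUnion, Finset.mem_univ, true_and, Option.mem_toFinset,
      Option.mem_def] at hw
    obtain ⟨l, hl⟩ := hw
    have := hi l
    rw [hl, Option.getD_some] at this
    exact this

end Cv

end

end Pool.Agent.Helper265_EW.T
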