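import Pool.Agent.Helper265_EW.TNum
import Pool.Agent.Helper265_EW.CLev

set_option linter.unusedSectionVars false

/-! Tools for transformations: negation, substitution, unions. -/

namespace Pool.Agent.Helper265_EW.T

open Finset Classical Pool.Agent.Helper265_EW.G Pool.Agent.Helper265_EW.P
open Pool.Agent.Helper265_EW.C

noncomputable section

section Neg

variable {J : Type}

/-- negation -/
def negF : Fm J → Fm J
  | Fm.lit j b => Fm.lit j (!b)
  | Fm.and m f => Fm.or m (fun i => negF (f i))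
  | Fm.or m f => Fm.and m (fun i => negF (f i))

lemma holds_negF (f : Fm J) (x : J → Bool) : (negF f).Holds x ↔ ¬ f.Holds x := by
  induction f with
  | lit j b =>
    simp only [negF, Fm.Holds]
    cases x j <;> cases b <;> simp
  | and m f ih =>
    simp only [negF, Fm.Holds, ih]
    push Not
    rfl
  | or m f ih =>
    simp only [negF, Fm.Holds, ih]
    push Not
    rfl

lemma depth_negF (f : Fm J) : (negF f).depth = f.depth := by
  induction f with
  | lit j b => rfl
  | and m f ih => simp only [negF, Fm.depth, ih]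
  | or m f ih => simp only [negF, Fm.depth, ih]

lemma size_negF (f : Fm J) : (negF f).size = f.size := by
  induction f with
  | lit j b => rfl
  | and m f ih => simp only [negF, Fm.size, ih]
  | or m f ih => simp only [negF, Fm.size, ih]

/-- binary conjunction -/
def and2 (f g : Fm J) : Fm J := andF (ι := Bool) (fun b => if b = true then f else g)

lemma holds_and2 (f g : Fm J) (x : J → Bool) :
    (and2 f g).Holds x ↔ f.Holds x ∧ g.Holds x := by
  unfold and2
  rw [holds_andF]
  constructor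
  · intro h
    exact ⟨by simpa using h true, by simpa using h false⟩
  · rintro ⟨h1, h2⟩ b
    cases b
    · simpa using h2
    · simpa using h1

lemma depth_and2 {f g : Fm J} {D : ℕ} (hf : f.depth ≤ D) (hg : g.depth ≤ D) :
    (and2 f g).depth ≤ D + 1 := by
  unfold and2
  apply depth_andF
  intro b
  split_ifs
  · exact hf
  · exact hg

lemma size_and2 {f g : Fm J} {D : ℕ} (hf : f.size ≤ D) (hg : g.size ≤ D) :
    (and2 f g).size ≤ 2 * D + 1 := by
  unfold and2
  refine (size_andF _ D ?_).trans ?_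
  · intro b
    split_ifs
    · exact hf
    · exact hg
  · simp

/-- a signed formula -/
def sgF (f : Fm J) (b : Bool) : Fm J := if b = true then f else negF f

lemma holds_sgF (f : Fm J) (b : Bool) (x : J → Bool) {P : Prop} [Decidable P]
    (h : f.Holds x ↔ P) : (sgF f b).Holds x ↔ decide P = b := by
  unfold sgF
  cases b
  · rw [if_neg (by simp), holds_negF, h, decide_eq_false_iff_not]
  · rw [if_pos rfl, h, decide_eq_true_eq]

lemma depth_sgF (f : Fm J) (b : Bool) : (sgF f b).depth = f.depth := by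
  unfold sgF
  split_ifs
  · rfl
  · exact depth_negF f

lemma size_sgF (f : Fm J) (b : Bool) : (sgF f b).size = f.size := by
  unfold sgF
  split_ifs
  · rfl
  · exact size_negF f

end Neg

section Sub

variable {τ τ' τ'' : Voc} {n n' : ℕ}

/-- substitution in a transformation -/
def sbT (g : Bit τ' n' → Bool → Fm (Bit τ n)) (T : Tr τ' τ'' n') : Tr τ τ'' n where
  M := T.M
  K := T.K
  dom a := subst g (T.dom a)
  rel R v := subst g (T.rel R v)
  par j := subst g (T.par j)

lemma sbT_WD (g : Bit τ' n' → Bool → Fm (Bit τ n)) (T : Tr τ' τ'' n') (A : Str τ (Fin n))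
    (A' : Str τ' (Fin n')) (hg : ∀ j b, (g j b).Holds (bits A) ↔ bits A' j = b) {s t : ℕ}
    (φ : PiF τ'' s t) (K : ℕ) : WDF φ ((sbT g T).out A) K ↔ WDF φ (T.out A') K := by
  let eqv : (sbT g T).Univ A ≃ T.Univ A' :=
    Equiv.subtypeEquivRight (fun a => holds_subst g _ _ hg (T.dom a))
  rw [← WDF_equiv eqv φ ((sbT g T).out A) K]
  have h : (fun R w => (sbT g T).out A R (fun i => eqv.symm (w i)) :
      Str τ'' (T.Univ A')) = T.out A' := by
    funext R w
    unfold Tr.out
    exact decide_eq_decide.mpr (holds_subst g _ _ hg (T.rel R (fun i => (w i).1)))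
  rw [h]

lemma sbT_par (g : Bit τ' n' → Bool → Fm (Bit τ n)) (T : Tr τ' τ'' n') (A : Str τ (Fin n))
    (A' : Str τ' (Fin n')) (hg : ∀ j b, (g j b).Holds (bits A) ↔ bits A' j = b)
    (j : Fin (T.K + 1)) : ((sbT g T).par j).Holds (bits A) ↔ (T.par j).Holds (bits A') :=
  holds_subst g _ _ hg (T.par j)

end Sub

section Uni

variable {τ τ' : Voc} {n J : ℕ} (F : Fin J → Tr τ τ' n) (pr : Fin J → Fm (Bit τ n)) (K0 : ℕ)

/-- candidates -/
abbrev cnd : Type := Σ j : Fin J, Fin (F j).M

/-- the relations of one member -/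
def unR (j : Fin J) (R : Fin τ'.num) (v : Fin (τ'.ar R) → Fin (∑ j, (F j).M)) : Fm (Bit τ n) :=
  if h : ∀ i, ∃ x : Fin (F j).M, v i = finSigmaFinEquiv (⟨j, x⟩ : cnd F) then
    (F j).rel R (fun i => (h i).choose) else cst false

lemma unR_eq (j : Fin J) (R : Fin τ'.num) (v : Fin (τ'.ar R) → Fin (∑ j, (F j).M))
    (x : Fin (τ'.ar R) → Fin (F j).M)
    (hv : ∀ i, v i = finSigmaFinEquiv (⟨j, x i⟩ : cnd F)) : unR F j R v = (F j).rel R x := by
  have h1 : ∀ i, ∃ x : Fin (F j).M, v i = finSigmaFinEquiv (⟨j, x⟩ : cnd F) :=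
    fun i => ⟨x i, hv i⟩
  unfold unR
  rw [dif_pos h1]
  congr 1
  funext i
  have h3 := (h1 i).choose_spec
  have h4 := (Equiv.injective _) ((hv i).symm.trans h3)
  simp only [Sigma.mk.injEq, heq_eq_eq, true_and] at h4
  exact h4.symm

/-- union of transformations, one of which is selected -/
def unT : Tr τ τ' n where
  M := ∑ j, (F j).M
  K := K0
  dom a := and2 (pr (finSigmaFinEquiv.symm a).1) ((F (finSigmaFinEquiv.symm a).1).dom
    (finSigmaFinEquiv.symm a).2)
  rel R v := orF (ι := Fin J) (fun j => and2 (pr j) (unR F j R v))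
  par i := orF (ι := Fin J) (fun j => and2 (pr j)
    (if h : i.val < (F j).K + 1 then (F j).par ⟨i.val, h⟩ else cst false))

variable (A : Str τ (Fin n)) (j0 : Fin J) (hpr : ∀ j, (pr j).Holds (bits A) ↔ j = j0)

include hpr

lemma unT_dom (x : Fin (∑ j, (F j).M)) : ((unT F pr K0).dom x).Holds (bits A) ↔
    ∃ y : Fin (F j0).M, x = finSigmaFinEquiv (⟨j0, y⟩ : cnd F) ∧ ((F j0).dom y).Holds (bits A) := by
  obtain ⟨⟨j, y⟩, rfl⟩ : ∃ z : cnd F, x = finSigmaFinEquiv z :=
    ⟨finSigmaFinEquiv.symm x, (Equiv.apply_symm_apply _ _).symm⟩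
  unfold unT
  simp only
  rw [Equiv.symm_apply_apply, holds_and2, hpr]
  constructor
  · rintro ⟨h1, h2⟩
    simp only at h1
    subst h1
    exact ⟨y, rfl, h2⟩
  · rintro ⟨y', h1, h2⟩
    have h3 := (Equiv.injective _) h1
    cases h3
    exact ⟨rfl, h2⟩

/-- the equivalence of the universes -/
def unE : (F j0).Univ A ≃ (unT F pr K0).Univ A where
  toFun y := ⟨finSigmaFinEquiv (⟨j0, y.1⟩ : cnd F),
    (unT_dom F pr K0 A j0 hpr _).mpr ⟨y.1, rfl, y.2⟩⟩
  invFun x := ⟨((unT_dom F pr K0 A j0 hpr x.1).mp x.2).choose,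
    ((unT_dom F pr K0 A j0 hpr x.1).mp x.2).choose_spec.2⟩
  left_inv y := by
    apply Subtype.ext
    have h := ((unT_dom F pr K0 A j0 hpr (finSigmaFinEquiv (⟨j0, y.1⟩ : cnd F))).mp
      ((unT_dom F pr K0 A j0 hpr _).mpr ⟨y.1, rfl, y.2⟩)).choose_spec.1
    have h2 := (Equiv.injective _) h
    simp only [Sigma.mk.injEq, heq_eq_eq, true_and] at h2
    exact h2.symm
  right_inv x := by
    apply Subtype.ext
    exact ((unT_dom F pr K0 A j0 hpr x.1).mp x.2).choose_spec.1.symm

lemma unT_WD {s t : ℕ} (φ : PiF τ' s t) (K : ℕ) :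
    WDF φ ((unT F pr K0).out A) K ↔ WDF φ ((F j0).out A) K := by
  rw [← WDF_equiv (unE F pr K0 A j0 hpr).symm φ ((unT F pr K0).out A) K]
  have h : (fun R w => (unT F pr K0).out A R (fun i => (unE F pr K0 A j0 hpr).symm.symm (w i)) :
      Str τ' ((F j0).Univ A)) = (F j0).out A := by
    funext R w
    rw [Bool.eq_iff_iff]
    have hv : ∀ i, ((unE F pr K0 A j0 hpr).symm.symm (w i)).1 =
        finSigmaFinEquiv (⟨j0, (w i).1⟩ : cnd F) := fun i => rfl
    have e1 : (unT F pr K0).out A R (fun i => (unE F pr K0 A j0 hpr).symm.symm (w i)) = true ↔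
        ∃ j, (and2 (pr j) (unR F j R (fun i =>
          ((unE F pr K0 A j0 hpr).symm.symm (w i)).1))).Holds (bits A) := by
      unfold Tr.out
      rw [decide_eq_true_eq]
      exact holds_orF (ι := Fin J) (fun j => and2 (pr j) (unR F j R (fun i =>
          ((unE F pr K0 A j0 hpr).symm.symm (w i)).1))) (bits A)
    rw [e1]
    unfold Tr.out
    rw [decide_eq_true_eq]
    constructor
    · rintro ⟨j, hj⟩
      rw [holds_and2, hpr] at hj
      obtain ⟨rfl, hj⟩ := hj
      rw [unR_eq F j R _ (fun i => (w i).1) hv] at hj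
      exact hj
    · intro hj
      refine ⟨j0, ?_⟩
      rw [holds_and2, hpr, unR_eq F j0 R _ (fun i => (w i).1) hv]
      exact ⟨rfl, hj⟩
  rw [h]

lemma unT_par (i : Fin (K0 + 1)) : ((unT F pr K0).par i).Holds (bits A) ↔
    ∃ h : i.val < (F j0).K + 1, ((F j0).par ⟨i.val, h⟩).Holds (bits A) := by
  unfold unT
  simp only
  rw [holds_orF]
  constructor
  · rintro ⟨j, hj⟩
    rw [holds_and2, hpr] at hj
    obtain ⟨rfl, hj⟩ := hj
    split_ifs at hj with h1
    · exact ⟨h1, hj⟩
    · rw [holds_cst] at hj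
      exact absurd hj (by simp)
  · rintro ⟨h, hj⟩
    refine ⟨j0, ?_⟩
    rw [holds_and2, hpr, dif_pos h]
    exact ⟨rfl, hj⟩

end Uni

section UniB

variable {τ τ' : Voc} {n J : ℕ} (F : Fin J → Tr τ τ' n) (pr : Fin J → Fm (Bit τ n)) (K0 : ℕ)
  (D S : ℕ) (hD : 1 ≤ D) (hS : 1 ≤ S) (hp : ∀ j, (pr j).depth ≤ D ∧ (pr j).size ≤ S)

include hD hS hp

lemma unT_dom_bd (hd : ∀ j x, ((F j).dom x).depth ≤ D ∧ ((F j).dom x).size ≤ S)
    (x : Fin (∑ j, (F j).M)) : ((unT F pr K0).dom x).depth ≤ D + 2 ∧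
      ((unT F pr K0).dom x).size ≤ (J + 1) * (2 * S + 1) + 1 := by
  unfold unT
  simp only
  refine ⟨(depth_and2 (hp _).1 (hd _ _).1).trans (by omega),
    (size_and2 (hp _).2 (hd _ _).2).trans ?_⟩
  nlinarith

lemma unT_rel_bd (hd : ∀ j R v, ((F j).rel R v).depth ≤ D ∧ ((F j).rel R v).size ≤ S)
    (R : Fin τ'.num) (v : Fin (τ'.ar R) → Fin (∑ j, (F j).M)) :
    ((unT F pr K0).rel R v).depth ≤ D + 2 ∧
      ((unT F pr K0).rel R v).size ≤ (J + 1) * (2 * S + 1) + 1 := by
  unfold unT
  simp only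
  constructor
  · apply depth_orF
    intro j
    apply depth_and2 (hp _).1
    unfold unR
    split_ifs
    · exact (hd _ _ _).1
    · exact (depth_cst _).trans hD
  · refine (size_orF _ (2 * S + 1) ?_).trans ?_
    · intro j
      apply size_and2 (hp _).2
      unfold unR
      split_ifs
      · exact (hd _ _ _).2
      · exact (size_cst _).trans hS
    · rw [Fintype.card_fin]
      apply Nat.add_le_add_right
      exact Nat.mul_le_mul_right _ (by omega)

lemma unT_par_bd (hd : ∀ j x, ((F j).par x).depth ≤ D ∧ ((F j).par x).size ≤ S)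
    (i : Fin (K0 + 1)) : ((unT F pr K0).par i).depth ≤ D + 2 ∧
      ((unT F pr K0).par i).size ≤ (J + 1) * (2 * S + 1) + 1 := by
  unfold unT
  simp only
  constructor
  · apply depth_orF
    intro j
    apply depth_and2 (hp _).1
    split_ifs
    · exact (hd _ _).1
    · exact (depth_cst _).trans hD
  · refine (size_orF _ (2 * S + 1) ?_).trans ?_
    · intro j
      apply size_and2 (hp _).2
      split_ifs
      · exact (hd _ _).2
      · exact (size_cst _).trans hS
    · rw [Fintype.card_fin]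
      apply Nat.add_le_add_right
      exact Nat.mul_le_mul_right _ (by omega)

end UniB

/-- A quantifier-free interpretation as a transformation. -/
theorem qint_tr {τ τ' : Voc} (I : QInt τ τ') (hI : Indep I) :
    ∃ a b sz : ℕ, ∀ N k' K0 : ℕ, ∃ T2 : Tr τ τ' N, T2.M ≤ a * (N + k' + 1) ^ b ∧ T2.K = K0 ∧
      (∀ x, (T2.dom x).depth ≤ 4 ∧ (T2.dom x).size ≤ sz) ∧
      (∀ R v, (T2.rel R v).depth ≤ 4 ∧ (T2.rel R v).size ≤ sz) ∧
      (∀ j, (T2.par j).depth ≤ 4 ∧ (T2.par j).size ≤ sz) ∧
      (∀ (A : Str τ (Fin N)) (j : Fin (T2.K + 1)),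
        (T2.par j).Holds (bits A) ↔ j.val = K0) ∧
      ∀ (A : Str τ (Fin N)) (s t : ℕ) (φ : PiF τ' s t) (K : ℕ),
        WDF φ (T2.out A) K ↔ WDF φ (I.out A k') K := by
  obtain ⟨a, b, hab⟩ := univ_bd I
  have hfT := I.finTag
  have hfI := I.finIx
  refine ⟨a, b, szI I, fun N k' K0 => ?_⟩
  obtain ⟨n', hn'⟩ : ∃ n', n' = Nat.card (I.Univ (nul τ N) k') := ⟨_, rfl⟩
  have hfin : Finite (I.Univ (nul τ N) k') := by
    unfold QInt.Univ
    infer_instance
  have e₀ : I.Univ (nul τ N) k' ≃ Fin n' := by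
    rw [hn']
    exact Finite.equivFin _
  have hfm : ∀ f : Fm (Bit τ' n'), f.depth ≤ 1 ∧ f.size ≤ 1 →
      (subst (gF I e₀) f).depth ≤ 4 ∧ (subst (gF I e₀) f).size ≤ szI I := by
    intro f hf
    constructor
    · refine (depth_subst _ 3 (depth_gF I e₀) f).trans ?_
      have := hf.1
      omega
    · refine (size_subst _ (szI I) (szI_pos I) (size_gF I e₀) f).trans ?_
      calc f.size * szI I ≤ 1 * szI I := Nat.mul_le_mul_right _ hf.2
        _ = szI I := one_mul _
  refine ⟨comT I e₀ (idT τ' n' K0), ?_, rfl, ?_, ?_, ?_, ?_, ?_⟩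
  · change n' ≤ _
    rw [hn']
    exact hab N k' (nul τ N)
  · intro x
    apply hfm
    exact ⟨depth_cst true, size_cst true⟩
  · intro R v
    apply hfm
    simp [idT, Fm.depth, Fm.size]
  · intro j
    apply hfm
    exact ⟨depth_cst (decide (j.val = _)), size_cst (decide (j.val = _))⟩
  · intro A j
    refine (comT_par I hI e₀ _ A j).trans ?_
    unfold idT
    rw [holds_cst, decide_eq_true_eq]
  · intro A s t φ K
    rw [← outF_WD I hI e₀ A]
    exact (comT_WD I hI e₀ _ A φ K).trans (idT_WD _ _ φ K)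

end

end Pool.Agent.Helper265_EW.T
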