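import Pool.Agent.Helper265_EW.TForm

set_option linter.unusedSectionVars false

/-! The inner width of the formula. -/

namespace Pool.Agent.Helper265_EW.T

open Finset Classical Pool.Agent.Helper265_EW.G Pool.Agent.Helper265_EW.P
open Pool.Agent.Helper265_EW.N (At jn qfOf eval_qfOf)

noncomputable section

section

variable {τ : Voc} {s m : ℕ} (φ : PiF τ s (m + 2)) (bb : Bool) (w0 : ℕ)

lemma inn_tp {z : Fin s → Vars (lenT φ) (m + 2)} {u u' : Vars (lenT φ) (m + 2)} :
    innT φ (tp z u u') ↔ (∃ i, lastVar (lenT φ) (m + 2) (z i)) ∨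
      lastVar (lenT φ) (m + 2) u ∨ lastVar (lenT φ) (m + 2) u' := by
  unfold innT
  constructor
  · rintro ⟨i, hi⟩
    revert hi
    refine Fin.addCases (fun j => ?_) (fun j => ?_) i
    · intro hi
      left
      refine ⟨j, ?_⟩
      unfold tp at hi
      rwa [Fin.append_left] at hi
    · intro hi
      unfold tp at hi
      rw [Fin.append_right] at hi
      right
      fin_cases j
      · exact Or.inl hi
      · exact Or.inr hi
  · rintro (⟨j, hj⟩ | h | h)
    · refine ⟨Fin.castAdd 2 j, ?_⟩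
      unfold tp
      rwa [Fin.append_left]
    · refine ⟨Fin.natAdd s 0, ?_⟩
      unfold tp
      rw [Fin.append_right]
      exact h
    · refine ⟨Fin.natAdd s 1, ?_⟩
      unfold tp
      rw [Fin.append_right]
      exact h

lemma not_last_o : ¬ lastVar (lenT φ) (m + 2) (ov φ) := not_last_av φ 0 (by omega) _

lemma inn_sA {z : Fin s → Vars (lenT φ) (m + 2)} :
    innT φ (sA φ z) ↔ ∃ i, lastVar (lenT φ) (m + 2) (z i) := by
  unfold sA
  rw [inn_tp]
  have := not_last_o φ
  tauto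

lemma inn_nA {u u' : Vars (lenT φ) (m + 2)} :
    innT φ (nA φ u u') ↔ lastVar (lenT φ) (m + 2) u ∨ lastVar (lenT φ) (m + 2) u' := by
  unfold nA
  rw [inn_tp]
  have := not_last_o φ
  simp [this]

lemma inn_sA_io (v : At φ) : innT φ (sA φ (fun i => io φ (m + 2) (v i))) ↔ P.inn φ v := by
  rw [inn_sA]
  unfold P.inn
  simp only [lastVar_io]

lemma not_inn_c : ¬ innT φ (cv φ) := by
  rintro ⟨i, hi⟩
  exact not_last_av φ 0 (by omega) _ hi

lemma last_sp (c : Fin 4) : lastVar (lenT φ) (m + 2) (sp φ (m + 1) (m + 1) c) := by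
  unfold sp av
  rw [if_pos rfl]
  trivial

variable (ρ : ∀ i : Fin (vocT τ s).num, (Fin ((vocT τ s).ar i) → Vars (lenT φ) (m + 2)) → Bool)
  (η : Vars (lenT φ) (m + 2) → Vars (lenT φ) (m + 2) → Bool)
  (ξ ξ' : (Fin (s + 2) → Vars (lenT φ) (m + 2)) → Bool)

lemma ptT_congr (h : ∀ v, ¬ innT φ v → ξ' v = ξ v) : ptT φ ξ' = ptT φ ξ := by
  funext v
  unfold ptT
  by_cases hv : P.inn φ v
  · rw [if_pos hv, if_pos hv]
  · rw [if_neg hv, if_neg hv]
    apply h
    rw [inn_sA_io]
    exact hv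

lemma cond_congr (h : ∀ v, ¬ innT φ v → ξ' v = ξ v) : condT φ ρ η ξ' ↔ condT φ ρ η ξ := by
  unfold condT
  rw [h _ (not_inn_c φ), h (nA φ (sp φ (m + 1) 0 2) (sp φ (m + 1) 0 3))]
  rw [inn_nA]
  rintro (h1 | h1)
  · exact not_last_av φ 0 (by omega) _ h1
  · exact not_last_av φ 0 (by omega) _ h1

lemma hasN_congr (h : ξ' (nA φ (sp φ (m + 1) 1 1) (sp φ (m + 1) 0 3)) =
    ξ (nA φ (sp φ (m + 1) 1 1) (sp φ (m + 1) 0 3))) : hasN φ ρ ξ' ↔ hasN φ ρ ξ := by
  unfold hasN
  rw [h]

lemma covN_congr (hm : m ≠ 0) (h : ∀ v, ¬ innT φ v → ξ' v = ξ v) :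
    covN φ ρ ξ' ↔ covN φ ρ ξ := by
  have h1 : ∀ v, ξ' (sA φ (nv φ (m + 1) 0 v)) = ξ (sA φ (nv φ (m + 1) 0 v)) := by
    intro v
    apply h
    rw [inn_sA]
    rintro ⟨i, hi⟩
    exact not_last_av φ 0 (by omega) _ hi
  have h2 : ξ' (nA φ (sp φ (m + 1) 1 2) (sp φ (m + 1) 1 3)) =
      ξ (nA φ (sp φ (m + 1) 1 2) (sp φ (m + 1) 1 3)) := by
    apply h
    rw [inn_nA]
    rintro (h1 | h1)
    · exact not_last_av φ 1 (by omega) _ h1
    · exact not_last_av φ 1 (by omega) _ h1
  unfold covN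
  simp only [h1, h2]

lemma evt_cert (hw0 : 1 ≤ w0) (h : evtT φ bb w0 ρ η ξ) :
    ∃ C : Finset (Fin (s + 2) → Vars (lenT φ) (m + 2)), C.card ≤ w0 ∧ (∀ v ∈ C, innT φ v) ∧
      ∀ ξ' : (Fin (s + 2) → Vars (lenT φ) (m + 2)) → Bool,
        (∀ v, (¬ innT φ v ∨ v ∈ C) → ξ' v = ξ v) → evtT φ bb w0 ρ η ξ' := by
  rcases h with ⟨h1, h2, h3⟩ | ⟨h1, Cp, Cn, G, hc, hG, hp, hn⟩
  · refine ⟨({sA φ (fun i => tv φ (m + 1) (m + 1) (Fin.castAdd 2 i))} :
      Finset (Fin (s + 2) → Vars (lenT φ) (m + 2))).filter (innT φ), ?_, ?_, fun ξ' hξ' => ?_⟩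
    · refine (Finset.card_filter_le _ _).trans ?_
      rw [Finset.card_singleton]
      exact hw0
    · intro v hv
      exact (Finset.mem_filter.mp hv).2
    · left
      refine ⟨h1, ?_, h3⟩
      rw [hξ' _ ?_]
      · exact h2
      · by_cases hz : innT φ (sA φ (fun i => tv φ (m + 1) (m + 1) (Fin.castAdd 2 i)))
        · right
          exact Finset.mem_filter.mpr ⟨Finset.mem_singleton_self _, hz⟩
        · exact Or.inl hz
  · refine ⟨G.image (fun v => sA φ (fun i => io φ (m + 2) (v i))) ∪ (if Cn.Nonempty then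
      {nA φ (sp φ (m + 1) (m + 1) 2) (sp φ (m + 1) (m + 1) 3)} else ∅), ?_, ?_,
      fun ξ' hξ' => ?_⟩
    · refine (Finset.card_union_le _ _).trans ?_
      have e1 : (G.image (fun v => sA φ (fun i => io φ (m + 2) (v i)))).card ≤ G.card :=
        Finset.card_image_le
      by_cases hC : Cn.Nonempty
      · rw [if_pos hC, Finset.card_singleton]
        have := hc.2.2.2.2.1 hC
        omega
      · rw [if_neg hC, Finset.card_empty]
        have := hc.2.2.2.1
        omega
    · intro v hv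
      rcases Finset.mem_union.mp hv with hv | hv
      · obtain ⟨u, hu, rfl⟩ := Finset.mem_image.mp hv
        exact (inn_sA_io φ u).mpr (hc.1 u (hc.2.2.1 hu))
      · by_cases hC : Cn.Nonempty
        · rw [if_pos hC] at hv
          rw [Finset.mem_singleton.mp hv, inn_nA]
          exact Or.inl (last_sp φ 2)
        · rw [if_neg hC] at hv
          exact absurd hv (Finset.notMem_empty _)
    · right
      refine ⟨h1, Cp, Cn, G, ?_, ?_, hp, ?_⟩
      · rw [ptT_congr φ ξ ξ' (fun v hv => hξ' v (Or.inl hv))]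
        exact hc
      · intro v hv
        rw [hξ' _ (Or.inr (Finset.mem_union_left _ (Finset.mem_image_of_mem _ hv)))]
        exact hG v hv
      · intro hC
        obtain ⟨e1, e2, e3⟩ := hn hC
        refine ⟨e1, ?_, e3⟩
        rw [hξ' _ (Or.inr (Finset.mem_union_right _ (by
          rw [if_pos hC]; exact Finset.mem_singleton_self _)))]
        exact e2

lemma width_aux (hw0 : 1 ≤ w0) (hbb : bb = decide (m % 2 = 0)) :
    (qfOf (ov φ) (PT φ bb w0)).Cert (innT φ) bb w0 := by
  intro ρ η ξ hξ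
  have hP : ∀ ξ : (Fin (s + 2) → Vars (lenT φ) (m + 2)) → Bool,
      (qfOf (ov φ) (PT φ bb w0)).eval ρ η ξ = bb ↔ (PT φ bb w0 ρ η ξ ↔ bb = true) := by
    intro ξ
    have h1 := eval_qfOf (ov φ) (PT φ bb w0) ρ η ξ
    clear hbb
    cases bb with
    | true =>
      rw [h1]
      simp
    | false =>
      rw [← h1]
      simp
  simp only [hP] at hξ ⊢
  by_cases hmod : modT φ ρ η
  · -- the second mode
    refine ⟨({nA φ (sp φ (m + 1) 1 1) (sp φ (m + 1) 0 3)} :
      Finset (Fin (s + 2) → Vars (lenT φ) (m + 2))).filter (innT φ), ?_, ?_, fun ξ' hξ' => ?_⟩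
    · refine (Finset.card_filter_le _ _).trans ?_
      rw [Finset.card_singleton]
      exact hw0
    · intro v hv
      exact (Finset.mem_filter.mp hv).2
    · rw [← hξ]
      unfold PT
      rw [if_pos hmod, if_pos hmod]
      have h0 : ∀ v, ¬ innT φ v → ξ' v = ξ v := fun v hv => hξ' v (Or.inl hv)
      rw [cond_congr φ ρ η ξ ξ' h0, hasN_congr φ ρ ξ ξ' (by
        apply hξ'
        by_cases hz : innT φ (nA φ (sp φ (m + 1) 1 1) (sp φ (m + 1) 0 3))
        · right
          exact Finset.mem_filter.mpr ⟨Finset.mem_singleton_self _, hz⟩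
        · exact Or.inl hz)]
      cases hb : bb with
      | true => simp
      | false =>
        have hm : m ≠ 0 := by
          rintro rfl
          rw [hbb] at hb
          simp at hb
        rw [covN_congr φ ρ ξ ξ' hm h0]
  · by_cases he : evtT φ bb w0 ρ η ξ
    · obtain ⟨C, hC1, hC2, hC3⟩ := evt_cert φ bb w0 ρ η ξ hw0 he
      refine ⟨C, hC1, hC2, fun ξ' hξ' => ?_⟩
      have he' := hC3 ξ' hξ'
      rw [← hξ]
      unfold PT mainT
      rw [if_neg hmod, if_neg hmod, cond_congr φ ρ η ξ ξ' (fun v hv => hξ' v (Or.inl hv))]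
      simp only [he, he']
    · refine ⟨∅, by simp, by simp, fun ξ' hξ' => ?_⟩
      unfold PT mainT at hξ ⊢
      rw [if_neg hmod] at hξ ⊢
      rw [cond_congr φ ρ η ξ ξ' (fun v hv => hξ' v (Or.inl hv))]
      clear hP hbb
      cases bb with
      | true =>
        simp only [if_true, iff_true] at hξ ⊢
        refine ⟨hξ.1, ?_⟩
        have h2 := hξ.2
        split at h2
        · exact h2
        · intro h3
          exact absurd (h2 h3) he
      | false =>
        simp only [Bool.false_eq_true, if_false, iff_false] at hξ ⊢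
        intro h3
        apply hξ
        refine ⟨h3.1, ?_⟩
        have h2 := h3.2
        split at h2
        · exact h2
        · exact ⟨h2.1, he⟩

/-- the inner width of the formula -/
theorem forT_width (hw0 : 1 ≤ w0) (hbb : bb = decide (m % 2 = 0)) :
    (forT φ bb w0).InnerWidth w0 := by
  have hcrit : decide ((m + 2) % 2 = 0) = bb := by
    rw [hbb]
    congr 1
    apply propext
    omega
  unfold PiF.InnerWidth
  rw [hcrit]
  exact width_aux φ bb w0 hw0 hbb

end

end

end Pool.Agent.Helper265_EW.T
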