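import Pool.Agent.Helper265_EW.UTr

set_option linter.unusedSectionVars false
set_option linter.unusedVariables false

/-! Constant-depth reductions to formulas of bounded variable width. -/

namespace Pool.Agent.Helper265_EW.V

open Finset Classical Pool.Agent.Helper265_EW.N
open Pool.Agent.Helper265_EW.G (WDF_equiv srcVt)
open Pool.Agent.Helper265_EW.P (normF)
open Pool.Agent.Helper265_EW.C (orF holds_orF depth_orF size_orF cst holds_cst depth_cst size_cst)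
open Pool.Agent.Helper265_EW.T (and2 holds_and2 depth_and2 size_and2)

noncomputable section

lemma fU_bd {τ τ' : Voc} {n : ℕ} (s : ℕ) (T : Tr τ τ' n) (D S : ℕ) (hD : 1 ≤ D) (hS : 1 ≤ S)
    (hr : ∀ R v, (T.rel R v).depth ≤ D ∧ (T.rel R v).size ≤ S)
    (hp : ∀ j, (T.par j).depth ≤ D ∧ (T.par j).size ≤ S) (R : RV τ')
    (w : argT τ' s R → U1 s T) :
    (fU s T R w).depth ≤ D + 2 ∧ (fU s T R w).size ≤ (T.K + 1) * (2 * S + 1) + 1 := by
  have hbig : S ≤ (T.K + 1) * (2 * S + 1) + 1 := by nlinarith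
  rcases R with R | κ
  · simp only [fU]
    split_ifs with h
    · exact ⟨(hr R _).1.trans (by omega), (hr R _).2.trans hbig⟩
    · exact ⟨(depth_cst _).trans (by omega), (size_cst _).trans (hS.trans hbig)⟩
  · simp only [fU]
    constructor
    · apply depth_orF
      intro j
      exact depth_and2 (hp j).1 ((depth_cst _).trans hD)
    · refine (size_orF _ (2 * S + 1) fun j =>
        size_and2 (hp j).2 ((size_cst _).trans hS)).trans ?_
      rw [Fintype.card_fin]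

lemma card_U1 {τ τ' : Voc} {n : ℕ} (s : ℕ) (T : Tr τ τ' n) :
    Fintype.card (U1 s T) ≤ T.M + (T.K + 1) * nA s ^ T.K := by
  rw [Fintype.card_sum, Fintype.card_fin, Fintype.card_sigma]
  apply Nat.add_le_add_left
  calc ∑ j : Fin (T.K + 1), Fintype.card (Fin j.val → Fin (nA s)) ≤
        ∑ _j : Fin (T.K + 1), nA s ^ T.K := by
          apply Finset.sum_le_sum
          intro j _
          rw [Fintype.card_fun, Fintype.card_fin, Fintype.card_fin]
          exact Nat.pow_le_pow_right (nA_pos s) (by omega)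
    _ = (T.K + 1) * nA s ^ T.K := by
        rw [Finset.sum_const, Finset.card_univ, Fintype.card_fin, smul_eq_mul]

/-- bounds for the extended transformation -/
lemma stT_bd (s p q : ℕ) (hq : 1 ≤ q) (hpq : p ≤ q) (c : ℕ) : ∃ C, ∀ (τ τ' : Voc) (n k : ℕ),
    1 ≤ n → 1 ≤ k → ∀ T : Tr τ τ' n, T.BoundedPow p q k c → (stT s T).BoundedPow p q k C := by
  obtain ⟨C, hC⟩ : ∃ C, C = 3 * c + 8 + (2 * (c + 1)) * (nA s + 1) := ⟨_, rfl⟩
  refine ⟨C, fun τ τ' n k hn hk T hT => ?_⟩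
  obtain ⟨hM, hK, hdom, hrel, hpar⟩ := hT
  obtain ⟨Z, hZ⟩ : ∃ Z, Z = 2 ^ k * (n + 2) := ⟨_, rfl⟩
  obtain ⟨Q, hQd⟩ : ∃ Q, Q = k + Nat.log 2 (n + 1) + 1 := ⟨_, rfl⟩
  rw [← hZ] at hM hdom hrel hpar
  rw [← hQd] at hK
  have hZ2 : 2 ≤ Z := by
    rw [hZ]
    calc 2 = 1 * 2 := rfl
      _ ≤ 2 ^ k * (n + 2) := Nat.mul_le_mul Nat.one_le_two_pow (by omega)
  have hZ1 : ∀ x, 1 ≤ Z ^ x := fun x => Nat.one_le_pow _ _ (by omega)
  have hZa : ∀ x y : ℕ, x ≤ y → Z ^ x ≤ Z ^ y := fun x y h => Nat.pow_le_pow_right (by omega) h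
  have hQ1 : 1 ≤ Q := by omega
  have hK1 : T.K ≤ (c + 1) * Q := by
    rw [← Nat.pow_le_pow_iff_left (show q ≠ 0 by omega)]
    calc T.K ^ q ≤ c * Q ^ p := hK
      _ ≤ (c + 1) ^ q * Q ^ q := by
          apply Nat.mul_le_mul
          · exact (Nat.le_succ c).trans (Nat.le_self_pow (by omega) _)
          · exact Nat.pow_le_pow_right hQ1 hpq
      _ = ((c + 1) * Q) ^ q := by rw [mul_pow]
  have hQZ : 2 ^ Q ≤ Z ^ 2 := by
    have h1 : 2 ^ Nat.log 2 (n + 1) ≤ n + 1 := Nat.pow_log_le_self 2 (by omega)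
    calc 2 ^ Q = 2 ^ k * 2 ^ Nat.log 2 (n + 1) * 2 := by rw [hQd, pow_succ, pow_add]
      _ ≤ 2 ^ k * (n + 1) * 2 := Nat.mul_le_mul_right _ (Nat.mul_le_mul_left _ h1)
      _ ≤ Z * Z := by
          apply Nat.mul_le_mul _ hZ2
          rw [hZ]
          exact Nat.mul_le_mul_left _ (by omega)
      _ = Z ^ 2 := by ring
  have h2K : 2 ^ T.K ≤ Z ^ (2 * (c + 1)) := by
    calc 2 ^ T.K ≤ 2 ^ ((c + 1) * Q) := Nat.pow_le_pow_right (by norm_num) hK1
      _ = (2 ^ Q) ^ (c + 1) := by rw [← pow_mul, mul_comm]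
      _ ≤ (Z ^ 2) ^ (c + 1) := Nat.pow_le_pow_left hQZ _
      _ = Z ^ (2 * (c + 1)) := by rw [← pow_mul]
  have hKZ : T.K + 1 ≤ Z ^ (2 * (c + 1)) := (Nat.lt_two_pow_self).trans_le h2K
  have haK : nA s ^ T.K ≤ Z ^ (2 * (c + 1) * nA s) := by
    calc nA s ^ T.K ≤ (2 ^ nA s) ^ T.K := Nat.pow_le_pow_left (Nat.lt_two_pow_self).le _
      _ = (2 ^ T.K) ^ nA s := by rw [← pow_mul, ← pow_mul, mul_comm]
      _ ≤ (Z ^ (2 * (c + 1))) ^ nA s := Nat.pow_le_pow_left h2K _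
      _ = _ := by rw [← pow_mul]
  have hrb : (T.K + 1) * (2 * Z ^ c + 1) + 1 ≤ Z ^ C := by
    have hc1 := hZ1 c
    have hk1 := hZ1 (2 * (c + 1))
    calc (T.K + 1) * (2 * Z ^ c + 1) + 1 ≤ Z ^ (2 * (c + 1)) * (3 * Z ^ c) + 1 :=
          Nat.add_le_add_right (Nat.mul_le_mul hKZ (by omega)) 1
      _ ≤ Z ^ (2 * (c + 1)) * (4 * Z ^ c) := by nlinarith
      _ ≤ Z ^ (2 * (c + 1)) * (Z ^ 2 * Z ^ c) := by
          apply Nat.mul_le_mul_left
          apply Nat.mul_le_mul_right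
          calc 4 = 2 ^ 2 := rfl
            _ ≤ Z ^ 2 := Nat.pow_le_pow_left hZ2 2
      _ = Z ^ (2 * (c + 1) + (2 + c)) := by rw [← pow_add, ← pow_add]
      _ ≤ Z ^ C := hZa _ _ (by rw [hC]; nlinarith)
  refine ⟨?_, ?_, ?_, ?_, ?_⟩
  · rw [← hZ]
    refine (card_U1 s T).trans ?_
    have h1 : (T.K + 1) * nA s ^ T.K ≤ Z ^ (2 * (c + 1) * (nA s + 1)) := by
      calc (T.K + 1) * nA s ^ T.K ≤ Z ^ (2 * (c + 1)) * Z ^ (2 * (c + 1) * nA s) :=
            Nat.mul_le_mul hKZ haK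
        _ = _ := by rw [← pow_add]; congr 1; ring
    obtain ⟨x, hx⟩ : ∃ x, x = 2 * (c + 1) * (nA s + 1) := ⟨_, rfl⟩
    rw [← hx] at h1 hC
    have h2 := hZa c (c + x) (by omega)
    have h3 := hZa x (c + x) (by omega)
    calc T.M + (T.K + 1) * nA s ^ T.K ≤ Z ^ (c + x) * 2 := by omega
      _ ≤ Z ^ (c + x) * Z := Nat.mul_le_mul_left _ hZ2
      _ = Z ^ (c + x + 1) := by rw [pow_succ]
      _ ≤ Z ^ C := hZa _ _ (by omega)
  · rw [← hQd]
    exact hK.trans (Nat.mul_le_mul_right _ (by rw [hC]; omega))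
  · intro x
    rw [← hZ]
    change (dU s T ((e1 s T).symm x)).depth ≤ C ∧ (dU s T ((e1 s T).symm x)).size ≤ Z ^ C
    rcases (e1 s T).symm x with y | y
    · exact ⟨(hdom y).1.trans (by omega), (hdom y).2.trans (hZa _ _ (by omega))⟩
    · exact ⟨(hpar y.1).1.trans (by omega), (hpar y.1).2.trans (hZa _ _ (by omega))⟩
  · intro R v
    rw [← hZ]
    obtain ⟨h1, h2⟩ := fU_bd s T (c + 1) (Z ^ c) (by omega) (hZ1 c)
      (fun R v => ⟨(hrel R v).1.trans (by omega), (hrel R v).2⟩)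
      (fun j => ⟨(hpar j).1.trans (by omega), (hpar j).2⟩) ((eRV τ').symm R)
      (fun c => (e1 s T).symm (v (eT τ' s _ c)))
    exact ⟨h1.trans (by omega), h2.trans hrb⟩
  · intro j
    rw [← hZ]
    exact ⟨(hpar j).1.trans (by omega), (hpar j).2.trans (hZa _ _ (by omega))⟩

/-- The composition of a constant-depth reduction to a formula of bounded variable width with the
reduction of this formula to the normal form. -/
theorem comp_coreV (m d e : ℕ) (hd : 1 ≤ d) (he : 1 ≤ e) {τ' : Voc} {s : ℕ}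
    (φ : PiF τ' s (m + 2)) (hw : φ.VarWidth (d * e)) (p q : ℕ) (hq : 1 ≤ q) (hpq : p ≤ q)
    (c : ℕ) : ∃ C, ∀ (τ : Voc) (n k : ℕ), 1 ≤ n → 1 ≤ k → ∀ T : Tr τ τ' n,
      T.BoundedPow p q k c → ∃ T' : Tr τ (srcVt m d) n, T'.BoundedPow (p * e) q k C ∧
        ∀ (A : Str τ (Fin n)) (j : Fin (T.K + 1)), (∀ j', (T.par j').Holds (bits A) ↔ j' = j) →
          ∃ j'' : Fin (T'.K + 1), (∀ j', (T'.par j').Holds (bits A) ↔ j' = j'') ∧
            (WDF φ (T.out A) j ↔ WDF (normF (decide (m % 2 = 0)) m d) (T'.out A) j'') := by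
  obtain ⟨bb, hbb⟩ : ∃ bb, bb = decide (m % 2 = 0) := ⟨_, rfl⟩
  have hbb2 : decide ((m + 2) % 2 = 0) = bb := by rw [hbb]; simp
  unfold PiF.VarWidth at hw
  rw [hbb2] at hw
  obtain ⟨C1, hC1⟩ := stT_bd s p q hq hpq c
  obtain ⟨C, hC⟩ := T.comp_core m d e hd he (forV φ bb (d * e))
    (T.certG_of_cert _ _ _ _ (forV_width φ bb (d * e) hbb)) p q hq hpq C1
  refine ⟨C, fun τ n k hn hk T hT => ?_⟩
  obtain ⟨T', hT', hcor⟩ := hC τ n k hn hk (stT s T) (hC1 τ τ' n k hn hk T hT)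
  refine ⟨T', hT', fun A j hj => ?_⟩
  obtain ⟨j'', h1, h2⟩ := hcor A j hj
  refine ⟨j'', h1, ?_⟩
  have h3 := stT_WD s T A j hj (forV φ bb (d * e)) j.val
  have h4 := U_WDF φ bb (d * e) (AU T A) hw hbb j.val
  exact (AU_WD T A φ j.val).symm.trans (h4.trans (h3.symm.trans h2))

end

end Pool.Agent.Helper265_EW.V
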