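import Pool.Agent.Helper265_EW.XComp

set_option linter.unusedSectionVars false

/-! Upper and lower bounds for circuit reductions. -/

namespace Pool.Agent.Helper265_EW.X

open Finset Classical Pool.Agent.Helper265_EW.G Pool.Agent.Helper265_EW.P
open Pool.Agent.Helper265_EW.C

noncomputable section

/-- lower bounds on restricted instances -/
theorem no_redAt_C (m d d' p q u v : ℕ) (hd : 1 ≤ d) (hq : 1 ≤ q) (hu : 1 ≤ u) (huv : u ≤ v)
    (hpq : v * p * d' < q * (u * (d + 1)))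
    {τ' : Voc} {s : ℕ} (φ : PiF τ' s (m + 2)) (hocc : φ.innerOcc ≤ d') :
    ¬ RedLAt u v p q (srcFt (decide (m % 2 = 0)) m d) φ := by
  rintro ⟨c, hc⟩
  refine G.C2.no_red_X m d d' p q u v hd hq hu huv hpq φ hocc c (c * (v + 2))
    (fun n k => (k + Nat.log 2 (n + 1) + 1) ^ c) (fun n k => Nat.one_le_pow _ _ (by omega))
    ?_ hc
  intro x n hx
  simp only [hx]
  have e1 : (2 ^ x) ^ u ≤ (2 ^ x) ^ v := Nat.pow_le_pow_right Nat.one_le_two_pow huv
  have e2 : 1 ≤ (2 ^ x) ^ v := Nat.one_le_pow _ _ Nat.one_le_two_pow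
  have e3 : (2 ^ x) ^ u + (2 ^ x) ^ v + 1 ≤ 2 ^ (v * x + 2) := by
    have : 2 ^ (v * x + 2) = (2 ^ x) ^ v * 4 := by
      rw [pow_add, ← pow_mul, mul_comm x v]
      norm_num
    omega
  calc ((2 ^ x) ^ u + (2 ^ x) ^ v + 1) ^ c ≤ (2 ^ (v * x + 2)) ^ c := Nat.pow_le_pow_left e3 _
    _ = 2 ^ (c * (v * x + 2)) := by rw [← pow_mul, mul_comm]
    _ ≤ 2 ^ (c * (v + 2) * ((2 ^ x) ^ (v - 1) * (x + 1))) := by
        apply Nat.pow_le_pow_right (by norm_num)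
        rw [mul_assoc]
        apply Nat.mul_le_mul_left
        have e4 : 1 ≤ (2 ^ x) ^ (v - 1) := Nat.one_le_pow _ _ Nat.one_le_two_pow
        calc v * x + 2 ≤ (v + 2) * (x + 1) := by nlinarith
          _ ≤ (v + 2) * ((2 ^ x) ^ (v - 1) * (x + 1)) :=
              Nat.mul_le_mul_left _ (Nat.le_mul_of_pos_left _ e4)

/-- lower bounds on restricted instances, guard width -/
theorem no_redAt_guard (m d w p q u v : ℕ) (hd : 1 ≤ d) (hw : 1 ≤ w) (hq : 1 ≤ q) (hu : 1 ≤ u)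
    (huv : u ≤ v) (hpq' : p ≤ q) (hpq : v * p * w < q * (u * (d + 1)))
    {τ' : Voc} {s : ℕ} (φ : PiF τ' s (m + 2)) (h : φ.GuardWidth w) :
    ¬ RedLAt u v p q (srcFt (decide (m % 2 = 0)) m d) φ := by
  rintro ⟨c, hc⟩
  obtain ⟨C, hC⟩ := comp_coreX m w 1 hw le_rfl φ (by rw [mul_one]; exact h) p q hq hpq' c
  refine no_redAt_C m d w p q u v hd hq hu huv hpq (normF (decide (m % 2 = 0)) m w) ?_
    ⟨C + c, fun n k hn hk hkk => ?_⟩
  · exact (occP_le _ _).trans (normF_occ _ m w).le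
  · obtain ⟨T, hT, hcor⟩ := hc n k hn hk hkk
    have hF : (k + Nat.log 2 (n + 1) + 1) ^ c ≤ (k + Nat.log 2 (n + 1) + 1) ^ (C + c) :=
      Nat.pow_le_pow_right (by omega) (by omega)
    obtain ⟨T', hT', hcor'⟩ := hC _ n k hn hk ((k + Nat.log 2 (n + 1) + 1) ^ c)
      (Nat.one_le_pow _ _ (by omega)) T hT
    obtain ⟨a1, a2, a3, a4, a5⟩ := hT'
    rw [mul_one] at a4
    have hl := two_le_ll hn hk
    have hZ1 : 0 < 2 ^ k * (n + 2) := Nat.mul_pos (by positivity) (by omega)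
    refine ⟨T', ⟨a1.trans (Nat.pow_le_pow_right hZ1 (by omega)),
      a2.trans (Nat.pow_le_pow_right hZ1 (by omega)),
      a3.trans (Nat.pow_le_pow_right (by omega) (by omega)),
      a4.trans (Nat.mul_le_mul_right _ (by omega)), fun i g => (a5 i g).trans hF⟩, fun A => ?_⟩
    obtain ⟨j, h1, h2⟩ := hcor A
    obtain ⟨j'', h3, h4⟩ := hcor' A j h1
    exact ⟨j'', h3, h2.trans h4⟩

/-- lower bounds -/
theorem no_red_src (m d d' p q : ℕ) (hd : 1 ≤ d) (hq : 1 ≤ q) (hpq : p * d' < q * (d + 1))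
    {τ' : Voc} {s : ℕ} (φ : PiF τ' s (m + 2)) (hocc : φ.innerOcc ≤ d') :
    ¬ RedL p q (srcFt (decide (m % 2 = 0)) m d) φ := by
  rintro ⟨c, hc⟩
  obtain ⟨u, hu⟩ : ∃ u, u = p * d' + 1 := ⟨_, rfl⟩
  have hlt : (u + 1) * p * d' < q * (u * (d + 1)) := by
    obtain ⟨y, hy⟩ : ∃ y, y = p * d' := ⟨_, rfl⟩
    obtain ⟨z, hz⟩ : ∃ z, z = q * (d + 1) := ⟨_, rfl⟩
    have e1 : (u + 1) * p * d' = u * y + y := by rw [hy]; ring
    have e2 : q * (u * (d + 1)) = u * z := by rw [hz]; ring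
    rw [e1, e2]
    have e3 : u * (y + 1) ≤ u * z := Nat.mul_le_mul_left _ (by omega)
    have e4 : u * (y + 1) = u * y + u := by ring
    omega
  refine G.C2.no_red_X m d d' p q u (u + 1) hd hq (by omega) (by omega) hlt φ hocc c
    (c * (u + 3)) (fun n k => (2 ^ k * (Nat.log 2 (n + 1) + 1)) ^ c)
    (fun n k => Nat.one_le_pow _ _ (Nat.mul_pos (by positivity) (by omega))) ?_
    (fun n k hn hk _ => hc n k hn hk)
  intro x n hx
  simp only [hx, Nat.add_sub_cancel]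
  have e1 : 1 ≤ (2 ^ x) ^ u := Nat.one_le_pow _ _ Nat.one_le_two_pow
  have e2 : (2 ^ x) ^ (u + 1) + 1 ≤ 2 ^ ((u + 1) * x + 1) := by
    have : 2 ^ ((u + 1) * x + 1) = (2 ^ x) ^ (u + 1) * 2 := by
      rw [pow_succ, ← pow_mul, mul_comm x (u + 1)]
    have e3 : 1 ≤ (2 ^ x) ^ (u + 1) := Nat.one_le_pow _ _ Nat.one_le_two_pow
    omega
  calc (2 ^ (2 ^ x) ^ u * ((2 ^ x) ^ (u + 1) + 1)) ^ c
      ≤ (2 ^ (2 ^ x) ^ u * 2 ^ ((u + 1) * x + 1)) ^ c :=
        Nat.pow_le_pow_left (Nat.mul_le_mul_left _ e2) _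
    _ = 2 ^ (c * ((2 ^ x) ^ u + ((u + 1) * x + 1))) := by
        rw [← pow_add, ← pow_mul, mul_comm]
    _ ≤ 2 ^ (c * (u + 3) * ((2 ^ x) ^ u * (x + 1))) := by
        apply Nat.pow_le_pow_right (by norm_num)
        rw [mul_assoc]
        apply Nat.mul_le_mul_left
        obtain ⟨y, hy⟩ : ∃ y, y = (2 ^ x) ^ u := ⟨_, rfl⟩
        rw [← hy] at e1 ⊢
        have e4 : (u + 1) * x + 1 ≤ (u + 1) * (x + 1) := by nlinarith
        have e5 : (u + 1) * (x + 1) ≤ (u + 1) * (y * (x + 1)) :=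
          Nat.mul_le_mul_left _ (Nat.le_mul_of_pos_left _ e1)
        have e6 : y ≤ y * (x + 1) := Nat.le_mul_of_pos_right _ (by omega)
        calc y + ((u + 1) * x + 1) ≤ 1 * (y * (x + 1)) + (u + 1) * (y * (x + 1)) := by omega
          _ = (u + 2) * (y * (x + 1)) := by ring
          _ ≤ (u + 3) * (y * (x + 1)) := Nat.mul_le_mul_right _ (by omega)

/-- lower bounds for the normal form problems -/
theorem no_red_norm (m d : ℕ) (hd : 1 ≤ d) (p q t' : ℕ) (ht' : 2 ≤ t') (hq : 1 ≤ q) (τ : Voc)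
    (s : ℕ) (φ : PiF τ s t') (h : t' < m + 2 ∨ (t' = m + 2 ∧ 2 ≤ d ∧ p * φ.innerOcc < q * d)) :
    ¬ RedL p q (normF (decide (m % 2 = 0)) m d) φ := by
  intro hred
  obtain ⟨m', rfl⟩ : ∃ m', t' = m' + 2 := ⟨t' - 2, by omega⟩
  rcases h with h | ⟨h, hd2, h'⟩
  · obtain ⟨I, h1, h2, h3⟩ := qg_norm m d hd 1 le_rfl (m' + 2) _ 1
      (srcFt (decide (m' % 2 = 0)) m' (p * φ.innerOcc + 1)) (Or.inl h)
    have h4 : RedL p q (srcFt (decide (m' % 2 = 0)) m' (p * φ.innerOcc + 1)) φ :=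
      comp_C I h1 h2 (fun n k hn A => by
        have h5 := h3 n k hn A
        simp only [pow_one] at h5
        exact h5) hred
    refine no_red_src m' (p * φ.innerOcc + 1) φ.innerOcc p q (by omega) hq ?_ φ le_rfl h4
    calc p * φ.innerOcc < p * φ.innerOcc + 1 + 1 := by omega
      _ ≤ q * (p * φ.innerOcc + 1 + 1) := Nat.le_mul_of_pos_left _ hq
  · obtain rfl : m' = m := by omega
    obtain ⟨e, rfl⟩ : ∃ e, d = e + 1 := ⟨d - 1, by omega⟩
    obtain ⟨I, h1, h2, h3⟩ := qg_norm m' (e + 1) hd 1 le_rfl (m' + 2) _ 1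
      (srcFt (decide (m' % 2 = 0)) m' e) (Or.inr ⟨rfl, Or.inl (by
        refine (occP_le _ _).trans ?_
        have := srcFt_occ (decide (m' % 2 = 0)) m' e
        unfold PiF.occ at this
        rw [this]
        omega)⟩)
    have h4 : RedL p q (srcFt (decide (m' % 2 = 0)) m' e) φ :=
      comp_C I h1 h2 (fun n k hn A => by
        have h5 := h3 n k hn A
        simp only [pow_one] at h5
        exact h5) hred
    exact no_red_src m' e φ.innerOcc p q (by omega) hq h' φ le_rfl h4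

/-- lower bounds for the normal form problems, guard width -/
theorem no_red_guard (m d w : ℕ) (hd : 2 ≤ d) (p q : ℕ) (hq : 1 ≤ q) (hpq : p ≤ q)
    (hpw : p * w < q * d) {τ : Voc} {s : ℕ} (φ : PiF τ s (m + 2)) (h : φ.GuardWidth w) :
    ¬ RedL p q (normF (decide (m % 2 = 0)) m d) φ := by
  obtain ⟨w', hw', hw1, hpw'⟩ : ∃ w', w ≤ w' ∧ 1 ≤ w' ∧ p * w' < q * d := by
    rcases Nat.eq_zero_or_pos w with h0 | h0
    · refine ⟨1, by omega, le_rfl, ?_⟩
      calc p * 1 ≤ q := by omega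
        _ < q * 2 := by omega
        _ ≤ q * d := Nat.mul_le_mul_left _ hd
    · exact ⟨w, le_rfl, h0, hpw⟩
  rintro ⟨c, hc⟩
  obtain ⟨C, hC⟩ := comp_coreX m w' 1 hw1 le_rfl φ
    (by rw [mul_one]; exact T.certG_mono _ _ w w' hw' _ h) p q hq hpq c
  refine no_red_norm m d (by omega) p q (m + 2) (by omega) hq _ 1
    (normF (decide (m % 2 = 0)) m w') (Or.inr ⟨rfl, hd, ?_⟩) ⟨C + c, fun n k hn hk => ?_⟩
  · refine lt_of_le_of_lt ?_ hpw'
    apply Nat.mul_le_mul_left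
    refine (occP_le _ _).trans ?_
    exact (normF_occ _ m w').le
  · obtain ⟨T, hT, hcor⟩ := hc n k hn hk
    have hY : 0 < 2 ^ k * (Nat.log 2 (n + 1) + 1) := Nat.mul_pos (by positivity) (by omega)
    have hF : (2 ^ k * (Nat.log 2 (n + 1) + 1)) ^ c ≤
        (2 ^ k * (Nat.log 2 (n + 1) + 1)) ^ (C + c) := Nat.pow_le_pow_right hY (by omega)
    obtain ⟨T', hT', hcor'⟩ := hC _ n k hn hk ((2 ^ k * (Nat.log 2 (n + 1) + 1)) ^ c)
      (Nat.one_le_pow _ _ hY) T hT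
    obtain ⟨a1, a2, a3, a4, a5⟩ := hT'
    rw [mul_one] at a4
    have hl := two_le_ll hn hk
    have hZ1 : 0 < 2 ^ k * (n + 2) := Nat.mul_pos (by positivity) (by omega)
    refine ⟨T', ⟨a1.trans (Nat.pow_le_pow_right hZ1 (by omega)),
      a2.trans (Nat.pow_le_pow_right hZ1 (by omega)),
      a3.trans (Nat.pow_le_pow_right (by omega) (by omega)),
      a4.trans (Nat.mul_le_mul_right _ (by omega)), fun i g => (a5 i g).trans hF⟩, fun A => ?_⟩
    obtain ⟨j, h1, h2⟩ := hcor A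
    obtain ⟨j'', h3, h4⟩ := hcor' A j h1
    exact ⟨j'', h3, h2.trans h4⟩

/-- upper bounds -/
theorem red_guard (m d : ℕ) (hd : 1 ≤ d) (e : ℕ) (he : 1 ≤ e) (t' : ℕ) (τ : Voc) (s : ℕ)
    (φ : PiF τ s t') (h : t' < m + 2 ∨ (t' = m + 2 ∧ φ.GuardWidth (d * e))) :
    RedC e 1 φ (normF (decide (m % 2 = 0)) m d) := by
  apply red_C le_rfl
  rcases h with h | ⟨rfl, h⟩
  · exact C.red_norm m d hd e he t' τ s φ (Or.inl h)
  · exact T.red_guard m d hd e he φ h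

end

end Pool.Agent.Helper265_EW.X
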