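import Pool.Agent.Helper265_EW.UCmp
import Pool.Agent.Helper265_EW.YRes

set_option linter.unusedSectionVars false

/-! Compositions of circuit reductions with reductions to the normal form, and lower bounds. -/

namespace Pool.Agent.Helper265_EW.Y

open Finset Classical Pool.Agent.Helper265_EW.G Pool.Agent.Helper265_EW.P
open Pool.Agent.Helper265_EW.C Pool.Agent.Helper265_EW.X

noncomputable section

/-- Composition of circuit reductions with a reduction to the normal form. -/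
theorem comp_gen (m d e : ℕ) {τ' : Voc} {s : ℕ}
    (φ : PiF τ' s (m + 2)) (p q : ℕ) (hq : 1 ≤ q)
    (hcore : ∀ c : ℕ, ∃ C, ∀ (τ : Voc) (n k : ℕ), 1 ≤ n → 1 ≤ k → ∀ T : Tr τ τ' n,
      T.BoundedPow p q k c → ∃ T' : Tr τ (srcVt m d) n, T'.BoundedPow (p * e) q k C ∧
        ∀ (A : Str τ (Fin n)) (j : Fin (T.K + 1)), (∀ j', (T.par j').Holds (bits A) ↔ j' = j) →
          ∃ j'' : Fin (T'.K + 1), (∀ j', (T'.par j').Holds (bits A) ↔ j' = j'') ∧
            (WDF φ (T.out A) j ↔ WDF (normF (decide (m % 2 = 0)) m d) (T'.out A) j''))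
    (c : ℕ) : ∃ C, ∀ (τ : Voc) (n k : ℕ), 1 ≤ n → 1 ≤ k → ∀ F, 1 ≤ F → ∀ T : CTr τ τ' n,
      T.Bounded p q k c T.D F →
      ∃ T' : CTr τ (srcVt m d) n, T'.D ≤ T.D + C ∧
        T'.Bounded (p * e) q k C T'.D F ∧
        ∀ (A : Str τ (Fin n)) (j : Fin (T.K + 1)), (∀ j', T.val A (T.par j') = true ↔ j' = j) →
          ∃ j'' : Fin (T'.K + 1), (∀ j', T'.val A (T'.par j') = true ↔ j' = j'') ∧
            (WDF φ (T.out A) j ↔ WDF (normF (decide (m % 2 = 0)) m d) (T'.out A) j'') := by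
  obtain ⟨C0, hC0⟩ := hcore (c + 1)
  obtain ⟨E1, hE1⟩ : ∃ E1, E1 = c + p + 5 := ⟨_, rfl⟩
  obtain ⟨E, hE⟩ := out_bd (srcVt m d) (E1 * C0) (E1 * (C0 + p * e)) (E1 * C0)
  obtain ⟨C, hC⟩ : ∃ C, C = E1 * C0 + (c + E + 3) + (c + C0 + 3) +
    C0 * (2 * (c + p + 4) + 1) ^ (p * e) := ⟨_, rfl⟩
  refine ⟨C, fun τ n k hn hk F hF T hT => ?_⟩
  obtain ⟨hM, hTN, -, hK, hfan⟩ := hT
  obtain ⟨Z, hZ⟩ : ∃ Z, Z = 2 ^ k * (n + 2) := ⟨_, rfl⟩
  have hZ2 : 2 ≤ Z := by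
    rw [hZ]
    calc 2 = 1 * 2 := rfl
      _ ≤ 2 ^ k * (n + 2) := Nat.mul_le_mul Nat.one_le_two_pow (by omega)
  have hZa : ∀ x y : ℕ, x ≤ y → Z ^ x ≤ Z ^ y := fun x y h => Nat.pow_le_pow_right (by omega) h
  have hKZ := K_le_Z hn hk hq hK
  rw [← hZ] at hM hTN hKZ
  obtain ⟨L, hL⟩ : ∃ L, L = Nat.log 2 (n + 1) := ⟨_, rfl⟩
  rw [← hL] at hK
  have hTN1 : 1 ≤ T.N := by
    have := (T.par 0).2
    omega
  obtain ⟨n', hn'⟩ : ∃ n', n' = n + T.M + (T.K + 1) := ⟨_, rfl⟩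
  have hMn : T.M ≤ n' := by omega
  have hKn : T.K + 1 ≤ n' := by omega
  have hn1 : 1 ≤ n' := by omega
  have hnZ : n + 2 ≤ Z := by rw [hZ]; exact Nat.le_mul_of_pos_left _ Nat.one_le_two_pow
  have hn'Z : n' + 2 ≤ Z ^ (c + p + 4) := by
    obtain ⟨y, hy⟩ : ∃ y, y = c + p + 1 := ⟨_, rfl⟩
    have h1 : n + 2 ≤ Z ^ y := hnZ.trans (Nat.le_self_pow (by omega) Z)
    have h2 : T.M ≤ Z ^ y := hM.trans (hZa _ _ (by omega))
    have h3 : T.K ≤ Z ^ y := hKZ.trans (hZa _ _ (by omega))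
    have h4 : 1 ≤ Z ^ y := Nat.one_le_pow _ _ (by omega)
    have e5 : c + p + 4 = y + 3 := by omega
    rw [e5]
    calc n' + 2 ≤ 2 ^ 3 * Z ^ y := by omega
      _ ≤ Z ^ 3 * Z ^ y := Nat.mul_le_mul_right _ (Nat.pow_le_pow_left hZ2 3)
      _ = Z ^ (y + 3) := by rw [← pow_add, add_comm]
  have hkZ : 2 ^ k ≤ Z := by rw [hZ]; exact Nat.le_mul_of_pos_right _ (by omega)
  have hZ' : 2 ^ k * (n' + 2) ≤ Z ^ E1 := by
    calc 2 ^ k * (n' + 2) ≤ Z * Z ^ (c + p + 4) := Nat.mul_le_mul hkZ hn'Z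
      _ = Z ^ E1 := by rw [← pow_succ', hE1]
  have hnL : L ≤ Nat.log 2 (n' + 1) := by
    rw [hL]
    exact Nat.log_mono_right (by omega)
  -- the generic transformation
  have hgen : (genT τ' T.M T.K n' hMn hKn).BoundedPow p q k (c + 1) := by
    have h1 : T.M ≤ (2 ^ k * (n' + 2)) ^ (c + 1) := by
      calc T.M ≤ 2 ^ k * (n' + 2) := by
            calc T.M ≤ n' + 2 := by omega
              _ ≤ 2 ^ k * (n' + 2) := Nat.le_mul_of_pos_left _ Nat.one_le_two_pow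
        _ ≤ _ := Nat.le_self_pow (by omega) _
    have h2 : T.K ^ q ≤ (c + 1) * (k + Nat.log 2 (n' + 1) + 1) ^ p := by
      refine hK.trans (Nat.mul_le_mul (by omega) (Nat.pow_le_pow_left (by omega) _))
    have h3 : 1 ≤ (2 ^ k * (n' + 2)) ^ (c + 1) :=
      Nat.one_le_pow _ _ (Nat.mul_pos (by positivity) (by omega))
    exact ⟨h1, h2, fun a => ⟨Nat.zero_le _, h3⟩, fun R v => ⟨Nat.zero_le _, h3⟩,
      fun j => ⟨Nat.zero_le _, h3⟩⟩
  obtain ⟨T', ⟨hM', hK', hdom, hrel, hpar⟩, hcor⟩ := hC0 (outVoc τ') n' k hn1 hk _ hgen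
  have hsz0 : (2 ^ k * (n' + 2)) ^ C0 ≤ Z ^ (E1 * C0) := by
    rw [pow_mul]
    exact Nat.pow_le_pow_left hZ' _
  have hKZ' : T'.K ≤ Z ^ (E1 * (C0 + p * e)) := by
    refine (K_le_Z hn1 hk hq hK').trans ?_
    rw [pow_mul]
    exact Nat.pow_le_pow_left hZ' _
  have hdep : ∀ a, (outFm T' a).depth ≤ C0 := by
    rintro (a | e | j)
    · exact (hdom a).1
    · exact (hrel e.1 e.2).1
    · exact (hpar j).1
  have hsz : ∀ a, (outFm T' a).size ≤ Z ^ (E1 * C0) := by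
    rintro (a | e | j)
    · exact (hdom a).2.trans hsz0
    · exact (hrel e.1 e.2).2.trans hsz0
    · exact (hpar j).2.trans hsz0
  have h1 := cmp_over T F hTN1 hfan hF n' (outFm T') C0 (Z ^ (E1 * C0)) hdep hsz
  obtain ⟨C', hCN, hCD, hCM, hCK, hCF, hCc⟩ := mkC_ex T' (fun x => starX T n' x) h1
  refine ⟨C', ?_, ⟨?_, ?_, le_rfl, ?_, hCF⟩, ?_⟩
  · rw [hCD]
    omega
  · rw [hCM, ← hZ]
    exact (hM'.trans hsz0).trans (hZa _ _ (by omega))
  · rw [hCN, ← hZ]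
    have h2 := hE Z T'.M T'.K (Z ^ (E1 * C0)) hZ2 (hM'.trans hsz0) hKZ' le_rfl
    obtain ⟨y, hy⟩ : ∃ y, y = c + E + 1 := ⟨_, rfl⟩
    have h3 : T.N ≤ Z ^ y := hTN.trans (hZa _ _ (by omega))
    have h4 := h2.trans (hZa E y (by omega))
    have h5 : 2 ≤ Z ^ y := hZ2.trans (Nat.le_self_pow (by omega) Z)
    calc T.N + 1 + (Fintype.card (OutI T'.M T'.K (srcVt m d)) * Z ^ (E1 * C0) + 1) + 1
        ≤ 2 ^ 2 * Z ^ y := by omega
      _ ≤ Z ^ 2 * Z ^ y := Nat.mul_le_mul_right _ (Nat.pow_le_pow_left hZ2 2)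
      _ = Z ^ (y + 2) := by rw [← pow_add, add_comm]
      _ ≤ Z ^ C := hZa _ _ (by omega)
  · rw [hCK, ← hL]
    refine hK'.trans ?_
    have e2 : n + 2 ≤ 2 ^ (L + 2) := by
      have : n + 1 < 2 ^ (L + 1) := by
        rw [hL]
        exact Nat.lt_pow_succ_log_self (by norm_num) _
      have e3 : 2 ^ (L + 2) = 2 ^ (L + 1) * 2 := by rw [pow_succ 2 (L + 1)]
      omega
    have e4 : Z ≤ 2 ^ (k + L + 2) := by
      rw [hZ]
      calc 2 ^ k * (n + 2) ≤ 2 ^ k * 2 ^ (L + 2) := Nat.mul_le_mul_left _ e2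
        _ = 2 ^ (k + L + 2) := by rw [← pow_add]; congr 1
    have e5 : Nat.log 2 (n' + 1) ≤ (k + L + 2) * (c + p + 4) := by
      calc Nat.log 2 (n' + 1) ≤ Nat.log 2 (2 ^ ((k + L + 2) * (c + p + 4))) := by
            apply Nat.log_mono_right
            refine (show n' + 1 ≤ Z ^ (c + p + 4) by omega).trans ?_
            rw [pow_mul]
            exact Nat.pow_le_pow_left e4 _
        _ = _ := Nat.log_pow (by norm_num) _
    have e6 : k + Nat.log 2 (n' + 1) + 1 ≤ (2 * (c + p + 4) + 1) * (k + L + 1) := by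
      calc k + Nat.log 2 (n' + 1) + 1 ≤ (k + L + 2) * (c + p + 4) + (k + L + 1) := by omega
        _ ≤ (2 * (k + L + 1)) * (c + p + 4) + (k + L + 1) := by
            apply Nat.add_le_add_right
            exact Nat.mul_le_mul_right _ (by omega)
        _ = _ := by ring
    calc C0 * (k + Nat.log 2 (n' + 1) + 1) ^ (p * e) ≤
        C0 * ((2 * (c + p + 4) + 1) * (k + L + 1)) ^ (p * e) :=
          Nat.mul_le_mul_left _ (Nat.pow_le_pow_left e6 _)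
      _ = C0 * (2 * (c + p + 4) + 1) ^ (p * e) * (k + L + 1) ^ (p * e) := by
          rw [mul_pow]; ring
      _ ≤ C * (k + L + 1) ^ (p * e) := by
          apply Nat.mul_le_mul_right
          rw [hC]
          omega
  · intro A j hj
    obtain ⟨j1, h2, h3⟩ := hcor (starX T n' (bits A)) j (fun j' => by
      rw [gen_par T hMn hKn]
      exact hj j')
    obtain ⟨j'', h4, h5⟩ := hCc A j1 h2
    refine ⟨j'', h4, ?_⟩
    rw [← gen_WD T hMn hKn, h3, h5]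


/-- lower bounds on restricted instances, variable width -/
theorem no_redAt_varD (m d w : ℕ) (p q u v : ℕ) (hd : 1 ≤ d) (hw : 1 ≤ w) (hq : 1 ≤ q)
    (hu : 1 ≤ u) (huv : u ≤ v) (hpq' : p ≤ q) (hpq : v * p * w < q * (u * (d + 1)))
    {τ' : Voc} {s : ℕ} (φ : PiF τ' s (m + 2)) (h : φ.VarWidth w) :
    ¬ RedDAt u v p q (srcFt (decide (m % 2 = 0)) m d) φ := by
  intro h0
  refine no_redAt_D m d w p q u v hd hq hu huv hpq (normF (decide (m % 2 = 0)) m w)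
    ((occP_le _ _).trans (normF_occ _ m w).le) fun e => ?_
  obtain ⟨c, hc⟩ := h0 e
  obtain ⟨C, hC⟩ := comp_gen m w 1 φ p q hq
    (V.comp_coreV m w 1 hw le_rfl φ (by rw [mul_one]; exact h) p q hq hpq') c
  refine ⟨C + c + (C + 1) ^ e * (c + 1), fun n k hn hk hkk => ?_⟩
  obtain ⟨T, hTD, hT, hcor⟩ := hc n k hn hk hkk
  have hF : (k + Nat.log 2 (n + 1) + 1) ^ c ≤
      (k + Nat.log 2 (n + 1) + 1) ^ (C + c + (C + 1) ^ e * (c + 1)) :=
    Nat.pow_le_pow_right (by omega) (by omega)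
  obtain ⟨T', hD', hT', hcor'⟩ := hC _ n k hn hk ((k + Nat.log 2 (n + 1) + 1) ^ c)
    (Nat.one_le_pow _ _ (by omega)) T hT
  obtain ⟨a1, a2, -, a4, a5⟩ := hT'
  rw [mul_one] at a4
  have hZ1 : 0 < 2 ^ k * (n + 2) := Nat.mul_pos (by positivity) (by omega)
  refine ⟨T', dep_le hTD hD', ⟨a1.trans (Nat.pow_le_pow_right hZ1 (by omega)),
    a2.trans (Nat.pow_le_pow_right hZ1 (by omega)), le_rfl,
    a4.trans (Nat.mul_le_mul_right _ (by omega)), fun i g => (a5 i g).trans hF⟩, fun A => ?_⟩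
  obtain ⟨j, h1, h2⟩ := hcor A
  obtain ⟨j'', h3, h4⟩ := hcor' A j h1
  exact ⟨j'', h3, h2.trans h4⟩

/-- lower bounds for the normal form problems, variable width -/
theorem no_red_varD (m d w : ℕ) (hd : 2 ≤ d) (p q : ℕ) (hq : 1 ≤ q) (hpq : p ≤ q)
    (hpw : p * w < q * d) {τ : Voc} {s : ℕ} (φ : PiF τ s (m + 2)) (h : φ.VarWidth w) :
    ¬ RedD p q (normF (decide (m % 2 = 0)) m d) φ := by
  obtain ⟨w', hw', hw1, hpw'⟩ : ∃ w', w ≤ w' ∧ 1 ≤ w' ∧ p * w' < q * d := by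
    rcases Nat.eq_zero_or_pos w with h0 | h0
    · refine ⟨1, by omega, le_rfl, ?_⟩
      calc p * 1 ≤ q := by omega
        _ < q * 2 := by omega
        _ ≤ q * d := Nat.mul_le_mul_left _ hd
    · exact ⟨w, le_rfl, h0, hpw⟩
  have h' : φ.VarWidth w' := by
    intro ρ η ξ hξ
    obtain ⟨G, h1, h2, h3⟩ := h ρ η ξ hξ
    exact ⟨G, h1.trans hw', h2, h3⟩
  intro h0
  refine no_red_normD m d (by omega) p q (m + 2) (by omega) hq _ 1
    (normF (decide (m % 2 = 0)) m w') (Or.inr ⟨rfl, hd, ?_⟩) fun e => ?_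
  · refine lt_of_le_of_lt ?_ hpw'
    apply Nat.mul_le_mul_left
    refine (occP_le _ _).trans ?_
    exact (normF_occ _ m w').le
  · obtain ⟨c, hc⟩ := h0 e
    obtain ⟨C, hC⟩ := comp_gen m w' 1 φ p q hq
      (V.comp_coreV m w' 1 hw1 le_rfl φ (by rw [mul_one]; exact h') p q hq hpq) c
    refine ⟨C + c + (C + 1) ^ e * (c + 1), fun n k hn hk => ?_⟩
    obtain ⟨T, hTD, hT, hcor⟩ := hc n k hn hk
    have hY : 0 < 2 ^ k * (Nat.log 2 (n + 1) + 1) := Nat.mul_pos (by positivity) (by omega)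
    have hF : (2 ^ k * (Nat.log 2 (n + 1) + 1)) ^ c ≤
        (2 ^ k * (Nat.log 2 (n + 1) + 1)) ^ (C + c + (C + 1) ^ e * (c + 1)) :=
      Nat.pow_le_pow_right hY (by omega)
    obtain ⟨T', hD', hT', hcor'⟩ := hC _ n k hn hk ((2 ^ k * (Nat.log 2 (n + 1) + 1)) ^ c)
      (Nat.one_le_pow _ _ hY) T hT
    obtain ⟨a1, a2, -, a4, a5⟩ := hT'
    rw [mul_one] at a4
    have hZ1 : 0 < 2 ^ k * (n + 2) := Nat.mul_pos (by positivity) (by omega)
    refine ⟨T', dep_le hTD hD', ⟨a1.trans (Nat.pow_le_pow_right hZ1 (by omega)),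
      a2.trans (Nat.pow_le_pow_right hZ1 (by omega)), le_rfl,
      a4.trans (Nat.mul_le_mul_right _ (by omega)), fun i g => (a5 i g).trans hF⟩, fun A => ?_⟩
    obtain ⟨j, h1, h2⟩ := hcor A
    obtain ⟨j'', h3, h4⟩ := hcor' A j h1
    exact ⟨j'', h3, h2.trans h4⟩

/-- upper bounds, variable width -/
theorem red_var (m d : ℕ) (hd : 1 ≤ d) (e : ℕ) (he : 1 ≤ e) (τ : Voc) (s : ℕ)
    (φ : PiF τ s (m + 2)) (h : φ.VarWidth (d * e)) :
    RedC e 1 φ (normF (decide (m % 2 = 0)) m d) := by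
  apply red_C le_rfl
  obtain ⟨C, hC⟩ := V.comp_coreV m d e hd he φ h 1 1 le_rfl le_rfl 1
  refine ⟨C, fun n k hn hk => ?_⟩
  have hZ1 : 1 ≤ 2 ^ k * (n + 2) := Nat.mul_pos (by positivity) (by omega)
  have hid : (idT τ n k).BoundedPow 1 1 k 1 := by
    refine ⟨?_, ?_, ?_, ?_, ?_⟩
    · change n ≤ _
      rw [pow_one]
      calc n ≤ n + 2 := by omega
        _ ≤ _ := Nat.le_mul_of_pos_left _ (by positivity)
    · change k ^ 1 ≤ _
      rw [pow_one, pow_one, one_mul]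
      omega
    · intro x
      rw [pow_one]
      exact ⟨depth_cst true, (size_cst true).trans hZ1⟩
    · intro R v
      rw [pow_one]
      refine ⟨?_, ?_⟩
      · simp [idT, Fm.depth]
      · refine le_trans ?_ hZ1
        simp [idT, Fm.size]
    · intro j
      rw [pow_one]
      exact ⟨depth_cst (decide (j.val = _)), (size_cst (decide (j.val = _))).trans hZ1⟩
  obtain ⟨T', hT', hcor⟩ := hC τ n k hn hk (idT τ n k) hid
  rw [one_mul] at hT'
  refine ⟨T', hT', fun A => ?_⟩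
  have hj : ∀ j', ((idT τ n k).par j').Holds (bits A) ↔ j' = Fin.last k := by
    intro j'
    unfold idT
    rw [holds_cst, decide_eq_true_eq]
    exact ⟨fun h => Fin.ext h, fun h => by rw [h]; rfl⟩
  obtain ⟨j'', h1, h2⟩ := hcor A (Fin.last k) hj
  refine ⟨j'', h1, ?_⟩
  rw [← h2]
  exact (idT_WD k A φ k).symm

end

end Pool.Agent.Helper265_EW.Y
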