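import Pool.Agent.Helper265_EW.NDefs

/-! The number of innermost variables that occur in atoms of the relation variable, and variable
width. -/

namespace Pool.Agent.Helper265_EW

/-- Whenever the formula has the value `b`, this value is enforced by the truth values of those
atoms `X(v)` all of whose variables `z` with `L z` occur in at most `w` sets, each of them a
single variable or the set of variables of an atom `X(g)` that is true: some family `G` of at
most `w` tuples `g`, each of them constant or with `X(g)` true, is such that changing the truth
values of atoms `X(v)` with some variable `z` with `L z` that occurs in no tuple of `G` never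
changes the value of the formula. -/
def QF.CertV {τ : Voc} {s : ℕ} {V : Type} (L : V → Prop) (b : Bool) (w : ℕ)
    (ψ : QF τ s V) : Prop :=
  ∀ (ρ : ∀ R : Fin τ.num, (Fin (τ.ar R) → V) → Bool) (η : V → V → Bool)
    (ξ : (Fin s → V) → Bool), ψ.eval ρ η ξ = b →
    ∃ G : Finset (Fin s → V), G.card ≤ w ∧ (∀ g ∈ G, ξ g = true ∨ ∀ i j, g i = g j) ∧
      ∀ ξ' : (Fin s → V) → Bool,
        (∀ v, (∀ i, L (v i) → ∃ g ∈ G, ∃ j, g j = v i) → ξ' v = ξ v) → ψ.eval ρ η ξ' = b

/-- Variable width at most `w`: if the innermost block is existential, then whenever the matrix is
true this is enforced by the truth values of the atoms of `X` whose innermost variables all occur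
in at most `w` sets, each a single variable or the set of variables of a true atom of `X`; if the
innermost block is universal, the same holds whenever the matrix is false. -/
def PiF.VarWidth {τ : Voc} {s t : ℕ} (φ : PiF τ s t) (w : ℕ) : Prop :=
  φ.ψ.CertV (lastVar φ.len t) (decide (t % 2 = 0)) w

/-- `u` occurs in an atom `X(v)` of the formula. -/
def QF.InX {τ : Voc} {s : ℕ} {V : Type} (u : V) : QF τ s V → Prop
  | QF.rel _ _ => False
  | QF.eq _ _ => False
  | QF.mem v => ∃ i, v i = u
  | QF.not φ => φ.InX u
  | QF.and φ ψ => φ.InX u ∨ ψ.InX u

/-- The number of variables of the innermost block that occur in atoms `X(v)`. -/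
noncomputable def PiF.innerVars {τ : Voc} {s t : ℕ} (φ : PiF τ s t) : ℕ :=
  Nat.card {u : Vars φ.len t // lastVar φ.len t u ∧ φ.ψ.InX u}

end Pool.Agent.Helper265_EW
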