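import Pool.Agent.Helper265_EW.YDefs
import Pool.Agent.Helper265_EW.VDefs
import Pool.Agent.Helper265_EW.TDefs

/-! The width of a `Π_t` formula. -/

namespace Pool.Agent.Helper265_EW

/-- The width of a `Π_t` formula: the minimum of three numbers, namely the number of occurrences
of atoms `X(v)` with a variable of the innermost block, the number of variables of the innermost
block in atoms `X(v)`, and one plus the number of those occurrences of atoms `X(v)` with a
variable of the innermost block that are positive (if this block is existential) or negative (if
it is universal). -/
noncomputable def PiF.width {τ : Voc} {s t : ℕ} (φ : PiF τ s t) : ℕ :=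
  min φ.innerOcc (min φ.innerVars (φ.critOcc + 1))

end Pool.Agent.Helper265_EW
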