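import Pool.Agent.Helper265_EW.VForm

set_option linter.unusedSectionVars false
set_option linter.unusedVariables false

/-! The relations between names are preserved by order embeddings. -/

namespace Pool.Agent.Helper265_EW.V

open Finset Classical Pool.Agent.Helper265_EW.G Pool.Agent.Helper265_EW.P
open Pool.Agent.Helper265_EW.N

noncomputable section

/-- embedding of objects -/
def em {n M k a : ℕ} (h : Fin n → Fin M) : Wo n k a → Wo M k a
  | Wo.el x => Wo.el (h x)
  | Wo.nb i => Wo.nb i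
  | Wo.wd f => Wo.wd f

variable {n M k s : ℕ} {h : Fin n → Fin M}

lemma em_inj {a : ℕ} (hh : Function.Injective h) :
    Function.Injective (em h : Wo n k a → Wo M k a) := by
  intro u v huv
  cases u <;> cases v <;> simp only [em] at huv <;> first
    | (injection huv with huv; first | rw [huv] | rw [hh huv])
    | cases huv

lemma em_isEl {a : ℕ} (u : Wo n k a) : isEl (em h u) ↔ isEl u := by
  cases u with
  | el x => exact iff_of_true ⟨h x, rfl⟩ ⟨x, rfl⟩
  | nb i => exact iff_of_false (fun ⟨x, hx⟩ => by cases hx) (fun ⟨x, hx⟩ => by cases hx)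
  | wd f => exact iff_of_false (fun ⟨x, hx⟩ => by cases hx) (fun ⟨x, hx⟩ => by cases hx)

lemma em_isNb {a : ℕ} (u : Wo n k a) : isNb (em h u) ↔ isNb u := by
  rw [isNb_iff, isNb_iff]
  cases u with
  | el x => exact iff_of_false (fun ⟨x, hx⟩ => by cases hx) (fun ⟨x, hx⟩ => by cases hx)
  | nb i => exact iff_of_true ⟨i, rfl⟩ ⟨i, rfl⟩
  | wd f => exact iff_of_false (fun ⟨x, hx⟩ => by cases hx) (fun ⟨x, hx⟩ => by cases hx)

lemma em_nb {a : ℕ} {u : Wo n k a} {i : Fin (k + 1)} : em h u = Wo.nb i ↔ u = Wo.nb i := by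
  cases u with
  | el x => exact iff_of_false (fun hx => by cases hx) (fun hx => by cases hx)
  | nb i' =>
    simp only [em]
    constructor
    · intro h1
      injection h1 with h1
      rw [h1]
    · intro h1
      injection h1 with h1
      rw [h1]
  | wd f => exact iff_of_false (fun hx => by cases hx) (fun hx => by cases hx)

lemma em_wd {a : ℕ} {u : Wo n k a} {f : Fin k → Fin a} : em h u = Wo.wd f ↔ u = Wo.wd f := by
  cases u with
  | el x => exact iff_of_false (fun hx => by cases hx) (fun hx => by cases hx)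
  | nb i' => exact iff_of_false (fun hx => by cases hx) (fun hx => by cases hx)
  | wd f' =>
    simp only [em]
    constructor
    · intro h1
      injection h1 with h1
      rw [h1]
    · intro h1
      injection h1 with h1
      rw [h1]

lemma em_ltO {a : ℕ} (hh : StrictMono h) (u v : Wo n k a) : ltO (em h u) (em h v) ↔ ltO u v := by
  constructor
  · rintro (⟨x, y, h1, h2, h3⟩ | ⟨i, j, h1, h2, h3⟩)
    · cases u with
      | el x' =>
        cases v with
        | el y' =>
          simp only [em] at h1 h2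
          injection h1 with h1
          injection h2 with h2
          rw [← h1, ← h2] at h3
          exact Or.inl ⟨x', y', rfl, rfl, hh.lt_iff_lt.mp h3⟩
        | nb i => cases h2
        | wd f => cases h2
      | nb i => cases h1
      | wd f => cases h1
    · exact Or.inr ⟨i, j, em_nb.mp h1, em_nb.mp h2, h3⟩
  · rintro (⟨x, y, rfl, rfl, h3⟩ | ⟨i, j, rfl, rfl, h3⟩)
    · exact Or.inl ⟨h x, h y, rfl, rfl, hh h3⟩
    · exact Or.inr ⟨i, j, rfl, rfl, h3⟩

lemma em_bitO (c : Option (Fin s)) (u v : Wo n k (nA s)) :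
    bitO c (em h u) (em h v) ↔ bitO c u v := by
  rw [bitO_iff, bitO_iff]
  constructor
  · rintro ⟨f, p, h1, h2, h3⟩
    exact ⟨f, p, em_wd.mp h1, em_nb.mp h2, h3⟩
  · rintro ⟨f, p, h1, h2, h3⟩
    exact ⟨f, p, em_wd.mpr h1, em_nb.mpr h2, h3⟩

/-- witnesses are numbers -/
lemma em_ex (u : Wo n k (nA s)) (c : Option (Fin s)) (P : Wo M k (nA s) → Prop) :
    (∃ ν, bitO c (em h u) ν ∧ P ν) ↔ ∃ ν, bitO c u ν ∧ P (em h ν) := by
  constructor
  · rintro ⟨ν, h1, h2⟩
    obtain ⟨f, p, h3, rfl, h4⟩ := (bitO_iff _ _ _).mp h1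
    refine ⟨Wo.nb p.castSucc, (bitO_iff _ _ _).mpr ⟨f, p, em_wd.mp h3, rfl, h4⟩, h2⟩
  · rintro ⟨ν, h1, h2⟩
    exact ⟨em h ν, (em_bitO c u ν).mpr h1, h2⟩

lemma em_all (u : Wo n k (nA s)) (c : Option (Fin s)) (P : Wo M k (nA s) → Prop) :
    (∀ ν, bitO c (em h u) ν → P ν) ↔ ∀ ν, bitO c u ν → P (em h ν) := by
  constructor
  · intro h1 ν hν
    exact h1 _ ((em_bitO c u ν).mpr hν)
  · intro h1 ν hν
    obtain ⟨f, p, h3, rfl, h4⟩ := (bitO_iff _ _ _).mp hν
    exact h1 (Wo.nb p.castSucc) ((bitO_iff _ _ _).mpr ⟨f, p, em_wd.mp h3, rfl, h4⟩)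

variable (hh : StrictMono h) (y y' : NI s → Wo n k (nA s))

include hh

lemma em_inGap (o : Option (Fin s)) (x : Wo n k (nA s)) :
    inGap (fun c => em h (y c)) o (em h x) ↔ inGap y o x := by
  unfold inGap
  apply and_congr
  · apply forall_congr'
    intro i
    apply imp_congr_right
    intro _
    exact em_ltO hh (bc y i) x
  · exact imp_congr (em_isEl (sb y o)) (em_ltO hh x (sb y o))

lemma em_vldO : vldO (fun c => em h (y c)) ↔ vldO y := by
  have hi := em_inj (k := k) (a := nA s) hh.injective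
  unfold vldO
  apply and_congr
  · have h1 := em_ex (h := h) (nu y) none (fun _ => True)
    simp only [and_true] at h1
    exact h1
  apply and_congr
  · constructor
    · intro h1 ν ν' hν hν'
      exact hi (h1 _ _ ((em_bitO none (nu y) ν).mpr hν) ((em_bitO none (nu y) ν').mpr hν'))
    · intro h1 ν ν' hν hν'
      obtain ⟨f, p, h3, rfl, h4⟩ := (bitO_iff _ _ _).mp hν
      obtain ⟨f', p', h3', rfl, h4'⟩ := (bitO_iff _ _ _).mp hν'
      have h5 := h1 (Wo.nb p.castSucc) (Wo.nb p'.castSucc)
        ((bitO_iff _ _ _).mpr ⟨f, p, em_wd.mp h3, rfl, h4⟩)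
        ((bitO_iff _ _ _).mpr ⟨f', p', em_wd.mp h3', rfl, h4'⟩)
      injection h5 with h5
      rw [h5]
  apply and_congr
  · exact forall_congr' fun i => em_isEl (bc y i)
  apply and_congr
  · apply forall_congr'
    intro o
    apply imp_congr (em_isEl (sb y o))
    constructor
    · rintro ⟨ν, j, hj⟩
      obtain ⟨f, p, h3, rfl, h4⟩ := (bitO_iff _ _ _).mp hj
      exact ⟨Wo.nb p.castSucc, j, (bitO_iff _ _ _).mpr ⟨f, p, em_wd.mp h3, rfl, h4⟩⟩
    · rintro ⟨ν, j, hj⟩
      exact ⟨em h ν, j, (em_bitO (some j) (sc y o) ν).mpr hj⟩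
  · apply forall_congr'
    intro i
    exact imp_congr (em_isEl (sb y (some i))) (em_ltO hh (bc y i) (sb y (some i)))

lemma em_sameO : sameO (fun c => em h (y c)) (fun c => em h (y' c)) ↔ sameO y y' := by
  have hi := em_inj (k := k) (a := nA s) hh.injective
  unfold sameO
  constructor
  · intro h1 ν hν hν' c
    exact hi (h1 _ ((em_bitO none (nu y) ν).mpr hν) ((em_bitO none (nu y') ν).mpr hν') c)
  · intro h1 ν hν hν' c
    obtain ⟨f, p, h3, rfl, h4⟩ := (bitO_iff _ _ _).mp hν
    have h5 := h1 (Wo.nb p.castSucc) ((bitO_iff _ _ _).mpr ⟨f, p, em_wd.mp h3, rfl, h4⟩)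
      ((em_bitO (h := h) none (nu y') (Wo.nb p.castSucc)).mp hν') c
    exact congrArg (em h) h5

lemma em_distO : distO (fun c => em h (y c)) (fun c => em h (y' c)) ↔ distO y y' := by
  have hi := em_inj (k := k) (a := nA s) hh.injective
  unfold distO
  exact imp_congr (forall_congr' fun i => hi.eq_iff) (forall_congr' fun c => hi.eq_iff)

lemma em_incO : incO (fun c => em h (y c)) (fun c => em h (y' c)) ↔ incO y y' := by
  have hi := em_inj (k := k) (a := nA s) hh.injective
  unfold incO
  have h1 := em_all (h := h) (nu y') none (fun ν => ∀ j,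
    (∀ i, (bitO (some j) (gc (fun c => em h (y c)) i) ν ↔
      bc (fun c => em h (y' c)) j = bc (fun c => em h (y c)) i)) ∧
    ∀ o, isEl (sb (fun c => em h (y c)) o) → (bitO (some j) (sc (fun c => em h (y c)) o) ν ↔
      bc (fun c => em h (y' c)) j = sb (fun c => em h (y c)) o))
  refine h1.trans ?_
  apply forall_congr'
  intro ν
  apply imp_congr_right
  intro _
  apply forall_congr'
  intro j
  apply and_congr
  · apply forall_congr'
    intro i
    exact iff_congr (em_bitO (some j) (gc y i) ν) hi.eq_iff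
  · apply forall_congr'
    intro o
    exact imp_congr (em_isEl (sb y o)) (iff_congr (em_bitO (some j) (sc y o) ν) hi.eq_iff)

lemma em_cpO : cpO (fun c => em h (y c)) (fun c => em h (y' c)) ↔ cpO y y' := by
  unfold cpO
  rw [em_vldO hh y, em_sameO hh y y', em_distO hh y y', em_incO hh y y']
  apply and_congr_right
  intro _
  apply and_congr_right
  intro _
  apply and_congr_right
  intro _
  apply and_congr_right
  intro _
  unfold gapO
  apply forall_congr'
  intro o
  apply forall_congr'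
  intro j
  exact not_congr (em_inGap hh y o (bc y' j))

lemma em_wtO (x : Wo n k (nA s)) : wtO (fun c => em h (y c)) (em h x) ↔ wtO y x := by
  have hi := em_inj (k := k) (a := nA s) hh.injective
  unfold wtO
  apply and_congr (em_isEl x)
  apply or_congr
  · exact exists_congr fun i => hi.eq_iff
  · exact exists_congr fun o => em_inGap hh y o x

omit hh in
lemma em_posO (ν : Wo n k (nA s)) : posO (em h ν) ↔ posO ν := by
  rw [posO_iff, posO_iff]
  exact exists_congr fun p => em_nb

lemma em_atO (Y : Fin s → NI s → Wo n k (nA s)) (x : Fin s → Wo n k (nA s)) :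
    atO (fun j c => em h (Y j c)) (fun j => em h (x j)) ↔ atO Y x := by
  have hi := em_inj (k := k) (a := nA s) hh.injective
  unfold atO
  constructor
  · rintro ⟨ν, h1, h2⟩
    obtain ⟨p, rfl⟩ := (posO_iff _).mp h1
    refine ⟨Wo.nb p.castSucc, (posO_iff _).mpr ⟨p, rfl⟩, fun j => ?_⟩
    obtain ⟨i, h3, h4⟩ := h2 j
    exact ⟨i, hi h3, (em_bitO (h := h) (some j) (gc (Y j) i) (Wo.nb p.castSucc)).mp h4⟩
  · rintro ⟨ν, h1, h2⟩
    refine ⟨em h ν, (em_posO ν).mpr h1, fun j => ?_⟩
    obtain ⟨i, h3, h4⟩ := h2 j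
    exact ⟨i, congrArg (em h) h3, (em_bitO (some j) (gc (Y j) i) ν).mpr h4⟩

/-- the new relations other than the old ones are preserved -/
lemma em_famT {τ : Voc} (A : Str τ (Fin n)) (B : Str τ (Fin M)) (κ : Kd)
    (v : argT τ s (Sum.inr κ) → Wo n k (nA s)) :
    famT B (Sum.inr κ) (fun c => em h (v c)) ↔ famT A (Sum.inr κ) v := by
  cases κ with
  | isE => exact em_isEl (v ())
  | k0 =>
    change (¬ ∃ ν : Wo M k (nA s), posO ν) ↔ ¬ ∃ ν : Wo n k (nA s), posO ν
    apply not_congr
    constructor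
    · rintro ⟨ν, hν⟩
      obtain ⟨p, rfl⟩ := (posO_iff _).mp hν
      exact ⟨Wo.nb p.castSucc, (posO_iff _).mpr ⟨p, rfl⟩⟩
    · rintro ⟨ν, hν⟩
      obtain ⟨p, rfl⟩ := (posO_iff _).mp hν
      exact ⟨Wo.nb p.castSucc, (posO_iff _).mpr ⟨p, rfl⟩⟩
  | cp => exact em_cpO hh (fun c => v (false, c)) (fun c => v (true, c))
  | wt => exact em_wtO hh (fun c => v (some c)) (v none)
  | at' => exact em_atO hh (fun j c => v (j, some c)) (fun j => v (j, none))

end

end Pool.Agent.Helper265_EW.V
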