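import Pool.Agent.Helper265_EW.VMain

set_option linter.unusedSectionVars false
set_option linter.unusedVariables false

/-! The formula with names, also over the empty structure. -/

namespace Pool.Agent.Helper265_EW.V

open Finset Classical Pool.Agent.Helper265_EW.G Pool.Agent.Helper265_EW.P
open Pool.Agent.Helper265_EW.N

noncomputable section

lemma nA_pos (s : ℕ) : 0 < nA s := Fintype.card_pos

/-- a default object -/
def dfl {s n k : ℕ} : UV n k (nA s) := Sum.inr (fun _ => ⟨0, nA_pos s⟩)

section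

variable {τ : Voc} {s m : ℕ} (φ : PiF τ s (m + 2)) (bb : Bool) (w0 : ℕ) {n k : ℕ}
  (T : Finset (NI s → UV n k (nA s))) (A : Str τ (Fin n)) (S : Finset (Fin s → Fin n))

lemma gdV_allU : (∀ x0, gdV φ w0 T x0) ↔
    ∀ y ∈ T, ∀ y' ∈ T, cpO (tv y) (tv y') := by
  constructor
  · intro h y hy y' hy'
    obtain ⟨x0, h1, h2⟩ : ∃ x0 : XV φ w0 n k 0,
        (fun c => x0 (eB φ w0 0 (Sum.inr (Sum.inr (Sum.inl false), c)))) = y ∧
        (fun c => x0 (eB φ w0 0 (Sum.inr (Sum.inr (Sum.inl true), c)))) = y' := by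
      refine ⟨fun i => match (eB φ w0 0).symm i with
        | Sum.inr (Sum.inr (Sum.inl false), c) => y c
        | Sum.inr (Sum.inr (Sum.inl true), c) => y' c
        | _ => dfl, ?_, ?_⟩
      · funext c
        simp only [Equiv.symm_apply_apply]
      · funext c
        simp only [Equiv.symm_apply_apply]
    have h3 := h x0
    unfold gdV at h3
    rw [h1, h2] at h3
    exact h3 ⟨hy, hy'⟩
  · intro h x0 hx0
    exact h _ hx0.1 _ hx0.2

/-- the meaning of the critical event -/
theorem ev_keyU (hw : φ.ψ.CertV (lastVar φ.len (m + 2)) bb w0) (hE : Enc T S)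
    (v : Tup (XV φ w0 n k) (m + 1)) (x : Tup (fun i => Fin (φ.len i) → Fin n) (m + 1))
    (hv : stt (piV φ w0 T) (m + 1) v = Sum.inl x) :
    (∃ y : XV φ w0 n k (m + 1), evA φ bb w0 T A (v, y)) ↔
    ∃ b : Fin (φ.len (m + 1)) → Fin n,
      φ.ψ.eval (rf φ A (jn φ (asg φ.len (m + 1) x) b)) (ef φ (jn φ (asg φ.len (m + 1) x) b))
        (fun u => decide ((fun i => jn φ (asg φ.len (m + 1) x) b (u i)) ∈ S)) = bb := by
  have hio := asg_ioV φ w0 T (m + 1) v x hv
  -- values of the relations and equalities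
  have hre : ∀ (a : Vars (lenV φ w0) (m + 2) → UV n k (nA s)) (z : Vars φ.len (m + 2) → Fin n),
      (∀ u, a (ioV φ w0 (m + 2) u) = Sum.inl (z u)) →
      (fun (R : Fin τ.num) (v : Fin (τ.ar R) → Vars φ.len (m + 2)) =>
        getT (rV φ w0 A a) (Sum.inl R) (fun i => ioV φ w0 (m + 2) (v i))) = rf φ A z ∧
      (fun u v => eV φ w0 a (ioV φ w0 (m + 2) u) (ioV φ w0 (m + 2) v)) = ef φ z := by
    intro a z hz
    constructor
    · funext R u
      unfold rV rf
      rw [getT_str, Bool.eq_iff_iff, decide_eq_true_eq]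
      constructor
      · rintro ⟨q, hq1, hq2⟩
        have h1 : q = fun i => z (u i) := by
          funext i
          have h2 : toV (a (ioV φ w0 (m + 2) (u i))) = Wo.el (q i) := hq1 i
          rw [hz] at h2
          simp only [toV] at h2
          injection h2 with h2
          exact h2.symm
        rw [h1] at hq2
        exact hq2
      · intro hq
        refine ⟨fun i => z (u i), fun i => ?_, hq⟩
        change toV (a (ioV φ w0 (m + 2) (u i))) = _
        rw [hz]
        rfl
    · funext u u'
      unfold eV ef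
      rw [hz, hz, decide_eq_decide]
      exact ⟨fun h => Sum.inl_injective h, fun h => by rw [h]⟩
  constructor
  · rintro ⟨y, h1, h2⟩
    have h3 : ∀ j : Fin (φ.len (m + 1)), ∃ b, y (eB φ w0 (m + 1) (Sum.inl j)) = Sum.inl b := by
      intro j
      have h4 := h1 j
      rw [isEV_a] at h4
      exact h4
    choose b hb using h3
    have hz : ∀ u, asg (lenV φ w0) (m + 2) (v, y) (ioV φ w0 (m + 2) u) =
        Sum.inl (jn φ (asg φ.len (m + 1) x) b u) := by
      intro u
      rcases u with u | j
      · exact (hio u).1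
      · exact hb j
    refine ⟨b, ?_⟩
    obtain ⟨e1, e2⟩ := hre _ _ hz
    have h4 := h2 (fun u => decide ((fun i => jn φ (asg φ.len (m + 1) x) b (u i)) ∈ S)) (by
      intro u hu
      rw [decide_eq_true_eq]
      exact (va_iff φ w0 T A S hE _ _ hz u hu).symm)
    rw [e1, e2] at h4
    exact h4
  · rintro ⟨b, hb⟩
    obtain ⟨G, hG1, hG2, hG3⟩ := hw _ _ _ hb
    -- names of the guards
    have hname : ∀ g ∈ G, 0 < k → ∃ y ∈ T, ∀ i,
        wtO (tv y) (Wo.el (jn φ (asg φ.len (m + 1) x) b (g i))) := by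
      intro g hg hk
      obtain ⟨hE1, -, hE3⟩ := hE.2 hk
      rcases hG2 g hg with h1 | h1
      · exact hE3 _ (of_decide_eq_true h1)
      · by_cases hs : Nonempty (Fin s)
        · obtain ⟨i0⟩ := hs
          obtain ⟨y, hy, hy2⟩ := hE1 (jn φ (asg φ.len (m + 1) x) b (g i0))
          refine ⟨y, hy, fun i => ?_⟩
          rw [h1 i i0]
          exact hy2
        · obtain ⟨x0, hx0⟩ : S.Nonempty := Finset.card_pos.mp (by rw [hE.1]; exact hk)
          obtain ⟨y, hy, -⟩ := hE3 x0 hx0
          exact ⟨y, hy, fun i => absurd ⟨i⟩ hs⟩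
    obtain ⟨nm, hnm⟩ : ∃ nm : Option (At φ) → NI s → UV n k (nA s), ∀ g ∈ G, 0 < k →
        nm (some g) ∈ T ∧ ∀ i, wtO (tv (nm (some g)))
          (Wo.el (jn φ (asg φ.len (m + 1) x) b (g i))) := by
      refine ⟨fun o => match o with
        | some g => if h : g ∈ G ∧ 0 < k then (hname g h.1 h.2).choose else
            fun _ => dfl
        | none => fun _ => dfl, fun g hg hk => ?_⟩
      simp only
      rw [dif_pos ⟨hg, hk⟩]
      exact (hname g hg hk).choose_spec
    obtain ⟨f, hf⟩ := enum_small G w0 hG1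
    obtain ⟨y, hy1, hy2⟩ : ∃ y : XV φ w0 n k (m + 1),
        (∀ j, y (eB φ w0 (m + 1) (Sum.inl j)) = Sum.inl (b j)) ∧
        ∀ c' c, y (eB φ w0 (m + 1) (Sum.inr (Sum.inr (Sum.inr c'), c))) = nm (f c') c := by
      refine ⟨fun i => match (eB φ w0 (m + 1)).symm i with
        | Sum.inl j => Sum.inl (b j)
        | Sum.inr (Sum.inr (Sum.inr c'), c) => nm (f c') c
        | _ => dfl, fun j => ?_, fun c' c => ?_⟩
      · simp only [Equiv.symm_apply_apply]
      · simp only [Equiv.symm_apply_apply]
    have hz : ∀ u, asg (lenV φ w0) (m + 2) (v, y) (ioV φ w0 (m + 2) u) =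
        Sum.inl (jn φ (asg φ.len (m + 1) x) b u) := by
      intro u
      rcases u with u | j
      · exact (hio u).1
      · exact hy1 j
    refine ⟨y, fun j => ?_, fun ξ0 hξ0 => ?_⟩
    · rw [isEV_a]
      exact ⟨b j, hy1 j⟩
    · obtain ⟨e1, e2⟩ := hre _ _ hz
      rw [e1, e2]
      apply hG3
      intro u hu
      -- all arguments are known
      have hkn : ∀ j, knV φ w0 (rV φ w0 A (asg (lenV φ w0) (m + 2) (v, y)))
          (fun c => xV φ w0 T (asg (lenV φ w0) (m + 2) (v, y)) (tp (cvV φ w0 c))) (u j) := by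
        intro j
        unfold knV
        rw [k0V_a]
        by_cases hk : k = 0
        · exact Or.inl hk
        · right
          have hk' := Nat.pos_of_ne_zero hk
          rcases huj : u j with u' | j'
          · refine ⟨Sum.inl u', ?_⟩
            simp only
            rw [xV_tp, wtV_a, hz]
            rcases (hio u').2 with h1 | h1
            · exact absurd h1 hk
            · exact h1
          · obtain ⟨g, hg, i', hi'⟩ := hu j (by rw [huj]; trivial)
            obtain ⟨c', hc'⟩ := hf g hg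
            refine ⟨Sum.inr c', ?_⟩
            simp only
            rw [xV_tp, wtV_a, hz]
            have h1 : (fun c => asg (lenV φ w0) (m + 2) (v, y) (cvV φ w0 (Sum.inr c') c)) =
                nm (some g) := by
              funext c
              rw [← hc']
              exact hy2 c' c
            rw [h1]
            have h2 := (hnm g hg hk').2 i'
            rw [hi', huj] at h2
            exact ⟨(hnm g hg hk').1, h2⟩
      rw [Bool.eq_iff_iff, hξ0 u hkn, decide_eq_true_eq]
      exact va_iff φ w0 T A S hE _ _ hz u hkn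

theorem rest_iffU (hw : φ.ψ.CertV (lastVar φ.len (m + 2)) bb w0)
    (hbb : bb = decide (m % 2 = 0)) (hE : Enc T S) :
    alt (XV φ w0 n k) (m + 2) (restV φ bb w0 T A) ↔ φ.Holds A S := by
  have hneU : Nonempty (UV n k (nA s)) := ⟨dfl⟩
  have horig : φ.Holds A S ↔ alt (fun i => Fin (φ.len i) → Fin n) (m + 1) (fun x =>
      lev (m + 1) (fun b : Fin (φ.len (m + 1)) → Fin n =>
        φ.ψ.Holds A S (jn φ (asg φ.len (m + 1) x) b))) := by
    unfold PiF.Holds
    rw [quant_alt]
    exact Iff.rfl
  rw [horig]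
  change alt (XV φ w0 n k) (m + 1) (fun v => lev (m + 1) (fun y =>
    restV φ bb w0 T A (v, y))) ↔ _
  have hev : ∀ (x : Tup (fun i => Fin (φ.len i) → Fin n) (m + 1))
      (b : Fin (φ.len (m + 1)) → Fin n),
      φ.ψ.eval (rf φ A (jn φ (asg φ.len (m + 1) x) b)) (ef φ (jn φ (asg φ.len (m + 1) x) b))
        (fun u => decide ((fun i => jn φ (asg φ.len (m + 1) x) b (u i)) ∈ S)) = true ↔
      φ.ψ.Holds A S (jn φ (asg φ.len (m + 1) x) b) := fun x b =>
    P.eval_holds A S _ _ _ _ (fun R w => Iff.rfl) (fun u w => decide_eq_true_iff)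
      (fun w => decide_eq_true_iff) _
  apply alt_rel (piV φ w0 T)
  · intro i x
    have hname : ∀ j, ∃ y : NI s → UV n k (nA s), k = 0 ∨ (y ∈ T ∧ wtO (tv y) (Wo.el (x j))) := by
      intro j
      by_cases hk : k = 0
      · exact ⟨fun _ => dfl, Or.inl hk⟩
      · obtain ⟨y, hy⟩ := (hE.2 (Nat.pos_of_ne_zero hk)).1 (x j)
        exact ⟨y, Or.inr hy⟩
    choose nm hnm using hname
    refine ⟨fun i' => match (eB φ w0 i).symm i' with
        | Sum.inl j => Sum.inl (x j)
        | Sum.inr (Sum.inl j, c) => nm j c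
        | _ => dfl, ?_⟩
    rw [piV_some]
    intro j
    constructor
    · unfold orB
      simp only [Equiv.symm_apply_apply]
    · have h1 : nmB φ w0 i (fun i' => match (eB φ w0 i).symm i' with
          | Sum.inl j => Sum.inl (x j)
          | Sum.inr (Sum.inl j, c) => nm j c
          | _ => dfl) j = nm j := by
        funext c
        unfold nmB
        simp only [Equiv.symm_apply_apply]
      rw [h1]
      exact hnm j
  · intro i hi _
    exact ⟨fun _ => dfl⟩
  · intro v x hv
    have hkey := ev_keyU φ bb w0 T A S hw hE v x hv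
    have hrest : ∀ y : XV φ w0 n k (m + 1),
        (restV φ bb w0 T A (v, y) ↔ (evA φ bb w0 T A (v, y) ↔ bb = true)) := by
      intro y
      unfold restV
      have : stt (piV φ w0 T) (m + 1) (v, y).1 = Sum.inl x := hv
      rw [this]
    simp only [hrest]
    rcases Nat.mod_two_eq_zero_or_one m with hm | hm
    · have hb : bb = true := by rw [hbb]; simp [hm]
      rw [lev_odd (by omega), lev_odd (by omega)]
      simp only [hb, iff_true] at hkey ⊢
      rw [hkey]
      exact exists_congr fun b => hev x b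
    · have hb : bb = false := by rw [hbb]; simp [hm]
      rw [lev_even (by omega), lev_even (by omega)]
      simp only [hb, Bool.false_eq_true, iff_false] at hkey ⊢
      rw [← not_exists, hkey, not_exists]
      apply forall_congr'
      intro b
      rw [← hev x b]
      simp
  · intro v c hv
    have hrest : ∀ y : XV φ w0 n k (m + 1), (restV φ bb w0 T A (v, y) ↔ c = true) := by
      intro y
      unfold restV
      have : stt (piV φ w0 T) (m + 1) (v, y).1 = Sum.inr c := hv
      rw [this]
    simp only [hrest]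
    rw [lev_const]

/-- the formula with names -/
theorem U_WDF (hw : φ.ψ.CertV (lastVar φ.len (m + 2)) bb w0)
    (hbb : bb = decide (m % 2 = 0)) (k : ℕ) :
    WDF φ A k ↔ WDF (forV φ bb w0) (SV s A k) k := by
  have hne : ∀ i, i ≤ m + 1 → Nonempty (XV φ w0 n k i) := fun i _ => ⟨fun _ => dfl⟩
  constructor
  · rintro ⟨S, hS, hH⟩
    obtain ⟨T, hT, hcp, hE⟩ := encode S hS
    refine ⟨TT T, by rw [TT_card, hT], ?_⟩
    rw [holds_altV, alt_first (gdV φ w0 T) (m + 1) hne, gdV_allU φ w0 T]
    exact ⟨hcp, (rest_iffU φ bb w0 T A S hw hbb hE).mpr hH⟩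
  · rintro ⟨T', hT', hH⟩
    obtain ⟨T, rfl⟩ := ex_TT T'
    rw [holds_altV, alt_first (gdV φ w0 T) (m + 1) hne, gdV_allU φ w0 T] at hH
    rw [TT_card] at hT'
    obtain ⟨S, hE, -⟩ := decode T hT' hH.1
    exact ⟨S, hE.1, (rest_iffU φ bb w0 T A S hw hbb hE).mp hH.2⟩

end

end

end Pool.Agent.Helper265_EW.V
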