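import Pool.Agent.Helper265_EW.UDefs
import Pool.Agent.Helper265_EW.UComp

set_option linter.unusedSectionVars false

/-! Upper and lower bounds for circuit reductions in terms of the width. -/

namespace Pool.Agent.Helper265_EW.Y

open Finset Classical Pool.Agent.Helper265_EW.G Pool.Agent.Helper265_EW.P
open Pool.Agent.Helper265_EW.C Pool.Agent.Helper265_EW.X

noncomputable section

lemma width_cases {τ : Voc} {s t w : ℕ} (ht : 1 ≤ t) (φ : PiF τ s t) (h : φ.width ≤ w) :
    φ.GuardWidth w ∨ φ.VarWidth w := by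
  unfold PiF.width at h
  rcases min_le_iff.mp h with h | h
  · exact Or.inl (T.guard_ex ht φ (Or.inl h))
  · rcases min_le_iff.mp h with h | h
    · exact Or.inr (V.varWidth_of_innerVars φ w h)
    · exact Or.inl (T.guard_ex ht φ (Or.inr (Or.inr (Or.inl h))))

lemma occP_zero {τ : Voc} {s : ℕ} {V : Type} (L : V → Prop) (ψ : QF τ s V)
    (h : ∀ u, L u → ¬ ψ.InX u) : ψ.occP (fun v => ∃ i, L (v i)) = 0 := by
  induction ψ with
  | rel R v => rfl
  | eq u v => rfl
  | mem v =>
    simp only [QF.occP]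
    rw [if_neg]
    rintro ⟨i, hi⟩
    exact h _ hi ⟨i, rfl⟩
  | not ψ ih => exact ih h
  | and ψ χ ih1 ih2 =>
    simp only [QF.occP]
    rw [ih1 (fun u hu h1 => h u hu (Or.inl h1)), ih2 (fun u hu h1 => h u hu (Or.inr h1))]

/-- a formula of width zero has no inner occurrences -/
lemma innerOcc_zero {τ : Voc} {s t : ℕ} (φ : PiF τ s t) (h : φ.width = 0) :
    φ.innerOcc = 0 := by
  unfold PiF.width at h
  rcases Nat.min_eq_zero_iff.mp h with h | h
  · exact h
  · rcases Nat.min_eq_zero_iff.mp h with h | h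
    · apply occP_zero
      intro u hu h1
      unfold PiF.innerVars at h
      have hfin : Finite (Vars φ.len t) := inferInstance
      have h2 : Nonempty {u : Vars φ.len t // lastVar φ.len t u ∧ φ.ψ.InX u} := ⟨⟨u, hu, h1⟩⟩
      have h3 : 0 < Nat.card {u : Vars φ.len t // lastVar φ.len t u ∧ φ.ψ.InX u} :=
        Nat.card_pos
      omega
    · omega

/-- lower bounds on restricted instances, width -/
theorem no_redAt_width (m d w p q u v : ℕ) (hd : 1 ≤ d) (hq : 1 ≤ q)
    (hu : 1 ≤ u) (huv : u ≤ v) (hpq' : p ≤ q) (hpq : v * p * w < q * (u * (d + 1)))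
    {τ' : Voc} {s : ℕ} (φ : PiF τ' s (m + 2)) (h : φ.width ≤ w) :
    ¬ RedDAt u v p q (srcFt (decide (m % 2 = 0)) m d) φ := by
  rcases Nat.eq_zero_or_pos w with h0 | h0
  · refine no_redAt_D m d w p q u v hd hq hu huv hpq φ ?_
    rw [innerOcc_zero φ (by omega)]
    omega
  · rcases width_cases (by omega) φ h with h1 | h1
    · exact no_redAt_guardD m d w p q u v hd h0 hq hu huv hpq' hpq φ h1
    · exact no_redAt_varD m d w p q u v hd h0 hq hu huv hpq' hpq φ h1

/-- lower bounds for the normal form problems, width -/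
theorem no_red_width (m d : ℕ) (hd : 2 ≤ d) (p q : ℕ) (hq : 1 ≤ q) (hpq : p ≤ q) {τ : Voc}
    {s : ℕ} (φ : PiF τ s (m + 2)) (hpw : p * φ.width < q * d) :
    ¬ RedD p q (normF (decide (m % 2 = 0)) m d) φ := by
  rcases width_cases (by omega) φ le_rfl with h1 | h1
  · exact no_red_guardD m d _ hd p q hq hpq hpw φ h1
  · exact no_red_varD m d _ hd p q hq hpq hpw φ h1

/-- upper bounds, width -/
theorem red_width (m d : ℕ) (hd : 1 ≤ d) (e : ℕ) (he : 1 ≤ e) (t' : ℕ) (τ : Voc) (s : ℕ)
    (φ : PiF τ s t') (h : t' < m + 2 ∨ (t' = m + 2 ∧ φ.width ≤ d * e)) :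
    RedC e 1 φ (normF (decide (m % 2 = 0)) m d) := by
  rcases h with h | ⟨rfl, h⟩
  · exact X.red_guard m d hd e he t' τ s φ (Or.inl h)
  · rcases width_cases (by omega) φ h with h1 | h1
    · exact X.red_guard m d hd e he (m + 2) τ s φ (Or.inr ⟨rfl, h1⟩)
    · exact red_var m d hd e he τ s φ h1

end

end Pool.Agent.Helper265_EW.Y
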