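import Pool.Agent.Helper265_EW.UInv
import Pool.Agent.Helper265_EW.UMain
import Pool.Agent.Helper265_EW.TRes

set_option linter.unusedSectionVars false
set_option linter.unusedVariables false

/-! Extension of the output of a transformation by words. -/

namespace Pool.Agent.Helper265_EW.V

open Finset Classical Pool.Agent.Helper265_EW.N
open Pool.Agent.Helper265_EW.G (WDF_equiv)
open Pool.Agent.Helper265_EW.C (orF holds_orF depth_orF size_orF cst holds_cst depth_cst size_cst)
open Pool.Agent.Helper265_EW.T (and2 holds_and2 depth_and2 size_and2)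

noncomputable section

section Step

variable {τ τ' : Voc} {n : ℕ} (s : ℕ) (T : Tr τ τ' n)

/-- candidates for the extended universe -/
abbrev U1 : Type := Fin T.M ⊕ (Σ j : Fin (T.K + 1), (Fin j.val → Fin (nA s)))

/-- elements and words as candidates -/
def emb (j : Fin (T.K + 1)) : UV T.M j.val (nA s) → U1 s T
  | Sum.inl x => Sum.inl x
  | Sum.inr f => Sum.inr ⟨j, f⟩

lemma emb_inj (j : Fin (T.K + 1)) : Function.Injective (emb s T j) := by
  intro u v h
  rcases u with u | u <;> rcases v with v | v
  · simp only [emb] at h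
    rw [Sum.inl_injective h]
  · simp only [emb] at h
    cases h
  · simp only [emb] at h
    cases h
  · simp only [emb] at h
    have h1 := Sum.inr_injective h
    have h2 := eq_of_heq (Sigma.mk.inj_iff.mp h1).2
    rw [h2]

/-- formulas for the new relations -/
def fU : (R : RV τ') → (argT τ' s R → U1 s T) → Fm (Bit τ n)
  | Sum.inl R, w => if h : ∃ y : Fin (τ'.ar R) → Fin T.M, ∀ i : Fin (τ'.ar R),
      w i = Sum.inl (y i) then T.rel R h.choose else cst false
  | Sum.inr κ, w => orF (fun j : Fin (T.K + 1) => and2 (T.par j)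
      (cst (decide (∃ w' : argT τ' s (Sum.inr κ) → UV T.M j.val (nA s),
        (∀ c, w c = emb s T j (w' c)) ∧
        famT (fun _ _ => false : Str τ' (Fin T.M)) (Sum.inr κ) (fun c => toV (w' c))))))

def e1 : U1 s T ≃ Fin (Fintype.card (U1 s T)) := Fintype.equivFin _

/-- formulas for the universe -/
def dU : U1 s T → Fm (Bit τ n)
  | Sum.inl y => T.dom y
  | Sum.inr p => T.par p.1

/-- the extended transformation -/
def stT : Tr τ (vocV τ' s) n where
  M := Fintype.card (U1 s T)
  K := T.K
  dom x := dU s T ((e1 s T).symm x)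
  rel R w := fU s T ((eRV τ').symm R) (fun c => (e1 s T).symm (w (eT τ' s _ c)))
  par := T.par

variable (A : Str τ (Fin n)) (j : Fin (T.K + 1)) (hj : ∀ j', (T.par j').Holds (bits A) ↔ j' = j)

/-- the candidates in the universe -/
def DU : Finset (Fin T.M) := Finset.univ.filter (fun a => (T.dom a).Holds (bits A))

def hU : Fin (DU T A).card ↪o Fin T.M := (DU T A).orderEmbOfFin rfl

lemma hU_mem (i : Fin (DU T A).card) : (T.dom (hU T A i)).Holds (bits A) :=
  (Finset.mem_filter.mp ((DU T A).orderEmbOfFin_mem rfl i)).2

lemma hU_surj (a : Fin T.M) (h : (T.dom a).Holds (bits A)) : ∃ i, hU T A i = a := by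
  have h1 : a ∈ Set.range ((DU T A).orderEmbOfFin rfl) := by
    rw [Finset.range_orderEmbOfFin]
    exact Finset.mem_filter.mpr ⟨Finset.mem_univ _, h⟩
  exact h1

/-- enumeration of the universe -/
def epU : Fin (DU T A).card ≃ T.Univ A :=
  Equiv.ofBijective (fun i => ⟨hU T A i, hU_mem T A i⟩) (by
    constructor
    · intro i i' h
      exact (hU T A).injective (congrArg (fun z : T.Univ A => z.1) h)
    · rintro ⟨a, ha⟩
      obtain ⟨i, hi⟩ := hU_surj T A a ha
      exact ⟨i, Subtype.ext hi⟩)

/-- the output with universe `{0, …, n' - 1}` -/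
def AU : Str τ' (Fin (DU T A).card) := fun R v => T.out A R (fun i => epU T A (v i))

lemma AU_WD {s' t' : ℕ} (χ : PiF τ' s' t') (K : ℕ) : WDF χ (AU T A) K ↔ WDF χ (T.out A) K := by
  rw [← WDF_equiv (epU T A).symm χ (T.out A) K]
  exact Iff.rfl

/-- embedding of elements and words -/
def io (k : ℕ) : UV (DU T A).card k (nA s) → UV T.M k (nA s) := Sum.map (hU T A) id

lemma io_inj (k : ℕ) : Function.Injective (io s T A k) :=
  Function.Injective.sumMap (hU T A).injective Function.injective_id

lemma toV_io (k : ℕ) (u : UV (DU T A).card k (nA s)) : toV (io s T A k u) = em (hU T A) (toV u) := by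
  rcases u with u | u
  · rfl
  · rfl

include hj in
lemma fU_holds (R : RV τ') (u : argT τ' s R → UV (DU T A).card j.val (nA s)) :
    (fU s T R (fun c => emb s T j (io s T A j.val (u c)))).Holds (bits A) ↔
      famT (AU T A) R (fun c => toV (u c)) := by
  rcases R with R | κ
  · simp only [fU]
    have hx : ∀ (y : Fin (τ'.ar R) → Fin T.M),
        (∀ i : Fin (τ'.ar R), emb s T j (io s T A j.val (u i)) = Sum.inl (y i)) →
        ∃ x : Fin (τ'.ar R) → Fin (DU T A).card, (∀ i : Fin (τ'.ar R), u i = Sum.inl (x i)) ∧
          ∀ i, hU T A (x i) = y i := by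
      intro y hy
      have h1 : ∀ i : Fin (τ'.ar R), ∃ x, u i = Sum.inl x ∧ hU T A x = y i := by
        intro i
        have h2 := hy i
        rcases h3 : u i with x | f
        · rw [h3] at h2
          exact ⟨x, rfl, Sum.inl_injective h2⟩
        · rw [h3] at h2
          cases h2
      choose x hx1 hx2 using h1
      exact ⟨x, hx1, hx2⟩
    have key : ∀ (y : Fin (τ'.ar R) → Fin T.M) (x : Fin (τ'.ar R) → Fin (DU T A).card),
        (∀ i, hU T A (x i) = y i) → ((T.rel R y).Holds (bits A) ↔ AU T A R x = true) := by
      intro y x h1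
      have h2 : y = fun i => (epU T A (x i)).1 := funext fun i => (h1 i).symm
      unfold AU Tr.out
      rw [decide_eq_true_eq, h2]
    split_ifs with h
    · obtain ⟨x, hx1, hx2⟩ := hx _ h.choose_spec
      rw [key _ x hx2]
      constructor
      · intro h1
        refine ⟨x, fun i => ?_, h1⟩
        change toV (u i) = _
        rw [hx1 i]
        rfl
      · rintro ⟨x', h1, h2⟩
        have h3 : x' = x := by
          funext i
          have h4 : toV (u i) = Wo.el (x' i) := h1 i
          rw [hx1 i] at h4
          simp only [toV] at h4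
          injection h4 with h4
          exact h4.symm
        rw [← h3]
        exact h2
    · rw [holds_cst]
      refine iff_of_false (by simp) ?_
      rintro ⟨x, h1, -⟩
      apply h
      refine ⟨fun i => hU T A (x i), fun i => ?_⟩
      have h2 : toV (u i) = Wo.el (x i) := h1 i
      rcases h3 : u i with x' | f
      · rw [h3] at h2
        simp only [toV] at h2
        injection h2 with h2
        rw [h2]
        rfl
      · rw [h3] at h2
        cases h2
  · simp only [fU]
    rw [holds_orF]
    simp only [holds_and2, holds_cst, decide_eq_true_eq, hj]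
    have hem := em_famT (h := hU T A) (s := s) (k := j.val) (hU T A).strictMono (AU T A)
      (fun _ _ => false : Str τ' (Fin T.M)) κ (fun c => toV (u c))
    rw [← hem]
    constructor
    · rintro ⟨j', rfl, w', h1, h2⟩
      have h3 : w' = fun c => io s T A j'.val (u c) := by
        funext c
        exact (emb_inj s T j' (h1 c)).symm
      rw [h3] at h2
      simp only [toV_io] at h2
      exact h2
    · intro h1
      refine ⟨j, rfl, fun c => io s T A j.val (u c), fun c => rfl, ?_⟩
      simp only [toV_io]
      exact h1

/-- the universes correspond -/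
def gU : UV (DU T A).card j.val (nA s) ≃ (stT s T).Univ A :=
  Equiv.ofBijective (fun u => ⟨e1 s T (emb s T j (io s T A j.val u)), by
    change (dU s T ((e1 s T).symm _)).Holds (bits A)
    rw [Equiv.symm_apply_apply]
    rcases u with u | u
    · exact hU_mem T A u
    · exact (hj j).mpr rfl⟩) (by
    constructor
    · intro u v h
      exact io_inj s T A _ (emb_inj s T j ((e1 s T).injective
        (congrArg (fun z : (stT s T).Univ A => z.1) h)))
    · rintro ⟨x, hx⟩
      have hx' : (dU s T ((e1 s T).symm x)).Holds (bits A) := hx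
      rcases h1 : (e1 s T).symm x with y | ⟨j', f⟩
      · rw [h1] at hx'
        obtain ⟨i, hi⟩ := hU_surj T A y hx'
        refine ⟨Sum.inl i, Subtype.ext ?_⟩
        change e1 s T (Sum.inl (hU T A i)) = x
        rw [hi, ← h1, Equiv.apply_symm_apply]
      · rw [h1] at hx'
        have h2 : j' = j := (hj j').mp hx'
        subst h2
        refine ⟨Sum.inr f, Subtype.ext ?_⟩
        change e1 s T (Sum.inr ⟨j', f⟩) = x
        rw [← h1, Equiv.apply_symm_apply])

include hj in
lemma stT_WD {s' t' : ℕ} (χ : PiF (vocV τ' s) s' t') (K : ℕ) :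
    WDF χ ((stT s T).out A) K ↔ WDF χ (SV s (AU T A) j.val) K := by
  rw [← WDF_equiv (gU s T A j hj) χ (SV s (AU T A) j.val) K]
  have h1 : (stT s T).out A = fun R w =>
      SV s (AU T A) j.val R (fun i => (gU s T A j hj).symm (w i)) := by
    funext R w
    obtain ⟨u, hu⟩ : ∃ u : Fin ((vocV τ' s).ar R) → UV (DU T A).card j.val (nA s),
        u = fun i => (gU s T A j hj).symm (w i) := ⟨_, rfl⟩
    have hw : w = fun i => gU s T A j hj (u i) := by
      funext i
      rw [hu]
      exact ((gU s T A j hj).apply_symm_apply _).symm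
    rw [← hu]
    unfold Tr.out
    rw [Bool.eq_iff_iff, decide_eq_true_eq]
    have h2 : (stT s T).rel R (fun i => (w i).1) = fU s T ((eRV τ').symm R)
        (fun c => emb s T j (io s T A j.val (u (eT τ' s _ c)))) := by
      change fU s T ((eRV τ').symm R) (fun c => (e1 s T).symm ((w (eT τ' s _ c)).1)) = _
      congr 1
      funext c
      rw [hw]
      exact (e1 s T).symm_apply_apply _
    rw [h2, fU_holds s T A j hj]
    unfold SV strV famV
    rw [decide_eq_true_eq]
  rw [h1]

end Step

end

end Pool.Agent.Helper265_EW.V
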