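import Pool.Agent.Helper265_EW.VName

set_option linter.unusedSectionVars false
set_option linter.unusedVariables false

/-! Sets of `k` pairwise compatible names correspond to sets of `k` tuples. -/

namespace Pool.Agent.Helper265_EW.V

open Finset Classical Pool.Agent.Helper265_EW.G Pool.Agent.Helper265_EW.P
open Pool.Agent.Helper265_EW.N

noncomputable section

variable {s n k : ℕ}

/-- a family as a family of objects -/
def tv {I : Type} {a : ℕ} (y : I → UV n k a) : I → Wo n k a := fun c => toV (y c)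

lemma toV_inj {a : ℕ} : Function.Injective (toV : UV n k a → Wo n k a) := by
  intro u v h
  rcases u with u | u <;> rcases v with v | v
  · simp only [toV] at h
    injection h with h
    rw [h]
  · simp only [toV] at h
    cases h
  · simp only [toV] at h
    cases h
  · simp only [toV] at h
    injection h with h
    rw [h]

/-- the names in `T` describe the set `S` -/
def Enc (T : Finset (NI s → UV n k (nA s))) (S : Finset (Fin s → Fin n)) : Prop :=
  S.card = k ∧ (0 < k →
    (∀ x : Fin n, ∃ y ∈ T, wtO (tv y) (Wo.el x)) ∧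
    (∀ (Y : Fin s → NI s → UV n k (nA s)) (x : Fin s → Fin n),
      (∀ j, Y j ∈ T ∧ wtO (tv (Y j)) (Wo.el (x j))) →
      (atO (fun j => tv (Y j)) (fun j => Wo.el (x j)) ↔ x ∈ S)) ∧
    (∀ x ∈ S, ∃ y ∈ T, ∀ i, wtO (tv y) (Wo.el (x i))))

theorem decode (T : Finset (NI s → UV n k (nA s))) (hT : T.card = k)
    (hcp : ∀ y ∈ T, ∀ y' ∈ T, cpO (tv y) (tv y')) :
    ∃ S : Finset (Fin s → Fin n), Enc T S ∧
      ∀ x, x ∈ S ↔ ∃ y ∈ T, ∀ i, bc (tv y) i = Wo.el (x i) := by
  -- the numbers
  have h1 : ∀ y ∈ T, ∃ p : Fin k, ∀ ν, bitO none (nu (tv y)) ν ↔ ν = Wo.nb p.castSucc := by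
    intro y hy
    obtain ⟨ν, hν⟩ := (hcp y hy y hy).1.1
    obtain ⟨f, p, h2, h3, h4⟩ := (bitO_iff _ _ _).mp hν
    refine ⟨p, fun ν' => ⟨fun h => ?_, fun h => ?_⟩⟩
    · rw [← h3]
      exact (hcp y hy y hy).1.2.1 ν' ν h hν
    · rw [h, ← h3]
      exact hν
  by_cases hk0 : k = 0
  · subst hk0
    have hTe : T = ∅ := Finset.card_eq_zero.mp hT
    refine ⟨∅, ⟨rfl, fun h => absurd h (lt_irrefl 0)⟩, fun x => ?_⟩
    rw [hTe]
    simp
  have hNe : Nonempty (Fin k) := ⟨⟨0, Nat.pos_of_ne_zero hk0⟩⟩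
  choose! num hnum using h1
  have hinj : ∀ y ∈ T, ∀ y' ∈ T, num y = num y' → y = y' := by
    intro y hy y' hy' h
    have h2 := (hcp y hy y' hy').2.1 (Wo.nb (num y).castSucc) ((hnum y hy _).mpr rfl)
      ((hnum y' hy' _).mpr (by rw [h]))
    funext c
    exact toV_inj (h2 c)
  have hsurj : ∀ p : Fin k, ∃ y ∈ T, num y = p := by
    intro p
    have h2 : (T.image num).card = k := by
      rw [Finset.card_image_of_injOn, hT]
      intro y hy y' hy' h
      exact hinj y hy y' hy' h
    have h3 : T.image num = Finset.univ := by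
      apply Finset.eq_univ_of_card
      rw [h2, Fintype.card_fin]
    have h4 : p ∈ T.image num := by rw [h3]; exact Finset.mem_univ _
    obtain ⟨y, hy, he⟩ := Finset.mem_image.mp h4
    exact ⟨y, hy, he⟩
  choose yy hyT hyn using hsurj
  have hyy : ∀ y ∈ T, y = yy (num y) := fun y hy => hinj y hy _ (hyT _) (hyn _).symm
  -- the tuples
  have h2 : ∀ p j, ∃ x : Fin n, bc (tv (yy p)) j = Wo.el x := fun p j =>
    (hcp _ (hyT p) _ (hyT p)).1.2.2.1 j
  choose tt htt using h2
  have htinj : Function.Injective tt := by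
    intro p q h
    have h3 := (hcp _ (hyT p) _ (hyT q)).2.2.1 (fun i => by rw [htt, htt, h])
    have h4 : yy p = yy q := by
      funext c
      exact toV_inj (h3 c)
    rw [← hyn p, ← hyn q, h4]
  have hS : ∀ x, x ∈ Finset.univ.image tt ↔ ∃ p, tt p = x := by
    intro x
    simp
  have hnu : ∀ q, bitO none (nu (tv (yy q))) (Wo.nb q.castSucc) := by
    intro q
    rw [hnum _ (hyT q), hyn q]
  -- facts
  have F1 : ∀ y ∈ T, ∀ i x, bc (tv y) i = Wo.el x → ∀ p j,
      (bitO (some j) (gc (tv y) i) (Wo.nb p.castSucc) ↔ tt p j = x) := by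
    intro y hy i x hx p j
    have h3 := ((hcp y hy _ (hyT p)).2.2.2.1 _ (hnu p) j).1 i
    rw [h3, hx, htt]
    constructor
    · intro h
      injection h
    · intro h
      rw [h]
  have F2 : ∀ y ∈ T, ∀ o x, inGap (tv y) o (Wo.el x) → ∀ p j, tt p j ≠ x := by
    intro y hy o x hx p j h
    have h3 := (hcp y hy _ (hyT p)).2.2.2.2 o j
    rw [htt, h] at h3
    exact h3 hx
  have F3 : ∀ y ∈ T, ∀ o x, sb (tv y) o = Wo.el x → ∃ p j, tt p j = x := by
    intro y hy o x hx
    have hel : isEl (sb (tv y) o) := ⟨x, hx⟩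
    obtain ⟨ν, j, hν⟩ := (hcp y hy y hy).1.2.2.2.1 o hel
    obtain ⟨f, p, -, h4, -⟩ := (bitO_iff _ _ _).mp hν
    rw [h4] at hν
    have h5 := ((hcp y hy _ (hyT p)).2.2.2.1 _ (hnu p) j).2 o hel
    have h6 := h5.mp hν
    rw [htt, hx] at h6
    refine ⟨p, j, ?_⟩
    injection h6
  refine ⟨Finset.univ.image tt, ⟨?_, fun hk => ⟨?_, ?_, ?_⟩⟩, ?_⟩
  · rw [Finset.card_image_of_injective _ htinj, Finset.card_univ, Fintype.card_fin]
  · -- every element is treated by some name
    intro x
    by_cases hx : ∃ p j, tt p j = x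
    · obtain ⟨p, j, hx⟩ := hx
      exact ⟨yy p, hyT p, ⟨x, rfl⟩, Or.inl ⟨j, by rw [htt, hx]⟩⟩
    · push Not at hx
      by_cases hb : ∃ q : Fin k × Fin s, tt q.1 q.2 < x
      · have hne : (Finset.univ.filter (fun q : Fin k × Fin s => tt q.1 q.2 < x)).Nonempty := by
          obtain ⟨q, hq⟩ := hb
          exact ⟨q, Finset.mem_filter.mpr ⟨Finset.mem_univ _, hq⟩⟩
        obtain ⟨q, hq, hmax⟩ := Finset.exists_max_image _
          (fun q : Fin k × Fin s => tt q.1 q.2) hne
        have hq' := (Finset.mem_filter.mp hq).2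
        refine ⟨yy q.1, hyT _, ⟨x, rfl⟩, Or.inr ⟨some q.2, ?_, ?_⟩⟩
        · intro i hi
          have hi' : q.2 = i := Option.some_injective _ hi
          rw [htt, ← hi', ltO_el]
          exact hq'
        · rintro ⟨z, hz⟩
          rw [hz, ltO_el]
          obtain ⟨p, j, hp⟩ := F3 _ (hyT q.1) _ _ hz
          have h7 := (hcp _ (hyT q.1) _ (hyT q.1)).1.2.2.2.2 q.2 ⟨z, hz⟩
          rw [htt, hz, ltO_el] at h7
          rcases lt_trichotomy x z with h8 | h8 | h8
          · exact h8
          · exact absurd (hp.trans h8.symm) (hx p j)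
          · have h9 := hmax (p, j) (Finset.mem_filter.mpr ⟨Finset.mem_univ _, by
              simp only
              rw [hp]
              exact h8⟩)
            simp only at h9
            rw [hp] at h9
            exact absurd h7 (not_lt.mpr h9)
      · push Not at hb
        refine ⟨yy ⟨0, hk⟩, hyT _, ⟨x, rfl⟩, Or.inr ⟨none, ?_, ?_⟩⟩
        · intro i hi
          exact absurd hi (by simp)
        · rintro ⟨z, hz⟩
          rw [hz, ltO_el]
          obtain ⟨p, j, hp⟩ := F3 _ (hyT _) _ _ hz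
          have h8 := hb (p, j)
          simp only at h8
          rw [hp] at h8
          rcases lt_or_eq_of_le h8 with h9 | h9
          · exact h9
          · exact absurd (hp.trans h9.symm) (hx p j)
  · -- membership
    intro Y x hY
    rw [hS]
    constructor
    · rintro ⟨ν, hν, h⟩
      obtain ⟨p, rfl⟩ := (posO_iff ν).mp hν
      refine ⟨p, ?_⟩
      funext j
      obtain ⟨i, h3, h4⟩ := h j
      exact (F1 _ (hY j).1 i _ h3 p j).mp h4
    · rintro ⟨p, rfl⟩
      refine ⟨Wo.nb p.castSucc, (posO_iff _).mpr ⟨p, rfl⟩, fun j => ?_⟩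
      obtain ⟨hj1, -, hj2⟩ := hY j
      rcases hj2 with ⟨i, hi⟩ | ⟨o, ho⟩
      · exact ⟨i, hi, (F1 _ hj1 i _ hi p j).mpr rfl⟩
      · exact absurd rfl (F2 _ hj1 o _ ho p j)
  · intro x hx
    rw [hS] at hx
    obtain ⟨p, rfl⟩ := hx
    exact ⟨yy p, hyT p, fun i => ⟨⟨_, rfl⟩, Or.inl ⟨i, htt p i⟩⟩⟩
  · intro x
    rw [hS]
    constructor
    · rintro ⟨p, rfl⟩
      exact ⟨yy p, hyT p, fun i => htt p i⟩
    · rintro ⟨y, hy, h⟩
      refine ⟨num y, ?_⟩
      funext i
      have h3 := h i
      rw [hyy y hy, htt] at h3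
      injection h3

/-- incidence words -/
def incF (tt : Fin k → Fin s → Fin n) (x : Fin n) : Fin k → Fin (nA s) := fun p =>
  (eA s).symm (fun c => match c with
    | none => false
    | some j => decide (tt p j = x))

/-- words for numbers -/
def hotF (p : Fin k) : Fin k → Fin (nA s) := fun q =>
  (eA s).symm (fun c => match c with
    | none => decide (q = p)
    | some _ => false)

lemma incF_some (tt : Fin k → Fin s → Fin n) (x : Fin n) (p : Fin k) (j : Fin s) :
    eA s (incF tt x p) (some j) = true ↔ tt p j = x := by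
  unfold incF
  rw [Equiv.apply_symm_apply, decide_eq_true_eq]

lemma hotF_none (p q : Fin k) : eA s (hotF p q) none = true ↔ q = p := by
  unfold hotF
  rw [Equiv.apply_symm_apply, decide_eq_true_eq]

/-- candidates for the next element -/
def nxC (tt : Fin k → Fin s → Fin n) (p : Fin k) (o : Option (Fin s)) : Finset (Fin n) :=
  Finset.univ.filter (fun x => (∃ q j, tt q j = x) ∧ ∀ i, o = some i → tt p i < x)

/-- the next element -/
def nx (tt : Fin k → Fin s → Fin n) (p : Fin k) (o : Option (Fin s)) : Option (Fin n) :=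
  if h : (nxC tt p o).Nonempty then some ((nxC tt p o).min' h) else none

lemma nx_some {tt : Fin k → Fin s → Fin n} {p : Fin k} {o : Option (Fin s)} {x : Fin n}
    (h : nx tt p o = some x) : (∃ q j, tt q j = x) ∧ (∀ i, o = some i → tt p i < x) ∧
      ∀ z ∈ nxC tt p o, x ≤ z := by
  unfold nx at h
  split_ifs at h with h1
  · have h2 := Option.some_injective _ h
    have h3 := Finset.min'_mem _ h1
    rw [h2] at h3
    have h4 := (Finset.mem_filter.mp h3).2
    refine ⟨h4.1, h4.2, fun z hz => ?_⟩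
    rw [← h2]
    exact Finset.min'_le _ _ hz

lemma nx_none {tt : Fin k → Fin s → Fin n} {p : Fin k} {o : Option (Fin s)}
    (h : nx tt p o = none) : ∀ z, z ∉ nxC tt p o := by
  unfold nx at h
  split_ifs at h with h1
  · intro z hz
    exact h1 ⟨z, hz⟩

/-- the name of a tuple -/
def nmF (tt : Fin k → Fin s → Fin n) (p : Fin k) : NI s → UV n k (nA s)
  | Sum.inl _ => Sum.inr (hotF p)
  | Sum.inr (Sum.inl (i, false)) => Sum.inl (tt p i)
  | Sum.inr (Sum.inl (i, true)) => Sum.inr (incF tt (tt p i))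
  | Sum.inr (Sum.inr (o, false)) => match nx tt p o with
    | some x => Sum.inl x
    | none => Sum.inr (hotF p)
  | Sum.inr (Sum.inr (o, true)) => match nx tt p o with
    | some x => Sum.inr (incF tt x)
    | none => Sum.inr (hotF p)

lemma nmF_nu (tt : Fin k → Fin s → Fin n) (p : Fin k) :
    nu (tv (nmF tt p)) = Wo.wd (hotF p) := rfl

lemma nmF_bc (tt : Fin k → Fin s → Fin n) (p : Fin k) (i : Fin s) :
    bc (tv (nmF tt p)) i = Wo.el (tt p i) := rfl

lemma nmF_gc (tt : Fin k → Fin s → Fin n) (p : Fin k) (i : Fin s) :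
    gc (tv (nmF tt p)) i = Wo.wd (incF tt (tt p i)) := rfl

lemma nmF_sb (tt : Fin k → Fin s → Fin n) (p : Fin k) (o : Option (Fin s)) (z : Fin n) :
    sb (tv (nmF tt p)) o = Wo.el z ↔ nx tt p o = some z := by
  unfold sb tv nmF
  simp only
  cases h : nx tt p o with
  | some x =>
    simp only [toV]
    constructor
    · intro h1
      injection h1 with h1
      rw [h1]
    · intro h1
      rw [Option.some_injective _ h1]
  | none =>
    simp only [toV]
    constructor
    · intro h1
      cases h1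
    · intro h1
      exact absurd h1 (by simp)

lemma nmF_sc {tt : Fin k → Fin s → Fin n} {p : Fin k} {o : Option (Fin s)} {z : Fin n}
    (h : nx tt p o = some z) : sc (tv (nmF tt p)) o = Wo.wd (incF tt z) := by
  unfold sc tv nmF
  simp only
  rw [h]
  rfl

lemma nmF_num (tt : Fin k → Fin s → Fin n) (p : Fin k) (ν : Wo n k (nA s)) :
    bitO none (nu (tv (nmF tt p))) ν ↔ ν = Wo.nb p.castSucc := by
  rw [nmF_nu, bitO_iff]
  constructor
  · rintro ⟨f, q, h1, h2, h3⟩
    injection h1 with h1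
    rw [← h1] at h3
    rw [h2, (hotF_none p q).mp h3]
  · intro h
    exact ⟨hotF p, p, rfl, h, (hotF_none p p).mpr rfl⟩

theorem nmF_cp (tt : Fin k → Fin s → Fin n) (ht : Function.Injective tt) (p q : Fin k) :
    cpO (tv (nmF tt p)) (tv (nmF tt q)) := by
  refine ⟨⟨?_, ?_, ?_, ?_, ?_⟩, ?_, ?_, ?_, ?_⟩
  · exact ⟨_, (nmF_num tt p _).mpr rfl⟩
  · intro ν ν' h h'
    rw [(nmF_num tt p ν).mp h, (nmF_num tt p ν').mp h']
  · intro i
    exact ⟨_, nmF_bc tt p i⟩
  · rintro o ⟨z, hz⟩
    rw [nmF_sb] at hz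
    obtain ⟨⟨q', j, hq⟩, -, -⟩ := nx_some hz
    refine ⟨Wo.nb q'.castSucc, j, ?_⟩
    rw [nmF_sc hz, bitO_wd, incF_some]
    exact hq
  · rintro i ⟨z, hz⟩
    rw [hz, nmF_bc, ltO_el]
    rw [nmF_sb] at hz
    exact (nx_some hz).2.1 i rfl
  · intro ν h h' c
    have h1 := ((nmF_num tt p ν).mp h).symm.trans ((nmF_num tt q ν).mp h')
    injection h1 with h1
    have h2 : p = q := Fin.castSucc_injective _ h1
    rw [h2]
  · intro h c
    have h1 : tt p = tt q := by
      funext i
      have h2 := h i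
      rw [nmF_bc, nmF_bc] at h2
      injection h2
    rw [ht h1]
  · intro ν hν j
    rw [(nmF_num tt q ν).mp hν]
    refine ⟨fun i => ?_, fun o ho => ?_⟩
    · rw [nmF_gc, bitO_wd, incF_some, nmF_bc, nmF_bc]
      constructor
      · intro h
        rw [h]
      · intro h
        injection h
    · obtain ⟨z, hz⟩ := ho
      rw [hz]
      rw [nmF_sb] at hz
      rw [nmF_sc hz, bitO_wd, incF_some, nmF_bc]
      constructor
      · intro h
        rw [h]
      · intro h
        injection h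
  · rintro o j ⟨h1, h2⟩
    rw [nmF_bc] at h1 h2
    have h3 : tt q j ∈ nxC tt p o := by
      refine Finset.mem_filter.mpr ⟨Finset.mem_univ _, ⟨q, j, rfl⟩, fun i hi => ?_⟩
      have h4 := h1 i hi
      rw [nmF_bc, ltO_el] at h4
      exact h4
    cases h : nx tt p o with
    | none => exact nx_none h _ h3
    | some z =>
      have h4 := (nmF_sb tt p o z).mpr h
      have h5 := h2 ⟨z, h4⟩
      rw [h4, ltO_el] at h5
      exact absurd h5 (not_lt.mpr ((nx_some h).2.2 _ h3))

theorem encode (S : Finset (Fin s → Fin n)) (hS : S.card = k) :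
    ∃ T : Finset (NI s → UV n k (nA s)), T.card = k ∧
      (∀ y ∈ T, ∀ y' ∈ T, cpO (tv y) (tv y')) ∧ Enc T S := by
  obtain ⟨tt, ht, him⟩ : ∃ tt : Fin k → Fin s → Fin n, Function.Injective tt ∧
      ∀ x, x ∈ S ↔ ∃ p, tt p = x := by
    have e : Fin k ≃ S := (Fintype.equivFinOfCardEq (by rw [Fintype.card_coe, hS])).symm
    refine ⟨fun p => (e p).1, fun p q h => e.injective (Subtype.ext h), fun x => ?_⟩
    constructor
    · intro hx
      refine ⟨e.symm ⟨x, hx⟩, ?_⟩
      change (e (e.symm ⟨x, hx⟩)).1 = x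
      rw [Equiv.apply_symm_apply]
    · rintro ⟨p, rfl⟩
      exact (e p).2
  have hcard : (Finset.univ.image (nmF tt)).card = k := by
    rw [Finset.card_image_of_injective, Finset.card_univ, Fintype.card_fin]
    intro p q h
    have h1 := (nmF_num tt p (Wo.nb p.castSucc)).mpr rfl
    rw [h, nmF_num] at h1
    injection h1 with h1
    exact Fin.castSucc_injective _ h1
  have hcp : ∀ y ∈ Finset.univ.image (nmF tt), ∀ y' ∈ Finset.univ.image (nmF tt),
      cpO (tv y) (tv y') := by
    intro y hy y' hy'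
    obtain ⟨p, -, rfl⟩ := Finset.mem_image.mp hy
    obtain ⟨q, -, rfl⟩ := Finset.mem_image.mp hy'
    exact nmF_cp tt ht p q
  obtain ⟨S', hE, hS'⟩ := decode _ hcard hcp
  have : S' = S := by
    ext x
    rw [hS', him]
    constructor
    · rintro ⟨y, hy, h⟩
      obtain ⟨p, -, rfl⟩ := Finset.mem_image.mp hy
      refine ⟨p, ?_⟩
      funext i
      have h2 := h i
      rw [nmF_bc] at h2
      injection h2
    · rintro ⟨p, rfl⟩
      exact ⟨_, Finset.mem_image_of_mem _ (Finset.mem_univ p), fun i => nmF_bc tt p i⟩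
  rw [this] at hE
  exact ⟨_, hcard, hcp, hE⟩

end

end Pool.Agent.Helper265_EW.V
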