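import Pool.Agent.Helper265_EW.VEnc
import Pool.Agent.Helper265_EW.VDefs

set_option linter.unusedSectionVars false
set_option linter.unusedVariables false

/-! The formula over the structure extended by words, with names. -/

namespace Pool.Agent.Helper265_EW.V

open Finset Classical Pool.Agent.Helper265_EW.G Pool.Agent.Helper265_EW.P
open Pool.Agent.Helper265_EW.N

noncomputable section

/-- kinds of new relations -/
inductive Kd : Type
  | isE | k0 | cp | wt | at'

instance : Finite Kd := by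
  have : Function.Injective (fun k : Kd => match k with
    | Kd.isE => (0 : Fin 5) | Kd.k0 => 1 | Kd.cp => 2 | Kd.wt => 3 | Kd.at' => 4) := by
    intro a b h
    cases a <;> cases b <;> simp_all
  exact Finite.of_injective _ this

instance : Fintype Kd := Fintype.ofFinite _

/-- indices of the new relations -/
abbrev RV (τ : Voc) : Type := Fin τ.num ⊕ Kd

/-- argument positions -/
def argT (τ : Voc) (s : ℕ) : RV τ → Type
  | Sum.inl R => Fin (τ.ar R)
  | Sum.inr Kd.isE => Unit
  | Sum.inr Kd.k0 => Empty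
  | Sum.inr Kd.cp => Bool × NI s
  | Sum.inr Kd.wt => Option (NI s)
  | Sum.inr Kd.at' => Fin s × Option (NI s)

instance instArg (τ : Voc) (s : ℕ) (R : RV τ) : Finite (argT τ s R) := by
  rcases R with R | R
  · exact inferInstanceAs (Finite (Fin (τ.ar R)))
  · cases R
    · exact inferInstanceAs (Finite Unit)
    · exact inferInstanceAs (Finite Empty)
    · exact inferInstanceAs (Finite (Bool × NI s))
    · exact inferInstanceAs (Finite (Option (NI s)))
    · exact inferInstanceAs (Finite (Fin s × Option (NI s)))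

instance instArgF (τ : Voc) (s : ℕ) (R : RV τ) : Fintype (argT τ s R) := Fintype.ofFinite _

def eRV (τ : Voc) : RV τ ≃ Fin (Fintype.card (RV τ)) := Fintype.equivFin _

def eT (τ : Voc) (s : ℕ) (R : RV τ) : argT τ s R ≃ Fin (Fintype.card (argT τ s R)) :=
  Fintype.equivFin _

/-- the new vocabulary -/
def vocV (τ : Voc) (s : ℕ) : Voc :=
  ⟨Fintype.card (RV τ), fun i => Fintype.card (argT τ s ((eRV τ).symm i))⟩

/-- the new relations on objects -/
def famT {τ : Voc} {s n k : ℕ} (A : Str τ (Fin n)) :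
    (R : RV τ) → (argT τ s R → Wo n k (nA s)) → Prop
  | Sum.inl R, v => ∃ x : Fin (τ.ar R) → Fin n, (∀ i, v i = Wo.el (x i)) ∧ A R x = true
  | Sum.inr Kd.isE, v => isEl (v ())
  | Sum.inr Kd.k0, _ => ¬ ∃ ν : Wo n k (nA s), posO ν
  | Sum.inr Kd.cp, v => cpO (fun c => v (false, c)) (fun c => v (true, c))
  | Sum.inr Kd.wt, v => wtO (fun c => v (some c)) (v none)
  | Sum.inr Kd.at', v => atO (fun j c => v (j, some c)) (fun j => v (j, none))

lemma dfn_famT {τ : Voc} {s : ℕ} {V : Type} (R : RV τ) (v : argT τ s R → V) :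
    Dfn (fun n k A S w => famT A R (fun c => w (v c)) : Qy τ sg0 (nA s) V) := by
  rcases R with R | R
  · exact dfn_rel R v
  · cases R
    · exact dfn_isEl (v ())
    · have h1 : Dfn (fun n k A S w => posO (w none) : Qy τ sg0 (nA s) (Option V)) := dfn_posO _
      exact h1.ex.not
    · exact dfn_cpO (fun c => v (false, c)) (fun c => v (true, c))
    · exact dfn_wtO (fun c => v (some c)) (v none)
    · exact dfn_atO (fun j c => v (j, some c)) (fun j => v (j, none))

/-- the new relations as queries -/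
def famV (τ : Voc) (s : ℕ) (i : Fin (vocV τ s).num) :
    Qy τ sg0 (nA s) (Fin ((vocV τ s).ar i)) :=
  fun n k A S w => famT A ((eRV τ).symm i) (fun c => w (eT τ s _ c))

lemma dfn_famV (τ : Voc) (s : ℕ) (i : Fin (vocV τ s).num) : Dfn (famV τ s i) :=
  dfn_famT ((eRV τ).symm i) (fun c => eT τ s _ c)

/-- the extended structure -/
abbrev SV {τ : Voc} (s : ℕ) {n : ℕ} (A : Str τ (Fin n)) (k : ℕ) :
    Str (vocV τ s) (UV n k (nA s)) := strV (nA s) (famV τ s) A k

/-- access to the truth values by indices -/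
def getT {τ : Voc} {s : ℕ} {V : Type}
    (ρ : ∀ i : Fin (vocV τ s).num, (Fin ((vocV τ s).ar i) → V) → Bool) (R : RV τ)
    (u : argT τ s R → V) : Bool :=
  ρ (eRV τ R) (fun j => u (cast (congrArg (argT τ s) ((eRV τ).symm_apply_apply R))
    ((eT τ s _).symm j)))

lemma getT_str {τ : Voc} {s n k : ℕ} {V : Type} (A : Str τ (Fin n))
    (w : V → UV n k (nA s)) (R : RV τ) (u : argT τ s R → V) :
    getT (fun i v => SV s A k i (fun j => w (v j))) R u =
      decide (famT A R (fun c => toV (w (u c)))) := by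
  have h : ∀ (R' : RV τ) (h : R' = R),
      decide (famT A R' (fun c => toV (w (u (cast (congrArg (argT τ s) h)
        ((eT τ s R').symm (eT τ s R' c))))))) =
        decide (famT A R (fun c => toV (w (u c)))) := by
    rintro R' rfl
    congr 2
    funext c
    rw [Equiv.symm_apply_apply]
    rfl
  exact h _ ((eRV τ).symm_apply_apply R)

section Acc

variable {τ : Voc} {s : ℕ} {V : Type}
  (ρ : ∀ i : Fin (vocV τ s).num, (Fin ((vocV τ s).ar i) → V) → Bool)

def isEV (u : V) : Prop := getT ρ (Sum.inr Kd.isE) (fun _ => u) = true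
def k0V : Prop := getT ρ (Sum.inr Kd.k0) (fun e => Empty.elim e) = true
def wtV (y : NI s → V) (x : V) : Prop :=
  getT ρ (Sum.inr Kd.wt) (fun o : Option (NI s) => o.elim x y) = true
def cpV (y y' : NI s → V) : Prop :=
  getT ρ (Sum.inr Kd.cp) (fun q : Bool × NI s => if q.1 = true then y' q.2 else y q.2) = true
def atV (Y : Fin s → NI s → V) (x : Fin s → V) : Prop :=
  getT ρ (Sum.inr Kd.at') (fun q : Fin s × Option (NI s) => q.2.elim (x q.1) (Y q.1)) = true

end Acc

/-- arity of the new relation variable -/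
def s1 (s : ℕ) : ℕ := Fintype.card (NI s)

def eN (s : ℕ) : NI s ≃ Fin (s1 s) := Fintype.equivFin _

/-- families as tuples -/
def tp {s : ℕ} {α : Type} (v : NI s → α) : Fin (s1 s) → α := fun i => v ((eN s).symm i)

section

variable {τ : Voc} {s m : ℕ} (φ : PiF τ s (m + 2)) (bb : Bool) (w0 : ℕ) {n k : ℕ}

/-- the variables of a block -/
abbrev BV (i : ℕ) : Type := Fin (φ.len i) ⊕ ((Fin (φ.len i) ⊕ (Bool ⊕ Fin w0)) × NI s)

def lenV : ℕ → ℕ := fun i => Fintype.card (BV φ w0 i)

def eB (i : ℕ) : BV φ w0 i ≃ Fin (lenV φ w0 i) := Fintype.equivFin _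

/-- the original variables -/
def ioV : (t : ℕ) → Vars φ.len t → Vars (lenV φ w0) t
  | 0, v => v.elim
  | t + 1, Sum.inl v => Sum.inl (ioV t v)
  | t + 1, Sum.inr j => Sum.inr (eB φ w0 t (Sum.inl j))

/-- the names of the original variables -/
def nmV : (t : ℕ) → Vars φ.len t → NI s → Vars (lenV φ w0) t
  | 0, v => v.elim
  | t + 1, Sum.inl v => fun c => Sum.inl (nmV t v c)
  | t + 1, Sum.inr j => fun c => Sum.inr (eB φ w0 t (Sum.inr (Sum.inl j, c)))

/-- the two additional names of block `0` -/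
def z0V : (t : ℕ) → Bool → NI s → Vars (lenV φ w0) (t + 1)
  | 0, β, c => (Sum.inr (eB φ w0 0 (Sum.inr (Sum.inr (Sum.inl β), c))) :
      Vars (lenV φ w0) 0 ⊕ Fin (lenV φ w0 0))
  | t + 1, β, c => (Sum.inl (z0V t β c) : Vars (lenV φ w0) (t + 1) ⊕ Fin (lenV φ w0 (t + 1)))

/-- the names of the innermost block -/
def gvV (c' : Fin w0) (c : NI s) : Vars (lenV φ w0) (m + 2) :=
  (Sum.inr (eB φ w0 (m + 1) (Sum.inr (Sum.inr (Sum.inr c'), c))) :
    Vars (lenV φ w0) (m + 1) ⊕ Fin (lenV φ w0 (m + 1)))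

/-- the names used by the critical event -/
abbrev Cd : Type := Vars φ.len (m + 1) ⊕ Fin w0

def cvV : Cd φ w0 → NI s → Vars (lenV φ w0) (m + 2)
  | Sum.inl u => nmV φ w0 (m + 2) (Sum.inl u)
  | Sum.inr c => gvV φ w0 c

variable (ρ : ∀ i : Fin (vocV τ s).num,
  (Fin ((vocV τ s).ar i) → Vars (lenV φ w0) (m + 2)) → Bool)
  (η : Vars (lenV φ w0) (m + 2) → Vars (lenV φ w0) (m + 2) → Bool)

/-- the variable is treated by some name -/
def knV (X : Cd φ w0 → Bool) (u : Vars φ.len (m + 2)) : Prop :=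
  k0V ρ ∨ ∃ c, X c = true ∧ wtV ρ (cvV φ w0 c) (ioV φ w0 (m + 2) u)

/-- the value of an atom according to the names -/
def vaV (X : Cd φ w0 → Bool) (v : At φ) : Prop :=
  ¬ k0V ρ ∧ ∃ N : Fin s → Cd φ w0,
    (∀ j, X (N j) = true ∧ wtV ρ (cvV φ w0 (N j)) (ioV φ w0 (m + 2) (v j))) ∧
    atV ρ (fun j => cvV φ w0 (N j)) (fun j => ioV φ w0 (m + 2) (v j))

/-- the critical event -/
def evtV (X : Cd φ w0 → Bool) : Prop :=
  (∀ j : Fin (φ.len (m + 1)), isEV ρ (ioV φ w0 (m + 2) (Sum.inr j))) ∧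
  ∀ ξ0 : At φ → Bool, (∀ v, (∀ j, knV φ w0 ρ X (v j)) → (ξ0 v = true ↔ vaV φ w0 ρ X v)) →
    φ.ψ.eval (fun R v => getT ρ (Sum.inl R) (fun i => ioV φ w0 (m + 2) (v i)))
      (fun u v => η (ioV φ w0 (m + 2) u) (ioV φ w0 (m + 2) v)) ξ0 = bb

/-- validity of block `i` -/
def okV (Y : Vars φ.len (m + 2) → Bool) (i : ℕ) : Prop :=
  ∀ u : Vars φ.len (m + 2), P.lv φ.len (m + 2) u = i → isEV ρ (ioV φ w0 (m + 2) u) ∧
    (k0V ρ ∨ (Y u = true ∧ wtV ρ (nmV φ w0 (m + 2) u) (ioV φ w0 (m + 2) u)))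

/-- the matrix of the formula -/
def PV (ξ : (Fin (s1 s) → Vars (lenV φ w0) (m + 2)) → Bool) : Prop :=
  ((ξ (tp (z0V φ w0 (m + 1) false)) = true ∧ ξ (tp (z0V φ w0 (m + 1) true)) = true) →
    cpV ρ (z0V φ w0 (m + 1) false) (z0V φ w0 (m + 1) true)) ∧
  match P.scn (okV φ w0 ρ (fun u => ξ (tp (nmV φ w0 (m + 2) u)))) (m + 1) with
  | some c => c = true
  | none => (evtV φ bb w0 ρ η (fun c => ξ (tp (cvV φ w0 c))) ↔ bb = true)

/-- the formula -/
def forV : PiF (vocV τ s) (s1 s) (m + 2) where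
  len := lenV φ w0
  ψ := qfOf (z0V φ w0 (m + 1) false (Sum.inl ())) (PV φ bb w0)

/-- having an argument in the innermost block -/
def innV (v : Fin (s1 s) → Vars (lenV φ w0) (m + 2)) : Prop :=
  ∃ i, lastVar (lenV φ w0) (m + 2) (v i)

lemma not_innV_nm (u : Vars φ.len (m + 1)) :
    ¬ innV φ w0 (tp (nmV φ w0 (m + 2) (Sum.inl u))) := by
  rintro ⟨i, hi⟩
  exact hi

lemma not_innV_z0 (β : Bool) : ¬ innV φ w0 (tp (z0V φ w0 (m + 1) β)) := by
  rintro ⟨i, hi⟩
  exact hi

lemma okV_congr (Y Y' : Vars φ.len (m + 2) → Bool)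
    (h : ∀ u : Vars φ.len (m + 1), Y (Sum.inl u) = Y' (Sum.inl u)) (i : ℕ) (hi : i < m + 1) :
    okV φ w0 ρ Y i ↔ okV φ w0 ρ Y' i := by
  unfold okV
  apply forall_congr'
  intro u
  rcases u with u | j
  · rw [h u]
  · constructor
    · intro _ h1
      have h2 : m + 1 = i := h1
      omega
    · intro _ h1
      have h2 : m + 1 = i := h1
      omega

lemma width_auxV :
    (qfOf (z0V φ w0 (m + 1) false (Sum.inl ())) (PV φ bb w0)).Cert (innV φ w0) bb w0 := by
  intro ρ η ξ hξ
  have hP : ∀ ξ : (Fin (s1 s) → Vars (lenV φ w0) (m + 2)) → Bool,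
      (qfOf (z0V φ w0 (m + 1) false (Sum.inl ())) (PV φ bb w0)).eval ρ η ξ = bb ↔
      (PV φ bb w0 ρ η ξ ↔ bb = true) := by
    intro ξ
    have h1 := eval_qfOf (z0V φ w0 (m + 1) false (Sum.inl ())) (PV φ bb w0) ρ η ξ
    cases bb with
    | true =>
      rw [h1]
      simp
    | false =>
      rw [← h1]
      simp
  simp only [hP] at hξ ⊢
  have hsc : ∀ ξ' : (Fin (s1 s) → Vars (lenV φ w0) (m + 2)) → Bool,
      (∀ v, ¬ innV φ w0 v → ξ' v = ξ v) →
      P.scn (okV φ w0 ρ (fun u => ξ' (tp (nmV φ w0 (m + 2) u)))) (m + 1) =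
        P.scn (okV φ w0 ρ (fun u => ξ (tp (nmV φ w0 (m + 2) u)))) (m + 1) := by
    intro ξ' h
    apply P.scn_congr
    intro i hi
    exact okV_congr φ w0 ρ _ _ (fun u => h _ (not_innV_nm φ w0 u)) i hi
  by_cases he : evtV φ bb w0 ρ η (fun c => ξ (tp (cvV φ w0 c)))
  · refine ⟨(Finset.univ.image (fun c : Fin w0 => tp (gvV φ w0 c))).filter (innV φ w0), ?_, ?_,
      fun ξ' hξ' => ?_⟩
    · refine (Finset.card_filter_le _ _).trans (Finset.card_image_le.trans ?_)
      rw [Finset.card_univ, Fintype.card_fin]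
    · intro v hv
      exact (Finset.mem_filter.mp hv).2
    · have hX : (fun c => ξ' (tp (cvV φ w0 c))) = fun c => ξ (tp (cvV φ w0 c)) := by
        funext c
        rcases c with u | c
        · exact hξ' _ (Or.inl (not_innV_nm φ w0 u))
        · apply hξ'
          by_cases hi : innV φ w0 (tp (cvV φ w0 (Sum.inr c)))
          · right
            exact Finset.mem_filter.mpr ⟨Finset.mem_image_of_mem _ (Finset.mem_univ c), hi⟩
          · exact Or.inl hi
      rw [← hξ]
      unfold PV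
      rw [hξ' _ (Or.inl (not_innV_z0 φ w0 false)), hξ' _ (Or.inl (not_innV_z0 φ w0 true)),
        hsc ξ' (fun v hv => hξ' v (Or.inl hv)), hX]
  · refine ⟨∅, by simp, by simp, fun ξ' hξ' => ?_⟩
    unfold PV at hξ ⊢
    rw [hξ' _ (Or.inl (not_innV_z0 φ w0 false)), hξ' _ (Or.inl (not_innV_z0 φ w0 true)),
      hsc ξ' (fun v hv => hξ' v (Or.inl hv))]
    cases hs : P.scn (okV φ w0 ρ (fun u => ξ (tp (nmV φ w0 (m + 2) u)))) (m + 1) with
    | some c =>
      rw [hs] at hξ
      exact hξ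
    | none =>
      rw [hs] at hξ
      simp only at hξ ⊢
      cases hb : bb with
      | true =>
        subst hb
        exact absurd ((hξ.mpr rfl).2.mpr rfl) he
      | false =>
        subst hb
        constructor
        · rintro ⟨h1, -⟩
          exact hξ.mp ⟨h1, iff_of_false he (by simp)⟩
        · intro h
          exact absurd h (by simp)

/-- the inner width of the formula -/
theorem forV_width (hbb : bb = decide (m % 2 = 0)) : (forV φ bb w0).InnerWidth w0 := by
  have hcrit : decide ((m + 2) % 2 = 0) = bb := by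
    rw [hbb]
    congr 1
    apply propext
    omega
  unfold PiF.InnerWidth
  rw [hcrit]
  exact width_auxV φ bb w0

end

end

end Pool.Agent.Helper265_EW.V
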