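import Pool.Agent.Helper265_EW.NMain

set_option linter.unusedSectionVars false
set_option linter.unusedVariables false

/-! Interpretations over a definable extension of a structure by words. -/

namespace Pool.Agent.Helper265_EW.V

open Finset Classical Pool.Agent.Helper265_EW.G Pool.Agent.Helper265_EW.P
open Pool.Agent.Helper265_EW.N

noncomputable section

/-- the empty auxiliary vocabulary -/
def sg0 : Voc := ⟨0, fun _ => 0⟩

/-- elements and words -/
abbrev UV (n k a : ℕ) : Type := Fin n ⊕ (Fin k → Fin a)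

/-- elements and words as objects -/
def toV {n k a : ℕ} : UV n k a → Wo n k a
  | Sum.inl x => Wo.el x
  | Sum.inr f => Wo.wd f

section

variable {τ τ1 : Voc} (a : ℕ) (fam : ∀ R : Fin τ1.num, Qy τ sg0 a (Fin (τ1.ar R)))
  (hfam : ∀ R, Dfn (fam R)) {n k : ℕ}

/-- empty auxiliary relations -/
def s0 : Str sg0 (Wo n k a) := fun _ _ => false

/-- the extended structure -/
def strV (A : Str τ (Fin n)) (k : ℕ) : Str τ1 (UV n k a) :=
  fun R u => decide (fam R n k A (s0 a) (fun i => toV (u i)))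

/-- the ordered extended universe -/
abbrev ULv (n k a : ℕ) : Type := Lex (Fin n ⊕ Lex (Fin k → Fin a))

def N1v (n k a : ℕ) : ℕ := Fintype.card (ULv n k a)

def eov (n k a : ℕ) : Fin (N1v n k a) ≃o ULv n k a := Fintype.orderIsoFinOfCardEq _ rfl

/-- forgetting the order -/
def fov (n k a : ℕ) : ULv n k a ≃ UV n k a :=
  ofLex.trans (Equiv.sumCongr (Equiv.refl _) ofLex)

def eUv (n k a : ℕ) : Fin (N1v n k a) ≃ UV n k a :=
  (eov n k a).toEquiv.trans (fov n k a)

/-- the extended structure with universe `{0, …, n₁ - 1}` -/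
def A1v (A : Str τ (Fin n)) (k : ℕ) : Str τ1 (Fin (N1v n k a)) :=
  fun R v => strV a fam A k R (fun i => eUv n k a (v i))

lemma A1v_WDF {s' t' : ℕ} (A : Str τ (Fin n)) (χ : PiF τ1 s' t') (K : ℕ) :
    WDF χ (A1v a fam A k) K ↔ WDF χ (strV a fam A k) K :=
  WDF_equiv (eUv n k a).symm χ (strV a fam A k) K

lemma N1v_pos (hn : 0 < n) : 1 ≤ N1v n k a := by
  unfold N1v
  have : Nonempty (ULv n k a) := ⟨toLex (Sum.inl ⟨0, hn⟩)⟩
  exact Fintype.card_pos

/-- objects and elements or numbers -/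
def czv (n k a : ℕ) : Wo n k a ≃ Base (N1v n k a) k where
  toFun u := match u with
    | Wo.el x => Sum.inl ((eUv n k a).symm (Sum.inl x))
    | Wo.wd f => Sum.inl ((eUv n k a).symm (Sum.inr f))
    | Wo.nb i => Sum.inr i
  invFun y := match y with
    | Sum.inl y => toV (eUv n k a y)
    | Sum.inr i => Wo.nb i
  left_inv u := by
    cases u with
    | el x => simp [toV]
    | nb i => rfl
    | wd f => simp [toV]
  right_inv y := by
    rcases y with y | i
    · simp only
      cases h : eUv n k a y with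
      | inl x =>
        simp only [toV]
        rw [← h, Equiv.symm_apply_apply]
      | inr f =>
        simp only [toV]
        rw [← h, Equiv.symm_apply_apply]
    · rfl

lemma czv_inl (u : Wo n k a) (y : Fin (N1v n k a)) :
    czv n k a u = Sum.inl y ↔ u = toV (eUv n k a y) :=
  (czv n k a).apply_eq_iff_eq_symm_apply

lemma czv_inr (u : Wo n k a) (i : Fin (k + 1)) : czv n k a u = Sum.inr i ↔ u = Wo.nb i :=
  (czv n k a).apply_eq_iff_eq_symm_apply

lemma not_isNb_iffv (u : Wo n k a) : ¬ isNb u ↔ ∃ y, czv n k a u = Sum.inl y := by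
  rw [isNb_iff]
  constructor
  · intro h
    rcases h1 : czv n k a u with y | i
    · exact ⟨y, rfl⟩
    · exact absurd ⟨i, (czv_inr a u i).mp h1⟩ h
  · rintro ⟨y, hy⟩ ⟨i, hi⟩
    rw [(czv_inr a u i).mpr hi] at hy
    exact absurd hy (by simp)

lemma lt_iffv (y y' : Fin (N1v n k a)) :
    ltK (toV (eUv n k a y)) (toV (eUv n k a y')) ↔ y < y' := by
  rw [← (eov n k a).lt_iff_lt]
  have h1 : eUv n k a y = fov n k a (eov n k a y) := rfl
  have h2 : eUv n k a y' = fov n k a (eov n k a y') := rfl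
  rw [h1, h2]
  generalize eov n k a y = u
  generalize eov n k a y' = u'
  rcases u with x | f
  · rcases u' with x' | f'
    · exact (ltK_el x x').trans (Sum.Lex.inl_lt_inl_iff (a := x) (b := x')).symm
    · exact iff_of_true (ltK_el_wd x _) (Sum.Lex.inl_lt_inr x f')
  · rcases u' with x' | f'
    · exact iff_of_false (not_ltK_wd_el x' _) (Sum.Lex.not_inr_lt_inl)
    · exact (ltK_wd (ofLex f) (ofLex f')).trans
        (Sum.Lex.inr_lt_inr_iff (a := f) (b := f')).symm

/-- atomic types over the extended structure -/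
def atKv {V : Type} (A : Str τ (Fin n)) (S : Str sg0 (Wo n k a)) (w : V → Wo n k a) :
    AType τ1 V where
  rel R v := bdec ((∀ i, ¬ isNb (w (v i))) ∧ fam R n k A S (fun i => w (v i)))
  eq u v := bdec (fac 0 (w u) (w v))
  lt u v := bdec (fac 1 (w u) (w v))
  num u := bdec (fac 2 (w u) (w u))
  suc u v := bdec (fac 3 (w u) (w v))
  zero u := bdec (fac 4 (w u) (w u))
  top u := bdec (fac 5 (w u) (w u))

include hfam in
lemma dfn_atKv {V : Type} [Finite V] (F : AType τ1 V → Prop) :
    Dfn (fun n k A S w => F (atKv a fam A S w) : Qy τ sg0 a V) := by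
  let Q : ((Σ R : Fin τ1.num, Fin (τ1.ar R) → V) ⊕ (Fin 6 × (V × V))) →
      Qy τ sg0 a V := fun i => match i with
    | Sum.inl q => fun n k A S w => (∀ i, ¬ isNb (w (q.2 i))) ∧
        fam q.1 n k A S (fun i => w (q.2 i))
    | Sum.inr q => fun n k A S w => fac q.1 (w q.2.1) (w q.2.2)
  have hQ : ∀ i, Dfn (Q i) := by
    intro i
    rcases i with q | q
    · exact (Dfn.fall fun i => (dfn_isNb _).not).and ((hfam q.1).rename q.2)
    · exact dfn_fac q.1 q.2.1 q.2.2
  exact Dfn.bool (fun x => F ⟨fun R v => x (Sum.inl ⟨R, v⟩), fun u v => x (Sum.inr (0, (u, v))),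
    fun u v => x (Sum.inr (1, (u, v))), fun u => x (Sum.inr (2, (u, u))),
    fun u v => x (Sum.inr (3, (u, v))), fun u => x (Sum.inr (4, (u, u))),
    fun u => x (Sum.inr (5, (u, u)))⟩) hQ

/-- the atomic types agree -/
lemma atKv_eq {V : Type} (A : Str τ (Fin n)) (w : V → Wo n k a) :
    atKv a fam A (s0 a) w = atp (A1v a fam A k) (fun v => czv n k a (w v)) := by
  unfold atKv atp
  congr 1
  · funext R v
    rw [Bool.eq_iff_iff, bdec_iff, decide_eq_true_eq]
    constructor
    · rintro ⟨h1, h2⟩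
      choose y hy using fun i => (not_isNb_iffv a (w (v i))).mp (h1 i)
      refine ⟨y, hy, ?_⟩
      unfold A1v strV
      rw [decide_eq_true_eq]
      have h3 : (fun i => toV (eUv n k a (y i))) = fun i => w (v i) := by
        funext i
        exact ((czv_inl a _ _).mp (hy i)).symm
      exact h3 ▸ h2
    · rintro ⟨y, hy, h2⟩
      refine ⟨fun i => (not_isNb_iffv a (w (v i))).mpr ⟨y i, hy i⟩, ?_⟩
      unfold A1v strV at h2
      rw [decide_eq_true_eq] at h2
      have h3 : (fun i => toV (eUv n k a (y i))) = fun i => w (v i) := by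
        funext i
        exact ((czv_inl a _ _).mp (hy i)).symm
      exact h3 ▸ h2
  · funext u v
    rw [Bool.eq_iff_iff, bdec_iff, decide_eq_true_eq]
    exact ((czv n k a).apply_eq_iff_eq).symm
  · funext u v
    rw [Bool.eq_iff_iff, bdec_iff, decide_eq_true_eq]
    change ltK (w u) (w v) ↔ _
    constructor
    · intro h
      have h1 : ¬ isNb (w u) := by
        rw [isNb_iff]
        rintro ⟨i, hi⟩
        rw [hi] at h
        exact not_ltK_nb_left i _ h
      have h2 : ¬ isNb (w v) := by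
        rw [isNb_iff]
        rintro ⟨i, hi⟩
        rw [hi] at h
        exact not_ltK_nb_right i _ h
      obtain ⟨y, hy⟩ := (not_isNb_iffv a _).mp h1
      obtain ⟨y', hy'⟩ := (not_isNb_iffv a _).mp h2
      refine ⟨y, y', hy, hy', ?_⟩
      rw [(czv_inl a _ _).mp hy, (czv_inl a _ _).mp hy'] at h
      exact (lt_iffv a y y').mp h
    · rintro ⟨y, y', hy, hy', h⟩
      rw [(czv_inl a _ _).mp hy, (czv_inl a _ _).mp hy']
      exact (lt_iffv a y y').mpr h
  · funext u
    rw [Bool.eq_iff_iff, bdec_iff, decide_eq_true_eq]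
    change isNb (w u) ↔ _
    rw [isNb_iff]
    exact exists_congr fun i => (czv_inr a _ _).symm
  · funext u v
    rw [Bool.eq_iff_iff, bdec_iff, decide_eq_true_eq]
    change sucK (w u) (w v) ↔ _
    rw [sucK_iff]
    simp only [czv_inr]
  · funext u
    rw [Bool.eq_iff_iff, bdec_iff, decide_eq_true_eq]
    change zeroK (w u) ↔ _
    rw [zeroK_iff]
    simp only [czv_inr]
  · funext u
    rw [Bool.eq_iff_iff, bdec_iff, decide_eq_true_eq]
    change topK (w u) ↔ _
    rw [topK_iff]
    simp only [czv_inr]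

/-- the interpretation -/
def eintV {τ' : Voc} (I : QInt τ1 τ') : EInt τ τ' where
  σ := sg0
  a := a
  step := fun P => P.elim0
  Tag := I.Tag
  finTag := I.finTag
  Ix := I.Ix
  finIx := I.finIx
  dom := fun tg =>
    (@dfn_atKv τ τ1 a fam hfam I.Ix I.finIx (fun T => I.dom tg T = true)).choose
  rel := fun R tgs =>
    (@dfn_atKv τ τ1 a fam hfam (Fin (τ'.ar R) × I.Ix) (by have := I.finIx; infer_instance)
      (fun T => I.rel R tgs T = true)).choose

lemma s0_eq (S : Str sg0 (Wo n k a)) : S = s0 a := by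
  funext P
  exact P.elim0

lemma domv_iff {τ' : Voc} (I : QInt τ1 τ') (A : Str τ (Fin n)) (tg : I.Tag)
    (w : I.Ix → Wo n k a) :
    ((eintV a fam hfam I).dom tg).Holds A ((eintV a fam hfam I).iter A k k) w ↔
      I.dom tg (atp (A1v a fam A k) (fun x => czv n k a (w x))) = true := by
  have h0 : (eintV a fam hfam I).iter A k k = s0 a := s0_eq a _
  rw [h0]
  refine ((@dfn_atKv τ τ1 a fam hfam I.Ix I.finIx (fun T => I.dom tg T = true)).choose_spec n k A
    (s0 a) w).trans ?_
  change I.dom tg (atKv a fam A (s0 a) w) = true ↔ _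
  rw [atKv_eq]

lemma relv_iff {τ' : Voc} (I : QInt τ1 τ') (A : Str τ (Fin n)) (R : Fin τ'.num)
    (tgs : Fin (τ'.ar R) → I.Tag) (w : Fin (τ'.ar R) × I.Ix → Wo n k a) :
    ((eintV a fam hfam I).rel R tgs).Holds A ((eintV a fam hfam I).iter A k k) w ↔
      I.rel R tgs (atp (A1v a fam A k) (fun x => czv n k a (w x))) = true := by
  have h0 : (eintV a fam hfam I).iter A k k = s0 a := s0_eq a _
  rw [h0]
  refine ((@dfn_atKv τ τ1 a fam hfam (Fin (τ'.ar R) × I.Ix) (by have := I.finIx; infer_instance)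
      (fun T => I.rel R tgs T = true)).choose_spec n k A (s0 a) w).trans ?_
  change I.rel R tgs (atKv a fam A (s0 a) w) = true ↔ _
  rw [atKv_eq]

/-- the universes correspond -/
def eUnv {τ' : Voc} (I : QInt τ1 τ') (A : Str τ (Fin n)) (k : ℕ) :
    (eintV a fam hfam I).Univ A k ≃ I.Univ (A1v a fam A k) k :=
  Equiv.subtypeEquiv (Equiv.prodCongr (Equiv.refl _) (Equiv.piCongrRight fun _ => czv n k a))
    (fun x => domv_iff a fam hfam I A x.1 x.2)

lemma outv_WDF {τ' : Voc} (I : QInt τ1 τ') (A : Str τ (Fin n)) (k : ℕ) {s' t' : ℕ}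
    (χ : PiF τ' s' t') (K : ℕ) :
    WDF χ ((eintV a fam hfam I).out A k) K ↔ WDF χ (I.out (A1v a fam A k) k) K := by
  rw [← WDF_equiv (eUnv a fam hfam I A k).symm χ (I.out (A1v a fam A k) k) K]
  have h : (eintV a fam hfam I).out A k = fun R w =>
      I.out (A1v a fam A k) k R (fun i => (eUnv a fam hfam I A k).symm.symm (w i)) := by
    funext R w
    unfold EInt.out
    rw [Bool.eq_iff_iff, decide_eq_true_eq]
    exact relv_iff a fam hfam I A R _ _
  rw [h]

include hfam in
/-- a reduction to a formula over the extended structure yields an ept-interpretation -/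
theorem ept_of_ext (m d e : ℕ) (hd : 1 ≤ d) (he : 1 ≤ e) {s s1 t : ℕ} (φ : PiF τ s t)
    (φ1 : PiF τ1 s1 (m + 2)) (hw : φ1.InnerWidth (d * e))
    (h : ∀ n k : ℕ, 1 ≤ n → ∀ A : Str τ (Fin n), (WDF φ A k ↔ WDF φ1 (strV a fam A k) k)) :
    EptRed (fun k => (k + 1) ^ e) φ (normF (decide (m % 2 = 0)) m d) := by
  obtain ⟨I, -, -, hI⟩ := C.qg_norm m d hd e he (m + 2) _ s1 φ1 (Or.inr ⟨rfl, Or.inr hw⟩)
  obtain ⟨c, hc⟩ := card_eint (eintV a fam hfam I)
  refine ⟨eintV a fam hfam I, c, fun n k hn A => ⟨hc n k A, ?_⟩⟩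
  rw [outv_WDF, ← hI (N1v n k a) k (N1v_pos a hn) (A1v a fam A k), A1v_WDF]
  exact h n k hn A

end

end

end Pool.Agent.Helper265_EW.V
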