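import Pool.Agent.Helper265_EW.VGen

set_option linter.unusedSectionVars false
set_option linter.unusedVariables false

/-! Names of tuples: a tuple together with its number, the words of incidence of its entries, and
the next elements occurring in the set. -/

namespace Pool.Agent.Helper265_EW.V

open Finset Classical Pool.Agent.Helper265_EW.G Pool.Agent.Helper265_EW.P
open Pool.Agent.Helper265_EW.N

noncomputable section

/-- components of names -/
abbrev NI (s : ℕ) : Type := Unit ⊕ ((Fin s × Bool) ⊕ (Option (Fin s) × Bool))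

/-- the alphabet -/
def nA (s : ℕ) : ℕ := Fintype.card (Option (Fin s) → Bool)

def eA (s : ℕ) : Fin (nA s) ≃ (Option (Fin s) → Bool) := (Fintype.equivFin _).symm

section Acc

variable {s : ℕ} {α : Type} (y : NI s → α)

def nu : α := y (Sum.inl ())
def bc (i : Fin s) : α := y (Sum.inr (Sum.inl (i, false)))
def gc (i : Fin s) : α := y (Sum.inr (Sum.inl (i, true)))
def sb (o : Option (Fin s)) : α := y (Sum.inr (Sum.inr (o, false)))
def sc (o : Option (Fin s)) : α := y (Sum.inr (Sum.inr (o, true)))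

end Acc

section Ob

variable {s n k : ℕ}

/-- bit `c` of the letter at position `v` of the word `u` is set -/
def bitO (c : Option (Fin s)) (u v : Wo n k (nA s)) : Prop :=
  ∃ l : Fin (nA s), eA s l c = true ∧ letterO l u v

def inGap (y : NI s → Wo n k (nA s)) (o : Option (Fin s)) (x : Wo n k (nA s)) : Prop :=
  (∀ i, o = some i → ltO (bc y i) x) ∧ (isEl (sb y o) → ltO x (sb y o))

def vldO (y : NI s → Wo n k (nA s)) : Prop :=
  (∃ ν, bitO none (nu y) ν) ∧
  (∀ ν ν', bitO none (nu y) ν → bitO none (nu y) ν' → ν = ν') ∧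
  (∀ i, isEl (bc y i)) ∧
  (∀ o, isEl (sb y o) → ∃ ν, ∃ j, bitO (some j) (sc y o) ν) ∧
  (∀ i, isEl (sb y (some i)) → ltO (bc y i) (sb y (some i)))

def sameO (y y' : NI s → Wo n k (nA s)) : Prop :=
  ∀ ν, bitO none (nu y) ν → bitO none (nu y') ν → ∀ c, y c = y' c

def distO (y y' : NI s → Wo n k (nA s)) : Prop := (∀ i, bc y i = bc y' i) → ∀ c, y c = y' c

def incO (y y' : NI s → Wo n k (nA s)) : Prop :=
  ∀ ν, bitO none (nu y') ν → ∀ j, (∀ i, (bitO (some j) (gc y i) ν ↔ bc y' j = bc y i)) ∧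
    ∀ o, isEl (sb y o) → (bitO (some j) (sc y o) ν ↔ bc y' j = sb y o)

def gapO (y y' : NI s → Wo n k (nA s)) : Prop := ∀ o j, ¬ inGap y o (bc y' j)

/-- compatibility of names -/
def cpO (y y' : NI s → Wo n k (nA s)) : Prop :=
  vldO y ∧ sameO y y' ∧ distO y y' ∧ incO y y' ∧ gapO y y'

/-- the name tells whether the element occurs -/
def wtO (y : NI s → Wo n k (nA s)) (x : Wo n k (nA s)) : Prop :=
  isEl x ∧ ((∃ i, bc y i = x) ∨ ∃ o, inGap y o x)

/-- being a number less than `k` -/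
def posO (ν : Wo n k (nA s)) : Prop := isNb ν ∧ ∃ x, ltO ν x

/-- membership according to the names -/
def atO (Y : Fin s → NI s → Wo n k (nA s)) (x : Fin s → Wo n k (nA s)) : Prop :=
  ∃ ν, posO ν ∧ ∀ j, ∃ i, bc (Y j) i = x j ∧ bitO (some j) (gc (Y j) i) ν

lemma bitO_iff (c : Option (Fin s)) (u v : Wo n k (nA s)) : bitO c u v ↔
    ∃ (f : Fin k → Fin (nA s)) (p : Fin k), u = Wo.wd f ∧ v = Wo.nb p.castSucc ∧
      eA s (f p) c = true := by
  constructor
  · rintro ⟨l, hl, f, i, h1, h2, h3, h4⟩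
    refine ⟨f, ⟨i.val, h3⟩, h1, ?_, ?_⟩
    · rw [h2]
      rfl
    · rw [h4]
      exact hl
  · rintro ⟨f, p, h1, h2, h3⟩
    exact ⟨f p, h3, f, p.castSucc, h1, h2, p.2, rfl⟩

lemma bitO_wd (c : Option (Fin s)) (f : Fin k → Fin (nA s)) (p : Fin k) :
    bitO c (Wo.wd f : Wo n k (nA s)) (Wo.nb p.castSucc) ↔ eA s (f p) c = true := by
  rw [bitO_iff]
  constructor
  · rintro ⟨f', p', h1, h2, h3⟩
    injection h1 with h1
    injection h2 with h2
    have h4 : p = p' := Fin.castSucc_injective _ h2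
    rw [h1, h4]
    exact h3
  · intro h
    exact ⟨f, p, rfl, rfl, h⟩

lemma posO_iff (ν : Wo n k (nA s)) : posO ν ↔ ∃ p : Fin k, ν = Wo.nb p.castSucc := by
  constructor
  · rintro ⟨h1, x, hx⟩
    obtain ⟨i, rfl⟩ := (isNb_iff ν).mp h1
    obtain ⟨j, -, hj⟩ := (ltO_nb' x i).mp hx
    have h3 : i.val < j.val := hj
    have h4 := j.2
    exact ⟨⟨i.val, by omega⟩, rfl⟩
  · rintro ⟨p, rfl⟩
    refine ⟨isNb_nb _, Wo.nb p.succ, (ltO_nb' _ _).mpr ⟨_, rfl, ?_⟩⟩
    exact Fin.castSucc_lt_succ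

end Ob

/-! Definability. -/

section Def

variable {τ σ : Voc} {s : ℕ} {V : Type}

lemma dfn_bitO (c : Option (Fin s)) (u v : V) :
    Dfn (fun n k A S w => bitO c (w u) (w v) : Qy τ σ (nA s) V) :=
  Dfn.fex fun l => (Dfn.const _).and (dfn_letterO l u v)

lemma dfn_inGap (y : NI s → V) (o : Option (Fin s)) (x : V) :
    Dfn (fun n k A S w => inGap (fun c => w (y c)) o (w x) : Qy τ σ (nA s) V) := by
  unfold inGap
  exact (Dfn.fall fun i => (Dfn.const _).imp (dfn_ltO _ _)).and
    ((dfn_isEl _).imp (dfn_ltO _ _))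

lemma dfn_vldO (y : NI s → V) :
    Dfn (fun n k A S w => vldO (fun c => w (y c)) : Qy τ σ (nA s) V) := by
  unfold vldO
  have h1 : Dfn (fun n k A S w => bitO none (w (some (y (Sum.inl ())))) (w none) :
      Qy τ σ (nA s) (Option V)) := dfn_bitO _ _ _
  have h2 : Dfn (fun n k A S w => bitO none (w (some (some (y (Sum.inl ()))))) (w (some none)) →
      bitO none (w (some (some (y (Sum.inl ()))))) (w none) → w (some none) = w none :
      Qy τ σ (nA s) (Option (Option V))) :=
    (dfn_bitO _ _ _).imp ((dfn_bitO _ _ _).imp (dfn_eq _ _))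
  have h3 : ∀ o : Option (Fin s), Dfn (fun n k A S w => ∃ j : Fin s,
      bitO (some j) (w (some (y (Sum.inr (Sum.inr (o, true)))))) (w none) :
      Qy τ σ (nA s) (Option V)) := fun o => Dfn.fex fun j => dfn_bitO _ _ _
  refine (h1.ex).and ((h2.all.all).and ((Dfn.fall fun i => dfn_isEl _).and
    ((Dfn.fall fun o => (dfn_isEl _).imp ((h3 o).ex)).and
      (Dfn.fall fun i => (dfn_isEl _).imp (dfn_ltO _ _)))))

lemma dfn_sameO (y y' : NI s → V) :
    Dfn (fun n k A S w => sameO (fun c => w (y c)) (fun c => w (y' c)) :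
      Qy τ σ (nA s) V) := by
  unfold sameO
  have h1 : Dfn (fun n k A S w => bitO none (w (some (y (Sum.inl ())))) (w none) →
      bitO none (w (some (y' (Sum.inl ())))) (w none) →
      ∀ c : NI s, w (some (y c)) = w (some (y' c)) :
      Qy τ σ (nA s) (Option V)) :=
    (dfn_bitO _ _ _).imp ((dfn_bitO _ _ _).imp (Dfn.fall fun c => dfn_eq _ _))
  exact h1.all

lemma dfn_distO (y y' : NI s → V) :
    Dfn (fun n k A S w => distO (fun c => w (y c)) (fun c => w (y' c)) :
      Qy τ σ (nA s) V) := by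
  unfold distO
  exact (Dfn.fall fun i => dfn_eq _ _).imp (Dfn.fall fun c => dfn_eq _ _)

lemma Dfn.iff' {τ σ : Voc} {a : ℕ} {V : Type} {Q Q' : Qy τ σ a V} (h : Dfn Q) (h' : Dfn Q') :
    Dfn (fun n k A S w => (Q n k A S w ↔ Q' n k A S w)) :=
  ((h.imp h').and (h'.imp h)).congr fun n k A S w => by tauto

lemma dfn_incO (y y' : NI s → V) :
    Dfn (fun n k A S w => incO (fun c => w (y c)) (fun c => w (y' c)) :
      Qy τ σ (nA s) V) := by
  unfold incO
  have h1 : Dfn (fun n k A S w => bitO none (w (some (y' (Sum.inl ())))) (w none) →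
      ∀ j : Fin s, (∀ i : Fin s, (bitO (some j) (w (some (y (Sum.inr (Sum.inl (i, true))))))
        (w none) ↔ w (some (y' (Sum.inr (Sum.inl (j, false))))) =
          w (some (y (Sum.inr (Sum.inl (i, false))))))) ∧
      ∀ o : Option (Fin s), isEl (w (some (y (Sum.inr (Sum.inr (o, false)))))) →
        (bitO (some j) (w (some (y (Sum.inr (Sum.inr (o, true)))))) (w none) ↔
          w (some (y' (Sum.inr (Sum.inl (j, false))))) =
            w (some (y (Sum.inr (Sum.inr (o, false)))))) :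
      Qy τ σ (nA s) (Option V)) :=
    (dfn_bitO _ _ _).imp (Dfn.fall fun j =>
      (Dfn.fall fun i => Dfn.iff' (dfn_bitO _ _ _) (dfn_eq _ _)).and
      (Dfn.fall fun o => (dfn_isEl _).imp (Dfn.iff' (dfn_bitO _ _ _) (dfn_eq _ _))))
  exact h1.all

lemma dfn_gapO (y y' : NI s → V) :
    Dfn (fun n k A S w => gapO (fun c => w (y c)) (fun c => w (y' c)) :
      Qy τ σ (nA s) V) := by
  unfold gapO
  exact Dfn.fall fun o => Dfn.fall fun j => (dfn_inGap y o _).not

lemma dfn_cpO (y y' : NI s → V) :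
    Dfn (fun n k A S w => cpO (fun c => w (y c)) (fun c => w (y' c)) :
      Qy τ σ (nA s) V) :=
  (dfn_vldO y).and ((dfn_sameO y y').and ((dfn_distO y y').and
    ((dfn_incO y y').and (dfn_gapO y y'))))

lemma dfn_wtO (y : NI s → V) (x : V) :
    Dfn (fun n k A S w => wtO (fun c => w (y c)) (w x) : Qy τ σ (nA s) V) := by
  unfold wtO
  exact (dfn_isEl _).and ((Dfn.fex fun i => dfn_eq _ _).or (Dfn.fex fun o => dfn_inGap y o x))

lemma dfn_posO (x : V) : Dfn (fun n k A S w => posO (w x) : Qy τ σ (nA s) V) := by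
  unfold posO
  have h1 : Dfn (fun n k A S w => ltO (w (some x)) (w none) : Qy τ σ (nA s) (Option V)) :=
    dfn_ltO _ _
  exact (dfn_isNb _).and h1.ex

lemma dfn_atO (Y : Fin s → NI s → V) (x : Fin s → V) :
    Dfn (fun n k A S w => atO (fun j c => w (Y j c)) (fun j => w (x j)) :
      Qy τ σ (nA s) V) := by
  unfold atO
  have h1 : Dfn (fun n k A S w => posO (w none) ∧ ∀ j : Fin s, ∃ i : Fin s,
      w (some (Y j (Sum.inr (Sum.inl (i, false))))) = w (some (x j)) ∧
      bitO (some j) (w (some (Y j (Sum.inr (Sum.inl (i, true)))))) (w none) :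
      Qy τ σ (nA s) (Option V)) :=
    (dfn_posO _).and (Dfn.fall fun j => Dfn.fex fun i => (dfn_eq _ _).and (dfn_bitO _ _ _))
  exact h1.ex

end Def

end

end Pool.Agent.Helper265_EW.V
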