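import Pool.Agent.Helper265_EW.VMain
import Pool.Agent.Helper265_EW.NRes

set_option linter.unusedSectionVars false
set_option linter.unusedVariables false

/-! Innermost variables: corollaries. -/

namespace Pool.Agent.Helper265_EW.V

open Finset Classical Pool.Agent.Helper265_EW.G Pool.Agent.Helper265_EW.P
open Pool.Agent.Helper265_EW.N

noncomputable section

section

variable {τ : Voc} {s : ℕ} {V : Type}

/-- the variables in atoms of the relation variable -/
def xv : QF τ s V → Finset V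
  | QF.rel _ _ => ∅
  | QF.eq _ _ => ∅
  | QF.mem v => Finset.univ.image v
  | QF.not φ => xv φ
  | QF.and φ ψ => xv φ ∪ xv ψ

lemma xv_card (ψ : QF τ s V) : (xv ψ).card ≤ ψ.occ * s := by
  induction ψ with
  | rel R v => simp [xv]
  | eq u v => simp [xv]
  | mem v =>
    simp only [xv, QF.occ, one_mul]
    refine Finset.card_image_le.trans ?_
    rw [Finset.card_univ, Fintype.card_fin]
  | not ψ ih => exact ih
  | and ψ χ ih1 ih2 =>
    simp only [xv, QF.occ]
    refine (Finset.card_union_le _ _).trans ?_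
    rw [add_mul]
    exact add_le_add ih1 ih2

lemma inX_iff (ψ : QF τ s V) (u : V) : ψ.InX u ↔ u ∈ xv ψ := by
  induction ψ with
  | rel R v => simp [xv, QF.InX]
  | eq a v => simp [xv, QF.InX]
  | mem v => simp [xv, QF.InX]
  | not ψ ih => exact ih
  | and ψ χ ih1 ih2 => simp only [xv, QF.InX, Finset.mem_union, ih1, ih2]

lemma innerVars_le {t : ℕ} (φ : PiF τ s t) : φ.innerVars ≤ φ.occ * s := by
  have hfin : Finite (Vars φ.len t) := inferInstance
  have h1 : φ.innerVars ≤ Nat.card {u // u ∈ xv φ.ψ} := by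
    unfold PiF.innerVars
    have : Finite {u // u ∈ xv φ.ψ} := inferInstance
    apply Nat.card_le_card_of_injective
      (fun x : {u : Vars φ.len t // lastVar φ.len t u ∧ φ.ψ.InX u} =>
        (⟨x.1, (inX_iff _ _).mp x.2.2⟩ : {u // u ∈ xv φ.ψ}))
    intro x y h
    exact Subtype.ext (congrArg (fun z : {u // u ∈ xv φ.ψ} => z.1) h)
  refine h1.trans ?_
  rw [Nat.card_eq_fintype_card, Fintype.card_coe]
  exact xv_card φ.ψ

end

lemma ept_ext {τ τ' : Voc} {s s' t t' : ℕ} {f : ℕ → ℕ} {φ : PiF τ s t} {φ' : PiF τ' s' t'}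
    (h : EptRed f (P.ext φ) φ') : EptRed f φ φ' := by
  obtain ⟨I, c, hI⟩ := h
  refine ⟨I, c, fun n k hn A => ⟨(hI n k hn A).1, ?_⟩⟩
  have : Nonempty (Fin n) := ⟨⟨0, hn⟩⟩
  rw [← ext_WD φ A k]
  exact (hI n k hn A).2

lemma ext_innerVars {τ : Voc} {s t : ℕ} (φ : PiF τ s t) : (P.ext φ).innerVars = 0 := by
  unfold PiF.innerVars
  rw [Nat.card_eq_zero]
  left
  constructor
  rintro ⟨u, hu1, hu2⟩
  have h1 : ∀ (ψ : QF τ s (Vars φ.len t)) (j : Fin (φ.len t)),
      ¬ (P.ren (V' := Vars φ.len t ⊕ Fin (φ.len t)) Sum.inl ψ).InX (Sum.inr j) := by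
    intro ψ j
    induction ψ with
    | rel R v => simp [P.ren, QF.InX]
    | eq a v => simp [P.ren, QF.InX]
    | mem v => simp [P.ren, QF.InX]
    | not ψ ih => exact ih
    | and ψ χ ih1 ih2 =>
      simp only [P.ren, QF.InX]
      tauto
  rcases u with u | j
  · exact hu1
  · exact h1 φ.ψ j hu2

/-- all reductions to the normal form problems -/
theorem ept_all (m d e : ℕ) (hd : 1 ≤ d) (he : 1 ≤ e) {τ : Voc} {s t' : ℕ} (φ : PiF τ s t')
    (h : t' < m + 2 ∨ (t' = m + 2 ∧ (φ.innerVars ≤ d * e ∨ φ.VarWidth (d * e) ∨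
      φ.NegWidth (d * e) ∨ φ.InnerNeg))) :
    EptRed (fun k => (k + 1) ^ e) φ (normF (decide (m % 2 = 0)) m d) := by
  have h1 : ∀ φ : PiF τ s (m + 2), (φ.innerVars ≤ d * e ∨ φ.VarWidth (d * e) ∨
      φ.NegWidth (d * e) ∨ φ.InnerNeg) →
      EptRed (fun k => (k + 1) ^ e) φ (normF (decide (m % 2 = 0)) m d) := by
    rintro φ (h | h | h | h)
    · exact var_width m d e hd he φ (varWidth_of_innerVars φ _ h)
    · exact var_width m d e hd he φ h
    · exact N.neg_width m d e hd he φ h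
    · exact N.neg_width m d e hd he φ (N.sgn_cert _ _ _ _ h)
  have h2 : ∀ j t' : ℕ, t' + j + 1 = m + 2 → ∀ (φ : PiF τ s t'),
      EptRed (fun k => (k + 1) ^ e) φ (normF (decide (m % 2 = 0)) m d) := by
    intro j
    induction j with
    | zero =>
      intro t' ht φ
      obtain rfl : t' = m + 1 := by omega
      exact ept_ext (h1 (P.ext φ) (Or.inl (by rw [ext_innerVars]; exact Nat.zero_le _)))
    | succ j ih =>
      intro t' ht φ
      exact ept_ext (ih (t' + 1) (by omega) (P.ext φ))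
  rcases h with h | ⟨h, h'⟩
  · exact h2 (m + 1 - t') t' (by omega) φ
  · subst h
    exact h1 φ h'

end

end Pool.Agent.Helper265_EW.V
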