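import Pool.Agent.Helper265_EW.VForm

set_option linter.unusedSectionVars false
set_option linter.unusedVariables false

/-! The formula with names is equivalent to the original one. -/

namespace Pool.Agent.Helper265_EW.V

open Finset Classical Pool.Agent.Helper265_EW.G Pool.Agent.Helper265_EW.P
open Pool.Agent.Helper265_EW.N

noncomputable section

section

variable {τ : Voc} {s m : ℕ} (φ : PiF τ s (m + 2)) (bb : Bool) (w0 : ℕ) {n k : ℕ}

lemma tp_inj {α : Type} : Function.Injective (tp : (NI s → α) → Fin (s1 s) → α) := by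
  intro v v' h
  funext c
  have h1 := congrFun h (eN s c)
  simp only [tp, Equiv.symm_apply_apply] at h1
  exact h1

/-- sets of names as sets of tuples -/
def TT (T : Finset (NI s → UV n k (nA s))) : Finset (Fin (s1 s) → UV n k (nA s)) := T.image tp

lemma mem_TT (T : Finset (NI s → UV n k (nA s))) (y : NI s → UV n k (nA s)) :
    tp y ∈ TT T ↔ y ∈ T := by
  unfold TT
  constructor
  · intro h
    obtain ⟨y', hy', he⟩ := Finset.mem_image.mp h
    rw [← tp_inj he]
    exact hy'
  · exact fun h => Finset.mem_image_of_mem _ h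

lemma TT_card (T : Finset (NI s → UV n k (nA s))) : (TT T).card = T.card :=
  Finset.card_image_of_injective _ tp_inj

lemma ex_TT (T' : Finset (Fin (s1 s) → UV n k (nA s))) : ∃ T, T' = TT T := by
  refine ⟨T'.image (fun w c => w (eN s c)), ?_⟩
  ext w
  unfold TT
  have h1 : ∀ w : Fin (s1 s) → UV n k (nA s), tp (fun c => w (eN s c)) = w := by
    intro w
    funext i
    simp only [tp, Equiv.apply_symm_apply]
  constructor
  · intro h
    exact Finset.mem_image.mpr ⟨_, Finset.mem_image_of_mem _ h, h1 w⟩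
  · intro h
    obtain ⟨y, hy, rfl⟩ := Finset.mem_image.mp h
    obtain ⟨w, hw, rfl⟩ := Finset.mem_image.mp hy
    rw [h1]
    exact hw

variable (A : Str τ (Fin n))

/-- truth values of the relations under an assignment -/
def rV (a : Vars (lenV φ w0) (m + 2) → UV n k (nA s)) :
    ∀ i : Fin (vocV τ s).num, (Fin ((vocV τ s).ar i) → Vars (lenV φ w0) (m + 2)) → Bool :=
  fun i v => SV s A k i (fun j => a (v j))

/-- truth values of the equalities under an assignment -/
def eV (a : Vars (lenV φ w0) (m + 2) → UV n k (nA s)) :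
    Vars (lenV φ w0) (m + 2) → Vars (lenV φ w0) (m + 2) → Bool := fun u v => decide (a u = a v)

/-- truth values of the atoms under an assignment -/
def xV (T : Finset (NI s → UV n k (nA s))) (a : Vars (lenV φ w0) (m + 2) → UV n k (nA s)) :
    (Fin (s1 s) → Vars (lenV φ w0) (m + 2)) → Bool := fun v => decide ((fun j => a (v j)) ∈ TT T)

lemma xV_tp (T : Finset (NI s → UV n k (nA s))) (a : Vars (lenV φ w0) (m + 2) → UV n k (nA s))
    (y : NI s → Vars (lenV φ w0) (m + 2)) :
    xV φ w0 T a (tp y) = true ↔ (fun c => a (y c)) ∈ T := by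
  unfold xV
  rw [decide_eq_true_eq]
  exact mem_TT T (fun c => a (y c))

variable (a : Vars (lenV φ w0) (m + 2) → UV n k (nA s))

lemma isEl_toV {b : ℕ} (u : UV n k b) : isEl (toV u) ↔ ∃ x, u = Sum.inl x := by
  rcases u with u | u
  · exact ⟨fun _ => ⟨u, rfl⟩, fun _ => ⟨u, rfl⟩⟩
  · constructor
    · rintro ⟨x, hx⟩
      cases hx
    · rintro ⟨x, hx⟩
      cases hx

lemma isEV_a (u : Vars (lenV φ w0) (m + 2)) :
    isEV (rV φ w0 A a) u ↔ ∃ x, a u = Sum.inl x := by
  unfold isEV rV
  rw [getT_str, decide_eq_true_eq]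
  exact isEl_toV (a u)

lemma k0V_a : k0V (rV φ w0 A a) ↔ k = 0 := by
  unfold k0V rV
  rw [getT_str, decide_eq_true_eq]
  change (¬ ∃ ν : Wo n k (nA s), posO ν) ↔ _
  constructor
  · intro h
    by_contra h1
    exact h ⟨_, (posO_iff _).mpr ⟨⟨0, Nat.pos_of_ne_zero h1⟩, rfl⟩⟩
  · rintro h ⟨ν, hν⟩
    obtain ⟨p, -⟩ := (posO_iff ν).mp hν
    have := p.2
    omega

lemma wtV_a (y : NI s → Vars (lenV φ w0) (m + 2)) (x : Vars (lenV φ w0) (m + 2)) :
    wtV (rV φ w0 A a) y x ↔ wtO (tv (fun c => a (y c))) (toV (a x)) := by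
  unfold wtV rV
  rw [getT_str, decide_eq_true_eq]
  exact Iff.rfl

lemma cpV_a (y y' : NI s → Vars (lenV φ w0) (m + 2)) :
    cpV (rV φ w0 A a) y y' ↔ cpO (tv (fun c => a (y c))) (tv (fun c => a (y' c))) := by
  unfold cpV rV
  rw [getT_str, decide_eq_true_eq]
  exact Iff.rfl

lemma atV_a (Y : Fin s → NI s → Vars (lenV φ w0) (m + 2)) (x : Fin s → Vars (lenV φ w0) (m + 2)) :
    atV (rV φ w0 A a) Y x ↔ atO (fun j => tv (fun c => a (Y j c))) (fun j => toV (a (x j))) := by
  unfold atV rV
  rw [getT_str, decide_eq_true_eq]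
  exact Iff.rfl

end

section

variable {τ : Voc} {s m : ℕ} (φ : PiF τ s (m + 2)) (bb : Bool) (w0 : ℕ) {n k : ℕ}

/-- blocks over the extended universe -/
abbrev XV (n k i : ℕ) : Type := Fin (lenV φ w0 i) → UV n k (nA s)

def nmB (i : ℕ) (y : XV φ w0 n k i) (j : Fin (φ.len i)) : NI s → UV n k (nA s) :=
  fun c => y (eB φ w0 i (Sum.inr (Sum.inl j, c)))

def orB (i : ℕ) (y : XV φ w0 n k i) (j : Fin (φ.len i)) : UV n k (nA s) :=
  y (eB φ w0 i (Sum.inl j))

/-- validity of a block -/
def okB (T : Finset (NI s → UV n k (nA s))) (i : ℕ) (y : XV φ w0 n k i) : Prop :=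
  ∀ j, (∃ x, orB φ w0 i y j = Sum.inl x) ∧
    (k = 0 ∨ (nmB φ w0 i y j ∈ T ∧ wtO (tv (nmB φ w0 i y j)) (toV (orB φ w0 i y j))))

/-- extraction of the original block -/
def piV (T : Finset (NI s → UV n k (nA s))) (i : ℕ) (y : XV φ w0 n k i) :
    Option (Fin (φ.len i) → Fin n) :=
  if h : okB φ w0 T i y then some (fun j => (h j).1.choose) else none

lemma piV_some (T : Finset (NI s → UV n k (nA s))) (i : ℕ) (y : XV φ w0 n k i)
    (x : Fin (φ.len i) → Fin n) :
    piV φ w0 T i y = some x ↔ ∀ j, orB φ w0 i y j = Sum.inl (x j) ∧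
      (k = 0 ∨ (nmB φ w0 i y j ∈ T ∧ wtO (tv (nmB φ w0 i y j)) (Wo.el (x j)))) := by
  unfold piV
  split_ifs with h
  · constructor
    · intro h1 j
      have h2 : (h j).1.choose = x j := congrFun (Option.some_injective _ h1) j
      have h3 := (h j).1.choose_spec
      rw [h2] at h3
      refine ⟨h3, ?_⟩
      have h4 := (h j).2
      rw [h3] at h4
      exact h4
    · intro h1
      congr 1
      funext j
      exact Sum.inl_injective ((h j).1.choose_spec.symm.trans (h1 j).1)
  · constructor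
    · intro h1
      exact absurd h1 (by simp)
    · intro h1
      exact absurd (fun j => ⟨⟨x j, (h1 j).1⟩, by rw [(h1 j).1]; exact (h1 j).2⟩) h

/-- the original variables of level `i` are valid -/
def okv (T : Finset (NI s → UV n k (nA s))) (t : ℕ) (v : Tup (XV φ w0 n k) t) (i : ℕ) : Prop :=
  ∀ u : Vars φ.len t, P.lv φ.len t u = i →
    (∃ x, asg (lenV φ w0) t v (ioV φ w0 t u) = Sum.inl x) ∧
    (k = 0 ∨ ((fun c => asg (lenV φ w0) t v (nmV φ w0 t u c)) ∈ T ∧
      wtO (tv (fun c => asg (lenV φ w0) t v (nmV φ w0 t u c)))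
        (toV (asg (lenV φ w0) t v (ioV φ w0 t u)))))

variable (T : Finset (NI s → UV n k (nA s)))

lemma okv_lt (t : ℕ) (v : Tup (XV φ w0 n k) (t + 1)) (i : ℕ) (hi : i < t) :
    okv φ w0 T (t + 1) v i ↔ okv φ w0 T t v.1 i := by
  constructor
  · intro h u hu
    exact h (Sum.inl u) hu
  · intro h u hu
    rcases u with u | j
    · exact h u hu
    · have : t = i := hu
      omega

lemma okv_eq (t : ℕ) (v : Tup (XV φ w0 n k) (t + 1)) :
    okv φ w0 T (t + 1) v t ↔ okB φ w0 T t v.2 := by
  constructor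
  · intro h j
    exact h (Sum.inr j) rfl
  · intro h u hu
    rcases u with u | j
    · have h1 := P.lv_lt φ.len t u
      have : P.lv φ.len t u = t := hu
      omega
    · exact h j

lemma scn_okv (t : ℕ) (v : Tup (XV φ w0 n k) t) :
    P.scn (okv φ w0 T t v) t = match stt (piV φ w0 T) t v with
      | Sum.inl _ => none
      | Sum.inr c => some c := by
  induction t with
  | zero => rfl
  | succ t ih =>
    have h1 : P.scn (okv φ w0 T (t + 1) v) t = P.scn (okv φ w0 T t v.1) t :=
      P.scn_congr t (fun i hi => okv_lt φ w0 T t v i hi)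
    simp only [P.scn, stt]
    rw [h1, ih v.1]
    cases h2 : stt (piV φ w0 T) t v.1 with
    | inr c => rfl
    | inl x =>
      simp only
      cases h3 : piV φ w0 T t v.2 with
      | some y =>
        simp only
        rw [if_pos]
        rw [okv_eq]
        by_contra h4
        unfold piV at h3
        rw [dif_neg h4] at h3
        exact absurd h3 (by simp)
      | none =>
        simp only
        rw [if_neg]
        rw [okv_eq]
        intro h4
        unfold piV at h3
        rw [dif_pos h4] at h3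
        exact absurd h3 (by simp)

lemma asg_ioV (t : ℕ) (v : Tup (XV φ w0 n k) t) (x : Tup (fun i => Fin (φ.len i) → Fin n) t)
    (h : stt (piV φ w0 T) t v = Sum.inl x) (u : Vars φ.len t) :
    asg (lenV φ w0) t v (ioV φ w0 t u) = Sum.inl (asg φ.len t x u) ∧
    (k = 0 ∨ ((fun c => asg (lenV φ w0) t v (nmV φ w0 t u c)) ∈ T ∧
      wtO (tv (fun c => asg (lenV φ w0) t v (nmV φ w0 t u c)))
        (Wo.el (asg φ.len t x u)))) := by
  induction t with
  | zero => exact u.elim
  | succ t ih =>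
    simp only [stt] at h
    cases h2 : stt (piV φ w0 T) t v.1 with
    | inr c => rw [h2] at h; exact absurd h (by simp)
    | inl x' =>
      rw [h2] at h
      simp only at h
      cases h3 : piV φ w0 T t v.2 with
      | none => rw [h3] at h; exact absurd h (by simp)
      | some y =>
        rw [h3] at h
        simp only [Sum.inl.injEq] at h
        rw [← h]
        rcases u with u | j
        · exact ih v.1 x' h2 u
        · exact (piV_some φ w0 T t v.2 y).mp h3 j

lemma asg_z0V (t : ℕ) (v : Tup (XV φ w0 n k) (t + 1)) (β : Bool) (c : NI s) :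
    asg (lenV φ w0) (t + 1) v (z0V φ w0 t β c) =
      fstc t v (eB φ w0 0 (Sum.inr (Sum.inr (Sum.inl β), c))) := by
  induction t with
  | zero => rfl
  | succ t ih => exact ih v.1

/-- compatibility of the two additional names -/
def gdV (x0 : XV φ w0 n k 0) : Prop :=
  ((fun c => x0 (eB φ w0 0 (Sum.inr (Sum.inr (Sum.inl false), c)))) ∈ T ∧
    (fun c => x0 (eB φ w0 0 (Sum.inr (Sum.inr (Sum.inl true), c)))) ∈ T) →
  cpO (tv (fun c => x0 (eB φ w0 0 (Sum.inr (Sum.inr (Sum.inl false), c)))))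
    (tv (fun c => x0 (eB φ w0 0 (Sum.inr (Sum.inr (Sum.inl true), c)))))

lemma gdV_all (hn : 0 < n) : (∀ x0, gdV φ w0 T x0) ↔
    ∀ y ∈ T, ∀ y' ∈ T, cpO (tv y) (tv y') := by
  constructor
  · intro h y hy y' hy'
    obtain ⟨x0, h1, h2⟩ : ∃ x0 : XV φ w0 n k 0,
        (fun c => x0 (eB φ w0 0 (Sum.inr (Sum.inr (Sum.inl false), c)))) = y ∧
        (fun c => x0 (eB φ w0 0 (Sum.inr (Sum.inr (Sum.inl true), c)))) = y' := by
      refine ⟨fun i => match (eB φ w0 0).symm i with
        | Sum.inr (Sum.inr (Sum.inl false), c) => y c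
        | Sum.inr (Sum.inr (Sum.inl true), c) => y' c
        | _ => Sum.inl ⟨0, hn⟩, ?_, ?_⟩
      · funext c
        simp only [Equiv.symm_apply_apply]
      · funext c
        simp only [Equiv.symm_apply_apply]
    have h3 := h x0
    unfold gdV at h3
    rw [h1, h2] at h3
    exact h3 ⟨hy, hy'⟩
  · intro h x0 hx0
    exact h _ hx0.1 _ hx0.2

variable (A : Str τ (Fin n))

/-- the critical event under an assignment -/
def evA (v : Tup (XV φ w0 n k) (m + 2)) : Prop :=
  evtV φ bb w0 (rV φ w0 A (asg (lenV φ w0) (m + 2) v)) (eV φ w0 (asg (lenV φ w0) (m + 2) v))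
    (fun c => xV φ w0 T (asg (lenV φ w0) (m + 2) v) (tp (cvV φ w0 c)))

/-- the rest of the matrix -/
def restV (v : Tup (XV φ w0 n k) (m + 2)) : Prop :=
  match stt (piV φ w0 T) (m + 1) v.1 with
  | Sum.inr c => c = true
  | Sum.inl _ => (evA φ bb w0 T A v ↔ bb = true)

lemma PV_sem (v : Tup (XV φ w0 n k) (m + 2)) :
    PV φ bb w0 (rV φ w0 A (asg (lenV φ w0) (m + 2) v)) (eV φ w0 (asg (lenV φ w0) (m + 2) v))
      (xV φ w0 T (asg (lenV φ w0) (m + 2) v)) ↔
      gdV φ w0 T (fstc (m + 1) v) ∧ restV φ bb w0 T A v := by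
  unfold PV
  apply and_congr
  · unfold gdV
    rw [xV_tp, xV_tp, cpV_a]
    simp only [asg_z0V]
  · have h1 : P.scn (okV φ w0 (rV φ w0 A (asg (lenV φ w0) (m + 2) v))
        (fun u => xV φ w0 T (asg (lenV φ w0) (m + 2) v) (tp (nmV φ w0 (m + 2) u)))) (m + 1) =
        match stt (piV φ w0 T) (m + 1) v.1 with
        | Sum.inl _ => none
        | Sum.inr c => some c := by
      have h0 := scn_okv φ w0 T (m + 1) v.1
      refine Eq.trans (P.scn_congr (ok' := okv φ w0 T (m + 1) v.1) (m + 1) ?_)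
        (by cases h9 : stt (piV φ w0 T) (m + 1) v.1 with
          | inl x => rw [h9] at h0; exact h0
          | inr c => rw [h9] at h0; exact h0)
      intro i hi
      rw [← okv_lt φ w0 T (m + 1) v i hi]
      unfold okV okv
      simp only [isEV_a, k0V_a, wtV_a, xV_tp]
    rw [h1]
    unfold restV
    cases h2 : stt (piV φ w0 T) (m + 1) v.1 with
    | inr c => exact Iff.rfl
    | inl x => exact Iff.rfl

lemma holds_altV :
    (forV φ bb w0).Holds (SV s A k) (TT T) ↔
      alt (XV φ w0 n k) (m + 2)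
        (fun v => gdV φ w0 T (fstc (m + 1) v) ∧ restV φ bb w0 T A v) := by
  unfold PiF.Holds
  rw [quant_alt]
  apply alt_congr
  intro v
  rw [← PV_sem]
  have h1 := P.eval_holds (SV s A k) (TT T) (asg (lenV φ w0) (m + 2) v)
    (rV φ w0 A (asg (lenV φ w0) (m + 2) v)) (eV φ w0 (asg (lenV φ w0) (m + 2) v))
    (xV φ w0 T (asg (lenV φ w0) (m + 2) v)) (fun R w => Iff.rfl) (fun u w => decide_eq_true_iff)
    (fun w => decide_eq_true_iff) (qfOf (z0V φ w0 (m + 1) false (Sum.inl ())) (PV φ bb w0))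
  exact h1.symm.trans (eval_qfOf _ _ _ _ _)

end

end

end Pool.Agent.Helper265_EW.V
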