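import Pool.Agent.Helper265_EW.IDefs

/-! Interpretations that may use words of length `r` over the universe. -/

namespace Pool.Agent.Helper265_EW

/-- Objects over a structure with universe `{0, …, n - 1}`: its elements, the numbers `0, …, k`,
and the words of length `r` over the universe. -/
inductive Ob (n k r : ℕ) : Type
  | el (a : Fin n) : Ob n k r
  | nb (i : Fin (k + 1)) : Ob n k r
  | wd (f : Fin r → Fin n) : Ob n k r

namespace Ob

variable {n k r : ℕ}

/-- The letter of a word at a position; the number `0` if this is not defined. -/
def letter : Ob n k r → Ob n k r → Ob n k r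
  | wd f, nb i => if h : i.val < r then el (f ⟨i.val, h⟩) else nb 0
  | _, _ => nb 0

/-- The number `i` as an object, for `i ≤ k`. -/
def ofNum (i : ℕ) : Ob n k r := nb (Fin.ofNat (k + 1) i)

end Ob

/-- Terms: variables, letters of words, and the numbers `k / r`, `k % r` and `r - 1`. -/
inductive Tm (V : Type) : Type
  | var (v : V) : Tm V
  | letter (u v : V) : Tm V
  | quo : Tm V
  | rem : Tm V
  | last : Tm V

/-- The value of a term under a family of objects. -/
def Tm.val {n k r : ℕ} {V : Type} (w : V → Ob n k r) : Tm V → Ob n k r
  | var v => w v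
  | letter u v => (w u).letter (w v)
  | quo => Ob.ofNum (k / r)
  | rem => Ob.ofNum (k % r)
  | last => Ob.ofNum (r - 1)

/-- An atomic type: truth values for all atomic statements about objects indexed by `V`: the
relations of the structure, equality, the order of the elements, the order of the numbers, being
consecutive numbers, being a word, being the number `0`, and being the element `0`. -/
structure OType (τ : Voc) (V : Type) where
  rel : ∀ R : Fin τ.num, (Fin (τ.ar R) → V) → Bool
  eq : V → V → Bool
  lt : V → V → Bool
  le : V → V → Bool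
  suc : V → V → Bool
  word : V → Bool
  zero : V → Bool
  least : V → Bool

open Classical in
/-- The atomic type of a family of objects over the structure `A`, or rather of the values of all
terms in this family. -/
noncomputable def otp {τ : Voc} {n k r : ℕ} {V : Type} (A : Str τ (Fin n)) (w : V → Ob n k r) :
    OType τ (Tm V) where
  rel R v := decide (∃ a : Fin (τ.ar R) → Fin n,
    (∀ i, (v i).val w = Ob.el (a i)) ∧ A R a = true)
  eq u v := decide (u.val w = v.val w)
  lt u v := decide (∃ a b : Fin n, u.val w = Ob.el a ∧ v.val w = Ob.el b ∧ a < b)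
  le u v := decide (∃ i j : Fin (k + 1), u.val w = Ob.nb i ∧ v.val w = Ob.nb j ∧ i ≤ j)
  suc u v := decide (∃ i j : Fin (k + 1), u.val w = Ob.nb i ∧ v.val w = Ob.nb j ∧
    j.val = i.val + 1)
  word u := decide (∃ f : Fin r → Fin n, u.val w = Ob.wd f)
  zero u := decide (∃ i : Fin (k + 1), u.val w = Ob.nb i ∧ i.val = 0)
  least u := decide (∃ a : Fin n, u.val w = Ob.el a ∧ a.val = 0)

/-- A quantifier-free interpretation with words: the new elements are the pairs of a tag, from a
finite set, and a family of objects, indexed by a finite set, that satisfy a condition on the tag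
and the atomic type of the family; whether a new relation holds for a tuple of new elements is
given by a function of their tags and of the atomic type of their families. -/
structure WInt (τ τ' : Voc) where
  Tag : Type
  finTag : Finite Tag
  Ix : Type
  finIx : Finite Ix
  dom : Tag → OType τ (Tm Ix) → Bool
  rel : ∀ R : Fin τ'.num, (Fin (τ'.ar R) → Tag) → OType τ (Tm (Fin (τ'.ar R) × Ix)) → Bool

namespace WInt

variable {τ τ' : Voc}

/-- The universe of the new structure. -/
def Univ (I : WInt τ τ') {n : ℕ} (A : Str τ (Fin n)) (k r : ℕ) : Type :=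
  {x : I.Tag × (I.Ix → Ob n k r) // I.dom x.1 (otp A x.2) = true}

/-- The new structure. -/
noncomputable def out (I : WInt τ τ') {n : ℕ} (A : Str τ (Fin n)) (k r : ℕ) :
    Str τ' (I.Univ A k r) :=
  fun R v => I.rel R (fun i => (v i).1.1) (otp A (fun p => (v p.1).1.2 p.2))

end WInt

/-- The weighted Fagin-definable problem of `φ` reduces to that of `φ'` by one interpretation
that, for every word length `r` with `1 ≤ r ≤ k + 1`, gives a structure with at most
`c * (k + n ^ r) ^ c` elements, `c` a constant, and is correct with new parameter
`(k / r + 1) ^ e`. -/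
def WRed (e : ℕ) {τ τ' : Voc} {s s' t t' : ℕ} (φ : PiF τ s t) (φ' : PiF τ' s' t') : Prop :=
  ∃ (I : WInt τ τ') (c : ℕ), ∀ n k r : ℕ, 1 ≤ n → 1 ≤ r → r ≤ k + 1 → ∀ A : Str τ (Fin n),
    Nat.card (I.Univ A k r) ≤ c * (k + n ^ r) ^ c ∧
      (WDF φ A k ↔ WDF φ' (I.out A k r) ((k / r + 1) ^ e))

end Pool.Agent.Helper265_EW
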