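import Pool.Agent.Helper265_EW.PRes
import Pool.Agent.Helper265_EW.WDefs

set_option linter.unusedSectionVars false

/-! Blocks of consecutive gaps of a finite set of words. -/

namespace Pool.Agent.Helper265_EW.W

open Finset Classical Pool.Agent.Helper265_EW.P

noncomputable section

variable {n k r s e : ℕ} [NeZero n]

/-- raw blocks -/
abbrev RB (n k r s : ℕ) : Type := Gx s → Ob n k r

def leN (x y : Ob n k r) : Prop := ∃ i j : Fin (k + 1), x = Ob.nb i ∧ y = Ob.nb j ∧ i ≤ j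
def sucN (x y : Ob n k r) : Prop :=
  ∃ i j : Fin (k + 1), x = Ob.nb i ∧ y = Ob.nb j ∧ j.val = i.val + 1
def isZ (x : Ob n k r) : Prop := ∃ i : Fin (k + 1), x = Ob.nb i ∧ i.val = 0
def isE0 (x : Ob n k r) : Prop := ∃ a : Fin n, x = Ob.el a ∧ a.val = 0
def ltE (x y : Ob n k r) : Prop := ∃ a b : Fin n, x = Ob.el a ∧ y = Ob.el b ∧ a < b
def isW (x : Ob n k r) : Prop := ∃ f : Fin r → Fin n, x = Ob.wd f

def cQ : Ob n k r := Ob.ofNum (k / r)
def cR : Ob n k r := Ob.ofNum (k % r)
def cL : Ob n k r := Ob.ofNum (r - 1)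

def ltR (x y : Fin s → Ob n k r) : Prop := ∃ i, ltE (x i) (y i) ∧ ∀ j, j < i → x j = y j
def zeR (x : Fin s → Ob n k r) : Prop := ∀ j, isE0 (x j)

def bN (B : RB n k r s) : Ob n k r := B (Sum.inl ())
def bA (B : RB n k r s) (p : Ob n k r) : Fin s → Ob n k r :=
  fun j => (B (Sum.inr (false, j))).letter p
def bB (B : RB n k r s) (p : Ob n k r) : Fin s → Ob n k r :=
  fun j => (B (Sum.inr (true, j))).letter p

/-- positions -/
def okP (p : Ob n k r) : Prop := leN p cL
/-- gap numbers `≤ k` -/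
def inR (c p : Ob n k r) : Prop := (leN c cQ ∧ c ≠ cQ) ∨ (c = cQ ∧ leN p cR)
def isF (c p : Ob n k r) : Prop := isZ c ∧ isZ p
def isL (c p : Ob n k r) : Prop := c = cQ ∧ p = cR
def scP (c p c' p' : Ob n k r) : Prop := (c' = c ∧ sucN p p') ∨ (sucN c c' ∧ p = cL ∧ isZ p')

def badR (B : RB n k r s) (p : Ob n k r) : Prop :=
  ((¬ inR (bN B) p ∨ isF (bN B) p) ∧ ¬ zeR (bA B p)) ∨
  ((¬ inR (bN B) p ∨ isL (bN B) p) ∧ ¬ zeR (bB B p)) ∨
  (inR (bN B) p ∧ ¬ isF (bN B) p ∧ ¬ isL (bN B) p ∧ ¬ ltR (bA B p) (bB B p))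

/-- conflicting blocks, at given positions -/
def cflR (B : RB n k r s) (p : Ob n k r) (B' : RB n k r s) (p' : Ob n k r) : Prop :=
  okP p ∧ okP p' ∧ (badR B p ∨ (bN B = bN B' ∧ ∃ y, B y ≠ B' y) ∨
    (scP (bN B) p (bN B') p' ∧ inR (bN B') p' ∧ ∃ j, bB B p j ≠ bA B' p' j))

/-- a block confirming or refuting, at a given position, that a word belongs to the set -/
def witR (B : RB n k r s) (p : Ob n k r) (w : Fin s → Ob n k r) (β : Bool) : Prop :=
  okP p ∧ inR (bN B) p ∧
  (if β = true then ¬ isF (bN B) p ∧ ∀ j, bA B p j = w j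
  else (isF (bN B) p ∨ ltR (bA B p) w) ∧ (isL (bN B) p ∨ ltR w (bB B p)))

/-- valid blocks -/
def vblk (B : RB n k r s) : Prop := leN (bN B) cQ ∧ ∀ q, isW (B (Sum.inr q))

/-- the block with number `c` and words `a` and `b` -/
def mkB (c : Fin (k + 1)) (a b : Fin r → Fin s → Fin n) : RB n k r s :=
  Sum.elim (fun _ => Ob.nb c) (fun q => Ob.wd (fun i => if q.1 = true then b i q.2 else a i q.2))

lemma ofNum_eq {i : ℕ} (h : i < k + 1) : (Ob.ofNum i : Ob n k r) = Ob.nb ⟨i, h⟩ := by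
  unfold Ob.ofNum
  congr 1
  exact Fin.ext (Nat.mod_eq_of_lt h)

lemma leN_nb (i j : Fin (k + 1)) : leN (Ob.nb i : Ob n k r) (Ob.nb j) ↔ i ≤ j := by
  constructor
  · rintro ⟨i', j', h1, h2, h⟩
    rw [Ob.nb.injEq] at h1 h2
    rw [h1, h2]; exact h
  · intro h; exact ⟨i, j, rfl, rfl, h⟩

lemma sucN_nb (i j : Fin (k + 1)) : sucN (Ob.nb i : Ob n k r) (Ob.nb j) ↔ j.val = i.val + 1 := by
  constructor
  · rintro ⟨i', j', h1, h2, h⟩
    rw [Ob.nb.injEq] at h1 h2
    rw [h1, h2]; exact h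
  · intro h; exact ⟨i, j, rfl, rfl, h⟩

lemma isZ_nb (i : Fin (k + 1)) : isZ (Ob.nb i : Ob n k r) ↔ i.val = 0 := by
  constructor
  · rintro ⟨i', h1, h⟩
    rw [Ob.nb.injEq] at h1
    rw [h1]; exact h
  · intro h; exact ⟨i, rfl, h⟩

lemma leN_nb' {x : Ob n k r} {y : Ob n k r} (h : leN x y) : ∃ i, x = Ob.nb i := by
  obtain ⟨i, _, h1, _⟩ := h
  exact ⟨i, h1⟩

lemma isE0_el (a : Fin n) : isE0 (Ob.el a : Ob n k r) ↔ a = 0 := by
  constructor
  · rintro ⟨a', h1, h⟩
    rw [Ob.el.injEq] at h1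
    rw [h1]
    exact Fin.ext (by simpa using h)
  · intro h; exact ⟨a, rfl, by rw [h]; simp⟩

section Arith

variable (hr : 1 ≤ r) (hrk : r ≤ k + 1)

include hr

lemma q_lt : k / r < k + 1 := Nat.lt_succ_of_le (Nat.div_le_self k r)
lemma rm_lt : k % r < k + 1 := Nat.lt_succ_of_le (Nat.mod_le k r)

lemma cQ_eq : (cQ : Ob n k r) = Ob.nb ⟨k / r, q_lt hr⟩ := ofNum_eq _
lemma cR_eq : (cR : Ob n k r) = Ob.nb ⟨k % r, rm_lt hr⟩ := ofNum_eq _

/-- comparison of positions -/
lemma lex_le {c i c' i' : ℕ} (hi : i < r) (hi' : i' < r) :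
    c * r + i ≤ c' * r + i' ↔ c < c' ∨ (c = c' ∧ i ≤ i') := by
  rcases lt_trichotomy c c' with h | h | h
  · have h1 : (c + 1) * r ≤ c' * r := Nat.mul_le_mul_right _ h
    have h2 : (c + 1) * r = c * r + r := by ring
    constructor
    · intro _; exact Or.inl h
    · intro _; omega
  · subst h
    constructor
    · intro h1; exact Or.inr ⟨rfl, by omega⟩
    · rintro (h1 | ⟨_, h1⟩)
      · omega
      · omega
  · have h1 : (c' + 1) * r ≤ c * r := Nat.mul_le_mul_right _ h
    have h2 : (c' + 1) * r = c' * r + r := by ring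
    constructor
    · intro _; omega
    · rintro (h3 | ⟨h3, _⟩)
      · omega
      · omega

lemma lex_eq {c i c' i' : ℕ} (hi : i < r) (hi' : i' < r) :
    c * r + i = c' * r + i' ↔ c = c' ∧ i = i' := by
  constructor
  · intro h
    have h1 := (lex_le hr hi hi').mp (le_of_eq h)
    have h2 := (lex_le hr hi' hi).mp (le_of_eq h.symm)
    rcases h1 with h1 | h1
    · rcases h2 with h2 | h2
      · omega
      · omega
    · rcases h2 with h2 | h2
      · omega
      · exact ⟨h1.1, by omega⟩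
  · rintro ⟨rfl, rfl⟩; rfl

lemma k_eq : k / r * r + k % r = k := by
  have := Nat.div_add_mod k r
  rw [mul_comm] at this
  exact this

lemma le_k_iff {c i : ℕ} (hi : i < r) : c * r + i ≤ k ↔ c < k / r ∨ (c = k / r ∧ i ≤ k % r) := by
  have h := lex_le (c' := k / r) (i' := k % r) (c := c) hr hi (Nat.mod_lt _ hr)
  rw [k_eq hr] at h
  exact h

lemma eq_k_iff {c i : ℕ} (hi : i < r) : c * r + i = k ↔ c = k / r ∧ i = k % r := by
  have h := lex_eq (c' := k / r) (i' := k % r) (c := c) hr hi (Nat.mod_lt _ hr)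
  rw [k_eq hr] at h
  exact h

lemma inR_nb (c i : Fin (k + 1)) (hi : i.val < r) :
    inR (Ob.nb c : Ob n k r) (Ob.nb i) ↔ c.val * r + i.val ≤ k := by
  rw [le_k_iff hr hi]
  unfold inR
  rw [cQ_eq hr, cR_eq hr, leN_nb, leN_nb, Ob.nb.injEq]
  constructor
  · rintro (⟨h1, h2⟩ | ⟨h1, h2⟩)
    · left
      have h3 : c.val ≤ k / r := h1
      have h4 : c.val ≠ k / r := fun h => h2 (congrArg Ob.nb (Fin.ext h))
      omega
    · right
      exact ⟨congrArg Fin.val h1, h2⟩
  · rintro (h1 | ⟨h1, h2⟩)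
    · left
      refine ⟨?_, fun h => ?_⟩
      · change c.val ≤ k / r
        omega
      · rw [Ob.nb.injEq] at h
        have := congrArg Fin.val h
        simp only at this
        omega
    · right
      exact ⟨Fin.ext h1, h2⟩

lemma isF_nb (c i : Fin (k + 1)) :
    isF (Ob.nb c : Ob n k r) (Ob.nb i) ↔ c.val * r + i.val = 0 := by
  unfold isF
  rw [isZ_nb, isZ_nb]
  constructor
  · rintro ⟨h1, h2⟩
    rw [h1, h2, zero_mul]
  · intro h
    have h1 : c.val * r = 0 := by omega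
    rcases Nat.mul_eq_zero.mp h1 with h2 | h2
    · exact ⟨h2, by omega⟩
    · omega

lemma isL_nb (c i : Fin (k + 1)) (hi : i.val < r) :
    isL (Ob.nb c : Ob n k r) (Ob.nb i) ↔ c.val * r + i.val = k := by
  rw [eq_k_iff hr hi]
  unfold isL
  rw [cQ_eq hr, cR_eq hr, Ob.nb.injEq, Ob.nb.injEq]
  constructor
  · rintro ⟨h1, h2⟩
    exact ⟨congrArg Fin.val h1, congrArg Fin.val h2⟩
  · rintro ⟨h1, h2⟩
    exact ⟨Fin.ext h1, Fin.ext h2⟩

include hrk

lemma l_lt : r - 1 < k + 1 := by omega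

lemma cL_eq : (cL : Ob n k r) = Ob.nb ⟨r - 1, l_lt hr hrk⟩ := ofNum_eq _

lemma okP_nb (i : Fin (k + 1)) : okP (Ob.nb i : Ob n k r) ↔ i.val < r := by
  unfold okP
  rw [cL_eq hr hrk, leN_nb]
  constructor
  · intro h
    have : i.val ≤ r - 1 := h
    omega
  · intro h
    change i.val ≤ r - 1
    omega

lemma scP_nb (c i c' i' : Fin (k + 1)) (hi : i.val < r) (hi' : i'.val < r) :
    scP (Ob.nb c : Ob n k r) (Ob.nb i) (Ob.nb c') (Ob.nb i') ↔
      c'.val * r + i'.val = c.val * r + i.val + 1 := by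
  unfold scP
  rw [cL_eq hr hrk, sucN_nb, sucN_nb, isZ_nb, Ob.nb.injEq, Ob.nb.injEq]
  constructor
  · rintro (⟨h1, h2⟩ | ⟨h1, h2, h3⟩)
    · rw [h1, h2]; ring
    · have h4 : i.val = r - 1 := congrArg Fin.val h2
      rw [h1, h3, h4]
      have : (c.val + 1) * r = c.val * r + r := by ring
      omega
  · intro h
    by_cases h1 : i.val + 1 < r
    · left
      have h2 : c'.val * r + i'.val = c.val * r + (i.val + 1) := by rw [h]; ring
      rw [lex_eq hr hi' h1] at h2
      exact ⟨Fin.ext h2.1, h2.2⟩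
    · right
      have h2 : c'.val * r + i'.val = (c.val + 1) * r + 0 := by
        rw [h]
        have : (c.val + 1) * r = c.val * r + r := by ring
        omega
      rw [lex_eq hr hi' (by omega)] at h2
      exact ⟨h2.1, Fin.ext (by simp only; omega), h2.2⟩

end Arith

lemma bN_mk (c : Fin (k + 1)) (a b : Fin r → Fin s → Fin n) : bN (mkB c a b) = Ob.nb c := rfl

lemma bA_mk (c : Fin (k + 1)) (a b : Fin r → Fin s → Fin n) (i : Fin (k + 1)) (hi : i.val < r) :
    bA (mkB c a b) (Ob.nb i) = fun j => Ob.el (a ⟨i.val, hi⟩ j) := by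
  funext j
  simp [bA, mkB, Ob.letter, hi]

lemma bB_mk (c : Fin (k + 1)) (a b : Fin r → Fin s → Fin n) (i : Fin (k + 1)) (hi : i.val < r) :
    bB (mkB c a b) (Ob.nb i) = fun j => Ob.el (b ⟨i.val, hi⟩ j) := by
  funext j
  simp [bB, mkB, Ob.letter, hi]

lemma ltR_el (a b : Fin s → Fin n) :
    ltR (fun j => (Ob.el (a j) : Ob n k r)) (fun j => Ob.el (b j)) ↔
      (toLex a : Wd n s) < toLex b := by
  constructor
  · rintro ⟨i, ⟨x, y, hx, hy, hxy⟩, h⟩
    rw [Ob.el.injEq] at hx hy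
    refine ⟨i, fun j hj => ?_, ?_⟩
    · have := h j hj
      rw [Ob.el.injEq] at this
      exact this
    · rw [← hx, ← hy] at hxy
      exact hxy
  · rintro ⟨i, h1, h2⟩
    exact ⟨i, ⟨_, _, rfl, rfl, h2⟩, fun j hj => congrArg Ob.el (h1 j hj)⟩

lemma zeR_el (a : Fin s → Fin n) : zeR (fun j => (Ob.el (a j) : Ob n k r)) ↔ a = 0 := by
  unfold zeR
  constructor
  · intro h
    funext j
    exact (isE0_el _).mp (h j)
  · intro h j
    rw [h]
    exact (isE0_el _).mpr rfl

lemma vblk_ex {B : RB n k r s} (hr : 1 ≤ r) (h : vblk B) :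
    ∃ (c : Fin (k + 1)) (a b : Fin r → Fin s → Fin n), c.val ≤ k / r ∧ B = mkB c a b := by
  obtain ⟨h1, h2⟩ := h
  obtain ⟨c, hc⟩ := leN_nb' h1
  choose f hf using h2
  rw [hc, cQ_eq hr, leN_nb] at h1
  refine ⟨c, fun i j => f (false, j) i, fun i j => f (true, j) i, h1, ?_⟩
  funext y
  rcases y with y | ⟨bb, j⟩
  · exact hc
  · rw [hf (bb, j)]
    cases bb <;> simp [mkB]

lemma vblk_mk {c : Fin (k + 1)} (a b : Fin r → Fin s → Fin n) (hr : 1 ≤ r)
    (hc : c.val ≤ k / r) : vblk (mkB c a b) := by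
  refine ⟨?_, fun q => ⟨_, rfl⟩⟩
  rw [bN_mk, cQ_eq hr, leN_nb]
  exact hc

/-- block numbers as numbers -/
def nc (c : Fin (k / r + 1)) : Fin (k + 1) :=
  ⟨c.val, lt_of_lt_of_le c.isLt (Nat.succ_le_succ (Nat.div_le_self k r))⟩

/-- the `c`-th block of a chain -/
def blkE (E : ℕ → Wd n s) (c : Fin (k / r + 1)) : RB n k r s :=
  mkB (nc c)
    (fun i => if c.val * r + i.val = 0 ∨ k < c.val * r + i.val then 0 else
      ofLex (E (c.val * r + i.val - 1)))
    (fun i => if k ≤ c.val * r + i.val then 0 else ofLex (E (c.val * r + i.val)))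

lemma blkE_inj (E : ℕ → Wd n s) {c c' : Fin (k / r + 1)}
    (h : (blkE E c : RB n k r s) = blkE E c') : c = c' := by
  have h1 : (Ob.nb (nc c) : Ob n k r) = Ob.nb (nc c') := congrFun h (Sum.inl ())
  rw [Ob.nb.injEq] at h1
  have h2 := congrArg Fin.val h1
  exact Fin.ext h2

lemma blkE_v (E : ℕ → Wd n s) (hr : 1 ≤ r) (c : Fin (k / r + 1)) :
    vblk (blkE E c : RB n k r s) :=
  vblk_mk _ _ hr (Nat.lt_succ_iff.mp c.isLt)

lemma blkE_bad {E : ℕ → Wd n s} (hE : Inc k E) (hr : 1 ≤ r) (c : Fin (k / r + 1))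
    (i : Fin (k + 1)) (hi : i.val < r) : ¬ badR (blkE E c : RB n k r s) (Ob.nb i) := by
  have hA : bA (blkE E c : RB n k r s) (Ob.nb i) = fun j => Ob.el
      ((if c.val * r + i.val = 0 ∨ k < c.val * r + i.val then (0 : Fin s → Fin n) else
      ofLex (E (c.val * r + i.val - 1))) j) := by
    unfold blkE
    rw [bA_mk _ _ _ i hi]
  have hB : bB (blkE E c : RB n k r s) (Ob.nb i) = fun j => Ob.el
      ((if k ≤ c.val * r + i.val then (0 : Fin s → Fin n) else
      ofLex (E (c.val * r + i.val))) j) := by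
    unfold blkE
    rw [bB_mk _ _ _ i hi]
  have hN : bN (blkE E c : RB n k r s) = Ob.nb (nc c) := rfl
  have hc : (nc (r := r) c).val = c.val := rfl
  rintro (⟨h1, h2⟩ | ⟨h1, h2⟩ | ⟨h1, h2, h3, h4⟩)
  · rw [hN, inR_nb hr _ _ hi, isF_nb hr, hc] at h1
    apply h2
    rw [hA, zeR_el, if_pos (by omega)]
  · rw [hN, inR_nb hr _ _ hi, isL_nb hr _ _ hi, hc] at h1
    apply h2
    rw [hB, zeR_el, if_pos (by omega)]
  · rw [hN, inR_nb hr _ _ hi, hc] at h1
    rw [hN, isF_nb hr, hc] at h2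
    rw [hN, isL_nb hr _ _ hi, hc] at h3
    apply h4
    rw [hA, hB, ltR_el, if_neg (by omega), if_neg (by omega)]
    exact hE _ _ (by omega) (by omega)

lemma blkE_cfl {E : ℕ → Wd n s} (hE : Inc k E) (hr : 1 ≤ r) (hrk : r ≤ k + 1)
    (c c' : Fin (k / r + 1)) (p p' : Ob n k r) :
    ¬ cflR (blkE E c : RB n k r s) p (blkE E c') p' := by
  rintro ⟨hp, hp', h⟩
  obtain ⟨i, rfl⟩ := leN_nb' hp
  obtain ⟨i', rfl⟩ := leN_nb' hp'
  rw [okP_nb hr hrk] at hp hp'
  rcases h with h | ⟨h1, y, h2⟩ | ⟨h1, h2, j, h3⟩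
  · exact blkE_bad hE hr c i hp h
  · have h3 : (Ob.nb (nc c) : Ob n k r) = Ob.nb (nc c') := h1
    rw [Ob.nb.injEq] at h3
    have h5 : c.val = c'.val := congrArg (fun x : Fin (k + 1) => x.val) h3
    have h4 : c = c' := Fin.ext h5
    subst h4
    exact h2 rfl
  · have hN : bN (blkE E c : RB n k r s) = Ob.nb (nc c) := rfl
    have hN' : bN (blkE E c' : RB n k r s) = Ob.nb (nc c') := rfl
    have hc : (nc (r := r) c).val = c.val := rfl
    have hc' : (nc (r := r) c').val = c'.val := rfl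
    rw [hN, hN', scP_nb hr hrk _ _ _ _ hp hp', hc, hc'] at h1
    rw [hN', inR_nb hr _ _ hp', hc'] at h2
    apply h3
    unfold blkE
    rw [bB_mk _ _ _ i hp, bA_mk _ _ _ i' hp']
    simp only
    rw [if_neg (by omega), if_neg (by omega)]
    have : c'.val * r + i'.val - 1 = c.val * r + i.val := by omega
    rw [this]

/-- positions of gap numbers -/
lemma pos_of (hr : 1 ≤ r) (g : Fin (k + 1)) :
    ∃ (c : Fin (k / r + 1)) (i : Fin (k + 1)), i.val < r ∧ c.val * r + i.val = g.val := by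
  have hg := g.isLt
  refine ⟨⟨g.val / r, Nat.lt_succ_of_le (Nat.div_le_div_right (by omega))⟩,
    ⟨g.val % r, ?_⟩, Nat.mod_lt _ hr, ?_⟩
  · exact lt_of_le_of_lt (Nat.mod_le _ _) hg
  · simp only
    have := Nat.div_add_mod g.val r
    rw [mul_comm] at this
    exact this

lemma blkE_wit {E : ℕ → Wd n s} (hE : Inc k E) (hr : 1 ≤ r) (hrk : r ≤ k + 1)
    (w : Fin s → Fin n) (β : Bool) :
    (∃ (c : Fin (k / r + 1)) (p : Ob n k r), witR (blkE E c) p (fun j => Ob.el (w j)) β) ↔
      decide ((toLex w : Wd n s) ∈ img k E) = β := by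
  have key : ∀ (c : Fin (k / r + 1)) (i : Fin (k + 1)) (hi : i.val < r),
      witR (blkE E c : RB n k r s) (Ob.nb i) (fun j => Ob.el (w j)) β ↔
      (c.val * r + i.val ≤ k ∧ (if β = true then c.val * r + i.val ≠ 0 ∧
        E (c.val * r + i.val - 1) = toLex w else
        (c.val * r + i.val = 0 ∨ E (c.val * r + i.val - 1) < toLex w) ∧
        (c.val * r + i.val = k ∨ toLex w < E (c.val * r + i.val)))) := by
    intro c i hi
    have hA : bA (blkE E c : RB n k r s) (Ob.nb i) = fun j => Ob.el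
        ((if c.val * r + i.val = 0 ∨ k < c.val * r + i.val then (0 : Fin s → Fin n) else
        ofLex (E (c.val * r + i.val - 1))) j) := by
      unfold blkE
      rw [bA_mk _ _ _ i hi]
    have hB : bB (blkE E c : RB n k r s) (Ob.nb i) = fun j => Ob.el
        ((if k ≤ c.val * r + i.val then (0 : Fin s → Fin n) else
        ofLex (E (c.val * r + i.val))) j) := by
      unfold blkE
      rw [bB_mk _ _ _ i hi]
    have hN : bN (blkE E c : RB n k r s) = Ob.nb (nc c) := rfl
    have hc : (nc (r := r) c).val = c.val := rfl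
    unfold witR
    rw [okP_nb hr hrk, hN, inR_nb hr _ _ hi, isF_nb hr, isL_nb hr _ _ hi, hc]
    constructor
    · rintro ⟨_, h2, h3⟩
      refine ⟨h2, ?_⟩
      cases β with
      | true =>
        rw [if_pos rfl] at h3 ⊢
        refine ⟨h3.1, ?_⟩
        have h4 : ofLex (E (c.val * r + i.val - 1)) = w := by
          funext j
          have := h3.2 j
          rw [hA] at this
          simp only at this
          rw [if_neg (by omega), Ob.el.injEq] at this
          exact this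
        rw [← h4]; rfl
      | false =>
        rw [if_neg (by simp)] at h3 ⊢
        refine ⟨?_, ?_⟩
        · rcases h3.1 with h4 | h4
          · exact Or.inl h4
          · by_cases h5 : c.val * r + i.val = 0
            · exact Or.inl h5
            · right
              rw [hA, ltR_el, if_neg (by omega)] at h4
              exact h4
        · rcases h3.2 with h4 | h4
          · exact Or.inl h4
          · by_cases h5 : c.val * r + i.val = k
            · exact Or.inl h5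
            · right
              rw [hB, ltR_el, if_neg (by omega)] at h4
              exact h4
    · rintro ⟨h2, h3⟩
      refine ⟨hi, h2, ?_⟩
      cases β with
      | true =>
        rw [if_pos rfl] at h3 ⊢
        refine ⟨h3.1, fun j => ?_⟩
        rw [hA]
        simp only
        rw [if_neg (by omega), h3.2]
        rfl
      | false =>
        rw [if_neg (by simp)] at h3 ⊢
        refine ⟨?_, ?_⟩
        · by_cases h5 : c.val * r + i.val = 0
          · exact Or.inl h5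
          · right
            rw [hA, ltR_el, if_neg (by omega)]
            rcases h3.1 with h4 | h4
            · exact absurd h4 h5
            · exact h4
        · by_cases h5 : c.val * r + i.val = k
          · exact Or.inl h5
          · right
            rw [hB, ltR_el, if_neg (by omega)]
            rcases h3.2 with h4 | h4
            · exact absurd h4 h5
            · exact h4
  have h1 : (∃ (c : Fin (k / r + 1)) (p : Ob n k r),
      witR (blkE E c) p (fun j => Ob.el (w j)) β) ↔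
      ∃ g : Fin (k + 1), (if β = true then g.val ≠ 0 ∧ E (g.val - 1) = toLex w else
        (g.val = 0 ∨ E (g.val - 1) < toLex w) ∧ (g.val = k ∨ toLex w < E g.val)) := by
    constructor
    · rintro ⟨c, p, h⟩
      obtain ⟨i, rfl⟩ := leN_nb' h.1
      have hi : i.val < r := (okP_nb hr hrk i).mp h.1
      obtain ⟨h2, h3⟩ := (key c i hi).mp h
      exact ⟨⟨c.val * r + i.val, by omega⟩, h3⟩
    · rintro ⟨g, h⟩
      obtain ⟨c, i, hi, hg⟩ := pos_of hr g
      refine ⟨c, Ob.nb i, (key c i hi).mpr ?_⟩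
      rw [hg]
      exact ⟨by have := g.isLt; omega, h⟩
  rw [h1]
  cases β with
  | true =>
    rw [decide_eq_true_iff, mem_img_iff]
    simp
  | false =>
    rw [decide_eq_false_iff_not, not_mem_img_iff hE]
    simp only [Bool.false_eq_true, if_false]
    exact Iff.rfl

end

end Pool.Agent.Helper265_EW.W
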