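import Pool.Agent.Helper265_EW.WMain

set_option linter.unusedSectionVars false

/-! The reduction to the normal form, with words. -/

namespace Pool.Agent.Helper265_EW.W

open Finset Classical Pool.Agent.Helper265_EW.G Pool.Agent.Helper265_EW.P

noncomputable section

section Asm

variable {τ : Voc} {s m : ℕ} {φ : PiF τ s (m + 2)} {d' e' : ℕ}
variable {n k r : ℕ} [NeZero n] {A : Str τ (Fin n)}

lemma relS_good (x : Tup (XX φ d' e' k r A) (m + 1)) (y : Fin (d' + 1 + 1) → WW φ d' e' k r A) :
    relS A (tt x y) = if m % 2 = 0 then decide (evS A (tt x y)) else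
      decide (¬ odS A (tt x y)) := by
  have h : ∀ N, N ≤ m + 1 → scn (fun i => okS (tt x y (po m d' i)) i) N = none := by
    intro N
    induction N with
    | zero => intro _; rfl
    | succ N ih =>
      intro hN
      simp only [scn]
      rw [ih (by omega)]
      simp only
      have h1 : okS (tt x y (po m d' N)) N := by
        unfold tt
        rw [asm_po _ _ N (by omega)]
        exact frT_ok (m + 1) x ⟨N, by omega⟩
      rw [if_pos h1]
  unfold relS
  rw [h (m + 1) le_rfl]

/-- the value of the innermost part of the normal form -/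
def FF (ev : Bool) (A : Str τ (Fin n)) (S : Finset (WW φ d' e' k r A))
    (x : Tup (fun _ => WW φ d' e' k r A) (m + 1)) : Prop :=
  lev (m + 1) (fun y : Fin (d' + 1 + 1) → WW φ d' e' k r A =>
    matN ev (d' + 1) S (fun t : Fin (d' + 1 + 2) → WW φ d' e' k r A =>
      (intW φ d' e').out A k r (0 : Fin 1) (Fin.append (frT m x.1) t)) x.2 y)

lemma FF_bad (ev : Bool) (hev : ev = decide (m % 2 = 0)) (S : Finset (WW φ d' e' k r A))
    (hS : S.Nonempty) (x : Tup (fun _ => WW φ d' e' k r A) (m + 1)) (b : Bool)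
    (h : stt (A := fun _ => WW φ d' e' k r A)
      (X := fun i => {x : WW φ d' e' k r A // okS x.1 i})
      (fun i x => if h : okS x.1 i then some ⟨x, h⟩ else none) (m + 1) x = Sum.inr b) :
    FF ev A S x ↔ b = true := by
  have h1 : ∀ y : Fin (d' + 1 + 1) → WW φ d' e' k r A,
      (intW φ d' e').out A k r (0 : Fin 1) (Fin.append (frT m x.1)
        (Fin.cons x.2 y : Fin (d' + 1 + 2) → WW φ d' e' k r A)) = b := by
    intro y
    exact (out_eq A _).trans (relS_bad A x y b h)
  obtain ⟨z, hz⟩ := hS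
  unfold FF matN
  rcases Nat.mod_two_eq_zero_or_one m with hm | hm
  · have he : ev = true := by rw [hev]; simp [hm]
    rw [lev_odd (by omega)]
    simp only [he, if_true]
    constructor
    · rintro ⟨y, _, h2⟩
      rw [← h1 y]
      exact h2
    · intro h2
      exact ⟨fun _ => z, fun _ => hz, by rw [← h2]; exact h1 _⟩
  · have he : ev = false := by rw [hev]; simp [hm]
    rw [lev_even (by omega)]
    simp only [he, Bool.false_eq_true, if_false]
    constructor
    · intro h2
      rw [← h1 (fun _ => z)]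
      exact h2 _ (fun _ => hz)
    · intro h2 y _
      rw [← h2]
      exact h1 y

lemma FF_even (hm : m % 2 = 0) (S : Finset (WW φ d' e' k r A))
    (x : Tup (XX φ d' e' k r A) (m + 1)) : FF true A S (fg A x) ↔ HE A S x := by
  unfold FF matN HE
  rw [lev_odd (by omega)]
  simp only [if_true]
  apply exists_congr
  intro y
  apply and_congr Iff.rfl
  have h1 : (intW φ d' e').out A k r (0 : Fin 1) (Fin.append (frT m (fg A x).1)
        (Fin.cons (fg A x).2 y : Fin (d' + 1 + 2) → WW φ d' e' k r A)) = relS A (tt x y) :=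
    out_eq A _
  have h2 := relS_good x y
  rw [if_pos hm] at h2
  constructor
  · intro h3
    have h4 : relS A (tt x y) = true := h1.symm.trans h3
    rw [h2, decide_eq_true_iff] at h4
    exact h4
  · intro h3
    refine h1.trans ?_
    rw [h2, decide_eq_true_iff]
    exact h3

lemma FF_odd (hm : m % 2 = 1) (S : Finset (WW φ d' e' k r A))
    (x : Tup (XX φ d' e' k r A) (m + 1)) : FF false A S (fg A x) ↔ HO A S x := by
  unfold FF matN HO
  rw [lev_even (by omega)]
  simp only [Bool.false_eq_true, if_false]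
  apply forall_congr'
  intro y
  apply imp_congr Iff.rfl
  have h1 : (intW φ d' e').out A k r (0 : Fin 1) (Fin.append (frT m (fg A x).1)
        (Fin.cons (fg A x).2 y : Fin (d' + 1 + 2) → WW φ d' e' k r A)) = relS A (tt x y) :=
    out_eq A _
  have h2 := relS_good x y
  rw [if_neg (by omega)] at h2
  constructor
  · intro h3
    have h4 : relS A (tt x y) = true := h1.symm.trans h3
    rw [h2, decide_eq_true_iff] at h4
    exact h4
  · intro h3
    refine h1.trans ?_
    rw [h2, decide_eq_true_iff]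
    exact h3

/-- scanning -/
lemma FF_scan (ev : Bool) (hev : ev = decide (m % 2 = 0))
    (S : Finset (WW φ d' e' k r A)) (hS : S.Nonempty) :
    alt (fun _ => WW φ d' e' k r A) (m + 1) (FF ev A S) ↔
      alt (XX φ d' e' k r A) (m + 1) (fun x => FF ev A S (fg A x)) := by
  obtain ⟨z, hz⟩ := hS
  exact alt_scan (W := fun _ => WW φ d' e' k r A) (fun i x => okS x.1 i) (m + 1)
    (fun _ _ => ⟨z⟩) (FF ev A S) (fun x => FF ev A S (fg A x)) (fun _ => Iff.rfl)
    (fun v b h => FF_bad ev hev S ⟨z, hz⟩ v b h)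

lemma S0_ex (S : Finset (Fin s → Fin n)) (hS : S.card = k) :
    ∃ E : ℕ → Wd n s, Inc k E ∧ S0 k E = S := by
  have : Nonempty (Wd n s) := ⟨toLex 0⟩
  obtain ⟨E, hE, hES⟩ := exists_inc (L := Wd n s) (S.image toLex)
    (by rw [Finset.card_image_of_injective _ toLex.injective, hS])
  refine ⟨E, hE, ?_⟩
  unfold P.S0
  rw [hES, Finset.image_image]
  have : (ofLex : Wd n s → (Fin s → Fin n)) ∘ toLex = id := rfl
  rw [this, Finset.image_id]

theorem even_main (hr : 1 ≤ r) (hrk : r ≤ k + 1) (hm : m % 2 = 0)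
    (hw : φ.ψ.Cert (P.inn φ) true ((d' + 1) * (e' + 1))) :
    WDF φ A k ↔ WDF (normF true m (d' + 1)) ((intW φ d' e').out A k r)
      ((k / r + 1) ^ (e' + 1)) := by
  have hne : Nonempty (WW φ d' e' k r A) := by
    obtain ⟨x⟩ := instNeXX (φ := φ) (d' := d') (e' := e') (k := k) (r := r) (A := A) 0
    exact ⟨x.1⟩
  have hXX : ∀ i, i < m → Nonempty (XX φ d' e' k r A i) := fun i _ => instNeXX i
  rw [normF_WD]
  have h0 : (∃ S : Finset (WW φ d' e' k r A), S.card = (k / r + 1) ^ (e' + 1) ∧
      alt (fun _ => WW φ d' e' k r A) m (fun v => lev m (fun r' : WW φ d' e' k r A =>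
        lev (m + 1) (fun y : Fin (d' + 1 + 1) → WW φ d' e' k r A =>
        matN true (d' + 1) S (fun t : Fin (d' + 1 + 2) → WW φ d' e' k r A =>
          (intW φ d' e').out A k r (0 : Fin 1) (Fin.append (frT m v) t)) r' y)))) ↔
      ∃ S : Finset (WW φ d' e' k r A), S.card = (k / r + 1) ^ (e' + 1) ∧
        alt (XX φ d' e' k r A) m (fun v => ∀ r' : XX φ d' e' k r A m,
          HE A S ((v, r') : Tup (XX φ d' e' k r A) (m + 1))) := by
    apply exists_congr
    intro S
    apply and_congr_right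
    intro hS
    have hSne : S.Nonempty := by
      rw [← Finset.card_pos, hS]
      positivity
    have h1 := FF_scan (A := A) true (by simp [hm]) S hSne
    have h2 : alt (XX φ d' e' k r A) (m + 1) (fun x => FF true A S (fg A x)) ↔
        alt (XX φ d' e' k r A) (m + 1) (fun x => HE A S x) :=
      alt_congr _ (fun x => FF_even hm S x)
    refine Iff.trans (Iff.trans h1 h2) ?_
    change alt (XX φ d' e' k r A) m (fun v => lev m (fun r' => HE A S (v, r'))) ↔ _
    apply alt_congr
    intro v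
    rw [lev_even hm]
  refine Iff.trans ?_ h0.symm
  have key : ∀ E : ℕ → Wd n s, Inc k E →
      (alt (XX φ d' e' k r A) m (fun v => ∀ r' : XX φ d' e' k r A m,
          HE A (pwS (elW A) hr E) ((v, r') : Tup (XX φ d' e' k r A) (m + 1))) ↔
        φ.Holds A (S0 k E)) := by
    intro E hE
    rw [holds_last2]
    have h1 := alt_surj (X := XX φ d' e' k r A) (J := fun i => Fin (φ.len i) → Fin n)
      (fun i y => blk i y.1.1) m (fun i hi => blk_surj i (by omega))
      (fun v => lev m (fun b => lev (m + 1) (fun b' => MT A (S0 k E) (asg φ.len m v) b b')))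
    refine Iff.trans ?_ h1
    apply alt_congr
    intro v
    rw [lev_even hm, even_iff hr hrk hw hE v]
    apply forall_congr'
    intro b
    rw [lev_odd (by omega)]
    exact Iff.rfl
  constructor
  · rintro ⟨S, hS, hH⟩
    obtain ⟨E, hE, hS0⟩ := S0_ex S hS
    refine ⟨pwS (elW A) hr E, pwS_card (elW_inj A) hr E, ?_⟩
    rw [key E hE, hS0]
    exact hH
  · rintro ⟨S, hS, hH⟩
    have ht : testE (elW A) S := by
      have h1 : alt (XX φ d' e' k r A) m (fun _ => testE (elW (φ := φ) (d' := d') A) S) :=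
        alt_mono _ m (fun v h => testE_of S v h) hH
      rwa [alt_const m hXX] at h1
    obtain ⟨E, hE, hES⟩ := (testE_iff (elW_inj (φ := φ) (d' := d') (e' := e') A) hr hrk
      (Nat.succ_pos e') S).mp ⟨hS, ht⟩
    refine ⟨S0 k E, S0_card hE, ?_⟩
    rw [← key E hE, ← hES]
    exact hH

end Asm

section AsmO

variable {τ : Voc} {s m : ℕ} {φ : PiF τ s (m + 1 + 2)} {d' e' : ℕ}
variable {n k r : ℕ} [NeZero n] {A : Str τ (Fin n)}

theorem odd_main (hr : 1 ≤ r) (hrk : r ≤ k + 1) (hm : m % 2 = 0)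
    (hw : φ.ψ.Cert (P.inn φ) false ((d' + 1) * (e' + 1))) :
    WDF φ A k ↔ WDF (normF false (m + 1) (d' + 1)) ((intW φ d' e').out A k r)
      ((k / r + 1) ^ (e' + 1)) := by
  have hne : Nonempty (WW φ d' e' k r A) := by
    obtain ⟨x⟩ := instNeXX (φ := φ) (d' := d') (e' := e') (k := k) (r := r) (A := A) 0
    exact ⟨x.1⟩
  have hXX : ∀ i, i < m → Nonempty (XX φ d' e' k r A i) := fun i _ => instNeXX i
  rw [normF_WD]
  have h0 : (∃ S : Finset (WW φ d' e' k r A), S.card = (k / r + 1) ^ (e' + 1) ∧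
      alt (fun _ => WW φ d' e' k r A) (m + 1) (fun v =>
        lev (m + 1) (fun r' : WW φ d' e' k r A =>
        lev (m + 1 + 1) (fun y : Fin (d' + 1 + 1) → WW φ d' e' k r A =>
        matN false (d' + 1) S (fun t : Fin (d' + 1 + 2) → WW φ d' e' k r A =>
          (intW φ d' e').out A k r (0 : Fin 1) (Fin.append (frT (m + 1) v) t)) r' y)))) ↔
      ∃ S : Finset (WW φ d' e' k r A), S.card = (k / r + 1) ^ (e' + 1) ∧
        alt (XX φ d' e' k r A) m (fun v => ∀ q : XX φ d' e' k r A m,
          ∃ r' : XX φ d' e' k r A (m + 1),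
          HO A S (((v, q), r') : Tup (XX φ d' e' k r A) (m + 1 + 1))) := by
    apply exists_congr
    intro S
    apply and_congr_right
    intro hS
    have hSne : S.Nonempty := by
      rw [← Finset.card_pos, hS]
      positivity
    have h1 := FF_scan (A := A) false (by
      have : ¬ (m + 1) % 2 = 0 := by omega
      simp [this]) S hSne
    have h2 : alt (XX φ d' e' k r A) (m + 1 + 1) (fun x => FF false A S (fg A x)) ↔
        alt (XX φ d' e' k r A) (m + 1 + 1) (fun x => HO A S x) :=
      alt_congr _ (fun x => FF_odd (by omega) S x)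
    refine Iff.trans (Iff.trans h1 h2) ?_
    change alt (XX φ d' e' k r A) m (fun v => lev m (fun q => lev (m + 1) (fun r' =>
      HO A S ((v, q), r')))) ↔ _
    apply alt_congr
    intro v
    rw [lev_even hm]
    apply forall_congr'
    intro q
    rw [lev_odd (by omega)]
  refine Iff.trans ?_ h0.symm
  have key : ∀ E : ℕ → Wd n s, Inc k E →
      (alt (XX φ d' e' k r A) m (fun v => ∀ q : XX φ d' e' k r A m,
          ∃ r' : XX φ d' e' k r A (m + 1),
          HO A (pwS (elW A) hr E) (((v, q), r') : Tup (XX φ d' e' k r A) (m + 1 + 1))) ↔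
        φ.Holds A (S0 k E)) := by
    intro E hE
    rw [holds_last2]
    have h1 := alt_surj (X := XX φ d' e' k r A) (J := fun i => Fin (φ.len i) → Fin n)
      (fun i y => blk i y.1.1) m (fun i hi => blk_surj i (by omega))
      (fun v => lev m (fun b => lev (m + 1) (fun b' => lev (m + 1 + 1) (fun b'' =>
        MT (m := m + 1) (φ := φ) A (S0 k E)
          (Sum.elim (asg φ.len m v) b : Vars φ.len m ⊕ Fin (φ.len m) → Fin n) b' b''))))
    refine Iff.trans ?_ h1
    apply alt_congr
    intro v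
    rw [lev_even hm, odd_iff hr hrk hw hE v]
    apply forall_congr'
    intro b
    rw [lev_odd (by omega)]
    apply exists_congr
    intro b'
    rw [lev_even (by omega)]
    exact Iff.rfl
  constructor
  · rintro ⟨S, hS, hH⟩
    obtain ⟨E, hE, hS0⟩ := S0_ex S hS
    refine ⟨pwS (elW A) hr E, pwS_card (elW_inj A) hr E, ?_⟩
    rw [key E hE, hS0]
    exact hH
  · rintro ⟨S, hS, hH⟩
    have ht : testO (elW A) S := by
      have h1 : alt (XX φ d' e' k r A) m (fun _ => testO (elW (φ := φ) (d' := d') A) S) :=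
        alt_mono _ m (fun v h => testO_of S v h) hH
      rwa [alt_const m hXX] at h1
    obtain ⟨E, hE, hES⟩ := (testO_iff (elW_inj (φ := φ) (d' := d') (e' := e') A) hr hrk
      (Nat.succ_pos e') S).mp ⟨hS, ht⟩
    refine ⟨S0 k E, S0_card hE, ?_⟩
    rw [← key E hE, ← hES]
    exact hH

end AsmO

end

/-- the normal form theorem with words -/
theorem normal_form_W (m d' e' : ℕ) {τ : Voc} {s : ℕ} (φ : PiF τ s (m + 2))
    (hw : φ.InnerWidth ((d' + 1) * (e' + 1))) :
    ∀ n k r : ℕ, 1 ≤ n → 1 ≤ r → r ≤ k + 1 → ∀ A : Str τ (Fin n),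
      (WDF φ A k ↔ WDF (normF (decide (m % 2 = 0)) m (d' + 1)) ((intW φ d' e').out A k r)
        ((k / r + 1) ^ (e' + 1))) := by
  intro n k r hn hr hrk A
  have : NeZero n := ⟨by omega⟩
  unfold PiF.InnerWidth at hw
  rcases Nat.mod_two_eq_zero_or_one m with hm | hm
  · have h1 : decide ((m + 2) % 2 = 0) = true := by simp; omega
    have h2 : decide (m % 2 = 0) = true := by simp; omega
    rw [h1] at hw
    rw [h2]
    exact even_main hr hrk hm hw
  · have h1 : decide ((m + 2) % 2 = 0) = false := by simp; omega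
    have h2 : decide (m % 2 = 0) = false := by simp; omega
    rw [h1] at hw
    rw [h2]
    obtain ⟨m', rfl⟩ : ∃ m', m = m' + 1 := ⟨m - 1, by omega⟩
    exact odd_main hr hrk (by omega) hw

/-- objects as a sum -/
def obE (n k r : ℕ) : Ob n k r ≃ (Fin n ⊕ Fin (k + 1)) ⊕ (Fin r → Fin n) where
  toFun x := match x with
    | Ob.el a => Sum.inl (Sum.inl a)
    | Ob.nb i => Sum.inl (Sum.inr i)
    | Ob.wd f => Sum.inr f
  invFun x := match x with
    | Sum.inl (Sum.inl a) => Ob.el a
    | Sum.inl (Sum.inr i) => Ob.nb i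
    | Sum.inr f => Ob.wd f
  left_inv x := by cases x <;> rfl
  right_inv x := by rcases x with (x | x) | x <;> rfl

/-- the size of the new structure -/
lemma univ_card {τ τ' : Voc} (I : WInt τ τ') : ∃ c : ℕ, ∀ n k r : ℕ, 1 ≤ n → 1 ≤ r →
    ∀ A : Str τ (Fin n), Nat.card (I.Univ A k r) ≤ c * (k + n ^ r) ^ c := by
  have h1 := I.finTag
  have h2 := I.finIx
  refine ⟨Nat.card I.Tag * 3 ^ Nat.card I.Ix + Nat.card I.Ix, fun n k r hn hr A => ?_⟩
  have hfin : Finite (Ob n k r) := Finite.of_equiv _ (obE n k r).symm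
  have hOb : Nat.card (Ob n k r) = n + (k + 1) + n ^ r := by
    rw [Nat.card_congr (obE n k r)]
    simp
  have hnr : n ≤ n ^ r := Nat.le_self_pow (by omega) n
  have h3 : Nat.card (Ob n k r) ≤ 3 * (k + n ^ r) := by
    rw [hOb]
    omega
  have h4 : Nat.card (I.Univ A k r) ≤ Nat.card (I.Tag × (I.Ix → Ob n k r)) :=
    Nat.card_le_card_of_injective (fun x => x.1) Subtype.val_injective
  have hb : 1 ≤ k + n ^ r := by omega
  refine h4.trans ?_
  rw [Nat.card_prod, Nat.card_fun]
  calc Nat.card I.Tag * Nat.card (Ob n k r) ^ Nat.card I.Ix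
      ≤ Nat.card I.Tag * (3 * (k + n ^ r)) ^ Nat.card I.Ix :=
        Nat.mul_le_mul_left _ (Nat.pow_le_pow_left h3 _)
    _ = Nat.card I.Tag * 3 ^ Nat.card I.Ix * (k + n ^ r) ^ Nat.card I.Ix := by
        rw [mul_pow]; ring
    _ ≤ _ := Nat.mul_le_mul (Nat.le_add_right _ _)
        (Nat.pow_le_pow_right hb (Nat.le_add_left _ _))

lemma wred_ext {τ τ' : Voc} {s s' t t' e : ℕ} {φ : PiF τ s t} {φ' : PiF τ' s' t'}
    (h : WRed e (P.ext φ) φ') : WRed e φ φ' := by
  obtain ⟨I, c, hI⟩ := h
  refine ⟨I, c, fun n k r hn hr hrk A => ?_⟩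
  have : Nonempty (Fin n) := ⟨⟨0, hn⟩⟩
  rw [← ext_WD φ A k]
  exact hI n k r hn hr hrk A

/-- the normal form theorem with words, as a statement on reductions -/
theorem wred_norm (m d : ℕ) (hd : 1 ≤ d) (e : ℕ) (he : 1 ≤ e) (t' : ℕ) (τ : Voc) (s : ℕ)
    (φ : PiF τ s t')
    (h : t' < m + 2 ∨ (t' = m + 2 ∧ (φ.innerOcc ≤ d * e ∨ φ.InnerWidth (d * e)))) :
    WRed e φ (normF (decide (m % 2 = 0)) m d) := by
  obtain ⟨d', rfl⟩ : ∃ d', d = d' + 1 := ⟨d - 1, by omega⟩
  obtain ⟨e', rfl⟩ : ∃ e', e = e' + 1 := ⟨e - 1, by omega⟩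
  have h1 : ∀ φ : PiF τ s (m + 2),
      (φ.innerOcc ≤ (d' + 1) * (e' + 1) ∨ φ.InnerWidth ((d' + 1) * (e' + 1))) →
      WRed (e' + 1) φ (normF (decide (m % 2 = 0)) m (d' + 1)) := by
    intro φ h
    have hw : φ.InnerWidth ((d' + 1) * (e' + 1)) := by
      rcases h with h | h
      · exact cert_of_occ _ _ _ _ h
      · exact h
    obtain ⟨c, hc⟩ := univ_card (intW φ d' e')
    exact ⟨intW φ d' e', c, fun n k r hn hr hrk A =>
      ⟨hc n k r hn hr A, normal_form_W m d' e' φ hw n k r hn hr hrk A⟩⟩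
  have h2 : ∀ j t' : ℕ, t' + j + 1 = m + 2 → ∀ (φ : PiF τ s t'),
      WRed (e' + 1) φ (normF (decide (m % 2 = 0)) m (d' + 1)) := by
    intro j
    induction j with
    | zero =>
      intro t' ht φ
      obtain rfl : t' = m + 1 := by omega
      apply wred_ext
      exact h1 (P.ext φ) (Or.inl (by rw [ext_inner]; exact Nat.zero_le _))
    | succ j ih =>
      intro t' ht φ
      apply wred_ext
      exact ih (t' + 1) (by omega) (P.ext φ)
  rcases h with h | ⟨h, h'⟩
  · exact h2 (m + 1 - t') t' (by omega) φ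
  · subst h
    exact h1 φ h'

end Pool.Agent.Helper265_EW.W
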