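import Pool.Agent.Helper265_EW.WSem

set_option linter.unusedSectionVars false

/-! The main relation and the truth of the matrix, with words. -/

namespace Pool.Agent.Helper265_EW.W

open Finset Classical Pool.Agent.Helper265_EW.G Pool.Agent.Helper265_EW.P

noncomputable section

section Hit

variable {τ : Voc} {s m : ℕ} {φ : PiF τ s (m + 2)} {d' e' : ℕ}
variable {n k r : ℕ} [NeZero n] (A : Str τ (Fin n))

/-- valid elements of level `i` -/
abbrev XX (φ : PiF τ s (m + 2)) (d' e' : ℕ) (k r : ℕ) (A : Str τ (Fin n)) (i : ℕ) : Type :=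
  {x : WW φ d' e' k r A // okS x.1 i}

/-- forget validity -/
abbrev fg (x : Tup (XX φ d' e' k r A) (m + 1)) : Tup (fun _ => WW φ d' e' k r A) (m + 1) :=
  mapT (X := XX φ d' e' k r A) (J := fun _ => WW φ d' e' k r A) (fun _ y => y.1) (m + 1) x

variable {A}

/-- the block coded by an element -/
def blk (i : ℕ) (x : VW φ d' e' n k r) : Fin (φ.len i) → Fin n := fun j =>
  if h : i < m + 2 then (match x.2 (Sum.inl ⟨⟨i, h⟩, j⟩) with
    | Ob.el a => a
    | _ => 0) else 0

lemma blk_spec (i : ℕ) (x : VW φ d' e' n k r) (hx : okS x i) (h : i < m + 2)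
    (j : Fin (φ.len i)) : x.2 (Sum.inl ⟨⟨i, h⟩, j⟩) = Ob.el (blk i x j) := by
  obtain ⟨h1, h2⟩ := hx.2.1 ⟨i, h⟩ j rfl
  unfold blk
  rw [dif_pos h]
  cases h3 : x.2 (Sum.inl ⟨⟨i, h⟩, j⟩) with
  | el a => rfl
  | nb c =>
    rw [h3] at h1
    exact absurd ⟨c, c, rfl, rfl, le_rfl⟩ h1
  | wd f =>
    rw [h3] at h2
    exact absurd ⟨f, rfl⟩ h2

/-- the assignment coded by valid elements -/
def asX (N : ℕ) (x : Tup (XX φ d' e' k r A) N) : Vars φ.len N → Fin n :=
  asg φ.len N (mapT (X := XX φ d' e' k r A) (J := fun i => Fin (φ.len i) → Fin n)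
    (fun i y => blk i y.1.1) N x)

lemma asX_spec (N : ℕ) (hN : N ≤ m + 2) (x : Tup (XX φ d' e' k r A) N)
    (v : Vars φ.len N) :
    (frT N (mapT (X := XX φ d' e' k r A) (J := fun _ => WW φ d' e' k r A) (fun _ y => y.1) N x)
      ⟨lv φ.len N v, lv_lt _ _ _⟩).1.2
        (Sum.inl ⟨⟨lv φ.len N v, lt_of_lt_of_le (lv_lt _ _ _) hN⟩, ix φ.len N v⟩) =
      Ob.el (asX N x v) := by
  induction N with
  | zero => exact v.elim
  | succ N ih =>
    cases v with
    | inl v =>
      have h := ih (by omega) x.1 v
      simp only [frT, mapT, lv, ix, asX, asg] at h ⊢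
      rw [dif_pos (lv_lt _ _ _)]
      exact h
    | inr j =>
      have h := blk_spec N x.2.1.1 x.2.2 (by omega) j
      simp only [frT, mapT, lv, ix, asX, asg]
      rw [dif_neg (lt_irrefl _)]
      exact h

lemma frT_ok (N : ℕ) (x : Tup (XX φ d' e' k r A) N) (i : Fin N) :
    okS (frT N (mapT (X := XX φ d' e' k r A) (J := fun _ => WW φ d' e' k r A)
      (fun _ y => y.1) N x) i).1 i.val := by
  induction N with
  | zero => exact i.elim0
  | succ N ih =>
    simp only [frT, mapT]
    by_cases h : i.val < N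
    · rw [dif_pos h]
      exact ih x.1 ⟨i.val, h⟩
    · rw [dif_neg h]
      have : i.val = N := by have := i.isLt; omega
      rw [this]
      exact x.2.2

/-- the arguments -/
abbrev tt (x : Tup (XX φ d' e' k r A) (m + 1)) (y : Fin (d' + 1 + 1) → WW φ d' e' k r A) :
    Ps m d' → VW φ d' e' n k r := fun p => (asm (fg A x) y p).1

lemma tt_m (x : Tup (XX φ d' e' k r A) (m + 1)) (y : Fin (d' + 1 + 1) → WW φ d' e' k r A) :
    tt x y (po m d' m) = x.2.1.1 := by
  unfold tt
  rw [asm_po _ _ m (by omega)]
  simp only [frT, mapT]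
  rw [dif_neg (lt_irrefl _)]

lemma tt_last (x : Tup (XX φ d' e' k r A) (m + 1)) (y : Fin (d' + 1 + 1) → WW φ d' e' k r A) :
    tt x y (po m d' (m + 1)) = (y 0).1 := by
  unfold tt
  rw [asm_last]

lemma tt_zp (x : Tup (XX φ d' e' k r A) (m + 1)) (y : Fin (d' + 1 + 1) → WW φ d' e' k r A)
    (j : Fin (d' + 1)) : tt x y (zp m d' j) = (y j.succ).1 := by
  unfold tt
  rw [asm_zp]

lemma rwd_inl (x : Tup (XX φ d' e' k r A) (m + 1))
    (y : Fin (d' + 1 + 1) → WW φ d' e' k r A) (v : Vars φ.len (m + 1)) :
    rwd (tt x y) (Sum.inl v) = Ob.el (asX (m + 1) x v) := by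
  have h := asX_spec (m + 1) (by omega) x v
  unfold rwd tt
  simp only [lv, ix]
  rw [asm_po _ _ _ (lv_lt _ _ _)]
  exact h

lemma rwd_inr (x : Tup (XX φ d' e' k r A) (m + 1))
    (y : Fin (d' + 1 + 1) → WW φ d' e' k r A) (j : Fin (φ.len (m + 1))) :
    rwd (tt x y) (Sum.inr j) = (y 0).1.2 (Sum.inl ⟨⟨m + 1, by omega⟩, j⟩) := by
  have h := tt_last x y
  unfold rwd
  simp only [lv, ix]
  rw [h]

/-- full assignments -/
def full (x : Tup (XX φ d' e' k r A) (m + 1)) (b : Fin (φ.len (m + 1)) → Fin n) :
    Vars φ.len (m + 2) → Fin n := Sum.elim (asX (m + 1) x) b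

lemma rwd_outer (x : Tup (XX φ d' e' k r A) (m + 1))
    (y : Fin (d' + 1 + 1) → WW φ d' e' k r A) (b : Fin (φ.len (m + 1)) → Fin n)
    {v : Fin s → Vars φ.len (m + 2)} (hv : ¬ P.inn φ v) :
    (fun i => rwd (tt x y) (v i)) = fun i => Ob.el (full x b (v i)) := by
  funext i
  obtain ⟨v', h⟩ := outer_inl hv i
  rw [h, rwd_inl x y v']
  rfl

lemma rwd_full (x : Tup (XX φ d' e' k r A) (m + 1))
    (y : Fin (d' + 1 + 1) → WW φ d' e' k r A) (b : Fin (φ.len (m + 1)) → Fin n)
    (hb : ∀ j, (y 0).1.2 (Sum.inl ⟨⟨m + 1, by omega⟩, j⟩) = Ob.el (b j))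
    (v : Vars φ.len (m + 2)) : rwd (tt x y) v = Ob.el (full x b v) := by
  cases v with
  | inl v => rw [rwd_inl x y v]; rfl
  | inr j => rw [rwd_inr, hb]; rfl

lemma wit_S0 {E : ℕ → Wd n s} (hE : Inc k E) (hr : 1 ≤ r) (hrk : r ≤ k + 1)
    (w : Fin s → Fin n) (β : Bool) :
    (∃ (c : Fin (k / r + 1)) (p : Ob n k r), witR (blkE E c) p (fun j => Ob.el (w j)) β) ↔
      decide (w ∈ S0 k E) = β := by
  rw [blkE_wit hE hr hrk]
  have : decide ((toLex w : Wd n s) ∈ img k E) = decide (w ∈ S0 k E) := by
    rw [decide_eq_decide, mem_S0]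
  rw [this]

/-- hitting the main relation -/
def HIT (A : Str τ (Fin n)) (bb : Bool) (S : Finset (WW φ d' e' k r A))
    (x : Tup (XX φ d' e' k r A) (m + 1)) : Prop :=
  ∃ y : Fin (d' + 1 + 1) → WW φ d' e' k r A, (∀ j : Fin (d' + 1), y j.succ ∈ S) ∧
    mainS A bb (tt x y)

lemma rhS_iff (x : Tup (XX φ d' e' k r A) (m + 1))
    (y : Fin (d' + 1 + 1) → WW φ d' e' k r A) (b : Fin (φ.len (m + 1)) → Fin n)
    (hb : ∀ j, (y 0).1.2 (Sum.inl ⟨⟨m + 1, by omega⟩, j⟩) = Ob.el (b j)) (R : Fin τ.num)
    (v : Fin (τ.ar R) → Vars φ.len (m + 2)) :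
    rhS A (tt x y) R v = true ↔ A R (fun i => full x b (v i)) = true := by
  unfold rhS
  rw [decide_eq_true_iff]
  constructor
  · rintro ⟨a, ha, h'⟩
    have : a = fun i => full x b (v i) := by
      funext i
      have := ha i
      rw [rwd_full x y b hb, Ob.el.injEq] at this
      exact this.symm
    rw [this] at h'
    exact h'
  · intro h
    exact ⟨_, fun i => rwd_full x y b hb _, h⟩

lemma etS_iff (x : Tup (XX φ d' e' k r A) (m + 1))
    (y : Fin (d' + 1 + 1) → WW φ d' e' k r A) (b : Fin (φ.len (m + 1)) → Fin n)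
    (hb : ∀ j, (y 0).1.2 (Sum.inl ⟨⟨m + 1, by omega⟩, j⟩) = Ob.el (b j))
    (u v : Vars φ.len (m + 2)) :
    etS (tt x y) u v = true ↔ full x b u = full x b v := by
  unfold etS
  rw [rwd_full x y b hb, rwd_full x y b hb, decide_eq_true_iff, Ob.el.injEq]

lemma eval_eq (bb : Bool) (E : ℕ → Wd n s) (x : Tup (XX φ d' e' k r A) (m + 1))
    (y : Fin (d' + 1 + 1) → WW φ d' e' k r A) (b : Fin (φ.len (m + 1)) → Fin n)
    (hb : ∀ j, (y 0).1.2 (Sum.inl ⟨⟨m + 1, by omega⟩, j⟩) = Ob.el (b j)) :
    φ.ψ.eval (rhS A (tt x y)) (etS (tt x y))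
      (fun v => decide ((fun i => full x b (v i)) ∈ S0 k E)) = bb ↔
      (φ.ψ.Holds A (S0 k E) (full x b) ↔ bb = true) := by
  have h3 : φ.ψ.eval (rhS A (tt x y)) (etS (tt x y))
      (fun v => decide ((fun i => full x b (v i)) ∈ S0 k E)) = true ↔
      φ.ψ.Holds A (S0 k E) (full x b) := by
    apply eval_holds
    · intro R v; exact rhS_iff x y b hb R v
    · intro u v; exact etS_iff x y b hb u v
    · intro v
      exact decide_eq_true_iff
  cases bb with
  | true =>
    rw [h3]
    simp
  | false =>
    rw [← h3]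
    simp

/-- wrong guesses of outer atoms -/
def wrong (E : ℕ → Wd n s) (x : Tup (XX φ d' e' k r A) (m + 1)) : Prop :=
  ∃ v : Fin s → Vars φ.len (m + 2), ¬ P.inn φ v ∧
    sgm x.2.1.1.1 v ≠ decide ((fun i => full x (fun _ => 0) (v i)) ∈ S0 k E)

lemma full_outer (x : Tup (XX φ d' e' k r A) (m + 1))
    (b b' : Fin (φ.len (m + 1)) → Fin n) {v : Fin s → Vars φ.len (m + 2)}
    (hv : ¬ P.inn φ v) : (fun i => full x b (v i)) = fun i => full x b' (v i) := by
  funext i
  obtain ⟨v', h⟩ := outer_inl hv i
  rw [h]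
  rfl

theorem hit_iff (hr : 1 ≤ r) (hrk : r ≤ k + 1) (bb : Bool)
    (hw : φ.ψ.Cert (P.inn φ) bb ((d' + 1) * (e' + 1))) {E : ℕ → Wd n s}
    (hE : Inc k E) (x : Tup (XX φ d' e' k r A) (m + 1)) :
    HIT A bb (pwS (elW A) hr E) x ↔ (wrong E x ∨
      ∃ b : Fin (φ.len (m + 1)) → Fin n, (φ.ψ.Holds A (S0 k E) (full x b) ↔ bb = true)) := by
  constructor
  · rintro ⟨y, hy, h⟩
    have hz : ∀ j : Fin (d' + 1), ∃ c : Fin (e' + 1) → Fin (k / r + 1),
        y j.succ = elW A (pwG hr E c) :=
      fun j => by
        obtain ⟨c, hc⟩ := mem_pwS.mp (hy j)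
        exact ⟨c, hc.symm⟩
    choose c hc using hz
    have hgt : ∀ j l, gt (tt x y (zp m d' j)) false l = blkE E (c j l) := by
      intro j l
      rw [tt_zp, hc, gt_elW]
      rfl
    rcases h with ⟨v, hv, hwit⟩ | ⟨hu, hγ, hev⟩
    · left
      refine ⟨v, hv, ?_⟩
      rw [hgt, rwd_outer x y (fun _ => 0) hv, tt_m] at hwit
      have h1 := (wit_S0 hE hr hrk _ _).mp ⟨_, _, hwit⟩
      rw [h1]
      simp
    · by_cases hwr : wrong E x
      · exact Or.inl hwr
      · right
        rw [tt_last] at hu
        have hb : ∀ j, (y 0).1.2 (Sum.inl ⟨⟨m + 1, by omega⟩, j⟩) =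
            Ob.el (blk (m + 1) (y 0).1 j) :=
          fun j => blk_spec (m + 1) (y 0).1 hu (by omega) j
        refine ⟨blk (m + 1) (y 0).1, ?_⟩
        rw [← eval_eq bb E x y _ hb]
        apply hev
        · intro v hv
          rw [tt_m]
          unfold wrong at hwr
          push Not at hwr
          rw [hwr v hv, full_outer x _ (fun _ => 0) hv]
        · intro j l v β hjl
          obtain ⟨h1, h2⟩ := hγ j l v β hjl
          rw [hgt] at h2
          have h3 : (fun i => rwd (tt x y) (v i)) =
              fun i => Ob.el (full x (blk (m + 1) (y 0).1) (v i)) := by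
            funext i
            exact rwd_full x y _ hb (v i)
          rw [h3] at h2
          exact (wit_S0 hE hr hrk _ _).mp ⟨_, _, h2⟩
  · intro h
    by_cases hwr : wrong E x
    · obtain ⟨v, hv, hne⟩ := hwr
      have h1 : decide ((fun i => full x (fun _ => 0) (v i)) ∈ S0 k E) =
          !(sgm x.2.1.1.1 v) := by
        cases h2 : sgm x.2.1.1.1 v with
        | true => rw [h2] at hne; simpa using hne
        | false => rw [h2] at hne; simpa using hne
      obtain ⟨c, p, hc⟩ := (wit_S0 hE hr hrk _ _).mpr h1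
      let u : WW φ d' e' k r A := mkW A ((fun _ => false, false, false), fun _ => none)
        (fun _ _ => 0) (fun _ => p) (fun _ _ _ => Ob.nb 0)
      let y : Fin (d' + 1 + 1) → WW φ d' e' k r A :=
        Fin.cons u (fun _ => elW A (pwG hr E (fun _ => c)))
      refine ⟨y, fun j => ?_, Or.inl ?_⟩
      · simp only [y, Fin.cons_succ]
        exact mem_pwS.mpr ⟨_, rfl⟩
      · refine ⟨v, hv, ?_⟩
        rw [tt_zp, rwd_outer x _ (fun _ => 0) hv, tt_m, tt_last]
        simp only [y, Fin.cons_succ, Fin.cons_zero]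
        rw [gt_elW]
        exact hc
    · rcases h with h | ⟨b, hb⟩
      · exact absurd h hwr
      · unfold wrong at hwr
        push Not at hwr
        let ρ : ∀ R : Fin τ.num, (Fin (τ.ar R) → Vars φ.len (m + 2)) → Bool :=
          fun R v => A R (fun i => full x b (v i))
        let η : Vars φ.len (m + 2) → Vars φ.len (m + 2) → Bool :=
          fun u v => decide (full x b u = full x b v)
        let ξ : (Fin s → Vars φ.len (m + 2)) → Bool :=
          fun v => decide ((fun i => full x b (v i)) ∈ S0 k E)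
        have h3 : φ.ψ.eval ρ η ξ = bb := by
          have h4 : φ.ψ.eval ρ η ξ = true ↔ φ.ψ.Holds A (S0 k E) (full x b) := by
            apply eval_holds
            · intro R v; exact Iff.rfl
            · intro u v; exact decide_eq_true_iff
            · intro v; exact decide_eq_true_iff
          cases bb with
          | true => exact h4.mpr (hb.mpr rfl)
          | false =>
            have : ¬ φ.ψ.eval ρ η ξ = true := by
              intro h5
              exact absurd (hb.mp (h4.mp h5)) (by simp)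
            simpa using this
        obtain ⟨C, hC1, hC2, hC3⟩ := hw ρ η ξ h3
        -- enumerate the certificate
        have hcard : C.card ≤ Fintype.card (Fin (d' + 1) × Fin (e' + 1)) := by
          simpa using hC1
        have hemb : Nonempty (C ↪ Fin (d' + 1) × Fin (e' + 1)) := by
          apply Function.Embedding.nonempty_of_card_le
          simpa using hcard
        obtain ⟨ι⟩ := hemb
        let γ : Fin (d' + 1) × Fin (e' + 1) → Option ((Fin s → Vars φ.len (m + 2)) × Bool) :=
          fun p => if h : ∃ v : C, ι v = p then some ((Classical.choose h).1,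
            ξ (Classical.choose h).1) else none
        have hγ1 : ∀ v : C, γ (ι v) = some (v.1, ξ v.1) := by
          intro v
          have hex : ∃ v' : C, ι v' = ι v := ⟨v, rfl⟩
          have h5 : Classical.choose hex = v := ι.injective (Classical.choose_spec hex)
          simp only [γ]
          rw [dif_pos hex, h5]
        have hγ2 : ∀ p v β, γ p = some (v, β) → v ∈ C ∧ β = ξ v := by
          intro p v β hp
          simp only [γ] at hp
          split_ifs at hp with hex
          have hp' := Option.some.inj hp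
          have h5 := congrArg Prod.fst hp'
          have h6 := congrArg Prod.snd hp'
          simp only at h5 h6
          rw [← h5, ← h6]
          exact ⟨(Classical.choose hex).2, rfl⟩
        have hwit : ∀ q, ∃ cp : Fin (k / r + 1) × Ob n k r, ∀ v β, γ q = some (v, β) →
            witR (blkE E cp.1) cp.2 (fun j => Ob.el (full x b (v j))) β := by
          intro q
          cases hp : γ q with
          | none => exact ⟨(0, Ob.nb 0), fun v β h => absurd h (by simp)⟩
          | some q' =>
            obtain ⟨v, β⟩ := q'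
            obtain ⟨h5, h6⟩ := hγ2 q v β hp
            obtain ⟨c, p, hc⟩ := (wit_S0 hE hr hrk (fun j => full x b (v j)) β).mpr h6.symm
            refine ⟨(c, p), fun v' β' h' => ?_⟩
            have h7 := Option.some.inj h'
            rw [Prod.mk.injEq] at h7
            rw [← h7.1, ← h7.2]
            exact hc
        choose c hc using hwit
        let bF : ∀ i : Fin (m + 2), Fin (φ.len i.val) → Fin n := fun i j =>
          if h : i.val = m + 1 then b (Fin.cast (by rw [h]) j) else 0
        let P0 : Option (Fin (d' + 1) × Fin (e' + 1)) ⊕ Bool → Ob n k r := fun q => match q with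
          | Sum.inl (some q) => (c q).2
          | _ => Ob.nb 0
        let u : WW φ d' e' k r A := mkW A ((fun _ => false, false, false), γ) bF
          P0 (fun _ _ _ => Ob.nb 0)
        let y : Fin (d' + 1 + 1) → WW φ d' e' k r A :=
          Fin.cons u (fun j => elW A (pwG hr E (fun l => (c (j, l)).1)))
        have hy0 : y 0 = u := rfl
        have hyb : ∀ j, (y 0).1.2 (Sum.inl ⟨⟨m + 1, by omega⟩, j⟩) = Ob.el (b j) := by
          intro j
          rw [hy0]
          change Ob.el (bF ⟨m + 1, by omega⟩ j) = _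
          simp only [bF]
          rw [dif_pos trivial]
          rfl
        refine ⟨y, fun j => ?_, Or.inr ⟨?_, ?_, ?_⟩⟩
        · simp only [y, Fin.cons_succ]
          exact mem_pwS.mpr ⟨_, rfl⟩
        · rw [tt_last, hy0]
          refine ⟨rfl, fun i' j _ => ⟨?_, ?_⟩, fun h => absurd h (by simp [u, mkW, flg])⟩
          · rintro ⟨_, _, h, _⟩
            exact absurd h (by simp [u, mkW])
          · rintro ⟨_, h⟩
            exact absurd h (by simp [u, mkW])
        · intro j l v β hjl
          rw [tt_last, hy0] at hjl ⊢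
          have hjl' : γ (j, l) = some (v, β) := hjl
          refine ⟨hC2 v (hγ2 _ v β hjl').1, ?_⟩
          rw [tt_zp]
          have h5 : (fun i => rwd (tt x y) (v i)) = fun i => Ob.el (full x b (v i)) := by
            funext i
            exact rwd_full x y _ hyb (v i)
          rw [h5]
          simp only [y, Fin.cons_succ]
          rw [gt_elW]
          exact hc (j, l) v β hjl'
        · intro ξ' h5 h6
          have h7 : φ.ψ.eval ρ η ξ' = bb := by
            apply hC3
            intro v hv
            by_cases hv' : v ∈ C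
            · have h8 := h6 (ι ⟨v, hv'⟩).1 (ι ⟨v, hv'⟩).2 v (ξ v) (by
                rw [tt_last, hy0]
                exact hγ1 ⟨v, hv'⟩)
              exact h8
            · rcases hv with hv | hv
              · rw [h5 v hv, tt_m, hwr v hv]
                simp only [ξ]
                rw [full_outer x _ b hv]
              · exact absurd hv hv'
          have h1 : rhS A (tt x y) = ρ := by
            funext R v
            rw [Bool.eq_iff_iff, rhS_iff x y b hyb]
          have h2 : etS (tt x y) = η := by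
            funext u v
            rw [Bool.eq_iff_iff, etS_iff x y b hyb]
            simp only [η]
            rw [decide_eq_true_iff]
          rw [h1, h2]
          exact h7

end Hit

end

end Pool.Agent.Helper265_EW.W
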