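import Pool.Agent.Helper265_EW.WValid

set_option linter.unusedSectionVars false

/-! The interpretation with words. -/

namespace Pool.Agent.Helper265_EW.W

open Finset Classical Pool.Agent.Helper265_EW.P

noncomputable section

/-! Conditions on atomic types. -/

section AT

variable {τ : Voc} {V' : Type} {s e : ℕ}

def okPA (T : OType τ (Tm V')) (p : V') : Prop := T.le (Tm.var p) Tm.last = true
def inRA (T : OType τ (Tm V')) (c p : V') : Prop :=
  (T.le (Tm.var c) Tm.quo = true ∧ ¬ T.eq (Tm.var c) Tm.quo = true) ∨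
    (T.eq (Tm.var c) Tm.quo = true ∧ T.le (Tm.var p) Tm.rem = true)
def isFA (T : OType τ (Tm V')) (c p : V') : Prop :=
  T.zero (Tm.var c) = true ∧ T.zero (Tm.var p) = true
def isLA (T : OType τ (Tm V')) (c p : V') : Prop :=
  T.eq (Tm.var c) Tm.quo = true ∧ T.eq (Tm.var p) Tm.rem = true
def scPA (T : OType τ (Tm V')) (c p c' p' : V') : Prop :=
  (T.eq (Tm.var c') (Tm.var c) = true ∧ T.suc (Tm.var p) (Tm.var p') = true) ∨
    (T.suc (Tm.var c) (Tm.var c') = true ∧ T.eq (Tm.var p) Tm.last = true ∧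
      T.zero (Tm.var p') = true)

def ltA (T : OType τ (Tm V')) (x y : Fin s → Tm V') : Prop :=
  ∃ i, T.lt (x i) (y i) = true ∧ ∀ j, j < i → T.eq (x j) (y j) = true
def zeA (T : OType τ (Tm V')) (x : Fin s → Tm V') : Prop := ∀ j, T.least (x j) = true

def tA (B : Gx s → V') (p : V') : Fin s → Tm V' := fun j => Tm.letter (B (Sum.inr (false, j))) p
def tB (B : Gx s → V') (p : V') : Fin s → Tm V' := fun j => Tm.letter (B (Sum.inr (true, j))) p

def badA (T : OType τ (Tm V')) (B : Gx s → V') (p : V') : Prop :=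
  ((¬ inRA T (B (Sum.inl ())) p ∨ isFA T (B (Sum.inl ())) p) ∧ ¬ zeA T (tA B p)) ∨
  ((¬ inRA T (B (Sum.inl ())) p ∨ isLA T (B (Sum.inl ())) p) ∧ ¬ zeA T (tB B p)) ∨
  (inRA T (B (Sum.inl ())) p ∧ ¬ isFA T (B (Sum.inl ())) p ∧ ¬ isLA T (B (Sum.inl ())) p ∧
    ¬ ltA T (tA B p) (tB B p))

def cflA (T : OType τ (Tm V')) (B : Gx s → V') (p : V') (B' : Gx s → V') (p' : V') : Prop :=
  okPA T p ∧ okPA T p' ∧ (badA T B p ∨
    (T.eq (Tm.var (B (Sum.inl ()))) (Tm.var (B' (Sum.inl ()))) = true ∧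
      ∃ y, ¬ T.eq (Tm.var (B y)) (Tm.var (B' y)) = true) ∨
    (scPA T (B (Sum.inl ())) p (B' (Sum.inl ())) p' ∧ inRA T (B' (Sum.inl ())) p' ∧
      ∃ j, ¬ T.eq (tB B p j) (tA B' p' j) = true))

def witA (T : OType τ (Tm V')) (B : Gx s → V') (p : V') (w : Fin s → V') (β : Bool) : Prop :=
  okPA T p ∧ inRA T (B (Sum.inl ())) p ∧
  (if β = true then ¬ isFA T (B (Sum.inl ())) p ∧ ∀ j, T.eq (tA B p j) (Tm.var (w j)) = true
  else (isFA T (B (Sum.inl ())) p ∨ ltA T (tA B p) (fun j => Tm.var (w j))) ∧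
    (isLA T (B (Sum.inl ())) p ∨ ltA T (fun j => Tm.var (w j)) (tB B p)))

def vblA (T : OType τ (Tm V')) (B : Gx s → V') : Prop :=
  T.le (Tm.var (B (Sum.inl ()))) Tm.quo = true ∧ ∀ q, T.word (Tm.var (B (Sum.inr q))) = true

def cflPA (T : OType τ (Tm V')) (p p' : V') (G G' : Fin e → Gx s → V') : Prop :=
  ∃ l l', cflA T (G l) p (G' l') p'

def sameA (T : OType τ (Tm V')) (G G' : Fin e → Gx s → V') : Prop :=
  ∀ l, T.eq (Tm.var (G l (Sum.inl ()))) (Tm.var (G' l (Sum.inl ()))) = true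

def eqGA (T : OType τ (Tm V')) (G G' : Fin e → Gx s → V') : Prop :=
  ∀ l y, T.eq (Tm.var (G l y)) (Tm.var (G' l y)) = true

variable {n k r : ℕ} [NeZero n] (A : Str τ (Fin n)) (w : V' → Ob n k r)

lemma otp_eq (u v : Tm V') : (otp A w).eq u v = true ↔ u.val w = v.val w := decide_eq_true_iff
lemma otp_lt (u v : Tm V') : (otp A w).lt u v = true ↔ ltE (u.val w) (v.val w) :=
  decide_eq_true_iff
lemma otp_le (u v : Tm V') : (otp A w).le u v = true ↔ leN (u.val w) (v.val w) :=
  decide_eq_true_iff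
lemma otp_suc (u v : Tm V') : (otp A w).suc u v = true ↔ sucN (u.val w) (v.val w) :=
  decide_eq_true_iff
lemma otp_word (u : Tm V') : (otp A w).word u = true ↔ isW (u.val w) := decide_eq_true_iff
lemma otp_zero (u : Tm V') : (otp A w).zero u = true ↔ isZ (u.val w) := decide_eq_true_iff
lemma otp_least (u : Tm V') : (otp A w).least u = true ↔ isE0 (u.val w) := decide_eq_true_iff

lemma okPA_iff (p : V') : okPA (otp A w) p ↔ okP (w p) := otp_le A w _ _

lemma inRA_iff (c p : V') : inRA (otp A w) c p ↔ inR (w c) (w p) := by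
  unfold inRA inR
  simp only [otp_le, otp_eq]
  rfl

lemma isFA_iff (c p : V') : isFA (otp A w) c p ↔ isF (w c) (w p) := by
  unfold isFA isF
  simp only [otp_zero]
  rfl

lemma isLA_iff (c p : V') : isLA (otp A w) c p ↔ isL (w c) (w p) := by
  unfold isLA isL
  simp only [otp_eq]
  rfl

lemma scPA_iff (c p c' p' : V') :
    scPA (otp A w) c p c' p' ↔ scP (w c) (w p) (w c') (w p') := by
  unfold scPA scP
  simp only [otp_eq, otp_suc, otp_zero]
  rfl

lemma ltA_iff (x y : Fin s → Tm V') :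
    ltA (otp A w) x y ↔ ltR (fun j => (x j).val w) (fun j => (y j).val w) := by
  unfold ltA ltR
  simp only [otp_lt, otp_eq]

lemma zeA_iff (x : Fin s → Tm V') : zeA (otp A w) x ↔ zeR (fun j => (x j).val w) := by
  unfold zeA zeR
  simp only [otp_least]

lemma badA_iff (B : Gx s → V') (p : V') :
    badA (otp A w) B p ↔ badR (fun y => w (B y)) (w p) := by
  unfold badA badR
  simp only [inRA_iff, isFA_iff, isLA_iff, zeA_iff, ltA_iff]
  rfl

lemma cflA_iff (B B' : Gx s → V') (p p' : V') :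
    cflA (otp A w) B p B' p' ↔ cflR (fun y => w (B y)) (w p) (fun y => w (B' y)) (w p') := by
  unfold cflA cflR
  simp only [okPA_iff, badA_iff, scPA_iff, inRA_iff, otp_eq]
  rfl

lemma witA_iff (B : Gx s → V') (p : V') (x : Fin s → V') (β : Bool) :
    witA (otp A w) B p x β ↔ witR (fun y => w (B y)) (w p) (fun j => w (x j)) β := by
  unfold witA witR
  simp only [okPA_iff, inRA_iff, isFA_iff, isLA_iff, ltA_iff, otp_eq]
  rfl

lemma vblA_iff (B : Gx s → V') : vblA (otp A w) B ↔ vblk (fun y => w (B y)) := by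
  unfold vblA vblk
  simp only [otp_le, otp_word]
  rfl

lemma cflPA_iff (p p' : V') (G G' : Fin e → Gx s → V') :
    cflPA (otp A w) p p' G G' ↔
      cflP (w p) (w p') (fun l y => w (G l y)) (fun l y => w (G' l y)) := by
  unfold cflPA cflP
  simp only [cflA_iff]

lemma sameA_iff (G G' : Fin e → Gx s → V') :
    sameA (otp A w) G G' ↔ sameIx (fun l y => w (G l y)) (fun l y => w (G' l y)) := by
  unfold sameA sameIx
  simp only [otp_eq]
  rfl

lemma eqGA_iff (G G' : Fin e → Gx s → V') :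
    eqGA (otp A w) G G' ↔ (fun l y => w (G l y)) = (fun l y => w (G' l y)) := by
  unfold eqGA
  simp only [otp_eq]
  constructor
  · intro h; funext l y; exact h l y
  · intro h l y; exact congrFun (congrFun h l) y

end AT

section Data

variable {τ : Voc} {s m : ℕ} (φ : PiF τ s (m + 2)) (d' e' : ℕ)

/-- coordinates -/
abbrev Iw : Type := (Σ i : Fin (m + 2), Fin (φ.len i.val)) ⊕
  ((Option (Fin (d' + 1) × Fin (e' + 1)) ⊕ Bool) ⊕ (Bool × Fin (e' + 1) × Gx s))

def okA {V' : Type} (tg : Option (Tg φ d' e')) (i : ℕ) (T : OType τ (Tm V'))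
    (f : Iw φ d' e' → V') : Prop :=
  tg.isSome = true ∧ (∀ (i' : Fin (m + 2)) (j : Fin (φ.len i'.val)), i'.val = i →
    ¬ T.le (Tm.var (f (Sum.inl ⟨i', j⟩))) (Tm.var (f (Sum.inl ⟨i', j⟩))) = true ∧
    ¬ T.word (Tm.var (f (Sum.inl ⟨i', j⟩))) = true) ∧
  (flg tg = true → ∀ c l, vblA T (fun y => f (Sum.inr (Sum.inr (c, l, y)))))

/-- the coordinate of a variable -/
def vt (v : Vars φ.len (m + 2)) : Ps m d' × Iw φ d' e' :=
  (po m d' (lv φ.len (m + 2) v), Sum.inl ⟨⟨lv φ.len (m + 2) v, lv_lt _ _ _⟩, ix φ.len (m + 2) v⟩)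

/-- the coordinates of a family of blocks -/
def gz (p : Ps m d') (c : Bool) : Fin (e' + 1) → Gx s → Ps m d' × Iw φ d' e' :=
  fun l y => (p, Sum.inr (Sum.inr (c, l, y)))

/-- the coordinates of positions -/
def pu (x : Option (Fin (d' + 1) × Fin (e' + 1))) : Ps m d' × Iw φ d' e' :=
  (po m d' (m + 1), Sum.inr (Sum.inl (Sum.inl x)))

def pv (p : Ps m d') (b : Bool) : Ps m d' × Iw φ d' e' := (p, Sum.inr (Sum.inl (Sum.inr b)))

/-- the main relation -/
def mainA (bb : Bool) (tg : Ps m d' → Option (Tg φ d' e'))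
    (T : OType τ (Tm (Ps m d' × Iw φ d' e'))) : Prop :=
  (∃ v : Fin s → Vars φ.len (m + 2), ¬ P.inn φ v ∧
    witA T (gz φ d' e' (zp m d' 0) false 0) (pu φ d' e' none) (fun i => vt φ d' e' (v i))
      (!(sgm (tg (po m d' m)) v))) ∨
  (okA φ d' e' (tg (po m d' (m + 1))) (m + 1) T (fun x => (po m d' (m + 1), x)) ∧
    (∀ j l v β, gmm (tg (po m d' (m + 1))) (j, l) = some (v, β) →
      P.inn φ v ∧ witA T (gz φ d' e' (zp m d' j) false l) (pu φ d' e' (some (j, l)))
        (fun i => vt φ d' e' (v i)) β) ∧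
    (∀ ξ : (Fin s → Vars φ.len (m + 2)) → Bool,
      (∀ v, ¬ P.inn φ v → ξ v = sgm (tg (po m d' m)) v) →
      (∀ j l v β, gmm (tg (po m d' (m + 1))) (j, l) = some (v, β) → ξ v = β) →
      φ.ψ.eval (fun R v => T.rel R (fun i => Tm.var (vt φ d' e' (v i))))
        (fun u v => T.eq (Tm.var (vt φ d' e' u)) (Tm.var (vt φ d' e' v))) ξ = bb))

/-- the relation if the innermost block is existential -/
def evA (tg : Ps m d' → Option (Tg φ d' e')) (T : OType τ (Tm (Ps m d' × Iw φ d' e'))) : Prop :=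
  if flg (tg (po m d' m)) = true then
    if cho (tg (po m d' m)) = true then
      cflPA T (pv φ d' e' (po m d' m) false) (pv φ d' e' (po m d' m) true)
          (gz φ d' e' (po m d' m) false) (gz φ d' e' (po m d' m) true) →
        tg (zp m d' 0) = none ∧
        ((sameA T (gz φ d' e' (zp m d' 0) false) (gz φ d' e' (po m d' m) false) ∧
          ¬ eqGA T (gz φ d' e' (zp m d' 0) false) (gz φ d' e' (po m d' m) false)) ∨
        (sameA T (gz φ d' e' (zp m d' 0) false) (gz φ d' e' (po m d' m) true) ∧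
          ¬ eqGA T (gz φ d' e' (zp m d' 0) false) (gz φ d' e' (po m d' m) true)))
    else
      tg (zp m d' 0) = none ∧
        sameA T (gz φ d' e' (zp m d' 0) false) (gz φ d' e' (po m d' m) false)
  else mainA φ d' e' true tg T

/-- the complement of the relation if the innermost block is universal -/
def odA (tg : Ps m d' → Option (Tg φ d' e')) (T : OType τ (Tm (Ps m d' × Iw φ d' e'))) : Prop :=
  tg (zp m d' 0) ≠ none ∨
  (if flg (tg (po m d' (m - 1))) = true then
    cflPA T (pv φ d' e' (po m d' (m - 1)) false) (pv φ d' e' (po m d' (m - 1)) true)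
        (gz φ d' e' (po m d' (m - 1)) false) (gz φ d' e' (po m d' (m - 1)) true) ∧
      eqGA T (gz φ d' e' (zp m d' 0) false)
        (gz φ d' e' (po m d' (m - 1)) (cho (tg (po m d' m))))
  else mainA φ d' e' false tg T)

/-- the relation -/
def relA (tg : Ps m d' → Option (Tg φ d' e')) (T : OType τ (Tm (Ps m d' × Iw φ d' e'))) : Bool :=
  match scn (fun i => okA φ d' e' (tg (po m d' i)) i T (fun x => (po m d' i, x))) (m + 1) with
  | some b => b
  | none => if m % 2 = 0 then decide (evA φ d' e' tg T) else decide (¬ odA φ d' e' tg T)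

/-- the condition on elements -/
def domA (tg : Option (Tg φ d' e')) (T : OType τ (Tm (Iw φ d' e'))) : Bool := match tg with
  | some _ => true
  | none => decide ((∀ l, vblA T (fun y => Sum.inr (Sum.inr (false, l, y)))) ∧
      (∀ v, T.zero (Tm.var (Sum.inl v)) = true) ∧
      (∀ v, T.zero (Tm.var (Sum.inr (Sum.inl v))) = true) ∧
      (∀ l y, T.zero (Tm.var (Sum.inr (Sum.inr (true, l, y)))) = true))

/-- the interpretation -/
def intW : WInt τ (G.srcVt m (d' + 1)) where
  Tag := Option (Tg φ d' e')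
  finTag := by
    have := instFinVars φ.len (m + 2)
    infer_instance
  Ix := Iw φ d' e'
  finIx := inferInstance
  dom := domA φ d' e'
  rel := fun _ tg T => relA φ d' e' tg T

end Data

end

end Pool.Agent.Helper265_EW.W
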