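import Pool.Agent.Helper265_EW.WHit

set_option linter.unusedSectionVars false

/-! Correctness of the interpretation with words. -/

namespace Pool.Agent.Helper265_EW.W

open Finset Classical Pool.Agent.Helper265_EW.G Pool.Agent.Helper265_EW.P

noncomputable section

section Main

variable {τ : Voc} {s m : ℕ} {φ : PiF τ s (m + 2)} {d' e' : ℕ}
variable {n k r : ℕ} [NeZero n] {A : Str τ (Fin n)}

/-- valid elements with given data -/
def mkX (i : ℕ) (y : Tg φ d' e') (b : Fin (φ.len i) → Fin n)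
    (P0 : Option (Fin (d' + 1) × Fin (e' + 1)) ⊕ Bool → Ob n k r)
    (G : Bool → Fin (e' + 1) → RB n k r s) (hG : y.1.2.1 = true → ∀ c l, vblk (G c l)) :
    XX φ d' e' k r A i :=
  ⟨mkW A y (fun i' j => if h : i'.val = i then b (Fin.cast (by rw [h]) j) else 0) P0 G,
    rfl, fun i' j _ => ⟨by
      rintro ⟨_, _, h, _⟩
      exact absurd h (by simp [mkW]), by
      rintro ⟨_, h⟩
      exact absurd h (by simp [mkW])⟩, fun h => hG h⟩

lemma blk_mkX (i : ℕ) (hi : i < m + 2) (y : Tg φ d' e') (b : Fin (φ.len i) → Fin n)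
    (P0 : Option (Fin (d' + 1) × Fin (e' + 1)) ⊕ Bool → Ob n k r)
    (G : Bool → Fin (e' + 1) → RB n k r s) (hG : y.1.2.1 = true → ∀ c l, vblk (G c l)) :
    blk i (mkX (A := A) i y b P0 G hG).1.1 = b := by
  funext j
  have h := blk_spec i (mkX (A := A) i y b P0 G hG).1.1 (mkX (A := A) i y b P0 G hG).2 hi j
  have h2 : (mkX (A := A) i y b P0 G hG).1.1.2 (Sum.inl ⟨⟨i, hi⟩, j⟩) = Ob.el (b j) := by
    change Ob.el (if h : i = i then b (Fin.cast (by rw [h]) j) else 0) = _
    rw [dif_pos rfl]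
    rfl
  rw [h2, Ob.el.injEq] at h
  exact h.symm

/-- default objects -/
def o0 : Ob n k r := Ob.nb 0

lemma blk_surj (i : ℕ) (hi : i < m + 2) :
    Function.Surjective (fun x : XX φ d' e' k r A i => blk i x.1.1) := by
  intro b
  exact ⟨mkX i ((fun _ => false, false, false), fun _ => none) b (fun _ => o0) (fun _ _ _ => o0)
    (fun h => absurd h (by simp)), blk_mkX i hi _ _ _ _ _⟩

lemma instNeXX (i : ℕ) : Nonempty (XX φ d' e' k r A i) :=
  ⟨mkX i ((fun _ => false, false, false), fun _ => none) (fun _ => 0) (fun _ => o0)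
    (fun _ _ _ => o0) (fun h => absurd h (by simp))⟩

/-- the innermost existential condition -/
def HE (A : Str τ (Fin n)) (S : Finset (WW φ d' e' k r A))
    (x : Tup (XX φ d' e' k r A) (m + 1)) : Prop :=
  ∃ y : Fin (d' + 1 + 1) → WW φ d' e' k r A, (∀ j : Fin (d' + 1), y j.succ ∈ S) ∧
    evS A (tt x y)

/-- the innermost universal condition -/
def HO (A : Str τ (Fin n)) (S : Finset (WW φ d' e' k r A))
    (x : Tup (XX φ d' e' k r A) (m + 1)) : Prop :=
  ∀ y : Fin (d' + 1 + 1) → WW φ d' e' k r A, (∀ j : Fin (d' + 1), y j.succ ∈ S) →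
    ¬ odS A (tt x y)

/-- two positions -/
def pp (p p' : Ob n k r) : Option (Fin (d' + 1) × Fin (e' + 1)) ⊕ Bool → Ob n k r
  | Sum.inr false => p
  | Sum.inr true => p'
  | Sum.inl _ => o0

lemma testE_of (S : Finset (WW φ d' e' k r A)) (v : Tup (XX φ d' e' k r A) m)
    (h : ∀ r' : XX φ d' e' k r A m, HE A S ((v, r') : Tup (XX φ d' e' k r A) (m + 1))) :
    testE (elW A) S := by
  constructor
  · intro G
    let r' : XX φ d' e' k r A m := mkX m ((fun _ => false, true, false), fun _ => none)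
      (fun _ => 0) (fun _ => o0) (fun _ => G.1) (fun _ _ l => G.2 l)
    obtain ⟨y, hy, hev⟩ := h r'
    unfold evS at hev
    rw [tt_m, tt_zp, if_pos (by rfl), if_neg (by simp [r', mkX, mkW, cho])] at hev
    obtain ⟨h1, h2⟩ := hev
    obtain ⟨G', hG'⟩ := ex_elW A _ h1
    refine ⟨G', ?_, ?_⟩
    · rw [← hG']; exact hy 0
    · rw [hG', gt_elW] at h2
      exact h2
  · intro p p' G1 G2 hcf
    let r' : XX φ d' e' k r A m := mkX m ((fun _ => false, true, true), fun _ => none)
      (fun _ => 0) (pp p p') (fun c => if c = true then G2.1 else G1.1)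
      (fun _ c l => by cases c with
        | true => exact G2.2 l
        | false => exact G1.2 l)
    obtain ⟨y, hy, hev⟩ := h r'
    unfold evS at hev
    rw [tt_m, tt_zp, if_pos (by rfl), if_pos (by rfl)] at hev
    obtain ⟨h1, h2⟩ := hev hcf
    obtain ⟨G', hG'⟩ := ex_elW A _ h1
    refine ⟨G', ?_, ?_⟩
    · rw [← hG']; exact hy 0
    · rw [hG', gt_elW] at h2
      rcases h2 with ⟨h3, h4⟩ | ⟨h3, h4⟩
      · exact Or.inl ⟨h3, fun h5 => h4 (congrArg Subtype.val h5)⟩
      · exact Or.inr ⟨h3, fun h5 => h4 (congrArg Subtype.val h5)⟩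

lemma full_eq (v : Tup (XX φ d' e' k r A) m) (r' : XX φ d' e' k r A m)
    (b' : Fin (φ.len (m + 1)) → Fin n) :
    full ((v, r') : Tup (XX φ d' e' k r A) (m + 1)) b' =
      (Sum.elim (Sum.elim (asX m v) (blk m r'.1.1)) b' : (Vars φ.len m ⊕ Fin (φ.len m)) ⊕
        Fin (φ.len (m + 1)) → Fin n) := rfl

/-- a correct guess -/
lemma not_wrong (E : ℕ → Wd n s) (x : Tup (XX φ d' e' k r A) (m + 1))
    (h : sgm x.2.1.1.1 = fun v =>
      decide ((fun i => full x (fun _ => 0) (v i)) ∈ S0 k E)) : ¬ wrong E x := by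
  rintro ⟨v, _, hne⟩
  rw [h] at hne
  exact hne rfl

lemma even_iff (hr : 1 ≤ r) (hrk : r ≤ k + 1)
    (hw : φ.ψ.Cert (P.inn φ) true ((d' + 1) * (e' + 1)))
    {E : ℕ → Wd n s} (hE : Inc k E) (v : Tup (XX φ d' e' k r A) m) :
    (∀ r' : XX φ d' e' k r A m,
      HE A (pwS (elW A) hr E) ((v, r') : Tup (XX φ d' e' k r A) (m + 1))) ↔
      ∀ b : Fin (φ.len m) → Fin n, ∃ b' : Fin (φ.len (m + 1)) → Fin n,
        MT A (S0 k E) (asX m v) b b' := by
  constructor
  · intro h b
    let σ : (Fin s → Vars φ.len (m + 2)) → Bool := fun w =>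
      decide ((fun i => (Sum.elim (Sum.elim (asX m v) b) (fun _ => 0) :
        (Vars φ.len m ⊕ Fin (φ.len m)) ⊕ Fin (φ.len (m + 1)) → Fin n) (w i)) ∈ S0 k E)
    let r' : XX φ d' e' k r A m := mkX m ((σ, false, false), fun _ => none) b (fun _ => o0)
      (fun _ _ _ => o0) (fun h => absurd h (by simp))
    have hb : blk m r'.1.1 = b := blk_mkX m (by omega) _ _ _ _ _
    obtain ⟨y, hy, hev⟩ := h r'
    unfold evS at hev
    rw [tt_m, if_neg (by simp [r', mkX, mkW, flg])] at hev
    have h1 := (hit_iff hr hrk true hw hE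
      ((v, r') : Tup (XX φ d' e' k r A) (m + 1))).mp ⟨y, hy, hev⟩
    rcases h1 with h1 | ⟨b', h1⟩
    · exfalso
      refine not_wrong E _ ?_ h1
      rw [full_eq, hb]
      rfl
    · refine ⟨b', ?_⟩
      rw [full_eq, hb] at h1
      exact h1.mpr rfl
  · intro h r'
    by_cases hf : flg r'.1.1.1 = true
    · have ht := ((testE_iff (elW_inj (φ := φ) (d' := d') (e' := e') A) hr hrk
        (Nat.succ_pos e') (pwS (elW A) hr E)).mpr ⟨E, hE, rfl⟩).2
      have hv := r'.2.2.2 hf
      by_cases hc : cho r'.1.1.1 = true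
      · by_cases hcf : cflP (ps r'.1.1 (Sum.inr false)) (ps r'.1.1 (Sum.inr true))
            (gt r'.1.1 false) (gt r'.1.1 true)
        · obtain ⟨G', h1, h2⟩ := ht.2 _ _ ⟨gt r'.1.1 false, hv false⟩
            ⟨gt r'.1.1 true, hv true⟩ hcf
          refine ⟨fun _ => elW A G', fun _ => h1, ?_⟩
          unfold evS
          rw [tt_m, tt_zp, if_pos hf, if_pos hc]
          intro _
          refine ⟨rfl, ?_⟩
          rw [gt_elW]
          rcases h2 with ⟨h3, h4⟩ | ⟨h3, h4⟩
          · exact Or.inl ⟨h3, fun h5 => h4 (Subtype.ext h5)⟩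
          · exact Or.inr ⟨h3, fun h5 => h4 (Subtype.ext h5)⟩
        · refine ⟨fun _ => elW A (pwG hr E (fun _ => 0)), fun _ => mem_pwS.mpr ⟨_, rfl⟩, ?_⟩
          unfold evS
          rw [tt_m, tt_zp, if_pos hf, if_pos hc]
          intro h5
          exact absurd h5 hcf
      · obtain ⟨G', h1, h2⟩ := ht.1 ⟨gt r'.1.1 false, hv false⟩
        refine ⟨fun _ => elW A G', fun _ => h1, ?_⟩
        unfold evS
        rw [tt_m, tt_zp, if_pos hf, if_neg hc]
        exact ⟨rfl, by rw [gt_elW]; exact h2⟩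
    · have h1 : HIT A true (pwS (elW A) hr E)
          ((v, r') : Tup (XX φ d' e' k r A) (m + 1)) := by
        rw [hit_iff hr hrk true hw hE]
        right
        obtain ⟨b', hb'⟩ := h (blk m r'.1.1)
        exact ⟨b', ⟨fun _ => rfl, fun _ => hb'⟩⟩
      obtain ⟨y, hy, hm⟩ := h1
      refine ⟨y, hy, ?_⟩
      unfold evS
      rw [tt_m, if_neg hf]
      exact hm

end Main

section Odd

variable {τ : Voc} {s m : ℕ} {φ : PiF τ s (m + 1 + 2)} {d' e' : ℕ}
variable {n k r : ℕ} [NeZero n] {A : Str τ (Fin n)}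

lemma tt_q (v : Tup (XX φ d' e' k r A) m) (q : XX φ d' e' k r A m)
    (r' : XX φ d' e' k r A (m + 1)) (y : Fin (d' + 1 + 1) → WW φ d' e' k r A) :
    tt (((v, q), r') : Tup (XX φ d' e' k r A) (m + 1 + 1)) y (po (m + 1) d' (m + 1 - 1)) =
      q.1.1 := by
  have h0 : m + 1 - 1 = m := by omega
  rw [h0]
  unfold tt
  rw [asm_po _ _ m (by omega)]
  simp only [frT, mapT]
  rw [dif_pos (by omega), dif_neg (lt_irrefl _)]

lemma testO_of (S : Finset (WW φ d' e' k r A)) (v : Tup (XX φ d' e' k r A) m)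
    (h : ∀ q : XX φ d' e' k r A m, ∃ r' : XX φ d' e' k r A (m + 1),
      HO A S (((v, q), r') : Tup (XX φ d' e' k r A) (m + 1 + 1))) :
    testO (elW A) S := by
  constructor
  · intro x hx
    obtain ⟨q⟩ := instNeXX (φ := φ) (d' := d') (e' := e') (k := k) (r := r) (A := A) m
    obtain ⟨r', hr'⟩ := h q
    have h1 := hr' (fun _ => x) (fun _ => hx)
    unfold odS at h1
    push Not at h1
    have h2 := h1.1
    rw [tt_zp] at h2
    exact ex_elW A x h2
  · intro p p' G1 G2 hcf
    let q : XX φ d' e' k r A m := mkX m ((fun _ => false, true, true), fun _ => none)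
      (fun _ => 0) (pp p p') (fun c => if c = true then G2.1 else G1.1)
      (fun _ c l => by cases c with
        | true => exact G2.2 l
        | false => exact G1.2 l)
    obtain ⟨r', hr'⟩ := h q
    by_contra hno
    push Not at hno
    obtain ⟨m1, m2⟩ := hno
    cases hc : cho r'.1.1.1 with
    | true =>
      apply hr' (fun _ => elW A G2) (fun _ => m2)
      right
      rw [tt_q, if_pos (by rfl), tt_m, tt_zp, gt_elW]
      refine ⟨hcf, ?_⟩
      change G2.1 = gt q.1.1 (cho r'.1.1.1)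
      rw [hc]
      rfl
    | false =>
      apply hr' (fun _ => elW A G1) (fun _ => m1)
      right
      rw [tt_q, if_pos (by rfl), tt_m, tt_zp, gt_elW]
      refine ⟨hcf, ?_⟩
      change G1.1 = gt q.1.1 (cho r'.1.1.1)
      rw [hc]
      rfl

lemma odd_iff (hr : 1 ≤ r) (hrk : r ≤ k + 1)
    (hw : φ.ψ.Cert (P.inn φ) false ((d' + 1) * (e' + 1)))
    {E : ℕ → Wd n s} (hE : Inc k E) (v : Tup (XX φ d' e' k r A) m) :
    (∀ q : XX φ d' e' k r A m, ∃ r' : XX φ d' e' k r A (m + 1),
      HO A (pwS (elW A) hr E) (((v, q), r') : Tup (XX φ d' e' k r A) (m + 1 + 1))) ↔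
      ∀ b : Fin (φ.len m) → Fin n, ∃ b' : Fin (φ.len (m + 1)) → Fin n,
        ∀ b'' : Fin (φ.len (m + 1 + 1)) → Fin n,
        MT A (S0 k E) (Sum.elim (asX m v) b : Vars φ.len m ⊕ Fin (φ.len m) → Fin n) b' b'' := by
  constructor
  · intro h b
    let q : XX φ d' e' k r A m := mkX m ((fun _ => false, false, false), fun _ => none) b
      (fun _ => o0) (fun _ _ _ => o0) (fun h => absurd h (by simp))
    have hb : blk m q.1.1 = b := blk_mkX m (by omega) _ _ _ _ _
    obtain ⟨r', hr'⟩ := h q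
    refine ⟨blk (m + 1) r'.1.1, fun b'' => ?_⟩
    have h1 : ¬ HIT A false (pwS (elW A) hr E)
        (((v, q), r') : Tup (XX φ d' e' k r A) (m + 1 + 1)) := by
      rintro ⟨y, hy, hm⟩
      apply hr' y hy
      right
      rw [tt_q, if_neg (by simp [q, mkX, mkW, flg])]
      exact hm
    rw [hit_iff hr hrk false hw hE] at h1
    push Not at h1
    have h2 := h1.2 b''
    have h3 : full (((v, q), r') : Tup (XX φ d' e' k r A) (m + 1 + 1)) b'' =
        (Sum.elim (Sum.elim (Sum.elim (asX m v) b) (blk (m + 1) r'.1.1)) b'' :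
        ((Vars φ.len m ⊕ Fin (φ.len m)) ⊕ Fin (φ.len (m + 1))) ⊕
        Fin (φ.len (m + 1 + 1)) → Fin n) := by
      rw [← hb]
      rfl
    rw [h3] at h2
    by_contra hno
    rcases h2 with h2 | h2
    · exact hno h2.1
    · exact absurd h2.2 (by simp)
  · intro h q
    by_cases hf : flg q.1.1.1 = true
    · have ht := ((testO_iff (elW_inj (φ := φ) (d' := d') (e' := e') A) hr hrk
        (Nat.succ_pos e') (pwS (elW A) hr E)).mpr ⟨E, hE, rfl⟩).2
      have hv := q.2.2.2 hf
      -- the choice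
      have hch : ∃ c : Bool, cflP (ps q.1.1 (Sum.inr false)) (ps q.1.1 (Sum.inr true))
            (gt q.1.1 false) (gt q.1.1 true) →
          ∀ x ∈ pwS (elW (φ := φ) (d' := d') A) hr E, gt x.1 false ≠ gt q.1.1 c := by
        by_cases hcf : cflP (ps q.1.1 (Sum.inr false)) (ps q.1.1 (Sum.inr true))
            (gt q.1.1 false) (gt q.1.1 true)
        · rcases ht.2 _ _ ⟨gt q.1.1 false, hv false⟩ ⟨gt q.1.1 true, hv true⟩ hcf with h1 | h1
          · refine ⟨false, fun _ x hx he => h1 ?_⟩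
            obtain ⟨G, rfl⟩ := ht.1 x hx
            rw [gt_elW] at he
            have : (⟨gt q.1.1 false, hv false⟩ : Gk n k r s (e' + 1)) = G :=
              Subtype.ext he.symm
            rw [this]
            exact hx
          · refine ⟨true, fun _ x hx he => h1 ?_⟩
            obtain ⟨G, rfl⟩ := ht.1 x hx
            rw [gt_elW] at he
            have : (⟨gt q.1.1 true, hv true⟩ : Gk n k r s (e' + 1)) = G := Subtype.ext he.symm
            rw [this]
            exact hx
        · exact ⟨false, fun h1 => absurd h1 hcf⟩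
      obtain ⟨c, hc⟩ := hch
      refine ⟨mkX (m + 1) ((fun _ => false, false, c), fun _ => none)
        (fun _ => 0) (fun _ => o0) (fun _ _ _ => o0) (fun h => absurd h (by simp)), ?_⟩
      intro y hy hod
      rcases hod with h1 | h1
      · rw [tt_zp] at h1
        obtain ⟨G, hG⟩ := ht.1 _ (hy 0)
        rw [hG] at h1
        exact h1 rfl
      · rw [tt_q, if_pos hf, tt_m, tt_zp] at h1
        exact hc h1.1 _ (hy 0) h1.2
    · obtain ⟨b', hb'⟩ := h (blk m q.1.1)
      let σ : (Fin s → Vars φ.len (m + 1 + 2)) → Bool := fun w =>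
        decide ((fun i => (Sum.elim (Sum.elim (Sum.elim (asX m v) (blk m q.1.1)) b')
          (fun _ => 0) : ((Vars φ.len m ⊕ Fin (φ.len m)) ⊕ Fin (φ.len (m + 1))) ⊕
          Fin (φ.len (m + 1 + 1)) → Fin n) (w i)) ∈ S0 k E)
      let r' : XX φ d' e' k r A (m + 1) := mkX (m + 1) ((σ, false, false), fun _ => none) b'
        (fun _ => o0) (fun _ _ _ => o0) (fun h => absurd h (by simp))
      have hb : blk (m + 1) r'.1.1 = b' := blk_mkX (m + 1) (by omega) _ _ _ _ _
      have h3 : ∀ b'', full (((v, q), r') : Tup (XX φ d' e' k r A) (m + 1 + 1)) b'' =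
          (Sum.elim (Sum.elim (Sum.elim (asX m v) (blk m q.1.1)) b') b'' :
          ((Vars φ.len m ⊕ Fin (φ.len m)) ⊕ Fin (φ.len (m + 1))) ⊕
          Fin (φ.len (m + 1 + 1)) → Fin n) := by
        intro b''
        have h4 : full (((v, q), r') : Tup (XX φ d' e' k r A) (m + 1 + 1)) b'' =
          (Sum.elim (Sum.elim (Sum.elim (asX m v) (blk m q.1.1)) (blk (m + 1) r'.1.1))
          b'' : ((Vars φ.len m ⊕ Fin (φ.len m)) ⊕ Fin (φ.len (m + 1))) ⊕
          Fin (φ.len (m + 1 + 1)) → Fin n) := rfl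
        rw [h4, hb]
      refine ⟨r', fun y hy hod => ?_⟩
      rcases hod with h1 | h1
      · rw [tt_zp] at h1
        obtain ⟨c, hc⟩ := mem_pwS.mp (hy 0)
        rw [← hc] at h1
        exact h1 rfl
      · rw [tt_q, if_neg hf] at h1
        have h2 := (hit_iff hr hrk false hw hE
          (((v, q), r') : Tup (XX φ d' e' k r A) (m + 1 + 1))).mp ⟨y, hy, h1⟩
        rcases h2 with h2 | ⟨b'', h2⟩
        · refine not_wrong E _ ?_ h2
          rw [h3]
          rfl
        · rw [h3] at h2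
          exact absurd (h2.mp (hb' b'')) (by simp)

end Odd

end

end Pool.Agent.Helper265_EW.W
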