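import Pool.Agent.Helper265_EW.WInt

set_option linter.unusedSectionVars false

/-! The meaning of the interpretation with words. -/

namespace Pool.Agent.Helper265_EW.W

open Finset Classical Pool.Agent.Helper265_EW.P

noncomputable section

section Sem

variable {τ : Voc} {s m : ℕ} (φ : PiF τ s (m + 2)) (d' e' : ℕ)
variable {n k r : ℕ} [NeZero n] (A : Str τ (Fin n))

/-- candidates for elements -/
abbrev VW (n k r : ℕ) : Type := Option (Tg φ d' e') × (Iw φ d' e' → Ob n k r)

variable {φ d' e'}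

def gt (x : VW φ d' e' n k r) (c : Bool) : Fin (e' + 1) → RB n k r s :=
  fun l y => x.2 (Sum.inr (Sum.inr (c, l, y)))

/-- positions stored in an element -/
def ps (x : VW φ d' e' n k r) (q : Option (Fin (d' + 1) × Fin (e' + 1)) ⊕ Bool) : Ob n k r :=
  x.2 (Sum.inr (Sum.inl q))

def okS (x : VW φ d' e' n k r) (i : ℕ) : Prop :=
  x.1.isSome = true ∧ (∀ (i' : Fin (m + 2)) (j : Fin (φ.len i'.val)), i'.val = i →
    ¬ leN (x.2 (Sum.inl ⟨i', j⟩)) (x.2 (Sum.inl ⟨i', j⟩)) ∧ ¬ isW (x.2 (Sum.inl ⟨i', j⟩))) ∧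
  (flg x.1 = true → ∀ c l, vblk (gt x c l))

/-- the values of the variables -/
def rwd (t : Ps m d' → VW φ d' e' n k r) (v : Vars φ.len (m + 2)) : Ob n k r :=
  (t (po m d' (lv φ.len (m + 2) v))).2
    (Sum.inl ⟨⟨lv φ.len (m + 2) v, lv_lt _ _ _⟩, ix φ.len (m + 2) v⟩)

def rhS (t : Ps m d' → VW φ d' e' n k r) (R : Fin τ.num)
    (v : Fin (τ.ar R) → Vars φ.len (m + 2)) : Bool :=
  decide (∃ a : Fin (τ.ar R) → Fin n, (∀ i, rwd t (v i) = Ob.el (a i)) ∧ A R a = true)

def etS (t : Ps m d' → VW φ d' e' n k r) (u v : Vars φ.len (m + 2)) : Bool :=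
  decide (rwd t u = rwd t v)

def mainS (bb : Bool) (t : Ps m d' → VW φ d' e' n k r) : Prop :=
  (∃ v : Fin s → Vars φ.len (m + 2), ¬ P.inn φ v ∧
    witR (gt (t (zp m d' 0)) false 0) (ps (t (po m d' (m + 1))) (Sum.inl none))
      (fun i => rwd t (v i)) (!(sgm (t (po m d' m)).1 v))) ∨
  (okS (t (po m d' (m + 1))) (m + 1) ∧
    (∀ j l v β, gmm (t (po m d' (m + 1))).1 (j, l) = some (v, β) →
      P.inn φ v ∧ witR (gt (t (zp m d' j)) false l)
        (ps (t (po m d' (m + 1))) (Sum.inl (some (j, l)))) (fun i => rwd t (v i)) β) ∧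
    (∀ ξ : (Fin s → Vars φ.len (m + 2)) → Bool,
      (∀ v, ¬ P.inn φ v → ξ v = sgm (t (po m d' m)).1 v) →
      (∀ j l v β, gmm (t (po m d' (m + 1))).1 (j, l) = some (v, β) → ξ v = β) →
      φ.ψ.eval (rhS A t) (etS t) ξ = bb))

def evS (t : Ps m d' → VW φ d' e' n k r) : Prop :=
  if flg (t (po m d' m)).1 = true then
    if cho (t (po m d' m)).1 = true then
      cflP (ps (t (po m d' m)) (Sum.inr false)) (ps (t (po m d' m)) (Sum.inr true))
          (gt (t (po m d' m)) false) (gt (t (po m d' m)) true) →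
        (t (zp m d' 0)).1 = none ∧
        ((sameIx (gt (t (zp m d' 0)) false) (gt (t (po m d' m)) false) ∧
          ¬ gt (t (zp m d' 0)) false = gt (t (po m d' m)) false) ∨
        (sameIx (gt (t (zp m d' 0)) false) (gt (t (po m d' m)) true) ∧
          ¬ gt (t (zp m d' 0)) false = gt (t (po m d' m)) true))
    else
      (t (zp m d' 0)).1 = none ∧
        sameIx (gt (t (zp m d' 0)) false) (gt (t (po m d' m)) false)
  else mainS A true t

def odS (t : Ps m d' → VW φ d' e' n k r) : Prop :=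
  (t (zp m d' 0)).1 ≠ none ∨
  (if flg (t (po m d' (m - 1))).1 = true then
    cflP (ps (t (po m d' (m - 1))) (Sum.inr false)) (ps (t (po m d' (m - 1))) (Sum.inr true))
        (gt (t (po m d' (m - 1))) false) (gt (t (po m d' (m - 1))) true) ∧
      gt (t (zp m d' 0)) false = gt (t (po m d' (m - 1))) (cho (t (po m d' m)).1)
  else mainS A false t)

def relS (t : Ps m d' → VW φ d' e' n k r) : Bool :=
  match scn (fun i => okS (t (po m d' i)) i) (m + 1) with
  | some b => b
  | none => if m % 2 = 0 then decide (evS A t) else decide (¬ odS A t)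

lemma okA_iff {V' : Type} (w : V' → Ob n k r) (tg : Option (Tg φ d' e')) (i : ℕ)
    (f : Iw φ d' e' → V') :
    okA φ d' e' tg i (otp A w) f ↔
      okS ((tg, fun x => w (f x)) : VW φ d' e' n k r) i := by
  unfold okA okS
  simp only [otp_le, otp_word, vblA_iff]
  rfl

lemma main_iff (bb : Bool) (t : Ps m d' → VW φ d' e' n k r) :
    mainA φ d' e' bb (fun p => (t p).1)
      (otp A (fun q : Ps m d' × Iw φ d' e' => (t q.1).2 q.2)) ↔ mainS A bb t := by
  unfold mainA mainS
  simp only [okA_iff, witA_iff]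
  rfl

lemma ev_iff (t : Ps m d' → VW φ d' e' n k r) :
    evA φ d' e' (fun p => (t p).1) (otp A (fun q : Ps m d' × Iw φ d' e' => (t q.1).2 q.2)) ↔
      evS A t := by
  unfold evA evS
  simp only [main_iff, cflPA_iff, sameA_iff, eqGA_iff]
  rfl

lemma od_iff (t : Ps m d' → VW φ d' e' n k r) :
    odA φ d' e' (fun p => (t p).1) (otp A (fun q : Ps m d' × Iw φ d' e' => (t q.1).2 q.2)) ↔
      odS A t := by
  unfold odA odS
  simp only [main_iff, cflPA_iff, eqGA_iff]
  rfl

lemma rel_iff (t : Ps m d' → VW φ d' e' n k r) :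
    relA φ d' e' (fun p => (t p).1) (otp A (fun q : Ps m d' × Iw φ d' e' => (t q.1).2 q.2)) =
      relS A t := by
  unfold relA relS
  simp only [ev_iff, od_iff, okA_iff]
  rfl

variable (φ d' e' k r)

/-- the new universe -/
abbrev WW : Type := (intW φ d' e').Univ A k r

variable {φ d' e' k r}

lemma out_eq (t : Ps m d' → WW φ d' e' k r A) :
    (intW φ d' e').out A k r (0 : Fin 1) t = relS A (fun p => (t p).1) := by
  exact rel_iff A (fun p => (t p).1)

/-- elements with a tag -/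
def mkW (y : Tg φ d' e') (b : ∀ i : Fin (m + 2), Fin (φ.len i.val) → Fin n)
    (P0 : Option (Fin (d' + 1) × Fin (e' + 1)) ⊕ Bool → Ob n k r)
    (G : Bool → Fin (e' + 1) → RB n k r s) : WW φ d' e' k r A :=
  ⟨(some y, Sum.elim (fun q => Ob.el (b q.1 q.2))
    (Sum.elim P0 (fun q => G q.1 q.2.1 q.2.2))), rfl⟩

/-- elements that are families of blocks -/
def elW (G : Gk n k r s (e' + 1)) : WW φ d' e' k r A :=
  ⟨(none, Sum.elim (fun _ => Ob.nb 0) (Sum.elim (fun _ => Ob.nb 0)
    (fun q => if q.1 = false then G.1 q.2.1 q.2.2 else Ob.nb 0))), by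
      change decide _ = true
      rw [decide_eq_true_iff]
      refine ⟨fun l => ?_, fun v => ?_, fun v => ?_, fun l y => ?_⟩
      · exact (vblA_iff A _ _).mpr (G.2 l)
      · exact (otp_zero A _ _).mpr ⟨0, rfl, rfl⟩
      · exact (otp_zero A _ _).mpr ⟨0, rfl, rfl⟩
      · exact (otp_zero A _ _).mpr ⟨0, rfl, rfl⟩⟩

lemma gt_elW (G : Gk n k r s (e' + 1)) :
    gt (elW (φ := φ) (d' := d') A G).1 false = G.1 := by
  funext l y
  simp [gt, elW]

lemma elW_inj : Function.Injective (elW (φ := φ) (d' := d') (e' := e') (k := k) (r := r) A) := by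
  intro G G' h
  apply Subtype.ext
  rw [← gt_elW (φ := φ) (d' := d') A G, ← gt_elW (φ := φ) (d' := d') A G', h]

lemma isZ_eq {x : Ob n k r} (h : isZ x) : x = Ob.nb 0 := by
  obtain ⟨i, hi, hi0⟩ := h
  rw [hi]
  congr 1
  exact Fin.ext (by simpa using hi0)

lemma ex_elW (x : WW φ d' e' k r A) (hx : x.1.1 = none) : ∃ G, x = elW A G := by
  obtain ⟨⟨tg, w⟩, hw⟩ := x
  simp only at hx
  subst hx
  have h := hw
  change decide _ = true at h
  rw [decide_eq_true_iff] at h
  obtain ⟨h1, h2, h3, h4⟩ := h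
  replace h2 := fun v => (otp_zero A w _).mp (h2 v)
  replace h3 := fun v => (otp_zero A w _).mp (h3 v)
  replace h4 := fun l y => (otp_zero A w _).mp (h4 l y)
  refine ⟨⟨fun l y => w (Sum.inr (Sum.inr (false, l, y))),
    fun l => (vblA_iff A w _).mp (h1 l)⟩, ?_⟩
  apply Subtype.ext
  refine Prod.ext rfl ?_
  funext c
  rcases c with c | c | ⟨c, l, y⟩
  · exact isZ_eq (h2 c)
  · exact isZ_eq (h3 c)
  · cases c with
    | false => simp [elW]
    | true => exact isZ_eq (h4 l y)

lemma relS_bad (x : Tup (fun _ => WW φ d' e' k r A) (m + 1))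
    (y : Fin (d' + 1 + 1) → WW φ d' e' k r A) (b : Bool)
    (h : stt (A := fun _ => WW φ d' e' k r A)
      (X := fun i => {x : WW φ d' e' k r A // okS x.1 i})
      (fun i x => if h : okS x.1 i then some ⟨x, h⟩ else none) (m + 1) x = Sum.inr b) :
    relS A (fun p => (asm x y p).1) = b := by
  have h1 := scn_stt (fun i (x : WW φ d' e' k r A) => okS x.1 i) (m + 1) x (y 0)
  rw [h] at h1
  simp only at h1
  unfold relS
  have h2 : scn (fun i => okS (asm x y (po m d' i)).1 i) (m + 1) = some b := by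
    rw [← h1]
    apply scn_congr
    intro i hi
    rw [dif_pos hi, asm_po x y i hi]
  simp only [h2]

end Sem

end

end Pool.Agent.Helper265_EW.W
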