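import Pool.Agent.Helper265_EW.WBlk

set_option linter.unusedSectionVars false

/-! Families of blocks and the tests for chains. -/

namespace Pool.Agent.Helper265_EW.W

open Finset Classical Pool.Agent.Helper265_EW.P

noncomputable section

variable {n k r s e : ℕ} [NeZero n]

/-- conflicting families of blocks, at given positions -/
def cflP (p p' : Ob n k r) (G G' : Fin e → RB n k r s) : Prop :=
  ∃ l l', cflR (G l) p (G' l') p'

/-- valid families of blocks -/
abbrev Gk (n k r s e : ℕ) [NeZero n] : Type := {G : Fin e → RB n k r s // ∀ l, vblk (G l)}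

/-- the families of blocks of a chain -/
def pwG (hr : 1 ≤ r) (E : ℕ → Wd n s) (c : Fin e → Fin (k / r + 1)) : Gk n k r s e :=
  ⟨fun l => blkE E (c l), fun _ => blkE_v E hr _⟩

/-- the number of a block -/
def ixO (B : RB n k r s) : Fin (k / r + 1) := match B (Sum.inl ()) with
  | Ob.nb i => if h : i.val < k / r + 1 then ⟨i.val, h⟩ else 0
  | _ => 0

lemma ixO_mk (c : Fin (k / r + 1)) (a b : Fin r → Fin s → Fin n) :
    ixO (mkB (nc c) a b) = c := by
  have h : (nc (r := r) c).val < k / r + 1 := c.isLt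
  simp only [ixO, mkB, Sum.elim_inl]
  rw [dif_pos h]
  rfl

lemma vblk_ex' {B : RB n k r s} (hr : 1 ≤ r) (h : vblk B) :
    ∃ (c : Fin (k / r + 1)) (a b : Fin r → Fin s → Fin n), B = mkB (nc c) a b := by
  obtain ⟨c, a, b, h1, h2⟩ := vblk_ex hr h
  exact ⟨⟨c.val, by omega⟩, a, b, h2⟩

lemma ixO_spec {B : RB n k r s} (hr : 1 ≤ r) (h : vblk B) : bN B = Ob.nb (nc (ixO B)) := by
  obtain ⟨c, a, b, rfl⟩ := vblk_ex' hr h
  rw [ixO_mk]
  rfl

lemma nc_inj {c c' : Fin (k / r + 1)} (h : nc c = nc c') : c = c' := by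
  have h5 : c.val = c'.val := congrArg (fun x : Fin (k + 1) => x.val) h
  exact Fin.ext h5

lemma pwG_inj (hr : 1 ≤ r) (E : ℕ → Wd n s) :
    Function.Injective (pwG hr E : (Fin e → Fin (k / r + 1)) → Gk n k r s e) := by
  intro c c' h
  funext l
  exact blkE_inj E (congrFun (congrArg Subtype.val h) l)

lemma pwG_cfl {E : ℕ → Wd n s} (hE : Inc k E) (hr : 1 ≤ r) (hrk : r ≤ k + 1)
    (c c' : Fin e → Fin (k / r + 1)) (p p' : Ob n k r) :
    ¬ cflP p p' (pwG hr E c).1 (pwG hr E c').1 := by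
  rintro ⟨l, l', h⟩
  exact blkE_cfl hE hr hrk _ _ _ _ h

/-- index families -/
def ixF (G : Gk n k r s e) : Fin e → Fin (k / r + 1) := fun l => ixO (G.1 l)

lemma ixF_pw (hr : 1 ≤ r) (E : ℕ → Wd n s) (c : Fin e → Fin (k / r + 1)) :
    ixF (pwG hr E c) = c := by
  funext l
  exact ixO_mk (c l) _ _

/-- the same numbers -/
def sameIx (G G' : Fin e → RB n k r s) : Prop := ∀ l, bN (G l) = bN (G' l)

lemma sameIx_iff (hr : 1 ≤ r) (G G' : Gk n k r s e) : sameIx G.1 G'.1 ↔ ixF G = ixF G' := by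
  unfold sameIx ixF
  constructor
  · intro h
    funext l
    have := h l
    rw [ixO_spec hr (G.2 l), ixO_spec hr (G'.2 l), Ob.nb.injEq] at this
    exact nc_inj this
  · intro h l
    rw [ixO_spec hr (G.2 l), ixO_spec hr (G'.2 l)]
    exact congrArg (fun x => Ob.nb (nc x)) (congrFun h l)

lemma okP0 (hr : 1 ≤ r) (hrk : r ≤ k + 1) : okP (Ob.nb 0 : Ob n k r) :=
  (okP_nb hr hrk 0).mpr (by simp; omega)

theorem chain_of (hr : 1 ≤ r) (hrk : r ≤ k + 1) (he : 0 < e) (T : Finset (Gk n k r s e))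
    (hT : T.card = (k / r + 1) ^ e)
    (hc : ∀ G ∈ T, ∀ G' ∈ T, ∀ p p', ¬ cflP p p' G.1 G'.1) :
    ∃ E : ℕ → Wd n s, Inc k E ∧ T = univ.image (pwG hr E) := by
  have hinj : Set.InjOn ixF (T : Set (Gk n k r s e)) := by
    intro G hG G' hG' h
    by_contra hne
    have : ∃ l y, G.1 l y ≠ G'.1 l y := by
      by_contra h1
      push Not at h1
      exact hne (Subtype.ext (funext fun l => funext fun y => h1 l y))
    obtain ⟨l, y, hy⟩ := this
    exact hc G hG G' hG' (Ob.nb 0) (Ob.nb 0) ⟨l, l, okP0 hr hrk, okP0 hr hrk,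
      Or.inr (Or.inl ⟨(sameIx_iff hr G G').mpr h l, y, hy⟩)⟩
  have himg : T.image ixF = univ := by
    apply Finset.eq_univ_of_card
    rw [Finset.card_image_of_injOn hinj, hT]
    simp
  have hex : ∀ c : Fin e → Fin (k / r + 1), ∃ G ∈ T, ixF G = c := by
    intro c
    have : c ∈ T.image ixF := by rw [himg]; exact Finset.mem_univ _
    exact Finset.mem_image.mp this
  choose Q hQT hQi using hex
  let g : Fin (k / r + 1) → RB n k r s := fun c => (Q (fun _ => c)).1 ⟨0, he⟩
  have hgv : ∀ c, vblk (g c) := fun c => (Q (fun _ => c)).2 _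
  have hgi : ∀ c, ixO (g c) = c := fun c => congrFun (hQi (fun _ => c)) ⟨0, he⟩
  have hgc : ∀ c c' p p', ¬ cflR (g c) p (g c') p' := by
    intro c c' p p' h
    exact hc _ (hQT _) _ (hQT _) p p' ⟨_, _, h⟩
  have hmk : ∀ c, ∃ a b : Fin r → Fin s → Fin n, g c = mkB (nc c) a b := by
    intro c
    obtain ⟨c', a, b, h⟩ := vblk_ex' hr (hgv c)
    refine ⟨a, b, ?_⟩
    have h1 : c' = c := by rw [← hgi c, h, ixO_mk]
    rw [h, h1]
  choose a b hab using hmk
  -- positions
  have hN : ∀ c, bN (g c) = Ob.nb (nc c) := fun c => by rw [hab c]; rfl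
  have hA : ∀ c (i : Fin (k + 1)) (hi : i.val < r),
      bA (g c) (Ob.nb i) = fun j => Ob.el (a c ⟨i.val, hi⟩ j) := by
    intro c i hi; rw [hab c]; exact bA_mk _ _ _ i hi
  have hB : ∀ c (i : Fin (k + 1)) (hi : i.val < r),
      bB (g c) (Ob.nb i) = fun j => Ob.el (b c ⟨i.val, hi⟩ j) := by
    intro c i hi; rw [hab c]; exact bB_mk _ _ _ i hi
  have hbad : ∀ c (i : Fin (k + 1)), i.val < r → ¬ badR (g c) (Ob.nb i) := by
    intro c i hi h
    exact hgc c c (Ob.nb i) (Ob.nb i)
      ⟨(okP_nb hr hrk i).mpr hi, (okP_nb hr hrk i).mpr hi, Or.inl h⟩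
  have hq : ∀ g' : ℕ, g' < k + 1 → g' / r < k / r + 1 := fun g' h =>
    Nat.lt_succ_of_le (Nat.div_le_div_right (by omega))
  let E : ℕ → Wd n s := fun g' => if h : g' < k + 1 then
    toLex (b ⟨g' / r, hq g' h⟩ ⟨g' % r, Nat.mod_lt _ hr⟩) else toLex 0
  have hE : ∀ (c : Fin (k / r + 1)) (i : Fin r), c.val * r + i.val ≤ k →
      E (c.val * r + i.val) = toLex (b c i) := by
    intro c i hci
    simp only [E]
    rw [dif_pos (by omega)]
    have h1 : (c.val * r + i.val) / r = c.val := by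
      rw [mul_comm, Nat.mul_add_div (by omega), Nat.div_eq_of_lt i.isLt, add_zero]
    have h2 : (c.val * r + i.val) % r = i.val := by
      rw [mul_comm, Nat.mul_add_mod, Nat.mod_eq_of_lt i.isLt]
    have h3 : (⟨(c.val * r + i.val) / r, hq _ (by omega)⟩ : Fin (k / r + 1)) = c := Fin.ext h1
    have h4 : (⟨(c.val * r + i.val) % r, Nat.mod_lt _ hr⟩ : Fin r) = i := Fin.ext h2
    rw [h3, h4]
  -- letters are determined
  have hpos : ∀ g' : ℕ, g' ≤ k → ∃ (c : Fin (k / r + 1)) (i : Fin r), c.val * r + i.val = g' := by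
    intro g' hg'
    obtain ⟨c, i, hi, h⟩ := pos_of (k := k) hr ⟨g', by omega⟩
    exact ⟨c, ⟨i.val, hi⟩, h⟩
  have hrk' : ∀ i : Fin r, i.val < k + 1 := fun i => by have := i.isLt; omega
  have hE' : ∀ (c : Fin (k / r + 1)) (i : Fin r), c.val * r + i.val ≤ k →
      c.val * r + i.val ≠ 0 → E (c.val * r + i.val - 1) = toLex (a c i) := by
    intro c i hci hne
    obtain ⟨c', i', h⟩ := hpos (c.val * r + i.val - 1) (by omega)
    rw [← h, hE c' i' (by omega)]
    congr 1
    funext j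
    have h2 := hgc c' c (Ob.nb ⟨i'.val, hrk' i'⟩) (Ob.nb ⟨i.val, hrk' i⟩)
    unfold cflR at h2
    push Not at h2
    have h3 := (h2 ((okP_nb hr hrk _).mpr i'.isLt) ((okP_nb hr hrk _).mpr i.isLt)).2.2 (by
      rw [hN, hN, scP_nb hr hrk _ _ _ _ i'.isLt i.isLt]
      change c.val * r + i.val = c'.val * r + i'.val + 1
      omega) (by
      rw [hN, inR_nb hr _ _ i.isLt]
      exact hci) j
    rw [hB c' _ i'.isLt, hA c _ i.isLt, Ob.el.injEq] at h3
    exact h3
  have hgE : ∀ c, g c = blkE E c := by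
    intro c
    have ha : a c = fun i : Fin r => if c.val * r + i.val = 0 ∨ k < c.val * r + i.val then 0 else
        ofLex (E (c.val * r + i.val - 1)) := by
      funext i
      by_cases h : c.val * r + i.val = 0 ∨ k < c.val * r + i.val
      · rw [if_pos h]
        by_contra hne
        apply hbad c ⟨i.val, hrk' i⟩ i.isLt
        left
        rw [hN, inR_nb hr _ _ i.isLt, isF_nb hr, hA c _ i.isLt, zeR_el]
        change (¬ c.val * r + i.val ≤ k ∨ c.val * r + i.val = 0) ∧ _
        exact ⟨by omega, hne⟩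
      · rw [if_neg h, hE' c i (by omega) (by omega)]
        rfl
    have hb : b c = fun i : Fin r => if k ≤ c.val * r + i.val then 0 else
        ofLex (E (c.val * r + i.val)) := by
      funext i
      by_cases h : k ≤ c.val * r + i.val
      · rw [if_pos h]
        by_contra hne
        apply hbad c ⟨i.val, hrk' i⟩ i.isLt
        right; left
        rw [hN, inR_nb hr _ _ i.isLt, isL_nb hr _ _ i.isLt, hB c _ i.isLt, zeR_el]
        change (¬ c.val * r + i.val ≤ k ∨ c.val * r + i.val = k) ∧ _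
        exact ⟨by omega, hne⟩
      · rw [if_neg h, hE c i (by omega)]
        rfl
    rw [hab c]
    unfold blkE
    rw [← ha, ← hb]
  have hstep : ∀ i, i + 1 < k → E i < E (i + 1) := by
    intro g' hg'
    obtain ⟨c, i, h⟩ := hpos (g' + 1) (by omega)
    have h2 := hbad c ⟨i.val, hrk' i⟩ i.isLt
    unfold badR at h2
    rw [hN, inR_nb hr _ _ i.isLt, isF_nb hr, isL_nb hr _ _ i.isLt, hA c _ i.isLt,
      hB c _ i.isLt, ltR_el] at h2
    have hc0 : (nc (r := r) c).val * r + i.val = g' + 1 := h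
    push Not at h2
    simp only at h2
    have h3 := h2.2.2 (by omega) (by omega) (by omega)
    have h4 := hE c i (by omega)
    have h5 := hE' c i (by omega) (by omega)
    rw [h] at h4 h5
    have h6 : g' + 1 - 1 = g' := by omega
    rw [h6] at h5
    rw [h4, h5]
    exact h3
  refine ⟨E, ?_, ?_⟩
  · intro i j hij
    induction j, hij using Nat.le_induction with
    | base => intro hj; exact hstep i (by omega)
    | succ j hj ih => intro hj'; exact lt_trans (ih (by omega)) (hstep j (by omega))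
  · have hall : ∀ G ∈ T, G = pwG hr E (ixF G) := by
      intro G hG
      apply Subtype.ext
      funext l
      change G.1 l = blkE E (ixO (G.1 l))
      rw [← hgE]
      by_contra hne
      have : ∃ y, G.1 l y ≠ g (ixO (G.1 l)) y := by
        by_contra h1
        push Not at h1
        exact hne (funext fun y => h1 y)
      refine hc G hG (Q (fun _ => ixO (G.1 l))) (hQT _) (Ob.nb 0) (Ob.nb 0)
        ⟨l, ⟨0, he⟩, okP0 hr hrk, okP0 hr hrk, Or.inr (Or.inl ⟨?_, this⟩)⟩
      have h5 : bN (g (ixO (G.1 l))) = Ob.nb (nc (ixO (g (ixO (G.1 l))))) :=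
        ixO_spec hr (hgv _)
      rw [hgi] at h5
      rw [ixO_spec hr (G.2 l)]
      exact h5.symm
    ext G
    simp only [Finset.mem_image, Finset.mem_univ, true_and]
    constructor
    · intro hG
      exact ⟨ixF G, (hall G hG).symm⟩
    · rintro ⟨c, rfl⟩
      have h1 := hall (Q c) (hQT c)
      rw [hQi c] at h1
      rw [← h1]
      exact hQT c

/-- the elements coding families of blocks of a chain -/
def pwS {W : Type} (el : Gk n k r s e → W) (hr : 1 ≤ r) (E : ℕ → Wd n s) : Finset W :=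
  univ.image (fun c : Fin e → Fin (k / r + 1) => el (pwG hr E c))

lemma pwS_card {W : Type} {el : Gk n k r s e → W} (hel : Function.Injective el) (hr : 1 ≤ r)
    (E : ℕ → Wd n s) : (pwS el hr E).card = (k / r + 1) ^ e := by
  unfold pwS
  have h : Function.Injective (fun c : Fin e → Fin (k / r + 1) => el (pwG hr E c)) :=
    hel.comp (pwG_inj hr E)
  rw [Finset.card_image_of_injective _ h]
  simp

lemma mem_pwS {W : Type} {el : Gk n k r s e → W} {hr : 1 ≤ r} {E : ℕ → Wd n s} {x : W} :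
    x ∈ pwS el hr E ↔ ∃ c, el (pwG hr E c) = x := by
  unfold pwS
  simp

/-- the tests if the innermost block is existential -/
def testE {W : Type} (el : Gk n k r s e → W) (S : Finset W) : Prop :=
  (∀ G : Gk n k r s e, ∃ G' : Gk n k r s e, el G' ∈ S ∧ sameIx G'.1 G.1) ∧
  (∀ p p' (G1 G2 : Gk n k r s e), cflP p p' G1.1 G2.1 → ∃ G' : Gk n k r s e, el G' ∈ S ∧
    ((sameIx G'.1 G1.1 ∧ G' ≠ G1) ∨ (sameIx G'.1 G2.1 ∧ G' ≠ G2)))

/-- the tests if the innermost block is universal -/
def testO {W : Type} (el : Gk n k r s e → W) (S : Finset W) : Prop :=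
  (∀ x ∈ S, ∃ G, x = el G) ∧
  (∀ p p' (G1 G2 : Gk n k r s e), cflP p p' G1.1 G2.1 → el G1 ∉ S ∨ el G2 ∉ S)

theorem testE_iff {W : Type} {el : Gk n k r s e → W} (hel : Function.Injective el)
    (hr : 1 ≤ r) (hrk : r ≤ k + 1) (he : 0 < e) (S : Finset W) :
    (S.card = (k / r + 1) ^ e ∧ testE el S) ↔
      ∃ E : ℕ → Wd n s, Inc k E ∧ S = pwS el hr E := by
  constructor
  · rintro ⟨hS, hB, hC⟩
    let T : Finset (Gk n k r s e) := S.preimage el hel.injOn
    have hTm : ∀ G, G ∈ T ↔ el G ∈ S := fun G => Finset.mem_preimage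
    have hsub : T.image el ⊆ S := by
      intro x hx
      obtain ⟨G, hG, rfl⟩ := Finset.mem_image.mp hx
      exact (hTm G).mp hG
    have hc1 : (T.image el).card = T.card := Finset.card_image_of_injective _ hel
    have hsur : T.image ixF = univ := by
      ext c
      simp only [Finset.mem_univ, iff_true]
      obtain ⟨G', h1, h2⟩ := hB ⟨fun l => mkB (nc (c l)) 0 0,
        fun l => vblk_mk _ _ hr (Nat.lt_succ_iff.mp (c l).isLt)⟩
      refine Finset.mem_image.mpr ⟨G', (hTm G').mpr h1, ?_⟩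
      rw [(sameIx_iff hr _ _).mp h2]
      funext l
      exact ixO_mk (c l) _ _
    have hc2 : (k / r + 1) ^ e ≤ T.card := by
      have h1 : (T.image ixF).card ≤ T.card := Finset.card_image_le
      rw [hsur] at h1
      simpa using h1
    have himg : T.image el = S := Finset.eq_of_subset_of_card_le hsub (by omega)
    have hTc : T.card = (k / r + 1) ^ e := by rw [← hc1, himg, hS]
    have hinj : Set.InjOn ixF (T : Set (Gk n k r s e)) := by
      apply Finset.card_image_iff.mp
      rw [hsur, hTc]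
      simp
    obtain ⟨E, hE, hTE⟩ := chain_of hr hrk he T hTc (by
      intro G1 hG1 G2 hG2 p p' hcf
      obtain ⟨G', h1, h2⟩ := hC p p' G1 G2 hcf
      have h3 : G' ∈ T := (hTm G').mpr h1
      rcases h2 with ⟨h4, h5⟩ | ⟨h4, h5⟩
      · exact h5 (hinj h3 hG1 ((sameIx_iff hr _ _).mp h4))
      · exact h5 (hinj h3 hG2 ((sameIx_iff hr _ _).mp h4)))
    refine ⟨E, hE, ?_⟩
    rw [← himg, hTE]
    unfold pwS
    rw [Finset.image_image]
    rfl
  · rintro ⟨E, hE, rfl⟩
    refine ⟨pwS_card hel hr E, fun G => ⟨pwG hr E (ixF G), mem_pwS.mpr ⟨_, rfl⟩, ?_⟩, ?_⟩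
    · rw [sameIx_iff hr, ixF_pw]
    · intro p p' G1 G2 hcf
      by_cases h1 : el G1 ∈ pwS el hr E
      · have h2 : el G2 ∉ pwS el hr E := by
          intro h2
          obtain ⟨c1, h3⟩ := mem_pwS.mp h1
          obtain ⟨c2, h4⟩ := mem_pwS.mp h2
          rw [← hel h3, ← hel h4] at hcf
          exact pwG_cfl hE hr hrk _ _ _ _ hcf
        refine ⟨pwG hr E (ixF G2), mem_pwS.mpr ⟨_, rfl⟩, Or.inr ⟨?_, ?_⟩⟩
        · rw [sameIx_iff hr, ixF_pw]
        · intro h3
          exact h2 (mem_pwS.mpr ⟨_, congrArg el h3⟩)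
      · refine ⟨pwG hr E (ixF G1), mem_pwS.mpr ⟨_, rfl⟩, Or.inl ⟨?_, ?_⟩⟩
        · rw [sameIx_iff hr, ixF_pw]
        · intro h3
          exact h1 (mem_pwS.mpr ⟨_, congrArg el h3⟩)

theorem testO_iff {W : Type} {el : Gk n k r s e → W} (hel : Function.Injective el)
    (hr : 1 ≤ r) (hrk : r ≤ k + 1) (he : 0 < e) (S : Finset W) :
    (S.card = (k / r + 1) ^ e ∧ testO el S) ↔
      ∃ E : ℕ → Wd n s, Inc k E ∧ S = pwS el hr E := by
  constructor
  · rintro ⟨hS, hB, hC⟩
    let T : Finset (Gk n k r s e) := S.preimage el hel.injOn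
    have hTm : ∀ G, G ∈ T ↔ el G ∈ S := fun G => Finset.mem_preimage
    have himg : T.image el = S := by
      ext x
      simp only [Finset.mem_image]
      constructor
      · rintro ⟨G, hG, rfl⟩
        exact (hTm G).mp hG
      · intro hx
        obtain ⟨G, rfl⟩ := hB x hx
        exact ⟨G, (hTm G).mpr hx, rfl⟩
    have hc1 : (T.image el).card = T.card := Finset.card_image_of_injective _ hel
    have hTc : T.card = (k / r + 1) ^ e := by rw [← hc1, himg, hS]
    obtain ⟨E, hE, hTE⟩ := chain_of hr hrk he T hTc (by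
      intro G1 hG1 G2 hG2 p p' hcf
      rcases hC p p' G1 G2 hcf with h | h
      · exact h ((hTm G1).mp hG1)
      · exact h ((hTm G2).mp hG2))
    refine ⟨E, hE, ?_⟩
    rw [← himg, hTE]
    unfold pwS
    rw [Finset.image_image]
    rfl
  · rintro ⟨E, hE, rfl⟩
    refine ⟨pwS_card hel hr E, ?_, ?_⟩
    · intro x hx
      obtain ⟨c, hc⟩ := mem_pwS.mp hx
      exact ⟨_, hc.symm⟩
    · intro p p' G1 G2 hcf
      by_contra h
      push Not at h
      obtain ⟨h1, h2⟩ := h
      obtain ⟨c1, h3⟩ := mem_pwS.mp h1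
      obtain ⟨c2, h4⟩ := mem_pwS.mp h2
      rw [← hel h3, ← hel h4] at hcf
      exact pwG_cfl hE hr hrk _ _ _ _ hcf

end

end Pool.Agent.Helper265_EW.W
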