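import Pool.Agent.Helper265_EW.XHeart
import Pool.Agent.Helper265_EW.RMain

set_option linter.unusedSectionVars false

/-! The lower bound for circuits. -/

namespace Pool.Agent.Helper265_EW.G.C2

open Finset Classical Pool.Agent.H592R2 Pool.Agent.Helper265_EW.X Pool.Agent.Helper265_EW.R

noncomputable section

lemma PB.ev {f : ℕ → ℕ} (hf : PB f) : ∃ x0, ∀ x, x0 ≤ x → f x ≤ 2 ^ x := by
  obtain ⟨E, hE⟩ := hf
  obtain ⟨x0, hx0⟩ := ev_pow 1 E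
  refine ⟨x0 + 2, fun x hx => (hE x (by omega)).trans ?_⟩
  have := hx0 x (by omega)
  omega

/-- the parameters are small -/
lemma params (E c qs v d d' p q m Lv C1 C2 C4 cF : ℕ) : ∃ x0, ∀ x, x0 ≤ x →
    ∀ D S sg α a Cw C3 Cκ κ : ℕ, D = (v * x + 2) ^ c + (qs + 5) →
      S = 3 * (2 * D + 6) * E + d + 3 → sg = sgr (d + 2) S → α = 2 * sg * D → a = α + 4 →
      Cw = (Lv + 1 + 2 ^ d') * S ^ (d + 2) → C3 = C1 + C4 + 3 + S ^ (d + 2) →
      Cκ = (2 * Cw) ^ q * (2 ^ q * (C2 + 1)) ^ d' →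
      κ = (3 + (5 + v * x * (2 * p + d + 7)) * (m + 1)) + (4 * α + 40) + (sg * S + 3) + C1 +
        2 * C3 + a →
      Cκ * κ ^ q ≤ 2 ^ x ∧ 4 * a * κ ≤ 2 ^ x ∧ a * (cF * (x + 1) + S) ≤ 2 ^ x ∧ D ≤ 2 ^ x := by
  have pD : PB (fun x => (v * x + 2) ^ c + (qs + 5)) :=
    (((PB.const v).mul PB.var).add (PB.const 2)).pow c |>.add (PB.const _)
  obtain ⟨fD, hfD⟩ : ∃ fD : ℕ → ℕ, fD = fun x => (v * x + 2) ^ c + (qs + 5) := ⟨_, rfl⟩
  rw [← hfD] at pD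
  have pS : PB (fun x => 3 * (2 * fD x + 6) * E + d + 3) :=
    ((((PB.const 3).mul (((PB.const 2).mul pD).add (PB.const 6))).mul (PB.const E)).add
      (PB.const d)).add (PB.const 3)
  obtain ⟨fS, hfS⟩ : ∃ fS : ℕ → ℕ, fS = fun x => 3 * (2 * fD x + 6) * E + d + 3 := ⟨_, rfl⟩
  rw [← hfS] at pS
  have pg : PB (fun x => sgr (d + 2) (fS x)) := pS.add (pS.pow (d + 2))
  obtain ⟨fg, hfg⟩ : ∃ fg : ℕ → ℕ, fg = fun x => sgr (d + 2) (fS x) := ⟨_, rfl⟩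
  rw [← hfg] at pg
  have pα : PB (fun x => 2 * fg x * fD x) := ((PB.const 2).mul pg).mul pD
  obtain ⟨fα, hfα⟩ : ∃ fα : ℕ → ℕ, fα = fun x => 2 * fg x * fD x := ⟨_, rfl⟩
  rw [← hfα] at pα
  have pa : PB (fun x => fα x + 4) := pα.add (PB.const 4)
  obtain ⟨fa, hfa⟩ : ∃ fa : ℕ → ℕ, fa = fun x => fα x + 4 := ⟨_, rfl⟩
  rw [← hfa] at pa
  have pw : PB (fun x => (Lv + 1 + 2 ^ d') * fS x ^ (d + 2)) :=
    (PB.const _).mul (pS.pow (d + 2))
  obtain ⟨fw, hfw⟩ : ∃ fw : ℕ → ℕ, fw = fun x => (Lv + 1 + 2 ^ d') * fS x ^ (d + 2) := ⟨_, rfl⟩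
  rw [← hfw] at pw
  have p3 : PB (fun x => C1 + C4 + 3 + fS x ^ (d + 2)) := (PB.const _).add (pS.pow (d + 2))
  obtain ⟨f3, hf3⟩ : ∃ f3 : ℕ → ℕ, f3 = fun x => C1 + C4 + 3 + fS x ^ (d + 2) := ⟨_, rfl⟩
  rw [← hf3] at p3
  have pκ' : PB (fun x => (2 * fw x) ^ q * (2 ^ q * (C2 + 1)) ^ d') :=
    (((PB.const 2).mul pw).pow q).mul (PB.const _)
  obtain ⟨fK, hfK⟩ : ∃ fK : ℕ → ℕ, fK = fun x => (2 * fw x) ^ q * (2 ^ q * (C2 + 1)) ^ d' :=
    ⟨_, rfl⟩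
  rw [← hfK] at pκ'
  have pκ : PB (fun x => (3 + (5 + v * x * (2 * p + d + 7)) * (m + 1)) + (4 * fα x + 40) +
      (fg x * fS x + 3) + C1 + 2 * f3 x + fa x) :=
    ((((((PB.const 3).add (((PB.const 5).add (((PB.const v).mul PB.var).mul
      (PB.const _))).mul (PB.const _))).add (((PB.const 4).mul pα).add (PB.const 40))).add
      ((pg.mul pS).add (PB.const 3))).add (PB.const C1)).add ((PB.const 2).mul p3)).add pa
  obtain ⟨fκ, hfκ⟩ : ∃ fκ : ℕ → ℕ, fκ = fun x => (3 + (5 + v * x * (2 * p + d + 7)) * (m + 1)) +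
      (4 * fα x + 40) + (fg x * fS x + 3) + C1 + 2 * f3 x + fa x := ⟨_, rfl⟩
  rw [← hfκ] at pκ
  obtain ⟨x1, h1⟩ := PB.ev (pκ'.mul (pκ.pow q))
  obtain ⟨x2, h2⟩ := PB.ev (((PB.const 4).mul pa).mul pκ)
  obtain ⟨x3, h3⟩ := PB.ev (pa.mul (((PB.const cF).mul (PB.var.add (PB.const 1))).add pS))
  obtain ⟨x4, h4⟩ := PB.ev pD
  refine ⟨x1 + x2 + x3 + x4, fun x hx D S sg α a Cw C3 Cκ κ eD eS eg eα ea ew e3 eK eκ => ?_⟩
  have gD : D = fD x := by rw [eD, hfD]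
  have gS : S = fS x := by rw [eS, gD, hfS]
  have gg : sg = fg x := by rw [eg, gS, hfg]
  have gα : α = fα x := by rw [eα, gg, gD, hfα]
  have ga : a = fa x := by rw [ea, gα, hfa]
  have gw : Cw = fw x := by rw [ew, gS, hfw]
  have g3 : C3 = f3 x := by rw [e3, gS, hf3]
  have gK : Cκ = fK x := by rw [eK, gw, hfK]
  have gκ : κ = fκ x := by rw [eκ, gα, gg, gS, g3, ga, hfκ]
  rw [gK, gκ, ga, gS, gD]
  exact ⟨h1 x (by omega), h2 x (by omega), h3 x (by omega), h4 x (by omega)⟩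

/-- the polynomial bound on the number of gates -/
lemma PB_totalX (c p0 p q s qs : ℕ) : PB (fun Z => Z * (Z ^ c + 1 +
      ((Z ^ c + (c * Z ^ p0 + 1) + (Z ^ c) ^ p *
      (((Z ^ c) ^ s + 1) * (((Z ^ c) ^ s + 1) * 2)) ^ ((p + q) ^ s)) *
      ((Z ^ c + 1) ^ q * ((q + qs + 4) * 1) + 1) + 1) + 1)) := by
  have hv : PB (fun Z => Z ^ c) := PB.var.pow c
  have h1 := PB.const 1
  have h2 := PB.const 2
  have e1 := (hv.add (((PB.const c).mul (PB.var.pow p0)).add h1)).add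
    ((hv.pow p).mul (PB.pow (((hv.pow s).add h1).mul (((hv.pow s).add h1).mul h2)) ((p + q) ^ s)))
  have e2 := (((hv.add h1).pow q).mul (PB.const ((q + qs + 4) * 1))).add h1
  exact PB.var.mul (((hv.add h1).add ((e1.mul e2).add h1)).add h1)

/-- No reduction on instances with `k = (log n) ^ (u / v)`. -/
theorem no_red_X (m d d' p q u v : ℕ) (hd : 1 ≤ d) (hq : 1 ≤ q) (hu : 1 ≤ u) (huv : u ≤ v)
    (hpq : v * p * d' < q * (u * (d + 1)))
    {τ' : Voc} {s : ℕ} (φ : PiF τ' s (m + 2)) (hocc : φ.innerOcc ≤ d') (c cF : ℕ)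
    (Fb : ℕ → ℕ → ℕ) (hFb1 : ∀ n k, 1 ≤ Fb n k)
    (hFb : ∀ x n : ℕ, Nat.log 2 (n + 1) = (2 ^ x) ^ v →
      Fb n ((2 ^ x) ^ u) ≤ 2 ^ (cF * ((2 ^ x) ^ (v - 1) * (x + 1)))) :
    ¬ ∀ n k : ℕ, 1 ≤ n → 1 ≤ k → k ^ v = Nat.log 2 (n + 1) ^ u →
      ∃ T : CTr (srcVt m d) τ' n,
        T.Bounded p q k c ((Nat.log 2 (k + Nat.log 2 (n + 1) + 1) + 1) ^ c) (Fb n k) ∧
        T.Correct (srcFt (decide (m % 2 = 0)) m d) φ k := by
  intro hred
  -- constants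
  obtain ⟨Lv, hLv⟩ : ∃ Lv, Lv = Fintype.card (Vars φ.len (m + 1)) := ⟨_, rfl⟩
  obtain ⟨E, hE⟩ := PB_totalX c p Lv (φ.len (m + 1)) s φ.ψ.qs
  obtain ⟨C2, hC2⟩ : ∃ C2, C2 = c * 3 ^ p := ⟨_, rfl⟩
  obtain ⟨C1, hC1⟩ : ∃ C1, C1 = 3 * (c * s + 1) * C2 := ⟨_, rfl⟩
  obtain ⟨C4, hC4⟩ : ∃ C4, C4 = 3 * (c + 1) * Lv := ⟨_, rfl⟩
  obtain ⟨x0, hx0⟩ := params E c φ.ψ.qs v d d' p q m Lv C1 C2 C4 cF
  obtain ⟨x, hx⟩ : ∃ x, x = x0 + 1 := ⟨_, rfl⟩
  obtain ⟨D, hD⟩ : ∃ D, D = (v * x + 2) ^ c + (φ.ψ.qs + 5) := ⟨_, rfl⟩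
  obtain ⟨S, hS⟩ : ∃ S, S = 3 * (2 * D + 6) * E + d + 3 := ⟨_, rfl⟩
  have hSd : d + 2 < S := by omega
  obtain ⟨sg, hsg⟩ : ∃ sg, sg = sgr (d + 2) S := ⟨_, rfl⟩
  have hsg1 : 1 ≤ sg := by rw [hsg]; exact sgr_pos hSd
  obtain ⟨α, hα⟩ : ∃ α, α = 2 * sg * D := ⟨_, rfl⟩
  obtain ⟨a, ha⟩ : ∃ a, a = α + 4 := ⟨_, rfl⟩
  obtain ⟨Cw, hCw⟩ : ∃ Cw, Cw = (Lv + 1 + 2 ^ d') * S ^ (d + 2) := ⟨_, rfl⟩
  obtain ⟨C3, hC3⟩ : ∃ C3, C3 = C1 + C4 + 3 + S ^ (d + 2) := ⟨_, rfl⟩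
  obtain ⟨Cκ, hCκ⟩ : ∃ Cκ, Cκ = (2 * Cw) ^ q * (2 ^ q * (C2 + 1)) ^ d' := ⟨_, rfl⟩
  obtain ⟨κ, hκ⟩ : ∃ κ, κ = (3 + (5 + v * x * (2 * p + d + 7)) * (m + 1)) + (4 * α + 40) +
    (sg * S + 3) + C1 + 2 * C3 + a := ⟨_, rfl⟩
  obtain ⟨hj3, hj4, hj5, hj6⟩ := hx0 x (by omega) D S sg α a Cw C3 Cκ κ hD hS hsg hα ha hCw hC3
    hCκ hκ
  have hSp : 1 ≤ S ^ (d + 2) := Nat.one_le_pow _ _ (by omega)
  have hCw1 : 1 ≤ Cw := by rw [hCw]; exact Nat.mul_pos (by positivity) hSp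
  obtain ⟨j, hj⟩ : ∃ j, j = 2 ^ x := ⟨_, rfl⟩
  rw [← hj] at hj3 hj4 hj5 hj6
  obtain ⟨k, hk⟩ : ∃ k, k = j ^ u := ⟨_, rfl⟩
  obtain ⟨L, hL⟩ : ∃ L, L = j ^ v := ⟨_, rfl⟩
  have hκN : 3 + (5 + v * x * (2 * p + d + 7)) * (m + 1) ≤ κ := by omega
  have hκa : a ≤ κ := by omega
  have hκα : 4 * α + 40 ≤ κ := by omega
  have hκS : sg * S + 3 ≤ κ := by omega
  have hκC1 : C1 ≤ κ := by omega
  have hκC3 : 2 * C3 ≤ κ := by omega
  have hκ1 : 1 ≤ κ := by omega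
  clear hκ
  have hjκ : 4 * a * κ ≤ j := hj4
  have hj1 : 1 ≤ j := by
    have : 1 ≤ 4 * a * κ := Nat.mul_pos (by omega) hκ1
    omega
  have hκj : κ ≤ j := by
    have : κ ≤ 4 * a * κ := Nat.le_mul_of_pos_left _ (by omega)
    omega
  have hjk : j ≤ k := by rw [hk]; exact Nat.le_self_pow (by omega) j
  have hkL : k ≤ L := by rw [hk, hL]; exact Nat.pow_le_pow_right hj1 huv
  have hκL : κ ≤ L := by omega
  have hN : 8 * (L ^ (p + 3) * (32 * L ^ (p + d + 4))) ^ (m + 1) ≤ 2 ^ κ := by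
    have e1 : 8 * (L ^ (p + 3) * (32 * L ^ (p + d + 4))) ^ (m + 1) =
        2 ^ (3 + (5 + v * x * (2 * p + d + 7)) * (m + 1)) := by
      have e2 : L ^ (p + 3) * (32 * L ^ (p + d + 4)) = 32 * L ^ (2 * p + d + 7) := by ring
      have e3 : L = 2 ^ (v * x) := by rw [hL, hj, ← pow_mul, mul_comm]
      have e4 : (32 : ℕ) = 2 ^ 5 := by norm_num
      have e5 : (8 : ℕ) = 2 ^ 3 := by norm_num
      rw [e2, e3, ← pow_mul, e4, ← pow_add, ← pow_mul, e5, ← pow_add]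
    rw [e1]
    exact Nat.pow_le_pow_right (by norm_num) hκN
  obtain ⟨cPP, hcPP⟩ : ∃ cPP, cPP = L ^ (p + 3) := ⟨_, rfl⟩
  obtain ⟨cLL, hcLL⟩ : ∃ cLL, cLL = 32 * L ^ (p + d + 4) := ⟨_, rfl⟩
  have hL1 : 1 ≤ L := by omega
  have hcPP1 : 1 ≤ cPP := by rw [hcPP]; exact Nat.one_le_pow _ _ (by omega)
  have hcLL1 : 1 ≤ cLL := by rw [hcLL]; exact Nat.mul_pos (by norm_num) (Nat.pow_pos (by omega))
  have : NeZero cPP := ⟨by omega⟩
  have : NeZero cLL := ⟨by omega⟩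
  have : NeZero k := ⟨by omega⟩
  have hN' := hN
  rw [← hcPP, ← hcLL] at hN'
  obtain ⟨N, hNd⟩ : ∃ N, N = (cPP * cLL) ^ (m + 1) := ⟨_, rfl⟩
  have hN1 : 1 ≤ cPP * cLL := Nat.mul_pos hcPP1 hcLL1
  have hNle : cPP * cLL ≤ N := by
    rw [hNd]
    exact Nat.le_self_pow (by omega) _
  have hLd : L ^ (d + 1) ≤ cPP * cLL := by
    calc L ^ (d + 1) ≤ L ^ (p + d + 4) := Nat.pow_le_pow_right hL1 (by omega)
      _ ≤ cLL := by rw [hcLL]; omega
      _ ≤ cPP * cLL := Nat.le_mul_of_pos_left _ hcPP1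
  have hLN : L ≤ N := ((Nat.le_self_pow (by omega) L).trans hLd).trans hNle
  have hN8 : 8 * N ≤ 2 ^ κ := by rw [hNd]; exact hN'
  -- the base
  obtain ⟨ℓ, hℓ⟩ : ∃ ℓ, ℓ = L / a := ⟨_, rfl⟩
  have ha0 : 0 < a := by omega
  have hℓκ : 4 * κ ≤ ℓ := by
    rw [hℓ, Nat.le_div_iff_mul_le ha0]
    calc 4 * κ * a = 4 * a * κ := by ring
      _ ≤ L := by omega
  have hℓa : ℓ * a ≤ L := by rw [hℓ]; exact Nat.div_mul_le_self L a
  have hLℓ : L + 1 ≤ ℓ * (a + 2) := by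
    have h1 : L < a * (L / a + 1) := Nat.lt_mul_div_succ L ha0
    rw [← hℓ] at h1
    have h2 : a ≤ ℓ := by omega
    have h3 : a * (ℓ + 1) = ℓ * a + a := by ring
    have h4 : ℓ * (a + 2) = ℓ * a + ℓ + ℓ := by ring
    omega
  obtain ⟨b, hb⟩ : ∃ b, b = 2 ^ ℓ := ⟨_, rfl⟩
  have hκb : 2 ^ (2 * κ) ≤ b := by
    rw [hb]
    exact Nat.pow_le_pow_right (by norm_num) (by omega)
  have hκb2 : 2 ^ κ * 2 ^ κ ≤ b := by
    rw [← pow_add, ← two_mul]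
    exact hκb
  have hκ2 : 1 ≤ 2 ^ κ := Nat.one_le_two_pow
  have hκb1 : 2 ^ κ ≤ b := le_trans (Nat.le_mul_of_pos_left _ hκ2) hκb2
  have hb256 : 256 ≤ b := by
    calc 256 = 2 ^ 8 := by norm_num
      _ ≤ 2 ^ κ := Nat.pow_le_pow_right (by norm_num) (by omega)
      _ ≤ b := hκb1
  have : NeZero b := ⟨by omega⟩
  have hQ : k * (N + 1) ≤ b := by
    refine le_trans (Nat.mul_le_mul (show k ≤ 2 ^ κ by omega) (show N + 1 ≤ 2 ^ κ by omega)) hκb2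
  have hkX : k + cPP * cLL + 1 ≤ b := by omega
  obtain ⟨B, hB1, hB2, hlog⟩ := size_choice (N := N) (cX := cPP * cLL) hb (show 1 ≤ k by omega)
    hQ hkX hℓa hLℓ (by omega) (by omega)
  have hBpos : 1 ≤ B := le_trans (Nat.one_le_pow _ _ (by omega)) hB1
  have : NeZero B := ⟨by omega⟩
  -- the universe
  obtain ⟨n, hn⟩ : ∃ n, n = k * (N * B) + k * B + k + cPP * cLL := ⟨_, rfl⟩
  rw [← hn] at hlog
  have hcX : Fintype.card (Fin cPP × Fin cLL) = cPP * cLL := by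
    rw [Fintype.card_prod, Fintype.card_fin, Fintype.card_fin]
  have hcT : Fintype.card (Tup (fun _ : ℕ => Fin cPP × Fin cLL) m) = (cPP * cLL) ^ m := by
    rw [card_Tup_const, hcX]
  have hcard : Fintype.card (G.Un k (Tup (fun _ : ℕ => Fin cPP × Fin cLL) m)
      (Fin cPP × Fin cLL) B) = n := by
    rw [hn, hNd]
    simp only [Fintype.card_sum, Fintype.card_prod, hcT, Fintype.card_fin]
    ring
  have eU : G.Un k (Tup (fun _ : ℕ => Fin cPP × Fin cLL) m) (Fin cPP × Fin cLL) B ≃ Fin n :=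
    Fintype.equivFinOfCardEq hcard
  obtain ⟨T, ⟨hM, hTN, hTD, hK, hfan⟩, hcorr⟩ := hred n k (by rw [hn]; omega) (by omega) (by
    rw [hlog, hk, hL, ← pow_mul, ← pow_mul, mul_comm])
  rw [hlog] at hK hTD
  obtain ⟨Z, hZ⟩ : ∃ Z, Z = 2 ^ k * (n + 2) := ⟨_, rfl⟩
  rw [← hZ] at hM hTN
  have hn2 : n + 2 ≤ 2 ^ (L + 1) := by
    have := Nat.lt_pow_succ_log_self (b := 2) (by norm_num) (n + 1)
    rw [hlog] at this
    exact this
  have hZ2 : 2 ≤ Z := by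
    rw [hZ]
    calc 2 = 1 * 2 := rfl
      _ ≤ 2 ^ k * (n + 2) := Nat.mul_le_mul Nat.one_le_two_pow (by omega)
  have hZL : Z ≤ 2 ^ (3 * L) := by
    rw [hZ]
    calc 2 ^ k * (n + 2) ≤ 2 ^ L * 2 ^ (L + 1) :=
          Nat.mul_le_mul (Nat.pow_le_pow_right (by norm_num) hkL) hn2
      _ = 2 ^ (L + (L + 1)) := by rw [← pow_add]
      _ ≤ 2 ^ (3 * L) := Nat.pow_le_pow_right (by norm_num) (by omega)
  have hZb : Z ≤ b ^ (3 * (a + 2)) := by
    refine hZL.trans ?_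
    rw [hb, ← pow_mul]
    apply Nat.pow_le_pow_right (by norm_num)
    calc 3 * L ≤ 3 * (ℓ * (a + 2)) := by omega
      _ = ℓ * (3 * (a + 2)) := by ring
  have hZc : 1 ≤ Z ^ c := Nat.one_le_pow _ _ (by omega)
  -- bound on the new parameter
  have hKq : T.K ≤ T.K ^ q := Nat.le_self_pow (by omega) _
  have hK1 : T.K ≤ c * Z ^ p := by
    refine hKq.trans (hK.trans (Nat.mul_le_mul_left _ (Nat.pow_le_pow_left ?_ _)))
    have e1 : L < 2 ^ L := Nat.lt_pow_self (by norm_num)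
    have e2 : k < 2 ^ k := Nat.lt_pow_self (by norm_num)
    have e3 : 2 ^ L ≤ n + 1 := by
      have := Nat.pow_log_le_self 2 (x := n + 1) (by omega)
      rw [hlog] at this
      exact this
    have e4 : 1 ≤ 2 ^ k := Nat.one_le_two_pow
    rw [hZ]
    have e5 : 2 ^ k * (n + 2) = 2 ^ k * n + 2 ^ k * 2 := by ring
    have e6 : n ≤ 2 ^ k * n := Nat.le_mul_of_pos_left _ (by omega)
    omega
  have hKq2 : T.K ^ q ≤ C2 * L ^ p := by
    refine hK.trans ?_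
    rw [hC2, mul_assoc, ← mul_pow]
    apply Nat.mul_le_mul_left
    apply Nat.pow_le_pow_left
    omega
  have hK2 : T.K ≤ C2 * L ^ p := hKq.trans hKq2
  -- the circuit
  have hTN1 : 1 ≤ T.N := by
    have := (T.par 0).2
    omega
  obtain ⟨n', hn'⟩ : ∃ n', n' = T.M + (T.K + 1) := ⟨_, rfl⟩
  have hMn : T.M ≤ n' := by omega
  have hKn : T.K + 1 ≤ n' := by omega
  have hTD2 : T.D + (φ.ψ.qs + 4 + 1) ≤ D := by
    have e1 : Nat.log 2 (k + L + 1) + 1 ≤ v * x + 2 := by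
      have e2 : k + L + 1 < 2 ^ (v * x + 2) := by
        have e3 : L = 2 ^ (v * x) := by rw [hL, hj, ← pow_mul, mul_comm]
        rw [pow_add, ← e3]
        omega
      have := Nat.log_lt_of_lt_pow (b := 2) (x := v * x + 2) (y := k + L + 1) (by omega) e2
      omega
    have e4 := hTD.trans (Nat.pow_le_pow_left e1 c)
    omega
  obtain ⟨Tg, hTg⟩ : ∃ Tg, Tg = genT τ' T.M T.K n' hMn hKn := ⟨_, rfl⟩
  obtain ⟨sz, hsz⟩ : ∃ sz, sz = (T.M + 1) ^ φ.len (m + 1) *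
      ((φ.len (m + 1) + φ.ψ.qs + 4) * 1) + 1 := ⟨_, rfl⟩
  have hcmp := cmp_over T (Fb n k) hTN1 hfan (hFb1 n k) n'
    (fun i : IdxG (s := s) (genT τ' T.M T.K n' hMn hKn) (Vars φ.len (m + 1)) (φ.len (m + 1)) =>
      famG (genT τ' T.M T.K n' hMn hKn) (matT φ) i) (φ.ψ.qs + 4) sz
    (fun i => by
      rw [← matT_qs φ]
      have := famG_depth (c := 0) (genT τ' T.M T.K n' hMn hKn) (matT φ) (fun a => le_rfl)
        (fun R v => le_rfl) (fun j => le_rfl) i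
      omega)
    (fun i => by
      rw [hsz, ← matT_qs φ]
      exact famG_size (σ0 := 1) (genT τ' T.M T.K n' hMn hKn) (matT φ) le_rfl (fun a => le_rfl)
        (fun R v => le_rfl) (fun j => le_rfl) i)
  have hcmp2 := hcmp.mono le_rfl le_rfl hTD2
  have hcardIdx := card_IdxG (s := s) (genT τ' T.M T.K n' hMn hKn) (Vars φ.len (m + 1))
    (φ.len (m + 1)) (m := Z ^ c) (c' := c * Z ^ p) hM hK1
  rw [← hLv] at hcardIdx
  obtain ⟨cI, hcI⟩ : ∃ cI, cI = Fintype.card (IdxG (s := s) (genT τ' T.M T.K n' hMn hKn)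
    (Vars φ.len (m + 1)) (φ.len (m + 1))) := ⟨_, rfl⟩
  rw [← hcI] at hcmp2 hcardIdx
  have hDZ : D ≤ Z := by
    have e1 : L < 2 ^ L := Nat.lt_pow_self (by norm_num)
    have e3 : 2 ^ L ≤ n + 1 := by
      have := Nat.pow_log_le_self 2 (x := n + 1) (by omega)
      rw [hlog] at this
      exact this
    have e6 : n + 2 ≤ 2 ^ k * (n + 2) := Nat.le_mul_of_pos_left _ Nat.one_le_two_pow
    rw [hZ]
    omega
  have htotal : D * (T.N + 1 + (cI * sz + 1) + 1) ≤ (b ^ (3 * (a + 2))) ^ E := by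
    calc D * (T.N + 1 + (cI * sz + 1) + 1) ≤ _ := by
          refine Nat.mul_le_mul hDZ (Nat.add_le_add_right (Nat.add_le_add
            (Nat.add_le_add_right hTN 1) (Nat.add_le_add_right (Nat.mul_le_mul hcardIdx
              (show sz ≤ (Z ^ c + 1) ^ φ.len (m + 1) * ((φ.len (m + 1) + φ.ψ.qs + 4) * 1) + 1
                from ?_)) 1)) 1)
          rw [hsz]
          exact Nat.add_le_add_right (Nat.mul_le_mul_right _
            (Nat.pow_le_pow_left (Nat.add_le_add_right hM 1) _)) _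
      _ ≤ Z ^ E := hE Z hZ2
      _ ≤ _ := Nat.pow_le_pow_left hZb E
  have hFS : Fb n k * S ≤ b ^ sgr (d + 2) S := by
    have e1 := hFb x n (by rw [hlog, hL, hj])
    have e2 : k = (2 ^ x) ^ u := by rw [hk, hj]
    rw [← e2, ← hj] at e1
    have e3 : S ≤ 2 ^ S := (Nat.lt_pow_self (by norm_num)).le
    have hjv : 1 ≤ j ^ (v - 1) := Nat.one_le_pow _ _ hj1
    have e4 : cF * (j ^ (v - 1) * (x + 1)) + S ≤ ℓ := by
      rw [hℓ, Nat.le_div_iff_mul_le ha0]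
      calc (cF * (j ^ (v - 1) * (x + 1)) + S) * a
          ≤ (cF * (j ^ (v - 1) * (x + 1)) + S * j ^ (v - 1)) * a :=
            Nat.mul_le_mul_right _ (Nat.add_le_add_left (Nat.le_mul_of_pos_right _ hjv) _)
        _ = (a * (cF * (x + 1) + S)) * j ^ (v - 1) := by ring
        _ ≤ j * j ^ (v - 1) := Nat.mul_le_mul_right _ hj5
        _ = L := by
            rw [hL, ← pow_succ']
            congr 1
            omega
    calc Fb n k * S ≤ 2 ^ (cF * (j ^ (v - 1) * (x + 1))) * 2 ^ S := Nat.mul_le_mul e1 e3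
      _ = 2 ^ (cF * (j ^ (v - 1) * (x + 1)) + S) := by rw [pow_add]
      _ ≤ 2 ^ ℓ := Nat.pow_le_pow_right (by norm_num) e4
      _ = b := hb.symm
      _ ≤ b ^ sgr (d + 2) S := Nat.le_self_pow (by rw [← hsg]; omega) b
  have hexp : 3 * (a + 2) * E + 1 ≤ sgr (d + 2) S * S := by
    rw [← hsg]
    have e1 : a + 2 ≤ sg * (2 * D + 6) := by
      calc a + 2 = 2 * sg * D + 6 := by rw [ha, hα]
        _ ≤ 2 * sg * D + 6 * sg := by omega
        _ = sg * (2 * D + 6) := by ring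
    calc 3 * (a + 2) * E + 1 ≤ 3 * (sg * (2 * D + 6)) * E + sg :=
          Nat.add_le_add (Nat.mul_le_mul_right _ (Nat.mul_le_mul_left _ e1)) hsg1
      _ = sg * (3 * (2 * D + 6) * E + 1) := by ring
      _ ≤ sg * S := Nat.mul_le_mul_left _ (by omega)
  have hkk : k * k ≤ k ^ (d + 1) := by
    calc k * k = k ^ 2 := by ring
      _ ≤ k ^ (d + 1) := Nat.pow_le_pow_right (by omega) (by omega)
  have hLL2 : L * L ≤ L ^ (p + 3) := by
    calc L * L = L ^ 2 := by ring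
      _ ≤ L ^ (p + 3) := Nat.pow_le_pow_right hL1 (by omega)
  have hnum := failG_lt (d := d) (k := k) (b := b) (B := B) (D := D) (S := S) (E := E)
    (cG0 := (cPP * cLL) ^ m) (cX := cPP * cLL) (β := a + 2) (ζ := 3 * (a + 2))
    (m := D) (sz := T.N + 1 + (cI * sz + 1) + 1)
    (by omega) hb256 (by omega)
    (by
      have e1 : k ^ (d + 1) ≤ 2 ^ κ := by
        calc k ^ (d + 1) ≤ L ^ (d + 1) := Nat.pow_le_pow_left hkL _
          _ ≤ 2 ^ κ := by omega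
      calc (k ^ (d + 1)) ^ 2 = k ^ (d + 1) * k ^ (d + 1) := by ring
        _ ≤ 2 ^ κ * 2 ^ κ := Nat.mul_le_mul e1 e1
        _ ≤ b := hκb2)
    (by
      rw [← hsg, ← hα]
      exact le_trans (Nat.pow_le_pow_right (by omega) (by omega)) hB1)
    hB2 (by omega)
    (by
      have e1 : (a + 2) * k + (a + 2 + 3) ≤ k * k := by
        have e2 : 2 * (a + 2 + 3) ≤ k := by omega
        calc (a + 2) * k + (a + 2 + 3) ≤ (a + 2) * k + 1 * k := by omega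
          _ = (a + 3) * k := by ring
          _ ≤ k * k := Nat.mul_le_mul_right _ (by omega)
      exact e1.trans hkk)
    (by
      have e1 : (a + 2) * k + 3 ≤ L * L + 3 := by
        apply Nat.add_le_add_right
        exact Nat.mul_le_mul (by omega) hkL
      have e2 : L ^ (p + 3) * 32 ≤ cPP * cLL := by
        rw [hcPP, hcLL]
        apply Nat.mul_le_mul_left
        have : 1 ≤ L ^ (p + d + 4) := Nat.one_le_pow _ _ hL1
        omega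
      have e3 : 1 ≤ L * L := Nat.mul_pos hL1 hL1
      omega)
    (by rw [← pow_succ, ← hNd]; omega)
    (by
      rw [← hsg]
      refine le_trans (Nat.pow_le_pow_right (by norm_num) hκS) hκb1)
    hexp htotal
  rw [← hcT, ← hcX] at hnum
  have hBb : B ≤ b ^ k := hB2.trans (Nat.pow_le_pow_right (by omega) (by omega))
  have hcG : Fintype.card (Guess (s := s) (genT τ' T.M T.K n' hMn hKn)) =
      (T.M ^ s + 1) ^ T.K := by
    have : Fintype.card (Guess (s := s) (genT τ' T.M T.K n' hMn hKn)) =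
        Fintype.card (Fin T.K → Option (Fin s → Fin T.M)) := Fintype.card_congr (Equiv.refl _)
    rw [this, Fintype.card_fun, Fintype.card_option, Fintype.card_fun, Fintype.card_fin,
      Fintype.card_fin, Fintype.card_fin]
  have h2w := width_boundR (κ := κ) (w := (Lv + (2 * T.K + 1) ^ d' + 1) * S ^ (d + 2))
    hj1 hk hL rfl hCw hKq2 hpq hq (by
      rw [← hCκ]
      exact hj3)
  refine heartX (sw := C3 * L ^ (p + 1)) φ hocc T eU hcorr n' hMn hKn (Fb n k) _ hcmp2 hFS D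
    (T.N + 1 + (cI * sz + 1) + 1) le_rfl hd (by omega) hSd hBb
    hnum (Nat.mul_pos (by omega) (Nat.pow_pos (by omega))) ?_ ?_
  · calc S ^ (d + 2) ≤ C3 := by omega
      _ ≤ C3 * L ^ (p + 1) := Nat.le_mul_of_pos_right _ (Nat.pow_pos (by omega))
  · rw [hcG, hcPP, hcLL, ← hLv]
    refine ok_finalR (C1 := C1) (C3 := C3) (C4 := C4) (M := T.M) (Lv := Lv) hκ1 hκL
      (Nat.mul_pos (by omega) hSp) h2w (Nat.pow_le_pow_left hkL _) hN (by omega) (by omega)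
      (by omega) (by omega) ?_ ?_ ?_
    · rw [hC1]
      exact guess_leR hZ2 hZL hM hK2
    · intro i hi
      have h6 := card_TupJ (genT τ' T.M T.K n' hMn hKn) φ i
      simp only [h6]
      calc T.M ^ Fintype.card (Vars φ.len i) ≤ (T.M + 1) ^ Fintype.card (Vars φ.len i) :=
            Nat.pow_le_pow_left (by omega) _
        _ ≤ (T.M + 1) ^ Lv := by
            apply Nat.pow_le_pow_right (by omega)
            rw [hLv]
            exact card_Vars_mono φ.len (by omega)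
    · rw [hC4]
      exact outer_leR hZ2 hZL hM

end

end Pool.Agent.Helper265_EW.G.C2
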