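import Pool.Agent.Helper265_EW.RDefs

/-! Reductions between weighted Fagin-definable problems that are computed by leveled circuits of
size `2 ^ O(k) * n ^ O(1)` and depth `(log k + log log n) ^ O(1)` whose gates are AND and OR gates
with any number of inputs and arbitrary gates with few inputs. -/

namespace Pool.Agent.Helper265_EW

/-- A gate that reads wires from `W`: the conjunction of the wires in a set, the disjunction of the
wires in a set, or an arbitrary Boolean function of `m` wires. -/
inductive Gate (W : Type) : Type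
  | and (s : W → Prop) : Gate W
  | or (s : W → Prop) : Gate W
  | fn (m : ℕ) (w : Fin m → W) (g : (Fin m → Bool) → Bool) : Gate W

namespace Gate

variable {W : Type}

/-- The gate outputs `true`, given the values of the wires. -/
def Holds (x : W → Bool) : Gate W → Prop
  | and s => ∀ w, s w → x w = true
  | or s => ∃ w, s w ∧ x w = true
  | fn _ w g => g (fun i => x (w i)) = true

/-- The number of inputs of a gate that is neither AND nor OR. -/
def fan : Gate W → ℕ
  | and _ => 0
  | or _ => 0
  | fn m _ _ => m

end Gate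

open Classical in
/-- The values of the gates of layer `i` of a leveled circuit, on the input `x`. The gates of layer
`i + 1` are given by `C i`; they read input bits and gates of layer `i`. The gates of layer `0`
have the value `false`. -/
noncomputable def layer {J G : Type} (C : ℕ → G → Gate (J ⊕ G)) (x : J → Bool) : ℕ → G → Bool
  | 0, _ => false
  | i + 1, g => decide ((C i g).Holds (Sum.elim x (layer C x i)))

/-- A transformation from `τ`-structures with universe `{0, …, n - 1}` to pairs of a
`τ'`-structure and a number, computed by a leveled circuit with `D` layers of `N` gates each, which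
reads the tables of the input structure. The universe of the output is a subset of
`{0, …, M - 1}`: the gate `dom a` of the last layer says whether `a` belongs to it. The gate
`rel R v` says whether the relation `R` holds for the tuple `v`, and the gate `par j` says whether
the new parameter is `j`. -/
structure CTr (τ τ' : Voc) (n : ℕ) where
  N : ℕ
  D : ℕ
  cir : ℕ → Fin N → Gate (Bit τ n ⊕ Fin N)
  M : ℕ
  K : ℕ
  dom : Fin M → Fin N
  rel : ∀ R : Fin τ'.num, (Fin (τ'.ar R) → Fin M) → Fin N
  par : Fin (K + 1) → Fin N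

namespace CTr

variable {τ τ' : Voc} {n : ℕ}

/-- The value of a gate of the last layer. -/
noncomputable def val (T : CTr τ τ' n) (A : Str τ (Fin n)) (g : Fin T.N) : Bool :=
  layer T.cir (bits A) T.D g

/-- The universe of the output structure. -/
def Univ (T : CTr τ τ' n) (A : Str τ (Fin n)) : Type :=
  {a : Fin T.M // T.val A (T.dom a) = true}

/-- The output structure. -/
noncomputable def out (T : CTr τ τ' n) (A : Str τ (Fin n)) : Str τ' (T.Univ A) :=
  fun R v => T.val A (T.rel R (fun i => (v i).1))

/-- The resource bounds: with `Z = 2 ^ k * (n + 2)`, at most `Z ^ c` candidate elements, at most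
`Z ^ c` gates in each layer, at most `d` layers, the new parameter is at most `K` with
`K ^ q ≤ c * (k + log₂ (n + 1) + 1) ^ p`, that is `K = O ((k + log n) ^ (p / q))`, and the gates
that are neither AND nor OR gates have at most `F` inputs. -/
def Bounded (T : CTr τ τ' n) (p q k c d F : ℕ) : Prop :=
  T.M ≤ (2 ^ k * (n + 2)) ^ c ∧ T.N ≤ (2 ^ k * (n + 2)) ^ c ∧ T.D ≤ d ∧
  T.K ^ q ≤ c * (k + Nat.log 2 (n + 1) + 1) ^ p ∧
  ∀ i g, (T.cir i g).fan ≤ F

/-- Applied to any structure `A` with universe `{0, …, n - 1}`, the transformation names exactly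
one new parameter `j`, and it maps yes-instances `(A, k)` of the problem of `φ` to yes-instances
of the problem of `φ'` and no-instances to no-instances. -/
def Correct {s s' t t' : ℕ} (T : CTr τ τ' n) (φ : PiF τ s t) (φ' : PiF τ' s' t') (k : ℕ) : Prop :=
  ∀ A : Str τ (Fin n), ∃ j : Fin (T.K + 1),
    (∀ j', T.val A (T.par j') = true ↔ j' = j) ∧ (WDF φ A k ↔ WDF φ' (T.out A) j)

end CTr

/-- The weighted Fagin-definable problem of `φ` reduces to that of `φ'` by a reduction computed
by (nonuniform) constant-depth circuits of size `2 ^ O(k) * n ^ O(1)` with AND and OR gates with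
any number of inputs and NOT gates, whose new parameter is `O ((k + log n) ^ (p / q))`: for a
constant `c` and all `n ≥ 1` and `k ≥ 1` there is a correct transformation within these bounds. -/
def RedC (p q : ℕ) {τ τ' : Voc} {s s' t t' : ℕ} (φ : PiF τ s t) (φ' : PiF τ' s' t') : Prop :=
  ∃ c : ℕ, ∀ n k : ℕ, 1 ≤ n → 1 ≤ k →
    ∃ T : CTr τ τ' n, T.Bounded p q k c c 1 ∧ T.Correct φ φ' k

/-- The weighted Fagin-definable problem of `φ` reduces to that of `φ'` by a reduction computed
by (nonuniform) circuits of size `2 ^ O(k) * n ^ O(1)` and depth `(log k + log log n) ^ O(1)` with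
AND and OR gates with any number of inputs and with arbitrary gates with
`2 ^ O(k) * (log n) ^ O(1)` inputs, whose new parameter is `O ((k + log n) ^ (p / q))`. -/
def RedL (p q : ℕ) {τ τ' : Voc} {s s' t t' : ℕ} (φ : PiF τ s t) (φ' : PiF τ' s' t') : Prop :=
  ∃ c : ℕ, ∀ n k : ℕ, 1 ≤ n → 1 ≤ k →
    ∃ T : CTr τ τ' n, T.Bounded p q k c ((Nat.log 2 (k + Nat.log 2 (n + 1) + 1) + 1) ^ c)
      ((2 ^ k * (Nat.log 2 (n + 1) + 1)) ^ c) ∧ T.Correct φ φ' k

/-- The same as `RedC` for the weighted Fagin-definable problem of `φ` restricted to the instances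
`(A, k)` with `k ^ v = (log₂ (n + 1)) ^ u`, that is `k = (log₂ (n + 1)) ^ (u / v)`, where `n` is
the number of elements of `A` and `log₂` is rounded down. -/
def RedCAt (u v p q : ℕ) {τ τ' : Voc} {s s' t t' : ℕ} (φ : PiF τ s t) (φ' : PiF τ' s' t') :
    Prop :=
  ∃ c : ℕ, ∀ n k : ℕ, 1 ≤ n → 1 ≤ k → k ^ v = Nat.log 2 (n + 1) ^ u →
    ∃ T : CTr τ τ' n, T.Bounded p q k c c 1 ∧ T.Correct φ φ' k

/-- The same as `RedL` for the problem of `φ` restricted to the instances `(A, k)` with
`k = (log₂ (n + 1)) ^ (u / v)`, with arbitrary gates with `(k + log n) ^ O(1)` inputs. -/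
def RedLAt (u v p q : ℕ) {τ τ' : Voc} {s s' t t' : ℕ} (φ : PiF τ s t) (φ' : PiF τ' s' t') :
    Prop :=
  ∃ c : ℕ, ∀ n k : ℕ, 1 ≤ n → 1 ≤ k → k ^ v = Nat.log 2 (n + 1) ^ u →
    ∃ T : CTr τ τ' n, T.Bounded p q k c ((Nat.log 2 (k + Nat.log 2 (n + 1) + 1) + 1) ^ c)
      ((k + Nat.log 2 (n + 1) + 1) ^ c) ∧ T.Correct φ φ' k

end Pool.Agent.Helper265_EW
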