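import Pool.Agent.Helper265_EW.XLay
import Pool.Agent.Helper265_EW.TMulti

set_option linter.unusedSectionVars false

/-! Random restrictions make leveled circuits local. -/

namespace Pool.Agent.Helper265_EW.X

open Finset Classical Pool.Agent.H592R2

noncomputable section

variable {D r : ℕ} {V : Type} [Fintype V] [DecidableEq V] {τ : Type} [Fintype τ] [Nonempty τ]
  [DecidableEq τ]

/-- one gate with few inputs -/
lemma fn_local {A Mi : Finset τ} {S : ℕ} {β c u : ℝ} (hP : P1 r A Mi S β c u)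
    (mj : (Fin r → V) → (Fin r → Bool) → Bool) (i : Fin D) (m F : ℕ) (hm : m ≤ F)
    (hF : ((F * S : ℕ) : ℝ) * u ≤ 1)
    (f : Fin m → Tb r V → Bool) (q : (Fin m → Bool) → Bool) :
    avg (fun ω : Cd D r V → τ => ind
      ((∀ l, LocAt A S i.val ω (fun z => f l (rho A Mi mj i.val ω z) = true)) ∧
        ¬ LocAt A S (i.val + 1) ω (fun z => q (fun l => f l (rho A Mi mj (i.val + 1) ω z)) = true)))
      ≤ c ^ S := by
  have hS1 : 1 ≤ S := by have := hP.hS; omega
  rw [← avg_mix_adaptive (T := fun _ => τ) (Rbef A i) (Rbef_mix A i)]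
  apply avg_le_of_le
  intro a
  by_cases hE1 : ∀ l, LocAt A S i.val a (fun z => f l (rho A Mi mj i.val a z) = true)
  swap
  · refine (avg_le_of_le (c := 0) ?_).trans (pow_nonneg hP.hc _)
    intro b
    refine le_of_eq (ind_false ?_)
    rintro ⟨h, -⟩
    apply hE1
    intro l
    obtain ⟨K, hK1, hK2, hK3⟩ := h l
    refine ⟨K, hK1, fun v hv => (Al_mix A i a b v).1 (hK2 v hv), ?_⟩
    rwa [rho_mix] at hK3
  · choose K hK1 hK2 hK3 using hE1
    obtain ⟨KK, hKK⟩ : ∃ KK : Finset V, KK = Finset.univ.biUnion K := ⟨_, rfl⟩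
    have hKKc : KK.card ≤ F * S := by
      rw [hKK]
      calc (Finset.univ.biUnion K).card ≤ ∑ l, (K l).card := Finset.card_biUnion_le
        _ ≤ ∑ _l : Fin m, S := Finset.sum_le_sum fun l _ => (hK1 l).le
        _ = m * S := by rw [Finset.sum_const, smul_eq_mul, Finset.card_univ, Fintype.card_fin]
        _ ≤ F * S := Nat.mul_le_mul_right _ hm
    have hpt : ∀ b : Cd D r V → τ, ind
        ((∀ l, LocAt A S i.val (mix (T := fun _ => τ) (Rbef A i a) a b) (fun z => f l (rho A Mi mj i.val (mix (T := fun _ => τ) (Rbef A i a) a b) z) = true)) ∧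
        ¬ LocAt A S (i.val + 1) (mix (T := fun _ => τ) (Rbef A i a) a b) (fun z => q (fun l => f l (rho A Mi mj (i.val + 1) (mix (T := fun _ => τ) (Rbef A i a) a b) z)) = true)) ≤
        ∑ T ∈ Finset.powersetCard S KK, ind (∀ v ∈ T, b (Sum.inl (i, v)) ∈ A) := by
      intro b
      refine le_trans (ind_mono ?_) (ind_exists_le _ _)
      rintro ⟨-, hno⟩
      by_contra hcon
      push Not at hcon
      apply hno
      obtain ⟨K', hK'⟩ : ∃ K' : Finset V, K' = KK.filter (fun v => b (Sum.inl (i, v)) ∈ A) :=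
        ⟨_, rfl⟩
      have hmem : ∀ v, v ∈ K' ↔ v ∈ KK ∧ b (Sum.inl (i, v)) ∈ A := by
        intro v
        rw [hK', Finset.mem_filter]
      refine ⟨K', ?_, ?_, ?_⟩
      · by_contra hge
        push Not at hge
        obtain ⟨T, hT1, hT2⟩ := Finset.exists_subset_card_eq hge
        obtain ⟨v, hv, hv'⟩ := hcon T (Finset.mem_powersetCard.mpr
          ⟨fun v hv => ((hmem v).mp (hT1 hv)).1, hT2⟩)
        exact hv' ((hmem v).mp (hT1 hv)).2
      · intro v hv
        obtain ⟨h1, h2⟩ := (hmem v).mp hv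
        rw [hKK] at h1
        obtain ⟨l, -, hl⟩ := Finset.mem_biUnion.mp h1
        rw [Al_succ, Al_mix, mix_not_mem (T := fun _ => τ) (inl_not_mem_Rbef A i a v)]
        exact ⟨hK2 l v hl, h2⟩
      · have h5 : ∀ z z' : Tb r V, (∀ t : Fin r → V, (∀ j, t j ∈ K') → z t = z' t) → ∀ l,
            (f l (rho A Mi mj (i.val + 1) (mix (T := fun _ => τ) (Rbef A i a) a b) z) = true →
              f l (rho A Mi mj (i.val + 1) (mix (T := fun _ => τ) (Rbef A i a) a b) z') = true) := by
          intro z z' hzz' l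
          rw [← rho_step, ← rho_step]
          apply hK3 l
          intro t ht
          by_cases hc : ∀ j, Al A i.val a (t j) ∧ b (Sum.inl (i, t j)) ∈ A
          · simp only [inn, if_pos hc]
            apply hzz'
            intro j
            rw [hmem]
            refine ⟨?_, (hc j).2⟩
            rw [hKK]
            exact Finset.mem_biUnion.mpr ⟨l, Finset.mem_univ _, ht j⟩
          · simp only [inn, if_neg hc]
        intro z z' hzz'
        have h6 : (fun l => f l (rho A Mi mj (i.val + 1) (mix (T := fun _ => τ) (Rbef A i a) a b) z)) =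
            fun l => f l (rho A Mi mj (i.val + 1) (mix (T := fun _ => τ) (Rbef A i a) a b) z') := by
          funext l
          rw [Bool.eq_iff_iff]
          exact ⟨h5 z z' hzz' l, h5 z' z (fun t ht => (hzz' t ht).symm) l⟩
        change q (fun l => f l (rho A Mi mj (i.val + 1) (mix (T := fun _ => τ) (Rbef A i a) a b) z))
          = true → q (fun l => f l (rho A Mi mj (i.val + 1)
            (mix (T := fun _ => τ) (Rbef A i a) a b) z')) = true
        rw [h6]
        exact id
    refine (avg_mono hpt).trans ?_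
    rw [avg_sum]
    have hbox : ∀ T : Finset V, avg (fun b : Cd D r V → τ => ind (∀ v ∈ T, b (Sum.inl (i, v)) ∈ A)) =
        ((A.card : ℝ) / Fintype.card τ) ^ T.card := by
      intro T
      have h1 : (fun b : Cd D r V → τ => ind (∀ v ∈ T, b (Sum.inl (i, v)) ∈ A)) =
          fun b => ind (∀ c ∈ T.image (fun v => (Sum.inl (i, v) : Cd D r V)),
            b c ∈ (fun _ : Cd D r V => A) c) := by
        funext b
        congr 1
        simp only [Finset.mem_image, forall_exists_index, and_imp]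
        apply propext
        constructor
        · rintro h c v hv rfl; exact h v hv
        · intro h v hv; exact h _ v hv rfl
      rw [h1, avg_box, Finset.prod_const, Finset.card_image_of_injective]
      intro v v' h
      simpa using h
    have hsum : ∑ T ∈ Finset.powersetCard S KK,
        avg (fun b : Cd D r V → τ => ind (∀ v ∈ T, b (Sum.inl (i, v)) ∈ A)) =
        ((KK.card.choose S : ℕ) : ℝ) * (u * c) ^ S := by
      rw [Finset.sum_congr rfl (g := fun _ => (u * c) ^ S), Finset.sum_const,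
        Finset.card_powersetCard, nsmul_eq_mul]
      intro T hT
      rw [hbox T, (Finset.mem_powersetCard.mp hT).2, hP.hp]
    rw [hsum]
    have hch : ((KK.card.choose S : ℕ) : ℝ) ≤ ((F * S : ℕ) : ℝ) ^ S := by
      have h1 : KK.card.choose S ≤ KK.card ^ S := Nat.choose_le_pow _ _
      have h2 : KK.card ^ S ≤ (F * S) ^ S := Nat.pow_le_pow_left hKKc _
      exact_mod_cast h1.trans h2
    have hu0 : 0 ≤ u := hP.hu
    have hc0 : 0 ≤ c := hP.hc
    calc ((KK.card.choose S : ℕ) : ℝ) * (u * c) ^ S ≤ ((F * S : ℕ) : ℝ) ^ S * (u * c) ^ S :=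
          mul_le_mul_of_nonneg_right hch (pow_nonneg (mul_nonneg hu0 hc0) _)
      _ = (((F * S : ℕ) : ℝ) * u * c) ^ S := by rw [← mul_pow]; ring_nf
      _ ≤ (1 * c) ^ S := by
          apply pow_le_pow_left₀
          · exact mul_nonneg (mul_nonneg (Nat.cast_nonneg _) hu0) hc0
          · exact mul_le_mul_of_nonneg_right hF hc0
      _ = c ^ S := by rw [one_mul]

variable {J : Type} [Finite J]

/-- one gate -/
lemma gate_local {A Mi : Finset τ} {S : ℕ} {β c u : ℝ} (hP : P1 r A Mi S β c u)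
    (mj : (Fin r → V) → (Fin r → Bool) → Bool) (enc : Tb r V → (J → Bool)) (F : ℕ)
    (hF : ((F * S : ℕ) : ℝ) * u ≤ 1) (U : Finset (Fn J)) (f : Fn J) (hf : Gt1 F U f)
    (i : ℕ) (hi : i < D) :
    avg (fun ω : Cd D r V → τ => ind
      ((∀ g, Src U g → LocAt A S i ω (fun z => g (enc (rho A Mi mj i ω z)) = true)) ∧
        ¬ LocAt A S (i + 1) ω (fun z => f (enc (rho A Mi mj (i + 1) ω z)) = true))) ≤ c ^ S := by
  have hS1 : 1 ≤ S := by have := hP.hS; omega
  have hfJ : Fintype J := Fintype.ofFinite J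
  rcases hf with ⟨P, a1, a2⟩ | ⟨P, a1, a2⟩ | ⟨m, hm, w, a1, q, a2⟩
  · obtain ⟨L, hL⟩ : ∃ L : List (Fn J), L = (Finset.univ.filter P).toList := ⟨_, rfl⟩
    have hLm : ∀ g, g ∈ L ↔ P g := by
      intro g
      rw [hL, Finset.mem_toList, Finset.mem_filter]
      simp
    have h1 := round_cond A Mi mj (⟨i, hi⟩ : Fin D) (fun (g : Fn J) z => ¬ g (enc z) = true) L hS1
      hP.hβ0 hP.hβ1 hP.hA hP.hM hP.hM' hP.hc hP.hc1 hP.hu hP.hu1 hP.hp hP.huw
    refine (avg_mono fun ω => ind_mono ?_).trans h1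
    rintro ⟨h2, h3⟩
    refine ⟨fun g hg => (h2 g (a1 g ((hLm g).mp hg))).not, fun h4 => h3 ?_⟩
    refine h4.not.congr (fun z => ?_)
    rw [a2]
    constructor
    · intro h5 g hg
      by_contra h6
      exact h5 ⟨g, (hLm g).mpr hg, h6⟩
    · rintro h5 ⟨g, hg, h6⟩
      exact h6 (h5 g ((hLm g).mp hg))
  · obtain ⟨L, hL⟩ : ∃ L : List (Fn J), L = (Finset.univ.filter P).toList := ⟨_, rfl⟩
    have hLm : ∀ g, g ∈ L ↔ P g := by
      intro g
      rw [hL, Finset.mem_toList, Finset.mem_filter]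
      simp
    have h1 := round_cond A Mi mj (⟨i, hi⟩ : Fin D) (fun (g : Fn J) z => g (enc z) = true) L hS1
      hP.hβ0 hP.hβ1 hP.hA hP.hM hP.hM' hP.hc hP.hc1 hP.hu hP.hu1 hP.hp hP.huw
    refine (avg_mono fun ω => ind_mono ?_).trans h1
    rintro ⟨h2, h3⟩
    refine ⟨fun g hg => h2 g (a1 g ((hLm g).mp hg)), fun h4 => h3 ?_⟩
    refine h4.congr (fun z => ?_)
    rw [a2]
    constructor
    · rintro ⟨g, hg, h6⟩
      exact ⟨g, (hLm g).mp hg, h6⟩
    · rintro ⟨g, hg, h6⟩
      exact ⟨g, (hLm g).mpr hg, h6⟩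
  · have h1 := fn_local (D := D) hP mj ⟨i, hi⟩ m F hm hF (fun l z => w l (enc z)) q
    refine (avg_mono fun ω => ind_mono ?_).trans h1
    rintro ⟨h2, h3⟩
    refine ⟨fun l => h2 (w l) (a1 l), fun h4 => h3 ?_⟩
    refine h4.congr (fun z => ?_)
    rw [a2]

/-- the layers of a circuit -/
theorem lay_local {A Mi : Finset τ} {S : ℕ} {β c u : ℝ} (hP : P1 r A Mi S β c u)
    (mj : (Fin r → V) → (Fin r → Bool) → Bool) (enc : Tb r V → (J → Bool))
    (henc : ∀ l : J, ∃ K : Finset V, K.card < S ∧ Loc K (fun z => enc z l = true))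
    (F N D' : ℕ) (hF : ((F * S : ℕ) : ℝ) * u ≤ 1) (U : ℕ → Finset (Fn J))
    (hU1 : ∀ i, (U i).card ≤ N) (hU2 : U 0 = {fun _ => false})
    (hU3 : ∀ i, i < D' → ∀ g ∈ U (i + 1), Gt1 F (U i) g) :
    ∀ i : ℕ, i ≤ D' → i ≤ D →
      avg (fun ω : Cd D r V → τ => ind (∃ f ∈ U i, ¬ LocAt A S i ω
        (fun z => f (enc (rho A Mi mj i ω z)) = true))) ≤ ((i * N : ℕ) : ℝ) * c ^ S := by
  have hS1 : 1 ≤ S := by have := hP.hS; omega
  intro i
  induction i with
  | zero =>
    intro _ _
    have : (fun ω : Cd D r V → τ => ind (∃ f ∈ U 0, ¬ LocAt A S 0 ω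
        (fun z => f (enc (rho A Mi mj 0 ω z)) = true))) = fun _ => (0 : ℝ) := by
      funext ω
      apply ind_false
      rintro ⟨f, hf, h⟩
      rw [hU2, Finset.mem_singleton] at hf
      subst hf
      apply h
      refine ⟨∅, by simp; omega, by simp, ?_⟩
      intro z z' _ h
      exact h
    rw [this, avg_const]
    simp
  | succ i ih =>
    intro hiD' hiD
    have ih' := ih (by omega) (by omega)
    have hsrc : ∀ ω : Cd D r V → τ, (¬ ∃ f ∈ U i, ¬ LocAt A S i ω
        (fun z => f (enc (rho A Mi mj i ω z)) = true)) →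
        ∀ g, Src (U i) g → LocAt A S i ω (fun z => g (enc (rho A Mi mj i ω z)) = true) := by
      intro ω h g hg
      rcases hg with hg | ⟨j, rfl⟩
      · by_contra h'
        exact h ⟨g, hg, h'⟩
      · obtain ⟨K, hK, hKl⟩ := henc j
        exact LocAt_of_Loc A Mi mj (i := i) (by omega) ω hK hKl
    have hpt : ∀ ω : Cd D r V → τ, ind (∃ f ∈ U (i + 1), ¬ LocAt A S (i + 1) ω
        (fun z => f (enc (rho A Mi mj (i + 1) ω z)) = true)) ≤
        ind (∃ f ∈ U i, ¬ LocAt A S i ω (fun z => f (enc (rho A Mi mj i ω z)) = true)) +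
        ∑ f ∈ U (i + 1), ind
          ((∀ g, Src (U i) g → LocAt A S i ω (fun z => g (enc (rho A Mi mj i ω z)) = true)) ∧
          ¬ LocAt A S (i + 1) ω (fun z => f (enc (rho A Mi mj (i + 1) ω z)) = true)) := by
      intro ω
      by_cases hb : ∃ f ∈ U i, ¬ LocAt A S i ω (fun z => f (enc (rho A Mi mj i ω z)) = true)
      · rw [ind_true hb]
        have h0 : 0 ≤ ∑ f ∈ U (i + 1), ind
          ((∀ g, Src (U i) g → LocAt A S i ω (fun z => g (enc (rho A Mi mj i ω z)) = true)) ∧
          ¬ LocAt A S (i + 1) ω (fun z => f (enc (rho A Mi mj (i + 1) ω z)) = true)) :=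
          Finset.sum_nonneg fun _ _ => ind_nonneg _
        have := ind_le_one (∃ f ∈ U (i + 1), ¬ LocAt A S (i + 1) ω
          (fun z => f (enc (rho A Mi mj (i + 1) ω z)) = true))
        linarith
      · rw [ind_false hb, zero_add]
        refine le_trans (ind_mono ?_) (ind_exists_le _ _)
        rintro ⟨f, hf, h⟩
        exact ⟨f, hf, hsrc ω hb, h⟩
    refine (avg_mono hpt).trans ?_
    rw [avg_add, avg_sum]
    have h1 : ∑ f ∈ U (i + 1), avg (fun ω : Cd D r V → τ => ind
          ((∀ g, Src (U i) g → LocAt A S i ω (fun z => g (enc (rho A Mi mj i ω z)) = true)) ∧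
          ¬ LocAt A S (i + 1) ω (fun z => f (enc (rho A Mi mj (i + 1) ω z)) = true))) ≤
        ∑ _f ∈ U (i + 1), c ^ S :=
      Finset.sum_le_sum fun f hf => gate_local hP mj enc F hF (U i) f
        (hU3 i (by omega) f hf) i (by omega)
    rw [Finset.sum_const, nsmul_eq_mul] at h1
    have h2 : ((U (i + 1)).card : ℝ) * c ^ S ≤ (N : ℝ) * c ^ S :=
      mul_le_mul_of_nonneg_right (by exact_mod_cast hU1 _) (pow_nonneg hP.hc _)
    have h3 : (((i + 1) * N : ℕ) : ℝ) * c ^ S = ((i * N : ℕ) : ℝ) * c ^ S + (N : ℝ) * c ^ S := by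
      push_cast
      ring
    rw [h3]
    exact add_le_add ih' (h1.trans h2)

/-- families computed by circuits -/
theorem cmp_local {A Mi : Finset τ} {S : ℕ} {β c u : ℝ} (hP : P1 r A Mi S β c u)
    (mj : (Fin r → V) → (Fin r → Bool) → Bool) (enc : Tb r V → (J → Bool))
    (henc : ∀ l : J, ∃ K : Finset V, K.card < S ∧ Loc K (fun z => enc z l = true))
    (F N : ℕ) (hF : ((F * S : ℕ) : ℝ) * u ≤ 1) {ι : Type} (f : ι → Fn J) (hf : Cmp F N D f) :
    avg (fun ω : Cd D r V → τ => ind (∃ a, ¬ LocAt A S D ω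
        (fun z => f a (enc (rho A Mi mj D ω z)) = true))) ≤ ((D * N : ℕ) : ℝ) * c ^ S := by
  obtain ⟨U, h1, h2, h3, h4⟩ := hf
  refine (avg_mono fun ω => ind_mono ?_).trans
    (lay_local hP mj enc henc F N D hF U h1 h2 h3 D le_rfl le_rfl)
  rintro ⟨a, ha⟩
  exact ⟨f a, h4 a, ha⟩

end

end Pool.Agent.Helper265_EW.X
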