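import Pool.Agent.Helper265_EW.GFinal
import Pool.Agent.Helper265_EW.LMain
import Pool.Agent.Helper265_EW.XLoc

set_option linter.unusedSectionVars false

/-! The good events have positive probability, for abstract families of local functions. -/

namespace Pool.Agent.Helper265_EW.G.C2

open Finset Classical Pool.Agent.H592R2 Pool.Agent.Helper265_EW.X

noncomputable section

/-- the bound on the probability that a family is not local -/
def LocFail (d D S b : ℕ) [NeZero b] {V : Type} [Fintype V] [DecidableEq V] {Ix : Type}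
    (mjv : (Fin (d + 2) → V) → (Fin (d + 2) → Bool) → Bool)
    (F : Ix → Tb (d + 2) V → Prop) (mm sz : ℕ) : Prop :=
  avg (fun ω : Cd D (d + 2) V → Ta b (d + 2) S =>
      ind (∃ i : Ix, ¬ LocAt (As b (d + 2) S) S D ω
        (fun z => F i (rho (As b (d + 2) S) (Ms b (d + 2) S) mjv D ω z)))) ≤
      mm * (sz * ((2 / (b : ℝ)) ^ sgr (d + 2) S) ^ S)

lemma locFail_of_cmp {d D S b : ℕ} [NeZero b] {V : Type} [Fintype V] [DecidableEq V] {Ix : Type}
    {J : Type} [Finite J] (mjv : (Fin (d + 2) → V) → (Fin (d + 2) → Bool) → Bool)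
    (enc : Tb (d + 2) V → J → Bool)
    (henc : ∀ l, ∃ K : Finset V, K.card ≤ d + 2 ∧ Loc K (fun z => enc z l = true))
    (F : Ix → Fn J) (Fa N : ℕ)
    (hF : Cmp Fa N D F) (hFS : Fa * S ≤ b ^ sgr (d + 2) S) (mm sz : ℕ) (hms : D * N ≤ mm * sz)
    (hb : 2 ≤ b) (hS : d + 2 < S) :
    LocFail d D S b mjv (fun i z => F i (enc z) = true) mm sz := by
  have hP := P1r_inst (b := b) (r := d + 2) (S := S) hb (by omega) hS
  have hb0 : (0 : ℝ) < b := by exact_mod_cast (by omega : 0 < b)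
  unfold LocFail
  refine (cmp_local hP mjv enc (fun l => ?_) Fa N ?_ F hF).trans ?_
  · obtain ⟨K, hK, hl⟩ := henc l
    exact ⟨K, by omega, hl⟩
  · have h1 : ((Fa * S : ℕ) : ℝ) ≤ (b : ℝ) ^ sgr (d + 2) S := by exact_mod_cast hFS
    have h2 : (1 : ℝ) ≤ 2 ^ sgr (d + 2) S := one_le_pow₀ (by norm_num)
    have h3 : (0 : ℝ) < (b : ℝ) ^ sgr (d + 2) S := by positivity
    rw [mul_one_div, div_le_one (mul_pos h3 (by linarith))]
    calc ((Fa * S : ℕ) : ℝ) ≤ (b : ℝ) ^ sgr (d + 2) S * 1 := by rw [mul_one]; exact h1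
      _ ≤ (b : ℝ) ^ sgr (d + 2) S * 2 ^ sgr (d + 2) S := mul_le_mul_of_nonneg_left h2 h3.le
  · rw [← mul_assoc]
    apply mul_le_mul_of_nonneg_right
    · exact_mod_cast hms
    · positivity

variable {d k B D S b : ℕ} {G0 X : Type} [Fintype G0] [DecidableEq G0] [Fintype X] [DecidableEq X]
  [NeZero b] [NeZero B] [NeZero k]

theorem good_E {Ix : Type} (F : Ix → Tb (d + 2) (Vt k (G0 × X) B) → Prop) (mm sz : ℕ)
    (hloc : LocFail d D S b (V := Vt k (G0 × X) B) (mj true) F mm sz)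
    (hd : 1 ≤ d) (hb : 2 ≤ b) (hS : d + 2 < S)
    (hnum : failG d k B D S b (Fintype.card G0) (Fintype.card X) mm sz < 1) :
    ∃ ω : Cd D (d + 2) (Vt k (G0 × X) B) → Ta b (d + 2) S,
      GoodE (As b (d + 2) S) (Ms b (d + 2) S) ω ∧
      ∀ i, LocAt (As b (d + 2) S) S D ω
        (fun z => F i (rho (As b (d + 2) S) (Ms b (d + 2) S) (mj true) D ω z)) := by
  have hAp : ((As b (d + 2) S).card : ℝ) / Fintype.card (Ta b (d + 2) S) =
    1 / (b : ℝ) ^ (2 * sgr (d + 2) S) := As_prob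
  have hp0 : 0 ≤ (1 - (1 / (b : ℝ) ^ (2 * sgr (d + 2) S)) ^ D) ^ B :=
    pow_nonneg (one_sub_nonneg hb) _
  have hk1 : (1 : ℝ) ≤ k := by exact_mod_cast Nat.one_le_iff_ne_zero.mpr (NeZero.ne k)
  have hB1 : (1 : ℝ) ≤ B := by exact_mod_cast Nat.one_le_iff_ne_zero.mpr (NeZero.ne B)
  -- the events
  have e1 := status_bound (D := D) (b := b) (d := d) (S := S) (B := B) (V := Vt k (G0 × X) B)
    (fun (i : Fin k) c => (Sum.inr (i, c) : Vt k (G0 × X) B))
    (fun i c c' h => by simpa using h) (fun _ => As b (d + 2) S) (fun _ => hAp.ge)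
  have e2 := status_bound (D := D) (b := b) (d := d) (S := S) (B := B) (V := Vt k (G0 × X) B)
    (fun (g : G0 × X) c => (Sum.inl (0, g, c) : Vt k (G0 × X) B))
    (fun i c c' h => by simpa using h) (fun _ => As b (d + 2) S) (fun _ => hAp.ge)
  have e5 := status_bound (D := D) (b := b) (d := d) (S := S) (B := B) (V := Vt k (G0 × X) B)
    (fun (x : Fin k × (G0 × X)) c => (Sum.inl (x.1, x.2, c) : Vt k (G0 × X) B))
    (fun i c c' h => by simpa using h) (fun j => lastB (As b (d + 2) S) j)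
    (fun j => As_half hb hS j)
  have e3 := coin_bound (D := D) (b := b) (d := d) (S := S) (V := Vt k (G0 × X) B)
    hb hS (fun (x : Fin k × (G0 × X) × Fin B) st (j : Fin k) =>
      tup4 (pv (As b (d + 2) S) st) x (cc x.1 j))
    (fun x st j j' h => (cc_inj hd (tup4_c_inj _ _ h)).2)
  have e4 := coin_bound (D := D) (b := b) (d := d) (S := S) (V := Vt k (G0 × X) B)
    hb hS (fun (y : (Fin k → Fin B) × Fin k × G0 × (X → (Fin (d + 1) → Fin k))) st (x : X) =>
      tup4 y.1 (y.2.1, (y.2.2.1, x), lr (As b (d + 2) S) st y.2.1 (y.2.2.1, x)) (y.2.2.2 x))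
    (fun y st x x' h => by
      have h2 := congrFun h 0
      simp only [tup4, Fin.cons_zero, Sum.inl.injEq, Prod.mk.injEq] at h2
      exact h2.2.1.2)
  have e6 := hloc
  unfold LocFail at e6
  obtain ⟨ω, a1, a2, a3, a4, a5, a6⟩ := combine6 ⟨fun _ => 0⟩ e1 e2 e5 e3 e4 e6 (by
    simp only [Fintype.card_prod, Fintype.card_fun, Fintype.card_fin]
    push_cast
    refine lt_of_le_of_lt ?_ hnum
    unfold failG
    have hG : (0 : ℝ) ≤ (Fintype.card G0 : ℝ) * Fintype.card X := by positivity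
    have t1 : (k : ℝ) * (1 - (1 / (b : ℝ) ^ (2 * sgr (d + 2) S)) ^ D) ^ B +
        (Fintype.card G0 * Fintype.card X) *
          (1 - (1 / (b : ℝ) ^ (2 * sgr (d + 2) S)) ^ D) ^ B +
        (k * (Fintype.card G0 * Fintype.card X)) *
          (1 - (1 / (b : ℝ) ^ (2 * sgr (d + 2) S)) ^ D) ^ B ≤
        ((k : ℝ) + 2 * k * (Fintype.card G0 * Fintype.card X)) *
          (1 - (1 / (b : ℝ) ^ (2 * sgr (d + 2) S)) ^ D) ^ B := by
      rw [← add_mul, ← add_mul]
      apply mul_le_mul_of_nonneg_right _ hp0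
      nlinarith
    have t3 : (k * (Fintype.card G0 * Fintype.card X * B)) * (1 / (b : ℝ)) ^ k ≤
        (2 : ℝ) ^ k * ((k * (Fintype.card G0 * Fintype.card X) * B) *
          (B * (1 / (b : ℝ)) ^ k)) := by
      have h2 : (1 : ℝ) ≤ 2 ^ k := one_le_pow₀ (by norm_num)
      have h3 : (0 : ℝ) ≤ (k * (Fintype.card G0 * Fintype.card X * B)) * (1 / (b : ℝ)) ^ k := by
        positivity
      calc (k * (Fintype.card G0 * Fintype.card X * B)) * (1 / (b : ℝ)) ^ k
          = 1 * (1 * ((k * (Fintype.card G0 * Fintype.card X * B)) * (1 / (b : ℝ)) ^ k)) := by ring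
        _ ≤ 2 ^ k * (B * ((k * (Fintype.card G0 * Fintype.card X * B)) * (1 / (b : ℝ)) ^ k)) := by
            apply mul_le_mul h2 _ (by positivity) (by positivity)
            exact mul_le_mul_of_nonneg_right hB1 h3
        _ = _ := by ring
    have t5 : (0 : ℝ) ≤ ((B : ℝ) ^ k * (k * (Fintype.card G0 * Fintype.card X) * B)) *
        (1 / (b : ℝ)) ^ (k ^ (d + 1)) := by positivity
    linarith)
  push Not at a1 a2 a3 a4 a5 a6
  refine ⟨ω, ⟨a1, a2, fun i g => a3 (i, g), ?_, ?_⟩, a6⟩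
  · intro x
    obtain ⟨j, hj⟩ := a4 x
    exact ⟨j, hj⟩
  · intro u i g
    by_contra hcon
    push Not at hcon
    choose f hf using hcon
    obtain ⟨x, hx⟩ := a5 (u, i, g, f)
    exact hx (hf x)

theorem good_O {Ix : Type} (F : Ix → Tb (d + 2) (Vt k (G0 × X) B) → Prop) (mm sz : ℕ)
    (hloc : LocFail d D S b (V := Vt k (G0 × X) B) (mj false) F mm sz)
    (hd : 1 ≤ d) (hb : 2 ≤ b) (hS : d + 2 < S) (hBb : B ≤ b ^ k)
    (hnum : failG d k B D S b (Fintype.card G0) (Fintype.card X) mm sz < 1) :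
    ∃ ω : Cd D (d + 2) (Vt k (G0 × X) B) → Ta b (d + 2) S,
      GoodO (As b (d + 2) S) (Ms b (d + 2) S) ω ∧
      ∀ i, LocAt (As b (d + 2) S) S D ω
        (fun z => F i (rho (As b (d + 2) S) (Ms b (d + 2) S) (mj false) D ω z)) := by
  have hAp : ((As b (d + 2) S).card : ℝ) / Fintype.card (Ta b (d + 2) S) =
    1 / (b : ℝ) ^ (2 * sgr (d + 2) S) := As_prob
  have hp0 : 0 ≤ (1 - (1 / (b : ℝ) ^ (2 * sgr (d + 2) S)) ^ D) ^ B :=
    pow_nonneg (one_sub_nonneg hb) _
  have hb0 : (0 : ℝ) < b := by exact_mod_cast (by omega : 0 < b)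
  have hk1 : (1 : ℝ) ≤ k := by exact_mod_cast Nat.one_le_iff_ne_zero.mpr (NeZero.ne k)
  have hB1 : (1 : ℝ) ≤ B := by exact_mod_cast Nat.one_le_iff_ne_zero.mpr (NeZero.ne B)
  -- the events
  have e1 := status_bound (D := D) (b := b) (d := d) (S := S) (B := B) (V := Vt k (G0 × X) B)
    (fun (i : Fin k) c => (Sum.inr (i, c) : Vt k (G0 × X) B))
    (fun i c c' h => by simpa using h) (fun _ => As b (d + 2) S) (fun _ => hAp.ge)
  have e2 := status_bound (D := D) (b := b) (d := d) (S := S) (B := B) (V := Vt k (G0 × X) B)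
    (fun (g : G0 × X) c => (Sum.inl (0, g, c) : Vt k (G0 × X) B))
    (fun i c c' h => by simpa using h) (fun _ => As b (d + 2) S) (fun _ => hAp.ge)
  have e3 := coin_bound (D := D) (b := b) (d := d) (S := S) (V := Vt k (G0 × X) B)
    hb hS (fun (y : (Fin k → Fin B) × (Fin k × (G0 × X) × Fin B)) st
      (c : Fin (d + 1) → Fin k) => tup4 y.1 y.2 c)
    (fun x st j j' h => tup4_c_inj _ _ h)
  have e4 := coin_bound2 (D := D) (b := b) (d := d) (S := S) (V := Vt k (G0 × X) B)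
    (I1 := {Dd : Finset (Fin k) // Dd.Nonempty})
    (Ix := fun Dd => (Dd.1 → Fin B) × (Fin k × (G0 × X) × Fin B)) (Y := fun Dd => Dd.1 × Fin k)
    hb hS (fun Dd y st e =>
      tup4 (mixu Dd.1 (fun i => if h : i ∈ Dd.1 then y.1 ⟨i, h⟩ else 0)
        (pv (As b (d + 2) S) st)) y.2 (cc e.1.1 e.2))
    (fun Dd y st e e' h => by
      have h2 := cc_inj hd (tup4_c_inj _ _ h)
      exact Prod.ext (Subtype.ext h2.1) h2.2)
    ((k * (Fintype.card G0 * Fintype.card X) * B) * (B * (1 / (b : ℝ)) ^ k)) (fun Dd => by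
      have h2 : Fintype.card (Dd.1 → Fin B) = B ^ Dd.1.card := by
        rw [Fintype.card_fun, Fintype.card_fin, Fintype.card_coe]
      have h3 : Fintype.card (Dd.1 × Fin k) = Dd.1.card * k := by
        rw [Fintype.card_prod, Fintype.card_coe, Fintype.card_fin]
      rw [h3, Fintype.card_prod, h2, Fintype.card_prod, Fintype.card_prod, Fintype.card_prod,
        Fintype.card_fin, Fintype.card_fin]
      push_cast
      have h4 : ((B : ℝ) * (1 / (b : ℝ)) ^ k) ≤ 1 := by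
        have : (B : ℝ) ≤ (b : ℝ) ^ k := by exact_mod_cast hBb
        rw [one_div, inv_pow, ← div_eq_mul_inv, div_le_one (by positivity)]
        exact this
      have h5 : ((B : ℝ) * (1 / (b : ℝ)) ^ k) ^ Dd.1.card ≤ (B : ℝ) * (1 / (b : ℝ)) ^ k := by
        apply pow_le_of_le_one (by positivity) h4
        exact (Finset.card_pos.mpr Dd.2).ne'
      calc (B : ℝ) ^ Dd.1.card * (k * (Fintype.card G0 * Fintype.card X * B)) *
            (1 / (b : ℝ)) ^ (Dd.1.card * k)
          = (k * (Fintype.card G0 * Fintype.card X) * B) *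
            ((B : ℝ) * (1 / (b : ℝ)) ^ k) ^ Dd.1.card := by
            rw [mul_pow, ← pow_mul, mul_comm k Dd.1.card]; ring
        _ ≤ _ := mul_le_mul_of_nonneg_left h5 (by positivity))
  have e6 := hloc
  unfold LocFail at e6
  obtain ⟨ω, a1, a2, a3, a4, a5⟩ := combine5 ⟨fun _ => 0⟩ e1 e2 e3 e4 e6 (by
    simp only [Fintype.card_prod, Fintype.card_fun, Fintype.card_fin]
    push_cast
    refine lt_of_le_of_lt ?_ hnum
    unfold failG
    have hG : (0 : ℝ) ≤ (Fintype.card G0 : ℝ) * Fintype.card X := by positivity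
    have t1 : (k : ℝ) * (1 - (1 / (b : ℝ) ^ (2 * sgr (d + 2) S)) ^ D) ^ B +
        (Fintype.card G0 * Fintype.card X) *
          (1 - (1 / (b : ℝ) ^ (2 * sgr (d + 2) S)) ^ D) ^ B ≤
        ((k : ℝ) + 2 * k * (Fintype.card G0 * Fintype.card X)) *
          (1 - (1 / (b : ℝ) ^ (2 * sgr (d + 2) S)) ^ D) ^ B := by
      rw [← add_mul]
      apply mul_le_mul_of_nonneg_right _ hp0
      nlinarith
    have t3 : (B : ℝ) ^ k * (k * (Fintype.card G0 * Fintype.card X * B)) *
        (1 / (b : ℝ)) ^ (k ^ (d + 1)) ≤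
        ((B : ℝ) ^ k * (k * (Fintype.card G0 * Fintype.card X) * B)) *
          (1 / (b : ℝ)) ^ (k ^ (d + 1)) := by
      apply le_of_eq; ring
    have t4 : (Fintype.card {Dd : Finset (Fin k) // Dd.Nonempty} : ℝ) *
        ((k * (Fintype.card G0 * Fintype.card X) * B) * (B * (1 / (b : ℝ)) ^ k)) ≤
        (2 : ℝ) ^ k * ((k * (Fintype.card G0 * Fintype.card X) * B) *
          (B * (1 / (b : ℝ)) ^ k)) := by
      apply mul_le_mul_of_nonneg_right _ (by positivity)
      have h1 : Fintype.card {Dd : Finset (Fin k) // Dd.Nonempty} ≤ 2 ^ k := by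
        calc _ ≤ Fintype.card (Finset (Fin k)) := Fintype.card_subtype_le _
          _ = 2 ^ k := by rw [Fintype.card_finset, Fintype.card_fin]
      exact_mod_cast h1
    have t5 : (0 : ℝ) ≤ ((B : ℝ) ^ k * (k * (Fintype.card G0 *
        ((k : ℝ) ^ (d + 1)) ^ Fintype.card X))) * (1 / (b : ℝ)) ^ Fintype.card X := by positivity
    linarith)
  push Not at a1 a2 a3 a4 a5
  refine ⟨ω, ⟨a1, a2, ?_, ?_⟩, a5⟩
  · intro u x
    obtain ⟨j, hj⟩ := a3 (u, x)
    exact ⟨j, hj⟩
  · intro Dd u x hDd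
    obtain ⟨⟨i, j⟩, hj⟩ := a4 ⟨Dd, hDd⟩ (fun i => u i.1, x)
    refine ⟨i.1, i.2, j, ?_⟩
    have hmix : mixu Dd u (pv (As b (d + 2) S) (sts ω)) = mixu Dd (fun i => if h : i ∈ Dd then
        (fun i : Dd => u i.1) ⟨i, h⟩ else 0) (pv (As b (d + 2) S) (sts ω)) := by
      funext l
      simp only [mixu]
      split_ifs <;> rfl
    rw [hmix]
    exact hj


/-- the planted inputs -/
lemma src_claim {d k B D S b m n : ℕ} [NeZero b] [NeZero B] [NeZero k] {X : Type} [Fintype X]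
    [DecidableEq X] [Nonempty X] {Ix : Type}
    (eU : Un k (Tup (fun _ => X) m) X B ≃ Fin n) (F : Ix → Fn (Bit (srcVt m d) n)) (Fa N : ℕ)
    (hF : Cmp Fa N D F) (hFS : Fa * S ≤ b ^ sgr (d + 2) S) (mm sz : ℕ) (hms : D * N ≤ mm * sz)
    (hd : 1 ≤ d) (hb : 2 ≤ b) (hS : d + 2 < S) (hBb : B ≤ b ^ k)
    (hnum : failG d k B D S b (Fintype.card (Tup (fun _ => X) m)) (Fintype.card X)
      mm sz < 1) :
    ∃ zq : (Tup (fun _ => X) (m + 1) → (Fin (d + 1) → Fin k) → Bool) →
        Tb (d + 2) (Vt k (Tup (fun _ => X) m × X) B),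
      (∀ q, WDF (srcFt (decide (m % 2 = 0)) m d) (strS (decide (m % 2 = 0)) eU (zq q)) k ↔
        alt (fun _ => X) (m + 1) (fun v => lev (m + 1) (fun c => q v c = true))) ∧
      ∀ i, ∃ Q : Finset (Tup (fun _ => X) (m + 1) × (Fin (d + 1) → Fin k)),
        Q.card ≤ S ^ (d + 2) ∧ ∀ q q' : Tup (fun _ => X) (m + 1) → (Fin (d + 1) → Fin k) → Bool,
          (∀ e ∈ Q, q e.1 e.2 = q' e.1 e.2) →
          ((F i (bits (strS (decide (m % 2 = 0)) eU (zq q))) = true) ↔
            (F i (bits (strS (decide (m % 2 = 0)) eU (zq q'))) = true)) := by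
  have hne : Nonempty (Tup (fun _ => X) m) := nonempty_Tup (fun _ => inferInstance) m
  have hloc : ∀ (ev : Bool) (mjv : (Fin (d + 2) → Vt k (Tup (fun _ => X) m × X) B) →
      (Fin (d + 2) → Bool) → Bool), LocFail d D S b mjv
        (fun (i : Ix) z => F i (bits (strS ev eU z)) = true) mm sz := fun ev mjv =>
    locFail_of_cmp mjv (fun z => bits (strS ev eU z)) (encS_local (d := d) ev eU) F Fa N hF hFS
      mm sz hms hb hS
  rcases Nat.mod_two_eq_zero_or_one m with hm | hm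
  · have hdec : decide (m % 2 = 0) = true := decide_eq_true hm
    obtain ⟨ω, hG, hL⟩ := good_E (G0 := Tup (fun _ => X) m) (X := X)
      (fun i z => F i (bits (strS (decide (m % 2 = 0)) eU z)) = true) mm sz
      (hloc _ _) hd hb hS hnum
    rw [hdec] at hL ⊢
    refine ⟨fun q => rho (As b (d + 2) S) (Ms b (d + 2) S) (mj true) D ω
      (emb true (pv (As b (d + 2) S) (sts ω)) (pr (As b (d + 2) S) (sts ω)) q), ?_, ?_⟩
    · intro q
      rw [← src_even hm (As b (d + 2) S) (Ms b (d + 2) S) ω hG q]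
      exact WDF_equiv eU (srcFt true m d) (strU true (rho (As b (d + 2) S) (Ms b (d + 2) S)
        (mj true) D ω (emb true (pv (As b (d + 2) S) (sts ω)) (pr (As b (d + 2) S) (sts ω)) q))) k
    · intro i
      obtain ⟨K, hK, -, hloc⟩ := hL i
      obtain ⟨Q, hQ, hQd⟩ := dep_of_loc true (pv (As b (d + 2) S) (sts ω))
        (pr (As b (d + 2) S) (sts ω)) hloc
      exact ⟨Q, hQ.trans (Nat.pow_le_pow_left hK.le _), hQd⟩
  · have hdec : decide (m % 2 = 0) = false := decide_eq_false (by omega)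
    obtain ⟨ω, hG, hL⟩ := good_O (G0 := Tup (fun _ => X) m) (X := X)
      (fun i z => F i (bits (strS (decide (m % 2 = 0)) eU z)) = true) mm sz
      (hloc _ _) hd hb hS hBb hnum
    rw [hdec] at hL ⊢
    refine ⟨fun q => rho (As b (d + 2) S) (Ms b (d + 2) S) (mj false) D ω
      (emb false (pv (As b (d + 2) S) (sts ω)) (pr (As b (d + 2) S) (sts ω)) q), ?_, ?_⟩
    · intro q
      rw [← src_odd hd hm (As b (d + 2) S) (Ms b (d + 2) S) ω hG q]
      exact WDF_equiv eU (srcFt false m d) (strU false (rho (As b (d + 2) S) (Ms b (d + 2) S)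
        (mj false) D ω (emb false (pv (As b (d + 2) S) (sts ω)) (pr (As b (d + 2) S) (sts ω)) q)))
        k
    · intro i
      obtain ⟨K, hK, -, hloc⟩ := hL i
      obtain ⟨Q, hQ, hQd⟩ := dep_of_loc false (pv (As b (d + 2) S) (sts ω))
        (pr (As b (d + 2) S) (sts ω)) hloc
      exact ⟨Q, hQ.trans (Nat.pow_le_pow_left hK.le _), hQd⟩

end

end Pool.Agent.Helper265_EW.G.C2
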