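import Pool.Agent.Helper265_EW.XEv

set_option linter.unusedSectionVars false

/-! The output of a circuit as a structure over an auxiliary vocabulary. -/

namespace Pool.Agent.Helper265_EW.X

open Finset Classical

noncomputable section

/-- relations for the domain, the parameter and the relations of `τ'` -/
def outVoc (τ' : Voc) : Voc where
  num := τ'.num + 2
  ar := Fin.cases 1 (Fin.cases 1 (fun R => τ'.ar R))

/-- the generic transformation -/
def genT (τ' : Voc) (M K n' : ℕ) (hM : M ≤ n') (hK : K + 1 ≤ n') : Tr (outVoc τ') τ' n' where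
  M := M
  K := K
  dom := fun a => Fm.lit ⟨(0 : Fin (τ'.num + 2)), fun _ => Fin.castLE hM a⟩ true
  rel := fun R v => Fm.lit ⟨(R.succ.succ : Fin (τ'.num + 2)), fun i => Fin.castLE hM (v i)⟩ true
  par := fun j => Fm.lit ⟨((0 : Fin (τ'.num + 1)).succ : Fin (τ'.num + 2)),
    fun _ => Fin.castLE hK j⟩ true

variable {τ τ' : Voc} {n : ℕ} (T : CTr τ τ' n) (n' : ℕ)

/-- the gate of a bit -/
def ogR : (R : Fin (outVoc τ').num) → (Fin ((outVoc τ').ar R) → Fin n') → Option (Fin T.N) :=
  Fin.cases (motive := fun R : Fin (τ'.num + 2) =>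
      (Fin ((outVoc τ').ar R) → Fin n') → Option (Fin T.N))
    (fun w => if h : (w (0 : Fin 1)).val < T.M then some (T.dom ⟨_, h⟩) else none)
    (Fin.cases (motive := fun R : Fin (τ'.num + 1) =>
        (Fin ((outVoc τ').ar R.succ) → Fin n') → Option (Fin T.N))
      (fun w => if h : (w (0 : Fin 1)).val < T.K + 1 then some (T.par ⟨_, h⟩) else none)
      (fun R w => if h : ∀ i : Fin (τ'.ar R), (w i).val < T.M then
        some (T.rel R (fun i => ⟨(w i).val, h i⟩)) else none))

/-- the structure of the values of the gates -/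
def starX (x : Bit τ n → Bool) : Str (outVoc τ') (Fin n') := fun R w =>
  match ogR T n' R w with
  | none => false
  | some g => layer T.cir x T.D g

lemma star_dom (hM : T.M ≤ n') (x : Bit τ n → Bool) (a : Fin T.M) :
    bits (starX T n' x) ⟨(0 : Fin (τ'.num + 2)), fun _ => Fin.castLE hM a⟩ =
      layer T.cir x T.D (T.dom a) := by
  have h : ogR T n' (0 : Fin (τ'.num + 2)) (fun _ => Fin.castLE hM a) = some (T.dom a) := by
    change (if h : (Fin.castLE hM a).val < T.M then some (T.dom ⟨_, h⟩) else none) = _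
    rw [dif_pos (by simp)]
    rfl
  simp only [bits, starX]
  rw [h]

lemma star_par (hK : T.K + 1 ≤ n') (x : Bit τ n → Bool) (j : Fin (T.K + 1)) :
    bits (starX T n' x) ⟨((0 : Fin (τ'.num + 1)).succ : Fin (τ'.num + 2)),
      fun _ => Fin.castLE hK j⟩ = layer T.cir x T.D (T.par j) := by
  have h : ogR T n' ((0 : Fin (τ'.num + 1)).succ : Fin (τ'.num + 2))
      (fun _ => Fin.castLE hK j) = some (T.par j) := by
    change (if h : (Fin.castLE hK j).val < T.K + 1 then some (T.par ⟨_, h⟩) else none) = _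
    rw [dif_pos (by simpa using j.2)]
    rfl
  simp only [bits, starX]
  rw [h]

lemma star_rel (hM : T.M ≤ n') (x : Bit τ n → Bool) (R : Fin τ'.num)
    (v : Fin (τ'.ar R) → Fin T.M) :
    bits (starX T n' x) ⟨(R.succ.succ : Fin (τ'.num + 2)), fun i => Fin.castLE hM (v i)⟩ =
      layer T.cir x T.D (T.rel R v) := by
  have h : ogR T n' (R.succ.succ : Fin (τ'.num + 2)) (fun i => Fin.castLE hM (v i)) =
      some (T.rel R v) := by
    change (if h : ∀ i : Fin (τ'.ar R), (Fin.castLE hM (v i)).val < T.M then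
        some (T.rel R (fun i => ⟨(Fin.castLE hM (v i)).val, h i⟩)) else none) = _
    rw [dif_pos (fun i => by simp)]
    rfl
  simp only [bits, starX]
  rw [h]

variable {n'}

lemma gen_dom (hM : T.M ≤ n') (hK : T.K + 1 ≤ n') (A : Str τ (Fin n)) (a : Fin T.M) :
    ((genT τ' T.M T.K n' hM hK).dom a).Holds (bits (starX T n' (bits A))) ↔
      T.val A (T.dom a) = true := by
  simp only [genT, Fm.Holds]
  rw [star_dom T n' hM]
  rfl

lemma gen_par (hM : T.M ≤ n') (hK : T.K + 1 ≤ n') (A : Str τ (Fin n)) (j : Fin (T.K + 1)) :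
    ((genT τ' T.M T.K n' hM hK).par j).Holds (bits (starX T n' (bits A))) ↔
      T.val A (T.par j) = true := by
  simp only [genT, Fm.Holds]
  rw [star_par T n' hK]
  rfl

lemma gen_WD (hM : T.M ≤ n') (hK : T.K + 1 ≤ n') (A : Str τ (Fin n)) {s t : ℕ}
    (φ : PiF τ' s t) (j : ℕ) :
    WDF φ ((genT τ' T.M T.K n' hM hK).out (starX T n' (bits A))) j ↔ WDF φ (T.out A) j := by
  let e : T.Univ A ≃ (genT τ' T.M T.K n' hM hK).Univ (starX T n' (bits A)) :=
    Equiv.subtypeEquivRight (fun a => (gen_dom T hM hK A a).symm)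
  rw [← G.WDF_equiv e φ (T.out A) j]
  have h : (genT τ' T.M T.K n' hM hK).out (starX T n' (bits A)) =
      (fun R w => T.out A R (fun i => e.symm (w i))) := by
    funext R w
    obtain ⟨v, hv⟩ : ∃ v : Fin (τ'.ar R) → Fin T.M, v = fun i => (w i).1 := ⟨_, rfl⟩
    have h3 : ((genT τ' T.M T.K n' hM hK).out (starX T n' (bits A)) R w = true) ↔
        (bits (starX T n' (bits A))
          ⟨(R.succ.succ : Fin (τ'.num + 2)), fun i => Fin.castLE hM (v i)⟩ = true) := by
      rw [hv]
      simp only [Tr.out, decide_eq_true_eq]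
      exact Iff.rfl
    have h4 : T.out A R (fun i => e.symm (w i)) = T.val A (T.rel R v) := by
      rw [hv]
      rfl
    rw [Bool.eq_iff_iff, h3, h4, star_rel T n' hM]
    exact Iff.rfl
  rw [h]

/-- the outputs of a circuit as a family -/
lemma cmp_opt {J : Type} {F N D : ℕ} {ι : Type} {f : ι → Fn J} (h : Cmp F N D f) :
    Cmp F (N + 1) D (fun (o : Option ι) x => match o with
      | none => false
      | some a => f a x) := by
  obtain ⟨S, h1, h2, h3, h4⟩ := h
  refine ⟨fun i => insert (fun _ => false) (S i), fun i => ?_, ?_, ?_, ?_⟩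
  · exact (Finset.card_insert_le _ _).trans (Nat.add_le_add_right (h1 i) 1)
  · change insert (fun _ => false) (S 0) = _
    rw [h2]
    simp
  · intro i hi g hg
    rcases Finset.mem_insert.mp hg with hg | hg
    · rw [hg]
      exact gt1_false
    · exact (h3 i hi g hg).mono le_rfl (Finset.subset_insert _ _)
  · intro o
    cases o with
    | none => exact Finset.mem_insert_self _ _
    | some a => exact Finset.mem_insert_of_mem (h4 a)

lemma cmp_star (F : ℕ) (hN : 1 ≤ T.N) (hF : ∀ i g, (T.cir i g).fan ≤ F) (n' : ℕ) :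
    Cmp F (T.N + 1) T.D (fun (o : Bit (outVoc τ') n') (x : Bit τ n → Bool) =>
      bits (starX T n' x) o) := by
  have h1 := cmp_opt (cmp_layer (D := T.D) hN T.cir hF)
  refine (h1.sub (fun o : Bit (outVoc τ') n' => ogR T n' o.1 o.2)).congr (fun a x => ?_)
  simp only [bits, starX]
  cases ogR T n' a.1 a.2 <;> rfl

/-- formulas over the outputs of a circuit -/
lemma cmp_over (F : ℕ) (hN : 1 ≤ T.N) (hF : ∀ i g, (T.cir i g).fan ≤ F) (hF1 : 1 ≤ F) (n' : ℕ)
    {ι : Type} [Fintype ι] (ψ : ι → Fm (Bit (outVoc τ') n')) (c sz : ℕ)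
    (hc : ∀ a, (ψ a).depth ≤ c) (hsz : ∀ a, (ψ a).size ≤ sz) :
    Cmp F (T.N + 1 + (Fintype.card ι * sz + 1) + 1) (T.D + (c + 1))
      (fun a (x : Bit τ n → Bool) => decide ((ψ a).Holds (bits (starX T n' x)))) := by
  have h1 := cmp_star T F hN hF n'
  have h2 := cmp_fm (F := F) (N := Fintype.card ι * sz + 1) (c := c) hF1 ψ hc (by
    apply Nat.add_le_add_right
    calc ∑ a, (ψ a).size ≤ ∑ _a : ι, sz := Finset.sum_le_sum fun a _ => hsz a
      _ = Fintype.card ι * sz := by rw [Finset.sum_const, smul_eq_mul, Finset.card_univ])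
  exact h1.serial h2

end

end Pool.Agent.Helper265_EW.X
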