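import Pool.Agent.Helper265_EW.XGen
import Pool.Agent.Helper265_EW.RNum

set_option linter.unusedSectionVars false

/-! The combinatorial heart for circuits. -/

namespace Pool.Agent.Helper265_EW.G.C2

open Finset Classical Pool.Agent.H592R2 Pool.Agent.Helper265_EW.X

noncomputable section

/-- the combinatorial heart: no reduction at one good parameter value -/
theorem heartX {d d' k B D S b m : ℕ} [NeZero b] [NeZero B] [NeZero k] {τ' : Voc}
    {s n cPP cLL sw : ℕ} [NeZero cPP] [NeZero cLL]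
    (φ : PiF τ' s (m + 2)) (hocc : φ.innerOcc ≤ d') (T : CTr (srcVt m d) τ' n)
    (eU : Un k (Tup (fun _ => Fin cPP × Fin cLL) m) (Fin cPP × Fin cLL) B ≃ Fin n)
    (hcorr : ∀ A : Str (srcVt m d) (Fin n), ∃ j : Fin (T.K + 1),
      (∀ j', T.val A (T.par j') = true ↔ j' = j) ∧
        (WDF (srcFt (decide (m % 2 = 0)) m d) A k ↔ WDF φ (T.out A) j))
    (n' : ℕ) (hM : T.M ≤ n') (hK : T.K + 1 ≤ n')
    (Fa N : ℕ) (hF : Cmp Fa N D (fun i (x : Bit (srcVt m d) n → Bool) =>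
      decide ((famG (genT τ' T.M T.K n' hM hK) (matT φ) i).Holds (bits (starX T n' x)))))
    (hFS : Fa * S ≤ b ^ sgr (d + 2) S) (mm sz : ℕ) (hms : D * N ≤ mm * sz)
    (hd : 1 ≤ d) (hb : 2 ≤ b) (hS : d + 2 < S) (hBb : B ≤ b ^ k)
    (hnum : failG d k B D S b (Fintype.card (Tup (fun _ => Fin cPP × Fin cLL) m))
      (Fintype.card (Fin cPP × Fin cLL)) mm sz < 1)
    (hsw : 1 ≤ sw) (hwH : S ^ (d + 2) ≤ sw)
    (hok : Ok (Fintype.card (Guess (s := s) (genT τ' T.M T.K n' hM hK)))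
      (fun i => Fintype.card (Tup (JT (genT τ' T.M T.K n' hM hK) φ) i)) cPP cLL sw
      m (k ^ (d + 1))
      ((Fintype.card (Vars φ.len (m + 1)) + (2 * T.K + 1) ^ d' + 1) * S ^ (d + 2))) : False := by
  obtain ⟨zq, hsrc, hfam⟩ := src_claim eU _ Fa N hF hFS mm sz hms hd hb hS hBb hnum
  choose Qf hQf1 hQf2 using hfam
  simp only [decide_eq_true_eq] at hQf2
  have hSp : 1 ≤ S ^ (d + 2) := Nat.one_le_pow _ _ (by omega)
  have hcP : Fintype.card (Fin (d + 1) → Fin k) = k ^ (d + 1) := by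
    rw [Fintype.card_fun, Fintype.card_fin, Fintype.card_fin]
  refine chain (PP := Fin cPP) (LL := Fin cLL)
    (Sg := Guess (s := s) (genT τ' T.M T.K n' hM hK))
    (Ex := Unit ⊕ ((Fin s → Fin T.M) × Fin s)) (JT (genT τ' T.M T.K n' hM hK) φ) sw (S ^ (d + 2))
    hsw hwH m
    (P := Fin (d + 1) → Fin k) (Y := JT (genT τ' T.M T.K n' hM hK) φ m)
    ((Fintype.card (Vars φ.len (m + 1)) + (2 * T.K + 1) ^ d' + 1) * S ^ (d + 2))
    (Nat.mul_pos (by omega) hSp) (Nat.le_mul_of_pos_left _ (by omega))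
    (fun σ v y q => GT (genT τ' T.M T.K n' hM hK) φ σ (v, y)
      (bits (starX T n' (bits (strS (decide (m % 2 = 0)) eU (zq q))))))
    (fun σ e q => HT (genT τ' T.M T.K n' hM hK) σ
      (bits (starX T n' (bits (strS (decide (m % 2 = 0)) eU (zq q))))) e) ?_ ?_ ?_ ?_
  · intro σ v y
    obtain ⟨Q, hQ, hQd⟩ := GT_depI (genT τ' T.M T.K n' hM hK) φ hocc σ (v, y)
    refine ⟨Q.biUnion Qf, ?_, ?_⟩
    · calc (Q.biUnion Qf).card ≤ ∑ e ∈ Q, (Qf e).card := Finset.card_biUnion_le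
        _ ≤ ∑ _e ∈ Q, S ^ (d + 2) := Finset.sum_le_sum fun e _ => hQf1 e
        _ = Q.card * S ^ (d + 2) := by rw [Finset.sum_const, smul_eq_mul]
        _ ≤ _ := Nat.mul_le_mul_right _ (by
          have h1 : (genT τ' T.M T.K n' hM hK).K = T.K := rfl
          rw [h1] at hQ
          omega)
    · intro q q' hqq'
      apply hQd
      intro e he
      apply hQf2
      intro e' he'
      exact hqq' e' (Finset.mem_biUnion.mpr ⟨e, he, he'⟩)
  · intro σ e
    obtain ⟨Q, hQ, hQd⟩ := HT_dep (genT τ' T.M T.K n' hM hK) φ σ e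
    refine ⟨Q.biUnion Qf, ?_, ?_⟩
    · calc (Q.biUnion Qf).card ≤ ∑ e ∈ Q, (Qf e).card := Finset.card_biUnion_le
        _ ≤ ∑ _e ∈ Q, S ^ (d + 2) := Finset.sum_le_sum fun e _ => hQf1 e
        _ = Q.card * S ^ (d + 2) := by rw [Finset.sum_const, smul_eq_mul]
        _ ≤ 1 * S ^ (d + 2) := Nat.mul_le_mul_right _ hQ
        _ = S ^ (d + 2) := one_mul _
    · intro q q' hqq'
      apply hQd
      intro e he
      apply hQf2
      intro e' he'
      exact hqq' e' (Finset.mem_biUnion.mpr ⟨e, he, he'⟩)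
  · rw [Fintype.card_fin, Fintype.card_fin, hcP]
    exact hok
  · intro q
    obtain ⟨j, hj1, hj2⟩ := hcorr (strS (decide (m % 2 = 0)) eU (zq q))
    rw [← hsrc q, hj2, ← gen_WD T hM hK,
      target_G (genT τ' T.M T.K n' hM hK) φ _ j (fun j' => by
        rw [gen_par T hM hK]
        exact hj1 j')]
    exact Iff.rfl

end

end Pool.Agent.Helper265_EW.G.C2
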