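import Pool.Agent.Helper265_EW.XDefs
import Pool.Agent.Helper265_EW.Tgt

set_option linter.unusedSectionVars false

/-! Families of functions computed by leveled circuits. -/

namespace Pool.Agent.Helper265_EW.X

open Finset Classical

noncomputable section

abbrev Fn (J : Type) : Type := (J → Bool) → Bool

variable {J : Type}

/-- sources of a gate -/
def Src (S : Finset (Fn J)) (f : Fn J) : Prop := f ∈ S ∨ ∃ j, f = fun x => x j

/-- computed by one gate -/
def Gt1 (F : ℕ) (S : Finset (Fn J)) (f : Fn J) : Prop :=
  (∃ P : Fn J → Prop, (∀ g, P g → Src S g) ∧ ∀ x, (f x = true ↔ ∀ g, P g → g x = true)) ∨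
  (∃ P : Fn J → Prop, (∀ g, P g → Src S g) ∧ ∀ x, (f x = true ↔ ∃ g, P g ∧ g x = true)) ∨
  (∃ m : ℕ, m ≤ F ∧ ∃ w : Fin m → Fn J, (∀ i, Src S (w i)) ∧
    ∃ h : (Fin m → Bool) → Bool, ∀ x, f x = h (fun i => w i x))

/-- computed by a leveled circuit -/
def Cmp (F N D : ℕ) {ι : Type} (f : ι → Fn J) : Prop :=
  ∃ S : ℕ → Finset (Fn J), (∀ i, (S i).card ≤ N) ∧ S 0 = {fun _ => false} ∧
    (∀ i, i < D → ∀ g ∈ S (i + 1), Gt1 F (S i) g) ∧ ∀ a, f a ∈ S D

lemma gt1_copy {F : ℕ} {S : Finset (Fn J)} {f : Fn J} (h : Src S f) : Gt1 F S f := by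
  right; left
  refine ⟨fun g => g = f, fun g hg => by rw [hg]; exact h, fun x => ?_⟩
  constructor
  · intro h1
    exact ⟨f, rfl, h1⟩
  · rintro ⟨g, rfl, h1⟩
    exact h1

lemma gt1_false {F : ℕ} {S : Finset (Fn J)} : Gt1 F S (fun _ => false) := by
  right; left
  refine ⟨fun _ => False, fun g hg => hg.elim, fun x => ?_⟩
  simp

lemma Src.mono {S S' : Finset (Fn J)} (h : S ⊆ S') {f : Fn J} (hf : Src S f) : Src S' f :=
  hf.imp (fun h' => h h') id

lemma Gt1.mono {F F' : ℕ} {S S' : Finset (Fn J)} (hF : F ≤ F') (h : S ⊆ S') {f : Fn J}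
    (hf : Gt1 F S f) : Gt1 F' S' f := by
  rcases hf with ⟨P, h1, h2⟩ | ⟨P, h1, h2⟩ | ⟨m, hm, w, h1, g, h2⟩
  · exact Or.inl ⟨P, fun g hg => (h1 g hg).mono h, h2⟩
  · exact Or.inr (Or.inl ⟨P, fun g hg => (h1 g hg).mono h, h2⟩)
  · exact Or.inr (Or.inr ⟨m, hm.trans hF, w, fun i => (h1 i).mono h, g, h2⟩)

lemma Cmp.mono {F F' N N' D D' : ℕ} {ι : Type} {f : ι → Fn J} (h : Cmp F N D f) (hF : F ≤ F')
    (hN : N ≤ N') (hD : D ≤ D') : Cmp F' N' D' f := by
  obtain ⟨S, h1, h2, h3, h4⟩ := h
  refine ⟨fun i => S (min i D), fun i => (h1 _).trans hN, by simpa using h2, ?_, fun a => ?_⟩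
  · intro i hi g hg
    by_cases hiD : i < D
    · have e1 : min (i + 1) D = i + 1 := by omega
      have e2 : min i D = i := by omega
      simp only [e1] at hg
      simp only [e2]
      exact (h3 i hiD g hg).mono hF subset_rfl
    · have e1 : min (i + 1) D = D := by omega
      have e2 : min i D = D := by omega
      simp only [e1] at hg
      simp only [e2]
      exact gt1_copy (Or.inl hg)
  · have e1 : min D' D = D := by omega
    simp only [e1]
    exact h4 a

lemma Cmp.sub {F N D : ℕ} {ι κ : Type} {f : ι → Fn J} (h : Cmp F N D f) (g : κ → ι) :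
    Cmp F N D (fun a => f (g a)) := by
  obtain ⟨S, h1, h2, h3, h4⟩ := h
  exact ⟨S, h1, h2, h3, fun a => h4 _⟩

lemma Cmp.congr {F N D : ℕ} {ι : Type} {f f' : ι → Fn J} (h : Cmp F N D f)
    (hf : ∀ a x, f a x = f' a x) : Cmp F N D f' := by
  have : f = f' := by funext a x; exact hf a x
  rwa [← this]

/-- serial composition -/
lemma Cmp.serial {ι κ : Type} {F N₁ D₁ N₂ D₂ : ℕ} {f : ι → Fn J} (hf : Cmp F N₁ D₁ f)
    {g : κ → Fn ι} (hg : Cmp F N₂ D₂ g) :
    Cmp F (N₁ + N₂ + 1) (D₁ + D₂) (fun b x => g b (fun a => f a x)) := by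
  obtain ⟨S, a1, a2, a3, a4⟩ := hf
  obtain ⟨S', b1, b2, b3, b4⟩ := hg
  let pull : Fn ι → Fn J := fun h x => h (fun a => f a x)
  let U : ℕ → Finset (Fn J) := fun i => if i ≤ D₁ then insert (fun _ => false) (S i) else
    S D₁ ∪ (S' (i - D₁)).image pull
  have hU1 : ∀ i, i ≤ D₁ → U i = insert (fun _ => false) (S i) := fun i hi => if_pos hi
  have hU2 : ∀ i, ¬ i ≤ D₁ → U i = S D₁ ∪ (S' (i - D₁)).image pull := fun i hi => if_neg hi
  have hSD : ∀ i, D₁ ≤ i → S D₁ ⊆ U i := by
    intro i hi
    by_cases h : i ≤ D₁
    · have : i = D₁ := by omega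
      rw [hU1 i h, this]
      exact Finset.subset_insert _ _
    · rw [hU2 i h]
      exact Finset.subset_union_left
  have hS' : ∀ i, D₁ ≤ i → ∀ h ∈ S' (i - D₁), pull h ∈ U i := by
    intro i hi h hh
    by_cases h1 : i ≤ D₁
    · have h0 : i - D₁ = 0 := by omega
      rw [h0, b2, Finset.mem_singleton] at hh
      rw [hU1 i h1, hh]
      exact Finset.mem_insert_self _ _
    · rw [hU2 i h1]
      exact Finset.mem_union_right _ (Finset.mem_image_of_mem _ hh)
  refine ⟨U, ?_, ?_, ?_, ?_⟩
  · intro i
    by_cases h : i ≤ D₁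
    · rw [hU1 i h]
      refine (Finset.card_insert_le _ _).trans ?_
      have := a1 i
      omega
    · rw [hU2 i h]
      refine (Finset.card_union_le _ _).trans ?_
      have h1 := a1 D₁
      have h2 : ((S' (i - D₁)).image pull).card ≤ N₂ := Finset.card_image_le.trans (b1 _)
      omega
  · rw [hU1 0 (Nat.zero_le _), a2]
    simp
  · intro i hi h hh
    by_cases h1 : i + 1 ≤ D₁
    · rw [hU1 _ h1] at hh
      rw [hU1 i (by omega)]
      rcases Finset.mem_insert.mp hh with hh | hh
      · rw [hh]; exact gt1_false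
      · exact (a3 i (by omega) h hh).mono le_rfl (Finset.subset_insert _ _)
    · rw [hU2 _ h1] at hh
      rcases Finset.mem_union.mp hh with hh | hh
      · exact gt1_copy (Or.inl (hSD i (by omega) hh))
      · obtain ⟨h', hh', rfl⟩ := Finset.mem_image.mp hh
        have e1 : i + 1 - D₁ = (i - D₁) + 1 := by omega
        rw [e1] at hh'
        have h3 := b3 (i - D₁) (by omega) h' hh'
        have hsrc : ∀ g' : Fn ι, Src (S' (i - D₁)) g' → Src (U i) (pull g') := by
          rintro g' (hg' | ⟨j, rfl⟩)
          · exact Or.inl (hS' i (by omega) g' hg')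
          · exact Or.inl (hSD i (by omega) (a4 j))
        rcases h3 with ⟨P, h4, h5⟩ | ⟨P, h4, h5⟩ | ⟨m, hm, w, h4, q, h5⟩
        · left
          refine ⟨fun g => ∃ g', P g' ∧ g = pull g', ?_, fun x => ?_⟩
          · rintro g ⟨g', hg', rfl⟩
            exact hsrc g' (h4 g' hg')
          · refine (h5 _).trans ⟨?_, ?_⟩
            · rintro h6 g ⟨g', hg', rfl⟩
              exact h6 g' hg'
            · intro h6 g' hg'
              exact h6 (pull g') ⟨g', hg', rfl⟩
        · right; left
          refine ⟨fun g => ∃ g', P g' ∧ g = pull g', ?_, fun x => ?_⟩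
          · rintro g ⟨g', hg', rfl⟩
            exact hsrc g' (h4 g' hg')
          · refine (h5 _).trans ⟨?_, ?_⟩
            · rintro ⟨g', hg', h6⟩
              exact ⟨pull g', ⟨g', hg', rfl⟩, h6⟩
            · rintro ⟨g, ⟨g', hg', rfl⟩, h6⟩
              exact ⟨g', hg', h6⟩
        · right; right
          exact ⟨m, hm, fun l => pull (w l), fun l => hsrc _ (h4 l), q, fun x => h5 _⟩
  · intro b
    by_cases h : D₁ + D₂ ≤ D₁
    · have h0 : D₂ = 0 := by omega
      have := b4 b
      rw [h0, b2, Finset.mem_singleton] at this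
      have h2 : (fun x => g b (fun a => f a x)) = (fun _ => false : Fn J) := by
        funext x
        rw [this]
      rw [hU1 _ h]
      change (fun x => g b (fun a => f a x)) ∈ _
      rw [h2]
      exact Finset.mem_insert_self _ _
    · rw [hU2 _ h]
      apply Finset.mem_union_right
      have e1 : D₁ + D₂ - D₁ = D₂ := by omega
      rw [e1]
      exact Finset.mem_image_of_mem pull (b4 b)

/-- the functions of the subformulas of depth less than `i` -/
def subs (i : ℕ) : Fm J → Finset (Fn J)
  | Fm.lit j b => if 0 < i then {fun x => decide ((Fm.lit j b).Holds x)} else ∅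
  | Fm.and m f => (Finset.univ.biUnion fun l => subs i (f l)) ∪
      (if (Fm.and m f).depth < i then {fun x => decide ((Fm.and m f).Holds x)} else ∅)
  | Fm.or m f => (Finset.univ.biUnion fun l => subs i (f l)) ∪
      (if (Fm.or m f).depth < i then {fun x => decide ((Fm.or m f).Holds x)} else ∅)

lemma subs_card (i : ℕ) (φ : Fm J) : (subs i φ).card ≤ φ.size := by
  induction φ with
  | lit j b =>
    simp only [subs, Fm.size]
    split_ifs <;> simp
  | and m f ih =>
    simp only [subs, Fm.size]
    refine (Finset.card_union_le _ _).trans (Nat.add_le_add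
      (Finset.card_biUnion_le.trans (Finset.sum_le_sum fun l _ => ih l)) ?_)
    split_ifs <;> simp
  | or m f ih =>
    simp only [subs, Fm.size]
    refine (Finset.card_union_le _ _).trans (Nat.add_le_add
      (Finset.card_biUnion_le.trans (Finset.sum_le_sum fun l _ => ih l)) ?_)
    split_ifs <;> simp

lemma subs_self {i : ℕ} (φ : Fm J) (h : φ.depth < i) :
    (fun x => decide (φ.Holds x)) ∈ subs i φ := by
  cases φ with
  | lit j b =>
    simp only [subs]
    rw [if_pos (by omega)]
    exact Finset.mem_singleton_self _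
  | and m f =>
    simp only [subs]
    rw [if_pos h]
    exact Finset.mem_union_right _ (Finset.mem_singleton_self _)
  | or m f =>
    simp only [subs]
    rw [if_pos h]
    exact Finset.mem_union_right _ (Finset.mem_singleton_self _)

lemma subs_zero (φ : Fm J) : subs 0 φ = ∅ := by
  induction φ with
  | lit j b => simp [subs]
  | and m f ih => ext g; simp [subs, ih]
  | or m f ih => ext g; simp [subs, ih]

lemma subs_gt {F : ℕ} (hF : 1 ≤ F) (i : ℕ) (φ : Fm J) :
    ∀ g ∈ subs (i + 1) φ, Gt1 F (subs i φ) g := by
  induction φ with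
  | lit j b =>
    intro g hg
    simp only [subs, if_pos (Nat.succ_pos i), Finset.mem_singleton] at hg
    subst hg
    cases b with
    | true =>
      have : (fun x : J → Bool => decide ((Fm.lit j true).Holds x)) = fun x => x j := by
        funext x
        simp [Fm.Holds]
      rw [this]
      exact gt1_copy (Or.inr ⟨j, rfl⟩)
    | false =>
      right; right
      refine ⟨1, hF, fun _ => fun x => x j, fun _ => Or.inr ⟨j, rfl⟩, fun v => !(v 0), fun x => ?_⟩
      cases h : x j <;> simp [Fm.Holds, h]
  | and m f ih =>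
    intro g hg
    simp only [subs] at hg
    rcases Finset.mem_union.mp hg with hg | hg
    · obtain ⟨l, -, hl⟩ := Finset.mem_biUnion.mp hg
      refine (ih l g hl).mono le_rfl ?_
      simp only [subs]
      exact Finset.subset_union_left.trans' (Finset.subset_biUnion_of_mem
        (fun l => subs i (f l)) (Finset.mem_univ l))
    · split_ifs at hg with h
      · rw [Finset.mem_singleton] at hg
        subst hg
        left
        refine ⟨fun g => ∃ l, g = fun x => decide ((f l).Holds x), ?_, fun x => ?_⟩
        · rintro g ⟨l, rfl⟩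
          left
          simp only [subs]
          apply Finset.mem_union_left
          apply Finset.mem_biUnion.mpr
          refine ⟨l, Finset.mem_univ _, subs_self _ ?_⟩
          have h1 : (f l).depth ≤ Finset.univ.sup fun l => (f l).depth :=
            Finset.le_sup (f := fun l => (f l).depth) (Finset.mem_univ l)
          simp only [Fm.depth] at h
          omega
        · rw [decide_eq_true_eq]
          simp only [Fm.Holds]
          constructor
          · rintro h1 g ⟨l, rfl⟩
            rw [decide_eq_true_eq]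
            exact h1 l
          · intro h1 l
            have := h1 _ ⟨l, rfl⟩
            rwa [decide_eq_true_eq] at this
      · simp at hg
  | or m f ih =>
    intro g hg
    simp only [subs] at hg
    rcases Finset.mem_union.mp hg with hg | hg
    · obtain ⟨l, -, hl⟩ := Finset.mem_biUnion.mp hg
      refine (ih l g hl).mono le_rfl ?_
      simp only [subs]
      exact Finset.subset_union_left.trans' (Finset.subset_biUnion_of_mem
        (fun l => subs i (f l)) (Finset.mem_univ l))
    · split_ifs at hg with h
      · rw [Finset.mem_singleton] at hg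
        subst hg
        right; left
        refine ⟨fun g => ∃ l, g = fun x => decide ((f l).Holds x), ?_, fun x => ?_⟩
        · rintro g ⟨l, rfl⟩
          left
          simp only [subs]
          apply Finset.mem_union_left
          apply Finset.mem_biUnion.mpr
          refine ⟨l, Finset.mem_univ _, subs_self _ ?_⟩
          have h1 : (f l).depth ≤ Finset.univ.sup fun l => (f l).depth :=
            Finset.le_sup (f := fun l => (f l).depth) (Finset.mem_univ l)
          simp only [Fm.depth] at h
          omega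
        · rw [decide_eq_true_eq]
          simp only [Fm.Holds]
          constructor
          · rintro ⟨l, h1⟩
            exact ⟨_, ⟨l, rfl⟩, by rwa [decide_eq_true_eq]⟩
          · rintro ⟨g, ⟨l, rfl⟩, h1⟩
            exact ⟨l, by rwa [decide_eq_true_eq] at h1⟩
      · simp at hg

/-- families of formulas -/
lemma cmp_fm {ι : Type} [Fintype ι] {F N c : ℕ} (hF : 1 ≤ F) (φ : ι → Fm J)
    (hc : ∀ a, (φ a).depth ≤ c) (hN : ∑ a, (φ a).size + 1 ≤ N) :
    Cmp F N (c + 1) (fun a x => decide ((φ a).Holds x)) := by
  refine ⟨fun i => if i = 0 then {fun _ => false} else Finset.univ.biUnion fun a => subs i (φ a),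
    ?_, by simp, ?_, ?_⟩
  · intro i
    by_cases h : i = 0
    · simp only [if_pos h, Finset.card_singleton]
      omega
    · simp only [if_neg h]
      refine (Finset.card_biUnion_le.trans (Finset.sum_le_sum fun a _ => subs_card i _)).trans ?_
      omega
  · intro i hi g hg
    simp only [Nat.succ_ne_zero, if_false] at hg
    obtain ⟨a, -, ha⟩ := Finset.mem_biUnion.mp hg
    have h1 := subs_gt hF i (φ a) g ha
    by_cases h : i = 0
    · subst h
      rw [subs_zero] at h1
      exact h1.mono le_rfl (Finset.empty_subset _)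
    · simp only [if_neg h]
      exact h1.mono le_rfl (Finset.subset_biUnion_of_mem (fun a => subs i (φ a))
        (Finset.mem_univ a))
  · intro a
    simp only [Nat.succ_ne_zero, if_false]
    exact Finset.mem_biUnion.mpr ⟨a, Finset.mem_univ _, subs_self _ (by have := hc a; omega)⟩

/-- circuits compute families -/
lemma cmp_layer {N F D : ℕ} (hN : 1 ≤ N) (C : ℕ → Fin N → Gate (J ⊕ Fin N))
    (hF : ∀ i g, (C i g).fan ≤ F) :
    Cmp F N D (fun g x => layer C x D g) := by
  refine ⟨fun i => if i = 0 then {fun _ => false} else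
    Finset.univ.image (fun g => (fun x => layer C x i g : Fn J)), ?_, by simp, ?_, ?_⟩
  · intro i
    by_cases h : i = 0
    · simp only [if_pos h, Finset.card_singleton]
      exact hN
    · simp only [if_neg h]
      refine Finset.card_image_le.trans ?_
      rw [Finset.card_univ, Fintype.card_fin]
  · intro i hi f hf
    simp only [Nat.succ_ne_zero, if_false] at hf
    obtain ⟨g, -, rfl⟩ := Finset.mem_image.mp hf
    obtain ⟨S, hS⟩ : ∃ S : Finset (Fn J), S = if i = 0 then {fun _ => false} else
      Finset.univ.image (fun g => (fun x => layer C x i g : Fn J)) := ⟨_, rfl⟩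
    change Gt1 F (if i = 0 then {fun _ => false} else
      Finset.univ.image (fun g => (fun x => layer C x i g : Fn J))) _
    rw [← hS]
    have hsrc : ∀ w : J ⊕ Fin N, Src S (fun x => Sum.elim x (layer C x i) w) := by
      rintro (j | g')
      · exact Or.inr ⟨j, rfl⟩
      · left
        rw [hS]
        by_cases h : i = 0
        · subst h
          simp [layer]
        · rw [if_neg h]
          exact Finset.mem_image_of_mem _ (Finset.mem_univ g')
    cases hg : C i g with
    | and s =>
      left
      refine ⟨fun f => ∃ w, s w ∧ f = fun x => Sum.elim x (layer C x i) w, ?_, fun x => ?_⟩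
      · rintro f ⟨w, -, rfl⟩
        exact hsrc w
      · simp only [layer, hg, Gate.Holds, decide_eq_true_eq]
        constructor
        · rintro h f ⟨w, hw, rfl⟩
          exact h w hw
        · intro h w hw
          exact h _ ⟨w, hw, rfl⟩
    | or s =>
      right; left
      refine ⟨fun f => ∃ w, s w ∧ f = fun x => Sum.elim x (layer C x i) w, ?_, fun x => ?_⟩
      · rintro f ⟨w, -, rfl⟩
        exact hsrc w
      · simp only [layer, hg, Gate.Holds, decide_eq_true_eq]
        constructor
        · rintro ⟨w, hw, h⟩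
          exact ⟨_, ⟨w, hw, rfl⟩, h⟩
        · rintro ⟨f, ⟨w, hw, rfl⟩, h⟩
          exact ⟨w, hw, h⟩
    | fn m w q =>
      right; right
      have hm := hF i g
      rw [hg] at hm
      refine ⟨m, hm, fun l => fun x => Sum.elim x (layer C x i) (w l), fun l => hsrc _, q,
        fun x => ?_⟩
      simp only [layer, hg, Gate.Holds]
      cases h : q (fun l => Sum.elim x (layer C x i) (w l)) <;> simp
  · intro g
    by_cases h : D = 0
    · subst h
      simp [layer]
    · simp only [if_neg h]
      exact Finset.mem_image_of_mem _ (Finset.mem_univ g)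

/-- families are computed by circuits -/
lemma layer_of_cmp {N F D : ℕ} {ι : Type} {f : ι → Fn J} (h : Cmp F N D f) :
    ∃ (C : ℕ → Fin N → Gate (J ⊕ Fin N)) (o : ι → Fin N), (∀ i g, (C i g).fan ≤ F) ∧
      ∀ a x, layer C x D (o a) = f a x := by
  obtain ⟨S, h1, h2, h3, h4⟩ := h
  have hN : 1 ≤ N := by
    have := h1 0
    rw [h2, Finset.card_singleton] at this
    exact this
  -- decoding
  let d : ℕ → Fin N → Fn J := fun i g => if h : g.val < (S i).card then
    ((S i).equivFin.symm ⟨g.val, h⟩).1 else fun _ => false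
  have hd : ∀ i, ∀ f ∈ S i, ∃ g, d i g = f := by
    intro i f hf
    have hlt : ((S i).equivFin ⟨f, hf⟩).val < (S i).card := ((S i).equivFin ⟨f, hf⟩).2
    refine ⟨⟨((S i).equivFin ⟨f, hf⟩).val, hlt.trans_le (h1 i)⟩, ?_⟩
    simp only [d]
    rw [dif_pos hlt]
    simp
  have hd2 : ∀ i g, d i g ∈ S i ∨ d i g = fun _ => false := by
    intro i g
    simp only [d]
    split_ifs with h
    · exact Or.inl ((S i).equivFin.symm ⟨g.val, h⟩).2
    · exact Or.inr rfl
  have key : ∀ i (g : Fin N), i < D → ∃ G : Gate (J ⊕ Fin N), G.fan ≤ F ∧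
      ∀ x, (G.Holds (Sum.elim x (fun g' => d i g' x)) ↔ d (i + 1) g x = true) := by
    intro i g hi
    rcases hd2 (i + 1) g with hg | hg
    · rcases h3 i hi _ hg with ⟨P, a1, a2⟩ | ⟨P, a1, a2⟩ | ⟨m, hm, w, a1, q, a2⟩
      · refine ⟨Gate.and (Sum.elim (fun j => P (fun x => x j)) (fun g' => P (d i g'))),
          Nat.zero_le _, fun x => ?_⟩
        rw [a2 x]
        simp only [Gate.Holds]
        constructor
        · intro h f hf
          rcases a1 f hf with h5 | ⟨j, rfl⟩
          · obtain ⟨g', rfl⟩ := hd i f h5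
            exact h (Sum.inr g') hf
          · exact h (Sum.inl j) hf
        · rintro h (j | g') hw
          · exact h _ hw
          · exact h _ hw
      · refine ⟨Gate.or (Sum.elim (fun j => P (fun x => x j)) (fun g' => P (d i g'))),
          Nat.zero_le _, fun x => ?_⟩
        rw [a2 x]
        simp only [Gate.Holds]
        constructor
        · rintro ⟨w | g', hw, hx⟩
          · exact ⟨_, hw, hx⟩
          · exact ⟨_, hw, hx⟩
        · rintro ⟨f, hf, hx⟩
          rcases a1 f hf with h5 | ⟨j, rfl⟩
          · obtain ⟨g', rfl⟩ := hd i f h5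
            exact ⟨Sum.inr g', hf, hx⟩
          · exact ⟨Sum.inl j, hf, hx⟩
      · have hw : ∀ l, ∃ W : J ⊕ Fin N, ∀ x, Sum.elim x (fun g' => d i g' x) W = w l x := by
          intro l
          rcases a1 l with h5 | ⟨j, h5⟩
          · obtain ⟨g', h6⟩ := hd i _ h5
            exact ⟨Sum.inr g', fun x => by rw [← h6]; rfl⟩
          · exact ⟨Sum.inl j, fun x => by rw [h5]; rfl⟩
        choose W hW using hw
        refine ⟨Gate.fn m W q, hm, fun x => ?_⟩
        simp only [Gate.Holds]
        rw [a2 x]
        have : (fun l => Sum.elim x (fun g' => d i g' x) (W l)) = fun l => w l x := by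
          funext l
          exact hW l x
        rw [this]
    · refine ⟨Gate.or (fun _ => False), Nat.zero_le _, fun x => ?_⟩
      rw [hg]
      simp [Gate.Holds]
  have key' : ∀ i (g : Fin N), ∃ G : Gate (J ⊕ Fin N), G.fan ≤ F ∧ (i < D →
      ∀ x, (G.Holds (Sum.elim x (fun g' => d i g' x)) ↔ d (i + 1) g x = true)) := by
    intro i g
    by_cases h : i < D
    · obtain ⟨G, hG, hG'⟩ := key i g h
      exact ⟨G, hG, fun _ => hG'⟩
    · exact ⟨Gate.or (fun _ => False), Nat.zero_le _, fun h' => absurd h' h⟩
  choose G hG1 hG2 using key'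
  let C : ℕ → Fin N → Gate (J ⊕ Fin N) := G
  have hC : ∀ i, i ≤ D → ∀ g x, layer C x i g = d i g x := by
    intro i
    induction i with
    | zero =>
      intro _ g x
      simp only [layer]
      rcases hd2 0 g with h | h
      · rw [h2, Finset.mem_singleton] at h
        rw [h]
      · rw [h]
    | succ i ih =>
      intro hi g x
      simp only [layer]
      have h5 : layer C x i = fun g' => d i g' x := by
        funext g'
        exact ih (by omega) g' x
      rw [h5]
      have h7 := hG2 i g (by omega) x
      cases h8 : d (i + 1) g x with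
      | true =>
        rw [decide_eq_true_eq]
        exact h7.mpr h8
      | false =>
        rw [decide_eq_false_iff_not]
        intro h9
        rw [h7.mp h9] at h8
        exact absurd h8 (by simp)
  choose o ho using fun a => hd D (f a) (h4 a)
  refine ⟨C, o, ?_, ?_⟩
  · exact hG1
  · intro a x
    rw [hC D le_rfl, ho a]

end

end Pool.Agent.Helper265_EW.X
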