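import Pool.Agent.Helper265_EW.XGen
import Pool.Agent.Helper265_EW.CLev

set_option linter.unusedSectionVars false

/-! Circuits from families, and constant-depth reductions as circuits. -/

namespace Pool.Agent.Helper265_EW.X

open Finset Classical

noncomputable section

variable {τ τ1 τ2 : Voc} {n n1 : ℕ}

/-- indices of outputs -/
abbrev OutI (M K : ℕ) (τ2 : Voc) : Type :=
  Fin M ⊕ (Σ R : Fin τ2.num, (Fin (τ2.ar R) → Fin M)) ⊕ Fin (K + 1)

/-- the formulas of a transformation -/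
def outFm (T : Tr τ1 τ2 n1) : OutI T.M T.K τ2 → Fm (Bit τ1 n1)
  | Sum.inl a => T.dom a
  | Sum.inr (Sum.inl e) => T.rel e.1 e.2
  | Sum.inr (Sum.inr j) => T.par j

/-- circuits for a transformation -/
lemma mkC_ex (T : Tr τ1 τ2 n1) (g : (Bit τ n → Bool) → Str τ1 (Fin n1)) {F N D : ℕ}
    (h : Cmp F N D (fun (a : OutI T.M T.K τ2) x => decide ((outFm T a).Holds (bits (g x))))) :
    ∃ C : CTr τ τ2 n, C.N = N ∧ C.D = D ∧ C.M = T.M ∧ C.K = T.K ∧
      (∀ i a, (C.cir i a).fan ≤ F) ∧ ∀ (A : Str τ (Fin n)) (j : Fin (T.K + 1)),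
        (∀ j', (T.par j').Holds (bits (g (bits A))) ↔ j' = j) →
        ∃ j'' : Fin (C.K + 1), (∀ j', C.val A (C.par j') = true ↔ j' = j'') ∧
          ∀ (s t : ℕ) (φ : PiF τ2 s t), (WDF φ (T.out (g (bits A))) j ↔ WDF φ (C.out A) j'') := by
  obtain ⟨cir, o, hfan, ho⟩ := layer_of_cmp h
  refine ⟨⟨N, D, cir, T.M, T.K, fun a => o (Sum.inl a), fun R v => o (Sum.inr (Sum.inl ⟨R, v⟩)),
    fun j => o (Sum.inr (Sum.inr j))⟩, rfl, rfl, rfl, rfl, hfan,
    fun A j hj => ⟨j, fun j' => ?_, fun s t φ => ?_⟩⟩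
  · rw [← hj j']
    unfold CTr.val
    change layer cir (bits A) D (o (Sum.inr (Sum.inr j'))) = true ↔ _
    rw [ho, decide_eq_true_eq]
    exact Iff.rfl
  · let e : T.Univ (g (bits A)) ≃ CTr.Univ (⟨N, D, cir, T.M, T.K, fun a => o (Sum.inl a),
        fun R v => o (Sum.inr (Sum.inl ⟨R, v⟩)), fun j => o (Sum.inr (Sum.inr j))⟩ :
          CTr τ τ2 n) A :=
      Equiv.subtypeEquivRight (fun a => by
        change _ ↔ layer cir (bits A) D (o (Sum.inl a)) = true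
        rw [ho, decide_eq_true_eq]
        exact Iff.rfl)
    rw [← G.WDF_equiv e φ (T.out (g (bits A))) j]
    have h : (fun R w => T.out (g (bits A)) R (fun i => e.symm (w i))) =
        CTr.out (⟨N, D, cir, T.M, T.K, fun a => o (Sum.inl a),
        fun R v => o (Sum.inr (Sum.inl ⟨R, v⟩)), fun j => o (Sum.inr (Sum.inr j))⟩ :
          CTr τ τ2 n) A := by
      funext R w
      rw [Bool.eq_iff_iff]
      unfold Tr.out
      rw [decide_eq_true_eq]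
      change _ ↔ layer cir (bits A) D (o (Sum.inr (Sum.inl ⟨R, fun i => (w i).1⟩))) = true
      rw [ho, decide_eq_true_eq]
      exact Iff.rfl
    rw [h]

/-- circuits for a circuit applied to another structure -/
lemma mkCC_ex (T : CTr τ1 τ2 n1) (g : (Bit τ n → Bool) → Str τ1 (Fin n1)) {F N D : ℕ}
    (h : Cmp F N D (fun (a : Fin T.N) x => layer T.cir (bits (g x)) T.D a)) :
    ∃ C : CTr τ τ2 n, C.N = N ∧ C.D = D ∧ C.M = T.M ∧ C.K = T.K ∧
      (∀ i a, (C.cir i a).fan ≤ F) ∧ ∀ (A : Str τ (Fin n)) (j : Fin (T.K + 1)),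
        (∀ j', T.val (g (bits A)) (T.par j') = true ↔ j' = j) →
        ∃ j'' : Fin (C.K + 1), (∀ j', C.val A (C.par j') = true ↔ j' = j'') ∧
          ∀ (s t : ℕ) (φ : PiF τ2 s t), (WDF φ (T.out (g (bits A))) j ↔ WDF φ (C.out A) j'') := by
  obtain ⟨cir, o, hfan, ho⟩ := layer_of_cmp h
  refine ⟨⟨N, D, cir, T.M, T.K, fun a => o (T.dom a), fun R v => o (T.rel R v),
    fun j => o (T.par j)⟩, rfl, rfl, rfl, rfl, hfan,
    fun A j hj => ⟨j, fun j' => ?_, fun s t φ => ?_⟩⟩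
  · rw [← hj j']
    unfold CTr.val
    change layer cir (bits A) D (o (T.par j')) = true ↔ _
    rw [ho]
  · let e : T.Univ (g (bits A)) ≃ CTr.Univ (⟨N, D, cir, T.M, T.K, fun a => o (T.dom a),
        fun R v => o (T.rel R v), fun j => o (T.par j)⟩ : CTr τ τ2 n) A :=
      Equiv.subtypeEquivRight (fun a => by
        change _ ↔ layer cir (bits A) D (o (T.dom a)) = true
        rw [ho]
        exact Iff.rfl)
    rw [← G.WDF_equiv e φ (T.out (g (bits A))) j]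
    have h : (fun R w => T.out (g (bits A)) R (fun i => e.symm (w i))) =
        CTr.out (⟨N, D, cir, T.M, T.K, fun a => o (T.dom a),
        fun R v => o (T.rel R v), fun j => o (T.par j)⟩ : CTr τ τ2 n) A := by
      funext R w
      rw [Bool.eq_iff_iff]
      change _ ↔ layer cir (bits A) D (o (T.rel R (fun i => (w i).1))) = true
      rw [ho]
      exact Iff.rfl
    rw [h]

lemma PB_sum {ι : Type} (s : Finset ι) (f : ι → ℕ → ℕ) (h : ∀ i, PB (f i)) :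
    PB (fun Z => ∑ i ∈ s, f i Z) := by
  induction s using Finset.induction_on with
  | empty => exact PB.const 0
  | insert a s ha ih =>
    have h1 := (h a).add ih
    obtain ⟨E, hE⟩ := h1
    refine ⟨E, fun Z hZ => ?_⟩
    change ∑ i ∈ insert a s, f i Z ≤ Z ^ E
    rw [Finset.sum_insert ha]
    exact hE Z hZ

lemma card_OutI (M K : ℕ) (τ2 : Voc) : Fintype.card (OutI M K τ2) =
    M + (∑ R : Fin τ2.num, M ^ τ2.ar R + (K + 1)) := by
  simp only [OutI, Fintype.card_sum, Fintype.card_fin, Fintype.card_sigma, Fintype.card_fun]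

/-- the number of outputs times size -/
lemma out_bd (τ2 : Voc) (a b c : ℕ) : ∃ E, ∀ Z M K sz : ℕ, 2 ≤ Z → M ≤ Z ^ a → K ≤ Z ^ b →
    sz ≤ Z ^ c → Fintype.card (OutI M K τ2) * sz + 1 ≤ Z ^ E := by
  have h1 : PB (fun Z => (Z ^ a + (∑ R : Fin τ2.num, (Z ^ a) ^ τ2.ar R + (Z ^ b + 1))) * Z ^ c
      + 1) := by
    have hv : ∀ x : ℕ, PB (fun Z => Z ^ x) := fun x => PB.var.pow x
    exact ((((hv a).add ((PB_sum _ _ (fun R => (hv a).pow _)).add ((hv b).add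
      (PB.const 1)))).mul (hv c)).add (PB.const 1))
  obtain ⟨E, hE⟩ := h1
  refine ⟨E, fun Z M K sz hZ hM hK hsz => le_trans ?_ (hE Z hZ)⟩
  rw [card_OutI]
  apply Nat.add_le_add_right
  apply Nat.mul_le_mul _ hsz
  apply Nat.add_le_add hM
  apply Nat.add_le_add _ (Nat.add_le_add_right hK 1)
  exact Finset.sum_le_sum fun R _ => Nat.pow_le_pow_left hM _

/-- the new parameter is at most polynomial in `Z` -/
lemma K_le_Z {n k c p q K : ℕ} (hn : 1 ≤ n) (hk : 1 ≤ k) (hq : 1 ≤ q)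
    (hK : K ^ q ≤ c * (k + Nat.log 2 (n + 1) + 1) ^ p) : K ≤ (2 ^ k * (n + 2)) ^ (c + p) := by
  obtain ⟨Z, hZ⟩ : ∃ Z, Z = 2 ^ k * (n + 2) := ⟨_, rfl⟩
  have e3 : 2 ^ Nat.log 2 (n + 1) ≤ n + 1 := Nat.pow_log_le_self 2 (by omega)
  have e4 : Nat.log 2 (n + 1) < 2 ^ Nat.log 2 (n + 1) := Nat.lt_pow_self (by norm_num)
  have e5 : k < 2 ^ k := Nat.lt_pow_self (by norm_num)
  have e6 : n + 2 ≤ 2 ^ k * (n + 2) := Nat.le_mul_of_pos_left _ Nat.one_le_two_pow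
  have hQ : k + Nat.log 2 (n + 1) + 1 ≤ Z := by
    rw [hZ]
    have e7 : 2 ^ k * (n + 2) = 2 ^ k * n + 2 ^ k * 2 := by ring
    have e8 : n ≤ 2 ^ k * n := Nat.le_mul_of_pos_left _ Nat.one_le_two_pow
    omega
  have hZ2 : 2 ≤ Z := by omega
  rw [← hZ]
  calc K ≤ K ^ q := Nat.le_self_pow (by omega) _
    _ ≤ c * (k + Nat.log 2 (n + 1) + 1) ^ p := hK
    _ ≤ Z ^ c * Z ^ p := by
        apply Nat.mul_le_mul _ (Nat.pow_le_pow_left hQ _)
        exact (Nat.lt_two_pow_self).le.trans (Nat.pow_le_pow_left hZ2 c)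
    _ = Z ^ (c + p) := by rw [← pow_add]

lemma two_le_ll {n k : ℕ} (hn : 1 ≤ n) (hk : 1 ≤ k) :
    2 ≤ Nat.log 2 (k + Nat.log 2 (n + 1) + 1) + 1 := by
  have h1 : 1 ≤ Nat.log 2 (k + Nat.log 2 (n + 1) + 1) := Nat.log_pos (by norm_num) (by omega)
  omega

/-- constant-depth transformations as circuits -/
lemma toC (τ2 : Voc) (p q c : ℕ) (hq : 1 ≤ q) : ∃ c', ∀ (τ : Voc) (n k : ℕ), 1 ≤ n → 1 ≤ k →
    ∀ T : Tr τ τ2 n, T.BoundedPow p q k c → ∃ C : CTr τ τ2 n,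
      C.Bounded p q k c' c' 1 ∧ ∀ (A : Str τ (Fin n)) (j : Fin (T.K + 1)),
        (∀ j', (T.par j').Holds (bits A) ↔ j' = j) →
        ∃ j'' : Fin (C.K + 1), (∀ j', C.val A (C.par j') = true ↔ j' = j'') ∧
          ∀ (s t : ℕ) (φ : PiF τ2 s t), (WDF φ (T.out A) j ↔ WDF φ (C.out A) j'') := by
  obtain ⟨E, hE⟩ := out_bd τ2 c (c + p) c
  refine ⟨E + c + (c + 1), fun τ n k hn hk T hT => ?_⟩
  obtain ⟨hM, hK, hdom, hrel, hpar⟩ := hT
  obtain ⟨Z, hZ⟩ : ∃ Z, Z = 2 ^ k * (n + 2) := ⟨_, rfl⟩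
  have hZ2 : 2 ≤ Z := by
    rw [hZ]
    calc 2 = 1 * 2 := rfl
      _ ≤ 2 ^ k * (n + 2) := Nat.mul_le_mul Nat.one_le_two_pow (by omega)
  have hKZ := K_le_Z hn hk hq hK
  rw [← hZ] at hM hdom hrel hpar hKZ
  have hdep : ∀ a, (outFm T a).depth ≤ c := by
    rintro (a | e | j)
    · exact (hdom a).1
    · exact (hrel e.1 e.2).1
    · exact (hpar j).1
  have hsz : ∀ a, (outFm T a).size ≤ Z ^ c := by
    rintro (a | e | j)
    · exact (hdom a).2
    · exact (hrel e.1 e.2).2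
    · exact (hpar j).2
  have h1 := cmp_fm (F := 1) (N := Fintype.card (OutI T.M T.K τ2) * Z ^ c + 1) le_rfl (outFm T)
    hdep (Nat.add_le_add_right (by
      calc ∑ a, (outFm T a).size ≤ ∑ _a : OutI T.M T.K τ2, Z ^ c :=
            Finset.sum_le_sum fun a _ => hsz a
        _ = Fintype.card (OutI T.M T.K τ2) * Z ^ c := by
            rw [Finset.sum_const, smul_eq_mul, Finset.card_univ]) 1)
  have h2 := h1.mono le_rfl (hE Z T.M T.K (Z ^ c) hZ2 hM hKZ le_rfl) le_rfl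
  obtain ⟨C, hCN, hCD, hCM, hCK, hfan, hC⟩ := mkC_ex T (fun x R w => x ⟨R, w⟩) h2
  refine ⟨C, ⟨?_, ?_, ?_, ?_, hfan⟩, fun A j hj => hC A j hj⟩
  · rw [hCM, ← hZ]
    exact hM.trans (Nat.pow_le_pow_right (by omega) (by omega))
  · rw [hCN, ← hZ]
    exact Nat.pow_le_pow_right (by omega) (by omega)
  · rw [hCD]
    omega
  · rw [hCK]
    exact hK.trans (Nat.mul_le_mul_right _ (by omega))

/-- constant-depth reductions are computed by circuits -/
theorem red_C {τ τ' : Voc} {s s' t t' p q : ℕ} (hq : 1 ≤ q) {φ : PiF τ s t} {φ' : PiF τ' s' t'}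
    (h : AC0Red p q φ φ') : RedC p q φ φ' := by
  obtain ⟨c, hc⟩ := h
  obtain ⟨c', hc'⟩ := toC τ' p q c hq
  refine ⟨c', fun n k hn hk => ?_⟩
  obtain ⟨T, hT, hcor⟩ := hc n k hn hk
  obtain ⟨C, hC, hC2⟩ := hc' τ n k hn hk T hT
  refine ⟨C, hC, fun A => ?_⟩
  obtain ⟨j, h1, h2⟩ := hcor A
  obtain ⟨j'', h3, h4⟩ := hC2 A j h1
  exact ⟨j'', h3, h2.trans (h4 _ _ φ')⟩

/-- constant-depth reductions on restricted instances are computed by circuits -/
theorem redAt_C {τ τ' : Voc} {s s' t t' p q u v : ℕ} (hq : 1 ≤ q) {φ : PiF τ s t}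
    {φ' : PiF τ' s' t'} (h : AC0RedAt u v p q φ φ') : RedCAt u v p q φ φ' := by
  obtain ⟨c, hc⟩ := h
  obtain ⟨c', hc'⟩ := toC τ' p q c hq
  refine ⟨c', fun n k hn hk hkk => ?_⟩
  obtain ⟨T, hT, hcor⟩ := hc n k hn hk hkk
  obtain ⟨C, hC, hC2⟩ := hc' τ n k hn hk T hT
  refine ⟨C, hC, fun A => ?_⟩
  obtain ⟨j, h1, h2⟩ := hcor A
  obtain ⟨j'', h3, h4⟩ := hC2 A j h1
  exact ⟨j'', h3, h2.trans (h4 _ _ φ')⟩

end

end Pool.Agent.Helper265_EW.X
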