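import Pool.Agent.Helper265_EW.XDefs

/-! Reductions between weighted Fagin-definable problems that are computed by leveled circuits of
size `2 ^ O(k) * n ^ O(1)` and depth `(k + log n) ^ o(1)` whose gates are AND and OR gates
with any number of inputs and arbitrary gates with few inputs. -/

namespace Pool.Agent.Helper265_EW

/-- The weighted Fagin-definable problem of `φ` reduces to that of `φ'` by reductions computed
by (nonuniform) circuits of size `2 ^ O(k) * n ^ O(1)` and depth `O ((k + log n) ^ (1 / e))`, for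
every `e`, with AND and OR gates with any number of inputs and with arbitrary gates with
`2 ^ O(k) * (log n) ^ O(1)` inputs, whose new parameter is `O ((k + log n) ^ (p / q))`. -/
def RedD (p q : ℕ) {τ τ' : Voc} {s s' t t' : ℕ} (φ : PiF τ s t) (φ' : PiF τ' s' t') : Prop :=
  ∀ e : ℕ, ∃ c : ℕ, ∀ n k : ℕ, 1 ≤ n → 1 ≤ k →
    ∃ T : CTr τ τ' n, T.D ^ e ≤ c * (k + Nat.log 2 (n + 1) + 1) ∧
      T.Bounded p q k c T.D ((2 ^ k * (Nat.log 2 (n + 1) + 1)) ^ c) ∧ T.Correct φ φ' k

/-- The same as `RedD` for the problem of `φ` restricted to the instances `(A, k)` with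
`k = (log₂ (n + 1)) ^ (u / v)`, where `n` is the number of elements of `A` and `log₂` is rounded
down, with arbitrary gates with `(k + log n) ^ O(1)` inputs. -/
def RedDAt (u v p q : ℕ) {τ τ' : Voc} {s s' t t' : ℕ} (φ : PiF τ s t) (φ' : PiF τ' s' t') :
    Prop :=
  ∀ e : ℕ, ∃ c : ℕ, ∀ n k : ℕ, 1 ≤ n → 1 ≤ k → k ^ v = Nat.log 2 (n + 1) ^ u →
    ∃ T : CTr τ τ' n, T.D ^ e ≤ c * (k + Nat.log 2 (n + 1) + 1) ∧
      T.Bounded p q k c T.D ((k + Nat.log 2 (n + 1) + 1) ^ c) ∧ T.Correct φ φ' k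

end Pool.Agent.Helper265_EW
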