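import Pool.Agent.Helper265_EW.XComp
import Pool.Agent.Helper265_EW.YMain
import Pool.Agent.Helper265_EW.YDefs

set_option linter.unusedSectionVars false

/-! Compositions of circuit reductions of depth a small power of `k + log n`. -/

namespace Pool.Agent.Helper265_EW.Y

open Finset Classical Pool.Agent.Helper265_EW.G Pool.Agent.Helper265_EW.P
open Pool.Agent.Helper265_EW.C Pool.Agent.Helper265_EW.X

noncomputable section

/-- Composition of a quantifier-free interpretation with new parameter `k + 1` and a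
circuit reduction. -/
theorem comp_D {τ τ' τ'' : Voc} {s t s' t' s'' t'' : ℕ} {φ : PiF τ s t} {φ' : PiF τ' s' t'}
    {φ'' : PiF τ'' s'' t''} (I : QInt τ τ') (hI : Indep I)
    (hne : ∀ n k, 1 ≤ n → Nonempty (I.Univ (nul τ n) k))
    (hcor : ∀ n k : ℕ, 1 ≤ n → ∀ A : Str τ (Fin n), (WDF φ A k ↔ WDF φ' (I.out A k) (k + 1)))
    {p q : ℕ} (h : RedD p q φ' φ'') : RedD p q φ φ'' := by
  intro e
  obtain ⟨c, hc⟩ := h e
  obtain ⟨a, b, hab⟩ := univ_bd I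
  have hfT := I.finTag
  have hfI := I.finIx
  obtain ⟨A0, hA0⟩ : ∃ A0, A0 = 2 * (a + b + 1) + 2 := ⟨_, rfl⟩
  -- the number of gates
  have hPB : PB (fun Z => (∑ R : Fin τ'.num, (Z ^ (a + b)) ^ τ'.ar R) * szI I + 1 +
      Z ^ ((a + b + 3) * c) + 1) :=
    ((((PB_sum Finset.univ _ (fun R => (PB.var.pow (a + b)).pow (τ'.ar R))).mul
      (PB.const (szI I))).add (PB.const 1)).add (PB.var.pow _)).add (PB.const 1)
  obtain ⟨E, hE⟩ := hPB
  obtain ⟨C, hC⟩ : ∃ C, C = E + (a + b + 3) * c + c * A0 ^ p + (2 * A0 + 2) * c +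
    5 ^ e * (c * A0 + 1) := ⟨_, rfl⟩
  refine ⟨C, fun n k hn hk => ?_⟩
  obtain ⟨n', hn'⟩ : ∃ n', n' = Nat.card (I.Univ (nul τ n) k) := ⟨_, rfl⟩
  have hfin : Finite (I.Univ (nul τ n) k) := by
    unfold QInt.Univ
    infer_instance
  have e₀ : I.Univ (nul τ n) k ≃ Fin n' := by
    rw [hn']
    exact Finite.equivFin _
  have hn1 : 1 ≤ n' := by
    rw [hn']
    have := hne n k hn
    exact Nat.card_pos
  obtain ⟨hb1, hb2, hb3⟩ := num_bd (n' := n') a b hn hk (by rw [hn']; exact hab n k (nul τ n))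
  rw [← hA0] at hb3
  obtain ⟨T, hTD, ⟨hM, hTN, -, hK, hfan⟩, hT⟩ := hc n' (k + 1) hn1 (by omega)
  obtain ⟨Z, hZ⟩ : ∃ Z, Z = 2 ^ k * (n + 2) := ⟨_, rfl⟩
  obtain ⟨L, hL⟩ : ∃ L, L = Nat.log 2 (n + 1) := ⟨_, rfl⟩
  have hL1 : 1 ≤ L := by rw [hL]; exact Nat.log_pos (by norm_num) (by omega)
  rw [← hL] at hb3
  have hZ2 : 2 ≤ Z := by
    rw [hZ]
    calc 2 = 1 * 2 := rfl
      _ ≤ 2 ^ k * (n + 2) := Nat.mul_le_mul Nat.one_le_two_pow (by omega)
  rw [← hZ] at hb1 hb2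
  have hZc : (2 ^ (k + 1) * (n' + 2)) ^ c ≤ Z ^ ((a + b + 3) * c) := by
    rw [pow_mul]
    exact Nat.pow_le_pow_left hb1 _
  have hY1 : 2 ≤ 2 ^ k * (L + 1) := by
    calc 2 = 1 * 2 := rfl
      _ ≤ 2 ^ k * (L + 1) := Nat.mul_le_mul Nat.one_le_two_pow (by omega)
  have hF1 : 1 ≤ (2 ^ k * (L + 1)) ^ C := Nat.one_le_pow _ _ (by omega)
  have hTN1 : 1 ≤ T.N := by
    have := (T.par 0).2
    omega
  have hfan' : ∀ i g, (T.cir i g).fan ≤ (2 ^ k * (L + 1)) ^ C := fun i g =>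
    ((hfan i g).trans (fan_bd hk hb3)).trans (Nat.pow_le_pow_right (by omega) (by omega))
  -- the composed family
  have h1 := cmp_fm (F := (2 ^ k * (L + 1)) ^ C)
    (N := (∑ R : Fin τ'.num, n' ^ τ'.ar R) * szI I + 1) (c := 3) hF1
    (fun j : Bit τ' n' => gF I e₀ j true) (fun j => depth_gF I e₀ j true)
    (Nat.add_le_add_right (by
      calc ∑ j : Bit τ' n', (gF I e₀ j true).size ≤ ∑ _j : Bit τ' n', szI I :=
            Finset.sum_le_sum fun j _ => size_gF I e₀ j true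
        _ = (∑ R : Fin τ'.num, n' ^ τ'.ar R) * szI I := by
            rw [Finset.sum_const, smul_eq_mul, Finset.card_univ]
            congr 1
            simp only [Fintype.card_sigma, Fintype.card_fun, Fintype.card_fin]) 1)
  have h2 := cmp_layer (D := T.D) hTN1 T.cir hfan'
  have h3 := h1.serial h2
  obtain ⟨C', hCN, hCD, hCM, hCK, hCF, hCc⟩ := mkCC_ex T
    (fun x R w => decide ((gF I e₀ ⟨R, w⟩ true).Holds x)) h3
  refine ⟨C', ?_, ⟨?_, ?_, le_rfl, ?_, ?_⟩, ?_⟩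
  · rw [hCD, ← hL]
    have h5 : T.D ^ e ≤ c * A0 * (k + L + 1) := by
      refine hTD.trans ?_
      rw [mul_assoc]
      exact Nat.mul_le_mul_left _ hb3
    calc (3 + 1 + T.D) ^ e ≤ (4 + 1) ^ e * (T.D ^ e + 1) := add_pow_bd 4 T.D e
      _ ≤ 5 ^ e * (c * A0 * (k + L + 1) + (k + L + 1)) :=
          Nat.mul_le_mul_left _ (by omega)
      _ = 5 ^ e * (c * A0 + 1) * (k + L + 1) := by ring
      _ ≤ C * (k + L + 1) := Nat.mul_le_mul_right _ (by omega)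
  · rw [hCM, ← hZ]
    exact (hM.trans hZc).trans (Nat.pow_le_pow_right (by omega) (by omega))
  · rw [hCN, ← hZ]
    refine le_trans ?_ ((hE Z hZ2).trans (Nat.pow_le_pow_right (by omega) (by omega)))
    apply Nat.add_le_add_right
    apply Nat.add_le_add _ (hTN.trans hZc)
    apply Nat.add_le_add_right
    apply Nat.mul_le_mul_right
    exact Finset.sum_le_sum fun R _ => Nat.pow_le_pow_left hb2 _
  · rw [hCK]
    refine hK.trans ?_
    rw [← hL]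
    calc c * (k + 1 + Nat.log 2 (n' + 1) + 1) ^ p ≤ c * (A0 * (k + L + 1)) ^ p :=
          Nat.mul_le_mul_left _ (Nat.pow_le_pow_left hb3 _)
      _ = c * A0 ^ p * (k + L + 1) ^ p := by
          rw [mul_pow]; ring
      _ ≤ C * (k + L + 1) ^ p := by
          apply Nat.mul_le_mul_right
          rw [hC]
          omega
  · intro i g
    rw [← hL]
    exact hCF i g
  · intro A
    have hg : (fun R w => decide ((gF I e₀ ⟨R, w⟩ true).Holds (bits A)) : Str τ' (Fin n')) =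
        outF I hI e₀ A := by
      funext R w
      rw [Bool.eq_iff_iff, decide_eq_true_eq]
      exact holds_gF I hI e₀ A ⟨R, w⟩ true
    obtain ⟨j, hj1, hj2⟩ := hT (outF I hI e₀ A)
    obtain ⟨j'', hj3, hj4⟩ := hCc A j (by rw [hg]; exact hj1)
    refine ⟨j'', hj3, ?_⟩
    rw [hcor n k hn A, ← outF_WD I hI e₀ A, hj2, ← hj4 _ _ φ'', hg]

/-- Circuit reductions to formulas of bounded guard width. -/
theorem comp_coreY (m d e : ℕ) (hd : 1 ≤ d) (he : 1 ≤ e) {τ' : Voc} {s : ℕ}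
    (φ : PiF τ' s (m + 2)) (hw : φ.GuardWidth (d * e)) (p q : ℕ) (hq : 1 ≤ q) (hpq : p ≤ q)
    (c : ℕ) : ∃ C, ∀ (τ : Voc) (n k : ℕ), 1 ≤ n → 1 ≤ k → ∀ F, 1 ≤ F → ∀ T : CTr τ τ' n,
      T.Bounded p q k c T.D F →
      ∃ T' : CTr τ (srcVt m d) n, T'.D ≤ T.D + C ∧
        T'.Bounded (p * e) q k C T'.D F ∧
        ∀ (A : Str τ (Fin n)) (j : Fin (T.K + 1)), (∀ j', T.val A (T.par j') = true ↔ j' = j) →
          ∃ j'' : Fin (T'.K + 1), (∀ j', T'.val A (T'.par j') = true ↔ j' = j'') ∧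
            (WDF φ (T.out A) j ↔ WDF (normF (decide (m % 2 = 0)) m d) (T'.out A) j'') := by
  obtain ⟨C0, hC0⟩ := T.comp_core m d e hd he φ hw p q hq hpq (c + 1)
  obtain ⟨E1, hE1⟩ : ∃ E1, E1 = c + p + 5 := ⟨_, rfl⟩
  obtain ⟨E, hE⟩ := out_bd (srcVt m d) (E1 * C0) (E1 * (C0 + p * e)) (E1 * C0)
  obtain ⟨C, hC⟩ : ∃ C, C = E1 * C0 + (c + E + 3) + (c + C0 + 3) +
    C0 * (2 * (c + p + 4) + 1) ^ (p * e) := ⟨_, rfl⟩
  refine ⟨C, fun τ n k hn hk F hF T hT => ?_⟩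
  obtain ⟨hM, hTN, -, hK, hfan⟩ := hT
  obtain ⟨Z, hZ⟩ : ∃ Z, Z = 2 ^ k * (n + 2) := ⟨_, rfl⟩
  have hZ2 : 2 ≤ Z := by
    rw [hZ]
    calc 2 = 1 * 2 := rfl
      _ ≤ 2 ^ k * (n + 2) := Nat.mul_le_mul Nat.one_le_two_pow (by omega)
  have hZa : ∀ x y : ℕ, x ≤ y → Z ^ x ≤ Z ^ y := fun x y h => Nat.pow_le_pow_right (by omega) h
  have hKZ := K_le_Z hn hk hq hK
  rw [← hZ] at hM hTN hKZ
  obtain ⟨L, hL⟩ : ∃ L, L = Nat.log 2 (n + 1) := ⟨_, rfl⟩
  rw [← hL] at hK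
  have hTN1 : 1 ≤ T.N := by
    have := (T.par 0).2
    omega
  obtain ⟨n', hn'⟩ : ∃ n', n' = n + T.M + (T.K + 1) := ⟨_, rfl⟩
  have hMn : T.M ≤ n' := by omega
  have hKn : T.K + 1 ≤ n' := by omega
  have hn1 : 1 ≤ n' := by omega
  have hnZ : n + 2 ≤ Z := by rw [hZ]; exact Nat.le_mul_of_pos_left _ Nat.one_le_two_pow
  have hn'Z : n' + 2 ≤ Z ^ (c + p + 4) := by
    obtain ⟨y, hy⟩ : ∃ y, y = c + p + 1 := ⟨_, rfl⟩
    have h1 : n + 2 ≤ Z ^ y := hnZ.trans (Nat.le_self_pow (by omega) Z)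
    have h2 : T.M ≤ Z ^ y := hM.trans (hZa _ _ (by omega))
    have h3 : T.K ≤ Z ^ y := hKZ.trans (hZa _ _ (by omega))
    have h4 : 1 ≤ Z ^ y := Nat.one_le_pow _ _ (by omega)
    have e5 : c + p + 4 = y + 3 := by omega
    rw [e5]
    calc n' + 2 ≤ 2 ^ 3 * Z ^ y := by omega
      _ ≤ Z ^ 3 * Z ^ y := Nat.mul_le_mul_right _ (Nat.pow_le_pow_left hZ2 3)
      _ = Z ^ (y + 3) := by rw [← pow_add, add_comm]
  have hkZ : 2 ^ k ≤ Z := by rw [hZ]; exact Nat.le_mul_of_pos_right _ (by omega)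
  have hZ' : 2 ^ k * (n' + 2) ≤ Z ^ E1 := by
    calc 2 ^ k * (n' + 2) ≤ Z * Z ^ (c + p + 4) := Nat.mul_le_mul hkZ hn'Z
      _ = Z ^ E1 := by rw [← pow_succ', hE1]
  have hnL : L ≤ Nat.log 2 (n' + 1) := by
    rw [hL]
    exact Nat.log_mono_right (by omega)
  -- the generic transformation
  have hgen : (genT τ' T.M T.K n' hMn hKn).BoundedPow p q k (c + 1) := by
    have h1 : T.M ≤ (2 ^ k * (n' + 2)) ^ (c + 1) := by
      calc T.M ≤ 2 ^ k * (n' + 2) := by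
            calc T.M ≤ n' + 2 := by omega
              _ ≤ 2 ^ k * (n' + 2) := Nat.le_mul_of_pos_left _ Nat.one_le_two_pow
        _ ≤ _ := Nat.le_self_pow (by omega) _
    have h2 : T.K ^ q ≤ (c + 1) * (k + Nat.log 2 (n' + 1) + 1) ^ p := by
      refine hK.trans (Nat.mul_le_mul (by omega) (Nat.pow_le_pow_left (by omega) _))
    have h3 : 1 ≤ (2 ^ k * (n' + 2)) ^ (c + 1) :=
      Nat.one_le_pow _ _ (Nat.mul_pos (by positivity) (by omega))
    exact ⟨h1, h2, fun a => ⟨Nat.zero_le _, h3⟩, fun R v => ⟨Nat.zero_le _, h3⟩,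
      fun j => ⟨Nat.zero_le _, h3⟩⟩
  obtain ⟨T', ⟨hM', hK', hdom, hrel, hpar⟩, hcor⟩ := hC0 (outVoc τ') n' k hn1 hk _ hgen
  have hsz0 : (2 ^ k * (n' + 2)) ^ C0 ≤ Z ^ (E1 * C0) := by
    rw [pow_mul]
    exact Nat.pow_le_pow_left hZ' _
  have hKZ' : T'.K ≤ Z ^ (E1 * (C0 + p * e)) := by
    refine (K_le_Z hn1 hk hq hK').trans ?_
    rw [pow_mul]
    exact Nat.pow_le_pow_left hZ' _
  have hdep : ∀ a, (outFm T' a).depth ≤ C0 := by
    rintro (a | e | j)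
    · exact (hdom a).1
    · exact (hrel e.1 e.2).1
    · exact (hpar j).1
  have hsz : ∀ a, (outFm T' a).size ≤ Z ^ (E1 * C0) := by
    rintro (a | e | j)
    · exact (hdom a).2.trans hsz0
    · exact (hrel e.1 e.2).2.trans hsz0
    · exact (hpar j).2.trans hsz0
  have h1 := cmp_over T F hTN1 hfan hF n' (outFm T') C0 (Z ^ (E1 * C0)) hdep hsz
  obtain ⟨C', hCN, hCD, hCM, hCK, hCF, hCc⟩ := mkC_ex T' (fun x => starX T n' x) h1
  refine ⟨C', ?_, ⟨?_, ?_, le_rfl, ?_, hCF⟩, ?_⟩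
  · rw [hCD]
    omega
  · rw [hCM, ← hZ]
    exact (hM'.trans hsz0).trans (hZa _ _ (by omega))
  · rw [hCN, ← hZ]
    have h2 := hE Z T'.M T'.K (Z ^ (E1 * C0)) hZ2 (hM'.trans hsz0) hKZ' le_rfl
    obtain ⟨y, hy⟩ : ∃ y, y = c + E + 1 := ⟨_, rfl⟩
    have h3 : T.N ≤ Z ^ y := hTN.trans (hZa _ _ (by omega))
    have h4 := h2.trans (hZa E y (by omega))
    have h5 : 2 ≤ Z ^ y := hZ2.trans (Nat.le_self_pow (by omega) Z)
    calc T.N + 1 + (Fintype.card (OutI T'.M T'.K (srcVt m d)) * Z ^ (E1 * C0) + 1) + 1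
        ≤ 2 ^ 2 * Z ^ y := by omega
      _ ≤ Z ^ 2 * Z ^ y := Nat.mul_le_mul_right _ (Nat.pow_le_pow_left hZ2 2)
      _ = Z ^ (y + 2) := by rw [← pow_add, add_comm]
      _ ≤ Z ^ C := hZa _ _ (by omega)
  · rw [hCK, ← hL]
    refine hK'.trans ?_
    have e2 : n + 2 ≤ 2 ^ (L + 2) := by
      have : n + 1 < 2 ^ (L + 1) := by
        rw [hL]
        exact Nat.lt_pow_succ_log_self (by norm_num) _
      have e3 : 2 ^ (L + 2) = 2 ^ (L + 1) * 2 := by rw [pow_succ 2 (L + 1)]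
      omega
    have e4 : Z ≤ 2 ^ (k + L + 2) := by
      rw [hZ]
      calc 2 ^ k * (n + 2) ≤ 2 ^ k * 2 ^ (L + 2) := Nat.mul_le_mul_left _ e2
        _ = 2 ^ (k + L + 2) := by rw [← pow_add]; congr 1
    have e5 : Nat.log 2 (n' + 1) ≤ (k + L + 2) * (c + p + 4) := by
      calc Nat.log 2 (n' + 1) ≤ Nat.log 2 (2 ^ ((k + L + 2) * (c + p + 4))) := by
            apply Nat.log_mono_right
            refine (show n' + 1 ≤ Z ^ (c + p + 4) by omega).trans ?_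
            rw [pow_mul]
            exact Nat.pow_le_pow_left e4 _
        _ = _ := Nat.log_pow (by norm_num) _
    have e6 : k + Nat.log 2 (n' + 1) + 1 ≤ (2 * (c + p + 4) + 1) * (k + L + 1) := by
      calc k + Nat.log 2 (n' + 1) + 1 ≤ (k + L + 2) * (c + p + 4) + (k + L + 1) := by omega
        _ ≤ (2 * (k + L + 1)) * (c + p + 4) + (k + L + 1) := by
            apply Nat.add_le_add_right
            exact Nat.mul_le_mul_right _ (by omega)
        _ = _ := by ring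
    calc C0 * (k + Nat.log 2 (n' + 1) + 1) ^ (p * e) ≤
        C0 * ((2 * (c + p + 4) + 1) * (k + L + 1)) ^ (p * e) :=
          Nat.mul_le_mul_left _ (Nat.pow_le_pow_left e6 _)
      _ = C0 * (2 * (c + p + 4) + 1) ^ (p * e) * (k + L + 1) ^ (p * e) := by
          rw [mul_pow]; ring
      _ ≤ C * (k + L + 1) ^ (p * e) := by
          apply Nat.mul_le_mul_right
          rw [hC]
          omega
  · intro A j hj
    obtain ⟨j1, h2, h3⟩ := hcor (starX T n' (bits A)) j (fun j' => by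
      rw [gen_par T hMn hKn]
      exact hj j')
    obtain ⟨j'', h4, h5⟩ := hCc A j1 h2
    refine ⟨j'', h4, ?_⟩
    rw [← gen_WD T hMn hKn, h3, h5]

end

end Pool.Agent.Helper265_EW.Y
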