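import Pool.Agent.Helper265_EW.XMain

set_option linter.unusedSectionVars false

/-! Parameters for circuits of depth a small power of `k + log n`. -/

namespace Pool.Agent.Helper265_EW.Y

open Finset Classical Pool.Agent.H592R2

noncomputable section

/-- bounded by a polynomial in `z` times `2 ^ (r * z)` -/
def BD (r : ℕ) (f : ℕ → ℕ) : Prop := ∃ c0 r0, ∀ z, f z ≤ c0 * (z + 1) ^ r0 * (2 ^ z) ^ r

lemma BD.const (a : ℕ) : BD 0 (fun _ => a) := ⟨a, 0, fun z => by simp⟩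

lemma BD.var : BD 0 (fun z => z) := ⟨1, 1, fun z => by simp⟩

lemma BD.two : BD 1 (fun z => 2 ^ z) := ⟨1, 0, fun z => by simp⟩

lemma BD.mono {r r' : ℕ} {f : ℕ → ℕ} (h : BD r f) (hr : r ≤ r') : BD r' f := by
  obtain ⟨c0, r0, h⟩ := h
  exact ⟨c0, r0, fun z => (h z).trans (Nat.mul_le_mul_left _
    (Nat.pow_le_pow_right Nat.one_le_two_pow hr))⟩

lemma BD.add {r : ℕ} {f g : ℕ → ℕ} (hf : BD r f) (hg : BD r g) : BD r (fun z => f z + g z) := by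
  obtain ⟨c1, r1, h1⟩ := hf
  obtain ⟨c2, r2, h2⟩ := hg
  refine ⟨c1 + c2, r1 + r2, fun z => ?_⟩
  have a1 : (z + 1) ^ r1 ≤ (z + 1) ^ (r1 + r2) := Nat.pow_le_pow_right (by omega) (by omega)
  have a2 : (z + 1) ^ r2 ≤ (z + 1) ^ (r1 + r2) := Nat.pow_le_pow_right (by omega) (by omega)
  calc f z + g z ≤ c1 * (z + 1) ^ (r1 + r2) * (2 ^ z) ^ r + c2 * (z + 1) ^ (r1 + r2) *
        (2 ^ z) ^ r :=
        Nat.add_le_add
          ((h1 z).trans (Nat.mul_le_mul_right _ (Nat.mul_le_mul_left _ a1)))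
          ((h2 z).trans (Nat.mul_le_mul_right _ (Nat.mul_le_mul_left _ a2)))
    _ = _ := by ring

lemma BD.mul {r s : ℕ} {f g : ℕ → ℕ} (hf : BD r f) (hg : BD s g) :
    BD (r + s) (fun z => f z * g z) := by
  obtain ⟨c1, r1, h1⟩ := hf
  obtain ⟨c2, r2, h2⟩ := hg
  refine ⟨c1 * c2, r1 + r2, fun z => ?_⟩
  calc f z * g z ≤ _ := Nat.mul_le_mul (h1 z) (h2 z)
    _ = _ := by ring

lemma BD.pow {r : ℕ} {f : ℕ → ℕ} (hf : BD r f) (m : ℕ) : BD (r * m) (fun z => f z ^ m) := by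
  obtain ⟨c1, r1, h1⟩ := hf
  refine ⟨c1 ^ m, r1 * m, fun z => ?_⟩
  calc f z ^ m ≤ _ := Nat.pow_le_pow_left (h1 z) m
    _ = _ := by rw [mul_pow, mul_pow, ← pow_mul (z + 1), ← pow_mul ((2 : ℕ) ^ z)]

lemma BD.ev {r e : ℕ} {f : ℕ → ℕ} (hf : BD r f) (hr : r + 1 ≤ e) :
    ∃ z0, ∀ z, z0 ≤ z → f z ≤ 2 ^ (e * z) := by
  obtain ⟨c0, r0, h⟩ := hf
  obtain ⟨z0, hz0⟩ := ev_pow (c0 * 2 ^ r0) r0
  refine ⟨z0 + 1, fun z hz => (h z).trans ?_⟩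
  have h1 := hz0 z (by omega)
  have h2 : c0 * (z + 1) ^ r0 ≤ 2 ^ z := by
    calc c0 * (z + 1) ^ r0 ≤ c0 * (2 * z) ^ r0 :=
          Nat.mul_le_mul_left _ (Nat.pow_le_pow_left (by omega) _)
      _ = c0 * 2 ^ r0 * z ^ r0 := by rw [mul_pow]; ring
      _ ≤ _ := h1
  calc c0 * (z + 1) ^ r0 * (2 ^ z) ^ r ≤ 2 ^ z * (2 ^ z) ^ r := Nat.mul_le_mul_right _ h2
    _ = 2 ^ ((r + 1) * z) := by rw [← pow_succ', ← pow_mul, mul_comm]
    _ ≤ 2 ^ (e * z) := Nat.pow_le_pow_right (by norm_num) (Nat.mul_le_mul_right _ hr)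

/-- the parameters are small -/
lemma params (E c5 qs v d d' p q m Lv C1 C2 C4 cF : ℕ) (hq : 1 ≤ q) : ∃ z0, ∀ z, z0 ≤ z →
    ∀ x D S sg α a Cw C3 Cκ κ : ℕ, x = (q * (2 * d + 6) + 1) * z → D = c5 * 2 ^ z + (qs + 5) →
      S = 3 * (2 * D + 6) * E + d + 3 → sg = sgr (d + 2) S → α = 2 * sg * D → a = α + 4 →
      Cw = (Lv + 1 + 2 ^ d') * S ^ (d + 2) → C3 = C1 + C4 + 3 + S ^ (d + 2) →
      Cκ = (2 * Cw) ^ q * (2 ^ q * (C2 + 1)) ^ d' →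
      κ = (3 + (5 + v * x * (2 * p + d + 7)) * (m + 1)) + (4 * α + 40) + (sg * S + 3) + C1 +
        2 * C3 + a →
      Cκ * κ ^ q ≤ 2 ^ x ∧ 4 * a * κ ≤ 2 ^ x ∧ a * (cF * (x + 1) + S) ≤ 2 ^ x ∧ D ≤ 2 ^ x := by
  obtain ⟨e1, he1⟩ : ∃ e1, e1 = q * (2 * d + 6) + 1 := ⟨_, rfl⟩
  have hc : ∀ a r : ℕ, BD r (fun _ => a) := fun a r => (BD.const a).mono (Nat.zero_le _)
  have pD : BD 1 (fun z => c5 * 2 ^ z + (qs + 5)) :=
    (((BD.const c5).mul BD.two).mono (by omega)).add (hc _ _)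
  obtain ⟨fD, hfD⟩ : ∃ fD : ℕ → ℕ, fD = fun z => c5 * 2 ^ z + (qs + 5) := ⟨_, rfl⟩
  rw [← hfD] at pD
  have pS : BD 1 (fun z => 3 * (2 * fD z + 6) * E + d + 3) :=
    ((((((BD.const 3).mul ((((BD.const 2).mul pD).mono (by omega : 0 + 1 ≤ 1)).add
      (hc 6 1))).mul (BD.const E)).mono (by omega : 0 + 1 + 0 ≤ 1)).add (hc d 1)).add (hc 3 1))
  obtain ⟨fS, hfS⟩ : ∃ fS : ℕ → ℕ, fS = fun z => 3 * (2 * fD z + 6) * E + d + 3 := ⟨_, rfl⟩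
  rw [← hfS] at pS
  have pSd : BD (d + 2) (fun z => fS z ^ (d + 2)) := (pS.pow (d + 2)).mono (by omega)
  have pg : BD (d + 2) (fun z => sgr (d + 2) (fS z)) := (pS.mono (by omega)).add pSd
  obtain ⟨fg, hfg⟩ : ∃ fg : ℕ → ℕ, fg = fun z => sgr (d + 2) (fS z) := ⟨_, rfl⟩
  rw [← hfg] at pg
  have pα : BD (d + 3) (fun z => 2 * fg z * fD z) :=
    (((BD.const 2).mul pg).mul pD).mono (by omega)
  obtain ⟨fα, hfα⟩ : ∃ fα : ℕ → ℕ, fα = fun z => 2 * fg z * fD z := ⟨_, rfl⟩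
  rw [← hfα] at pα
  have pa : BD (d + 3) (fun z => fα z + 4) := pα.add (hc 4 _)
  obtain ⟨fa, hfa⟩ : ∃ fa : ℕ → ℕ, fa = fun z => fα z + 4 := ⟨_, rfl⟩
  rw [← hfa] at pa
  have pw : BD (d + 2) (fun z => (Lv + 1 + 2 ^ d') * fS z ^ (d + 2)) :=
    ((BD.const _).mul pSd).mono (by omega)
  obtain ⟨fw, hfw⟩ : ∃ fw : ℕ → ℕ, fw = fun z => (Lv + 1 + 2 ^ d') * fS z ^ (d + 2) := ⟨_, rfl⟩
  rw [← hfw] at pw
  have p3 : BD (d + 2) (fun z => C1 + C4 + 3 + fS z ^ (d + 2)) := (hc _ _).add pSd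
  obtain ⟨f3, hf3⟩ : ∃ f3 : ℕ → ℕ, f3 = fun z => C1 + C4 + 3 + fS z ^ (d + 2) := ⟨_, rfl⟩
  rw [← hf3] at p3
  have pκ' : BD ((d + 2) * q) (fun z => (2 * fw z) ^ q * (2 ^ q * (C2 + 1)) ^ d') :=
    (((((BD.const 2).mul pw).mono (by omega : 0 + (d + 2) ≤ d + 2)).pow q).mul
      (BD.const _)).mono (by omega)
  obtain ⟨fK, hfK⟩ : ∃ fK : ℕ → ℕ, fK = fun z => (2 * fw z) ^ q * (2 ^ q * (C2 + 1)) ^ d' :=
    ⟨_, rfl⟩
  rw [← hfK] at pκ'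
  have px : BD 0 (fun z => e1 * z) := (BD.const e1).mul BD.var
  obtain ⟨fx, hfx⟩ : ∃ fx : ℕ → ℕ, fx = fun z => e1 * z := ⟨_, rfl⟩
  rw [← hfx] at px
  have p0 : BD (d + 3) (fun z => 3 + (5 + v * fx z * (2 * p + d + 7)) * (m + 1)) := by
    have h1 : BD 0 (fun z => v * fx z * (2 * p + d + 7)) :=
      ((BD.const v).mul px).mul (BD.const _)
    have h2 : BD 0 (fun z => (5 + v * fx z * (2 * p + d + 7)) * (m + 1)) :=
      ((BD.const 5).add h1).mul (BD.const _)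
    exact ((BD.const 3).add h2).mono (Nat.zero_le _)
  have pgS : BD (d + 3) (fun z => fg z * fS z) := (pg.mul pS).mono (by omega)
  have p4α : BD (d + 3) (fun z => 4 * fα z) := ((BD.const 4).mul pα).mono (by omega)
  have p23 : BD (d + 3) (fun z => 2 * f3 z) := ((BD.const 2).mul p3).mono (by omega)
  have pκ : BD (d + 3) (fun z => (3 + (5 + v * fx z * (2 * p + d + 7)) * (m + 1)) +
      (4 * fα z + 40) + (fg z * fS z + 3) + C1 + 2 * f3 z + fa z) :=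
    (((((p0.add (p4α.add (hc 40 _))).add (pgS.add (hc 3 _))).add (hc C1 _)).add p23).add pa)
  obtain ⟨fκ, hfκ⟩ : ∃ fκ : ℕ → ℕ, fκ = fun z => (3 + (5 + v * fx z * (2 * p + d + 7)) *
    (m + 1)) + (4 * fα z + 40) + (fg z * fS z + 3) + C1 + 2 * f3 z + fa z := ⟨_, rfl⟩
  rw [← hfκ] at pκ
  have hdq : 2 * d + 6 ≤ q * (2 * d + 6) := Nat.le_mul_of_pos_left _ hq
  obtain ⟨x1, h1⟩ := (pκ'.mul (pκ.pow q)).ev (e := e1) (by
    rw [he1]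
    have : (d + 2) * q + (d + 3) * q = q * (2 * d + 5) := by ring
    rw [this]
    have : q * (2 * d + 5) ≤ q * (2 * d + 6) := Nat.mul_le_mul_left _ (by omega)
    omega)
  obtain ⟨x2, h2⟩ := (((BD.const 4).mul pa).mul pκ).ev (e := e1) (by omega)
  have p5 : BD 1 (fun z => cF * (fx z + 1) + fS z) :=
    ((((BD.const cF).mul (px.add (BD.const 1))).mono (by omega : 0 + 0 ≤ 1))).add pS
  obtain ⟨x3, h3⟩ := (pa.mul p5).ev (e := e1) (by omega)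
  obtain ⟨x4, h4⟩ := pD.ev (e := e1) (by omega)
  refine ⟨x1 + x2 + x3 + x4,
    fun z hz x D S sg α a Cw C3 Cκ κ ex eD eS eg eα ea ew e3 eK eκ => ?_⟩
  have gx : x = fx z := by rw [ex, hfx, he1]
  have gD : D = fD z := by rw [eD, hfD]
  have gS : S = fS z := by rw [eS, gD, hfS]
  have gg : sg = fg z := by rw [eg, gS, hfg]
  have gα : α = fα z := by rw [eα, gg, gD, hfα]
  have ga : a = fa z := by rw [ea, gα, hfa]
  have gw : Cw = fw z := by rw [ew, gS, hfw]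
  have g3 : C3 = f3 z := by rw [e3, gS, hf3]
  have gK : Cκ = fK z := by rw [eK, gw, hfK]
  have gκ : κ = fκ z := by rw [eκ, gα, gg, gS, g3, ga, gx, hfκ]
  have gx' : x = e1 * z := by rw [ex, he1]
  rw [gK, gκ, ga, gS, gD, gx']
  have gfx : fx z = e1 * z := by rw [hfx]
  have h3' := h3 z (by omega)
  simp only [gfx] at h3'
  exact ⟨h1 z (by omega), h2 z (by omega), h3', h4 z (by omega)⟩

lemma add_pow_bd (a D e : ℕ) : (a + D) ^ e ≤ (a + 1) ^ e * (D ^ e + 1) := by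
  rcases Nat.eq_zero_or_pos D with rfl | h
  · calc (a + 0) ^ e ≤ (a + 1) ^ e := Nat.pow_le_pow_left (by omega) _
      _ ≤ _ := Nat.le_mul_of_pos_right _ (Nat.succ_pos _)
  · calc (a + D) ^ e ≤ ((a + 1) * D) ^ e := Nat.pow_le_pow_left (by nlinarith) _
      _ = (a + 1) ^ e * D ^ e := mul_pow _ _ _
      _ ≤ _ := Nat.mul_le_mul_left _ (by omega)

end

end Pool.Agent.Helper265_EW.Y
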