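import Pool.Agent.Helper265_EW.ZLow

set_option linter.unusedSectionVars false

/-! The lowest levels. -/

namespace Pool.Agent.Helper265_EW.Z

open Finset Classical Pool.Agent.Helper265_EW.G Pool.Agent.Helper265_EW.P
open Pool.Agent.Helper265_EW.C Pool.Agent.Helper265_EW.X Pool.Agent.Helper265_EW.Y

noncomputable section

/-- the constant for the number of inputs of gates -/
def fanC (g c A : ℕ) : ℕ := 2 ^ (g + 3) * ((4 * c) ^ (g + 3) + (c * A) ^ 2 * (c * A ^ g))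

/-- bound on the number of inputs of gates after a composition -/
lemma fan_sq {g c A k k' L f y' : ℕ} (hk : 1 ≤ k) (hkL : k ^ 3 = L) (hk4 : k' ≤ 4 * k ^ 2)
    (hy1 : 1 ≤ y') (hy : y' ≤ A * (k + L + 1)) (hf : f ^ (g + 1) ≤ c * y' ^ g) :
    (c * k' + f) ^ (g + 2 + 1) ≤ fanC g c A * (k + L + 1) ^ (g + 2) := by
  obtain ⟨Y, hY⟩ : ∃ Y, Y = k + L + 1 := ⟨_, rfl⟩
  rw [← hY] at hy ⊢
  have hY1 : 1 ≤ Y := by omega
  have h1 : (c * k') ^ (g + 3) ≤ (4 * c) ^ (g + 3) * Y ^ (g + 2) := by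
    calc (c * k') ^ (g + 3) ≤ (c * (4 * k ^ 2)) ^ (g + 3) :=
          Nat.pow_le_pow_left (Nat.mul_le_mul_left _ hk4) _
      _ = (4 * c) ^ (g + 3) * k ^ (2 * (g + 3)) := by rw [pow_mul, ← mul_pow]; ring
      _ ≤ (4 * c) ^ (g + 3) * k ^ (3 * (g + 2)) :=
          Nat.mul_le_mul_left _ (Nat.pow_le_pow_right hk (by omega))
      _ = (4 * c) ^ (g + 3) * L ^ (g + 2) := by rw [pow_mul, hkL]
      _ ≤ _ := Nat.mul_le_mul_left _ (Nat.pow_le_pow_left (by omega) _)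
  have h2 : f ≤ c * A * Y := by
    rcases Nat.eq_zero_or_pos c with h0 | h0
    · rw [h0, zero_mul] at hf
      have : f = 0 := by
        rcases Nat.eq_zero_or_pos f with h | h
        · exact h
        · have := Nat.one_le_pow (g + 1) f h
          omega
      omega
    · rw [← Nat.pow_le_pow_iff_left (show g + 1 ≠ 0 by omega)]
      calc f ^ (g + 1) ≤ c * y' ^ g := hf
        _ ≤ (c * y') ^ (g + 1) := by
          rw [mul_pow]
          exact Nat.mul_le_mul (Nat.le_self_pow (by omega) _)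
            (Nat.pow_le_pow_right hy1 (by omega))
        _ ≤ (c * A * Y) ^ (g + 1) := by
          apply Nat.pow_le_pow_left
          rw [mul_assoc]
          exact Nat.mul_le_mul_left _ hy
  have h3 : f ^ (g + 3) ≤ (c * A) ^ 2 * (c * A ^ g) * Y ^ (g + 2) := by
    calc f ^ (g + 3) = f ^ 2 * f ^ (g + 1) := by ring
      _ ≤ (c * A * Y) ^ 2 * (c * (A * Y) ^ g) := by
          apply Nat.mul_le_mul (Nat.pow_le_pow_left h2 2)
          exact hf.trans (Nat.mul_le_mul_left _ (Nat.pow_le_pow_left hy _))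
      _ = (c * A) ^ 2 * (c * A ^ g) * Y ^ (g + 2) := by rw [mul_pow, mul_pow A Y g]; ring
  calc (c * k' + f) ^ (g + 2 + 1) ≤ (2 * max (c * k') f) ^ (g + 3) :=
        Nat.pow_le_pow_left (by
          have := le_max_left (c * k') f
          have := le_max_right (c * k') f
          omega) _
    _ = 2 ^ (g + 3) * (max (c * k') f) ^ (g + 3) := mul_pow _ _ _
    _ ≤ 2 ^ (g + 3) * ((c * k') ^ (g + 3) + f ^ (g + 3)) := by
        apply Nat.mul_le_mul_left
        rcases le_total (c * k') f with h | h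
        · rw [max_eq_right h]; omega
        · rw [max_eq_left h]; omega
    _ ≤ 2 ^ (g + 3) * ((4 * c) ^ (g + 3) * Y ^ (g + 2) +
        (c * A) ^ 2 * (c * A ^ g) * Y ^ (g + 2)) :=
        Nat.mul_le_mul_left _ (Nat.add_le_add h1 h3)
    _ = fanC g c A * Y ^ (g + 2) := by unfold fanC; ring

/-- Composition of a quantifier-free interpretation with new parameter `(k + 1) ^ 2` and a
circuit reduction, on the instances with `k ^ 3 = log₂ (n + 1)`. -/
theorem comp_sq {τ τ' τ'' : Voc} {s t s' t' s'' t'' : ℕ} {φ : PiF τ s t} {φ' : PiF τ' s' t'}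
    {φ'' : PiF τ'' s'' t''} (I : QInt τ τ') (hI : Indep I)
    (hne : ∀ n k, 1 ≤ n → Nonempty (I.Univ (nul τ n) k))
    (hcor : ∀ n k : ℕ, 1 ≤ n → ∀ A : Str τ (Fin n), (WDF φ A k ↔ WDF φ' (I.out A k) ((k + 1) ^ 2)))
    {p q : ℕ} (h : RedF p q φ' φ'') : RedFAt 1 3 p q φ φ'' := by
  obtain ⟨g, h⟩ := h
  refine ⟨g + 2, fun e => ?_⟩
  obtain ⟨c, hc⟩ := h e
  obtain ⟨a, b, hab⟩ := univ_bd I
  have hfT := I.finTag
  have hfI := I.finIx
  obtain ⟨A0', hA0'⟩ : ∃ A0', A0' = 2 * (a + b + 1) + 2 := ⟨_, rfl⟩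
  obtain ⟨A0, hA0⟩ : ∃ A0, A0 = A0' + 4 := ⟨_, rfl⟩
  -- the number of gates
  have hPB : PB (fun Z => (∑ R : Fin τ'.num, (Z ^ (a + b)) ^ τ'.ar R) * szI I + 1 +
      Z ^ ((a + b + 7) * c) + 1) :=
    ((((PB_sum Finset.univ _ (fun R => (PB.var.pow (a + b)).pow (τ'.ar R))).mul
      (PB.const (szI I))).add (PB.const 1)).add (PB.var.pow _)).add (PB.const 1)
  obtain ⟨E, hE⟩ := hPB
  obtain ⟨C, hC⟩ : ∃ C, C = E + (a + b + 7) * c + c * A0 ^ p + fanC g c A0 +
    5 ^ e * (c * A0 + 1) := ⟨_, rfl⟩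
  refine ⟨C, fun n k hn hk hkL => ?_⟩
  obtain ⟨n', hn'⟩ : ∃ n', n' = Nat.card (I.Univ (nul τ n) k) := ⟨_, rfl⟩
  have hfin : Finite (I.Univ (nul τ n) k) := by
    unfold QInt.Univ
    infer_instance
  have e₀ : I.Univ (nul τ n) k ≃ Fin n' := by
    rw [hn']
    exact Finite.equivFin _
  have hn1 : 1 ≤ n' := by
    rw [hn']
    have := hne n k hn
    exact Nat.card_pos
  obtain ⟨hb1, hb2, hb3⟩ := num_bd (n' := n') a b hn hk (by rw [hn']; exact hab n k (nul τ n))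
  rw [← hA0'] at hb3
  obtain ⟨k', hk'⟩ : ∃ k', k' = (k + 1) ^ 2 := ⟨_, rfl⟩
  have hk'1 : 1 ≤ k' := by rw [hk']; exact Nat.one_le_pow _ _ (by omega)
  obtain ⟨f, T, hf, hTD, ⟨hM, hTN, -, hK, hfan⟩, hT⟩ := hc n' k' hn1 hk'1
  obtain ⟨Z, hZ⟩ : ∃ Z, Z = 2 ^ k * (n + 2) := ⟨_, rfl⟩
  obtain ⟨L, hL⟩ : ∃ L, L = Nat.log 2 (n + 1) := ⟨_, rfl⟩
  have hL1 : 1 ≤ L := by rw [hL]; exact Nat.log_pos (by norm_num) (by omega)
  rw [← hL] at hb3 hkL
  have hk4 : k' ≤ 4 * k ^ 2 := by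
    rw [hk']
    calc (k + 1) ^ 2 ≤ (2 * k) ^ 2 := Nat.pow_le_pow_left (by omega) _
      _ = 4 * k ^ 2 := by ring
  rw [pow_one] at hkL
  have hk4L : k' ≤ 4 * L := by
    refine hk4.trans (Nat.mul_le_mul_left _ ?_)
    rw [← hkL]
    exact Nat.pow_le_pow_right hk (by omega)
  have hb3' : k' + Nat.log 2 (n' + 1) + 1 ≤ A0 * (k + L + 1) := by
    calc k' + Nat.log 2 (n' + 1) + 1 ≤ 4 * (k + L + 1) + A0' * (k + L + 1) := by omega
      _ = A0 * (k + L + 1) := by rw [hA0]; ring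
  have hZ2 : 2 ≤ Z := by
    rw [hZ]
    calc 2 = 1 * 2 := rfl
      _ ≤ 2 ^ k * (n + 2) := Nat.mul_le_mul Nat.one_le_two_pow (by omega)
  rw [← hZ] at hb1 hb2
  have hb1' : 2 ^ k' * (n' + 2) ≤ Z ^ (a + b + 7) := by
    have e1 : 2 ^ L ≤ n + 1 := by
      have := Nat.pow_log_le_self 2 (x := n + 1) (by omega)
      rw [← hL] at this
      exact this
    have e2 : n + 1 ≤ Z := by
      have : n + 2 ≤ Z := by rw [hZ]; exact Nat.le_mul_of_pos_left _ (by positivity)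
      omega
    have e3 : n' + 2 ≤ 2 ^ (k + 1) * (n' + 2) := Nat.le_mul_of_pos_left _ (by positivity)
    calc 2 ^ k' * (n' + 2) ≤ 2 ^ (4 * L) * Z ^ (a + b + 3) :=
          Nat.mul_le_mul (Nat.pow_le_pow_right (by norm_num) hk4L) (e3.trans hb1)
      _ = (2 ^ L) ^ 4 * Z ^ (a + b + 3) := by rw [← pow_mul, mul_comm 4 L]
      _ ≤ Z ^ 4 * Z ^ (a + b + 3) :=
          Nat.mul_le_mul_right _ (Nat.pow_le_pow_left (e1.trans e2) 4)
      _ = Z ^ (a + b + 7) := by rw [← pow_add]; congr 1; omega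
  have hZc : (2 ^ k' * (n' + 2)) ^ c ≤ Z ^ ((a + b + 7) * c) := by
    rw [pow_mul]
    exact Nat.pow_le_pow_left hb1' _
  have hF1 : 1 ≤ 2 ^ (c * k' + f) := Nat.one_le_two_pow
  have hTN1 : 1 ≤ T.N := by
    have := (T.par 0).2
    omega
  -- the composed family
  have h1 := cmp_fm (F := 2 ^ (c * k' + f))
    (N := (∑ R : Fin τ'.num, n' ^ τ'.ar R) * szI I + 1) (c := 3) hF1
    (fun j : Bit τ' n' => gF I e₀ j true) (fun j => depth_gF I e₀ j true)
    (Nat.add_le_add_right (by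
      calc ∑ j : Bit τ' n', (gF I e₀ j true).size ≤ ∑ _j : Bit τ' n', szI I :=
            Finset.sum_le_sum fun j _ => size_gF I e₀ j true
        _ = (∑ R : Fin τ'.num, n' ^ τ'.ar R) * szI I := by
            rw [Finset.sum_const, smul_eq_mul, Finset.card_univ]
            congr 1
            simp only [Fintype.card_sigma, Fintype.card_fun, Fintype.card_fin]) 1)
  have h2 := cmp_layer (D := T.D) hTN1 T.cir hfan
  have h3 := h1.serial h2
  obtain ⟨C', hCN, hCD, hCM, hCK, hCF, hCc⟩ := mkCC_ex T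
    (fun x R w => decide ((gF I e₀ ⟨R, w⟩ true).Holds x)) h3
  refine ⟨c * k' + f, C', ?_, ?_, ⟨?_, ?_, le_rfl, ?_, ?_⟩, ?_⟩
  · rw [← hL]
    exact (fan_sq hk hkL hk4 (by omega) hb3' hf).trans (Nat.mul_le_mul_right _ (by omega))
  · rw [hCD, ← hL]
    have h5 : T.D ^ e ≤ c * A0 * (k + L + 1) := by
      refine hTD.trans ?_
      rw [mul_assoc]
      exact Nat.mul_le_mul_left _ hb3'
    calc (3 + 1 + T.D) ^ e ≤ (4 + 1) ^ e * (T.D ^ e + 1) := add_pow_bd 4 T.D e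
      _ ≤ 5 ^ e * (c * A0 * (k + L + 1) + (k + L + 1)) :=
          Nat.mul_le_mul_left _ (by omega)
      _ = 5 ^ e * (c * A0 + 1) * (k + L + 1) := by ring
      _ ≤ C * (k + L + 1) := Nat.mul_le_mul_right _ (by omega)
  · rw [hCM, ← hZ]
    exact (hM.trans hZc).trans (Nat.pow_le_pow_right (by omega) (by omega))
  · rw [hCN, ← hZ]
    refine le_trans ?_ ((hE Z hZ2).trans (Nat.pow_le_pow_right (by omega) (by omega)))
    apply Nat.add_le_add_right
    apply Nat.add_le_add _ (hTN.trans hZc)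
    apply Nat.add_le_add_right
    apply Nat.mul_le_mul_right
    exact Finset.sum_le_sum fun R _ => Nat.pow_le_pow_left hb2 _
  · rw [hCK]
    refine hK.trans ?_
    rw [← hL]
    calc c * (k' + Nat.log 2 (n' + 1) + 1) ^ p ≤ c * (A0 * (k + L + 1)) ^ p :=
          Nat.mul_le_mul_left _ (Nat.pow_le_pow_left hb3' _)
      _ = c * A0 ^ p * (k + L + 1) ^ p := by
          rw [mul_pow]; ring
      _ ≤ C * (k + L + 1) ^ p := by
          apply Nat.mul_le_mul_right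
          rw [hC]
          omega
  · intro i g
    exact hCF i g
  · intro A
    have hg : (fun R w => decide ((gF I e₀ ⟨R, w⟩ true).Holds (bits A)) : Str τ' (Fin n')) =
        outF I hI e₀ A := by
      funext R w
      rw [Bool.eq_iff_iff, decide_eq_true_eq]
      exact holds_gF I hI e₀ A ⟨R, w⟩ true
    obtain ⟨j, hj1, hj2⟩ := hT (outF I hI e₀ A)
    obtain ⟨j'', hj3, hj4⟩ := hCc A j (by rw [hg]; exact hj1)
    refine ⟨j'', hj3, ?_⟩
    rw [hcor n k hn A, ← hk', ← outF_WD I hI e₀ A, hj2, ← hj4 _ _ φ'', hg]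


/-- the normal form problem for `t = 2` and one occurrence does not reduce to formulas with at
most one block -/
theorem no_red_base (p q : ℕ) (hq : 1 ≤ q) (τ : Voc) (s : ℕ) (φ : PiF τ s 1) :
    ¬ RedF p q (normF (decide (0 % 2 = 0)) 0 1) φ := by
  intro hr
  have h2 := redF_congr (fun U A k => low1_WD φ A k) hr
  obtain ⟨I, h3, h4, h5⟩ := qg_norm 0 1 le_rfl 2 (by omega) (0 + 2) _ 1
    (srcFt (decide (0 % 2 = 0)) 0 1) (Or.inr ⟨rfl, Or.inl (by
      refine (occP_le _ _).trans ?_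
      have := srcFt_occ (decide (0 % 2 = 0)) 0 1
      unfold PiF.occ at this
      rw [this])⟩)
  refine no_redAt_F 0 1 0 p q 1 3 le_rfl hq le_rfl (by omega) ?_ (low1 φ)
    (by rw [low1_inner]) (comp_sq I h3 h4 h5 h2)
  rw [mul_zero]
  exact Nat.mul_pos hq (by omega)

/-- formulas of a lower level do not suffice -/
theorem no_red_lower' (m d : ℕ) (hd : 1 ≤ d) (p q t' : ℕ) (hq : 1 ≤ q)
    (τ : Voc) (s : ℕ) (φ : PiF τ s t') (h : t' < m + 2) :
    ¬ RedF p q (normF (decide (m % 2 = 0)) m d) φ := by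
  by_cases hmd : 1 ≤ m ∨ 2 ≤ d
  · exact no_red_lower m d hd hmd p q t' hq τ s φ h
  · obtain rfl : m = 0 := by omega
    obtain rfl : d = 1 := by omega
    have h0 : ∀ φ : PiF τ s 0, ¬ RedF p q (normF (decide (0 % 2 = 0)) 0 1) φ := fun φ hr =>
      no_red_base p q hq τ s (low0 φ) (redF_congr (fun U A k => low0_WD φ A k) hr)
    match t', φ, h with
    | 0, φ, _ => exact h0 φ
    | 1, φ, _ => exact no_red_base p q hq τ s φ
    | t'' + 2, φ, h => omega

end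

end Pool.Agent.Helper265_EW.Z
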