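import Pool.Agent.Helper265_EW.UDefs

/-! Reductions between weighted Fagin-definable problems that are computed by leveled circuits of
size `2 ^ O(k) * n ^ O(1)` and depth `(k + log n) ^ o(1)` whose gates are AND and OR gates
with any number of inputs and arbitrary gates with `2 ^ O (k + (log n) ^ (1 - δ))` inputs. -/

namespace Pool.Agent.Helper265_EW

/-- The weighted Fagin-definable problem of `φ` reduces to that of `φ'` by reductions computed
by (nonuniform) circuits of size `2 ^ O(k) * n ^ O(1)` and depth `O (y ^ (1 / e))`, for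
every `e`, where `y = k + log₂ (n + 1) + 1`, with AND and OR gates with any number of inputs and
with arbitrary gates with `2 ^ (O(k) + f)` inputs, where `f = O (y ^ (g / (g + 1)))` for some `g`,
whose new parameter is `O (y ^ (p / q))`. -/
def RedF (p q : ℕ) {τ τ' : Voc} {s s' t t' : ℕ} (φ : PiF τ s t) (φ' : PiF τ' s' t') : Prop :=
  ∃ g : ℕ, ∀ e : ℕ, ∃ c : ℕ, ∀ n k : ℕ, 1 ≤ n → 1 ≤ k →
    ∃ (f : ℕ) (T : CTr τ τ' n),
      f ^ (g + 1) ≤ c * (k + Nat.log 2 (n + 1) + 1) ^ g ∧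
      T.D ^ e ≤ c * (k + Nat.log 2 (n + 1) + 1) ∧
      T.Bounded p q k c T.D (2 ^ (c * k + f)) ∧ T.Correct φ φ' k

/-- The same as `RedF` for the problem of `φ` restricted to the instances `(A, k)` with
`k = (log₂ (n + 1)) ^ (u / v)`, where `n` is the number of elements of `A` and `log₂` is rounded
down, with arbitrary gates with `2 ^ f` inputs. -/
def RedFAt (u v p q : ℕ) {τ τ' : Voc} {s s' t t' : ℕ} (φ : PiF τ s t) (φ' : PiF τ' s' t') :
    Prop :=
  ∃ g : ℕ, ∀ e : ℕ, ∃ c : ℕ, ∀ n k : ℕ, 1 ≤ n → 1 ≤ k → k ^ v = Nat.log 2 (n + 1) ^ u →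
    ∃ (f : ℕ) (T : CTr τ τ' n),
      f ^ (g + 1) ≤ c * (k + Nat.log 2 (n + 1) + 1) ^ g ∧
      T.D ^ e ≤ c * (k + Nat.log 2 (n + 1) + 1) ∧
      T.Bounded p q k c T.D (2 ^ f) ∧ T.Correct φ φ' k

end Pool.Agent.Helper265_EW
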