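import Pool.Agent.Helper265_EW.ZRes

set_option linter.unusedSectionVars false

/-! Formulas with at most one block. -/

namespace Pool.Agent.Helper265_EW.Z

open Finset Classical Pool.Agent.Helper265_EW.G Pool.Agent.Helper265_EW.P

noncomputable section

/-- a formula without quantifiers as a formula with one empty block -/
def low0 {τ : Voc} {s : ℕ} (φ : PiF τ s 0) : PiF τ s 1 where
  len := fun _ => 0
  ψ := ren (V' := Empty ⊕ Fin 0) (fun v : Empty => Sum.inl v) φ.ψ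

lemma low0_WD {τ : Voc} {s : ℕ} {U : Type} (φ : PiF τ s 0) (A : Str τ U) (k : ℕ) :
    WDF (low0 φ) A k ↔ WDF φ A k := by
  apply exists_congr
  intro S
  apply and_congr Iff.rfl
  unfold PiF.Holds
  change lev 0 (fun b : Fin 0 → U => (low0 φ).ψ.Holds A S (Sum.elim Empty.elim b)) ↔
    φ.ψ.Holds A S Empty.elim
  have h : ∀ b : Fin 0 → U, (low0 φ).ψ.Holds A S (Sum.elim Empty.elim b) ↔
      φ.ψ.Holds A S Empty.elim := by
    intro b
    refine (holds_ren (V' := Empty ⊕ Fin 0) (fun v : Empty => Sum.inl v) A S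
      (Sum.elim Empty.elim b) φ.ψ).trans ?_
    exact Iff.rfl
  have : Nonempty (Fin 0 → U) := ⟨fun i => i.elim0⟩
  rw [lev_congr 0 h, lev_const]

/-- a formula with one block as a formula with an empty second block -/
def low1 {τ : Voc} {s : ℕ} (φ : PiF τ s 1) : PiF τ s 2 where
  len := fun i => match i with
    | 0 => φ.len 0
    | _ + 1 => 0
  ψ := ren (V' := (Empty ⊕ Fin (φ.len 0)) ⊕ Fin 0) (fun v : Empty ⊕ Fin (φ.len 0) => Sum.inl v)
    φ.ψ

lemma low1_WD {τ : Voc} {s : ℕ} {U : Type} (φ : PiF τ s 1) (A : Str τ U) (k : ℕ) :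
    WDF (low1 φ) A k ↔ WDF φ A k := by
  apply exists_congr
  intro S
  apply and_congr Iff.rfl
  unfold PiF.Holds
  change lev 0 (fun b0 : Fin (φ.len 0) → U => lev 1 (fun b : Fin 0 → U =>
    (low1 φ).ψ.Holds A S (Sum.elim (Sum.elim Empty.elim b0) b))) ↔
    lev 0 (fun b0 : Fin (φ.len 0) → U => φ.ψ.Holds A S (Sum.elim Empty.elim b0))
  apply lev_congr
  intro b0
  have h : ∀ b : Fin 0 → U, (low1 φ).ψ.Holds A S (Sum.elim (Sum.elim Empty.elim b0) b) ↔
      φ.ψ.Holds A S (Sum.elim Empty.elim b0) := by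
    intro b
    exact holds_ren (V' := (Empty ⊕ Fin (φ.len 0)) ⊕ Fin 0)
      (fun v : Empty ⊕ Fin (φ.len 0) => Sum.inl v) A S _ φ.ψ
  have : Nonempty (Fin 0 → U) := ⟨fun i => i.elim0⟩
  rw [lev_congr 1 h, lev_const]

lemma low1_inner {τ : Voc} {s : ℕ} (φ : PiF τ s 1) : (low1 φ).innerOcc = 0 := by
  apply occP_ren
  rintro v ⟨i, hi⟩
  exact hi

lemma redF_congr {p q : ℕ} {τ τ' : Voc} {s s' t t' t'' : ℕ} {φ : PiF τ s t} {φ' : PiF τ' s' t'}
    {φ'' : PiF τ' s' t''} (h : ∀ (U : Type) (A : Str τ' U) (k : ℕ), WDF φ'' A k ↔ WDF φ' A k)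
    (hr : RedF p q φ φ') : RedF p q φ φ'' := by
  obtain ⟨g, hr⟩ := hr
  refine ⟨g, fun e => ?_⟩
  obtain ⟨c, hc⟩ := hr e
  refine ⟨c, fun n k hn hk => ?_⟩
  obtain ⟨f, T, h1, h2, h3, h4⟩ := hc n k hn hk
  refine ⟨f, T, h1, h2, h3, fun A => ?_⟩
  obtain ⟨j, h5, h6⟩ := h4 A
  exact ⟨j, h5, h6.trans (h _ _ _).symm⟩

/-- formulas of a lower level do not suffice -/
theorem no_red_lower (m d : ℕ) (hd : 1 ≤ d) (hmd : 1 ≤ m ∨ 2 ≤ d) (p q t' : ℕ) (hq : 1 ≤ q)
    (τ : Voc) (s : ℕ) (φ : PiF τ s t') (h : t' < m + 2) :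
    ¬ RedF p q (normF (decide (m % 2 = 0)) m d) φ := by
  have h1 : ∀ φ : PiF τ s 1, ¬ RedF p q (normF (decide (m % 2 = 0)) m d) φ := by
    intro φ hr
    have h2 := redF_congr (fun U A k => low1_WD φ A k) hr
    rcases Nat.eq_zero_or_pos m with h0 | h0
    · refine no_red_normF m d hd p q 2 le_rfl hq τ s (low1 φ)
        (Or.inr ⟨by omega, by omega, ?_⟩) h2
      rw [low1_inner, mul_zero]
      exact Nat.mul_pos hq (by omega)
    · exact no_red_normF m d hd p q 2 le_rfl hq τ s (low1 φ) (Or.inl (by omega)) h2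
  match t', φ, h with
  | 0, φ, _ => exact fun hr => h1 (low0 φ) (redF_congr (fun U A k => low0_WD φ A k) hr)
  | 1, φ, _ => exact h1 φ
  | t'' + 2, φ, h => exact no_red_normF m d hd p q (t'' + 2) (by omega) hq τ s φ (Or.inl h)

end

end Pool.Agent.Helper265_EW.Z
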