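import Pool.Agent.Helper265_EW.ZDefs
import Pool.Agent.Helper265_EW.URes

set_option linter.unusedSectionVars false

/-! Lower bounds for circuits with larger arbitrary gates. -/

namespace Pool.Agent.Helper265_EW.Z

open Finset Classical Pool.Agent.Helper265_EW.G Pool.Agent.Helper265_EW.P
open Pool.Agent.Helper265_EW.C Pool.Agent.Helper265_EW.X Pool.Agent.Helper265_EW.Y

noncomputable section

/-- the largest admissible exponent -/
def rt (g c y : ℕ) : ℕ := Nat.findGreatest (fun f => f ^ (g + 1) ≤ c * y ^ g) (c * y ^ g)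

lemma le_rt {g c y f : ℕ} (h : f ^ (g + 1) ≤ c * y ^ g) : f ≤ rt g c y :=
  Nat.le_findGreatest ((Nat.le_self_pow (by omega) f).trans h) h

lemma rt_spec (g c y : ℕ) : rt g c y ^ (g + 1) ≤ c * y ^ g := by
  unfold rt
  exact Nat.findGreatest_spec (P := fun f => f ^ (g + 1) ≤ c * y ^ g) (m := 0) (Nat.zero_le _)
    (by simp)

lemma rt_le {g c x v k L : ℕ} (hv : g + 1 ≤ v) (hL : L = (2 ^ x) ^ v) (hk : k ≤ L) :
    rt g c (k + L + 1) ≤ c * 3 ^ g * (2 ^ x) ^ (v - 1) := by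
  have hL1 : 1 ≤ L := by rw [hL]; exact Nat.one_le_pow _ _ Nat.one_le_two_pow
  rw [← Nat.pow_le_pow_iff_left (show g + 1 ≠ 0 by omega)]
  calc rt g c (k + L + 1) ^ (g + 1) ≤ c * (k + L + 1) ^ g := rt_spec g c _
    _ ≤ c * (3 * L) ^ g := Nat.mul_le_mul_left _ (Nat.pow_le_pow_left (by omega) _)
    _ = c * 3 ^ g * ((2 ^ x) ^ (v * g)) := by rw [mul_pow, hL, ← pow_mul]; ring
    _ ≤ (c * 3 ^ g) ^ (g + 1) * ((2 ^ x) ^ ((v - 1) * (g + 1))) := by
        apply Nat.mul_le_mul (Nat.le_self_pow (by omega) _)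
        apply Nat.pow_le_pow_right Nat.one_le_two_pow
        obtain ⟨w, rfl⟩ : ∃ w, v = w + 1 := ⟨v - 1, by omega⟩
        rw [Nat.add_sub_cancel]
        nlinarith
    _ = _ := by rw [mul_pow (c * 3 ^ g), ← pow_mul (2 ^ x)]

/-- lower bounds on restricted instances -/
theorem no_redAt_F (m d d' p q u v : ℕ) (hd : 1 ≤ d) (hq : 1 ≤ q) (hu : 1 ≤ u) (huv : u ≤ v)
    (hpq : v * p * d' < q * (u * (d + 1)))
    {τ' : Voc} {s : ℕ} (φ : PiF τ' s (m + 2)) (hocc : φ.innerOcc ≤ d') :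
    ¬ RedFAt u v p q (srcFt (decide (m % 2 = 0)) m d) φ := by
  rintro ⟨g, h0⟩
  obtain ⟨c, hc⟩ := h0 ((q * (2 * d + 6) + 1) * (v * (g + 1)))
  refine no_red_Y m d d' p q (u * (g + 1)) (v * (g + 1)) hd hq
    (Nat.mul_pos hu (Nat.succ_pos g)) (Nat.mul_le_mul_right _ huv) ?_ φ hocc c (c * 3 ^ g)
    (fun n k => 2 ^ rt g c (k + Nat.log 2 (n + 1) + 1)) (fun n k => Nat.one_le_two_pow) ?_ ?_
  · calc v * (g + 1) * p * d' = (v * p * d') * (g + 1) := by ring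
      _ < (q * (u * (d + 1))) * (g + 1) := Nat.mul_lt_mul_of_pos_right hpq (Nat.succ_pos g)
      _ = q * (u * (g + 1) * (d + 1)) := by ring
  · intro x n hx
    apply Nat.pow_le_pow_right (by norm_num)
    rw [hx]
    refine (rt_le (Nat.le_mul_of_pos_left _ (by omega)) rfl
      (Nat.pow_le_pow_right Nat.one_le_two_pow (Nat.mul_le_mul_right _ huv))).trans ?_
    apply Nat.mul_le_mul_left
    exact Nat.le_mul_of_pos_right _ (by omega)
  · intro n k hn hk hkk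
    have hkk' : k ^ v = Nat.log 2 (n + 1) ^ u := by
      rw [pow_mul, pow_mul] at hkk
      exact Nat.pow_left_injective (show g + 1 ≠ 0 by omega) hkk
    obtain ⟨f, T, hf, hTD, ⟨a1, a2, a3, a4, a5⟩, hT⟩ := hc n k hn hk hkk'
    exact ⟨T, hTD, ⟨a1, a2, a3, a4, fun i g' => (a5 i g').trans
      (Nat.pow_le_pow_right (by norm_num) (le_rt hf))⟩, hT⟩

/-- lower bounds -/
theorem no_red_srcF (m d d' p q : ℕ) (hd : 1 ≤ d) (hq : 1 ≤ q) (hpq : p * d' < q * (d + 1))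
    {τ' : Voc} {s : ℕ} (φ : PiF τ' s (m + 2)) (hocc : φ.innerOcc ≤ d') :
    ¬ RedF p q (srcFt (decide (m % 2 = 0)) m d) φ := by
  rintro ⟨g, h0⟩
  obtain ⟨u, hu⟩ : ∃ u, u = p * d' + 1 + g := ⟨_, rfl⟩
  obtain ⟨c, hc⟩ := h0 ((q * (2 * d + 6) + 1) * (u + 1))
  have hlt : (u + 1) * p * d' < q * (u * (d + 1)) := by
    obtain ⟨y, hy⟩ : ∃ y, y = p * d' := ⟨_, rfl⟩
    obtain ⟨z, hz⟩ : ∃ z, z = q * (d + 1) := ⟨_, rfl⟩
    have e1 : (u + 1) * p * d' = u * y + y := by rw [hy]; ring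
    have e2 : q * (u * (d + 1)) = u * z := by rw [hz]; ring
    rw [e1, e2]
    have e3 : u * (y + 1) ≤ u * z := Nat.mul_le_mul_left _ (by omega)
    have e4 : u * (y + 1) = u * y + u := by ring
    omega
  refine no_red_Y m d d' p q u (u + 1) hd hq (by omega) (by omega) hlt φ hocc c
    (c + c * 3 ^ g) (fun n k => 2 ^ (c * k + rt g c (k + Nat.log 2 (n + 1) + 1)))
    (fun n k => Nat.one_le_two_pow) ?_ ?_
  · intro x n hx
    apply Nat.pow_le_pow_right (by norm_num)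
    rw [hx]
    have h1 : rt g c ((2 ^ x) ^ u + (2 ^ x) ^ (u + 1) + 1) ≤
        c * 3 ^ g * (2 ^ x) ^ (u + 1 - 1) :=
      rt_le (by omega) rfl (Nat.pow_le_pow_right Nat.one_le_two_pow (by omega))
    rw [Nat.add_sub_cancel] at h1 ⊢
    calc c * (2 ^ x) ^ u + rt g c ((2 ^ x) ^ u + (2 ^ x) ^ (u + 1) + 1)
        ≤ c * (2 ^ x) ^ u + c * 3 ^ g * (2 ^ x) ^ u := Nat.add_le_add_left h1 _
      _ = (c + c * 3 ^ g) * (2 ^ x) ^ u := by ring
      _ ≤ (c + c * 3 ^ g) * ((2 ^ x) ^ u * (x + 1)) :=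
          Nat.mul_le_mul_left _ (Nat.le_mul_of_pos_right _ (by omega))
  · intro n k hn hk _
    obtain ⟨f, T, hf, hTD, ⟨a1, a2, a3, a4, a5⟩, hT⟩ := hc n k hn hk
    exact ⟨T, hTD, ⟨a1, a2, a3, a4, fun i g' => (a5 i g').trans
      (Nat.pow_le_pow_right (by norm_num) (Nat.add_le_add_left (le_rt hf) _))⟩, hT⟩

/-- Composition of a quantifier-free interpretation with new parameter `k + 1` and a
circuit reduction. -/
theorem comp_F {τ τ' τ'' : Voc} {s t s' t' s'' t'' : ℕ} {φ : PiF τ s t} {φ' : PiF τ' s' t'}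
    {φ'' : PiF τ'' s'' t''} (I : QInt τ τ') (hI : Indep I)
    (hne : ∀ n k, 1 ≤ n → Nonempty (I.Univ (nul τ n) k))
    (hcor : ∀ n k : ℕ, 1 ≤ n → ∀ A : Str τ (Fin n), (WDF φ A k ↔ WDF φ' (I.out A k) (k + 1)))
    {p q : ℕ} (h : RedF p q φ' φ'') : RedF p q φ φ'' := by
  obtain ⟨g, h⟩ := h
  refine ⟨g, fun e => ?_⟩
  obtain ⟨c, hc⟩ := h e
  obtain ⟨a, b, hab⟩ := univ_bd I
  have hfT := I.finTag
  have hfI := I.finIx
  obtain ⟨A0, hA0⟩ : ∃ A0, A0 = 2 * (a + b + 1) + 2 := ⟨_, rfl⟩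
  -- the number of gates
  have hPB : PB (fun Z => (∑ R : Fin τ'.num, (Z ^ (a + b)) ^ τ'.ar R) * szI I + 1 +
      Z ^ ((a + b + 3) * c) + 1) :=
    ((((PB_sum Finset.univ _ (fun R => (PB.var.pow (a + b)).pow (τ'.ar R))).mul
      (PB.const (szI I))).add (PB.const 1)).add (PB.var.pow _)).add (PB.const 1)
  obtain ⟨E, hE⟩ := hPB
  obtain ⟨C, hC⟩ : ∃ C, C = E + (a + b + 3) * c + c * A0 ^ p + (2 * c + c * A0 ^ g) +
    5 ^ e * (c * A0 + 1) := ⟨_, rfl⟩
  refine ⟨C, fun n k hn hk => ?_⟩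
  obtain ⟨n', hn'⟩ : ∃ n', n' = Nat.card (I.Univ (nul τ n) k) := ⟨_, rfl⟩
  have hfin : Finite (I.Univ (nul τ n) k) := by
    unfold QInt.Univ
    infer_instance
  have e₀ : I.Univ (nul τ n) k ≃ Fin n' := by
    rw [hn']
    exact Finite.equivFin _
  have hn1 : 1 ≤ n' := by
    rw [hn']
    have := hne n k hn
    exact Nat.card_pos
  obtain ⟨hb1, hb2, hb3⟩ := num_bd (n' := n') a b hn hk (by rw [hn']; exact hab n k (nul τ n))
  rw [← hA0] at hb3
  obtain ⟨f, T, hf, hTD, ⟨hM, hTN, -, hK, hfan⟩, hT⟩ := hc n' (k + 1) hn1 (by omega)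
  obtain ⟨Z, hZ⟩ : ∃ Z, Z = 2 ^ k * (n + 2) := ⟨_, rfl⟩
  obtain ⟨L, hL⟩ : ∃ L, L = Nat.log 2 (n + 1) := ⟨_, rfl⟩
  have hL1 : 1 ≤ L := by rw [hL]; exact Nat.log_pos (by norm_num) (by omega)
  rw [← hL] at hb3
  have hZ2 : 2 ≤ Z := by
    rw [hZ]
    calc 2 = 1 * 2 := rfl
      _ ≤ 2 ^ k * (n + 2) := Nat.mul_le_mul Nat.one_le_two_pow (by omega)
  rw [← hZ] at hb1 hb2
  have hZc : (2 ^ (k + 1) * (n' + 2)) ^ c ≤ Z ^ ((a + b + 3) * c) := by
    rw [pow_mul]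
    exact Nat.pow_le_pow_left hb1 _
  have hF1 : 1 ≤ 2 ^ (C * k + f) := Nat.one_le_two_pow
  have hTN1 : 1 ≤ T.N := by
    have := (T.par 0).2
    omega
  have hfan' : ∀ i g, (T.cir i g).fan ≤ 2 ^ (C * k + f) := fun i g =>
    (hfan i g).trans (Nat.pow_le_pow_right (by norm_num) (Nat.add_le_add_right (by
      calc c * (k + 1) ≤ c * (2 * k) := Nat.mul_le_mul_left _ (by omega)
        _ = (2 * c) * k := by ring
        _ ≤ C * k := Nat.mul_le_mul_right _ (by omega)) f))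
  -- the composed family
  have h1 := cmp_fm (F := 2 ^ (C * k + f))
    (N := (∑ R : Fin τ'.num, n' ^ τ'.ar R) * szI I + 1) (c := 3) hF1
    (fun j : Bit τ' n' => gF I e₀ j true) (fun j => depth_gF I e₀ j true)
    (Nat.add_le_add_right (by
      calc ∑ j : Bit τ' n', (gF I e₀ j true).size ≤ ∑ _j : Bit τ' n', szI I :=
            Finset.sum_le_sum fun j _ => size_gF I e₀ j true
        _ = (∑ R : Fin τ'.num, n' ^ τ'.ar R) * szI I := by
            rw [Finset.sum_const, smul_eq_mul, Finset.card_univ]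
            congr 1
            simp only [Fintype.card_sigma, Fintype.card_fun, Fintype.card_fin]) 1)
  have h2 := cmp_layer (D := T.D) hTN1 T.cir hfan'
  have h3 := h1.serial h2
  obtain ⟨C', hCN, hCD, hCM, hCK, hCF, hCc⟩ := mkCC_ex T
    (fun x R w => decide ((gF I e₀ ⟨R, w⟩ true).Holds x)) h3
  refine ⟨f, C', ?_, ?_, ⟨?_, ?_, le_rfl, ?_, ?_⟩, ?_⟩
  · rw [← hL]
    calc f ^ (g + 1) ≤ c * (k + 1 + Nat.log 2 (n' + 1) + 1) ^ g := hf
      _ ≤ c * (A0 * (k + L + 1)) ^ g := Nat.mul_le_mul_left _ (Nat.pow_le_pow_left hb3 _)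
      _ = c * A0 ^ g * (k + L + 1) ^ g := by rw [mul_pow]; ring
      _ ≤ C * (k + L + 1) ^ g := Nat.mul_le_mul_right _ (by omega)
  · rw [hCD, ← hL]
    have h5 : T.D ^ e ≤ c * A0 * (k + L + 1) := by
      refine hTD.trans ?_
      rw [mul_assoc]
      exact Nat.mul_le_mul_left _ hb3
    calc (3 + 1 + T.D) ^ e ≤ (4 + 1) ^ e * (T.D ^ e + 1) := add_pow_bd 4 T.D e
      _ ≤ 5 ^ e * (c * A0 * (k + L + 1) + (k + L + 1)) :=
          Nat.mul_le_mul_left _ (by omega)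
      _ = 5 ^ e * (c * A0 + 1) * (k + L + 1) := by ring
      _ ≤ C * (k + L + 1) := Nat.mul_le_mul_right _ (by omega)
  · rw [hCM, ← hZ]
    exact (hM.trans hZc).trans (Nat.pow_le_pow_right (by omega) (by omega))
  · rw [hCN, ← hZ]
    refine le_trans ?_ ((hE Z hZ2).trans (Nat.pow_le_pow_right (by omega) (by omega)))
    apply Nat.add_le_add_right
    apply Nat.add_le_add _ (hTN.trans hZc)
    apply Nat.add_le_add_right
    apply Nat.mul_le_mul_right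
    exact Finset.sum_le_sum fun R _ => Nat.pow_le_pow_left hb2 _
  · rw [hCK]
    refine hK.trans ?_
    rw [← hL]
    calc c * (k + 1 + Nat.log 2 (n' + 1) + 1) ^ p ≤ c * (A0 * (k + L + 1)) ^ p :=
          Nat.mul_le_mul_left _ (Nat.pow_le_pow_left hb3 _)
      _ = c * A0 ^ p * (k + L + 1) ^ p := by
          rw [mul_pow]; ring
      _ ≤ C * (k + L + 1) ^ p := by
          apply Nat.mul_le_mul_right
          rw [hC]
          omega
  · intro i g
    exact hCF i g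
  · intro A
    have hg : (fun R w => decide ((gF I e₀ ⟨R, w⟩ true).Holds (bits A)) : Str τ' (Fin n')) =
        outF I hI e₀ A := by
      funext R w
      rw [Bool.eq_iff_iff, decide_eq_true_eq]
      exact holds_gF I hI e₀ A ⟨R, w⟩ true
    obtain ⟨j, hj1, hj2⟩ := hT (outF I hI e₀ A)
    obtain ⟨j'', hj3, hj4⟩ := hCc A j (by rw [hg]; exact hj1)
    refine ⟨j'', hj3, ?_⟩
    rw [hcor n k hn A, ← outF_WD I hI e₀ A, hj2, ← hj4 _ _ φ'', hg]

/-- lower bounds for the normal form problems -/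
theorem no_red_normF (m d : ℕ) (hd : 1 ≤ d) (p q t' : ℕ) (ht' : 2 ≤ t') (hq : 1 ≤ q) (τ : Voc)
    (s : ℕ) (φ : PiF τ s t') (h : t' < m + 2 ∨ (t' = m + 2 ∧ 2 ≤ d ∧ p * φ.innerOcc < q * d)) :
    ¬ RedF p q (normF (decide (m % 2 = 0)) m d) φ := by
  intro hred
  obtain ⟨m', rfl⟩ : ∃ m', t' = m' + 2 := ⟨t' - 2, by omega⟩
  rcases h with h | ⟨h, hd2, h'⟩
  · obtain ⟨I, h1, h2, h3⟩ := qg_norm m d hd 1 le_rfl (m' + 2) _ 1
      (srcFt (decide (m' % 2 = 0)) m' (p * φ.innerOcc + 1)) (Or.inl h)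
    have h4 : RedF p q (srcFt (decide (m' % 2 = 0)) m' (p * φ.innerOcc + 1)) φ :=
      comp_F I h1 h2 (fun n k hn A => by
        have h5 := h3 n k hn A
        simp only [pow_one] at h5
        exact h5) hred
    refine no_red_srcF m' (p * φ.innerOcc + 1) φ.innerOcc p q (by omega) hq ?_ φ le_rfl h4
    calc p * φ.innerOcc < p * φ.innerOcc + 1 + 1 := by omega
      _ ≤ q * (p * φ.innerOcc + 1 + 1) := Nat.le_mul_of_pos_left _ hq
  · obtain rfl : m' = m := by omega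
    obtain ⟨e, rfl⟩ : ∃ e, d = e + 1 := ⟨d - 1, by omega⟩
    obtain ⟨I, h1, h2, h3⟩ := qg_norm m' (e + 1) hd 1 le_rfl (m' + 2) _ 1
      (srcFt (decide (m' % 2 = 0)) m' e) (Or.inr ⟨rfl, Or.inl (by
        refine (occP_le _ _).trans ?_
        have := srcFt_occ (decide (m' % 2 = 0)) m' e
        unfold PiF.occ at this
        rw [this]
        omega)⟩)
    have h4 : RedF p q (srcFt (decide (m' % 2 = 0)) m' e) φ :=
      comp_F I h1 h2 (fun n k hn A => by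
        have h5 := h3 n k hn A
        simp only [pow_one] at h5
        exact h5) hred
    exact no_red_srcF m' e φ.innerOcc p q (by omega) hq h' φ le_rfl h4


/-- the reductions to the normal form that can be composed -/
def Core (m w p q : ℕ) {τ' : Voc} {s : ℕ} (φ : PiF τ' s (m + 2)) : Prop :=
  ∀ c : ℕ, ∃ C, ∀ (τ : Voc) (n k : ℕ), 1 ≤ n → 1 ≤ k → ∀ T : Tr τ τ' n,
      T.BoundedPow p q k c → ∃ T' : Tr τ (srcVt m w) n, T'.BoundedPow (p * 1) q k C ∧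
        ∀ (A : Str τ (Fin n)) (j : Fin (T.K + 1)), (∀ j', (T.par j').Holds (bits A) ↔ j' = j) →
          ∃ j'' : Fin (T'.K + 1), (∀ j', (T'.par j').Holds (bits A) ↔ j' = j'') ∧
            (WDF φ (T.out A) j ↔ WDF (normF (decide (m % 2 = 0)) m w) (T'.out A) j'')

lemma core_width (m w p q : ℕ) (hw : 1 ≤ w) (hq : 1 ≤ q) (hpq : p ≤ q) {τ' : Voc} {s : ℕ}
    (φ : PiF τ' s (m + 2)) (h : φ.width ≤ w) : Core m w p q φ := by
  rcases width_cases (by omega) φ h with h1 | h1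
  · exact T.comp_core m w 1 hw le_rfl φ (by rw [mul_one]; exact h1) p q hq hpq
  · exact V.comp_coreV m w 1 hw le_rfl φ (by rw [mul_one]; exact h1) p q hq hpq

lemma dep_leF {D D' c C e y G : ℕ} (h : D ^ e ≤ c * (y + 1)) (h' : D' ≤ D + C) :
    D' ^ e ≤ (C + c + (C + 1) ^ e * (c + 1) + G) * (y + 1) :=
  (dep_le h h').trans (Nat.mul_le_mul_right _ (by omega))

/-- lower bounds on restricted instances, width -/
theorem no_redAt_widthF (m d w p q u v : ℕ) (hd : 1 ≤ d) (hq : 1 ≤ q)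
    (hu : 1 ≤ u) (huv : u ≤ v) (hpq' : p ≤ q) (hpq : v * p * w < q * (u * (d + 1)))
    {τ' : Voc} {s : ℕ} (φ : PiF τ' s (m + 2)) (h : φ.width ≤ w) :
    ¬ RedFAt u v p q (srcFt (decide (m % 2 = 0)) m d) φ := by
  rcases Nat.eq_zero_or_pos w with h0 | h0
  · refine no_redAt_F m d w p q u v hd hq hu huv hpq φ ?_
    rw [innerOcc_zero φ (by omega)]
    omega
  · rintro ⟨g, h2⟩
    refine no_redAt_F m d w p q u v hd hq hu huv hpq (normF (decide (m % 2 = 0)) m w)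
      ((occP_le _ _).trans (normF_occ _ m w).le) ⟨g, fun e => ?_⟩
    obtain ⟨c, hc⟩ := h2 e
    obtain ⟨C, hC⟩ := comp_gen m w 1 φ p q hq (core_width m w p q h0 hq hpq' φ h) c
    refine ⟨C + c + (C + 1) ^ e * (c + 1), fun n k hn hk hkk => ?_⟩
    obtain ⟨f, T, hf, hTD, hT, hcor⟩ := hc n k hn hk hkk
    obtain ⟨T', hD', hT', hcor'⟩ := hC _ n k hn hk (2 ^ f) Nat.one_le_two_pow T hT
    obtain ⟨a1, a2, -, a4, a5⟩ := hT'
    rw [mul_one] at a4
    have hZ1 : 0 < 2 ^ k * (n + 2) := Nat.mul_pos (by positivity) (by omega)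
    refine ⟨f, T', hf.trans (Nat.mul_le_mul_right _ (by omega)), dep_le hTD hD',
      ⟨a1.trans (Nat.pow_le_pow_right hZ1 (by omega)),
      a2.trans (Nat.pow_le_pow_right hZ1 (by omega)), le_rfl,
      a4.trans (Nat.mul_le_mul_right _ (by omega)), a5⟩, fun A => ?_⟩
    obtain ⟨j, h1, h2⟩ := hcor A
    obtain ⟨j'', h3, h4⟩ := hcor' A j h1
    exact ⟨j'', h3, h2.trans h4⟩

/-- lower bounds for the normal form problems, width -/
theorem no_red_widthF (m d : ℕ) (hd : 2 ≤ d) (p q : ℕ) (hq : 1 ≤ q) (hpq : p ≤ q) {τ : Voc}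
    {s : ℕ} (φ : PiF τ s (m + 2)) (hpw : p * φ.width < q * d) :
    ¬ RedF p q (normF (decide (m % 2 = 0)) m d) φ := by
  obtain ⟨w', hw', hw1, hpw'⟩ : ∃ w', φ.width ≤ w' ∧ 1 ≤ w' ∧ p * w' < q * d := by
    rcases Nat.eq_zero_or_pos φ.width with h0 | h0
    · refine ⟨1, by omega, le_rfl, ?_⟩
      calc p * 1 ≤ q := by omega
        _ < q * 2 := by omega
        _ ≤ q * d := Nat.mul_le_mul_left _ hd
    · exact ⟨φ.width, le_rfl, h0, hpw⟩
  rintro ⟨g, h2⟩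
  refine no_red_normF m d (by omega) p q (m + 2) (by omega) hq _ 1
    (normF (decide (m % 2 = 0)) m w') (Or.inr ⟨rfl, hd, ?_⟩) ⟨g, fun e => ?_⟩
  · refine lt_of_le_of_lt ?_ hpw'
    apply Nat.mul_le_mul_left
    refine (occP_le _ _).trans ?_
    exact (normF_occ _ m w').le
  · obtain ⟨c, hc⟩ := h2 e
    obtain ⟨C, hC⟩ := comp_gen m w' 1 φ p q hq (core_width m w' p q hw1 hq hpq φ hw') c
    refine ⟨C + c + (C + 1) ^ e * (c + 1), fun n k hn hk => ?_⟩
    obtain ⟨f, T, hf, hTD, hT, hcor⟩ := hc n k hn hk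
    obtain ⟨T', hD', hT', hcor'⟩ := hC _ n k hn hk (2 ^ (c * k + f)) Nat.one_le_two_pow T hT
    obtain ⟨a1, a2, -, a4, a5⟩ := hT'
    rw [mul_one] at a4
    have hZ1 : 0 < 2 ^ k * (n + 2) := Nat.mul_pos (by positivity) (by omega)
    refine ⟨f, T', hf.trans (Nat.mul_le_mul_right _ (by omega)), dep_le hTD hD',
      ⟨a1.trans (Nat.pow_le_pow_right hZ1 (by omega)),
      a2.trans (Nat.pow_le_pow_right hZ1 (by omega)), le_rfl,
      a4.trans (Nat.mul_le_mul_right _ (by omega)), fun i g' => (a5 i g').trans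
        (Nat.pow_le_pow_right (by norm_num) (Nat.add_le_add_right
          (Nat.mul_le_mul_right _ (by omega)) f))⟩, fun A => ?_⟩
    obtain ⟨j, h1, h2⟩ := hcor A
    obtain ⟨j'', h3, h4⟩ := hcor' A j h1
    exact ⟨j'', h3, h2.trans h4⟩

end

end Pool.Agent.Helper265_EW.Z
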